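import Pool.Agent.Run7.h52.M1

/-!
The Maier phenomenon for square weights with an explicit deviation.
-/

set_option autoImplicit false
set_option linter.unusedSectionVars false

namespace Run7.h52.M2

open Finset Filter Run7.h52.Count Run7.h52.Rough Run7.h52.Asym Run7.h52.AsmV Run7.h52.U11 Run7.h52.U12 Run7.h52.U19
  Run7.h52.U20 Run7.h52.E3 Run7.h52.E4 Run7.h52.E5 Run7.h52.E8 Run7.h52.E9 Run7.h52.E10 Run7.h52.E11 Run7.h52.M1
open Pool.Agent.N610.MS (V rel S_CNT)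

/-- **Maier**: classes with too many and with too few survivors -/
theorem maier_clsE {a : ℝ} (ha : 0 < a) : ∃ κ : ℝ, 0 < κ ∧ ∀ e : ℝ, 0 < e → e ≤ 1 / 2 →
    ∀ᶠ l : ℝ in atTop, ∀ Y : ℕ, l ^ a ≤ Y → (Y : ℝ) ≤ l ^ (a + κ) →
      (∃ b : ℤ, (1 + 2 * dl a) * (W ⌊e * l⌋₊ * Y) ≤ rg ⌊e * l⌋₊ (Finset.Ioc (0 : ℤ) (0 + (Y : ℤ))) b) ∧
      (∃ b : ℤ, rg ⌊e * l⌋₊ (Finset.Ioc (0 : ℤ) (0 + (Y : ℤ))) b ≤ (1 - 2 * dl a) * (W ⌊e * l⌋₊ * Y)) := by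
  obtain ⟨κ₀, hκ₀, hC1⟩ := cntE ha
  have hp := hC1 1 (Or.inl rfl)
  have hm := hC1 (-1) (Or.inr rfl)
  refine ⟨κ₀ / 2, by positivity, fun e he0 he1 => ?_⟩
  have hX : Tendsto (fun l : ℝ => e * l) atTop atTop := tendsto_id.const_mul_atTop he0
  have hpow : ∀ᶠ l : ℝ in atTop, 1 / e ^ (a + κ₀) ≤ l ^ (κ₀ / 2) :=
    (tendsto_rpow_atTop (by positivity : 0 < κ₀ / 2)).eventually_ge_atTop _
  filter_upwards [hX.eventually hp, hX.eventually hm, hpow, eventually_ge_atTop (1 : ℝ)]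
    with l h1 h2 h3 h4 Y hY1 hY2
  have hl0 : 0 < l := by linarith
  have hel : 0 < e * l := by positivity
  have hY1' : (e * l) ^ a ≤ (Y : ℝ) := by
    refine le_trans (Real.rpow_le_rpow hel.le ?_ ha.le) hY1
    have := mul_le_mul_of_nonneg_right he1 hl0.le
    linarith
  have hY2' : (Y : ℝ) ≤ (e * l) ^ (a + κ₀) := by
    rw [Real.mul_rpow he0.le hl0.le]
    refine hY2.trans ?_
    have e1 : l ^ (a + κ₀) = l ^ (a + κ₀ / 2) * l ^ (κ₀ / 2) := by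
      rw [← Real.rpow_add hl0]; congr 1; ring
    rw [e1]
    have h5 : 0 < e ^ (a + κ₀) := by positivity
    rw [div_le_iff₀ h5] at h3
    have h6 : 0 < l ^ (a + κ₀ / 2) := by positivity
    have := mul_le_mul_of_nonneg_left h3 h6.le
    linarith
  have hYpos : 1 ≤ Y := by
    have : (1 : ℝ) ≤ l ^ a := Real.one_le_rpow h4 ha.le
    exact_mod_cast this.trans hY1
  have hWY : 0 ≤ W ⌊e * l⌋₊ * (Y : ℝ) := mul_nonneg (W_pos _).le (Nat.cast_nonneg _)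
  constructor
  · obtain ⟨P, hPs, hrel⟩ := h1
    obtain ⟨b, hb⟩ := (rel_class hPs hYpos).1
    refine ⟨b, le_trans (mul_le_mul_of_nonneg_right ?_ hWY) hb⟩
    have := hrel Y hY1' hY2'
    linarith
  · obtain ⟨P, hPs, hrel⟩ := h2
    obtain ⟨b, hb⟩ := (rel_class hPs hYpos).2
    refine ⟨b, hb.trans (mul_le_mul_of_nonneg_right ?_ hWY)⟩
    have := hrel Y hY1' hY2'
    linarith

/-- **the Maier phenomenon for square weights** -/
theorem twoGE {a : ℝ} (ha : 2 < a) : ∃ κ : ℝ, 0 < κ ∧ ∀ {θ B ε : ℝ}, 0 < θ → θ < 1 →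
    0 ≤ B → 0 < ε →
    ∃ c : ℝ, 0 < c ∧ ∃ T : ℝ, 3 ≤ T ∧ ∀ N : ℕ, T ≤ N → ∀ Y z : ℕ, (Real.log N) ^ a ≤ Y →
    (Y : ℝ) ≤ (Real.log N) ^ (a + κ) → Real.log N ≤ z → (z : ℝ) ≤ (N : ℝ) ^ c →
    ∃ d : ℕ, 1 ≤ d ∧ (d : ℝ) ≤ (N : ℝ) ^ θ ∧ ∀ g : ℕ, 1 ≤ g → (g : ℝ) ≤ (N : ℝ) ^ B →
    (∀ p : ℕ, p.Prime → (p : ℝ) ≤ Real.log N → ¬ p ∣ g) →
    (∃ b : ℤ, ∀ x : ℤ,
      ∑ n ∈ Finset.Ioc x (x + N), (if (Rg g z Y n : ℝ) < (1 + dl a) * (Wg g z * Y) then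
        (if (d : ℤ) ∣ n - b then (1 : ℝ) else 0) else 0)
        ≤ ε * ∑ n ∈ Finset.Ioc x (x + N), (if (d : ℤ) ∣ n - b then (1 : ℝ) else 0)) ∧
    (∃ b : ℤ, ∀ x : ℤ,
      ∑ n ∈ Finset.Ioc x (x + N), (if (1 - dl a) * (Wg g z * Y) < (Rg g z Y n : ℝ) then
        (if (d : ℤ) ∣ n - b then (1 : ℝ) else 0) else 0)
        ≤ ε * ∑ n ∈ Finset.Ioc x (x + N), (if (d : ℤ) ∣ n - b then (1 : ℝ) else 0)) := by
  classical
  obtain ⟨κ₀, hκ₀, hM⟩ := maier_clsE (by linarith : 0 < a)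
  refine ⟨κ₀, hκ₀, ?_⟩
  obtain ⟨δ₁, hδ₁d⟩ : ∃ δ₁ : ℝ, δ₁ = 2 * dl a := ⟨_, rfl⟩
  have hδ₁ : 0 < δ₁ := by rw [hδ₁d]; have := dl_pos a; positivity
  have hdla : dl a = δ₁ / 2 := by rw [hδ₁d]; ring
  rw [← hδ₁d] at hM
  rw [hdla]
  intro θ B ε hθ0 hθ1 hB hε
  set e : ℝ := min ((1 - θ) / 12) (θ / 4) with he
  have he0 : 0 < e := lt_min (by linarith) (by linarith)
  have heθ : e ≤ θ / 4 := min_le_right _ _
  have he1 : e ≤ 1 / 2 := by linarith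
  have hθe : 6 * e < 1 - θ := by
    have : e ≤ (1 - θ) / 12 := min_le_left _ _
    linarith
  set η : ℝ := δ₁ / (4 * (1 + δ₁)) with hη
  have hη0 : 0 < η := by positivity
  set κ : ℝ := min (1 / 10) (min η (ε * η ^ 2 / 30)) with hκ
  have hκ0 : 0 < κ := lt_min (by norm_num) (lt_min hη0 (by positivity))
  have hκ1 : κ ≤ 1 / 10 := min_le_left _ _
  have hκη : κ ≤ η := (min_le_right _ _).trans (min_le_left _ _)
  have hκε : κ ≤ ε * η ^ 2 / 30 := (min_le_right _ _).trans (min_le_right _ _)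
  set δ : ℝ := min (a - 2) 1 with hδ
  have hδ0 : 0 < δ := lt_min (by linarith) one_pos
  have hδ1 : δ ≤ 1 := min_le_right _ _
  have hδa : 2 + δ ≤ a := by
    have : δ ≤ a - 2 := min_le_left _ _
    linarith
  obtain ⟨c', hc', hc1, T, hT3, hT⟩ := oneG hB hδ0 hδ1 he0 he1 hθe hθ0 hκ0 hκ1
  have hlogN : Tendsto (fun N : ℕ => Real.log (N : ℝ)) atTop atTop :=
    Real.tendsto_log_atTop.comp tendsto_natCast_atTop_atTop
  have ev1 := hlogN.eventually (hM e he0 he1)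
  have ev2 : ∀ᶠ N : ℕ in atTop, (Real.log (N : ℝ)) ^ (a + κ₀) ≤ N := by
    have h1 := (isLittleO_log_rpow_rpow_atTop (a + κ₀) one_pos).bound (zero_lt_one)
    have h2 := tendsto_natCast_atTop_atTop.eventually h1
    filter_upwards [h2, eventually_ge_atTop 3] with N h3 h4
    have hN : (3 : ℝ) ≤ N := by exact_mod_cast h4
    have hl : 0 ≤ Real.log (N : ℝ) := Real.log_nonneg (by linarith)
    rw [Real.rpow_one, one_mul, Real.norm_of_nonneg (Real.rpow_nonneg hl _), Real.norm_of_nonneg (by linarith)] at h3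
    exact h3
  obtain ⟨N₁, hN₁⟩ := eventually_atTop.1 (ev1.and ev2)
  refine ⟨c', hc', max T N₁, hT3.trans (le_max_left _ _), fun N hN Y z hY1 hY2 hz1 hz2 => ?_⟩
  have hNT : T ≤ N := (le_max_left _ _).trans hN
  have hNN : N₁ ≤ N := by exact_mod_cast (le_max_right _ _).trans hN
  obtain ⟨hm, hYN⟩ := hN₁ N hNN
  have hN3 : (3 : ℝ) ≤ N := hT3.trans hNT
  have hN0 : (0 : ℝ) < N := by linarith
  have hlN1 : 1 ≤ Real.log N := by
    rw [Real.le_log_iff_exp_le hN0]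
    exact Real.exp_one_lt_three.le.trans hN3
  have hel : e * Real.log N ≤ Real.log N := by
    have := mul_le_mul_of_nonneg_right he1 (by linarith : 0 ≤ Real.log N)
    linarith
  have hz₀z : ⌊e * Real.log N⌋₊ ≤ z := by
    refine (Nat.floor_le_floor (hel.trans hz1)).trans ?_
    rw [Nat.floor_natCast]
  have hY2' : (Real.log N) ^ (2 + δ) ≤ Y := (Real.rpow_le_rpow_of_exponent_le hlN1 hδa).trans hY1
  have hYN' : Y ≤ N := by exact_mod_cast hY2.trans hYN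
  have hfl : (⌊e * Real.log N⌋₊ : ℝ) ≤ e * Real.log N := Nat.floor_le (by positivity)
  refine ⟨W0 ⌊e * Real.log N⌋₊, W0_pos _, ?_, fun g hg hgN hgp => ?_⟩
  · have h1 := log_W0 ⌊e * Real.log N⌋₊
    have h0 : (0 : ℝ) < W0 ⌊e * Real.log N⌋₊ := by exact_mod_cast W0_pos _
    rw [← Real.log_le_log_iff h0 (by positivity), Real.log_rpow hN0]
    have h2 : e * Real.log N ≤ θ / 4 * Real.log N := mul_le_mul_of_nonneg_right heθ (by linarith)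
    have h3 : 0 ≤ θ * Real.log N := by positivity
    linarith
  have hgp' : ∀ p ∈ PP ⌊e * Real.log N⌋₊, ¬ p ∣ g := by
    intro p hp
    have hp' := mem_PP.1 hp
    refine hgp p hp'.1 ?_
    have : (p : ℝ) ≤ ⌊e * Real.log N⌋₊ := by exact_mod_cast hp'.2
    linarith
  have hO := hT N hNT Y z hY2' hYN' hz₀z hz2 g hg hgN hgp'
  obtain ⟨⟨bp, hbp⟩, ⟨bm, hbm⟩⟩ := hm Y hY1 hY2
  have hWg0 := Wg_pos g z
  have hW00 := W_pos ⌊e * Real.log N⌋₊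
  have hKε : 30 * κ / η ^ 2 ≤ ε := by
    rw [div_le_iff₀ (by positivity)]
    linarith
  have hsum0 : ∀ x b : ℤ, 0 ≤ ∑ n ∈ Finset.Ioc x (x + N),
      (if ((W0 ⌊e * Real.log N⌋₊ : ℕ) : ℤ) ∣ n - b then (1 : ℝ) else 0) := fun x b =>
    Finset.sum_nonneg fun n _ => by split_ifs <;> norm_num
  have hA : ∀ b : ℤ, ∀ x : ℤ, ∀ n ∈ Finset.Ioc x (x + N),
      (0 : ℝ) ≤ (if ((W0 ⌊e * Real.log N⌋₊ : ℕ) : ℤ) ∣ n - b then (1 : ℝ) else 0) := by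
    intro b x n _
    split_ifs <;> norm_num
  constructor
  · refine ⟨g * bp, fun x => ?_⟩
    obtain ⟨S, μ, hS, hSW, hμ1, hμ2, hv⟩ := hO x bp
    have hSD : (1 + δ₁) * (Wg g z * Y) ≤ S := by
      have h1 := mul_le_mul_of_nonneg_left hbp hWg0.le
      rw [← hSW] at h1
      refine le_of_mul_le_mul_right ?_ hW00
      refine le_trans (le_of_eq ?_) h1
      ring
    have hd := (devi (D := Wg g z * Y) hS hδ₁ hη hκη hμ1 hμ2).1 hSD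
    have := cheb' (hA (g * bp) x) (fun n => (Rg g z Y n : ℝ)) hS hη0 hv
      (fun n => (Rg g z Y n : ℝ) < (1 + δ₁ / 2) * (Wg g z * Y)) (fun n _ hn => hd _ hn)
    exact this.trans (mul_le_mul_of_nonneg_right hKε (hsum0 x _))
  · refine ⟨g * bm, fun x => ?_⟩
    obtain ⟨S, μ, hS, hSW, hμ1, hμ2, hv⟩ := hO x bm
    have hSD : S ≤ (1 - δ₁) * (Wg g z * Y) := by
      have h1 := mul_le_mul_of_nonneg_left hbm hWg0.le
      rw [← hSW] at h1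
      refine le_of_mul_le_mul_right ?_ hW00
      refine le_trans h1 (le_of_eq ?_)
      ring
    have hd := (devi (D := Wg g z * Y) hS hδ₁ hη hκη hμ1 hμ2).2 hSD (by positivity)
    have := cheb' (hA (g * bm) x) (fun n => (Rg g z Y n : ℝ)) hS hη0 hv
      (fun n => (1 - δ₁ / 2) * (Wg g z * Y) < (Rg g z Y n : ℝ)) (fun n _ hn => hd _ hn)
    exact this.trans (mul_le_mul_of_nonneg_right hKε (hsum0 x _))

/-- the two classes, in terms of cardinalities -/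
theorem twoIE {a : ℝ} (ha : 2 < a) : ∃ κ : ℝ, 0 < κ ∧ ∀ {θ B ε : ℝ}, 0 < θ → θ < 1 →
    0 ≤ B → 0 < ε →
    ∃ c : ℝ, 0 < c ∧ ∃ T : ℝ, 3 ≤ T ∧ ∀ N : ℕ, T ≤ N → ∀ Y z : ℕ, (Real.log N) ^ a ≤ Y →
    (Y : ℝ) ≤ (Real.log N) ^ (a + κ) → Real.log N ≤ z → (z : ℝ) ≤ (N : ℝ) ^ c →
    ∃ d : ℕ, 1 ≤ d ∧ (d : ℝ) ≤ (N : ℝ) ^ θ ∧ ∀ g : ℕ, 1 ≤ g → (g : ℝ) ≤ (N : ℝ) ^ B →
    (∀ p : ℕ, p.Prime → (p : ℝ) ≤ Real.log N → ¬ p ∣ g) →
    (∃ b : ℤ, ∀ x : ℤ,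
      (1 - ε) * (((Finset.Ioc x (x + N)).filter fun n => (d : ℤ) ∣ n - b).card : ℝ) ≤
      (((Finset.Ioc x (x + N)).filter fun n => (d : ℤ) ∣ n - b ∧
        (1 + dl a) * (Wg g z * Y) ≤ (Rg g z Y n : ℝ)).card : ℝ)) ∧
    (∃ b : ℤ, ∀ x : ℤ,
      (1 - ε) * (((Finset.Ioc x (x + N)).filter fun n => (d : ℤ) ∣ n - b).card : ℝ) ≤
      (((Finset.Ioc x (x + N)).filter fun n => (d : ℤ) ∣ n - b ∧
        (Rg g z Y n : ℝ) ≤ (1 - dl a) * (Wg g z * Y)).card : ℝ)) := by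
  classical
  obtain ⟨κ, hκ, H⟩ := twoGE ha
  refine ⟨κ, hκ, ?_⟩
  intro θ B ε hθ0 hθ1 hB hε
  obtain ⟨c, hc, T, hT, H1⟩ := H hθ0 hθ1 hB hε
  refine ⟨c, hc, T, hT, fun N hN Y z h1 h2 h3 h4 => ?_⟩
  obtain ⟨d, hd1, hd2, H2⟩ := H1 N hN Y z h1 h2 h3 h4
  refine ⟨d, hd1, hd2, fun g hg hgN hgp => ?_⟩
  obtain ⟨⟨b, hb⟩, ⟨b', hb'⟩⟩ := H2 g hg hgN hgp
  have key : ∀ (x b : ℤ) (P Q : ℤ → Prop) (_ : DecidablePred P) (_ : DecidablePred Q), (∀ n, ¬ P n → Q n) →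
      ∑ n ∈ Finset.Ioc x (x + N), (if P n then (if (d : ℤ) ∣ n - b then (1 : ℝ) else 0) else 0)
        ≤ ε * ∑ n ∈ Finset.Ioc x (x + N), (if (d : ℤ) ∣ n - b then (1 : ℝ) else 0) →
      (1 - ε) * (((Finset.Ioc x (x + N)).filter fun n => (d : ℤ) ∣ n - b).card : ℝ) ≤
        (((Finset.Ioc x (x + N)).filter fun n => (d : ℤ) ∣ n - b ∧ Q n).card : ℝ) := by
    intro x b P Q _ _ hPQ h
    have h5 := share P h
    have e1 : ∑ n ∈ Finset.Ioc x (x + N), (if (d : ℤ) ∣ n - b then (1 : ℝ) else 0)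
        = (((Finset.Ioc x (x + N)).filter fun n => (d : ℤ) ∣ n - b).card : ℝ) := by
      rw [Finset.card_filter]; push_cast; rfl
    rw [e1] at h5
    refine h5.trans ?_
    rw [Finset.card_filter]
    push_cast
    refine Finset.sum_le_sum fun n _ => ?_
    by_cases hP : P n
    · rw [if_pos hP]
      split_ifs <;> norm_num
    · rw [if_neg hP]
      by_cases hdn : (d : ℤ) ∣ n - b
      · rw [if_pos hdn, if_pos ⟨hdn, hPQ n hP⟩]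
      · rw [if_neg hdn, if_neg (fun h => hdn h.1)]
  constructor
  · refine ⟨b, fun x => key x b _ _ (fun _ => Classical.dec _) (fun _ => Classical.dec _) (fun n hn => not_lt.1 hn) ?_⟩
    convert hb x
  · refine ⟨b', fun x => key x b' _ _ (fun _ => Classical.dec _) (fun _ => Classical.dec _) (fun n hn => not_lt.1 hn) ?_⟩
    convert hb' x

end Run7.h52.M2
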