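import Pool.Agent.Run7.h52.Asym3
import Pool.Agent.Run7.h52.M2

/-!
The Maier phenomenon for means of square weights over a full period.
-/

set_option autoImplicit false
set_option linter.unusedSectionVars false

namespace Run7.h52.M8

open Finset Filter Run7.h52.Count Run7.h52.Rough Run7.h52.Asym Run7.h52.AsmV Run7.h52.E4 Run7.h52.E8
  Run7.h52.E9 Run7.h52.M1 Run7.h52.M2

/-- the average over a class -/
theorem avg1 {g z : ℕ} (H : Finset ℤ) (b : ℤ) :
    ∑ t ∈ Finset.range (Gg g z), (SW.survivors (PP z) H (b + Mg g z * (t : ℤ))).card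
      = Nat.totient (Gg g z) * (SW.survivors (Pn g z) H b).card := by
  classical
  unfold SW.survivors
  simp only [Finset.card_filter]
  rw [Finset.sum_comm, Finset.mul_sum]
  refine Finset.sum_congr rfl fun h _ => ?_
  have key : ∀ t : ℕ, (∀ p ∈ PP z, ¬ (p : ℤ) ∣ b + Mg g z * (t : ℤ) + h) ↔
      ((∀ p ∈ Pn g z, ¬ (p : ℤ) ∣ b + h) ∧ ∀ p ∈ Pd g z, ¬ (p : ℤ) ∣ Mg g z * (t : ℤ) + (b + h)) := by
    intro t
    have e : b + Mg g z * (t : ℤ) + h = Mg g z * (t : ℤ) + (b + h) := by ring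
    have k1 : ∀ p ∈ Pn g z, ((p : ℤ) ∣ b + Mg g z * (t : ℤ) + h ↔ (p : ℤ) ∣ b + h) := by
      intro p hp
      have h3 : (p : ℤ) ∣ (Mg g z : ℤ) := by
        exact_mod_cast Finset.dvd_prod_of_mem (fun p => p) hp
      rw [e]
      exact Int.dvd_add_right (h3.mul_right _)
    constructor
    · intro H
      constructor
      · intro p hp hd
        have hp' := mem_Pn.1 hp
        exact H p (mem_PP.2 ⟨hp'.1, hp'.2.1⟩) ((k1 p hp).2 hd)
      · intro p hp hd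
        have hp' := mem_Pd.1 hp
        rw [← e] at hd
        exact H p (mem_PP.2 ⟨hp'.1, hp'.2.1⟩) hd
    · rintro ⟨H1, H2⟩ p hp hd
      have hp' := mem_PP.1 hp
      by_cases hg : p ∣ g
      · rw [e] at hd
        exact H2 p (mem_Pd.2 ⟨hp'.1, hp'.2, hg⟩) hd
      · have hpn : p ∈ Pn g z := mem_Pn.2 ⟨hp'.1, hp'.2, hg⟩
        exact H1 p hpn ((k1 p hpn).1 hd)
  have e1 : ∀ t : ℕ, (if (∀ p ∈ PP z, ¬ (p : ℤ) ∣ b + Mg g z * (t : ℤ) + h) then 1 else 0)
      = (if (∀ p ∈ Pn g z, ¬ (p : ℤ) ∣ b + h) then 1 else 0) *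
        (if (∀ p ∈ Pd g z, ¬ (p : ℤ) ∣ Mg g z * (t : ℤ) + (b + h)) then 1 else 0) := by
    intro t
    by_cases c1 : ∀ p ∈ Pn g z, ¬ (p : ℤ) ∣ b + h
    · by_cases c2 : ∀ p ∈ Pd g z, ¬ (p : ℤ) ∣ Mg g z * (t : ℤ) + (b + h)
      · rw [if_pos ((key t).2 ⟨c1, c2⟩), if_pos c1, if_pos c2]
      · rw [if_neg (fun hh => c2 ((key t).1 hh).2), if_neg c2, mul_zero]
    · rw [if_neg (fun hh => c1 ((key t).1 hh).1), if_neg c1, zero_mul]
  rw [Finset.sum_congr rfl fun t _ => e1 t, ← Finset.mul_sum, ← Finset.card_filter, card_unit, mul_comm]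

/-- sums of periodic functions -/
lemma sum_per {G : ℕ} (u : ℕ → ℝ) (hu : ∀ t, u (G + t) = u t) (K : ℕ) :
    ∑ t ∈ Finset.range (G * K), u t = K * ∑ t ∈ Finset.range G, u t := by
  induction K with
  | zero => simp
  | succ K ih =>
    rw [Nat.mul_succ, add_comm (G * K) G, Finset.sum_range_add, Finset.sum_congr rfl fun t _ => hu t, ih]
    push_cast
    ring

/-- sums over a class -/
lemma sum_class {d N : ℕ} (hd : 0 < d) (b : ℤ) (f : ℤ → ℝ) :
    ∑ n ∈ Finset.range (d * N), (if (d : ℤ) ∣ (n : ℤ) - b then f n else 0)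
      = ∑ t ∈ Finset.range N, f (b % d + d * (t : ℤ)) := by
  classical
  have hd' : (0 : ℤ) < d := by exact_mod_cast hd
  have hb0 : 0 ≤ b % d := Int.emod_nonneg _ hd'.ne'
  have hb1 : b % d < d := Int.emod_lt_of_pos _ hd'
  rw [← Finset.sum_filter]
  symm
  refine Finset.sum_bij (fun t _ => (b % d).toNat + d * t) ?_ ?_ ?_ ?_
  · intro t ht
    rw [Finset.mem_range] at ht
    rw [Finset.mem_filter, Finset.mem_range]
    have h1 : (((b % d).toNat : ℕ) : ℤ) = b % d := Int.toNat_of_nonneg hb0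
    constructor
    · have h2 : (b % d).toNat < d := by omega
      calc (b % d).toNat + d * t < d + d * t := by omega
        _ = d * (t + 1) := by ring
        _ ≤ d * N := Nat.mul_le_mul_left _ ht
    · push_cast
      rw [h1]
      have h2 : b % d + d * (t : ℤ) - b = d * (t - b / d) := by
        have := Int.emod_def b d
        rw [this]; ring
      rw [h2]
      exact dvd_mul_right _ _
  · intro a _ c _ h
    have : d * a = d * c := by omega
    exact Nat.eq_of_mul_eq_mul_left hd this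
  · intro n hn
    rw [Finset.mem_filter, Finset.mem_range] at hn
    have h1 : (((b % d).toNat : ℕ) : ℤ) = b % d := Int.toNat_of_nonneg hb0
    have h3 : (n : ℤ) % d = b % d := (Int.modEq_iff_dvd.2 hn.2).symm
    refine ⟨n / d, ?_, ?_⟩
    · rw [Finset.mem_range]
      exact Nat.div_lt_of_lt_mul hn.1
    · have h4 : (b % d).toNat = n % d := by
        have : ((n % d : ℕ) : ℤ) = (((b % d).toNat : ℕ) : ℤ) := by
          rw [h1, ← h3]; push_cast; rfl
        exact_mod_cast this.symm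
      rw [h4]
      exact Nat.mod_add_div n d
  · intro t _
    congr 1
    push_cast
    rw [Int.toNat_of_nonneg hb0]

/-- the mean of the class weight -/
theorem class_mean {y z M : ℕ} (hyz : y ≤ z) (hM : 0 < M) (hPM : ∀ p ∈ PP z, p ∣ M) (H : Finset ℤ) (b : ℤ) :
    0 < ∑ n ∈ Finset.range M, (if ((W0 y : ℕ) : ℤ) ∣ (n : ℤ) - b then (1 : ℝ) else 0) ∧
    (∑ n ∈ Finset.range M, (if ((W0 y : ℕ) : ℤ) ∣ (n : ℤ) - b then (1 : ℝ) else 0) * rg z H n) * W y
      = W z * rg y H b * ∑ n ∈ Finset.range M, (if ((W0 y : ℕ) : ℤ) ∣ (n : ℤ) - b then (1 : ℝ) else 0) := by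
  classical
  obtain ⟨g, hg⟩ : ∃ g : ℕ, g = ∏ p ∈ (PP z) \ (PP y), p := ⟨_, rfl⟩
  have hPn : Pn g z = PP y := by
    rw [hg]
    exact Pn_prod fun p hp => ⟨(mem_PP.1 hp).1, (mem_PP.1 hp).2.trans hyz⟩
  have hMg : Mg g z = W0 y := by unfold Mg W0; rw [hPn]
  have hdG : W0 y * Gg g z = ∏ p ∈ PP z, p := by
    rw [← hMg]
    unfold Mg Gg Pn Pd
    rw [mul_comm, Finset.prod_filter_mul_prod_filter_not]
  have hdvd : W0 y * Gg g z ∣ M := by
    rw [hdG]
    exact Finset.prod_primes_dvd M (fun p hp => (mem_PP.1 hp).1.prime) hPM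
  obtain ⟨K, hK⟩ := hdvd
  have hd0 : 0 < W0 y := W0_pos y
  have hG0 : 0 < Gg g z := Gg_pos g z
  have hK0 : 0 < K := by
    rcases Nat.eq_zero_or_pos K with h | h
    · rw [h, mul_zero] at hK; omega
    · exact h
  have hK' : M = W0 y * (Gg g z * K) := by rw [hK]; ring
  have hsum1 : ∑ n ∈ Finset.range M, (if ((W0 y : ℕ) : ℤ) ∣ (n : ℤ) - b then (1 : ℝ) else 0)
      = (Gg g z : ℝ) * K := by
    rw [hK', sum_class hd0 b (fun _ => (1 : ℝ))]
    simp
  have hsum2 : ∑ n ∈ Finset.range M, (if ((W0 y : ℕ) : ℤ) ∣ (n : ℤ) - b then (1 : ℝ) else 0) * rg z H n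
      = K * ((Nat.totient (Gg g z) : ℕ) * rg y H b) := by
    have e1 : ∀ n ∈ Finset.range M, (if ((W0 y : ℕ) : ℤ) ∣ (n : ℤ) - b then (1 : ℝ) else 0) * rg z H n
        = if ((W0 y : ℕ) : ℤ) ∣ (n : ℤ) - b then rg z H n else 0 := by
      intro n _
      split_ifs
      · rw [one_mul]
      · rw [zero_mul]
    rw [Finset.sum_congr rfl e1, hK', sum_class hd0 b (fun n => rg z H n)]
    rw [sum_per (fun t : ℕ => rg z H (b % ((W0 y : ℕ) : ℤ) + ((W0 y : ℕ) : ℤ) * (t : ℤ)))]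
    · congr 1
      have h1 := avg1 (g := g) (z := z) H (b % ((W0 y : ℕ) : ℤ))
      rw [hPn, hMg] at h1
      have h2 : rg y H b = rg y H (b % ((W0 y : ℕ) : ℤ)) := by
        refine rg_congr H ?_
        exact Int.dvd_self_sub_emod
      rw [h2]
      unfold rg
      exact_mod_cast h1
    · intro t
      refine rg_congr H ?_
      have e2 : b % ((W0 y : ℕ) : ℤ) + ((W0 y : ℕ) : ℤ) * ((Gg g z + t : ℕ) : ℤ)
          - (b % ((W0 y : ℕ) : ℤ) + ((W0 y : ℕ) : ℤ) * (t : ℤ)) = ((W0 y * Gg g z : ℕ) : ℤ) := by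
        push_cast; ring
      rw [e2, hdG]
      exact dvd_rfl
  have hW : W z = W y * ∏ p ∈ Pd g z, (1 - 1 / (p : ℝ)) := by
    rw [W_eq g z]
    unfold Wg
    rw [hPn]
    rfl
  have hphi := phi_eq g z
  have hGr : (0 : ℝ) < Gg g z := by exact_mod_cast hG0
  have hKr : (0 : ℝ) < K := by exact_mod_cast hK0
  refine ⟨by rw [hsum1]; positivity, ?_⟩
  rw [hsum2, hsum1, hphi, hW]
  ring

/-- the indicator of a class is a square weight -/
lemma sw_ind {X : ℝ} {M d : ℕ} (hd : 1 ≤ d) (hdX : (d : ℝ) ≤ X) (hdM : d ∣ M) (b : ℤ) :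
    SW.SquareWeight X M (fun n => if (d : ℤ) ∣ n - b then (1 : ℝ) else 0) := by
  refine ⟨1, fun _ => d, fun _ => 1, fun _ => b, fun _ _ => 1, fun j => ⟨hd, le_rfl, ?_, hdM, ?_, ?_⟩, fun n => ?_⟩
  · simpa using hdX
  · intro q hq
    have : q = 1 := by simpa using hq
    rw [this]; exact one_dvd _
  · exact ⟨fun _ _ => 1, fun n => by simp⟩
  · simp

lemma rg_trans (y : ℕ) (x b : ℤ) (Y : ℕ) :
    rg y (Finset.Ioc x (x + (Y : ℤ))) (b - x) = rg y (Finset.Ioc (0 : ℤ) (0 + (Y : ℤ))) b := by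
  unfold rg
  congr 1
  refine Finset.card_bij (fun h _ => h - x) ?_ ?_ ?_
  · intro h hh
    rw [SW.survivors, Finset.mem_filter, Finset.mem_Ioc] at hh ⊢
    refine ⟨by omega, fun p hp => ?_⟩
    have := hh.2 p hp
    rwa [show b - x + h = b + (h - x) by ring] at this
  · intro a _ c _ h
    omega
  · intro h hh
    refine ⟨h + x, ?_, by ring⟩
    rw [SW.survivors, Finset.mem_filter, Finset.mem_Ioc] at hh ⊢
    refine ⟨by omega, fun p hp => ?_⟩
    have := hh.2 p hp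
    rwa [show b - x + (h + x) = b + h by ring]

/-- **means of square weights which differ from the expected value** -/
theorem exM {a : ℝ} (ha : 0 < a) : ∃ κ : ℝ, 0 < κ ∧ ∃ X₀ : ℝ, ∀ X : ℝ, X₀ ≤ X → ∀ Y : ℕ,
    (Real.log X) ^ a ≤ Y → (Y : ℝ) ≤ (Real.log X) ^ (a + κ) → ∀ z M : ℕ, Real.log X ≤ z → 0 < M →
    (∀ p ∈ PP z, p ∣ M) → ∀ x : ℤ,
    (∃ w : ℤ → ℝ, SW.SquareWeight X M w ∧ 0 < ∑ n ∈ Finset.range M, w n ∧
      (1 + 2 * dl a) * (W z * Y) * ∑ n ∈ Finset.range M, w n ≤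
        ∑ n ∈ Finset.range M, w n * rg z (Finset.Ioc x (x + Y)) n) ∧
    (∃ w : ℤ → ℝ, SW.SquareWeight X M w ∧ 0 < ∑ n ∈ Finset.range M, w n ∧
      ∑ n ∈ Finset.range M, w n * rg z (Finset.Ioc x (x + Y)) n ≤
        (1 - 2 * dl a) * (W z * Y) * ∑ n ∈ Finset.range M, w n) := by
  obtain ⟨κ, hκ, H⟩ := maier_clsE ha
  have h1 := Real.tendsto_log_atTop.eventually (H (1 / 2) (by norm_num) le_rfl)
  obtain ⟨X₀, hX₀⟩ := eventually_atTop.1 (h1.and (eventually_ge_atTop (1 : ℝ)))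
  refine ⟨κ, hκ, X₀, fun X hX Y hY1 hY2 z M hz hM hPM x => ?_⟩
  obtain ⟨h2, hX1⟩ := hX₀ X hX
  obtain ⟨⟨b₁, hb₁⟩, ⟨b₂, hb₂⟩⟩ := h2 Y hY1 hY2
  set y : ℕ := ⌊1 / 2 * Real.log X⌋₊ with hy
  have hl0 : 0 ≤ Real.log X := Real.log_nonneg hX1
  have hyl : (y : ℝ) ≤ 1 / 2 * Real.log X := Nat.floor_le (by positivity)
  have hyz : y ≤ z := by
    have : (y : ℝ) ≤ z := by linarith
    exact_mod_cast this
  have hd1 : 1 ≤ W0 y := W0_pos y
  have hdX : ((W0 y : ℕ) : ℝ) ≤ X := by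
    have h3 := log_W0 y
    have h4 : Real.log (W0 y) ≤ Real.log X := by linarith
    exact (Real.log_le_log_iff (by exact_mod_cast hd1) (by linarith)).1 h4
  have hdM : W0 y ∣ M := Finset.prod_primes_dvd M (fun p hp => (mem_PP.1 hp).1.prime)
    (fun p hp => hPM p (mem_PP.2 ⟨(mem_PP.1 hp).1, (mem_PP.1 hp).2.trans hyz⟩))
  have hWy := W_pos y
  have hWz := W_pos z
  constructor
  · refine ⟨_, sw_ind hd1 hdX hdM (b₁ - x), ?_⟩
    obtain ⟨h3, h4⟩ := class_mean hyz hM hPM (Finset.Ioc x (x + (Y : ℤ))) (b₁ - x)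
    rw [rg_trans] at h4
    refine ⟨h3, ?_⟩
    refine le_of_mul_le_mul_right ?_ hWy
    rw [h4]
    have h5 := mul_le_mul_of_nonneg_left hb₁ (mul_nonneg hWz.le h3.le)
    linarith
  · refine ⟨_, sw_ind hd1 hdX hdM (b₂ - x), ?_⟩
    obtain ⟨h3, h4⟩ := class_mean hyz hM hPM (Finset.Ioc x (x + (Y : ℤ))) (b₂ - x)
    rw [rg_trans] at h4
    refine ⟨h3, ?_⟩
    refine le_of_mul_le_mul_right ?_ hWy
    rw [h4]
    have h5 := mul_le_mul_of_nonneg_left hb₂ (mul_nonneg hWz.le h3.le)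
    linarith

end Run7.h52.M8
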