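import Pool.Agent.Run7.h52.Count

set_option autoImplicit false
set_option linter.unusedSectionVars false

namespace Run7.h52.Count

open Finset

/-- small products -/
def FF (P : Finset ℕ) (N : ℕ) : Finset (Finset ℕ) := P.powerset.filter fun s => ∏ p ∈ s, p ≤ N

lemma sum_inv_le (n : ℕ) : ∑ i ∈ Finset.Icc 1 n, 1 / (i : ℝ) ≤ 1 + Real.log n := by
  have h := harmonic_le_one_add_log n
  rw [harmonic_eq_sum_Icc] at h
  push_cast at h
  simpa [one_div] using h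

lemma rough_sum (y : ℕ) (P : Finset ℕ) (hP : ∀ p ∈ P, p.Prime ∧ y < p) (N z : ℕ) (hN : 1 ≤ N)
    (hz : 1 ≤ z) :
    (∑ s ∈ FF P N, 1 / ((∏ p ∈ s, p : ℕ) : ℝ)) * Sm y z ≤ 1 + Real.log N + Real.log z := by
  classical
  have hN0 : (N : ℝ) ≠ 0 := by exact_mod_cast (by omega : N ≠ 0)
  have hz0 : (z : ℝ) ≠ 0 := by exact_mod_cast (by omega : z ≠ 0)
  have h1 : 1 + Real.log N + Real.log z = 1 + Real.log ((N * z : ℕ) : ℝ) := by
    push_cast
    rw [Real.log_mul hN0 hz0]; ring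
  rw [h1]
  refine le_trans ?_ (sum_inv_le (N * z))
  rw [Sm, Finset.sum_mul_sum, ← Finset.sum_product']
  have h2 : ∀ x ∈ FF P N ×ˢ (Finset.Icc 1 z).filter (fun l => ∀ p, p.Prime → p ∣ l → p ≤ y),
      1 / ((∏ p ∈ x.1, p : ℕ) : ℝ) * (1 / (x.2 : ℝ))
      = (fun n : ℕ => 1 / (n : ℝ)) ((∏ p ∈ x.1, p) * x.2) := by
    intro x _
    push_cast
    rw [one_div_mul_one_div]
  rw [Finset.sum_congr rfl h2]
  have hinj : Set.InjOn (fun x : Finset ℕ × ℕ => (∏ p ∈ x.1, p) * x.2)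
      (FF P N ×ˢ (Finset.Icc 1 z).filter (fun l => ∀ p, p.Prime → p ∣ l → p ≤ y) : Finset _) := by
    rintro ⟨s, l⟩ hx ⟨s', l'⟩ hx' h
    simp only [Finset.coe_product, Set.mem_prod, Finset.mem_coe, FF, Finset.mem_filter,
      Finset.mem_powerset, Finset.mem_Icc] at hx hx'
    simp only at h
    obtain ⟨⟨hs, hsN⟩, ⟨hl1, hl2⟩, hl3⟩ := hx
    obtain ⟨⟨hs', hsN'⟩, ⟨hl1', hl2'⟩, hl3'⟩ := hx'
    have key : ∀ (s : Finset ℕ) (l : ℕ), s ⊆ P → 1 ≤ l → (∀ p, p.Prime → p ∣ l → p ≤ y) →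
        ∀ p, p ∈ s ↔ (p.Prime ∧ y < p ∧ p ∣ (∏ p ∈ s, p) * l) := by
      intro s l hs hl1 hl3 p
      constructor
      · intro hp
        exact ⟨(hP p (hs hp)).1, (hP p (hs hp)).2, (Finset.dvd_prod_of_mem _ hp).mul_right _⟩
      · rintro ⟨hp, hpy, hd⟩
        rcases hp.dvd_mul.1 hd with h | h
        · obtain ⟨q, hq, hqd⟩ := (hp.prime.dvd_finsetProd_iff _).1 h
          have := ((Nat.prime_dvd_prime_iff_eq hp (hP q (hs hq)).1).1 hqd)
          rwa [this]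
        · have := hl3 p hp h
          omega
    have hss : s = s' := by
      ext p
      rw [key s l hs hl1 hl3, key s' l' hs' hl1' hl3', h]
    subst hss
    have hpos : 0 < ∏ p ∈ s, p := Finset.prod_pos fun p hp => (hP p (hs hp)).1.pos
    have := Nat.eq_of_mul_eq_mul_left hpos h
    rw [this]
  rw [← Finset.sum_image (f := fun n : ℕ => 1 / (n : ℝ)) hinj]
  refine Finset.sum_le_sum_of_subset_of_nonneg ?_ (fun n _ _ => by positivity)
  intro n hn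
  rw [Finset.mem_image] at hn
  obtain ⟨⟨s, l⟩, hx, rfl⟩ := hn
  simp only [Finset.mem_product, FF, Finset.mem_filter, Finset.mem_powerset, Finset.mem_Icc] at hx ⊢
  obtain ⟨⟨hs, hsN⟩, ⟨hl1, hl2⟩, hl3⟩ := hx
  have hpos : 0 < ∏ p ∈ s, p := Finset.prod_pos fun p hp => (hP p (hs hp)).1.pos
  exact ⟨Nat.mul_pos hpos hl1, Nat.mul_le_mul hsN hl2⟩

/-- `∏ 1/(p-1)` -/
noncomputable def g (s : Finset ℕ) : ℝ := ∏ p ∈ s, 1 / ((p : ℝ) - 1)

lemma g_expand (P : Finset ℕ) (hP : ∀ p ∈ P, p.Prime) (N : ℕ) :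
    ∑ s ∈ FF P N, g s ≤ (∏ p ∈ P, (1 + 1 / ((p : ℝ) * (p - 1)))) *
      ∑ s ∈ FF P N, 1 / ((∏ p ∈ s, p : ℕ) : ℝ) := by
  classical
  have hp2 : ∀ p ∈ P, (2 : ℝ) ≤ p := fun p hp => by exact_mod_cast (hP p hp).two_le
  have h1 : ∀ s ∈ FF P N, g s = ∑ t ∈ s.powerset, (∏ p ∈ t, 1 / ((p : ℝ) * (p - 1))) *
      (1 / ((∏ p ∈ s \ t, p : ℕ) : ℝ)) := by
    intro s hs
    have hsP : s ⊆ P := by
      rw [FF, Finset.mem_filter, Finset.mem_powerset] at hs; exact hs.1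
    have : g s = ∏ p ∈ s, (1 / ((p : ℝ) * (p - 1)) + 1 / (p : ℝ)) := by
      rw [g]
      refine Finset.prod_congr rfl fun p hp => ?_
      have := hp2 p (hsP hp)
      have h1 : (p : ℝ) - 1 ≠ 0 := by intro h; linarith
      have h2 : (p : ℝ) ≠ 0 := by intro h; linarith
      field_simp; ring
    rw [this, Finset.prod_add]
    refine Finset.sum_congr rfl fun t _ => ?_
    congr 1
    push_cast
    rw [one_div, ← Finset.prod_inv_distrib]
    simp [one_div]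
  rw [Finset.sum_congr rfl h1]
  have h2 : ∑ s ∈ FF P N, ∑ t ∈ s.powerset, (∏ p ∈ t, 1 / ((p : ℝ) * (p - 1))) *
      (1 / ((∏ p ∈ s \ t, p : ℕ) : ℝ)) = ∑ t ∈ P.powerset, ∑ s ∈ (FF P N).filter (fun s => t ⊆ s),
      (∏ p ∈ t, 1 / ((p : ℝ) * (p - 1))) * (1 / ((∏ p ∈ s \ t, p : ℕ) : ℝ)) := by
    refine Finset.sum_comm' fun s t => ?_
    simp only [FF, Finset.mem_filter, Finset.mem_powerset]
    constructor
    · rintro ⟨⟨h1, h2⟩, h3⟩; exact ⟨⟨⟨h1, h2⟩, h3⟩, h3.trans h1⟩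
    · rintro ⟨⟨⟨h1, h2⟩, h3⟩, h4⟩; exact ⟨⟨h1, h2⟩, h3⟩
  rw [h2]
  have hpe : ∏ p ∈ P, (1 + 1 / ((p : ℝ) * (p - 1))) = ∑ t ∈ P.powerset, ∏ p ∈ t, 1 / ((p : ℝ) * (p - 1)) := by
    rw [Finset.prod_one_add]
  rw [hpe, Finset.sum_mul]
  refine Finset.sum_le_sum fun t ht => ?_
  rw [Finset.mem_powerset] at ht
  rw [← Finset.mul_sum]
  refine mul_le_mul_of_nonneg_left ?_ (Finset.prod_nonneg fun p hp => ?_)
  · have hinj : Set.InjOn (fun s : Finset ℕ => s \ t) ((FF P N).filter (fun s => t ⊆ s) : Finset _) := by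
      intro s hs s' hs' h
      simp only [Finset.coe_filter, Set.mem_ofPred_eq] at hs hs'
      simp only at h
      rw [← Finset.sdiff_union_of_subset hs.2, h, Finset.sdiff_union_of_subset hs'.2]
    rw [← Finset.sum_image (f := fun s : Finset ℕ => 1 / ((∏ p ∈ s, p : ℕ) : ℝ)) hinj]
    refine Finset.sum_le_sum_of_subset_of_nonneg ?_ (fun n _ _ => by positivity)
    intro r hr
    rw [Finset.mem_image] at hr
    obtain ⟨s, hs, rfl⟩ := hr
    simp only [FF, Finset.mem_filter, Finset.mem_powerset] at hs ⊢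
    refine ⟨(Finset.sdiff_subset).trans hs.1.1, le_trans ?_ hs.1.2⟩
    refine Nat.le_of_dvd (Finset.prod_pos fun p hp => (hP p (hs.1.1 hp)).pos) ?_
    exact Finset.prod_dvd_prod_of_subset _ _ _ Finset.sdiff_subset
  · have := hp2 p (ht hp)
    exact div_nonneg zero_le_one (mul_nonneg (by linarith) (by linarith))

lemma sum_tele (y : ℕ) (hy : 1 ≤ y) (m : ℕ) (hm : y ≤ m) :
    ∑ n ∈ Finset.Ioc y m, 1 / ((n : ℝ) * (n - 1)) ≤ 1 / (y : ℝ) - 1 / m := by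
  induction m, hm using Nat.le_induction with
  | base => simp
  | succ m hm ih =>
    rw [← Finset.insert_Ioc_right_eq_Ioc_add_one hm, Finset.sum_insert (by simp)]
    have h0 : (0 : ℝ) < m := by exact_mod_cast (by omega : 0 < m)
    have h1 : 1 / (((m + 1 : ℕ) : ℝ) * (((m + 1 : ℕ) : ℝ) - 1)) = 1 / (m : ℝ) - 1 / ((m + 1 : ℕ) : ℝ) := by
      push_cast
      rw [show (m : ℝ) + 1 - 1 = m by ring]
      have h2 : (m : ℝ) + 1 ≠ 0 := by linarith
      field_simp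
      ring
    rw [h1]; linarith

lemma prod_near (y : ℕ) (hy : 1 ≤ y) (P : Finset ℕ) (hP : ∀ p ∈ P, p.Prime ∧ y < p) :
    ∏ p ∈ P, (1 + 1 / ((p : ℝ) * (p - 1))) ≤ Real.exp (1 / y) := by
  have h1 : ∏ p ∈ P, (1 + 1 / ((p : ℝ) * (p - 1))) ≤ ∏ p ∈ P, Real.exp (1 / ((p : ℝ) * (p - 1))) := by
    refine Finset.prod_le_prod (fun p hp => ?_) (fun p _ => by
      have := Real.add_one_le_exp (1 / ((p : ℝ) * (p - 1))); linarith)
    have : (2 : ℝ) ≤ p := by exact_mod_cast (hP p hp).1.two_le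
    have := div_nonneg zero_le_one (mul_nonneg (by linarith : (0:ℝ) ≤ p) (by linarith : (0:ℝ) ≤ (p : ℝ) - 1))
    linarith
  refine h1.trans ?_
  rw [← Real.exp_sum]
  refine Real.exp_le_exp.2 ?_
  set m := max y (P.sup id) with hm
  have hsub : P ⊆ Finset.Ioc y m := by
    intro p hp
    rw [Finset.mem_Ioc]
    exact ⟨(hP p hp).2, le_max_of_le_right (Finset.le_sup (f := id) hp)⟩
  have h2 : ∑ p ∈ P, 1 / ((p : ℝ) * (p - 1)) ≤ ∑ n ∈ Finset.Ioc y m, 1 / ((n : ℝ) * (n - 1)) := by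
    refine Finset.sum_le_sum_of_subset_of_nonneg hsub fun n hn _ => ?_
    rw [Finset.mem_Ioc] at hn
    have : (2 : ℝ) ≤ n := by exact_mod_cast (by omega : 2 ≤ n)
    exact div_nonneg zero_le_one (mul_nonneg (by linarith) (by linarith))
  have h3 := sum_tele y hy m (le_max_left _ _)
  have h4 : (0 : ℝ) ≤ 1 / m := by positivity
  linarith

/-- the counting lemma -/
theorem G_le : ∀ ε : ℝ, 0 < ε → ∃ A y₀ : ℕ, 1 ≤ A ∧ 3 ≤ y₀ ∧ ∀ y : ℕ, y₀ ≤ y → ∀ P : Finset ℕ,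
    (∀ p ∈ P, p.Prime ∧ y < p) → ∀ N : ℕ, 1 ≤ N →
    ∑ s ∈ FF P N, g s ≤ (1 + ε) * W y * (Real.log N + A * Real.log y) := by
  intro ε hε
  set e := min ε 1 with he
  have he0 : 0 < e := lt_min hε one_pos
  have he1 : e ≤ 1 := min_le_right _ _
  obtain ⟨A, y₁, hA1, hA⟩ := smooth_lower (e / 4) (by linarith)
  obtain ⟨y₂, hy₂⟩ := exists_nat_ge (8 / e)
  refine ⟨A + 1, max y₁ (max y₂ 3), by omega, by simp, fun y hy P hP N hN => ?_⟩
  have hy1 : y₁ ≤ y := le_trans (le_max_left _ _) hy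
  have hy2 : y₂ ≤ y := le_trans (le_trans (le_max_left _ _) (le_max_right _ _)) hy
  have hy3 : 3 ≤ y := le_trans (le_trans (le_max_right _ _) (le_max_right _ _)) hy
  have h1 := hA y hy1
  have hW := W_pos y
  have hy0 : (0 : ℝ) < y := by exact_mod_cast (by omega : 0 < y)
  have hz1 : 1 ≤ y ^ A := Nat.one_le_pow _ _ (by omega)
  have h2 := rough_sum y P hP N (y ^ A) hN hz1
  have h3 := g_expand P (fun p hp => (hP p hp).1) N
  have h4 := prod_near y (by omega) P hP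
  have hlogy : 1 ≤ Real.log y := by
    rw [Real.le_log_iff_exp_le hy0]
    have := Real.exp_one_lt_d9
    have h5 : (3 : ℝ) ≤ y := by exact_mod_cast hy3
    linarith
  have hlogN : 0 ≤ Real.log N := Real.log_nonneg (by exact_mod_cast hN)
  set Sg := ∑ s ∈ FF P N, 1 / ((∏ p ∈ s, p : ℕ) : ℝ) with hSg
  have hSg0 : 0 ≤ Sg := Finset.sum_nonneg fun _ _ => by positivity
  have h5 : Sg * ((1 - e / 4) * (W y)⁻¹) ≤ 1 + Real.log N + A * Real.log y := by
    have : Real.log ((y ^ A : ℕ) : ℝ) = A * Real.log y := by push_cast; rw [Real.log_pow]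
    rw [this] at h2
    exact (mul_le_mul_of_nonneg_left h1 hSg0).trans h2
  have h6 : Sg * (1 - e / 4) ≤ W y * (Real.log N + (A + 1) * Real.log y) := by
    have h7 : Sg * (1 - e / 4) = W y * (Sg * ((1 - e / 4) * (W y)⁻¹)) := by
      field_simp
    rw [h7]
    refine mul_le_mul_of_nonneg_left (h5.trans ?_) hW.le
    linarith
  have hexp : Real.exp (1 / y) ≤ 1 + e / 4 := by
    have h7 : 1 / (y : ℝ) ≤ e / 8 := by
      rw [div_le_div_iff₀ hy0 (by norm_num)]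
      have h8 : 8 / e ≤ y := hy₂.trans (by exact_mod_cast hy2)
      rw [div_le_iff₀ he0] at h8
      linarith
    have h9 : (1 / (y : ℝ)) ≤ 1 / 8 := h7.trans (by linarith)
    have h8 : Real.exp (1 / y) ≤ 1 + 2 * (1 / y) := by
      have h10 := Real.add_one_le_exp (-(1 / (y : ℝ)))
      have h11 : Real.exp (1 / (y : ℝ)) * Real.exp (-(1 / (y : ℝ))) = 1 := by rw [← Real.exp_add]; simp
      have h12 := Real.exp_pos (1 / (y : ℝ))
      have h13 : 0 ≤ 1 / (y : ℝ) := by positivity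
      nlinarith
    linarith
  have hprod0 : 0 ≤ ∏ p ∈ P, (1 + 1 / ((p : ℝ) * (p - 1))) := by
    refine Finset.prod_nonneg fun p hp => ?_
    have : (2 : ℝ) ≤ p := by exact_mod_cast (hP p hp).1.two_le
    have := div_nonneg zero_le_one (mul_nonneg (by linarith : (0:ℝ) ≤ p) (by linarith : (0:ℝ) ≤ (p : ℝ) - 1))
    linarith
  have h14 : ∑ s ∈ FF P N, g s ≤ (1 + e / 4) * Sg :=
    h3.trans (mul_le_mul_of_nonneg_right (h4.trans hexp) hSg0)
  set T := W y * (Real.log N + (A + 1) * Real.log y) with hT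
  have hT0 : 0 ≤ T := by positivity
  have h15 : (1 + e / 4) * Sg ≤ (1 + e) * T := by
    have h20 : (1 + e / 4) * Sg ≤ (1 + e) * (1 - e / 4) * Sg := by
      refine mul_le_mul_of_nonneg_right ?_ hSg0
      nlinarith
    calc (1 + e / 4) * Sg ≤ (1 + e) * (1 - e / 4) * Sg := h20
      _ = (1 + e) * (Sg * (1 - e / 4)) := by ring
      _ ≤ _ := mul_le_mul_of_nonneg_left h6 (by linarith)
  have h16 : (1 + e) * T ≤ (1 + ε) * T := mul_le_mul_of_nonneg_right (by linarith [min_le_left ε 1]) hT0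
  calc ∑ s ∈ FF P N, g s ≤ (1 + ε) * T := h14.trans (h15.trans h16)
    _ = _ := by rw [hT]; push_cast; ring

end Run7.h52.Count
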