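import Pool.Agent.Run7.h52.DefA
import Pool.Agent.Run7.h52.Count2
import Pool.Agent.Y835.SB.Lin2

set_option autoImplicit false
set_option linter.unusedSectionVars false

namespace Run7.h52.Rough

open Finset Run7.h52.Count

/-- the survivors of the primes `≤ z` -/
noncomputable def rg (z : ℕ) (H : Finset ℤ) (n : ℤ) : ℝ := ((SW.survivors (PP z) H n).card : ℝ)

lemma mem_PP {z p : ℕ} : p ∈ PP z ↔ p.Prime ∧ p ≤ z := by
  unfold PP
  rw [Finset.mem_filter, Finset.mem_Icc]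
  constructor
  · rintro ⟨⟨_, h⟩, hp⟩; exact ⟨hp, h⟩
  · rintro ⟨hp, h⟩; exact ⟨⟨hp.one_lt.le, h⟩, hp⟩

lemma exists_rep (z : ℕ) (n : ℤ) : ∃ N : ℕ, ∀ p : ℕ, p.Prime → p ≤ z → (p : ℤ) ∣ (N : ℤ) - n := by
  set Q := ∏ p ∈ PP z, p with hQ
  have hQ0 : 0 < Q := Finset.prod_pos fun p hp => (mem_PP.1 hp).1.pos
  have hQ0' : (Q : ℤ) ≠ 0 := by exact_mod_cast hQ0.ne'
  refine ⟨(n % (Q : ℤ)).toNat, fun p hp hpz => ?_⟩
  rw [Int.toNat_of_nonneg (Int.emod_nonneg _ hQ0')]
  have h1 : (p : ℤ) ∣ (Q : ℤ) := by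
    have : p ∣ Q := Finset.dvd_prod_of_mem (fun p => p) (mem_PP.2 ⟨hp, hpz⟩)
    exact_mod_cast this
  refine dvd_trans h1 ?_
  have := Int.emod_add_mul_ediv n (Q : ℤ)
  have e : n % (Q : ℤ) - n = -((Q : ℤ) * (n / (Q : ℤ))) := by linarith
  rw [e]
  exact (dvd_neg).2 (dvd_mul_right _ _)

open Classical in
lemma base (ζ : ℝ) (hζ1 : 1 / 4 ≤ ζ) (hζ2 : ζ < 1 / 2) : ∃ c : ℝ, 0 < c ∧ ∃ Y0 : ℕ,
    ∀ Y : ℕ, Y0 ≤ Y → ∀ z : ℕ, (z : ℝ) < (Y : ℝ) ^ ζ → ∀ x n : ℤ,
      c * (Y / Real.log Y) ≤ rg z (Finset.Ioc x (x + Y)) n := by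
  obtain ⟨c, hc, Y0, h⟩ := Pool.Agent.Y835.SB.lin_low ζ hζ1 hζ2
  refine ⟨c, hc, Y0, fun Y hY z hz x n => ?_⟩
  obtain ⟨N, hN⟩ := exists_rep z (n + x)
  refine (h Y hY N).trans ?_
  unfold rg
  have h1 : ((Icc 1 Y).filter (fun h => ∀ p : ℕ, p.Prime → (p : ℝ) < (Y : ℝ) ^ ζ → ¬ p ∣ N + h)).card
      ≤ (SW.survivors (PP z) (Finset.Ioc x (x + Y)) n).card := by
    refine Finset.card_le_card_of_injOn (fun h : ℕ => x + (h : ℤ)) ?_ ?_
    · intro h hh
      have hh' := Finset.mem_filter.1 (Finset.mem_coe.1 hh)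
      rw [Finset.mem_Icc] at hh'
      refine Finset.mem_coe.2 (Finset.mem_filter.2 ⟨?_, ?_⟩)
      · rw [Finset.mem_Ioc]
        show x < x + (h : ℤ) ∧ x + (h : ℤ) ≤ x + Y
        constructor <;> omega
      · intro p hp hd
        rw [mem_PP] at hp
        refine hh'.2 p hp.1 (lt_of_le_of_lt (by exact_mod_cast hp.2) hz) ?_
        have h2 := hN p hp.1 hp.2
        have h3 : (p : ℤ) ∣ ((N + h : ℕ) : ℤ) := by
          have e : ((N + h : ℕ) : ℤ) = ((N : ℤ) - (n + x)) + (n + (x + (h : ℤ))) := by push_cast; ring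
          rw [e]
          exact dvd_add h2 hd
        exact_mod_cast h3
    · intro a _ b _ hab
      simp only at hab
      omega
  exact_mod_cast h1

/-- blocks of an interval -/
lemma blocks (P : Finset ℕ) (n : ℤ) (L : ℕ) (x : ℤ) (k Y : ℕ) (hk : k * L ≤ Y) :
    ∑ j ∈ Finset.range k, ((SW.survivors P (Finset.Ioc (x + (j : ℤ) * L) (x + (j : ℤ) * L + L)) n).card : ℝ)
      ≤ ((SW.survivors P (Finset.Ioc x (x + Y)) n).card : ℝ) := by
  have h1 : ∀ k : ℕ, ∑ j ∈ Finset.range k,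
      (SW.survivors P (Finset.Ioc (x + (j : ℤ) * L) (x + (j : ℤ) * L + L)) n).card
      = (SW.survivors P (Finset.Ioc x (x + (k : ℤ) * L)) n).card := by
    intro k
    induction k with
    | zero => simp [SW.survivors]
    | succ k ih =>
      rw [Finset.sum_range_succ, ih]
      unfold SW.survivors
      rw [← Finset.card_union_of_disjoint, ← Finset.filter_union]
      · congr 2
        rw [Finset.Ioc_union_Ioc_eq_Ioc]
        · congr 1; push_cast; ring
        · have : (0 : ℤ) ≤ (k : ℤ) * L := by positivity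
          linarith
        · have : (0 : ℤ) ≤ L := by positivity
          linarith
      · refine Finset.disjoint_filter_filter ?_
        rw [Finset.disjoint_left]
        intro a ha hb
        rw [Finset.mem_Ioc] at ha hb
        linarith [ha.2, hb.1]
  have h2 := h1 k
  have h3 : (SW.survivors P (Finset.Ioc x (x + (k : ℤ) * L)) n).card
      ≤ (SW.survivors P (Finset.Ioc x (x + Y)) n).card := by
    refine Finset.card_le_card (Finset.filter_subset_filter _ ?_)
    refine Finset.Ioc_subset_Ioc le_rfl ?_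
    have : (k : ℤ) * L ≤ Y := by exact_mod_cast hk
    linarith
  rw [← h2] at h3
  exact_mod_cast h3

lemma rg_mono {z z' : ℕ} (h : z ≤ z') (H : Finset ℤ) (n : ℤ) : rg z' H n ≤ rg z H n := by
  unfold rg SW.survivors
  have : (H.filter fun h => ∀ p ∈ PP z', ¬ (p : ℤ) ∣ n + h) ⊆ H.filter fun h => ∀ p ∈ PP z, ¬ (p : ℤ) ∣ n + h := by
    intro a ha
    rw [Finset.mem_filter] at ha ⊢
    exact ⟨ha.1, fun p hp => ha.2 p (mem_PP.2 ⟨(mem_PP.1 hp).1, (mem_PP.1 hp).2.trans h⟩)⟩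
  exact_mod_cast Finset.card_le_card this

/-- rough numbers in all intervals -/
theorem rough_low (ζ : ℝ) (hζ1 : 1 / 4 ≤ ζ) (hζ2 : ζ < 1 / 2) : ∃ c : ℝ, 0 < c ∧ ∃ Y0 : ℕ,
    ∀ Y : ℕ, Y0 ≤ Y → ∀ z : ℕ, 2 ≤ z → (z : ℝ) < (Y : ℝ) ^ ζ → ∀ x n : ℤ,
      c * (Y / Real.log z) ≤ rg z (Finset.Ioc x (x + Y)) n := by
  obtain ⟨c, hc, Y0, hb⟩ := base ζ hζ1 hζ2
  have hζ0 : 0 < ζ := by linarith
  -- large `z`
  have big : ∀ Y z : ℕ, 2 ≤ z → Y0 ≤ z → (z : ℝ) < (Y : ℝ) ^ ζ → ∀ x n : ℤ,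
      c / 10 * (Y / Real.log z) ≤ rg z (Finset.Ioc x (x + Y)) n := by
    intro Y z hz2 hz0 hzY x n
    have hz2' : (2 : ℝ) ≤ z := by exact_mod_cast hz2
    have hz0' : (0 : ℝ) < z := by linarith
    have hlz : 0 < Real.log z := Real.log_pos (by linarith)
    set t : ℝ := (z : ℝ) ^ (1 / ζ) with ht
    have ht0 : 0 < t := Real.rpow_pos_of_pos hz0' _
    set L : ℕ := ⌊t⌋₊ + 1 with hL
    have htL : t < L := by rw [hL]; push_cast; exact Nat.lt_floor_add_one t
    have hLt : (L : ℝ) ≤ t + 1 := by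
      rw [hL]; push_cast; linarith [Nat.floor_le ht0.le]
    have hzt : (z : ℝ) ≤ t := by
      rw [ht]
      calc (z : ℝ) = (z : ℝ) ^ (1 : ℝ) := (Real.rpow_one _).symm
        _ ≤ _ := Real.rpow_le_rpow_of_exponent_le (by linarith) (by
          rw [le_div_iff₀ hζ0]; linarith)
    have htζ : t ^ ζ = z := by
      rw [ht, ← Real.rpow_mul hz0'.le, one_div, inv_mul_cancel₀ hζ0.ne', Real.rpow_one]
    have hzL : (z : ℝ) < (L : ℝ) ^ ζ := by
      rw [← htζ]
      exact Real.rpow_lt_rpow ht0.le htL hζ0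
    have hY0 : (0 : ℝ) ≤ Y := Nat.cast_nonneg _
    have htY : t < Y := by
      by_contra hcon
      push Not at hcon
      have := Real.rpow_le_rpow hY0 hcon hζ0.le
      rw [htζ] at this
      linarith
    have hLY : L ≤ Y := by
      have h1 : ⌊t⌋₊ < Y := (Nat.floor_lt ht0.le).2 htY
      omega
    have hL0 : Y0 ≤ L := by
      have h1 : (z : ℝ) < L := lt_of_le_of_lt hzt htL
      have h2 : z < L := by exact_mod_cast h1
      omega
    have hLpos : 0 < L := by omega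
    have hLpos' : (0 : ℝ) < L := by exact_mod_cast hLpos
    set k := Y / L with hk
    have hkL : k * L ≤ Y := Nat.div_mul_le_self Y L
    have hk2 : (Y : ℝ) ≤ 2 * (k * L) := by
      have h1 : Y < k * L + L := by
        have := Nat.lt_div_mul_add (a := Y) hLpos
        rw [hk]; exact this
      have h2 : 1 ≤ k := (Nat.one_le_div_iff hLpos).2 hLY
      have h3 : L ≤ k * L := Nat.le_mul_of_pos_left L h2
      have h4 : Y ≤ 2 * (k * L) := by omega
      exact_mod_cast h4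
    have hlogL : Real.log L ≤ 5 * Real.log z := by
      have h1 : (L : ℝ) ≤ 2 * t := by linarith [hz2'.trans hzt]
      have h2 := Real.log_le_log hLpos' h1
      rw [Real.log_mul (by norm_num) ht0.ne', ht, Real.log_rpow hz0'] at h2
      have h3 : Real.log 2 ≤ Real.log z := Real.log_le_log (by norm_num) hz2'
      have h4 : 1 / ζ ≤ 4 := by rw [div_le_iff₀ hζ0]; linarith
      have h5 : 1 / ζ * Real.log z ≤ 4 * Real.log z := mul_le_mul_of_nonneg_right h4 hlz.le
      linarith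
    have hlogL0 : 0 < Real.log L := by
      apply Real.log_pos
      linarith
    have h1 := blocks (PP z) n L x k Y hkL
    refine le_trans ?_ h1
    have h2 : ∀ j ∈ Finset.range k, c * (L / Real.log L) ≤
        ((SW.survivors (PP z) (Finset.Ioc (x + (j : ℤ) * L) (x + (j : ℤ) * L + L)) n).card : ℝ) :=
      fun j _ => hb L hL0 z hzL _ n
    have h3 := Finset.sum_le_sum h2
    rw [Finset.sum_const, Finset.card_range, nsmul_eq_mul] at h3
    refine le_trans ?_ h3
    have h4 : c / 10 * (Y / Real.log z) ≤ c / 10 * (2 * (k * L) / (Real.log L / 5)) := by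
      refine mul_le_mul_of_nonneg_left ?_ (by positivity)
      exact div_le_div₀ (by positivity) hk2 (by positivity) (by linarith)
    refine h4.trans (le_of_eq ?_)
    field_simp
    ring
  -- small `z`
  set z₀ : ℕ := max Y0 2 with hz₀
  have hz₀2 : 2 ≤ z₀ := le_max_right _ _
  have hz₀r : (2 : ℝ) ≤ z₀ := by exact_mod_cast hz₀2
  have hlz₀ : 0 < Real.log z₀ := Real.log_pos (by linarith)
  have hl2 : 0 < Real.log 2 := Real.log_pos (by norm_num)
  refine ⟨c / 10 * (Real.log 2 / Real.log z₀), by positivity, z₀ ^ 4 + 1, fun Y hY z hz hzY x n => ?_⟩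
  have hzr : (2 : ℝ) ≤ z := by exact_mod_cast hz
  have hlz : 0 < Real.log z := Real.log_pos (by linarith)
  have hl2z : Real.log 2 ≤ Real.log z := Real.log_le_log (by norm_num) hzr
  rcases le_total z₀ z with h | h
  · refine le_trans ?_ (big Y z hz ((le_max_left _ _).trans h) hzY x n)
    have h1 : Real.log 2 / Real.log z₀ ≤ 1 := by
      rw [div_le_one hlz₀]
      exact Real.log_le_log (by norm_num) hz₀r
    have h2 : 0 ≤ (Y : ℝ) / Real.log z := by positivity
    calc c / 10 * (Real.log 2 / Real.log z₀) * (Y / Real.log z)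
        ≤ c / 10 * 1 * (Y / Real.log z) := by gcongr
      _ = _ := by ring
  · refine le_trans ?_ (rg_mono h _ n)
    have h1 : (z₀ : ℝ) < (Y : ℝ) ^ ζ := by
      have h2 : ((z₀ : ℝ) ^ 4 + 1) ≤ Y := by exact_mod_cast hY
      have h3 : ((z₀ : ℝ) ^ 4) < Y := by linarith
      have h4 : (z₀ : ℝ) = ((z₀ : ℝ) ^ 4) ^ (1 / 4 : ℝ) := by
        rw [← Real.rpow_natCast, ← Real.rpow_mul (by positivity)]
        norm_num
      calc (z₀ : ℝ) = ((z₀ : ℝ) ^ 4) ^ (1 / 4 : ℝ) := h4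
        _ < (Y : ℝ) ^ (1 / 4 : ℝ) := Real.rpow_lt_rpow (by positivity) h3 (by norm_num)
        _ ≤ (Y : ℝ) ^ ζ := by
          refine Real.rpow_le_rpow_of_exponent_le ?_ hζ1
          have : (1 : ℝ) ≤ (z₀ : ℝ) ^ 4 := one_le_pow₀ (by linarith)
          linarith
    refine le_trans ?_ (big Y z₀ hz₀2 (le_max_left _ _) h1 x n)
    calc c / 10 * (Real.log 2 / Real.log z₀) * (Y / Real.log z)
        = c / 10 * (Y / Real.log z₀) * (Real.log 2 / Real.log z) := by field_simp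
      _ ≤ c / 10 * (Y / Real.log z₀) * 1 := by
          refine mul_le_mul_of_nonneg_left ?_ (by positivity)
          rwa [div_le_one hlz]
      _ = _ := mul_one _

end Run7.h52.Rough
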