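import Pool.Agent.Run7.h52.AsmW5
import Pool.Agent.Run7.h52.Rough

set_option autoImplicit false
set_option linter.unusedSectionVars false

namespace Run7.h52.Barrier

open Finset Run7.h52.Count Run7.h52.Rough

lemma sw_nonneg {X : ℝ} {M : ℕ} {w : ℤ → ℝ} (hw : SW.SquareWeight X M w) (n : ℤ) : 0 ≤ w n := by
  obtain ⟨J, d, R, a, V, _, hw⟩ := hw
  rw [hw]
  refine Finset.sum_nonneg fun j _ => ?_
  split_ifs
  · exact sq_nonneg _
  · exact le_rfl

lemma rho_low : ∃ c : ℝ, 0 < c ∧ ∀ y z : ℕ, 3 ≤ y → y ≤ z → ∀ P : Finset ℕ,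
    (∀ p ∈ P, p.Prime ∧ y < p ∧ p ≤ z) →
    c * (Real.log y / Real.log z) ≤ ∏ p ∈ P, (1 - 1 / (p : ℝ)) := by
  obtain ⟨C, _, hC⟩ := BWS.mer
  refine ⟨Real.exp (-C), Real.exp_pos _, fun y z hy hz P hP => ?_⟩
  have hly : 0 < Real.log y := Real.log_pos (by exact_mod_cast (by omega : 1 < y))
  have hlz : 0 < Real.log z := Real.log_pos (by exact_mod_cast (by omega : 1 < z))
  have h1 := BWS.mer_prod hC y z hy hz P hP
  have h2 : (∏ p ∈ P, (1 + 1 / ((p : ℝ) - 1))) * ∏ p ∈ P, (1 - 1 / (p : ℝ)) = 1 := by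
    rw [← Finset.prod_mul_distrib]
    refine Finset.prod_eq_one fun p hp => ?_
    have : (2 : ℝ) ≤ p := by exact_mod_cast (hP p hp).1.two_le
    have h5 : (p : ℝ) - 1 ≠ 0 := by intro h; linarith
    have h6 : (p : ℝ) ≠ 0 := by intro h; linarith
    field_simp
    ring
  have h3 : 0 ≤ ∏ p ∈ P, (1 - 1 / (p : ℝ)) := by
    refine Finset.prod_nonneg fun p hp => ?_
    have : (1 : ℝ) < p := by exact_mod_cast (hP p hp).1.one_lt
    have : 1 / (p : ℝ) < 1 := by rw [div_lt_one (by linarith)]; exact this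
    linarith
  have h4 := mul_le_mul_of_nonneg_right h1 h3
  rw [h2] at h4
  have h5 : Real.exp (-C) * (Real.log y / Real.log z) * (Real.exp C * (Real.log z / Real.log y)) = 1 := by
    rw [Real.exp_neg]
    field_simp
  have h6 : 0 ≤ Real.exp (-C) * (Real.log y / Real.log z) := by positivity
  calc Real.exp (-C) * (Real.log y / Real.log z)
      = Real.exp (-C) * (Real.log y / Real.log z) * 1 := (mul_one _).symm
    _ ≤ Real.exp (-C) * (Real.log y / Real.log z) *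
        (Real.exp C * (Real.log z / Real.log y) * ∏ p ∈ P, (1 - 1 / (p : ℝ))) :=
        mul_le_mul_of_nonneg_left h4 h6
    _ = (Real.exp (-C) * (Real.log y / Real.log z) * (Real.exp C * (Real.log z / Real.log y))) *
        ∏ p ∈ P, (1 - 1 / (p : ℝ)) := by ring
    _ = _ := by rw [h5, one_mul]

/-- the choice of the parameters -/
lemma params (δ : ℝ) (hδ : 0 < δ) (hδ1 : δ ≤ 1) (c : ℝ) (hc : 0 < c) (Yc : ℕ) :
    ∃ X₀ : ℝ, ∀ X : ℝ, X₀ ≤ X → 1 ≤ Real.log X ∧ ∃ Y₀ y : ℕ, Yc ≤ Y₀ ∧ 3 ≤ y ∧ y ≤ Y₀ ∧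
      (∀ Y : ℕ, (Real.log X) ^ (2 + δ) ≤ Y → Y₀ ≤ Y) ∧
      (y : ℝ) < (Y₀ : ℝ) ^ (1 / 2 - δ / 10) ∧ (Real.log X) ^ (1 + δ / 10) ≤ y ∧
      (Real.log X) ^ (-(δ / 10 / 3)) * Real.log y ≤ c / 2 := by
  have hδ30 : 0 < δ / 10 / 3 := by positivity
  have ev1 : ∀ᶠ l : ℝ in Filter.atTop, 4 * Real.log l ≤ c / 2 * l ^ (δ / 10 / 3) := by
    have h1 := (isLittleO_log_rpow_atTop hδ30).def (c := c / 8) (by positivity)
    filter_upwards [h1, Filter.eventually_ge_atTop 1] with l h3 h5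
    rw [Real.norm_of_nonneg (Real.log_nonneg h5), Real.norm_of_nonneg (by positivity)] at h3
    linarith
  have ev2 : ∀ᶠ l : ℝ in Filter.atTop, 3 ≤ l ^ (δ / 10) :=
    (tendsto_rpow_atTop (by positivity)).eventually_ge_atTop 3
  have ev3 : ∀ᶠ l : ℝ in Filter.atTop, (Yc : ℝ) ≤ l := Filter.eventually_ge_atTop _
  obtain ⟨l₀, hl₀⟩ := Filter.eventually_atTop.1 (ev1.and (ev2.and ev3))
  refine ⟨Real.exp (max l₀ 4), fun X hX => ?_⟩
  have hX0 : 0 < X := (Real.exp_pos _).trans_le hX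
  set l := Real.log X with hl
  have hl1 : max l₀ 4 ≤ l := by rw [hl, Real.le_log_iff_exp_le hX0]; exact hX
  have hl4 : 4 ≤ l := (le_max_right _ _).trans hl1
  obtain ⟨h1, h2, h3⟩ := hl₀ l ((le_max_left _ _).trans hl1)
  have hl0 : 0 < l := by linarith
  refine ⟨by linarith, ?_⟩
  set ζ : ℝ := 1 / 2 - δ / 10 with hζ
  have hζ0 : 0 < ζ := by rw [hζ]; linarith
  have hζ1 : ζ < 1 / 2 := by rw [hζ]; linarith
  set T : ℝ := l ^ (2 + δ) with hT
  have hTl : l ≤ T := by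
    calc l = l ^ (1 : ℝ) := (Real.rpow_one l).symm
      _ ≤ l ^ (2 + δ) := Real.rpow_le_rpow_of_exponent_le (by linarith) (by linarith)
  have hT0 : 0 < T := by linarith
  set Y₀ : ℕ := ⌈T⌉₊ with hY₀
  have hTY : T ≤ Y₀ := Nat.le_ceil _
  have hYT : (Y₀ : ℝ) ≤ 2 * T := by
    have := Nat.ceil_lt_add_one hT0.le
    linarith
  have hY₀0 : (0 : ℝ) < Y₀ := by linarith
  set U : ℝ := (Y₀ : ℝ) ^ ζ with hU
  have hUl : 3 * l ^ (1 + δ / 10) ≤ U := by
    calc 3 * l ^ (1 + δ / 10) ≤ l ^ (δ / 10) * l ^ (1 + δ / 10) :=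
          mul_le_mul_of_nonneg_right h2 (Real.rpow_nonneg hl0.le _)
      _ = l ^ (1 + δ / 5) := by rw [← Real.rpow_add hl0]; congr 1; ring
      _ ≤ l ^ ((2 + δ) * ζ) := by
          refine Real.rpow_le_rpow_of_exponent_le (by linarith) ?_
          rw [hζ]; nlinarith
      _ = T ^ ζ := by rw [hT, ← Real.rpow_mul hl0.le]
      _ ≤ U := Real.rpow_le_rpow hT0.le hTY hζ0.le
  have hll : l ≤ l ^ (1 + δ / 10) := by
    calc l = l ^ (1 : ℝ) := (Real.rpow_one l).symm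
      _ ≤ l ^ (1 + δ / 10) := Real.rpow_le_rpow_of_exponent_le (by linarith) (by linarith)
  have hU12 : 12 ≤ U := by linarith
  set y : ℕ := ⌈U⌉₊ - 1 with hy
  have hc1 : 1 ≤ ⌈U⌉₊ := Nat.one_le_iff_ne_zero.2 (by
    have := Nat.ceil_pos.2 (by linarith : 0 < U); omega)
  have hyr : (y : ℝ) = (⌈U⌉₊ : ℝ) - 1 := by rw [hy]; push_cast [hc1]; ring
  have hyU : (y : ℝ) < U := by
    rw [hyr]; linarith [Nat.ceil_lt_add_one (by linarith : 0 ≤ U)]
  have hyU' : U - 1 ≤ y := by rw [hyr]; linarith [Nat.le_ceil U]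
  have hy3 : (3 : ℝ) ≤ y := by linarith
  have hUY : U ≤ Y₀ := by
    calc U ≤ (Y₀ : ℝ) ^ (1 : ℝ) := Real.rpow_le_rpow_of_exponent_le (by linarith) (by linarith)
      _ = _ := Real.rpow_one _
  refine ⟨Y₀, y, ?_, by exact_mod_cast hy3, ?_, ?_, hyU, by linarith, ?_⟩
  · have : (Yc : ℝ) ≤ Y₀ := by linarith
    exact_mod_cast this
  · have : (y : ℝ) ≤ Y₀ := by linarith
    exact_mod_cast this
  · intro Y hY
    exact Nat.ceil_le.2 hY
  · have h5 : Real.log y ≤ 4 * Real.log l := by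
      have h6 : (y : ℝ) ≤ 2 * l ^ (3 : ℝ) := by
        have : T ≤ l ^ (3 : ℝ) := Real.rpow_le_rpow_of_exponent_le (by linarith) (by linarith)
        linarith
      have h7 := Real.log_le_log (by linarith) h6
      rw [Real.log_mul (by norm_num) (Real.rpow_pos_of_pos hl0 _).ne', Real.log_rpow hl0] at h7
      have h8 : Real.log 2 ≤ Real.log l := Real.log_le_log (by norm_num) (by linarith)
      linarith
    have h9 : l ^ (-(δ / 10 / 3)) * l ^ (δ / 10 / 3) = 1 := by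
      rw [← Real.rpow_add hl0]; simp
    have h10 : 0 < l ^ (-(δ / 10 / 3)) := Real.rpow_pos_of_pos hl0 _
    calc l ^ (-(δ / 10 / 3)) * Real.log y ≤ l ^ (-(δ / 10 / 3)) * (c / 2 * l ^ (δ / 10 / 3)) :=
          mul_le_mul_of_nonneg_left (h5.trans h1) h10.le
      _ = c / 2 * (l ^ (-(δ / 10 / 3)) * l ^ (δ / 10 / 3)) := by ring
      _ = c / 2 := by rw [h9, mul_one]

/-- exponent two -/
theorem barrier : ∀ δ : ℝ, 0 < δ → ∃ c : ℝ, 0 < c ∧ ∃ X₀ : ℝ, ∀ X : ℝ, X₀ ≤ X → ∀ Y : ℕ,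
    (Real.log X) ^ (2 + δ) ≤ Y → ∀ z : ℕ, 2 ≤ z → ∀ M : ℕ, 0 < M → (∀ p ∈ PP z, p ∣ M) →
    ∀ w : ℤ → ℝ, SW.SquareWeight X M w → ∀ x : ℤ,
    c * (Y / Real.log z) * ∑ n ∈ Finset.range M, w n
      ≤ ∑ n ∈ Finset.range M, w n * rg z (Finset.Ioc x (x + Y)) n := by
  -- reduction to `δ ≤ 1`
  suffices H : ∀ δ : ℝ, 0 < δ → δ ≤ 1 → ∃ c : ℝ, 0 < c ∧ ∃ X₀ : ℝ, ∀ X : ℝ, X₀ ≤ X → ∀ Y : ℕ,
    (Real.log X) ^ (2 + δ) ≤ Y → ∀ z : ℕ, 2 ≤ z → ∀ M : ℕ, 0 < M → (∀ p ∈ PP z, p ∣ M) →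
    ∀ w : ℤ → ℝ, SW.SquareWeight X M w → ∀ x : ℤ,
    c * (Y / Real.log z) * ∑ n ∈ Finset.range M, w n
      ≤ ∑ n ∈ Finset.range M, w n * rg z (Finset.Ioc x (x + Y)) n by
    intro δ hδ
    obtain ⟨c, hc, X₀, h⟩ := H (min δ 1) (lt_min hδ one_pos) (min_le_right _ _)
    refine ⟨c, hc, max X₀ (Real.exp 1), fun X hX Y hY => h X ((le_max_left _ _).trans hX) Y (le_trans ?_ hY)⟩
    have h1 : 1 ≤ Real.log X := by
      rw [Real.le_log_iff_exp_le (lt_of_lt_of_le (Real.exp_pos 1) ((le_max_right _ _).trans hX))]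
      exact (le_max_right _ _).trans hX
    exact Real.rpow_le_rpow_of_exponent_le h1 (by linarith [min_le_left δ 1])
  intro δ hδ hδ1
  obtain ⟨c₁, hc₁, Yc, hlow⟩ := rough_low (1 / 2 - δ / 10) (by linarith) (by linarith)
  obtain ⟨c₂, hc₂, hrho⟩ := rho_low
  obtain ⟨X₁, hX₁⟩ := AsmW.mainW (δ / 10) (by positivity)
  obtain ⟨X₂, hX₂⟩ := params δ hδ hδ1 c₁ hc₁ Yc
  refine ⟨min c₁ (c₁ * c₂ / 4), by positivity, max X₁ X₂, fun X hX Y hY z hz M hM hPM w hw x => ?_⟩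
  obtain ⟨hlX, Y₀, y, hYc, hy3, hyY₀, hY₀Y', hyζ, hyl, hyc⟩ := hX₂ X ((le_max_right _ _).trans hX)
  have hY₀Y := hY₀Y' Y hY
  have hw0 : ∀ n, 0 ≤ w n := sw_nonneg hw
  set Wt := ∑ n ∈ Finset.range M, w n with hWt
  have hWt0 : 0 ≤ Wt := Finset.sum_nonneg fun n _ => hw0 n
  have hzr : (2 : ℝ) ≤ z := by exact_mod_cast hz
  have hlz : 0 < Real.log z := Real.log_pos (by linarith)
  have hY0 : (0 : ℝ) ≤ Y := Nat.cast_nonneg _
  rcases le_or_gt z y with hzy | hzy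
  · -- small `z`: every `n`
    have h1 : (z : ℝ) < (Y : ℝ) ^ (1 / 2 - δ / 10) := by
      have h2 : (z : ℝ) ≤ y := by exact_mod_cast hzy
      have h3 : (Y₀ : ℝ) ≤ Y := by exact_mod_cast hY₀Y
      have h4 : (Y₀ : ℝ) ^ (1 / 2 - δ / 10) ≤ (Y : ℝ) ^ (1 / 2 - δ / 10) :=
        Real.rpow_le_rpow (Nat.cast_nonneg _) h3 (by linarith)
      linarith
    have h2 := hlow Y (hYc.trans hY₀Y) z hz h1 x
    calc min c₁ (c₁ * c₂ / 4) * (Y / Real.log z) * Wt ≤ c₁ * (Y / Real.log z) * Wt := by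
          refine mul_le_mul_of_nonneg_right (mul_le_mul_of_nonneg_right (min_le_left _ _) ?_) hWt0
          positivity
      _ = ∑ n ∈ Finset.range M, w n * (c₁ * (Y / Real.log z)) := by
          rw [← Finset.sum_mul]; ring
      _ ≤ _ := Finset.sum_le_sum fun n _ => mul_le_mul_of_nonneg_left (h2 n) (hw0 n)
  · -- large `z`: blocks
    have hyr : (3 : ℝ) ≤ y := by exact_mod_cast hy3
    have hly : 0 < Real.log y := Real.log_pos (by linarith)
    set P := (PP z).filter (fun p => y < p) with hP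
    have hPprop : ∀ p ∈ P, p.Prime ∧ y < p ∧ p ≤ z := fun p hp => by
      rw [hP, Finset.mem_filter, mem_PP] at hp
      exact ⟨hp.1.1, hp.2, hp.1.2⟩
    have hPU : P ∪ PP y = PP z := by
      ext p
      rw [Finset.mem_union, hP, Finset.mem_filter, mem_PP, mem_PP]
      constructor
      · rintro (⟨h, _⟩ | h)
        · exact h
        · exact ⟨h.1, h.2.trans hzy.le⟩
      · intro h
        rcases le_or_gt p y with h1 | h1
        · exact Or.inr ⟨h.1, h1⟩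
        · exact Or.inl ⟨h, h1⟩
    set ρ := ∏ p ∈ P, (1 - 1 / (p : ℝ)) with hρ
    have hρlow := hrho y z hy3 hzy.le P hPprop
    have hρ0 : 0 ≤ ρ := le_trans (by positivity) hρlow
    set η := (Real.log X) ^ (-(δ / 10 / 3)) with hη
    have hblock : ∀ j : ℕ, c₁ * c₂ / 2 * (Y₀ / Real.log z) * Wt ≤ ∑ n ∈ Finset.range M,
        w n * rg z (Finset.Ioc (x + (j : ℤ) * Y₀) (x + (j : ℤ) * Y₀ + Y₀)) n := by
      intro j
      have h1 := hX₁ X ((le_max_left _ _).trans hX) y Y₀ hyl hyY₀ (x + (j : ℤ) * Y₀)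
        (Finset.Ioc (x + (j : ℤ) * Y₀) (x + (j : ℤ) * Y₀ + Y₀)) (Finset.Subset.refl _) P (PP y)
        (fun p hp => ⟨(hPprop p hp).1, (hPprop p hp).2.1⟩)
        (fun p hp => ⟨(mem_PP.1 hp).1, fun hp' => by
          have := (hPprop p hp').2.1
          have := (mem_PP.1 hp).2
          omega⟩) M hM (by rw [hPU]; exact hPM) w hw
      rw [hPU, ← hρ, ← hη, ← hWt] at h1
      have h2 := (abs_le.1 h1).1
      have h3 : ∑ n ∈ Finset.range M, w n * (((SW.survivors (PP z)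
          (Finset.Ioc (x + (j : ℤ) * Y₀) (x + (j : ℤ) * Y₀ + Y₀)) n).card : ℝ)
          - ρ * ((SW.survivors (PP y) (Finset.Ioc (x + (j : ℤ) * Y₀) (x + (j : ℤ) * Y₀ + Y₀)) n).card : ℝ))
          = ∑ n ∈ Finset.range M, w n * rg z (Finset.Ioc (x + (j : ℤ) * Y₀) (x + (j : ℤ) * Y₀ + Y₀)) n
            - ρ * ∑ n ∈ Finset.range M, w n *
              rg y (Finset.Ioc (x + (j : ℤ) * Y₀) (x + (j : ℤ) * Y₀ + Y₀)) n := by
        rw [Finset.mul_sum, ← Finset.sum_sub_distrib]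
        refine Finset.sum_congr rfl fun n _ => ?_
        unfold rg
        ring
      rw [h3] at h2
      have h4 : c₁ * (Y₀ / Real.log y) * Wt ≤ ∑ n ∈ Finset.range M, w n *
          rg y (Finset.Ioc (x + (j : ℤ) * Y₀) (x + (j : ℤ) * Y₀ + Y₀)) n := by
        rw [hWt, Finset.mul_sum]
        refine Finset.sum_le_sum fun n _ => ?_
        rw [mul_comm]
        exact mul_le_mul_of_nonneg_left (hlow Y₀ hYc y (by omega) hyζ _ n) (hw0 n)
      have h5 : η * Y₀ ≤ c₁ / 2 * (Y₀ / Real.log y) := by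
        have h6 : η ≤ c₁ / 2 / Real.log y := by
          rw [le_div_iff₀ hly]; exact hyc
        calc η * Y₀ ≤ c₁ / 2 / Real.log y * Y₀ := mul_le_mul_of_nonneg_right h6 (Nat.cast_nonneg _)
          _ = _ := by ring
      have h7 : c₁ / 2 * (Y₀ / Real.log y) * Wt ≤ (∑ n ∈ Finset.range M, w n *
          rg y (Finset.Ioc (x + (j : ℤ) * Y₀) (x + (j : ℤ) * Y₀ + Y₀)) n) - η * Y₀ * Wt := by
        have h8 := mul_le_mul_of_nonneg_right h5 hWt0
        linarith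
      have h9 := mul_le_mul_of_nonneg_left h7 hρ0
      have h10 : c₁ * c₂ / 2 * (Y₀ / Real.log z) * Wt ≤ ρ * (c₁ / 2 * (Y₀ / Real.log y) * Wt) := by
        have h11 : 0 ≤ c₁ / 2 * (Y₀ / Real.log y) * Wt := by positivity
        refine le_trans (le_of_eq ?_) (mul_le_mul_of_nonneg_right hρlow h11)
        field_simp
      rw [mul_sub] at h9
      linarith
    have hY₀pos : 0 < Y₀ := by omega
    set k := Y / Y₀ with hk
    have hkL : k * Y₀ ≤ Y := Nat.div_mul_le_self Y Y₀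
    have hk2 : (Y : ℝ) ≤ 2 * (k * Y₀) := by
      have h1 : Y < k * Y₀ + Y₀ := Nat.lt_div_mul_add (a := Y) hY₀pos
      have h2 : 1 ≤ k := (Nat.one_le_div_iff hY₀pos).2 hY₀Y
      have h3 : Y₀ ≤ k * Y₀ := Nat.le_mul_of_pos_left Y₀ h2
      have h4 : Y ≤ 2 * (k * Y₀) := by omega
      exact_mod_cast h4
    calc min c₁ (c₁ * c₂ / 4) * (Y / Real.log z) * Wt
        ≤ c₁ * c₂ / 4 * ((2 * (k * Y₀)) / Real.log z) * Wt := by
          refine mul_le_mul_of_nonneg_right (mul_le_mul (min_le_right _ _) ?_ ?_ ?_) hWt0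
          · exact div_le_div_of_nonneg_right hk2 hlz.le
          · positivity
          · positivity
      _ = ∑ j ∈ Finset.range k, c₁ * c₂ / 2 * (Y₀ / Real.log z) * Wt := by
          rw [Finset.sum_const, Finset.card_range, nsmul_eq_mul]; ring
      _ ≤ ∑ j ∈ Finset.range k, ∑ n ∈ Finset.range M,
          w n * rg z (Finset.Ioc (x + (j : ℤ) * Y₀) (x + (j : ℤ) * Y₀ + Y₀)) n :=
          Finset.sum_le_sum fun j _ => hblock j
      _ = ∑ n ∈ Finset.range M, w n * ∑ j ∈ Finset.range k,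
          rg z (Finset.Ioc (x + (j : ℤ) * Y₀) (x + (j : ℤ) * Y₀ + Y₀)) n := by
          rw [Finset.sum_comm]
          exact Finset.sum_congr rfl fun n _ => by rw [Finset.mul_sum]
      _ ≤ _ := by
          refine Finset.sum_le_sum fun n _ => mul_le_mul_of_nonneg_left ?_ (hw0 n)
          exact blocks (PP z) n Y₀ x k Y hkL

end Run7.h52.Barrier
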