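import Pool.Agent.Run7.h52.E10

/-!
Intervals: every square weight sees the expected number of rough numbers up to `2 e ^ γ / a`, and for no `a` do all
square weights see exactly the expected number.
-/

set_option autoImplicit false
set_option linter.unusedSectionVars false

namespace Run7.h52.E11

open Finset Filter Run7.h52.Count Run7.h52.Rough Run7.h52.Asym Run7.h52.AsmV Run7.h52.U11 Run7.h52.U12 Run7.h52.U19
  Run7.h52.U20 Run7.h52.E3 Run7.h52.E4 Run7.h52.E5 Run7.h52.E8 Run7.h52.E9 Run7.h52.E10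

lemma Pn_one (z : ℕ) : Pn 1 z = PP z := by
  ext p
  rw [mem_Pn, mem_PP]
  constructor
  · rintro ⟨h1, h2, _⟩; exact ⟨h1, h2⟩
  · rintro ⟨h1, h2⟩
    refine ⟨h1, h2, fun h => ?_⟩
    exact h1.one_lt.ne' (Nat.dvd_one.1 h)

lemma Rg_one (z Y : ℕ) (n : ℤ) : Rg 1 z Y n = RC z Y n := by
  rw [← rc_eq]
  unfold Rg rc SW.survivors
  rw [Pn_one]
  congr 1
  refine Finset.filter_congr fun h _ => ?_
  simp

lemma Wg_one (z : ℕ) : Wg 1 z = W z := by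
  unfold Wg W
  rw [Pn_one]

/-- the share of the complement -/
lemma share {S : Finset ℤ} {A : ℤ → ℝ} (B : ℤ → Prop) [DecidablePred B] {ε : ℝ}
    (h : ∑ n ∈ S, (if B n then A n else 0) ≤ ε * ∑ n ∈ S, A n) :
    (1 - ε) * ∑ n ∈ S, A n ≤ ∑ n ∈ S, (if B n then 0 else A n) := by
  have h1 : ∑ n ∈ S, A n = ∑ n ∈ S, (if B n then A n else 0) + ∑ n ∈ S, (if B n then 0 else A n) := by
    rw [← Finset.sum_add_distrib]
    refine Finset.sum_congr rfl fun n _ => ?_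
    split_ifs <;> simp
  linarith

/-- the two classes, in terms of cardinalities -/
theorem twoI {a : ℝ} (ha : 2 < a) : ∃ κ : ℝ, 0 < κ ∧ ∃ δ : ℝ, 0 < δ ∧ δ ≤ 1 ∧ ∀ {θ B ε : ℝ}, 0 < θ → θ < 1 →
    0 ≤ B → 0 < ε →
    ∃ c : ℝ, 0 < c ∧ ∃ T : ℝ, 3 ≤ T ∧ ∀ N : ℕ, T ≤ N → ∀ Y z : ℕ, (Real.log N) ^ a ≤ Y →
    (Y : ℝ) ≤ (Real.log N) ^ (a + κ) → Real.log N ≤ z → (z : ℝ) ≤ (N : ℝ) ^ c →
    ∃ d : ℕ, 1 ≤ d ∧ (d : ℝ) ≤ (N : ℝ) ^ θ ∧ ∀ g : ℕ, 1 ≤ g → (g : ℝ) ≤ (N : ℝ) ^ B →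
    (∀ p : ℕ, p.Prime → (p : ℝ) ≤ Real.log N → ¬ p ∣ g) →
    (∃ b : ℤ, ∀ x : ℤ,
      (1 - ε) * (((Finset.Ioc x (x + N)).filter fun n => (d : ℤ) ∣ n - b).card : ℝ) ≤
      (((Finset.Ioc x (x + N)).filter fun n => (d : ℤ) ∣ n - b ∧
        (1 + δ) * (Wg g z * Y) ≤ (Rg g z Y n : ℝ)).card : ℝ)) ∧
    (∃ b : ℤ, ∀ x : ℤ,
      (1 - ε) * (((Finset.Ioc x (x + N)).filter fun n => (d : ℤ) ∣ n - b).card : ℝ) ≤
      (((Finset.Ioc x (x + N)).filter fun n => (d : ℤ) ∣ n - b ∧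
        (Rg g z Y n : ℝ) ≤ (1 - δ) * (Wg g z * Y)).card : ℝ)) := by
  classical
  obtain ⟨κ, hκ, δ, hδ, hδ1, H⟩ := twoG ha
  refine ⟨κ, hκ, δ, hδ, hδ1, ?_⟩
  intro θ B ε hθ0 hθ1 hB hε
  obtain ⟨c, hc, T, hT, H1⟩ := H hθ0 hθ1 hB hε
  refine ⟨c, hc, T, hT, fun N hN Y z h1 h2 h3 h4 => ?_⟩
  obtain ⟨d, hd1, hd2, H2⟩ := H1 N hN Y z h1 h2 h3 h4
  refine ⟨d, hd1, hd2, fun g hg hgN hgp => ?_⟩
  obtain ⟨⟨b, hb⟩, ⟨b', hb'⟩⟩ := H2 g hg hgN hgp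
  have key : ∀ (x b : ℤ) (P Q : ℤ → Prop) (_ : DecidablePred P) (_ : DecidablePred Q), (∀ n, ¬ P n → Q n) →
      ∑ n ∈ Finset.Ioc x (x + N), (if P n then (if (d : ℤ) ∣ n - b then (1 : ℝ) else 0) else 0)
        ≤ ε * ∑ n ∈ Finset.Ioc x (x + N), (if (d : ℤ) ∣ n - b then (1 : ℝ) else 0) →
      (1 - ε) * (((Finset.Ioc x (x + N)).filter fun n => (d : ℤ) ∣ n - b).card : ℝ) ≤
        (((Finset.Ioc x (x + N)).filter fun n => (d : ℤ) ∣ n - b ∧ Q n).card : ℝ) := by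
    intro x b P Q _ _ hPQ h
    have h5 := share P h
    have e1 : ∑ n ∈ Finset.Ioc x (x + N), (if (d : ℤ) ∣ n - b then (1 : ℝ) else 0)
        = (((Finset.Ioc x (x + N)).filter fun n => (d : ℤ) ∣ n - b).card : ℝ) := by
      rw [Finset.card_filter]; push_cast; rfl
    rw [e1] at h5
    refine h5.trans ?_
    rw [Finset.card_filter]
    push_cast
    refine Finset.sum_le_sum fun n _ => ?_
    by_cases hP : P n
    · rw [if_pos hP]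
      split_ifs <;> norm_num
    · rw [if_neg hP]
      by_cases hdn : (d : ℤ) ∣ n - b
      · rw [if_pos hdn, if_pos ⟨hdn, hPQ n hP⟩]
      · rw [if_neg hdn, if_neg (fun h => hdn h.1)]
  constructor
  · refine ⟨b, fun x => key x b _ _ (fun _ => Classical.dec _) (fun _ => Classical.dec _) (fun n hn => not_lt.1 hn) ?_⟩
    convert hb x
  · refine ⟨b', fun x => key x b' _ _ (fun _ => Classical.dec _) (fun _ => Classical.dec _) (fun n hn => not_lt.1 hn) ?_⟩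
    convert hb' x

end Run7.h52.E11
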