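import Pool.Agent.Run7.h52.M4
import Pool.Agent.Run7.h52.E11
import Pool.Agent.Run7.h52.Barrier

/-!
Real intervals, almost all positions, modulus one.
-/

set_option autoImplicit false
set_option linter.unusedSectionVars false

namespace Run7.h52.M9

open Finset Run7.h52.Count Run7.h52.Rough Run7.h52.U19 Run7.h52.U20 Run7.h52.E4 Run7.h52.E11

/-- real intervals, almost all positions -/
theorem realM {θ A ε : ℝ} (hθ0 : 0 < θ) (hθ1 : θ < 1) (hA : 2 < A) (hε : 0 < ε) :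
    ∃ c : ℝ, 0 < c ∧ ∃ T : ℝ, ∀ N : ℕ, T ≤ N → ∀ Y z : ℕ,
    (Real.log N) ^ A ≤ Y → (z : ℝ) ≤ (N : ℝ) ^ c →
    ∀ w : ℤ → ℝ, TW.SquareWeight ((N : ℝ) ^ θ) w → ∀ x : ℤ,
    (∑ n ∈ (Finset.Ioc x (x + N)).filter (fun n =>
        (2 * Real.exp Real.eulerMascheroniConstant / Real.Gamma (A + 1) + ε) * (W z * Y) <
          |(RC z Y n : ℝ) - W z * Y|), w n
        ≤ ε * ∑ n ∈ Finset.Ioc x (x + N), w n) ∧
    (A ≤ 4 → ∑ n ∈ (Finset.Ioc x (x + N)).filter (fun n => (RC z Y n : ℝ) <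
        (2 * Real.exp Real.eulerMascheroniConstant * Real.log (A - 1) / A - ε) * (W z * Y)), w n
        ≤ ε * ∑ n ∈ Finset.Ioc x (x + N), w n) ∧
    (A ≤ 3 → ∑ n ∈ (Finset.Ioc x (x + N)).filter (fun n =>
        (2 * Real.exp Real.eulerMascheroniConstant / A + ε) * (W z * Y) < (RC z Y n : ℝ)), w n
        ≤ ε * ∑ n ∈ Finset.Ioc x (x + N), w n) := by
  obtain ⟨c, hc, T, H⟩ := Run7.h52.M4.explM (θ := θ) (A := A) (ε := ε) (B := 1) zero_le_one hθ0 hθ1 hA hε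
  refine ⟨c, hc, max T 1, fun N hN Y z hY hz w hw x => ?_⟩
  have hN1 : T ≤ N := (le_max_left _ _).trans hN
  have hN3 : (1 : ℝ) ≤ N := (le_max_right _ _).trans hN
  have hg : ((1 : ℕ) : ℝ) ≤ (N : ℝ) ^ (1 : ℝ) := by rw [Real.rpow_one]; exact_mod_cast hN3
  have h := H N hN1 Y z hY hz 1 le_rfl hg w hw x
  simp only [Rg_one, Wg_one] at h
  exact h

/-- moduli dividing `M` -/
lemma sw_free {X : ℝ} {M : ℕ} {w : ℤ → ℝ} (hw : SW.SquareWeight X M w) : TW.SquareWeight X w := by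
  obtain ⟨J, d, R, a, V, h1, h2⟩ := hw
  exact ⟨J, d, R, a, V, fun j => ⟨(h1 j).1, (h1 j).2.1, (h1 j).2.2.1, (h1 j).2.2.2.2.2⟩, h2⟩

/-- the same with survivors -/
theorem realS {θ A ε : ℝ} (hθ0 : 0 < θ) (hθ1 : θ < 1) (hA : 2 < A) (hε : 0 < ε) :
    ∃ c : ℝ, 0 < c ∧ ∃ T : ℝ, ∀ N : ℕ, T ≤ N → ∀ Y z : ℕ,
    (Real.log N) ^ A ≤ Y → (z : ℝ) ≤ (N : ℝ) ^ c →
    ∀ (M : ℕ) (w : ℤ → ℝ), SW.SquareWeight ((N : ℝ) ^ θ) M w → ∀ x : ℤ,
    (∑ n ∈ (Finset.Ioc x (x + N)).filter (fun n =>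
        (2 * Real.exp Real.eulerMascheroniConstant / Real.Gamma (A + 1) + ε) * (W z * Y) <
          |((SW.survivors (PP z) (Finset.Ioc (0 : ℤ) Y) n).card : ℝ) - W z * Y|), w n
        ≤ ε * ∑ n ∈ Finset.Ioc x (x + N), w n) ∧
    (A ≤ 4 → ∑ n ∈ (Finset.Ioc x (x + N)).filter (fun n =>
        ((SW.survivors (PP z) (Finset.Ioc (0 : ℤ) Y) n).card : ℝ) <
        (2 * Real.exp Real.eulerMascheroniConstant * Real.log (A - 1) / A - ε) * (W z * Y)), w n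
        ≤ ε * ∑ n ∈ Finset.Ioc x (x + N), w n) := by
  obtain ⟨c, hc, T, H⟩ := realM hθ0 hθ1 hA hε
  refine ⟨c, hc, T, fun N hN Y z hY hz M w hw x => ?_⟩
  obtain ⟨h1, h2, _⟩ := H N hN Y z hY hz w (sw_free hw) x
  have e : ∀ n : ℤ, (SW.survivors (PP z) (Finset.Ioc (0 : ℤ) Y) n).card = RC z Y n := by
    intro n
    rw [← rc_eq]
    unfold rc
    rw [zero_add]
  simp only [e]
  exact ⟨h1, h2⟩

end Run7.h52.M9
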