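import Pool.Agent.Run7.h52.E6

/-!
Primes in progressions of length `(log N) ^ A`, `A > 2`, and square weights of residues.
-/

set_option autoImplicit false
set_option linter.unusedSectionVars false

namespace Run7.h52.E7

open Finset Run7.h52.Count Run7.h52.Rough Run7.h52.Asym Run7.h52.AsmV Run7.h52.U12 Run7.h52.U19 Run7.h52.U20
  Run7.h52.X10 Run7.h52.X11 Run7.h52.E4 Run7.h52.E5 Run7.h52.E6

/-- number of the primes larger than `y` among the terms of a progression -/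
noncomputable def Pg (g Y : ℕ) (y : ℝ) (n : ℤ) : ℕ :=
  open Classical in ((Finset.Ioc (0 : ℤ) (0 + (Y : ℤ))).filter fun h =>
    (n + g * h).natAbs.Prime ∧ y < ((n + g * h).natAbs : ℝ)).card

lemma Pg_le {g z Y : ℕ} {y : ℝ} (hz : (z : ℝ) ≤ y) (n : ℤ) : Pg g Y y n ≤ Rg g z Y n := by
  classical
  unfold Pg Rg
  refine Finset.card_le_card ?_
  intro h hh
  rw [Finset.mem_filter] at hh ⊢
  refine ⟨hh.1, fun p hp hd => ?_⟩
  have hp' := mem_Pn.1 hp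
  have h1 : p ∣ (n + g * h).natAbs := Int.natCast_dvd.1 hd
  have h2 := (Nat.prime_dvd_prime_iff_eq hp'.1 hh.2.1).1 h1
  have h3 : (z : ℝ) < p := by rw [h2]; exact lt_of_le_of_lt hz hh.2.2
  have h4 : z < p := by exact_mod_cast h3
  omega

lemma Wg_le {g : ℕ} (hg : 1 ≤ g) (z : ℕ) : Wg g z * (Nat.totient g : ℕ) ≤ g * W z := by
  have h := Nat.totient_eq_mul_prod_factors g
  have h3 := congrArg (fun q : ℚ => (q : ℝ)) h
  push_cast at h3
  have h4 : ∏ p ∈ g.primeFactors, (1 - ((p : ℝ))⁻¹) ≤ ∏ p ∈ Pd g z, (1 - 1 / (p : ℝ)) := by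
    have hsub : Pd g z ⊆ g.primeFactors := fun p hp => by
      have hp' := mem_Pd.1 hp
      exact Nat.mem_primeFactors.2 ⟨hp'.1, hp'.2.2, by omega⟩
    have e : ∏ p ∈ g.primeFactors, (1 - ((p : ℝ))⁻¹) = ∏ p ∈ g.primeFactors, (1 - 1 / (p : ℝ)) :=
      Finset.prod_congr rfl fun p _ => by rw [one_div]
    rw [e, ← Finset.prod_sdiff hsub]
    refine mul_le_of_le_one_left (Finset.prod_nonneg fun p hp => (one_sub_inv_bd (mem_Pd.1 hp).1).1.le) ?_
    exact Finset.prod_le_one (fun p hp => (one_sub_inv_bd (Nat.mem_primeFactors.1 (Finset.mem_sdiff.1 hp).1).1).1.le)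
      fun p hp => (one_sub_inv_bd (Nat.mem_primeFactors.1 (Finset.mem_sdiff.1 hp).1).1).2
  rw [h3, W_eq g z]
  have hg0 : (0 : ℝ) ≤ g := Nat.cast_nonneg _
  have := mul_le_mul_of_nonneg_left h4 (mul_nonneg hg0 (Wg_pos g z).le)
  linarith

theorem primesG {θ A ε B : ℝ} (hB : 0 ≤ B) (hθ0 : 0 < θ) (hθ1 : θ < 1) (hA : 2 < A) (hε : 0 < ε) :
    ∃ c : ℝ, 0 < c ∧ ∃ C T : ℝ, 0 < C ∧ ∀ N : ℕ, T ≤ N → ∀ Y : ℕ, (Real.log N) ^ A ≤ Y →
    ∀ g : ℕ, 1 ≤ g → (g : ℝ) ≤ (N : ℝ) ^ B →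
    ∀ w : ℤ → ℝ, TW.SquareWeight ((N : ℝ) ^ θ) w → ∀ x : ℤ,
    (∀ z : ℕ, (z : ℝ) ≤ (N : ℝ) ^ c →
      (∑ n ∈ (Finset.Ioc x (x + N)).filter (fun n =>
        (2 * Real.exp Real.eulerMascheroniConstant / A + ε) * (Wg g z * Y) < |(Rg g z Y n : ℝ) - Wg g z * Y|), w n
        ≤ ε * ∑ n ∈ Finset.Ioc x (x + N), w n) ∧
      (A ≤ 4 → ∑ n ∈ (Finset.Ioc x (x + N)).filter (fun n => (Rg g z Y n : ℝ) <
        (2 * Real.exp Real.eulerMascheroniConstant * Real.log (A - 1) / A - ε) * (Wg g z * Y)), w n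
        ≤ ε * ∑ n ∈ Finset.Ioc x (x + N), w n) ∧
      (A ≤ 3 → ∑ n ∈ (Finset.Ioc x (x + N)).filter (fun n =>
        (2 * Real.exp Real.eulerMascheroniConstant / A + ε) * (Wg g z * Y) < (Rg g z Y n : ℝ)), w n
        ≤ ε * ∑ n ∈ Finset.Ioc x (x + N), w n)) ∧
    ∑ n ∈ (Finset.Ioc x (x + N)).filter (fun n =>
        C * (((g : ℝ) / (Nat.totient g : ℕ)) * (Y / Real.log N)) < (Pg g Y ((N : ℝ) ^ c) n : ℝ)), w n
        ≤ ε * ∑ n ∈ Finset.Ioc x (x + N), w n := by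
  classical
  obtain ⟨c, hc, T, H⟩ := explG hB hθ0 hθ1 hA hε
  obtain ⟨CW, hCW, hWC⟩ := W_up
  set K : ℝ := 2 * Real.exp Real.eulerMascheroniConstant / A with hK
  have hK0 : 0 < K := by positivity
  have hev : ∀ᶠ N : ℕ in Filter.atTop, (2 : ℝ) ≤ (N : ℝ) ^ (c / 2) :=
    ((tendsto_rpow_atTop (by positivity : 0 < c / 2)).comp tendsto_natCast_atTop_atTop).eventually_ge_atTop _
  obtain ⟨N₀, hN₀⟩ := Filter.eventually_atTop.1 hev
  refine ⟨c, hc, (1 + K + ε) * (2 * CW / c), max (max T 2) N₀, by positivity, fun N hN Y hY g hg hgN w hw x => ?_⟩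
  have hN1 : T ≤ N := ((le_max_left _ _).trans (le_max_left _ _)).trans hN
  have hN2 : (2 : ℝ) ≤ N := ((le_max_right _ _).trans (le_max_left _ _)).trans hN
  have hN3 : N₀ ≤ N := by
    have : (N₀ : ℝ) ≤ N := (le_max_right _ _).trans hN
    exact_mod_cast this
  refine ⟨fun z hz => H N hN1 Y z hY hz g hg hgN w hw x, ?_⟩
  have hN0 : (0 : ℝ) < N := by linarith
  have hlN : 0 < Real.log N := Real.log_pos (by linarith)
  set z : ℕ := ⌊(N : ℝ) ^ c⌋₊ with hz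
  have hzN : (z : ℝ) ≤ (N : ℝ) ^ c := Nat.floor_le (by positivity)
  obtain ⟨h1, _, _⟩ := H N hN1 Y z hY hzN g hg hgN w hw x
  refine le_trans ?_ h1
  refine Finset.sum_le_sum_of_subset_of_nonneg ?_ fun n _ _ => sw_nonneg hw n
  intro n hn
  rw [Finset.mem_filter] at hn ⊢
  refine ⟨hn.1, ?_⟩
  -- the size of `z`
  have h2 := hN₀ N hN3
  have h3 : (N : ℝ) ^ c = (N : ℝ) ^ (c / 2) * (N : ℝ) ^ (c / 2) := by
    rw [← Real.rpow_add hN0]; congr 1; ring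
  have h4 : (N : ℝ) ^ (c / 2) ≤ z := by
    have h5 : (N : ℝ) ^ c < z + 1 := Nat.lt_floor_add_one _
    rw [h3] at h5
    nlinarith
  have hz2 : 2 ≤ z := by
    have : (2 : ℝ) ≤ z := h2.trans h4
    exact_mod_cast this
  have hlz : c / 2 * Real.log N ≤ Real.log z := by
    have := Real.log_le_log (by positivity) h4
    rwa [Real.log_rpow hN0] at this
  have hlz0 : 0 < c / 2 * Real.log N := by positivity
  have hW : W z ≤ 2 * CW / c / Real.log N := by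
    refine (hWC z hz2).trans ?_
    have h5 : CW / Real.log z ≤ CW / (c / 2 * Real.log N) := div_le_div_of_nonneg_left hCW.le hlz0 hlz
    refine h5.trans (le_of_eq ?_)
    field_simp
  have hφ : (0 : ℝ) < (Nat.totient g : ℕ) := by exact_mod_cast Nat.totient_pos.2 hg
  have hWg : Wg g z ≤ (g : ℝ) / (Nat.totient g : ℕ) * (2 * CW / c / Real.log N) := by
    have h5 : Wg g z ≤ (g : ℝ) / (Nat.totient g : ℕ) * W z := by
      rw [div_mul_eq_mul_div, le_div_iff₀ hφ]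
      exact Wg_le hg z
    exact h5.trans (mul_le_mul_of_nonneg_left hW (by positivity))
  have hY0 : (0 : ℝ) ≤ Y := Nat.cast_nonneg _
  have h6 : (1 + K + ε) * (Wg g z * Y) ≤ (1 + K + ε) * (2 * CW / c) * (((g : ℝ) / (Nat.totient g : ℕ)) * (Y / Real.log N)) := by
    have h7 := mul_le_mul_of_nonneg_left (mul_le_mul_of_nonneg_right hWg hY0) (by linarith : 0 ≤ 1 + K + ε)
    refine h7.trans (le_of_eq ?_)
    ring
  have h7 : (Pg g Y ((N : ℝ) ^ c) n : ℝ) ≤ Rg g z Y n := by exact_mod_cast Pg_le hzN n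
  have h8 : (1 + K + ε) * (Wg g z * Y) < Rg g z Y n := lt_of_le_of_lt h6 (lt_of_lt_of_le hn.2 h7)
  refine lt_of_lt_of_le ?_ (le_abs_self _)
  have e : (1 + K + ε) * (Wg g z * Y) = Wg g z * Y + (K + ε) * (Wg g z * Y) := by ring
  rw [e] at h8
  linarith

end Run7.h52.E7
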