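import Pool.Agent.Run7.h52.M3
import Pool.Agent.Run7.h52.E7

/-!
All square weights: the relative error is at most `2 e ^ γ / Γ (A + 1)`.
-/

set_option autoImplicit false
set_option linter.unusedSectionVars false

namespace Run7.h52.M4

open Finset Run7.h52.Count Run7.h52.Rough Run7.h52.Asym Run7.h52.AsmV Run7.h52.U19 Run7.h52.U20
  Run7.h52.X10 Run7.h52.X11 Run7.h52.E4 Run7.h52.E5 Run7.h52.E6
open Pool.Agent.W23.DC

/-- all square weights, with the bound `2 e ^ γ / Γ (A + 1)` -/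
theorem explM {θ A ε B : ℝ} (hB : 0 ≤ B) (hθ0 : 0 < θ) (hθ1 : θ < 1) (hA : 2 < A) (hε : 0 < ε) :
    ∃ c : ℝ, 0 < c ∧ ∃ T : ℝ, ∀ N : ℕ, T ≤ N → ∀ Y z : ℕ,
    (Real.log N) ^ A ≤ Y → (z : ℝ) ≤ (N : ℝ) ^ c → ∀ g : ℕ, 1 ≤ g → (g : ℝ) ≤ (N : ℝ) ^ B →
    ∀ w : ℤ → ℝ, TW.SquareWeight ((N : ℝ) ^ θ) w → ∀ x : ℤ,
    (∑ n ∈ (Finset.Ioc x (x + N)).filter (fun n =>
        (2 * Real.exp Real.eulerMascheroniConstant / Real.Gamma (A + 1) + ε) * (Wg g z * Y) < |(Rg g z Y n : ℝ) - Wg g z * Y|), w n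
        ≤ ε * ∑ n ∈ Finset.Ioc x (x + N), w n) ∧
    (A ≤ 4 → ∑ n ∈ (Finset.Ioc x (x + N)).filter (fun n => (Rg g z Y n : ℝ) <
        (2 * Real.exp Real.eulerMascheroniConstant * Real.log (A - 1) / A - ε) * (Wg g z * Y)), w n
        ≤ ε * ∑ n ∈ Finset.Ioc x (x + N), w n) ∧
    (A ≤ 3 → ∑ n ∈ (Finset.Ioc x (x + N)).filter (fun n =>
        (2 * Real.exp Real.eulerMascheroniConstant / A + ε) * (Wg g z * Y) < (Rg g z Y n : ℝ)), w n
        ≤ ε * ∑ n ∈ Finset.Ioc x (x + N), w n) := by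
  classical
  obtain ⟨A0, F, f, hS⟩ := Pool.Agent.W366.DC.SFX
  have hA0 := Run7.h52.X9a.A0_eq hS
  obtain ⟨c, hc, T, H⟩ := mainG hS hB hθ0 hθ1 hA (by positivity : 0 < ε / 2)
  refine ⟨c, hc, T, fun N hN Y z hY hz g hg hgN w hw x => ?_⟩
  obtain ⟨h1, h2⟩ := H N hN Y z hY hz g hg hgN w hw x
  have hsum0 : 0 ≤ ∑ n ∈ Finset.Ioc x (x + N), w n := Finset.sum_nonneg fun n _ => sw_nonneg hw n
  have hWgY : 0 ≤ Wg g z * (Y : ℝ) := mul_nonneg (Wg_pos g z).le (Nat.cast_nonneg _)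
  have hw0 : ∀ n, 0 ≤ w n := fun n => sw_nonneg hw n
  have hεs : ε / 2 * ∑ n ∈ Finset.Ioc x (x + N), w n ≤ ε * ∑ n ∈ Finset.Ioc x (x + N), w n :=
    mul_le_mul_of_nonneg_right (by linarith) hsum0
  have hFA : 1 ≤ F A := hS.F1 A (by linarith)
  have hfA : f A ≤ 1 := hS.f1 A (by linarith)
  have hd := Run7.h52.M3.diff_gamma hS (by linarith : 1 ≤ A)
  rw [hA0] at hd
  set K : ℝ := 2 * Real.exp Real.eulerMascheroniConstant / Real.Gamma (A + 1) with hK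
  refine ⟨?_, ?_, ?_⟩
  · have hsub : (Finset.Ioc x (x + N)).filter (fun n => (K + ε) * (Wg g z * Y) < |(Rg g z Y n : ℝ) - Wg g z * Y|)
        ⊆ ((Finset.Ioc x (x + N)).filter (fun n => (Rg g z Y n : ℝ) < (f A - ε / 2) * (Wg g z * Y))) ∪
          ((Finset.Ioc x (x + N)).filter (fun n => (F A + ε / 2) * (Wg g z * Y) < (Rg g z Y n : ℝ))) := by
      intro n hn
      rw [Finset.mem_filter] at hn
      rw [Finset.mem_union, Finset.mem_filter, Finset.mem_filter]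
      rcases lt_abs.1 hn.2 with h | h
      · refine Or.inr ⟨hn.1, lt_of_le_of_lt ?_ (by linarith : (K + ε) * (Wg g z * Y) + Wg g z * Y < (Rg g z Y n : ℝ))⟩
        have h3 : F A + ε / 2 ≤ K + ε + 1 := by linarith
        have h4 := mul_le_mul_of_nonneg_right h3 hWgY
        rw [add_mul (K + ε), one_mul] at h4
        exact h4
      · refine Or.inl ⟨hn.1, lt_of_lt_of_le (by linarith : (Rg g z Y n : ℝ) < Wg g z * Y - (K + ε) * (Wg g z * Y)) ?_⟩
        have h3 : 1 - (K + ε) ≤ f A - ε / 2 := by linarith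
        have h4 := mul_le_mul_of_nonneg_right h3 hWgY
        rw [sub_mul 1, one_mul] at h4
        exact h4
    have h3 := Finset.sum_le_sum_of_subset_of_nonneg hsub fun n _ _ => hw0 n
    refine h3.trans ?_
    have h4 := Finset.sum_union_inter (f := w)
      (s₁ := (Finset.Ioc x (x + N)).filter (fun n => (Rg g z Y n : ℝ) < (f A - ε / 2) * (Wg g z * Y)))
      (s₂ := (Finset.Ioc x (x + N)).filter (fun n => (F A + ε / 2) * (Wg g z * Y) < (Rg g z Y n : ℝ)))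
    have h5 := Finset.sum_nonneg fun n (_ : n ∈
      (Finset.Ioc x (x + N)).filter (fun n => (Rg g z Y n : ℝ) < (f A - ε / 2) * (Wg g z * Y)) ∩
      (Finset.Ioc x (x + N)).filter (fun n => (F A + ε / 2) * (Wg g z * Y) < (Rg g z Y n : ℝ))) => hw0 n
    linarith
  · intro hA4
    rw [hS.f4 A hA.le hA4, hA0] at h1
    refine le_trans ?_ (h1.trans hεs)
    refine Finset.sum_le_sum_of_subset_of_nonneg ?_ fun n _ _ => hw0 n
    intro n hn
    rw [Finset.mem_filter] at hn ⊢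
    refine ⟨hn.1, lt_of_lt_of_le hn.2 (mul_le_mul_of_nonneg_right (by linarith) hWgY)⟩
  · intro hA3
    rw [hS.F3 A (by linarith) hA3, hA0] at h2
    refine le_trans ?_ (h2.trans hεs)
    refine Finset.sum_le_sum_of_subset_of_nonneg ?_ fun n _ _ => hw0 n
    intro n hn
    rw [Finset.mem_filter] at hn ⊢
    refine ⟨hn.1, lt_of_le_of_lt (mul_le_mul_of_nonneg_right ?_ hWgY) hn.2⟩
    linarith

end Run7.h52.M4
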