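import Mathlib

set_option autoImplicit false
set_option linter.unusedSectionVars false

namespace Run7.h52.Abel

open Finset

lemma abel {σ : Type} (S : Finset σ) (g u : σ → ℝ) (hg : ∀ s ∈ S, 0 ≤ g s) {lo v c D : ℝ}
    (hlo : lo ≤ v) (hu : ∀ s ∈ S, lo ≤ u s ∧ u s ≤ v) (f F : ℝ → ℝ)
    (hf : ContinuousOn f (Set.Icc lo v)) (hf0 : ∀ t ∈ Set.Icc lo v, 0 ≤ f t)
    (hF : ∀ t ∈ Set.Icc lo v, F t = F v + ∫ x in t..v, f x) (hFv : 0 ≤ F v)
    (hG : ∀ t ∈ Set.Icc lo v, ∑ s ∈ S.filter (fun s => u s ≤ t), g s ≤ c * (t + D)) :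
    ∑ s ∈ S, g s * F (u s) ≤ c * (v + D) * F v + ∫ t in lo..v, c * (t + D) * f t := by
  have hfi : IntervalIntegrable f MeasureTheory.volume lo v := by
    apply ContinuousOn.intervalIntegrable
    rwa [Set.uIcc_of_le hlo]
  have hind : ∀ s : σ, IntervalIntegrable ((Set.Ioi (u s)).indicator f) MeasureTheory.volume lo v :=
    fun s => ⟨hfi.1.indicator measurableSet_Ioi, hfi.2.indicator measurableSet_Ioi⟩
  have h1 : ∀ s ∈ S, F (u s) = F v + ∫ t in lo..v, (Set.Ioi (u s)).indicator f t := by
    intro s hs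
    rw [hF _ ⟨(hu s hs).1, (hu s hs).2⟩]
    congr 1
    rw [intervalIntegral.integral_of_le (hu s hs).2, intervalIntegral.integral_of_le hlo,
      MeasureTheory.setIntegral_indicator measurableSet_Ioi, Set.Ioc_inter_Ioi,
      sup_eq_right.2 (hu s hs).1]
  have h2 : ∑ s ∈ S, g s * F (u s) = (∑ s ∈ S, g s) * F v
      + ∫ t in lo..v, ∑ s ∈ S, g s * (Set.Ioi (u s)).indicator f t := by
    rw [intervalIntegral.integral_finsetSum (fun s _ => (hind s).const_mul _), Finset.sum_mul,
      ← Finset.sum_add_distrib]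
    refine Finset.sum_congr rfl fun s hs => ?_
    rw [h1 s hs, intervalIntegral.integral_const_mul]
    ring
  rw [h2]
  refine add_le_add ?_ ?_
  · refine mul_le_mul_of_nonneg_right ?_ hFv
    have h3 := hG v ⟨hlo, le_rfl⟩
    rwa [Finset.filter_true_of_mem (fun s hs => (hu s hs).2)] at h3
  · refine intervalIntegral.integral_mono_on hlo ?_ ?_ ?_
    · exact IntervalIntegrable.sum (f := fun s t => g s * (Set.Ioi (u s)).indicator f t) S
        (fun s _ => (hind s).const_mul _) |>.congr (fun t _ => by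
          simp)
    · apply ContinuousOn.intervalIntegrable
      rw [Set.uIcc_of_le hlo]
      exact ContinuousOn.mul (by fun_prop) hf
    · intro t ht
      have h3 : ∑ s ∈ S, g s * (Set.Ioi (u s)).indicator f t
          = (∑ s ∈ S.filter (fun s => u s < t), g s) * f t := by
        rw [Finset.sum_filter, Finset.sum_mul]
        refine Finset.sum_congr rfl fun s _ => ?_
        rw [Set.indicator_apply]
        simp only [Set.mem_Ioi]
        split_ifs <;> ring
      rw [h3]
      refine mul_le_mul_of_nonneg_right (le_trans ?_ (hG t ht)) (hf0 t ht)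
      refine Finset.sum_le_sum_of_subset_of_nonneg ?_ (fun s hs _ => hg s (Finset.mem_filter.1 hs).1)
      intro s hs
      rw [Finset.mem_filter] at hs ⊢
      exact ⟨hs.1, hs.2.le⟩

/-- `∑ g/u` -/
lemma abel_one {σ : Type} (S : Finset σ) (g u : σ → ℝ) (hg : ∀ s ∈ S, 0 ≤ g s) {lo v c D : ℝ}
    (hlo0 : 0 < lo) (hlo : lo ≤ v) (hc : 0 ≤ c) (hD : 0 ≤ D)
    (hu : ∀ s ∈ S, lo ≤ u s ∧ u s ≤ v)
    (hG : ∀ t ∈ Set.Icc lo v, ∑ s ∈ S.filter (fun s => u s ≤ t), g s ≤ c * (t + D)) :
    ∑ s ∈ S, g s / u s ≤ c * (1 + Real.log (v / lo) + D / lo) := by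
  have hv : 0 < v := hlo0.trans_le hlo
  have key : ∀ a ∈ Set.Icc lo v, ∀ K : ℝ, ∫ x in a..v, (x + K) * (1 / x ^ 2)
      = (Real.log v - K / v) - (Real.log a - K / a) := by
    intro a ha K
    rw [intervalIntegral.integral_eq_sub_of_hasDerivAt (f := fun x => Real.log x - K / x)]
    · intro x hx
      rw [Set.uIcc_of_le ha.2] at hx
      have hx0 : x ≠ 0 := by have := ha.1; have := hx.1; intro h; linarith
      have h1 := (Real.hasDerivAt_log hx0).sub (((hasDerivAt_id x).inv hx0).const_mul K)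
      have h2 : x⁻¹ - K * (-1 / id x ^ 2) = (x + K) * (1 / x ^ 2) := by
        simp only [id]; field_simp; ring
      rw [h2] at h1
      exact h1.congr_of_eventuallyEq (Filter.Eventually.of_forall fun z => by
        simp [div_eq_mul_inv])
    · apply ContinuousOn.intervalIntegrable
      rw [Set.uIcc_of_le ha.2]
      have : ∀ x ∈ Set.Icc a v, x ^ 2 ≠ 0 := fun x hx => by
        have := ha.1; have := hx.1; exact (pow_pos (by linarith) 2).ne'
      exact ContinuousOn.mul (by fun_prop) (ContinuousOn.div (by fun_prop) (by fun_prop) this)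
  have key0 : ∀ a ∈ Set.Icc lo v, ∫ x in a..v, (1 / x ^ 2 : ℝ) = 1 / a - 1 / v := by
    intro a ha
    rw [intervalIntegral.integral_eq_sub_of_hasDerivAt (f := fun x => - (1 / x))]
    · ring
    · intro x hx
      rw [Set.uIcc_of_le ha.2] at hx
      have hx0 : x ≠ 0 := by have := ha.1; have := hx.1; intro h; linarith
      have h1 := ((hasDerivAt_id x).inv hx0).neg
      have h2 : -(-1 / id x ^ 2) = 1 / x ^ 2 := by
        simp only [id]; field_simp
      rw [h2] at h1
      exact h1.congr_of_eventuallyEq (Filter.Eventually.of_forall fun z => by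
        simp)
    · apply ContinuousOn.intervalIntegrable
      rw [Set.uIcc_of_le ha.2]
      have : ∀ x ∈ Set.Icc a v, x ^ 2 ≠ 0 := fun x hx => by
        have := ha.1; have := hx.1; exact (pow_pos (by linarith) 2).ne'
      exact ContinuousOn.div (by fun_prop) (by fun_prop) this
  have h := abel S g u hg hlo hu (fun x => 1 / x ^ 2) (fun x => 1 / x) ?_ ?_ ?_ ?_ hG
  · have h1 : ∑ s ∈ S, g s / u s = ∑ s ∈ S, g s * (1 / u s) :=
      Finset.sum_congr rfl fun s _ => by ring
    rw [h1]
    refine h.trans ?_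
    have h2 : ∫ t in lo..v, c * (t + D) * (1 / t ^ 2) = c * ((Real.log v - D / v) - (Real.log lo - D / lo)) := by
      rw [← key lo ⟨le_rfl, hlo⟩ D, ← intervalIntegral.integral_const_mul]
      congr 1
      funext t; ring
    rw [h2, Real.log_div hv.ne' hlo0.ne']
    have h3 : c * (v + D) * (1 / v) = c * (1 + D / v) := by field_simp
    rw [h3]
    apply le_of_eq; ring
  · have : ∀ x ∈ Set.Icc lo v, x ^ 2 ≠ 0 := fun x hx => (pow_pos (by linarith [hx.1]) 2).ne'
    exact ContinuousOn.div (by fun_prop) (by fun_prop) this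
  · intro t _; positivity
  · intro t ht
    rw [key0 t ht]; ring
  · positivity

/-- `∑ g/(a+mu)` -/
lemma abel_two {σ : Type} (S : Finset σ) (g u : σ → ℝ) (hg : ∀ s ∈ S, 0 ≤ g s) {v c D a m : ℝ}
    (hv : 0 ≤ v) (ha : 0 < a) (hva : v ≤ a) (hm : 0 < m) (hc : 0 ≤ c) (hD : 0 ≤ D)
    (hu : ∀ s ∈ S, 0 ≤ u s ∧ u s ≤ v)
    (hG : ∀ t ∈ Set.Icc 0 v, ∑ s ∈ S.filter (fun s => u s ≤ t), g s ≤ c * (t + D)) :
    ∑ s ∈ S, g s / (a + m * u s) ≤ c * (Real.log (1 + m) / m + D / a) := by
  have hpos : ∀ x ∈ Set.Icc 0 v, 0 < a + m * x := fun x hx => by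
    have := mul_nonneg hm.le hx.1; linarith
  have key : ∫ x in (0 : ℝ)..v, (x + D) * (m / (a + m * x) ^ 2)
      = ((1 / m) * Real.log (a + m * v) - (v + D) / (a + m * v))
        - ((1 / m) * Real.log (a + m * 0) - (0 + D) / (a + m * 0)) := by
    rw [intervalIntegral.integral_eq_sub_of_hasDerivAt
      (f := fun x => (1 / m) * Real.log (a + m * x) - (x + D) / (a + m * x))]
    · intro x hx
      rw [Set.uIcc_of_le hv] at hx
      have hx0 : a + m * x ≠ 0 := (hpos x hx).ne'
      have hlin : HasDerivAt (fun x => a + m * x) m x := by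
        simpa using ((hasDerivAt_id x).const_mul m).const_add a
      have hnum : HasDerivAt (fun x => x + D) 1 x := (hasDerivAt_id x).add_const D
      have h1 := ((hlin.log hx0).const_mul (1 / m)).sub (hnum.div hlin hx0)
      have h2 : 1 / m * (m / (a + m * x)) - (1 * (a + m * x) - (x + D) * m) / (a + m * x) ^ 2
          = (x + D) * (m / (a + m * x) ^ 2) := by
        field_simp; ring
      rw [h2] at h1
      exact h1
    · apply ContinuousOn.intervalIntegrable
      rw [Set.uIcc_of_le hv]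
      exact ContinuousOn.mul (by fun_prop) (ContinuousOn.div (by fun_prop) (by fun_prop)
        (fun x hx => (pow_pos (hpos x hx) 2).ne'))
  have key0 : ∀ t ∈ Set.Icc 0 v, ∫ x in t..v, (m / (a + m * x) ^ 2 : ℝ)
      = 1 / (a + m * t) - 1 / (a + m * v) := by
    intro t ht
    rw [intervalIntegral.integral_eq_sub_of_hasDerivAt (f := fun x => - (1 / (a + m * x)))]
    · ring
    · intro x hx
      rw [Set.uIcc_of_le ht.2] at hx
      have hx0 : a + m * x ≠ 0 := (hpos x ⟨ht.1.trans hx.1, hx.2⟩).ne'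
      have hlin : HasDerivAt (fun x => a + m * x) m x := by
        simpa using ((hasDerivAt_id x).const_mul m).const_add a
      have h1 := (hlin.inv hx0).neg
      have h2 : -(-m / (a + m * x) ^ 2) = m / (a + m * x) ^ 2 := by ring
      rw [h2] at h1
      exact h1.congr_of_eventuallyEq (Filter.Eventually.of_forall fun z => by
        simp)
    · apply ContinuousOn.intervalIntegrable
      rw [Set.uIcc_of_le ht.2]
      exact ContinuousOn.div (by fun_prop) (by fun_prop)
        (fun x hx => (pow_pos (hpos x ⟨ht.1.trans hx.1, hx.2⟩) 2).ne')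
  have h := abel S g u hg hv hu (fun x => m / (a + m * x) ^ 2) (fun x => 1 / (a + m * x)) ?_ ?_ ?_ ?_ hG
  · have h1 : ∑ s ∈ S, g s / (a + m * u s) = ∑ s ∈ S, g s * (1 / (a + m * u s)) :=
      Finset.sum_congr rfl fun s _ => by ring
    rw [h1]
    refine h.trans ?_
    have hpv := hpos v ⟨hv, le_rfl⟩
    have h2 : ∫ t in (0 : ℝ)..v, c * (t + D) * (m / (a + m * t) ^ 2) = c *
        (((1 / m) * Real.log (a + m * v) - (v + D) / (a + m * v))
        - ((1 / m) * Real.log (a + m * 0) - (0 + D) / (a + m * 0))) := by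
      rw [← key, ← intervalIntegral.integral_const_mul]
      congr 1
      funext t; ring
    rw [h2]
    have h3 : c * (v + D) * (1 / (a + m * v)) + c *
        (((1 / m) * Real.log (a + m * v) - (v + D) / (a + m * v))
        - ((1 / m) * Real.log (a + m * 0) - (0 + D) / (a + m * 0)))
        = c * ((1 / m) * (Real.log (a + m * v) - Real.log a) + D / a) := by
      rw [mul_zero, add_zero, zero_add]; ring
    rw [h3]
    refine mul_le_mul_of_nonneg_left ?_ hc
    have h4 : Real.log (a + m * v) - Real.log a ≤ Real.log (1 + m) := by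
      rw [← Real.log_div hpv.ne' ha.ne']
      refine Real.log_le_log (div_pos hpv ha) ?_
      rw [div_le_iff₀ ha]
      nlinarith
    have h5 : (1 / m) * (Real.log (a + m * v) - Real.log a) ≤ Real.log (1 + m) / m := by
      rw [div_mul_eq_mul_div, one_mul]
      exact div_le_div_of_nonneg_right h4 hm.le
    linarith
  · exact ContinuousOn.div (by fun_prop) (by fun_prop)
        (fun x hx => (pow_pos (hpos x hx) 2).ne')
  · intro t ht
    have := hpos t ht
    positivity
  · intro t ht
    rw [key0 t ht]; ring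
  · have := hpos v ⟨hv, le_rfl⟩
    positivity

end Run7.h52.Abel
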