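import Mathlib

set_option autoImplicit false

namespace Run7.h52.SW

/-- `V` is a sum of functions of `n mod q`, `q ≤ R` -/
def HasLevel (R : ℕ) (V : ℤ → ℝ) : Prop :=
  ∃ c : ℕ → ℤ → ℝ, ∀ n : ℤ, V n = ∑ q ∈ Finset.Icc 1 R, c q (n % (q : ℤ))

/-- a finite sum of squares `V ^ 2` restricted to arithmetic progressions of modulus `d`, with
`V` of level `R` and `d * R ^ 2 ≤ X`; all moduli divide `M` -/
def SquareWeight (X : ℝ) (M : ℕ) (w : ℤ → ℝ) : Prop :=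
  ∃ (J : ℕ) (d R : Fin J → ℕ) (a : Fin J → ℤ) (V : Fin J → ℤ → ℝ),
    (∀ j, 1 ≤ d j ∧ 1 ≤ R j ∧ (d j : ℝ) * (R j : ℝ) ^ 2 ≤ X ∧ d j ∣ M ∧
      (∀ q ∈ Finset.Icc 1 (R j), q ∣ M) ∧ HasLevel (R j) (V j)) ∧
    ∀ n : ℤ, w n = ∑ j, if (d j : ℤ) ∣ n - a j then (V j n) ^ 2 else 0

/-- `∏_{p ≤ y} (1 - 1/p)` -/
noncomputable def W (y : ℕ) : ℝ := ∏ p ∈ (Finset.Icc 1 y).filter Nat.Prime, (1 - 1 / (p : ℝ))

/-- the shifts `h` for which no prime of `P` divides `n + h` -/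
def survivors (P : Finset ℕ) (H : Finset ℤ) (n : ℤ) : Finset ℤ :=
  H.filter fun h => ∀ p ∈ P, ¬ (p : ℤ) ∣ n + h

end Run7.h52.SW
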