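import Pool.Agent.Run7.h52.Transfer

set_option autoImplicit false
set_option linter.unusedSectionVars false

namespace Run7.h52.Transfer

open Finset Run7.h52.Op Run7.h52.Core

lemma card_filter_eq_sum (H : Finset ℤ) (p : ℤ → Prop) [DecidablePred p] :
    ((H.filter p).card : ℝ) = ∑ h ∈ H, if p h then (1 : ℝ) else 0 := by
  rw [Finset.card_filter]; push_cast; rfl

theorem transfer (M : ℕ) (hM : 0 < M) (P Q : Finset ℕ) (hP : ∀ p ∈ P, p.Prime ∧ p ∣ M)
    (hQ : ∀ p ∈ Q, p.Prime ∧ p ∣ M) (hPQ : ∀ p ∈ Q, p ∉ P) (H : Finset ℤ) (d : ℕ) (hd : d ∣ M)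
    (hdP : ∀ p ∈ P, ¬ p ∣ d) (a : ℤ) :
    ∃ m : (∀ i : {p // p ∈ P}, Fin (i : ℕ)) → ℤ,
      (∀ x (i : {p // p ∈ P}) (a : Fin (i : ℕ)), ∀ q : ℕ, q ∣ M → ¬ (i : ℕ) ∣ q →
        (q : ℤ) ∣ m (Function.update x i a) - m x) ∧
      ∀ V : ℤ → ℝ, (∀ n, V (n + M) = V n) →
      ((Fintype.card (∀ i : {p // p ∈ P}, Fin (i : ℕ)) : ℝ) * ∑ n ∈ Finset.range M,
        (if (d : ℤ) ∣ (n : ℤ) - a then V n ^ 2 *
          ((H.filter fun h => ∀ p ∈ P ∪ Q, ¬ (p : ℤ) ∣ (n : ℤ) + h).card : ℝ) else 0)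
        = ∑ n ∈ Finset.range M, if (d : ℤ) ∣ (n : ℤ) - a then
          ∑ h ∈ H.filter (fun h => ∀ p ∈ Q, ¬ (p : ℤ) ∣ (n : ℤ) + h),
            unhit (Ω := fun i : {p // p ∈ P} => Fin (i : ℕ))
              (fun i => cls (hP i i.2).1.pos (-((n : ℤ) + h))) (fun x => V (n + m x)) else 0) ∧
      ((Fintype.card (∀ i : {p // p ∈ P}, Fin (i : ℕ)) : ℝ) * ∑ n ∈ Finset.range M,
        (if (d : ℤ) ∣ (n : ℤ) - a then V n ^ 2 else 0)
        = ∑ n ∈ Finset.range M, if (d : ℤ) ∣ (n : ℤ) - a then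
          ip (Ω := fun i : {p // p ∈ P} => Fin (i : ℕ)) (fun x => V (n + m x))
            (fun x => V (n + m x)) else 0) := by
  classical
  obtain ⟨m, hm1, hm2, hm3⟩ := exists_shift M hM P hP
  refine ⟨m, hm3, fun V hV => ?_⟩
  have hdm : ∀ (n : ℤ) x, ((d : ℤ) ∣ n + m x - a) ↔ ((d : ℤ) ∣ n - a) := by
    intro n x
    have h1 := hm2 x d hd (fun i => hdP i i.2)
    have h2 : n + m x - a = (n - a) + m x := by ring
    rw [h2]
    exact dvd_add_left h1
  have hdM : ∀ n : ℤ, ((d : ℤ) ∣ n + M - a) ↔ ((d : ℤ) ∣ n - a) := by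
    intro n
    have h2 : n + M - a = (n - a) + M := by ring
    rw [h2]
    exact dvd_add_left (by exact_mod_cast hd)
  have hpM : ∀ (p : ℕ), p ∣ M → ∀ n h : ℤ, ((p : ℤ) ∣ n + M + h) ↔ ((p : ℤ) ∣ n + h) := by
    intro p hp n h
    have h2 : n + M + h = (n + h) + M := by ring
    rw [h2]
    exact dvd_add_left (by exact_mod_cast hp)
  have hQm : ∀ p ∈ Q, ∀ (n h : ℤ) x, ((p : ℤ) ∣ n + m x + h) ↔ ((p : ℤ) ∣ n + h) := by
    intro p hp n h x
    have h1 := hm2 x p (hQ p hp).2 (fun i hd => hPQ p hp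
      (((Nat.prime_dvd_prime_iff_eq (hP i i.2).1 (hQ p hp).1).1 hd) ▸ i.2))
    have h2 : n + m x + h = (n + h) + m x := by ring
    rw [h2]
    exact dvd_add_left h1
  have hPm : ∀ (i : {p // p ∈ P}) (n h : ℤ) x, (((i : ℕ) : ℤ) ∣ n + m x + h) ↔
      x i = cls (hP i i.2).1.pos (-(n + h)) := by
    intro i n h x
    rw [eq_cls]
    have h1 := hm1 x i
    have h2 : n + m x + h = (m x - ((x i : ℕ) : ℤ)) - (-(n + h) - ((x i : ℕ) : ℤ)) := by ring
    rw [h2]
    exact dvd_sub_right h1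
  have avg : ∀ f : ℤ → ℝ, (∀ n, f (n + M) = f n) →
      (Fintype.card (∀ i : {p // p ∈ P}, Fin (i : ℕ)) : ℝ) * ∑ n ∈ Finset.range M, f n
      = ∑ n ∈ Finset.range M, ∑ x : (∀ i : {p // p ∈ P}, Fin (i : ℕ)), f (n + m x) := by
    intro f hf
    rw [Finset.sum_comm]
    simp only [sum_shift M f hf]
    rw [Finset.sum_const, Finset.card_univ, nsmul_eq_mul]
  constructor
  · rw [avg (fun n => if (d : ℤ) ∣ n - a then V n ^ 2 *
          ((H.filter fun h => ∀ p ∈ P ∪ Q, ¬ (p : ℤ) ∣ n + h).card : ℝ) else 0)]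
    · refine Finset.sum_congr rfl fun n _ => ?_
      simp only [hdm]
      split_ifs with hdn
      · unfold unhit
        rw [Finset.sum_comm]
        refine Finset.sum_congr rfl fun x _ => ?_
        rw [card_filter_eq_sum, Finset.mul_sum, Finset.sum_filter]
        refine Finset.sum_congr rfl fun h _ => ?_
        have e : (∀ p ∈ P ∪ Q, ¬ (p : ℤ) ∣ (n : ℤ) + m x + h) ↔ ((∀ p ∈ Q, ¬ (p : ℤ) ∣ (n : ℤ) + h) ∧
            ∀ i : {p // p ∈ P}, x i ≠ cls (hP i i.2).1.pos (-((n : ℤ) + h))) := by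
          constructor
          · intro h1
            refine ⟨fun p hp hd => h1 p (Finset.mem_union_right _ hp) ((hQm p hp n h x).2 hd),
              fun i hi => h1 i (Finset.mem_union_left _ i.2) ((hPm i n h x).2 hi)⟩
          · rintro ⟨h1, h2⟩ p hp hd
            rcases Finset.mem_union.1 hp with hp | hp
            · exact h2 ⟨p, hp⟩ ((hPm ⟨p, hp⟩ n h x).1 hd)
            · exact h1 p hp ((hQm p hp n h x).1 hd)
        by_cases h1 : ∀ p ∈ Q, ¬ (p : ℤ) ∣ (n : ℤ) + h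
        · by_cases h2 : ∀ i : {p // p ∈ P}, x i ≠ cls (hP i i.2).1.pos (-((n : ℤ) + h))
          · rw [if_pos (e.2 ⟨h1, h2⟩), if_pos h1, if_pos h2]; ring
          · rw [if_neg (fun h3 => h2 (e.1 h3).2), if_pos h1, if_neg h2, mul_zero]
        · rw [if_neg (fun h3 => h1 (e.1 h3).1), if_neg h1, mul_zero]
      · simp
    · intro n
      simp only [hdM, hV]
      congr 3
      refine congrArg _ (Finset.filter_congr fun h _ => ?_)
      refine forall₂_congr fun p hp => not_congr (hpM p ?_ n h)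
      rcases Finset.mem_union.1 hp with hp | hp
      · exact (hP p hp).2
      · exact (hQ p hp).2
  · rw [avg (fun n => if (d : ℤ) ∣ n - a then V n ^ 2 else 0)]
    · refine Finset.sum_congr rfl fun n _ => ?_
      simp only [hdm]
      split_ifs with hdn
      · unfold ip
        exact Finset.sum_congr rfl fun x _ => by rw [sq]
      · simp
    · intro n
      simp only [hdM, hV]

end Run7.h52.Transfer
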