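import Pool.Agent.Run7.h52.Sums
import Pool.Agent.Run7.h52.Transfer2
import Pool.Agent.Run7.h52.DefA

set_option autoImplicit false
set_option linter.unusedSectionVars false

namespace Run7.h52.AsmA

open Finset Run7.h52.Op Run7.h52.Core Run7.h52.CoreA Run7.h52.Count Run7.h52.Sums
  Run7.h52.Transfer

lemma W_log : ∃ c : ℝ, 0 < c ∧ ∀ y : ℕ, 3 ≤ y → c ≤ Count.W y * Real.log y := by
  obtain ⟨C, hC⟩ := Pool.Agent.Helper256.KM.mertens_inv
  refine ⟨Real.exp (-(C + 1)), Real.exp_pos _, fun y hy => ?_⟩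
  have hy1 : (1 : ℝ) < y := by exact_mod_cast (by omega : 1 < y)
  have hly : 0 < Real.log y := Real.log_pos hy1
  have h1 : ∀ p ∈ PP y, Real.exp (-(1 / ((p : ℝ) - 1))) ≤ 1 - 1 / (p : ℝ) := by
    intro p hp
    have hp2 : (2 : ℝ) ≤ p := by exact_mod_cast (Finset.mem_filter.1 hp).2.two_le
    have hp1 : 0 < (p : ℝ) - 1 := by linarith
    rw [Real.exp_neg]
    have h2 := Real.add_one_le_exp (1 / ((p : ℝ) - 1))
    have h3 : 1 - 1 / (p : ℝ) = (1 / ((p : ℝ) - 1) + 1)⁻¹ := by
      have : (p : ℝ) ≠ 0 := by linarith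
      have h4 : 1 / ((p : ℝ) - 1) + 1 = p / (p - 1) := by field_simp; ring
      rw [h4, inv_div]; field_simp
    rw [h3]
    exact inv_anti₀ (by positivity) h2
  have h2 : Real.exp (-(∑ p ∈ PP y, 1 / ((p : ℝ) - 1))) ≤ Count.W y := by
    rw [← Finset.sum_neg_distrib, Real.exp_sum]
    exact Finset.prod_le_prod (fun p _ => (Real.exp_pos _).le) h1
  have h3 : ∑ p ∈ PP y, 1 / ((p : ℝ) - 1) ≤ Real.log (Real.log y) + C + 1 := by
    have h4 : ∀ p ∈ PP y, 1 / ((p : ℝ) - 1) = 1 / (p : ℝ) + 1 / ((p : ℝ) * (p - 1)) := by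
      intro p hp
      have hp2 : (2 : ℝ) ≤ p := by exact_mod_cast (Finset.mem_filter.1 hp).2.two_le
      have h5 : (p : ℝ) - 1 ≠ 0 := by intro h; linarith
      have h6 : (p : ℝ) ≠ 0 := by intro h; linarith
      field_simp
      ring
    rw [Finset.sum_congr rfl h4, Finset.sum_add_distrib]
    have h5 := (abs_le.1 (hC y hy)).2
    have h6 : ∑ p ∈ PP y, 1 / ((p : ℝ) * (p - 1)) ≤ 1 := by
      have h7 := sum_tele 1 le_rfl y (by omega)
      have h8 : ∑ p ∈ PP y, 1 / ((p : ℝ) * (p - 1)) ≤ ∑ n ∈ Finset.Ioc 1 y, 1 / ((n : ℝ) * (n - 1)) := by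
        refine Finset.sum_le_sum_of_subset_of_nonneg ?_ ?_
        · intro p hp
          rw [Finset.mem_filter, Finset.mem_Icc] at hp
          rw [Finset.mem_Ioc]
          exact ⟨hp.2.one_lt, hp.1.2⟩
        · intro n hn _
          rw [Finset.mem_Ioc] at hn
          have : (2 : ℝ) ≤ n := by exact_mod_cast hn.1
          exact div_nonneg zero_le_one (mul_nonneg (by linarith) (by linarith))
      have h9 : (0 : ℝ) ≤ 1 / (y : ℝ) := by positivity
      simp only [Nat.cast_one, div_one] at h7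
      linarith
    linarith
  have h4 : Real.exp (-(Real.log (Real.log y) + C + 1)) ≤ Count.W y :=
    (Real.exp_le_exp.2 (by linarith)).trans h2
  calc Real.exp (-(C + 1)) = Real.exp (-(Real.log (Real.log y) + C + 1)) * Real.log y := by
        rw [show -(Real.log (Real.log y) + C + 1) = -(C + 1) + -Real.log (Real.log y) by ring,
          Real.exp_add, Real.exp_neg (Real.log (Real.log y)), Real.exp_log hly]
        field_simp
    _ ≤ _ := mul_le_mul_of_nonneg_right h4 hly.le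

/-- the main parameter -/
noncomputable def MX (y : ℕ) (X : ℝ) : ℝ :=
  (1 / 2) * Count.W y * Real.log X * Real.log (Real.log X / Real.log y)

/-- analytic input -/
theorem params (ε : ℝ) (hε : 0 < ε) : ∃ T : ℝ, 3 ≤ T ∧ ∀ (y : ℕ) (X : ℝ), T ≤ y →
    T * Real.log y ≤ Real.log X → 0 < Real.log y ∧ 0 < Real.log X ∧ 0 < MX y X ∧
      Real.log X / Real.log y ≤ (ε / 2) * MX y X ∧
      ∀ P : Finset ℕ, (∀ p ∈ P, p.Prime ∧ y < p) →
      (Real.sqrt (BB (Om P) (Real.log X / 2)) + 1 / Real.sqrt (Real.log y)) *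
        Real.sqrt ((1 + 1 / (y : ℝ)) * (Real.log X / 2)) ≤ (1 + ε / 2) * Real.sqrt (MX y X) := by
  set e : ℝ := min ε 1 / 10 with he
  have he0 : 0 < e := by have := lt_min hε one_pos; positivity
  have he1 : e ≤ 1 / 10 := by have := min_le_right ε 1; rw [he]; linarith
  have heε : e ≤ ε / 10 := by have := min_le_left ε 1; rw [he]; linarith
  obtain ⟨A, y₀, hA, hy₀, hBB⟩ := BB_le e he0
  obtain ⟨c, hc0, hc⟩ := W_log
  set Λ₀ : ℝ := max ((1 + A) / e) (max (1 / (c * e ^ 2)) (4 / (c * ε))) with hΛ₀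
  refine ⟨max (max 3 y₀) (max (Real.exp Λ₀) (1 / e)), le_trans (le_max_left _ _) (le_max_left _ _),
    fun y X hy hX => ?_⟩
  have hy3 : (3 : ℝ) ≤ y := (le_trans (le_max_left _ _) (le_max_left _ _)).trans hy
  have hyy0 : (y₀ : ℝ) ≤ y := (le_trans (le_max_right _ _) (le_max_left _ _)).trans hy
  have hye : 1 / e ≤ y := (le_trans (le_max_right _ _) (le_max_right _ _)).trans hy
  have hy3' : 3 ≤ y := by exact_mod_cast hy3
  have hyy0' : y₀ ≤ y := by exact_mod_cast hyy0
  have hly : 0 < Real.log y := Real.log_pos (by linarith)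
  set T := max (max 3 (y₀ : ℝ)) (max (Real.exp Λ₀) (1 / e)) with hT
  have hT3 : 3 ≤ T := le_trans (le_max_left _ _) (le_max_left _ _)
  have hTe : Real.exp Λ₀ ≤ T := le_trans (le_max_left _ _) (le_max_right _ _)
  have hlX : 0 < Real.log X := lt_of_lt_of_le (by positivity) hX
  have hratio : T ≤ Real.log X / Real.log y := by rw [le_div_iff₀ hly]; exact hX
  set Λ := Real.log (Real.log X / Real.log y) with hΛ
  have hΛΛ₀ : Λ₀ ≤ Λ := by
    rw [hΛ, Real.le_log_iff_exp_le (by linarith)]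
    linarith
  have hΛ1 : (1 + A) / e ≤ Λ := (le_max_left _ _).trans hΛΛ₀
  have hΛ2 : 1 / (c * e ^ 2) ≤ Λ := (le_trans (le_max_left _ _) (le_max_right _ _)).trans hΛΛ₀
  have hΛ3 : 4 / (c * ε) ≤ Λ := (le_trans (le_max_right _ _) (le_max_right _ _)).trans hΛΛ₀
  have hΛ0 : 0 < Λ := lt_of_lt_of_le (by positivity) hΛ3
  have hW := W_pos y
  have hWc := hc y hy3'
  have hM0 : 0 < MX y X := by
    unfold MX; rw [← hΛ]; positivity
  refine ⟨hly, hlX, hM0, ?_, fun P hP => ?_⟩
  · unfold MX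
    rw [← hΛ, div_le_iff₀ hly]
    rw [div_le_iff₀ (by positivity)] at hΛ3
    have h1 : 4 ≤ Λ * ((Count.W y * Real.log y) * ε) :=
      hΛ3.trans (mul_le_mul_of_nonneg_left (mul_le_mul_of_nonneg_right hWc hε.le) hΛ0.le)
    calc Real.log X = Real.log X / 4 * 4 := by ring
      _ ≤ Real.log X / 4 * (Λ * ((Count.W y * Real.log y) * ε)) :=
          mul_le_mul_of_nonneg_left h1 (by positivity)
      _ = _ := by ring
  · have hL : Real.log y ≤ Real.log X / 2 := by nlinarith
    have h1 := hBB y hyy0' P hP (Real.log X / 2) hL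
    have h2 : Real.log (Real.log X / 2 / Real.log y) ≤ Λ := by
      refine Real.log_le_log (by positivity) ?_
      exact div_le_div_of_nonneg_right (by linarith) hly.le
    have h3 : BB (Om P) (Real.log X / 2) ≤ (1 + e) ^ 2 * (Count.W y * Λ) := by
      rw [div_le_iff₀ he0] at hΛ1
      have h4 : 1 + A + Real.log (Real.log X / 2 / Real.log y) ≤ (1 + e) * Λ := by linarith
      calc BB (Om P) (Real.log X / 2) ≤ _ := h1
        _ ≤ (1 + e) * Count.W y * ((1 + e) * Λ) := mul_le_mul_of_nonneg_left h4 (by positivity)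
        _ = _ := by ring
    have h5 : Real.sqrt (BB (Om P) (Real.log X / 2)) ≤ (1 + e) * Real.sqrt (Count.W y * Λ) := by
      calc Real.sqrt (BB (Om P) (Real.log X / 2)) ≤ Real.sqrt ((1 + e) ^ 2 * (Count.W y * Λ)) :=
            Real.sqrt_le_sqrt h3
        _ = _ := by rw [Real.sqrt_mul (sq_nonneg _), Real.sqrt_sq (by linarith)]
    have h6 : 1 / Real.sqrt (Real.log y) ≤ e * Real.sqrt (Count.W y * Λ) := by
      have h7 : 1 / Real.log y ≤ e ^ 2 * (Count.W y * Λ) := by
        rw [div_le_iff₀ hly]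
        rw [div_le_iff₀ (by positivity)] at hΛ2
        calc (1 : ℝ) ≤ Λ * (c * e ^ 2) := hΛ2
          _ ≤ Λ * ((Count.W y * Real.log y) * e ^ 2) :=
            mul_le_mul_of_nonneg_left (mul_le_mul_of_nonneg_right hWc (sq_nonneg _)) hΛ0.le
          _ = _ := by ring
      calc 1 / Real.sqrt (Real.log y) = Real.sqrt (1 / Real.log y) := by
            rw [Real.sqrt_div zero_le_one, Real.sqrt_one]
        _ ≤ Real.sqrt (e ^ 2 * (Count.W y * Λ)) := Real.sqrt_le_sqrt h7
        _ = _ := by rw [Real.sqrt_mul (sq_nonneg _), Real.sqrt_sq he0.le]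
    have h8 : (1 + 1 / (y : ℝ)) ≤ (1 + e) ^ 2 := by
      have h9 : 1 / (y : ℝ) ≤ e := by
        rw [div_le_iff₀ (by linarith)]
        rw [div_le_iff₀ he0] at hye
        linarith
      nlinarith
    have h10 : Real.sqrt ((1 + 1 / (y : ℝ)) * (Real.log X / 2)) ≤ (1 + e) * Real.sqrt (Real.log X / 2) := by
      calc Real.sqrt ((1 + 1 / (y : ℝ)) * (Real.log X / 2)) ≤ Real.sqrt ((1 + e) ^ 2 * (Real.log X / 2)) :=
            Real.sqrt_le_sqrt (mul_le_mul_of_nonneg_right h8 (by positivity))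
        _ = _ := by rw [Real.sqrt_mul (sq_nonneg _), Real.sqrt_sq (by linarith)]
    have h11 : Real.sqrt (Count.W y * Λ) * Real.sqrt (Real.log X / 2) = Real.sqrt (MX y X) := by
      rw [← Real.sqrt_mul (by positivity)]
      congr 1
      unfold MX
      rw [← hΛ]; ring
    calc (Real.sqrt (BB (Om P) (Real.log X / 2)) + 1 / Real.sqrt (Real.log y)) *
        Real.sqrt ((1 + 1 / (y : ℝ)) * (Real.log X / 2))
        ≤ ((1 + e) * Real.sqrt (Count.W y * Λ) + e * Real.sqrt (Count.W y * Λ)) *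
          ((1 + e) * Real.sqrt (Real.log X / 2)) :=
          mul_le_mul (add_le_add h5 h6) h10 (Real.sqrt_nonneg _) (by positivity)
      _ = ((1 + 2 * e) * (1 + e)) * (Real.sqrt (Count.W y * Λ) * Real.sqrt (Real.log X / 2)) := by ring
      _ = ((1 + 2 * e) * (1 + e)) * Real.sqrt (MX y X) := by rw [h11]
      _ ≤ (1 + ε / 2) * Real.sqrt (MX y X) := by
          refine mul_le_mul_of_nonneg_right ?_ (Real.sqrt_nonneg _)
          nlinarith

end Run7.h52.AsmA
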