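import Pool.Agent.Run7.h52.AsmA

set_option autoImplicit false
set_option linter.unusedSectionVars false

namespace Run7.h52.AsmA

open Finset Run7.h52.Op Run7.h52.Core Run7.h52.CoreA Run7.h52.Count Run7.h52.Sums
  Run7.h52.Transfer

lemma lev_mono {ι : Type} [Fintype ι] [DecidableEq ι] {Ω : ι → Type} [∀ i, Fintype (Ω i)]
    [∀ i, DecidableEq (Ω i)] {L : ℝ} {V : (∀ i, Ω i) → ℝ} (h : Lev L V) {L' : ℝ} (hL : L ≤ L') :
    Lev L' V := fun K s h1 h2 => h K s h1 (hL.trans_lt h2)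

/-- lower bound for the number of live colours -/
lemma alive (y : ℕ) (hy : 1 < y) (Q : Finset ℕ) (hQ : ∀ p ∈ Q, p.Prime ∧ y < p) (d : ℕ) (hd : 1 ≤ d)
    (hQd : ∀ p ∈ Q, p ∣ d) (H : Finset ℤ)
    (hH : ∀ p ∈ Q, ∀ h ∈ H, ∀ h' ∈ H, (p : ℤ) ∣ h - h' → h = h') (n : ℤ) :
    (H.card : ℝ) - Real.log d / Real.log y ≤
      ((H.filter (fun h => ∀ p ∈ Q, ¬ (p : ℤ) ∣ n + h)).card : ℝ) := by
  classical
  have hy1 : (1 : ℝ) < y := by exact_mod_cast hy
  have hly : 0 < Real.log y := Real.log_pos hy1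
  have h1 : (Q.card : ℝ) ≤ Real.log d / Real.log y := by
    rw [le_div_iff₀ hly]
    have h2 : ∏ p ∈ Q, p ∣ d := Finset.prod_primes_dvd d (fun p hp => (hQ p hp).1.prime) hQd
    have h3 : ∏ p ∈ Q, p ≤ d := Nat.le_of_dvd hd h2
    have h4 : (y : ℕ) ^ Q.card ≤ ∏ p ∈ Q, p := by
      rw [← Finset.prod_const]
      exact Finset.prod_le_prod' fun p hp => (hQ p hp).2.le
    have h5 : ((y ^ Q.card : ℕ) : ℝ) ≤ d := by exact_mod_cast h4.trans h3
    have h6 := Real.log_le_log (by positivity) h5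
    push_cast at h6
    rwa [Real.log_pow] at h6
  have h2 : (H.filter (fun h => ¬ ∀ p ∈ Q, ¬ (p : ℤ) ∣ n + h)).card ≤ Q.card := by
    have h3 : H.filter (fun h => ¬ ∀ p ∈ Q, ¬ (p : ℤ) ∣ n + h) ⊆
        Q.biUnion fun p => H.filter fun h => (p : ℤ) ∣ n + h := by
      intro h hh
      rw [Finset.mem_filter] at hh
      obtain ⟨hh1, hh2⟩ := hh
      push Not at hh2
      obtain ⟨p, hp, hd⟩ := hh2
      rw [Finset.mem_biUnion]
      exact ⟨p, hp, Finset.mem_filter.2 ⟨hh1, hd⟩⟩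
    refine (Finset.card_le_card h3).trans (Finset.card_biUnion_le.trans ?_)
    calc ∑ p ∈ Q, (H.filter fun h => (p : ℤ) ∣ n + h).card ≤ ∑ p ∈ Q, 1 := by
          refine Finset.sum_le_sum fun p hp => ?_
          rw [Finset.card_le_one]
          intro a ha b hb
          rw [Finset.mem_filter] at ha hb
          refine hH p hp a ha.1 b hb.1 ?_
          have : a - b = (n + a) - (n + b) := by ring
          rw [this]; exact dvd_sub ha.2 hb.2
      _ = Q.card := by simp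
  have h3 := Finset.card_filter_add_card_filter_not (s := H) (p := fun h => ∀ p ∈ Q, ¬ (p : ℤ) ∣ n + h)
  have h4 : ((H.filter (fun h => ∀ p ∈ Q, ¬ (p : ℤ) ∣ n + h)).card : ℝ)
      + ((H.filter (fun h => ¬ ∀ p ∈ Q, ¬ (p : ℤ) ∣ n + h)).card : ℝ) = H.card := by exact_mod_cast h3
  have h5 : ((H.filter (fun h => ¬ ∀ p ∈ Q, ¬ (p : ℤ) ∣ n + h)).card : ℝ) ≤ Q.card := by exact_mod_cast h2
  linarith

/-- elementary inequality with square roots -/
lemma sqrt_ineq {K k M L₀ ε : ℝ} (hε : 0 < ε) (hM : 0 < M) (hK : 0 ≤ K) (hk0 : 0 ≤ k) (hkK : k ≤ K)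
    (hk : K - L₀ ≤ k) (hL : L₀ ≤ (ε / 2) * M) :
    (max 0 (1 - Real.sqrt (M / K) - ε)) ^ 2 * K
      ≤ (max 0 (Real.sqrt k - (1 + ε / 2) * Real.sqrt M)) ^ 2 := by
  by_cases h0 : 1 - Real.sqrt (M / K) - ε ≤ 0
  · rw [max_eq_left h0]
    have := sq_nonneg (max 0 (Real.sqrt k - (1 + ε / 2) * Real.sqrt M))
    simp only [ne_eq, OfNat.ofNat_ne_zero, not_false_eq_true, zero_pow, zero_mul]
    exact this
  · push Not at h0
    rcases hK.eq_or_lt with hK0 | hK0
    · rw [← hK0, mul_zero]; positivity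
    have hMK : M ≤ K := by
      have h1 : Real.sqrt (M / K) ≤ 1 := by linarith
      rw [Real.sqrt_le_one] at h1
      rwa [div_le_one hK0] at h1
    have hsK : 0 < Real.sqrt K := Real.sqrt_pos.2 hK0
    have h2 : (1 - Real.sqrt (M / K) - ε) * Real.sqrt K = Real.sqrt K - Real.sqrt M - ε * Real.sqrt K := by
      rw [Real.sqrt_div hM.le]; field_simp
    have h3 : k ≤ Real.sqrt K * Real.sqrt k := by
      have h4 : Real.sqrt k ≤ Real.sqrt K := Real.sqrt_le_sqrt hkK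
      calc k = Real.sqrt k * Real.sqrt k := (Real.mul_self_sqrt hk0).symm
        _ ≤ _ := mul_le_mul_of_nonneg_right h4 (Real.sqrt_nonneg _)
    have h5 : Real.sqrt K * Real.sqrt K = K := Real.mul_self_sqrt hK
    have h6 : (1 - ε / 2) * Real.sqrt K ≤ Real.sqrt k := by
      have h7 : (1 - ε / 2) * Real.sqrt K * Real.sqrt K ≤ Real.sqrt k * Real.sqrt K := by
        have h8 : (1 - ε / 2) * Real.sqrt K * Real.sqrt K = (1 - ε / 2) * K := by rw [mul_assoc, h5]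
        rw [h8]
        have h9 : (ε / 2) * M ≤ (ε / 2) * K := mul_le_mul_of_nonneg_left hMK (by linarith)
        nlinarith
      exact le_of_mul_le_mul_right h7 hsK
    have h7 : Real.sqrt M ≤ Real.sqrt K := Real.sqrt_le_sqrt hMK
    have h8 : (1 - Real.sqrt (M / K) - ε) * Real.sqrt K ≤ Real.sqrt k - (1 + ε / 2) * Real.sqrt M := by
      rw [h2]
      nlinarith
    rw [max_eq_right h0.le]
    have h9 : (1 - Real.sqrt (M / K) - ε) ^ 2 * K = ((1 - Real.sqrt (M / K) - ε) * Real.sqrt K) ^ 2 := by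
      rw [mul_pow, Real.sq_sqrt hK]
    rw [h9]
    refine pow_le_pow_left₀ (by positivity) (h8.trans (le_max_right _ _)) 2

/-- one progression and one square -/
theorem piece {ε : ℝ} (hε : 0 < ε) {y : ℕ} {X : ℝ} (hy3 : 3 ≤ y) (hly : 0 < Real.log y)
    (hlX : 0 < Real.log X) (hM0 : 0 < MX y X) (hL₀ : Real.log X / Real.log y ≤ (ε / 2) * MX y X)
    (hpar : ∀ P : Finset ℕ, (∀ p ∈ P, p.Prime ∧ y < p) →
      (Real.sqrt (BB (Om P) (Real.log X / 2)) + 1 / Real.sqrt (Real.log y)) *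
        Real.sqrt ((1 + 1 / (y : ℝ)) * (Real.log X / 2)) ≤ (1 + ε / 2) * Real.sqrt (MX y X))
    (P : Finset ℕ) (hP : ∀ p ∈ P, p.Prime ∧ y < p) (H : Finset ℤ)
    (hH : ∀ p ∈ P, ∀ h ∈ H, ∀ h' ∈ H, (p : ℤ) ∣ h - h' → h = h') (M : ℕ) (hM : 0 < M)
    (hPM : ∀ p ∈ P, p ∣ M) (d R : ℕ) (a : ℤ) (V : ℤ → ℝ) (hd : 1 ≤ d) (hR : 1 ≤ R)
    (hdR : (d : ℝ) * (R : ℝ) ^ 2 ≤ X) (hdM : d ∣ M) (hRM : ∀ q ∈ Finset.Icc 1 R, q ∣ M)
    (hV : HasLevel R V) :
    (max 0 (1 - Real.sqrt (MX y X / H.card) - ε)) ^ 2 * (∏ p ∈ P, (1 - 1 / (p : ℝ))) * H.card *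
      ∑ n ∈ Finset.range M, (if (d : ℤ) ∣ (n : ℤ) - a then V n ^ 2 else 0)
      ≤ ∑ n ∈ Finset.range M, (if (d : ℤ) ∣ (n : ℤ) - a then V n ^ 2 *
          ((H.filter fun h => ∀ p ∈ P, ¬ (p : ℤ) ∣ (n : ℤ) + h).card : ℝ) else 0) := by
  classical
  set P' := P.filter fun p => ¬ p ∣ d with hP'
  set Q := P.filter fun p => p ∣ d with hQ
  have hP'P : ∀ p ∈ P', p.Prime ∧ y < p := fun p hp => hP p (Finset.mem_filter.1 hp).1
  have hPQ : P' ∪ Q = P := by
    rw [hP', hQ, Finset.union_comm]; exact Finset.filter_union_filter_not_eq _ _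
  obtain ⟨m, hm, hmain⟩ := transfer M hM P' Q
    (fun p hp => ⟨(hP'P p hp).1, hPM p (Finset.mem_filter.1 hp).1⟩)
    (fun p hp => ⟨(hP p (Finset.mem_filter.1 hp).1).1, hPM p (Finset.mem_filter.1 hp).1⟩)
    (fun p hp hp' => (Finset.mem_filter.1 hp').2 (Finset.mem_filter.1 hp).2) H d hdM
    (fun p hp => (Finset.mem_filter.1 hp).2) a
  obtain ⟨e1, e2⟩ := hmain V (level_periodic hRM hV)
  rw [hPQ] at e1
  set N : ℝ := (Fintype.card (∀ i : {p // p ∈ P'}, Fin (i : ℕ)) : ℝ) with hN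
  have hNpos : 0 < N := by
    have : 0 < Fintype.card (∀ i : {p // p ∈ P'}, Fin (i : ℕ)) := by
      rw [Fintype.card_pi]
      exact Finset.prod_pos fun i _ => by simpa using (hP'P i i.2).1.pos
    rw [hN]
    exact_mod_cast this
  have hR0 : (0 : ℝ) < R := by exact_mod_cast hR
  have hd0 : (1 : ℝ) ≤ d := by exact_mod_cast hd
  have hX0 : 0 < X := lt_of_lt_of_le (by positivity) hdR
  have hlogR : Real.log R ≤ Real.log X / 2 := by
    have h1 : (R : ℝ) ^ 2 ≤ X := by nlinarith [sq_nonneg (R : ℝ)]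
    have h2 := Real.log_le_log (by positivity) h1
    rw [Real.log_pow] at h2
    push_cast at h2
    linarith
  have hlogd : Real.log d ≤ Real.log X := by
    refine Real.log_le_log (by linarith) (le_trans ?_ hdR)
    have h1 : (1 : ℝ) ≤ (R : ℝ) ^ 2 := by
      have : (1 : ℝ) ≤ R := by exact_mod_cast hR
      nlinarith
    nlinarith
  set c₀ : ℝ := (max 0 (1 - Real.sqrt (MX y X / H.card) - ε)) ^ 2 with hc₀
  have hρ : (∏ p ∈ P, (1 - 1 / (p : ℝ))) ≤ rho (Om P') := by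
    have h1 : rho (Om P') = ∏ p ∈ P', (1 - 1 / (p : ℝ)) := by
      rw [rho, ← Finset.prod_coe_sort P' (fun p : ℕ => (1 - 1 / (p : ℝ)))]
      refine Finset.prod_congr rfl fun i _ => ?_
      rw [pp_Om]
      have : ((i : ℕ) : ℝ) ≠ 0 := by exact_mod_cast (hP'P i i.2).1.ne_zero
      field_simp
    rw [h1, ← Finset.prod_filter_mul_prod_filter_not P (fun p => ¬ p ∣ d)]
    refine mul_le_of_le_one_right (Finset.prod_nonneg fun p hp => ?_)
      (Finset.prod_le_one (fun p hp => ?_) (fun p hp => ?_))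
    · have : (1 : ℝ) < p := by exact_mod_cast (hP'P p hp).1.one_lt
      have : 1 / (p : ℝ) < 1 := by rw [div_lt_one (by linarith)]; exact this
      linarith
    · have : (1 : ℝ) < p := by exact_mod_cast (hP p (Finset.mem_filter.1 hp).1).1.one_lt
      have : 1 / (p : ℝ) < 1 := by rw [div_lt_one (by linarith)]; exact this
      linarith
    · have : (0 : ℝ) ≤ 1 / (p : ℝ) := by positivity
      linarith
  have hρ0 : 0 ≤ ∏ p ∈ P, (1 - 1 / (p : ℝ)) := by
    refine Finset.prod_nonneg fun p hp => ?_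
    have : (1 : ℝ) < p := by exact_mod_cast (hP p hp).1.one_lt
    have : 1 / (p : ℝ) < 1 := by rw [div_lt_one (by linarith)]; exact this
    linarith
  have h2 : ∀ i : {p // p ∈ P'}, 2 ≤ Fintype.card (Om P' i) := fun i => by
    simpa using (hP'P i i.2).1.two_le
  have hy1 : (1 : ℝ) < y := by exact_mod_cast (by omega : 1 < y)
  -- the inequality for each `n`
  have key : ∀ n : ℤ, c₀ * (∏ p ∈ P, (1 - 1 / (p : ℝ))) * H.card *
      ip (Ω := Om P') (fun x => V (n + m x)) (fun x => V (n + m x)) ≤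
      ∑ h ∈ H.filter (fun h => ∀ p ∈ Q, ¬ (p : ℤ) ∣ n + h),
            unhit (Ω := Om P')
              (fun i => cls (hP'P i i.2).1.pos (-(n + h))) (fun x => V (n + m x)) := by
    intro n
    set Hn := H.filter (fun h => ∀ p ∈ Q, ¬ (p : ℤ) ∣ n + h) with hHn
    set Vn : (∀ i, Om P' i) → ℝ := fun x => V (n + m x) with hVn
    have hlev : Lev (Ω := Om P') (Real.log X / 2) Vn :=
      lev_of_level (fun p hp => (hP'P p hp).1) m hm hRM hV n hlogR
    set col : {h // h ∈ Hn} → ∀ i, Om P' i := fun h i => cls (hP'P i i.2).1.pos (-(n + (h : ℤ))) with hcol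
    have hinj : ∀ i, Function.Injective fun k => col k i := by
      intro i h h' hh
      apply Subtype.ext
      have h3 : col h i = cls (hP'P i i.2).1.pos (-(n + (h' : ℤ))) := hh
      rw [eq_cls] at h3
      have h4 : col h i = cls (hP'P i i.2).1.pos (-(n + (h : ℤ))) := rfl
      have h5 := (eq_cls _ _ _).1 h4
      refine hH i (Finset.mem_filter.1 i.2).1 _ (Finset.mem_filter.1 h.2).1 _
        (Finset.mem_filter.1 h'.2).1 ?_
      have h6 : (h : ℤ) - (h' : ℤ) = (-(n + (h' : ℤ)) - ((col h i : ℕ) : ℤ))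
        - (-(n + (h : ℤ)) - ((col h i : ℕ) : ℤ)) := by ring
      rw [h6]; exact dvd_sub h3 h5
    have hA := coreA (Ω := Om P') col hinj (L := Real.log X / 2) (lam := Real.log y)
      (θ := 1 + 1 / (y : ℝ)) hlev h2 (fun i => by
        rw [pp_Om]
        exact Real.log_le_log (by linarith) (by exact_mod_cast (hP'P i i.2).2.le)) hly
      (fun i => by
        rw [pp_Om]
        have h3 : (y : ℝ) + 1 ≤ ((i : ℕ) : ℝ) := by exact_mod_cast (hP'P i i.2).2
        rw [div_le_iff₀ (by linarith)]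
        have h4 : (1 + 1 / (y : ℝ)) * (((i : ℕ) : ℝ) - 1) = ((i : ℕ) : ℝ) + ((((i : ℕ) : ℝ) - 1) / y - 1) := by
          field_simp; ring
        rw [h4]
        have h5 : 1 ≤ (((i : ℕ) : ℝ) - 1) / y := by rw [le_div_iff₀ (by linarith)]; linarith
        linarith) (by positivity) (by positivity)
    rw [Fintype.card_coe] at hA
    have hU : ∑ h ∈ Hn, unhit (Ω := Om P') (fun i => cls (hP'P i i.2).1.pos (-(n + h))) Vn
        = ∑ k, unhit (Ω := Om P') (col k) Vn := by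
      rw [← Finset.sum_coe_sort Hn (fun h => unhit (Ω := Om P') (fun i => cls (hP'P i i.2).1.pos (-(n + h))) Vn)]
    rw [hU]
    set U := ∑ k, unhit (Ω := Om P') (col k) Vn with hUdef
    have hU0 : 0 ≤ U := Finset.sum_nonneg fun k _ => Finset.sum_nonneg fun x _ => by
      split_ifs
      · exact mul_self_nonneg _
      · exact le_rfl
    have hρpos := rho_nonneg (Ω := Om P') h2
    have hnn := nrm_nonneg Vn
    have h3 : (Real.sqrt Hn.card - (1 + ε / 2) * Real.sqrt (MX y X)) * nrm Vn ≤ Real.sqrt (U / rho (Om P')) := by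
      have h4 := mul_le_mul_of_nonneg_right (hpar P' hP'P) hnn
      linarith
    have h4 : max 0 (Real.sqrt Hn.card - (1 + ε / 2) * Real.sqrt (MX y X)) * nrm Vn
        ≤ Real.sqrt (U / rho (Om P')) := by
      rcases le_total 0 (Real.sqrt Hn.card - (1 + ε / 2) * Real.sqrt (MX y X)) with h5 | h5
      · rw [max_eq_right h5]; exact h3
      · rw [max_eq_left h5, zero_mul]; exact Real.sqrt_nonneg _
    have h5 : (max 0 (Real.sqrt Hn.card - (1 + ε / 2) * Real.sqrt (MX y X))) ^ 2 * nrm Vn ^ 2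
        ≤ U / rho (Om P') := by
      rw [← mul_pow]
      have h6 := pow_le_pow_left₀ (by positivity) h4 2
      rwa [Real.sq_sqrt (div_nonneg hU0 hρpos.le)] at h6
    have h6 : (H.card : ℝ) - Real.log X / Real.log y ≤ (Hn.card : ℝ) := by
      have h7 := alive y (by omega) Q (fun p hp => hP p (Finset.mem_filter.1 hp).1) d hd
        (fun p hp => (Finset.mem_filter.1 hp).2) H
        (fun p hp => hH p (Finset.mem_filter.1 hp).1) n
      have h8 : Real.log d / Real.log y ≤ Real.log X / Real.log y := div_le_div_of_nonneg_right hlogd hly.le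
      linarith
    have h7 : (Hn.card : ℝ) ≤ H.card := by exact_mod_cast Finset.card_filter_le _ _
    have h8 := sqrt_ineq hε hM0 (Nat.cast_nonneg _) (Nat.cast_nonneg _) h7 h6 hL₀
    rw [le_div_iff₀ hρpos] at h5
    rw [nrm_eq_ip] at h5
    have hip := ip_self_nonneg Vn
    calc c₀ * (∏ p ∈ P, (1 - 1 / (p : ℝ))) * H.card * ip Vn Vn
        = (c₀ * H.card) * ip Vn Vn * (∏ p ∈ P, (1 - 1 / (p : ℝ))) := by ring
      _ ≤ (max 0 (Real.sqrt Hn.card - (1 + ε / 2) * Real.sqrt (MX y X))) ^ 2 * ip Vn Vn * rho (Om P') := by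
          refine mul_le_mul (mul_le_mul_of_nonneg_right h8 hip) hρ hρ0 (by positivity)
      _ ≤ U := h5
  -- sum over `n`
  refine le_of_mul_le_mul_left ?_ hNpos
  have h10 : N * (c₀ * (∏ p ∈ P, (1 - 1 / (p : ℝ))) * H.card *
      ∑ n ∈ Finset.range M, (if (d : ℤ) ∣ (n : ℤ) - a then V n ^ 2 else 0))
      = c₀ * (∏ p ∈ P, (1 - 1 / (p : ℝ))) * H.card * (N * ∑ n ∈ Finset.range M,
        (if (d : ℤ) ∣ (n : ℤ) - a then V n ^ 2 else 0)) := by ring
  rw [h10, e1, e2, Finset.mul_sum]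
  refine Finset.sum_le_sum fun n _ => ?_
  split_ifs with hdn
  · exact key n
  · simp

/-- Theorem A -/
theorem mainA : ∀ ε : ℝ, 0 < ε → ∃ T : ℝ, ∀ (y : ℕ) (X : ℝ), T ≤ y → T * Real.log y ≤ Real.log X →
    ∀ P : Finset ℕ, (∀ p ∈ P, p.Prime ∧ y < p) →
    ∀ H : Finset ℤ, (∀ p ∈ P, ∀ h ∈ H, ∀ h' ∈ H, (p : ℤ) ∣ h - h' → h = h') →
    ∀ M : ℕ, 0 < M → (∀ p ∈ P, p ∣ M) → ∀ w : ℤ → ℝ, SW.SquareWeight X M w →
    (max 0 (1 - Real.sqrt ((1 / 2) * SW.W y * Real.log X * Real.log (Real.log X / Real.log y)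
        / H.card) - ε)) ^ 2 * (∏ p ∈ P, (1 - 1 / (p : ℝ))) * H.card *
      ∑ n ∈ Finset.range M, w n
      ≤ ∑ n ∈ Finset.range M, w n * ((SW.survivors P H n).card : ℝ) := by
  intro ε hε
  obtain ⟨T, hT3, hT⟩ := params ε hε
  refine ⟨T, fun y X hy hX P hP H hH M hM hPM w hw => ?_⟩
  obtain ⟨J, d, R, a, V, hJ, hw⟩ := hw
  obtain ⟨hly, hlX, hM0, hL₀, hpar⟩ := hT y X hy hX
  have hy3 : 3 ≤ y := by exact_mod_cast hT3.trans hy
  simp only [hw]
  have hMX : (1 / 2) * SW.W y * Real.log X * Real.log (Real.log X / Real.log y) = MX y X := rfl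
  rw [hMX]
  have e1 : ∑ n ∈ Finset.range M, ∑ j, (if (d j : ℤ) ∣ (n : ℤ) - a j then V j n ^ 2 else 0)
      = ∑ j, ∑ n ∈ Finset.range M, (if (d j : ℤ) ∣ (n : ℤ) - a j then V j n ^ 2 else 0) :=
    Finset.sum_comm
  have e2 : ∑ n ∈ Finset.range M, (∑ j, (if (d j : ℤ) ∣ (n : ℤ) - a j then V j n ^ 2 else 0)) *
      ((SW.survivors P H n).card : ℝ)
      = ∑ j, ∑ n ∈ Finset.range M, (if (d j : ℤ) ∣ (n : ℤ) - a j then V j n ^ 2 *
          ((H.filter fun h => ∀ p ∈ P, ¬ (p : ℤ) ∣ (n : ℤ) + h).card : ℝ) else 0) := by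
    rw [Finset.sum_comm]
    refine Finset.sum_congr rfl fun n _ => ?_
    rw [Finset.sum_mul]
    refine Finset.sum_congr rfl fun j _ => ?_
    rw [ite_mul, zero_mul]
    rfl
  rw [e1, e2, Finset.mul_sum]
  refine Finset.sum_le_sum fun j _ => ?_
  obtain ⟨h1, h2, h3, h4, h5, h6⟩ := hJ j
  exact piece hε hy3 hly hlX hM0 hL₀ hpar P hP H hH M hM hPM (d j) (R j) (a j) (V j) h1 h2 h3 h4 h5 h6

end Run7.h52.AsmA
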