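import Pool.Agent.Run7.h52.AsmB

set_option autoImplicit false
set_option linter.unusedSectionVars false

namespace Run7.h52.AsmB

open Finset Run7.h52.Op Run7.h52.Core Run7.h52.CoreA Run7.h52.CoreB Run7.h52.Count Run7.h52.Sums
  Run7.h52.Transfer

/-- product of `d` and all differences -/
def diffs (d : ℕ) (H : Finset ℤ) : ℕ :=
  d * ∏ q ∈ (H ×ˢ H).filter (fun q => q.1 ≠ q.2), (q.1 - q.2).natAbs

lemma diffs_pos {d : ℕ} (hd : 1 ≤ d) (H : Finset ℤ) : 0 < diffs d H := by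
  refine Nat.mul_pos hd (Finset.prod_pos fun q hq => ?_)
  rw [Finset.mem_filter] at hq
  exact Int.natAbs_pos.2 (sub_ne_zero.2 hq.2)

lemma log_diffs {d : ℕ} (hd : 1 ≤ d) (H : Finset ℤ) {X B : ℝ} (hX : 1 ≤ X) (hB : 0 ≤ B)
    (hdX : (d : ℝ) ≤ X) (hH : ∀ h ∈ H, |(h : ℝ)| ≤ X ^ B) :
    Real.log (diffs d H) ≤ Real.log X + (H.card : ℝ) ^ 2 * (Real.log 2 + B * Real.log X) := by
  have hX0 : 0 < X := by linarith
  have hlX : 0 ≤ Real.log X := Real.log_nonneg hX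
  have hl2 := Real.log_two_gt_d9
  rw [diffs]
  push_cast
  have hd0 : (d : ℝ) ≠ 0 := by positivity
  have hne : ∀ q ∈ (H ×ˢ H).filter (fun q => q.1 ≠ q.2), (((q.1 - q.2).natAbs : ℕ) : ℝ) ≠ 0 := by
    intro q hq
    rw [Finset.mem_filter] at hq
    have := Int.natAbs_pos.2 (sub_ne_zero.2 hq.2)
    exact_mod_cast this.ne'
  have hcast : ∏ q ∈ (H ×ˢ H).filter (fun q => q.1 ≠ q.2), |((q.1 : ℝ) - (q.2 : ℝ))|
      = ∏ q ∈ (H ×ˢ H).filter (fun q => q.1 ≠ q.2), (((q.1 - q.2).natAbs : ℕ) : ℝ) := by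
    refine Finset.prod_congr rfl fun q _ => ?_
    rw [Nat.cast_natAbs]; push_cast; rfl
  have h0 : Real.log ((d : ℝ) * ∏ q ∈ (H ×ˢ H).filter (fun q => q.1 ≠ q.2), (((q.1 - q.2).natAbs : ℕ) : ℝ))
      = Real.log d + ∑ q ∈ (H ×ˢ H).filter (fun q => q.1 ≠ q.2),
        Real.log (((q.1 - q.2).natAbs : ℕ) : ℝ) := by
    rw [Real.log_mul hd0 (Finset.prod_ne_zero_iff.2 hne), Real.log_prod hne]
  have h1 : Real.log d ≤ Real.log X := Real.log_le_log (by positivity) hdX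
  have h2 : ∑ q ∈ (H ×ˢ H).filter (fun q => q.1 ≠ q.2), Real.log (((q.1 - q.2).natAbs : ℕ) : ℝ)
      ≤ (H.card : ℝ) ^ 2 * (Real.log 2 + B * Real.log X) := by
    have h3 : ∀ q ∈ (H ×ˢ H).filter (fun q => q.1 ≠ q.2), Real.log (((q.1 - q.2).natAbs : ℕ) : ℝ)
        ≤ Real.log 2 + B * Real.log X := by
      intro q hq
      have hq' := Finset.mem_filter.1 hq
      have hqq := Finset.mem_product.1 hq'.1
      have h4 : (((q.1 - q.2).natAbs : ℕ) : ℝ) ≤ 2 * X ^ B := by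
        rw [Nat.cast_natAbs]
        push_cast
        have h5 := abs_sub (q.1 : ℝ) (q.2 : ℝ)
        have h6 := hH _ hqq.1
        have h7 := hH _ hqq.2
        linarith
      have h5 : (0 : ℝ) < (((q.1 - q.2).natAbs : ℕ) : ℝ) :=
        lt_of_le_of_ne (Nat.cast_nonneg _) (hne q hq).symm
      have h6 := Real.log_le_log h5 h4
      rwa [Real.log_mul (by norm_num) (by positivity), Real.log_rpow hX0] at h6
    refine (Finset.sum_le_card_nsmul _ _ _ h3).trans ?_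
    rw [nsmul_eq_mul]
    refine mul_le_mul_of_nonneg_right ?_ (by positivity)
    have h4 : ((H ×ˢ H).filter (fun q => q.1 ≠ q.2)).card ≤ H.card ^ 2 := by
      refine (Finset.card_filter_le _ _).trans ?_
      rw [Finset.card_product, sq]
    exact_mod_cast h4
  have h3 : Real.log ((d : ℝ) * ∏ q ∈ (H ×ˢ H).filter (fun q => q.1 ≠ q.2), |((q.1 : ℝ) - (q.2 : ℝ))|)
      ≤ Real.log X + (H.card : ℝ) ^ 2 * (Real.log 2 + B * Real.log X) := by
    rw [hcast, h0]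
    exact add_le_add h1 h2
  first
    | exact h3
    | (rw [h0]; exact add_le_add h1 h2)

/-- the live primes have the right density -/
lemma rho_bound (P : Finset ℕ) (hP : ∀ p ∈ P, p.Prime) (y N₀ : ℕ) (hy : 1 < y) (hN₀ : 0 < N₀) {e : ℝ}
    (he : Real.log N₀ / (y * Real.log y) ≤ e) :
    rho (Om (P.filter fun p => y < p ∧ ¬ p ∣ N₀)) * Count.W y
      ≤ (∏ p ∈ P, (1 - 1 / (p : ℝ))) * Real.exp e := by
  classical
  have hy1 : (1 : ℝ) < y := by exact_mod_cast hy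
  have hly : 0 < Real.log y := Real.log_pos hy1
  have hfac : ∀ p ∈ P, 0 < 1 - 1 / (p : ℝ) ∧ 1 - 1 / (p : ℝ) ≤ 1 := by
    intro p hp
    have : (1 : ℝ) < p := by exact_mod_cast (hP p hp).one_lt
    have h2 : 1 / (p : ℝ) < 1 := by rw [div_lt_one (by linarith)]; exact this
    have h3 : 0 ≤ 1 / (p : ℝ) := by positivity
    exact ⟨by linarith, by linarith⟩
  have hfac' : ∀ p ∈ PP y, 0 < 1 - 1 / (p : ℝ) ∧ 1 - 1 / (p : ℝ) ≤ 1 := by
    intro p hp
    have : (1 : ℝ) < p := by exact_mod_cast (Finset.mem_filter.1 hp).2.one_lt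
    have h2 : 1 / (p : ℝ) < 1 := by rw [div_lt_one (by linarith)]; exact this
    have h3 : 0 ≤ 1 / (p : ℝ) := by positivity
    exact ⟨by linarith, by linarith⟩
  set P' := P.filter fun p => y < p ∧ ¬ p ∣ N₀ with hP'
  set bad := P.filter fun p => y < p ∧ p ∣ N₀ with hbad
  set sm := P.filter fun p => p ≤ y with hsm
  have h1 : rho (Om P') = ∏ p ∈ P', (1 - 1 / (p : ℝ)) := by
    rw [rho, ← Finset.prod_coe_sort P' (fun p : ℕ => (1 - 1 / (p : ℝ)))]
    refine Finset.prod_congr rfl fun i _ => ?_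
    rw [pp_Om]
    have : ((i : ℕ) : ℝ) ≠ 0 := by
      exact_mod_cast (hP i (Finset.mem_filter.1 i.2).1).ne_zero
    field_simp
  have h2 : (∏ p ∈ P, (1 - 1 / (p : ℝ))) = (∏ p ∈ P', (1 - 1 / (p : ℝ))) * (∏ p ∈ bad, (1 - 1 / (p : ℝ))) *
      ∏ p ∈ sm, (1 - 1 / (p : ℝ)) := by
    rw [← Finset.prod_filter_mul_prod_filter_not P (fun p => y < p)]
    have e1 : P.filter (fun p => ¬ y < p) = sm := by
      rw [hsm]; exact Finset.filter_congr fun p _ => by simp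
    rw [e1]
    have ea : (P.filter fun p => y < p).filter (fun p => ¬ p ∣ N₀) = P' := by
      ext p; simp only [hP', Finset.mem_filter]; tauto
    have eb : (P.filter fun p => y < p).filter (fun p => ¬ ¬ p ∣ N₀) = bad := by
      ext p; simp only [hbad, Finset.mem_filter, not_not]; tauto
    rw [← Finset.prod_filter_mul_prod_filter_not (P.filter fun p => y < p) (fun p => ¬ p ∣ N₀),
      ea, eb]
  have h3 : Count.W y ≤ ∏ p ∈ sm, (1 - 1 / (p : ℝ)) := by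
    rw [Count.W]
    have hsub : sm ⊆ PP y := by
      intro p hp
      rw [hsm, Finset.mem_filter] at hp
      rw [Finset.mem_filter, Finset.mem_Icc]
      exact ⟨⟨(hP p hp.1).one_lt.le, hp.2⟩, hP p hp.1⟩
    rw [← Finset.prod_sdiff hsub]
    exact mul_le_of_le_one_left (Finset.prod_nonneg fun p hp => (hfac' p (hsub hp)).1.le)
      (Finset.prod_le_one (fun p hp => (hfac' p (Finset.sdiff_subset hp)).1.le)
        (fun p hp => (hfac' p (Finset.sdiff_subset hp)).2))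
  have h4 : 1 ≤ (∏ p ∈ bad, (1 - 1 / (p : ℝ))) * Real.exp e := by
    have h5 : (bad.card : ℝ) * Real.log y ≤ Real.log N₀ := by
      have h6 : ∏ p ∈ bad, p ∣ N₀ := Finset.prod_primes_dvd N₀
        (fun p hp => (hP p (Finset.mem_filter.1 hp).1).prime)
        (fun p hp => (Finset.mem_filter.1 hp).2.2)
      have h7 : ∏ p ∈ bad, p ≤ N₀ := Nat.le_of_dvd hN₀ h6
      have h8 : (y : ℕ) ^ bad.card ≤ ∏ p ∈ bad, p := by
        rw [← Finset.prod_const]
        exact Finset.prod_le_prod' fun p hp => (Finset.mem_filter.1 hp).2.1.le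
      have h9 : ((y ^ bad.card : ℕ) : ℝ) ≤ N₀ := by exact_mod_cast h8.trans h7
      have h10 := Real.log_le_log (by positivity) h9
      push_cast at h10
      rwa [Real.log_pow] at h10
    have h6 : Real.exp (-(bad.card * (1 / (y : ℝ)))) ≤ ∏ p ∈ bad, (1 - 1 / (p : ℝ)) := by
      have h7 : Real.exp (-(bad.card * (1 / (y : ℝ)))) = ∏ p ∈ bad, Real.exp (-(1 / (y : ℝ))) := by
        rw [Finset.prod_const, ← Real.exp_nat_mul]; congr 1; ring
      rw [h7]
      refine Finset.prod_le_prod (fun p _ => (Real.exp_pos _).le) (fun p hp => ?_)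
      have hp1 : (y : ℝ) + 1 ≤ p := by exact_mod_cast (Finset.mem_filter.1 hp).2.1
      rw [Real.exp_neg]
      have h8 := Real.add_one_le_exp (1 / (y : ℝ))
      have h9 : (1 - 1 / (p : ℝ)) = ((p : ℝ) / (p - 1))⁻¹ := by
        rw [inv_div]
        have : (p : ℝ) ≠ 0 := by intro h; linarith
        field_simp
      rw [h9]
      refine inv_anti₀ (div_pos (by linarith) (by linarith)) (le_trans ?_ h8)
      rw [div_le_iff₀ (by linarith)]
      have h10 : (1 / (y : ℝ) + 1) * ((p : ℝ) - 1) = (p : ℝ) + (((p : ℝ) - 1) / y - 1) := by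
        field_simp; ring
      rw [h10]
      have h11 : 1 ≤ ((p : ℝ) - 1) / y := by rw [le_div_iff₀ (by linarith)]; linarith
      linarith
    have h7 : bad.card * (1 / (y : ℝ)) ≤ e := by
      refine le_trans ?_ he
      rw [mul_one_div, div_le_div_iff₀ (by linarith) (by positivity)]
      nlinarith
    have h8 : Real.exp (-e) ≤ ∏ p ∈ bad, (1 - 1 / (p : ℝ)) :=
      (Real.exp_le_exp.2 (by linarith)).trans h6
    calc (1 : ℝ) = Real.exp (-e) * Real.exp e := by rw [← Real.exp_add]; simp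
      _ ≤ _ := mul_le_mul_of_nonneg_right h8 (Real.exp_pos _).le
  have hP'0 : 0 ≤ ∏ p ∈ P', (1 - 1 / (p : ℝ)) :=
    Finset.prod_nonneg fun p hp => (hfac p (Finset.mem_filter.1 hp).1).1.le
  have hsm0 : 0 ≤ ∏ p ∈ sm, (1 - 1 / (p : ℝ)) :=
    Finset.prod_nonneg fun p hp => (hfac p (Finset.mem_filter.1 hp).1).1.le
  rw [h1, h2]
  calc (∏ p ∈ P', (1 - 1 / (p : ℝ))) * Count.W y
      ≤ (∏ p ∈ P', (1 - 1 / (p : ℝ))) * (∏ p ∈ sm, (1 - 1 / (p : ℝ))) * 1 := by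
        rw [mul_one]; exact mul_le_mul_of_nonneg_left h3 hP'0
    _ ≤ (∏ p ∈ P', (1 - 1 / (p : ℝ))) * (∏ p ∈ sm, (1 - 1 / (p : ℝ))) *
        ((∏ p ∈ bad, (1 - 1 / (p : ℝ))) * Real.exp e) :=
        mul_le_mul_of_nonneg_left h4 (mul_nonneg hP'0 hsm0)
    _ = _ := by ring

lemma prod_pos' (P : Finset ℕ) (hP : ∀ p ∈ P, p.Prime) : 0 < ∏ p ∈ P, (1 - 1 / (p : ℝ)) := by
  refine Finset.prod_pos fun p hp => ?_
  have : (1 : ℝ) < p := by exact_mod_cast (hP p hp).one_lt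
  have : 1 / (p : ℝ) < 1 := by rw [div_lt_one (by linarith)]; exact this
  linarith

/-- one progression and one square -/
theorem pieceB {e B : ℝ} (he0 : 0 < e) (he1 : e ≤ 1 / 2) (hB : 0 ≤ B) {X : ℝ} {k : ℕ} (hX1 : 1 ≤ X)
    (hk : 2 ≤ k) (hy3 : 3 ≤ yy X) (hlX : 0 < Real.log X) (hye : 1 / (yy X : ℝ) ≤ e)
    (hN : (Real.log X + (k : ℝ) ^ 2 * (Real.log 2 + B * Real.log X)) / (yy X * Real.log (yy X)) ≤ e)
    (hL : (Real.log X / 2) / (yy X * Real.log (yy X)) ≤ e)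
    (hsum : ∀ P : Finset ℕ, (∀ p ∈ P, p.Prime ∧ yy X < p) → ∀ v, 0 ≤ v → v ≤ Real.log X / 2 →
      ∑ σ : {p // p ∈ P} → Bool, (if uu' (Om P) σ ≤ v then
        gg (Om P) σ / (v + e * (Real.log X / 2) + ((k : ℝ) - 1) * uu' (Om P) σ) else 0)
      ≤ (1 + e) ^ 2 * Count.W (yy X) * (Real.log k / (k - 1)))
    (P : Finset ℕ) (hP : ∀ p ∈ P, p.Prime) (H : Finset ℤ) (hHk : H.card = k) (hH : ∀ h ∈ H, |(h : ℝ)| ≤ X ^ B)
    (M : ℕ) (hM : 0 < M) (hPM : ∀ p ∈ P, p ∣ M) (d R : ℕ) (a : ℤ) (V : ℤ → ℝ) (hd : 1 ≤ d)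
    (hR : 1 ≤ R) (hdR : (d : ℝ) * (R : ℝ) ^ 2 ≤ X) (hdM : d ∣ M)
    (hRM : ∀ q ∈ Finset.Icc 1 R, q ∣ M) (hV : HasLevel R V) :
    ∑ n ∈ Finset.range M, (if (d : ℤ) ∣ (n : ℤ) - a then V n ^ 2 *
          ((H.filter fun h => ∀ p ∈ P, ¬ (p : ℤ) ∣ (n : ℤ) + h).card : ℝ) else 0)
      ≤ (1 + 2 * e) ^ 5 * (k * Real.log k / (k - 1)) * (Real.log X / 2) * (∏ p ∈ P, (1 - 1 / (p : ℝ))) *
      ∑ n ∈ Finset.range M, (if (d : ℤ) ∣ (n : ℤ) - a then V n ^ 2 else 0) := by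
  classical
  set y := yy X with hy
  have hy1 : (1 : ℝ) < y := by exact_mod_cast (by omega : 1 < y)
  have hly : 0 < Real.log y := Real.log_pos hy1
  set N₀ := diffs d H with hN₀
  have hN₀pos : 0 < N₀ := diffs_pos hd H
  have hR0 : (1 : ℝ) ≤ R := by exact_mod_cast hR
  have hd0 : (1 : ℝ) ≤ d := by exact_mod_cast hd
  have hdX : (d : ℝ) ≤ X := by
    have h1 : (1 : ℝ) ≤ (R : ℝ) ^ 2 := by nlinarith
    nlinarith
  have hlogN : Real.log N₀ ≤ Real.log X + (k : ℝ) ^ 2 * (Real.log 2 + B * Real.log X) := by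
    have := log_diffs hd H hX1 hB hdX hH
    rwa [hHk] at this
  have hlogN' : Real.log N₀ / (y * Real.log y) ≤ e :=
    (div_le_div_of_nonneg_right hlogN (by positivity)).trans hN
  set P' := P.filter fun p => y < p ∧ ¬ p ∣ N₀ with hP'
  set Q := P.filter fun p => ¬ (y < p ∧ ¬ p ∣ N₀) with hQ
  have hP'P : ∀ p ∈ P', p.Prime ∧ y < p := fun p hp =>
    ⟨hP p (Finset.mem_filter.1 hp).1, (Finset.mem_filter.1 hp).2.1⟩
  have hPQ : P' ∪ Q = P := Finset.filter_union_filter_not_eq _ _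
  obtain ⟨m, hm, hmain⟩ := transfer M hM P' Q
    (fun p hp => ⟨(hP'P p hp).1, hPM p (Finset.mem_filter.1 hp).1⟩)
    (fun p hp => ⟨hP p (Finset.mem_filter.1 hp).1, hPM p (Finset.mem_filter.1 hp).1⟩)
    (fun p hp hp' => (Finset.mem_filter.1 hp).2 (Finset.mem_filter.1 hp').2) H d hdM
    (fun p hp hpd => (Finset.mem_filter.1 hp).2.2 (hpd.mul_right _)) a
  obtain ⟨e1, e2⟩ := hmain V (level_periodic hRM hV)
  rw [hPQ] at e1
  set N : ℝ := (Fintype.card (∀ i : {p // p ∈ P'}, Fin (i : ℕ)) : ℝ) with hNdef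
  have hNpos : 0 < N := by
    have : 0 < Fintype.card (∀ i : {p // p ∈ P'}, Fin (i : ℕ)) := by
      rw [Fintype.card_pi]
      exact Finset.prod_pos fun i _ => by simpa using (hP'P i i.2).1.pos
    rw [hNdef]
    exact_mod_cast this
  have hlogR : Real.log R ≤ Real.log X / 2 := by
    have h1 : (R : ℝ) ^ 2 ≤ X := by nlinarith [sq_nonneg (R : ℝ)]
    have h2 := Real.log_le_log (by positivity) h1
    rw [Real.log_pow] at h2
    push_cast at h2
    linarith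
  have h2 : ∀ i : {p // p ∈ P'}, 2 ≤ Fintype.card (Om P' i) := fun i => by
    simpa using (hP'P i i.2).1.two_le
  have hk2 : (2 : ℝ) ≤ k := by exact_mod_cast hk
  have hρ : rho (Om P') * Count.W y ≤ (∏ p ∈ P, (1 - 1 / (p : ℝ))) * Real.exp e :=
    rho_bound P hP y N₀ (by omega) hN₀pos hlogN'
  have hexp : Real.exp e ≤ 1 + 2 * e := exp_small le_rfl he0.le he1
  have hlogk : 0 < Real.log k := Real.log_pos (by linarith)
  have hWz : 0 < ∏ p ∈ P, (1 - 1 / (p : ℝ)) := prod_pos' P hP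
  have hWy := W_pos y
  -- the inequality for each `n`
  have key : ∀ n : ℤ,
      ∑ h ∈ H.filter (fun h => ∀ p ∈ Q, ¬ (p : ℤ) ∣ n + h),
            unhit (Ω := Om P')
              (fun i => cls (hP'P i i.2).1.pos (-(n + h))) (fun x => V (n + m x))
      ≤ (1 + 2 * e) ^ 5 * (k * Real.log k / (k - 1)) * (Real.log X / 2) * (∏ p ∈ P, (1 - 1 / (p : ℝ))) *
      ip (Ω := Om P') (fun x => V (n + m x)) (fun x => V (n + m x)) := by
    intro n
    set Hn := H.filter (fun h => ∀ p ∈ Q, ¬ (p : ℤ) ∣ n + h) with hHn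
    set Vn : (∀ i, Om P' i) → ℝ := fun x => V (n + m x) with hVn
    have hlev : Lev (Ω := Om P') (Real.log X / 2) Vn :=
      lev_of_level (fun p hp => (hP'P p hp).1) m hm hRM hV n hlogR
    set col : {h // h ∈ Hn} → ∀ i, Om P' i := fun h i => cls (hP'P i i.2).1.pos (-(n + (h : ℤ))) with hcol
    have hinj : ∀ i, Function.Injective fun k => col k i := by
      intro i h h' hh
      apply Subtype.ext
      have h3 : col h i = cls (hP'P i i.2).1.pos (-(n + (h' : ℤ))) := hh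
      rw [eq_cls] at h3
      have h4 : col h i = cls (hP'P i i.2).1.pos (-(n + (h : ℤ))) := rfl
      have h5 := (eq_cls _ _ _).1 h4
      by_contra hne
      have h6 : (h : ℤ) - (h' : ℤ) = (-(n + (h' : ℤ)) - ((col h i : ℕ) : ℤ))
        - (-(n + (h : ℤ)) - ((col h i : ℕ) : ℤ)) := by ring
      have h7 : ((i : ℕ) : ℤ) ∣ (h : ℤ) - (h' : ℤ) := by rw [h6]; exact dvd_sub h3 h5
      refine (Finset.mem_filter.1 i.2).2.2 ?_
      have h8 : (i : ℕ) ∣ ((h : ℤ) - (h' : ℤ)).natAbs := Int.natCast_dvd.1 h7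
      refine h8.trans (Dvd.dvd.mul_left ?_ _)
      have hmem : (((h : ℤ), (h' : ℤ)) : ℤ × ℤ) ∈ (H ×ˢ H).filter (fun q => q.1 ≠ q.2) := by
        rw [Finset.mem_filter, Finset.mem_product]
        exact ⟨⟨(Finset.mem_filter.1 h.2).1, (Finset.mem_filter.1 h'.2).1⟩, hne⟩
      exact Finset.dvd_prod_of_mem (fun q : ℤ × ℤ => (q.1 - q.2).natAbs) hmem
    have hBc := coreB (Ω := Om P') col hinj (L := Real.log X / 2) (δ := e) (k := (k : ℝ))
      (Θ := 1 + 2 * e) (B := (1 + e) ^ 2 * Count.W y * (Real.log k / (k - 1)))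
      (θ := 1 + e) hlev h2 (by linarith)
      (by
        rw [Fintype.card_coe]
        have : Hn.card ≤ k := by rw [← hHk]; exact Finset.card_filter_le _ _
        exact_mod_cast this) he0 (by linarith)
      (by
        have : 0 < (k : ℝ) - 1 := by linarith
        positivity) (by linarith)
      (fun i => by
        rw [pp_Om]
        have h3 : (y : ℝ) + 1 ≤ ((i : ℕ) : ℝ) := by exact_mod_cast (hP'P i i.2).2
        have h30 : ((i : ℕ) : ℝ) / (((i : ℕ) : ℝ) - 1) ≤ 1 + 1 / (y : ℝ) := by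
          rw [div_le_iff₀ (by linarith)]
          have h4 : (1 + 1 / (y : ℝ)) * (((i : ℕ) : ℝ) - 1) = ((i : ℕ) : ℝ) + ((((i : ℕ) : ℝ) - 1) / y - 1) := by
            field_simp; ring
          rw [h4]
          have h5 : 1 ≤ (((i : ℕ) : ℝ) - 1) / y := by rw [le_div_iff₀ (by linarith)]; linarith
          linarith
        linarith) (by linarith)
      (fun t ht => (theta_prod (by omega) hP'P _ t ht).trans (exp_small hL he0.le he1))
      (fun v hv hvL => hsum P' hP'P v hv hvL)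
    have hU : ∑ h ∈ Hn, unhit (Ω := Om P') (fun i => cls (hP'P i i.2).1.pos (-(n + h))) Vn
        = ∑ k, unhit (Ω := Om P') (col k) Vn := by
      rw [← Finset.sum_coe_sort Hn (fun h => unhit (Ω := Om P') (fun i => cls (hP'P i i.2).1.pos (-(n + h))) Vn)]
    rw [hU]
    refine hBc.trans ?_
    have hip := ip_self_nonneg Vn
    refine mul_le_mul_of_nonneg_right ?_ hip
    have hk1 : 0 < (k : ℝ) - 1 := by linarith
    calc rho (Om P') * (1 + 2 * e) * ((1 + e) ^ 2 * Count.W y * (Real.log k / (k - 1))) *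
          (k * (e + (1 + e)) * (Real.log X / 2))
        = (rho (Om P') * Count.W y) * ((1 + 2 * e) * (1 + e) ^ 2 * (1 + 2 * e)) *
          (k * Real.log k / (k - 1)) * (Real.log X / 2) := by ring
      _ ≤ ((∏ p ∈ P, (1 - 1 / (p : ℝ))) * (1 + 2 * e)) * ((1 + 2 * e) * (1 + 2 * e) ^ 2 * (1 + 2 * e)) *
          (k * Real.log k / (k - 1)) * (Real.log X / 2) := by
          have h10 : rho (Om P') * Count.W y ≤ (∏ p ∈ P, (1 - 1 / (p : ℝ))) * (1 + 2 * e) :=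
            hρ.trans (mul_le_mul_of_nonneg_left hexp hWz.le)
          have h11 : (1 + e) ^ 2 ≤ (1 + 2 * e) ^ 2 := pow_le_pow_left₀ (by linarith) (by linarith) 2
          gcongr
      _ = _ := by ring
  -- sum over `n`
  refine le_of_mul_le_mul_left ?_ hNpos
  have h10 : N * ((1 + 2 * e) ^ 5 * (k * Real.log k / (k - 1)) * (Real.log X / 2) * (∏ p ∈ P, (1 - 1 / (p : ℝ))) *
      ∑ n ∈ Finset.range M, (if (d : ℤ) ∣ (n : ℤ) - a then V n ^ 2 else 0))
      = (1 + 2 * e) ^ 5 * (k * Real.log k / (k - 1)) * (Real.log X / 2) * (∏ p ∈ P, (1 - 1 / (p : ℝ))) *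
      (N * ∑ n ∈ Finset.range M,
        (if (d : ℤ) ∣ (n : ℤ) - a then V n ^ 2 else 0)) := by ring
  rw [h10, e1, e2, Finset.mul_sum]
  refine Finset.sum_le_sum fun n _ => ?_
  split_ifs with hdn
  · exact key n
  · simp

/-- Theorem B -/
theorem mainB : ∀ ε : ℝ, 0 < ε → ∀ B : ℝ, 0 ≤ B → ∃ T : ℝ, ∀ (X : ℝ) (H : Finset ℤ), T ≤ X →
    2 ≤ H.card → T * H.card * Real.log (Real.log X) ≤ Real.log X → (∀ h ∈ H, |(h : ℝ)| ≤ X ^ B) →
    ∀ (P : Finset ℕ) (M : ℕ), 0 < M → (∀ p ∈ P, p.Prime ∧ p ∣ M) →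
    ∀ w : ℤ → ℝ, SW.SquareWeight X M w →
    ∑ n ∈ Finset.range M, w n * ((SW.survivors P H n).card : ℝ)
      ≤ (1 + ε) * (H.card * Real.log H.card / (H.card - 1)) * (Real.log X / 2) *
        (∏ p ∈ P, (1 - 1 / (p : ℝ))) * ∑ n ∈ Finset.range M, w n := by
  intro ε hε B hB
  set e : ℝ := min ε 1 / 100 with he
  have he0 : 0 < e := by have := lt_min hε one_pos; positivity
  have he1 : e ≤ 1 / 100 := by have := min_le_right ε 1; rw [he]; linarith
  have heε : e ≤ ε / 100 := by have := min_le_left ε 1; rw [he]; linarith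
  obtain ⟨T, hT1, hT⟩ := paramsB e B he0 hB
  refine ⟨T, fun X H hX hk hkX hH P M hM hPP w hw => ?_⟩
  have hP : ∀ p ∈ P, p.Prime := fun p hp => (hPP p hp).1
  have hPM : ∀ p ∈ P, p ∣ M := fun p hp => (hPP p hp).2
  obtain ⟨J, d, R, a, V, hJ, hw⟩ := hw
  obtain ⟨hy3, hlX, hye, hN, hL, hsum⟩ := hT X H.card hX hk hkX
  simp only [hw]
  have e1 : ∑ n ∈ Finset.range M, ∑ j, (if (d j : ℤ) ∣ (n : ℤ) - a j then V j n ^ 2 else 0)
      = ∑ j, ∑ n ∈ Finset.range M, (if (d j : ℤ) ∣ (n : ℤ) - a j then V j n ^ 2 else 0) :=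
    Finset.sum_comm
  have e2 : ∑ n ∈ Finset.range M, (∑ j, (if (d j : ℤ) ∣ (n : ℤ) - a j then V j n ^ 2 else 0)) *
      ((SW.survivors P H n).card : ℝ)
      = ∑ j, ∑ n ∈ Finset.range M, (if (d j : ℤ) ∣ (n : ℤ) - a j then V j n ^ 2 *
          ((H.filter fun h => ∀ p ∈ P, ¬ (p : ℤ) ∣ (n : ℤ) + h).card : ℝ) else 0) := by
    rw [Finset.sum_comm]
    refine Finset.sum_congr rfl fun n _ => ?_
    rw [Finset.sum_mul]
    refine Finset.sum_congr rfl fun j _ => ?_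
    rw [ite_mul, zero_mul]
    rfl
  rw [e1, e2, Finset.mul_sum]
  refine Finset.sum_le_sum fun j _ => ?_
  obtain ⟨h1, h2, h3, h4, h5, h6⟩ := hJ j
  have hp := pieceB he0 (by linarith) hB (hT1.trans hX) hk hy3 hlX hye hN hL hsum P hP H rfl hH M hM hPM
    (d j) (R j) (a j) (V j) h1 h2 h3 h4 h5 h6
  refine hp.trans ?_
  have hS0 : 0 ≤ ∑ n ∈ Finset.range M, (if (d j : ℤ) ∣ (n : ℤ) - a j then V j n ^ 2 else 0) :=
    Finset.sum_nonneg fun n _ => by split_ifs <;> positivity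
  refine mul_le_mul_of_nonneg_right ?_ hS0
  have hk2 : (2 : ℝ) ≤ H.card := by exact_mod_cast hk
  have hlogk : 0 < Real.log H.card := Real.log_pos (by linarith)
  have hk1 : 0 < (H.card : ℝ) - 1 := by linarith
  have hWz0 : 0 < ∏ p ∈ P, (1 - 1 / (p : ℝ)) := prod_pos' P hP
  have h5 : (1 + 2 * e) ^ 5 ≤ 1 + ε := by
    have h6 : (1 + 2 * e) ^ 2 ≤ 1 + 5 * e := by nlinarith
    have h7 : (1 + 2 * e) ^ 4 ≤ (1 + 5 * e) ^ 2 := by
      have := pow_le_pow_left₀ (by positivity) h6 2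
      calc (1 + 2 * e) ^ 4 = ((1 + 2 * e) ^ 2) ^ 2 := by ring
        _ ≤ _ := this
    have h8 : (1 + 5 * e) ^ 2 ≤ 1 + 11 * e := by nlinarith
    calc (1 + 2 * e) ^ 5 = (1 + 2 * e) ^ 4 * (1 + 2 * e) := by ring
      _ ≤ (1 + 11 * e) * (1 + 2 * e) := mul_le_mul_of_nonneg_right (h7.trans h8) (by linarith)
      _ ≤ 1 + ε := by nlinarith
  gcongr

end Run7.h52.AsmB
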