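import Pool.Agent.Run7.h52.Sp2
import Pool.Agent.Run7.h52.AsmB2

set_option autoImplicit false
set_option linter.unusedSectionVars false

namespace Run7.h52.AsmT

open Finset Run7.h52.Op Run7.h52.Ker Run7.h52.Core Run7.h52.Cell Run7.h52.CoreG Run7.h52.CellG
  Run7.h52.Transfer Run7.h52.Sp Run7.h52.AsmB

/-- the class of the solutions of `p ∣ d n + h` -/
lemma exists_class {p : ℕ} (hp : p.Prime) {d : ℕ} (hd : ¬ p ∣ d) (h : ℤ) :
    ∃ k : Fin p, ∀ n : ℤ, ((p : ℤ) ∣ d * n + h) ↔ ((p : ℤ) ∣ n - ((k : ℕ) : ℤ)) := by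
  have hco : IsCoprime (p : ℤ) (d : ℤ) :=
    Nat.isCoprime_iff_coprime.2 ((Nat.Prime.coprime_iff_not_dvd hp).2 hd)
  obtain ⟨u, v, huv⟩ := hco
  refine ⟨cls hp.pos (-(v * h)), fun n => ?_⟩
  have h1 := (eq_cls hp.pos (-(v * h)) _).1 rfl
  set k : ℤ := (((cls hp.pos (-(v * h)) : Fin p) : ℕ) : ℤ) with hk
  constructor
  · intro h2
    have h3 : (p : ℤ) ∣ v * (d * n + h) := h2.mul_left v
    have e : n - k = v * (d * n + h) + (-(v * h) - k) + p * (u * n) := by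
      have : v * d = 1 - u * p := by linarith
      calc n - k = (u * p + v * d) * n - k := by rw [huv]; ring
        _ = _ := by ring
    rw [e]
    exact dvd_add (dvd_add h3 h1) (Dvd.intro _ rfl)
  · intro h2
    have e : d * n + h = d * (n - k) - d * (-(v * h) - k) + p * (u * h) := by
      calc d * n + h = d * n + (u * p + v * d) * h := by rw [huv]; ring
        _ = _ := by ring
    rw [e]
    exact dvd_add (dvd_sub (h2.mul_left _) (h1.mul_left _)) (Dvd.intro _ rfl)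

/-- the class, `0` if there is none -/
noncomputable def kk (d : ℕ) (h : ℤ) (p : ℕ) (hp : p.Prime) : Fin p :=
  if hd : ¬ p ∣ d then (exists_class hp hd h).choose else ⟨0, hp.pos⟩

lemma kk_spec {d : ℕ} {p : ℕ} (hp : p.Prime) (hd : ¬ p ∣ d) (h n : ℤ) :
    ((p : ℤ) ∣ d * n + h) ↔ ((p : ℤ) ∣ n - ((kk d h p hp : ℕ) : ℤ)) := by
  rw [kk, dif_pos hd]
  exact (exists_class hp hd h).choose_spec n

lemma op_eq_self {ι : Type} [Fintype ι] [DecidableEq ι] {Ω : ι → Type} [∀ i, Fintype (Ω i)]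
    [∀ i, DecidableEq (Ω i)] (K : ∀ i, Matrix (Ω i) (Ω i) ℝ) (u : (∀ i, Ω i) → ℝ)
    (h : ∀ y, u y ≠ 0 → ∀ i b, K i b (y i) = (1 : Matrix (Ω i) (Ω i) ℝ) b (y i)) : op K u = u := by
  have h1 : op K u = op (fun i => 1) u := by
    funext x
    unfold op
    refine Finset.sum_congr rfl fun y _ => ?_
    by_cases hy : u y = 0
    · rw [hy, mul_zero, mul_zero]
    · congr 1
      exact Finset.prod_congr rfl fun i _ => h y hy i (x i)
  rw [h1, op_one]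

section

variable (Q y d : ℕ) (N₀ : ℕ)

/-- the sifting primes -/
def Pc : Finset ℕ := (Count.PP Q).filter fun p => y < p ∧ ¬ p ∣ N₀

/-- first label -/
def j0 {Q : ℕ} (hQ : 1 ≤ Q) : Fin Q := ⟨0, hQ⟩

/-- `Q` -/
noncomputable def Qd (h : ℤ) (i : Ix Q) : Matrix (Om Q i) (Om Q i) ℝ :=
  if (i : ℕ) ∈ Pc Q y N₀ then lift Q (ip_prime i).pos (Ker.Q (kk d h i (ip_prime i))) else 0

/-- `C` -/
noncomputable def Cd (h : ℤ) (i : Ix Q) : Matrix (Om Q i) (Om Q i) ℝ :=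
  if (i : ℕ) ∈ Pc Q y N₀ then lift Q (ip_prime i).pos (Ker.Cm (kk d h i (ip_prime i))) else 0

/-- `A` -/
noncomputable def Ad (h : ℤ) (i : Ix Q) : Matrix (Om Q i) (Om Q i) ℝ :=
  if (i : ℕ) ∈ Pc Q y N₀ then lift Q (ip_prime i).pos (Am (kk d h i (ip_prime i))) else Ker.E (Om Q i)

/-- `g` -/
noncomputable def gd (i : Ix Q) : ℝ := if (i : ℕ) ∈ Pc Q y N₀ then 1 / (((i : ℕ) : ℝ) - 1) else 0

/-- `r` -/
noncomputable def rd (i : Ix Q) : ℝ :=
  if (i : ℕ) ∈ Pc Q y N₀ then (((i : ℕ) : ℝ) - 1) / ((i : ℕ) : ℝ) else 1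

/-- `Z` -/
noncomputable def Zd (hQ : 1 ≤ Q) (h : ℤ) (i : Ix Q) (j : Fin Q) : Matrix (Om Q i) (Om Q i) ℝ :=
  Dp Q i j - if j = j0 hQ then Qd Q y d N₀ h i else 0

variable {Q y d N₀}

lemma isG_all (hQ : 1 ≤ Q) (h : ℤ) (i : Ix Q) :
    IsG (gd Q y N₀ i) (rd Q y N₀ i) (Qd Q y d N₀ h i) (Cd Q y d N₀ h i) (Zd Q y d N₀ hQ h i)
      (Ad Q y d N₀ h i) := by
  unfold Zd gd rd Qd Cd Ad
  by_cases hi : (i : ℕ) ∈ Pc Q y N₀
  · simp only [if_pos hi]
    exact isG_col (ip_prime i) hQ _ (j0 hQ) rfl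
  · simp only [if_neg hi]
    exact isG_plain (ne_Om i) (isD_Dp i) (j0 hQ)

lemma pi1_eq {p : ℕ} (hp : 0 < p) {a : ℕ} (ha : 1 ≤ a) (n : ℤ) (k : Fin p)
    (x : Fin (p ^ a)) (hx : ((p ^ a : ℕ) : ℤ) ∣ n - ((x : ℕ) : ℤ)) (h : pi1 hp x = k) :
    (p : ℤ) ∣ n - ((k : ℕ) : ℤ) := by
  have h1 : (p : ℤ) ∣ ((p ^ a : ℕ) : ℤ) := by exact_mod_cast dvd_pow_self p (by omega)
  have h2 : ((k : ℕ) : ℤ) = ((x : ℕ) : ℤ) % (p : ℤ) := by
    rw [← h, pi1]; push_cast; rfl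
  have h3 : n - ((k : ℕ) : ℤ) = (n - ((x : ℕ) : ℤ)) + (((x : ℕ) : ℤ) - ((x : ℕ) : ℤ) % (p : ℤ)) := by
    rw [h2]; ring
  rw [h3]
  exact dvd_add (h1.trans hx) Int.dvd_self_sub_emod

/-- not divisible by the sifting primes -/
def Sift (Q y d N₀ : ℕ) (h n : ℤ) : Prop := ∀ p ∈ Pc Q y N₀, ¬ (p : ℤ) ∣ d * n + h

open Classical in
lemma supp_ok (hQ : 1 ≤ Q) (hdN : d ∣ N₀) (h : ℤ) (x : ℤ) (N : ℕ) (V : ℤ → ℝ) :
    op (fun i => (∑ j, Zd Q y d N₀ hQ h i j) + Ad Q y d N₀ h i)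
      (push Q x N fun n => if Sift Q y d N₀ h n then V n else 0)
      = push Q x N fun n => if Sift Q y d N₀ h n then V n else 0 := by
  refine op_eq_self _ _ fun z hz i b => ?_
  by_cases hi : (i : ℕ) ∈ Pc Q y N₀
  · have hex : ∃ j ∈ Finset.range N, pt Q (x + j) = z ∧ Sift Q y d N₀ h (x + j) := by
      by_contra hcon
      push Not at hcon
      apply hz
      unfold push
      refine Finset.sum_eq_zero fun j hj => ?_
      by_cases h1 : pt Q (x + j) = z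
      · rw [if_pos h1]
        exact if_neg (hcon j hj h1)
      · rw [if_neg h1]
    obtain ⟨j, _, hj1, hj2⟩ := hex
    have hiN : ¬ (i : ℕ) ∣ N₀ := (Finset.mem_filter.1 hi).2.2
    have hid : ¬ (i : ℕ) ∣ d := fun hd => hiN (hd.trans hdN)
    simp only [Zd, Ad, Qd, if_pos hi]
    refine ZA_col (ip_prime i) _ (j0 hQ) b (z i) fun hk => ?_
    apply hj2 i hi
    rw [kk_spec (ip_prime i) hid]
    refine pi1_eq (ip_prime i).pos hQ (x + j) _ (z i) ?_ hk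
    rw [← hj1]
    exact pt_coord (x + j) i
  · simp only [Zd, Ad, Qd, if_neg hi]
    rw [ZA_plain (isD_Dp i) (j0 hQ)]

lemma f1_nonneg_Q (hQ : 1 ≤ Q) (h : ℤ) (i : Ix Q) (V : (∀ i, Om Q i) → ℝ) :
    0 ≤ f1 V i (Qd Q y d N₀ h i) := by
  have := isG_all (y := y) (d := d) (N₀ := N₀) hQ h i
  exact f1_nonneg V i _ this.Qt this.QQ

/-- the frame inequality -/
lemma frame (hQ : 1 ≤ Q) {H : Finset ℤ} (hN : diffs d H ∣ N₀) (b : ℤ) {e : ℝ}
    (he0 : 0 < e) (hye : 1 / (y : ℝ) ≤ e) (hy : 1 ≤ y) (V : (∀ i, Om Q i) → ℝ) (i : Ix Q) :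
    ∑ h : {h // h ∈ H}, f1 V i (Qd Q y d N₀ (b + h) i) ≤ (1 + e) * f1 V i (Dp Q i (j0 hQ)) := by
  have hD := isD_Dp i
  have hf0 : 0 ≤ f1 V i (Dp Q i (j0 hQ)) := f1_nonneg V i _ (hD.Dt _) (by
    have := hD.DD (j0 hQ) (j0 hQ); rwa [if_pos rfl] at this)
  by_cases hi : (i : ℕ) ∈ Pc Q y N₀
  · have hp := ip_prime i
    have hiN : ¬ (i : ℕ) ∣ N₀ := (Finset.mem_filter.1 hi).2.2
    have hyi : y < (i : ℕ) := (Finset.mem_filter.1 hi).2.1
    have hid : ¬ (i : ℕ) ∣ d := fun hd => hiN ((hd.trans (Dvd.intro _ rfl : d ∣ diffs d H)).trans hN)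
    set κ : {h // h ∈ H} → Fin (i : ℕ) := fun h => kk d (b + h) i hp with hκ
    have hinj : Function.Injective κ := by
      intro h h' hh
      apply Subtype.ext
      by_contra hne
      apply hiN
      refine dvd_trans ?_ hN
      have h0 : ∃ n : ℤ, ((i : ℕ) : ℤ) ∣ d * n + (b + h) := ⟨((κ h : ℕ) : ℤ), by
        rw [kk_spec hp hid]; simp [hκ]⟩
      obtain ⟨n, hn⟩ := h0
      have h1 := (kk_spec hp hid (b + h) n).1 hn
      have hh' : kk d (b + h) i hp = kk d (b + h') i hp := hh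
      rw [hh'] at h1
      have h2 := (kk_spec hp hid (b + h') n).2 h1
      have h3 : ((i : ℕ) : ℤ) ∣ (h : ℤ) - (h' : ℤ) := by
        have : (h : ℤ) - (h' : ℤ) = (d * n + (b + h)) - (d * n + (b + h')) := by ring
        rw [this]; exact dvd_sub hn h2
      have h8 : (i : ℕ) ∣ ((h : ℤ) - (h' : ℤ)).natAbs := Int.natCast_dvd.1 h3
      refine h8.trans (Dvd.dvd.mul_left ?_ _)
      have hmem : (((h : ℤ), (h' : ℤ)) : ℤ × ℤ) ∈ (H ×ˢ H).filter (fun q => q.1 ≠ q.2) := by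
        rw [Finset.mem_filter, Finset.mem_product]
        exact ⟨⟨h.2, h'.2⟩, hne⟩
      exact Finset.dvd_prod_of_mem (fun q : ℤ × ℤ => (q.1 - q.2).natAbs) hmem
    have hcard : Fintype.card (Fin (i : ℕ)) = (i : ℕ) := Fintype.card_fin _
    have h2 : 2 ≤ Fintype.card (Fin (i : ℕ)) := by rw [hcard]; exact hp.two_le
    have hQeq : ∀ h : {h // h ∈ H}, Qd Q y d N₀ (b + h) i = lift Q hp.pos (Ker.Q (κ h)) := fun h => by
      rw [Qd, if_pos hi]
    simp only [hQeq]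
    have hnn : ∀ k : Fin (i : ℕ), 0 ≤ f1 V i (lift Q hp.pos (Ker.Q k)) := fun k => by
      have := isG_col (a := Q) hp hQ k (j0 hQ) rfl
      exact f1_nonneg V i _ this.Qt this.QQ
    have h4 : ∑ h : {h // h ∈ H}, f1 V i (lift Q hp.pos (Ker.Q (κ h)))
        ≤ ∑ k : Fin (i : ℕ), f1 V i (lift Q hp.pos (Ker.Q k)) := by
      rw [← Finset.sum_image (f := fun k => f1 V i (lift Q hp.pos (Ker.Q k))) (s := Finset.univ) (g := κ)
        (fun x _ z _ h => hinj h)]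
      exact Finset.sum_le_sum_of_subset_of_nonneg (Finset.subset_univ _) (fun k _ _ => hnn k)
    have h5 : ∑ k : Fin (i : ℕ), f1 V i (lift Q hp.pos (Ker.Q k))
        = (((i : ℕ) : ℝ) / (((i : ℕ) : ℝ) - 1)) * f1 V i (Dp Q i (j0 hQ)) := by
      rw [← f1_sum, ← lift_sum, Ker.sum_Q, lift_smul, f1_smul, hcard]
      congr 2
      rw [Dp, DD, j0]
      simp only [zero_add]
      rw [EM_zero, ← lift_E hp.pos, ← lift_one hp.pos, ← lift_sub]
    have hy0 : (0 : ℝ) < y := by exact_mod_cast hy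
    have h6 : ((i : ℕ) : ℝ) / (((i : ℕ) : ℝ) - 1) ≤ 1 + e := by
      have h3 : (y : ℝ) + 1 ≤ ((i : ℕ) : ℝ) := by exact_mod_cast hyi
      have h30 : ((i : ℕ) : ℝ) / (((i : ℕ) : ℝ) - 1) ≤ 1 + 1 / (y : ℝ) := by
        rw [div_le_iff₀ (by linarith)]
        have h4 : (1 + 1 / (y : ℝ)) * (((i : ℕ) : ℝ) - 1) = ((i : ℕ) : ℝ) + ((((i : ℕ) : ℝ) - 1) / y - 1) := by
          field_simp; ring
        rw [h4]
        have h5 : 1 ≤ (((i : ℕ) : ℝ) - 1) / y := by rw [le_div_iff₀ (by linarith)]; linarith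
        linarith
      linarith
    refine h4.trans ?_
    rw [h5]
    exact mul_le_mul_of_nonneg_right h6 hf0
  · have hQ0 : ∀ h : {h // h ∈ H}, Qd Q y d N₀ (b + h) i = 0 := fun h => by rw [Qd, if_neg hi]
    simp only [hQ0]
    have : f1 V i (0 : Matrix (Om Q i) (Om Q i) ℝ) = 0 := by
      have := f1_smul V i 0 (0 : Matrix (Om Q i) (Om Q i) ℝ)
      simpa using this
    rw [this]
    simp only [Finset.sum_const_zero]
    positivity

end

end Run7.h52.AsmT
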