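import Pool.Agent.Run7.h52.AsmT1

set_option autoImplicit false
set_option linter.unusedSectionVars false

namespace Run7.h52.AsmT

open Finset Run7.h52.Op Run7.h52.Core Run7.h52.CoreG Run7.h52.Sp Run7.h52.AsmB

lemma sum_sset (P : Finset ℕ) (F : Finset ℕ → ℝ) :
    ∑ s : {p // p ∈ P} → Bool, F (Sums.sset s) = ∑ S ∈ P.powerset, F S := by
  classical
  rw [← Finset.sum_image (f := F) (s := (Finset.univ : Finset ({p // p ∈ P} → Bool))) (g := Sums.sset)
    (fun x _ z _ h => Sums.sset_inj h)]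
  refine Finset.sum_congr ?_ fun _ _ => rfl
  ext S
  rw [Finset.mem_image, Finset.mem_powerset]
  constructor
  · rintro ⟨s, _, rfl⟩
    exact Sums.sset_sub s
  · intro hS
    refine ⟨fun i => decide ((i : ℕ) ∈ S), Finset.mem_univ _, ?_⟩
    ext p
    rw [Sums.sset, Finset.mem_image]
    constructor
    · rintro ⟨i, hi, rfl⟩
      have := (Finset.mem_filter.1 hi).2
      simpa using this
    · intro hp
      exact ⟨⟨p, hS hp⟩, by simp [hp], rfl⟩

lemma mem_sset {P : Finset ℕ} (s : {p // p ∈ P} → Bool) (i : {p // p ∈ P}) :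
    (i : ℕ) ∈ Sums.sset s ↔ s i = true := by
  rw [Sums.sset, Finset.mem_image]
  constructor
  · rintro ⟨j, hj, hji⟩
    rw [Finset.mem_filter] at hj
    have : j = i := Subtype.ext hji
    rw [← this]; exact hj.2
  · intro hi
    exact ⟨i, Finset.mem_filter.2 ⟨Finset.mem_univ _, hi⟩, rfl⟩

section
variable {Q y N₀ : ℕ}

lemma pg_eq (s : Ix Q → Bool) :
    pg (gd Q y N₀) s = if Sums.sset s ⊆ Pc Q y N₀ then Count.g (Sums.sset s) else 0 := by
  classical
  rw [pg]
  split_ifs with h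
  · rw [Count.g, Sums.prod_sset]
    refine Finset.prod_congr rfl fun i _ => ?_
    split_ifs with hi
    · rw [gd, if_pos (h ((mem_sset s i).2 hi))]
    · rfl
  · rw [Finset.not_subset] at h
    obtain ⟨p, hp, hpc⟩ := h
    have hpP := Sums.sset_sub s hp
    have h1 : s ⟨p, hpP⟩ = true := (mem_sset s ⟨p, hpP⟩).1 hp
    refine Finset.prod_eq_zero (Finset.mem_univ (⟨p, hpP⟩ : Ix Q)) ?_
    rw [if_pos h1, gd, if_neg hpc]

/-- logarithms of the primes -/
noncomputable def lam (Q : ℕ) (i : Ix Q) : ℝ := Real.log ((i : ℕ) : ℝ)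

/-- logarithm of the product -/
noncomputable def lp (S : Finset ℕ) : ℝ := Real.log ((∏ p ∈ S, p : ℕ) : ℝ)

lemma us_eq (s : Ix Q → Bool) : us (lam Q) s = lp (Sums.sset s) := by
  unfold lp
  push_cast
  rw [Real.log_prod]
  · rw [Sums.sset, Finset.sum_image (fun i _ j _ h => Subtype.ext h), Finset.sum_filter, us]
    rfl
  · intro p hp
    have := (Finset.mem_filter.1 (Sums.sset_sub s hp)).2
    exact_mod_cast this.ne_zero

lemma om_j0 (hQ : 1 ≤ Q) (i : Ix Q) : om Q i (j0 hQ) = lam Q i := by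
  simp [om, j0, lam]

/-- support -/
def supp (t : Ix Q → Option (Fin Q)) : Finset ℕ :=
  (Finset.univ.filter fun i => t i ≠ none).image (fun i : Ix Q => (i : ℕ))

lemma mem_supp (t : Ix Q → Option (Fin Q)) (i : Ix Q) : (i : ℕ) ∈ supp t ↔ t i ≠ none := by
  rw [supp, Finset.mem_image]
  constructor
  · rintro ⟨j, hj, hji⟩
    rw [Finset.mem_filter] at hj
    have : j = i := Subtype.ext hji
    rw [← this]; exact hj.2
  · intro hi
    exact ⟨i, Finset.mem_filter.2 ⟨Finset.mem_univ _, hi⟩, rfl⟩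

lemma disj_iff (t : Ix Q → Option (Fin Q)) (s : Ix Q → Bool) :
    (∀ i, s i = true → t i = none) ↔ Disjoint (Sums.sset s) (supp t) := by
  rw [Finset.disjoint_left]
  constructor
  · intro h p hp hpt
    have hpP := Sums.sset_sub s hp
    have h1 : s ⟨p, hpP⟩ = true := (mem_sset s ⟨p, hpP⟩).1 hp
    exact (mem_supp t ⟨p, hpP⟩).1 hpt (h _ h1)
  · intro h i hi
    by_contra hn
    exact h ((mem_sset s i).2 hi) ((mem_supp t i).2 hn)

lemma sum_supp_le (hQ : 1 ≤ Q) (t : Ix Q → Option (Fin Q)) :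
    ∑ p ∈ supp t, Real.log p ≤ cs (om Q) t := by
  rw [supp, Finset.sum_image (fun i _ j _ h => Subtype.ext h), Finset.sum_filter, cs]
  refine Finset.sum_le_sum fun i _ => ?_
  have h1 : 0 ≤ Real.log ((i : ℕ) : ℝ) := Real.log_nonneg (by exact_mod_cast (ip_prime i).one_lt.le)
  rcases hi : t i with _ | j
  · simp
  · simp only [ne_eq, reduceCtorEq, not_false_eq_true, if_true, Option.elim_some, om]
    have h2 : (0 : ℝ) ≤ (j : ℕ) := Nat.cast_nonneg _
    nlinarith

lemma Pc_sub : Pc Q y N₀ ⊆ Count.PP Q := Finset.filter_subset _ _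

lemma Pc_prime {p : ℕ} (hp : p ∈ Pc Q y N₀) : p.Prime ∧ y < p :=
  ⟨(Finset.mem_filter.1 (Pc_sub hp)).2, (Finset.mem_filter.1 hp).2.1⟩

/-- upper bound -/
lemma Bt_le (hQ : 1 ≤ Q) {L δ k C : ℝ} (hδ : 0 < δ) (hL : 0 < L) (hk : 1 ≤ k)
    (hsum : ∀ v, 0 ≤ v → v ≤ L →
      ∑ σ : {p // p ∈ Pc Q y N₀} → Bool, (if uu' (Sums.Om (Pc Q y N₀)) σ ≤ v then
        CoreA.gg (Sums.Om (Pc Q y N₀)) σ / (v + δ * L + (k - 1) * uu' (Sums.Om (Pc Q y N₀)) σ) else 0) ≤ C)
    (t : Ix Q → Option (Fin Q)) (ht : cs (om Q) t ≤ L) :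
    Bt (om Q) (j0 hQ) (lam Q) (gd Q y N₀) L δ k t ≤ C := by
  classical
  have hcs := cs_nonneg (ω := om Q) (fun i j => om_nonneg i j) t
  refine le_trans ?_ (hsum (L - cs (om Q) t) (by linarith) (by linarith))
  rw [Bt_eq (fun i => om_j0 hQ i)]
  set F : Finset ℕ → ℝ := fun S => if lp S ≤ L - cs (om Q) t then
    Count.g S / (L - cs (om Q) t + δ * L + (k - 1) * lp S) else 0 with hF
  have hg0 : ∀ S ⊆ Pc Q y N₀, 0 ≤ Count.g S := fun S hS => Sums.g_nonneg (fun p hp => (Pc_prime hp).1) hS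
  have hlp0 : ∀ S ⊆ Pc Q y N₀, 0 ≤ lp S := fun S hS => by
    refine Real.log_nonneg ?_
    have : 1 ≤ ∏ p ∈ S, p := Nat.one_le_iff_ne_zero.2 (Finset.prod_ne_zero_iff.2 fun p hp => (Pc_prime (hS hp)).1.ne_zero)
    exact_mod_cast this
  have hden : ∀ S ⊆ Pc Q y N₀, 0 < L - cs (om Q) t + δ * L + (k - 1) * lp S := fun S hS => by
    have h1 := mul_nonneg (by linarith : 0 ≤ k - 1) (hlp0 S hS)
    have h2 := mul_pos hδ hL
    linarith
  have e1 : ∑ σ : {p // p ∈ Pc Q y N₀} → Bool, (if uu' (Sums.Om (Pc Q y N₀)) σ ≤ L - cs (om Q) t then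
        CoreA.gg (Sums.Om (Pc Q y N₀)) σ / (L - cs (om Q) t + δ * L + (k - 1) * uu' (Sums.Om (Pc Q y N₀)) σ) else 0)
      = ∑ S ∈ (Pc Q y N₀).powerset, F S := by
    rw [← sum_sset]
    refine Finset.sum_congr rfl fun σ _ => ?_
    rw [Sums.gg_eq, Sums.uu'_eq (fun p hp => (Pc_prime hp).1)]
    rfl
  rw [e1]
  have e2 : ∑ S ∈ (Pc Q y N₀).powerset, F S
      = ∑ S ∈ (Count.PP Q).powerset, if S ⊆ Pc Q y N₀ then F S else 0 := by
    have h9 := Finset.sum_filter (s := (Count.PP Q).powerset) (fun S => S ⊆ Pc Q y N₀) F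
    rw [← h9]
    refine Finset.sum_congr ?_ (fun S _ => rfl)
    ext S
    rw [Finset.mem_filter, Finset.mem_powerset, Finset.mem_powerset]
    exact ⟨fun h => ⟨h.trans Pc_sub, h⟩, fun h => h.2⟩
  rw [e2, ← sum_sset, Finset.sum_filter]
  refine Finset.sum_le_sum fun s _ => ?_
  have hF0 : 0 ≤ if Sums.sset s ⊆ Pc Q y N₀ then F (Sums.sset s) else 0 := by
    split_ifs with h
    · simp only [hF]
      split_ifs
      · exact div_nonneg (hg0 _ h) (hden _ h).le
      · exact le_rfl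
    · exact le_rfl
  by_cases h1 : ∀ i, s i = true → t i = none
  · rw [if_pos h1, us_eq, pg_eq]
    by_cases h2 : cs (om Q) t + lp (Sums.sset s) ≤ L
    · rw [if_pos h2]
      by_cases h3 : Sums.sset s ⊆ Pc Q y N₀
      · rw [if_pos h3, if_pos h3]
        simp only [hF]
        rw [if_pos (by linarith)]
        apply le_of_eq
        congr 1
        ring
      · rw [if_neg h3, zero_div, if_neg h3]
    · rw [if_neg h2]; exact hF0
  · rw [if_neg h1]; exact hF0

/-- lower bound -/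
lemma Lq_ge (hQ : 1 ≤ Q) (hy : 3 ≤ y) (hN₀ : 0 < N₀) {L e : ℝ} (he1 : Real.log N₀ / (y * Real.log y) ≤ e)
    (he2 : L / (y * Real.log y) ≤ e) (t : Ix Q → Option (Fin Q)) (ht : cs (om Q) t ≤ L)
    (hLq : L ≤ Real.log Q) :
    Count.W y * Real.exp (-(2 * e)) * (Real.log Q - L) ≤ Lq (om Q) (j0 hQ) (gd Q y N₀) (Real.log Q) t := by
  classical
  have hcs := cs_nonneg (ω := om Q) (fun i j => om_nonneg i j) t
  set q := Real.log Q with hq
  set v := q - cs (om Q) t with hv
  have hv0 : 0 ≤ v := by rw [hv]; linarith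
  have hQ0 : (0 : ℝ) < Q := by exact_mod_cast hQ
  set X : ℕ := ⌊Real.exp v⌋₊ with hX
  have hX1 : 1 ≤ X := by
    apply Nat.le_floor
    have := Real.add_one_le_exp v
    push_cast; linarith
  have hXQ : X ≤ Q := by
    have h1 : (X : ℝ) ≤ Real.exp v := Nat.floor_le (Real.exp_pos v).le
    have h2 : Real.exp v ≤ Real.exp q := Real.exp_le_exp.2 (by rw [hv]; linarith)
    rw [hq, Real.exp_log hQ0] at h2
    exact_mod_cast h1.trans h2
  have hlogX : v ≤ Real.log (X + 1) := by
    have h1 := Nat.lt_floor_add_one (Real.exp v)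
    have h2 : Real.exp v ≤ (X : ℝ) + 1 := h1.le
    have := Real.log_le_log (Real.exp_pos v) h2
    rwa [Real.log_exp] at this
  -- lower bound by the restricted sum
  have h1 : ∑ S ∈ Count.FF (Pc Q y N₀ \ supp t) X, Count.g S ≤ Lq (om Q) (j0 hQ) (gd Q y N₀) q t := by
    rw [Lq_eq (fun i => om_j0 hQ i), Finset.sum_filter]
    set F : Finset ℕ → ℝ := fun S => if Disjoint S (supp t) then (if cs (om Q) t + lp S ≤ q then
      (if S ⊆ Pc Q y N₀ then Count.g S else 0) else 0) else 0 with hF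
    have e1 : ∑ s : Ix Q → Bool, (if ∀ i, s i = true → t i = none then
        (if cs (om Q) t + us (lam Q) s ≤ q then pg (gd Q y N₀) s else 0) else 0)
        = ∑ S ∈ (Count.PP Q).powerset, F S := by
      rw [← sum_sset]
      refine Finset.sum_congr rfl fun s _ => ?_
      simp only [hF, us_eq, pg_eq, disj_iff]
    rw [e1]
    have hF0 : ∀ S, 0 ≤ F S := fun S => by
      simp only [hF]
      split_ifs with h1 h2 h3
      · exact Sums.g_nonneg (fun p hp => (Pc_prime hp).1) h3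
      · exact le_rfl
      · exact le_rfl
      · exact le_rfl
    calc ∑ S ∈ Count.FF (Pc Q y N₀ \ supp t) X, Count.g S
        = ∑ S ∈ Count.FF (Pc Q y N₀ \ supp t) X, F S := by
          refine Finset.sum_congr rfl fun S hS => ?_
          rw [Count.FF, Finset.mem_filter, Finset.mem_powerset] at hS
          have hS1 : S ⊆ Pc Q y N₀ := hS.1.trans Finset.sdiff_subset
          have hS2 : Disjoint S (supp t) := Finset.disjoint_of_subset_left hS.1 Finset.sdiff_disjoint
          have hS3 : cs (om Q) t + lp S ≤ q := by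
            have h4 : ((∏ p ∈ S, p : ℕ) : ℝ) ≤ Real.exp v := by
              have h5 : ((∏ p ∈ S, p : ℕ) : ℝ) ≤ X := by exact_mod_cast hS.2
              exact h5.trans (Nat.floor_le (Real.exp_pos v).le)
            have h6 : 0 < ∏ p ∈ S, p := Finset.prod_pos fun p hp => (Pc_prime (hS1 hp)).1.pos
            have h7 := Real.log_le_log (by exact_mod_cast h6) h4
            rw [Real.log_exp] at h7
            have h8 : lp S ≤ v := h7
            rw [hv] at h8; linarith
          simp only [hF]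
          rw [if_pos hS2, if_pos hS3, if_pos hS1]
      _ ≤ _ := by
          refine Finset.sum_le_sum_of_subset_of_nonneg ?_ (fun S _ _ => hF0 S)
          intro S hS
          rw [Count.FF, Finset.mem_filter, Finset.mem_powerset] at hS
          rw [Finset.mem_powerset]
          exact (hS.1.trans Finset.sdiff_subset).trans Pc_sub
  refine le_trans ?_ h1
  set bad := (Count.PP Q).filter fun p => y < p ∧ p ∣ N₀ with hbad
  set Tt := (supp t).filter fun p => y < p with hTt
  have hsuppP : supp t ⊆ Count.PP Q := by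
    intro p hp
    rw [supp, Finset.mem_image] at hp
    obtain ⟨i, _, rfl⟩ := hp
    exact i.2
  have h2 := Count.G_ge (Pc Q y N₀ \ supp t) (Count.PP y ∪ (bad ∪ Tt))
    (fun p hp => (Pc_prime (Finset.sdiff_subset hp)).1)
    (fun p hp => by
      rcases Finset.mem_union.1 hp with h | h
      · exact (Finset.mem_filter.1 h).2
      · rcases Finset.mem_union.1 h with h | h
        · exact (Finset.mem_filter.1 (Finset.mem_filter.1 h).1).2
        · exact (Finset.mem_filter.1 (hsuppP (Finset.mem_filter.1 h).1)).2) X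
    (fun p hp hpX => by
      have hpQ : p ∈ Count.PP Q := by
        rw [Finset.mem_filter, Finset.mem_Icc]
        exact ⟨⟨hp.one_lt.le, hpX.trans hXQ⟩, hp⟩
      by_cases hpy : y < p
      · by_cases hpN : p ∣ N₀
        · right
          exact Finset.mem_union_right _ (Finset.mem_union_left _ (Finset.mem_filter.2 ⟨hpQ, hpy, hpN⟩))
        · by_cases hpt : p ∈ supp t
          · right
            exact Finset.mem_union_right _ (Finset.mem_union_right _ (Finset.mem_filter.2 ⟨hpt, hpy⟩))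
          · left
            rw [Finset.mem_sdiff]
            exact ⟨Finset.mem_filter.2 ⟨hpQ, hpy, hpN⟩, hpt⟩
      · right
        refine Finset.mem_union_left _ ?_
        rw [Finset.mem_filter, Finset.mem_Icc]
        exact ⟨⟨hp.one_lt.le, not_lt.1 hpy⟩, hp⟩)
  have hfac : ∀ p : ℕ, p.Prime → 0 < 1 - 1 / (p : ℝ) ∧ 1 - 1 / (p : ℝ) ≤ 1 := by
    intro p hp
    have h1 : (1 : ℝ) < p := by exact_mod_cast hp.one_lt
    have h2 : 1 / (p : ℝ) < 1 := by rw [div_lt_one (by linarith)]; exact h1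
    have h3 : 0 ≤ 1 / (p : ℝ) := by positivity
    constructor <;> linarith
  have hun : ∀ A B : Finset ℕ, (∀ p ∈ A, p.Prime) → (∀ p ∈ B, p.Prime) →
      (∏ p ∈ A, (1 - 1 / (p : ℝ))) * (∏ p ∈ B, (1 - 1 / (p : ℝ))) ≤ ∏ p ∈ A ∪ B, (1 - 1 / (p : ℝ)) := by
    intro A B hA hB
    rw [← Finset.prod_union_inter]
    refine mul_le_of_le_one_right (Finset.prod_nonneg fun p hp => ?_) (Finset.prod_le_one (fun p hp => ?_) (fun p hp => ?_))
    · rcases Finset.mem_union.1 hp with h | h
      · exact (hfac p (hA p h)).1.le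
      · exact (hfac p (hB p h)).1.le
    · exact (hfac p (hA p (Finset.mem_inter.1 hp).1)).1.le
    · exact (hfac p (hA p (Finset.mem_inter.1 hp).1)).2
  have hbadP : ∀ p ∈ bad, p.Prime ∧ y < p := fun p hp =>
    ⟨(Finset.mem_filter.1 (Finset.mem_filter.1 hp).1).2, (Finset.mem_filter.1 hp).2.1⟩
  have hTtP : ∀ p ∈ Tt, p.Prime ∧ y < p := fun p hp =>
    ⟨(Finset.mem_filter.1 (hsuppP (Finset.mem_filter.1 hp).1)).2, (Finset.mem_filter.1 hp).2⟩
  have hb1 : ∑ p ∈ bad, Real.log p ≤ Real.log N₀ := by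
    have h6 : ∏ p ∈ bad, p ∣ N₀ := Finset.prod_primes_dvd N₀
      (fun p hp => (hbadP p hp).1.prime) (fun p hp => (Finset.mem_filter.1 hp).2.2)
    have h7 : ∏ p ∈ bad, p ≤ N₀ := Nat.le_of_dvd hN₀ h6
    have h8 : 0 < ∏ p ∈ bad, p := Finset.prod_pos fun p hp => (hbadP p hp).1.pos
    rw [← Real.log_prod (fun p hp => by exact_mod_cast (hbadP p hp).1.ne_zero)]
    have h9 : ((∏ p ∈ bad, p : ℕ) : ℝ) ≤ N₀ := by exact_mod_cast h7
    have h10 : (0 : ℝ) < ((∏ p ∈ bad, p : ℕ) : ℝ) := by exact_mod_cast h8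
    have := Real.log_le_log h10 h9
    push_cast at this
    exact this
  have hT1 : ∑ p ∈ Tt, Real.log p ≤ L := by
    refine le_trans ?_ ((sum_supp_le hQ t).trans ht)
    refine Finset.sum_le_sum_of_subset_of_nonneg (Finset.filter_subset _ _) (fun p hp _ => ?_)
    have := (Finset.mem_filter.1 (hsuppP hp)).2
    exact Real.log_nonneg (by exact_mod_cast this.one_lt.le)
  have hb2 := Count.prod_ge bad (by omega) hbadP hb1
  have hT2 := Count.prod_ge Tt (by omega) hTtP hT1
  have he0 : Real.exp (-e) ≤ ∏ p ∈ bad, (1 - 1 / (p : ℝ)) :=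
    (Real.exp_le_exp.2 (by linarith)).trans hb2
  have he0' : Real.exp (-e) ≤ ∏ p ∈ Tt, (1 - 1 / (p : ℝ)) :=
    (Real.exp_le_exp.2 (by linarith)).trans hT2
  have hW : Count.W y * Real.exp (-(2 * e)) ≤ ∏ p ∈ Count.PP y ∪ (bad ∪ Tt), (1 - 1 / (p : ℝ)) := by
    calc Count.W y * Real.exp (-(2 * e)) = Count.W y * (Real.exp (-e) * Real.exp (-e)) := by
          rw [← Real.exp_add]; congr 2; ring
      _ ≤ Count.W y * ((∏ p ∈ bad, (1 - 1 / (p : ℝ))) * ∏ p ∈ Tt, (1 - 1 / (p : ℝ))) := by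
          refine mul_le_mul_of_nonneg_left ?_ (Count.W_pos y).le
          exact mul_le_mul he0 he0' (Real.exp_pos _).le
            (Finset.prod_nonneg fun p hp => (hfac p (hbadP p hp).1).1.le)
      _ ≤ Count.W y * ∏ p ∈ bad ∪ Tt, (1 - 1 / (p : ℝ)) :=
          mul_le_mul_of_nonneg_left (hun bad Tt (fun p hp => (hbadP p hp).1) (fun p hp => (hTtP p hp).1))
            (Count.W_pos y).le
      _ ≤ _ := hun _ _ (fun p hp => (Finset.mem_filter.1 hp).2) (fun p hp => by
          rcases Finset.mem_union.1 hp with h | h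
          · exact (hbadP p h).1
          · exact (hTtP p h).1)
  refine le_trans ?_ h2
  have h5 : q - L ≤ Real.log (X + 1) := by rw [hv] at hlogX; linarith
  have h6 : 0 ≤ Count.W y * Real.exp (-(2 * e)) := mul_nonneg (Count.W_pos y).le (Real.exp_pos _).le
  calc Count.W y * Real.exp (-(2 * e)) * (q - L) ≤ Count.W y * Real.exp (-(2 * e)) * Real.log (X + 1) :=
        mul_le_mul_of_nonneg_left h5 h6
    _ ≤ _ := mul_le_mul_of_nonneg_right hW (Real.log_nonneg (by
        have : (0 : ℝ) ≤ X := Nat.cast_nonneg _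
        linarith))

end

end Run7.h52.AsmT
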