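import Pool.Agent.Run7.h52.AsmT3

set_option autoImplicit false
set_option linter.unusedSectionVars false

namespace Run7.h52.AsmT

open Finset Run7.h52.Op Run7.h52.Core Run7.h52.CoreA Run7.h52.CoreB Run7.h52.Count Run7.h52.Sums
  Run7.h52.Transfer Run7.h52.AsmB

/-- analytic input for Theorem T -/
theorem paramsT (e B : ℝ) (he0 : 0 < e) (hB : 0 ≤ B) : ∃ T : ℝ, 1 ≤ T ∧ ∀ (X : ℝ) (k : ℕ),
    T ≤ X → 2 ≤ k → T * k * Real.log (Real.log X) ≤ Real.log X →
    3 ≤ yy X ∧ 0 < Real.log X ∧ 1 / (yy X : ℝ) ≤ e ∧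
    (Real.log X + (k : ℝ) ^ 2 * (Real.log 2 + B * Real.log X)) / (yy X * Real.log (yy X)) ≤ e ∧
    Real.log X / (yy X * Real.log (yy X)) ≤ e ∧
    ∀ L : ℝ, e * Real.log X ≤ L → ∀ P : Finset ℕ, (∀ p ∈ P, p.Prime ∧ yy X < p) → ∀ v, 0 ≤ v → v ≤ L →
      ∑ σ : {p // p ∈ P} → Bool, (if uu' (Om P) σ ≤ v then
        gg (Om P) σ / (v + e * L + ((k : ℝ) - 1) * uu' (Om P) σ) else 0)
      ≤ (1 + e) ^ 2 * Count.W (yy X) * (Real.log k / (k - 1)) := by
  obtain ⟨A, y₀, hA, hy₀, hsum⟩ := sumB_le e he0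
  set l₀ : ℝ := max (max 3 y₀) (max (2 * (2 + B) / e) (2 / e)) with hl₀
  refine ⟨max 1 (max (8 * A / e ^ 3) (Real.exp l₀)), le_max_left _ _, fun X k hX hk hkX => ?_⟩
  set T := max 1 (max (8 * A / e ^ 3) (Real.exp l₀)) with hT
  have hT1 : 1 ≤ T := le_max_left _ _
  have hT2 : 8 * A / e ^ 3 ≤ T := le_trans (le_max_left _ _) (le_max_right _ _)
  have hT3 : Real.exp l₀ ≤ T := le_trans (le_max_right _ _) (le_max_right _ _)
  have hX0 : 0 < X := by linarith
  set l := Real.log X with hl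
  have hll₀ : l₀ ≤ l := by rw [hl, Real.le_log_iff_exp_le hX0]; linarith
  have hl3 : 3 ≤ l := (le_trans (le_max_left _ _) (le_max_left _ _)).trans hll₀
  have hly0 : (y₀ : ℝ) ≤ l := (le_trans (le_max_right _ _) (le_max_left _ _)).trans hll₀
  have hlB : 2 * (2 + B) / e ≤ l := (le_trans (le_max_left _ _) (le_max_right _ _)).trans hll₀
  have hle : 2 / e ≤ l := (le_trans (le_max_right _ _) (le_max_right _ _)).trans hll₀
  have hlogl : 1 ≤ Real.log l := by
    rw [Real.le_log_iff_exp_le (by linarith)]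
    have := Real.exp_one_lt_d9; linarith
  have hk2 : (2 : ℝ) ≤ k := by exact_mod_cast hk
  have hkl : (k : ℝ) ≤ l := by
    have h1 : (k : ℝ) ≤ T * k * Real.log l := by
      have h2 : (k : ℝ) ≤ T * k := by nlinarith
      have h3 : T * k * 1 ≤ T * k * Real.log l := mul_le_mul_of_nonneg_left hlogl (by positivity)
      linarith
    linarith
  have hl4 : l ^ 3 * 3 ≤ l ^ 4 := by nlinarith [pow_pos (by linarith : (0:ℝ) < l) 3]
  have hl33 : 27 ≤ l ^ 3 := by nlinarith [sq_nonneg l, mul_self_nonneg (l - 3)]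
  have hy_le : (yy X : ℝ) ≤ l ^ 4 := Nat.floor_le (by positivity)
  have hy_ge : l ^ 4 / 2 ≤ (yy X : ℝ) := by
    have := Nat.lt_floor_add_one (l ^ 4)
    have h2 : (⌊l ^ 4⌋₊ : ℝ) = (yy X : ℝ) := rfl
    rw [h2] at this
    nlinarith
  have hyl : l ≤ (yy X : ℝ) := by nlinarith [pow_pos (by linarith : (0:ℝ) < l) 3]
  have hy3 : (3 : ℝ) ≤ (yy X : ℝ) := by linarith
  have hy3' : 3 ≤ yy X := by exact_mod_cast hy3
  have hlogy1 : 1 ≤ Real.log (yy X) := by
    rw [Real.le_log_iff_exp_le (by linarith)]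
    have := Real.exp_one_lt_d9; linarith
  have hlogy4 : Real.log (yy X) ≤ 4 * Real.log l := by
    have h1 := Real.log_le_log (by linarith) hy_le
    rw [Real.log_pow] at h1
    exact_mod_cast h1
  have hden : l ^ 4 / 2 ≤ (yy X : ℝ) * Real.log (yy X) := by nlinarith
  have hl0 : 0 < l := by linarith
  refine ⟨hy3', hl0, ?_, ?_, ?_, ?_⟩
  · rw [div_le_iff₀ (by linarith)]
    rw [div_le_iff₀ he0] at hle
    nlinarith
  · rw [div_le_iff₀ (by positivity)]
    rw [div_le_iff₀ he0] at hlB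
    have hlog2 : Real.log 2 ≤ 1 := by have := Real.log_two_lt_d9; linarith
    have h1 : Real.log 2 + B * l ≤ (1 + B) * l := by nlinarith
    have h2 : (k : ℝ) ^ 2 ≤ l ^ 2 := pow_le_pow_left₀ (by linarith) hkl 2
    have h3 : (k : ℝ) ^ 2 * (Real.log 2 + B * l) ≤ l ^ 2 * ((1 + B) * l) := by
      refine mul_le_mul h2 h1 ?_ (by positivity)
      have := Real.log_two_gt_d9
      positivity
    have h4 : l ≤ l ^ 3 := by
      have := pow_le_pow_right₀ (by linarith : (1 : ℝ) ≤ l) (show 1 ≤ 3 by norm_num)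
      simpa using this
    calc l + (k : ℝ) ^ 2 * (Real.log 2 + B * l) ≤ l ^ 3 + l ^ 2 * ((1 + B) * l) := add_le_add h4 h3
      _ = (2 + B) * l ^ 3 := by ring
      _ ≤ (l * e / 2) * l ^ 3 := mul_le_mul_of_nonneg_right (by linarith) (by positivity)
      _ = e * (l ^ 4 / 2) := by ring
      _ ≤ _ := mul_le_mul_of_nonneg_left hden he0.le
  · rw [div_le_iff₀ (by positivity)]
    rw [div_le_iff₀ he0] at hle
    have h4 : l ≤ l ^ 3 := by
      have := pow_le_pow_right₀ (by linarith : (1 : ℝ) ≤ l) (show 1 ≤ 3 by norm_num)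
      simpa using this
    calc l ≤ 1 * l ^ 3 := by linarith
      _ ≤ (l * e / 2) * l ^ 3 := mul_le_mul_of_nonneg_right (by linarith) (by positivity)
      _ = e * (l ^ 4 / 2) := by ring
      _ ≤ _ := mul_le_mul_of_nonneg_left hden he0.le
  · intro L hLl P hP v hv hvL
    have hL0 : 0 < L := lt_of_lt_of_le (by positivity) hLl
    have hy0' : y₀ ≤ yy X := by exact_mod_cast hly0.trans hyl
    have h1 := hsum (yy X) hy0' P hP v (v + e * L) ((k : ℝ) - 1) hv (by positivity)
      (by have : 0 < e * L := by positivity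
          linarith) (by linarith)
    refine h1.trans ?_
    have hW := W_pos (yy X)
    have h2 : 1 / (k : ℝ) ≤ Real.log k / (k - 1) := by
      rw [div_le_div_iff₀ (by linarith) (by linarith)]
      have h3 := Real.one_sub_inv_le_log_of_pos (by linarith : (0 : ℝ) < k)
      have h4 : (1 - (k : ℝ)⁻¹) * k = k - 1 := by field_simp
      nlinarith
    have h3 : A * Real.log (yy X) / (v + e * L) ≤ e * (Real.log k / (k - 1)) := by
      have h5 : A * Real.log (yy X) / (v + e * L) ≤ e * (1 / k) := by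
        rw [div_le_iff₀ (by positivity)]
        rw [div_le_iff₀ (by positivity)] at hT2
        have h6 : 8 * A * (k * Real.log l) ≤ e ^ 2 * L := by
          calc 8 * A * (k * Real.log l) ≤ T * e ^ 3 * (k * Real.log l) :=
                mul_le_mul_of_nonneg_right hT2 (by positivity)
            _ = e ^ 3 * (T * k * Real.log l) := by ring
            _ ≤ e ^ 3 * l := mul_le_mul_of_nonneg_left hkX (by positivity)
            _ = e ^ 2 * (e * l) := by ring
            _ ≤ _ := mul_le_mul_of_nonneg_left hLl (by positivity)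
        have h7 : A * Real.log (yy X) ≤ A * (4 * Real.log l) :=
          mul_le_mul_of_nonneg_left hlogy4 (by positivity)
        have h8 : A * (4 * Real.log l) ≤ e * (1 / k) * (e * L) := by
          rw [show e * (1 / (k : ℝ)) * (e * L) = (e ^ 2 * L) / k by ring]
          rw [le_div_iff₀ (by linarith)]
          have h80 : 0 ≤ (A : ℝ) * (k * Real.log l) := by positivity
          nlinarith
        have h9 : e * (1 / k) * (e * L) ≤ e * (1 / k) * (v + e * L) :=
          mul_le_mul_of_nonneg_left (by linarith) (by positivity)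
        linarith
      exact h5.trans (mul_le_mul_of_nonneg_left h2 he0.le)
    have h4 : Real.log (1 + ((k : ℝ) - 1)) / ((k : ℝ) - 1) = Real.log k / (k - 1) := by
      congr 2; ring
    rw [h4]
    calc (1 + e) * Count.W (yy X) * (Real.log k / (k - 1) + A * Real.log (yy X) / (v + e * L))
        ≤ (1 + e) * Count.W (yy X) * (Real.log k / (k - 1) + e * (Real.log k / (k - 1))) :=
          mul_le_mul_of_nonneg_left (by linarith) (by positivity)
      _ = _ := by ring

end Run7.h52.AsmT
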