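import Mathlib

set_option autoImplicit false

namespace Run7.h52.TW

/-- `V` is a sum of functions of `n mod q`, `q ≤ R` -/
def HasLevel (R : ℕ) (V : ℤ → ℝ) : Prop :=
  ∃ c : ℕ → ℤ → ℝ, ∀ n : ℤ, V n = ∑ q ∈ Finset.Icc 1 R, c q (n % (q : ℤ))

/-- a finite sum of squares `V ^ 2` restricted to arithmetic progressions of modulus `d`, with
`V` of level `R` and `d * R ^ 2 ≤ X` -/
def SquareWeight (X : ℝ) (w : ℤ → ℝ) : Prop :=
  ∃ (J : ℕ) (d R : Fin J → ℕ) (a : Fin J → ℤ) (V : Fin J → ℤ → ℝ),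
    (∀ j, 1 ≤ d j ∧ 1 ≤ R j ∧ (d j : ℝ) * (R j : ℝ) ^ 2 ≤ X ∧ HasLevel (R j) (V j)) ∧
    ∀ n : ℤ, w n = ∑ j, if (d j : ℤ) ∣ n - a j then (V j n) ^ 2 else 0

/-- the shifts `h` for which `n + h` has no prime factor `≤ z` -/
noncomputable def roughShifts (z : ℝ) (H : Finset ℤ) (n : ℤ) : Finset ℤ :=
  open Classical in H.filter fun h => ∀ p : ℕ, p.Prime → (p : ℝ) ≤ z → ¬ (p : ℤ) ∣ n + h

/-- the shifts `h` for which `n + h` is a prime `> z` -/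
noncomputable def primeShifts (z : ℝ) (H : Finset ℤ) (n : ℤ) : Finset ℤ :=
  open Classical in H.filter fun h => z < ((n + h : ℤ) : ℝ) ∧ Prime (n + h)

end Run7.h52.TW
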