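import Pool.Agent.Run7.h52.AsmT4
import Pool.Agent.Run7.h52.DefT

set_option autoImplicit false
set_option linter.unusedSectionVars false

namespace Run7.h52.AsmT

open Finset Run7.h52.Core Run7.h52.Count Run7.h52.Sp Run7.h52.AsmB Run7.h52.Transfer

/-- number of terms of the progression -/
def nn (x : ℤ) (N d : ℕ) (a : ℤ) : ℕ := ((x + N - a) / d - (x - a) / d).toNat

/-- first index -/
def m0 (x : ℤ) (d : ℕ) (a : ℤ) : ℤ := (x - a) / d + 1

lemma nn_nonneg (x : ℤ) (N : ℕ) {d : ℕ} (hd : 1 ≤ d) (a : ℤ) : 0 ≤ (x + N - a) / (d : ℤ) - (x - a) / d := by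
  have hd0 : (0 : ℤ) < d := by exact_mod_cast hd
  have : (x - a) / (d : ℤ) ≤ (x + N - a) / d := Int.ediv_le_ediv hd0 (by
    have : (0 : ℤ) ≤ N := Int.natCast_nonneg N
    linarith)
  linarith

lemma sum_prog (x : ℤ) (N : ℕ) {d : ℕ} (hd : 1 ≤ d) (a : ℤ) (F : ℤ → ℝ) :
    ∑ n ∈ Finset.Ioc x (x + N), (if (d : ℤ) ∣ n - a then F n else 0)
      = ∑ j ∈ Finset.range (nn x N d a), F (a + d * (m0 x d a + j)) := by
  have hd0 : (0 : ℤ) < d := by exact_mod_cast hd
  have hnn := nn_nonneg x N hd a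
  rw [← Finset.sum_filter]
  symm
  refine Finset.sum_bij (fun (j : ℕ) _ => a + d * (m0 x d a + j)) ?_ ?_ ?_ ?_
  · intro j hj
    rw [Finset.mem_range, nn] at hj
    rw [Finset.mem_filter, Finset.mem_Ioc]
    have hj' : (j : ℤ) < (x + N - a) / (d : ℤ) - (x - a) / d := by
      rw [← Int.toNat_of_nonneg hnn]; exact_mod_cast hj
    have h1 : (x - a) < ((x - a) / (d : ℤ) + 1) * d := by
      have := Int.lt_ediv_add_one_mul_self (x - a) hd0
      linarith
    have h2 : ((x + N - a) / (d : ℤ)) * d ≤ x + N - a := Int.ediv_mul_le _ hd0.ne'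
    have h3 : (0 : ℤ) ≤ j := Int.natCast_nonneg j
    refine ⟨⟨?_, ?_⟩, ?_⟩
    · simp only [m0]
      nlinarith
    · simp only [m0]
      have h4 : (x - a) / (d : ℤ) + 1 + j ≤ (x + N - a) / d := by omega
      nlinarith
    · have : a + d * (m0 x d a + j) - a = d * (m0 x d a + j) := by ring
      rw [this]; exact Dvd.intro _ rfl
  · intro j _ j' _ h
    have h1 : (d : ℤ) * (m0 x d a + j) = d * (m0 x d a + j') := add_left_cancel h
    have h2 := mul_left_cancel₀ hd0.ne' h1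
    have h3 := add_left_cancel h2
    exact_mod_cast h3
  · intro n hn
    rw [Finset.mem_filter, Finset.mem_Ioc] at hn
    obtain ⟨⟨h1, h2⟩, ⟨m, hm⟩⟩ := hn
    have hm1 : m0 x d a ≤ m := by
      simp only [m0]
      have : (x - a) / (d : ℤ) < m := by
        rw [Int.ediv_lt_iff_lt_mul hd0]
        nlinarith
      omega
    have hm2 : m ≤ (x + N - a) / (d : ℤ) := by
      rw [Int.le_ediv_iff_mul_le hd0]
      nlinarith
    refine ⟨(m - m0 x d a).toNat, ?_, ?_⟩
    · rw [Finset.mem_range, nn]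
      simp only [m0] at hm1 ⊢
      omega
    · have h3 : (((m - m0 x d a).toNat : ℕ) : ℤ) = m - m0 x d a := Int.toNat_of_nonneg (by omega)
      simp only [h3]
      have : n = a + d * m := by linarith
      rw [this]; ring
  · intro j _; rfl

lemma nn_ge (x : ℤ) (N : ℕ) {d : ℕ} (hd : 1 ≤ d) (a : ℤ) : (N : ℝ) / d - 1 ≤ nn x N d a := by
  have hd0 : (0 : ℤ) < d := by exact_mod_cast hd
  have hd1 : (0 : ℝ) < d := by exact_mod_cast hd
  have h1 : (x + N - a) < ((x + N - a) / (d : ℤ) + 1) * d := Int.lt_ediv_add_one_mul_self (x + N - a) hd0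
  have h2 : ((x - a) / (d : ℤ)) * d ≤ x - a := Int.ediv_mul_le _ hd0.ne'
  have h3 : (N : ℤ) < ((nn x N d a : ℤ) + 1) * d := by
    rw [nn, Int.toNat_of_nonneg (nn_nonneg x N hd a)]
    nlinarith
  have h4 : (N : ℝ) < ((nn x N d a : ℝ) + 1) * d := by exact_mod_cast h3
  rw [sub_le_iff_le_add, div_le_iff₀ hd1]
  exact h4.le

lemma nn_le (x : ℤ) (N : ℕ) {d : ℕ} (hd : 1 ≤ d) (a : ℤ) : nn x N d a ≤ N := by
  have hd0 : (0 : ℤ) < d := by exact_mod_cast hd
  have h1 : (x + N - a) / (d : ℤ) ≤ (x - a) / d + N := by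
    have h2 : (x + N - a) ≤ (x - a) + N * d := by
      have : (1 : ℤ) ≤ d := hd0
      have : (0 : ℤ) ≤ N := Int.natCast_nonneg N
      nlinarith
    have h3 := Int.ediv_le_ediv hd0 h2
    rwa [Int.add_mul_ediv_right _ _ hd0.ne'] at h3
  rw [nn]
  omega

lemma level_prog {R : ℕ} {V : ℤ → ℝ} (hV : HasLevel R V) (d : ℕ) (a : ℤ) :
    HasLevel R (fun m => V (a + d * m)) := by
  obtain ⟨c, hc⟩ := hV
  refine ⟨fun q r => c q ((a + d * r) % (q : ℤ)), fun m => ?_⟩
  simp only [hc]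
  refine Finset.sum_congr rfl fun q _ => ?_
  congr 1
  have h : (q : ℤ) ∣ (a + d * m) - (a + d * (m % (q : ℤ))) := by
    have : (a + d * m) - (a + d * (m % (q : ℤ))) = d * (m - m % (q : ℤ)) := by ring
    rw [this]
    exact Dvd.dvd.mul_left Int.dvd_self_sub_emod _
  exact (Int.modEq_iff_dvd.2 h).symm

/-- one square restricted to one progression -/
theorem pieceU {θ e B : ℝ} (hθ0 : 0 < θ) (hθ1 : θ < 1) (he0 : 0 < e) (he1 : e ≤ 1 / 2)
    (heθ : 4 * e < 1 - θ) (hB : 0 ≤ B) : ∃ T : ℝ, ∀ (N : ℕ) (H : Finset ℤ), T ≤ N → 2 ≤ H.card →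
    T * H.card * Real.log (Real.log N) ≤ Real.log N → (∀ h ∈ H, |(h : ℝ)| ≤ (N : ℝ) ^ B) →
    ∀ (d R : ℕ) (a : ℤ) (V : ℤ → ℝ), 1 ≤ d → 1 ≤ R → (d : ℝ) * (R : ℝ) ^ 2 ≤ (N : ℝ) ^ θ →
    HasLevel R V → ∀ x : ℤ,
    ∑ n ∈ Finset.Ioc x (x + N), (if (d : ℤ) ∣ n - a then V n ^ 2 *
        ((TW.roughShifts (Real.sqrt N) H n).card : ℝ) else 0)
      ≤ ((1 + 2 * e) * (1 + e) ^ 2 * Real.exp (2 * e) * ((1 + e) / (1 - e)) *
        ((θ + 2 * e) / (1 - θ - 4 * e))) * (H.card * Real.log H.card / (H.card - 1)) *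
        ∑ n ∈ Finset.Ioc x (x + N), (if (d : ℤ) ∣ n - a then V n ^ 2 else 0) := by
  classical
  obtain ⟨T₁, hT₁, hpar⟩ := paramsT e B he0 hB
  -- `1 + log t ≤ e t ^ e` for large `t`
  have hlo : ∃ t₀ : ℝ, ∀ t : ℝ, t₀ ≤ t → 1 + Real.log t ≤ e * t ^ e := by
    have h1 := (isLittleO_log_rpow_atTop he0).bound (half_pos he0)
    have h2 := (tendsto_rpow_atTop he0).eventually_ge_atTop (2 / e)
    obtain ⟨t₁, ht₁⟩ := Filter.eventually_atTop.1 (h1.and (h2.and (Filter.eventually_ge_atTop (1 : ℝ))))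
    refine ⟨t₁, fun t ht => ?_⟩
    obtain ⟨h3, h4, h5⟩ := ht₁ t ht
    rw [Real.norm_of_nonneg (Real.log_nonneg h5), Real.norm_of_nonneg (Real.rpow_nonneg (by linarith) _)] at h3
    rw [div_le_iff₀ he0] at h4
    nlinarith
  obtain ⟨t₀, ht₀⟩ := hlo
  set t₁ := max t₀ 1 with ht₁
  -- `N ^ (1 - θ)` large
  have hbig : ∃ n₀ : ℝ, ∀ t : ℝ, n₀ ≤ t → 2 * t₁ ≤ t ^ (1 - θ) := by
    have h2 := (tendsto_rpow_atTop (by linarith : 0 < 1 - θ)).eventually_ge_atTop (2 * t₁)
    exact Filter.eventually_atTop.1 h2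
  obtain ⟨n₀, hn₀⟩ := hbig
  refine ⟨max T₁ (max n₀ (Real.exp (4 / e))), fun N H hN hk hkN hH d R a V hd hR hdR hV x => ?_⟩
  have hNT₁ : T₁ ≤ N := (le_max_left _ _).trans hN
  have hNn₀ : n₀ ≤ N := ((le_max_left _ _).trans (le_max_right _ _)).trans hN
  have hNe : Real.exp (4 / e) ≤ N := ((le_max_right _ _).trans (le_max_right _ _)).trans hN
  have hN1 : (1 : ℝ) ≤ N := hT₁.trans hNT₁
  have hN0 : (0 : ℝ) < N := by linarith
  set l := Real.log N with hl
  have hel : 4 ≤ e * l := by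
    have h1 : 4 / e ≤ l := by rw [hl, Real.le_log_iff_exp_le hN0]; exact hNe
    rw [div_le_iff₀ he0] at h1; linarith
  have hl0 : 0 < l := by
    by_contra h
    push Not at h
    nlinarith
  obtain ⟨k, hkdef⟩ : ∃ k, k = H.card := ⟨_, rfl⟩
  rw [← hkdef] at hk hkN ⊢
  have hk2 : (2 : ℝ) ≤ k := by exact_mod_cast hk
  have hloglog : 0 ≤ Real.log (Real.log N) := by
    apply Real.log_nonneg
    rw [← hl]
    nlinarith
  have hkN' : T₁ * k * Real.log (Real.log N) ≤ Real.log N := by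
    refine le_trans ?_ hkN
    refine mul_le_mul_of_nonneg_right (mul_le_mul_of_nonneg_right (le_max_left _ _) (by linarith)) hloglog
  obtain ⟨hy3, _, hye, hyN, hyl, hsum⟩ := hpar N k hNT₁ hk hkN'
  set y := yy N with hy
  have hy1 : (1 : ℝ) < y := by exact_mod_cast (by omega : 1 < y)
  have hly : 0 < Real.log y := Real.log_pos hy1
  -- sizes
  have hd1 : (1 : ℝ) ≤ d := by exact_mod_cast hd
  have hR1 : (1 : ℝ) ≤ R := by exact_mod_cast hR
  have hd0 : (0 : ℝ) < d := by linarith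
  have hdθ : (d : ℝ) ≤ (N : ℝ) ^ θ := by
    refine le_trans ?_ hdR
    have : (1 : ℝ) ≤ (R : ℝ) ^ 2 := one_le_pow₀ hR1
    nlinarith
  have hld0 : 0 ≤ Real.log d := Real.log_nonneg hd1
  have hldθ : Real.log d ≤ θ * l := by
    have := Real.log_le_log hd0 hdθ
    rwa [Real.log_rpow hN0] at this
  have hdN : (d : ℝ) ≤ N := by
    refine hdθ.trans ?_
    calc (N : ℝ) ^ θ ≤ (N : ℝ) ^ (1 : ℝ) := Real.rpow_le_rpow_of_exponent_le hN1 hθ1.le
      _ = N := Real.rpow_one _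
  set L : ℝ := (θ * l - Real.log d) / 2 + e * l with hL
  have hLe : e * l ≤ L := by rw [hL]; linarith
  have hL0 : 0 < L := lt_of_lt_of_le (by positivity) hLe
  have hLl : L ≤ (θ / 2 + e) * l := by rw [hL]; nlinarith
  have hLl' : L ≤ l := by
    refine hLl.trans ?_
    nlinarith
  have hRL : Real.log R ≤ L := by
    have h1 : Real.log ((d : ℝ) * (R : ℝ) ^ 2) ≤ θ * l := by
      have := Real.log_le_log (by positivity) hdR
      rwa [Real.log_rpow hN0] at this
    rw [Real.log_mul (by positivity) (by positivity), Real.log_pow] at h1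
    push_cast at h1
    have : 0 ≤ e * l := by positivity
    rw [hL]; linarith
  -- the progression
  set N' := nn x N d a with hN'
  have hN'1 : (N : ℝ) / (2 * d) ≤ N' := by
    have h1 := nn_ge x N hd a
    have h2 : 2 * t₁ ≤ (N : ℝ) ^ (1 - θ) := hn₀ N hNn₀
    have h3 : (N : ℝ) ^ (1 - θ) ≤ N / d := by
      rw [le_div_iff₀ hd0]
      calc (N : ℝ) ^ (1 - θ) * d ≤ (N : ℝ) ^ (1 - θ) * (N : ℝ) ^ θ :=
            mul_le_mul_of_nonneg_left hdθ (Real.rpow_nonneg hN0.le _)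
        _ = N := by rw [← Real.rpow_add hN0]; simp
    have h4 : 1 ≤ t₁ := le_max_right _ _
    have h5 : (N : ℝ) / (2 * d) = (N / d) / 2 := by field_simp
    rw [h5]
    linarith
  have hN't : t₁ ≤ N' := by
    have h2 : 2 * t₁ ≤ (N : ℝ) ^ (1 - θ) := hn₀ N hNn₀
    have h3 : (N : ℝ) ^ (1 - θ) ≤ N / d := by
      rw [le_div_iff₀ hd0]
      calc (N : ℝ) ^ (1 - θ) * d ≤ (N : ℝ) ^ (1 - θ) * (N : ℝ) ^ θ :=
            mul_le_mul_of_nonneg_left hdθ (Real.rpow_nonneg hN0.le _)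
        _ = N := by rw [← Real.rpow_add hN0]; simp
    have h5 : (N : ℝ) / (2 * d) = (N / d) / 2 := by field_simp
    rw [h5] at hN'1
    linarith
  have hN'0 : (1 : ℝ) ≤ N' := (le_max_right _ _).trans hN't
  have hN'pos : (0 : ℝ) < N' := by linarith
  have hN'nat : 1 ≤ N' := by exact_mod_cast hN'0
  have hN'le : N' ≤ N := nn_le x N hd a
  have hlN' : l - Real.log d - 1 ≤ Real.log N' := by
    have h1 := Real.log_le_log (by positivity) hN'1
    rw [Real.log_div (by positivity) (by positivity), Real.log_mul (by norm_num) (by positivity)] at h1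
    have := Real.log_two_lt_d9
    linarith
  have hlN'0 : 0 ≤ Real.log N' := Real.log_nonneg hN'0
  set Z : ℝ := (N' : ℝ) ^ ((1 - e) / 2) with hZ
  have hZ1 : 1 ≤ Z := Real.one_le_rpow hN'0 (by linarith)
  set Q : ℕ := ⌊Z⌋₊ with hQ
  have hQZ : (Q : ℝ) ≤ Z := Nat.floor_le (by linarith)
  have hQ1 : 1 ≤ Q := Nat.le_floor (by exact_mod_cast hZ1)
  have hQ1r : (1 : ℝ) ≤ Q := by exact_mod_cast hQ1
  have hQ2 : Z / 2 ≤ Q := by
    have := Nat.lt_floor_add_one Z
    have h2 : (⌊Z⌋₊ : ℝ) = (Q : ℝ) := rfl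
    rw [h2] at this
    linarith
  have hlogZ : Real.log Z = (1 - e) / 2 * Real.log N' := Real.log_rpow hN'pos _
  have hlogQ : (1 - e) / 2 * Real.log N' - 1 ≤ Real.log Q := by
    have h1 := Real.log_le_log (by positivity) hQ2
    rw [Real.log_div (by positivity) (by norm_num), hlogZ] at h1
    have := Real.log_two_lt_d9
    linarith
  have hgap : (1 - θ - 4 * e) / 2 * l ≤ Real.log Q - L := by
    have h1 : (1 - e) / 2 * (l - Real.log d - 1) ≤ (1 - e) / 2 * Real.log N' :=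
      mul_le_mul_of_nonneg_left hlN' (by linarith)
    have h2 : 0 ≤ e * Real.log d := mul_nonneg he0.le hld0
    rw [hL]
    nlinarith
  have hgap0 : 0 < (1 - θ - 4 * e) / 2 * l := mul_pos (by linarith) hl0
  have hLQ : L < Real.log Q := by linarith
  have hRQ : R ≤ Q := by
    have h1 : Real.log R < Real.log Q := by linarith
    have h2 := (Real.log_lt_log_iff (by linarith) (by linarith)).1 h1
    exact_mod_cast h2.le
  have hEr : Er Q ≤ e * N' := by
    have h1 : (Q : ℝ) ^ 2 ≤ (N' : ℝ) ^ (1 - e) := by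
      calc (Q : ℝ) ^ 2 ≤ Z ^ 2 := pow_le_pow_left₀ (by linarith) hQZ 2
        _ = (N' : ℝ) ^ (1 - e) := by
            rw [hZ, ← Real.rpow_natCast, ← Real.rpow_mul hN'pos.le]
            congr 1
            push_cast; ring
    have h2 : (1 : ℝ) ≤ (Q : ℝ) ^ 2 := one_le_pow₀ hQ1r
    have h3 : Real.log ((Q : ℝ) ^ 2) ≤ Real.log N' := by
      refine Real.log_le_log (by linarith) (h1.trans ?_)
      calc (N' : ℝ) ^ (1 - e) ≤ (N' : ℝ) ^ (1 : ℝ) := Real.rpow_le_rpow_of_exponent_le hN'0 (by linarith)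
        _ = N' := Real.rpow_one _
    have h4 := Real.log_nonneg h2
    have h5 : 1 + Real.log N' ≤ e * (N' : ℝ) ^ e := ht₀ N' ((le_max_left _ _).trans hN't)
    calc Er Q = (Q : ℝ) ^ 2 * (1 + Real.log ((Q : ℝ) ^ 2)) := rfl
      _ ≤ (N' : ℝ) ^ (1 - e) * (e * (N' : ℝ) ^ e) :=
          mul_le_mul h1 (by linarith) (by linarith) (by positivity)
      _ = e * ((N' : ℝ) ^ (1 - e) * (N' : ℝ) ^ e) := by ring
      _ = e * N' := by rw [← Real.rpow_add hN'pos]; simp
  have hdiffs : Real.log (diffs d H) / (y * Real.log y) ≤ e := by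
    have h1 := log_diffs hd H hN1 hB hdN hH
    rw [← hkdef] at h1
    exact (div_le_div_of_nonneg_right h1 (by positivity)).trans hyN
  have hLy : L / (y * Real.log y) ≤ e :=
    (div_le_div_of_nonneg_right hLl' (by positivity)).trans hyl
  have hP := pieceT he0 he1 hy3 hye hR hRQ hL0 hRL hLQ H hkdef.symm hk hd hdiffs hLy
    (fun P hP v hv hvL => hsum L hLe P hP v hv hvL) hEr hN'nat a (m0 x d a)
    (fun m => V (a + d * m)) (level_prog hV d a)
  rw [sum_prog x N hd a (fun n => V n ^ 2 * ((TW.roughShifts (Real.sqrt N) H n).card : ℝ)),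
    sum_prog x N hd a (fun n => V n ^ 2)]
  have hS0 : 0 ≤ ∑ j ∈ Finset.range N', V (a + d * (m0 x d a + j)) ^ 2 :=
    Finset.sum_nonneg fun _ _ => sq_nonneg _
  have hlogk : 0 < Real.log k := Real.log_pos (by linarith)
  have hk1 : 0 < (k : ℝ) - 1 := by linarith
  have hratio : L / (Real.log Q - L) ≤ (θ + 2 * e) / (1 - θ - 4 * e) := by
    have h1 : L / (Real.log Q - L) ≤ ((θ / 2 + e) * l) / ((1 - θ - 4 * e) / 2 * l) :=
      div_le_div₀ (by positivity) hLl hgap0 hgap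
    refine h1.trans (le_of_eq ?_)
    have : 1 - θ - 4 * e ≠ 0 := by linarith
    field_simp
  calc ∑ j ∈ Finset.range N', V (a + d * (m0 x d a + j)) ^ 2 *
          ((TW.roughShifts (Real.sqrt N) H (a + d * (m0 x d a + j))).card : ℝ)
      ≤ ∑ j ∈ Finset.range N', V (a + d * (m0 x d a + j)) ^ 2 *
        ((H.filter fun h => ∀ p ∈ Count.PP Q, ¬ (p : ℤ) ∣ d * (m0 x d a + j) + (a + h)).card : ℝ) := by
        refine Finset.sum_le_sum fun j _ => mul_le_mul_of_nonneg_left ?_ (sq_nonneg _)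
        have h2 : TW.roughShifts (Real.sqrt N) H (a + d * (m0 x d a + j)) ⊆
            (H.filter fun h => ∀ p ∈ Count.PP Q, ¬ (p : ℤ) ∣ d * (m0 x d a + j) + (a + h)) := by
          intro h hh
          unfold TW.roughShifts at hh
          rw [Finset.mem_filter] at hh ⊢
          refine ⟨hh.1, fun p hp => ?_⟩
          rw [Finset.mem_filter, Finset.mem_Icc] at hp
          have h3 : (p : ℝ) ≤ Real.sqrt N := by
            have h4 : (p : ℝ) ≤ Z := by
              have : (p : ℝ) ≤ Q := by exact_mod_cast hp.1.2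
              linarith
            refine h4.trans ?_
            rw [Real.sqrt_eq_rpow, hZ]
            calc (N' : ℝ) ^ ((1 - e) / 2) ≤ (N' : ℝ) ^ (1 / 2 : ℝ) :=
                  Real.rpow_le_rpow_of_exponent_le hN'0 (by linarith)
              _ ≤ (N : ℝ) ^ (1 / 2 : ℝ) :=
                  Real.rpow_le_rpow hN'pos.le (by exact_mod_cast hN'le) (by norm_num)
          have h5 := hh.2 p hp.2 h3
          have h6 : (d : ℤ) * (m0 x d a + j) + (a + h) = a + d * (m0 x d a + j) + h := by ring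
          rw [h6]; exact h5
        exact_mod_cast Finset.card_le_card h2
    _ ≤ _ := hP
    _ ≤ _ := by
        refine mul_le_mul_of_nonneg_right ?_ hS0
        have hc1 : 0 ≤ (1 + 2 * e) * (1 + e) ^ 2 * Real.exp (2 * e) * ((1 + e) / (1 - e)) := by
          have : 0 < 1 - e := by linarith
          positivity
        have hc2 : 0 ≤ (k : ℝ) * Real.log k / (k - 1) := by positivity
        calc (1 + 2 * e) * (1 + e) ^ 2 * Real.exp (2 * e) * ((1 + e) / (1 - e)) *
            (k * Real.log k / (k - 1)) * (L / (Real.log Q - L))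
            ≤ (1 + 2 * e) * (1 + e) ^ 2 * Real.exp (2 * e) * ((1 + e) / (1 - e)) *
            (k * Real.log k / (k - 1)) * ((θ + 2 * e) / (1 - θ - 4 * e)) :=
              mul_le_mul_of_nonneg_left hratio (mul_nonneg hc1 hc2)
          _ = _ := by ring

end Run7.h52.AsmT
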