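import Pool.Agent.Run7.h52.AsmW

set_option autoImplicit false
set_option linter.unusedSectionVars false

namespace Run7.h52.AsmW

open Finset Run7.h52.Op Run7.h52.Core Run7.h52.CoreA Run7.h52.Count Run7.h52.Sums
  Run7.h52.Transfer Run7.h52.CoreW Run7.h52.BWS

lemma mult (p : ℕ) (hp : 0 < p) (x : ℤ) (Y : ℕ) (H : Finset ℤ) (hH : H ⊆ Finset.Ioc x (x + Y)) (c : ℤ) :
    ((H.filter fun h => (p : ℤ) ∣ h - c).card : ℝ) ≤ Y / p + 1 := by
  have h1 : H.filter (fun h => (p : ℤ) ∣ h - c) ⊆ (Finset.Ioc x (x + Y)).filter (fun h => h ≡ c [ZMOD p]) := by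
    intro h hh
    rw [Finset.mem_filter] at hh ⊢
    exact ⟨hH hh.1, (Int.modEq_iff_dvd.2 hh.2).symm⟩
  have h2 := Finset.card_le_card h1
  have hp' : (0 : ℤ) < p := by exact_mod_cast hp
  have h3 := Int.Ioc_filter_modEq_card x (x + Y) hp' c
  have h4 : (((Finset.Ioc x (x + Y)).filter (fun h => h ≡ c [ZMOD p])).card : ℝ) ≤ Y / p + 1 := by
    have hp0 : (0 : ℚ) < p := by exact_mod_cast hp
    have h5 : ((((Finset.Ioc x (x + Y)).filter (fun h => h ≡ c [ZMOD p])).card : ℤ) : ℚ) ≤ Y / p + 1 := by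
      rw [h3]
      push_cast
      refine max_le ?_ (by positivity)
      have h6 := Int.floor_le (((x : ℚ) + Y - c) / p)
      have h7 := Int.sub_one_lt_floor (((x : ℚ) - c) / p)
      have h8 : ((x : ℚ) + Y - c) / p = ((x : ℚ) - c) / p + Y / p := by ring
      rw [h8] at h6 ⊢
      linarith
    have h9 : (((((Finset.Ioc x (x + Y)).filter (fun h => h ≡ c [ZMOD p])).card : ℤ) : ℚ) : ℝ) ≤
        (((Y / p + 1 : ℚ)) : ℝ) := by exact_mod_cast h5
    push_cast at h9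
    exact h9
  have h5 : ((H.filter fun h => (p : ℤ) ∣ h - c).card : ℝ) ≤
    (((Finset.Ioc x (x + Y)).filter (fun h => h ≡ c [ZMOD p])).card : ℝ) := by exact_mod_cast h2
  linarith

lemma few_primes (y : ℕ) (hy : 1 ≤ Real.log y) (Q : Finset ℕ) (hQ : ∀ p ∈ Q, p.Prime ∧ y < p) (d : ℕ)
    (hd : 1 ≤ d) (hQd : ∀ p ∈ Q, p ∣ d) : (Q.card : ℝ) ≤ Real.log d / Real.log y := by
  rw [le_div_iff₀ (by linarith)]
  have hy0 : 0 < y := by
    rcases Nat.eq_zero_or_pos y with h | h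
    · rw [h] at hy; simp at hy; linarith
    · exact h
  have h2 : ∏ p ∈ Q, p ∣ d := Finset.prod_primes_dvd d (fun p hp => (hQ p hp).1.prime) hQd
  have h3 : ∏ p ∈ Q, p ≤ d := Nat.le_of_dvd hd h2
  have h4 : (y : ℕ) ^ Q.card ≤ ∏ p ∈ Q, p := by
    rw [← Finset.prod_const]
    exact Finset.prod_le_prod' fun p hp => (hQ p hp).2.le
  have h5 : ((y ^ Q.card : ℕ) : ℝ) ≤ d := by exact_mod_cast h4.trans h3
  have h6 := Real.log_le_log (by positivity) h5
  push_cast at h6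
  rwa [Real.log_pow] at h6

lemma aliveW (y : ℕ) (hy : 1 ≤ Real.log y) (Q : Finset ℕ) (hQ : ∀ p ∈ Q, p.Prime ∧ y < p) (d : ℕ)
    (hd : 1 ≤ d) (hQd : ∀ p ∈ Q, p ∣ d) (x : ℤ) (Y : ℕ) (H : Finset ℤ)
    (hH : H ⊆ Finset.Ioc x (x + Y)) (n : ℤ) :
    (H.card : ℝ) - Real.log d / Real.log y * ((Y : ℝ) / y + 1) ≤
      ((H.filter (fun h => ∀ p ∈ Q, ¬ (p : ℤ) ∣ n + h)).card : ℝ) := by
  have hy0 : 0 < y := by
    rcases Nat.eq_zero_or_pos y with h | h
    · rw [h] at hy; simp at hy; linarith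
    · exact h
  have hy0' : (0 : ℝ) < y := by exact_mod_cast hy0
  have h2 : ((H.filter (fun h => ¬ ∀ p ∈ Q, ¬ (p : ℤ) ∣ n + h)).card : ℝ)
      ≤ Q.card * ((Y : ℝ) / y + 1) := by
    have h3 : H.filter (fun h => ¬ ∀ p ∈ Q, ¬ (p : ℤ) ∣ n + h) ⊆
        Q.biUnion fun p => H.filter fun h => (p : ℤ) ∣ h - (-n) := by
      intro h hh
      rw [Finset.mem_filter] at hh
      obtain ⟨hh1, hh2⟩ := hh
      push Not at hh2
      obtain ⟨p, hp, hd⟩ := hh2
      rw [Finset.mem_biUnion]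
      refine ⟨p, hp, Finset.mem_filter.2 ⟨hh1, ?_⟩⟩
      have : h - (-n) = n + h := by ring
      rwa [this]
    have h4 : ((H.filter (fun h => ¬ ∀ p ∈ Q, ¬ (p : ℤ) ∣ n + h)).card : ℝ)
        ≤ ∑ p ∈ Q, ((H.filter fun h => (p : ℤ) ∣ h - (-n)).card : ℝ) := by
      exact_mod_cast (Finset.card_le_card h3).trans Finset.card_biUnion_le
    refine h4.trans ?_
    rw [← nsmul_eq_mul, ← Finset.sum_const]
    refine Finset.sum_le_sum fun p hp => ?_
    refine (mult p (hQ p hp).1.pos x Y H hH (-n)).trans ?_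
    have h5 : (y : ℝ) ≤ p := by exact_mod_cast (hQ p hp).2.le
    have := div_le_div_of_nonneg_left (Nat.cast_nonneg Y) hy0' h5
    linarith
  have h3 := Finset.card_filter_add_card_filter_not (s := H) (p := fun h => ∀ p ∈ Q, ¬ (p : ℤ) ∣ n + h)
  have h4 : ((H.filter (fun h => ∀ p ∈ Q, ¬ (p : ℤ) ∣ n + h)).card : ℝ)
      + ((H.filter (fun h => ¬ ∀ p ∈ Q, ¬ (p : ℤ) ∣ n + h)).card : ℝ) = H.card := by exact_mod_cast h3
  have h5 := few_primes y hy Q hQ d hd hQd
  have h6 : (Q.card : ℝ) * ((Y : ℝ) / y + 1) ≤ Real.log d / Real.log y * ((Y : ℝ) / y + 1) :=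
    mul_le_mul_of_nonneg_right h5 (by positivity)
  linarith

lemma one_step (y p : ℕ) (hy : 0 < y) (hp : y < p) : (p : ℝ) / (p - 1) ≤ Real.exp (1 / y) := by
  have hy0 : (0 : ℝ) < y := by exact_mod_cast hy
  have hp' : (y : ℝ) + 1 ≤ p := by exact_mod_cast hp
  have h1 : (p : ℝ) / (p - 1) = 1 + 1 / (p - 1) := by
    have : (p : ℝ) - 1 ≠ 0 := by intro h; linarith
    field_simp; ring
  have h2 : 1 / ((p : ℝ) - 1) ≤ 1 / y := div_le_div_of_nonneg_left zero_le_one hy0 (by linarith)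
  have h3 := Real.add_one_le_exp (1 / (y : ℝ))
  linarith

lemma rho_ratio (y : ℕ) (hy : 1 ≤ Real.log y) (Q : Finset ℕ) (hQ : ∀ p ∈ Q, p.Prime ∧ y < p) (d : ℕ)
    (hd : 1 ≤ d) (hQd : ∀ p ∈ Q, p ∣ d) (X : ℝ) (hX : Real.log d ≤ Real.log X)
    (hX0 : 0 ≤ Real.log X) :
    1 ≤ Real.exp (Real.log X / y) * ∏ p ∈ Q, (1 - 1 / (p : ℝ)) := by
  have hy0 : 0 < y := by
    rcases Nat.eq_zero_or_pos y with h | h
    · rw [h] at hy; simp at hy; linarith
    · exact h
  have hy0' : (0 : ℝ) < y := by exact_mod_cast hy0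
  have h1 := few_primes y hy Q hQ d hd hQd
  have h2 : (Q.card : ℝ) ≤ Real.log X := by
    refine h1.trans ((div_le_div_of_nonneg_right hX (by linarith)).trans ?_)
    exact div_le_self hX0 hy
  have h3 : ∏ p ∈ Q, ((p : ℝ) / (p - 1)) ≤ Real.exp (Real.log X / y) := by
    calc ∏ p ∈ Q, ((p : ℝ) / (p - 1)) ≤ ∏ p ∈ Q, Real.exp (1 / y) := by
          refine Finset.prod_le_prod (fun p hp => ?_) (fun p hp => one_step y p hy0 (hQ p hp).2)
          have : (2 : ℝ) ≤ p := by exact_mod_cast (hQ p hp).1.two_le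
          exact div_nonneg (by linarith) (by linarith)
      _ = Real.exp (Q.card * (1 / y)) := by
          rw [Finset.prod_const, ← Real.exp_nat_mul]
      _ ≤ _ := by
          refine Real.exp_le_exp.2 ?_
          rw [mul_one_div]
          exact div_le_div_of_nonneg_right h2 hy0'.le
  have h4 : (∏ p ∈ Q, ((p : ℝ) / (p - 1))) * ∏ p ∈ Q, (1 - 1 / (p : ℝ)) = 1 := by
    rw [← Finset.prod_mul_distrib]
    refine Finset.prod_eq_one fun p hp => ?_
    have : (2 : ℝ) ≤ p := by exact_mod_cast (hQ p hp).1.two_le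
    have h5 : (p : ℝ) - 1 ≠ 0 := by intro h; linarith
    have h6 : (p : ℝ) ≠ 0 := by intro h; linarith
    field_simp
  refine h4.symm.le.trans (mul_le_mul_of_nonneg_right h3 (Finset.prod_nonneg fun p hp => ?_))
  have : (1 : ℝ) < p := by exact_mod_cast (hQ p hp).1.one_lt
  have : 1 / (p : ℝ) < 1 := by rw [div_lt_one (by linarith)]; exact this
  linarith

lemma gamma_bound (y : ℕ) (hy : 1 ≤ Real.log y) (P : Finset ℕ) (hP : ∀ p ∈ P, p.Prime ∧ y < p)
    (X : ℝ) (hX0 : 0 ≤ Real.log X) (τ : {p // p ∈ P} → Bool) (hτ : uu' (Om P) τ ≤ Real.log X / 2) :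
    (∏ i, if τ i = true then pp (Om P) i / (pp (Om P) i - 1) else 1) ≤ Real.exp (Real.log X / y) := by
  have hy0 : 0 < y := by
    rcases Nat.eq_zero_or_pos y with h | h
    · rw [h] at hy; simp at hy; linarith
    · exact h
  have hy0' : (0 : ℝ) < y := by exact_mod_cast hy0
  have h1 : ∀ i : {p // p ∈ P}, (if τ i = true then pp (Om P) i / (pp (Om P) i - 1) else 1)
      ≤ Real.exp (if τ i = true then 1 / (y : ℝ) else 0) := by
    intro i
    split_ifs
    · rw [pp_Om]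
      exact one_step y i hy0 (hP i i.2).2
    · rw [Real.exp_zero]
  have h2 : (∏ i, if τ i = true then pp (Om P) i / (pp (Om P) i - 1) else 1)
      ≤ ∏ i : {p // p ∈ P}, Real.exp (if τ i = true then 1 / (y : ℝ) else 0) := by
    refine Finset.prod_le_prod (fun i _ => ?_) (fun i _ => h1 i)
    split_ifs
    · rw [pp_Om]
      have : (2 : ℝ) ≤ ((i : ℕ) : ℝ) := by exact_mod_cast (hP i i.2).1.two_le
      exact div_nonneg (by linarith) (by linarith)
    · exact zero_le_one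
  refine h2.trans ?_
  rw [← Real.exp_sum]
  refine Real.exp_le_exp.2 ?_
  rw [le_div_iff₀ hy0', Finset.sum_mul]
  have h3 : ∑ i : {p // p ∈ P}, (if τ i = true then 1 / (y : ℝ) else 0) * y ≤ uu' (Om P) τ := by
    unfold uu'
    refine Finset.sum_le_sum fun i _ => ?_
    split_ifs
    · rw [pp_Om]
      have h4 : Real.log y ≤ Real.log (i : ℕ) :=
        Real.log_le_log hy0' (by exact_mod_cast (hP i i.2).2.le)
      have h5 : 1 / (y : ℝ) * y = 1 := by field_simp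
      linarith
    · rw [zero_mul]
  linarith

end Run7.h52.AsmW
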