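import Pool.Agent.Run7.h52.CoreV2
import Pool.Agent.Run7.h52.AsmT2
import Pool.Agent.Run7.h52.AsmW2

set_option autoImplicit false
set_option linter.unusedSectionVars false

namespace Run7.h52.AsmV

open Finset Run7.h52.Op Run7.h52.Ker Run7.h52.Core Run7.h52.Cell Run7.h52.CoreG Run7.h52.CellG
  Run7.h52.Transfer Run7.h52.Sp Run7.h52.AsmB Run7.h52.AsmT

section
variable {Q y d N₀ : ℕ}

/-- the frame inequality, with multiplicity -/
lemma frameV (hQ : 1 ≤ Q) {H : Finset ℤ} {x₀ : ℤ} {Y : ℕ} (hH : H ⊆ Finset.Ioc x₀ (x₀ + Y))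
    (hdN : d ∣ N₀) (b : ℤ) {e : ℝ}
    (he0 : 0 < e) (hye : 1 / (y : ℝ) ≤ e) (hy : 1 ≤ y) (V : (∀ i, Om Q i) → ℝ) (i : Ix Q) :
    ∑ h : {h // h ∈ H}, f1 V i (Qd Q y d N₀ (b + h) i)
      ≤ ((Y : ℝ) / ((i : ℕ) : ℝ) + 1) * ((1 + e) * f1 V i (Dp Q i (j0 hQ))) := by
  have hD := isD_Dp i
  have hf0 : 0 ≤ f1 V i (Dp Q i (j0 hQ)) := f1_nonneg V i _ (hD.Dt _) (by
    have := hD.DD (j0 hQ) (j0 hQ); rwa [if_pos rfl] at this)
  have hm0 : 0 ≤ (Y : ℝ) / ((i : ℕ) : ℝ) + 1 := by positivity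
  by_cases hi : (i : ℕ) ∈ Pc Q y N₀
  · have hp := ip_prime i
    have hiN : ¬ (i : ℕ) ∣ N₀ := (Finset.mem_filter.1 hi).2.2
    have hyi : y < (i : ℕ) := (Finset.mem_filter.1 hi).2.1
    have hid : ¬ (i : ℕ) ∣ d := fun hd => hiN (hd.trans hdN)
    set κ : {h // h ∈ H} → Fin (i : ℕ) := fun h => kk d (b + h) i hp with hκ
    have hmult : ∀ k : Fin (i : ℕ), (((Finset.univ : Finset {h // h ∈ H}).filter fun h => κ h = k).card : ℝ)
        ≤ (Y : ℝ) / ((i : ℕ) : ℝ) + 1 := by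
      intro k
      have h1 := AsmW.mult (i : ℕ) hp.pos x₀ Y H hH (-(d * ((k : ℕ) : ℤ) + b))
      refine le_trans ?_ h1
      have h2 : ((Finset.univ : Finset {h // h ∈ H}).filter fun h => κ h = k).card
          ≤ (H.filter fun h => ((i : ℕ) : ℤ) ∣ h - (-(d * ((k : ℕ) : ℤ) + b))).card := by
        refine Finset.card_le_card_of_injOn (fun h => (h : ℤ)) ?_ (fun a _ b _ hab => Subtype.ext hab)
        intro h hh
        have hh' := (Finset.mem_filter.1 (Finset.mem_coe.1 hh)).2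
        refine Finset.mem_coe.2 (Finset.mem_filter.2 ⟨h.2, ?_⟩)
        have h3 := (kk_spec hp hid (b + h) ((k : ℕ) : ℤ)).2 (by
          have : kk d (b + h) i hp = k := hh'
          rw [this, sub_self]; exact dvd_zero _)
        have e : (h : ℤ) - (-(d * ((k : ℕ) : ℤ) + b)) = d * ((k : ℕ) : ℤ) + (b + h) := by ring
        rw [e]; exact h3
      exact_mod_cast h2
    have hcard : Fintype.card (Fin (i : ℕ)) = (i : ℕ) := Fintype.card_fin _
    have hQeq : ∀ h : {h // h ∈ H}, Qd Q y d N₀ (b + h) i = lift Q hp.pos (Ker.Q (κ h)) := fun h => by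
      rw [Qd, if_pos hi]
    simp only [hQeq]
    have hnn : ∀ k : Fin (i : ℕ), 0 ≤ f1 V i (lift Q hp.pos (Ker.Q k)) := fun k => by
      have := isG_col (a := Q) hp hQ k (j0 hQ) rfl
      exact f1_nonneg V i _ this.Qt this.QQ
    have h4 : ∑ h : {h // h ∈ H}, f1 V i (lift Q hp.pos (Ker.Q (κ h)))
        ≤ ((Y : ℝ) / ((i : ℕ) : ℝ) + 1) * ∑ k : Fin (i : ℕ), f1 V i (lift Q hp.pos (Ker.Q k)) := by
      rw [← Finset.sum_fiberwise (Finset.univ : Finset {h // h ∈ H}) κ, Finset.mul_sum]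
      refine Finset.sum_le_sum fun k _ => ?_
      have e : ∑ h ∈ (Finset.univ : Finset {h // h ∈ H}).filter (fun h => κ h = k),
          f1 V i (lift Q hp.pos (Ker.Q (κ h)))
          = (((Finset.univ : Finset {h // h ∈ H}).filter fun h => κ h = k).card : ℝ)
            * f1 V i (lift Q hp.pos (Ker.Q k)) := by
        rw [← nsmul_eq_mul, ← Finset.sum_const]
        refine Finset.sum_congr rfl fun h hh => ?_
        rw [(Finset.mem_filter.1 hh).2]
      rw [e]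
      exact mul_le_mul_of_nonneg_right (hmult k) (hnn k)
    have h5 : ∑ k : Fin (i : ℕ), f1 V i (lift Q hp.pos (Ker.Q k))
        = (((i : ℕ) : ℝ) / (((i : ℕ) : ℝ) - 1)) * f1 V i (Dp Q i (j0 hQ)) := by
      rw [← f1_sum, ← lift_sum, Ker.sum_Q, lift_smul, f1_smul, hcard]
      congr 2
      rw [Dp, DD, j0]
      simp only [zero_add]
      rw [EM_zero, ← lift_E hp.pos, ← lift_one hp.pos, ← lift_sub]
    have hy0 : (0 : ℝ) < y := by exact_mod_cast hy
    have h6 : ((i : ℕ) : ℝ) / (((i : ℕ) : ℝ) - 1) ≤ 1 + e := by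
      have h3 : (y : ℝ) + 1 ≤ ((i : ℕ) : ℝ) := by exact_mod_cast hyi
      have h30 : ((i : ℕ) : ℝ) / (((i : ℕ) : ℝ) - 1) ≤ 1 + 1 / (y : ℝ) := by
        rw [div_le_iff₀ (by linarith)]
        have h4 : (1 + 1 / (y : ℝ)) * (((i : ℕ) : ℝ) - 1) = ((i : ℕ) : ℝ) + ((((i : ℕ) : ℝ) - 1) / y - 1) := by
          field_simp; ring
        rw [h4]
        have h5 : 1 ≤ (((i : ℕ) : ℝ) - 1) / y := by rw [le_div_iff₀ (by linarith)]; linarith
        linarith
      linarith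
    refine h4.trans (mul_le_mul_of_nonneg_left ?_ hm0)
    rw [h5]
    exact mul_le_mul_of_nonneg_right h6 hf0
  · have hQ0 : ∀ h : {h // h ∈ H}, Qd Q y d N₀ (b + h) i = 0 := fun h => by rw [Qd, if_neg hi]
    simp only [hQ0]
    have : f1 V i (0 : Matrix (Om Q i) (Om Q i) ℝ) = 0 := by
      have := f1_smul V i 0 (0 : Matrix (Om Q i) (Om Q i) ℝ)
      simpa using this
    rw [this]
    simp only [Finset.sum_const_zero]
    positivity

/-- the weights -/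
noncomputable def vv (Q : ℕ) (Y : ℝ) (i : Ix Q) : ℝ := BWS.om Y (i : ℕ)

lemma vv_pos {Y : ℝ} (hY : 0 ≤ Y) (i : Ix Q) : 0 < vv Q Y i := BWS.om_pos hY (ip_prime i).one_lt

lemma vv_mul {Y : ℝ} (hY : 0 ≤ Y) (i : Ix Q) : vv Q Y i * (Y / ((i : ℕ) : ℝ) + 1) ≤ lam Q i := by
  unfold vv BWS.om lam
  have : 0 < Y / ((i : ℕ) : ℝ) + 1 := by positivity
  rw [div_mul_cancel₀ _ this.ne']

lemma us_vv {Y : ℝ} (s : Ix Q → Bool) : us (vv Q Y) s = ∑ p ∈ Sums.sset s, BWS.om Y p := by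
  rw [Sums.sset, Finset.sum_image (fun i _ j _ h => Subtype.ext h), Finset.sum_filter, us]
  rfl

lemma sset_empty_iff {P : Finset ℕ} (s : {p // p ∈ P} → Bool) :
    Sums.sset s = ∅ ↔ s = fun _ => false := by
  constructor
  · intro h
    by_contra hne
    exact BWS.sset_ne s hne h
  · rintro rfl
    rw [Sums.sset, Finset.image_eq_empty, Finset.filter_eq_empty_iff]
    intro i _
    simp

/-- upper bound -/
lemma Bv_le (hQ : 1 ≤ Q) {Y L : ℝ} (hY : 0 ≤ Y) (t : Ix Q → Option (Fin Q)) :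
    Bv (om Q) (j0 hQ) (vv Q Y) (gd Q y N₀) L t
      ≤ CoreW.BW (Sums.Om (Pc Q y N₀)) (fun i : {p // p ∈ Pc Q y N₀} => BWS.om Y i) L := by
  classical
  have hcs := cs_nonneg (ω := om Q) (fun i j => om_nonneg i j) t
  rw [Bv_eq (fun i => om_j0 hQ i)]
  set F : Finset ℕ → ℝ := fun S => if S ≠ ∅ ∧ lp S ≤ L then
    Count.g S / (∑ p ∈ S, BWS.om Y p) else 0 with hF
  have hg0 : ∀ S ⊆ Pc Q y N₀, 0 ≤ Count.g S := fun S hS => Sums.g_nonneg (fun p hp => (Pc_prime hp).1) hS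
  have hden : ∀ S ⊆ Pc Q y N₀, 0 ≤ ∑ p ∈ S, BWS.om Y p := fun S hS =>
    Finset.sum_nonneg fun p hp => (BWS.om_pos hY (Pc_prime (hS hp)).1.one_lt).le
  have e1 : CoreW.BW (Sums.Om (Pc Q y N₀)) (fun i : {p // p ∈ Pc Q y N₀} => BWS.om Y i) L
      = ∑ S ∈ (Pc Q y N₀).powerset, F S := by
    rw [← sum_sset, CoreW.BW]
    refine Finset.sum_congr rfl fun σ _ => ?_
    rw [Sums.gg_eq, Sums.uu'_eq (fun p hp => (Pc_prime hp).1), BWS.uw_eq]
    simp only [hF, ne_eq, sset_empty_iff]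
    rfl
  rw [e1]
  have e2 : ∑ S ∈ (Pc Q y N₀).powerset, F S
      = ∑ S ∈ (Count.PP Q).powerset, if S ⊆ Pc Q y N₀ then F S else 0 := by
    have h9 := Finset.sum_filter (s := (Count.PP Q).powerset) (fun S => S ⊆ Pc Q y N₀) F
    rw [← h9]
    refine Finset.sum_congr ?_ (fun S _ => rfl)
    ext S
    rw [Finset.mem_filter, Finset.mem_powerset, Finset.mem_powerset]
    exact ⟨fun h => ⟨h.trans Pc_sub, h⟩, fun h => h.2⟩
  rw [e2, ← sum_sset, Finset.sum_filter]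
  refine Finset.sum_le_sum fun s _ => ?_
  have hF0 : 0 ≤ if Sums.sset s ⊆ Pc Q y N₀ then F (Sums.sset s) else 0 := by
    split_ifs with h
    · simp only [hF]
      split_ifs
      · exact div_nonneg (hg0 _ h) (hden _ h)
      · exact le_rfl
    · exact le_rfl
  by_cases h1 : ∀ i, s i = true → t i = none
  · rw [if_pos h1, us_eq, pg_eq, us_vv]
    by_cases h2 : cs (om Q) t + lp (Sums.sset s) ≤ L ∧ s ≠ (fun _ => false)
    · rw [if_pos h2]
      by_cases h3 : Sums.sset s ⊆ Pc Q y N₀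
      · rw [if_pos h3, if_pos h3]
        simp only [hF]
        rw [if_pos ⟨fun h => h2.2 ((sset_empty_iff s).1 h), by linarith [h2.1]⟩]
      · rw [if_neg h3, zero_div, if_neg h3]
    · rw [if_neg h2]; exact hF0
  · rw [if_neg h1]; exact hF0

end

end Run7.h52.AsmV
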