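import Pool.Agent.Run7.h52.AsmV1
import Pool.Agent.Run7.h52.AsmT3

set_option autoImplicit false
set_option linter.unusedSectionVars false

namespace Run7.h52.AsmV

open Finset Run7.h52.Op Run7.h52.Core Run7.h52.CoreG Run7.h52.Sp Run7.h52.AsmB Run7.h52.Transfer
  Run7.h52.AsmT

/-- one square, one progression, one interval of shifts -/
theorem pieceV {e : ℝ} (he0 : 0 < e) (he1 : e ≤ 1 / 2) {Q R y N d Y : ℕ} (hy : 3 ≤ y)
    (hye : 1 / (y : ℝ) ≤ e) (hR : 1 ≤ R) (hRQ : R ≤ Q) {L : ℝ} (hL0 : 0 < L) (hRL : Real.log R ≤ L)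
    (hLQ : L < Real.log Q) (H : Finset ℤ) {x₀ : ℤ} (hH : H ⊆ Finset.Ioc x₀ (x₀ + Y)) (hd : 1 ≤ d)
    (he3 : Real.log d / (y * Real.log y) ≤ e) (he2 : L / (y * Real.log y) ≤ e)
    {B : ℝ} (hB0 : 0 ≤ B) (hB : ∀ P : Finset ℕ, (∀ p ∈ P, p.Prime ∧ y < p) →
      CoreW.BW (Sums.Om P) (fun i : {p // p ∈ P} => BWS.om Y i) L ≤ B)
    (hE : Er Q ≤ e * N) (hN : 1 ≤ N) (b x : ℤ) (V : ℤ → ℝ) (hV : HasLevel R V) :
    ∑ j ∈ Finset.range N, V (x + j) ^ 2 *
        ((H.filter fun h => ∀ p ∈ Count.PP Q, ¬ (p : ℤ) ∣ d * (x + j) + (b + h)).card : ℝ)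
      ≤ ((1 + e) / (1 - e)) * ((Real.sqrt H.card + Real.sqrt (B * ((1 + e) * L))) ^ 2 /
        (Count.W y * Real.exp (-(2 * e)) * (Real.log Q - L))) *
        ∑ j ∈ Finset.range N, V (x + j) ^ 2 := by
  classical
  have hQ : 1 ≤ Q := hR.trans hRQ
  set q := Real.log Q with hq
  have hW := Count.W_pos y
  have hqL : 0 < q - L := by linarith
  set G₀ : ℝ := Count.W y * Real.exp (-(2 * e)) * (q - L) with hG₀
  have hG0 : 0 < G₀ := by positivity
  set f : ℤ → ℤ → ℝ := fun h n => if Sift Q y d d (b + h) n then V n else 0 with hf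
  set u : {h // h ∈ H} → (∀ i, Om Q i) → ℝ := fun h => push Q x N (f h) with hu
  set Vh : (∀ i, Om Q i) → ℝ := fun z => V (rep Q z) with hVh
  have hper : ∀ n, V (n + MM Q) = V n := level_periodic
    (fun q hq => dvd_MM (Finset.mem_Icc.2 ⟨(Finset.mem_Icc.1 hq).1, (Finset.mem_Icc.1 hq).2.trans hRQ⟩)) hV
  have hVpt : ∀ n : ℤ, Vh (pt Q n) = V n := by
    intro n
    exact per_mul hper (dvd_of_pt_eq (pt_rep (pt Q n)))
  have hlev : LevG (om Q) (Dp Q) L Vh := by
    have := levG_of_level hR hRQ hV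
    intro τ hτ
    exact this τ (by linarith)
  have hcore := coreV (κ := {h // h ∈ H}) (D := Dp Q) (ω := om Q) (lam := lam Q) (j₀ := j0 hQ)
    (g := gd Q y d) (r := rd Q y d) (v := vv Q (Y : ℝ)) (mu := fun i => (Y : ℝ) / ((i : ℕ) : ℝ) + 1)
    (fun i => ne_Om i) (fun i j => om_nonneg i j)
    (fun i => om_j0 hQ i)
    (Qd := fun h => Qd Q y d d (b + h)) (Cd := fun h => Cd Q y d d (b + h))
    (Ad := fun h => Ad Q y d d (b + h)) (Zd := fun h => Zd Q y d d hQ (b + h))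
    (fun h i => isG_all hQ (b + h) i) (fun i => isD_Dp i)
    (fun h i j => by simp only [Zd, sub_add_cancel]) (L := L) (B := B) (G₀ := G₀) (q := q)
    (θ := 1 + e) (fun i => vv_pos (Nat.cast_nonneg Y) i) (fun i => vv_mul (Nat.cast_nonneg Y) i)
    (V := Vh) (u := u) hlev (fun h => supp_ok hQ dvd_rfl (b + h) x N V)
    hB0 hG0 (by linarith)
    (fun i => frameV hQ hH dvd_rfl b he0 hye (by omega) Vh i)
    (fun t _ => (Bv_le hQ (Nat.cast_nonneg Y) t).trans (hB (Pc Q y d) (fun p hp => Pc_prime hp)))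
    (fun t ht => Lq_ge (N₀ := d) hQ hy hd he3 he2 t ht hLQ.le)
  -- the sums
  set S : ℝ := ∑ h : {h // h ∈ H}, ∑ j ∈ Finset.range N, f h (x + j) ^ 2 with hS
  set SV : ℝ := ∑ j ∈ Finset.range N, V (x + j) ^ 2 with hSV
  set A : ℝ := ip Vh Vh with hA
  have hM0 : (0 : ℝ) < MM Q := by exact_mod_cast MM_pos Q
  have hA0 : 0 ≤ A := ip_self_nonneg _
  have hS0 : 0 ≤ S := Finset.sum_nonneg fun _ _ => Finset.sum_nonneg fun _ _ => sq_nonneg _
  have hSV0 : 0 ≤ SV := Finset.sum_nonneg fun _ _ => sq_nonneg _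
  have e1 : ∑ h : {h // h ∈ H}, ip Vh (u h) = S := by
    rw [hS]
    refine Finset.sum_congr rfl fun h _ => ?_
    simp only [hu]
    rw [ip_push]
    refine Finset.sum_congr rfl fun j _ => ?_
    rw [hVpt]
    simp only [hf]
    split_ifs
    · ring
    · ring
  rw [e1] at hcore
  have hnQ : (MM Q : ℝ) * ∑ h : {h // h ∈ H}, nQ (om Q) (Dp Q) q (u h) ≤ (N + Er Q) * S := by
    rw [Finset.mul_sum, hS, Finset.mul_sum]
    exact Finset.sum_le_sum fun h _ => nQ_le hQ x N (f h)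
  have hN0 : (1 : ℝ) ≤ N := by exact_mod_cast hN
  have hLS := LS.large_sieve (MM_pos Q) hR
    (fun q hq => dvd_MM (Finset.mem_Icc.2 ⟨(Finset.mem_Icc.1 hq).1, (Finset.mem_Icc.1 hq).2.trans hRQ⟩)) hV x N
  have hAeq : ∑ n ∈ Finset.range (MM Q), V n ^ 2 = A := by
    rw [hA, ip, sum_rep]
    refine Finset.sum_congr rfl fun n _ => ?_
    rw [hVpt]; ring
  rw [hAeq] at hLS
  have hLS2 := (abs_le.1 hLS).1
  have hA1 : (1 - e) * N * A ≤ MM Q * SV := by
    have h1 : Er R ≤ e * N := (Er_mono hR hRQ).trans hE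
    have h2 : Er R * A ≤ e * N * A := mul_le_mul_of_nonneg_right h1 hA0
    have h3 : -(Er R * A) ≤ MM Q * SV - N * A := hLS2
    nlinarith
  set K : ℝ := Real.sqrt H.card + Real.sqrt (B * ((1 + e) * L)) with hK
  have hK0 : 0 ≤ K := add_nonneg (Real.sqrt_nonneg _) (Real.sqrt_nonneg _)
  have hmain : S ≤ ((1 + e) / (1 - e)) * (K ^ 2 / G₀) * SV := by
    set T : ℝ := ∑ h : {h // h ∈ H}, nQ (om Q) (Dp Q) q (u h) with hT
    have hT0 : 0 ≤ T := Finset.sum_nonneg fun h _ => Finset.sum_nonneg fun τ _ => by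
      split_ifs
      · exact ip_self_nonneg _
      · exact le_rfl
    have hcore' : S ≤ K * nrm Vh * Real.sqrt (T / G₀) := by
      rw [Fintype.card_coe] at hcore
      exact hcore
    have hnV : nrm Vh ^ 2 = A := nrm_sq Vh
    have h1 : S ^ 2 ≤ K ^ 2 * A * (T / G₀) := by
      have h2 : S ^ 2 ≤ (K * nrm Vh * Real.sqrt (T / G₀)) ^ 2 :=
        pow_le_pow_left₀ hS0 hcore' 2
      rw [mul_pow, mul_pow, hnV, Real.sq_sqrt (by positivity)] at h2
      exact h2
    have hMT : (MM Q : ℝ) * T ≤ (1 + e) * N * S := by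
      refine hnQ.trans ?_
      refine mul_le_mul_of_nonneg_right ?_ hS0
      linarith
    have hc : 0 ≤ K ^ 2 / G₀ := by positivity
    have h2 : ((1 - e) * MM Q * S) * S ≤ (K ^ 2 / G₀ * (1 + e) * (MM Q * SV)) * S := by
      calc ((1 - e) * MM Q * S) * S = (1 - e) * (MM Q * S ^ 2) := by ring
        _ ≤ (1 - e) * (MM Q * (K ^ 2 * A * (T / G₀))) := by
            refine mul_le_mul_of_nonneg_left ?_ (by linarith)
            exact mul_le_mul_of_nonneg_left h1 hM0.le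
        _ = (K ^ 2 / G₀) * ((1 - e) * A) * (MM Q * T) := by ring
        _ ≤ (K ^ 2 / G₀) * ((1 - e) * A) * ((1 + e) * N * S) := by
            refine mul_le_mul_of_nonneg_left hMT ?_
            exact mul_nonneg hc (mul_nonneg (by linarith) hA0)
        _ = (K ^ 2 / G₀) * (1 + e) * ((1 - e) * N * A) * S := by ring
        _ ≤ (K ^ 2 / G₀) * (1 + e) * (MM Q * SV) * S := by
            refine mul_le_mul_of_nonneg_right ?_ hS0
            refine mul_le_mul_of_nonneg_left hA1 ?_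
            exact mul_nonneg hc (by linarith)
        _ = _ := by ring
    have he1' : 0 < 1 - e := by linarith
    rcases hS0.eq_or_lt with h3 | h3
    · rw [← h3]
      exact mul_nonneg (mul_nonneg (div_nonneg (by linarith) he1'.le) hc) hSV0
    · have h4 := le_of_mul_le_mul_right h2 h3
      have h5 : (1 - e) * S ≤ K ^ 2 / G₀ * (1 + e) * SV := by
        refine le_of_mul_le_mul_left ?_ hM0
        calc (MM Q : ℝ) * ((1 - e) * S) = (1 - e) * MM Q * S := by ring
          _ ≤ _ := h4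
          _ = _ := by ring
      have h6 : S ≤ K ^ 2 / G₀ * (1 + e) * SV / (1 - e) := by
        rw [le_div_iff₀ he1']
        linarith
      refine h6.trans (le_of_eq ?_)
      ring
  refine le_trans ?_ hmain
  rw [hS, Finset.sum_comm]
  refine Finset.sum_le_sum fun j _ => ?_
  have h1 : ∑ h : {h // h ∈ H}, f h (x + j) ^ 2
      = V (x + j) ^ 2 * ((H.filter fun h => Sift Q y d d (b + h) (x + j)).card : ℝ) := by
    rw [Finset.sum_coe_sort H (fun h => f h (x + j) ^ 2), Finset.card_filter]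
    push_cast
    rw [Finset.mul_sum]
    refine Finset.sum_congr rfl fun h _ => ?_
    simp only [hf]
    split_ifs
    · ring
    · ring
  rw [h1]
  refine mul_le_mul_of_nonneg_left ?_ (sq_nonneg _)
  have h2 : (H.filter fun h => ∀ p ∈ Count.PP Q, ¬ (p : ℤ) ∣ d * (x + j) + (b + h)) ⊆
      (H.filter fun h => Sift Q y d d (b + h) (x + j)) := by
    intro h hh
    rw [Finset.mem_filter] at hh ⊢
    exact ⟨hh.1, fun p hp => hh.2 p (Pc_sub hp)⟩
  exact_mod_cast Finset.card_le_card h2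

end Run7.h52.AsmV
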