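import Pool.Agent.Run7.h52.Asym2

set_option autoImplicit false
set_option linter.unusedSectionVars false

namespace Run7.h52.Asym

open Finset Run7.h52.Count Run7.h52.Rough Run7.h52.Barrier

/-- intervals of length `X ^ ε` -/
theorem power : ∀ ε κ : ℝ, 0 < ε → 0 < κ → ∃ X₀ : ℝ, ∀ X : ℝ, X₀ ≤ X → ∀ Y : ℕ,
    X ^ ε ≤ Y → ∀ z M : ℕ, 0 < M → (∀ p ∈ PP z, p ∣ M) →
    ∀ w : ℤ → ℝ, SW.SquareWeight X M w → ∀ x : ℤ,
    |∑ n ∈ Finset.range M, w n * rg z (Finset.Ioc x (x + Y)) n - W z * Y * ∑ n ∈ Finset.range M, w n|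
      ≤ κ * (W z * Y) * ∑ n ∈ Finset.range M, w n := by
  intro ε κ hε hκ
  set A : ℝ := max 1000 (-(100 * Real.log κ)) with hA
  have hA1 : 1000 ≤ A := le_max_left _ _
  have hA2 : -(100 * Real.log κ) ≤ A := le_max_right _ _
  obtain ⟨X₁, hX₁⟩ := asym A hA1
  have ev : ∀ᶠ X : ℝ in Filter.atTop, (Real.log X) ^ A ≤ X ^ ε := by
    have h1 := (isLittleO_log_rpow_rpow_atTop A hε).def (c := 1) one_pos
    filter_upwards [h1, Filter.eventually_ge_atTop 1] with X h3 h5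
    rw [Real.norm_of_nonneg (Real.rpow_nonneg (Real.log_nonneg h5) _),
      Real.norm_of_nonneg (by positivity)] at h3
    linarith
  obtain ⟨X₂, hX₂⟩ := Filter.eventually_atTop.1 ev
  refine ⟨max X₁ X₂, fun X hX Y hY z M hM hPM w hw x => ?_⟩
  refine (hX₁ X ((le_max_left _ _).trans hX) Y ((hX₂ X ((le_max_right _ _).trans hX)).trans hY)
    z M hM hPM w hw x).trans ?_
  have h1 : Real.exp (-(A / 100)) ≤ κ := by
    have h2 : -(A / 100) ≤ Real.log κ := by linarith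
    calc Real.exp (-(A / 100)) ≤ Real.exp (Real.log κ) := Real.exp_le_exp.2 h2
      _ = κ := Real.exp_log hκ
  refine mul_le_mul_of_nonneg_right (mul_le_mul_of_nonneg_right h1 ?_)
    (Finset.sum_nonneg fun n _ => sw_nonneg hw n)
  exact mul_nonneg (W_pos z).le (Nat.cast_nonneg _)

end Run7.h52.Asym
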