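import Pool.Agent.Run7.h52.AsmV2
import Pool.Agent.Run7.h52.AsmT5
import Pool.Agent.Run7.h52.Asym3

set_option autoImplicit false
set_option linter.unusedSectionVars false

namespace Run7.h52.AsmV

open Finset Run7.h52.Core Run7.h52.Count Run7.h52.Sp Run7.h52.AsmB Run7.h52.Transfer Run7.h52.AsmT
  Run7.h52.Rough

/-- the product of the small primes -/
def W0 (z : ℕ) : ℕ := ∏ p ∈ PP z, p

lemma W0_pos (z : ℕ) : 0 < W0 z := Finset.prod_pos fun p hp => (mem_PP.1 hp).1.pos

lemma W0_le (z : ℕ) : W0 z ≤ 4 ^ z := by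
  refine le_trans (le_of_eq ?_) (primorial_le_four_pow z)
  unfold W0 primorial
  refine Finset.prod_congr ?_ fun _ _ => rfl
  ext p
  rw [mem_PP, Finset.mem_filter, Finset.mem_range]
  constructor
  · rintro ⟨h1, h2⟩; exact ⟨by omega, h1⟩
  · rintro ⟨h1, h2⟩; exact ⟨h2, by omega⟩

lemma log_W0 (z : ℕ) : Real.log (W0 z) ≤ 2 * z := by
  have h0 : (0 : ℝ) < W0 z := by exact_mod_cast W0_pos z
  have h1 : ((W0 z : ℕ) : ℝ) ≤ (4 : ℝ) ^ z := by exact_mod_cast W0_le z
  have h2 := Real.log_le_log h0 h1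
  rw [Real.log_pow] at h2
  have h3 : Real.log 4 = 2 * Real.log 2 := by
    rw [show (4 : ℝ) = 2 ^ 2 by norm_num, Real.log_pow]; norm_num
  rw [h3] at h2
  have h4 := Real.log_two_lt_d9
  have h5 : (0 : ℝ) ≤ z := Nat.cast_nonneg z
  nlinarith

/-- a progression split modulo a multiple of the modulus -/
lemma split_class (d W : ℕ) (hd : 0 < d) (hW : 0 < W) (a n : ℤ) (F : ℝ) :
    (if (d : ℤ) ∣ n - a then F else 0)
      = ∑ r ∈ Finset.range W, (if ((d * W : ℕ) : ℤ) ∣ n - (a + d * (r : ℤ)) then F else 0) := by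
  have hd' : (d : ℤ) ≠ 0 := by exact_mod_cast hd.ne'
  have hW' : (0 : ℤ) < W := by exact_mod_cast hW
  split_ifs with h
  · obtain ⟨m, hm⟩ := h
    have hiff : ∀ r : ℕ, ((d * W : ℕ) : ℤ) ∣ n - (a + d * (r : ℤ)) ↔ (W : ℤ) ∣ m - r := by
      intro r
      have e : n - (a + d * (r : ℤ)) = d * (m - r) := by
        have : n - (a + d * (r : ℤ)) = (n - a) - d * r := by ring
        rw [this, hm]; ring
      rw [e]
      push_cast
      exact mul_dvd_mul_iff_left hd'
    set r₀ : ℕ := (m % (W : ℤ)).toNat with hr₀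
    have hr₀' : (r₀ : ℤ) = m % (W : ℤ) := Int.toNat_of_nonneg (Int.emod_nonneg _ hW'.ne')
    have hr₀lt : r₀ < W := by
      have := Int.emod_lt_of_pos m hW'
      rw [← hr₀'] at this
      exact_mod_cast this
    rw [Finset.sum_eq_single r₀]
    · rw [if_pos]
      rw [hiff, hr₀']
      exact Int.dvd_self_sub_emod
    · intro r hr hne
      rw [if_neg]
      rw [hiff]
      intro h1
      apply hne
      have h2 : (W : ℤ) ∣ (m - r) - (m - r₀) := dvd_sub h1 (by rw [hr₀']; exact Int.dvd_self_sub_emod)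
      have h3 : (m - r) - (m - r₀) = (r₀ : ℤ) - r := by ring
      rw [h3] at h2
      have h4 : (r : ℤ) ≡ r₀ [ZMOD W] := Int.modEq_iff_dvd.2 h2
      have h5 : r ≡ r₀ [MOD W] := (Int.natCast_modEq_iff).1 h4
      exact Nat.ModEq.eq_of_lt_of_lt h5 (Finset.mem_range.1 hr) hr₀lt
    · intro h1
      exact absurd (Finset.mem_range.2 hr₀lt) h1
  · symm
    refine Finset.sum_eq_zero fun r _ => ?_
    rw [if_neg]
    intro h1
    apply h
    have h2 : (d : ℤ) ∣ n - (a + d * (r : ℤ)) := (by push_cast; exact Dvd.intro _ rfl : (d : ℤ) ∣ ((d * W : ℕ) : ℤ)).trans h1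
    have h3 : n - a = (n - (a + d * (r : ℤ))) + d * r := by ring
    rw [h3]
    exact dvd_add h2 (Dvd.intro _ rfl)

/-- analytic input -/
theorem paramsV (e δ c₀ : ℝ) (he0 : 0 < e) (he1 : e ≤ 1 / 2) (hδ : 0 < δ) (hc₀ : 0 < c₀) :
    ∃ l₀ : ℝ, ∀ l : ℝ, l₀ ≤ l → ∀ y Y : ℕ, l ^ (1 + δ) ≤ y → y ≤ Y →
      3 ≤ y ∧ 4 ≤ e * l ∧ 1 / (y : ℝ) ≤ e ∧ l / (y * Real.log y) ≤ e ∧
      ∃ B : ℝ, 0 ≤ B ∧ (∀ L : ℝ, L ≤ l → ∀ P : Finset ℕ, (∀ p ∈ P, p.Prime ∧ y < p) →
        CoreW.BW (Sums.Om P) (fun i : {p // p ∈ P} => BWS.om Y i) L ≤ B) ∧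
      ∀ Hm : ℝ, c₀ * Y / Real.log l ≤ Hm → B * ((1 + e) * l) ≤ (e / 3) ^ 2 * Hm := by
  obtain ⟨C, hC1, hC⟩ := BWS.BW_le
  have ev1 : ∀ᶠ l : ℝ in Filter.atTop,
      2 * C * (1 + C) * ((Real.log l + 1) * Real.log l) ≤ (e ^ 2 / 9 * c₀) * l ^ δ := by
    have h1 := (isLittleO_log_rpow_atTop (by positivity : 0 < δ / 2)).def
      (c := Real.sqrt ((e ^ 2 / 9 * c₀) / (4 * C * (1 + C)))) (by positivity)
    filter_upwards [h1, Filter.eventually_ge_atTop (Real.exp 1)] with l h3 h5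
    have hl0 : 0 < l := (Real.exp_pos 1).trans_le h5
    have hlog : 1 ≤ Real.log l := by rwa [Real.le_log_iff_exp_le hl0]
    rw [Real.norm_of_nonneg (by linarith), Real.norm_of_nonneg (by positivity)] at h3
    have h6 : Real.log l ^ 2 ≤ (e ^ 2 / 9 * c₀) / (4 * C * (1 + C)) * l ^ δ := by
      have h7 := pow_le_pow_left₀ (by linarith) h3 2
      rw [mul_pow, Real.sq_sqrt (by positivity), ← Real.rpow_natCast, ← Real.rpow_natCast (l ^ (δ / 2)), ← Real.rpow_mul hl0.le] at h7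
      have h8 : δ / 2 * ((2 : ℕ) : ℝ) = δ := by push_cast; ring
      rw [h8] at h7
      rw [← Real.rpow_natCast]
      exact h7
    have h8 : (Real.log l + 1) * Real.log l ≤ 2 * Real.log l ^ 2 := by nlinarith
    calc 2 * C * (1 + C) * ((Real.log l + 1) * Real.log l) ≤ 2 * C * (1 + C) * (2 * Real.log l ^ 2) :=
          mul_le_mul_of_nonneg_left h8 (by positivity)
      _ = 4 * C * (1 + C) * Real.log l ^ 2 := by ring
      _ ≤ 4 * C * (1 + C) * ((e ^ 2 / 9 * c₀) / (4 * C * (1 + C)) * l ^ δ) :=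
          mul_le_mul_of_nonneg_left h6 (by positivity)
      _ = _ := by field_simp
  have ev2 : ∀ᶠ l : ℝ in Filter.atTop, 1 / e ≤ l ^ δ :=
    (tendsto_rpow_atTop hδ).eventually_ge_atTop _
  obtain ⟨l₁, hl₁⟩ := Filter.eventually_atTop.1 (ev1.and ev2)
  refine ⟨max l₁ (max 3 (4 / e)), fun l hl y Y hy hY => ?_⟩
  obtain ⟨h1, h2⟩ := hl₁ l ((le_max_left _ _).trans hl)
  have hl3 : 3 ≤ l := (le_max_left _ _).trans ((le_max_right _ _).trans hl)
  have hle : 4 / e ≤ l := (le_max_right _ _).trans ((le_max_right _ _).trans hl)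
  have hl0 : 0 < l := by linarith
  have hlly : l ≤ y := by
    refine le_trans ?_ hy
    calc l = l ^ (1 : ℝ) := (Real.rpow_one l).symm
      _ ≤ l ^ (1 + δ) := Real.rpow_le_rpow_of_exponent_le (by linarith) (by linarith)
  have hy3' : (3 : ℝ) ≤ y := hl3.trans hlly
  have hy3 : 3 ≤ y := by exact_mod_cast hy3'
  have hy0 : (0 : ℝ) < y := by linarith
  have hYy : (y : ℝ) ≤ Y := by exact_mod_cast hY
  have hY0 : (0 : ℝ) < Y := by linarith
  have hlogy : 1 ≤ Real.log y := by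
    rw [Real.le_log_iff_exp_le hy0]
    have := Real.exp_one_lt_d9
    linarith
  have hlogl : 1 ≤ Real.log l := by
    rw [Real.le_log_iff_exp_le hl0]
    have := Real.exp_one_lt_d9
    linarith
  have hlδ : 0 < l ^ δ := Real.rpow_pos_of_pos hl0 _
  have hly : l * l ^ δ ≤ y := by
    calc l * l ^ δ = l ^ (1 + δ) := by rw [Real.rpow_add hl0, Real.rpow_one]
      _ ≤ y := hy
  refine ⟨hy3, ?_, ?_, ?_, C * (Y / y + Real.log l + C), ?_, ?_, ?_⟩
  · rw [div_le_iff₀ he0] at hle; linarith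
  · rw [div_le_iff₀ hy0]
    rw [div_le_iff₀ he0] at hle
    nlinarith
  · rw [div_le_iff₀ (by positivity)]
    rw [div_le_iff₀ he0] at h2
    have h3 : l * 1 ≤ l * (l ^ δ * e) := mul_le_mul_of_nonneg_left h2 hl0.le
    have h4 : l * l ^ δ * e ≤ y * e := mul_le_mul_of_nonneg_right hly he0.le
    have h5 : y * e * 1 ≤ y * e * Real.log y := mul_le_mul_of_nonneg_left hlogy (by positivity)
    nlinarith
  · positivity
  · intro L hL P hP
    refine (hC y hy3 P hP Y L hY0.le).trans ?_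
    have h3 : Real.log (max L (Real.log y) / Real.log y) ≤ Real.log l := by
      refine Real.log_le_log (div_pos (lt_max_of_lt_right (by linarith)) (by linarith)) ?_
      rw [div_le_iff₀ (by linarith)]
      refine max_le ?_ ?_
      · nlinarith
      · nlinarith
    have h4 : 0 ≤ Real.log (max L (Real.log y) / Real.log y) := by
      apply Real.log_nonneg
      rw [le_div_iff₀ (by linarith), one_mul]
      exact le_max_right _ _
    refine mul_le_mul ?_ (by linarith) (by positivity) (by linarith)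
    exact div_le_self (by linarith) hlogy
  · intro Hm hHm
    have h3 : (Y : ℝ) / y + Real.log l + C ≤ (1 + C) * (Y / y + Real.log l) := by
      have h4 : (0 : ℝ) ≤ Y / y := by positivity
      have h5 : C * 1 ≤ C * Real.log l := mul_le_mul_of_nonneg_left hlogl (by linarith)
      nlinarith
    have h6 : (Y / y + Real.log l) * l ≤ (Real.log l + 1) * (Y / l ^ δ) := by
      have h7 : (Y : ℝ) / y * l ≤ Y / l ^ δ := by
        rw [div_mul_eq_mul_div, div_le_div_iff₀ hy0 hlδ]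
        calc (Y : ℝ) * l * l ^ δ = Y * (l * l ^ δ) := by ring
          _ ≤ Y * y := mul_le_mul_of_nonneg_left hly hY0.le
      have h8 : l ≤ Y / l ^ δ := by
        rw [le_div_iff₀ hlδ]; linarith
      have h9 : Real.log l * l ≤ Real.log l * (Y / l ^ δ) := mul_le_mul_of_nonneg_left h8 (by linarith)
      nlinarith
    have h10 : C * (Y / y + Real.log l + C) * ((1 + e) * l)
        ≤ 2 * C * (1 + C) * ((Real.log l + 1) * (Y / l ^ δ)) := by
      calc C * (Y / y + Real.log l + C) * ((1 + e) * l)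
          ≤ C * ((1 + C) * (Y / y + Real.log l)) * (2 * l) := by
            refine mul_le_mul (mul_le_mul_of_nonneg_left h3 (by linarith))
              (mul_le_mul_of_nonneg_right (by linarith) hl0.le) (by positivity) (by positivity)
        _ = 2 * C * (1 + C) * ((Y / y + Real.log l) * l) := by ring
        _ ≤ _ := mul_le_mul_of_nonneg_left h6 (by positivity)
    refine h10.trans ?_
    have h11 : 2 * C * (1 + C) * ((Real.log l + 1) * (Y / l ^ δ)) * (Real.log l * l ^ δ)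
        ≤ (e ^ 2 / 9 * c₀) * l ^ δ * Y := by
      calc 2 * C * (1 + C) * ((Real.log l + 1) * (Y / l ^ δ)) * (Real.log l * l ^ δ)
          = 2 * C * (1 + C) * ((Real.log l + 1) * Real.log l) * Y := by field_simp
        _ ≤ _ := mul_le_mul_of_nonneg_right h1 hY0.le
    have h12 : (e ^ 2 / 9 * c₀) * l ^ δ * Y ≤ (e / 3) ^ 2 * Hm * (Real.log l * l ^ δ) := by
      rw [div_le_iff₀ (by linarith)] at hHm
      calc (e ^ 2 / 9 * c₀) * l ^ δ * Y = e ^ 2 / 9 * l ^ δ * (c₀ * Y) := by ring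
        _ ≤ e ^ 2 / 9 * l ^ δ * (Hm * Real.log l) := mul_le_mul_of_nonneg_left hHm (by positivity)
        _ = _ := by ring
    exact le_of_mul_le_mul_right (h11.trans h12) (by positivity)

end Run7.h52.AsmV
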