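import Pool.Agent.Run7.h52.AsmV3

set_option autoImplicit false
set_option linter.unusedSectionVars false

namespace Run7.h52.AsmV

open Finset Run7.h52.Core Run7.h52.Count Run7.h52.Sp Run7.h52.AsmB Run7.h52.Transfer Run7.h52.AsmT
  Run7.h52.Rough

/-- the constant -/
noncomputable def Ce (θ e : ℝ) : ℝ := (1 + e) ^ 2 / (1 - e) * Real.exp (2 * e) * (2 / (1 - θ - 6 * e))

/-- one square restricted to one progression -/
theorem pieceX {θ e δ : ℝ} (hθ0 : 0 < θ) (he0 : 0 < e) (he1 : e ≤ 1 / 2)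
    (heθ : 6 * e < 1 - θ) (hδ : 0 < δ) (c₀ : ℝ) (hc₀ : 0 < c₀) : ∃ T : ℝ, 3 ≤ T ∧ ∀ N : ℕ, T ≤ N →
    ∀ y Y : ℕ, (Real.log N) ^ (1 + δ) ≤ y → y ≤ Y →
    ∀ Hm : ℝ, c₀ * Y / Real.log (Real.log N) ≤ Hm →
    (∀ n : ℤ, rg ⌊e * Real.log N⌋₊ (Finset.Ioc (0 : ℤ) ((0 : ℤ) + (Y : ℤ))) n ≤ Hm) →
    ∀ (d R : ℕ) (a : ℤ) (V : ℤ → ℝ), 1 ≤ d → 1 ≤ R → (d : ℝ) * (R : ℝ) ^ 2 ≤ (N : ℝ) ^ θ →
    HasLevel R V → ∀ x : ℤ,
    ∑ n ∈ Finset.Ioc x (x + N), (if (d : ℤ) ∣ n - a then V n ^ 2 *
        ((TW.roughShifts (Real.sqrt N) (Finset.Ioc (0 : ℤ) ((0 : ℤ) + (Y : ℤ))) n).card : ℝ) else 0)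
      ≤ Ce θ e * (Hm / (W y * Real.log N)) *
        ∑ n ∈ Finset.Ioc x (x + N), (if (d : ℤ) ∣ n - a then V n ^ 2 else 0) := by
  classical
  obtain ⟨l₁, hpar⟩ := paramsV e δ c₀ he0 he1 hδ hc₀
  have hθ1 : θ < 1 := by linarith
  -- `1 + log t ≤ e t ^ e` for large `t`
  have hlo : ∃ t₀ : ℝ, ∀ t : ℝ, t₀ ≤ t → 1 + Real.log t ≤ e * t ^ e := by
    have h1 := (isLittleO_log_rpow_atTop he0).bound (half_pos he0)
    have h2 := (tendsto_rpow_atTop he0).eventually_ge_atTop (2 / e)
    obtain ⟨t₁, ht₁⟩ := Filter.eventually_atTop.1 (h1.and (h2.and (Filter.eventually_ge_atTop (1 : ℝ))))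
    refine ⟨t₁, fun t ht => ?_⟩
    obtain ⟨h3, h4, h5⟩ := ht₁ t ht
    rw [Real.norm_of_nonneg (Real.log_nonneg h5), Real.norm_of_nonneg (Real.rpow_nonneg (by linarith) _)] at h3
    rw [div_le_iff₀ he0] at h4
    nlinarith
  obtain ⟨t₀, ht₀⟩ := hlo
  set t₁ := max t₀ 1 with ht₁
  have hη0 : 0 < 1 - θ - 2 * e := by linarith
  have hbig : ∃ n₀ : ℝ, ∀ t : ℝ, n₀ ≤ t → 2 * t₁ ≤ t ^ (1 - θ - 2 * e) := by
    have h2 := (tendsto_rpow_atTop hη0).eventually_ge_atTop (2 * t₁)
    exact Filter.eventually_atTop.1 h2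
  obtain ⟨n₀, hn₀⟩ := hbig
  refine ⟨max 3 (max n₀ (Real.exp (max l₁ 4))), le_max_left _ _,
    fun N hN y Y hyl hyY Hm hHm hrg d R a V hd hR hdR hV x => ?_⟩
  have hN3 : 3 ≤ (N : ℝ) := (le_max_left _ _).trans hN
  have hNn₀ : n₀ ≤ N := ((le_max_left _ _).trans (le_max_right _ _)).trans hN
  have hNe : Real.exp (max l₁ 4) ≤ N := ((le_max_right _ _).trans (le_max_right _ _)).trans hN
  have hN1 : (1 : ℝ) ≤ N := by linarith
  have hN0 : (0 : ℝ) < N := by linarith
  set l := Real.log N with hl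
  have hll : max l₁ 4 ≤ l := by rw [hl, Real.le_log_iff_exp_le hN0]; exact hNe
  have hl4 : 4 ≤ l := (le_max_right _ _).trans hll
  have hl0 : 0 < l := by linarith
  obtain ⟨hy3, hel, hye, hyl2, B, hB0, hB, hBH⟩ := hpar l ((le_max_left _ _).trans hll) y Y hyl hyY
  have hBH' := hBH Hm hHm
  have hy1 : (1 : ℝ) < y := by exact_mod_cast (by omega : 1 < y)
  have hy0 : (0 : ℝ) < y := by linarith
  have hly : 0 < Real.log y := Real.log_pos hy1
  have hloglog : 0 < Real.log l := Real.log_pos (by linarith)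
  have hY0 : (0 : ℝ) < Y := by
    have : (y : ℝ) ≤ Y := by exact_mod_cast hyY
    linarith
  have hHm0 : 0 < Hm := lt_of_lt_of_le (by positivity) hHm
  set z := ⌊e * l⌋₊ with hz
  have hzle : (z : ℝ) ≤ e * l := Nat.floor_le (by positivity)
  set H₀ : Finset ℤ := Finset.Ioc (0 : ℤ) ((0 : ℤ) + (Y : ℤ)) with hH₀
  -- sizes
  have hd1 : (1 : ℝ) ≤ d := by exact_mod_cast hd
  have hR1 : (1 : ℝ) ≤ R := by exact_mod_cast hR
  have hd0 : (0 : ℝ) < d := by linarith
  have hdθ : (d : ℝ) ≤ (N : ℝ) ^ θ := by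
    refine le_trans ?_ hdR
    exact le_mul_of_one_le_right hd0.le (one_le_pow₀ hR1)
  have hld0 : 0 ≤ Real.log d := Real.log_nonneg hd1
  have hldθ : Real.log d ≤ θ * l := by
    have := Real.log_le_log hd0 hdθ
    rwa [Real.log_rpow hN0] at this
  -- the refined modulus
  set D : ℕ := d * W0 z with hD
  have hW0 : 0 < W0 z := W0_pos z
  have hDpos : 0 < D := Nat.mul_pos hd hW0
  have hD1 : 1 ≤ D := hDpos
  have hDr0 : (0 : ℝ) < D := by exact_mod_cast hDpos
  have hlW : Real.log (W0 z) ≤ 2 * e * l := by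
    refine (log_W0 z).trans ?_
    linarith
  have hlD : Real.log D ≤ Real.log d + 2 * e * l := by
    rw [hD]
    push_cast
    rw [Real.log_mul hd0.ne' (by exact_mod_cast hW0.ne')]
    linarith
  have hDpow : (D : ℝ) ≤ (N : ℝ) ^ (θ + 2 * e) := by
    rw [← Real.log_le_log_iff hDr0 (Real.rpow_pos_of_pos hN0 _), Real.log_rpow hN0]
    linarith
  have hθe : (θ + 2 * e) * l ≤ 1 * l := mul_le_mul_of_nonneg_right (by linarith) hl0.le
  have hlDl : Real.log D ≤ l := by linarith
  set L : ℝ := (θ * l - Real.log d) / 2 + e * l with hL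
  have hLe : e * l ≤ L := by rw [hL]; linarith
  have hL0 : 0 < L := lt_of_lt_of_le (by positivity) hLe
  have hLl : L ≤ (θ / 2 + e) * l := by rw [hL]; linarith
  have hLl' : L ≤ l := by
    refine hLl.trans ?_
    have : (θ / 2 + e) * l ≤ 1 * l := mul_le_mul_of_nonneg_right (by linarith) hl0.le
    linarith
  have hRL : Real.log R ≤ L := by
    have h1 : Real.log ((d : ℝ) * (R : ℝ) ^ 2) ≤ θ * l := by
      have := Real.log_le_log (by positivity) hdR
      rwa [Real.log_rpow hN0] at this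
    rw [Real.log_mul (by positivity) (by positivity), Real.log_pow] at h1
    push_cast at h1
    have : 0 ≤ e * l := by positivity
    rw [hL]; linarith
  -- one class modulo `D`
  have key : ∀ b : ℤ,
      ∑ n ∈ Finset.Ioc x (x + N), (if (D : ℤ) ∣ n - b then V n ^ 2 *
        ((TW.roughShifts (Real.sqrt N) H₀ n).card : ℝ) else 0)
      ≤ Ce θ e * (Hm / (W y * l)) *
        ∑ n ∈ Finset.Ioc x (x + N), (if (D : ℤ) ∣ n - b then V n ^ 2 else 0) := by
    intro b
    set N' := nn x N D b with hN'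
    have h3 : (N : ℝ) ^ (1 - θ - 2 * e) ≤ N / D := by
      rw [le_div_iff₀ hDr0]
      calc (N : ℝ) ^ (1 - θ - 2 * e) * D ≤ (N : ℝ) ^ (1 - θ - 2 * e) * (N : ℝ) ^ (θ + 2 * e) :=
            mul_le_mul_of_nonneg_left hDpow (Real.rpow_nonneg hN0.le _)
        _ = N := by rw [← Real.rpow_add hN0]; simp
    have h2 : 2 * t₁ ≤ (N : ℝ) ^ (1 - θ - 2 * e) := hn₀ N hNn₀
    have h4 : 1 ≤ t₁ := le_max_right _ _
    have h5 : (N : ℝ) / (2 * D) = (N / D) / 2 := by field_simp
    have hN'1 : (N : ℝ) / (2 * D) ≤ N' := by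
      have h1 := nn_ge x N hD1 b
      rw [h5]
      linarith
    have hN't : t₁ ≤ N' := by
      rw [h5] at hN'1
      linarith
    have hN'0 : (1 : ℝ) ≤ N' := h4.trans hN't
    have hN'pos : (0 : ℝ) < N' := by linarith
    have hN'nat : 1 ≤ N' := by exact_mod_cast hN'0
    have hN'le : N' ≤ N := nn_le x N hD1 b
    have hlN' : l - Real.log D - 1 ≤ Real.log N' := by
      have h1 := Real.log_le_log (by positivity) hN'1
      rw [Real.log_div (by positivity) (by positivity), Real.log_mul (by norm_num) (by positivity)] at h1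
      have := Real.log_two_lt_d9
      linarith
    have hlN'0 : 0 ≤ Real.log N' := Real.log_nonneg hN'0
    set Z : ℝ := (N' : ℝ) ^ ((1 - e) / 2) with hZ
    have hZ1 : 1 ≤ Z := Real.one_le_rpow hN'0 (by linarith)
    set Q : ℕ := ⌊Z⌋₊ with hQ
    have hQZ : (Q : ℝ) ≤ Z := Nat.floor_le (by linarith)
    have hQ1 : 1 ≤ Q := Nat.le_floor (by exact_mod_cast hZ1)
    have hQ1r : (1 : ℝ) ≤ Q := by exact_mod_cast hQ1
    have hQ2 : Z / 2 ≤ Q := by
      have := Nat.lt_floor_add_one Z
      have h2 : (⌊Z⌋₊ : ℝ) = (Q : ℝ) := rfl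
      rw [h2] at this
      linarith
    have hlogZ : Real.log Z = (1 - e) / 2 * Real.log N' := Real.log_rpow hN'pos _
    have hlogQ : (1 - e) / 2 * Real.log N' - 1 ≤ Real.log Q := by
      have h1 := Real.log_le_log (by positivity) hQ2
      rw [Real.log_div (by positivity) (by norm_num), hlogZ] at h1
      have := Real.log_two_lt_d9
      linarith
    have hgap : (1 - θ - 6 * e) / 2 * l ≤ Real.log Q - L := by
      have h1 : (1 - e) / 2 * (l - (Real.log d + 2 * e * l) - 1) ≤ (1 - e) / 2 * Real.log N' :=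
        mul_le_mul_of_nonneg_left (by linarith) (by linarith)
      have h2 : 0 ≤ e * Real.log d := mul_nonneg he0.le hld0
      have h6 : 0 ≤ e ^ 2 * l := by positivity
      rw [hL]
      linarith
    have hgap0 : 0 < (1 - θ - 6 * e) / 2 * l := mul_pos (by linarith) hl0
    have hLQ : L < Real.log Q := by linarith
    have hRQ : R ≤ Q := by
      have h1 : Real.log R < Real.log Q := by linarith
      have h2 := (Real.log_lt_log_iff (by linarith) (by linarith)).1 h1
      exact_mod_cast h2.le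
    have hEr : Er Q ≤ e * N' := by
      have h1 : (Q : ℝ) ^ 2 ≤ (N' : ℝ) ^ (1 - e) := by
        calc (Q : ℝ) ^ 2 ≤ Z ^ 2 := pow_le_pow_left₀ (by linarith) hQZ 2
          _ = (N' : ℝ) ^ (1 - e) := by
              rw [hZ, ← Real.rpow_natCast, ← Real.rpow_mul hN'pos.le]
              congr 1
              push_cast; ring
      have h2 : (1 : ℝ) ≤ (Q : ℝ) ^ 2 := one_le_pow₀ hQ1r
      have h3 : Real.log ((Q : ℝ) ^ 2) ≤ Real.log N' := by
        refine Real.log_le_log (by linarith) (h1.trans ?_)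
        calc (N' : ℝ) ^ (1 - e) ≤ (N' : ℝ) ^ (1 : ℝ) := Real.rpow_le_rpow_of_exponent_le hN'0 (by linarith)
          _ = N' := Real.rpow_one _
      have h4 := Real.log_nonneg h2
      have h5 : 1 + Real.log N' ≤ e * (N' : ℝ) ^ e := ht₀ N' ((le_max_left _ _).trans hN't)
      calc Er Q = (Q : ℝ) ^ 2 * (1 + Real.log ((Q : ℝ) ^ 2)) := rfl
        _ ≤ (N' : ℝ) ^ (1 - e) * (e * (N' : ℝ) ^ e) :=
            mul_le_mul h1 (by linarith) (by linarith) (by positivity)
        _ = e * ((N' : ℝ) ^ (1 - e) * (N' : ℝ) ^ e) := by ring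
        _ = e * N' := by rw [← Real.rpow_add hN'pos]; simp
    have hDy : Real.log D / (y * Real.log y) ≤ e :=
      (div_le_div_of_nonneg_right hlDl (by positivity)).trans hyl2
    have hLy : L / (y * Real.log y) ≤ e :=
      (div_le_div_of_nonneg_right hLl' (by positivity)).trans hyl2
    set H : Finset ℤ := SW.survivors (PP z) H₀ b with hH
    have hHsub : H ⊆ Finset.Ioc (0 : ℤ) ((0 : ℤ) + (Y : ℤ)) := by
      rw [hH]; unfold SW.survivors; exact Finset.filter_subset _ _
    have hHcard : (H.card : ℝ) ≤ Hm := hrg b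
    have hP := pieceV he0 he1 hy3 hye hR hRQ hL0 hRL hLQ H hHsub hD1 hDy hLy hB0
      (fun P hP => hB L hLl' P hP) hEr hN'nat b (m0 x D b)
      (fun m => V (b + D * m)) (level_prog hV D b)
    rw [sum_prog x N hD1 b (fun n => V n ^ 2 * ((TW.roughShifts (Real.sqrt N) H₀ n).card : ℝ)),
      sum_prog x N hD1 b (fun n => V n ^ 2)]
    have hS0 : 0 ≤ ∑ j ∈ Finset.range N', V (b + D * (m0 x D b + j)) ^ 2 :=
      Finset.sum_nonneg fun _ _ => sq_nonneg _
    have hWy := W_pos y
    have hzN : (z : ℝ) ≤ Real.sqrt N := by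
      have h6 : l ≤ Real.sqrt N := by
        have h13 : 0 < Real.sqrt (N : ℝ) := Real.sqrt_pos.2 hN0
        have h14 := Real.add_one_le_exp (Real.log (Real.sqrt (N : ℝ)) - 1)
        rw [Real.exp_sub, Real.exp_log h13] at h14
        have h15 : Real.sqrt (N : ℝ) / Real.exp 1 ≤ Real.sqrt N / 2 :=
          div_le_div_of_nonneg_left (Real.sqrt_nonneg _) (by norm_num) (by linarith [Real.exp_one_gt_d9])
        rw [Real.log_sqrt hN0.le] at h14
        linarith
      have h7 : e * l ≤ 1 * l := mul_le_mul_of_nonneg_right (by linarith) hl0.le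
      linarith
    have hK : (Real.sqrt H.card + Real.sqrt (B * ((1 + e) * L))) ^ 2 ≤ (1 + e) * Hm := by
      have h6 : Real.sqrt H.card ≤ Real.sqrt Hm := Real.sqrt_le_sqrt hHcard
      have h7 : Real.sqrt (B * ((1 + e) * L)) ≤ e / 3 * Real.sqrt Hm := by
        have h8 : B * ((1 + e) * L) ≤ (e / 3) ^ 2 * Hm := by
          refine le_trans ?_ hBH'
          refine mul_le_mul_of_nonneg_left ?_ hB0
          exact mul_le_mul_of_nonneg_left hLl' (by linarith)
        refine (Real.sqrt_le_sqrt h8).trans (le_of_eq ?_)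
        rw [Real.sqrt_mul (by positivity), Real.sqrt_sq (by positivity)]
      have h9 : Real.sqrt H.card + Real.sqrt (B * ((1 + e) * L)) ≤ (1 + e / 3) * Real.sqrt Hm := by
        linarith
      calc (Real.sqrt H.card + Real.sqrt (B * ((1 + e) * L))) ^ 2
          ≤ ((1 + e / 3) * Real.sqrt Hm) ^ 2 := pow_le_pow_left₀
            (add_nonneg (Real.sqrt_nonneg _) (Real.sqrt_nonneg _)) h9 2
        _ = (1 + e / 3) ^ 2 * Hm := by rw [mul_pow, Real.sq_sqrt hHm0.le]
        _ ≤ _ := by
            refine mul_le_mul_of_nonneg_right ?_ hHm0.le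
            have h10 : e * e ≤ 1 / 2 * e := mul_le_mul_of_nonneg_right he1 he0.le
            linarith
    have hden : W y * Real.exp (-(2 * e)) * ((1 - θ - 6 * e) / 2 * l)
        ≤ W y * Real.exp (-(2 * e)) * (Real.log Q - L) :=
      mul_le_mul_of_nonneg_left hgap (mul_pos hWy (Real.exp_pos _)).le
    have hden0 : 0 < W y * Real.exp (-(2 * e)) * ((1 - θ - 6 * e) / 2 * l) :=
      mul_pos (mul_pos hWy (Real.exp_pos _)) hgap0
    calc ∑ j ∈ Finset.range N', V (b + D * (m0 x D b + j)) ^ 2 *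
            ((TW.roughShifts (Real.sqrt N) H₀ (b + D * (m0 x D b + j))).card : ℝ)
        ≤ ∑ j ∈ Finset.range N', V (b + D * (m0 x D b + j)) ^ 2 *
          ((H.filter fun h => ∀ p ∈ Count.PP Q, ¬ (p : ℤ) ∣ D * (m0 x D b + j) + (b + h)).card : ℝ) := by
          refine Finset.sum_le_sum fun j _ => mul_le_mul_of_nonneg_left ?_ (sq_nonneg _)
          have h2 : TW.roughShifts (Real.sqrt N) H₀ (b + D * (m0 x D b + j)) ⊆
              (H.filter fun h => ∀ p ∈ Count.PP Q, ¬ (p : ℤ) ∣ D * (m0 x D b + j) + (b + h)) := by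
            intro h hh
            unfold TW.roughShifts at hh
            rw [Finset.mem_filter] at hh ⊢
            refine ⟨?_, fun p hp => ?_⟩
            · rw [hH]
              unfold SW.survivors
              rw [Finset.mem_filter]
              refine ⟨hh.1, fun p hp hd => ?_⟩
              have hp' := mem_PP.1 hp
              refine hh.2 p hp'.1 ?_ ?_
              · have : (p : ℝ) ≤ z := by exact_mod_cast hp'.2
                linarith
              · have h7 : (p : ℤ) ∣ (D : ℤ) := by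
                  have h8 : p ∣ D := by
                    rw [hD]
                    exact Dvd.dvd.mul_left (Finset.dvd_prod_of_mem (fun p => p) hp) _
                  exact_mod_cast h8
                have h9 : b + D * (m0 x D b + j) + h = D * (m0 x D b + j) + (b + h) := by ring
                rw [h9]
                exact dvd_add (h7.mul_right _) hd
            · rw [Finset.mem_filter, Finset.mem_Icc] at hp
              have h3 : (p : ℝ) ≤ Real.sqrt N := by
                have h4 : (p : ℝ) ≤ Z := by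
                  have : (p : ℝ) ≤ Q := by exact_mod_cast hp.1.2
                  linarith
                refine h4.trans ?_
                rw [Real.sqrt_eq_rpow, hZ]
                calc (N' : ℝ) ^ ((1 - e) / 2) ≤ (N' : ℝ) ^ (1 / 2 : ℝ) :=
                      Real.rpow_le_rpow_of_exponent_le hN'0 (by linarith)
                  _ ≤ (N : ℝ) ^ (1 / 2 : ℝ) :=
                      Real.rpow_le_rpow hN'pos.le (by exact_mod_cast hN'le) (by norm_num)
              have h5 := hh.2 p hp.2 h3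
              have h6 : (D : ℤ) * (m0 x D b + j) + (b + h) = b + D * (m0 x D b + j) + h := by ring
              rw [h6]; exact h5
          exact_mod_cast Finset.card_le_card h2
      _ ≤ _ := hP
      _ ≤ _ := by
          refine mul_le_mul_of_nonneg_right ?_ hS0
          have he1' : 0 < 1 - e := by linarith
          have h6 : (Real.sqrt H.card + Real.sqrt (B * ((1 + e) * L))) ^ 2 /
              (W y * Real.exp (-(2 * e)) * (Real.log Q - L))
              ≤ (1 + e) * Hm / (W y * Real.exp (-(2 * e)) * ((1 - θ - 6 * e) / 2 * l)) :=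
            div_le_div₀ (by positivity) hK hden0 hden
          refine (mul_le_mul_of_nonneg_left h6 (div_nonneg (by linarith) he1'.le)).trans (le_of_eq ?_)
          unfold Ce
          rw [Real.exp_neg]
          have h7 := (Real.exp_pos (2 * e)).ne'
          have h8 : 1 - θ - 6 * e ≠ 0 := by linarith
          have h9 : 1 - e ≠ 0 := he1'.ne'
          field_simp
  -- the classes together
  have hsplit : ∀ F : ℤ → ℝ, ∑ n ∈ Finset.Ioc x (x + N), (if (d : ℤ) ∣ n - a then F n else 0)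
      = ∑ r ∈ Finset.range (W0 z), ∑ n ∈ Finset.Ioc x (x + N),
        (if (D : ℤ) ∣ n - (a + d * (r : ℤ)) then F n else 0) := by
    intro F
    rw [Finset.sum_comm]
    exact Finset.sum_congr rfl fun n _ => split_class d (W0 z) hd hW0 a n (F n)
  rw [hsplit (fun n => V n ^ 2 * ((TW.roughShifts (Real.sqrt N) H₀ n).card : ℝ)),
    hsplit (fun n => V n ^ 2), Finset.mul_sum]
  exact Finset.sum_le_sum fun r _ => key _

end Run7.h52.AsmV
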