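import Pool.Agent.Run7.h52.AsmV4

set_option autoImplicit false
set_option linter.unusedSectionVars false

namespace Run7.h52.AsmV

open Finset Run7.h52.Core Run7.h52.Count Run7.h52.Sp Run7.h52.AsmB Run7.h52.Transfer Run7.h52.AsmT
  Run7.h52.Rough

/-- the product over the primes between `z` and `y` -/
lemma W_ratio : ∃ C : ℝ, 0 ≤ C ∧ ∀ z y : ℕ, 3 ≤ z → z ≤ y →
    W z ≤ Real.exp ((Real.log y - Real.log z + C) / Real.log z + 1 / z) * W y := by
  obtain ⟨C, hC⟩ := Pool.Agent.Helper256.KM.mertens_log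
  have hC0 : 0 ≤ C := (abs_nonneg _).trans (hC 1 le_rfl)
  refine ⟨2 * C, by positivity, fun z y hz hzy => ?_⟩
  have hz0 : (0 : ℝ) < z := by exact_mod_cast (by omega : 0 < z)
  have hz1 : (1 : ℝ) < z := by exact_mod_cast (by omega : 1 < z)
  have hlz : 0 < Real.log z := Real.log_pos hz1
  set P := (PP y).filter (fun p => z < p) with hP
  have hPp : ∀ p ∈ P, p.Prime ∧ z < p ∧ p ≤ y := fun p hp => by
    rw [hP, Finset.mem_filter, mem_PP] at hp
    exact ⟨hp.1.1, hp.2, hp.1.2⟩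
  have h1 : 1 ≤ Real.exp (∑ p ∈ P, 1 / ((p : ℝ) - 1)) * ∏ p ∈ P, (1 - 1 / (p : ℝ)) := by
    rw [Real.exp_sum, ← Finset.prod_mul_distrib]
    refine le_trans (le_of_eq (Finset.prod_const_one (s := P)).symm) ?_
    refine Finset.prod_le_prod (fun _ _ => zero_le_one) fun p hp => ?_
    have hp2 : (2 : ℝ) ≤ p := by exact_mod_cast (hPp p hp).1.two_le
    have h2 := Real.add_one_le_exp (1 / ((p : ℝ) - 1))
    have h3 : (1 / ((p : ℝ) - 1) + 1) * (1 - 1 / (p : ℝ)) = 1 := by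
      have h5 : (p : ℝ) - 1 ≠ 0 := by intro h; linarith
      have h6 : (p : ℝ) ≠ 0 := by intro h; linarith
      field_simp
      ring
    have h4 : 0 ≤ 1 - 1 / (p : ℝ) := by
      have : 1 / (p : ℝ) ≤ 1 := by rw [div_le_one (by linarith)]; linarith
      linarith
    calc (1 : ℝ) = (1 / ((p : ℝ) - 1) + 1) * (1 - 1 / (p : ℝ)) := h3.symm
      _ ≤ _ := mul_le_mul_of_nonneg_right h2 h4
  have h2 : ∑ p ∈ P, 1 / ((p : ℝ) - 1) ≤ (Real.log y - Real.log z + 2 * C) / Real.log z + 1 / z := by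
    have h4 : ∀ p ∈ P, 1 / ((p : ℝ) - 1) = 1 / (p : ℝ) + 1 / ((p : ℝ) * (p - 1)) := by
      intro p hp
      have hp2 : (2 : ℝ) ≤ p := by exact_mod_cast (hPp p hp).1.two_le
      have h5 : (p : ℝ) - 1 ≠ 0 := by intro h; linarith
      have h6 : (p : ℝ) ≠ 0 := by intro h; linarith
      field_simp
      ring
    rw [Finset.sum_congr rfl h4, Finset.sum_add_distrib]
    have h6 : ∑ p ∈ P, 1 / ((p : ℝ) * (p - 1)) ≤ 1 / z := by
      have h7 := sum_tele z (by omega) y hzy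
      have h8 : ∑ p ∈ P, 1 / ((p : ℝ) * (p - 1)) ≤ ∑ n ∈ Finset.Ioc z y, 1 / ((n : ℝ) * (n - 1)) := by
        refine Finset.sum_le_sum_of_subset_of_nonneg ?_ ?_
        · intro p hp
          rw [Finset.mem_Ioc]
          exact ⟨(hPp p hp).2.1, (hPp p hp).2.2⟩
        · intro n hn _
          rw [Finset.mem_Ioc] at hn
          have : (2 : ℝ) ≤ n := by exact_mod_cast (by omega : 2 ≤ n)
          exact div_nonneg zero_le_one (mul_nonneg (by linarith) (by linarith))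
      have h9 : (0 : ℝ) ≤ 1 / (y : ℝ) := by positivity
      linarith
    have h7 : ∑ p ∈ P, 1 / (p : ℝ) ≤ (Real.log y - Real.log z + 2 * C) / Real.log z := by
      rw [le_div_iff₀ hlz]
      have h8 : (∑ p ∈ P, 1 / (p : ℝ)) * Real.log z ≤ ∑ p ∈ P, Real.log p / p := by
        rw [Finset.sum_mul]
        refine Finset.sum_le_sum fun p hp => ?_
        have hp2 : (2 : ℝ) ≤ p := by exact_mod_cast (hPp p hp).1.two_le
        have h9 : Real.log z ≤ Real.log p := Real.log_le_log hz0 (by exact_mod_cast (hPp p hp).2.1.le)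
        rw [one_div_mul_eq_div]
        exact div_le_div_of_nonneg_right h9 (by linarith)
      have h9 : ∑ p ∈ P, Real.log p / p + ∑ p ∈ (Finset.Icc 1 z).filter Nat.Prime, Real.log p / p
          ≤ ∑ p ∈ (Finset.Icc 1 y).filter Nat.Prime, Real.log p / p := by
        rw [← Finset.sum_union]
        · refine Finset.sum_le_sum_of_subset_of_nonneg ?_ (fun p _ _ => by positivity)
          intro p hp
          rcases Finset.mem_union.1 hp with hp | hp
          · exact Finset.mem_filter.2 ⟨Finset.mem_Icc.2 ⟨(hPp p hp).1.one_lt.le, (hPp p hp).2.2⟩, (hPp p hp).1⟩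
          · rw [Finset.mem_filter, Finset.mem_Icc] at hp ⊢
            exact ⟨⟨hp.1.1, hp.1.2.trans hzy⟩, hp.2⟩
        · rw [Finset.disjoint_left]
          intro p hp hp'
          rw [Finset.mem_filter, Finset.mem_Icc] at hp'
          have := (hPp p hp).2.1
          omega
      have h10 := (abs_le.1 (hC y (by omega))).2
      have h11 := (abs_le.1 (hC z (by omega))).1
      linarith
    linarith
  rw [Asym.W_split hzy]
  have h3 : 1 ≤ Real.exp ((Real.log y - Real.log z + 2 * C) / Real.log z + 1 / z)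
      * ∏ p ∈ P, (1 - 1 / (p : ℝ)) := by
    refine h1.trans (mul_le_mul_of_nonneg_right (Real.exp_le_exp.2 h2) ?_)
    refine Finset.prod_nonneg fun p hp => ?_
    have hp2 : (2 : ℝ) ≤ p := by exact_mod_cast (hPp p hp).1.two_le
    have : 1 / (p : ℝ) ≤ 1 := by rw [div_le_one (by linarith)]; linarith
    linarith
  calc W z = 1 * W z := (one_mul _).symm
    _ ≤ _ := mul_le_mul_of_nonneg_right h3 (W_pos z).le
    _ = _ := by ring

/-- all squares together -/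
theorem mainX {θ e δ : ℝ} (hθ0 : 0 < θ) (he0 : 0 < e) (he1 : e ≤ 1 / 2)
    (heθ : 6 * e < 1 - θ) (hδ : 0 < δ) (c₀ : ℝ) (hc₀ : 0 < c₀) : ∃ T : ℝ, 3 ≤ T ∧ ∀ N : ℕ, T ≤ N →
    ∀ y Y : ℕ, (Real.log N) ^ (1 + δ) ≤ y → y ≤ Y →
    ∀ Hm : ℝ, c₀ * Y / Real.log (Real.log N) ≤ Hm →
    (∀ n : ℤ, rg ⌊e * Real.log N⌋₊ (Finset.Ioc (0 : ℤ) ((0 : ℤ) + (Y : ℤ))) n ≤ Hm) →
    ∀ w : ℤ → ℝ, TW.SquareWeight ((N : ℝ) ^ θ) w → ∀ x : ℤ,
    ∑ n ∈ Finset.Ioc x (x + N), w n *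
        ((TW.roughShifts (Real.sqrt N) (Finset.Ioc (0 : ℤ) ((0 : ℤ) + (Y : ℤ))) n).card : ℝ)
      ≤ Ce θ e * (Hm / (W y * Real.log N)) * ∑ n ∈ Finset.Ioc x (x + N), w n := by
  classical
  obtain ⟨T, hT3, hT⟩ := pieceX hθ0 he0 he1 heθ hδ c₀ hc₀
  refine ⟨T, hT3, fun N hN y Y hyl hyY Hm hHm hrg w hw x => ?_⟩
  obtain ⟨J, d, R, a, V, hJ, hw⟩ := hw
  simp only [hw]
  have e1 : ∑ n ∈ Finset.Ioc x (x + N), ∑ j, (if (d j : ℤ) ∣ n - a j then V j n ^ 2 else 0)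
      = ∑ j, ∑ n ∈ Finset.Ioc x (x + N), (if (d j : ℤ) ∣ n - a j then V j n ^ 2 else 0) :=
    Finset.sum_comm
  have e2 : ∑ n ∈ Finset.Ioc x (x + N), (∑ j, (if (d j : ℤ) ∣ n - a j then V j n ^ 2 else 0)) *
      ((TW.roughShifts (Real.sqrt N) (Finset.Ioc (0 : ℤ) ((0 : ℤ) + (Y : ℤ))) n).card : ℝ)
      = ∑ j, ∑ n ∈ Finset.Ioc x (x + N), (if (d j : ℤ) ∣ n - a j then V j n ^ 2 *
        ((TW.roughShifts (Real.sqrt N) (Finset.Ioc (0 : ℤ) ((0 : ℤ) + (Y : ℤ))) n).card : ℝ) else 0) := by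
    rw [Finset.sum_comm]
    refine Finset.sum_congr rfl fun n _ => ?_
    rw [Finset.sum_mul]
    refine Finset.sum_congr rfl fun j _ => ?_
    rw [ite_mul, zero_mul]
  rw [e1, e2, Finset.mul_sum]
  refine Finset.sum_le_sum fun j _ => ?_
  obtain ⟨h1, h2, h3, h4⟩ := hJ j
  exact hT N hN y Y hyl hyY Hm hHm hrg (d j) (R j) (a j) (V j) h1 h2 h3 h4 x

lemma sw_nonneg {X : ℝ} {w : ℤ → ℝ} (hw : TW.SquareWeight X w) (n : ℤ) : 0 ≤ w n := by
  obtain ⟨J, d, R, a, V, _, hw⟩ := hw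
  rw [hw]
  exact Finset.sum_nonneg fun j _ => by split_ifs <;> positivity

end Run7.h52.AsmV
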