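import Pool.Agent.Run7.h52.AsmV5

set_option autoImplicit false
set_option linter.unusedSectionVars false

namespace Run7.h52.AsmV

open Finset Run7.h52.Core Run7.h52.Count Run7.h52.Sp Run7.h52.AsmB Run7.h52.Transfer Run7.h52.AsmT
  Run7.h52.Rough

lemma floor_facts {e l : ℝ} (he0 : 0 < e) (he1 : e ≤ 1 / 2) (hel : 4 ≤ e * l) (h2 : (2 / e) ^ 2 ≤ l) :
    3 ≤ ⌊e * l⌋₊ ∧ (⌊e * l⌋₊ : ℝ) ≤ l ∧ Real.log l / 2 ≤ Real.log ⌊e * l⌋₊ ∧
      Real.log l - Real.log (2 / e) ≤ Real.log ⌊e * l⌋₊ := by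
  have hl0 : 0 < l := by
    by_contra h
    push Not at h
    nlinarith
  have h1 : ((3 : ℕ) : ℝ) ≤ e * l := by push_cast; linarith
  have h3 : 3 ≤ ⌊e * l⌋₊ := Nat.le_floor h1
  have h4 : (⌊e * l⌋₊ : ℝ) ≤ e * l := Nat.floor_le (by positivity)
  have h5 : e * l / 2 ≤ (⌊e * l⌋₊ : ℝ) := by
    have := Nat.lt_floor_add_one (e * l)
    linarith
  have h6 : Real.log l - Real.log (2 / e) ≤ Real.log ⌊e * l⌋₊ := by
    have h7 := Real.log_le_log (by positivity) h5
    have h8 : e * l / 2 = l / (2 / e) := by field_simp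
    rw [h8, Real.log_div hl0.ne' (by positivity)] at h7
    exact h7
  refine ⟨h3, ?_, ?_, h6⟩
  · have : e * l ≤ 1 * l := mul_le_mul_of_nonneg_right (by linarith) hl0.le
    linarith
  · have h7 := Real.log_le_log (by positivity) h2
    rw [Real.log_pow] at h7
    push_cast at h7
    linarith

/-- the order of magnitude -/
theorem partI (θ δ : ℝ) (hθ0 : 0 < θ) (hθ1 : θ < 1) (hδ : 0 < δ) :
    ∃ C : ℝ, 0 < C ∧ ∃ T : ℝ, ∀ N : ℕ, T ≤ N → ∀ Y : ℕ, (Real.log N) ^ (1 + δ) ≤ Y →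
    ∀ w : ℤ → ℝ, TW.SquareWeight ((N : ℝ) ^ θ) w → ∀ x : ℤ,
    ∑ n ∈ Finset.Ioc x (x + N), w n *
        ((TW.roughShifts (Real.sqrt N) (Finset.Ioc (0 : ℤ) ((0 : ℤ) + (Y : ℤ))) n).card : ℝ)
      ≤ C * (Y / Real.log N) * ∑ n ∈ Finset.Ioc x (x + N), w n := by
  set e : ℝ := (1 - θ) / 12 with he
  have he0 : 0 < e := by rw [he]; linarith
  have he1 : e ≤ 1 / 2 := by rw [he]; linarith
  have heθ : 6 * e < 1 - θ := by rw [he]; linarith
  obtain ⟨C₁, hC₁, hup⟩ := Asym.rough_up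
  obtain ⟨c, hc, hWc⟩ := AsmA.W_log
  have hδ2 : 0 < δ / 2 := by positivity
  obtain ⟨T, hT3, hT⟩ := mainX hθ0 he0 he1 heθ hδ2 C₁ hC₁
  have ev1 : ∀ᶠ l : ℝ in Filter.atTop, 2 ≤ l ^ (δ / 2) :=
    (tendsto_rpow_atTop hδ2).eventually_ge_atTop 2
  obtain ⟨l₀, hl₀⟩ := Filter.eventually_atTop.1 ev1
  have hCe : 0 < Ce θ e := by
    unfold Ce
    have h1 : 0 < 1 - e := by linarith
    have h2 : 0 < 1 - θ - 6 * e := by linarith
    positivity
  refine ⟨Ce θ e * (2 * C₁ * (2 + δ) / c), by positivity,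
    max T (Real.exp (max l₀ (max (4 / e) ((2 / e) ^ 2)))), fun N hN Y hY w hw x => ?_⟩
  have hNT : T ≤ N := (le_max_left _ _).trans hN
  have hN3 : 3 ≤ (N : ℝ) := hT3.trans hNT
  have hN0 : (0 : ℝ) < N := by linarith
  set l := Real.log N with hl
  have hll : max l₀ (max (4 / e) ((2 / e) ^ 2)) ≤ l := by
    rw [hl, Real.le_log_iff_exp_le hN0]; exact (le_max_right _ _).trans hN
  have hl2 := hl₀ l ((le_max_left _ _).trans hll)
  have hel : 4 ≤ e * l := by
    have h1 : 4 / e ≤ l := (le_max_left _ _).trans ((le_max_right _ _).trans hll)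
    rw [div_le_iff₀ he0] at h1; linarith
  have h2e : (2 / e) ^ 2 ≤ l := (le_max_right _ _).trans ((le_max_right _ _).trans hll)
  obtain ⟨hz3, hzl, hzlog, _⟩ := floor_facts he0 he1 hel h2e
  set z := ⌊e * l⌋₊ with hz
  have hz3r : (3 : ℝ) ≤ z := by exact_mod_cast hz3
  have hl3 : 3 ≤ l := by linarith
  have hl0 : 0 < l := by linarith
  have hlogl : 0 < Real.log l := Real.log_pos (by linarith)
  set t : ℝ := l ^ (1 + δ / 2) with ht
  have hlt : l ≤ t := by
    calc l = l ^ (1 : ℝ) := (Real.rpow_one l).symm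
      _ ≤ l ^ (1 + δ / 2) := Real.rpow_le_rpow_of_exponent_le (by linarith) (by linarith)
  set y : ℕ := ⌈t⌉₊ with hy
  have hty : t ≤ y := Nat.le_ceil _
  have hy1 : (y : ℝ) ≤ t + 1 := (Nat.ceil_lt_add_one (by linarith)).le
  have ht2 : 2 * t ≤ Y := by
    refine le_trans ?_ hY
    have h1 : l ^ (1 + δ) = t * l ^ (δ / 2) := by
      rw [ht, ← Real.rpow_add hl0]; congr 1; ring
    rw [h1]
    nlinarith
  have hyY : y ≤ Y := by
    have : (y : ℝ) ≤ Y := by linarith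
    exact_mod_cast this
  have hy3 : 3 ≤ y := by
    have : (3 : ℝ) ≤ y := by linarith
    exact_mod_cast this
  have hzY : z ≤ Y := by
    have : (z : ℝ) ≤ Y := by linarith
    exact_mod_cast this
  have hlz : 0 < Real.log z := Real.log_pos (by linarith)
  have hlzl : Real.log z ≤ Real.log l := Real.log_le_log (by linarith) hzl
  have hY0 : (0 : ℝ) ≤ Y := Nat.cast_nonneg _
  have h1 := hT N hNT y Y hty hyY (C₁ * (Y / Real.log z))
    (by rw [mul_div_assoc]
        exact mul_le_mul_of_nonneg_left (div_le_div_of_nonneg_left hY0 hlz hlzl) hC₁.le)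
    (fun n => hup Y z (by omega) hzY 0 n) w hw x
  rw [← hl] at h1
  have hS0 : 0 ≤ ∑ n ∈ Finset.Ioc x (x + N), w n := Finset.sum_nonneg fun n _ => sw_nonneg hw n
  refine h1.trans (mul_le_mul_of_nonneg_right ?_ hS0)
  rw [mul_assoc]
  refine mul_le_mul_of_nonneg_left ?_ hCe.le
  have hWy := W_pos y
  have hWl := hWc y hy3
  have hlogy : 0 < Real.log y := Real.log_pos (by linarith)
  have hlogy2 : Real.log y ≤ (2 + δ) * Real.log l := by
    have h2 : (y : ℝ) ≤ l * t := by nlinarith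
    have h3 := Real.log_le_log (by linarith) h2
    rw [Real.log_mul hl0.ne' (by linarith), ht, Real.log_rpow hl0] at h3
    have h4 : 0 ≤ δ / 2 * Real.log l := by positivity
    linarith
  rw [div_le_iff₀ (by positivity)]
  have h5 : C₁ * (Y / Real.log z) ≤ 2 * C₁ * Y / Real.log l := by
    have : (Y : ℝ) / Real.log z ≤ Y / (Real.log l / 2) :=
      div_le_div_of_nonneg_left hY0 (by positivity) hzlog
    calc C₁ * (Y / Real.log z) ≤ C₁ * (Y / (Real.log l / 2)) := mul_le_mul_of_nonneg_left this hC₁.le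
      _ = _ := by field_simp
  refine h5.trans ?_
  have h6 : c ≤ W y * ((2 + δ) * Real.log l) := hWl.trans (mul_le_mul_of_nonneg_left hlogy2 hWy.le)
  rw [div_le_iff₀ hlogl]
  calc 2 * C₁ * (Y : ℝ) = (2 * C₁ * Y / c) * c := by field_simp
    _ ≤ (2 * C₁ * Y / c) * (W y * ((2 + δ) * Real.log l)) := mul_le_mul_of_nonneg_left h6 (by positivity)
    _ = _ := by field_simp

end Run7.h52.AsmV
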