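import Pool.Agent.Run7.h52.AsmV6

set_option autoImplicit false
set_option linter.unusedSectionVars false

namespace Run7.h52.AsmV

open Finset Run7.h52.Core Run7.h52.Count Run7.h52.Sp Run7.h52.AsmB Run7.h52.Transfer Run7.h52.AsmT
  Run7.h52.Rough Filter Topology

/-- choice of the small parameter -/
lemma exists_e2 {θ κ : ℝ} (hθ1 : θ < 1) (hκ : 0 < κ) :
    ∃ e : ℝ, 0 < e ∧ e ≤ 1 / 2 ∧ 6 * e < 1 - θ ∧
      Ce θ e * ((1 + e) * Real.exp (3 * e)) ≤ 2 / (1 - θ) + κ := by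
  set F : ℝ → ℝ := fun e => (1 + e) ^ 2 / (1 - e) * Real.exp (2 * e) * (2 / (1 - θ - 6 * e)) *
    ((1 + e) * Real.exp (3 * e)) with hF
  have hc : ContinuousAt F 0 := by
    have h1 : (1 : ℝ) - 0 ≠ 0 := by norm_num
    have h2 : 1 - θ - 6 * (0 : ℝ) ≠ 0 := by
      have : 1 - θ ≠ 0 := by intro h; linarith
      simpa using this
    refine ContinuousAt.mul (ContinuousAt.mul (ContinuousAt.mul ?_ (by fun_prop)) ?_) (by fun_prop)
    · exact ContinuousAt.div (by fun_prop) (by fun_prop) h1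
    · exact ContinuousAt.div (by fun_prop) (by fun_prop) h2
  have hF0 : F 0 = 2 / (1 - θ) := by simp [hF]
  have h1 : ∀ᶠ e in 𝓝 (0 : ℝ), F e < 2 / (1 - θ) + κ :=
    hc.tendsto.eventually_lt_const (by rw [hF0]; linarith)
  have h2 : ∀ᶠ e in 𝓝[>] (0 : ℝ), F e < 2 / (1 - θ) + κ := h1.filter_mono nhdsWithin_le_nhds
  have h3 : ∀ᶠ e in 𝓝[>] (0 : ℝ), e ∈ Set.Ioo (0 : ℝ) (min (1 / 2) ((1 - θ) / 6)) :=
    Ioo_mem_nhdsGT (lt_min (by norm_num) (by linarith))
  obtain ⟨e, he1, he2⟩ := (h2.and h3).exists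
  refine ⟨e, he2.1, (he2.2.trans_le (min_le_left _ _)).le, ?_, he1.le⟩
  have := he2.2.trans_le (min_le_right _ _)
  linarith

/-- the constant `2 / (1 - θ)` -/
theorem partII (θ κ : ℝ) (hθ0 : 0 < θ) (hθ1 : θ < 1) (hκ : 0 < κ) :
    ∃ A : ℕ, ∃ T : ℝ, ∀ N : ℕ, T ≤ N → ∀ Y : ℕ, (Real.log N) ^ A ≤ Y →
    ∀ w : ℤ → ℝ, TW.SquareWeight ((N : ℝ) ^ θ) w → ∀ x : ℤ,
    ∑ n ∈ Finset.Ioc x (x + N), w n *
        ((TW.roughShifts (Real.sqrt N) (Finset.Ioc (0 : ℤ) ((0 : ℤ) + (Y : ℤ))) n).card : ℝ)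
      ≤ (2 / (1 - θ) + κ) * (Y / Real.log N) * ∑ n ∈ Finset.Ioc x (x + N), w n := by
  obtain ⟨e, he0, he1, heθ, heκ⟩ := exists_e2 hθ1 hκ
  obtain ⟨c, hc, hWc⟩ := AsmA.W_log
  obtain ⟨Cr, hCr0, hCr⟩ := W_ratio
  obtain ⟨T, hT3, hT⟩ := mainX hθ0 he0 he1 heθ he0 c hc
  -- the sieve depth
  have hR : ∃ R : ℕ, 13 ≤ R ∧ 2 * (2 ^ 24 * (1 / 2 : ℝ) ^ (2 * R)) ≤ e / 2 := by
    have h1 : Tendsto (fun R : ℕ => 2 * (2 ^ 24 * (1 / 2 : ℝ) ^ (2 * R))) atTop (𝓝 (2 * (2 ^ 24 * 0))) := by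
      refine Tendsto.const_mul _ (Tendsto.const_mul _ ?_)
      have h2 : Tendsto (fun n : ℕ => (1 / 4 : ℝ) ^ n) atTop (𝓝 0) :=
        tendsto_pow_atTop_nhds_zero_of_lt_one (by norm_num) (by norm_num)
      refine h2.congr fun n => ?_
      rw [pow_mul]; norm_num
    rw [mul_zero, mul_zero] at h1
    have h2 := (h1.eventually_le_const (by positivity : (0 : ℝ) < e / 2)).and (eventually_ge_atTop 13)
    obtain ⟨R, h3, h4⟩ := h2.exists
    exact ⟨R, h4, h3⟩
  obtain ⟨R, hR13, hRe⟩ := hR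
  have ev1 : ∀ᶠ l : ℝ in Filter.atTop, (2 * e + 1) * Real.log (2 / e) + 1 + Cr ≤ e * Real.log l :=
    (Tendsto.const_mul_atTop he0 Real.tendsto_log_atTop).eventually_ge_atTop _
  obtain ⟨l₀, hl₀⟩ := Filter.eventually_atTop.1 ev1
  have hCe : 0 < Ce θ e := by
    unfold Ce
    have h1 : 0 < 1 - e := by linarith
    have h2 : 0 < 1 - θ - 6 * e := by linarith
    positivity
  refine ⟨8 * R + 18, max T (Real.exp (max (max l₀ (2 / (e * c))) (max (4 / e) ((2 / e) ^ 2)))),
    fun N hN Y hY w hw x => ?_⟩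
  have hNT : T ≤ N := (le_max_left _ _).trans hN
  have hN3 : 3 ≤ (N : ℝ) := hT3.trans hNT
  have hN0 : (0 : ℝ) < N := by linarith
  set l := Real.log N with hl
  have hll : max (max l₀ (2 / (e * c))) (max (4 / e) ((2 / e) ^ 2)) ≤ l := by
    rw [hl, Real.le_log_iff_exp_le hN0]; exact (le_max_right _ _).trans hN
  have hl2 := hl₀ l ((le_max_left _ _).trans ((le_max_left _ _).trans hll))
  have hlec : 2 / (e * c) ≤ l := (le_max_right _ _).trans ((le_max_left _ _).trans hll)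
  have hel : 4 ≤ e * l := by
    have h1 : 4 / e ≤ l := (le_max_left _ _).trans ((le_max_right _ _).trans hll)
    rw [div_le_iff₀ he0] at h1; linarith
  have h2e : (2 / e) ^ 2 ≤ l := (le_max_right _ _).trans ((le_max_right _ _).trans hll)
  obtain ⟨hz3, hzl, hzlog, hzlog2⟩ := floor_facts he0 he1 hel h2e
  set z := ⌊e * l⌋₊ with hz
  have hz3r : (3 : ℝ) ≤ z := by exact_mod_cast hz3
  have hl3 : 3 ≤ l := by linarith
  have hl0 : 0 < l := by linarith
  have hl1 : 1 ≤ l := by linarith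
  have hlogl : 0 < Real.log l := Real.log_pos (by linarith)
  have hlogll : Real.log l ≤ l := by
    have := Real.log_le_sub_one_of_pos hl0
    linarith
  set t : ℝ := l ^ (1 + e) with ht
  have hlt : l ≤ t := by
    calc l = l ^ (1 : ℝ) := (Real.rpow_one l).symm
      _ ≤ l ^ (1 + e) := Real.rpow_le_rpow_of_exponent_le (by linarith) (by linarith)
  have ht2 : t ≤ l ^ 2 := by
    calc t ≤ l ^ (2 : ℝ) := Real.rpow_le_rpow_of_exponent_le (by linarith) (by linarith)
      _ = l ^ 2 := by rw [← Real.rpow_natCast]; norm_num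
  set y : ℕ := ⌈t⌉₊ with hy
  have hty : t ≤ y := Nat.le_ceil _
  have hy1 : (y : ℝ) ≤ t + 1 := (Nat.ceil_lt_add_one (by linarith)).le
  have hl33 : l ^ 2 * 3 ≤ l ^ 3 := by
    have : l ^ 3 = l ^ 2 * l := by ring
    rw [this]
    exact mul_le_mul_of_nonneg_left hl3 (by positivity)
  have hl29 : 9 ≤ l ^ 2 := by nlinarith
  have hlA : l ^ 3 ≤ Y := by
    refine le_trans ?_ hY
    exact pow_le_pow_right₀ hl1 (by omega)
  have hyY : y ≤ Y := by
    have : (y : ℝ) ≤ Y := by linarith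
    exact_mod_cast this
  have hzy : z ≤ y := by
    have : (z : ℝ) ≤ y := by linarith
    exact_mod_cast this
  have hlz : 0 < Real.log z := Real.log_pos (by linarith)
  have hlzl : Real.log z ≤ Real.log l := Real.log_le_log (by linarith) hzl
  have hY0 : (0 : ℝ) ≤ Y := Nat.cast_nonneg _
  have hWz := W_pos z
  have hWzl : c / Real.log l ≤ W z := by
    rw [div_le_iff₀ hlogl]
    exact (hWc z hz3).trans (mul_le_mul_of_nonneg_left hlzl hWz.le)
  -- the small primes
  have hrg : ∀ n : ℤ, rg z (Finset.Ioc (0 : ℤ) ((0 : ℤ) + (Y : ℤ))) n ≤ (1 + e) * (W z * Y) := by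
    intro n
    have h1 := (abs_le.1 (Asym.brun R hR13 z z le_rfl (by omega) Y 0 n)).2
    have h2 : 2 * (2 ^ 24 * (1 / 2 : ℝ) ^ (2 * R)) * (W z * Y) ≤ e / 2 * (W z * Y) :=
      mul_le_mul_of_nonneg_right hRe (by positivity)
    have h3 : (z : ℝ) ^ (8 * R + 16) ≤ e / 2 * (W z * Y) := by
      have h4 : (z : ℝ) ^ (8 * R + 16) ≤ l ^ (8 * R + 16) := pow_le_pow_left₀ (by linarith) hzl _
      refine h4.trans ?_
      have h5 : c / l ≤ W z := (div_le_div_of_nonneg_left hc.le hlogl hlogll).trans hWzl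
      have h6 : c / l * l ^ (8 * R + 18) ≤ W z * Y := mul_le_mul h5 hY (by positivity) hWz.le
      have h7 : e / 2 * (c / l * l ^ (8 * R + 18)) ≤ e / 2 * (W z * Y) :=
        mul_le_mul_of_nonneg_left h6 (by positivity)
      refine le_trans ?_ h7
      rw [div_le_iff₀ (by positivity)] at hlec
      have h8 : e / 2 * (c / l * l ^ (8 * R + 18)) = (l * (e * c) / 2) * l ^ (8 * R + 16) := by
        have : l ^ (8 * R + 18) = l ^ (8 * R + 16) * l * l := by ring
        rw [this]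
        field_simp
      rw [h8]
      exact le_mul_of_one_le_left (by positivity) (by linarith)
    linarith
  have h1 := hT N hNT y Y hty hyY ((1 + e) * (W z * Y))
    (by
      have h2 : c / Real.log l * Y ≤ W z * Y := mul_le_mul_of_nonneg_right hWzl hY0
      have h3 : c * Y / Real.log l = c / Real.log l * Y := by ring
      rw [h3]
      have h4 : 0 ≤ W z * Y := by positivity
      nlinarith) hrg w hw x
  rw [← hl] at h1
  have hS0 : 0 ≤ ∑ n ∈ Finset.Ioc x (x + N), w n := Finset.sum_nonneg fun n _ => sw_nonneg hw n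
  refine h1.trans (mul_le_mul_of_nonneg_right ?_ hS0)
  have hWy := W_pos y
  -- the medium primes
  have hratio : W z ≤ Real.exp (3 * e) * W y := by
    refine (hCr z y hz3 hzy).trans (mul_le_mul_of_nonneg_right (Real.exp_le_exp.2 ?_) hWy.le)
    have h2 : Real.log y ≤ (1 + e) * Real.log l + 1 := by
      have h3 : (y : ℝ) ≤ 2 * t := by linarith
      have h4 := Real.log_le_log (by linarith) h3
      rw [Real.log_mul (by norm_num) (by linarith), ht, Real.log_rpow hl0] at h4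
      have := Real.log_two_lt_d9
      linarith
    have h3 : (Real.log y - Real.log z + Cr) / Real.log z ≤ 2 * e := by
      rw [div_le_iff₀ hlz]
      have h4 : (2 * e + 1) * (Real.log l - Real.log (2 / e)) ≤ (2 * e + 1) * Real.log z :=
        mul_le_mul_of_nonneg_left hzlog2 (by linarith)
      linarith
    have h4 : 1 / (z : ℝ) ≤ e := by
      have h5 : e * l / 2 ≤ (z : ℝ) := by
        have := Nat.lt_floor_add_one (e * l)
        rw [← hz] at this
        linarith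
      have h6 : 4 / e ^ 2 ≤ l := by
        have : (2 / e) ^ 2 = 4 / e ^ 2 := by rw [div_pow]; norm_num
        rw [← this]; exact h2e
      have h7 : 2 / e ≤ z := by
        have h8 : e / 2 * (4 / e ^ 2) ≤ e / 2 * l := mul_le_mul_of_nonneg_left h6 (by positivity)
        have h9 : e / 2 * (4 / e ^ 2) = 2 / e := by field_simp; norm_num
        rw [h9] at h8
        linarith
      rw [div_le_iff₀ (by linarith)]
      rw [div_le_iff₀ he0] at h7
      linarith
    linarith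
  have h3 : (1 + e) * (W z * Y) / (W y * l) ≤ (1 + e) * Real.exp (3 * e) * (Y / l) := by
    rw [div_le_iff₀ (by positivity)]
    have h4 : W z * (Y : ℝ) ≤ Real.exp (3 * e) * W y * Y := mul_le_mul_of_nonneg_right hratio hY0
    calc (1 + e) * (W z * Y) ≤ (1 + e) * (Real.exp (3 * e) * W y * Y) :=
          mul_le_mul_of_nonneg_left h4 (by linarith)
      _ = _ := by field_simp
  calc Ce θ e * ((1 + e) * (W z * Y) / (W y * l))
      ≤ Ce θ e * ((1 + e) * Real.exp (3 * e) * (Y / l)) := mul_le_mul_of_nonneg_left h3 hCe.le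
    _ = Ce θ e * ((1 + e) * Real.exp (3 * e)) * (Y / l) := by ring
    _ ≤ _ := mul_le_mul_of_nonneg_right heκ (by positivity)

end Run7.h52.AsmV
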