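import Pool.Agent.Run7.h52.BWS
import Pool.Agent.Run7.h52.AsmA2

set_option autoImplicit false
set_option linter.unusedSectionVars false

namespace Run7.h52.AsmW

open Finset Run7.h52.Op Run7.h52.Core Run7.h52.CoreA Run7.h52.Count Run7.h52.Sums
  Run7.h52.Transfer Run7.h52.CoreW Run7.h52.BWS

/-- analytic input -/
theorem params (δ : ℝ) (hδ : 0 < δ) : ∃ X₀ : ℝ, ∀ X : ℝ, X₀ ≤ X → ∀ y Y : ℕ,
    (Real.log X) ^ (1 + δ) ≤ y → y ≤ Y → 3 ≤ y ∧ 1 ≤ Real.log X ∧ 1 ≤ Real.log y ∧
      (Real.log X) ^ (-(δ / 3)) ≤ 1 ∧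
      (∀ P : Finset ℕ, (∀ p ∈ P, p.Prime ∧ y < p) →
        (Real.sqrt (BW (Om P) (fun i => om Y i) (Real.log X / 2)) + 1 / Real.sqrt (om Y y)) *
          Real.sqrt (2 * (Real.log X / 2)) ≤ Real.sqrt (((Real.log X) ^ (-(δ / 3))) ^ 2 * Y / 64)) ∧
      Real.log X / Real.log y * ((Y : ℝ) / y + 1) ≤ (Real.log X) ^ (-(δ / 3)) / 4 * Y ∧
      Real.exp (2 * (Real.log X / y)) ≤ 1 + (Real.log X) ^ (-(δ / 3)) / 4 := by
  obtain ⟨C, hC1, hC⟩ := BW_le
  have hδ3 : 0 < δ / 3 := by positivity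
  have ev1 : ∀ᶠ l : ℝ in Filter.atTop, 256 * C ^ 2 * (Real.log l + 2) ≤ l ^ (δ / 3) := by
    have h1 := (isLittleO_log_rpow_atTop hδ3).def
      (c := 1 / (1024 * C ^ 2)) (by positivity)
    have h2 := (tendsto_rpow_atTop hδ3).eventually_ge_atTop (1024 * C ^ 2)
    filter_upwards [h1, h2, Filter.eventually_ge_atTop 1] with l h3 h4 h5
    rw [Real.norm_of_nonneg (Real.log_nonneg h5), Real.norm_of_nonneg (by positivity)] at h3
    rw [div_mul_eq_mul_div, one_mul, le_div_iff₀ (by positivity)] at h3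
    nlinarith
  have ev2 : ∀ᶠ l : ℝ in Filter.atTop, 16 ≤ l ^ (δ / 3) :=
    (tendsto_rpow_atTop hδ3).eventually_ge_atTop 16
  obtain ⟨l₀, hl₀⟩ := Filter.eventually_atTop.1 (ev1.and ev2)
  refine ⟨Real.exp (max l₀ 3), fun X hX y Y hy hY => ?_⟩
  have hX0 : 0 < X := (Real.exp_pos _).trans_le hX
  set l := Real.log X with hl
  have hl1 : max l₀ 3 ≤ l := by rw [hl, Real.le_log_iff_exp_le hX0]; exact hX
  have hl3 : 3 ≤ l := (le_max_right _ _).trans hl1
  obtain ⟨h256, h16⟩ := hl₀ l ((le_max_left _ _).trans hl1)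
  have hl0 : 0 < l := by linarith
  have hlly : l ≤ y := by
    refine le_trans ?_ hy
    calc l = l ^ (1 : ℝ) := (Real.rpow_one l).symm
      _ ≤ l ^ (1 + δ) := Real.rpow_le_rpow_of_exponent_le (by linarith) (by linarith)
  have hy3' : (3 : ℝ) ≤ y := hl3.trans hlly
  have hy3 : 3 ≤ y := by exact_mod_cast hy3'
  have hy0 : (0 : ℝ) < y := by linarith
  have hYy : (y : ℝ) ≤ Y := by exact_mod_cast hY
  have hY0 : (0 : ℝ) < Y := by linarith
  have hlogy : 1 ≤ Real.log y := by
    rw [Real.le_log_iff_exp_le hy0]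
    have := Real.exp_one_lt_d9
    linarith
  set η := l ^ (-(δ / 3)) with hη
  have hη0 : 0 < η := Real.rpow_pos_of_pos hl0 _
  have hηinv : η * l ^ (δ / 3) = 1 := by
    rw [hη, ← Real.rpow_add hl0]; simp
  have hη1 : η ≤ 1 := by
    rw [hη]
    exact Real.rpow_le_one_of_one_le_of_nonpos (by linarith) (by linarith)
  have hη3 : l ^ (-δ) = η ^ 3 := by
    rw [hη, ← Real.rpow_natCast, ← Real.rpow_mul hl0.le]
    congr 1
    push_cast
    ring
  have hly : l ≤ y * η ^ 3 := by
    rw [← hη3]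
    calc l = l ^ (1 + δ) * l ^ (-δ) := by
          rw [← Real.rpow_add hl0]; simp
      _ ≤ y * l ^ (-δ) := mul_le_mul_of_nonneg_right hy (Real.rpow_nonneg hl0.le _)
  have hlY : l ≤ Y * η ^ 3 := hly.trans (mul_le_mul_of_nonneg_right hYy (by positivity))
  have hlYy : l * (Y / y) ≤ Y * η ^ 3 := by
    calc l * (Y / y) ≤ (y * η ^ 3) * (Y / y) := mul_le_mul_of_nonneg_right hly (by positivity)
      _ = Y * η ^ 3 := by field_simp
  have hηs : 16 * η ≤ 1 := by
    calc 16 * η ≤ l ^ (δ / 3) * η := mul_le_mul_of_nonneg_right h16 hη0.le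
      _ = 1 := by rw [mul_comm]; exact hηinv
  refine ⟨hy3, by linarith, hlogy, hη1, fun P hP => ?_, ?_, ?_⟩
  · have h1 := hC y hy3 P hP Y (l / 2) hY0.le
    have hom : 1 / Real.sqrt (om Y y) = Real.sqrt ((Y / y + 1) / Real.log y) := by
      rw [om, Real.sqrt_div (by linarith), Real.sqrt_div (by positivity)]
      field_simp
    have h2 : Real.log (max (l / 2) (Real.log y) / Real.log y) ≤ Real.log l := by
      refine Real.log_le_log (div_pos (lt_max_of_lt_left (by positivity)) (by linarith)) ?_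
      rw [div_le_iff₀ (by linarith)]
      refine max_le ?_ ?_
      · nlinarith
      · nlinarith
    have hlogl : 0 ≤ Real.log l := Real.log_nonneg (by linarith)
    have hYy0 : 0 ≤ (Y : ℝ) / y := by positivity
    set A := BW (Om P) (fun i => om Y i) (l / 2) with hA
    set B := ((Y : ℝ) / y + 1) / Real.log y with hB
    have hA1 : A ≤ C * (Y / y + Real.log l + C) := by
      refine h1.trans ?_
      refine mul_le_mul ?_ (by linarith) ?_ (by linarith)
      · exact div_le_self (by linarith) hlogy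
      · have : 0 ≤ Real.log (max (l / 2) (Real.log y) / Real.log y) := by
          apply Real.log_nonneg
          rw [le_div_iff₀ (by linarith), one_mul]
          exact le_max_right _ _
        linarith
    have hB1 : B ≤ Y / y + 1 := div_le_self (by linarith) hlogy
    have hB0 : 0 ≤ B := by positivity
    have hAB : A + B ≤ 2 * C ^ 2 * (Y / y + Real.log l + 1) := by
      have hCC : C ≤ C ^ 2 := by nlinarith
      have e1 : C * (Y / y) ≤ C ^ 2 * (Y / y) := mul_le_mul_of_nonneg_right hCC hYy0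
      have e2 : C * Real.log l ≤ C ^ 2 * Real.log l := mul_le_mul_of_nonneg_right hCC hlogl
      have e3 : (1 : ℝ) ≤ C ^ 2 := by nlinarith
      have e4 : 1 * ((Y : ℝ) / y) ≤ C ^ 2 * (Y / y) := mul_le_mul_of_nonneg_right e3 hYy0
      have e5 : 1 * Real.log l ≤ C ^ 2 * Real.log l := mul_le_mul_of_nonneg_right e3 hlogl
      nlinarith
    have hsum : (Real.sqrt A + Real.sqrt B) ≤ Real.sqrt (2 * (A + B)) := by
      apply Real.le_sqrt_of_sq_le
      by_cases hA0 : 0 ≤ A
      · nlinarith [Real.sq_sqrt hA0, Real.sq_sqrt hB0, sq_nonneg (Real.sqrt A - Real.sqrt B)]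
      · push Not at hA0
        exfalso
        have : 0 ≤ A := by
          rw [hA, BW]
          refine Finset.sum_nonneg fun τ _ => ?_
          split_ifs
          · refine div_nonneg (Sums.gg_nonneg (fun p hp => (hP p hp).1) τ) ?_
            refine Finset.sum_nonneg fun i _ => ?_
            split_ifs
            · exact (om_pos hY0.le (hP i i.2).1.one_lt).le
            · exact le_rfl
          · exact le_rfl
        linarith
    rw [hom]
    have h5 : 2 * (A + B) * (2 * (l / 2)) ≤ η ^ 2 * Y / 64 := by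
      have h6 : 2 * (A + B) * (2 * (l / 2)) ≤ 4 * C ^ 2 * (l * (Y / y) + (Real.log l + 1) * l) := by
        have h7 : 2 * (A + B) * (2 * (l / 2)) = 2 * l * (A + B) := by ring
        rw [h7]
        calc 2 * l * (A + B) ≤ 2 * l * (2 * C ^ 2 * (Y / y + Real.log l + 1)) :=
              mul_le_mul_of_nonneg_left hAB (by positivity)
          _ = _ := by ring
      have h8 : l * (Y / y) + (Real.log l + 1) * l ≤ (Real.log l + 2) * (Y * η ^ 3) := by
        have h9 : (Real.log l + 1) * l ≤ (Real.log l + 1) * (Y * η ^ 3) :=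
          mul_le_mul_of_nonneg_left hlY (by linarith)
        nlinarith
      have h10 : 256 * C ^ 2 * (Real.log l + 2) * η ≤ 1 := by
        calc 256 * C ^ 2 * (Real.log l + 2) * η ≤ l ^ (δ / 3) * η :=
              mul_le_mul_of_nonneg_right h256 hη0.le
          _ = 1 := by rw [mul_comm]; exact hηinv
      calc 2 * (A + B) * (2 * (l / 2)) ≤ _ := h6
        _ ≤ 4 * C ^ 2 * ((Real.log l + 2) * (Y * η ^ 3)) :=
            mul_le_mul_of_nonneg_left h8 (by positivity)
        _ = (256 * C ^ 2 * (Real.log l + 2) * η) * (η ^ 2 * Y / 64) := by ring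
        _ ≤ 1 * (η ^ 2 * Y / 64) := mul_le_mul_of_nonneg_right h10 (by positivity)
        _ = _ := one_mul _
    calc (Real.sqrt A + Real.sqrt B) * Real.sqrt (2 * (l / 2))
        ≤ Real.sqrt (2 * (A + B)) * Real.sqrt (2 * (l / 2)) :=
          mul_le_mul_of_nonneg_right hsum (Real.sqrt_nonneg _)
      _ = Real.sqrt (2 * (A + B) * (2 * (l / 2))) :=
          (Real.sqrt_mul' (2 * (A + B)) (by positivity)).symm
      _ ≤ _ := Real.sqrt_le_sqrt h5
  · have h1 : l / Real.log y ≤ l := div_le_self hl0.le hlogy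
    have h2 : 16 * η * η ^ 2 ≤ 1 * η := by
      have h3 : 16 * η * η ^ 2 ≤ 1 * η ^ 2 := mul_le_mul_of_nonneg_right hηs (by positivity)
      nlinarith
    calc l / Real.log y * ((Y : ℝ) / y + 1) ≤ l * ((Y : ℝ) / y + 1) :=
          mul_le_mul_of_nonneg_right h1 (by positivity)
      _ = l * (Y / y) + l := by ring
      _ ≤ 2 * (Y * η ^ 3) := by linarith
      _ ≤ η / 4 * Y := by nlinarith
  · have h1 : l / y ≤ η ^ 3 := by
      rw [div_le_iff₀ hy0]; linarith
    have h2 : 2 * (l / y) ≤ 2 * η ^ 3 := by linarith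
    have hx1 : 2 * η ^ 3 ≤ 1 := by
      have : η ^ 3 ≤ η := by
        have : η ^ 2 ≤ 1 := by nlinarith
        nlinarith
      nlinarith
    have hx0 : 0 ≤ 2 * η ^ 3 := by positivity
    have h3 : Real.exp (2 * η ^ 3) ≤ 1 + 2 * (2 * η ^ 3) := by
      have h4 := Real.abs_exp_sub_one_sub_id_le (x := 2 * η ^ 3) (by rw [abs_of_nonneg hx0]; exact hx1)
      have h5 := (abs_le.1 h4).2
      nlinarith
    refine (Real.exp_le_exp.2 h2).trans (h3.trans ?_)
    have h6 : 16 * η ^ 3 ≤ η := by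
      have h3 : 16 * η * η ^ 2 ≤ 1 * η ^ 2 := mul_le_mul_of_nonneg_right hηs (by positivity)
      nlinarith
    linarith

end Run7.h52.AsmW
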