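import Pool.Agent.Run7.h52.AsmW2

set_option autoImplicit false
set_option linter.unusedSectionVars false

namespace Run7.h52.AsmW

open Finset Run7.h52.Op Run7.h52.Core Run7.h52.CoreA Run7.h52.Count Run7.h52.Sums
  Run7.h52.Transfer Run7.h52.CoreW Run7.h52.BWS

theorem transferW (M : ℕ) (hM : 0 < M) (P Q P₀ : Finset ℕ) (hP : ∀ p ∈ P, p.Prime ∧ p ∣ M)
    (hQ : ∀ p ∈ Q, p.Prime ∧ p ∣ M) (hPQ : ∀ p ∈ Q, p ∉ P) (hP₀ : P₀ ⊆ Q) (H : Finset ℤ) (d : ℕ)
    (hd : d ∣ M) (hdP : ∀ p ∈ P, ¬ p ∣ d) (a : ℤ) :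
    ∃ m : (∀ i : {p // p ∈ P}, Fin (i : ℕ)) → ℤ,
      (∀ x (i : {p // p ∈ P}) (a : Fin (i : ℕ)), ∀ q : ℕ, q ∣ M → ¬ (i : ℕ) ∣ q →
        (q : ℤ) ∣ m (Function.update x i a) - m x) ∧
      ∀ V : ℤ → ℝ, (∀ n, V (n + M) = V n) →
      ((Fintype.card (∀ i : {p // p ∈ P}, Fin (i : ℕ)) : ℝ) * ∑ n ∈ Finset.range M,
        (if (d : ℤ) ∣ (n : ℤ) - a then V n ^ 2 *
          ((H.filter fun h => ∀ p ∈ P ∪ Q, ¬ (p : ℤ) ∣ (n : ℤ) + h).card : ℝ) else 0)
        = ∑ n ∈ Finset.range M, if (d : ℤ) ∣ (n : ℤ) - a then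
          ∑ h ∈ H.filter (fun h => ∀ p ∈ Q, ¬ (p : ℤ) ∣ (n : ℤ) + h),
            unhit (Ω := fun i : {p // p ∈ P} => Fin (i : ℕ))
              (fun i => cls (hP i i.2).1.pos (-((n : ℤ) + h))) (fun x => V (n + m x)) else 0) ∧
      ((Fintype.card (∀ i : {p // p ∈ P}, Fin (i : ℕ)) : ℝ) * ∑ n ∈ Finset.range M,
        (if (d : ℤ) ∣ (n : ℤ) - a then V n ^ 2 *
          ((H.filter fun h => ∀ p ∈ P₀, ¬ (p : ℤ) ∣ (n : ℤ) + h).card : ℝ) else 0)
        = ∑ n ∈ Finset.range M, if (d : ℤ) ∣ (n : ℤ) - a then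
          ((H.filter fun h => ∀ p ∈ P₀, ¬ (p : ℤ) ∣ (n : ℤ) + h).card : ℝ) *
            ip (Ω := fun i : {p // p ∈ P} => Fin (i : ℕ)) (fun x => V (n + m x))
            (fun x => V (n + m x)) else 0) ∧
      ((Fintype.card (∀ i : {p // p ∈ P}, Fin (i : ℕ)) : ℝ) * ∑ n ∈ Finset.range M,
        (if (d : ℤ) ∣ (n : ℤ) - a then V n ^ 2 else 0)
        = ∑ n ∈ Finset.range M, if (d : ℤ) ∣ (n : ℤ) - a then
          ip (Ω := fun i : {p // p ∈ P} => Fin (i : ℕ)) (fun x => V (n + m x))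
            (fun x => V (n + m x)) else 0) := by
  classical
  obtain ⟨m, hm1, hm2, hm3⟩ := exists_shift M hM P hP
  refine ⟨m, hm3, fun V hV => ?_⟩
  have hdm : ∀ (n : ℤ) x, ((d : ℤ) ∣ n + m x - a) ↔ ((d : ℤ) ∣ n - a) := by
    intro n x
    have h1 := hm2 x d hd (fun i => hdP i i.2)
    have h2 : n + m x - a = (n - a) + m x := by ring
    rw [h2]
    exact dvd_add_left h1
  have hdM : ∀ n : ℤ, ((d : ℤ) ∣ n + M - a) ↔ ((d : ℤ) ∣ n - a) := by
    intro n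
    have h2 : n + M - a = (n - a) + M := by ring
    rw [h2]
    exact dvd_add_left (by exact_mod_cast hd)
  have hpM : ∀ (p : ℕ), p ∣ M → ∀ n h : ℤ, ((p : ℤ) ∣ n + M + h) ↔ ((p : ℤ) ∣ n + h) := by
    intro p hp n h
    have h2 : n + M + h = (n + h) + M := by ring
    rw [h2]
    exact dvd_add_left (by exact_mod_cast hp)
  have hQm : ∀ p ∈ Q, ∀ (n h : ℤ) x, ((p : ℤ) ∣ n + m x + h) ↔ ((p : ℤ) ∣ n + h) := by
    intro p hp n h x
    have h1 := hm2 x p (hQ p hp).2 (fun i hd => hPQ p hp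
      (((Nat.prime_dvd_prime_iff_eq (hP i i.2).1 (hQ p hp).1).1 hd) ▸ i.2))
    have h2 : n + m x + h = (n + h) + m x := by ring
    rw [h2]
    exact dvd_add_left h1
  have hPm : ∀ (i : {p // p ∈ P}) (n h : ℤ) x, (((i : ℕ) : ℤ) ∣ n + m x + h) ↔
      x i = cls (hP i i.2).1.pos (-(n + h)) := by
    intro i n h x
    rw [eq_cls]
    have h1 := hm1 x i
    have h2 : n + m x + h = (m x - ((x i : ℕ) : ℤ)) - (-(n + h) - ((x i : ℕ) : ℤ)) := by ring
    rw [h2]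
    exact dvd_sub_right h1
  have avg : ∀ f : ℤ → ℝ, (∀ n, f (n + M) = f n) →
      (Fintype.card (∀ i : {p // p ∈ P}, Fin (i : ℕ)) : ℝ) * ∑ n ∈ Finset.range M, f n
      = ∑ n ∈ Finset.range M, ∑ x : (∀ i : {p // p ∈ P}, Fin (i : ℕ)), f (n + m x) := by
    intro f hf
    rw [Finset.sum_comm]
    simp only [sum_shift M f hf]
    rw [Finset.sum_const, Finset.card_univ, nsmul_eq_mul]
  refine ⟨?_, ?_, ?_⟩
  · rw [avg (fun n => if (d : ℤ) ∣ n - a then V n ^ 2 *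
          ((H.filter fun h => ∀ p ∈ P ∪ Q, ¬ (p : ℤ) ∣ n + h).card : ℝ) else 0)]
    · refine Finset.sum_congr rfl fun n _ => ?_
      simp only [hdm]
      split_ifs with hdn
      · unfold unhit
        rw [Finset.sum_comm]
        refine Finset.sum_congr rfl fun x _ => ?_
        rw [card_filter_eq_sum, Finset.mul_sum, Finset.sum_filter]
        refine Finset.sum_congr rfl fun h _ => ?_
        have e : (∀ p ∈ P ∪ Q, ¬ (p : ℤ) ∣ (n : ℤ) + m x + h) ↔ ((∀ p ∈ Q, ¬ (p : ℤ) ∣ (n : ℤ) + h) ∧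
            ∀ i : {p // p ∈ P}, x i ≠ cls (hP i i.2).1.pos (-((n : ℤ) + h))) := by
          constructor
          · intro h1
            refine ⟨fun p hp hd => h1 p (Finset.mem_union_right _ hp) ((hQm p hp n h x).2 hd),
              fun i hi => h1 i (Finset.mem_union_left _ i.2) ((hPm i n h x).2 hi)⟩
          · rintro ⟨h1, h2⟩ p hp hd
            rcases Finset.mem_union.1 hp with hp | hp
            · exact h2 ⟨p, hp⟩ ((hPm ⟨p, hp⟩ n h x).1 hd)
            · exact h1 p hp ((hQm p hp n h x).1 hd)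
        by_cases h1 : ∀ p ∈ Q, ¬ (p : ℤ) ∣ (n : ℤ) + h
        · by_cases h2 : ∀ i : {p // p ∈ P}, x i ≠ cls (hP i i.2).1.pos (-((n : ℤ) + h))
          · rw [if_pos (e.2 ⟨h1, h2⟩), if_pos h1, if_pos h2]; ring
          · rw [if_neg (fun h3 => h2 (e.1 h3).2), if_pos h1, if_neg h2, mul_zero]
        · rw [if_neg (fun h3 => h1 (e.1 h3).1), if_neg h1, mul_zero]
      · simp
    · intro n
      simp only [hdM, hV]
      congr 3
      refine congrArg _ (Finset.filter_congr fun h _ => ?_)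
      refine forall₂_congr fun p hp => not_congr (hpM p ?_ n h)
      rcases Finset.mem_union.1 hp with hp | hp
      · exact (hP p hp).2
      · exact (hQ p hp).2
  · rw [avg (fun n => if (d : ℤ) ∣ n - a then V n ^ 2 *
          ((H.filter fun h => ∀ p ∈ P₀, ¬ (p : ℤ) ∣ n + h).card : ℝ) else 0)]
    · refine Finset.sum_congr rfl fun n _ => ?_
      simp only [hdm]
      split_ifs with hdn
      · unfold ip
        rw [Finset.mul_sum]
        refine Finset.sum_congr rfl fun x _ => ?_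
        have e : (H.filter fun h => ∀ p ∈ P₀, ¬ (p : ℤ) ∣ (n : ℤ) + m x + h)
            = H.filter fun h => ∀ p ∈ P₀, ¬ (p : ℤ) ∣ (n : ℤ) + h :=
          Finset.filter_congr fun h _ => forall₂_congr fun p hp =>
            not_congr (hQm p (hP₀ hp) n h x)
        rw [e]
        ring
      · simp
    · intro n
      simp only [hdM, hV]
      congr 3
      refine congrArg _ (Finset.filter_congr fun h _ => ?_)
      exact forall₂_congr fun p hp => not_congr (hpM p (hQ p (hP₀ hp)).2 n h)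
  · rw [avg (fun n => if (d : ℤ) ∣ n - a then V n ^ 2 else 0)]
    · refine Finset.sum_congr rfl fun n _ => ?_
      simp only [hdm]
      split_ifs with hdn
      · unfold ip
        exact Finset.sum_congr rfl fun x _ => by rw [sq]
      · simp
    · intro n
      simp only [hdM, hV]

/-- the final arithmetic for one class of `n` -/
lemma arith {η Y A N U ρ ρ' I r : ℝ} {G : ℝ} (hη0 : 0 < η) (hη1 : η ≤ 1) (hY : 0 ≤ Y) (hA0 : 0 ≤ A)
    (hAY : A ≤ Y) (hN0 : 0 ≤ N) (hNA : N ≤ A) (hr : A - r ≤ N) (hrY : r ≤ η / 4 * Y) (hI : 0 ≤ I)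
    (hρ0 : 0 ≤ ρ) (hρρ' : ρ ≤ ρ') (hG : ρ' ≤ G * ρ) (hG1 : G * G ≤ 1 + η / 4) (hG0 : 0 ≤ G) (hU0 : 0 ≤ U)
    (hlo : (N - 2 * Real.sqrt (N * (η ^ 2 * Y / 64))) * (ρ' * I) ≤ U)
    (hup : U ≤ G * (N + 2 * Real.sqrt (N * (η ^ 2 * Y / 64)) + η ^ 2 * Y / 64) * (ρ' * I)) :
    (A - η * Y) * (ρ * I) ≤ U ∧ U ≤ (A + η * Y) * (ρ * I) := by
  have hs : Real.sqrt (N * (η ^ 2 * Y / 64)) ≤ η * Y / 8 := by
    rw [Real.sqrt_le_left (by positivity)]
    have : N * (η ^ 2 * Y / 64) ≤ Y * (η ^ 2 * Y / 64) :=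
      mul_le_mul_of_nonneg_right (hNA.trans hAY) (by positivity)
    nlinarith
  have hs0 := Real.sqrt_nonneg (N * (η ^ 2 * Y / 64))
  set s := Real.sqrt (N * (η ^ 2 * Y / 64)) with hsdef
  have hρI : 0 ≤ ρ * I := mul_nonneg hρ0 hI
  have hηY : 0 ≤ η * Y := by positivity
  constructor
  · rcases le_or_gt 0 (N - 2 * s) with h1 | h1
    · calc (A - η * Y) * (ρ * I) ≤ (N - 2 * s) * (ρ * I) := by
            refine mul_le_mul_of_nonneg_right ?_ hρI
            linarith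
        _ ≤ (N - 2 * s) * (ρ' * I) :=
            mul_le_mul_of_nonneg_left (mul_le_mul_of_nonneg_right hρρ' hI) h1
        _ ≤ U := hlo
    · have h2 : A - η * Y ≤ 0 := by linarith
      have h3 : (A - η * Y) * (ρ * I) ≤ 0 := mul_nonpos_of_nonpos_of_nonneg h2 hρI
      linarith
  · have h1 : 0 ≤ N + 2 * s + η ^ 2 * Y / 64 := by positivity
    have hη2 : η ^ 2 * Y ≤ η * Y := by nlinarith
    calc U ≤ G * (N + 2 * s + η ^ 2 * Y / 64) * (ρ' * I) := hup
      _ ≤ G * (N + 2 * s + η ^ 2 * Y / 64) * (G * ρ * I) :=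
          mul_le_mul_of_nonneg_left (mul_le_mul_of_nonneg_right hG hI) (mul_nonneg hG0 h1)
      _ = (G * G) * (N + 2 * s + η ^ 2 * Y / 64) * (ρ * I) := by ring
      _ ≤ (1 + η / 4) * (N + 2 * s + η ^ 2 * Y / 64) * (ρ * I) :=
          mul_le_mul_of_nonneg_right (mul_le_mul_of_nonneg_right hG1 h1) hρI
      _ ≤ (A + η * Y) * (ρ * I) := by
          refine mul_le_mul_of_nonneg_right ?_ hρI
          have h2 : N + 2 * s + η ^ 2 * Y / 64 ≤ A + η * Y / 4 + η * Y / 64 := by linarith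
          have h3 : (1 + η / 4) * (N + 2 * s + η ^ 2 * Y / 64)
              ≤ (1 + η / 4) * (A + η * Y / 4 + η * Y / 64) :=
            mul_le_mul_of_nonneg_left h2 (by positivity)
          have h4 : η * A ≤ η * Y := mul_le_mul_of_nonneg_left hAY hη0.le
          have h5 : η * (η * Y) ≤ η * Y := by nlinarith
          nlinarith

end Run7.h52.AsmW
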