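import Pool.Agent.Run7.h52.AsmW3

set_option autoImplicit false
set_option linter.unusedSectionVars false

namespace Run7.h52.AsmW

open Finset Run7.h52.Op Run7.h52.Core Run7.h52.CoreA Run7.h52.Count Run7.h52.Sums
  Run7.h52.Transfer Run7.h52.CoreW Run7.h52.BWS

/-- one progression and one square -/
theorem piece {η : ℝ} {y Y : ℕ} {X : ℝ} (hy3 : 3 ≤ y) (hlX : 1 ≤ Real.log X)
    (hly : 1 ≤ Real.log y) (hη0 : 0 < η) (hη1 : η ≤ 1)
    (hpar : ∀ P : Finset ℕ, (∀ p ∈ P, p.Prime ∧ y < p) →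
        (Real.sqrt (BW (Om P) (fun i => om Y i) (Real.log X / 2)) + 1 / Real.sqrt (om Y y)) *
          Real.sqrt (2 * (Real.log X / 2)) ≤ Real.sqrt (η ^ 2 * Y / 64))
    (hr : Real.log X / Real.log y * ((Y : ℝ) / y + 1) ≤ η / 4 * Y)
    (hexp : Real.exp (2 * (Real.log X / y)) ≤ 1 + η / 4)
    (P P₀ : Finset ℕ) (hP : ∀ p ∈ P, p.Prime ∧ y < p) (hP₀ : ∀ p ∈ P₀, p.Prime)
    (hdis : ∀ p ∈ P₀, p ∉ P) (x : ℤ) (H : Finset ℤ)
    (hH : H ⊆ Finset.Ioc x (x + Y)) (M : ℕ) (hM : 0 < M)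
    (hPM : ∀ p ∈ P ∪ P₀, p ∣ M) (d R : ℕ) (a : ℤ) (V : ℤ → ℝ) (hd : 1 ≤ d) (hR : 1 ≤ R)
    (hdR : (d : ℝ) * (R : ℝ) ^ 2 ≤ X) (hdM : d ∣ M) (hRM : ∀ q ∈ Finset.Icc 1 R, q ∣ M)
    (hV : HasLevel R V) :
    (∏ p ∈ P, (1 - 1 / (p : ℝ))) * (∑ n ∈ Finset.range M, (if (d : ℤ) ∣ (n : ℤ) - a then V n ^ 2 *
          ((H.filter fun h => ∀ p ∈ P₀, ¬ (p : ℤ) ∣ (n : ℤ) + h).card : ℝ) else 0)
          - η * Y * ∑ n ∈ Finset.range M, (if (d : ℤ) ∣ (n : ℤ) - a then V n ^ 2 else 0))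
      ≤ ∑ n ∈ Finset.range M, (if (d : ℤ) ∣ (n : ℤ) - a then V n ^ 2 *
          ((H.filter fun h => ∀ p ∈ P ∪ P₀, ¬ (p : ℤ) ∣ (n : ℤ) + h).card : ℝ) else 0) ∧
    ∑ n ∈ Finset.range M, (if (d : ℤ) ∣ (n : ℤ) - a then V n ^ 2 *
          ((H.filter fun h => ∀ p ∈ P ∪ P₀, ¬ (p : ℤ) ∣ (n : ℤ) + h).card : ℝ) else 0)
      ≤ (∏ p ∈ P, (1 - 1 / (p : ℝ))) * (∑ n ∈ Finset.range M, (if (d : ℤ) ∣ (n : ℤ) - a then V n ^ 2 *
          ((H.filter fun h => ∀ p ∈ P₀, ¬ (p : ℤ) ∣ (n : ℤ) + h).card : ℝ) else 0)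
          + η * Y * ∑ n ∈ Finset.range M, (if (d : ℤ) ∣ (n : ℤ) - a then V n ^ 2 else 0)) := by
  classical
  set P' := P.filter fun p => ¬ p ∣ d with hP'
  set Q₁ := P.filter fun p => p ∣ d with hQ₁
  set Q := P₀ ∪ Q₁ with hQ
  have hP'P : ∀ p ∈ P', p.Prime ∧ y < p := fun p hp => hP p (Finset.mem_filter.1 hp).1
  have hQ₁P : ∀ p ∈ Q₁, p.Prime ∧ y < p := fun p hp => hP p (Finset.mem_filter.1 hp).1
  have hPQ : P' ∪ Q = P ∪ P₀ := by
    rw [hQ, ← Finset.union_assoc, Finset.union_comm P' P₀, Finset.union_assoc, hP', hQ₁,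
      Finset.union_comm (P.filter fun p => ¬ p ∣ d), Finset.filter_union_filter_not_eq,
      Finset.union_comm]
  obtain ⟨m, hm, hmain⟩ := transferW M hM P' Q P₀
    (fun p hp => ⟨(hP'P p hp).1, hPM p (Finset.mem_union_left _ (Finset.mem_filter.1 hp).1)⟩)
    (fun p hp => by
      rcases Finset.mem_union.1 hp with hp | hp
      · exact ⟨hP₀ p hp, hPM p (Finset.mem_union_right _ hp)⟩
      · exact ⟨(hQ₁P p hp).1, hPM p (Finset.mem_union_left _ (Finset.mem_filter.1 hp).1)⟩)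
    (fun p hp hp' => by
      rcases Finset.mem_union.1 hp with hp | hp
      · exact hdis p hp (Finset.mem_filter.1 hp').1
      · exact (Finset.mem_filter.1 hp').2 (Finset.mem_filter.1 hp).2)
    Finset.subset_union_left H d hdM (fun p hp => (Finset.mem_filter.1 hp).2) a
  obtain ⟨e1, e0, e2⟩ := hmain V (level_periodic hRM hV)
  rw [hPQ] at e1
  set N : ℝ := (Fintype.card (∀ i : {p // p ∈ P'}, Fin (i : ℕ)) : ℝ) with hN
  have hNpos : 0 < N := by
    have : 0 < Fintype.card (∀ i : {p // p ∈ P'}, Fin (i : ℕ)) := by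
      rw [Fintype.card_pi]
      exact Finset.prod_pos fun i _ => by simpa using (hP'P i i.2).1.pos
    rw [hN]
    exact_mod_cast this
  have hR0 : (0 : ℝ) < R := by exact_mod_cast hR
  have hd0 : (1 : ℝ) ≤ d := by exact_mod_cast hd
  have hX0 : 0 < X := lt_of_lt_of_le (by positivity) hdR
  have hlogR : Real.log R ≤ Real.log X / 2 := by
    have h1 : (R : ℝ) ^ 2 ≤ X := by nlinarith [sq_nonneg (R : ℝ)]
    have h2 := Real.log_le_log (by positivity) h1
    rw [Real.log_pow] at h2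
    push_cast at h2
    linarith
  have hlogd : Real.log d ≤ Real.log X := by
    refine Real.log_le_log (by linarith) (le_trans ?_ hdR)
    have h1 : (1 : ℝ) ≤ (R : ℝ) ^ 2 := by
      have : (1 : ℝ) ≤ R := by exact_mod_cast hR
      nlinarith
    nlinarith
  have hy0 : (0 : ℝ) < y := by exact_mod_cast (by omega : 0 < y)
  set ρ := ∏ p ∈ P, (1 - 1 / (p : ℝ)) with hρdef
  have hfac : ∀ p ∈ P, 0 < 1 - 1 / (p : ℝ) := fun p hp => by
    have : (1 : ℝ) < p := by exact_mod_cast (hP p hp).1.one_lt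
    have : 1 / (p : ℝ) < 1 := by rw [div_lt_one (by linarith)]; exact this
    linarith
  have hρ0 : 0 ≤ ρ := Finset.prod_nonneg fun p hp => (hfac p hp).le
  have hρ'eq : rho (Om P') = ∏ p ∈ P', (1 - 1 / (p : ℝ)) := by
    rw [rho, ← Finset.prod_coe_sort P' (fun p : ℕ => (1 - 1 / (p : ℝ)))]
    refine Finset.prod_congr rfl fun i _ => ?_
    rw [pp_Om]
    have : ((i : ℕ) : ℝ) ≠ 0 := by exact_mod_cast (hP'P i i.2).1.ne_zero
    field_simp
  have hρsplit : ρ = rho (Om P') * ∏ p ∈ Q₁, (1 - 1 / (p : ℝ)) := by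
    rw [hρ'eq, hρdef, ← Finset.prod_filter_mul_prod_filter_not P (fun p => ¬ p ∣ d)]
    congr 2
    rw [hQ₁]
    exact Finset.filter_congr fun p _ => by simp
  have hρ'0 : 0 ≤ rho (Om P') := by
    rw [hρ'eq]
    exact Finset.prod_nonneg fun p hp => (hfac p (Finset.mem_filter.1 hp).1).le
  have hQ1le : ∏ p ∈ Q₁, (1 - 1 / (p : ℝ)) ≤ 1 :=
    Finset.prod_le_one (fun p hp => (hfac p (Finset.mem_filter.1 hp).1).le) (fun p hp => by
      have : (0 : ℝ) ≤ 1 / (p : ℝ) := by positivity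
      linarith)
  have hρρ' : ρ ≤ rho (Om P') := by
    rw [hρsplit]
    exact mul_le_of_le_one_right hρ'0 hQ1le
  set G := Real.exp (Real.log X / y) with hG
  have hG0 : 0 < G := Real.exp_pos _
  have hGG : G * G ≤ 1 + η / 4 := by
    rw [hG, ← Real.exp_add]
    refine le_trans (le_of_eq ?_) hexp
    congr 1; ring
  have hratio := rho_ratio y hly Q₁ hQ₁P d hd (fun p hp => (Finset.mem_filter.1 hp).2) X hlogd
    (by linarith)
  have hρ'G : rho (Om P') ≤ G * ρ := by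
    rw [hρsplit]
    calc rho (Om P') = rho (Om P') * 1 := (mul_one _).symm
      _ ≤ rho (Om P') * (Real.exp (Real.log X / y) * ∏ p ∈ Q₁, (1 - 1 / (p : ℝ))) :=
          mul_le_mul_of_nonneg_left hratio hρ'0
      _ = _ := by rw [hG]; ring
  have h2 : ∀ i : {p // p ∈ P'}, 2 ≤ Fintype.card (Om P' i) := fun i => by
    simpa using (hP'P i i.2).1.two_le
  -- the inequality for each `n`
  have key : ∀ n : ℤ,
      (((H.filter fun h => ∀ p ∈ P₀, ¬ (p : ℤ) ∣ n + h).card : ℝ) - η * Y) *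
        (ρ * ip (Ω := Om P') (fun x => V (n + m x)) (fun x => V (n + m x))) ≤
      ∑ h ∈ H.filter (fun h => ∀ p ∈ Q, ¬ (p : ℤ) ∣ n + h),
            unhit (Ω := Om P')
              (fun i => cls (hP'P i i.2).1.pos (-(n + h))) (fun x => V (n + m x)) ∧
      ∑ h ∈ H.filter (fun h => ∀ p ∈ Q, ¬ (p : ℤ) ∣ n + h),
            unhit (Ω := Om P')
              (fun i => cls (hP'P i i.2).1.pos (-(n + h))) (fun x => V (n + m x)) ≤
      (((H.filter fun h => ∀ p ∈ P₀, ¬ (p : ℤ) ∣ n + h).card : ℝ) + η * Y) *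
        (ρ * ip (Ω := Om P') (fun x => V (n + m x)) (fun x => V (n + m x))) := by
    intro n
    set Hn := H.filter (fun h => ∀ p ∈ Q, ¬ (p : ℤ) ∣ n + h) with hHn
    set H₀ := H.filter (fun h => ∀ p ∈ P₀, ¬ (p : ℤ) ∣ n + h) with hH₀
    have hHnH₀ : Hn = H₀.filter (fun h => ∀ p ∈ Q₁, ¬ (p : ℤ) ∣ n + h) := by
      ext h
      simp only [hHn, hH₀, hQ, Finset.mem_filter, Finset.mem_union]
      constructor
      · rintro ⟨h1, h2⟩
        exact ⟨⟨h1, fun p hp => h2 p (Or.inl hp)⟩, fun p hp => h2 p (Or.inr hp)⟩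
      · rintro ⟨⟨h1, h2⟩, h3⟩
        refine ⟨h1, fun p hp => ?_⟩
        rcases hp with hp | hp
        · exact h2 p hp
        · exact h3 p hp
    have hH₀sub : H₀ ⊆ Finset.Ioc x (x + Y) := (Finset.filter_subset _ _).trans hH
    have hHnsub : Hn ⊆ Finset.Ioc x (x + Y) := (Finset.filter_subset _ _).trans hH
    set Vn : (∀ i, Om P' i) → ℝ := fun x => V (n + m x) with hVn
    have hlev : Lev (Ω := Om P') (Real.log X / 2) Vn :=
      lev_of_level (fun p hp => (hP'P p hp).1) m hm hRM hV n hlogR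
    set col : {h // h ∈ Hn} → ∀ i, Om P' i := fun h i => cls (hP'P i i.2).1.pos (-(n + (h : ℤ))) with hcol
    have hmult : ∀ i b, ((Finset.univ.filter fun k => col k i = b).card : ℝ)
        ≤ (Y : ℝ) / ((i : ℕ) : ℝ) + 1 := by
      intro i b
      have h3 := mult (i : ℕ) (hP'P i i.2).1.pos x Y Hn hHnsub (-n - ((b : ℕ) : ℤ))
      refine le_trans ?_ h3
      have h4 : (Finset.univ.filter fun k => col k i = b).card
          ≤ (Hn.filter fun h => ((i : ℕ) : ℤ) ∣ h - (-n - ((b : ℕ) : ℤ))).card := by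
        refine Finset.card_le_card_of_injOn (fun k => (k : ℤ)) ?_ ?_
        · intro k hk
          have hk' := (Finset.mem_filter.1 (Finset.mem_coe.1 hk)).2
          refine Finset.mem_coe.2 (Finset.mem_filter.2 ⟨k.2, ?_⟩)
          have h5 := (eq_cls _ _ _).1 hk'.symm
          have h6 : (k : ℤ) - (-n - ((b : ℕ) : ℤ)) = -((-(n + (k : ℤ))) - ((b : ℕ) : ℤ)) := by ring
          rw [h6]
          exact (dvd_neg).2 h5
        · intro k _ k' _ h
          exact Subtype.ext h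
      exact_mod_cast h4
    have hA := coreW (Ω := Om P') col (fun i => om Y (i : ℕ)) (fun i => (Y : ℝ) / ((i : ℕ) : ℝ) + 1)
      hmult (fun i => by
        rw [pp_Om, om]
        have : (Y : ℝ) / ((i : ℕ) : ℝ) + 1 ≠ 0 := by positivity
        rw [div_mul_cancel₀ _ this]) (L := Real.log X / 2) (lam := om Y y)
      (θ := 2) (Γ := G) (E := η ^ 2 * Y / 64) hlev h2 (fun i =>
        om_mono (Nat.cast_nonneg _) (by omega) (hP'P i i.2).2.le) (om_pos (Nat.cast_nonneg _) (by omega))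
      (fun i => by
        rw [pp_Om]
        have h3 : (2 : ℝ) ≤ ((i : ℕ) : ℝ) := by exact_mod_cast (hP'P i i.2).1.two_le
        rw [div_le_iff₀ (by linarith)]
        linarith) (by norm_num) (by linarith) (fun τ hτ => gamma_bound y hly P' hP'P X (by linarith) τ hτ)
      hG0.le (by positivity) (hpar P' hP'P)
    rw [Fintype.card_coe] at hA
    have hU : ∑ h ∈ Hn, unhit (Ω := Om P') (fun i => cls (hP'P i i.2).1.pos (-(n + h))) Vn
        = ∑ k, unhit (Ω := Om P') (col k) Vn := by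
      rw [← Finset.sum_coe_sort Hn (fun h => unhit (Ω := Om P') (fun i => cls (hP'P i i.2).1.pos (-(n + h))) Vn)]
    rw [hU]
    set U := ∑ k, unhit (Ω := Om P') (col k) Vn with hUdef
    have hU0 : 0 ≤ U := Finset.sum_nonneg fun k _ => Finset.sum_nonneg fun x _ => by
      split_ifs
      · exact mul_self_nonneg _
      · exact le_rfl
    have hAY : (H₀.card : ℝ) ≤ Y := by
      have h3 := Finset.card_le_card hH₀sub
      rw [Int.card_Ioc] at h3
      have h4 : (x + Y - x).toNat = Y := by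
        have : x + (Y : ℤ) - x = Y := by ring
        rw [this]; exact Int.toNat_natCast Y
      rw [h4] at h3
      exact_mod_cast h3
    have hNA : (Hn.card : ℝ) ≤ H₀.card := by
      rw [hHnH₀]
      exact_mod_cast Finset.card_filter_le _ _
    have hal := aliveW y hly Q₁ hQ₁P d hd (fun p hp => (Finset.mem_filter.1 hp).2) x Y H₀ hH₀sub n
    rw [← hHnH₀] at hal
    have hr1 : Real.log d / Real.log y * ((Y : ℝ) / y + 1) ≤ η / 4 * Y := by
      refine le_trans (mul_le_mul_of_nonneg_right ?_ (by positivity)) hr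
      exact div_le_div_of_nonneg_right hlogd (by linarith)
    exact arith hη0 hη1 (Nat.cast_nonneg _) (Nat.cast_nonneg _) hAY (Nat.cast_nonneg _) hNA hal hr1
      (ip_self_nonneg Vn) hρ0 hρρ' hρ'G hGG hG0.le hU0 hA.1 hA.2
  have hlow : N * (ρ * (∑ n ∈ Finset.range M, (if (d : ℤ) ∣ (n : ℤ) - a then V n ^ 2 *
          ((H.filter fun h => ∀ p ∈ P₀, ¬ (p : ℤ) ∣ (n : ℤ) + h).card : ℝ) else 0)
          - η * Y * ∑ n ∈ Finset.range M, (if (d : ℤ) ∣ (n : ℤ) - a then V n ^ 2 else 0)))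
      = ρ * (N * ∑ n ∈ Finset.range M, (if (d : ℤ) ∣ (n : ℤ) - a then V n ^ 2 *
          ((H.filter fun h => ∀ p ∈ P₀, ¬ (p : ℤ) ∣ (n : ℤ) + h).card : ℝ) else 0))
          - ρ * (η * Y) * (N * ∑ n ∈ Finset.range M, (if (d : ℤ) ∣ (n : ℤ) - a then V n ^ 2 else 0)) := by
    ring
  have hupp : N * (ρ * (∑ n ∈ Finset.range M, (if (d : ℤ) ∣ (n : ℤ) - a then V n ^ 2 *
          ((H.filter fun h => ∀ p ∈ P₀, ¬ (p : ℤ) ∣ (n : ℤ) + h).card : ℝ) else 0)
          + η * Y * ∑ n ∈ Finset.range M, (if (d : ℤ) ∣ (n : ℤ) - a then V n ^ 2 else 0)))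
      = ρ * (N * ∑ n ∈ Finset.range M, (if (d : ℤ) ∣ (n : ℤ) - a then V n ^ 2 *
          ((H.filter fun h => ∀ p ∈ P₀, ¬ (p : ℤ) ∣ (n : ℤ) + h).card : ℝ) else 0))
          + ρ * (η * Y) * (N * ∑ n ∈ Finset.range M, (if (d : ℤ) ∣ (n : ℤ) - a then V n ^ 2 else 0)) := by
    ring
  constructor
  · refine le_of_mul_le_mul_left ?_ hNpos
    rw [hlow, e1, e0, e2, Finset.mul_sum, Finset.mul_sum, ← Finset.sum_sub_distrib]
    refine Finset.sum_le_sum fun n _ => ?_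
    split_ifs with hdn
    · refine le_trans (le_of_eq ?_) (key n).1
      ring
    · simp
  · refine le_of_mul_le_mul_left ?_ hNpos
    rw [hupp, e1, e0, e2, Finset.mul_sum, Finset.mul_sum, ← Finset.sum_add_distrib]
    refine Finset.sum_le_sum fun n _ => ?_
    split_ifs with hdn
    · refine le_trans (key n).2 (le_of_eq ?_)
      ring
    · simp

end Run7.h52.AsmW
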