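import Pool.Agent.Run7.h52.AsmW4

set_option autoImplicit false
set_option linter.unusedSectionVars false

namespace Run7.h52.AsmW

open Finset Run7.h52.Op Run7.h52.Core Run7.h52.CoreA Run7.h52.Count Run7.h52.Sums
  Run7.h52.Transfer Run7.h52.CoreW Run7.h52.BWS

/-- the large primes act independently -/
theorem mainW : ∀ δ : ℝ, 0 < δ → ∃ X₀ : ℝ, ∀ X : ℝ, X₀ ≤ X → ∀ y Y : ℕ,
    (Real.log X) ^ (1 + δ) ≤ y → y ≤ Y → ∀ (x : ℤ) (H : Finset ℤ), H ⊆ Finset.Ioc x (x + Y) →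
    ∀ P P₀ : Finset ℕ, (∀ p ∈ P, p.Prime ∧ y < p) → (∀ p ∈ P₀, p.Prime ∧ p ∉ P) →
    ∀ M : ℕ, 0 < M → (∀ p ∈ P ∪ P₀, p ∣ M) → ∀ w : ℤ → ℝ, SW.SquareWeight X M w →
    |∑ n ∈ Finset.range M, w n * (((SW.survivors (P ∪ P₀) H n).card : ℝ)
        - (∏ p ∈ P, (1 - 1 / (p : ℝ))) * ((SW.survivors P₀ H n).card : ℝ))|
      ≤ (∏ p ∈ P, (1 - 1 / (p : ℝ))) * ((Real.log X) ^ (-(δ / 3)) * Y) * ∑ n ∈ Finset.range M, w n := by
  intro δ hδ
  obtain ⟨X₀, hX₀⟩ := params δ hδ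
  refine ⟨X₀, fun X hX y Y hy hY x H hH P P₀ hP hP₀ M hM hPM w hw => ?_⟩
  obtain ⟨hy3, hlX, hly, hη1, hpar, hr, hexp⟩ := hX₀ X hX y Y hy hY
  have hη0 : 0 < (Real.log X) ^ (-(δ / 3)) := Real.rpow_pos_of_pos (by linarith) _
  set η := (Real.log X) ^ (-(δ / 3)) with hη
  set ρ := ∏ p ∈ P, (1 - 1 / (p : ℝ)) with hρ
  obtain ⟨J, d, R, a, V, hJ, hw⟩ := hw
  have e1 : ∀ F : ℤ → ℝ, ∑ n ∈ Finset.range M, w n * F n
      = ∑ j, ∑ n ∈ Finset.range M, (if (d j : ℤ) ∣ (n : ℤ) - a j then V j n ^ 2 * F n else 0) := by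
    intro F
    rw [Finset.sum_comm]
    refine Finset.sum_congr rfl fun n _ => ?_
    rw [hw, Finset.sum_mul]
    refine Finset.sum_congr rfl fun j _ => ?_
    rw [ite_mul, zero_mul]
  have e2 : ∑ n ∈ Finset.range M, w n
      = ∑ j, ∑ n ∈ Finset.range M, (if (d j : ℤ) ∣ (n : ℤ) - a j then V j n ^ 2 else 0) := by
    rw [Finset.sum_comm]
    exact Finset.sum_congr rfl fun n _ => hw n
  have e3 : ∑ n ∈ Finset.range M, w n * (((SW.survivors (P ∪ P₀) H n).card : ℝ)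
        - ρ * ((SW.survivors P₀ H n).card : ℝ))
      = ∑ n ∈ Finset.range M, w n * ((SW.survivors (P ∪ P₀) H n).card : ℝ)
        - ρ * ∑ n ∈ Finset.range M, w n * ((SW.survivors P₀ H n).card : ℝ) := by
    rw [Finset.mul_sum, ← Finset.sum_sub_distrib]
    exact Finset.sum_congr rfl fun n _ => by ring
  have e4 : ∀ P : Finset ℕ, ∑ n ∈ Finset.range M, w n * ((SW.survivors P H n).card : ℝ)
      = ∑ j, ∑ n ∈ Finset.range M, (if (d j : ℤ) ∣ (n : ℤ) - a j then V j n ^ 2 *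
          ((H.filter fun h => ∀ p ∈ P, ¬ (p : ℤ) ∣ (n : ℤ) + h).card : ℝ) else 0) := by
    intro P
    exact e1 (fun n => ((SW.survivors P H n).card : ℝ))
  rw [e3, e4, e4, e2, abs_le]
  have hpc : ∀ j, _ := fun j => by
    obtain ⟨h1, h2, h3, h4, h5, h6⟩ := hJ j
    exact piece hy3 hlX hly hη0 hη1 hpar hr hexp P P₀ hP (fun p hp => (hP₀ p hp).1)
      (fun p hp => (hP₀ p hp).2) x H hH M hM hPM (d j) (R j) (a j) (V j) h1 h2 h3 h4 h5 h6
  have hlo := Finset.sum_le_sum (fun j (_ : j ∈ (Finset.univ : Finset (Fin J))) => (hpc j).1)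
  have hup := Finset.sum_le_sum (fun j (_ : j ∈ (Finset.univ : Finset (Fin J))) => (hpc j).2)
  rw [← Finset.mul_sum, Finset.sum_sub_distrib, ← Finset.mul_sum, ← hρ] at hlo
  rw [← Finset.mul_sum, Finset.sum_add_distrib, ← Finset.mul_sum, ← hρ] at hup
  constructor
  · rw [mul_sub] at hlo
    linarith
  · rw [mul_add] at hup
    linarith

end Run7.h52.AsmW
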