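import Pool.Agent.Run7.h52.Barrier
import Pool.Agent.H154R3.Task469B

set_option autoImplicit false
set_option linter.unusedSectionVars false

namespace Run7.h52.Asym

open Finset Run7.h52.Count Run7.h52.Rough Run7.h52.Barrier

/-- the sieve of Brun and Hooley in an interval -/
lemma brun (R : ℕ) (hR : 13 ≤ R) (z y : ℕ) (hzy : z ≤ y) (hy : 2 ≤ y) (Y : ℕ) (x n : ℤ) :
    |rg z (Finset.Ioc x (x + Y)) n - W z * Y| ≤
      2 * (2 ^ 24 * (1 / 2) ^ (2 * R)) * (W z * Y) + (y : ℝ) ^ (8 * R + 16) := by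
  classical
  obtain ⟨N, hN⟩ := exists_rep z (n + x)
  obtain ⟨I, hI, hI1, hI2⟩ := Pool.Agent.H154R3.Fund.exists_I y hy
  have h1 := Pool.Agent.H154R3.Fund.sieve_two (PP z) (fun p hp => (mem_PP.1 hp).1) R hR I hI
    (fun p hp => ((mem_PP.1 hp).2.trans hzy).trans hI1) N Y
  have hW : ∏ p ∈ PP z, (1 - Pool.Agent.H446R2.dn p) = W z := rfl
  rw [hW] at h1
  have hcard : (((Finset.Ioc N (N + Y)).filter (fun n => ∀ p ∈ PP z, ¬ p ∣ n)).card : ℝ)
      = rg z (Finset.Ioc x (x + Y)) n := by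
    unfold rg
    congr 1
    refine Finset.card_bij (fun m _ => (m : ℤ) - N + x) ?_ ?_ ?_
    · intro m hm
      rw [Finset.mem_filter, Finset.mem_Ioc] at hm
      rw [SW.survivors, Finset.mem_filter, Finset.mem_Ioc]
      refine ⟨⟨by omega, by omega⟩, fun p hp hd => ?_⟩
      refine hm.2 p hp ?_
      rw [mem_PP] at hp
      have h3 : (p : ℤ) ∣ (m : ℤ) := by
        have e : (m : ℤ) = ((N : ℤ) - (n + x)) + (n + ((m : ℤ) - N + x)) := by ring
        rw [e]
        exact dvd_add (hN p hp.1 hp.2) hd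
      exact_mod_cast h3
    · intro a _ b _ hab
      omega
    · intro h hh
      rw [SW.survivors, Finset.mem_filter, Finset.mem_Ioc] at hh
      refine ⟨(h - x + N).toNat, ?_, ?_⟩
      · rw [Finset.mem_filter, Finset.mem_Ioc]
        refine ⟨⟨by omega, by omega⟩, fun p hp hd => ?_⟩
        refine hh.2 p hp ?_
        rw [mem_PP] at hp
        have h3 : (p : ℤ) ∣ ((h - x + N).toNat : ℤ) := by exact_mod_cast hd
        rw [Int.toNat_of_nonneg (by omega)] at h3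
        have e : n + h = (h - x + N) - ((N : ℤ) - (n + x)) := by ring
        rw [e]
        exact dvd_sub h3 (hN p hp.1 hp.2)
      · have : ((h - x + N).toNat : ℤ) = h - x + N := Int.toNat_of_nonneg (by omega)
        simp only [this]; ring
  rw [hcard] at h1
  refine h1.trans ?_
  have h2 : (2 : ℝ) ^ ((4 * R + 8) * 2 ^ I) ≤ (y : ℝ) ^ (8 * R + 16) := by
    have h3 : 2 ^ ((4 * R + 8) * 2 ^ I) ≤ y ^ (8 * R + 16) := by
      calc 2 ^ ((4 * R + 8) * 2 ^ I) = (2 ^ 2 ^ I) ^ (4 * R + 8) := by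
            rw [← pow_mul, mul_comm]
        _ ≤ (y ^ 2) ^ (4 * R + 8) := Nat.pow_le_pow_left hI2 _
        _ = y ^ (8 * R + 16) := by rw [← pow_mul]; congr 1; ring
    exact_mod_cast h3
  have h4 : 2 * (2 ^ 24 * (1 / 2 : ℝ) ^ (2 * R)) * (W z) * Y = 2 * (2 ^ 24 * (1 / 2 : ℝ) ^ (2 * R)) * (W z * Y) := by ring
  linarith

lemma W_anti {z y : ℕ} (h : z ≤ y) : W y ≤ W z := by
  have h1 : PP z ⊆ PP y := fun p hp => mem_PP.2 ⟨(mem_PP.1 hp).1, (mem_PP.1 hp).2.trans h⟩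
  unfold W
  rw [← Finset.prod_sdiff h1]
  refine mul_le_of_le_one_left ?_ ?_
  · exact (W_pos z).le
  · refine Finset.prod_le_one (fun p hp => ?_) (fun p hp => ?_)
    · have hp' := mem_PP.1 (Finset.mem_sdiff.1 hp).1
      have : (1 : ℝ) < p := by exact_mod_cast hp'.1.one_lt
      have : 1 / (p : ℝ) < 1 := by rw [div_lt_one (by linarith)]; exact this
      linarith
    · have : (0 : ℝ) ≤ 1 / (p : ℝ) := by positivity
      linarith

lemma W_le_one (z : ℕ) : W z ≤ 1 := by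
  have h := W_anti (Nat.zero_le z)
  have h0 : W 0 = 1 := by
    unfold W PP
    simp
  rwa [h0] at h

/-- the product splits -/
lemma W_split {z y : ℕ} (h : y ≤ z) :
    W z = (∏ p ∈ (PP z).filter (fun p => y < p), (1 - 1 / (p : ℝ))) * W y := by
  unfold W
  rw [← Finset.prod_filter_mul_prod_filter_not (PP z) (fun p => y < p)]
  congr 2
  ext p
  rw [Finset.mem_filter, mem_PP, mem_PP]
  constructor
  · rintro ⟨h1, h2⟩
    exact ⟨h1.1, not_lt.1 h2⟩
  · rintro ⟨h1, h2⟩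
    exact ⟨⟨h1, h2.trans h⟩, not_lt.2 h2⟩

lemma PP_split {z y : ℕ} (h : y ≤ z) : (PP z).filter (fun p => y < p) ∪ PP y = PP z := by
  ext p
  rw [Finset.mem_union, Finset.mem_filter, mem_PP, mem_PP]
  constructor
  · rintro (⟨h, _⟩ | h')
    · exact h
    · exact ⟨h'.1, h'.2.trans h⟩
  · intro h
    rcases le_or_gt p y with h1 | h1
    · exact Or.inr ⟨h.1, h1⟩
    · exact Or.inl ⟨h, h1⟩

/-- the large primes for rough numbers in an interval -/
lemma large (δ : ℝ) (hδ : 0 < δ) : ∃ X₀ : ℝ, ∀ X : ℝ, X₀ ≤ X → ∀ y Y : ℕ,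
    (Real.log X) ^ (1 + δ) ≤ y → y ≤ Y → ∀ z : ℕ, y ≤ z → ∀ M : ℕ, 0 < M → (∀ p ∈ PP z, p ∣ M) →
    ∀ w : ℤ → ℝ, SW.SquareWeight X M w → ∀ x : ℤ,
    |∑ n ∈ Finset.range M, w n * rg z (Finset.Ioc x (x + Y)) n
      - (∏ p ∈ (PP z).filter (fun p => y < p), (1 - 1 / (p : ℝ))) *
        ∑ n ∈ Finset.range M, w n * rg y (Finset.Ioc x (x + Y)) n|
      ≤ (∏ p ∈ (PP z).filter (fun p => y < p), (1 - 1 / (p : ℝ))) *
        ((Real.log X) ^ (-(δ / 3)) * Y) * ∑ n ∈ Finset.range M, w n := by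
  obtain ⟨X₀, h⟩ := AsmW.mainW δ hδ
  refine ⟨X₀, fun X hX y Y hy hyY z hyz M hM hPM w hw x => ?_⟩
  have h1 := h X hX y Y hy hyY x (Finset.Ioc x (x + Y)) (Finset.Subset.refl _)
    ((PP z).filter (fun p => y < p)) (PP y)
    (fun p hp => ⟨(mem_PP.1 (Finset.mem_filter.1 hp).1).1, (Finset.mem_filter.1 hp).2⟩)
    (fun p hp => ⟨(mem_PP.1 hp).1, fun hp' => by
      have := (Finset.mem_filter.1 hp').2
      have := (mem_PP.1 hp).2
      omega⟩) M hM (by rw [PP_split hyz]; exact hPM) w hw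
  rw [PP_split hyz] at h1
  refine le_trans (le_of_eq ?_) h1
  congr 1
  rw [Finset.mul_sum, ← Finset.sum_sub_distrib]
  refine Finset.sum_congr rfl fun n _ => ?_
  unfold rg
  ring

/-- numerical input -/
lemma numer {A : ℝ} (hA : 1000 ≤ A) :
    2 * (2 ^ 24 * (1 / 2 : ℝ) ^ (2 * ⌊A / 40⌋₊)) ≤ Real.exp (-(A / 100)) / 4 := by
  have hl1 := Real.log_two_gt_d9
  have hl2 := Real.log_two_lt_d9
  set R := ⌊A / 40⌋₊ with hR
  have hR1 : A / 40 - 1 ≤ R := by
    have := Nat.lt_floor_add_one (A / 40)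
    linarith
  have h1 : (1 / 2 : ℝ) ^ (2 * R) = Real.exp (-(2 * R * Real.log 2)) := by
    have h2 : (1 / 2 : ℝ) = Real.exp (-Real.log 2) := by
      rw [Real.exp_neg, Real.exp_log (by norm_num)]; norm_num
    rw [h2, ← Real.exp_nat_mul]
    congr 1
    push_cast
    ring
  have h2 : (2 : ℝ) ^ 24 = Real.exp (24 * Real.log 2) := by
    have h3 : Real.exp (24 * Real.log 2) = (2 : ℝ) ^ 24 := by
      have := Real.exp_nat_mul (Real.log 2) 24
      push_cast at this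
      rw [this, Real.exp_log (by norm_num)]
    exact h3.symm
  have h3 : (2 : ℝ) = Real.exp (Real.log 2) := (Real.exp_log (by norm_num)).symm
  have h4 : (1 / 4 : ℝ) = Real.exp (-(2 * Real.log 2)) := by
    rw [Real.exp_neg]
    have : Real.exp (2 * Real.log 2) = 4 := by
      rw [two_mul, Real.exp_add, Real.exp_log (by norm_num)]; norm_num
    rw [this]; norm_num
  calc 2 * (2 ^ 24 * (1 / 2 : ℝ) ^ (2 * R))
      = Real.exp (Real.log 2) * (Real.exp (24 * Real.log 2) * Real.exp (-(2 * R * Real.log 2))) := by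
        rw [h1, ← h2, ← h3]
    _ = Real.exp (Real.log 2 + (24 * Real.log 2 + -(2 * R * Real.log 2))) := by
        rw [Real.exp_add, Real.exp_add]
    _ ≤ Real.exp (-(A / 100) + -(2 * Real.log 2)) := by
        refine Real.exp_le_exp.2 ?_
        have h5 : (A / 40 - 1) * Real.log 2 ≤ R * Real.log 2 :=
          mul_le_mul_of_nonneg_right hR1 (by linarith)
        nlinarith
    _ = Real.exp (-(A / 100)) / 4 := by
        rw [Real.exp_add, ← h4]; ring

/-- the parameters of the asymptotic formula -/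
lemma params2 (A : ℝ) (hA : 1000 ≤ A) : ∃ X₀ : ℝ, ∀ X : ℝ, X₀ ≤ X → ∃ y : ℕ, 3 ≤ y ∧
    (Real.log X) ^ (1 + 1 : ℝ) ≤ y ∧ (∀ Y : ℕ, (Real.log X) ^ A ≤ Y → y ≤ Y ∧
      (y : ℝ) ^ (8 * ⌊A / 40⌋₊ + 16) ≤ Real.exp (-(A / 100)) / 4 * (W y * Y)) ∧
      (Real.log X) ^ (-(1 / 3 : ℝ)) ≤ Real.exp (-(A / 100)) / 4 * W y := by
  obtain ⟨c, hc, hWc⟩ := AsmA.W_log
  set e : ℝ := Real.exp (-(A / 100)) / 4 with he
  have he0 : 0 < e := by positivity
  have ev1 : ∀ᶠ l : ℝ in Filter.atTop, 4 * Real.log l ≤ e * c * l ^ (1 / 3 : ℝ) := by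
    have h1 := (isLittleO_log_rpow_atTop (by norm_num : (0 : ℝ) < 1 / 3)).def
      (c := e * c / 4) (by positivity)
    filter_upwards [h1, Filter.eventually_ge_atTop 1] with l h3 h5
    rw [Real.norm_of_nonneg (Real.log_nonneg h5), Real.norm_of_nonneg (by positivity)] at h3
    linarith
  obtain ⟨l₀, hl₀⟩ := Filter.eventually_atTop.1 ev1
  refine ⟨Real.exp (max l₀ 4), fun X hX => ?_⟩
  have hX0 : 0 < X := (Real.exp_pos _).trans_le hX
  set l := Real.log X with hl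
  have hl1 : max l₀ 4 ≤ l := by rw [hl, Real.le_log_iff_exp_le hX0]; exact hX
  have hl4 : 4 ≤ l := (le_max_right _ _).trans hl1
  have h1 := hl₀ l ((le_max_left _ _).trans hl1)
  have hl0 : 0 < l := by linarith
  have hsq : l ^ (1 + 1 : ℝ) = l ^ 2 := by
    rw [← Real.rpow_natCast l 2]; norm_num
  set y : ℕ := ⌈l ^ 2⌉₊ with hy
  have hly : l ^ 2 ≤ y := Nat.le_ceil _
  have hyl : (y : ℝ) ≤ l ^ 3 := by
    have := (Nat.ceil_lt_add_one (by positivity : 0 ≤ l ^ 2)).le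
    have h2 : l ^ 2 + 1 ≤ l ^ 3 := by nlinarith [sq_nonneg l]
    linarith
  have hy3' : (3 : ℝ) ≤ y := by nlinarith
  have hy3 : 3 ≤ y := by exact_mod_cast hy3'
  have hlogl : 0 < Real.log l := Real.log_pos (by linarith)
  have hlogy : Real.log y ≤ 3 * Real.log l := by
    have h2 := Real.log_le_log (by linarith) hyl
    rw [Real.log_pow] at h2
    push_cast at h2
    exact h2
  have hlogy0 : 0 < Real.log y := Real.log_pos (by linarith)
  have hW : c / (3 * Real.log l) ≤ W y := by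
    rw [div_le_iff₀ (by positivity)]
    exact (hWc y hy3).trans (mul_le_mul_of_nonneg_left hlogy (W_pos y).le)
  have hmain : l ^ (-(1 / 3 : ℝ)) ≤ e * W y := by
    have h2 : l ^ (-(1 / 3 : ℝ)) * l ^ (1 / 3 : ℝ) = 1 := by
      rw [← Real.rpow_add hl0]; simp
    have h3 : 0 < l ^ (-(1 / 3 : ℝ)) := Real.rpow_pos_of_pos hl0 _
    have h4 : l ^ (-(1 / 3 : ℝ)) * (3 * Real.log l) ≤ e * c := by
      calc l ^ (-(1 / 3 : ℝ)) * (3 * Real.log l) ≤ l ^ (-(1 / 3 : ℝ)) * (e * c * l ^ (1 / 3 : ℝ)) :=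
            mul_le_mul_of_nonneg_left (by linarith) h3.le
        _ = e * c * (l ^ (-(1 / 3 : ℝ)) * l ^ (1 / 3 : ℝ)) := by ring
        _ = e * c := by rw [h2, mul_one]
    calc l ^ (-(1 / 3 : ℝ)) ≤ e * c / (3 * Real.log l) := by
          rw [le_div_iff₀ (by positivity)]; exact h4
      _ = e * (c / (3 * Real.log l)) := by ring
      _ ≤ _ := mul_le_mul_of_nonneg_left hW he0.le
  refine ⟨y, hy3, by rw [hsq]; exact hly, fun Y hY => ?_, hmain⟩
  have hl3A : l ^ 3 ≤ l ^ A := by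
    rw [← Real.rpow_natCast l 3]
    exact Real.rpow_le_rpow_of_exponent_le (by linarith) (by push_cast; linarith)
  refine ⟨by exact_mod_cast (hyl.trans hl3A).trans hY, ?_⟩
  set R := ⌊A / 40⌋₊ with hR
  have hRA : (R : ℝ) ≤ A / 40 := Nat.floor_le (by linarith)
  calc (y : ℝ) ^ (8 * R + 16) ≤ (l ^ 3) ^ (8 * R + 16) :=
        pow_le_pow_left₀ (by positivity) hyl _
    _ = l ^ ((3 * (8 * R + 16) : ℕ) : ℝ) := by rw [← pow_mul, Real.rpow_natCast]
    _ ≤ l ^ (A - 1) := by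
        refine Real.rpow_le_rpow_of_exponent_le (by linarith) ?_
        push_cast
        linarith
    _ = l ^ (-(1 : ℝ)) * l ^ A := by rw [← Real.rpow_add hl0]; congr 1; ring
    _ ≤ l ^ (-(1 / 3 : ℝ)) * Y := by
        refine mul_le_mul ?_ hY (Real.rpow_nonneg hl0.le _) (Real.rpow_nonneg hl0.le _)
        exact Real.rpow_le_rpow_of_exponent_le (by linarith) (by norm_num)
    _ ≤ (e * W y) * Y := mul_le_mul_of_nonneg_right hmain (Nat.cast_nonneg _)
    _ = _ := by ring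

/-- the asymptotic formula -/
theorem asym : ∀ A : ℝ, 1000 ≤ A → ∃ X₀ : ℝ, ∀ X : ℝ, X₀ ≤ X → ∀ Y : ℕ,
    (Real.log X) ^ A ≤ Y → ∀ z M : ℕ, 0 < M → (∀ p ∈ PP z, p ∣ M) →
    ∀ w : ℤ → ℝ, SW.SquareWeight X M w → ∀ x : ℤ,
    |∑ n ∈ Finset.range M, w n * rg z (Finset.Ioc x (x + Y)) n - W z * Y * ∑ n ∈ Finset.range M, w n|
      ≤ Real.exp (-(A / 100)) * (W z * Y) * ∑ n ∈ Finset.range M, w n := by
  intro A hA
  obtain ⟨X₁, hX₁⟩ := params2 A hA
  obtain ⟨X₂, hX₂⟩ := large 1 one_pos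
  refine ⟨max X₁ X₂, fun X hX Y hY z M hM hPM w hw x => ?_⟩
  obtain ⟨y, hy3, hly, hall, hη⟩ := hX₁ X ((le_max_left _ _).trans hX)
  obtain ⟨hyY, hpow⟩ := hall Y hY
  set e := Real.exp (-(A / 100)) with he
  have he0 : 0 < e := Real.exp_pos _
  have hR13 : 13 ≤ ⌊A / 40⌋₊ := by
    apply Nat.le_floor
    push_cast
    linarith
  have hw0 : ∀ n, 0 ≤ w n := sw_nonneg hw
  set Wt := ∑ n ∈ Finset.range M, w n with hWt
  have hWt0 : 0 ≤ Wt := Finset.sum_nonneg fun n _ => hw0 n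
  -- small `z`
  have small : ∀ z : ℕ, z ≤ y → |∑ n ∈ Finset.range M, w n * rg z (Finset.Ioc x (x + Y)) n - W z * Y * Wt|
      ≤ e / 2 * (W z * Y) * Wt := by
    intro z hz
    have h1 : ∀ n : ℤ, |rg z (Finset.Ioc x (x + Y)) n - W z * Y| ≤ e / 2 * (W z * Y) := by
      intro n
      refine (brun ⌊A / 40⌋₊ hR13 z y hz (by omega) Y x n).trans ?_
      have h2 : 2 * (2 ^ 24 * (1 / 2) ^ (2 * ⌊A / 40⌋₊)) * (W z * Y) ≤ e / 4 * (W z * Y) :=
        mul_le_mul_of_nonneg_right (numer hA) (mul_nonneg (W_pos z).le (Nat.cast_nonneg _))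
      have h3 : (y : ℝ) ^ (8 * ⌊A / 40⌋₊ + 16) ≤ e / 4 * (W z * Y) :=
        hpow.trans (mul_le_mul_of_nonneg_left
          (mul_le_mul_of_nonneg_right (W_anti hz) (Nat.cast_nonneg _)) (by positivity))
      linarith
    have h2 : ∑ n ∈ Finset.range M, w n * rg z (Finset.Ioc x (x + Y)) n - W z * Y * Wt
        = ∑ n ∈ Finset.range M, w n * (rg z (Finset.Ioc x (x + Y)) n - W z * Y) := by
      rw [hWt, Finset.mul_sum, ← Finset.sum_sub_distrib]
      exact Finset.sum_congr rfl fun n _ => by ring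
    rw [h2]
    refine (Finset.abs_sum_le_sum_abs _ _).trans ?_
    rw [hWt, Finset.mul_sum]
    refine Finset.sum_le_sum fun n _ => ?_
    rw [abs_mul, abs_of_nonneg (hw0 n), mul_comm]
    exact mul_le_mul_of_nonneg_right (h1 n) (hw0 n)
  rcases le_total z y with hzy | hzy
  · refine (small z hzy).trans (mul_le_mul_of_nonneg_right ?_ hWt0)
    have := mul_nonneg (W_pos z).le (Nat.cast_nonneg Y : (0 : ℝ) ≤ Y)
    nlinarith
  · have h1 := hX₂ X ((le_max_right _ _).trans hX) y Y hly hyY z hzy M hM hPM w hw x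
    have h2 := small y le_rfl
    have hs := W_split hzy
    set ρ := ∏ p ∈ (PP z).filter (fun p => y < p), (1 - 1 / (p : ℝ)) with hρ
    have hρ0 : 0 ≤ ρ := by
      refine Finset.prod_nonneg fun p hp => ?_
      have : (1 : ℝ) < p := by exact_mod_cast (mem_PP.1 (Finset.mem_filter.1 hp).1).1.one_lt
      have : 1 / (p : ℝ) < 1 := by rw [div_lt_one (by linarith)]; exact this
      linarith
    set S := ∑ n ∈ Finset.range M, w n * rg z (Finset.Ioc x (x + Y)) n with hS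
    set S' := ∑ n ∈ Finset.range M, w n * rg y (Finset.Ioc x (x + Y)) n with hS'
    have h3 : |ρ * S' - W z * Y * Wt| ≤ ρ * (e / 2 * (W y * Y) * Wt) := by
      have : ρ * S' - W z * Y * Wt = ρ * (S' - W y * Y * Wt) := by rw [hs]; ring
      rw [this, abs_mul, abs_of_nonneg hρ0]
      exact mul_le_mul_of_nonneg_left h2 hρ0
    have h4 : ρ * ((Real.log X) ^ (-(1 / 3 : ℝ)) * Y) * Wt ≤ ρ * (e / 4 * W y * Y) * Wt := by
      refine mul_le_mul_of_nonneg_right (mul_le_mul_of_nonneg_left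
        (mul_le_mul_of_nonneg_right hη (Nat.cast_nonneg _)) hρ0) hWt0
    calc |S - W z * Y * Wt| = |(S - ρ * S') + (ρ * S' - W z * Y * Wt)| := by congr 1; ring
      _ ≤ |S - ρ * S'| + |ρ * S' - W z * Y * Wt| := abs_add_le _ _
      _ ≤ ρ * (e / 4 * W y * Y) * Wt + ρ * (e / 2 * (W y * Y) * Wt) := add_le_add (h1.trans h4) h3
      _ = 3 / 4 * (e * (W z * Y) * Wt) := by rw [hs]; ring
      _ ≤ _ := by
          have : 0 ≤ e * (W z * Y) * Wt :=
            mul_nonneg (mul_nonneg he0.le (mul_nonneg (W_pos z).le (Nat.cast_nonneg _))) hWt0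
          linarith

end Run7.h52.Asym
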