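import Pool.Agent.Run7.h52.Asym

set_option autoImplicit false
set_option linter.unusedSectionVars false

namespace Run7.h52.Asym

open Finset Run7.h52.Count Run7.h52.Rough Run7.h52.Barrier

lemma W_up : ∃ C : ℝ, 0 < C ∧ ∀ z : ℕ, 2 ≤ z → W z ≤ C / Real.log z := by
  obtain ⟨C, hC⟩ := Pool.Agent.Helper256.KM.mertens_inv
  refine ⟨max (Real.exp C) (Real.log 2), by positivity, fun z hz => ?_⟩
  have hzr : (2 : ℝ) ≤ z := by exact_mod_cast hz
  have hlz : 0 < Real.log z := Real.log_pos (by linarith)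
  rcases Nat.lt_or_ge z 3 with h | h
  · have hz2 : z = 2 := by omega
    rw [le_div_iff₀ hlz]
    have h1 : W z * Real.log z ≤ 1 * Real.log z := mul_le_mul_of_nonneg_right (W_le_one z) hlz.le
    refine h1.trans ?_
    rw [one_mul, hz2]
    push_cast
    exact le_max_right _ _
  · have h1 := (abs_le.1 (hC z h)).1
    have h2 : W z ≤ Real.exp (-(∑ p ∈ (Finset.Icc 1 z).filter Nat.Prime, 1 / (p : ℝ))) := by
      rw [← Finset.sum_neg_distrib, Real.exp_sum]
      refine Finset.prod_le_prod (fun p hp => ?_) (fun p hp => ?_)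
      · have hp' := mem_PP.1 hp
        have : (1 : ℝ) < p := by exact_mod_cast hp'.1.one_lt
        have : 1 / (p : ℝ) < 1 := by rw [div_lt_one (by linarith)]; exact this
        linarith
      · have := Real.add_one_le_exp (-(1 / (p : ℝ)))
        linarith
    refine h2.trans ?_
    calc Real.exp (-(∑ p ∈ (Finset.Icc 1 z).filter Nat.Prime, 1 / (p : ℝ)))
        ≤ Real.exp (C - Real.log (Real.log z)) := by
          refine Real.exp_le_exp.2 ?_
          have h3 : Real.log (Real.log z) - C ≤ ∑ p ∈ (Finset.Icc 1 z).filter Nat.Prime, 1 / (p : ℝ) := by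
            linarith
          linarith
      _ = Real.exp C / Real.log z := by rw [Real.exp_sub, Real.exp_log hlz]
      _ ≤ _ := div_le_div_of_nonneg_right (le_max_left _ _) hlz.le

/-- upper bound for rough numbers in an interval -/
theorem rough_up : ∃ C : ℝ, 0 < C ∧ ∀ Y z : ℕ, 2 ≤ z → z ≤ Y → ∀ x n : ℤ,
    rg z (Finset.Ioc x (x + Y)) n ≤ C * (Y / Real.log z) := by
  obtain ⟨C₁, hC₁, hW⟩ := W_up
  refine ⟨max (240 * Real.log 4) (720 * C₁ + 1), by positivity, fun Y z hz hzY x n => ?_⟩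
  have hzr : (2 : ℝ) ≤ z := by exact_mod_cast hz
  have hz0 : (0 : ℝ) < z := by linarith
  have hlz : 0 < Real.log z := Real.log_pos (by linarith)
  have hY0 : (0 : ℝ) ≤ Y := Nat.cast_nonneg _
  have hYz : (z : ℝ) ≤ Y := by exact_mod_cast hzY
  have htriv : rg z (Finset.Ioc x (x + Y)) n ≤ Y := by
    unfold rg
    have h1 : (SW.survivors (PP z) (Finset.Ioc x (x + Y)) n).card ≤ (Finset.Ioc x (x + (Y : ℤ))).card :=
      Finset.card_filter_le _ _
    rw [Int.card_Ioc] at h1
    have h2 : (x + (Y : ℤ) - x).toNat = Y := by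
      rw [show x + (Y : ℤ) - x = Y by ring]; exact Int.toNat_natCast Y
    rw [h2] at h1
    exact_mod_cast h1
  set t : ℝ := (z : ℝ) ^ (1 / 240 : ℝ) with ht
  have ht0 : 0 < t := Real.rpow_pos_of_pos hz0 _
  have hlt : Real.log t = 1 / 240 * Real.log z := by rw [ht, Real.log_rpow hz0]
  rcases lt_or_ge t 4 with h4 | h4
  · have h1 : Real.log t ≤ Real.log 4 := Real.log_le_log ht0 h4.le
    have h2 : Real.log z ≤ 240 * Real.log 4 := by rw [hlt] at h1; linarith
    refine htriv.trans ?_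
    calc (Y : ℝ) = Real.log z * (Y / Real.log z) := by field_simp
      _ ≤ max (240 * Real.log 4) (720 * C₁ + 1) * (Y / Real.log z) :=
          mul_le_mul_of_nonneg_right (h2.trans (le_max_left _ _)) (by positivity)
  · set z' : ℕ := ⌊t⌋₊ with hz'
    have h1 : (z' : ℝ) ≤ t := Nat.floor_le ht0.le
    have h2 : t / 2 ≤ z' := by
      have := Nat.lt_floor_add_one t
      rw [← hz'] at this
      linarith
    have h3 : (2 : ℝ) ≤ z' := by linarith
    have h3' : 2 ≤ z' := by exact_mod_cast h3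
    have htz : t ≤ z := by
      calc t ≤ (z : ℝ) ^ (1 : ℝ) := Real.rpow_le_rpow_of_exponent_le (by linarith) (by norm_num)
        _ = z := Real.rpow_one _
    have hz'z : z' ≤ z := by exact_mod_cast h1.trans htz
    have h5 := (abs_le.1 (brun 13 le_rfl z' z' le_rfl h3' Y x n)).2
    have h6 : 2 * (2 ^ 24 * (1 / 2 : ℝ) ^ (2 * 13)) = 1 / 2 := by norm_num
    rw [h6] at h5
    have h7 : (z' : ℝ) ^ (8 * 13 + 16) ≤ Real.sqrt z := by
      calc (z' : ℝ) ^ (8 * 13 + 16) ≤ t ^ (8 * 13 + 16) := pow_le_pow_left₀ (by positivity) h1 _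
        _ = Real.sqrt z := by
          rw [ht, ← Real.rpow_natCast, ← Real.rpow_mul hz0.le, Real.sqrt_eq_rpow]
          norm_num
    have h8 : Real.log z / 480 ≤ Real.log z' := by
      have h9 : Real.log (t / 2) ≤ Real.log z' := Real.log_le_log (by positivity) h2
      rw [Real.log_div ht0.ne' (by norm_num), hlt] at h9
      have h10 : Real.log 4 ≤ Real.log t := Real.log_le_log (by norm_num) h4
      have h11 : Real.log 4 = 2 * Real.log 2 := by
        rw [show (4 : ℝ) = 2 ^ 2 by norm_num, Real.log_pow]; norm_num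
      rw [hlt] at h10
      linarith
    have h9 : W z' ≤ 480 * C₁ / Real.log z := by
      refine (hW z' h3').trans ?_
      calc C₁ / Real.log z' ≤ C₁ / (Real.log z / 480) :=
            div_le_div_of_nonneg_left hC₁.le (by positivity) h8
        _ = _ := by field_simp
    have h10 : Real.sqrt z ≤ Y / Real.log z := by
      rw [le_div_iff₀ hlz]
      have h11 : Real.log z ≤ Real.sqrt z := by
        have h12 : Real.log (Real.sqrt z) ≤ Real.sqrt z / Real.exp 1 := by
          have h13 : 0 < Real.sqrt z := Real.sqrt_pos.2 hz0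
          have h14 := Real.add_one_le_exp (Real.log (Real.sqrt z) - 1)
          rw [Real.exp_sub, Real.exp_log h13] at h14
          linarith
        rw [Real.log_sqrt hz0.le] at h12
        have h15 : Real.sqrt z / Real.exp 1 ≤ Real.sqrt z / 2 :=
          div_le_div_of_nonneg_left (Real.sqrt_nonneg _) (by norm_num) (by linarith [Real.exp_one_gt_d9])
        linarith
      calc Real.sqrt z * Real.log z ≤ Real.sqrt z * Real.sqrt z :=
            mul_le_mul_of_nonneg_left h11 (Real.sqrt_nonneg _)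
        _ = z := Real.mul_self_sqrt hz0.le
        _ ≤ Y := hYz
    have h11 : rg z (Finset.Ioc x (x + Y)) n ≤ rg z' (Finset.Ioc x (x + Y)) n := rg_mono hz'z _ n
    have h12 : W z' * Y ≤ 480 * C₁ / Real.log z * Y := mul_le_mul_of_nonneg_right h9 hY0
    have h13 : rg z' (Finset.Ioc x (x + Y)) n - W z' * Y ≤ 1 / 2 * (W z' * Y) + Real.sqrt z :=
      h5.trans (add_le_add le_rfl h7)
    calc rg z (Finset.Ioc x (x + Y)) n ≤ 3 / 2 * (W z' * Y) + Real.sqrt z := by linarith
      _ ≤ 3 / 2 * (480 * C₁ / Real.log z * Y) + Y / Real.log z := by linarith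
      _ = (720 * C₁ + 1) * (Y / Real.log z) := by ring
      _ ≤ _ := mul_le_mul_of_nonneg_right (le_max_right _ _) (by positivity)

/-- upper bound of the right order -/
theorem upper : ∀ δ : ℝ, 0 < δ → ∃ C : ℝ, 0 < C ∧ ∃ X₀ : ℝ, ∀ X : ℝ, X₀ ≤ X → ∀ Y : ℕ,
    (Real.log X) ^ (1 + δ) ≤ Y → ∀ z : ℕ, 2 ≤ z → ∀ M : ℕ, 0 < M → (∀ p ∈ PP z, p ∣ M) →
    ∀ w : ℤ → ℝ, SW.SquareWeight X M w → ∀ x : ℤ,
    ∑ n ∈ Finset.range M, w n * rg z (Finset.Ioc x (x + Y)) n
      ≤ C * (Y / Real.log z) * ∑ n ∈ Finset.range M, w n := by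
  intro δ hδ
  obtain ⟨C₁, hC₁, hup⟩ := rough_up
  obtain ⟨C₂, hC₂, hW⟩ := W_up
  obtain ⟨c, hc, hWc⟩ := AsmA.W_log
  obtain ⟨X₁, hX₁⟩ := large δ hδ
  have hδ3 : 0 < δ / 3 := by positivity
  have ev1 : ∀ᶠ l : ℝ in Filter.atTop, (2 + δ) * Real.log l ≤ l ^ (δ / 3) := by
    have h1 := (isLittleO_log_rpow_atTop hδ3).def (c := 1 / (2 + δ)) (by positivity)
    filter_upwards [h1, Filter.eventually_ge_atTop 1] with l h3 h5
    rw [Real.norm_of_nonneg (Real.log_nonneg h5), Real.norm_of_nonneg (by positivity)] at h3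
    rw [div_mul_eq_mul_div, one_mul, le_div_iff₀ (by positivity)] at h3
    linarith
  obtain ⟨l₀, hl₀⟩ := Filter.eventually_atTop.1 ev1
  refine ⟨max C₁ (C₂ / c * (C₁ + 1)), by positivity, max X₁ (Real.exp (max l₀ 4)),
    fun X hX Y hY z hz M hM hPM w hw x => ?_⟩
  have hX0 : 0 < X := (Real.exp_pos _).trans_le ((le_max_right _ _).trans hX)
  set l := Real.log X with hl
  have hl1 : max l₀ 4 ≤ l := by
    rw [hl, Real.le_log_iff_exp_le hX0]; exact (le_max_right _ _).trans hX
  have hl4 : 4 ≤ l := (le_max_right _ _).trans hl1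
  have hl0 : 0 < l := by linarith
  have hev := hl₀ l ((le_max_left _ _).trans hl1)
  set T : ℝ := l ^ (1 + δ) with hT
  have hlT : l ≤ T := by
    calc l = l ^ (1 : ℝ) := (Real.rpow_one l).symm
      _ ≤ l ^ (1 + δ) := Real.rpow_le_rpow_of_exponent_le (by linarith) (by linarith)
  set y : ℕ := ⌈T⌉₊ with hy
  have hTy : T ≤ y := Nat.le_ceil _
  have hyT : (y : ℝ) ≤ 2 * T := by
    have := (Nat.ceil_lt_add_one (by linarith : 0 ≤ T)).le
    linarith
  have hyY : y ≤ Y := Nat.ceil_le.2 hY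
  have hy4 : (4 : ℝ) ≤ y := by linarith
  have hy3 : 3 ≤ y := by
    have : (3 : ℝ) ≤ y := by linarith
    exact_mod_cast this
  have hlogy : 0 < Real.log y := Real.log_pos (by linarith)
  have hlogy2 : Real.log y ≤ (2 + δ) * Real.log l := by
    have h2 := Real.log_le_log (by linarith) hyT
    rw [Real.log_mul (by norm_num) (by linarith : T ≠ 0) , hT, Real.log_rpow hl0] at h2
    have h3 : Real.log 2 ≤ Real.log l := Real.log_le_log (by norm_num) (by linarith)
    linarith
  have hw0 : ∀ n, 0 ≤ w n := sw_nonneg hw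
  set Wt := ∑ n ∈ Finset.range M, w n with hWt
  have hWt0 : 0 ≤ Wt := Finset.sum_nonneg fun n _ => hw0 n
  have hzr : (2 : ℝ) ≤ z := by exact_mod_cast hz
  have hlz : 0 < Real.log z := Real.log_pos (by linarith)
  have hpt : ∀ z : ℕ, 2 ≤ z → z ≤ y → ∑ n ∈ Finset.range M, w n * rg z (Finset.Ioc x (x + Y)) n
      ≤ C₁ * (Y / Real.log z) * Wt := by
    intro z hz hzy
    rw [hWt, Finset.mul_sum]
    refine Finset.sum_le_sum fun n _ => ?_
    rw [mul_comm]
    exact mul_le_mul_of_nonneg_right (hup Y z hz (hzy.trans hyY) x n) (hw0 n)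
  rcases le_total z y with hzy | hzy
  · refine (hpt z hz hzy).trans (mul_le_mul_of_nonneg_right ?_ hWt0)
    exact mul_le_mul_of_nonneg_right (le_max_left _ _) (by positivity)
  · have h1 := hX₁ X ((le_max_left _ _).trans hX) y Y hTy hyY z hzy M hM hPM w hw x
    have h2 := hpt y (by omega) le_rfl
    have hs := W_split hzy
    set ρ := ∏ p ∈ (PP z).filter (fun p => y < p), (1 - 1 / (p : ℝ)) with hρ
    have hρ0 : 0 ≤ ρ := by
      refine Finset.prod_nonneg fun p hp => ?_
      have : (1 : ℝ) < p := by exact_mod_cast (mem_PP.1 (Finset.mem_filter.1 hp).1).1.one_lt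
      have : 1 / (p : ℝ) < 1 := by rw [div_lt_one (by linarith)]; exact this
      linarith
    have hρup : ρ ≤ C₂ / c * (Real.log y / Real.log z) := by
      have h3 := hW z hz
      rw [hs, le_div_iff₀ hlz] at h3
      have h4 := hWc y hy3
      have h5 : ρ * Real.log z * c ≤ C₂ * Real.log y := by
        calc ρ * Real.log z * c ≤ ρ * Real.log z * (W y * Real.log y) :=
              mul_le_mul_of_nonneg_left h4 (by positivity)
          _ = (ρ * W y * Real.log z) * Real.log y := by ring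
          _ ≤ C₂ * Real.log y := mul_le_mul_of_nonneg_right h3 hlogy.le
      rw [div_mul_div_comm, le_div_iff₀ (by positivity)]
      linarith
    have hη : l ^ (-(δ / 3)) * Real.log y ≤ 1 := by
      have h3 : l ^ (-(δ / 3)) * l ^ (δ / 3) = 1 := by
        rw [← Real.rpow_add hl0]; simp
      have h4 : 0 < l ^ (-(δ / 3)) := Real.rpow_pos_of_pos hl0 _
      calc l ^ (-(δ / 3)) * Real.log y ≤ l ^ (-(δ / 3)) * l ^ (δ / 3) :=
            mul_le_mul_of_nonneg_left (hlogy2.trans hev) h4.le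
        _ = 1 := h3
    have h5 := (abs_le.1 h1).2
    have h6 : l ^ (-(δ / 3)) * (Y : ℝ) ≤ Y / Real.log y := by
      rw [le_div_iff₀ hlogy]
      calc l ^ (-(δ / 3)) * (Y : ℝ) * Real.log y = (l ^ (-(δ / 3)) * Real.log y) * Y := by ring
        _ ≤ 1 * Y := mul_le_mul_of_nonneg_right hη (Nat.cast_nonneg _)
        _ = Y := one_mul _
    have h7 : 0 ≤ (C₁ + 1) * (Y / Real.log y) * Wt := by positivity
    calc ∑ n ∈ Finset.range M, w n * rg z (Finset.Ioc x (x + Y)) n
        ≤ ρ * ∑ n ∈ Finset.range M, w n * rg y (Finset.Ioc x (x + Y)) n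
          + ρ * (l ^ (-(δ / 3)) * Y) * Wt := by linarith
      _ ≤ ρ * (C₁ * (Y / Real.log y) * Wt) + ρ * (Y / Real.log y) * Wt := by
          refine add_le_add (mul_le_mul_of_nonneg_left h2 hρ0) ?_
          exact mul_le_mul_of_nonneg_right (mul_le_mul_of_nonneg_left h6 hρ0) hWt0
      _ = ρ * ((C₁ + 1) * (Y / Real.log y) * Wt) := by ring
      _ ≤ (C₂ / c * (Real.log y / Real.log z)) * ((C₁ + 1) * (Y / Real.log y) * Wt) :=
          mul_le_mul_of_nonneg_right hρup h7
      _ = (C₂ / c * (C₁ + 1)) * (Y / Real.log z) * Wt := by field_simp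
      _ ≤ _ := by
          refine mul_le_mul_of_nonneg_right ?_ hWt0
          exact mul_le_mul_of_nonneg_right (le_max_right _ _) (by positivity)

end Run7.h52.Asym
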