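import Pool.Agent.Run7.h52.CoreW2
import Pool.Agent.Run7.h52.AsmA

set_option autoImplicit false
set_option linter.unusedSectionVars false

namespace Run7.h52.BWS

open Finset Run7.h52.Op Run7.h52.Core Run7.h52.CoreA Run7.h52.Count Run7.h52.Sums Run7.h52.CoreW

/-- sums over primes above `y` -/
lemma mer : ∃ C : ℝ, 1 ≤ C ∧ ∀ y t : ℕ, 3 ≤ y → y ≤ t → ∀ P : Finset ℕ,
    (∀ p ∈ P, p.Prime ∧ y < p ∧ p ≤ t) →
    ∑ p ∈ P, 1 / ((p : ℝ) - 1) ≤ Real.log (Real.log t) - Real.log (Real.log y) + C := by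
  obtain ⟨C, hC⟩ := Pool.Agent.Helper256.KM.mertens_inv
  refine ⟨max 1 (2 * C + 1), le_max_left _ _, fun y t hy ht P hP => ?_⟩
  have ht3 : 3 ≤ t := hy.trans ht
  have h4 : ∀ p ∈ P, 1 / ((p : ℝ) - 1) = 1 / (p : ℝ) + 1 / ((p : ℝ) * (p - 1)) := by
    intro p hp
    have hp2 : (2 : ℝ) ≤ p := by exact_mod_cast (hP p hp).1.two_le
    have h5 : (p : ℝ) - 1 ≠ 0 := by intro h; linarith
    have h6 : (p : ℝ) ≠ 0 := by intro h; linarith
    field_simp
    ring
  rw [Finset.sum_congr rfl h4, Finset.sum_add_distrib]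
  have h5 := (abs_le.1 (hC t ht3)).2
  have h5' := (abs_le.1 (hC y hy)).1
  have h6 : ∑ p ∈ P, 1 / ((p : ℝ) * (p - 1)) ≤ 1 := by
    have h7 := sum_tele 1 le_rfl t (by omega)
    have h8 : ∑ p ∈ P, 1 / ((p : ℝ) * (p - 1)) ≤ ∑ n ∈ Finset.Ioc 1 t, 1 / ((n : ℝ) * (n - 1)) := by
      refine Finset.sum_le_sum_of_subset_of_nonneg ?_ ?_
      · intro p hp
        rw [Finset.mem_Ioc]
        exact ⟨(hP p hp).1.one_lt, (hP p hp).2.2⟩
      · intro n hn _
        rw [Finset.mem_Ioc] at hn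
        have : (2 : ℝ) ≤ n := by exact_mod_cast hn.1
        exact div_nonneg zero_le_one (mul_nonneg (by linarith) (by linarith))
    have h9 : (0 : ℝ) ≤ 1 / (t : ℝ) := by positivity
    simp only [Nat.cast_one, div_one] at h7
    linarith
  have h7 : ∑ p ∈ P, 1 / (p : ℝ) + ∑ p ∈ (Finset.Icc 1 y).filter Nat.Prime, 1 / (p : ℝ)
      ≤ ∑ p ∈ (Finset.Icc 1 t).filter Nat.Prime, 1 / (p : ℝ) := by
    rw [← Finset.sum_union]
    · refine Finset.sum_le_sum_of_subset_of_nonneg ?_ (fun _ _ _ => by positivity)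
      intro p hp
      rcases Finset.mem_union.1 hp with hp | hp
      · exact Finset.mem_filter.2 ⟨Finset.mem_Icc.2 ⟨(hP p hp).1.one_lt.le, (hP p hp).2.2⟩, (hP p hp).1⟩
      · rw [Finset.mem_filter, Finset.mem_Icc] at hp ⊢
        exact ⟨⟨hp.1.1, hp.1.2.trans ht⟩, hp.2⟩
    · rw [Finset.disjoint_left]
      intro p hp hp'
      rw [Finset.mem_filter, Finset.mem_Icc] at hp'
      have := (hP p hp).2.1
      omega
  have h8 : (2 * C + 1 : ℝ) ≤ max 1 (2 * C + 1) := le_max_right _ _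
  have e1 : ∑ p ∈ (Finset.Icc 1 t).filter Nat.Prime, 1 / (p : ℝ) ≤ Real.log (Real.log t) + C := by
    linarith
  have e2 : Real.log (Real.log y) - C ≤ ∑ p ∈ (Finset.Icc 1 y).filter Nat.Prime, 1 / (p : ℝ) := by
    linarith
  linarith

/-- products over primes above `y` -/
lemma mer_prod {C : ℝ} (hC : ∀ y t : ℕ, 3 ≤ y → y ≤ t → ∀ P : Finset ℕ,
    (∀ p ∈ P, p.Prime ∧ y < p ∧ p ≤ t) →
    ∑ p ∈ P, 1 / ((p : ℝ) - 1) ≤ Real.log (Real.log t) - Real.log (Real.log y) + C)
    (y t : ℕ) (hy : 3 ≤ y) (ht : y ≤ t) (P : Finset ℕ) (hP : ∀ p ∈ P, p.Prime ∧ y < p ∧ p ≤ t) :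
    ∏ p ∈ P, (1 + 1 / ((p : ℝ) - 1)) ≤ Real.exp C * (Real.log t / Real.log y) := by
  have hly : 0 < Real.log y := Real.log_pos (by exact_mod_cast (by omega : 1 < y))
  have hlt : 0 < Real.log t := Real.log_pos (by exact_mod_cast (by omega : 1 < t))
  have h1 : ∏ p ∈ P, (1 + 1 / ((p : ℝ) - 1)) ≤ ∏ p ∈ P, Real.exp (1 / ((p : ℝ) - 1)) := by
    refine Finset.prod_le_prod (fun p hp => ?_) (fun p _ => by
      have := Real.add_one_le_exp (1 / ((p : ℝ) - 1)); linarith)
    have : (2 : ℝ) ≤ p := by exact_mod_cast (hP p hp).1.two_le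
    have := div_nonneg zero_le_one (by linarith : (0:ℝ) ≤ (p : ℝ) - 1)
    linarith
  refine h1.trans ?_
  rw [← Real.exp_sum]
  have h2 := hC y t hy ht P hP
  refine (Real.exp_le_exp.2 h2).trans (le_of_eq ?_)
  rw [Real.exp_add, Real.exp_sub, Real.exp_log hlt, Real.exp_log hly]
  ring

/-- the weights -/
noncomputable def om (Y : ℝ) (p : ℕ) : ℝ := Real.log p / (Y / p + 1)

lemma om_pos {Y : ℝ} (hY : 0 ≤ Y) {p : ℕ} (hp : 1 < p) : 0 < om Y p := by
  have : (1 : ℝ) < p := by exact_mod_cast hp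
  exact div_pos (Real.log_pos this) (by positivity)

lemma om_mono {Y : ℝ} (hY : 0 ≤ Y) {p q : ℕ} (hp : 1 < p) (hpq : p ≤ q) : om Y p ≤ om Y q := by
  have h1 : (1 : ℝ) < p := by exact_mod_cast hp
  have h2 : (p : ℝ) ≤ q := by exact_mod_cast hpq
  refine div_le_div₀ (Real.log_nonneg (by linarith)) (Real.log_le_log (by linarith) h2)
    (by positivity) ?_
  have := div_le_div_of_nonneg_left hY (by linarith : (0 : ℝ) < p) h2
  linarith

/-- expansion by the largest prime -/
lemma max_expand (P : Finset ℕ) (hP : ∀ p ∈ P, p.Prime) (t : ℕ) (Y : ℝ) (hY : 0 ≤ Y) :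
    ∑ s ∈ P.powerset.filter (fun s => s ≠ ∅ ∧ ∀ p ∈ s, p ≤ t), g s / (∑ p ∈ s, om Y p)
      ≤ ∑ p ∈ P.filter (fun p => p ≤ t), 1 / ((p : ℝ) - 1) / om Y p *
        ∏ q ∈ P.filter (fun q => q < p), (1 + 1 / ((q : ℝ) - 1)) := by
  classical
  have hsup : ∀ s ∈ P.powerset.filter (fun s => s ≠ ∅ ∧ ∀ p ∈ s, p ≤ t),
      s.sup id ∈ P.filter (fun p => p ≤ t) ∧ s.sup id ∈ s := by
    intro s hs
    rw [Finset.mem_filter, Finset.mem_powerset] at hs
    obtain ⟨p, hp, hps⟩ := Finset.exists_mem_eq_sup s (Finset.nonempty_iff_ne_empty.2 hs.2.1) id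
    rw [hps]
    exact ⟨Finset.mem_filter.2 ⟨hs.1 hp, hs.2.2 p hp⟩, hp⟩
  rw [← Finset.sum_fiberwise_of_maps_to (g := fun s => s.sup id) (fun s hs => (hsup s hs).1)]
  refine Finset.sum_le_sum fun p hp => ?_
  rw [Finset.mem_filter] at hp
  have hpp := hP p hp.1
  have hp1 : (1 : ℝ) < p := by exact_mod_cast hpp.one_lt
  have homp := om_pos hY hpp.one_lt
  have h1 : ∏ q ∈ P.filter (fun q => q < p), (1 + 1 / ((q : ℝ) - 1))
      = ∑ s ∈ (P.filter (fun q => q < p)).powerset, g s := by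
    rw [Finset.prod_one_add]; rfl
  rw [h1, Finset.mul_sum]
  have hnot : ∀ s ∈ (P.filter (fun q => q < p)).powerset, p ∉ s := by
    intro s hs hps
    have := Finset.mem_powerset.1 hs hps
    rw [Finset.mem_filter] at this
    omega
  have hg0 : ∀ s ∈ (P.filter (fun q => q < p)).powerset, 0 ≤ g s := fun s hs =>
    Sums.g_nonneg hP ((Finset.mem_powerset.1 hs).trans (Finset.filter_subset _ _))
  calc ∑ s ∈ (P.powerset.filter (fun s => s ≠ ∅ ∧ ∀ p ∈ s, p ≤ t)).filter (fun s => s.sup id = p),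
        g s / (∑ p ∈ s, om Y p)
      ≤ ∑ s ∈ (P.powerset.filter (fun s => s ≠ ∅ ∧ ∀ p ∈ s, p ≤ t)).filter (fun s => s.sup id = p),
        g s / om Y p := by
        refine Finset.sum_le_sum fun s hs => ?_
        rw [Finset.mem_filter] at hs
        have h2 := hsup s hs.1
        rw [hs.2] at h2
        have hsP : s ⊆ P := Finset.mem_powerset.1 (Finset.mem_filter.1 hs.1).1
        refine div_le_div_of_nonneg_left (Sums.g_nonneg hP hsP) homp ?_
        exact Finset.single_le_sum (f := fun p => om Y p)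
          (fun q hq => (om_pos hY (hP q (hsP hq)).one_lt).le) h2.2
    _ ≤ ∑ s ∈ ((P.filter (fun q => q < p)).powerset).image (fun s => insert p s), g s / om Y p := by
        refine Finset.sum_le_sum_of_subset_of_nonneg ?_ ?_
        · intro s hs
          rw [Finset.mem_filter] at hs
          have h2 := hsup s hs.1
          rw [hs.2] at h2
          have hsP : s ⊆ P := Finset.mem_powerset.1 (Finset.mem_filter.1 hs.1).1
          rw [Finset.mem_image]
          refine ⟨s.erase p, ?_, Finset.insert_erase h2.2⟩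
          rw [Finset.mem_powerset]
          intro q hq
          rw [Finset.mem_erase] at hq
          rw [Finset.mem_filter]
          refine ⟨hsP hq.2, lt_of_le_of_ne ?_ hq.1⟩
          have h3 : q ≤ s.sup id := Finset.le_sup (f := id) hq.2
          rwa [hs.2] at h3
        · intro s hs _
          rw [Finset.mem_image] at hs
          obtain ⟨s', hs', rfl⟩ := hs
          refine div_nonneg ?_ homp.le
          refine Sums.g_nonneg hP ?_
          intro q hq
          rcases Finset.mem_insert.1 hq with rfl | hq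
          · exact hp.1
          · exact (Finset.mem_filter.1 (Finset.mem_powerset.1 hs' hq)).1
    _ = ∑ s ∈ (P.filter (fun q => q < p)).powerset, g (insert p s) / om Y p := by
        refine Finset.sum_image ?_
        intro s hs s' hs' h
        have h2 := congrArg (fun u => Finset.erase u p) h
        simp only at h2
        rwa [Finset.erase_insert (hnot s (Finset.mem_coe.1 hs)),
          Finset.erase_insert (hnot s' (Finset.mem_coe.1 hs'))] at h2
    _ = ∑ s ∈ (P.filter (fun q => q < p)).powerset, 1 / ((p : ℝ) - 1) / om Y p * g s := by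
        refine Finset.sum_congr rfl fun s hs => ?_
        have : g (insert p s) = 1 / ((p : ℝ) - 1) * g s := by
          unfold g
          rw [Finset.prod_insert (hnot s hs)]
        rw [this]; ring
    _ ≤ _ := le_rfl


lemma uw_eq {P : Finset ℕ} (Y : ℝ) (τ : {p // p ∈ P} → Bool) :
    uw (fun i : {p // p ∈ P} => om Y i) τ = ∑ p ∈ sset τ, om Y p := by
  rw [sset, Finset.sum_image (fun i _ j _ h => Subtype.ext h), Finset.sum_filter, uw]

lemma sset_ne {P : Finset ℕ} (τ : {p // p ∈ P} → Bool) (h : τ ≠ fun _ => false) : sset τ ≠ ∅ := by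
  intro h1
  refine h (sset_inj ?_)
  rw [h1]
  symm
  rw [sset, Finset.image_eq_empty, Finset.filter_eq_empty_iff]
  intro i _
  simp

theorem BW_le : ∃ C : ℝ, 1 ≤ C ∧ ∀ y : ℕ, 3 ≤ y → ∀ P : Finset ℕ, (∀ p ∈ P, p.Prime ∧ y < p) →
    ∀ Y L : ℝ, 0 ≤ Y →
    BW (Om P) (fun i => om Y i) L
      ≤ C / Real.log y * (Y / y + Real.log (max L (Real.log y) / Real.log y) + C) := by
  obtain ⟨C, hC1, hC⟩ := mer
  refine ⟨max C (Real.exp C), hC1.trans (le_max_left _ _), fun y hy P hP Y L hY => ?_⟩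
  have hy1 : (1 : ℝ) < y := by exact_mod_cast (by omega : 1 < y)
  have hly : 0 < Real.log y := Real.log_pos hy1
  have hPp : ∀ p ∈ P, p.Prime := fun p hp => (hP p hp).1
  set L' := max L (Real.log y) with hL'
  have hL'y : Real.log y ≤ L' := le_max_right _ _
  have hL'0 : 0 < L' := hly.trans_le hL'y
  set t : ℕ := ⌊Real.exp L'⌋₊ with ht
  have hty : y ≤ t := by
    apply Nat.le_floor
    rw [← Real.exp_log (by linarith : (0 : ℝ) < y)]
    exact Real.exp_le_exp.2 hL'y
  have ht1 : (1 : ℝ) < t := lt_of_lt_of_le hy1 (by exact_mod_cast hty)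
  have hlt : Real.log t ≤ L' := by
    have h3 : (t : ℝ) ≤ Real.exp L' := Nat.floor_le (Real.exp_pos _).le
    have h4 := Real.log_le_log (by linarith) h3
    rwa [Real.log_exp] at h4
  have hlt0 : 0 < Real.log t := Real.log_pos ht1
  -- reduction to sets
  have h1 : BW (Om P) (fun i => om Y i) L
      ≤ ∑ s ∈ P.powerset.filter (fun s => s ≠ ∅ ∧ ∀ p ∈ s, p ≤ t), g s / (∑ p ∈ s, om Y p) := by
    have h2 : BW (Om P) (fun i => om Y i) L
        = ∑ τ ∈ Finset.univ.filter (fun τ : {p // p ∈ P} → Bool => τ ≠ (fun _ => false) ∧ uu' (Om P) τ ≤ L),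
          (fun s => g s / (∑ p ∈ s, om Y p)) (sset τ) := by
      rw [BW, Finset.sum_filter]
      refine Finset.sum_congr rfl fun τ _ => ?_
      split_ifs
      · simp only
        rw [gg_eq, uw_eq]
      · rfl
    rw [h2, ← Finset.sum_image (f := fun s => g s / (∑ p ∈ s, om Y p)) (fun τ _ σ _ h => sset_inj h)]
    refine Finset.sum_le_sum_of_subset_of_nonneg ?_ (fun s hs _ => ?_)
    · intro s hs
      rw [Finset.mem_image] at hs
      obtain ⟨τ, hτ, rfl⟩ := hs
      rw [Finset.mem_filter] at hτ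
      rw [Finset.mem_filter, Finset.mem_powerset]
      refine ⟨sset_sub τ, sset_ne τ hτ.2.1, fun p hp => ?_⟩
      apply Nat.le_floor
      have hpP := hP p (sset_sub τ hp)
      rw [← Real.exp_log (by exact_mod_cast hpP.1.pos : (0 : ℝ) < p)]
      refine Real.exp_le_exp.2 (le_trans ?_ (le_max_left _ _))
      refine le_trans ?_ hτ.2.2
      rw [uu'_eq hPp]
      refine Real.log_le_log (by exact_mod_cast hpP.1.pos) ?_
      have : p ≤ ∏ q ∈ sset τ, q := by
        refine Nat.le_of_dvd (Finset.prod_pos fun q hq => (hPp q (sset_sub τ hq)).pos) ?_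
        exact Finset.dvd_prod_of_mem (fun q => q) hp
      exact_mod_cast this
    · rw [Finset.mem_filter, Finset.mem_powerset] at hs
      exact div_nonneg (Sums.g_nonneg hPp hs.1)
        (Finset.sum_nonneg fun p hp => (om_pos hY (hPp p (hs.1 hp)).one_lt).le)
  have h2 := max_expand P hPp t Y hY
  -- each prime
  have h3 : ∀ p ∈ P.filter (fun p => p ≤ t), 1 / ((p : ℝ) - 1) / om Y p *
        ∏ q ∈ P.filter (fun q => q < p), (1 + 1 / ((q : ℝ) - 1))
      ≤ Real.exp C / Real.log y * (Y * (1 / ((p : ℝ) * (p - 1))) + 1 / ((p : ℝ) - 1)) := by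
    intro p hp
    rw [Finset.mem_filter] at hp
    obtain ⟨hpp, hyp⟩ := hP p hp.1
    have hp1 : (1 : ℝ) < p := by exact_mod_cast hpp.one_lt
    have hlp : 0 < Real.log p := Real.log_pos hp1
    have h4 := mer_prod hC y p hy hyp.le (P.filter fun q => q < p) (fun q hq => by
      rw [Finset.mem_filter] at hq
      exact ⟨(hP q hq.1).1, (hP q hq.1).2, hq.2.le⟩)
    have h5 : 0 ≤ 1 / ((p : ℝ) - 1) / om Y p :=
      div_nonneg (div_nonneg zero_le_one (by linarith)) (om_pos hY hpp.one_lt).le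
    refine (mul_le_mul_of_nonneg_left h4 h5).trans (le_of_eq ?_)
    unfold om
    have h6 : (p : ℝ) - 1 ≠ 0 := by intro h; linarith
    have h7 : (p : ℝ) ≠ 0 := by intro h; linarith
    have h8 : Y / p + 1 ≠ 0 := by positivity
    field_simp
  have h4 : ∑ p ∈ P.filter (fun p => p ≤ t), 1 / ((p : ℝ) * (p - 1)) ≤ 1 / y := by
    have h7 := sum_tele y (by omega) t hty
    have h8 : ∑ p ∈ P.filter (fun p => p ≤ t), 1 / ((p : ℝ) * (p - 1)) ≤ ∑ n ∈ Finset.Ioc y t, 1 / ((n : ℝ) * (n - 1)) := by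
      refine Finset.sum_le_sum_of_subset_of_nonneg ?_ ?_
      · intro p hp
        rw [Finset.mem_filter] at hp
        rw [Finset.mem_Ioc]
        exact ⟨(hP p hp.1).2, hp.2⟩
      · intro n hn _
        rw [Finset.mem_Ioc] at hn
        have : (2 : ℝ) ≤ n := by exact_mod_cast (by omega : 2 ≤ n)
        exact div_nonneg zero_le_one (mul_nonneg (by linarith) (by linarith))
    have h9 : (0 : ℝ) ≤ 1 / (t : ℝ) := by positivity
    linarith
  have h5 := hC y t hy hty (P.filter fun p => p ≤ t) (fun p hp => by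
    rw [Finset.mem_filter] at hp
    exact ⟨(hP p hp.1).1, (hP p hp.1).2, hp.2⟩)
  have h6 : Real.log (Real.log t) - Real.log (Real.log y) ≤ Real.log (L' / Real.log y) := by
    rw [Real.log_div hL'0.ne' hly.ne']
    have := Real.log_le_log hlt0 hlt
    linarith
  have hlog0 : 0 ≤ Real.log (L' / Real.log y) := by
    apply Real.log_nonneg
    rw [le_div_iff₀ hly]; linarith
  have hE : 0 ≤ Real.exp C / Real.log y := by positivity
  calc BW (Om P) (fun i => om Y i) L ≤ _ := h1
    _ ≤ _ := h2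
    _ ≤ ∑ p ∈ P.filter (fun p => p ≤ t),
        Real.exp C / Real.log y * (Y * (1 / ((p : ℝ) * (p - 1))) + 1 / ((p : ℝ) - 1)) :=
        Finset.sum_le_sum h3
    _ = Real.exp C / Real.log y * (Y * (∑ p ∈ P.filter (fun p => p ≤ t), 1 / ((p : ℝ) * (p - 1)))
          + ∑ p ∈ P.filter (fun p => p ≤ t), 1 / ((p : ℝ) - 1)) := by
        rw [← Finset.mul_sum, Finset.sum_add_distrib, Finset.mul_sum]
    _ ≤ Real.exp C / Real.log y * (Y * (1 / y) + (Real.log (L' / Real.log y) + C)) := by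
        refine mul_le_mul_of_nonneg_left (add_le_add (mul_le_mul_of_nonneg_left h4 hY) ?_) hE
        linarith
    _ ≤ max C (Real.exp C) / Real.log y * (Y / y + Real.log (L' / Real.log y) + max C (Real.exp C)) := by
        have h7 : C ≤ max C (Real.exp C) := le_max_left _ _
        have h8 : Real.exp C ≤ max C (Real.exp C) := le_max_right _ _
        have h9 : Y * (1 / (y : ℝ)) = Y / y := by ring
        rw [h9]
        refine mul_le_mul (div_le_div_of_nonneg_right h8 hly.le) (by linarith) ?_ (by positivity)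
        have : 0 ≤ Y / y := by positivity
        linarith

end Run7.h52.BWS
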