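import Pool.Agent.Run7.h52.CoreA

set_option autoImplicit false
set_option linter.unusedSectionVars false

namespace Run7.h52.Cell

open Finset Run7.h52.Op Run7.h52.Ker Run7.h52.Core

variable {α : Type} [Fintype α] [DecidableEq α]

/-- the algebra of one coordinate, sifted or not -/
structure IsCell (g r : ℝ) (Q C Z A : Matrix α α ℝ) : Prop where
  Qt : Q.transpose = Q
  QQ : Q * Q = Q
  Zt : Z.transpose = Z
  ZZ : Z * Z = Z
  At : A.transpose = A
  AA : A * A = A
  sum : E α + Q + Z = 1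
  CtC : C.transpose * C = g • Q
  Aeq : A = r • ((E α + C).transpose * (E α + C))
  ZA : Z * A = 0
  AEA : A * E α * A = r • A
  AQA : A * Q * A = (g * r) • A
  EZ : E α * Z = 0
  QZ : Q * Z = 0
  rowQ : ∀ a, ∑ b, Q a b = 0
  rowZ : ∀ a, ∑ b, Z a b = 0
  rowC : ∀ a, ∑ b, C a b = 0
  r_pos : 0 < r
  g_nonneg : 0 ≤ g

/-- `1 - δ_k` -/
noncomputable def vv (k b : α) : ℝ := if b = k then 0 else 1

/-- the projection on the indicator of the unhit classes -/
noncomputable def Am (k : α) : Matrix α α ℝ :=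
  fun b c => (1 / ((Fintype.card α : ℝ) - 1)) * (vv k b * vv k c)

lemma sum_vv (k : α) : ∑ b, vv k b = (Fintype.card α : ℝ) - 1 := by
  have h : ∀ b : α, vv k b = 1 - (if b = k then 1 else 0) := by
    intro b; unfold vv; split_ifs <;> ring
  simp only [h, Finset.sum_sub_distrib, Finset.sum_ite_eq', Finset.mem_univ, if_true]
  simp

lemma sum_vv_sq (k : α) : ∑ b, vv k b * vv k b = (Fintype.card α : ℝ) - 1 := by
  rw [← sum_vv k]
  exact Finset.sum_congr rfl fun b _ => by unfold vv; split_ifs <;> ring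

lemma sum_mul_vv (f : α → ℝ) (k : α) : ∑ b, f b * vv k b = (∑ b, f b) - f k := by
  have h : ∀ b : α, f b * vv k b = f b - (if b = k then f b else 0) := by
    intro b; unfold vv; split_ifs <;> ring
  simp only [h, Finset.sum_sub_distrib, Finset.sum_ite_eq', Finset.mem_univ, if_true]

lemma Z_col (k b : α) (h2 : 2 ≤ Fintype.card α) : Z k b k = 0 := by
  have h := card_ne k
  have h1 : (Fintype.card α : ℝ) - 1 ≠ 0 := by
    have : (2 : ℝ) ≤ Fintype.card α := by exact_mod_cast h2
    intro h; linarith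
  simp only [Z, Matrix.sub_apply, Matrix.one_apply, E, Q, uu]
  by_cases hb : b = k
  · simp [hb]; field_simp; ring
  · simp [hb]; field_simp; ring

lemma E_mul_Z (k : α) : E α * Z k = 0 := by
  have : Nonempty α := ⟨k⟩
  rw [Z, mul_sub, mul_sub, E_mul_E, E_mul_Q]; simp

lemma Q_mul_Z (k : α) (h2 : 2 ≤ Fintype.card α) : Q k * Z k = 0 := by
  rw [Z, mul_sub, mul_sub, Q_mul_E, Q_mul_Q k h2]; simp

/-- `A K A` for any `K` -/
lemma A_mul_mul (k : α) (K : Matrix α α ℝ) (h2 : 2 ≤ Fintype.card α) :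
    Am k * K * Am k = ((1 / ((Fintype.card α : ℝ) - 1)) * ∑ b, (∑ c, K b c * vv k c) * vv k b) • Am k := by
  have h1 : (Fintype.card α : ℝ) - 1 ≠ 0 := by
    have : (2 : ℝ) ≤ Fintype.card α := by exact_mod_cast h2
    intro h; linarith
  ext x y
  rw [Matrix.mul_apply]
  simp only [Matrix.mul_apply, Am, Matrix.smul_apply, smul_eq_mul]
  have e1 : ∀ j, (∑ i, 1 / ((Fintype.card α : ℝ) - 1) * (vv k x * vv k i) * K i j) *
      (1 / ((Fintype.card α : ℝ) - 1) * (vv k j * vv k y))
      = (1 / ((Fintype.card α : ℝ) - 1)) * (1 / ((Fintype.card α : ℝ) - 1)) * (vv k x * vv k y) *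
        ∑ i, K i j * vv k j * vv k i := by
    intro j
    rw [Finset.sum_mul, Finset.mul_sum]
    exact Finset.sum_congr rfl fun i _ => by ring
  simp only [e1]
  rw [← Finset.mul_sum, Finset.sum_comm]
  simp only [Finset.sum_mul]
  ring

lemma isCell_col (k : α) (h2 : 2 ≤ Fintype.card α) :
    IsCell (1 / ((Fintype.card α : ℝ) - 1)) (((Fintype.card α : ℝ) - 1) / (Fintype.card α : ℝ))
      (Q k) (Cm k) (Z k) (Am k) := by
  have h := card_ne k
  have h22 : (2 : ℝ) ≤ Fintype.card α := by exact_mod_cast h2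
  have h1 : (Fintype.card α : ℝ) - 1 ≠ 0 := by intro h; linarith
  have h0 : (0 : ℝ) < (Fintype.card α : ℝ) - 1 := by linarith
  refine ⟨Q_transpose k, Q_mul_Q k h2, Z_transpose k, Z_mul k h2, ?_, ?_, ?_,
    Ct_mul_C k h2, ?_, ?_, ?_, ?_, E_mul_Z k, Q_mul_Z k h2, sum_Q_row k, sum_Z_row k,
    sum_C_row k, by positivity, by positivity⟩
  · ext b c
    simp only [Matrix.transpose_apply, Am]; ring
  · have := A_mul_mul k 1 h2
    rw [Matrix.mul_one] at this
    rw [this]
    have e : ∀ b, ∑ c, (1 : Matrix α α ℝ) b c * vv k c = vv k b := by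
      intro b; simp [Matrix.one_apply]
    simp only [e, sum_vv_sq]
    have : 1 / ((Fintype.card α : ℝ) - 1) * ((Fintype.card α : ℝ) - 1) = 1 := by field_simp
    rw [this, one_smul]
  · rw [Z]; abel
  · ext b c
    simp only [Matrix.smul_apply, Matrix.mul_apply, Matrix.transpose_apply, EC_entry k _ _ h2,
      Finset.sum_const, Finset.card_univ, nsmul_eq_mul, smul_eq_mul, Am, vv]
    split_ifs <;> field_simp <;> simp
  · ext b c
    simp only [Matrix.mul_apply, Am, Matrix.zero_apply]
    have e : ∀ j, Z k b j * (1 / ((Fintype.card α : ℝ) - 1) * (vv k j * vv k c))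
        = (Z k b j * vv k j) * (1 / ((Fintype.card α : ℝ) - 1) * vv k c) := by intro j; ring
    simp only [e]
    rw [← Finset.sum_mul, sum_mul_vv, sum_Z_row, Z_col k b h2]; simp
  · rw [A_mul_mul k _ h2]
    congr 1
    have e : ∀ b, ∑ c, E α b c * vv k c = ((Fintype.card α : ℝ) - 1) / (Fintype.card α : ℝ) := by
      intro b
      rw [sum_mul_vv, sum_E_row, E]; field_simp
    simp only [e]
    rw [← Finset.mul_sum, sum_vv]
    field_simp
  · rw [A_mul_mul k _ h2]
    congr 1
    have e : ∀ b, ∑ c, Q k b c * vv k c = - Q k b k := by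
      intro b
      rw [sum_mul_vv, sum_Q_row]; ring
    simp only [e]
    rw [sum_mul_vv, Finset.sum_neg_distrib]
    have e2 : ∑ b, Q k b k = 0 := by
      have : ∀ b, Q k b k = Q k k b := by
        intro b; simp only [Q]; ring
      simp only [this]; exact sum_Q_row k k
    rw [e2]
    simp only [Q, uu_self]
    field_simp
    ring

/-- a coordinate without sifting -/
lemma isCell_plain [Nonempty α] : IsCell 0 1 (0 : Matrix α α ℝ) 0 (1 - E α) (E α) := by
  refine ⟨by simp, by simp, oneE_transpose, oneE_mul, E_transpose, E_mul_E, by abel, by simp,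
    ?_, ?_, ?_, by simp, ?_, by simp, by simp, sum_oneE_row, by simp, one_pos, le_rfl⟩
  · rw [add_zero, E_transpose, E_mul_E, one_smul]
  · rw [sub_mul, E_mul_E, one_mul, sub_self]
  · rw [E_mul_E, E_mul_E, one_smul]
  · rw [mul_sub, E_mul_E, mul_one, sub_self]

end Run7.h52.Cell
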