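import Pool.Agent.Run7.h52.CoreG2

set_option autoImplicit false
set_option linter.unusedSectionVars false

namespace Run7.h52.CellG

open Finset Run7.h52.Op Run7.h52.Ker Run7.h52.Core Run7.h52.Cell Run7.h52.CoreG

section mk
variable {α : Type} [Fintype α] [DecidableEq α] {J : Type} [Fintype J] [DecidableEq J]

/-- construction of a cell -/
lemma isG_mk {g r : ℝ} {Q C A : Matrix α α ℝ} {D : J → Matrix α α ℝ} (hne : Nonempty α) (hD : IsD D) (j₀ : J)
    (Qt : Q.transpose = Q) (QQ : Q * Q = Q) (DQ : D j₀ * Q = Q) (At : A.transpose = A) (AA : A * A = A)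
    (CtC : C.transpose * C = g • Q) (Aeq : A = r • ((E α + C).transpose * (E α + C)))
    (EQA : (E α + Q) * A = A) (AEA : A * E α * A = r • A) (AQA : A * Q * A = (g * r) • A)
    (hr : 0 < r) (hg : 0 ≤ g) :
    IsG g r Q C (fun j => D j - if j = j₀ then Q else 0) A := by
  have hEQ : E α * Q = 0 := by rw [← DQ, ← mul_assoc, hD.ED, zero_mul]
  have hQE : Q * E α = 0 := by
    have := congrArg Matrix.transpose hEQ
    rwa [Matrix.transpose_mul, Qt, E_transpose, Matrix.transpose_zero] at this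
  have QD : Q * D j₀ = Q := by
    have := congrArg Matrix.transpose DQ
    rwa [Matrix.transpose_mul, Qt, hD.Dt] at this
  have hsum : ∑ j, (D j - if j = j₀ then Q else 0) = 1 - E α - Q := by
    rw [Finset.sum_sub_distrib, Finset.sum_ite_eq' Finset.univ j₀ (fun _ => Q), if_pos (Finset.mem_univ _),
      ← hD.sum]
    abel
  refine ⟨Qt, QQ, At, AA, ?_, CtC, Aeq, ?_, AEA, AQA, ?_, ?_, hr, hg, ?_, ?_⟩
  · rw [hsum]; abel
  · rw [hsum, sub_sub, sub_mul, one_mul, EQA, sub_self]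
  · rw [hsum, mul_sub, mul_sub, mul_one, E_mul_E, hEQ]; abel
  · rw [hsum, mul_sub, mul_sub, mul_one, hQE, QQ]; abel
  · intro j
    rw [Matrix.transpose_sub, hD.Dt]
    split_ifs
    · rw [Qt]
    · simp
  · intro j j'
    have h1 : ∀ j, j ≠ j₀ → D j * Q = 0 := fun j hj => by
      rw [← DQ, ← mul_assoc, hD.DD, if_neg hj, zero_mul]
    have h2 : ∀ j, j ≠ j₀ → Q * D j = 0 := fun j hj => by
      rw [← QD, mul_assoc, hD.DD, if_neg (Ne.symm hj), mul_zero]
    by_cases hj : j = j₀ <;> by_cases hj' : j' = j₀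
    · subst hj; subst hj'
      simp only [if_true, sub_mul, mul_sub, hD.DD, DQ, QD, QQ]
      abel
    · subst hj
      have : j ≠ j' := fun h => hj' h.symm
      simp only [if_true, if_neg hj', sub_zero, sub_mul, hD.DD, if_neg this, h2 j' hj']
    · subst hj'
      simp only [if_true, if_neg hj, sub_zero, mul_sub, hD.DD, h1 j hj]
    · simp only [if_neg hj, if_neg hj', sub_zero, hD.DD]

/-- a coordinate without sifting -/
lemma isG_plain {D : J → Matrix α α ℝ} (hne : Nonempty α) (hD : IsD D) (j₀ : J) :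
    IsG 0 1 (0 : Matrix α α ℝ) 0 (fun j => D j - if j = j₀ then 0 else 0) (E α) := by
  refine isG_mk hne hD j₀ (by simp) (by simp) (by simp) E_transpose E_mul_E (by simp) ?_ ?_ ?_ ?_
    one_pos le_rfl
  · rw [add_zero, E_transpose, E_mul_E, one_smul]
  · rw [add_zero, E_mul_E]
  · rw [E_mul_E, E_mul_E, one_smul]
  · simp

end mk

/-- mean over the classes modulo `p ^ j` -/
noncomputable def EM (p a j : ℕ) : Matrix (Fin (p ^ a)) (Fin (p ^ a)) ℝ :=
  fun x y => if (x : ℕ) % p ^ j = (y : ℕ) % p ^ j then (p : ℝ) ^ j / (p : ℝ) ^ a else 0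

lemma EM_transpose (p a j : ℕ) : (EM p a j).transpose = EM p a j := by
  ext x y
  simp only [Matrix.transpose_apply, EM, eq_comm]

lemma count_class {p a j : ℕ} (hp : 0 < p) (hj : j ≤ a) (v : ℕ) :
    ((Finset.univ.filter fun y : Fin (p ^ a) => (y : ℕ) % p ^ j = v % p ^ j).card : ℝ)
      = (p : ℝ) ^ a / (p : ℝ) ^ j := by
  have hpj : 0 < p ^ j := pow_pos hp j
  have h1 : (Finset.univ.filter fun y : Fin (p ^ a) => (y : ℕ) % p ^ j = v % p ^ j).card
      = ((Finset.range (p ^ a)).filter fun y => y ≡ v [MOD p ^ j]).card := by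
    refine Finset.card_bij (fun y _ => (y : ℕ)) ?_ ?_ ?_
    · intro y hy
      rw [Finset.mem_filter] at hy ⊢
      exact ⟨Finset.mem_range.2 y.2, hy.2⟩
    · intro y _ z _ h; exact Fin.ext h
    · intro y hy
      rw [Finset.mem_filter, Finset.mem_range] at hy
      exact ⟨⟨y, hy.1⟩, Finset.mem_filter.2 ⟨Finset.mem_univ _, hy.2⟩, rfl⟩
  rw [h1, ← Nat.count_eq_card_filter_range, Nat.count_modEq_card _ hpj]
  have h2 : p ^ a = p ^ j * p ^ (a - j) := by rw [← pow_add]; congr 1; omega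
  rw [h2, Nat.mul_div_cancel_left _ hpj, Nat.mul_mod_right, if_neg (Nat.not_lt_zero _), add_zero]
  have hp0 : (p : ℝ) ≠ 0 := by exact_mod_cast hp.ne'
  have h3 : (p : ℝ) ^ a = (p : ℝ) ^ j * (p : ℝ) ^ (a - j) := by
    rw [← pow_add]; congr 1; omega
  rw [h3]
  push_cast
  field_simp

lemma EM_mul {p a i j : ℕ} (hp : 0 < p) (hij : i ≤ j) (hj : j ≤ a) :
    EM p a i * EM p a j = EM p a i := by
  ext x z
  rw [Matrix.mul_apply]
  have hp0 : (p : ℝ) ≠ 0 := by exact_mod_cast hp.ne'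
  have hd : p ^ i ∣ p ^ j := pow_dvd_pow p hij
  have h1 : ∀ y : Fin (p ^ a), EM p a i x y * EM p a j y z
      = (if (y : ℕ) % p ^ j = (z : ℕ) % p ^ j then (1 : ℝ) else 0) *
        (EM p a i x z * ((p : ℝ) ^ j / (p : ℝ) ^ a)) := by
    intro y
    unfold EM
    by_cases hyz : (y : ℕ) % p ^ j = (z : ℕ) % p ^ j
    · have h2 : (y : ℕ) % p ^ i = (z : ℕ) % p ^ i := by
        rw [← Nat.mod_mod_of_dvd (y : ℕ) hd, hyz, Nat.mod_mod_of_dvd _ hd]
      rw [if_pos hyz, if_pos hyz, h2, one_mul]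
    · rw [if_neg hyz, if_neg hyz]; ring
  simp only [h1]
  rw [← Finset.sum_mul]
  have h2 : ∑ y : Fin (p ^ a), (if (y : ℕ) % p ^ j = (z : ℕ) % p ^ j then (1 : ℝ) else 0)
      = (p : ℝ) ^ a / (p : ℝ) ^ j := by
    rw [← count_class hp hj (z : ℕ)]
    rw [Finset.card_filter]; push_cast; rfl
  rw [h2]
  field_simp

lemma EM_mul' {p a i j : ℕ} (hp : 0 < p) (hij : i ≤ j) (hj : j ≤ a) :
    EM p a j * EM p a i = EM p a i := by
  have := congrArg Matrix.transpose (EM_mul hp hij hj)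
  rwa [Matrix.transpose_mul, EM_transpose, EM_transpose] at this

lemma EM_zero {p a : ℕ} : EM p a 0 = E (Fin (p ^ a)) := by
  ext x y
  simp [EM, E, Nat.mod_one]

lemma EM_top {p a : ℕ} (hp : 0 < p) : EM p a a = 1 := by
  ext x y
  have hp0 : (p : ℝ) ≠ 0 := by exact_mod_cast hp.ne'
  rw [EM, Nat.mod_eq_of_lt x.2, Nat.mod_eq_of_lt y.2, Matrix.one_apply]
  by_cases h : x = y
  · rw [if_pos (congrArg _ h), if_pos h, div_self (pow_ne_zero _ hp0)]
  · rw [if_neg (fun h' => h (Fin.ext h')), if_neg h]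

/-- projection on conductor `p ^ (j+1)` -/
noncomputable def DD (p a : ℕ) (j : Fin a) : Matrix (Fin (p ^ a)) (Fin (p ^ a)) ℝ :=
  EM p a (j + 1) - EM p a j

lemma isD_DD {p a : ℕ} (hp : 0 < p) : IsD (DD p a) := by
  refine ⟨fun j => ?_, fun j j' => ?_, fun j => ?_, ?_⟩
  · rw [DD, Matrix.transpose_sub, EM_transpose, EM_transpose]
  · have hj := j.2
    have hj' := j'.2
    rw [DD, DD, sub_mul, mul_sub, mul_sub]
    rcases lt_trichotomy (j : ℕ) (j' : ℕ) with h | h | h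
    · rw [if_neg (fun he => by rw [he] at h; exact lt_irrefl _ h)]
      rw [EM_mul hp (by omega : (j : ℕ) + 1 ≤ j' + 1) (by omega), EM_mul hp (by omega : (j : ℕ) + 1 ≤ j') (by omega),
        EM_mul hp (by omega : (j : ℕ) ≤ j' + 1) (by omega), EM_mul hp (by omega : (j : ℕ) ≤ j') (by omega)]
      abel
    · have he : j = j' := Fin.ext h
      subst he
      rw [if_pos rfl, EM_mul hp (by omega : (j : ℕ) + 1 ≤ j + 1) (by omega),
        EM_mul' hp (by omega : (j : ℕ) ≤ j + 1) (by omega), EM_mul hp (by omega : (j : ℕ) ≤ j + 1) (by omega),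
        EM_mul hp (by omega : (j : ℕ) ≤ j) (by omega)]
      abel
    · rw [if_neg (fun he => by rw [he] at h; exact lt_irrefl _ h)]
      rw [EM_mul' hp (by omega : (j' : ℕ) + 1 ≤ j + 1) (by omega), EM_mul' hp (by omega : (j' : ℕ) ≤ j + 1) (by omega),
        EM_mul' hp (by omega : (j' : ℕ) + 1 ≤ j) (by omega), EM_mul' hp (by omega : (j' : ℕ) ≤ j) (by omega)]
      abel
  · have hj := j.2
    rw [DD, ← EM_zero, mul_sub, EM_mul hp (by omega) (by omega), EM_mul hp (by omega) (by omega), sub_self]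
  · have h1 : ∑ j : Fin a, DD p a j = ∑ j ∈ Finset.range a, (EM p a (j + 1) - EM p a j) :=
      Fin.sum_univ_eq_sum_range (fun j => EM p a (j + 1) - EM p a j) a
    rw [h1, Finset.sum_range_sub, EM_zero, EM_top hp]
    abel

lemma DD_row {p a : ℕ} (hp : 0 < p) (j : Fin a) (x : Fin (p ^ a)) (F : Fin (p ^ a) → ℝ) (v : ℕ)
    (hv : v ≤ j) (hF : ∀ y z : Fin (p ^ a), (y : ℕ) % p ^ v = (z : ℕ) % p ^ v → F y = F z) :
    ∑ y, DD p a j x y * F y = 0 := by
  have hj := j.2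
  have hp0 : (p : ℝ) ≠ 0 := by exact_mod_cast hp.ne'
  have h1 : ∀ i, v ≤ i → i ≤ a → ∑ y, EM p a i x y * F y = F x := by
    intro i hvi hia
    have h2 : ∀ y, EM p a i x y * F y = (if (y : ℕ) % p ^ i = (x : ℕ) % p ^ i then (1 : ℝ) else 0) *
        ((p : ℝ) ^ i / (p : ℝ) ^ a * F x) := by
      intro y
      unfold EM
      by_cases hxy : (x : ℕ) % p ^ i = (y : ℕ) % p ^ i
      · have hd : p ^ v ∣ p ^ i := pow_dvd_pow p hvi
        have h3 : F y = F x := hF y x (by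
          rw [← Nat.mod_mod_of_dvd (y : ℕ) hd, ← hxy, Nat.mod_mod_of_dvd _ hd])
        rw [if_pos hxy, if_pos hxy.symm, h3]; ring
      · rw [if_neg hxy, if_neg (fun h => hxy h.symm)]; ring
    simp only [h2]
    rw [← Finset.sum_mul]
    have h3 : ∑ y : Fin (p ^ a), (if (y : ℕ) % p ^ i = (x : ℕ) % p ^ i then (1 : ℝ) else 0)
        = (p : ℝ) ^ a / (p : ℝ) ^ i := by
      rw [← count_class hp hia (x : ℕ)]
      rw [Finset.card_filter]; push_cast; rfl
    rw [h3]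
    field_simp
  simp only [DD, Matrix.sub_apply, sub_mul, Finset.sum_sub_distrib]
  rw [h1 (j + 1) (by omega) (by omega), h1 j hv (by omega), sub_self]

lemma DD_congr {p a : ℕ} (j : Fin a) (x x' : Fin (p ^ a)) (h : (x : ℕ) % p ^ ((j : ℕ) + 1) = (x' : ℕ) % p ^ ((j : ℕ) + 1))
    (y : Fin (p ^ a)) : DD p a j x y = DD p a j x' y := by
  have hd : p ^ (j : ℕ) ∣ p ^ ((j : ℕ) + 1) := pow_dvd_pow p (by omega)
  have h2 : (x : ℕ) % p ^ (j : ℕ) = (x' : ℕ) % p ^ (j : ℕ) := by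
    rw [← Nat.mod_mod_of_dvd (x : ℕ) hd, h, Nat.mod_mod_of_dvd _ hd]
  simp only [DD, Matrix.sub_apply, EM, h, h2]

/-- first digit -/
def pi1 {p a : ℕ} (hp : 0 < p) (x : Fin (p ^ a)) : Fin p := ⟨(x : ℕ) % p, Nat.mod_lt _ hp⟩

/-- lift of a kernel on the first digit -/
noncomputable def lift {p : ℕ} (a : ℕ) (hp : 0 < p) (K : Matrix (Fin p) (Fin p) ℝ) :
    Matrix (Fin (p ^ a)) (Fin (p ^ a)) ℝ :=
  fun x y => K (pi1 hp x) (pi1 hp y) * ((p : ℝ) / (p : ℝ) ^ a)

lemma sum_pi1 {p a : ℕ} (hp : 0 < p) (ha : 1 ≤ a) (f : Fin p → ℝ) :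
    ∑ y : Fin (p ^ a), f (pi1 hp y) = (p : ℝ) ^ a / (p : ℝ) * ∑ b, f b := by
  rw [← Finset.sum_fiberwise (Finset.univ : Finset (Fin (p ^ a))) (pi1 hp), Finset.mul_sum]
  refine Finset.sum_congr rfl fun b _ => ?_
  have h1 : ∀ y ∈ Finset.univ.filter (fun y : Fin (p ^ a) => pi1 hp y = b), f (pi1 hp y) = f b :=
    fun y hy => by rw [(Finset.mem_filter.1 hy).2]
  rw [Finset.sum_congr rfl h1, Finset.sum_const, nsmul_eq_mul]
  congr 1
  have h2 := count_class hp ha (b : ℕ)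
  rw [pow_one, pow_one] at h2
  rw [← h2]
  congr 2
  refine Finset.filter_congr fun y _ => ?_
  rw [Nat.mod_eq_of_lt b.2, pi1, Fin.ext_iff]

lemma lift_mul {p a : ℕ} (hp : 0 < p) (ha : 1 ≤ a) (K L : Matrix (Fin p) (Fin p) ℝ) :
    lift a hp K * lift a hp L = lift a hp (K * L) := by
  ext x z
  have hp0 : (p : ℝ) ≠ 0 := by exact_mod_cast hp.ne'
  simp only [Matrix.mul_apply, lift]
  have h1 : ∀ y : Fin (p ^ a), K (pi1 hp x) (pi1 hp y) * ((p : ℝ) / (p : ℝ) ^ a) *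
      (L (pi1 hp y) (pi1 hp z) * ((p : ℝ) / (p : ℝ) ^ a))
      = (fun b => K (pi1 hp x) b * L b (pi1 hp z)) (pi1 hp y) * (((p : ℝ) / (p : ℝ) ^ a) * ((p : ℝ) / (p : ℝ) ^ a)) := by
    intro y; ring
  have h2 := sum_pi1 (a := a) hp ha (fun b => K (pi1 hp x) b * L b (pi1 hp z))
  rw [Finset.sum_congr rfl (fun y _ => h1 y), ← Finset.sum_mul, h2]
  field_simp

lemma lift_add {p a : ℕ} (hp : 0 < p) (K L : Matrix (Fin p) (Fin p) ℝ) :
    lift a hp (K + L) = lift a hp K + lift a hp L := by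
  ext x y; simp only [lift, Matrix.add_apply]; ring

lemma lift_sub {p a : ℕ} (hp : 0 < p) (K L : Matrix (Fin p) (Fin p) ℝ) :
    lift a hp (K - L) = lift a hp K - lift a hp L := by
  ext x y; simp only [lift, Matrix.sub_apply]; ring

lemma lift_smul {p a : ℕ} (hp : 0 < p) (c : ℝ) (K : Matrix (Fin p) (Fin p) ℝ) :
    lift a hp (c • K) = c • lift a hp K := by
  ext x y; simp only [lift, Matrix.smul_apply, smul_eq_mul]; ring

lemma lift_sum {p a : ℕ} (hp : 0 < p) {κ : Type} (s : Finset κ) (K : κ → Matrix (Fin p) (Fin p) ℝ) :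
    lift a hp (∑ k ∈ s, K k) = ∑ k ∈ s, lift a hp (K k) := by
  ext x y
  simp only [lift, Matrix.sum_apply, Finset.sum_mul]

lemma lift_transpose {p a : ℕ} (hp : 0 < p) (K : Matrix (Fin p) (Fin p) ℝ) :
    (lift a hp K).transpose = lift a hp K.transpose := by
  ext x y; simp only [lift, Matrix.transpose_apply]

lemma lift_E {p a : ℕ} (hp : 0 < p) : lift a hp (E (Fin p)) = E (Fin (p ^ a)) := by
  ext x y
  have hp0 : (p : ℝ) ≠ 0 := by exact_mod_cast hp.ne'
  simp only [lift, E, Fintype.card_fin]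
  push_cast
  field_simp

lemma lift_one {p a : ℕ} (hp : 0 < p) : lift a hp (1 : Matrix (Fin p) (Fin p) ℝ) = EM p a 1 := by
  ext x y
  simp only [lift, EM, Matrix.one_apply, pow_one, pi1, Fin.mk.injEq]
  split_ifs <;> ring

variable {p a : ℕ}

lemma sub_A (k : Fin p) (h2 : 2 ≤ p) (b c : Fin p) :
    (E (Fin p) + Q k - Am k) b c = if b = k ∧ c = k then 1 else 0 := by
  have h22 : (2 : ℝ) ≤ p := by exact_mod_cast h2
  have h1 : (p : ℝ) - 1 ≠ 0 := by intro h; linarith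
  have h0 : (p : ℝ) ≠ 0 := by intro h; linarith
  simp only [Matrix.add_apply, Matrix.sub_apply, E, Q, Am, uu, vv, Fintype.card_fin]
  by_cases hb : b = k <;> by_cases hc : c = k <;> simp [hb, hc] <;> field_simp <;> ring

/-- the cell of a sifting prime -/
lemma isG_col (hp : p.Prime) (ha : 1 ≤ a) (k : Fin p) (j₀ : Fin a) (hj₀ : (j₀ : ℕ) = 0) :
    IsG (1 / ((p : ℝ) - 1)) (((p : ℝ) - 1) / (p : ℝ)) (lift a hp.pos (Q k)) (lift a hp.pos (Cm k))
      (fun j => DD p a j - if j = j₀ then lift a hp.pos (Q k) else 0) (lift a hp.pos (Am k)) := by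
  have hcard : Fintype.card (Fin p) = p := Fintype.card_fin p
  have h2 : 2 ≤ Fintype.card (Fin p) := by rw [hcard]; exact hp.two_le
  have hc := isCell_col k h2
  rw [hcard] at hc
  have hne : Nonempty (Fin (p ^ a)) := ⟨⟨0, pow_pos hp.pos a⟩⟩
  have hpp := hp.pos
  refine isG_mk hne (isD_DD hp.pos) j₀ ?_ ?_ ?_ ?_ ?_ ?_ ?_ ?_ ?_ ?_ hc.r_pos hc.g_nonneg
  · rw [lift_transpose, hc.Qt]
  · rw [lift_mul hpp ha, hc.QQ]
  · rw [DD, hj₀, zero_add, ← lift_one hpp, EM_zero, ← lift_E hpp, ← lift_sub, lift_mul hpp ha]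
    congr 1
    rw [sub_mul, one_mul, E_mul_Q, sub_zero]
  · rw [lift_transpose, hc.At]
  · rw [lift_mul hpp ha, hc.AA]
  · rw [lift_transpose, lift_mul hpp ha, hc.CtC, lift_smul]
  · rw [← lift_E hpp, ← lift_add, lift_transpose, lift_mul hpp ha, ← lift_smul, ← hc.Aeq]
  · rw [← lift_E hpp, ← lift_add, lift_mul hpp ha]
    congr 1
    have h3 : (E (Fin p) + Q k) = 1 - Z k := by rw [Z]; abel
    rw [h3, sub_mul, one_mul, hc.ZA, sub_zero]
  · rw [← lift_E hpp, lift_mul hpp ha, lift_mul hpp ha, hc.AEA, lift_smul]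
  · rw [lift_mul hpp ha, lift_mul hpp ha, hc.AQA, lift_smul]

/-- the kernel `Z + A` is the identity at the unsifted classes -/
lemma ZA_col (hp : p.Prime) (k : Fin p) (j₀ : Fin a) (x y : Fin (p ^ a)) (hy : pi1 hp.pos y ≠ k) :
    ((∑ j, (DD p a j - if j = j₀ then lift a hp.pos (Q k) else 0)) + lift a hp.pos (Am k)) x y
      = (1 : Matrix (Fin (p ^ a)) (Fin (p ^ a)) ℝ) x y := by
  have hD := isD_DD (p := p) (a := a) hp.pos
  have hsum : ∑ j, (DD p a j - if j = j₀ then lift a hp.pos (Q k) else 0)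
      = 1 - E (Fin (p ^ a)) - lift a hp.pos (Q k) := by
    rw [Finset.sum_sub_distrib, Finset.sum_ite_eq' Finset.univ j₀ (fun _ => lift a hp.pos (Q k)),
      if_pos (Finset.mem_univ _), ← hD.sum]
    abel
  have h1 : (∑ j, (DD p a j - if j = j₀ then lift a hp.pos (Q k) else 0)) + lift a hp.pos (Am k)
      = 1 - lift a hp.pos (E (Fin p) + Q k - Am k) := by
    rw [hsum, lift_sub, lift_add, lift_E]; abel
  rw [h1, Matrix.sub_apply]
  have h2 : lift a hp.pos (E (Fin p) + Q k - Am k) x y = 0 := by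
    rw [lift, sub_A k hp.two_le, if_neg (fun h => hy h.2), zero_mul]
  rw [h2, sub_zero]

lemma ZA_plain {D : Fin a → Matrix (Fin (p ^ a)) (Fin (p ^ a)) ℝ} (hD : IsD D) (j₀ : Fin a) :
    (∑ j, (D j - if j = j₀ then (0 : Matrix (Fin (p ^ a)) (Fin (p ^ a)) ℝ) else 0)) + E (Fin (p ^ a)) = 1 := by
  rw [← hD.sum]
  simp only [ite_self, sub_zero]
  abel

end Run7.h52.CellG
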