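import Pool.Agent.Run7.h52.Ker

set_option autoImplicit false
set_option linter.unusedSectionVars false

namespace Run7.h52.Core

open Finset Run7.h52.Op Run7.h52.Ker

variable {ι : Type} [Fintype ι] [DecidableEq ι] {Ω : ι → Type} [∀ i, Fintype (Ω i)]
  [∀ i, DecidableEq (Ω i)]

/-- size of the `i`-th factor -/
noncomputable def pp (Ω : ι → Type) [∀ i, Fintype (Ω i)] (i : ι) : ℝ := (Fintype.card (Ω i) : ℝ)

/-- `V` has level `≤ exp L` -/
def Lev (L : ℝ) (V : (∀ i, Ω i) → ℝ) : Prop :=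
  ∀ (K : ∀ i, Matrix (Ω i) (Ω i) ℝ) (s : Finset ι), (∀ i ∈ s, ∀ a, ∑ b, K i a b = 0) →
    L < ∑ i ∈ s, Real.log (pp Ω i) → op K V = 0

lemma ip_sum_right {α : Type} (s : Finset α) (V : (∀ i, Ω i) → ℝ) (W : α → (∀ i, Ω i) → ℝ) :
    ip V (∑ τ ∈ s, W τ) = ∑ τ ∈ s, ip V (W τ) := by
  unfold ip
  rw [Finset.sum_comm]
  refine Finset.sum_congr rfl fun x _ => ?_
  rw [Finset.sum_apply, Finset.mul_sum]

lemma ip_smul_right (c : ℝ) (V W : (∀ i, Ω i) → ℝ) : ip V (c • W) = c * ip V W := by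
  unfold ip
  rw [Finset.mul_sum]
  refine Finset.sum_congr rfl fun x _ => ?_
  rw [Pi.smul_apply, smul_eq_mul]; ring

lemma ip_self_op (X : ∀ i, Matrix (Ω i) (Ω i) ℝ) (V : (∀ i, Ω i) → ℝ) :
    ip (op X V) (op X V) = ip V (op (fun i => (X i).transpose * X i) V) := by
  rw [ip_op_left, op_comp]

lemma ip_proj (X : ∀ i, Matrix (Ω i) (Ω i) ℝ) (h1 : ∀ i, (X i).transpose = X i)
    (h2 : ∀ i, X i * X i = X i) (V : (∀ i, Ω i) → ℝ) :
    ip (op X V) (op X V) = ip V (op X V) := by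
  rw [ip_self_op]
  simp only [h1, h2]

/-- resolution of the identity -/
lemma sum_parts {C : Type} [Fintype C] (P : ∀ i, C → Matrix (Ω i) (Ω i) ℝ)
    (h1 : ∀ i c, (P i c).transpose = P i c) (h2 : ∀ i c, P i c * P i c = P i c)
    (h3 : ∀ i, ∑ c, P i c = 1) (V : (∀ i, Ω i) → ℝ) :
    ∑ τ : ι → C, ip (op (fun i => P i (τ i)) V) (op (fun i => P i (τ i)) V) = ip V V := by
  have h := ip_op_expand P (fun _ _ => 1) (fun _ => 1)
    (fun i => by simp only [h1, h2, one_smul, h3]) V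
  rw [op_one] at h
  rw [h]
  simp

/-- weights in one coordinate -/
lemma weight_parts {C : Type} [Fintype C] (P : ∀ i, C → Matrix (Ω i) (Ω i) ℝ)
    (h1 : ∀ i c, (P i c).transpose = P i c) (h2 : ∀ i c, P i c * P i c = P i c)
    (h3 : ∀ i, ∑ c, P i c = 1) (V : (∀ i, Ω i) → ℝ) (i : ι) (w : C → ℝ) :
    ∑ τ : ι → C, w (τ i) * ip (op (fun i => P i (τ i)) V) (op (fun i => P i (τ i)) V)
      = ip V (op (Function.update (fun j => (1 : Matrix (Ω j) (Ω j) ℝ)) i (∑ c, w c • P i c)) V) := by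
  rw [ip_op_expand P (fun j c => if j = i then w c else 1) _ ?_ V]
  · refine Finset.sum_congr rfl fun τ _ => ?_
    congr 1
    rw [Finset.prod_ite_eq' Finset.univ i (fun j => w (τ j))]
    simp
  · intro j
    by_cases hj : j = i
    · subst hj
      simp only [if_true, h1, h2, Function.update_self]
    · simp only [if_neg hj, Function.update_of_ne hj, one_smul, h1, h2, h3]

lemma weight_parts_all {C : Type} [Fintype C] (P : ∀ i, C → Matrix (Ω i) (Ω i) ℝ)
    (h1 : ∀ i c, (P i c).transpose = P i c) (h2 : ∀ i c, P i c * P i c = P i c)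
    (h3 : ∀ i, ∑ c, P i c = 1) (V : (∀ i, Ω i) → ℝ) (w : ι → C → ℝ) :
    ∑ τ : ι → C, (∑ i, w i (τ i)) * ip (op (fun i => P i (τ i)) V) (op (fun i => P i (τ i)) V)
      = ∑ i, ip V (op (Function.update (fun j => (1 : Matrix (Ω j) (Ω j) ℝ)) i
        (∑ c, w i c • P i c)) V) := by
  simp only [Finset.sum_mul]
  rw [Finset.sum_comm]
  exact Finset.sum_congr rfl fun i _ => weight_parts P h1 h2 h3 V i (w i)

/-- one-coordinate form -/
noncomputable def f1 (V : (∀ i, Ω i) → ℝ) (i : ι) (K : Matrix (Ω i) (Ω i) ℝ) : ℝ :=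
  ip V (op (Function.update (fun j => (1 : Matrix (Ω j) (Ω j) ℝ)) i K) V)

lemma f1_sum {α : Type} (s : Finset α) (V : (∀ i, Ω i) → ℝ) (i : ι)
    (K : α → Matrix (Ω i) (Ω i) ℝ) : f1 V i (∑ a ∈ s, K a) = ∑ a ∈ s, f1 V i (K a) := by
  rw [f1, op_update_sum, ip_sum_right]; rfl

lemma f1_smul (V : (∀ i, Ω i) → ℝ) (i : ι) (c : ℝ) (K : Matrix (Ω i) (Ω i) ℝ) :
    f1 V i (c • K) = c * f1 V i K := by
  rw [f1, op_update_smul, ip_smul_right]; rfl

lemma f1_one (V : (∀ i, Ω i) → ℝ) (i : ι) : f1 V i 1 = ip V V := by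
  rw [f1]
  have : Function.update (fun j => (1 : Matrix (Ω j) (Ω j) ℝ)) i 1 = fun j => 1 := by
    exact Function.update_eq_self i (fun j => (1 : Matrix (Ω j) (Ω j) ℝ))
  rw [this, op_one]

lemma f1_nonneg (V : (∀ i, Ω i) → ℝ) (i : ι) (K : Matrix (Ω i) (Ω i) ℝ)
    (h1 : K.transpose = K) (h2 : K * K = K) : 0 ≤ f1 V i K := by
  rw [f1, ← ip_proj]
  · exact ip_self_nonneg _
  · intro j
    by_cases hj : j = i
    · subst hj; simp [h1]
    · simp [Function.update_of_ne hj]
  · intro j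
    by_cases hj : j = i
    · subst hj; simp [h2]
    · simp [Function.update_of_ne hj]

/-- total of the colours at one coordinate -/
lemma sum_f1_Q {κ : Type} [Fintype κ] (V : (∀ i, Ω i) → ℝ) (i : ι) (a : κ → Ω i)
    (ha : Function.Injective a) (h2 : 2 ≤ Fintype.card (Ω i)) :
    ∑ k, f1 V i (Q (a k)) ≤ (pp Ω i / (pp Ω i - 1)) * f1 V i (1 - E (Ω i)) := by
  classical
  rw [← f1_smul, pp, ← sum_Q, f1_sum]
  rw [← Finset.sum_image (f := fun b => f1 V i (Q b)) (s := Finset.univ) (g := a)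
    (fun x _ y _ h => ha h)]
  exact Finset.sum_le_sum_of_subset_of_nonneg (Finset.subset_univ _)
    (fun b _ _ => f1_nonneg V i _ (Q_transpose b) (Q_mul_Q b h2))

/-- size of a labelled set -/
noncomputable def uu' (Ω : ι → Type) [∀ i, Fintype (Ω i)] (τ : ι → Bool) : ℝ :=
  ∑ i, if τ i = true then Real.log (pp Ω i) else 0

lemma log_pp_nonneg (i : ι) (h2 : 2 ≤ Fintype.card (Ω i)) : 0 ≤ Real.log (pp Ω i) := by
  apply Real.log_nonneg
  rw [pp]
  have : (2 : ℝ) ≤ Fintype.card (Ω i) := by exact_mod_cast h2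
  linarith

lemma lev_zero {L : ℝ} {V : (∀ i, Ω i) → ℝ} (hV : Lev L V) (K : ∀ i, Matrix (Ω i) (Ω i) ℝ)
    (τ : ι → Bool) (h0 : ∀ i, τ i = true → ∀ a, ∑ b, K i a b = 0) (hL : L < uu' Ω τ) :
    op K V = 0 := by
  refine hV K (Finset.univ.filter fun i => τ i = true) (fun i hi => h0 i (Finset.mem_filter.1 hi).2) ?_
  rw [Finset.sum_filter]; exact hL

/-- the level inequality -/
lemma level_ineq {L : ℝ} {V : (∀ i, Ω i) → ℝ} (hV : Lev L V)
    (h2 : ∀ i, 2 ≤ Fintype.card (Ω i)) :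
    ∑ i, Real.log (pp Ω i) * f1 V i (1 - E (Ω i)) ≤ L * ip V V := by
  have hne : ∀ i, Nonempty (Ω i) := fun i => Fintype.card_pos_iff.1 (by have := h2 i; omega)
  set P : ∀ i, Bool → Matrix (Ω i) (Ω i) ℝ := fun i c => if c = true then 1 - E (Ω i) else E (Ω i) with hP
  have h1 : ∀ i c, (P i c).transpose = P i c := by
    intro i c; cases c
    · simp [hP, E_transpose]
    · simp only [hP, if_true, oneE_transpose]
  have h2' : ∀ i c, P i c * P i c = P i c := by
    intro i c; cases c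
    · simp [hP, E_mul_E]
    · simp only [hP, if_true, oneE_mul]
  have h3 : ∀ i, ∑ c, P i c = 1 := by
    intro i; simp [hP]
  have hw := weight_parts_all P h1 h2' h3 V (fun i c => if c = true then Real.log (pp Ω i) else 0)
  have e : ∀ i, ip V (op (Function.update (fun j => (1 : Matrix (Ω j) (Ω j) ℝ)) i
        (∑ c : Bool, (if c = true then Real.log (pp Ω i) else 0) • P i c)) V)
      = Real.log (pp Ω i) * f1 V i (1 - E (Ω i)) := by
    intro i
    rw [← f1_smul, f1]
    congr 3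
    simp [hP]
  simp only [e] at hw
  rw [← hw, ← sum_parts P h1 h2' h3 V, Finset.mul_sum]
  refine Finset.sum_le_sum fun τ _ => ?_
  by_cases hL : L < uu' Ω τ
  · rw [lev_zero hV (fun i => P i (τ i)) τ ?_ hL]
    · simp [ip]
    · intro i hi a
      simp only [hi, hP, if_true]
      exact sum_oneE_row a
  · push Not at hL
    exact mul_le_mul_of_nonneg_right hL (ip_self_nonneg _)

/-- product of the densities -/
noncomputable def rho (Ω : ι → Type) [∀ i, Fintype (Ω i)] : ℝ := ∏ i, ((pp Ω i - 1) / pp Ω i)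

/-- `∑ V²` over the points which avoid the classes `a` -/
noncomputable def unhit (a : ∀ i, Ω i) (V : (∀ i, Ω i) → ℝ) : ℝ :=
  ∑ x, if ∀ i, x i ≠ a i then V x * V x else 0

lemma unhit_eq (a : ∀ i, Ω i) (V : (∀ i, Ω i) → ℝ) :
    unhit a V = ip V (op (fun i => D (a i)) V) := by
  unfold unhit ip
  refine Finset.sum_congr rfl fun x _ => ?_
  have h : op (fun i => D (a i)) V x = if ∀ i, x i ≠ a i then V x else 0 := by
    unfold op
    rw [Finset.sum_eq_single x]
    · split_ifs with hx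
      · have : ∏ i, D (a i) (x i) (x i) = 1 := by
          refine Finset.prod_eq_one fun i _ => ?_
          rw [D, Matrix.diagonal_apply_eq, if_neg (hx i)]
        rw [this, one_mul]
      · push Not at hx
        obtain ⟨i, hi⟩ := hx
        have : ∏ i, D (a i) (x i) (x i) = 0 := by
          refine Finset.prod_eq_zero (Finset.mem_univ i) ?_
          rw [D, Matrix.diagonal_apply_eq, if_pos hi]
        rw [this, zero_mul]
    · intro y _ hy
      have : ∃ i, x i ≠ y i := by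
        by_contra h
        push Not at h
        exact hy (funext fun i => (h i).symm)
      obtain ⟨i, hi⟩ := this
      have h0 : ∏ i, D (a i) (x i) (y i) = 0 := by
        refine Finset.prod_eq_zero (Finset.mem_univ i) ?_
        rw [D, Matrix.diagonal_apply_ne _ hi]
      rw [h0, zero_mul]
    · simp
  rw [h]
  split_ifs <;> simp

end Run7.h52.Core
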