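import Pool.Agent.Run7.h52.Core

set_option autoImplicit false
set_option linter.unusedSectionVars false

namespace Run7.h52.CoreA

open Finset Run7.h52.Op Run7.h52.Ker Run7.h52.Core

variable {ι : Type} [Fintype ι] [DecidableEq ι] {Ω : ι → Type} [∀ i, Fintype (Ω i)]
  [∀ i, DecidableEq (Ω i)]

/-- the operator `S` -/
noncomputable def SS (a : ∀ i, Ω i) (V : (∀ i, Ω i) → ℝ) : (∀ i, Ω i) → ℝ :=
  op (fun i => 1 - Q (a i) + Cm (a i)) V

lemma rho_nonneg (h2 : ∀ i, 2 ≤ Fintype.card (Ω i)) : 0 < rho Ω := by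
  unfold rho
  refine Finset.prod_pos fun i _ => ?_
  have : (2 : ℝ) ≤ pp Ω i := by rw [pp]; exact_mod_cast h2 i
  apply div_pos <;> linarith

lemma S_le_unhit (a : ∀ i, Ω i) (V : (∀ i, Ω i) → ℝ) (h2 : ∀ i, 2 ≤ Fintype.card (Ω i)) :
    rho Ω * ip (SS a V) (SS a V) ≤ unhit a V := by
  have h1 : ∀ i, (2 : ℝ) ≤ pp Ω i := fun i => by rw [pp]; exact_mod_cast h2 i
  set X : ∀ i, Bool → Matrix (Ω i) (Ω i) ℝ := fun i c =>
    if c = true then Z (a i) else (E (Ω i) + Cm (a i)) with hX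
  have hA : unhit a V = ∑ τ : ι → Bool, (∏ i, (if τ i = true then 1 else (pp Ω i - 1) / pp Ω i)) *
      ip (op (fun i => X i (τ i)) V) (op (fun i => X i (τ i)) V) := by
    rw [unhit_eq]
    refine ip_op_expand X (fun i c => if c = true then 1 else (pp Ω i - 1) / pp Ω i) _ ?_ V
    intro i
    rw [D_eq _ (h2 i)]
    simp [hX, pp]
  have hB : ip (SS a V) (SS a V) = ∑ τ : ι → Bool, (∏ i : ι, (1 : ℝ)) *
      ip (op (fun i => X i (τ i)) V) (op (fun i => X i (τ i)) V) := by
    rw [SS, ip_self_op]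
    refine ip_op_expand X (fun i c => 1) _ ?_ V
    intro i
    rw [S_sq _ (h2 i)]
    simp [hX]
  rw [hA, hB, Finset.mul_sum]
  refine Finset.sum_le_sum fun τ _ => ?_
  rw [← mul_assoc]
  refine mul_le_mul_of_nonneg_right ?_ (ip_self_nonneg _)
  rw [Finset.prod_const_one, mul_one, rho]
  refine Finset.prod_le_prod (fun i _ => ?_) (fun i _ => ?_)
  · exact div_nonneg (by linarith [h1 i]) (by linarith [h1 i])
  · split_ifs
    · rw [div_le_one (by linarith [h1 i])]; linarith
    · exact le_rfl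

/-- `∏ 1/(p-1)` -/
noncomputable def gg (Ω : ι → Type) [∀ i, Fintype (Ω i)] (τ : ι → Bool) : ℝ :=
  ∏ i, if τ i = true then 1 / (pp Ω i - 1) else 1

/-- parts of `V` with respect to the classes `a` -/
noncomputable def part (a : ∀ i, Ω i) (V : (∀ i, Ω i) → ℝ) (τ : ι → Bool) : (∀ i, Ω i) → ℝ :=
  op (fun i => if τ i = true then Q (a i) else 1 - Q (a i)) V

/-- parts of `S V` -/
noncomputable def partC (a : ∀ i, Ω i) (V : (∀ i, Ω i) → ℝ) (τ : ι → Bool) : (∀ i, Ω i) → ℝ :=
  op (fun i => if τ i = true then Cm (a i) else 1 - Q (a i)) V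

lemma ip_partC (a : ∀ i, Ω i) (V : (∀ i, Ω i) → ℝ) (h2 : ∀ i, 2 ≤ Fintype.card (Ω i))
    (τ : ι → Bool) : ip (partC a V τ) (partC a V τ) = gg Ω τ * ip (part a V τ) (part a V τ) := by
  rw [partC, ip_self_op]
  rw [ip_op_expand (C := Unit) (fun i _ => if τ i = true then Q (a i) else 1 - Q (a i))
    (fun i _ => if τ i = true then 1 / (pp Ω i - 1) else 1) _ ?_ V]
  · simp [gg, part]
  · intro i
    cases h : τ i
    · simp
    · simp only [if_true, Finset.univ_unique, Finset.sum_const, Finset.card_singleton, one_smul]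
      rw [Ct_mul_C _ (h2 i), Q_transpose, Q_mul_Q _ (h2 i), pp]

lemma sum_part (a : ∀ i, Ω i) (V : (∀ i, Ω i) → ℝ) : V = ∑ τ : ι → Bool, part a V τ := by
  have h := op_expand (C := Bool) (fun i c => if c = true then Q (a i) else 1 - Q (a i))
    (fun _ => 1) (fun i => by simp) V
  rw [op_one] at h
  exact h

lemma sum_partC (a : ∀ i, Ω i) (V : (∀ i, Ω i) → ℝ) : SS a V = ∑ τ : ι → Bool, partC a V τ := by
  have h := op_expand (C := Bool) (fun i c => if c = true then Cm (a i) else 1 - Q (a i))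
    (fun i => 1 - Q (a i) + Cm (a i)) (fun i => by simp; abel) V
  exact h

lemma sum_ip_part (a : ∀ i, Ω i) (V : (∀ i, Ω i) → ℝ) (h2 : ∀ i, 2 ≤ Fintype.card (Ω i)) :
    ∑ τ : ι → Bool, ip (part a V τ) (part a V τ) = ip V V := by
  refine sum_parts (fun i c => if c = true then Q (a i) else 1 - Q (a i)) ?_ ?_ ?_ V
  · intro i c; cases c
    · simp [Q_transpose]
    · simp [Q_transpose]
  · intro i c; cases c
    · simp [H_mul _ (h2 i)]
    · simp [Q_mul_Q _ (h2 i)]
  · intro i; simp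

lemma sum_u_part (a : ∀ i, Ω i) (V : (∀ i, Ω i) → ℝ) (h2 : ∀ i, 2 ≤ Fintype.card (Ω i)) :
    ∑ τ : ι → Bool, uu' Ω τ * ip (part a V τ) (part a V τ)
      = ∑ i, Real.log (pp Ω i) * f1 V i (Q (a i)) := by
  have h := weight_parts_all (fun i c => if c = true then Q (a i) else 1 - Q (a i)) ?_ ?_ ?_ V
    (fun i c => if c = true then Real.log (pp Ω i) else 0)
  · unfold uu' part
    rw [h]
    refine Finset.sum_congr rfl fun i _ => ?_
    rw [← f1_smul, f1]
    congr 3
    simp
  · intro i c; cases c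
    · simp [Q_transpose]
    · simp [Q_transpose]
  · intro i c; cases c
    · simp [H_mul _ (h2 i)]
    · simp [Q_mul_Q _ (h2 i)]
  · intro i; simp

lemma sum_Q_row' {α : Type} [Fintype α] [DecidableEq α] (k b : α) : ∑ c, Q k b c = 0 := sum_Q_row k b

lemma part_zero {L : ℝ} {V : (∀ i, Ω i) → ℝ} (hV : Lev L V) (a : ∀ i, Ω i) (τ : ι → Bool)
    (hL : L < uu' Ω τ) : part a V τ = 0 := by
  refine lev_zero hV _ τ ?_ hL
  intro i hi b
  simp only [hi, if_true]
  exact sum_Q_row _ b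

lemma partC_zero {L : ℝ} {V : (∀ i, Ω i) → ℝ} (hV : Lev L V) (a : ∀ i, Ω i) (τ : ι → Bool)
    (hL : L < uu' Ω τ) : partC a V τ = 0 := by
  refine lev_zero hV _ τ ?_ hL
  intro i hi b
  simp only [hi, if_true]
  exact sum_C_row _ b

lemma uu'_lower {lam : ℝ} (hlam : ∀ i, lam ≤ Real.log (pp Ω i)) (hlam0 : 0 < lam) (τ : ι → Bool)
    (hτ : τ ≠ fun _ => false) : lam ≤ uu' Ω τ := by
  have : ∃ i, τ i = true := by
    by_contra h
    push Not at h
    exact hτ (funext fun i => by simpa using h i)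
  obtain ⟨i, hi⟩ := this
  unfold uu'
  have h := Finset.single_le_sum (f := fun i => if τ i = true then Real.log (pp Ω i) else 0)
    (s := Finset.univ) (fun j _ => by split_ifs <;> [exact (hlam0.le.trans (hlam j)); exact le_rfl])
    (Finset.mem_univ i)
  simp only [hi, if_true] at h
  exact (hlam i).trans h

lemma nrm_eq_ip (V : (∀ i, Ω i) → ℝ) : nrm V ^ 2 = ip V V := nrm_sq V

/-- the sum over the small labelled sets -/
noncomputable def BB (Ω : ι → Type) [∀ i, Fintype (Ω i)] (L : ℝ) : ℝ :=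
  ∑ τ : ι → Bool, if τ ≠ (fun _ => false) ∧ uu' Ω τ ≤ L then gg Ω τ / uu' Ω τ else 0

/-- one colour -/
lemma one_colour {L lam : ℝ} {V : (∀ i, Ω i) → ℝ} (hV : Lev L V) (a : ∀ i, Ω i)
    (h2 : ∀ i, 2 ≤ Fintype.card (Ω i)) (hlam : ∀ i, lam ≤ Real.log (pp Ω i)) (hlam0 : 0 < lam) :
    nrm V ≤ nrm (SS a V) + (Real.sqrt (BB Ω L) + 1 / Real.sqrt lam) *
      Real.sqrt (∑ i, Real.log (pp Ω i) * f1 V i (Q (a i))) := by
  classical
  set x := ∑ i, Real.log (pp Ω i) * f1 V i (Q (a i)) with hx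
  have hpp : ∀ i, (2 : ℝ) ≤ pp Ω i := fun i => by rw [pp]; exact_mod_cast h2 i
  set z : ι → Bool := fun _ => false with hz
  set q : (ι → Bool) → ℝ := fun τ => ip (part a V τ) (part a V τ) with hq
  have hq0 : ∀ τ, 0 ≤ q τ := fun τ => ip_self_nonneg _
  have hxu : ∑ τ, uu' Ω τ * q τ = x := sum_u_part a V h2
  have hu0 : ∀ τ, 0 ≤ uu' Ω τ := fun τ => Finset.sum_nonneg fun i _ => by
    split_ifs
    · exact hlam0.le.trans (hlam i)
    · exact le_rfl
  have hx0 : 0 ≤ x := by rw [← hxu]; exact Finset.sum_nonneg fun τ _ => mul_nonneg (hu0 τ) (hq0 τ)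
  -- decomposition
  have hdec : V = SS a V + ((V - part a V z) - ∑ τ ∈ Finset.univ.erase z, partC a V τ) := by
    have h1 := sum_partC a V
    rw [← Finset.add_sum_erase _ _ (Finset.mem_univ z)] at h1
    have h2 : partC a V z = part a V z := by simp [partC, part, hz]
    rw [h1, h2]; abel
  have hT : nrm V ≤ nrm (SS a V) + (nrm (V - part a V z) + nrm (∑ τ ∈ Finset.univ.erase z, partC a V τ)) := by
    calc nrm V = nrm (SS a V + ((V - part a V z) - ∑ τ ∈ Finset.univ.erase z, partC a V τ)) := by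
          rw [← hdec]
      _ ≤ _ := (nrm_add_le _ _).trans (by gcongr; exact nrm_sub_le _ _)
  -- first error
  have hA : nrm (V - part a V z) ≤ 1 / Real.sqrt lam * Real.sqrt x := by
    have h1 : nrm (V - part a V z) ^ 2 = ∑ τ ∈ Finset.univ.erase z, q τ := by
      have e1 := sum_ip_part a V h2
      rw [← Finset.add_sum_erase _ _ (Finset.mem_univ z)] at e1
      have e2 : ip (part a V z) (part a V z) = ip V (part a V z) := by
        refine ip_proj _ ?_ ?_ V
        · intro i; simp [hz, Q_transpose]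
        · intro i; simp [hz, H_mul _ (h2 i)]
      have e3 : nrm (V - part a V z) ^ 2 = ip V V - 2 * ip V (part a V z)
          + ip (part a V z) (part a V z) := by
        rw [nrm_sq]
        unfold ip
        rw [Finset.mul_sum, ← Finset.sum_sub_distrib, ← Finset.sum_add_distrib]
        refine Finset.sum_congr rfl fun y _ => ?_
        rw [Pi.sub_apply]; ring
      rw [e3, ← e2]
      linarith
    have h3 : ∑ τ ∈ Finset.univ.erase z, q τ ≤ x / lam := by
      rw [le_div_iff₀ hlam0, ← hxu, Finset.sum_mul]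
      calc ∑ τ ∈ Finset.univ.erase z, q τ * lam ≤ ∑ τ ∈ Finset.univ.erase z, uu' Ω τ * q τ := by
            refine Finset.sum_le_sum fun τ hτ => ?_
            rw [mul_comm]
            exact mul_le_mul_of_nonneg_right (uu'_lower hlam hlam0 τ (Finset.ne_of_mem_erase hτ)) (hq0 τ)
        _ ≤ _ := Finset.sum_le_sum_of_subset_of_nonneg (Finset.erase_subset _ _)
            (fun τ _ _ => mul_nonneg (hu0 τ) (hq0 τ))
    rw [← h1] at h3
    have h4 : nrm (V - part a V z) ≤ Real.sqrt (x / lam) := Real.le_sqrt_of_sq_le h3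
    rw [Real.sqrt_div hx0] at h4
    rw [one_div, inv_mul_eq_div]
    exact h4
  -- second error
  have hB : nrm (∑ τ ∈ Finset.univ.erase z, partC a V τ) ≤ Real.sqrt (BB Ω L) * Real.sqrt x := by
    have h1 : nrm (∑ τ ∈ Finset.univ.erase z, partC a V τ)
        ≤ ∑ τ ∈ Finset.univ.erase z, nrm (partC a V τ) := nrm_sum_le _ _
    have h3 : ∀ τ ∈ Finset.univ.erase z, nrm (partC a V τ)
        = Real.sqrt (if uu' Ω τ ≤ L then gg Ω τ / uu' Ω τ else 0) * Real.sqrt (uu' Ω τ * q τ) := by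
      intro τ hτ
      have hup : 0 < uu' Ω τ :=
        hlam0.trans_le (uu'_lower hlam hlam0 τ (Finset.ne_of_mem_erase hτ))
      split_ifs with hL
      · have hg : 0 ≤ gg Ω τ := Finset.prod_nonneg fun i _ => by
          split_ifs
          · have := hpp i; exact div_nonneg zero_le_one (by linarith)
          · exact zero_le_one
        rw [← Real.sqrt_mul (div_nonneg hg hup.le)]
        have e : nrm (partC a V τ) = Real.sqrt (ip (partC a V τ) (partC a V τ)) := rfl
        rw [e, ip_partC a V h2]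
        congr 1
        have e2 : gg Ω τ * ip (part a V τ) (part a V τ) = gg Ω τ * q τ := rfl
        rw [e2]
        field_simp
      · rw [partC_zero hV a τ (not_le.1 hL), Real.sqrt_zero, zero_mul]
        simp [nrm]
    rw [Finset.sum_congr rfl h3] at h1
    refine h1.trans ((Real.sum_sqrt_mul_sqrt_le _ (fun τ => ?_) (fun τ => ?_)).trans ?_)
    · split_ifs
      · refine div_nonneg (Finset.prod_nonneg fun i _ => ?_) (hu0 _)
        split_ifs
        · have := hpp i; exact div_nonneg zero_le_one (by linarith)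
        · exact zero_le_one
      · exact le_rfl
    · exact mul_nonneg (hu0 _) (hq0 _)
    · refine mul_le_mul (Real.sqrt_le_sqrt ?_) (Real.sqrt_le_sqrt ?_) (Real.sqrt_nonneg _)
        (Real.sqrt_nonneg _)
      · unfold BB
        rw [← Finset.add_sum_erase _ _ (Finset.mem_univ z)]
        rw [if_neg (by simp [hz]), zero_add]
        refine le_of_eq (Finset.sum_congr rfl fun τ hτ => ?_)
        have := Finset.ne_of_mem_erase hτ
        simp only [hz] at this
        simp [this]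
      · rw [← hxu]
        exact Finset.sum_le_sum_of_subset_of_nonneg (Finset.erase_subset _ _)
            (fun τ _ _ => mul_nonneg (hu0 τ) (hq0 τ))
  calc nrm V ≤ _ := hT
    _ ≤ nrm (SS a V) + (1 / Real.sqrt lam * Real.sqrt x + Real.sqrt (BB Ω L) * Real.sqrt x) := by
        gcongr
    _ = _ := by ring

/-- all colours -/
theorem coreA {κ : Type} [Fintype κ] (a : κ → ∀ i, Ω i)
    (ha : ∀ i, Function.Injective fun k => a k i) {L lam θ : ℝ} {V : (∀ i, Ω i) → ℝ}
    (hV : Lev L V) (h2 : ∀ i, 2 ≤ Fintype.card (Ω i)) (hlam : ∀ i, lam ≤ Real.log (pp Ω i))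
    (hlam0 : 0 < lam) (hθ : ∀ i, pp Ω i / (pp Ω i - 1) ≤ θ) (hθ0 : 0 ≤ θ) (hL : 0 ≤ L) :
    Real.sqrt (Fintype.card κ) * nrm V ≤ Real.sqrt ((∑ k, unhit (a k) V) / rho Ω)
      + (Real.sqrt (BB Ω L) + 1 / Real.sqrt lam) * Real.sqrt (θ * L) * nrm V := by
  set β := Real.sqrt (BB Ω L) + 1 / Real.sqrt lam with hβ
  have hβ0 : 0 ≤ β := add_nonneg (Real.sqrt_nonneg _) (by positivity)
  set x : κ → ℝ := fun k => ∑ i, Real.log (pp Ω i) * f1 V i (Q (a k i)) with hx
  have hlog : ∀ i, 0 ≤ Real.log (pp Ω i) := fun i => hlam0.le.trans (hlam i)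
  have hx0 : ∀ k, 0 ≤ x k := fun k => Finset.sum_nonneg fun i _ =>
    mul_nonneg (hlog i) (f1_nonneg V i _ (Q_transpose _) (Q_mul_Q _ (h2 i)))
  have hsum : ∑ k, x k ≤ θ * L * nrm V ^ 2 := by
    rw [hx, Finset.sum_comm]
    calc ∑ i, ∑ k, Real.log (pp Ω i) * f1 V i (Q (a k i))
        ≤ ∑ i, θ * (Real.log (pp Ω i) * f1 V i (1 - E (Ω i))) := by
          refine Finset.sum_le_sum fun i _ => ?_
          rw [← Finset.mul_sum]
          have h1 := sum_f1_Q V i (fun k => a k i) (ha i) (h2 i)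
          have hne : Nonempty (Ω i) := Fintype.card_pos_iff.1 (by have := h2 i; omega)
          have h3 : 0 ≤ f1 V i (1 - E (Ω i)) := f1_nonneg V i _ oneE_transpose oneE_mul
          calc Real.log (pp Ω i) * ∑ k, f1 V i (Q (a k i))
              ≤ Real.log (pp Ω i) * (θ * f1 V i (1 - E (Ω i))) :=
                mul_le_mul_of_nonneg_left (h1.trans (mul_le_mul_of_nonneg_right (hθ i) h3)) (hlog i)
            _ = _ := by ring
      _ = θ * ∑ i, Real.log (pp Ω i) * f1 V i (1 - E (Ω i)) := by rw [Finset.mul_sum]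
      _ ≤ θ * (L * ip V V) := mul_le_mul_of_nonneg_left (level_ineq hV h2) hθ0
      _ = _ := by rw [nrm_eq_ip]; ring
  have hone : ∀ k, nrm V ≤ nrm (SS (a k) V) + β * Real.sqrt (x k) := fun k =>
    one_colour hV (a k) h2 hlam hlam0
  have h1 : nrm (fun _ : κ => nrm V) = Real.sqrt (Fintype.card κ) * nrm V := by
    have e : nrm (fun _ : κ => nrm V) = Real.sqrt ((Fintype.card κ : ℝ) * (nrm V * nrm V)) := by
      simp [nrm]
    rw [e, Real.sqrt_mul (Nat.cast_nonneg _), Real.sqrt_mul_self (nrm_nonneg V)]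
  have h3 : nrm (fun _ : κ => nrm V) ≤ nrm ((fun k => nrm (SS (a k) V)) + fun k => β * Real.sqrt (x k)) := by
    unfold nrm
    refine Real.sqrt_le_sqrt (Finset.sum_le_sum fun k _ => ?_)
    have h4 := hone k
    have h5 := nrm_nonneg V
    rw [Pi.add_apply]
    exact mul_self_le_mul_self h5 h4
  have h6 : nrm (fun k => nrm (SS (a k) V)) ≤ Real.sqrt ((∑ k, unhit (a k) V) / rho Ω) := by
    unfold nrm
    refine Real.sqrt_le_sqrt ?_
    rw [Finset.sum_div]
    refine Finset.sum_le_sum fun k _ => ?_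
    have := S_le_unhit (a k) V h2
    have h7 : Real.sqrt (∑ y, SS (a k) V y * SS (a k) V y) * Real.sqrt (∑ y, SS (a k) V y * SS (a k) V y)
        = ip (SS (a k) V) (SS (a k) V) :=
      Real.mul_self_sqrt (Finset.sum_nonneg fun _ _ => mul_self_nonneg _)
    rw [h7, le_div_iff₀ (rho_nonneg h2), mul_comm]
    exact this
  have h8 : nrm (fun k => β * Real.sqrt (x k)) ≤ β * Real.sqrt (θ * L) * nrm V := by
    have e : nrm (fun k => β * Real.sqrt (x k)) = Real.sqrt (β ^ 2 * ∑ k, x k) := by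
      unfold nrm
      congr 1
      rw [Finset.mul_sum]
      refine Finset.sum_congr rfl fun k _ => ?_
      have := Real.mul_self_sqrt (hx0 k)
      calc β * Real.sqrt (x k) * (β * Real.sqrt (x k)) = β ^ 2 * (Real.sqrt (x k) * Real.sqrt (x k)) := by ring
        _ = _ := by rw [this]
    rw [e, Real.sqrt_mul (sq_nonneg β), Real.sqrt_sq hβ0, mul_assoc]
    refine mul_le_mul_of_nonneg_left ?_ hβ0
    calc Real.sqrt (∑ k, x k) ≤ Real.sqrt (θ * L * nrm V ^ 2) := Real.sqrt_le_sqrt hsum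
      _ = _ := by rw [Real.sqrt_mul (mul_nonneg hθ0 hL), Real.sqrt_sq (nrm_nonneg V)]
  calc Real.sqrt (Fintype.card κ) * nrm V = nrm (fun _ : κ => nrm V) := h1.symm
    _ ≤ _ := h3
    _ ≤ nrm (fun k => nrm (SS (a k) V)) + nrm (fun k => β * Real.sqrt (x k)) := nrm_add_le _ _
    _ ≤ _ := add_le_add h6 h8

end Run7.h52.CoreA
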