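import Pool.Agent.Run7.h52.CoreA

set_option autoImplicit false
set_option linter.unusedSectionVars false

namespace Run7.h52.CoreB

open Finset Run7.h52.Op Run7.h52.Ker Run7.h52.Core Run7.h52.CoreA

variable {ι : Type} [Fintype ι] [DecidableEq ι] {Ω : ι → Type} [∀ i, Fintype (Ω i)]
  [∀ i, DecidableEq (Ω i)]

/-- the three projections -/
noncomputable def P3 {α : Type} [Fintype α] [DecidableEq α] (k : α) (c : Fin 3) : Matrix α α ℝ :=
  if c = 2 then Z k else if c = 1 then Q k else E α

lemma P3_transpose {α : Type} [Fintype α] [DecidableEq α] (k : α) (c : Fin 3) :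
    (P3 k c).transpose = P3 k c := by
  unfold P3; split_ifs
  · exact Z_transpose k
  · exact Q_transpose k
  · exact E_transpose

lemma P3_mul {α : Type} [Fintype α] [DecidableEq α] (k : α) (h2 : 2 ≤ Fintype.card α) (c : Fin 3) :
    P3 k c * P3 k c = P3 k c := by
  have : Nonempty α := ⟨k⟩
  unfold P3; split_ifs
  · exact Z_mul k h2
  · exact Q_mul_Q k h2
  · exact E_mul_E

lemma P3_sum {α : Type} [Fintype α] [DecidableEq α] (k : α) : ∑ c, P3 k c = 1 := by
  rw [Fin.sum_univ_three]
  simp [P3, Z]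

/-- the parts of `V` -/
noncomputable def part3 (a : ∀ i, Ω i) (V : (∀ i, Ω i) → ℝ) (l : ι → Fin 3) : (∀ i, Ω i) → ℝ :=
  op (fun i => P3 (a i) (l i)) V

/-- the parts with `C` in place of `Q` -/
noncomputable def part3C (a : ∀ i, Ω i) (V : (∀ i, Ω i) → ℝ) (l : ι → Fin 3) : (∀ i, Ω i) → ℝ :=
  op (fun i => if l i = 2 then Z (a i) else if l i = 1 then Cm (a i) else E (Ω i)) V

/-- set of the label `2` -/
def tt (l : ι → Fin 3) : ι → Bool := fun i => decide (l i = 2)

/-- set of the label `1` -/
def ss (l : ι → Fin 3) : ι → Bool := fun i => decide (l i = 1)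

lemma ip_part3C (a : ∀ i, Ω i) (V : (∀ i, Ω i) → ℝ) (h2 : ∀ i, 2 ≤ Fintype.card (Ω i))
    (l : ι → Fin 3) :
    ip (part3C a V l) (part3C a V l) = gg Ω (ss l) * ip (part3 a V l) (part3 a V l) := by
  rw [part3C, ip_self_op]
  rw [ip_op_expand (C := Unit) (fun i _ => P3 (a i) (l i))
    (fun i _ => if ss l i = true then 1 / (pp Ω i - 1) else 1) _ ?_ V]
  · simp [gg, part3]
  · intro i
    have hne : Nonempty (Ω i) := ⟨a i⟩
    simp only [Finset.univ_unique, Finset.sum_const, Finset.card_singleton, one_smul, ss, P3]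
    by_cases h : l i = 2
    · simp [h]
    · by_cases h' : l i = 1
      · simp [h']
        rw [Ct_mul_C _ (h2 i), Q_transpose, Q_mul_Q _ (h2 i), pp]
        simp
      · simp [h, h']

/-- expansion of the parts with `Z` exactly on `t` -/
lemma expand_t (a : ∀ i, Ω i) (V : (∀ i, Ω i) → ℝ) (t : ι → Bool) :
    op (fun i => if t i = true then Z (a i) else E (Ω i) + Cm (a i)) V
      = ∑ l ∈ Finset.univ.filter (fun l : ι → Fin 3 => tt l = t), part3C a V l := by
  rw [op_expand (C := Fin 3) (fun i c => if t i = true then (if c = 2 then Z (a i) else 0) else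
    (if c = 2 then 0 else if c = 1 then Cm (a i) else E (Ω i))) _ ?_ V]
  · rw [Finset.sum_filter]
    refine Finset.sum_congr rfl fun l _ => ?_
    split_ifs with h
    · unfold part3C
      congr 1
      funext i
      subst h
      simp only [tt, decide_eq_true_eq]
      by_cases h : l i = 2
      · simp [h]
      · simp [h]
    · have : ∃ i, tt l i ≠ t i := by
        by_contra h'
        push Not at h'
        exact h (funext h')
      obtain ⟨i, hi⟩ := this
      funext x
      rw [Pi.zero_apply]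
      unfold op
      refine Finset.sum_eq_zero fun y _ => ?_
      rw [Finset.prod_eq_zero (Finset.mem_univ i), zero_mul]
      simp only [tt] at hi
      by_cases h2 : l i = 2
      · have : t i = false := by simpa [h2] using hi
        simp [h2, this]
      · have : t i = true := by simpa [h2] using hi
        simp [h2, this]
  · intro i
    rw [Fin.sum_univ_three]
    by_cases h : t i = true
    · simp [h]
    · simp [h]

lemma uu'_tt_ss (l : ι → Fin 3) :
    uu' Ω (tt l) + uu' Ω (ss l) = uu' Ω (fun i => decide (l i ≠ 0)) := by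
  unfold uu'
  rw [← Finset.sum_add_distrib]
  refine Finset.sum_congr rfl fun i _ => ?_
  simp only [tt, ss]
  have : l i = 0 ∨ l i = 1 ∨ l i = 2 := by
    generalize l i = c
    fin_cases c <;> simp
  rcases this with h | h | h <;> simp [h]

lemma part3_zero {L : ℝ} {V : (∀ i, Ω i) → ℝ} (hV : Lev L V) (a : ∀ i, Ω i) (l : ι → Fin 3)
    (hL : L < uu' Ω (tt l) + uu' Ω (ss l)) : part3 a V l = 0 := by
  rw [uu'_tt_ss] at hL
  refine lev_zero hV _ _ ?_ hL
  intro i hi b
  simp only [decide_eq_true_eq] at hi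
  simp only [P3]
  split_ifs with h1 h3
  · exact sum_Z_row _ b
  · exact sum_Q_row _ b
  · have : l i = 0 ∨ l i = 1 ∨ l i = 2 := by
      generalize l i = c
      fin_cases c <;> simp
    rcases this with h | h | h
    · exact absurd h hi
    · exact absurd h h3
    · exact absurd h h1

/-- the weighted sum of the parts -/
lemma sum_weight3 (a : ∀ i, Ω i) (V : (∀ i, Ω i) → ℝ) (h2 : ∀ i, 2 ≤ Fintype.card (Ω i))
    (c1 k : ℝ) :
    ∑ l : ι → Fin 3, (c1 - uu' Ω (tt l) + (k - 1) * uu' Ω (ss l)) *
        ip (part3 a V l) (part3 a V l)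
      = c1 * ip V V - ∑ i, Real.log (pp Ω i) * f1 V i (1 - E (Ω i))
        + k * ∑ i, Real.log (pp Ω i) * f1 V i (Q (a i)) := by
  have hp := sum_parts (fun i c => P3 (a i) c) (fun i c => P3_transpose _ c)
    (fun i c => P3_mul _ (h2 i) c) (fun i => P3_sum _) V
  have hw := weight_parts_all (fun i c => P3 (a i) c) (fun i c => P3_transpose _ c)
    (fun i c => P3_mul _ (h2 i) c) (fun i => P3_sum _) V
    (fun i c => if c = 2 then - Real.log (pp Ω i) else if c = 1 then (k - 1) * Real.log (pp Ω i) else 0)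
  have e : ∀ l : ι → Fin 3, (c1 - uu' Ω (tt l) + (k - 1) * uu' Ω (ss l)) *
        ip (part3 a V l) (part3 a V l) = c1 * ip (part3 a V l) (part3 a V l) +
        (∑ i, if l i = 2 then - Real.log (pp Ω i) else if l i = 1 then (k - 1) * Real.log (pp Ω i)
          else 0) * ip (part3 a V l) (part3 a V l) := by
    intro l
    rw [← add_mul]
    congr 1
    have : - uu' Ω (tt l) + (k - 1) * uu' Ω (ss l) = ∑ i, if l i = 2 then - Real.log (pp Ω i)
        else if l i = 1 then (k - 1) * Real.log (pp Ω i) else 0 := by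
      unfold uu'
      rw [Finset.mul_sum, ← Finset.sum_neg_distrib, ← Finset.sum_add_distrib]
      refine Finset.sum_congr rfl fun i _ => ?_
      simp only [tt, ss]
      by_cases h : l i = 2
      · simp [h]
      · by_cases h' : l i = 1 <;> simp [h, h']
    rw [← this]; ring
  simp only [e]
  rw [Finset.sum_add_distrib, ← Finset.mul_sum]
  unfold part3
  rw [hp, hw]
  have e2 : ∀ i, ip V (op (Function.update (fun j => (1 : Matrix (Ω j) (Ω j) ℝ)) i
        (∑ c : Fin 3, (if c = 2 then - Real.log (pp Ω i) else if c = 1 then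
          (k - 1) * Real.log (pp Ω i) else 0) • P3 (a i) c)) V)
      = - (Real.log (pp Ω i) * f1 V i (1 - E (Ω i))) + k * (Real.log (pp Ω i) * f1 V i (Q (a i))) := by
    intro i
    have e3 : (∑ c : Fin 3, (if c = 2 then - Real.log (pp Ω i) else if c = 1 then
          (k - 1) * Real.log (pp Ω i) else 0) • P3 (a i) c)
        = ∑ c : Bool, if c = true then (- Real.log (pp Ω i)) • (1 - E (Ω i)) else
          (k * Real.log (pp Ω i)) • Q (a i) := by
      rw [Fin.sum_univ_three]
      simp only [P3, Fintype.sum_bool]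
      simp [Z]
      module
    have e4 : ip V (op (Function.update (fun j => (1 : Matrix (Ω j) (Ω j) ℝ)) i
        (∑ c : Fin 3, (if c = 2 then - Real.log (pp Ω i) else if c = 1 then
          (k - 1) * Real.log (pp Ω i) else 0) • P3 (a i) c)) V)
        = f1 V i (∑ c : Fin 3, (if c = 2 then - Real.log (pp Ω i) else if c = 1 then
          (k - 1) * Real.log (pp Ω i) else 0) • P3 (a i) c) := rfl
    rw [e4, e3, f1_sum]
    simp only [Fintype.sum_bool, if_true, f1_smul, Bool.false_eq_true, if_false]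
    ring
  simp only [e2]
  rw [Finset.sum_add_distrib, Finset.sum_neg_distrib, Finset.mul_sum]
  ring

/-- one colour -/
lemma one_colour {L δ k Θ B : ℝ} {V : (∀ i, Ω i) → ℝ} (hV : Lev L V) (a : ∀ i, Ω i)
    (h2 : ∀ i, 2 ≤ Fintype.card (Ω i)) (hk : 1 ≤ k) (hδ : 0 < δ) (hL : 0 < L) (hB0 : 0 ≤ B)
    (hΘ0 : 0 ≤ Θ)
    (hΘ : ∀ t : ι → Bool, uu' Ω t ≤ L → ∏ i, (if t i = true then pp Ω i / (pp Ω i - 1) else 1) ≤ Θ)
    (hB : ∀ v, 0 ≤ v → v ≤ L → ∑ σ : ι → Bool, (if uu' Ω σ ≤ v then
      gg Ω σ / (v + δ * L + (k - 1) * uu' Ω σ) else 0) ≤ B) :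
    unhit a V ≤ rho Ω * Θ * B * (((1 + δ) * L) * ip V V
      - ∑ i, Real.log (pp Ω i) * f1 V i (1 - E (Ω i))
        + k * ∑ i, Real.log (pp Ω i) * f1 V i (Q (a i))) := by
  classical
  have hpp : ∀ i, (2 : ℝ) ≤ pp Ω i := fun i => by rw [pp]; exact_mod_cast h2 i
  have hlog : ∀ i, 0 ≤ Real.log (pp Ω i) := fun i => log_pp_nonneg i (h2 i)
  have hu0 : ∀ τ : ι → Bool, 0 ≤ uu' Ω τ := fun τ => Finset.sum_nonneg fun i _ => by
    split_ifs
    · exact hlog i
    · exact le_rfl
  have hg0 : ∀ τ : ι → Bool, 0 ≤ gg Ω τ := fun τ => Finset.prod_nonneg fun i _ => by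
    split_ifs
    · have := hpp i; exact div_nonneg zero_le_one (by linarith)
    · exact zero_le_one
  rw [← sum_weight3 a V h2]
  set G : (ι → Fin 3) → ℝ := fun l => (1 + δ) * L - uu' Ω (tt l) + (k - 1) * uu' Ω (ss l) with hG
  set m : (ι → Fin 3) → ℝ := fun l => ip (part3 a V l) (part3 a V l) with hm
  have hm0 : ∀ l, 0 ≤ m l := fun l => ip_self_nonneg _
  have hmz : ∀ l, L < uu' Ω (tt l) + uu' Ω (ss l) → m l = 0 := fun l hl => by
    simp only [hm]; rw [part3_zero hV a l hl]; simp [ip]
  have hGpos : ∀ l, uu' Ω (tt l) + uu' Ω (ss l) ≤ L → 0 < G l := fun l hl => by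
    have h1 := hu0 (ss l)
    have h3 : 0 ≤ (k - 1) * uu' Ω (ss l) := mul_nonneg (by linarith) h1
    simp only [hG]
    nlinarith [mul_pos hδ hL]
  have hGm : ∀ l, 0 ≤ G l * m l := fun l => by
    by_cases hl : uu' Ω (tt l) + uu' Ω (ss l) ≤ L
    · exact mul_nonneg (hGpos l hl).le (hm0 l)
    · rw [hmz l (not_le.1 hl), mul_zero]
  -- the exact formula
  have hA : unhit a V = ∑ t : ι → Bool, (∏ i, (if t i = true then 1 else (pp Ω i - 1) / pp Ω i)) *
      ip (op (fun i => if t i = true then Z (a i) else E (Ω i) + Cm (a i)) V)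
        (op (fun i => if t i = true then Z (a i) else E (Ω i) + Cm (a i)) V) := by
    rw [unhit_eq]
    refine ip_op_expand (fun i (c : Bool) => if c = true then Z (a i) else E (Ω i) + Cm (a i))
      (fun i c => if c = true then 1 else (pp Ω i - 1) / pp Ω i) _ ?_ V
    intro i
    rw [D_eq _ (h2 i)]
    simp [pp]
  have hprod : ∀ t : ι → Bool, (∏ i, (if t i = true then 1 else (pp Ω i - 1) / pp Ω i))
      = rho Ω * ∏ i, (if t i = true then pp Ω i / (pp Ω i - 1) else 1) := by
    intro t
    rw [rho, ← Finset.prod_mul_distrib]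
    refine Finset.prod_congr rfl fun i _ => ?_
    have := hpp i
    have h1 : pp Ω i ≠ 0 := by linarith
    have h3 : pp Ω i - 1 ≠ 0 := by
      intro h; linarith
    split_ifs
    · field_simp
    · ring
  -- bound for one t
  have hT : ∀ t : ι → Bool, (∏ i, (if t i = true then 1 else (pp Ω i - 1) / pp Ω i)) *
      ip (op (fun i => if t i = true then Z (a i) else E (Ω i) + Cm (a i)) V)
        (op (fun i => if t i = true then Z (a i) else E (Ω i) + Cm (a i)) V)
      ≤ rho Ω * Θ * B * ∑ l ∈ Finset.univ.filter (fun l : ι → Fin 3 => tt l = t), G l * m l := by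
    intro t
    have hR0 : 0 ≤ ∑ l ∈ Finset.univ.filter (fun l : ι → Fin 3 => tt l = t), G l * m l :=
      Finset.sum_nonneg fun l _ => hGm l
    have hρ := (rho_nonneg h2).le
    rw [expand_t]
    by_cases ht : uu' Ω t ≤ L
    · have h3 : ip (∑ l ∈ Finset.univ.filter (fun l : ι → Fin 3 => tt l = t), part3C a V l)
          (∑ l ∈ Finset.univ.filter (fun l : ι → Fin 3 => tt l = t), part3C a V l)
          ≤ B * ∑ l ∈ Finset.univ.filter (fun l : ι → Fin 3 => tt l = t), G l * m l := by
        rw [← nrm_eq_ip]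
        have h4 : nrm (∑ l ∈ Finset.univ.filter (fun l : ι → Fin 3 => tt l = t), part3C a V l)
            ≤ ∑ l ∈ Finset.univ.filter (fun l : ι → Fin 3 => tt l = t),
              Real.sqrt (if uu' Ω (tt l) + uu' Ω (ss l) ≤ L then gg Ω (ss l) / G l else 0) *
              Real.sqrt (G l * m l) := by
          refine (nrm_sum_le _ _).trans (Finset.sum_le_sum fun l _ => ?_)
          have e : nrm (part3C a V l) = Real.sqrt (ip (part3C a V l) (part3C a V l)) := rfl
          rw [e, ip_part3C a V h2]
          have e2 : gg Ω (ss l) * ip (part3 a V l) (part3 a V l) = gg Ω (ss l) * m l := rfl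
          rw [e2]
          split_ifs with hl
          · rw [← Real.sqrt_mul (div_nonneg (hg0 _) (hGpos l hl).le)]
            have := (hGpos l hl).ne'
            apply le_of_eq
            congr 1
            field_simp
          · rw [hmz l (not_le.1 hl)]; simp
        have h5 := h4.trans (Real.sum_sqrt_mul_sqrt_le _ (fun l => by
          split_ifs with hl
          · exact div_nonneg (hg0 _) (hGpos l hl).le
          · exact le_rfl) (fun l => hGm l))
        have h6 : ∑ l ∈ Finset.univ.filter (fun l : ι → Fin 3 => tt l = t),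
            (if uu' Ω (tt l) + uu' Ω (ss l) ≤ L then gg Ω (ss l) / G l else 0) ≤ B := by
          refine le_trans ?_ (hB (L - uu' Ω t) (by linarith) (by linarith [hu0 t]))
          have h7 : ∀ l ∈ Finset.univ.filter (fun l : ι → Fin 3 => tt l = t),
              (if uu' Ω (tt l) + uu' Ω (ss l) ≤ L then gg Ω (ss l) / G l else 0)
              = (fun σ : ι → Bool => if uu' Ω σ ≤ L - uu' Ω t then
                gg Ω σ / (L - uu' Ω t + δ * L + (k - 1) * uu' Ω σ) else 0) (ss l) := by
            intro l hl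
            rw [Finset.mem_filter] at hl
            simp only [hG, hl.2]
            have e1 : (uu' Ω t + uu' Ω (ss l) ≤ L) ↔ (uu' Ω (ss l) ≤ L - uu' Ω t) := by
              constructor <;> intro h <;> linarith
            simp only [e1]
            split_ifs
            · congr 1; ring
            · rfl
          rw [Finset.sum_congr rfl h7]
          rw [← Finset.sum_image (f := fun σ : ι → Bool => if uu' Ω σ ≤ L - uu' Ω t then
                gg Ω σ / (L - uu' Ω t + δ * L + (k - 1) * uu' Ω σ) else 0) (g := ss)]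
          · refine Finset.sum_le_sum_of_subset_of_nonneg (Finset.subset_univ _) ?_
            intro σ _ _
            split_ifs
            · refine div_nonneg (hg0 _) ?_
              have := mul_nonneg (by linarith : (0 : ℝ) ≤ k - 1) (hu0 σ)
              have := mul_pos hδ hL
              linarith
            · exact le_rfl
          · intro l hl l' hl' h
            simp only [Finset.coe_filter, Finset.mem_univ, true_and, Set.mem_ofPred_eq] at hl hl'
            funext i
            have e1 : decide (l i = 2) = decide (l' i = 2) := by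
              have := congrFun (hl.trans hl'.symm) i
              exact this
            have e2 : decide (l i = 1) = decide (l' i = 1) := congrFun h i
            revert e1 e2
            generalize l i = c
            generalize l' i = c'
            revert c c'
            decide
        have h8 := nrm_nonneg (∑ l ∈ Finset.univ.filter (fun l : ι → Fin 3 => tt l = t), part3C a V l)
        have h9 : nrm (∑ l ∈ Finset.univ.filter (fun l : ι → Fin 3 => tt l = t), part3C a V l)
          ≤ Real.sqrt B * Real.sqrt (∑ l ∈ Finset.univ.filter (fun l : ι → Fin 3 => tt l = t), G l * m l) :=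
          h5.trans (mul_le_mul_of_nonneg_right (Real.sqrt_le_sqrt h6) (Real.sqrt_nonneg _))
        calc nrm (∑ l ∈ Finset.univ.filter (fun l : ι → Fin 3 => tt l = t), part3C a V l) ^ 2
            ≤ (Real.sqrt B * Real.sqrt (∑ l ∈ Finset.univ.filter (fun l : ι → Fin 3 => tt l = t), G l * m l)) ^ 2 :=
              pow_le_pow_left₀ h8 h9 2
          _ = _ := by rw [mul_pow, Real.sq_sqrt hB0, Real.sq_sqrt hR0]
      rw [hprod]
      have h10 : rho Ω * (∏ i, (if t i = true then pp Ω i / (pp Ω i - 1) else 1)) *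
          ip (∑ l ∈ Finset.univ.filter (fun l : ι → Fin 3 => tt l = t), part3C a V l)
          (∑ l ∈ Finset.univ.filter (fun l : ι → Fin 3 => tt l = t), part3C a V l)
          ≤ rho Ω * Θ * (B * ∑ l ∈ Finset.univ.filter (fun l : ι → Fin 3 => tt l = t), G l * m l) :=
        mul_le_mul (mul_le_mul_of_nonneg_left (hΘ t ht) hρ) h3 (ip_self_nonneg _)
              (mul_nonneg hρ hΘ0)
      refine h10.trans (le_of_eq ?_)
      ring
    · have hz : ∑ l ∈ Finset.univ.filter (fun l : ι → Fin 3 => tt l = t), part3C a V l = 0 := by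
        refine Finset.sum_eq_zero fun l hl => ?_
        rw [Finset.mem_filter] at hl
        have h4 : ip (part3C a V l) (part3C a V l) = 0 := by
          rw [ip_part3C a V h2, part3_zero hV a l]
          · simp [ip]
          · rw [hl.2]
            have := hu0 (ss l)
            push Not at ht
            linarith
        funext x
        have h5 := (Finset.sum_eq_zero_iff_of_nonneg (fun x _ => mul_self_nonneg _)).1 h4 x
          (Finset.mem_univ x)
        exact mul_self_eq_zero.1 h5
      rw [hz]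
      have e : ip (0 : (∀ i, Ω i) → ℝ) 0 = 0 := by simp [ip]
      rw [e, mul_zero]
      exact mul_nonneg (mul_nonneg (mul_nonneg hρ hΘ0) hB0) hR0
  rw [hA]
  refine (Finset.sum_le_sum fun t _ => hT t).trans ?_
  rw [← Finset.mul_sum]
  refine mul_le_mul_of_nonneg_left (le_of_eq ?_) (mul_nonneg (mul_nonneg (rho_nonneg h2).le hΘ0) hB0)
  exact Finset.sum_fiberwise (Finset.univ : Finset (ι → Fin 3)) tt (fun l => G l * m l)

/-- all colours -/
theorem coreB {κ : Type} [Fintype κ] (a : κ → ∀ i, Ω i)
    (ha : ∀ i, Function.Injective fun k => a k i) {L δ k Θ B θ : ℝ} {V : (∀ i, Ω i) → ℝ}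
    (hV : Lev L V) (h2 : ∀ i, 2 ≤ Fintype.card (Ω i)) (hk : 1 ≤ k) (hκ : (Fintype.card κ : ℝ) ≤ k)
    (hδ : 0 < δ) (hL : 0 < L) (hB0 : 0 ≤ B) (hΘ0 : 0 ≤ Θ)
    (hθ : ∀ i, pp Ω i / (pp Ω i - 1) ≤ θ) (hθ1 : 1 ≤ θ)
    (hΘ : ∀ t : ι → Bool, uu' Ω t ≤ L → ∏ i, (if t i = true then pp Ω i / (pp Ω i - 1) else 1) ≤ Θ)
    (hB : ∀ v, 0 ≤ v → v ≤ L → ∑ σ : ι → Bool, (if uu' Ω σ ≤ v then
      gg Ω σ / (v + δ * L + (k - 1) * uu' Ω σ) else 0) ≤ B) :
    ∑ c, unhit (a c) V ≤ rho Ω * Θ * B * (k * (δ + θ) * L) * ip V V := by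
  have hlog : ∀ i, 0 ≤ Real.log (pp Ω i) := fun i => log_pp_nonneg i (h2 i)
  have hρ := (rho_nonneg h2).le
  set n : ℝ := (Fintype.card κ : ℝ) with hn
  set Y : ℝ := ∑ i, Real.log (pp Ω i) * f1 V i (1 - E (Ω i)) with hY
  have hY0 : 0 ≤ Y := Finset.sum_nonneg fun i _ => by
    have hne : Nonempty (Ω i) := Fintype.card_pos_iff.1 (by have := h2 i; omega)
    exact mul_nonneg (hlog i) (f1_nonneg V i _ oneE_transpose oneE_mul)
  have hYL : Y ≤ L * ip V V := level_ineq hV h2
  have hX : ∑ c : κ, ∑ i, Real.log (pp Ω i) * f1 V i (Q (a c i)) ≤ θ * Y := by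
    rw [Finset.sum_comm, hY, Finset.mul_sum]
    refine Finset.sum_le_sum fun i _ => ?_
    rw [← Finset.mul_sum]
    have h1 := sum_f1_Q V i (fun k => a k i) (ha i) (h2 i)
    have hne : Nonempty (Ω i) := Fintype.card_pos_iff.1 (by have := h2 i; omega)
    have h3 : 0 ≤ f1 V i (1 - E (Ω i)) := f1_nonneg V i _ oneE_transpose oneE_mul
    calc Real.log (pp Ω i) * ∑ k, f1 V i (Q (a k i))
        ≤ Real.log (pp Ω i) * (θ * f1 V i (1 - E (Ω i))) :=
          mul_le_mul_of_nonneg_left (h1.trans (mul_le_mul_of_nonneg_right (hθ i) h3)) (hlog i)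
      _ = _ := by ring
  calc ∑ c, unhit (a c) V ≤ ∑ c : κ, rho Ω * Θ * B * (((1 + δ) * L) * ip V V - Y
        + k * ∑ i, Real.log (pp Ω i) * f1 V i (Q (a c i))) :=
        Finset.sum_le_sum fun c _ => one_colour hV (a c) h2 hk hδ hL hB0 hΘ0 hΘ hB
    _ = rho Ω * Θ * B * (n * (((1 + δ) * L) * ip V V - Y)
        + k * ∑ c : κ, ∑ i, Real.log (pp Ω i) * f1 V i (Q (a c i))) := by
        rw [← Finset.mul_sum, Finset.sum_add_distrib, Finset.sum_const, Finset.card_univ,
          nsmul_eq_mul, ← Finset.mul_sum]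
    _ ≤ rho Ω * Θ * B * ((k * (δ + θ) * L) * ip V V) := by
        refine mul_le_mul_of_nonneg_left ?_ (mul_nonneg (mul_nonneg hρ hΘ0) hB0)
        have hn0 : 0 ≤ n := Nat.cast_nonneg _
        have hV0 : 0 ≤ ip V V := ip_self_nonneg V
        have h1 : k * ∑ c : κ, ∑ i, Real.log (pp Ω i) * f1 V i (Q (a c i)) ≤ k * (θ * Y) :=
          mul_le_mul_of_nonneg_left hX (by linarith)
        have h3 : (k * θ - n) * Y ≤ (k * θ - n) * (L * ip V V) := by
          refine mul_le_mul_of_nonneg_left hYL ?_
          nlinarith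
        have h4 : n * δ * (L * ip V V) ≤ k * δ * (L * ip V V) :=
          mul_le_mul_of_nonneg_right (mul_le_mul_of_nonneg_right hκ hδ.le)
            (mul_nonneg hL.le hV0)
        nlinarith
    _ = _ := by ring

end Run7.h52.CoreB
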