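import Pool.Agent.Run7.h52.Cell

set_option autoImplicit false
set_option linter.unusedSectionVars false

namespace Run7.h52.CoreG

open Finset Run7.h52.Op Run7.h52.Ker Run7.h52.Core Run7.h52.Cell

section one
variable {α : Type} [Fintype α] [DecidableEq α] {J : Type} [Fintype J] [DecidableEq J]

/-- the algebra of one coordinate, with a decomposition of the last projection -/
structure IsG (g r : ℝ) (Q C : Matrix α α ℝ) (Z : J → Matrix α α ℝ) (A : Matrix α α ℝ) : Prop where
  Qt : Q.transpose = Q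
  QQ : Q * Q = Q
  At : A.transpose = A
  AA : A * A = A
  sum : E α + Q + ∑ j, Z j = 1
  CtC : C.transpose * C = g • Q
  Aeq : A = r • ((E α + C).transpose * (E α + C))
  ZA : (∑ j, Z j) * A = 0
  AEA : A * E α * A = r • A
  AQA : A * Q * A = (g * r) • A
  EZ : E α * ∑ j, Z j = 0
  QZ : Q * ∑ j, Z j = 0
  r_pos : 0 < r
  g_nonneg : 0 ≤ g
  Zt : ∀ j, (Z j).transpose = Z j
  ZZ : ∀ j j', Z j * Z j' = if j = j' then Z j else 0

variable {g r : ℝ} {Q C A : Matrix α α ℝ} {Z : J → Matrix α α ℝ}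

lemma IsG.sZ (h : IsG g r Q C Z A) (j : J) : (∑ j', Z j') * Z j = Z j := by
  rw [Finset.sum_mul]
  simp only [h.ZZ, Finset.sum_ite_eq', Finset.mem_univ, if_true]

lemma IsG.Zs (h : IsG g r Q C Z A) (j : J) : Z j * (∑ j', Z j') = Z j := by
  rw [Finset.mul_sum]
  simp only [h.ZZ, Finset.sum_ite_eq, Finset.mem_univ, if_true]

lemma IsG.EZj (h : IsG g r Q C Z A) (j : J) : E α * Z j = 0 := by
  rw [← h.sZ j, ← mul_assoc, h.EZ, zero_mul]

lemma IsG.QZj (h : IsG g r Q C Z A) (j : J) : Q * Z j = 0 := by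
  rw [← h.sZ j, ← mul_assoc, h.QZ, zero_mul]

lemma IsG.ZjA (h : IsG g r Q C Z A) (j : J) : Z j * A = 0 := by
  rw [← h.Zs j, mul_assoc, h.ZA, mul_zero]

lemma IsG.ZjE (h : IsG g r Q C Z A) (j : J) : Z j * E α = 0 := by
  have := congrArg Matrix.transpose (h.EZj j)
  rwa [Matrix.transpose_mul, h.Zt, E_transpose, Matrix.transpose_zero] at this

lemma IsG.ZjQ (h : IsG g r Q C Z A) (j : J) : Z j * Q = 0 := by
  have := congrArg Matrix.transpose (h.QZj j)
  rwa [Matrix.transpose_mul, h.Zt, h.Qt, Matrix.transpose_zero] at this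

lemma IsG.AZj (h : IsG g r Q C Z A) (j : J) : A * Z j = 0 := by
  have := congrArg Matrix.transpose (h.ZjA j)
  rwa [Matrix.transpose_mul, h.Zt, h.At, Matrix.transpose_zero] at this

/-- the projections of one coordinate -/
noncomputable def PG (Q : Matrix α α ℝ) (Z : J → Matrix α α ℝ) (c : Bool ⊕ J) : Matrix α α ℝ :=
  Sum.elim (fun b => if b = true then Q else E α) Z c

/-- the same with `C` in place of `Q` -/
noncomputable def PC (C : Matrix α α ℝ) (Z : J → Matrix α α ℝ) (c : Bool ⊕ J) : Matrix α α ℝ :=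
  Sum.elim (fun b => if b = true then C else E α) Z c

lemma PG_transpose (h : IsG g r Q C Z A) (c : Bool ⊕ J) : (PG Q Z c).transpose = PG Q Z c := by
  rcases c with b | j
  · cases b
    · simp [PG, E_transpose]
    · simp [PG, h.Qt]
  · simp [PG, h.Zt]

lemma PG_mul (hne : Nonempty α) (h : IsG g r Q C Z A) (c : Bool ⊕ J) :
    PG Q Z c * PG Q Z c = PG Q Z c := by
  rcases c with b | j
  · cases b
    · simp [PG, E_mul_E]
    · simp [PG, h.QQ]
  · simp [PG, h.ZZ]

lemma PG_sum (h : IsG g r Q C Z A) : ∑ c, PG Q Z c = 1 := by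
  rw [Fintype.sum_sum_type]
  simp only [PG, Sum.elim_inl, Sum.elim_inr, Fintype.sum_bool, if_true, Bool.false_eq_true, if_false]
  rw [← h.sum]; abel

/-- projections by conductor -/
noncomputable def DM (D : J → Matrix α α ℝ) (o : Option J) : Matrix α α ℝ := o.elim (E α) D

/-- the algebra of the projections by conductor -/
structure IsD (D : J → Matrix α α ℝ) : Prop where
  Dt : ∀ j, (D j).transpose = D j
  DD : ∀ j j', D j * D j' = if j = j' then D j else 0
  ED : ∀ j, E α * D j = 0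
  sum : E α + ∑ j, D j = 1

lemma IsD.DE {D : J → Matrix α α ℝ} (h : IsD D) (j : J) : D j * E α = 0 := by
  have := congrArg Matrix.transpose (h.ED j)
  rwa [Matrix.transpose_mul, h.Dt, E_transpose, Matrix.transpose_zero] at this

lemma DM_transpose {D : J → Matrix α α ℝ} (h : IsD D) (o : Option J) :
    (DM D o).transpose = DM D o := by
  rcases o with _ | j
  · simp [DM, E_transpose]
  · simp [DM, h.Dt]

lemma DM_mul (hne : Nonempty α) {D : J → Matrix α α ℝ} (h : IsD D) (o o' : Option J) :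
    DM D o * DM D o' = if o = o' then DM D o else 0 := by
  rcases o with _ | j <;> rcases o' with _ | j'
  · simp [DM, E_mul_E]
  · simp [DM, h.ED]
  · simp [DM, h.DE]
  · simp [DM, h.DD]

lemma DM_sum {D : J → Matrix α α ℝ} (h : IsD D) : ∑ o, DM D o = 1 := by
  rw [Fintype.sum_option]
  simpa [DM] using h.sum

lemma lab_cases (c : Bool ⊕ J) : c = Sum.inl false ∨ c = Sum.inl true ∨ ∃ j, c = Sum.inr j := by
  rcases c with b | j
  · cases b <;> simp
  · exact Or.inr (Or.inr ⟨j, rfl⟩)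

/-- relation between the labels -/
def sp1 (j₀ : J) (c : Bool ⊕ J) : Option J := Sum.elim (fun b => if b = true then some j₀ else none) some c

lemma PG_mul_DM (hne : Nonempty α) (h : IsG g r Q C Z A) {D : J → Matrix α α ℝ} {j₀ : J}
    (hD : ∀ j, D j = Z j + if j = j₀ then Q else 0) (c : Bool ⊕ J) :
    PG Q Z c * DM D (sp1 j₀ c) = PG Q Z c := by
  rcases c with b | j
  · cases b
    · simp [PG, DM, sp1, E_mul_E]
    · simp [PG, DM, sp1, hD, mul_add, h.QZj, h.QQ]
  · simp only [PG, DM, sp1, Sum.elim_inr, Option.elim_some, hD, mul_add, h.ZZ, if_true]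
    split_ifs
    · rw [h.ZjQ, add_zero]
    · rw [mul_zero, add_zero]

lemma DM_eq_sum {D : J → Matrix α α ℝ} {j₀ : J}
    (hD : ∀ j, D j = Z j + if j = j₀ then Q else 0) (o : Option J) :
    DM D o = ∑ c, (if sp1 j₀ c = o then (1 : ℝ) else 0) • PG Q Z c := by
  rw [Fintype.sum_sum_type]
  simp only [PG, Sum.elim_inl, Sum.elim_inr, Fintype.sum_bool, if_true, Bool.false_eq_true, if_false,
    sp1]
  rcases o with _ | j
  · simp [DM]
  · simp only [DM, Option.elim_some, hD, Option.some.injEq]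
    have h1 : ∑ x, (if x = j then (1 : ℝ) else 0) • Z x = Z j := by
      simp only [ite_smul, one_smul, zero_smul, Finset.sum_ite_eq', Finset.mem_univ, if_true]
    rw [h1]
    by_cases hj : j = j₀
    · subst hj; simp; abel
    · simp [hj, Ne.symm hj]

end one

variable {ι : Type} [Fintype ι] [DecidableEq ι] {Ω : ι → Type} [∀ i, Fintype (Ω i)]
  [∀ i, DecidableEq (Ω i)] {J : Type} [Fintype J] [DecidableEq J]

/-- the `Z`-labels -/
def tt (l : ι → Bool ⊕ J) : ι → Option J := fun i => Sum.elim (fun _ => none) some (l i)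

/-- the set of the labels `Q` -/
def ss (l : ι → Bool ⊕ J) : ι → Bool := fun i => Sum.elim id (fun _ => false) (l i)

/-- conductor of a labelling -/
def sp (j₀ : J) (l : ι → Bool ⊕ J) : ι → Option J := fun i => sp1 j₀ (l i)

/-- size of a conductor -/
noncomputable def cs (ω : ι → J → ℝ) (τ : ι → Option J) : ℝ := ∑ i, (τ i).elim 0 (ω i)

/-- size of a set -/
noncomputable def us (lam : ι → ℝ) (s : ι → Bool) : ℝ := ∑ i, if s i = true then lam i else 0

/-- product of `g` over a labelled set -/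
noncomputable def pg (g : ι → ℝ) (τ : ι → Bool) : ℝ := ∏ i, if τ i = true then g i else 1

/-- product of `r` off a labelled set -/
noncomputable def pr (r : ι → ℝ) (t : ι → Option J) : ℝ := ∏ i, if t i = none then r i else 1

variable {Qd Cd Ad : ∀ i, Matrix (Ω i) (Ω i) ℝ} {Zd D : ∀ i, J → Matrix (Ω i) (Ω i) ℝ}
  {g r lam : ι → ℝ} {ω : ι → J → ℝ} {j₀ : J}

lemma cs_sp (hω : ∀ i, ω i j₀ = lam i) (l : ι → Bool ⊕ J) :
    cs ω (sp j₀ l) = cs ω (tt l) + us lam (ss l) := by
  unfold cs us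
  rw [← Finset.sum_add_distrib]
  refine Finset.sum_congr rfl fun i _ => ?_
  rcases lab_cases (l i) with hl | hl | ⟨j, hl⟩ <;> simp [sp, tt, ss, sp1, hl, hω]

/-- the parts of `V` -/
noncomputable def part (Qd : ∀ i, Matrix (Ω i) (Ω i) ℝ) (Zd : ∀ i, J → Matrix (Ω i) (Ω i) ℝ)
    (V : (∀ i, Ω i) → ℝ) (l : ι → Bool ⊕ J) : (∀ i, Ω i) → ℝ :=
  op (fun i => PG (Qd i) (Zd i) (l i)) V

/-- the parts with `C` in place of `Q` -/
noncomputable def partC (Cd : ∀ i, Matrix (Ω i) (Ω i) ℝ) (Zd : ∀ i, J → Matrix (Ω i) (Ω i) ℝ)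
    (V : (∀ i, Ω i) → ℝ) (l : ι → Bool ⊕ J) : (∀ i, Ω i) → ℝ :=
  op (fun i => PC (Cd i) (Zd i) (l i)) V

lemma ip_partC (hne : ∀ i, Nonempty (Ω i))
    (h : ∀ i, IsG (g i) (r i) (Qd i) (Cd i) (Zd i) (Ad i)) (V : (∀ i, Ω i) → ℝ)
    (l : ι → Bool ⊕ J) :
    ip (partC Cd Zd V l) (partC Cd Zd V l) = pg g (ss l) * ip (part Qd Zd V l) (part Qd Zd V l) := by
  rw [partC, ip_self_op]
  rw [ip_op_expand (C := Unit) (fun i _ => PG (Qd i) (Zd i) (l i))
    (fun i _ => if ss l i = true then g i else 1) _ ?_ V]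
  · simp [pg, part]
  · intro i
    rcases lab_cases (l i) with hl | hl | ⟨j, hl⟩
    · simp [PC, PG, ss, hl]
    · simp [PC, PG, ss, hl, (h i).CtC, (h i).Qt, (h i).QQ]
    · simp [PC, PG, ss, hl]

/-- `Z` on `t`, `E + C` off `t` -/
noncomputable def XZ (Cd : ∀ i, Matrix (Ω i) (Ω i) ℝ) (Zd : ∀ i, J → Matrix (Ω i) (Ω i) ℝ)
    (t : ι → Option J) (i : ι) : Matrix (Ω i) (Ω i) ℝ := (t i).elim (E (Ω i) + Cd i) (Zd i)

/-- `Z` on `t`, `A` off `t` -/
noncomputable def XA (Zd : ∀ i, J → Matrix (Ω i) (Ω i) ℝ) (Ad : ∀ i, Matrix (Ω i) (Ω i) ℝ)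
    (t : ι → Option J) (i : ι) : Matrix (Ω i) (Ω i) ℝ := (t i).elim (Ad i) (Zd i)

lemma expand_t (V : (∀ i, Ω i) → ℝ) (t : ι → Option J) :
    op (XZ Cd Zd t) V
      = ∑ l ∈ Finset.univ.filter (fun l : ι → Bool ⊕ J => tt l = t), partC Cd Zd V l := by
  rw [op_expand (C := Bool ⊕ J) (fun i c => if Sum.elim (fun _ => none) some c = t i then
    PC (Cd i) (Zd i) c else 0) _ ?_ V]
  · rw [Finset.sum_filter]
    refine Finset.sum_congr rfl fun l _ => ?_
    split_ifs with h
    · unfold partC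
      congr 1
      funext i
      have : Sum.elim (fun _ => none) some (l i) = t i := congrFun h i
      rw [if_pos this]
    · have : ∃ i, tt l i ≠ t i := by
        by_contra h'
        push Not at h'
        exact h (funext h')
      obtain ⟨i, hi⟩ := this
      funext x
      rw [Pi.zero_apply]
      unfold op
      refine Finset.sum_eq_zero fun y _ => ?_
      rw [Finset.prod_eq_zero (Finset.mem_univ i), zero_mul]
      have h0 : ¬ (Sum.elim (fun _ => none) some (l i) = t i) := hi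
      simp only [if_neg h0]
      rfl
  · intro i
    rw [Fintype.sum_sum_type]
    simp only [XZ, Sum.elim_inl, Sum.elim_inr, Fintype.sum_bool, PC]
    rcases t i with _ | j
    · simp; abel
    · simp

lemma ip_XA (h : ∀ i, IsG (g i) (r i) (Qd i) (Cd i) (Zd i) (Ad i)) (V : (∀ i, Ω i) → ℝ)
    (t : ι → Option J) :
    ip (op (XA Zd Ad t) V) (op (XA Zd Ad t) V)
      = pr r t * ip (op (XZ Cd Zd t) V) (op (XZ Cd Zd t) V) := by
  rw [ip_self_op]
  rw [ip_op_expand (C := Unit) (fun i _ => XZ Cd Zd t i) (fun i _ => if t i = none then r i else 1) _ ?_ V]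
  · simp [pr]
  · intro i
    simp only [Finset.univ_unique, Finset.sum_const, Finset.card_singleton, one_smul, XA, XZ]
    rcases t i with _ | j
    · simp only [Option.elim_none, if_true]
      rw [(h i).At, (h i).AA]
      exact (h i).Aeq
    · simp

lemma XA_transpose (h : ∀ i, IsG (g i) (r i) (Qd i) (Cd i) (Zd i) (Ad i)) (t : ι → Option J) (i : ι) :
    (XA Zd Ad t i).transpose = XA Zd Ad t i := by
  unfold XA
  rcases t i with _ | j
  · exact (h i).At
  · exact (h i).Zt j

lemma XA_mul (h : ∀ i, IsG (g i) (r i) (Qd i) (Cd i) (Zd i) (Ad i)) (t : ι → Option J) (i : ι) :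
    XA Zd Ad t i * XA Zd Ad t i = XA Zd Ad t i := by
  unfold XA
  rcases t i with _ | j
  · exact (h i).AA
  · have := (h i).ZZ j j
    rw [if_pos rfl] at this
    exact this

/-- pairing with a function supported on the unsifted points -/
lemma pair_expand (h : ∀ i, IsG (g i) (r i) (Qd i) (Cd i) (Zd i) (Ad i)) (V u : (∀ i, Ω i) → ℝ)
    (hu : op (fun i => (∑ j, Zd i j) + Ad i) u = u) :
    ip V u = ∑ t : ι → Option J, ip (op (XA Zd Ad t) V) (op (XA Zd Ad t) u) := by
  have h1 : u = ∑ t : ι → Option J, op (XA Zd Ad t) u := by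
    conv_lhs => rw [← hu]
    exact op_expand (C := Option J) (fun i c => c.elim (Ad i) (Zd i)) _ (fun i => by
      rw [Fintype.sum_option]
      simp only [Option.elim_none, Option.elim_some]
      abel) u
  conv_lhs => rw [h1]
  rw [ip_sum_right]
  refine Finset.sum_congr rfl fun t _ => ?_
  rw [ip_op_left, op_comp]
  simp only [XA_transpose h, XA_mul h]

lemma DPD2 (hne : ∀ i, Nonempty (Ω i)) (h : ∀ i, IsG (g i) (r i) (Qd i) (Cd i) (Zd i) (Ad i))
    (i : ι) (c : Bool ⊕ J) :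
    (PG (Qd i) (Zd i) c * ((∑ j, Zd i j) + Ad i)).transpose * (PG (Qd i) (Zd i) c * ((∑ j, Zd i j) + Ad i))
      = (Sum.elim (fun b => if b = true then g i * r i else r i) (fun _ => (1 : ℝ)) c) •
        (Sum.elim (fun _ => Ad i) (Zd i) c) := by
  have hi := h i
  have := hne i
  rcases c with b | j
  · cases b
    · simp only [PG, Sum.elim_inl, Bool.false_eq_true, if_false]
      rw [mul_add, hi.EZ, zero_add, Matrix.transpose_mul, E_transpose, hi.At]
      calc Ad i * E (Ω i) * (E (Ω i) * Ad i) = Ad i * (E (Ω i) * E (Ω i)) * Ad i := by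
              simp only [Matrix.mul_assoc]
          _ = r i • Ad i := by rw [E_mul_E, hi.AEA]
    · simp only [PG, Sum.elim_inl, if_true]
      rw [mul_add, hi.QZ, zero_add, Matrix.transpose_mul, hi.Qt, hi.At]
      calc Ad i * Qd i * (Qd i * Ad i) = Ad i * (Qd i * Qd i) * Ad i := by
            simp only [Matrix.mul_assoc]
        _ = (g i * r i) • Ad i := by rw [hi.QQ, hi.AQA]
  · simp only [PG, Sum.elim_inr]
    rw [mul_add, hi.Zs, hi.ZjA, add_zero, hi.Zt, one_smul]
    have := hi.ZZ j j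
    rw [if_pos rfl] at this
    exact this

/-- parts of a function supported on the unsifted points -/
lemma ip_part_u (hne : ∀ i, Nonempty (Ω i)) (h : ∀ i, IsG (g i) (r i) (Qd i) (Cd i) (Zd i) (Ad i))
    (u : (∀ i, Ω i) → ℝ)
    (hu : op (fun i => (∑ j, Zd i j) + Ad i) u = u) (l : ι → Bool ⊕ J) :
    ip (part Qd Zd u l) (part Qd Zd u l)
      = pg g (ss l) * pr r (tt l) * ip (op (XA Zd Ad (tt l)) u) (op (XA Zd Ad (tt l)) u) := by
  have h1 : part Qd Zd u l = op (fun i => PG (Qd i) (Zd i) (l i) * ((∑ j, Zd i j) + Ad i)) u := by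
    conv_lhs => rw [part, ← hu, op_comp]
  rw [h1, ip_self_op]
  rw [ip_op_expand (C := Unit) (fun i _ => XA Zd Ad (tt l) i)
    (fun i _ => Sum.elim (fun b => if b = true then g i * r i else r i) (fun _ => (1 : ℝ)) (l i)) _ ?_ u]
  · simp only [Finset.univ_unique, Finset.sum_singleton]
    congr 1
    rw [pg, pr, ← Finset.prod_mul_distrib]
    refine Finset.prod_congr rfl fun i _ => ?_
    rcases lab_cases (l i) with hl | hl | ⟨j, hl⟩ <;> simp [tt, ss, hl]
  · intro i
    rw [DPD2 hne h]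
    simp only [Finset.univ_unique, Finset.sum_const, Finset.card_singleton, one_smul]
    rw [XA_transpose h, XA_mul h]
    congr 1
    rcases lab_cases (l i) with hl | hl | ⟨j, hl⟩ <;> simp [tt, XA, hl]

lemma ip_DM (hne : ∀ i, Nonempty (Ω i)) (h : ∀ i, IsG (g i) (r i) (Qd i) (Cd i) (Zd i) (Ad i))
    (hDp : ∀ i, IsD (D i)) (hD : ∀ i j, D i j = Zd i j + if j = j₀ then Qd i else 0)
    (u : (∀ i, Ω i) → ℝ) (τ : ι → Option J) :
    ip (op (fun i => DM (D i) (τ i)) u) (op (fun i => DM (D i) (τ i)) u)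
      = ∑ l ∈ Finset.univ.filter (fun l : ι → Bool ⊕ J => sp j₀ l = τ),
        ip (part Qd Zd u l) (part Qd Zd u l) := by
  rw [ip_self_op]
  rw [ip_op_expand (C := Bool ⊕ J) (fun i c => PG (Qd i) (Zd i) c)
    (fun i c => if sp1 j₀ c = τ i then 1 else 0) _ ?_ u]
  · rw [Finset.sum_filter]
    refine Finset.sum_congr rfl fun l _ => ?_
    split_ifs with hl
    · have : ∀ i, sp1 j₀ (l i) = τ i := fun i => congrFun hl i
      simp only [this, if_true, Finset.prod_const_one, one_mul]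
      rfl
    · have : ∃ i, sp1 j₀ (l i) ≠ τ i := by
        by_contra h'
        push Not at h'
        exact hl (funext h')
      obtain ⟨i, hi⟩ := this
      rw [Finset.prod_eq_zero (Finset.mem_univ i) (if_neg hi), zero_mul]
  · intro i
    have := hne i
    rw [DM_transpose (hDp i), DM_mul (hne i) (hDp i), if_pos rfl, DM_eq_sum (hD i)]
    refine Finset.sum_congr rfl fun c _ => ?_
    rw [PG_transpose (h i), PG_mul (hne i) (h i)]

/-- level -/
def LevG (ω : ι → J → ℝ) (D : ∀ i, J → Matrix (Ω i) (Ω i) ℝ) (L : ℝ) (V : (∀ i, Ω i) → ℝ) : Prop :=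
  ∀ τ : ι → Option J, L < cs ω τ → op (fun i => DM (D i) (τ i)) V = 0

lemma part_zero (hne : ∀ i, Nonempty (Ω i)) (h : ∀ i, IsG (g i) (r i) (Qd i) (Cd i) (Zd i) (Ad i))
    (hD : ∀ i j, D i j = Zd i j + if j = j₀ then Qd i else 0) {L : ℝ}
    {V : (∀ i, Ω i) → ℝ} (hV : LevG ω D L V) (l : ι → Bool ⊕ J) (hL : L < cs ω (sp j₀ l)) :
    part Qd Zd V l = 0 := by
  have h1 : part Qd Zd V l = op (fun i => PG (Qd i) (Zd i) (l i)) (op (fun i => DM (D i) (sp j₀ l i)) V) := by
    rw [op_comp, part]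
    congr 1
    funext i
    exact (PG_mul_DM (hne i) (h i) (hD i) (l i)).symm
  rw [h1, hV _ hL]
  funext x
  simp [op]

/-- norm of the projection on level `exp q` -/
noncomputable def nQ (ω : ι → J → ℝ) (D : ∀ i, J → Matrix (Ω i) (Ω i) ℝ) (q : ℝ)
    (u : (∀ i, Ω i) → ℝ) : ℝ :=
  ∑ τ : ι → Option J, if cs ω τ ≤ q then
    ip (op (fun i => DM (D i) (τ i)) u) (op (fun i => DM (D i) (τ i)) u) else 0

/-- `∑ g(s)`, `s` disjoint from `t`, total size at most `q` -/
noncomputable def Lq (ω : ι → J → ℝ) (j₀ : J) (g : ι → ℝ) (q : ℝ) (t : ι → Option J) : ℝ :=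
  ∑ l ∈ Finset.univ.filter (fun l : ι → Bool ⊕ J => tt l = t),
    if cs ω (sp j₀ l) ≤ q then pg g (ss l) else 0

lemma nQ_eq (hne : ∀ i, Nonempty (Ω i)) (h : ∀ i, IsG (g i) (r i) (Qd i) (Cd i) (Zd i) (Ad i))
    (hDp : ∀ i, IsD (D i)) (hD : ∀ i j, D i j = Zd i j + if j = j₀ then Qd i else 0)
    (u : (∀ i, Ω i) → ℝ) (hu : op (fun i => (∑ j, Zd i j) + Ad i) u = u) (q : ℝ) :
    nQ ω D q u = ∑ t : ι → Option J, pr r t * Lq ω j₀ g q t * ip (op (XA Zd Ad t) u) (op (XA Zd Ad t) u) := by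
  have h1 : nQ ω D q u = ∑ l : ι → Bool ⊕ J, if cs ω (sp j₀ l) ≤ q then
      ip (part Qd Zd u l) (part Qd Zd u l) else 0 := by
    unfold nQ
    simp only [ip_DM hne h hDp hD]
    rw [← Finset.sum_fiberwise (Finset.univ : Finset (ι → Bool ⊕ J)) (sp j₀)]
    refine Finset.sum_congr rfl fun τ _ => ?_
    split_ifs with hτ
    · refine Finset.sum_congr rfl fun l hl => ?_
      rw [(Finset.mem_filter.1 hl).2, if_pos hτ]
    · symm
      refine Finset.sum_eq_zero fun l hl => ?_
      rw [(Finset.mem_filter.1 hl).2, if_neg hτ]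
  rw [h1, ← Finset.sum_fiberwise (Finset.univ : Finset (ι → Bool ⊕ J)) tt]
  refine Finset.sum_congr rfl fun t _ => ?_
  rw [Lq, Finset.mul_sum, Finset.sum_mul]
  refine Finset.sum_congr rfl fun l hl => ?_
  rw [ip_part_u hne h u hu, (Finset.mem_filter.1 hl).2]
  split_ifs <;> ring

/-- weights -/
noncomputable def GG (ω : ι → J → ℝ) (lam : ι → ℝ) (L δ k : ℝ) (l : ι → Bool ⊕ J) : ℝ :=
  (1 + δ) * L - cs ω (tt l) + (k - 1) * us lam (ss l)

/-- `∑ g(s)/G` -/
noncomputable def Bt (ω : ι → J → ℝ) (j₀ : J) (lam g : ι → ℝ) (L δ k : ℝ) (t : ι → Option J) : ℝ :=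
  ∑ l ∈ Finset.univ.filter (fun l : ι → Bool ⊕ J => tt l = t),
    if cs ω (sp j₀ l) ≤ L then pg g (ss l) / GG ω lam L δ k l else 0

/-- size of `V` weighted with the conductor -/
noncomputable def YT (ω : ι → J → ℝ) (D : ∀ i, J → Matrix (Ω i) (Ω i) ℝ) (V : (∀ i, Ω i) → ℝ) : ℝ :=
  ∑ i, ∑ j, ω i j * f1 V i (D i j)

/-- the weighted sum of the parts -/
lemma sum_weight (hne : ∀ i, Nonempty (Ω i))
    (h : ∀ i, IsG (g i) (r i) (Qd i) (Cd i) (Zd i) (Ad i))
    (hD : ∀ i j, D i j = Zd i j + if j = j₀ then Qd i else 0) (hω : ∀ i, ω i j₀ = lam i)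
    (V : (∀ i, Ω i) → ℝ) (L δ k : ℝ) :
    ∑ l : ι → Bool ⊕ J, GG ω lam L δ k l * ip (part Qd Zd V l) (part Qd Zd V l)
      = ((1 + δ) * L) * ip V V - YT ω D V + k * ∑ i, lam i * f1 V i (Qd i) := by
  have hp := sum_parts (fun i c => PG (Qd i) (Zd i) c) (fun i c => PG_transpose (h i) c)
    (fun i c => PG_mul (hne i) (h i) c) (fun i => PG_sum (h i)) V
  have hw := weight_parts_all (fun i c => PG (Qd i) (Zd i) c) (fun i c => PG_transpose (h i) c)
    (fun i c => PG_mul (hne i) (h i) c) (fun i => PG_sum (h i)) V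
    (fun i c => Sum.elim (fun b => if b = true then (k - 1) * lam i else 0) (fun j => - ω i j) c)
  have e : ∀ l : ι → Bool ⊕ J, GG ω lam L δ k l *
        ip (part Qd Zd V l) (part Qd Zd V l) = ((1 + δ) * L) * ip (part Qd Zd V l) (part Qd Zd V l) +
        (∑ i, Sum.elim (fun b => if b = true then (k - 1) * lam i else 0) (fun j => - ω i j) (l i))
          * ip (part Qd Zd V l) (part Qd Zd V l) := by
    intro l
    rw [← add_mul]
    congr 1
    have : - cs ω (tt l) + (k - 1) * us lam (ss l) = ∑ i, Sum.elim (fun b => if b = true then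
        (k - 1) * lam i else 0) (fun j => - ω i j) (l i) := by
      unfold cs us
      rw [Finset.mul_sum, ← Finset.sum_neg_distrib, ← Finset.sum_add_distrib]
      refine Finset.sum_congr rfl fun i _ => ?_
      rcases lab_cases (l i) with hl | hl | ⟨j, hl⟩ <;> simp [tt, ss, hl]
    rw [← this, GG]; ring
  simp only [e]
  rw [Finset.sum_add_distrib, ← Finset.mul_sum]
  unfold part
  rw [hp, hw]
  have e2 : ∀ i, ip V (op (Function.update (fun j => (1 : Matrix (Ω j) (Ω j) ℝ)) i
        (∑ c : Bool ⊕ J, (Sum.elim (fun b => if b = true then (k - 1) * lam i else 0)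
          (fun j => - ω i j) c) • PG (Qd i) (Zd i) c)) V)
      = - (∑ j, ω i j * f1 V i (D i j)) + k * (lam i * f1 V i (Qd i)) := by
    intro i
    have e4 : ip V (op (Function.update (fun j => (1 : Matrix (Ω j) (Ω j) ℝ)) i
        (∑ c : Bool ⊕ J, (Sum.elim (fun b => if b = true then (k - 1) * lam i else 0)
          (fun j => - ω i j) c) • PG (Qd i) (Zd i) c)) V)
        = f1 V i (∑ c : Bool ⊕ J, (Sum.elim (fun b => if b = true then (k - 1) * lam i else 0)
          (fun j => - ω i j) c) • PG (Qd i) (Zd i) c) := rfl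
    rw [e4, f1_sum, Fintype.sum_sum_type]
    simp only [Sum.elim_inl, Sum.elim_inr, f1_smul, Fintype.sum_bool, if_true, Bool.false_eq_true,
      if_false, PG, zero_mul, add_zero]
    have e5 : ∀ j, ω i j * f1 V i (D i j) = ω i j * f1 V i (Zd i j) +
        (if j = j₀ then lam i * f1 V i (Qd i) else 0) := by
      intro j
      have e6 : f1 V i (D i j) = f1 V i (Zd i j) + (if j = j₀ then f1 V i (Qd i) else 0) := by
        have h7 := f1_sum (Finset.univ : Finset Bool) V i
          (fun b => if b = true then Zd i j else (if j = j₀ then Qd i else 0))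
        simp only [Fintype.sum_bool, if_true, Bool.false_eq_true, if_false] at h7
        rw [hD, h7]
        congr 1
        split_ifs
        · rfl
        · have := f1_smul V i 0 (0 : Matrix (Ω i) (Ω i) ℝ)
          simpa using this
      rw [e6]
      split_ifs with hj
      · rw [hj, hω]; ring
      · ring
    simp only [e5]
    rw [Finset.sum_add_distrib, Finset.sum_ite_eq' Finset.univ j₀ (fun _ => lam i * f1 V i (Qd i)),
      if_pos (Finset.mem_univ _)]
    simp only [neg_mul, Finset.sum_neg_distrib]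
    ring
  simp only [e2]
  rw [Finset.sum_add_distrib, Finset.sum_neg_distrib, Finset.mul_sum, YT]
  ring

/-- the level inequality -/
lemma level_ineqG (hne : ∀ i, Nonempty (Ω i)) (hDp : ∀ i, IsD (D i)) {L : ℝ} {V : (∀ i, Ω i) → ℝ}
    (hV : LevG ω D L V) : YT ω D V ≤ L * ip V V := by
  have h1 : ∀ i c, (DM (D i) c).transpose = DM (D i) c := fun i c => DM_transpose (hDp i) c
  have h2' : ∀ i c, DM (D i) c * DM (D i) c = DM (D i) c := fun i c => by
    rw [DM_mul (hne i) (hDp i), if_pos rfl]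
  have h3 : ∀ i, ∑ c, DM (D i) c = 1 := fun i => DM_sum (hDp i)
  have hw := weight_parts_all (fun i c => DM (D i) c) h1 h2' h3 V (fun i c => c.elim 0 (ω i))
  have e : ∀ i, ip V (op (Function.update (fun j => (1 : Matrix (Ω j) (Ω j) ℝ)) i
        (∑ c : Option J, (c.elim 0 (ω i)) • DM (D i) c)) V)
      = ∑ j, ω i j * f1 V i (D i j) := by
    intro i
    have e4 : ip V (op (Function.update (fun j => (1 : Matrix (Ω j) (Ω j) ℝ)) i
        (∑ c : Option J, (c.elim 0 (ω i)) • DM (D i) c)) V)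
        = f1 V i (∑ c : Option J, (c.elim 0 (ω i)) • DM (D i) c) := rfl
    rw [e4, f1_sum, Fintype.sum_option]
    simp only [Option.elim_none, Option.elim_some, f1_smul, zero_mul, zero_add, DM]
  simp only [e] at hw
  rw [YT, ← hw, ← sum_parts (fun i c => DM (D i) c) h1 h2' h3 V, Finset.mul_sum]
  refine Finset.sum_le_sum fun τ _ => ?_
  by_cases hL : L < cs ω τ
  · rw [hV τ hL]
    simp [ip]
  · push Not at hL
    exact mul_le_mul_of_nonneg_right hL (ip_self_nonneg _)

end Run7.h52.CoreG
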