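import Pool.Agent.Run7.h52.CoreG

set_option autoImplicit false
set_option linter.unusedSectionVars false

namespace Run7.h52.CoreG

open Finset Run7.h52.Op Run7.h52.Ker Run7.h52.Core Run7.h52.Cell

variable {ι : Type} [Fintype ι] [DecidableEq ι] {Ω : ι → Type} [∀ i, Fintype (Ω i)]
  [∀ i, DecidableEq (Ω i)] {J : Type} [Fintype J] [DecidableEq J]
variable {Qd Cd Ad : ∀ i, Matrix (Ω i) (Ω i) ℝ} {Zd D : ∀ i, J → Matrix (Ω i) (Ω i) ℝ}
  {g r lam : ι → ℝ} {ω : ι → J → ℝ} {j₀ : J}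

lemma cs_nonneg (hω0 : ∀ i j, 0 ≤ ω i j) (τ : ι → Option J) : 0 ≤ cs ω τ :=
  Finset.sum_nonneg fun i _ => by
    rcases τ i with _ | j
    · exact le_rfl
    · exact hω0 i j

lemma us_nonneg (hl : ∀ i, 0 ≤ lam i) (s : ι → Bool) : 0 ≤ us lam s :=
  Finset.sum_nonneg fun i _ => by
    split_ifs
    · exact hl i
    · exact le_rfl

lemma GG_pos (hω : ∀ i, ω i j₀ = lam i) (hl : ∀ i, 0 ≤ lam i) {L δ k : ℝ} (hk : 1 ≤ k) (hδ : 0 < δ)
    (hL : 0 < L) (l : ι → Bool ⊕ J) (h : cs ω (sp j₀ l) ≤ L) : 0 < GG ω lam L δ k l := by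
  rw [cs_sp hω] at h
  have h1 := us_nonneg hl (ss l)
  have h3 : 0 ≤ (k - 1) * us lam (ss l) := mul_nonneg (by linarith) h1
  unfold GG
  nlinarith [mul_pos hδ hL]

/-- one colour -/
lemma one_colour (hne : ∀ i, Nonempty (Ω i)) (hω0 : ∀ i j, 0 ≤ ω i j) (hω : ∀ i, ω i j₀ = lam i)
    (h : ∀ i, IsG (g i) (r i) (Qd i) (Cd i) (Zd i) (Ad i)) (hDp : ∀ i, IsD (D i))
    (hD : ∀ i j, D i j = Zd i j + if j = j₀ then Qd i else 0) {L δ k Λ q : ℝ}
    {V u : (∀ i, Ω i) → ℝ} (hV : LevG ω D L V) (hu : op (fun i => (∑ j, Zd i j) + Ad i) u = u)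
    (hk : 1 ≤ k) (hδ : 0 < δ) (hL : 0 < L) (hΛ0 : 0 ≤ Λ)
    (hΛ : ∀ t : ι → Option J, cs ω t ≤ L → Bt ω j₀ lam g L δ k t ≤ Λ * Lq ω j₀ g q t) :
    ip V u ≤ Real.sqrt (((1 + δ) * L) * ip V V - YT ω D V
        + k * ∑ i, lam i * f1 V i (Qd i)) * Real.sqrt (Λ * nQ ω D q u) := by
  classical
  have hl : ∀ i, 0 ≤ lam i := fun i => by rw [← hω]; exact hω0 i j₀
  have hg0 : ∀ τ : ι → Bool, 0 ≤ pg g τ := fun τ => Finset.prod_nonneg fun i _ => by
    split_ifs
    · exact (h i).g_nonneg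
    · exact zero_le_one
  have hr0 : ∀ τ : ι → Option J, 0 ≤ pr r τ := fun τ => Finset.prod_nonneg fun i _ => by
    split_ifs
    · exact (h i).r_pos.le
    · exact zero_le_one
  rw [← sum_weight hne h hD hω]
  set m : (ι → Bool ⊕ J) → ℝ := fun l => ip (part Qd Zd V l) (part Qd Zd V l) with hm
  have hm0 : ∀ l, 0 ≤ m l := fun l => ip_self_nonneg _
  have hmz : ∀ l, L < cs ω (sp j₀ l) → m l = 0 := fun l hl => by
    simp only [hm]; rw [part_zero hne h hD hV l hl]; simp [ip]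
  have hGpos : ∀ l, cs ω (sp j₀ l) ≤ L → 0 < GG ω lam L δ k l := fun l hll =>
    GG_pos hω hl hk hδ hL l hll
  have hGm : ∀ l, 0 ≤ GG ω lam L δ k l * m l := fun l => by
    by_cases hl : cs ω (sp j₀ l) ≤ L
    · exact mul_nonneg (hGpos l hl).le (hm0 l)
    · rw [hmz l (not_le.1 hl), mul_zero]
  set S : (ι → Option J) → ℝ := fun t => ∑ l ∈ Finset.univ.filter (fun l : ι → Bool ⊕ J => tt l = t),
    GG ω lam L δ k l * m l with hS
  have hS0 : ∀ t, 0 ≤ S t := fun t => Finset.sum_nonneg fun l _ => hGm l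
  set n : (ι → Option J) → ℝ := fun t => ip (op (XA Zd Ad t) u) (op (XA Zd Ad t) u) with hn
  have hn0 : ∀ t, 0 ≤ n t := fun t => ip_self_nonneg _
  have hLq0 : ∀ t, 0 ≤ Lq ω j₀ g q t := fun t => Finset.sum_nonneg fun l _ => by
    split_ifs
    · exact hg0 _
    · exact le_rfl
  -- V side
  have hVside : ∀ t, nrm (op (XZ Cd Zd t) V) ≤ Real.sqrt (Λ * Lq ω j₀ g q t) * Real.sqrt (S t) := by
    intro t
    rw [expand_t]
    have h4 : nrm (∑ l ∈ Finset.univ.filter (fun l : ι → Bool ⊕ J => tt l = t), partC Cd Zd V l)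
        ≤ ∑ l ∈ Finset.univ.filter (fun l : ι → Bool ⊕ J => tt l = t),
          Real.sqrt (if cs ω (sp j₀ l) ≤ L then pg g (ss l) / GG ω lam L δ k l else 0) *
          Real.sqrt (GG ω lam L δ k l * m l) := by
      refine (nrm_sum_le _ _).trans (Finset.sum_le_sum fun l _ => ?_)
      have e : nrm (partC Cd Zd V l) = Real.sqrt (ip (partC Cd Zd V l) (partC Cd Zd V l)) := rfl
      rw [e, ip_partC hne h]
      have e2 : pg g (ss l) * ip (part Qd Zd V l) (part Qd Zd V l) = pg g (ss l) * m l := rfl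
      rw [e2]
      split_ifs with hl
      · rw [← Real.sqrt_mul (div_nonneg (hg0 _) (hGpos l hl).le)]
        have := (hGpos l hl).ne'
        apply le_of_eq
        congr 1
        field_simp
      · rw [hmz l (not_le.1 hl)]; simp
    have h5 := h4.trans (Real.sum_sqrt_mul_sqrt_le _ (fun l => by
      split_ifs with hl
      · exact div_nonneg (hg0 _) (hGpos l hl).le
      · exact le_rfl) (fun l => hGm l))
    refine h5.trans (mul_le_mul_of_nonneg_right ?_ (Real.sqrt_nonneg _))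
    refine Real.sqrt_le_sqrt ?_
    by_cases ht : cs ω t ≤ L
    · exact hΛ t ht
    · have hz : ∑ l ∈ Finset.univ.filter (fun l : ι → Bool ⊕ J => tt l = t),
          (if cs ω (sp j₀ l) ≤ L then pg g (ss l) / GG ω lam L δ k l else 0) = 0 := by
        refine Finset.sum_eq_zero fun l hll => ?_
        rw [if_neg]
        rw [cs_sp hω, (Finset.mem_filter.1 hll).2]
        have := us_nonneg hl (ss l)
        push Not at ht ⊢
        linarith
      rw [hz]
      exact mul_nonneg hΛ0 (hLq0 t)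
  have hone : ∀ t, ip (op (XA Zd Ad t) V) (op (XA Zd Ad t) u) ≤
      Real.sqrt (S t) * Real.sqrt (Λ * (pr r t * Lq ω j₀ g q t * n t)) := by
    intro t
    have h4 : ip (op (XA Zd Ad t) V) (op (XA Zd Ad t) u) ≤
        nrm (op (XA Zd Ad t) V) * nrm (op (XA Zd Ad t) u) := by
      have := Finset.sum_mul_sq_le_sq_mul_sq Finset.univ (op (XA Zd Ad t) V) (op (XA Zd Ad t) u)
      have h6 : (ip (op (XA Zd Ad t) V) (op (XA Zd Ad t) u)) ^ 2
          ≤ (nrm (op (XA Zd Ad t) V) * nrm (op (XA Zd Ad t) u)) ^ 2 := by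
        rw [mul_pow, nrm_sq, nrm_sq]
        simpa [ip, sq] using this
      exact le_of_sq_le_sq h6 (mul_nonneg (nrm_nonneg _) (nrm_nonneg _))
    have h5 : nrm (op (XA Zd Ad t) V) = Real.sqrt (pr r t) * nrm (op (XZ Cd Zd t) V) := by
      have e : nrm (op (XA Zd Ad t) V) = Real.sqrt (ip (op (XA Zd Ad t) V) (op (XA Zd Ad t) V)) := rfl
      rw [e, ip_XA h, Real.sqrt_mul (hr0 t)]
      rfl
    have h6 : nrm (op (XA Zd Ad t) u) = Real.sqrt (n t) := rfl
    rw [h5, h6] at h4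
    refine h4.trans ?_
    calc Real.sqrt (pr r t) * nrm (op (XZ Cd Zd t) V) * Real.sqrt (n t)
        ≤ Real.sqrt (pr r t) * (Real.sqrt (Λ * Lq ω j₀ g q t) * Real.sqrt (S t)) * Real.sqrt (n t) := by
          gcongr
          exact hVside t
      _ = Real.sqrt (S t) * (Real.sqrt (pr r t) * Real.sqrt (Λ * Lq ω j₀ g q t) * Real.sqrt (n t)) := by ring
      _ = _ := by
          rw [← Real.sqrt_mul (hr0 t), ← Real.sqrt_mul (mul_nonneg (hr0 t) (mul_nonneg hΛ0 (hLq0 t)))]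
          congr 2
          ring
  rw [pair_expand h V u hu, nQ_eq hne h hDp hD u hu]
  refine (Finset.sum_le_sum fun t _ => hone t).trans ?_
  refine (Real.sum_sqrt_mul_sqrt_le _ (fun t => hS0 t) (fun t => ?_)).trans ?_
  · exact mul_nonneg hΛ0 (mul_nonneg (mul_nonneg (hr0 t) (hLq0 t)) (hn0 t))
  · apply le_of_eq
    congr 2
    · exact Finset.sum_fiberwise (Finset.univ : Finset (ι → Bool ⊕ J)) tt (fun l => GG ω lam L δ k l * m l)
    · rw [Finset.mul_sum]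

lemma weight_nonneg (hne : ∀ i, Nonempty (Ω i)) (hω0 : ∀ i j, 0 ≤ ω i j) (hω : ∀ i, ω i j₀ = lam i)
    (h : ∀ i, IsG (g i) (r i) (Qd i) (Cd i) (Zd i) (Ad i))
    (hD : ∀ i j, D i j = Zd i j + if j = j₀ then Qd i else 0) {L δ k : ℝ}
    {V : (∀ i, Ω i) → ℝ} (hV : LevG ω D L V) (hk : 1 ≤ k) (hδ : 0 < δ) (hL : 0 < L) :
    0 ≤ ((1 + δ) * L) * ip V V - YT ω D V + k * ∑ i, lam i * f1 V i (Qd i) := by
  rw [← sum_weight hne h hD hω]
  refine Finset.sum_nonneg fun l _ => ?_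
  by_cases hl : cs ω (sp j₀ l) ≤ L
  · exact mul_nonneg (GG_pos hω (fun i => by rw [← hω]; exact hω0 i j₀) hk hδ hL l hl).le
      (ip_self_nonneg _)
  · rw [part_zero hne h hD hV l (not_le.1 hl)]
    simp [ip]

/-- all colours -/
theorem coreG {κ : Type} [Fintype κ] (hne : ∀ i, Nonempty (Ω i))
    (hω0 : ∀ i j, 0 ≤ ω i j) (hω : ∀ i, ω i j₀ = lam i)
    {Qd Cd Ad : κ → ∀ i, Matrix (Ω i) (Ω i) ℝ} {Zd : κ → ∀ i, J → Matrix (Ω i) (Ω i) ℝ}
    (h : ∀ c i, IsG (g i) (r i) (Qd c i) (Cd c i) (Zd c i) (Ad c i)) (hDp : ∀ i, IsD (D i))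
    (hD : ∀ c i j, D i j = Zd c i j + if j = j₀ then Qd c i else 0) {L δ k Λ q θ : ℝ}
    {V : (∀ i, Ω i) → ℝ} {u : κ → (∀ i, Ω i) → ℝ} (hV : LevG ω D L V)
    (hu : ∀ c, op (fun i => (∑ j, Zd c i j) + Ad c i) (u c) = u c)
    (hk : 1 ≤ k) (hκ : (Fintype.card κ : ℝ) ≤ k) (hδ : 0 < δ) (hL : 0 < L) (hΛ0 : 0 ≤ Λ)
    (hθ1 : 1 ≤ θ) (hQ : ∀ i, ∑ c, f1 V i (Qd c i) ≤ θ * f1 V i (D i j₀))
    (hΛ : ∀ t : ι → Option J, cs ω t ≤ L → Bt ω j₀ lam g L δ k t ≤ Λ * Lq ω j₀ g q t) :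
    ∑ c, ip V (u c) ≤ Real.sqrt (k * (δ + θ) * L * ip V V) * Real.sqrt (Λ * ∑ c, nQ ω D q (u c)) := by
  have hl : ∀ i, 0 ≤ lam i := fun i => by rw [← hω]; exact hω0 i j₀
  set n : ℝ := (Fintype.card κ : ℝ) with hn
  set Y : ℝ := YT ω D V with hY
  have hf0 : ∀ i j, 0 ≤ f1 V i (D i j) := fun i j => f1_nonneg V i _ ((hDp i).Dt j) (by
    have := (hDp i).DD j j
    rwa [if_pos rfl] at this)
  have hY0 : 0 ≤ Y := Finset.sum_nonneg fun i _ => Finset.sum_nonneg fun j _ =>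
    mul_nonneg (hω0 i j) (hf0 i j)
  have hYL : Y ≤ L * ip V V := level_ineqG hne hDp hV
  have hX : ∑ c : κ, ∑ i, lam i * f1 V i (Qd c i) ≤ θ * Y := by
    rw [Finset.sum_comm, hY, YT, Finset.mul_sum]
    refine Finset.sum_le_sum fun i _ => ?_
    rw [← Finset.mul_sum]
    calc lam i * ∑ k, f1 V i (Qd k i)
        ≤ lam i * (θ * f1 V i (D i j₀)) :=
          mul_le_mul_of_nonneg_left (hQ i) (hl i)
      _ = θ * (ω i j₀ * f1 V i (D i j₀)) := by rw [hω]; ring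
      _ ≤ _ := mul_le_mul_of_nonneg_left (Finset.single_le_sum (f := fun j => ω i j * f1 V i (D i j))
          (fun j _ => mul_nonneg (hω0 i j) (hf0 i j)) (Finset.mem_univ j₀)) (by linarith)
  have hnQ0 : ∀ c, 0 ≤ nQ ω D q (u c) := fun c => Finset.sum_nonneg fun τ _ => by
    split_ifs
    · exact ip_self_nonneg _
    · exact le_rfl
  set a : κ → ℝ := fun c => ((1 + δ) * L) * ip V V - Y + k * ∑ i, lam i * f1 V i (Qd c i)
    with ha
  have ha0 : ∀ c, 0 ≤ a c := fun c => weight_nonneg hne hω0 hω (h c) (hD c) hV hk hδ hL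
  have h1 : ∑ c, ip V (u c) ≤ ∑ c, Real.sqrt (a c) * Real.sqrt (Λ * nQ ω D q (u c)) :=
    Finset.sum_le_sum fun c _ => one_colour hne hω0 hω (h c) hDp (hD c) hV (hu c) hk hδ hL hΛ0 hΛ
  refine h1.trans ((Real.sum_sqrt_mul_sqrt_le _ ha0 (fun c => mul_nonneg hΛ0 (hnQ0 c))).trans ?_)
  refine mul_le_mul (Real.sqrt_le_sqrt ?_) (Real.sqrt_le_sqrt ?_) (Real.sqrt_nonneg _)
    (Real.sqrt_nonneg _)
  · have e : ∑ c, a c = n * (((1 + δ) * L) * ip V V - Y)
        + k * ∑ c : κ, ∑ i, lam i * f1 V i (Qd c i) := by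
      rw [ha, Finset.sum_add_distrib, Finset.sum_const, Finset.card_univ,
        nsmul_eq_mul, ← Finset.mul_sum]
    rw [e]
    have hn0 : 0 ≤ n := Nat.cast_nonneg _
    have hV0 : 0 ≤ ip V V := ip_self_nonneg V
    have h1 : k * ∑ c : κ, ∑ i, lam i * f1 V i (Qd c i) ≤ k * (θ * Y) :=
      mul_le_mul_of_nonneg_left hX (by linarith)
    have h3 : (k * θ - n) * Y ≤ (k * θ - n) * (L * ip V V) := by
      refine mul_le_mul_of_nonneg_left hYL ?_
      nlinarith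
    have h4 : n * δ * (L * ip V V) ≤ k * δ * (L * ip V V) :=
      mul_le_mul_of_nonneg_right (mul_le_mul_of_nonneg_right hκ hδ.le)
        (mul_nonneg hL.le hV0)
    nlinarith
  · rw [← Finset.mul_sum]

/-- sum over labellings as sum over sets -/
lemma lab_sum (t : ι → Option J) (F : (ι → Bool) → ℝ) :
    ∑ l ∈ Finset.univ.filter (fun l : ι → Bool ⊕ J => tt l = t), F (ss l)
      = ∑ s ∈ Finset.univ.filter (fun s : ι → Bool => ∀ i, s i = true → t i = none), F s := by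
  classical
  refine Finset.sum_bij' (fun l _ => ss l)
    (fun s _ => fun i => (t i).elim (Sum.inl (s i)) (fun j => Sum.inr j)) ?_ ?_ ?_ ?_ ?_
  · intro l hl
    rw [Finset.mem_filter] at hl ⊢
    refine ⟨Finset.mem_univ _, fun i hi => ?_⟩
    rw [← hl.2]
    rcases lab_cases (l i) with h | h | ⟨j, h⟩ <;> simp [ss, tt, h] at hi ⊢
  · intro s _
    rw [Finset.mem_filter]
    refine ⟨Finset.mem_univ _, ?_⟩
    funext i
    simp only [tt]
    rcases h : t i with _ | j <;> simp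
  · intro l hl
    rw [Finset.mem_filter] at hl
    funext i
    rw [← hl.2]
    rcases lab_cases (l i) with h | h | ⟨j, h⟩ <;> simp [ss, tt, h]
  · intro s hs
    rw [Finset.mem_filter] at hs
    funext i
    simp only [ss]
    rcases h : t i with _ | j
    · simp
    · simp only [Option.elim_some, Sum.elim_inr]
      have := hs.2 i
      rw [h] at this
      by_contra hc
      have h2 : s i = true := by
        cases hsi : s i
        · exact absurd hsi.symm hc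
        · rfl
      exact absurd (this h2) (by simp)
  · intro l _; rfl

lemma Lq_eq (hω : ∀ i, ω i j₀ = lam i) (q : ℝ) (t : ι → Option J) :
    Lq ω j₀ g q t = ∑ s ∈ Finset.univ.filter (fun s : ι → Bool => ∀ i, s i = true → t i = none),
      if cs ω t + us lam s ≤ q then pg g s else 0 := by
  rw [← lab_sum (J := J) t (fun s => if cs ω t + us lam s ≤ q then pg g s else 0), Lq]
  refine Finset.sum_congr rfl fun l hl => ?_
  rw [cs_sp hω, (Finset.mem_filter.1 hl).2]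

lemma Bt_eq (hω : ∀ i, ω i j₀ = lam i) (L δ k : ℝ) (t : ι → Option J) :
    Bt ω j₀ lam g L δ k t = ∑ s ∈ Finset.univ.filter (fun s : ι → Bool => ∀ i, s i = true → t i = none),
      if cs ω t + us lam s ≤ L then pg g s / ((1 + δ) * L - cs ω t + (k - 1) * us lam s) else 0 := by
  rw [← lab_sum (J := J) t (fun s => if cs ω t + us lam s ≤ L then
    pg g s / ((1 + δ) * L - cs ω t + (k - 1) * us lam s) else 0), Bt]
  refine Finset.sum_congr rfl fun l hl => ?_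
  rw [cs_sp hω, (Finset.mem_filter.1 hl).2, GG, (Finset.mem_filter.1 hl).2]

end Run7.h52.CoreG
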