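import Pool.Agent.Run7.h52.CoreG2

set_option autoImplicit false
set_option linter.unusedSectionVars false

namespace Run7.h52.CoreG

open Finset Run7.h52.Op Run7.h52.Ker Run7.h52.Core Run7.h52.Cell

variable {ι : Type} [Fintype ι] [DecidableEq ι] {Ω : ι → Type} [∀ i, Fintype (Ω i)]
  [∀ i, DecidableEq (Ω i)] {J : Type} [Fintype J] [DecidableEq J]
variable {Qd Cd Ad : ∀ i, Matrix (Ω i) (Ω i) ℝ} {Zd D : ∀ i, J → Matrix (Ω i) (Ω i) ℝ}
  {g r lam v : ι → ℝ} {ω : ι → J → ℝ} {j₀ : J}

/-- `∑ g(s)/v(s)` over the nonempty sets `s` disjoint from `t` -/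
noncomputable def Bv (ω : ι → J → ℝ) (j₀ : J) (v g : ι → ℝ) (L : ℝ) (t : ι → Option J) : ℝ :=
  ∑ l ∈ Finset.univ.filter (fun l : ι → Bool ⊕ J => tt l = t),
    if cs ω (sp j₀ l) ≤ L ∧ ss l ≠ (fun _ => false) then pg g (ss l) / us v (ss l) else 0

lemma us_pos {v : ι → ℝ} (hv : ∀ i, 0 < v i) (s : ι → Bool) (hs : s ≠ fun _ => false) :
    0 < us v s := by
  have : ∃ i, s i = true := by
    by_contra h
    push Not at h
    exact hs (funext fun i => by simpa using h i)
  obtain ⟨i, hi⟩ := this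
  unfold us
  have h := Finset.single_le_sum (f := fun i => if s i = true then v i else 0)
    (s := Finset.univ) (fun j _ => by split_ifs <;> [exact (hv j).le; exact le_rfl])
    (Finset.mem_univ i)
  simp only [hi, if_true] at h
  exact lt_of_lt_of_le (hv i) h

/-- the weighted sum of the parts -/
lemma sum_weight_v (hne : ∀ i, Nonempty (Ω i))
    (h : ∀ i, IsG (g i) (r i) (Qd i) (Cd i) (Zd i) (Ad i)) (V : (∀ i, Ω i) → ℝ) :
    ∑ l : ι → Bool ⊕ J, us v (ss l) * ip (part Qd Zd V l) (part Qd Zd V l)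
      = ∑ i, v i * f1 V i (Qd i) := by
  have hw := weight_parts_all (fun i c => PG (Qd i) (Zd i) c) (fun i c => PG_transpose (h i) c)
    (fun i c => PG_mul (hne i) (h i) c) (fun i => PG_sum (h i)) V
    (fun i c => Sum.elim (fun b => if b = true then v i else 0) (fun _ => 0) c)
  have e : ∀ l : ι → Bool ⊕ J, us v (ss l) = ∑ i, Sum.elim (fun b => if b = true then v i else 0)
      (fun _ => 0) (l i) := by
    intro l
    unfold us
    refine Finset.sum_congr rfl fun i _ => ?_
    rcases lab_cases (l i) with hl | hl | ⟨j, hl⟩ <;> simp [ss, hl]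
  simp only [e]
  unfold part
  rw [hw]
  refine Finset.sum_congr rfl fun i _ => ?_
  have e4 : ip V (op (Function.update (fun j => (1 : Matrix (Ω j) (Ω j) ℝ)) i
        (∑ c : Bool ⊕ J, (Sum.elim (fun b => if b = true then v i else 0)
          (fun _ => (0 : ℝ)) c) • PG (Qd i) (Zd i) c)) V)
        = f1 V i (∑ c : Bool ⊕ J, (Sum.elim (fun b => if b = true then v i else 0)
          (fun _ => (0 : ℝ)) c) • PG (Qd i) (Zd i) c) := rfl
  rw [e4, f1_sum, Fintype.sum_sum_type]
  simp only [Sum.elim_inl, Sum.elim_inr, f1_smul, Fintype.sum_bool, if_true, Bool.false_eq_true,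
    if_false, PG, zero_mul, add_zero, Finset.sum_const_zero]

/-- one colour -/
lemma one_colourV (hne : ∀ i, Nonempty (Ω i)) (hω0 : ∀ i j, 0 ≤ ω i j) (hω : ∀ i, ω i j₀ = lam i)
    (h : ∀ i, IsG (g i) (r i) (Qd i) (Cd i) (Zd i) (Ad i)) (hDp : ∀ i, IsD (D i))
    (hD : ∀ i j, D i j = Zd i j + if j = j₀ then Qd i else 0) {L B G₀ q : ℝ} (hv : ∀ i, 0 < v i)
    {V u : (∀ i, Ω i) → ℝ} (hV : LevG ω D L V) (hu : op (fun i => (∑ j, Zd i j) + Ad i) u = u)
    (hB0 : 0 ≤ B) (hG0 : 0 < G₀)
    (hB : ∀ t : ι → Option J, cs ω t ≤ L → Bv ω j₀ v g L t ≤ B)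
    (hG : ∀ t : ι → Option J, cs ω t ≤ L → G₀ ≤ Lq ω j₀ g q t) :
    ip V u ≤ (nrm V + Real.sqrt (B * ∑ i, v i * f1 V i (Qd i))) * Real.sqrt (nQ ω D q u / G₀) := by
  classical
  have hl : ∀ i, 0 ≤ lam i := fun i => by rw [← hω]; exact hω0 i j₀
  have hg0 : ∀ τ : ι → Bool, 0 ≤ pg g τ := fun τ => Finset.prod_nonneg fun i _ => by
    split_ifs
    · exact (h i).g_nonneg
    · exact zero_le_one
  have hr0 : ∀ τ : ι → Option J, 0 ≤ pr r τ := fun τ => Finset.prod_nonneg fun i _ => by
    split_ifs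
    · exact (h i).r_pos.le
    · exact zero_le_one
  set m : (ι → Bool ⊕ J) → ℝ := fun l => ip (part Qd Zd V l) (part Qd Zd V l) with hm
  have hm0 : ∀ l, 0 ≤ m l := fun l => ip_self_nonneg _
  have hmz : ∀ l, L < cs ω (sp j₀ l) → m l = 0 := fun l hl => by
    simp only [hm]; rw [part_zero hne h hD hV l hl]; simp [ip]
  set n : (ι → Option J) → ℝ := fun t => ip (op (XA Zd Ad t) u) (op (XA Zd Ad t) u) with hn
  have hn0 : ∀ t, 0 ≤ n t := fun t => ip_self_nonneg _
  have hLq0 : ∀ t, 0 ≤ Lq ω j₀ g q t := fun t => Finset.sum_nonneg fun l _ => by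
    split_ifs
    · exact hg0 _
    · exact le_rfl
  set S : (ι → Option J) → ℝ := fun t => ∑ l ∈ Finset.univ.filter (fun l : ι → Bool ⊕ J => tt l = t),
    us v (ss l) * m l with hS
  have hus0 : ∀ l : ι → Bool ⊕ J, 0 ≤ us v (ss l) := fun l => us_nonneg (fun i => (hv i).le) _
  have hS0 : ∀ t, 0 ≤ S t := fun t => Finset.sum_nonneg fun l _ => mul_nonneg (hus0 l) (hm0 l)
  set l₀ : (ι → Option J) → (ι → Bool ⊕ J) := fun t i => (t i).elim (Sum.inl false) Sum.inr with hl₀
  have hl₀t : ∀ t, tt (l₀ t) = t := by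
    intro t
    funext i
    simp only [tt, hl₀]
    rcases t i with _ | j <;> simp
  have hl₀s : ∀ t, ss (l₀ t) = fun _ => false := by
    intro t
    funext i
    simp only [ss, hl₀]
    rcases t i with _ | j <;> simp
  have huniq : ∀ t (l : ι → Bool ⊕ J), tt l = t → ss l = (fun _ => false) → l = l₀ t := by
    intro t l h1 h2
    funext i
    have h1' : Sum.elim (fun _ => none) some (l i) = t i := congrFun h1 i
    have h2' : Sum.elim id (fun _ => false) (l i) = false := congrFun h2 i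
    simp only [hl₀]
    rcases lab_cases (l i) with hl | hl | ⟨j, hl⟩
    · rw [hl] at h1' ⊢
      simp only [Sum.elim_inl] at h1'
      rw [← h1']; rfl
    · rw [hl] at h2'
      simp at h2'
    · rw [hl] at h1' ⊢
      simp only [Sum.elim_inr] at h1'
      rw [← h1']; rfl
  -- V side
  set a1 : (ι → Option J) → ℝ := fun t => nrm (part Qd Zd V (l₀ t)) with ha1
  set a2 : (ι → Option J) → ℝ := fun t => Real.sqrt B * Real.sqrt (S t) with ha2
  have hVside : ∀ t, cs ω t ≤ L → nrm (op (XZ Cd Zd t) V) ≤ a1 t + a2 t := by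
    intro t htL
    have hmem : l₀ t ∈ Finset.univ.filter (fun l : ι → Bool ⊕ J => tt l = t) :=
      Finset.mem_filter.2 ⟨Finset.mem_univ _, hl₀t t⟩
    rw [expand_t, ← Finset.add_sum_erase _ _ hmem]
    refine (nrm_add_le _ _).trans (add_le_add ?_ ?_)
    · apply le_of_eq
      simp only [ha1]
      congr 1
      unfold partC part
      congr 1
      funext i
      simp only [hl₀]
      rcases t i with _ | j <;> simp [PC, PG]
    · have h4 : nrm (∑ l ∈ (Finset.univ.filter (fun l : ι → Bool ⊕ J => tt l = t)).erase (l₀ t), partC Cd Zd V l)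
          ≤ ∑ l ∈ (Finset.univ.filter (fun l : ι → Bool ⊕ J => tt l = t)).erase (l₀ t),
            Real.sqrt (if cs ω (sp j₀ l) ≤ L ∧ ss l ≠ (fun _ => false) then
              pg g (ss l) / us v (ss l) else 0) * Real.sqrt (us v (ss l) * m l) := by
        refine (nrm_sum_le _ _).trans (Finset.sum_le_sum fun l hl => ?_)
        rw [Finset.mem_erase, Finset.mem_filter] at hl
        have hne' : ss l ≠ (fun _ => false) := fun h0 => hl.1 (huniq t l hl.2.2 h0)
        have hup := us_pos hv (ss l) hne'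
        have e : nrm (partC Cd Zd V l) = Real.sqrt (ip (partC Cd Zd V l) (partC Cd Zd V l)) := rfl
        rw [e, ip_partC hne h]
        have e2 : pg g (ss l) * ip (part Qd Zd V l) (part Qd Zd V l) = pg g (ss l) * m l := rfl
        rw [e2]
        by_cases hc : cs ω (sp j₀ l) ≤ L
        · rw [if_pos ⟨hc, hne'⟩, ← Real.sqrt_mul (div_nonneg (hg0 _) hup.le)]
          apply le_of_eq
          congr 1
          field_simp
        · rw [hmz l (not_le.1 hc)]; simp
      have h5 := h4.trans (Real.sum_sqrt_mul_sqrt_le _ (fun l => by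
        split_ifs with hc
        · exact div_nonneg (hg0 _) (hus0 l)
        · exact le_rfl) (fun l => mul_nonneg (hus0 l) (hm0 l)))
      refine h5.trans (mul_le_mul (Real.sqrt_le_sqrt ?_) (Real.sqrt_le_sqrt ?_) (Real.sqrt_nonneg _)
        (Real.sqrt_nonneg _))
      · refine le_trans ?_ (hB t htL)
        refine Finset.sum_le_sum_of_subset_of_nonneg (Finset.erase_subset _ _) (fun l _ _ => ?_)
        split_ifs
        · exact div_nonneg (hg0 _) (hus0 l)
        · exact le_rfl
      · exact Finset.sum_le_sum_of_subset_of_nonneg (Finset.erase_subset _ _)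
          (fun l _ _ => mul_nonneg (hus0 l) (hm0 l))
  set a : (ι → Option J) → ℝ := fun t => if cs ω t ≤ L then nrm (op (XZ Cd Zd t) V) else 0 with ha
  have ha0 : ∀ t, 0 ≤ a t := fun t => by
    simp only [ha]
    split_ifs
    · exact nrm_nonneg _
    · exact le_rfl
  have hzero : ∀ t, ¬ cs ω t ≤ L → op (XZ Cd Zd t) V = 0 := by
    intro t ht
    rw [expand_t]
    refine Finset.sum_eq_zero fun l hll => ?_
    have h1 : L < cs ω (sp j₀ l) := by
      rw [cs_sp hω, (Finset.mem_filter.1 hll).2]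
      have := us_nonneg hl (ss l)
      push Not at ht
      linarith
    have h2 : ip (partC Cd Zd V l) (partC Cd Zd V l) = 0 := by
      rw [ip_partC hne h]
      have := hmz l h1
      simp only [hm] at this
      rw [this, mul_zero]
    have h3 : nrm (partC Cd Zd V l) = 0 := by
      have e : nrm (partC Cd Zd V l) = Real.sqrt (ip (partC Cd Zd V l) (partC Cd Zd V l)) := rfl
      rw [e, h2, Real.sqrt_zero]
    have h4 : ∑ x, partC Cd Zd V l x * partC Cd Zd V l x = 0 := h2
    rw [Finset.sum_eq_zero_iff_of_nonneg (fun x _ => mul_self_nonneg _)] at h4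
    funext x
    have := h4 x (Finset.mem_univ x)
    simpa using this
  have hone : ∀ t, ip (op (XA Zd Ad t) V) (op (XA Zd Ad t) u) ≤
      a t * Real.sqrt ((pr r t * Lq ω j₀ g q t * n t) / G₀) := by
    intro t
    have h4 : ip (op (XA Zd Ad t) V) (op (XA Zd Ad t) u) ≤
        nrm (op (XA Zd Ad t) V) * nrm (op (XA Zd Ad t) u) := by
      have := Finset.sum_mul_sq_le_sq_mul_sq Finset.univ (op (XA Zd Ad t) V) (op (XA Zd Ad t) u)
      have h6 : (ip (op (XA Zd Ad t) V) (op (XA Zd Ad t) u)) ^ 2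
          ≤ (nrm (op (XA Zd Ad t) V) * nrm (op (XA Zd Ad t) u)) ^ 2 := by
        rw [mul_pow, nrm_sq, nrm_sq]
        simpa [ip, sq] using this
      exact le_of_sq_le_sq h6 (mul_nonneg (nrm_nonneg _) (nrm_nonneg _))
    have h5 : nrm (op (XA Zd Ad t) V) = Real.sqrt (pr r t) * nrm (op (XZ Cd Zd t) V) := by
      have e : nrm (op (XA Zd Ad t) V) = Real.sqrt (ip (op (XA Zd Ad t) V) (op (XA Zd Ad t) V)) := rfl
      rw [e, ip_XA h, Real.sqrt_mul (hr0 t)]
      rfl
    have h6 : nrm (op (XA Zd Ad t) u) = Real.sqrt (n t) := rfl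
    rw [h5, h6] at h4
    refine h4.trans ?_
    by_cases ht : cs ω t ≤ L
    · have hat : a t = nrm (op (XZ Cd Zd t) V) := by simp only [ha]; rw [if_pos ht]
      rw [← hat]
      have h7 : Real.sqrt (pr r t) * Real.sqrt (n t) ≤ Real.sqrt ((pr r t * Lq ω j₀ g q t * n t) / G₀) := by
        rw [← Real.sqrt_mul (hr0 t)]
        refine Real.sqrt_le_sqrt ?_
        rw [le_div_iff₀ hG0]
        have h8 := mul_le_mul_of_nonneg_left (hG t ht) (mul_nonneg (hr0 t) (hn0 t))
        linarith
      calc Real.sqrt (pr r t) * a t * Real.sqrt (n t)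
          = a t * (Real.sqrt (pr r t) * Real.sqrt (n t)) := by ring
        _ ≤ _ := mul_le_mul_of_nonneg_left h7 (ha0 t)
    · rw [hzero t ht]
      have : nrm (0 : (∀ i, Ω i) → ℝ) = 0 := by simp [nrm]
      rw [this, mul_zero, zero_mul]
      exact mul_nonneg (ha0 t) (Real.sqrt_nonneg _)
  rw [pair_expand h V u hu, nQ_eq hne h hDp hD u hu]
  refine (Finset.sum_le_sum fun t _ => hone t).trans ?_
  have hCS : ∑ t, a t * Real.sqrt ((pr r t * Lq ω j₀ g q t * n t) / G₀)
      ≤ nrm a * Real.sqrt ((∑ t, pr r t * Lq ω j₀ g q t * n t) / G₀) := by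
    have h1 : ∀ t, a t = Real.sqrt (a t * a t) := fun t => (Real.sqrt_mul_self (ha0 t)).symm
    have h2 := Real.sum_sqrt_mul_sqrt_le (Finset.univ : Finset (ι → Option J))
      (f := fun t => a t * a t) (g := fun t => (pr r t * Lq ω j₀ g q t * n t) / G₀)
      (fun t => mul_self_nonneg _)
      (fun t => div_nonneg (mul_nonneg (mul_nonneg (hr0 t) (hLq0 t)) (hn0 t)) hG0.le)
    simp only [← h1] at h2
    refine h2.trans (le_of_eq ?_)
    rw [Finset.sum_div]
    rfl
  refine hCS.trans (mul_le_mul_of_nonneg_right ?_ (Real.sqrt_nonneg _))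
  have h1 : nrm a ≤ nrm (a1 + a2) := by
    unfold nrm
    refine Real.sqrt_le_sqrt (Finset.sum_le_sum fun t _ => ?_)
    refine mul_self_le_mul_self (ha0 t) ?_
    rw [Pi.add_apply]
    by_cases ht : cs ω t ≤ L
    · have hat : a t = nrm (op (XZ Cd Zd t) V) := by simp only [ha]; rw [if_pos ht]
      rw [hat]; exact hVside t ht
    · have hat : a t = 0 := by simp only [ha]; rw [if_neg ht]
      rw [hat]
      exact add_nonneg (nrm_nonneg _) (mul_nonneg (Real.sqrt_nonneg _) (Real.sqrt_nonneg _))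
  refine h1.trans ((nrm_add_le _ _).trans (add_le_add ?_ ?_))
  · have hp := sum_parts (fun i c => PG (Qd i) (Zd i) c) (fun i c => PG_transpose (h i) c)
      (fun i c => PG_mul (hne i) (h i) c) (fun i => PG_sum (h i)) V
    unfold nrm
    refine Real.sqrt_le_sqrt ?_
    have h2 : ∀ t, a1 t * a1 t = m (l₀ t) := by
      intro t
      have := nrm_sq (part Qd Zd V (l₀ t))
      rw [sq] at this
      exact this
    simp only [h2]
    have h3 : ∑ x, V x * V x = ∑ l : ι → Bool ⊕ J, m l := hp.symm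
    rw [h3, ← Finset.sum_image (f := m) (s := Finset.univ) (g := l₀) (fun t _ t' _ htt => by
      have := congrArg tt htt
      rwa [hl₀t, hl₀t] at this)]
    exact Finset.sum_le_sum_of_subset_of_nonneg (Finset.subset_univ _) (fun l _ _ => hm0 l)
  · unfold nrm
    refine Real.sqrt_le_sqrt ?_
    have h2 : ∀ t, a2 t * a2 t = B * S t := by
      intro t
      simp only [ha2]
      calc Real.sqrt B * Real.sqrt (S t) * (Real.sqrt B * Real.sqrt (S t))
          = (Real.sqrt B * Real.sqrt B) * (Real.sqrt (S t) * Real.sqrt (S t)) := by ring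
        _ = _ := by rw [Real.mul_self_sqrt hB0, Real.mul_self_sqrt (hS0 t)]
    simp only [h2]
    rw [← Finset.mul_sum, ← sum_weight_v hne h V]
    refine mul_le_mul_of_nonneg_left (le_of_eq ?_) hB0
    exact Finset.sum_fiberwise (Finset.univ : Finset (ι → Bool ⊕ J)) tt (fun l => us v (ss l) * m l)

end Run7.h52.CoreG
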