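import Pool.Agent.Run7.h52.CoreV

set_option autoImplicit false
set_option linter.unusedSectionVars false

namespace Run7.h52.CoreG

open Finset Run7.h52.Op Run7.h52.Ker Run7.h52.Core Run7.h52.Cell

variable {ι : Type} [Fintype ι] [DecidableEq ι] {Ω : ι → Type} [∀ i, Fintype (Ω i)]
  [∀ i, DecidableEq (Ω i)] {J : Type} [Fintype J] [DecidableEq J]
variable {Qd Cd Ad : ∀ i, Matrix (Ω i) (Ω i) ℝ} {Zd D : ∀ i, J → Matrix (Ω i) (Ω i) ℝ}
  {g r lam v : ι → ℝ} {ω : ι → J → ℝ} {j₀ : J}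

/-- all colours, classes with multiplicity -/
theorem coreV {κ : Type} [Fintype κ] (hne : ∀ i, Nonempty (Ω i))
    (hω0 : ∀ i j, 0 ≤ ω i j) (hω : ∀ i, ω i j₀ = lam i)
    {Qd Cd Ad : κ → ∀ i, Matrix (Ω i) (Ω i) ℝ} {Zd : κ → ∀ i, J → Matrix (Ω i) (Ω i) ℝ}
    (h : ∀ c i, IsG (g i) (r i) (Qd c i) (Cd c i) (Zd c i) (Ad c i)) (hDp : ∀ i, IsD (D i))
    (hD : ∀ c i j, D i j = Zd c i j + if j = j₀ then Qd c i else 0) {L B G₀ q θ : ℝ} {mu : ι → ℝ}
    (hv : ∀ i, 0 < v i) (hvm : ∀ i, v i * mu i ≤ lam i)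
    {V : (∀ i, Ω i) → ℝ} {u : κ → (∀ i, Ω i) → ℝ} (hV : LevG ω D L V)
    (hu : ∀ c, op (fun i => (∑ j, Zd c i j) + Ad c i) (u c) = u c)
    (hB0 : 0 ≤ B) (hG0 : 0 < G₀) (hθ : 0 ≤ θ)
    (hQ : ∀ i, ∑ c, f1 V i (Qd c i) ≤ mu i * (θ * f1 V i (D i j₀)))
    (hB : ∀ t : ι → Option J, cs ω t ≤ L → Bv ω j₀ v g L t ≤ B)
    (hG : ∀ t : ι → Option J, cs ω t ≤ L → G₀ ≤ Lq ω j₀ g q t) :
    ∑ c, ip V (u c) ≤ (Real.sqrt (Fintype.card κ) + Real.sqrt (B * (θ * L))) * nrm V *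
      Real.sqrt ((∑ c, nQ ω D q (u c)) / G₀) := by
  have hl : ∀ i, 0 ≤ lam i := fun i => by rw [← hω]; exact hω0 i j₀
  set Y : ℝ := YT ω D V with hY
  have hf0 : ∀ i j, 0 ≤ f1 V i (D i j) := fun i j => f1_nonneg V i _ ((hDp i).Dt j) (by
    have := (hDp i).DD j j
    rwa [if_pos rfl] at this)
  have hYL : Y ≤ L * ip V V := level_ineqG hne hDp hV
  have hX : ∑ c : κ, ∑ i, v i * f1 V i (Qd c i) ≤ θ * Y := by
    rw [Finset.sum_comm, hY, YT, Finset.mul_sum]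
    refine Finset.sum_le_sum fun i _ => ?_
    rw [← Finset.mul_sum]
    calc v i * ∑ k, f1 V i (Qd k i)
        ≤ v i * (mu i * (θ * f1 V i (D i j₀))) :=
          mul_le_mul_of_nonneg_left (hQ i) (hv i).le
      _ = (v i * mu i) * (θ * f1 V i (D i j₀)) := by ring
      _ ≤ lam i * (θ * f1 V i (D i j₀)) :=
          mul_le_mul_of_nonneg_right (hvm i) (mul_nonneg hθ (hf0 i j₀))
      _ = θ * (ω i j₀ * f1 V i (D i j₀)) := by rw [hω]; ring
      _ ≤ _ := mul_le_mul_of_nonneg_left (Finset.single_le_sum (f := fun j => ω i j * f1 V i (D i j))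
          (fun j _ => mul_nonneg (hω0 i j) (hf0 i j)) (Finset.mem_univ j₀)) hθ
  have hnQ0 : ∀ c, 0 ≤ nQ ω D q (u c) := fun c => Finset.sum_nonneg fun τ _ => by
    split_ifs
    · exact ip_self_nonneg _
    · exact le_rfl
  have hx0 : ∀ c, 0 ≤ ∑ i, v i * f1 V i (Qd c i) := fun c => Finset.sum_nonneg fun i _ =>
    mul_nonneg (hv i).le (f1_nonneg V i _ (h c i).Qt (h c i).QQ)
  set a1 : κ → ℝ := fun _ => nrm V with ha1
  set a2 : κ → ℝ := fun c => Real.sqrt (B * ∑ i, v i * f1 V i (Qd c i)) with ha2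
  have h1 : ∑ c, ip V (u c) ≤ ∑ c, (a1 c + a2 c) * Real.sqrt (nQ ω D q (u c) / G₀) :=
    Finset.sum_le_sum fun c _ => one_colourV hne hω0 hω (h c) hDp (hD c) hv hV (hu c) hB0 hG0 hB hG
  have hCS : ∑ c, (a1 c + a2 c) * Real.sqrt (nQ ω D q (u c) / G₀)
      ≤ nrm (a1 + a2) * Real.sqrt ((∑ c, nQ ω D q (u c)) / G₀) := by
    have ha0 : ∀ c, 0 ≤ a1 c + a2 c := fun c => add_nonneg (nrm_nonneg _) (Real.sqrt_nonneg _)
    have h1 : ∀ t, a1 t + a2 t = Real.sqrt ((a1 t + a2 t) * (a1 t + a2 t)) :=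
      fun t => (Real.sqrt_mul_self (ha0 t)).symm
    have h2 := Real.sum_sqrt_mul_sqrt_le (Finset.univ : Finset κ)
      (f := fun t => (a1 t + a2 t) * (a1 t + a2 t)) (g := fun c => nQ ω D q (u c) / G₀)
      (fun t => mul_self_nonneg _) (fun c => div_nonneg (hnQ0 c) hG0.le)
    simp only [← h1] at h2
    refine h2.trans (le_of_eq ?_)
    rw [Finset.sum_div]
    rfl
  refine h1.trans (hCS.trans (mul_le_mul_of_nonneg_right ?_ (Real.sqrt_nonneg _)))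
  refine (nrm_add_le _ _).trans ?_
  rw [add_mul]
  refine add_le_add ?_ ?_
  · apply le_of_eq
    unfold nrm
    simp only [ha1, Finset.sum_const, Finset.card_univ, nsmul_eq_mul]
    rw [Real.sqrt_mul (Nat.cast_nonneg _), Real.sqrt_mul_self (nrm_nonneg V)]
    rfl
  · have e1 : nrm a2 = Real.sqrt (B * ∑ c, ∑ i, v i * f1 V i (Qd c i)) := by
      unfold nrm
      congr 1
      rw [Finset.mul_sum]
      refine Finset.sum_congr rfl fun c _ => ?_
      simp only [ha2]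
      exact Real.mul_self_sqrt (mul_nonneg hB0 (hx0 c))
    have e2 : nrm V = Real.sqrt (ip V V) := rfl
    have hL0 : 0 ≤ ip V V := ip_self_nonneg V
    rw [e1, e2, ← Real.sqrt_mul' _ hL0]
    refine Real.sqrt_le_sqrt ?_
    calc B * ∑ c, ∑ i, v i * f1 V i (Qd c i) ≤ B * (θ * (L * ip V V)) :=
          mul_le_mul_of_nonneg_left (hX.trans (mul_le_mul_of_nonneg_left hYL hθ)) hB0
      _ = _ := by ring

lemma Bv_eq (hω : ∀ i, ω i j₀ = lam i) (L : ℝ) (t : ι → Option J) :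
    Bv ω j₀ v g L t = ∑ s ∈ Finset.univ.filter (fun s : ι → Bool => ∀ i, s i = true → t i = none),
      if cs ω t + us lam s ≤ L ∧ s ≠ (fun _ => false) then pg g s / us v s else 0 := by
  rw [← lab_sum (J := J) t (fun s => if cs ω t + us lam s ≤ L ∧ s ≠ (fun _ => false) then
    pg g s / us v s else 0), Bv]
  refine Finset.sum_congr rfl fun l hl => ?_
  rw [cs_sp hω, (Finset.mem_filter.1 hl).2]

end Run7.h52.CoreG
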