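import Pool.Agent.Run7.h52.CoreA

set_option autoImplicit false
set_option linter.unusedSectionVars false

namespace Run7.h52.CoreW

open Finset Run7.h52.Op Run7.h52.Ker Run7.h52.Core Run7.h52.CoreA

variable {ι : Type} [Fintype ι] [DecidableEq ι] {Ω : ι → Type} [∀ i, Fintype (Ω i)]
  [∀ i, DecidableEq (Ω i)]

/-- weighted size of a labelled set -/
noncomputable def uw (om : ι → ℝ) (τ : ι → Bool) : ℝ := ∑ i, if τ i = true then om i else 0

lemma sum_uw_part (om : ι → ℝ) (a : ∀ i, Ω i) (V : (∀ i, Ω i) → ℝ)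
    (h2 : ∀ i, 2 ≤ Fintype.card (Ω i)) :
    ∑ τ : ι → Bool, uw om τ * ip (part a V τ) (part a V τ)
      = ∑ i, om i * f1 V i (Q (a i)) := by
  have h := weight_parts_all (fun i c => if c = true then Q (a i) else 1 - Q (a i)) ?_ ?_ ?_ V
    (fun i c => if c = true then om i else 0)
  · unfold uw part
    rw [h]
    refine Finset.sum_congr rfl fun i _ => ?_
    rw [← f1_smul, f1]
    congr 3
    simp
  · intro i c; cases c
    · simp [Q_transpose]
    · simp [Q_transpose]
  · intro i c; cases c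
    · simp [H_mul _ (h2 i)]
    · simp [Q_mul_Q _ (h2 i)]
  · intro i; simp

lemma uw_lower {om : ι → ℝ} {lam : ℝ} (hlam : ∀ i, lam ≤ om i) (hlam0 : 0 < lam) (τ : ι → Bool)
    (hτ : τ ≠ fun _ => false) : lam ≤ uw om τ := by
  have : ∃ i, τ i = true := by
    by_contra h
    push Not at h
    exact hτ (funext fun i => by simpa using h i)
  obtain ⟨i, hi⟩ := this
  unfold uw
  have h := Finset.single_le_sum (f := fun i => if τ i = true then om i else 0)
    (s := Finset.univ) (fun j _ => by split_ifs <;> [exact (hlam0.le.trans (hlam j)); exact le_rfl])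
    (Finset.mem_univ i)
  simp only [hi, if_true] at h
  exact (hlam i).trans h

/-- the sum over the small labelled sets -/
noncomputable def BW (Ω : ι → Type) [∀ i, Fintype (Ω i)] (om : ι → ℝ) (L : ℝ) : ℝ :=
  ∑ τ : ι → Bool, if τ ≠ (fun _ => false) ∧ uu' Ω τ ≤ L then gg Ω τ / uw om τ else 0

/-- one colour -/
lemma one_colour {L lam : ℝ} {V : (∀ i, Ω i) → ℝ} (hV : Lev L V) (a : ∀ i, Ω i)
    (h2 : ∀ i, 2 ≤ Fintype.card (Ω i)) (om : ι → ℝ) (hlam : ∀ i, lam ≤ om i) (hlam0 : 0 < lam) :
    nrm (V - SS a V) ≤ (Real.sqrt (BW Ω om L) + 1 / Real.sqrt lam) *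
      Real.sqrt (∑ i, om i * f1 V i (Q (a i))) := by
  classical
  set x := ∑ i, om i * f1 V i (Q (a i)) with hx
  have hpp : ∀ i, (2 : ℝ) ≤ pp Ω i := fun i => by rw [pp]; exact_mod_cast h2 i
  set z : ι → Bool := fun _ => false with hz
  set q : (ι → Bool) → ℝ := fun τ => ip (part a V τ) (part a V τ) with hq
  have hq0 : ∀ τ, 0 ≤ q τ := fun τ => ip_self_nonneg _
  have hxu : ∑ τ, uw om τ * q τ = x := sum_uw_part om a V h2
  have hu0 : ∀ τ, 0 ≤ uw om τ := fun τ => Finset.sum_nonneg fun i _ => by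
    split_ifs
    · exact hlam0.le.trans (hlam i)
    · exact le_rfl
  have hx0 : 0 ≤ x := by rw [← hxu]; exact Finset.sum_nonneg fun τ _ => mul_nonneg (hu0 τ) (hq0 τ)
  -- decomposition
  have hdec : V - SS a V = (V - part a V z) - ∑ τ ∈ Finset.univ.erase z, partC a V τ := by
    have h1 := sum_partC a V
    rw [← Finset.add_sum_erase _ _ (Finset.mem_univ z)] at h1
    have h2 : partC a V z = part a V z := by simp [partC, part, hz]
    rw [h1, h2]; abel
  have hT : nrm (V - SS a V) ≤ nrm (V - part a V z) + nrm (∑ τ ∈ Finset.univ.erase z, partC a V τ) := by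
    rw [hdec]; exact nrm_sub_le _ _
  -- first error
  have hA : nrm (V - part a V z) ≤ 1 / Real.sqrt lam * Real.sqrt x := by
    have h1 : nrm (V - part a V z) ^ 2 = ∑ τ ∈ Finset.univ.erase z, q τ := by
      have e1 := sum_ip_part a V h2
      rw [← Finset.add_sum_erase _ _ (Finset.mem_univ z)] at e1
      have e2 : ip (part a V z) (part a V z) = ip V (part a V z) := by
        refine ip_proj _ ?_ ?_ V
        · intro i; simp [hz, Q_transpose]
        · intro i; simp [hz, H_mul _ (h2 i)]
      have e3 : nrm (V - part a V z) ^ 2 = ip V V - 2 * ip V (part a V z)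
          + ip (part a V z) (part a V z) := by
        rw [nrm_sq]
        unfold ip
        rw [Finset.mul_sum, ← Finset.sum_sub_distrib, ← Finset.sum_add_distrib]
        refine Finset.sum_congr rfl fun y _ => ?_
        rw [Pi.sub_apply]; ring
      rw [e3, ← e2]
      linarith
    have h3 : ∑ τ ∈ Finset.univ.erase z, q τ ≤ x / lam := by
      rw [le_div_iff₀ hlam0, ← hxu, Finset.sum_mul]
      calc ∑ τ ∈ Finset.univ.erase z, q τ * lam ≤ ∑ τ ∈ Finset.univ.erase z, uw om τ * q τ := by
            refine Finset.sum_le_sum fun τ hτ => ?_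
            rw [mul_comm]
            exact mul_le_mul_of_nonneg_right (uw_lower hlam hlam0 τ (Finset.ne_of_mem_erase hτ)) (hq0 τ)
        _ ≤ _ := Finset.sum_le_sum_of_subset_of_nonneg (Finset.erase_subset _ _)
            (fun τ _ _ => mul_nonneg (hu0 τ) (hq0 τ))
    rw [← h1] at h3
    have h4 : nrm (V - part a V z) ≤ Real.sqrt (x / lam) := Real.le_sqrt_of_sq_le h3
    rw [Real.sqrt_div hx0] at h4
    rw [one_div, inv_mul_eq_div]
    exact h4
  -- second error
  have hB : nrm (∑ τ ∈ Finset.univ.erase z, partC a V τ) ≤ Real.sqrt (BW Ω om L) * Real.sqrt x := by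
    have h1 : nrm (∑ τ ∈ Finset.univ.erase z, partC a V τ)
        ≤ ∑ τ ∈ Finset.univ.erase z, nrm (partC a V τ) := nrm_sum_le _ _
    have h3 : ∀ τ ∈ Finset.univ.erase z, nrm (partC a V τ)
        = Real.sqrt (if uu' Ω τ ≤ L then gg Ω τ / uw om τ else 0) * Real.sqrt (uw om τ * q τ) := by
      intro τ hτ
      have hup : 0 < uw om τ :=
        hlam0.trans_le (uw_lower hlam hlam0 τ (Finset.ne_of_mem_erase hτ))
      split_ifs with hL
      · have hg : 0 ≤ gg Ω τ := Finset.prod_nonneg fun i _ => by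
          split_ifs
          · have := hpp i; exact div_nonneg zero_le_one (by linarith)
          · exact zero_le_one
        rw [← Real.sqrt_mul (div_nonneg hg hup.le)]
        have e : nrm (partC a V τ) = Real.sqrt (ip (partC a V τ) (partC a V τ)) := rfl
        rw [e, ip_partC a V h2]
        congr 1
        have e2 : gg Ω τ * ip (part a V τ) (part a V τ) = gg Ω τ * q τ := rfl
        rw [e2]
        field_simp
      · rw [partC_zero hV a τ (not_le.1 hL), Real.sqrt_zero, zero_mul]
        simp [nrm]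
    rw [Finset.sum_congr rfl h3] at h1
    refine h1.trans ((Real.sum_sqrt_mul_sqrt_le _ (fun τ => ?_) (fun τ => ?_)).trans ?_)
    · split_ifs
      · refine div_nonneg (Finset.prod_nonneg fun i _ => ?_) (hu0 _)
        split_ifs
        · have := hpp i; exact div_nonneg zero_le_one (by linarith)
        · exact zero_le_one
      · exact le_rfl
    · exact mul_nonneg (hu0 _) (hq0 _)
    · refine mul_le_mul (Real.sqrt_le_sqrt ?_) (Real.sqrt_le_sqrt ?_) (Real.sqrt_nonneg _)
        (Real.sqrt_nonneg _)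
      · unfold BW
        rw [← Finset.add_sum_erase _ _ (Finset.mem_univ z)]
        rw [if_neg (by simp [hz]), zero_add]
        refine le_of_eq (Finset.sum_congr rfl fun τ hτ => ?_)
        have := Finset.ne_of_mem_erase hτ
        simp only [hz] at this
        simp [this]
      · rw [← hxu]
        exact Finset.sum_le_sum_of_subset_of_nonneg (Finset.erase_subset _ _)
            (fun τ _ _ => mul_nonneg (hu0 τ) (hq0 τ))
  calc nrm (V - SS a V) ≤ _ := hT
    _ ≤ (1 / Real.sqrt lam * Real.sqrt x + Real.sqrt (BW Ω om L) * Real.sqrt x) := by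
        gcongr
    _ = _ := by ring

/-- the unsifted part from above -/
lemma unhit_le_S {L Γ : ℝ} {V : (∀ i, Ω i) → ℝ} (hV : Lev L V) (a : ∀ i, Ω i)
    (h2 : ∀ i, 2 ≤ Fintype.card (Ω i))
    (hΓ : ∀ τ : ι → Bool, uu' Ω τ ≤ L → (∏ i, if τ i = true then pp Ω i / (pp Ω i - 1) else 1) ≤ Γ) :
    unhit a V ≤ (Γ * rho Ω) * ip (SS a V) (SS a V) := by
  have h1 : ∀ i, (2 : ℝ) ≤ pp Ω i := fun i => by rw [pp]; exact_mod_cast h2 i
  set X : ∀ i, Bool → Matrix (Ω i) (Ω i) ℝ := fun i c =>
    if c = true then Z (a i) else (E (Ω i) + Cm (a i)) with hX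
  have hA : unhit a V = ∑ τ : ι → Bool, (∏ i, (if τ i = true then 1 else (pp Ω i - 1) / pp Ω i)) *
      ip (op (fun i => X i (τ i)) V) (op (fun i => X i (τ i)) V) := by
    rw [unhit_eq]
    refine ip_op_expand X (fun i c => if c = true then 1 else (pp Ω i - 1) / pp Ω i) _ ?_ V
    intro i
    rw [D_eq _ (h2 i)]
    simp [hX, pp]
  have hB : ip (SS a V) (SS a V) = ∑ τ : ι → Bool, (∏ i : ι, (1 : ℝ)) *
      ip (op (fun i => X i (τ i)) V) (op (fun i => X i (τ i)) V) := by
    rw [SS, ip_self_op]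
    refine ip_op_expand X (fun i c => 1) _ ?_ V
    intro i
    rw [S_sq _ (h2 i)]
    simp [hX]
  rw [hA, hB, Finset.mul_sum]
  refine Finset.sum_le_sum fun τ _ => ?_
  rw [Finset.prod_const_one, one_mul]
  by_cases hL : uu' Ω τ ≤ L
  · refine mul_le_mul_of_nonneg_right ?_ (ip_self_nonneg _)
    have h3 : (∏ i, (if τ i = true then 1 else (pp Ω i - 1) / pp Ω i))
        = (∏ i, if τ i = true then pp Ω i / (pp Ω i - 1) else 1) * rho Ω := by
      rw [rho, ← Finset.prod_mul_distrib]
      refine Finset.prod_congr rfl fun i _ => ?_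
      have := h1 i
      split_ifs
      · have h3 : pp Ω i - 1 ≠ 0 := by intro h; linarith
        have h4 : pp Ω i ≠ 0 := by intro h; linarith
        field_simp
      · rw [one_mul]
    rw [h3]
    exact mul_le_mul_of_nonneg_right (hΓ τ hL) (rho_nonneg h2).le
  · have h0 : op (fun i => X i (τ i)) V = 0 := by
      refine lev_zero hV _ τ ?_ (not_le.1 hL)
      intro i hi b
      simp only [hX, hi, if_true]
      exact sum_Z_row _ b
    rw [h0]
    simp [ip]

end Run7.h52.CoreW
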