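import Pool.Agent.Run7.h52.CoreW

set_option autoImplicit false
set_option linter.unusedSectionVars false

namespace Run7.h52.CoreW

open Finset Run7.h52.Op Run7.h52.Ker Run7.h52.Core Run7.h52.CoreA

variable {ι : Type} [Fintype ι] [DecidableEq ι] {Ω : ι → Type} [∀ i, Fintype (Ω i)]
  [∀ i, DecidableEq (Ω i)]

/-- total of the colours at one coordinate, with multiplicities -/
lemma sum_f1_Q {κ : Type} [Fintype κ] (V : (∀ i, Ω i) → ℝ) (i : ι) (a : κ → Ω i) (m : ℝ)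
    (ha : ∀ b, ((Finset.univ.filter fun k => a k = b).card : ℝ) ≤ m)
    (h2 : 2 ≤ Fintype.card (Ω i)) :
    ∑ k, f1 V i (Q (a k)) ≤ m * ((pp Ω i / (pp Ω i - 1)) * f1 V i (1 - E (Ω i))) := by
  classical
  rw [← f1_smul, pp, ← sum_Q, f1_sum, ← Finset.sum_fiberwise Finset.univ a, Finset.mul_sum]
  refine Finset.sum_le_sum fun b _ => ?_
  have h1 : ∑ k ∈ Finset.univ.filter (fun k => a k = b), f1 V i (Q (a k))
      = ((Finset.univ.filter fun k => a k = b).card : ℝ) * f1 V i (Q b) := by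
    rw [← nsmul_eq_mul, ← Finset.sum_const]
    refine Finset.sum_congr rfl fun k hk => ?_
    rw [(Finset.mem_filter.1 hk).2]
  rw [h1]
  exact mul_le_mul_of_nonneg_right (ha b) (f1_nonneg V i _ (Q_transpose b) (Q_mul_Q b h2))

/-- the sum of the distances -/
lemma all_colours {κ : Type} [Fintype κ] (a : κ → ∀ i, Ω i) (om m : ι → ℝ)
    (ha : ∀ i b, ((Finset.univ.filter fun k => a k i = b).card : ℝ) ≤ m i)
    (hm : ∀ i, om i * m i ≤ Real.log (pp Ω i)) {L lam θ : ℝ} {V : (∀ i, Ω i) → ℝ}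
    (hV : Lev L V) (h2 : ∀ i, 2 ≤ Fintype.card (Ω i)) (hlam : ∀ i, lam ≤ om i)
    (hlam0 : 0 < lam) (hθ : ∀ i, pp Ω i / (pp Ω i - 1) ≤ θ) (hθ0 : 0 ≤ θ) (hL : 0 ≤ L) :
    nrm (fun k => nrm (V - SS (a k) V))
      ≤ (Real.sqrt (BW Ω om L) + 1 / Real.sqrt lam) * Real.sqrt (θ * L) * nrm V := by
  set β := Real.sqrt (BW Ω om L) + 1 / Real.sqrt lam with hβ
  have hβ0 : 0 ≤ β := add_nonneg (Real.sqrt_nonneg _) (by positivity)
  set x : κ → ℝ := fun k => ∑ i, om i * f1 V i (Q (a k i)) with hx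
  have hom : ∀ i, 0 ≤ om i := fun i => hlam0.le.trans (hlam i)
  have hx0 : ∀ k, 0 ≤ x k := fun k => Finset.sum_nonneg fun i _ =>
    mul_nonneg (hom i) (f1_nonneg V i _ (Q_transpose _) (Q_mul_Q _ (h2 i)))
  have hsum : ∑ k, x k ≤ θ * L * nrm V ^ 2 := by
    rw [hx, Finset.sum_comm]
    calc ∑ i, ∑ k, om i * f1 V i (Q (a k i))
        ≤ ∑ i, θ * (Real.log (pp Ω i) * f1 V i (1 - E (Ω i))) := by
          refine Finset.sum_le_sum fun i _ => ?_
          rw [← Finset.mul_sum]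
          have h1 := sum_f1_Q V i (fun k => a k i) (m i) (ha i) (h2 i)
          have hne : Nonempty (Ω i) := Fintype.card_pos_iff.1 (by have := h2 i; omega)
          have h3 : 0 ≤ f1 V i (1 - E (Ω i)) := f1_nonneg V i _ oneE_transpose oneE_mul
          have h4 : 0 ≤ pp Ω i / (pp Ω i - 1) * f1 V i (1 - E (Ω i)) := by
            refine mul_nonneg ?_ h3
            have : (2 : ℝ) ≤ pp Ω i := by rw [pp]; exact_mod_cast h2 i
            exact div_nonneg (by linarith) (by linarith)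
          have hlog : 0 ≤ Real.log (pp Ω i) := log_pp_nonneg i (h2 i)
          calc om i * ∑ k, f1 V i (Q (a k i))
              ≤ om i * (m i * (pp Ω i / (pp Ω i - 1) * f1 V i (1 - E (Ω i)))) :=
                mul_le_mul_of_nonneg_left h1 (hom i)
            _ = (om i * m i) * (pp Ω i / (pp Ω i - 1) * f1 V i (1 - E (Ω i))) := by ring
            _ ≤ Real.log (pp Ω i) * (pp Ω i / (pp Ω i - 1) * f1 V i (1 - E (Ω i))) :=
                mul_le_mul_of_nonneg_right (hm i) h4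
            _ ≤ Real.log (pp Ω i) * (θ * f1 V i (1 - E (Ω i))) :=
                mul_le_mul_of_nonneg_left (mul_le_mul_of_nonneg_right (hθ i) h3) hlog
            _ = _ := by ring
      _ = θ * ∑ i, Real.log (pp Ω i) * f1 V i (1 - E (Ω i)) := by rw [Finset.mul_sum]
      _ ≤ θ * (L * ip V V) := mul_le_mul_of_nonneg_left (level_ineq hV h2) hθ0
      _ = _ := by rw [nrm_eq_ip]; ring
  have hone : ∀ k, nrm (V - SS (a k) V) ≤ β * Real.sqrt (x k) := fun k =>
    one_colour hV (a k) h2 om hlam hlam0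
  have h3 : nrm (fun k => nrm (V - SS (a k) V)) ≤ nrm (fun k => β * Real.sqrt (x k)) := by
    unfold nrm
    refine Real.sqrt_le_sqrt (Finset.sum_le_sum fun k _ => ?_)
    exact mul_self_le_mul_self (Real.sqrt_nonneg _) (hone k)
  have e : nrm (fun k => β * Real.sqrt (x k)) = Real.sqrt (β ^ 2 * ∑ k, x k) := by
    unfold nrm
    congr 1
    rw [Finset.mul_sum]
    refine Finset.sum_congr rfl fun k _ => ?_
    have := Real.mul_self_sqrt (hx0 k)
    calc β * Real.sqrt (x k) * (β * Real.sqrt (x k)) = β ^ 2 * (Real.sqrt (x k) * Real.sqrt (x k)) := by ring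
      _ = _ := by rw [this]
  refine h3.trans ?_
  rw [e, Real.sqrt_mul (sq_nonneg β), Real.sqrt_sq hβ0, mul_assoc]
  refine mul_le_mul_of_nonneg_left ?_ hβ0
  calc Real.sqrt (∑ k, x k) ≤ Real.sqrt (θ * L * nrm V ^ 2) := Real.sqrt_le_sqrt hsum
    _ = _ := by rw [Real.sqrt_mul (mul_nonneg hθ0 hL), Real.sqrt_sq (nrm_nonneg V)]

lemma nrm_const {κ : Type} [Fintype κ] (c : ℝ) (hc : 0 ≤ c) :
    nrm (fun _ : κ => c) = Real.sqrt (Fintype.card κ) * c := by
  have e : nrm (fun _ : κ => c) = Real.sqrt ((Fintype.card κ : ℝ) * (c * c)) := by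
    simp [nrm]
  rw [e, Real.sqrt_mul (Nat.cast_nonneg _), Real.sqrt_mul_self hc]

lemma nrm_mono {κ : Type} [Fintype κ] (u v : κ → ℝ) (hu : ∀ k, 0 ≤ u k) (huv : ∀ k, u k ≤ v k) :
    nrm u ≤ nrm v := by
  unfold nrm
  exact Real.sqrt_le_sqrt (Finset.sum_le_sum fun k _ => mul_self_le_mul_self (hu k) (huv k))

/-- all colours, both sides -/
theorem coreW {κ : Type} [Fintype κ] (a : κ → ∀ i, Ω i) (om m : ι → ℝ)
    (ha : ∀ i b, ((Finset.univ.filter fun k => a k i = b).card : ℝ) ≤ m i)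
    (hm : ∀ i, om i * m i ≤ Real.log (pp Ω i)) {L lam θ Γ E : ℝ} {V : (∀ i, Ω i) → ℝ}
    (hV : Lev L V) (h2 : ∀ i, 2 ≤ Fintype.card (Ω i)) (hlam : ∀ i, lam ≤ om i)
    (hlam0 : 0 < lam) (hθ : ∀ i, pp Ω i / (pp Ω i - 1) ≤ θ) (hθ0 : 0 ≤ θ) (hL : 0 ≤ L)
    (hΓ : ∀ τ : ι → Bool, uu' Ω τ ≤ L → (∏ i, if τ i = true then pp Ω i / (pp Ω i - 1) else 1) ≤ Γ)
    (hΓ0 : 0 ≤ Γ) (hE0 : 0 ≤ E)
    (hE : (Real.sqrt (BW Ω om L) + 1 / Real.sqrt lam) * Real.sqrt (θ * L) ≤ Real.sqrt E) :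
    ((Fintype.card κ : ℝ) - 2 * Real.sqrt (Fintype.card κ * E)) * (rho Ω * ip V V)
        ≤ ∑ k, unhit (a k) V ∧
    ∑ k, unhit (a k) V ≤
      Γ * ((Fintype.card κ : ℝ) + 2 * Real.sqrt (Fintype.card κ * E) + E) * (rho Ω * ip V V) := by
  have hA := all_colours a om m ha hm hV h2 hlam hlam0 hθ hθ0 hL
  have hn := nrm_nonneg V
  have hρ := rho_nonneg (Ω := Ω) h2
  have hA' : nrm (fun k => nrm (V - SS (a k) V)) ≤ Real.sqrt E * nrm V :=
    hA.trans (mul_le_mul_of_nonneg_right hE hn)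
  set N : ℝ := (Fintype.card κ : ℝ) with hN
  have hN0 : 0 ≤ N := Nat.cast_nonneg _
  have hS0 : ∀ k, 0 ≤ nrm (SS (a k) V) := fun k => nrm_nonneg _
  set T : ℝ := nrm (fun k => nrm (SS (a k) V)) with hT
  have hT0 : 0 ≤ T := nrm_nonneg _
  have hT2 : T ^ 2 = ∑ k, ip (SS (a k) V) (SS (a k) V) := by
    rw [hT, nrm_sq]
    refine Finset.sum_congr rfl fun k _ => ?_
    have := nrm_eq_ip (SS (a k) V)
    rw [sq] at this
    exact this
  have hsq : Real.sqrt N * Real.sqrt N = N := Real.mul_self_sqrt hN0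
  have hsE : Real.sqrt E * Real.sqrt E = E := Real.mul_self_sqrt hE0
  have hmul : Real.sqrt (N * E) = Real.sqrt N * Real.sqrt E := Real.sqrt_mul hN0 E
  have hip : ip V V = nrm V ^ 2 := (nrm_eq_ip V).symm
  constructor
  · -- lower
    have h1 : Real.sqrt N * nrm V ≤ T + Real.sqrt E * nrm V := by
      rw [← nrm_const (κ := κ) (nrm V) hn]
      refine (nrm_mono _ ((fun k => nrm (SS (a k) V)) + fun k => nrm (V - SS (a k) V))
        (fun _ => hn) (fun k => ?_)).trans ((nrm_add_le _ _).trans (by linarith))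
      rw [Pi.add_apply]
      calc nrm V = nrm (SS (a k) V + (V - SS (a k) V)) := by congr 1; abel
        _ ≤ _ := nrm_add_le _ _
    have h3 : (N - 2 * Real.sqrt (N * E)) * nrm V ^ 2 ≤ T ^ 2 := by
      rw [hmul]
      rcases le_or_gt (Real.sqrt E) (Real.sqrt N) with h4 | h4
      · have h5 : (Real.sqrt N - Real.sqrt E) * nrm V ≤ T := by linarith
        have h6 : 0 ≤ (Real.sqrt N - Real.sqrt E) * nrm V := mul_nonneg (by linarith) hn
        have h7 := pow_le_pow_left₀ h6 h5 2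
        have h8 : ((Real.sqrt N - Real.sqrt E) * nrm V) ^ 2
            = (N - 2 * (Real.sqrt N * Real.sqrt E) + E) * nrm V ^ 2 := by
          rw [mul_pow]; congr 1; nlinarith
        rw [h8] at h7
        have := sq_nonneg (nrm V)
        nlinarith
      · have h5 : N - 2 * (Real.sqrt N * Real.sqrt E) ≤ 0 := by
          have := Real.sqrt_nonneg N
          nlinarith
        have h6 := sq_nonneg (nrm V)
        have h7 := sq_nonneg T
        nlinarith
    have h9 : rho Ω * T ^ 2 ≤ ∑ k, unhit (a k) V := by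
      rw [hT2, Finset.mul_sum]
      exact Finset.sum_le_sum fun k _ => S_le_unhit (a k) V h2
    calc (N - 2 * Real.sqrt (N * E)) * (rho Ω * ip V V)
        = rho Ω * ((N - 2 * Real.sqrt (N * E)) * nrm V ^ 2) := by rw [hip]; ring
      _ ≤ rho Ω * T ^ 2 := mul_le_mul_of_nonneg_left h3 hρ.le
      _ ≤ _ := h9
  · have h1 : T ≤ Real.sqrt N * nrm V + Real.sqrt E * nrm V := by
      rw [← nrm_const (κ := κ) (nrm V) hn]
      refine (nrm_mono _ ((fun _ => nrm V) + fun k => nrm (V - SS (a k) V))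
        hS0 (fun k => ?_)).trans ((nrm_add_le _ _).trans (by linarith))
      rw [Pi.add_apply]
      calc nrm (SS (a k) V) = nrm (V - (V - SS (a k) V)) := by congr 1; abel
        _ ≤ _ := nrm_sub_le _ _
    have h3 : T ^ 2 ≤ (N + 2 * Real.sqrt (N * E) + E) * nrm V ^ 2 := by
      rw [hmul]
      have h7 := pow_le_pow_left₀ hT0 h1 2
      have h8 : (Real.sqrt N * nrm V + Real.sqrt E * nrm V) ^ 2
          = (N + 2 * (Real.sqrt N * Real.sqrt E) + E) * nrm V ^ 2 := by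
        have h9 : (Real.sqrt N * nrm V + Real.sqrt E * nrm V) ^ 2
          = (Real.sqrt N * Real.sqrt N + 2 * (Real.sqrt N * Real.sqrt E) + Real.sqrt E * Real.sqrt E) * nrm V ^ 2 := by ring
        rw [h9, hsq, hsE]
      rwa [h8] at h7
    have h9 : ∑ k, unhit (a k) V ≤ (Γ * rho Ω) * T ^ 2 := by
      rw [hT2, Finset.mul_sum]
      exact Finset.sum_le_sum fun k _ => unhit_le_S hV (a k) h2 hΓ
    calc ∑ k, unhit (a k) V ≤ (Γ * rho Ω) * T ^ 2 := h9
      _ ≤ (Γ * rho Ω) * ((N + 2 * Real.sqrt (N * E) + E) * nrm V ^ 2) :=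
          mul_le_mul_of_nonneg_left h3 (mul_nonneg hΓ0 hρ.le)
      _ = _ := by rw [hip]; ring

end Run7.h52.CoreW
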