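import Mathlib
import Pool.Agent.Helper256.KM.Mertens

set_option autoImplicit false
set_option linter.unusedSectionVars false

namespace Run7.h52.Count

open Finset

/-- primes up to `y` -/
abbrev PP (y : ℕ) : Finset ℕ := (Finset.Icc 1 y).filter Nat.Prime

/-- `∏_{p ≤ y} (1 - 1/p)` -/
noncomputable def W (y : ℕ) : ℝ := ∏ p ∈ PP y, (1 - 1 / (p : ℝ))

lemma primesBelow_eq (y : ℕ) : (y + 1).primesBelow = PP y := by
  ext p
  rw [Nat.mem_primesBelow, Finset.mem_filter, Finset.mem_Icc]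
  constructor
  · rintro ⟨h1, h2⟩; exact ⟨⟨h2.one_lt.le, by omega⟩, h2⟩
  · rintro ⟨⟨_, h1⟩, h2⟩; exact ⟨by omega, h2⟩

lemma W_pos (y : ℕ) : 0 < W y := by
  refine Finset.prod_pos fun p hp => ?_
  have hp := (Finset.mem_filter.1 hp).2
  have : (1 : ℝ) < p := by exact_mod_cast hp.one_lt
  have : 1 / (p : ℝ) < 1 := by rw [div_lt_one (by linarith)]; exact this
  linarith

/-- the completely multiplicative function `n ^ s` -/
noncomputable def rp (s : ℝ) : ℕ →* ℝ where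
  toFun n := (n : ℝ) ^ s
  map_one' := by simp
  map_mul' m n := by
    push_cast
    exact Real.mul_rpow (Nat.cast_nonneg _) (Nat.cast_nonneg _)

lemma rp_lt {s : ℝ} (hs : s < 0) {p : ℕ} (hp : p.Prime) : ‖rp s p‖ < 1 := by
  have h1 : (1 : ℝ) < p := by exact_mod_cast hp.one_lt
  have h2 : (0 : ℝ) ≤ (p : ℝ) ^ s := by positivity
  change ‖(p : ℝ) ^ s‖ < 1
  rw [Real.norm_of_nonneg h2]
  exact Real.rpow_lt_one_of_one_lt_of_neg h1 hs

open Classical in
/-- sum over the small smooth numbers -/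
noncomputable def Sm (y z : ℕ) : ℝ :=
  ∑ l ∈ (Finset.Icc 1 z).filter (fun l => ∀ p, p.Prime → p ∣ l → p ≤ y), 1 / (l : ℝ)

lemma mem_smooth {y m : ℕ} : m ∈ (y + 1).smoothNumbers ↔ m ≠ 0 ∧ ∀ p, p.Prime → p ∣ m → p ≤ y := by
  constructor
  · intro h
    refine ⟨Nat.ne_zero_of_mem_smoothNumbers h, fun p hp hd => ?_⟩
    have := (Nat.mem_smoothNumbers'.1 h) p hp hd
    omega
  · rintro ⟨_, h⟩
    exact Nat.mem_smoothNumbers'.2 fun p hp hd => by have := h p hp hd; omega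

/-- Rankin bound -/
lemma rankin (y z : ℕ) (hz : 1 ≤ z) {σ : ℝ} (hσ : 0 < σ) (hσ1 : σ < 1) :
    (W y)⁻¹ ≤ Sm y z + (z : ℝ) ^ (-σ) * ∏ p ∈ PP y, (1 - (p : ℝ) ^ (σ - 1))⁻¹ := by
  obtain ⟨hs1, hh1⟩ := EulerProduct.summable_and_hasSum_smoothNumbers_prod_primesBelow_geometric
    (f := rp (-1)) (fun {p} hp => rp_lt (by norm_num) hp) (y + 1)
  obtain ⟨hs2, hh2⟩ := EulerProduct.summable_and_hasSum_smoothNumbers_prod_primesBelow_geometric
    (f := rp (σ - 1)) (fun {p} hp => rp_lt (by linarith) hp) (y + 1)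
  rw [primesBelow_eq] at hh1 hh2
  have e1 : ∏ p ∈ PP y, (1 - rp (-1) p)⁻¹ = (W y)⁻¹ := by
    rw [W, ← Finset.prod_inv_distrib]
    refine Finset.prod_congr rfl fun p _ => ?_
    change (1 - (p : ℝ) ^ (-1 : ℝ))⁻¹ = _
    rw [Real.rpow_neg_one, one_div]
  rw [e1] at hh1
  have hz0 : (0 : ℝ) < z := by exact_mod_cast hz
  have hcomp : ∀ m : (y + 1).smoothNumbers, rp (-1) m ≤
      (if (m : ℕ) ≤ z then rp (-1) m else 0) + (z : ℝ) ^ (-σ) * rp (σ - 1) m := by
    intro m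
    have hm0 : 0 < (m : ℕ) := Nat.pos_of_ne_zero (Nat.ne_zero_of_mem_smoothNumbers m.2)
    have hm1 : (0 : ℝ) < ((m : ℕ) : ℝ) := by exact_mod_cast hm0
    change ((m : ℕ) : ℝ) ^ (-1 : ℝ) ≤ (if (m : ℕ) ≤ z then ((m : ℕ) : ℝ) ^ (-1 : ℝ) else 0)
      + (z : ℝ) ^ (-σ) * ((m : ℕ) : ℝ) ^ (σ - 1)
    split_ifs with h
    · have : 0 ≤ (z : ℝ) ^ (-σ) * ((m : ℕ) : ℝ) ^ (σ - 1) := by positivity
      linarith
    · rw [zero_add]
      have h1 : ((m : ℕ) : ℝ) ^ (-1 : ℝ) = ((m : ℕ) : ℝ) ^ (-σ) * ((m : ℕ) : ℝ) ^ (σ - 1) := by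
        rw [← Real.rpow_add hm1]; congr 1; ring
      rw [h1]
      refine mul_le_mul_of_nonneg_right ?_ (by positivity)
      refine Real.rpow_le_rpow_of_nonpos hz0 ?_ (by linarith)
      exact_mod_cast (not_le.1 h).le
  have hsm : Summable fun m : (y + 1).smoothNumbers => (if (m : ℕ) ≤ z then rp (-1) m else 0) := by
    refine Summable.of_norm_bounded (g := fun m : (y + 1).smoothNumbers => ‖rp (-1) m‖) hs1 fun m => ?_
    split_ifs
    · exact le_rfl
    · simp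
  have h3 := hh1.tsum_eq
  rw [← h3]
  have h4 : ∑' m : (y + 1).smoothNumbers, rp (-1) m ≤ ∑' m : (y + 1).smoothNumbers,
      ((if (m : ℕ) ≤ z then rp (-1) m else 0) + (z : ℝ) ^ (-σ) * rp (σ - 1) m) :=
    hh1.summable.tsum_le_tsum hcomp (hsm.add (hh2.summable.mul_left _))
  refine h4.trans (le_of_eq ?_)
  rw [hsm.tsum_add (hh2.summable.mul_left _), tsum_mul_left, hh2.tsum_eq]
  congr 1
  have h5 := tsum_subtype ((y + 1).smoothNumbers) (fun m : ℕ => if m ≤ z then rp (-1) m else 0)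
  rw [h5, tsum_eq_sum (s := Finset.Icc 1 z)]
  · rw [Sm, Finset.sum_filter]
    refine Finset.sum_congr rfl fun m hm => ?_
    rw [Finset.mem_Icc] at hm
    rw [Set.indicator_apply]
    have : (m ∈ (y + 1).smoothNumbers) ↔ (∀ p, p.Prime → p ∣ m → p ≤ y) := by
      rw [mem_smooth]
      exact ⟨fun h => h.2, fun h => ⟨by omega, h⟩⟩
    by_cases hq : ∀ p, p.Prime → p ∣ m → p ≤ y
    · rw [if_pos (this.2 hq), if_pos hm.2, if_pos hq]
      change (m : ℝ) ^ (-1 : ℝ) = _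
      rw [Real.rpow_neg_one, one_div]
    · rw [if_neg (fun h => hq (this.1 h)), if_neg hq]
  · intro m hm
    rw [Finset.mem_Icc] at hm
    rw [Set.indicator_apply]
    split_ifs with h1 h2
    · have := Nat.ne_zero_of_mem_smoothNumbers h1
      omega
    · rfl
    · rfl

/-- the smooth sum is almost complete -/
lemma smooth_lower : ∀ ε : ℝ, 0 < ε → ∃ A y₀ : ℕ, 1 ≤ A ∧ ∀ y : ℕ, y₀ ≤ y →
    (1 - ε) * (W y)⁻¹ ≤ Sm y (y ^ A) := by
  intro ε hε
  obtain ⟨C, hC⟩ := Pool.Agent.Helper256.KM.mertens_log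
  obtain ⟨A, hA⟩ := exists_nat_ge (12 * (1 + C) + Real.log (1 / ε))
  refine ⟨max A 1, 8, le_max_right _ _, fun y hy => ?_⟩
  have hy0 : (0 : ℝ) < y := by exact_mod_cast (by omega : 0 < y)
  have hlogy : 2 ≤ Real.log y := by
    have h1 : Real.log 8 ≤ Real.log y := Real.log_le_log (by norm_num) (by exact_mod_cast hy)
    have h2 : Real.log 8 = 3 * Real.log 2 := by
      rw [show (8 : ℝ) = 2 ^ 3 by norm_num, Real.log_pow]; norm_num
    have := Real.log_two_gt_d9
    linarith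
  set σ : ℝ := 1 / Real.log y with hσ
  have hσ0 : 0 < σ := by positivity
  have hσ2 : σ ≤ 1 / 2 := by
    rw [hσ]; exact one_div_le_one_div_of_le (by norm_num) hlogy
  have hB1 : 1 ≤ y ^ max A 1 := Nat.one_le_pow _ _ (by omega)
  have hr := rankin y (y ^ max A 1) hB1 hσ0 (by linarith)
  -- compare the products
  have hprod : ∏ p ∈ PP y, (1 - (p : ℝ) ^ (σ - 1))⁻¹ ≤ (W y)⁻¹ * Real.exp (12 * (1 + C)) := by
    have h1 : ∀ p ∈ PP y, (1 - (p : ℝ) ^ (σ - 1))⁻¹ ≤ (1 - 1 / (p : ℝ))⁻¹ *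
        Real.exp (12 * σ * (Real.log p / p)) := by
      intro p hp
      rw [Finset.mem_filter, Finset.mem_Icc] at hp
      have hp1 : (1 : ℝ) < p := by exact_mod_cast hp.2.one_lt
      have hp2 : (2 : ℝ) ≤ p := by exact_mod_cast hp.2.two_le
      have hp0 : (0 : ℝ) < p := by linarith
      have hpy : Real.log p ≤ Real.log y := Real.log_le_log hp0 (by exact_mod_cast hp.1.2)
      have hlp : 0 ≤ Real.log p := Real.log_nonneg hp1.le
      set t := σ * Real.log p with ht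
      have ht0 : 0 ≤ t := mul_nonneg hσ0.le hlp
      have ht1 : t ≤ 1 := by
        rw [ht, hσ, one_div, inv_mul_le_iff₀ (by linarith)]; linarith
      have hps : (p : ℝ) ^ σ = Real.exp t := by
        rw [Real.rpow_def_of_pos hp0, ht, mul_comm]
      have hexp : Real.exp t - 1 ≤ 3 * t := by
        have h2 := Real.add_one_le_exp (-t)
        have h3 : Real.exp t * Real.exp (-t) = 1 := by rw [← Real.exp_add]; simp
        have h4 : Real.exp t ≤ Real.exp 1 := Real.exp_le_exp.2 ht1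
        have h5 := Real.exp_one_lt_d9
        have h6 := Real.exp_pos t
        nlinarith
      have hpq : (p : ℝ) ^ (σ - 1) = (p : ℝ) ^ σ / p := by
        rw [Real.rpow_sub hp0, Real.rpow_one]
      have hq : (p : ℝ) ^ (σ - 1) ≤ 3 / 4 := by
        have h2 : (p : ℝ) ^ (σ - 1) ≤ (p : ℝ) ^ (-(1 / 2) : ℝ) :=
          Real.rpow_le_rpow_of_exponent_le hp1.le (by linarith)
        have h3 : (p : ℝ) ^ (-(1 / 2) : ℝ) ≤ (2 : ℝ) ^ (-(1 / 2) : ℝ) :=
          Real.rpow_le_rpow_of_nonpos (by norm_num) hp2 (by norm_num)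
        have h4 : (2 : ℝ) ^ (-(1 / 2) : ℝ) ≤ 3 / 4 := by
          rw [Real.rpow_neg (by norm_num), ← Real.sqrt_eq_rpow]
          rw [inv_le_comm₀ (by positivity) (by norm_num)]
          rw [show ((3 : ℝ) / 4)⁻¹ = 4 / 3 by norm_num]
          exact Real.le_sqrt_of_sq_le (by norm_num)
        linarith
      have hd : 0 < 1 - (p : ℝ) ^ (σ - 1) := by linarith
      have hd1 : 0 < 1 - 1 / (p : ℝ) := by
        have : 1 / (p : ℝ) < 1 := by rw [div_lt_one hp0]; exact hp1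
        linarith
      rw [inv_le_iff_one_le_mul₀ hd]
      have h7 : (1 - 1 / (p : ℝ)) ≤ Real.exp (12 * σ * (Real.log p / p)) * (1 - (p : ℝ) ^ (σ - 1)) := by
        have h8 : 12 * σ * (Real.log p / p) + 1 ≤ Real.exp (12 * σ * (Real.log p / p)) :=
          Real.add_one_le_exp _
        have h9 : 12 * σ * (Real.log p / p) = 12 * t / p := by rw [ht]; ring
        have h10 : (p : ℝ) ^ (σ - 1) - 1 / p ≤ 3 * t / p := by
          rw [hpq, hps, ← sub_div]
          exact div_le_div_of_nonneg_right hexp hp0.le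
        have h11 : 0 ≤ t / p := div_nonneg ht0 hp0.le
        calc (1 - 1 / (p : ℝ)) ≤ (1 + 12 * t / p) * (1 - (p : ℝ) ^ (σ - 1)) := by
              have : 12 * t / p = 12 * (t / p) := by ring
              have : 3 * t / p = 3 * (t / p) := by ring
              nlinarith
          _ ≤ _ := mul_le_mul_of_nonneg_right (by linarith) hd.le
      calc (1 : ℝ) = (1 - 1 / (p : ℝ))⁻¹ * (1 - 1 / (p : ℝ)) := (inv_mul_cancel₀ hd1.ne').symm
        _ ≤ (1 - 1 / (p : ℝ))⁻¹ * (Real.exp (12 * σ * (Real.log p / p)) * (1 - (p : ℝ) ^ (σ - 1))) :=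
            mul_le_mul_of_nonneg_left h7 (by positivity)
        _ = _ := by ring
    calc ∏ p ∈ PP y, (1 - (p : ℝ) ^ (σ - 1))⁻¹ ≤ ∏ p ∈ PP y, ((1 - 1 / (p : ℝ))⁻¹ *
        Real.exp (12 * σ * (Real.log p / p))) := by
          refine Finset.prod_le_prod (fun p hp => ?_) h1
          rw [Finset.mem_filter, Finset.mem_Icc] at hp
          have hp1 : (1 : ℝ) < p := by exact_mod_cast hp.2.one_lt
          have : (p : ℝ) ^ (σ - 1) < 1 := Real.rpow_lt_one_of_one_lt_of_neg hp1 (by linarith)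
          exact inv_nonneg.2 (by linarith)
      _ = (W y)⁻¹ * Real.exp (12 * σ * ∑ p ∈ PP y, Real.log p / p) := by
          rw [Finset.prod_mul_distrib, ← Real.exp_sum, W, Finset.prod_inv_distrib, Finset.mul_sum]
      _ ≤ (W y)⁻¹ * Real.exp (12 * (1 + C)) := by
          refine mul_le_mul_of_nonneg_left (Real.exp_le_exp.2 ?_) (inv_nonneg.2 (W_pos y).le)
          have h2 := (abs_le.1 (hC y (by omega))).2
          have h3 : ∑ p ∈ PP y, Real.log p / p ≤ Real.log y + C := by linarith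
          have hC0 : 0 ≤ C := (abs_nonneg _).trans (hC y (by omega))
          calc 12 * σ * ∑ p ∈ PP y, Real.log p / p ≤ 12 * σ * (Real.log y + C) :=
                mul_le_mul_of_nonneg_left h3 (by positivity)
            _ = 12 * (1 + σ * C) := by
                rw [hσ]; field_simp
            _ ≤ _ := by nlinarith
  have hzs : ((y ^ max A 1 : ℕ) : ℝ) ^ (-σ) ≤ Real.exp (-(A : ℝ)) := by
    rw [Real.rpow_def_of_pos (by positivity)]
    refine Real.exp_le_exp.2 ?_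
    push_cast
    rw [Real.log_pow]
    have h1 : (A : ℝ) ≤ ((max A 1 : ℕ) : ℝ) := by exact_mod_cast le_max_left A 1
    have h2 : ((max A 1 : ℕ) : ℝ) * Real.log y * (-σ) = -((max A 1 : ℕ) : ℝ) := by
      rw [hσ]; field_simp
    rw [h2]; linarith
  have h5 : ((y ^ max A 1 : ℕ) : ℝ) ^ (-σ) * ∏ p ∈ PP y, (1 - (p : ℝ) ^ (σ - 1))⁻¹ ≤ ε * (W y)⁻¹ := by
    calc ((y ^ max A 1 : ℕ) : ℝ) ^ (-σ) * ∏ p ∈ PP y, (1 - (p : ℝ) ^ (σ - 1))⁻¹
        ≤ Real.exp (-(A : ℝ)) * ((W y)⁻¹ * Real.exp (12 * (1 + C))) := by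
          refine mul_le_mul hzs hprod ?_ (Real.exp_pos _).le
          refine Finset.prod_nonneg fun p hp => ?_
          rw [Finset.mem_filter, Finset.mem_Icc] at hp
          have hp1 : (1 : ℝ) < p := by exact_mod_cast hp.2.one_lt
          have : (p : ℝ) ^ (σ - 1) < 1 := Real.rpow_lt_one_of_one_lt_of_neg hp1 (by linarith)
          exact inv_nonneg.2 (by linarith)
      _ = (W y)⁻¹ * Real.exp (12 * (1 + C) - A) := by
          rw [sub_eq_add_neg, Real.exp_add]; ring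
      _ ≤ (W y)⁻¹ * ε := by
          refine mul_le_mul_of_nonneg_left ?_ (inv_nonneg.2 (W_pos y).le)
          rw [← Real.le_log_iff_exp_le hε]
          rw [one_div, Real.log_inv] at hA
          linarith
      _ = _ := by ring
  linarith

end Run7.h52.Count
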