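import Pool.Agent.Run7.h52.Count2

set_option autoImplicit false
set_option linter.unusedSectionVars false

namespace Run7.h52.Count

open Finset

/-- finite sums over factored numbers -/
lemma sum_factored (S T : Finset ℕ) (hS : ∀ p ∈ S, p.Prime) (hT : ∀ m ∈ T, m ∈ Nat.factoredNumbers S) :
    ∑ m ∈ T, 1 / (m : ℝ) ≤ ∏ p ∈ S, (1 - 1 / (p : ℝ))⁻¹ := by
  obtain ⟨_, h⟩ := EulerProduct.summable_and_hasSum_factoredNumbers_prod_filter_prime_geometric
    (f := rp (-1)) (fun {p} hp => rp_lt (by norm_num) hp) S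
  rw [Finset.filter_true_of_mem hS] at h
  have e1 : ∏ p ∈ S, (1 - rp (-1) p)⁻¹ = ∏ p ∈ S, (1 - 1 / (p : ℝ))⁻¹ := by
    refine Finset.prod_congr rfl fun p _ => ?_
    change (1 - (p : ℝ) ^ (-1 : ℝ))⁻¹ = _
    rw [Real.rpow_neg_one, one_div]
  rw [e1] at h
  have h2 := hasSum_subtype_iff_indicator.1 h
  refine le_trans (le_of_eq ?_) (sum_le_hasSum T (fun i _ => ?_) h2)
  · refine Finset.sum_congr rfl fun m hm => ?_
    rw [Set.indicator_of_mem (hT m hm)]
    change _ = (m : ℝ) ^ (-1 : ℝ)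
    rw [Real.rpow_neg_one, one_div]
  · rw [Set.indicator_apply]
    split_ifs
    · change (0 : ℝ) ≤ (i : ℝ) ^ (-1 : ℝ)
      positivity
    · exact le_rfl

/-- lower bound for the sum of `g` -/
theorem G_ge (A B : Finset ℕ) (hA : ∀ p ∈ A, p.Prime) (hB : ∀ p ∈ B, p.Prime) (x : ℕ)
    (hx : ∀ p, p.Prime → p ≤ x → p ∈ A ∨ p ∈ B) :
    (∏ p ∈ B, (1 - 1 / (p : ℝ))) * Real.log (x + 1) ≤ ∑ s ∈ FF A x, g s := by
  classical
  have hpos : ∀ p : ℕ, p.Prime → 0 < 1 - 1 / (p : ℝ) := by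
    intro p hp
    have : (1 : ℝ) < p := by exact_mod_cast hp.one_lt
    have : 1 / (p : ℝ) < 1 := by rw [div_lt_one (by linarith)]; exact this
    linarith
  have hBpos : 0 < ∏ p ∈ B, (1 - 1 / (p : ℝ)) := Finset.prod_pos fun p hp => hpos p (hB p hp)
  have h0 : Real.log (x + 1) ≤ ∑ n ∈ Finset.Icc 1 x, 1 / (n : ℝ) := by
    have h := log_add_one_le_harmonic x
    rw [harmonic_eq_sum_Icc] at h
    push_cast at h
    simpa [one_div] using h
  have h1 : ∑ n ∈ Finset.Icc 1 x, 1 / (n : ℝ)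
      = ∑ s ∈ FF A x, ∑ n ∈ (Finset.Icc 1 x).filter (fun n => A.filter (fun p => p ∣ n) = s), 1 / (n : ℝ) := by
    rw [Finset.sum_fiberwise_of_maps_to]
    intro n hn
    rw [Finset.mem_Icc] at hn
    rw [FF, Finset.mem_filter, Finset.mem_powerset]
    refine ⟨Finset.filter_subset _ _, ?_⟩
    have h2 : ∏ p ∈ A.filter (fun p => p ∣ n), p ∣ n :=
      Finset.prod_primes_dvd n (fun p hp => (hA p (Finset.mem_filter.1 hp).1).prime)
        (fun p hp => (Finset.mem_filter.1 hp).2)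
    exact (Nat.le_of_dvd (by omega) h2).trans hn.2
  have h2 : ∀ s ∈ FF A x, ∑ n ∈ (Finset.Icc 1 x).filter (fun n => A.filter (fun p => p ∣ n) = s), 1 / (n : ℝ)
      ≤ g s * (∏ p ∈ B, (1 - 1 / (p : ℝ)))⁻¹ := by
    intro s hs
    rw [FF, Finset.mem_filter, Finset.mem_powerset] at hs
    have hsp : ∀ p ∈ s, p.Prime := fun p hp => hA p (hs.1 hp)
    set P : ℕ := ∏ p ∈ s, p with hP
    have hP0 : 0 < P := Finset.prod_pos fun p hp => (hsp p hp).pos
    set F := (Finset.Icc 1 x).filter (fun n => A.filter (fun p => p ∣ n) = s) with hF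
    have hdvd : ∀ n ∈ F, P ∣ n := by
      intro n hn
      rw [hF, Finset.mem_filter] at hn
      rw [hP, ← hn.2]
      exact Finset.prod_primes_dvd n (fun p hp => (hA p (Finset.mem_filter.1 hp).1).prime)
        (fun p hp => (Finset.mem_filter.1 hp).2)
    have hinj : Set.InjOn (fun n => n / P) F := by
      intro n hn m hm h
      have h3 : n / P = m / P := h
      have h4 := Nat.div_mul_cancel (hdvd n hn)
      have h5 := Nat.div_mul_cancel (hdvd m hm)
      rw [← h4, ← h5, h3]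
    have h3 : ∑ n ∈ F, 1 / (n : ℝ) = (1 / (P : ℝ)) * ∑ m ∈ F.image (fun n => n / P), 1 / (m : ℝ) := by
      rw [Finset.sum_image hinj, Finset.mul_sum]
      refine Finset.sum_congr rfl fun n hn => ?_
      have h4 := Nat.div_mul_cancel (hdvd n hn)
      have h5 : (n : ℝ) = ((n / P : ℕ) : ℝ) * P := by exact_mod_cast h4.symm
      conv_lhs => rw [h5]
      rw [one_div_mul_one_div, mul_comm]
    have h4 := sum_factored (s ∪ B) (F.image (fun n => n / P))
      (fun p hp => by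
        rcases Finset.mem_union.1 hp with h | h
        · exact hsp p h
        · exact hB p h)
      (fun m hm => by
        rw [Finset.mem_image] at hm
        obtain ⟨n, hn, rfl⟩ := hm
        have hn' := hn
        rw [hF, Finset.mem_filter, Finset.mem_Icc] at hn'
        refine Nat.mem_factoredNumbers_of_dvd (k := n / P) (m := n) ?_ (Nat.div_dvd_of_dvd (hdvd n hn))
        rw [Nat.mem_factoredNumbers']
        intro p hp hpn
        have hpx : p ≤ x := (Nat.le_of_dvd (by omega) hpn).trans hn'.1.2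
        rw [Finset.mem_union]
        rcases hx p hp hpx with h | h
        · left
          rw [← hn'.2, Finset.mem_filter]
          exact ⟨h, hpn⟩
        · exact Or.inr h)
    rw [h3]
    have hge1 : ∀ p : ℕ, p.Prime → 1 ≤ (1 - 1 / (p : ℝ))⁻¹ := by
      intro p hp
      rw [one_le_inv₀ (hpos p hp)]
      have : (0 : ℝ) < p := by exact_mod_cast hp.pos
      have : 0 ≤ 1 / (p : ℝ) := by positivity
      linarith
    have h5 : ∏ p ∈ s ∪ B, (1 - 1 / (p : ℝ))⁻¹ ≤ (∏ p ∈ s, (1 - 1 / (p : ℝ))⁻¹) * ∏ p ∈ B, (1 - 1 / (p : ℝ))⁻¹ := by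
      rw [← Finset.prod_union_inter]
      refine le_mul_of_one_le_right (Finset.prod_nonneg fun p hp => ?_) ?_
      · rcases Finset.mem_union.1 hp with h | h
        · exact (zero_le_one.trans (hge1 p (hsp p h)))
        · exact (zero_le_one.trans (hge1 p (hB p h)))
      · exact Finset.prod_induction _ (fun y => 1 ≤ y) (fun a b ha hb => one_le_mul_of_one_le_of_one_le ha hb)
          le_rfl (fun p hp => hge1 p (hsp p (Finset.mem_inter.1 hp).1))
    have h6 : (1 / (P : ℝ)) * ∏ p ∈ s, (1 - 1 / (p : ℝ))⁻¹ = g s := by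
      rw [hP, g]
      push_cast
      rw [one_div, ← Finset.prod_inv_distrib, ← Finset.prod_mul_distrib]
      refine Finset.prod_congr rfl fun p hp => ?_
      have hp1 : (1 : ℝ) < p := by exact_mod_cast (hsp p hp).one_lt
      have hp0 : (p : ℝ) ≠ 0 := by linarith
      have hp2 : (p : ℝ) - 1 ≠ 0 := by linarith
      rw [← mul_inv, one_div]
      field_simp
    calc (1 / (P : ℝ)) * ∑ m ∈ F.image (fun n => n / P), 1 / (m : ℝ)
        ≤ (1 / (P : ℝ)) * ((∏ p ∈ s, (1 - 1 / (p : ℝ))⁻¹) * ∏ p ∈ B, (1 - 1 / (p : ℝ))⁻¹) :=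
          mul_le_mul_of_nonneg_left (h4.trans h5) (by positivity)
      _ = g s * (∏ p ∈ B, (1 - 1 / (p : ℝ)))⁻¹ := by
          rw [← mul_assoc, h6, Finset.prod_inv_distrib]
  have h3 : Real.log (x + 1) ≤ (∑ s ∈ FF A x, g s) * (∏ p ∈ B, (1 - 1 / (p : ℝ)))⁻¹ := by
    rw [Finset.sum_mul]
    refine h0.trans ?_
    rw [h1]
    exact Finset.sum_le_sum h2
  calc (∏ p ∈ B, (1 - 1 / (p : ℝ))) * Real.log (x + 1)
      ≤ (∏ p ∈ B, (1 - 1 / (p : ℝ))) * ((∑ s ∈ FF A x, g s) * (∏ p ∈ B, (1 - 1 / (p : ℝ)))⁻¹) :=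
        mul_le_mul_of_nonneg_left h3 hBpos.le
    _ = _ := by field_simp

/-- the product over a few large primes is close to one -/
lemma prod_ge (S : Finset ℕ) {y : ℕ} (hy : 1 < y) (hS : ∀ p ∈ S, p.Prime ∧ y < p) {Λ : ℝ}
    (hΛ : ∑ p ∈ S, Real.log p ≤ Λ) :
    Real.exp (-(Λ / (y * Real.log y))) ≤ ∏ p ∈ S, (1 - 1 / (p : ℝ)) := by
  have hy1 : (1 : ℝ) < y := by exact_mod_cast hy
  have hly : 0 < Real.log y := Real.log_pos hy1
  have h5 : (S.card : ℝ) * Real.log y ≤ Λ := by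
    refine le_trans ?_ hΛ
    rw [← nsmul_eq_mul, ← Finset.sum_const]
    refine Finset.sum_le_sum fun p hp => Real.log_le_log (by linarith) ?_
    exact_mod_cast (hS p hp).2.le
  have h6 : Real.exp (-(S.card * (1 / (y : ℝ)))) ≤ ∏ p ∈ S, (1 - 1 / (p : ℝ)) := by
    have h7 : Real.exp (-(S.card * (1 / (y : ℝ)))) = ∏ p ∈ S, Real.exp (-(1 / (y : ℝ))) := by
      rw [Finset.prod_const, ← Real.exp_nat_mul]; congr 1; ring
    rw [h7]
    refine Finset.prod_le_prod (fun p _ => (Real.exp_pos _).le) (fun p hp => ?_)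
    have hp1 : (y : ℝ) + 1 ≤ p := by exact_mod_cast (hS p hp).2
    rw [Real.exp_neg]
    have h8 := Real.add_one_le_exp (1 / (y : ℝ))
    have h9 : (1 - 1 / (p : ℝ)) = ((p : ℝ) / (p - 1))⁻¹ := by
      rw [inv_div]
      have : (p : ℝ) ≠ 0 := by intro h; linarith
      field_simp
    rw [h9]
    refine inv_anti₀ (div_pos (by linarith) (by linarith)) (le_trans ?_ h8)
    rw [div_le_iff₀ (by linarith)]
    have h10 : (1 / (y : ℝ) + 1) * ((p : ℝ) - 1) = (p : ℝ) + (((p : ℝ) - 1) / y - 1) := by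
      field_simp; ring
    rw [h10]
    have h11 : 1 ≤ ((p : ℝ) - 1) / y := by rw [le_div_iff₀ (by linarith)]; linarith
    linarith
  refine (Real.exp_le_exp.2 ?_).trans h6
  rw [neg_le_neg_iff, mul_one_div, div_le_div_iff₀ (by linarith) (by positivity)]
  nlinarith

end Run7.h52.Count
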