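import Pool.Agent.Run7.h52.X6

set_option autoImplicit false
set_option linter.unusedSectionVars false

namespace Run7.h52.E1

open Finset Filter Run7.h52.Sp Run7.h52.Count Run7.h52.Rough Run7.h52.Asym Run7.h52.AsmV Run7.h52.U5 Run7.h52.U7
  Run7.h52.U8 Run7.h52.U9
  Run7.h52.U10 Run7.h52.U11 Run7.h52.U12 Run7.h52.U13 Run7.h52.U14 Run7.h52.U15 Run7.h52.U16 Run7.h52.U17
  Run7.h52.AsmT Run7.h52.X1 Run7.h52.X2 Run7.h52.X3 Run7.h52.X4 Run7.h52.X5
open Run7.h52.Transfer (HasLevel)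

lemma gaB {e κ B : ℝ} (he0 : 0 < e) (hκ0 : 0 < κ) (hB : 0 ≤ B) (k : ℕ) :
    ∀ᶠ l : ℝ in atTop,
      Real.exp (2 * k * ((B + 1) * l / (⌊e * l⌋₊ * Real.log ⌊e * l⌋₊))) ≤ 1 + κ := by
  have evz : ∀ C : ℝ, ∀ᶠ l : ℝ in atTop, C ≤ Real.log (⌊e * l⌋₊ : ℝ) := fun C =>
    (Real.tendsto_log_atTop.comp (tendsto_natCast_atTop_atTop.comp
      (tendsto_nat_floor_atTop.comp (tendsto_id.const_mul_atTop he0)))).eventually_ge_atTop C
  have hlk : 0 < Real.log (1 + κ) := Real.log_pos (by linarith)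
  filter_upwards [eventually_ge_atTop (2 / e), eventually_ge_atTop (1 : ℝ), evz 1,
    evz (4 * k * (B + 1) / (e * Real.log (1 + κ)))] with l h1 h2 h3 h4
  have hl0 : 0 < l := by linarith
  rw [div_le_iff₀ he0] at h1
  set z : ℕ := ⌊e * l⌋₊ with hz
  have hzu : e * l < z + 1 := Nat.lt_floor_add_one _
  have hzge : e * l / 2 ≤ (z : ℝ) := by linarith
  have hz0 : (0 : ℝ) < z := by
    have : 0 < e * l := by positivity
    linarith
  have hlz0 : 0 < Real.log z := by linarith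
  rw [← Real.le_log_iff_exp_le (by linarith)]
  rw [div_le_iff₀ (by positivity)] at h4
  have h5 : (B + 1) * l / (z * Real.log z) ≤ 2 * (B + 1) / (e * Real.log z) := by
    rw [div_le_div_iff₀ (by positivity) (by positivity)]
    have h6 : (B + 1) * Real.log z * (e * l / 2) ≤ (B + 1) * Real.log z * z :=
      mul_le_mul_of_nonneg_left hzge (by positivity)
    linarith
  have h6 : 2 * (k : ℝ) * ((B + 1) * l / (z * Real.log z)) ≤ 2 * k * (2 * (B + 1) / (e * Real.log z)) :=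
    mul_le_mul_of_nonneg_left h5 (by positivity)
  refine h6.trans ?_
  rw [mul_div_assoc', div_le_iff₀ (by positivity)]
  linarith

/-- the primes dividing a product -/
lemma Bad_mul {a d z₀ z : ℕ} : (Bad (a * d) z₀ z).card ≤ (Bad a z₀ z).card + (Bad d z₀ z).card := by
  classical
  refine (Finset.card_le_card ?_).trans (Finset.card_union_le _ _)
  intro p hp
  rw [Bad, Finset.mem_filter] at hp
  rw [Finset.mem_union]
  rcases (Nat.Prime.dvd_mul (mem_PP.1 hp.1).1).1 hp.2.2 with h | h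
  · exact Or.inl (Finset.mem_filter.2 ⟨hp.1, hp.2.1, h⟩)
  · exact Or.inr (Finset.mem_filter.2 ⟨hp.1, hp.2.1, h⟩)

lemma Bad_W0 {a z₀ z : ℕ} : (Bad (a * W0 z₀) z₀ z).card ≤ (Bad a z₀ z).card := by
  refine Finset.card_le_card ?_
  intro p hp
  rw [Bad, Finset.mem_filter] at hp ⊢
  exact ⟨hp.1, hp.2.1, Nat.Coprime.dvd_of_dvd_mul_right (coprime_W0 (mem_PP.1 hp.1).1 hp.2.1) hp.2.2⟩

/-- number of the admissible shifts -/
lemma HsizeG {e κ δ Cr c cw l B : ℝ} {k : ℕ} (hB : 0 ≤ B) (hp : Par e κ Cr 1 cw k 0 l)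
    (hbad : 4 * Cr / (e * Real.log ⌊e * l⌋₊) + 2 / l ^ (δ / 2) ≤ κ / (B + 1) * c)
    (he0 : 0 < e) (he1 : e ≤ 1 / 2) (hδ0 : 0 < δ) (hCr : 0 < Cr)
    (hC : ∀ z p Y : ℕ, 2 ≤ z → z < p → p.Prime → z ≤ Y / p + 1 → ∀ b n : ℤ,
      ∀ S : Finset ℤ, S ⊆ Finset.Ioc (0 : ℤ) (0 + (Y : ℤ)) → (∀ h ∈ S, (p : ℤ) ∣ n + h) →
      (∀ h ∈ S, ∀ q ∈ PP z, ¬ (q : ℤ) ∣ b + h) →
      (S.card : ℝ) ≤ Cr * (((Y / p + 1 : ℕ) : ℝ) / Real.log z))
    {Y : ℕ} (hY : l ^ (2 + δ) ≤ Y) {b : ℤ}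
    (hrg : c * (Y / Real.log ⌊e * l⌋₊) ≤ rg ⌊e * l⌋₊ (Finset.Ioc (0 : ℤ) (0 + (Y : ℤ))) b)
    {d z : ℕ} (hbc : ((Bad d ⌊e * l⌋₊ z).card : ℝ) * Real.log ⌊e * l⌋₊ ≤ (B + 1) * l) (hκ : 0 ≤ κ)
    (hz : ⌊e * l⌋₊ ≤ z) :
    (1 - κ) * rg ⌊e * l⌋₊ (Finset.Ioc (0 : ℤ) (0 + (Y : ℤ))) b ≤ (Hb (d * W0 ⌊e * l⌋₊) z Y b).card ∧
    ((Hb (d * W0 ⌊e * l⌋₊) z Y b).card : ℝ) ≤ rg ⌊e * l⌋₊ (Finset.Ioc (0 : ℤ) (0 + (Y : ℤ))) b := by
  have hl4 := hp.l4
  have hl0 : 0 < l := by linarith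
  have hl1 : 1 ≤ l := by linarith
  have hz3 := hp.z3
  have hlz1 := hp.lz1
  have hzge := hp.zge
  set z₀ : ℕ := ⌊e * l⌋₊ with hz₀
  set lz := Real.log (z₀ : ℝ) with hlz
  have hlz0 : 0 < lz := by linarith
  have hz0 : (0 : ℝ) < z₀ := by exact_mod_cast (by omega : 0 < z₀)
  have hzl : (z₀ : ℝ) ≤ l := by
    have : (z₀ : ℝ) ≤ e * l := Nat.floor_le (by positivity)
    nlinarith
  have hY0 : (0 : ℝ) ≤ Y := Nat.cast_nonneg _
  constructor
  · set T : ℝ := Y * (4 * Cr / (e * l * lz) + 2 / l ^ (1 + δ / 2)) with hT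
    have hlow := Hb_low (d := d) (z := z) (Y := Y) (z₀ := z₀) (b := b) T ?_
    · have hT0 : 0 ≤ T := by positivity
      have h4 : ((Bad d z₀ z).card : ℝ) ≤ (B + 1) * l / lz := by
        rw [le_div_iff₀ hlz0]; linarith
      have h5 : ((Bad d z₀ z).card : ℝ) * T ≤ κ * (c * (Y / lz)) := by
        calc ((Bad d z₀ z).card : ℝ) * T ≤ (B + 1) * l / lz * T := mul_le_mul_of_nonneg_right h4 hT0
          _ = (B + 1) * ((4 * Cr / (e * lz) + 2 / l ^ (δ / 2)) * (Y / lz)) := by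
              rw [hT, Real.rpow_add hl0, Real.rpow_one]
              have : 0 < l ^ (δ / 2) := by positivity
              field_simp
          _ ≤ (B + 1) * (κ / (B + 1) * c * (Y / lz)) :=
              mul_le_mul_of_nonneg_left (mul_le_mul_of_nonneg_right hbad (by positivity)) (by positivity)
          _ = κ * (c * (Y / lz)) := by field_simp
      have h6 := mul_le_mul_of_nonneg_left hrg hκ
      linarith
    · intro p hpB S hS hS1 hS2
      rw [Bad, Finset.mem_filter] at hpB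
      have hp' := mem_PP.1 hpB.1
      have hp0 : (0 : ℝ) < p := by exact_mod_cast hp'.1.pos
      have hzp : (z₀ : ℝ) ≤ p := by exact_mod_cast hpB.2.1.le
      have h4 := tx_ok (δ := δ) hl4 hδ0 hCr hz3 hzl hC hY hp'.1 hpB.2.1 b b S hS hS1 hS2
      refine h4.trans ?_
      have n1 : 0 ≤ 4 * Cr / (e * l * lz) := by positivity
      have n2 : 0 ≤ 2 / l ^ (1 + δ / 2) := by positivity
      unfold tx
      split_ifs with hpl
      · have h5 : Cr * (2 * Y / (p * lz)) ≤ Cr * (2 * Y / ((e * l / 2) * lz)) := by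
          refine mul_le_mul_of_nonneg_left ?_ hCr.le
          exact div_le_div_of_nonneg_left (by positivity) (by positivity)
            (mul_le_mul_of_nonneg_right (by linarith) hlz0.le)
        refine h5.trans ?_
        rw [hT, mul_add]
        have e1 : Cr * (2 * Y / ((e * l / 2) * lz)) = Y * (4 * Cr / (e * l * lz)) := by
          field_simp
          ring
        rw [e1]
        have := mul_nonneg hY0 n2
        linarith
      · push Not at hpl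
        rw [hT, mul_add]
        have hlp : 0 < l ^ (1 + δ / 2) := by positivity
        have h5 : (Y : ℝ) / p ≤ Y / l ^ (1 + δ / 2) := div_le_div_of_nonneg_left hY0 hlp hpl.le
        have h6 : 1 ≤ (Y : ℝ) / l ^ (1 + δ / 2) := by
          rw [le_div_iff₀ hlp, one_mul]
          exact (Real.rpow_le_rpow_of_exponent_le hl1 (by linarith)).trans hY
        have e1 : (Y : ℝ) * (2 / l ^ (1 + δ / 2)) = Y / l ^ (1 + δ / 2) + Y / l ^ (1 + δ / 2) := by ring
        rw [e1]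
        have := mul_nonneg hY0 n1
        linarith
  · unfold rg
    exact_mod_cast Finset.card_le_card (Hb_surv hz (Dvd.intro_left d rfl))

end Run7.h52.E1
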