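import Pool.Agent.Run7.h52.E9

/-!
The Maier phenomenon for square weights: the two classes.
-/

set_option autoImplicit false
set_option linter.unusedSectionVars false

namespace Run7.h52.E10

open Finset Filter Run7.h52.Count Run7.h52.Rough Run7.h52.Asym Run7.h52.AsmV Run7.h52.U11 Run7.h52.U12 Run7.h52.U19
  Run7.h52.U20 Run7.h52.E3 Run7.h52.E4 Run7.h52.E5 Run7.h52.E8 Run7.h52.E9

/-- Chebyshev's inequality for the two kinds of classes -/
lemma devi {S μ κ δ₁ η D : ℝ} (hS : 0 < S) (hδ : 0 < δ₁) (hη : η = δ₁ / (4 * (1 + δ₁))) (hκη : κ ≤ η)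
    (h1 : (1 - κ) * S ≤ μ) (h2 : μ ≤ S) :
    ((1 + δ₁) * D ≤ S → ∀ r : ℝ, r < (1 + δ₁ / 2) * D → η * S ≤ |r - μ|) ∧
    (S ≤ (1 - δ₁) * D → 0 ≤ D → ∀ r : ℝ, (1 - δ₁ / 2) * D < r → η * S ≤ |r - μ|) := by
  have hη0 : 0 < η := by rw [hη]; positivity
  have hη4 : η * (4 * (1 + δ₁)) = δ₁ := by rw [hη]; field_simp
  constructor
  · intro h3 r hr
    have h4 : η * S ≤ μ - r := by
      have h5 : κ * S ≤ η * S := mul_le_mul_of_nonneg_right hκη hS.le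
      -- (1 + δ₁/2) D ≤ (1 + δ₁/2)/(1+δ₁) S = (1 - δ₁/(2(1+δ₁))) S = (1 - 2η) S
      have h6 : (1 + δ₁ / 2) * D ≤ (1 - 2 * η) * S := by
        have e1 : (1 - 2 * η) * (1 + δ₁) = 1 + δ₁ / 2 := by
          have : (1 - 2 * η) * (1 + δ₁) = 1 + δ₁ - (η * (4 * (1 + δ₁))) / 2 := by ring
          rw [this, hη4]; ring
        rw [← e1, mul_assoc]
        refine mul_le_mul_of_nonneg_left h3 ?_
        have h7 : η ≤ 1 / 4 := by
          rw [hη, div_le_div_iff₀ (by positivity) (by norm_num)]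
          linarith
        linarith
      linarith
    rw [abs_sub_comm]
    exact h4.trans (le_abs_self _)
  · intro h3 hD r hr
    have h4 : η * S ≤ r - μ := by
      have h5 : S ≤ D := by
        have : 0 ≤ δ₁ * D := by positivity
        linarith
      have h6 : η * S ≤ η * D := mul_le_mul_of_nonneg_left h5 hη0.le
      have h7 : η ≤ δ₁ / 2 := by
        rw [hη, div_le_div_iff₀ (by positivity) (by norm_num)]
        have : 0 < δ₁ * δ₁ := by positivity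
        linarith
      have h8 : η * D ≤ δ₁ / 2 * D := mul_le_mul_of_nonneg_right h7 hD
      linarith
    exact h4.trans (le_abs_self _)

/-- **the Maier phenomenon for square weights** -/
theorem twoG {a : ℝ} (ha : 2 < a) : ∃ κ : ℝ, 0 < κ ∧ ∃ δ : ℝ, 0 < δ ∧ δ ≤ 1 ∧ ∀ {θ B ε : ℝ}, 0 < θ → θ < 1 →
    0 ≤ B → 0 < ε →
    ∃ c : ℝ, 0 < c ∧ ∃ T : ℝ, 3 ≤ T ∧ ∀ N : ℕ, T ≤ N → ∀ Y z : ℕ, (Real.log N) ^ a ≤ Y →
    (Y : ℝ) ≤ (Real.log N) ^ (a + κ) → Real.log N ≤ z → (z : ℝ) ≤ (N : ℝ) ^ c →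
    ∃ d : ℕ, 1 ≤ d ∧ (d : ℝ) ≤ (N : ℝ) ^ θ ∧ ∀ g : ℕ, 1 ≤ g → (g : ℝ) ≤ (N : ℝ) ^ B →
    (∀ p : ℕ, p.Prime → (p : ℝ) ≤ Real.log N → ¬ p ∣ g) →
    (∃ b : ℤ, ∀ x : ℤ,
      ∑ n ∈ Finset.Ioc x (x + N), (if (Rg g z Y n : ℝ) < (1 + δ) * (Wg g z * Y) then
        (if (d : ℤ) ∣ n - b then (1 : ℝ) else 0) else 0)
        ≤ ε * ∑ n ∈ Finset.Ioc x (x + N), (if (d : ℤ) ∣ n - b then (1 : ℝ) else 0)) ∧
    (∃ b : ℤ, ∀ x : ℤ,
      ∑ n ∈ Finset.Ioc x (x + N), (if (1 - δ) * (Wg g z * Y) < (Rg g z Y n : ℝ) then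
        (if (d : ℤ) ∣ n - b then (1 : ℝ) else 0) else 0)
        ≤ ε * ∑ n ∈ Finset.Ioc x (x + N), (if (d : ℤ) ∣ n - b then (1 : ℝ) else 0)) := by
  classical
  obtain ⟨κ₀, hκ₀, δ₁, hδ₁, hδ₁1, hM⟩ := maier_cls (by linarith : 0 < a)
  refine ⟨κ₀, hκ₀, δ₁ / 2, by positivity, by linarith, ?_⟩
  intro θ B ε hθ0 hθ1 hB hε
  set e : ℝ := min ((1 - θ) / 12) (θ / 4) with he
  have he0 : 0 < e := lt_min (by linarith) (by linarith)
  have heθ : e ≤ θ / 4 := min_le_right _ _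
  have he1 : e ≤ 1 / 2 := by linarith
  have hθe : 6 * e < 1 - θ := by
    have : e ≤ (1 - θ) / 12 := min_le_left _ _
    linarith
  set η : ℝ := δ₁ / (4 * (1 + δ₁)) with hη
  have hη0 : 0 < η := by positivity
  set κ : ℝ := min (1 / 10) (min η (ε * η ^ 2 / 30)) with hκ
  have hκ0 : 0 < κ := lt_min (by norm_num) (lt_min hη0 (by positivity))
  have hκ1 : κ ≤ 1 / 10 := min_le_left _ _
  have hκη : κ ≤ η := (min_le_right _ _).trans (min_le_left _ _)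
  have hκε : κ ≤ ε * η ^ 2 / 30 := (min_le_right _ _).trans (min_le_right _ _)
  set δ : ℝ := min (a - 2) 1 with hδ
  have hδ0 : 0 < δ := lt_min (by linarith) one_pos
  have hδ1 : δ ≤ 1 := min_le_right _ _
  have hδa : 2 + δ ≤ a := by
    have : δ ≤ a - 2 := min_le_left _ _
    linarith
  obtain ⟨c', hc', hc1, T, hT3, hT⟩ := oneG hB hδ0 hδ1 he0 he1 hθe hθ0 hκ0 hκ1
  have hlogN : Tendsto (fun N : ℕ => Real.log (N : ℝ)) atTop atTop :=
    Real.tendsto_log_atTop.comp tendsto_natCast_atTop_atTop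
  have ev1 := hlogN.eventually (hM e he0 he1)
  have ev2 : ∀ᶠ N : ℕ in atTop, (Real.log (N : ℝ)) ^ (a + κ₀) ≤ N := by
    have h1 := (isLittleO_log_rpow_rpow_atTop (a + κ₀) one_pos).bound (zero_lt_one)
    have h2 := tendsto_natCast_atTop_atTop.eventually h1
    filter_upwards [h2, eventually_ge_atTop 3] with N h3 h4
    have hN : (3 : ℝ) ≤ N := by exact_mod_cast h4
    have hl : 0 ≤ Real.log (N : ℝ) := Real.log_nonneg (by linarith)
    rw [Real.rpow_one, one_mul, Real.norm_of_nonneg (Real.rpow_nonneg hl _), Real.norm_of_nonneg (by linarith)] at h3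
    exact h3
  obtain ⟨N₁, hN₁⟩ := eventually_atTop.1 (ev1.and ev2)
  refine ⟨c', hc', max T N₁, hT3.trans (le_max_left _ _), fun N hN Y z hY1 hY2 hz1 hz2 => ?_⟩
  have hNT : T ≤ N := (le_max_left _ _).trans hN
  have hNN : N₁ ≤ N := by exact_mod_cast (le_max_right _ _).trans hN
  obtain ⟨hm, hYN⟩ := hN₁ N hNN
  have hN3 : (3 : ℝ) ≤ N := hT3.trans hNT
  have hN0 : (0 : ℝ) < N := by linarith
  have hlN1 : 1 ≤ Real.log N := by
    rw [Real.le_log_iff_exp_le hN0]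
    exact Real.exp_one_lt_three.le.trans hN3
  have hel : e * Real.log N ≤ Real.log N := by
    have := mul_le_mul_of_nonneg_right he1 (by linarith : 0 ≤ Real.log N)
    linarith
  have hz₀z : ⌊e * Real.log N⌋₊ ≤ z := by
    refine (Nat.floor_le_floor (hel.trans hz1)).trans ?_
    rw [Nat.floor_natCast]
  have hY2' : (Real.log N) ^ (2 + δ) ≤ Y := (Real.rpow_le_rpow_of_exponent_le hlN1 hδa).trans hY1
  have hYN' : Y ≤ N := by exact_mod_cast hY2.trans hYN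
  have hfl : (⌊e * Real.log N⌋₊ : ℝ) ≤ e * Real.log N := Nat.floor_le (by positivity)
  refine ⟨W0 ⌊e * Real.log N⌋₊, W0_pos _, ?_, fun g hg hgN hgp => ?_⟩
  · have h1 := log_W0 ⌊e * Real.log N⌋₊
    have h0 : (0 : ℝ) < W0 ⌊e * Real.log N⌋₊ := by exact_mod_cast W0_pos _
    rw [← Real.log_le_log_iff h0 (by positivity), Real.log_rpow hN0]
    have h2 : e * Real.log N ≤ θ / 4 * Real.log N := mul_le_mul_of_nonneg_right heθ (by linarith)
    have h3 : 0 ≤ θ * Real.log N := by positivity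
    linarith
  have hgp' : ∀ p ∈ PP ⌊e * Real.log N⌋₊, ¬ p ∣ g := by
    intro p hp
    have hp' := mem_PP.1 hp
    refine hgp p hp'.1 ?_
    have : (p : ℝ) ≤ ⌊e * Real.log N⌋₊ := by exact_mod_cast hp'.2
    linarith
  have hO := hT N hNT Y z hY2' hYN' hz₀z hz2 g hg hgN hgp'
  obtain ⟨⟨bp, hbp⟩, ⟨bm, hbm⟩⟩ := hm Y hY1 hY2
  have hWg0 := Wg_pos g z
  have hW00 := W_pos ⌊e * Real.log N⌋₊
  have hKε : 30 * κ / η ^ 2 ≤ ε := by
    rw [div_le_iff₀ (by positivity)]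
    linarith
  have hsum0 : ∀ x b : ℤ, 0 ≤ ∑ n ∈ Finset.Ioc x (x + N),
      (if ((W0 ⌊e * Real.log N⌋₊ : ℕ) : ℤ) ∣ n - b then (1 : ℝ) else 0) := fun x b =>
    Finset.sum_nonneg fun n _ => by split_ifs <;> norm_num
  have hA : ∀ b : ℤ, ∀ x : ℤ, ∀ n ∈ Finset.Ioc x (x + N),
      (0 : ℝ) ≤ (if ((W0 ⌊e * Real.log N⌋₊ : ℕ) : ℤ) ∣ n - b then (1 : ℝ) else 0) := by
    intro b x n _
    split_ifs <;> norm_num
  constructor
  · refine ⟨g * bp, fun x => ?_⟩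
    obtain ⟨S, μ, hS, hSW, hμ1, hμ2, hv⟩ := hO x bp
    have hSD : (1 + δ₁) * (Wg g z * Y) ≤ S := by
      have h1 := mul_le_mul_of_nonneg_left hbp hWg0.le
      rw [← hSW] at h1
      refine le_of_mul_le_mul_right ?_ hW00
      refine le_trans (le_of_eq ?_) h1
      ring
    have hd := (devi (D := Wg g z * Y) hS hδ₁ hη hκη hμ1 hμ2).1 hSD
    have := cheb' (hA (g * bp) x) (fun n => (Rg g z Y n : ℝ)) hS hη0 hv
      (fun n => (Rg g z Y n : ℝ) < (1 + δ₁ / 2) * (Wg g z * Y)) (fun n _ hn => hd _ hn)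
    exact this.trans (mul_le_mul_of_nonneg_right hKε (hsum0 x _))
  · refine ⟨g * bm, fun x => ?_⟩
    obtain ⟨S, μ, hS, hSW, hμ1, hμ2, hv⟩ := hO x bm
    have hSD : S ≤ (1 - δ₁) * (Wg g z * Y) := by
      have h1 := mul_le_mul_of_nonneg_left hbm hWg0.le
      rw [← hSW] at h1
      refine le_of_mul_le_mul_right ?_ hW00
      refine le_trans h1 (le_of_eq ?_)
      ring
    have hd := (devi (D := Wg g z * Y) hS hδ₁ hη hκη hμ1 hμ2).2 hSD (by positivity)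
    have := cheb' (hA (g * bm) x) (fun n => (Rg g z Y n : ℝ)) hS hη0 hv
      (fun n => (1 - δ₁ / 2) * (Wg g z * Y) < (Rg g z Y n : ℝ)) (fun n _ hn => hd _ hn)
    exact this.trans (mul_le_mul_of_nonneg_right hKε (hsum0 x _))

end Run7.h52.E10
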