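import Pool.Agent.Run7.h52.E1

set_option autoImplicit false
set_option linter.unusedSectionVars false

namespace Run7.h52.E2

open Finset Run7.h52.Sp Run7.h52.Count Run7.h52.Rough Run7.h52.Asym Run7.h52.AsmV Run7.h52.U5 Run7.h52.U7
  Run7.h52.U8 Run7.h52.U9
  Run7.h52.U10 Run7.h52.U11 Run7.h52.U12 Run7.h52.U13 Run7.h52.U14 Run7.h52.U15 Run7.h52.U16 Run7.h52.U17
  Run7.h52.AsmT Run7.h52.X1 Run7.h52.X2 Run7.h52.X3 Run7.h52.X4 Run7.h52.X5 Run7.h52.E1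
open Run7.h52.Transfer (HasLevel)

theorem clsG {δ ζ c : ℝ} {Y0 : ℕ} (hδ0 : 0 < δ) (hδ1 : δ ≤ 1) (hζ : 1 / (2 + δ) ≤ ζ) (hc : 0 < c)
    (hrl : ∀ Y : ℕ, Y0 ≤ Y → ∀ z : ℕ, 2 ≤ z → (z : ℝ) < (Y : ℝ) ^ ζ → ∀ x n : ℤ,
      c * (Y / Real.log z) ≤ rg z (Finset.Ioc x (x + Y)) n)
    {θ e κ c₁ B : ℝ} (hB0 : 0 ≤ B) (hc₁ : 0 < c₁) (he0 : 0 < e) (he1 : e ≤ 1 / 2) (hθe : 6 * e < 1 - θ) (hθ0 : 0 < θ)
    (hκ0 : 0 < κ) (hκ1 : κ ≤ 1 / 10) (k : ℕ) (hk : 1 ≤ k) (hk2 : k ≤ 2) :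
    ∃ (c' : ℝ), 0 < c' ∧ c' ≤ 1 ∧ ∃ T : ℝ, 3 ≤ T ∧ ∀ N : ℕ, T ≤ N → ∀ Y z : ℕ,
    (Real.log N) ^ (2 + δ) ≤ Y → Y ≤ N → ⌊e * Real.log N⌋₊ ≤ z → (z : ℝ) ≤ (N : ℝ) ^ c' →
    3 / κ ≤ c₁ * (Real.log N) ^ (1 + δ) ∧ 3 ≤ ⌊e * Real.log N⌋₊ ∧ Real.log z ≤ Real.log N ∧
    ∀ (α : ℕ) (β : ℤ), 1 ≤ α →
    ((Bad α ⌊e * Real.log N⌋₊ z).card : ℝ) * Real.log ⌊e * Real.log N⌋₊ ≤ B * Real.log N →
    ∀ (d R : ℕ) (V : ℤ → ℝ), 1 ≤ d → 1 ≤ R → (d : ℝ) * (R : ℝ) ^ 2 ≤ (N : ℝ) ^ θ → HasLevel R V →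
    ∀ x b : ℤ,
    c * (Y / Real.log ⌊e * Real.log N⌋₊) ≤ rg ⌊e * Real.log N⌋₊ (Finset.Ioc (0 : ℤ) (0 + (Y : ℤ))) (α * b + β) ∧
    (1 - κ) * rg ⌊e * Real.log N⌋₊ (Finset.Ioc (0 : ℤ) (0 + (Y : ℤ))) (α * b + β)
      ≤ (Hb (α * d * W0 ⌊e * Real.log N⌋₊) z Y (α * b + β)).card ∧
    ((Hb (α * d * W0 ⌊e * Real.log N⌋₊) z Y (α * b + β)).card : ℝ)
      ≤ rg ⌊e * Real.log N⌋₊ (Finset.Ioc (0 : ℤ) (0 + (Y : ℤ))) (α * b + β) ∧
    (1 - 6 * κ) * ((1 - κ) * ((Wr ⌊e * Real.log N⌋₊ z) ^ k *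
        (((Hb (α * d * W0 ⌊e * Real.log N⌋₊) z Y (α * b + β)).card.choose k : ℕ) : ℝ))) *
        ∑ n ∈ Finset.Ioc x (x + N),
          (if ((d * W0 ⌊e * Real.log N⌋₊ : ℕ) : ℤ) ∣ n - b then V n ^ 2 else 0)
      ≤ ∑ n ∈ Finset.Ioc x (x + N), (if ((d * W0 ⌊e * Real.log N⌋₊ : ℕ) : ℤ) ∣ n - b then V n ^ 2 *
        (((SW.survivors (PP z) (Finset.Ioc (0 : ℤ) (0 + (Y : ℤ))) (α * n + β)).card.choose k : ℕ) : ℝ) else 0) ∧
    ∑ n ∈ Finset.Ioc x (x + N), (if ((d * W0 ⌊e * Real.log N⌋₊ : ℕ) : ℤ) ∣ n - b then V n ^ 2 *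
        (((SW.survivors (PP z) (Finset.Ioc (0 : ℤ) (0 + (Y : ℤ))) (α * n + β)).card.choose k : ℕ) : ℝ) else 0)
      ≤ (1 + 10 * κ) * ((1 + κ) * ((Wr ⌊e * Real.log N⌋₊ z) ^ k *
        (((Hb (α * d * W0 ⌊e * Real.log N⌋₊) z Y (α * b + β)).card.choose k : ℕ) : ℝ))) *
        ∑ n ∈ Finset.Ioc x (x + N),
          (if ((d * W0 ⌊e * Real.log N⌋₊ : ℕ) : ℤ) ∣ n - b then V n ^ 2 else 0) := by
  classical
  obtain ⟨Rs, hRs, hs1, hs2, hs3⟩ := exists_Rs κ hκ0 k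
  obtain ⟨Cr, hCr, hC⟩ := tp_ref
  obtain ⟨cw, hcw, hcw1, hWr⟩ := Wr_low
  set q : ℝ := 2 ^ (δ / 2) with hq
  have hq1 : 1 < q := by rw [hq]; exact Real.one_lt_rpow (by norm_num) (by linarith)
  have hEr : (0 : ℝ) < ((8 * Rs + 16 : ℕ) : ℝ) := by positivity
  have hE1 : (1 : ℝ) ≤ ((8 * Rs + 16 : ℕ) : ℝ) := by exact_mod_cast (by omega : 1 ≤ 8 * Rs + 16)
  have hξ : 0 < 1 - θ - 3 * e := by linarith
  have hev := ((par (Cr := Cr) (cW := 1) (cw := cw) he0 he1 hκ0 hκ1 hCr one_pos hcw hcw1 k 0 hk).and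
    (pow_gap hξ hκ0 hcw k)).and
    ((parX (Cr := Cr) (Y0 := (Y0 : ℝ)) he0 hκ0 hδ0 hδ1 hc hcw hq1 hc₁).and
    ((parX (κ := κ / (B + 1)) (Cr := Cr) (Y0 := (Y0 : ℝ)) he0 (by positivity) hδ0 hδ1 hc hcw hq1 hc₁).and
    (gaB he0 hκ0 hB0 k)))
  obtain ⟨l₀, hl₀⟩ := Filter.eventually_atTop.1 hev
  refine ⟨e / (4 * ((8 * Rs + 16 : ℕ) : ℝ)), by positivity, ?_,
    max 3 (Real.exp (max l₀ 4)), le_max_left _ _, ?_⟩
  · rw [div_le_one (by positivity)]; linarith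
  intro N hN Y z hY hYN hz hzN
  have hN3 : (3 : ℝ) ≤ N := (le_max_left _ _).trans hN
  have hN0 : (0 : ℝ) < N := by linarith
  set l := Real.log (N : ℝ) with hl
  have hll : max l₀ 4 ≤ l := by
    rw [hl, Real.le_log_iff_exp_le hN0]; exact (le_max_right _ _).trans hN
  have hexp : Real.exp l = N := Real.exp_log hN0
  obtain ⟨⟨hp, hg1, hg2, hg3⟩, hx, hx', hgB⟩ := hl₀ l ((le_max_left _ _).trans hll)
  have hl4 := hp.l4
  have hl0 : 0 < l := by linarith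
  have hl1 : 1 ≤ l := by linarith
  have hz3 := hp.z3
  have hzk := hp.zk
  have hlz1 := hp.lz1
  have hzge := hp.zge
  set z₀ : ℕ := ⌊e * l⌋₊ with hz₀
  have hlz0 : 0 < Real.log z₀ := by linarith
  have hz0 : (0 : ℝ) < z₀ := by exact_mod_cast (by omega : 0 < z₀)
  have hz01 : (1 : ℝ) < z₀ := by exact_mod_cast (by omega : 1 < z₀)
  have hzle : (z₀ : ℝ) ≤ e * l := Nat.floor_le (by positivity)
  have hzll : (z₀ : ℝ) ≤ l := by nlinarith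
  have hz2 : 2 ≤ z := by omega
  have hzr : (1 : ℝ) < z := by exact_mod_cast (by omega : 1 < z)
  have hY0 : (0 : ℝ) ≤ Y := Nat.cast_nonneg _
  -- the level of the sieve
  obtain ⟨I, hI, hI1, hI2⟩ := Pool.Agent.H154R3.Fund.exists_I z hz2
  set D : ℕ := 2 ^ ((4 * Rs + 8) * 2 ^ I) with hD
  have hD1 : 1 ≤ D := Nat.one_le_two_pow
  have hzD : z ≤ D := by
    refine hI1.trans ?_
    rw [hD]
    refine Nat.pow_le_pow_right (by norm_num) ?_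
    exact Nat.le_mul_of_pos_left _ (by omega)
  have hlzc : Real.log z ≤ e / (4 * ((8 * Rs + 16 : ℕ) : ℝ)) * l := by
    have := Real.log_le_log (by linarith) hzN
    rwa [Real.log_rpow hN0] at this
  have hDl : 4 * Real.log D ≤ e * l := by
    have h1 : Real.log D = (4 * Rs + 8 : ℕ) * Real.log ((2 ^ 2 ^ I : ℕ) : ℝ) := by
      rw [hD, ← Real.log_pow]
      congr 1
      push_cast
      rw [← pow_mul, mul_comm]
    have h2 : Real.log ((2 ^ 2 ^ I : ℕ) : ℝ) ≤ 2 * Real.log z := by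
      have h3 : ((2 ^ 2 ^ I : ℕ) : ℝ) ≤ (z : ℝ) ^ 2 := by exact_mod_cast hI2
      have := Real.log_le_log (by positivity) h3
      rwa [Real.log_pow] at this
    have h3 : ((4 * Rs + 8 : ℕ) : ℝ) * Real.log ((2 ^ 2 ^ I : ℕ) : ℝ) ≤ ((4 * Rs + 8 : ℕ) : ℝ) * (2 * Real.log z) :=
      mul_le_mul_of_nonneg_left h2 (Nat.cast_nonneg _)
    have h4 : ((4 * Rs + 8 : ℕ) : ℝ) * (2 * Real.log z) = ((8 * Rs + 16 : ℕ) : ℝ) * Real.log z := by
      push_cast; ring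
    have h5 : ((8 * Rs + 16 : ℕ) : ℝ) * Real.log z ≤ ((8 * Rs + 16 : ℕ) : ℝ) * (e / (4 * ((8 * Rs + 16 : ℕ) : ℝ)) * l) :=
      mul_le_mul_of_nonneg_left hlzc hEr.le
    have h6 : ((8 * Rs + 16 : ℕ) : ℝ) * (e / (4 * ((8 * Rs + 16 : ℕ) : ℝ)) * l) = e * l / 4 := by
      field_simp
    rw [h1]
    linarith
  have hlzl : Real.log z ≤ l := by
    refine hlzc.trans ?_
    refine mul_le_of_le_one_left hl0.le ?_
    rw [div_le_one (by positivity)]; linarith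
  refine ⟨hx.mu, hz3, hlzl, ?_⟩
  intro α β hα hαB d R V hd hR hdR hV x b
  -- the modulus
  have hWp : 1 ≤ W0 z₀ := W0_pos z₀
  have hW0l : Real.log (W0 z₀ : ℕ) ≤ 2 * e * l := by
    refine (log_W0 z₀).trans ?_
    linarith
  set D₁ : ℕ := d * W0 z₀ with hD₁
  have hD₁1 : 1 ≤ D₁ := Nat.mul_pos hd hWp
  set D₂ : ℕ := α * d * W0 z₀ with hD₂
  have hD₂1 : 1 ≤ D₂ := Nat.mul_pos (Nat.mul_pos hα hd) hWp
  set b₂ : ℤ := α * b + β with hb₂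
  have hBd : ((Bad (α * d) z₀ z).card : ℝ) * Real.log z₀ ≤ (B + 1) * l := by
    have h1 : ((Bad (α * d) z₀ z).card : ℝ) ≤ (Bad α z₀ z).card + (Bad d z₀ z).card := by
      exact_mod_cast Bad_mul
    have h2 := bad_card (z₀ := z₀) (z := z) hd (by omega)
    have h3 : Real.log d ≤ l := by
      have hd0 : (0 : ℝ) < d := by exact_mod_cast hd
      have h4 : (d : ℝ) ≤ (N : ℝ) ^ θ := by
        refine le_trans ?_ hdR
        exact le_mul_of_one_le_right hd0.le (one_le_pow₀ (by exact_mod_cast hR))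
      have := Real.log_le_log hd0 h4
      rw [Real.log_rpow hN0] at this
      nlinarith
    have h4 := mul_le_mul_of_nonneg_right h1 hlz0.le
    linarith
  -- the primes
  obtain ⟨J, hJ1, hJ2⟩ := exists_J (z₀ := z₀) (z := z) (by omega)
  set P := Ps z₀ z D₂ with hP
  have hzRD : z ≤ R * D := hzD.trans (Nat.le_mul_of_pos_left D hR)
  have hCh := chain (Q := R * D) (D := D₂) (by omega : 2 ≤ z₀) hzRD hJ1
  have hPs : ∀ p ∈ P, (p.Prime ∧ z₀ < p ∧ p ≤ z) ∧ ¬ p ∣ D₂ := fun p hp' => mem_Ps.1 hp'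
  have hPp : ∀ p ∈ P, p.Prime ∧ 2 * k ≤ p := fun p hp' => ⟨(hPs p hp').1.1, by have := (hPs p hp').1.2.1; omega⟩
  set ρ := rs0 k P with hρ
  have hρ0 : 0 < ρ := rs0_pos hPp
  have r2 : 1 ≤ ρ * (l / cw) ^ (2 * k) := by
    have h1 := hWr z₀ z hz3 hz
    have hlzz : 0 < Real.log z := Real.log_pos hzr
    have h2 : cw / l ≤ Wr z₀ z := by
      refine le_trans ?_ h1
      rw [div_eq_mul_inv]
      refine mul_le_mul_of_nonneg_left ?_ hcw.le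
      rw [le_div_iff₀ hlzz]
      have h3 : l⁻¹ * Real.log z ≤ l⁻¹ * l := mul_le_mul_of_nonneg_left hlzl (by positivity)
      rw [inv_mul_cancel₀ hl0.ne'] at h3
      exact h3.trans hlz1
    have h3 : (cw / l) ^ (2 * k) ≤ rs0 k P := by
      refine (pow_le_pow_left₀ (by positivity) h2 _).trans (rs0_crude ?_ hzk)
      intro p hp'
      exact mem_Pf.2 (hPs p hp').1
    calc (1 : ℝ) = (cw / l) ^ (2 * k) * (l / cw) ^ (2 * k) := by
          rw [← mul_pow]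
          have : cw / l * (l / cw) = 1 := by field_simp
          rw [this, one_pow]
      _ ≤ _ := mul_le_mul_of_nonneg_right h3 (by positivity)
  obtain ⟨hErR, hErr, hRl, hdl, hN'1⟩ := sizes (N' := nn x N D₁ b) hexp hl0 he0 hθe hκ0 hd hR hD1 hWp hdR hW0l hDl
    hg1 hg2 hg3 r2 hρ0 (nn_ge x N hD₁1 b)
  -- the admissible shifts
  have hYY0 : Y0 ≤ Y := by
    have : (Y0 : ℝ) ≤ Y := hx.y0.trans hY
    exact_mod_cast this
  have hY1 : (1 : ℝ) ≤ Y := by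
    refine le_trans ?_ hY
    exact Real.one_le_rpow hl1 (by linarith)
  have hzY : (z₀ : ℝ) < (Y : ℝ) ^ ζ := by
    have h1 : l = (l ^ (2 + δ)) ^ (1 / (2 + δ)) := by
      rw [← Real.rpow_mul hl0.le, mul_one_div_cancel (by linarith : 2 + δ ≠ 0), Real.rpow_one]
    have h2 : (l ^ (2 + δ)) ^ (1 / (2 + δ)) ≤ (Y : ℝ) ^ (1 / (2 + δ)) :=
      Real.rpow_le_rpow (by positivity) hY (by positivity)
    have h3 : (Y : ℝ) ^ (1 / (2 + δ)) ≤ (Y : ℝ) ^ ζ := Real.rpow_le_rpow_of_exponent_le hY1 hζ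
    have h4 : (z₀ : ℝ) < l := by nlinarith
    linarith
  have hrg := hrl Y hYY0 z₀ (by omega) hzY 0 b₂
  obtain ⟨hH1, hH2⟩ := HsizeG hB0 hp hx'.bad he0 he1 hδ0 hCr hC hY hrg hBd hκ0.le hz
  refine ⟨hrg, hH1, hH2, ?_⟩
  set H := Hb D₂ z Y b₂ with hH
  have hrg0 : 0 ≤ rg z₀ (Finset.Ioc (0 : ℤ) (0 + (Y : ℤ))) b₂ := le_trans (by positivity) hrg
  have hhh : c / 2 * Y / Real.log z₀ ≤ H.card := by
    refine le_trans ?_ hH1
    have h1 : (1 / 2) * rg z₀ (Finset.Ioc (0 : ℤ) (0 + (Y : ℤ))) b₂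
        ≤ (1 - κ) * rg z₀ (Finset.Ioc (0 : ℤ) (0 + (Y : ℤ))) b₂ := mul_le_mul_of_nonneg_right (by linarith) hrg0
    have h2 : c / 2 * Y / Real.log z₀ = (1 / 2) * (c * (Y / Real.log z₀)) := by ring
    rw [h2]
    linarith
  have hcard1 : 1 ≤ H.card := by
    have h1 : (1 : ℝ) ≤ H.card := by
      refine le_trans ?_ hhh
      have h2 : c / 2 * l ^ (1 + δ) ≤ c / 2 * Y / Real.log z₀ := by
        rw [le_div_iff₀ hlz0]
        have h3 : c / 2 * l ^ (1 + δ) * Real.log z₀ ≤ c / 2 * l ^ (1 + δ) * l :=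
          mul_le_mul_of_nonneg_left hp.lzz (by positivity)
        have h4 : c / 2 * l ^ (1 + δ) * l = c / 2 * l ^ (2 + δ) := by
          rw [mul_assoc]
          congr 1
          nth_rewrite 2 [← Real.rpow_one l]
          rw [← Real.rpow_add hl0]; congr 1; ring
        rw [h4] at h3
        have h5 : c / 2 * l ^ (2 + δ) ≤ c / 2 * Y := mul_le_mul_of_nonneg_left hY (by positivity)
        linarith
      exact hx.h1.trans h2
    exact_mod_cast h1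
  have hYl : Real.log Y ≤ l := Real.log_le_log (by linarith) (by exact_mod_cast hYN)
  have svT : ∀ T ⊆ P, SV T D ((D : ℕ) : ℝ) k (2 * (Real.exp (16 * (k : ℝ)) * (1 / 2) ^ (2 * Rs))) :=
    fun T hT => sv_of_fund hs2 hI T fun p hp' => ⟨(hPs p (hT hp')).1.1, (hPs p (hT hp')).1.2.2.trans hI1⟩
  have hη0 : (0 : ℝ) ≤ 2 * (Real.exp (16 * (k : ℝ)) * (1 / 2) ^ (2 * Rs)) := by positivity
  have hWD : W0 z₀ ∣ D₂ := Dvd.intro_left (α * d) rfl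
  have hkz : 1 / 2 ≤ Real.exp (-((k : ℝ) ^ 2 / z₀)) := by
    have := hp.kz
    linarith
  have hrat : ∀ j, rs0 k (Sj z₀ P (j + 1)) * ((cw / 2 ^ (j + 1)) ^ k / 2) ≤ ρ := fun j =>
    ratio hcw hz3 hzk hkz hWr j
  have hsum := sumcond (J := J) (k := k) (r := fun j => rs0 k (Sj z₀ P j)) hq1 hcw hcw1 hk2 (E0 := 16 * Cr / (e * (c / 2) * Real.log z₀)
      + 8 / (c / 2 * l ^ (δ / 2))) (E1 := 4 * (4 / e ^ 2 + 1) / (c / 2 * l)) (E2 := 8 / (c / 2 * l ^ (1 + δ)))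
      (by positivity) (by positivity) (by positivity) (J_bound hδ0 hq hz3 hlz1 hlzl hl1 hJ2) hx.sm hρ0.le hrat
  have main := clsJ (Q := R * D) (d := D₂) (κ := κ) (L := l) (H := H) (Y := Y)
    (V := fun m => V (b + D₁ * m)) (lam := lm q)
    (ε := ep (16 * Cr / (e * (c / 2) * Real.log z₀) + 8 / (c / 2 * l ^ (δ / 2)))
      (4 * (4 / e ^ 2 + 1) / (c / 2 * l)) (8 / (c / 2 * l ^ (1 + δ))))
    hR hD1 rfl hCh (fun p hp' => (hPs p hp').2) hk hz01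
    (fun p hp' => by exact_mod_cast (hPs p hp').1.2.1)
    (fun p hp' => (hPp p hp').2) hη0 hs3 hκ0 hκ1 svT
    hl0 hRl (Hb_sub D₂ z Y b₂) hcard1 (tx Cr l δ z₀ Y)
    (fun p hp' n => tx_ok hl4 hδ0 hCr hz3 hzll hC hY (hPs p hp').1.1 (hPs p hp').1.2.1 b₂ n _
      ((Finset.filter_subset _ _).trans (Hb_sub D₂ z Y b₂)) (fun h hh => (Finset.mem_filter.1 hh).2)
      (fun h hh => by
        have h1 := Hb_surv hz hWD (Finset.mem_filter.1 hh).1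
        rw [SW.survivors, Finset.mem_filter] at h1
        exact h1.2))
    (fun j _ => ep_nonneg (by positivity) (by positivity) (by positivity) j)
    (fun j _ => lm_one hq1 j) (lm_sum hq1 J)
    (fun j _ p hp' => by
      rw [Finset.mem_sdiff] at hp'
      exact epsX hk2 he0 hCr (by positivity) hl4 hδ0 hz3 hzge hY hx.d1 hx.d2 hhh j p (mem_Sj.1 hp'.1).2)
    (level_prog hV D₁ b) b₂ (m0 x D₁ b) (nn x N D₁ b) hErr hErR hp.ga
    (by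
      refine le_trans (Real.exp_le_exp.2 ?_) hp.df
      refine mul_le_mul_of_nonneg_left ?_ (by positivity)
      refine div_le_div_of_nonneg_right ?_ (by positivity)
      exact mul_le_mul_of_nonneg_left hYl (by positivity))
    hsum
  -- the main term
  have hlow : (1 - κ) * (Wr z₀ z) ^ k ≤ ρ := by
    have h1 := rs0_low (k := k) (z₀ := z₀) (z := z) (T := P) (fun p hp' => mem_Pf.2 (hPs p hp').1) hzk (by omega) hz
    refine le_trans ?_ h1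
    have := mul_le_mul_of_nonneg_left hp.kz (pow_pos (Wr_pos z₀ z) k).le
    linarith
  have hupp : ρ ≤ (1 + κ) * (Wr z₀ z) ^ k := by
    have hB : (((Bad D₂ z₀ z).card : ℕ) : ℝ) / z₀ ≤ (B + 1) * l / (z₀ * Real.log z₀) := by
      rw [div_le_div_iff₀ hz0 (by positivity)]
      have h0 : ((Bad D₂ z₀ z).card : ℝ) ≤ (Bad (α * d) z₀ z).card := by exact_mod_cast Bad_W0
      have h1 : ((Bad D₂ z₀ z).card : ℝ) * Real.log z₀ ≤ (B + 1) * l :=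
        (mul_le_mul_of_nonneg_right h0 hlz0.le).trans hBd
      have := mul_le_mul_of_nonneg_right h1 hz0.le
      linarith
    have h1 := rs0_up (k := k) (z₀ := z₀) (z := z) (d := D₂) (T := P) (by omega) rfl hzk hB
    refine h1.trans ?_
    have := mul_le_mul_of_nonneg_left hgB (pow_pos (Wr_pos z₀ z) k).le
    linarith
  rw [sum_prog x N hD₁1 b (fun n => V n ^ 2), sum_prog x N hD₁1 b (fun n => V n ^ 2 *
    (((SW.survivors (PP z) (Finset.Ioc (0 : ℤ) (0 + (Y : ℤ))) (α * n + β)).card.choose k : ℕ) : ℝ))]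
  have hS : ∀ j : ℕ, SW.survivors (PP z) (Finset.Ioc (0 : ℤ) (0 + (Y : ℤ))) (α * (b + D₁ * (m0 x D₁ b + j)) + β)
      = Hs D₂ b₂ P H (m0 x D₁ b + j) := by
    intro j
    have e1 : (α : ℤ) * (b + D₁ * (m0 x D₁ b + j)) + β = b₂ + D₂ * (m0 x D₁ b + j) := by
      rw [hb₂, hD₂, hD₁]
      push_cast
      ring
    rw [e1, surv_eq hWD b₂ (m0 x D₁ b + j)]
  simp only [hS]
  obtain ⟨m1, m2⟩ := main
  have hZ0 : 0 ≤ ∑ j ∈ Finset.range (nn x N D₁ b), V (b + D₁ * (m0 x D₁ b + j)) ^ 2 :=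
    Finset.sum_nonneg fun _ _ => sq_nonneg _
  have hC0 : (0 : ℝ) ≤ ((H.card.choose k : ℕ) : ℝ) := Nat.cast_nonneg _
  constructor
  · refine le_trans ?_ m1
    refine mul_le_mul_of_nonneg_right ?_ hZ0
    refine mul_le_mul_of_nonneg_left ?_ (by linarith)
    have := mul_le_mul_of_nonneg_right hlow hC0
    linarith
  · refine m2.trans ?_
    refine mul_le_mul_of_nonneg_right ?_ hZ0
    refine mul_le_mul_of_nonneg_left ?_ (by linarith)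
    have := mul_le_mul_of_nonneg_right hupp hC0
    linarith

end Run7.h52.E2
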