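import Pool.Agent.Run7.h52.X7

set_option autoImplicit false
set_option linter.unusedSectionVars false

namespace Run7.h52.X8

open Finset Run7.h52.Count Run7.h52.Rough Run7.h52.Asym Run7.h52.AsmV Run7.h52.U11 Run7.h52.U12 Run7.h52.U19
  Run7.h52.X7

/-- Chebyshev's inequality -/
lemma cheb {S : Finset ℤ} {A : ℤ → ℝ} (hA : ∀ n ∈ S, 0 ≤ A n) (r : ℤ → ℝ) {κ μ η : ℝ} (hμ : 0 < μ) (hη : 0 < η)
    (hv : ∑ n ∈ S, A n * (r n - μ) ^ 2 ≤ 30 * κ * μ ^ 2 * ∑ n ∈ S, A n) (B : ℤ → Prop) [DecidablePred B]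
    (hB : ∀ n ∈ S, B n → η * μ ≤ |r n - μ|) :
    ∑ n ∈ S, (if B n then A n else 0) ≤ 30 * κ / η ^ 2 * ∑ n ∈ S, A n := by
  have h1 : (η * μ) ^ 2 * ∑ n ∈ S, (if B n then A n else 0) ≤ ∑ n ∈ S, A n * (r n - μ) ^ 2 := by
    rw [Finset.mul_sum]
    refine Finset.sum_le_sum fun n hn => ?_
    by_cases h : B n
    · rw [if_pos h]
      have h2 := hB n hn h
      have h3 : (η * μ) ^ 2 ≤ (r n - μ) ^ 2 := by
        rw [← sq_abs (r n - μ)]
        exact pow_le_pow_left₀ (by positivity) h2 2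
      have := mul_le_mul_of_nonneg_right h3 (hA n hn)
      linarith
    · rw [if_neg h, mul_zero]
      exact mul_nonneg (hA n hn) (sq_nonneg _)
  have h2 := h1.trans hv
  have h3 : 0 < (η * μ) ^ 2 := by positivity
  have h4 : ∑ n ∈ S, (if B n then A n else 0) ≤ (30 * κ * μ ^ 2 * ∑ n ∈ S, A n) / (η * μ) ^ 2 := by
    rw [le_div_iff₀ h3]; linarith
  refine h4.trans (le_of_eq ?_)
  field_simp

/-- shares of the weight -/
theorem defX {δ : ℝ} (hδ0 : 0 < δ) (hδ1 : δ ≤ 1) {θ e κ η G G' : ℝ} (he0 : 0 < e) (he1 : e ≤ 1 / 2)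
    (hθe : 6 * e < 1 - θ) (hθ0 : 0 < θ) (hκ0 : 0 < κ) (hκ1 : κ ≤ 1 / 10) (hη0 : 0 < η) (hη1 : η < 1) :
    ∃ (c' : ℝ), 0 < c' ∧ c' ≤ 1 ∧ ∃ T : ℝ, 3 ≤ T ∧ ∀ N : ℕ, T ≤ N → ∀ Y z : ℕ,
    (Real.log N) ^ (2 + δ) ≤ Y → Y ≤ N → ⌊e * Real.log N⌋₊ ≤ z → (z : ℝ) ≤ (N : ℝ) ^ c' →
    ∀ w : ℤ → ℝ, TW.SquareWeight ((N : ℝ) ^ θ) w → ∀ x : ℤ,
    ((∀ b : ℤ, G * (W ⌊e * Real.log N⌋₊ * Y) ≤ rg ⌊e * Real.log N⌋₊ (Finset.Ioc (0 : ℤ) (0 + (Y : ℤ))) b) →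
      ∑ n ∈ (Finset.Ioc x (x + N)).filter (fun n => (rc z Y n : ℝ) < (1 - η) * ((1 - κ) * (G * (W z * Y)))), w n
        ≤ 30 * κ / η ^ 2 * ∑ n ∈ Finset.Ioc x (x + N), w n) ∧
    ((∀ b : ℤ, rg ⌊e * Real.log N⌋₊ (Finset.Ioc (0 : ℤ) (0 + (Y : ℤ))) b ≤ G' * (W ⌊e * Real.log N⌋₊ * Y)) →
      ∑ n ∈ (Finset.Ioc x (x + N)).filter (fun n => (1 + η) * (G' * (W z * Y)) < (rc z Y n : ℝ)), w n
        ≤ 30 * κ / η ^ 2 * ∑ n ∈ Finset.Ioc x (x + N), w n) := by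
  classical
  obtain ⟨c₁, _, hV⟩ := varX hδ0 hδ1
  obtain ⟨c', hc', hc1, T, hT3, hT⟩ := hV he0 he1 hθe hθ0 hκ0 hκ1
  refine ⟨c', hc', hc1, T, hT3, fun N hN Y z hY hYN hz hzN w hw x => ?_⟩
  obtain ⟨hz3, hcl⟩ := hT N hN Y z hY hYN hz hzN
  obtain ⟨J, d, R, a, V, hJ, hw⟩ := hw
  set z₀ := ⌊e * Real.log N⌋₊ with hz₀
  set I := Finset.Ioc (0 : ℤ) (0 + (Y : ℤ)) with hI
  have hWeq : Wr z₀ z * W z₀ = W z := (Wr_eq hz).symm
  have split : ∀ (j : Fin J) (F : ℤ → ℝ), ∑ n ∈ Finset.Ioc x (x + N), (if (d j : ℤ) ∣ n - a j then F n else 0)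
      = ∑ r ∈ Finset.range (W0 z₀), ∑ n ∈ Finset.Ioc x (x + N),
        (if ((d j * W0 z₀ : ℕ) : ℤ) ∣ n - (a j + d j * (r : ℤ)) then F n else 0) := by
    intro j F
    rw [Finset.sum_comm]
    exact Finset.sum_congr rfl fun n _ => split_class (d j) (W0 z₀) (hJ j).1 (W0_pos z₀) (a j) n (F n)
  have e1 : ∑ n ∈ Finset.Ioc x (x + N), w n
      = ∑ j, ∑ r ∈ Finset.range (W0 z₀), ∑ n ∈ Finset.Ioc x (x + N),
        (if ((d j * W0 z₀ : ℕ) : ℤ) ∣ n - (a j + d j * (r : ℤ)) then V j n ^ 2 else 0) := by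
    simp only [hw]
    rw [Finset.sum_comm]
    exact Finset.sum_congr rfl fun j _ => split j (fun n => V j n ^ 2)
  -- the general estimate
  have gen : ∀ B : ℤ → Prop, (∀ (μ : ℝ) (b : ℤ), 0 < μ → (1 - κ) * (Wr z₀ z * rg z₀ I b) ≤ μ → μ ≤ Wr z₀ z * rg z₀ I b →
      ∀ n, B n → η * μ ≤ |(rc z Y n : ℝ) - μ|) →
      ∑ n ∈ (Finset.Ioc x (x + N)).filter B, w n ≤ 30 * κ / η ^ 2 * ∑ n ∈ Finset.Ioc x (x + N), w n := by
    intro B hB
    have e2 : ∑ n ∈ (Finset.Ioc x (x + N)).filter B, w n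
        = ∑ j, ∑ r ∈ Finset.range (W0 z₀), ∑ n ∈ Finset.Ioc x (x + N),
          (if B n then (if ((d j * W0 z₀ : ℕ) : ℤ) ∣ n - (a j + d j * (r : ℤ)) then V j n ^ 2 else 0) else 0) := by
      rw [Finset.sum_filter]
      simp only [hw]
      have h1 : ∀ n ∈ Finset.Ioc x (x + N), (if B n then ∑ j, (if (d j : ℤ) ∣ n - a j then V j n ^ 2 else 0) else 0)
          = ∑ j, (if (d j : ℤ) ∣ n - a j then (if B n then V j n ^ 2 else 0) else 0) := by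
        intro n _
        split_ifs with h
        · rfl
        · symm
          refine Finset.sum_eq_zero fun j _ => ?_
          split_ifs <;> rfl
      rw [Finset.sum_congr rfl h1, Finset.sum_comm]
      refine Finset.sum_congr rfl fun j _ => ?_
      rw [split j (fun n => if B n then V j n ^ 2 else 0)]
      refine Finset.sum_congr rfl fun r _ => Finset.sum_congr rfl fun n _ => ?_
      split_ifs <;> rfl
    rw [e1, e2, Finset.mul_sum]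
    refine Finset.sum_le_sum fun j _ => ?_
    rw [Finset.mul_sum]
    refine Finset.sum_le_sum fun r _ => ?_
    obtain ⟨μ, _, m2, m3, m4, m5⟩ := hcl (d j) (R j) (V j) (hJ j).1 (hJ j).2.1 (hJ j).2.2.1 (hJ j).2.2.2 x
      (a j + d j * (r : ℤ))
    exact cheb (fun n _ => by split_ifs; positivity; exact le_rfl) (fun n => (rc z Y n : ℝ)) m2 hη0 m5 B
      (fun n _ h => hB μ _ m2 m3 m4 n h)
  have hWr0 := Wr_pos z₀ z
  constructor
  · intro hG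
    refine gen _ ?_
    intro μ b h0 h1 h2 n hn
    have h3 : G * (W z * Y) ≤ Wr z₀ z * rg z₀ I b := by
      have := mul_le_mul_of_nonneg_left (hG b) hWr0.le
      rw [← hWeq]
      linarith
    have h4 : (1 - κ) * (G * (W z * Y)) ≤ μ := (mul_le_mul_of_nonneg_left h3 (by linarith)).trans h1
    have h5 : (1 - η) * ((1 - κ) * (G * (W z * Y))) ≤ (1 - η) * μ := mul_le_mul_of_nonneg_left h4 (by linarith)
    rw [abs_sub_comm]
    refine le_trans ?_ (le_abs_self _)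
    linarith
  · intro hG
    refine gen _ ?_
    intro μ b h0 h1 h2 n hn
    have h3 : Wr z₀ z * rg z₀ I b ≤ G' * (W z * Y) := by
      have := mul_le_mul_of_nonneg_left (hG b) hWr0.le
      rw [← hWeq]
      linarith
    have h4 : μ ≤ G' * (W z * Y) := h2.trans h3
    have h5 : (1 + η) * μ ≤ (1 + η) * (G' * (W z * Y)) := mul_le_mul_of_nonneg_left h4 (by linarith)
    refine le_trans ?_ (le_abs_self _)
    linarith

end Run7.h52.X8
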