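import Pool.Agent.Run7.h52.E2
import Pool.Agent.Run7.h52.X8

set_option autoImplicit false
set_option linter.unusedSectionVars false

namespace Run7.h52.E3

open Finset Run7.h52.Count Run7.h52.Rough Run7.h52.Asym Run7.h52.AsmV Run7.h52.U11 Run7.h52.U12 Run7.h52.U19
  Run7.h52.X5 Run7.h52.X6 Run7.h52.X7 Run7.h52.E1 Run7.h52.E2
open Run7.h52.Transfer (HasLevel)

/-- one class: the variance -/
theorem varG {δ B : ℝ} (hB0 : 0 ≤ B) (hδ0 : 0 < δ) (hδ1 : δ ≤ 1) : ∃ c₁ : ℝ, 0 < c₁ ∧ ∀ {θ e κ : ℝ}, 0 < e → e ≤ 1 / 2 →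
    6 * e < 1 - θ → 0 < θ → 0 < κ → κ ≤ 1 / 10 →
    ∃ (c' : ℝ), 0 < c' ∧ c' ≤ 1 ∧ ∃ T : ℝ, 3 ≤ T ∧ ∀ N : ℕ, T ≤ N → ∀ Y z : ℕ,
    (Real.log N) ^ (2 + δ) ≤ Y → Y ≤ N → ⌊e * Real.log N⌋₊ ≤ z → (z : ℝ) ≤ (N : ℝ) ^ c' →
    3 ≤ ⌊e * Real.log N⌋₊ ∧
    ∀ (α : ℕ) (β : ℤ), 1 ≤ α →
    ((Bad α ⌊e * Real.log N⌋₊ z).card : ℝ) * Real.log ⌊e * Real.log N⌋₊ ≤ B * Real.log N →
    ∀ (d R : ℕ) (V : ℤ → ℝ), 1 ≤ d → 1 ≤ R → (d : ℝ) * (R : ℝ) ^ 2 ≤ (N : ℝ) ^ θ → HasLevel R V →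
    ∀ x b : ℤ, ∃ μ : ℝ, c₁ * (Y / Real.log z) ≤ μ ∧ 0 < μ ∧
      (1 - κ) * (Wr ⌊e * Real.log N⌋₊ z * rg ⌊e * Real.log N⌋₊ (Finset.Ioc (0 : ℤ) (0 + (Y : ℤ))) (α * b + β)) ≤ μ ∧
      μ ≤ Wr ⌊e * Real.log N⌋₊ z * rg ⌊e * Real.log N⌋₊ (Finset.Ioc (0 : ℤ) (0 + (Y : ℤ))) (α * b + β) ∧
      ∑ n ∈ Finset.Ioc x (x + N),
          (if ((d * W0 ⌊e * Real.log N⌋₊ : ℕ) : ℤ) ∣ n - b then V n ^ 2 else 0) * ((rc z Y (α * n + β) : ℝ) - μ) ^ 2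
        ≤ 30 * κ * μ ^ 2 * ∑ n ∈ Finset.Ioc x (x + N),
          (if ((d * W0 ⌊e * Real.log N⌋₊ : ℕ) : ℤ) ∣ n - b then V n ^ 2 else 0) := by
  classical
  set ζ : ℝ := (1 / (2 + δ) + 1 / 2) / 2 with hζ
  have h2δ : 1 / (2 + δ) < 1 / 2 := one_div_lt_one_div_of_lt (by norm_num) (by linarith)
  have h3δ : 1 / 3 ≤ 1 / (2 + δ) := one_div_le_one_div_of_le (by linarith) (by linarith)
  obtain ⟨c, hc, Y0, hrl⟩ := rough_low ζ (by rw [hζ]; linarith) (by rw [hζ]; linarith)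
  obtain ⟨cw, hcw, hcw1, hWr⟩ := Wr_low
  set c₁ : ℝ := c / 2 * cw with hc₁
  have hc₁0 : 0 < c₁ := by positivity
  refine ⟨c₁, hc₁0, ?_⟩
  intro θ e κ he0 he1 hθe hθ0 hκ0 hκ1
  obtain ⟨a1, ha1, ha1', T1, hT1, H1⟩ := clsG hδ0 hδ1 (by rw [hζ]; linarith : 1 / (2 + δ) ≤ ζ) hc hrl hB0 hc₁0 he0 he1
    hθe hθ0 hκ0 hκ1 1 le_rfl (by norm_num)
  obtain ⟨a2, ha2, ha2', T2, hT2, H2⟩ := clsG hδ0 hδ1 (by rw [hζ]; linarith : 1 / (2 + δ) ≤ ζ) hc hrl hB0 hc₁0 he0 he1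
    hθe hθ0 hκ0 hκ1 2 (by norm_num) le_rfl
  refine ⟨min a1 a2, lt_min ha1 ha2, (min_le_left _ _).trans ha1', max T1 T2, hT1.trans (le_max_left _ _), ?_⟩
  intro N hN Y z hY hYN hz hzN
  have hN1 : T1 ≤ N := (le_max_left _ _).trans hN
  have hN2 : T2 ≤ N := (le_max_right _ _).trans hN
  have hN3 : (1 : ℝ) ≤ N := by linarith
  have hzN1 : (z : ℝ) ≤ (N : ℝ) ^ a1 := hzN.trans (Real.rpow_le_rpow_of_exponent_le hN3 (min_le_left _ _))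
  have hzN2 : (z : ℝ) ≤ (N : ℝ) ^ a2 := hzN.trans (Real.rpow_le_rpow_of_exponent_le hN3 (min_le_right _ _))
  obtain ⟨b1, b2, b3, G1⟩ := H1 N hN1 Y z hY hYN hz hzN1
  obtain ⟨_, _, _, G2⟩ := H2 N hN2 Y z hY hYN hz hzN2
  refine ⟨b2, fun α β hα hαB d R V hd hR hdR hV x b => ?_⟩
  obtain ⟨g1, g2, g3, g4, g5⟩ := G1 α β hα hαB d R V hd hR hdR hV x b
  obtain ⟨_, _, _, _, k5⟩ := G2 α β hα hαB d R V hd hR hdR hV x b
  set z₀ := ⌊e * Real.log N⌋₊ with hz₀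
  set h := (Hb (α * d * W0 z₀) z Y (α * b + β)).card with hh
  set wr := Wr z₀ z with hwr
  have hwr0 : 0 < wr := Wr_pos z₀ z
  have hz0r : (1 : ℝ) < z₀ := by exact_mod_cast (by omega : 1 < z₀)
  have hlz0 : 0 < Real.log z₀ := Real.log_pos hz0r
  have hzr : (1 : ℝ) < z := by exact_mod_cast (by omega : 1 < z)
  have hlz : 0 < Real.log z := Real.log_pos hzr
  have hY0 : (0 : ℝ) ≤ Y := Nat.cast_nonneg _
  have hrg0 : 0 ≤ rg z₀ (Finset.Ioc (0 : ℤ) (0 + (Y : ℤ))) (α * b + β) := le_trans (by positivity) g1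
  have hlow : c₁ * (Y / Real.log z) ≤ wr * h := by
    have h1 := hWr z₀ z b2 hz
    have h2 : c / 2 * (Y / Real.log z₀) ≤ h := by
      refine le_trans ?_ g2
      have h3 : (1 / 2) * rg z₀ (Finset.Ioc (0 : ℤ) (0 + (Y : ℤ))) (α * b + β)
          ≤ (1 - κ) * rg z₀ (Finset.Ioc (0 : ℤ) (0 + (Y : ℤ))) (α * b + β) := mul_le_mul_of_nonneg_right (by linarith) hrg0
      linarith
    calc c₁ * (Y / Real.log z) = (cw * (Real.log z₀ / Real.log z)) * (c / 2 * (Y / Real.log z₀)) := by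
          rw [hc₁]; field_simp
      _ ≤ wr * h := mul_le_mul h1 h2 (by positivity) hwr0.le
  have hμ3 : 3 / κ ≤ wr * h := by
    refine b1.trans (le_trans ?_ hlow)
    refine mul_le_mul_of_nonneg_left ?_ hc₁0.le
    have hl0 : 0 < Real.log N := lt_of_lt_of_le hlz b3
    rw [le_div_iff₀ hlz]
    calc (Real.log N) ^ (1 + δ) * Real.log z ≤ (Real.log N) ^ (1 + δ) * Real.log N :=
          mul_le_mul_of_nonneg_left b3 (by positivity)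
      _ = (Real.log N) ^ (2 + δ) := by
          nth_rewrite 2 [← Real.rpow_one (Real.log N)]
          rw [← Real.rpow_add hl0]; congr 1; ring
      _ ≤ Y := hY
  have h30 : 0 < 3 / κ := by positivity
  refine ⟨wr * h, hlow, by linarith, ?_, mul_le_mul_of_nonneg_left g3 hwr0.le, ?_⟩
  · have := mul_le_mul_of_nonneg_left g2 hwr0.le
    linarith
  have conv : ∀ k : ℕ, ∑ n ∈ Finset.Ioc x (x + N), (if ((d * W0 z₀ : ℕ) : ℤ) ∣ n - b then V n ^ 2 *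
        (((SW.survivors (PP z) (Finset.Ioc (0 : ℤ) (0 + (Y : ℤ))) (α * n + β)).card.choose k : ℕ) : ℝ) else 0)
      = ∑ n ∈ Finset.Ioc x (x + N), (if ((d * W0 z₀ : ℕ) : ℤ) ∣ n - b then V n ^ 2 else 0) *
        (((rc z Y (α * n + β)).choose k : ℕ) : ℝ) := fun k =>
    Finset.sum_congr rfl fun n _ => by rw [ite_mul, zero_mul]; rfl
  rw [conv] at g4 g5 k5
  refine var_of (fun n _ => ?_) (fun n => rc z Y (α * n + β)) hκ0 hκ1 hwr0 hμ3 g4 g5 k5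
  split_ifs
  · positivity
  · exact le_rfl

end Run7.h52.E3
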