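import Pool.Agent.Run7.h52.U19

set_option autoImplicit false
set_option linter.unusedSectionVars false

namespace Run7.h52.U20

open Finset Run7.h52.Count Run7.h52.Rough Run7.h52.Asym Run7.h52.AsmV Run7.h52.U14 Run7.h52.U17 Run7.h52.U18
  Run7.h52.U19 Run7.h52.U12

lemma sw_shift {X : ℝ} {w : ℤ → ℝ} (hw : TW.SquareWeight X w) (t : ℤ) :
    TW.SquareWeight X (fun n => w (n - t)) := by
  obtain ⟨J, d, R, a, V, hJ, hw⟩ := hw
  refine ⟨J, d, R, fun j => a j + t, fun j n => V j (n - t),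
    fun j => ⟨(hJ j).1, (hJ j).2.1, (hJ j).2.2.1, ?_⟩, fun n => ?_⟩
  · have h := AsmT.level_prog (hJ j).2.2.2 1 (-t)
    have e : (fun m : ℤ => V j (-t + (1 : ℕ) * m)) = fun n => V j (n - t) := by
      funext m
      congr 1
      push_cast; ring
    rw [e] at h
    exact h
  · beta_reduce
    rw [hw]
    refine Finset.sum_congr rfl fun j _ => ?_
    have : n - t - a j = n - (a j + t) := by ring
    rw [this]

/-- number of the integers in `(n, n + Y]` without a prime factor `≤ z` -/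
noncomputable def RC (z Y : ℕ) (n : ℤ) : ℕ := ((Finset.Ioc n (n + Y)).filter fun m => ∀ p ∈ PP z, ¬ (p : ℤ) ∣ m).card

lemma rc_eq (z Y : ℕ) (n : ℤ) : rc z Y n = RC z Y n := by
  unfold rc RC
  refine Finset.card_bij (fun h _ => n + h) ?_ ?_ ?_
  · intro h hh
    rw [SW.survivors, Finset.mem_filter, Finset.mem_Ioc] at hh
    rw [Finset.mem_filter, Finset.mem_Ioc]
    exact ⟨⟨by omega, by omega⟩, hh.2⟩
  · intro a _ b _ hab
    omega
  · intro m hm
    rw [Finset.mem_filter, Finset.mem_Ioc] at hm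
    refine ⟨m - n, ?_, by ring⟩
    rw [SW.survivors, Finset.mem_filter, Finset.mem_Ioc]
    refine ⟨⟨by omega, by omega⟩, fun p hp => ?_⟩
    have : n + (m - n) = m := by ring
    rw [this]; exact hm.2 p hp

lemma RC_add (z Y1 Y2 : ℕ) (n : ℤ) : RC z (Y1 + Y2) n = RC z Y1 n + RC z Y2 (n + Y1) := by
  unfold RC
  rw [← Finset.card_union_of_disjoint]
  · congr 1
    rw [← Finset.filter_union]
    congr 1
    ext m
    simp only [Finset.mem_union, Finset.mem_Ioc]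
    push_cast
    omega
  · rw [Finset.disjoint_left]
    intro m h1 h2
    rw [Finset.mem_filter, Finset.mem_Ioc] at h1 h2
    omega

lemma sum_shift (x t : ℤ) (N : ℕ) (w F : ℤ → ℝ) :
    ∑ n ∈ Finset.Ioc x (x + N), w n * F (n + t)
      = ∑ n ∈ Finset.Ioc (x + t) (x + t + N), w (n - t) * F n := by
  refine Finset.sum_bij (fun n _ => n + t) ?_ ?_ ?_ ?_
  · intro n hn; rw [Finset.mem_Ioc] at hn ⊢; omega
  · intro a _ b _ h; omega
  · intro n hn
    rw [Finset.mem_Ioc] at hn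
    exact ⟨n - t, by rw [Finset.mem_Ioc]; omega, by ring⟩
  · intro n _
    have : n + t - t = n := by ring
    rw [this]

/-- intervals which are not too long -/
theorem base {θ κ : ℝ} (hθ0 : 0 < θ) (hθ1 : θ < 1) (hκ : 0 < κ) (m : ℕ) (hm : 1 ≤ m) :
    ∃ (A : ℕ) (c : ℝ), 0 < c ∧ ∃ T : ℝ, 3 ≤ T ∧ ∀ N : ℕ, T ≤ N → ∀ Y z : ℕ,
    (Real.log N) ^ A ≤ Y → Y ≤ N → (z : ℝ) ≤ (N : ℝ) ^ c →
    ∀ w : ℤ → ℝ, TW.SquareWeight ((N : ℝ) ^ θ) w → ∀ x : ℤ,
    ∑ n ∈ Finset.Ioc x (x + N), w n * |(rc z Y n : ℝ) - W z * Y| ^ m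
      ≤ κ * (W z * Y) ^ m * ∑ n ∈ Finset.Ioc x (x + N), w n := by
  classical
  -- parameters
  set e : ℝ := (1 - θ) / 12 with he
  have he0 : 0 < e := by rw [he]; linarith
  have he1 : e ≤ 1 / 2 := by rw [he]; linarith
  have hθe : 6 * e < 1 - θ := by rw [he]; linarith
  set κ₁ : ℝ := min 1 (κ ^ 2 / (4 * 2 ^ (2 * m))) with hκ₁
  have hκ₁0 : 0 < κ₁ := by positivity
  have hκ₁1 : κ₁ ≤ 1 := min_le_left _ _
  have hκ₁2 : 4 * κ₁ * 2 ^ (2 * m) ≤ κ ^ 2 := by
    have h1 : κ₁ ≤ κ ^ 2 / (4 * 2 ^ (2 * m)) := min_le_right _ _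
    rw [le_div_iff₀ (by positivity)] at h1
    linarith
  have hB := fun k : ℕ => mainB (θ := θ) he0 he1 hθe hθ0 hκ₁0 (k + 1) (by omega)
  choose A c hc0 hc1 T hT3 hT using hB
  choose Kc hKc0 hKc using fun k : ℕ => pow_choose k κ₁ hκ₁0
  -- small `z`
  set κ₂ : ℝ := min (κ / 1) (1 / 10) with hκ₂
  have hκ₂0 : 0 < κ₂ := by positivity
  have hκ₂1 : κ₂ ≤ 1 / 10 := min_le_right _ _
  have hκ₂κ : κ₂ ≤ κ := by have := min_le_left (κ / 1) (1 / 10 : ℝ); rw [div_one] at this; rwa [hκ₂, div_one]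
  obtain ⟨Rs, hRs, hs1, _, _⟩ := exists_Rs κ₂ hκ₂0 1
  obtain ⟨Cr, hCr, _⟩ := U11.tp_ref
  obtain ⟨cW, hcW, hWl⟩ := AsmA.W_log
  obtain ⟨cw, hcw, hcw1, _⟩ := Wr_low
  obtain ⟨l₀, hl₀⟩ := Filter.eventually_atTop.1 (par he0 he1 hκ₂0 hκ₂1 hCr hcW hcw hcw1 1 (8 * Rs + 16) le_rfl)
  set S := Finset.range (2 * m) with hS
  set As : ℕ := ∑ k ∈ S, A k + (8 * Rs + 16 + 2 * 1 + 5) with hAs
  set cs : ℝ := ∏ k ∈ S, c k with hcs
  have hcs0 : 0 < cs := Finset.prod_pos fun k _ => hc0 k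
  have hcs1 : ∀ k ∈ S, cs ≤ c k := by
    intro k hk
    rw [hcs, ← Finset.mul_prod_erase S c hk]
    exact mul_le_of_le_one_right (hc0 k).le (Finset.prod_le_one (fun j _ => (hc0 j).le) fun j _ => hc1 j)
  have hcs2 : cs ≤ 1 := Finset.prod_le_one (fun j _ => (hc0 j).le) fun j _ => hc1 j
  set Km : ℝ := 1 + ∑ k ∈ Finset.range (2 * m + 1), Kc k / κ₁ with hKm
  have hKm1 : ∀ k ≤ 2 * m, Kc k / κ₁ ≤ Km := by
    intro k hk
    have h1 := Finset.single_le_sum (f := fun k => Kc k / κ₁) (s := Finset.range (2 * m + 1))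
      (fun j _ => div_nonneg (hKc0 j) hκ₁0.le) (Finset.mem_range.2 (by omega : k < 2 * m + 1))
    rw [hKm]
    have h2 : Kc k / κ₁ ≤ ∑ k ∈ Finset.range (2 * m + 1), Kc k / κ₁ := h1
    linarith
  have hKm0 : 1 ≤ Km := by
    rw [hKm]
    have : 0 ≤ ∑ k ∈ Finset.range (2 * m + 1), Kc k / κ₁ :=
      Finset.sum_nonneg fun j _ => div_nonneg (hKc0 j) hκ₁0.le
    linarith
  refine ⟨As, cs, hcs0, 3 + ∑ k ∈ S, T k + Real.exp (max (max l₀ 4) (Km / cW)), ?_, ?_⟩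
  · have h1 : 0 ≤ ∑ k ∈ S, T k := Finset.sum_nonneg fun k _ => by linarith [hT3 k]
    have h2 := Real.exp_pos (max (max l₀ 4) (Km / cW))
    linarith
  intro N hN Y z hY hYN hz w hw x
  have hTs0 : 0 ≤ ∑ k ∈ S, T k := Finset.sum_nonneg fun k _ => by linarith [hT3 k]
  have hexp0 := Real.exp_pos (max (max l₀ 4) (Km / cW))
  have hN3 : (3 : ℝ) ≤ N := by linarith
  have hN0 : (0 : ℝ) < N := by linarith
  have hN1 : (1 : ℝ) ≤ N := by linarith
  set l := Real.log (N : ℝ) with hl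
  have hll : max (max l₀ 4) (Km / cW) ≤ l := by
    rw [hl, Real.le_log_iff_exp_le hN0]; linarith
  have hl0' : l₀ ≤ l := ((le_max_left _ _).trans (le_max_left _ _)).trans hll
  have hl4 : 4 ≤ l := ((le_max_right _ _).trans (le_max_left _ _)).trans hll
  have hlK : Km / cW ≤ l := (le_max_right _ _).trans hll
  have hl0 : 0 < l := by linarith
  have hl1 : 1 ≤ l := by linarith
  have hw0 : ∀ n ∈ Finset.Ioc x (x + (N : ℤ)), 0 ≤ w n := fun n _ => sw_nonneg hw n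
  have hZ0 : 0 ≤ ∑ n ∈ Finset.Ioc x (x + (N : ℤ)), w n := Finset.sum_nonneg hw0
  have hzN : z ≤ N := by
    have : (z : ℝ) ≤ N := hz.trans (by
      calc (N : ℝ) ^ cs ≤ (N : ℝ) ^ (1 : ℝ) := Real.rpow_le_rpow_of_exponent_le hN1 hcs2
        _ = N := Real.rpow_one _)
    exact_mod_cast this
  have hWN : cW / l ≤ W z := by
    refine le_trans ?_ (W_anti hzN)
    rw [div_le_iff₀ hl0]
    exact hWl N (by exact_mod_cast hN3)
  have hWz := W_pos z
  have hYpow : l ^ 2 ≤ Y := (pow_le_pow_right₀ hl1 (by omega)).trans hY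
  set μ : ℝ := W z * Y with hμ
  have hμK : Km ≤ μ := by
    have h1 : cW * l ≤ μ := by
      calc cW * l = cW / l * l ^ 2 := by field_simp
        _ ≤ W z * Y := mul_le_mul hWN hYpow (by positivity) hWz.le
    rw [div_le_iff₀ hcW] at hlK
    linarith
  have hμ1 : 1 ≤ μ := hKm0.trans hμK
  have hμ0 : 0 < μ := by linarith
  rcases lt_or_ge z ⌊e * l⌋₊ with hzs | hzs
  · -- pointwise
    have hp := hl₀ l hl0'
    have hbr := hp.br
    have hlz1 := hp.lz1
    have hz3 := hp.z3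
    have pw : ∀ n : ℤ, |(rc z Y n : ℝ) - μ| ≤ κ₂ * μ := by
      intro n
      have hb := brun Rs hRs z ⌊e * l⌋₊ hzs.le (by omega) Y 0 n
      have h1 : rg z (Finset.Ioc (0 : ℤ) (0 + (Y : ℤ))) n = (rc z Y n : ℝ) := rfl
      rw [h1] at hb
      refine hb.trans ?_
      have h2 : 2 * (2 ^ 24 * (1 / 2 : ℝ) ^ (2 * Rs)) * (W z * Y) ≤ κ₂ / 2 * μ :=
        mul_le_mul_of_nonneg_right hs1 hμ0.le
      have h3 : (⌊e * l⌋₊ : ℝ) ^ (8 * Rs + 16) ≤ κ₂ / 2 * μ := by
        refine hbr.trans (mul_le_mul_of_nonneg_left ?_ (by positivity))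
        have h4 : cW / Real.log ⌊e * l⌋₊ ≤ W z := by
          refine le_trans ?_ (W_anti hzs.le)
          rw [div_le_iff₀ (by linarith)]
          exact hWl _ hz3
        have h5 : l ^ (8 * Rs + 16 + 2 * 1 + 5) ≤ (Y : ℝ) := by
          refine le_trans (pow_le_pow_right₀ hl1 ?_) hY
          rw [hAs]; omega
        exact mul_le_mul h4 h5 (by positivity) hWz.le
      linarith
    have pw2 : ∀ n : ℤ, |(rc z Y n : ℝ) - μ| ^ m ≤ κ * μ ^ m := by
      intro n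
      refine (pow_le_pow_left₀ (abs_nonneg _) (pw n) m).trans ?_
      rw [mul_pow]
      refine mul_le_mul_of_nonneg_right ?_ (by positivity)
      refine le_trans ?_ hκ₂κ
      exact pow_le_of_le_one hκ₂0.le (by linarith) (by omega)
    calc ∑ n ∈ Finset.Ioc x (x + N), w n * |(rc z Y n : ℝ) - μ| ^ m
        ≤ ∑ n ∈ Finset.Ioc x (x + N), w n * (κ * μ ^ m) :=
          Finset.sum_le_sum fun n hn => mul_le_mul_of_nonneg_left (pw2 n) (hw0 n hn)
      _ = _ := by rw [← Finset.sum_mul]; ring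
  · -- moments
    have hcen := central hw0 (rc z Y) hμ0 hκ₁0 hκ₁1 (M := 2 * m) (by omega) (Kc := Kc)
      (fun k _ r => hKc k r)
      (fun k hk1 hk => by
        have h1 := (hKm1 k hk).trans hμK
        rw [div_le_iff₀ hκ₁0] at h1
        have h2 : μ ≤ μ ^ k := le_self_pow₀ hμ1 (by omega)
        have h3 := mul_le_mul_of_nonneg_left h2 hκ₁0.le
        linarith)
      (fun k hk1 hk => by
        obtain ⟨j, rfl⟩ : ∃ j, k = j + 1 := ⟨k - 1, by omega⟩
        have hjS : j ∈ S := Finset.mem_range.2 (by omega)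
        refine hT j N ?_ Y z ?_ hYN hzs ?_ w hw x
        · have h1 := Finset.single_le_sum (f := T) (s := S) (fun k _ => by linarith [hT3 k]) hjS
          linarith
        · refine le_trans (pow_le_pow_right₀ hl1 ?_) hY
          have h1 := Finset.single_le_sum (f := A) (s := S) (fun k _ => Nat.zero_le _) hjS
          rw [hAs]; omega
        · exact hz.trans (Real.rpow_le_rpow_of_exponent_le hN1 (hcs1 j hjS)))
    have h2 := (abs_le.1 hcen).2
    -- from the exponent `2 m` to `m`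
    have h3 : ∀ n : ℤ, |(rc z Y n : ℝ) - μ| ^ m ≤ κ / 2 * μ ^ m + 1 / (2 * κ * μ ^ m) * ((rc z Y n : ℝ) - μ) ^ (2 * m) := by
      intro n
      set a := |(rc z Y n : ℝ) - μ| ^ m with ha
      have ha2 : ((rc z Y n : ℝ) - μ) ^ (2 * m) = a ^ 2 := by
        rw [ha, ← pow_mul, mul_comm m 2, pow_mul, pow_mul, sq_abs]
      rw [ha2]
      have hb : 0 < κ * μ ^ m := by positivity
      have e1 : κ / 2 * μ ^ m + 1 / (2 * κ * μ ^ m) * a ^ 2 - a = (κ * μ ^ m - a) ^ 2 / (2 * (κ * μ ^ m)) := by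
        field_simp
        ring
      have e2 : 0 ≤ (κ * μ ^ m - a) ^ 2 / (2 * (κ * μ ^ m)) := by positivity
      linarith
    have hμm : 0 < μ ^ m := pow_pos hμ0 m
    calc ∑ n ∈ Finset.Ioc x (x + N), w n * |(rc z Y n : ℝ) - μ| ^ m
        ≤ ∑ n ∈ Finset.Ioc x (x + N), (κ / 2 * μ ^ m * w n +
            1 / (2 * κ * μ ^ m) * (w n * ((rc z Y n : ℝ) - μ) ^ (2 * m))) :=
          Finset.sum_le_sum fun n hn => by
            have := mul_le_mul_of_nonneg_left (h3 n) (hw0 n hn)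
            linarith
      _ = κ / 2 * μ ^ m * ∑ n ∈ Finset.Ioc x (x + N), w n +
            1 / (2 * κ * μ ^ m) * ∑ n ∈ Finset.Ioc x (x + N), w n * ((rc z Y n : ℝ) - μ) ^ (2 * m) := by
          rw [Finset.sum_add_distrib, ← Finset.mul_sum, ← Finset.mul_sum]
      _ ≤ κ / 2 * μ ^ m * ∑ n ∈ Finset.Ioc x (x + N), w n +
            1 / (2 * κ * μ ^ m) * (κ ^ 2 * μ ^ (2 * m) * ∑ n ∈ Finset.Ioc x (x + N), w n) := by
          have h5 : 4 * κ₁ * 2 ^ (2 * m) * μ ^ (2 * m) * ∑ n ∈ Finset.Ioc x (x + (N : ℤ)), w n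
              ≤ κ ^ 2 * μ ^ (2 * m) * ∑ n ∈ Finset.Ioc x (x + (N : ℤ)), w n :=
            mul_le_mul_of_nonneg_right (mul_le_mul_of_nonneg_right hκ₁2 (by positivity)) hZ0
          have h6 := mul_le_mul_of_nonneg_left (h2.trans h5) (by positivity : 0 ≤ 1 / (2 * κ * μ ^ m))
          linarith
      _ = κ * μ ^ m * ∑ n ∈ Finset.Ioc x (x + N), w n := by
          have e3 : μ ^ (2 * m) = μ ^ m * μ ^ m := by rw [← pow_add]; congr 1; ring
          rw [e3]
          field_simp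
          ring

end Run7.h52.U20
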