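import Pool.Agent.Run7.h52.E1
import Pool.Agent.Run7.h52.U20

/-!
Progressions: terms free of the small primes which do not divide the modulus, as an average of rough numbers.
-/

set_option autoImplicit false
set_option linter.unusedSectionVars false

namespace Run7.h52.E4

open Finset Run7.h52.Count Run7.h52.Rough Run7.h52.Asym Run7.h52.AsmV Run7.h52.U11 Run7.h52.U12 Run7.h52.U19
  Run7.h52.U20

/-- the primes up to `z` which do not divide `g` -/
def Pn (g z : ℕ) : Finset ℕ := (PP z).filter fun p => ¬ p ∣ g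

/-- the primes up to `z` which divide `g` -/
def Pd (g z : ℕ) : Finset ℕ := (PP z).filter fun p => p ∣ g

/-- the product of the primes up to `z` which do not divide `g` -/
def Mg (g z : ℕ) : ℕ := ∏ p ∈ Pn g z, p

/-- the product of the primes up to `z` which divide `g` -/
def Gg (g z : ℕ) : ℕ := ∏ p ∈ Pd g z, p

/-- number of the terms of a progression of modulus `g` free of the small primes which do not divide `g` -/
noncomputable def Rg (g z Y : ℕ) (n : ℤ) : ℕ :=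
  ((Finset.Ioc (0 : ℤ) (0 + (Y : ℤ))).filter fun h => ∀ p ∈ Pn g z, ¬ (p : ℤ) ∣ n + g * h).card

/-- the expected proportion -/
noncomputable def Wg (g z : ℕ) : ℝ := ∏ p ∈ Pn g z, (1 - 1 / (p : ℝ))

lemma mem_Pn {g z p : ℕ} : p ∈ Pn g z ↔ p.Prime ∧ p ≤ z ∧ ¬ p ∣ g := by
  rw [Pn, Finset.mem_filter, mem_PP]; tauto

lemma mem_Pd {g z p : ℕ} : p ∈ Pd g z ↔ p.Prime ∧ p ≤ z ∧ p ∣ g := by
  rw [Pd, Finset.mem_filter, mem_PP]; tauto

lemma Mg_pos (g z : ℕ) : 0 < Mg g z := Finset.prod_pos fun p hp => (mem_Pn.1 hp).1.pos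

lemma Gg_pos (g z : ℕ) : 0 < Gg g z := Finset.prod_pos fun p hp => (mem_Pd.1 hp).1.pos

lemma Wg_pos (g z : ℕ) : 0 < Wg g z := Finset.prod_pos fun p hp => (one_sub_inv_bd (mem_Pn.1 hp).1).1

lemma coprime_prod {m : ℕ} {s : Finset ℕ} (hs : ∀ p ∈ s, p.Prime ∧ ¬ p ∣ m) : Nat.Coprime m (∏ p ∈ s, p) := by
  refine Nat.Coprime.prod_right fun p hp => ?_
  exact ((Nat.Prime.coprime_iff_not_dvd (hs p hp).1).2 (hs p hp).2).symm

lemma coprime_MG (g z : ℕ) : Nat.Coprime (Mg g z) (Gg g z) := by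
  refine coprime_prod fun p hp => ⟨(mem_Pd.1 hp).1, fun h => ?_⟩
  have hp' := mem_Pd.1 hp
  obtain ⟨q, hq, hd⟩ := (Prime.dvd_finsetProd_iff hp'.1.prime _).1 h
  have hq' := mem_Pn.1 hq
  have := (Nat.prime_dvd_prime_iff_eq hp'.1 hq'.1).1 hd
  subst this
  exact hq'.2.2 hp'.2.2

/-- an inverse of the modulus -/
lemma exists_inv (g z : ℕ) : ∃ α : ℕ, 1 ≤ α ∧ ∀ p ∈ Pn g z, (p : ℤ) ∣ g * α - 1 := by
  have hco : Nat.Coprime g (Mg g z) := coprime_prod fun p hp => ⟨(mem_Pn.1 hp).1, (mem_Pn.1 hp).2.2⟩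
  obtain ⟨u, v, huv⟩ := Nat.isCoprime_iff_coprime.2 hco
  have hM : (0 : ℤ) < Mg g z := by exact_mod_cast Mg_pos g z
  have h1 : 0 ≤ u % (Mg g z : ℤ) := Int.emod_nonneg _ hM.ne'
  refine ⟨(u % (Mg g z : ℤ) + Mg g z).toNat, ?_, fun p hp => ?_⟩
  · omega
  · have h2 : (((u % (Mg g z : ℤ) + Mg g z).toNat : ℕ) : ℤ) = u % (Mg g z : ℤ) + Mg g z :=
      Int.toNat_of_nonneg (by omega)
    rw [h2]
    have h3 : (p : ℤ) ∣ (Mg g z : ℤ) := by
      exact_mod_cast Finset.dvd_prod_of_mem (fun p => p) hp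
    have h4 : u % (Mg g z : ℤ) = u - Mg g z * (u / Mg g z) := Int.emod_def _ _
    have h5 : (g : ℤ) * (u % (Mg g z : ℤ) + Mg g z) - 1 = (Mg g z : ℤ) * (-v + g * (1 - u / Mg g z)) := by
      rw [h4]
      linear_combination huv
    rw [h5]
    exact h3.mul_right _

lemma Bad_inv {g z α z₀ : ℕ} (hα : ∀ p ∈ Pn g z, (p : ℤ) ∣ g * α - 1) :
    (Bad α z₀ z).card ≤ (Bad g z₀ z).card := by
  refine Finset.card_le_card ?_
  intro p hp
  rw [Bad, Finset.mem_filter] at hp ⊢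
  refine ⟨hp.1, hp.2.1, ?_⟩
  by_contra hcon
  have hp' := mem_PP.1 hp.1
  have h1 := hα p (mem_Pn.2 ⟨hp'.1, hp'.2, hcon⟩)
  have h2 : (p : ℤ) ∣ g * α := by
    have : (p : ℤ) ∣ (α : ℤ) := by exact_mod_cast hp.2.2
    exact this.mul_left _
  have h3 : (p : ℤ) ∣ 1 := by
    have := dvd_sub h2 h1
    simpa using this
  exact hp'.1.one_lt.ne' (by exact_mod_cast Int.eq_one_of_dvd_one (by positivity) h3)

lemma unit_iff {g z : ℕ} (m : ℤ) : IsUnit ((m : ℤ) : ZMod (Gg g z)) ↔ ∀ p ∈ Pd g z, ¬ (p : ℤ) ∣ m := by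
  rw [ZMod.coe_int_isUnit_iff_isCoprime, Gg]
  push_cast
  rw [IsCoprime.prod_left_iff]
  refine forall₂_congr fun p hp => ?_
  exact (Nat.prime_iff_prime_int.1 (mem_Pd.1 hp).1).irreducible.coprime_iff_not_dvd

/-- number of the coprime elements in a residue system -/
lemma card_unit (g z : ℕ) (c : ℤ) :
    ((Finset.range (Gg g z)).filter fun t : ℕ => ∀ p ∈ Pd g z, ¬ (p : ℤ) ∣ Mg g z * t + c).card
      = Nat.totient (Gg g z) := by
  classical
  haveI : NeZero (Gg g z) := ⟨(Gg_pos g z).ne'⟩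
  set G := Gg g z with hG
  set M := Mg g z with hM
  have hcop : Nat.Coprime M G := coprime_MG g z
  have hu : IsUnit ((M : ℕ) : ZMod G) := (ZMod.isUnit_iff_coprime _ _).2 hcop
  obtain ⟨v, hv⟩ := hu
  rw [← ZMod.card_units_eq_totient, ← Finset.card_univ]
  have e1 : (Finset.univ : Finset (ZMod G)ˣ).card = ((Finset.univ : Finset (ZMod G)).filter fun x => IsUnit x).card := by
    refine Finset.card_bij (fun u _ => (u : ZMod G)) ?_ ?_ ?_
    · intro u _
      rw [Finset.mem_filter]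
      exact ⟨Finset.mem_univ _, u.isUnit⟩
    · intro a _ b _ h
      exact Units.ext h
    · intro x hx
      rw [Finset.mem_filter] at hx
      obtain ⟨u, hu⟩ := hx.2
      exact ⟨u, Finset.mem_univ _, hu⟩
  rw [e1]
  refine Finset.card_bij (fun t _ => (((M : ℤ) * (t : ℤ) + c : ℤ) : ZMod G)) ?_ ?_ ?_
  · intro t ht
    rw [Finset.mem_filter] at ht ⊢
    exact ⟨Finset.mem_univ _, (unit_iff _).2 ht.2⟩
  · intro a ha b hb h
    rw [Finset.mem_filter, Finset.mem_range] at ha hb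
    push_cast at h
    have h1 : ((M : ℕ) : ZMod G) * (a : ZMod G) = ((M : ℕ) : ZMod G) * (b : ZMod G) := add_right_cancel h
    rw [← hv] at h1
    have h2 : (a : ZMod G) = (b : ZMod G) := by
      have := congrArg (fun x => ((v⁻¹ : (ZMod G)ˣ) : ZMod G) * x) h1
      simpa [← mul_assoc] using this
    rw [ZMod.natCast_eq_natCast_iff'] at h2
    rwa [Nat.mod_eq_of_lt ha.1, Nat.mod_eq_of_lt hb.1] at h2
  · intro x hx
    rw [Finset.mem_filter] at hx
    refine ⟨(((v⁻¹ : (ZMod G)ˣ) : ZMod G) * (x - ((c : ℤ) : ZMod G))).val, ?_, ?_⟩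
    · rw [Finset.mem_filter, Finset.mem_range]
      refine ⟨ZMod.val_lt _, ?_⟩
      rw [← unit_iff]
      have e2 : (((M : ℤ) * (((((v⁻¹ : (ZMod G)ˣ) : ZMod G) * (x - ((c : ℤ) : ZMod G))).val : ℕ) : ℤ) + c : ℤ) : ZMod G) = x := by
        push_cast
        rw [ZMod.natCast_val, ZMod.cast_id', id, ← hv, ← mul_assoc]
        simp
      rw [e2]
      exact hx.2
    · push_cast
      rw [ZMod.natCast_val, ZMod.cast_id', id, ← hv, ← mul_assoc]
      simp

lemma phi_eq (g z : ℕ) : ((Nat.totient (Gg g z) : ℕ) : ℝ) = Gg g z * ∏ p ∈ Pd g z, (1 - 1 / (p : ℝ)) := by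
  have h := Nat.totient_eq_mul_prod_factors (Gg g z)
  have h2 : (Gg g z).primeFactors = Pd g z := Nat.primeFactors_prod fun p hp => (mem_Pd.1 hp).1
  rw [h2] at h
  have h3 := congrArg (fun q : ℚ => (q : ℝ)) h
  push_cast at h3
  rw [h3]
  congr 1
  exact Finset.prod_congr rfl fun p _ => by rw [one_div]

lemma W_eq (g z : ℕ) : W z = Wg g z * ∏ p ∈ Pd g z, (1 - 1 / (p : ℝ)) := by
  unfold W Wg Pn Pd
  rw [mul_comm]
  exact (Finset.prod_filter_mul_prod_filter_not (PP z) (fun p => p ∣ g) _).symm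

lemma W_phi (g z : ℕ) : (Gg g z : ℝ) * W z = (Nat.totient (Gg g z) : ℕ) * Wg g z := by
  rw [phi_eq, W_eq g z]; ring

/-- the average -/
theorem avg {g z α : ℕ} (hα : ∀ p ∈ Pn g z, (p : ℤ) ∣ g * α - 1) (Y : ℕ) (n : ℤ) :
    ∑ t ∈ Finset.range (Gg g z), rc z Y (α * n + Mg g z * (t : ℤ))
      = Nat.totient (Gg g z) * Rg g z Y n := by
  classical
  unfold rc SW.survivors Rg
  simp only [Finset.card_filter]
  rw [Finset.sum_comm, Finset.mul_sum]
  refine Finset.sum_congr rfl fun h _ => ?_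
  have key : ∀ t : ℕ, (∀ p ∈ PP z, ¬ (p : ℤ) ∣ α * n + Mg g z * (t : ℤ) + h) ↔
      ((∀ p ∈ Pn g z, ¬ (p : ℤ) ∣ n + g * h) ∧ ∀ p ∈ Pd g z, ¬ (p : ℤ) ∣ Mg g z * (t : ℤ) + (α * n + h)) := by
    intro t
    have k1 : ∀ p ∈ Pn g z, ((p : ℤ) ∣ α * n + Mg g z * (t : ℤ) + h ↔ (p : ℤ) ∣ n + g * h) := by
      intro p hp
      have h3 : (p : ℤ) ∣ (Mg g z : ℤ) := by
        exact_mod_cast Finset.dvd_prod_of_mem (fun p => p) hp
      have hp' := mem_Pn.1 hp
      have hpr : Prime (p : ℤ) := Nat.prime_iff_prime_int.1 hp'.1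
      have h4 := hα p hp
      have h5 : ¬ (p : ℤ) ∣ (g : ℤ) := by
        intro h6
        exact hp'.2.2 (by exact_mod_cast h6)
      have e : (g : ℤ) * (α * n + Mg g z * (t : ℤ) + h)
          = (n + g * h) + ((g * α - 1) * n + Mg g z * (g * (t : ℤ))) := by ring
      have h6 : (p : ℤ) ∣ (g * α - 1) * n + Mg g z * (g * (t : ℤ)) :=
        dvd_add (h4.mul_right _) (h3.mul_right _)
      constructor
      · intro h7
        have h8 : (p : ℤ) ∣ (g : ℤ) * (α * n + Mg g z * (t : ℤ) + h) := h7.mul_left _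
        rw [e] at h8
        exact (Int.dvd_add_left h6).1 h8
      · intro h7
        have h8 : (p : ℤ) ∣ (g : ℤ) * (α * n + Mg g z * (t : ℤ) + h) := by
          rw [e]; exact dvd_add h7 h6
        exact (hpr.dvd_or_dvd h8).resolve_left h5
    have k2 : ∀ p : ℕ, α * n + Mg g z * (t : ℤ) + h = Mg g z * (t : ℤ) + (α * n + h) := fun _ => by ring
    constructor
    · intro H
      constructor
      · intro p hp hd
        have hp' := mem_Pn.1 hp
        exact H p (mem_PP.2 ⟨hp'.1, hp'.2.1⟩) ((k1 p hp).2 hd)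
      · intro p hp hd
        have hp' := mem_Pd.1 hp
        rw [← k2 p] at hd
        exact H p (mem_PP.2 ⟨hp'.1, hp'.2.1⟩) hd
    · rintro ⟨H1, H2⟩ p hp hd
      have hp' := mem_PP.1 hp
      by_cases hg : p ∣ g
      · rw [k2 p] at hd
        exact H2 p (mem_Pd.2 ⟨hp'.1, hp'.2, hg⟩) hd
      · have hpn : p ∈ Pn g z := mem_Pn.2 ⟨hp'.1, hp'.2, hg⟩
        exact H1 p hpn ((k1 p hpn).1 hd)
  have e1 : ∀ t : ℕ, (if (∀ p ∈ PP z, ¬ (p : ℤ) ∣ α * n + Mg g z * (t : ℤ) + h) then 1 else 0)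
      = (if (∀ p ∈ Pn g z, ¬ (p : ℤ) ∣ n + g * h) then 1 else 0) *
        (if (∀ p ∈ Pd g z, ¬ (p : ℤ) ∣ Mg g z * (t : ℤ) + (α * n + h)) then 1 else 0) := by
    intro t
    by_cases c1 : ∀ p ∈ Pn g z, ¬ (p : ℤ) ∣ n + g * h
    · by_cases c2 : ∀ p ∈ Pd g z, ¬ (p : ℤ) ∣ Mg g z * (t : ℤ) + (α * n + h)
      · rw [if_pos ((key t).2 ⟨c1, c2⟩), if_pos c1, if_pos c2]
      · rw [if_neg (fun hh => c2 ((key t).1 hh).2), if_neg c2, mul_zero]
    · rw [if_neg (fun hh => c1 ((key t).1 hh).1), if_neg c1, zero_mul]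
  rw [Finset.sum_congr rfl fun t _ => e1 t, ← Finset.mul_sum, ← Finset.card_filter, card_unit, mul_comm]

end Run7.h52.E4
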