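import Pool.Agent.Run7.h52.E3
import Pool.Agent.Run7.h52.E4

set_option autoImplicit false
set_option linter.unusedSectionVars false

namespace Run7.h52.E5

open Finset Run7.h52.Count Run7.h52.Rough Run7.h52.Asym Run7.h52.AsmV Run7.h52.U11 Run7.h52.U12 Run7.h52.U19
  Run7.h52.E3 Run7.h52.E4

/-- Chebyshev's inequality -/
lemma cheb' {S : Finset ℤ} {A : ℤ → ℝ} (hA : ∀ n ∈ S, 0 ≤ A n) (r : ℤ → ℝ) {K m μ η : ℝ} (hm : 0 < m) (hη : 0 < η)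
    (hv : ∑ n ∈ S, A n * (r n - μ) ^ 2 ≤ K * m ^ 2 * ∑ n ∈ S, A n) (B : ℤ → Prop) [DecidablePred B]
    (hB : ∀ n ∈ S, B n → η * m ≤ |r n - μ|) :
    ∑ n ∈ S, (if B n then A n else 0) ≤ K / η ^ 2 * ∑ n ∈ S, A n := by
  have h1 : (η * m) ^ 2 * ∑ n ∈ S, (if B n then A n else 0) ≤ ∑ n ∈ S, A n * (r n - μ) ^ 2 := by
    rw [Finset.mul_sum]
    refine Finset.sum_le_sum fun n hn => ?_
    by_cases h : B n
    · rw [if_pos h]
      have h2 := hB n hn h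
      have h3 : (η * m) ^ 2 ≤ (r n - μ) ^ 2 := by
        rw [← sq_abs (r n - μ)]
        exact pow_le_pow_left₀ (by positivity) h2 2
      have := mul_le_mul_of_nonneg_right h3 (hA n hn)
      linarith
    · rw [if_neg h, mul_zero]
      exact mul_nonneg (hA n hn) (sq_nonneg _)
  have h2 := h1.trans hv
  have h3 : 0 < (η * m) ^ 2 := by positivity
  have h4 : ∑ n ∈ S, (if B n then A n else 0) ≤ (K * m ^ 2 * ∑ n ∈ S, A n) / (η * m) ^ 2 := by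
    rw [le_div_iff₀ h3]; linarith
  refine h4.trans (le_of_eq ?_)
  field_simp

/-- the variance of an average -/
lemma var_avg {S : Finset ℤ} {A : ℤ → ℝ} (hA : ∀ n ∈ S, 0 ≤ A n) {G : ℕ} {Φ : ℝ} (hΦ : 0 < Φ) (r : ℕ → ℤ → ℝ)
    (R : ℤ → ℝ) (hR : ∀ n, ∑ t ∈ Finset.range G, r t n = Φ * R n) {μ : ℕ → ℝ} {K m : ℝ} (hK : 0 ≤ K)
    (hμ0 : ∀ t ∈ Finset.range G, 0 ≤ μ t) (hμ1 : ∀ t ∈ Finset.range G, μ t ≤ m)
    (hv : ∀ t ∈ Finset.range G, ∑ n ∈ S, A n * (r t n - μ t) ^ 2 ≤ K * μ t ^ 2 * ∑ n ∈ S, A n) :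
    ∑ n ∈ S, A n * (R n - (∑ t ∈ Finset.range G, μ t) / Φ) ^ 2
      ≤ K * (G / Φ * m) ^ 2 * ∑ n ∈ S, A n := by
  have hZ0 : 0 ≤ ∑ n ∈ S, A n := Finset.sum_nonneg hA
  have h1 : ∀ n ∈ S, A n * (R n - (∑ t ∈ Finset.range G, μ t) / Φ) ^ 2
      ≤ G / Φ ^ 2 * ∑ t ∈ Finset.range G, A n * (r t n - μ t) ^ 2 := by
    intro n hn
    have e1 : R n - (∑ t ∈ Finset.range G, μ t) / Φ = (∑ t ∈ Finset.range G, (r t n - μ t)) / Φ := by
      rw [Finset.sum_sub_distrib, hR n]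
      field_simp
    have h2 := sq_sum_le_card_mul_sum_sq (s := Finset.range G) (f := fun t => r t n - μ t)
    rw [Finset.card_range] at h2
    rw [e1, div_pow, ← Finset.mul_sum]
    have h3 := mul_le_mul_of_nonneg_left (div_le_div_of_nonneg_right h2 (sq_nonneg Φ)) (hA n hn)
    refine h3.trans (le_of_eq ?_)
    ring
  refine (Finset.sum_le_sum h1).trans ?_
  rw [← Finset.mul_sum, Finset.sum_comm]
  have h2 : ∑ t ∈ Finset.range G, ∑ n ∈ S, A n * (r t n - μ t) ^ 2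
      ≤ ∑ t ∈ Finset.range G, K * m ^ 2 * ∑ n ∈ S, A n := by
    refine Finset.sum_le_sum fun t ht => (hv t ht).trans ?_
    refine mul_le_mul_of_nonneg_right (mul_le_mul_of_nonneg_left ?_ hK) hZ0
    exact pow_le_pow_left₀ (hμ0 t ht) (hμ1 t ht) 2
  rw [Finset.sum_const, Finset.card_range, nsmul_eq_mul] at h2
  refine (mul_le_mul_of_nonneg_left h2 (by positivity)).trans (le_of_eq ?_)
  field_simp

/-- shares of the weight: progressions -/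
theorem defG {δ B : ℝ} (hB0 : 0 ≤ B) (hδ0 : 0 < δ) (hδ1 : δ ≤ 1) {θ e κ η G0 G1 : ℝ} (he0 : 0 < e) (he1 : e ≤ 1 / 2)
    (hθe : 6 * e < 1 - θ) (hθ0 : 0 < θ) (hκ0 : 0 < κ) (hκ1 : κ ≤ 1 / 10) (hη0 : 0 < η) :
    ∃ (c' : ℝ), 0 < c' ∧ c' ≤ 1 ∧ ∃ T : ℝ, 3 ≤ T ∧ ∀ N : ℕ, T ≤ N → ∀ Y z : ℕ,
    (Real.log N) ^ (2 + δ) ≤ Y → Y ≤ N → ⌊e * Real.log N⌋₊ ≤ z → (z : ℝ) ≤ (N : ℝ) ^ c' →
    ∀ g : ℕ, 1 ≤ g → (g : ℝ) ≤ (N : ℝ) ^ B →
    ∀ w : ℤ → ℝ, TW.SquareWeight ((N : ℝ) ^ θ) w → ∀ x : ℤ,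
    (∀ b : ℤ, G0 * (W ⌊e * Real.log N⌋₊ * Y) ≤ rg ⌊e * Real.log N⌋₊ (Finset.Ioc (0 : ℤ) (0 + (Y : ℤ))) b ∧
      rg ⌊e * Real.log N⌋₊ (Finset.Ioc (0 : ℤ) (0 + (Y : ℤ))) b ≤ G1 * (W ⌊e * Real.log N⌋₊ * Y)) →
    ∀ (P : ℤ → Prop) (_ : DecidablePred P), (∀ μ : ℝ, (1 - κ) * (G0 * (Wg g z * Y)) ≤ μ → μ ≤ G1 * (Wg g z * Y) →
      ∀ n, P n → η * (Wg g z * Y) ≤ |(Rg g z Y n : ℝ) - μ|) →
    ∑ n ∈ (Finset.Ioc x (x + N)).filter P, w n
        ≤ 30 * κ * G1 ^ 2 / η ^ 2 * ∑ n ∈ Finset.Ioc x (x + N), w n := by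
  classical
  obtain ⟨c₁, _, hV⟩ := varG hB0 hδ0 hδ1
  obtain ⟨c', hc', hc1, T, hT3, hT⟩ := hV he0 he1 hθe hθ0 hκ0 hκ1
  refine ⟨c', hc', hc1, T, hT3, fun N hN Y z hY hYN hz hzN g hg hgN w hw x hG P hPd hP => ?_⟩
  obtain ⟨hz3, hcl⟩ := hT N hN Y z hY hYN hz hzN
  obtain ⟨J, d, R, a, V, hJ, hw⟩ := hw
  have hN3 : (3 : ℝ) ≤ N := hT3.trans hN
  have hN0 : (0 : ℝ) < N := by linarith
  have hlN : 0 < Real.log N := Real.log_pos (by linarith)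
  set z₀ := ⌊e * Real.log N⌋₊ with hz₀
  set I := Finset.Ioc (0 : ℤ) (0 + (Y : ℤ)) with hI
  have hWeq : Wr z₀ z * W z₀ = W z := (Wr_eq hz).symm
  have hWr0 := Wr_pos z₀ z
  have hY0 : (0 : ℝ) < Y := lt_of_lt_of_le (by positivity) hY
  -- the inverse of the modulus
  obtain ⟨α, hα1, hα⟩ := exists_inv g z
  have hαB : ((Bad α z₀ z).card : ℝ) * Real.log z₀ ≤ B * Real.log N := by
    have h1 : ((Bad α z₀ z).card : ℝ) ≤ (Bad g z₀ z).card := by exact_mod_cast Bad_inv hα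
    have h2 := bad_card (z₀ := z₀) (z := z) hg (by omega)
    have h3 : Real.log g ≤ B * Real.log N := by
      have := Real.log_le_log (by exact_mod_cast hg) hgN
      rwa [Real.log_rpow hN0] at this
    have h4 : 0 ≤ Real.log z₀ := Real.log_nonneg (by exact_mod_cast (by omega : 1 ≤ z₀))
    exact (mul_le_mul_of_nonneg_right h1 h4).trans (h2.trans h3)
  set G := Gg g z with hGd
  set Φ : ℝ := ((Nat.totient G : ℕ) : ℝ) with hΦd
  have hΦ : 0 < Φ := by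
    rw [hΦd]
    exact_mod_cast Nat.totient_pos.2 (Gg_pos g z)
  have hWφ : (G : ℝ) * W z = Φ * Wg g z := W_phi g z
  have hWg0 := Wg_pos g z
  have hGW : (G : ℝ) / Φ * W z = Wg g z := by
    rw [div_mul_eq_mul_div, hWφ]
    field_simp
  have split : ∀ (j : Fin J) (F : ℤ → ℝ), ∑ n ∈ Finset.Ioc x (x + N), (if (d j : ℤ) ∣ n - a j then F n else 0)
      = ∑ r ∈ Finset.range (W0 z₀), ∑ n ∈ Finset.Ioc x (x + N),
        (if ((d j * W0 z₀ : ℕ) : ℤ) ∣ n - (a j + d j * (r : ℤ)) then F n else 0) := by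
    intro j F
    rw [Finset.sum_comm]
    exact Finset.sum_congr rfl fun n _ => split_class (d j) (W0 z₀) (hJ j).1 (W0_pos z₀) (a j) n (F n)
  have e1 : ∑ n ∈ Finset.Ioc x (x + N), w n
      = ∑ j, ∑ r ∈ Finset.range (W0 z₀), ∑ n ∈ Finset.Ioc x (x + N),
        (if ((d j * W0 z₀ : ℕ) : ℤ) ∣ n - (a j + d j * (r : ℤ)) then V j n ^ 2 else 0) := by
    simp only [hw]
    rw [Finset.sum_comm]
    exact Finset.sum_congr rfl fun j _ => split j (fun n => V j n ^ 2)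
  have e2 : ∑ n ∈ (Finset.Ioc x (x + N)).filter P, w n
      = ∑ j, ∑ r ∈ Finset.range (W0 z₀), ∑ n ∈ Finset.Ioc x (x + N),
        (if P n then (if ((d j * W0 z₀ : ℕ) : ℤ) ∣ n - (a j + d j * (r : ℤ)) then V j n ^ 2 else 0) else 0) := by
    rw [Finset.sum_filter]
    simp only [hw]
    have h1 : ∀ n ∈ Finset.Ioc x (x + N), (if P n then ∑ j, (if (d j : ℤ) ∣ n - a j then V j n ^ 2 else 0) else 0)
        = ∑ j, (if (d j : ℤ) ∣ n - a j then (if P n then V j n ^ 2 else 0) else 0) := by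
      intro n _
      split_ifs with h
      · rfl
      · symm
        refine Finset.sum_eq_zero fun j _ => ?_
        split_ifs <;> rfl
    rw [Finset.sum_congr rfl h1, Finset.sum_comm]
    refine Finset.sum_congr rfl fun j _ => ?_
    rw [split j (fun n => if P n then V j n ^ 2 else 0)]
    refine Finset.sum_congr rfl fun r _ => Finset.sum_congr rfl fun n _ => ?_
    split_ifs <;> rfl
  rw [e1, e2, Finset.mul_sum]
  refine Finset.sum_le_sum fun j _ => ?_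
  rw [Finset.mul_sum]
  refine Finset.sum_le_sum fun r _ => ?_
  set b : ℤ := a j + d j * (r : ℤ) with hb
  have hcl' : ∀ t : ℕ, ∃ μ : ℝ, 0 < μ ∧ (1 - κ) * (G0 * (W z * Y)) ≤ μ ∧ μ ≤ G1 * (W z * Y) ∧
      ∑ n ∈ Finset.Ioc x (x + N),
          (if ((d j * W0 z₀ : ℕ) : ℤ) ∣ n - b then V j n ^ 2 else 0) *
            ((rc z Y (α * n + Mg g z * (t : ℤ)) : ℝ) - μ) ^ 2
        ≤ 30 * κ * μ ^ 2 * ∑ n ∈ Finset.Ioc x (x + N),
          (if ((d j * W0 z₀ : ℕ) : ℤ) ∣ n - b then V j n ^ 2 else 0) := by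
    intro t
    obtain ⟨μ, _, m2, m3, m4, m5⟩ := hcl α (Mg g z * (t : ℤ)) hα1 hαB (d j) (R j) (V j) (hJ j).1 (hJ j).2.1
      (hJ j).2.2.1 (hJ j).2.2.2 x b
    refine ⟨μ, m2, ?_, ?_, m5⟩
    · refine le_trans (mul_le_mul_of_nonneg_left ?_ (by linarith)) m3
      have := mul_le_mul_of_nonneg_left (hG (α * b + Mg g z * (t : ℤ))).1 hWr0.le
      rw [← hWeq]
      linarith
    · refine m4.trans ?_
      have := mul_le_mul_of_nonneg_left (hG (α * b + Mg g z * (t : ℤ))).2 hWr0.le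
      rw [← hWeq]
      linarith
  choose μ hμ0 hμ1 hμ2 hμ3 using hcl'
  have hA : ∀ n ∈ Finset.Ioc x (x + N), (0 : ℝ) ≤ (if ((d j * W0 z₀ : ℕ) : ℤ) ∣ n - b then V j n ^ 2 else 0) := by
    intro n _
    split_ifs
    · positivity
    · exact le_rfl
  have hav : ∀ n : ℤ, ∑ t ∈ Finset.range G, (rc z Y (α * n + Mg g z * (t : ℤ)) : ℝ) = Φ * (Rg g z Y n : ℝ) := by
    intro n
    have := avg hα Y n
    rw [hΦd]
    exact_mod_cast this
  have hva := var_avg hA hΦ (fun t n => (rc z Y (α * n + Mg g z * (t : ℤ)) : ℝ)) (fun n => (Rg g z Y n : ℝ)) hav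
    (K := 30 * κ) (m := G1 * (W z * Y)) (by positivity) (fun t _ => (hμ0 t).le) (fun t _ => hμ2 t)
    (fun t _ => hμ3 t)
  have e3 : (G : ℝ) / Φ * (G1 * (W z * Y)) = G1 * (Wg g z * Y) := by
    rw [← hGW]; ring
  rw [e3] at hva
  have hm : 0 < Wg g z * Y := by positivity
  have e4 : 30 * κ * (G1 * (Wg g z * Y)) ^ 2 = (30 * κ * G1 ^ 2) * (Wg g z * Y) ^ 2 := by ring
  rw [e4] at hva
  refine cheb' hA (fun n => (Rg g z Y n : ℝ)) hm hη0 hva P ?_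
  intro n _ hn
  have hG0 : (0 : ℝ) ≤ G := Nat.cast_nonneg _
  refine hP _ ?_ ?_ n hn
  · have h1 : (G : ℝ) * ((1 - κ) * (G0 * (W z * Y))) ≤ ∑ t ∈ Finset.range G, μ t := by
      have := Finset.sum_le_sum fun t (_ : t ∈ Finset.range G) => hμ1 t
      rwa [Finset.sum_const, Finset.card_range, nsmul_eq_mul] at this
    rw [le_div_iff₀ hΦ]
    refine le_trans (le_of_eq ?_) h1
    have : (G : ℝ) * ((1 - κ) * (G0 * (W z * Y))) = (1 - κ) * (G0 * ((G * W z) * Y)) := by ring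
    rw [this, hWφ]
    ring
  · have h1 : ∑ t ∈ Finset.range G, μ t ≤ (G : ℝ) * (G1 * (W z * Y)) := by
      have := Finset.sum_le_sum fun t (_ : t ∈ Finset.range G) => hμ2 t
      rwa [Finset.sum_const, Finset.card_range, nsmul_eq_mul] at this
    rw [div_le_iff₀ hΦ]
    refine h1.trans (le_of_eq ?_)
    have : (G : ℝ) * (G1 * (W z * Y)) = G1 * ((G * W z) * Y) := by ring
    rw [this, hWφ]
    ring

end Run7.h52.E5
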