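import Pool.Agent.Run7.h52.X10
import Pool.Agent.Run7.h52.X9a
import Pool.Agent.Run7.h52.U20

/-!
Intervals of length `(log N) ^ A`, `A > 2`, and square weights.
-/

set_option autoImplicit false
set_option linter.unusedSectionVars false

namespace Run7.h52.X11

open Finset Run7.h52.Count Run7.h52.Rough Run7.h52.Asym Run7.h52.AsmV Run7.h52.U19 Run7.h52.U20 Run7.h52.X8
  Run7.h52.X10
open Pool.Agent.W23.DC

lemma rg_rc (z Y : ℕ) (n : ℤ) : rg z (Finset.Ioc (0 : ℤ) (0 + (Y : ℤ))) n = (RC z Y n : ℝ) := by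
  rw [← rc_eq]; rfl

theorem mainX {A0 : ℝ} {F f : ℝ → ℝ} (hS : SF A0 F f) {θ A ε : ℝ} (hθ0 : 0 < θ) (hθ1 : θ < 1) (hA : 2 < A)
    (hε : 0 < ε) : ∃ c : ℝ, 0 < c ∧ ∃ T : ℝ, ∀ N : ℕ, T ≤ N → ∀ Y z : ℕ,
    (Real.log N) ^ A ≤ Y → (z : ℝ) ≤ (N : ℝ) ^ c →
    ∀ w : ℤ → ℝ, TW.SquareWeight ((N : ℝ) ^ θ) w → ∀ x : ℤ,
    ∑ n ∈ (Finset.Ioc x (x + N)).filter (fun n => (RC z Y n : ℝ) < (f A - ε) * (W z * Y)), w n
        ≤ ε * ∑ n ∈ Finset.Ioc x (x + N), w n ∧
    ∑ n ∈ (Finset.Ioc x (x + N)).filter (fun n => (F A + ε) * (W z * Y) < (RC z Y n : ℝ)), w n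
        ≤ ε * ∑ n ∈ Finset.Ioc x (x + N), w n := by
  classical
  have hFA : 1 ≤ F A := hS.F1 A (by linarith)
  have hfA : f A ≤ 1 := hS.f1 A (by linarith)
  -- the parameters
  set η : ℝ := min (1 / 2) (min (ε / 4) (ε / (2 * (F A + ε)))) with hη
  have hη0 : 0 < η := lt_min (by norm_num) (lt_min (by positivity) (by positivity))
  have hη1 : η ≤ 1 / 2 := min_le_left _ _
  have hη2 : η ≤ ε / 4 := (min_le_right _ _).trans (min_le_left _ _)
  have hη3 : η * (F A + ε) ≤ ε / 2 := by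
    have h1 : η ≤ ε / (2 * (F A + ε)) := (min_le_right _ _).trans (min_le_right _ _)
    calc η * (F A + ε) ≤ ε / (2 * (F A + ε)) * (F A + ε) := mul_le_mul_of_nonneg_right h1 (by linarith)
      _ = ε / 2 := by
        have : F A + ε ≠ 0 := by linarith
        field_simp
  set κ : ℝ := min (1 / 10) (min (ε / 4) (ε * η ^ 2 / 30)) with hκ
  have hκ0 : 0 < κ := lt_min (by norm_num) (lt_min (by positivity) (by positivity))
  have hκ1 : κ ≤ 1 / 10 := min_le_left _ _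
  have hκ2 : κ ≤ ε / 4 := (min_le_right _ _).trans (min_le_left _ _)
  have hκ3 : 30 * κ / η ^ 2 ≤ ε := by
    have h1 : κ ≤ ε * η ^ 2 / 30 := (min_le_right _ _).trans (min_le_right _ _)
    rw [div_le_iff₀ (by positivity)]
    linarith
  set e : ℝ := (1 - θ) / 12 with he
  have he0 : 0 < e := by rw [he]; linarith
  have he1 : e ≤ 1 / 2 := by rw [he]; linarith
  have hθe : 6 * e < 1 - θ := by rw [he]; linarith
  set δ : ℝ := min (A - 2) 1 with hδ
  have hδ0 : 0 < δ := lt_min (by linarith) one_pos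
  have hδ1 : δ ≤ 1 := min_le_right _ _
  have hδA : 2 + δ ≤ A := by
    have : δ ≤ A - 2 := min_le_left _ _
    linarith
  obtain ⟨c₁, hc₁, hc₁1, T₁, hT₁3, H₁⟩ := defX hδ0 hδ1 (θ := θ) (e := e) (κ := κ) (η := η) (G := f A - ε / 2)
    (G' := F A + ε / 2) he0 he1 hθe hθ0 hκ0 hκ1 hη0 (by linarith)
  obtain ⟨c₂, hc₂, Y₂, H₂⟩ := fund hε
  obtain ⟨Y₃, H₃⟩ := det hS hA (by positivity : 0 < ε / 2)
  -- `N` large
  set T : ℝ := max T₁ (max Y₂ (Real.exp (max 1 (Y₃ : ℝ)))) with hT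
  refine ⟨min c₁ c₂, lt_min hc₁ hc₂, T, fun N hN Y z hY hz w hw x => ?_⟩
  have hN1 : T₁ ≤ N := (le_max_left _ _).trans hN
  have hN2 : (Y₂ : ℝ) ≤ N := ((le_max_left _ _).trans (le_max_right _ _)).trans hN
  have hN3 : Real.exp (max 1 (Y₃ : ℝ)) ≤ N := ((le_max_right _ _).trans (le_max_right _ _)).trans hN
  have hNr : (3 : ℝ) ≤ N := hT₁3.trans hN1
  have hN0 : (0 : ℝ) < N := by linarith
  have hl1 : max 1 (Y₃ : ℝ) ≤ Real.log N := by rwa [Real.le_log_iff_exp_le hN0]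
  have hl : 1 ≤ Real.log N := (le_max_left _ _).trans hl1
  have hlY3 : (Y₃ : ℝ) ≤ Real.log N := (le_max_right _ _).trans hl1
  have hlA : Real.log N ≤ (Real.log N) ^ A := by
    calc Real.log N = (Real.log N) ^ (1 : ℝ) := (Real.rpow_one _).symm
      _ ≤ _ := Real.rpow_le_rpow_of_exponent_le hl (by linarith)
  have hY3 : Y₃ ≤ Y := by
    have : (Y₃ : ℝ) ≤ Y := hlY3.trans (hlA.trans hY)
    exact_mod_cast this
  have hsum0 : 0 ≤ ∑ n ∈ Finset.Ioc x (x + N), w n := Finset.sum_nonneg fun n _ => sw_nonneg hw n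
  have hWY : 0 ≤ W z * (Y : ℝ) := mul_nonneg (W_pos z).le (Nat.cast_nonneg _)
  -- deterministic bounds suffice
  have triv : (∀ n : ℤ, (f A - ε) * (W z * Y) ≤ (RC z Y n : ℝ) ∧ (RC z Y n : ℝ) ≤ (F A + ε) * (W z * Y)) →
      ∑ n ∈ (Finset.Ioc x (x + N)).filter (fun n => (RC z Y n : ℝ) < (f A - ε) * (W z * Y)), w n
        ≤ ε * ∑ n ∈ Finset.Ioc x (x + N), w n ∧
      ∑ n ∈ (Finset.Ioc x (x + N)).filter (fun n => (F A + ε) * (W z * Y) < (RC z Y n : ℝ)), w n
        ≤ ε * ∑ n ∈ Finset.Ioc x (x + N), w n := by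
    intro h
    rw [Finset.filter_eq_empty_iff.2 (fun n _ => not_lt.2 (h n).1),
      Finset.filter_eq_empty_iff.2 (fun n _ => not_lt.2 (h n).2), Finset.sum_empty]
    constructor <;> positivity
  rcases le_or_gt Y N with hYN | hYN
  · -- `Y ≤ N`
    set z₀ : ℕ := ⌊e * Real.log N⌋₊ with hz₀
    have hz₀l : (z₀ : ℝ) ≤ Real.log N := by
      have h1 : (z₀ : ℝ) ≤ e * Real.log N := Nat.floor_le (by positivity)
      have h2 : e * Real.log N ≤ 1 * Real.log N := mul_le_mul_of_nonneg_right (by linarith) (by linarith)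
      linarith
    have small : ∀ z' : ℕ, z' ≤ z₀ → ∀ n : ℤ, (f A - ε / 2) * (W z' * Y) ≤ (RC z' Y n : ℝ) ∧
        (RC z' Y n : ℝ) ≤ (F A + ε / 2) * (W z' * Y) := by
      intro z' hz' n
      have h1 : (z' : ℝ) ≤ Real.log N := le_trans (by exact_mod_cast hz') hz₀l
      have h2 : (z' : ℝ) ^ A ≤ Y :=
        (Real.rpow_le_rpow (Nat.cast_nonneg _) h1 (by linarith)).trans hY
      have h3 := H₃ Y z' hY3 h2 0 n
      rw [rg_rc] at h3
      exact h3
    rcases le_total z z₀ with h | h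
    · refine triv fun n => ?_
      have h1 := small z h n
      have h2 : (ε / 2) * (W z * Y) ≤ ε * (W z * Y) := mul_le_mul_of_nonneg_right (by linarith) hWY
      constructor
      · have e1 : (f A - ε) * (W z * Y) = f A * (W z * Y) - ε * (W z * Y) := by ring
        have e2 : (f A - ε / 2) * (W z * Y) = f A * (W z * Y) - (ε / 2) * (W z * Y) := by ring
        linarith [h1.1]
      · have e1 : (F A + ε) * (W z * Y) = F A * (W z * Y) + ε * (W z * Y) := by ring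
        have e2 : (F A + ε / 2) * (W z * Y) = F A * (W z * Y) + (ε / 2) * (W z * Y) := by ring
        linarith [h1.2]
    · have hY' : (Real.log N) ^ (2 + δ) ≤ Y :=
        (Real.rpow_le_rpow_of_exponent_le hl hδA).trans hY
      have hz' : (z : ℝ) ≤ (N : ℝ) ^ c₁ :=
        hz.trans (Real.rpow_le_rpow_of_exponent_le (by linarith) (min_le_left _ _))
      obtain ⟨g1, g2⟩ := H₁ N hN1 Y z hY' hYN h hz' w hw x
      have hfac : 30 * κ / η ^ 2 * ∑ n ∈ Finset.Ioc x (x + N), w n ≤ ε * ∑ n ∈ Finset.Ioc x (x + N), w n :=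
        mul_le_mul_of_nonneg_right hκ3 hsum0
      constructor
      · have g := (g1 fun b => by rw [rg_rc]; exact (small z₀ le_rfl b).1).trans hfac
        refine le_trans ?_ g
        refine Finset.sum_le_sum_of_subset_of_nonneg ?_ fun n _ _ => sw_nonneg hw n
        intro n hn
        rw [Finset.mem_filter] at hn ⊢
        rw [rc_eq]
        refine ⟨hn.1, lt_of_lt_of_le hn.2 ?_⟩
        have e1 : (1 - η) * ((1 - κ) * ((f A - ε / 2) * (W z * Y)))
            = ((f A - ε / 2) - (η + κ - η * κ) * (f A - ε / 2)) * (W z * Y) := by ring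
        rw [e1]
        refine mul_le_mul_of_nonneg_right ?_ hWY
        have e2 : 0 ≤ η * κ := by positivity
        have e3 : η * κ ≤ η * 1 := mul_le_mul_of_nonneg_left (by linarith) hη0.le
        have e4 : (η + κ - η * κ) * (f A - ε / 2) ≤ (η + κ - η * κ) * 1 :=
          mul_le_mul_of_nonneg_left (by linarith) (by linarith)
        linarith
      · have g := (g2 fun b => by rw [rg_rc]; exact (small z₀ le_rfl b).2).trans hfac
        refine le_trans ?_ g
        refine Finset.sum_le_sum_of_subset_of_nonneg ?_ fun n _ _ => sw_nonneg hw n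
        intro n hn
        rw [Finset.mem_filter] at hn ⊢
        rw [rc_eq]
        refine ⟨hn.1, lt_of_le_of_lt ?_ hn.2⟩
        have e1 : (1 + η) * ((F A + ε / 2) * (W z * Y))
            = ((F A + ε / 2) + η * (F A + ε / 2)) * (W z * Y) := by ring
        rw [e1]
        refine mul_le_mul_of_nonneg_right ?_ hWY
        have e3 : η * (F A + ε / 2) ≤ η * (F A + ε) := mul_le_mul_of_nonneg_left (by linarith) hη0.le
        linarith
  · -- `N < Y`
    refine triv fun n => ?_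
    have hYr : (N : ℝ) ≤ Y := by exact_mod_cast hYN.le
    have h1 : (z : ℝ) ≤ (Y : ℝ) ^ c₂ := by
      refine hz.trans ((Real.rpow_le_rpow_of_exponent_le (by linarith) (min_le_right _ _)).trans ?_)
      exact Real.rpow_le_rpow hN0.le hYr hc₂.le
    have h2 : Y₂ ≤ Y := by
      have : (Y₂ : ℝ) ≤ Y := hN2.trans hYr
      exact_mod_cast this
    have h3 := abs_le.1 (H₂ Y z h2 h1 0 n)
    rw [rg_rc] at h3
    have h5 := mul_le_mul_of_nonneg_right hfA hWY
    have h6 := mul_le_mul_of_nonneg_right hFA hWY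
    constructor
    · have : (f A - ε) * (W z * Y) = f A * (W z * Y) - ε * (W z * Y) := by ring
      rw [this]
      linarith
    · have : (F A + ε) * (W z * Y) = F A * (W z * Y) + ε * (W z * Y) := by ring
      rw [this]
      linarith

/-- the explicit form -/
theorem expl {θ A ε : ℝ} (hθ0 : 0 < θ) (hθ1 : θ < 1) (hA : 2 < A) (hε : 0 < ε) :
    ∃ c : ℝ, 0 < c ∧ ∃ T : ℝ, ∀ N : ℕ, T ≤ N → ∀ Y z : ℕ,
    (Real.log N) ^ A ≤ Y → (z : ℝ) ≤ (N : ℝ) ^ c →
    ∀ w : ℤ → ℝ, TW.SquareWeight ((N : ℝ) ^ θ) w → ∀ x : ℤ,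
    (A ≤ 4 → ∑ n ∈ (Finset.Ioc x (x + N)).filter (fun n => (RC z Y n : ℝ) <
        (2 * Real.exp Real.eulerMascheroniConstant * Real.log (A - 1) / A - ε) * (W z * Y)), w n
        ≤ ε * ∑ n ∈ Finset.Ioc x (x + N), w n) ∧
    (A ≤ 3 → ∑ n ∈ (Finset.Ioc x (x + N)).filter (fun n =>
        (2 * Real.exp Real.eulerMascheroniConstant / A + ε) * (W z * Y) < (RC z Y n : ℝ)), w n
        ≤ ε * ∑ n ∈ Finset.Ioc x (x + N), w n) := by
  obtain ⟨A0, F, f, hS⟩ := Pool.Agent.W366.DC.SFX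
  have hA0 := Run7.h52.X9a.A0_eq hS
  obtain ⟨c, hc, T, H⟩ := mainX hS hθ0 hθ1 hA hε
  refine ⟨c, hc, T, fun N hN Y z hY hz w hw x => ?_⟩
  obtain ⟨h1, h2⟩ := H N hN Y z hY hz w hw x
  constructor
  · intro hA4
    rw [hS.f4 A hA.le hA4, hA0] at h1
    exact h1
  · intro hA3
    rw [hS.F3 A (by linarith) hA3, hA0] at h2
    exact h2

end Run7.h52.X11
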