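import Pool.Agent.Run7.h52.E5
import Pool.Agent.Run7.h52.X11

/-!
Progressions of length `(log N) ^ A`, `A > 2`, and square weights of residues: every modulus.
-/

set_option autoImplicit false
set_option linter.unusedSectionVars false

namespace Run7.h52.E6

open Finset Run7.h52.Count Run7.h52.Rough Run7.h52.Asym Run7.h52.AsmV Run7.h52.U19 Run7.h52.U20
  Run7.h52.X10 Run7.h52.X11 Run7.h52.E4 Run7.h52.E5
open Pool.Agent.W23.DC

/-- bounds for all classes give bounds for the average -/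
lemma det_avg {g z Y : ℕ} {a b : ℝ}
    (h : ∀ n : ℤ, a * (W z * Y) ≤ (RC z Y n : ℝ) ∧ (RC z Y n : ℝ) ≤ b * (W z * Y)) (n : ℤ) :
    a * (Wg g z * Y) ≤ (Rg g z Y n : ℝ) ∧ (Rg g z Y n : ℝ) ≤ b * (Wg g z * Y) := by
  obtain ⟨α, _, hα⟩ := exists_inv g z
  have hΦ : (0 : ℝ) < ((Nat.totient (Gg g z) : ℕ) : ℝ) := by
    exact_mod_cast Nat.totient_pos.2 (Gg_pos g z)
  have hWφ := W_phi g z
  set Φ : ℝ := ((Nat.totient (Gg g z) : ℕ) : ℝ) with hΦd
  have hav : ∑ t ∈ Finset.range (Gg g z), (RC z Y (α * n + Mg g z * (t : ℤ)) : ℝ) = Φ * (Rg g z Y n : ℝ) := by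
    have := avg hα Y n
    simp only [rc_eq] at this
    rw [hΦd]
    exact_mod_cast this
  constructor
  · have h1 := Finset.sum_le_sum fun t (_ : t ∈ Finset.range (Gg g z)) => (h (α * n + Mg g z * (t : ℤ))).1
    rw [Finset.sum_const, Finset.card_range, nsmul_eq_mul, hav] at h1
    have e : (Gg g z : ℝ) * (a * (W z * Y)) = Φ * (a * (Wg g z * Y)) := by
      have : (Gg g z : ℝ) * (a * (W z * Y)) = a * ((Gg g z * W z) * Y) := by ring
      rw [this, hWφ]; ring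
    rw [e] at h1
    exact le_of_mul_le_mul_left h1 hΦ
  · have h1 := Finset.sum_le_sum fun t (_ : t ∈ Finset.range (Gg g z)) => (h (α * n + Mg g z * (t : ℤ))).2
    rw [Finset.sum_const, Finset.card_range, nsmul_eq_mul, hav] at h1
    have e : (Gg g z : ℝ) * (b * (W z * Y)) = Φ * (b * (Wg g z * Y)) := by
      have : (Gg g z : ℝ) * (b * (W z * Y)) = b * ((Gg g z * W z) * Y) := by ring
      rw [this, hWφ]; ring
    rw [e] at h1
    exact le_of_mul_le_mul_left h1 hΦ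

theorem mainG {A0 : ℝ} {F f : ℝ → ℝ} (hS : SF A0 F f) {θ A ε B : ℝ} (hB : 0 ≤ B) (hθ0 : 0 < θ) (hθ1 : θ < 1)
    (hA : 2 < A) (hε : 0 < ε) : ∃ c : ℝ, 0 < c ∧ ∃ T : ℝ, ∀ N : ℕ, T ≤ N → ∀ Y z : ℕ,
    (Real.log N) ^ A ≤ Y → (z : ℝ) ≤ (N : ℝ) ^ c → ∀ g : ℕ, 1 ≤ g → (g : ℝ) ≤ (N : ℝ) ^ B →
    ∀ w : ℤ → ℝ, TW.SquareWeight ((N : ℝ) ^ θ) w → ∀ x : ℤ,
    ∑ n ∈ (Finset.Ioc x (x + N)).filter (fun n => (Rg g z Y n : ℝ) < (f A - ε) * (Wg g z * Y)), w n
        ≤ ε * ∑ n ∈ Finset.Ioc x (x + N), w n ∧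
    ∑ n ∈ (Finset.Ioc x (x + N)).filter (fun n => (F A + ε) * (Wg g z * Y) < (Rg g z Y n : ℝ)), w n
        ≤ ε * ∑ n ∈ Finset.Ioc x (x + N), w n := by
  classical
  have hFA : 1 ≤ F A := hS.F1 A (by linarith)
  have hfA : f A ≤ 1 := hS.f1 A (by linarith)
  -- the parameters
  set η : ℝ := ε / 4 with hη
  have hη0 : 0 < η := by positivity
  set G1 : ℝ := F A + ε / 2 with hG1
  have hG10 : 0 < G1 := by linarith
  set κ : ℝ := min (1 / 10) (min (ε / 4) (ε * η ^ 2 / (30 * G1 ^ 2))) with hκ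
  have hκ0 : 0 < κ := lt_min (by norm_num) (lt_min (by positivity) (by positivity))
  have hκ1 : κ ≤ 1 / 10 := min_le_left _ _
  have hκ2 : κ ≤ ε / 4 := (min_le_right _ _).trans (min_le_left _ _)
  have hκ3 : 30 * κ * G1 ^ 2 / η ^ 2 ≤ ε := by
    have h1 : κ ≤ ε * η ^ 2 / (30 * G1 ^ 2) := (min_le_right _ _).trans (min_le_right _ _)
    rw [le_div_iff₀ (by positivity)] at h1
    rw [div_le_iff₀ (by positivity)]
    linarith
  set e : ℝ := (1 - θ) / 12 with he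
  have he0 : 0 < e := by rw [he]; linarith
  have he1 : e ≤ 1 / 2 := by rw [he]; linarith
  have hθe : 6 * e < 1 - θ := by rw [he]; linarith
  set δ : ℝ := min (A - 2) 1 with hδ
  have hδ0 : 0 < δ := lt_min (by linarith) one_pos
  have hδ1 : δ ≤ 1 := min_le_right _ _
  have hδA : 2 + δ ≤ A := by
    have : δ ≤ A - 2 := min_le_left _ _
    linarith
  obtain ⟨c₁, hc₁, hc₁1, T₁, hT₁3, H₁⟩ := defG hB hδ0 hδ1 (θ := θ) (e := e) (κ := κ) (η := η) (G0 := f A - ε / 2)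
    (G1 := G1) he0 he1 hθe hθ0 hκ0 hκ1 hη0
  obtain ⟨c₂, hc₂, Y₂, H₂⟩ := fund hε
  obtain ⟨Y₃, H₃⟩ := det hS hA (by positivity : 0 < ε / 2)
  -- `N` large
  set T : ℝ := max T₁ (max Y₂ (Real.exp (max 1 (Y₃ : ℝ)))) with hT
  refine ⟨min c₁ c₂, lt_min hc₁ hc₂, T, fun N hN Y z hY hz g hg hgN w hw x => ?_⟩
  have hN1 : T₁ ≤ N := (le_max_left _ _).trans hN
  have hN2 : (Y₂ : ℝ) ≤ N := ((le_max_left _ _).trans (le_max_right _ _)).trans hN
  have hN3 : Real.exp (max 1 (Y₃ : ℝ)) ≤ N := ((le_max_right _ _).trans (le_max_right _ _)).trans hN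
  have hNr : (3 : ℝ) ≤ N := hT₁3.trans hN1
  have hN0 : (0 : ℝ) < N := by linarith
  have hl1 : max 1 (Y₃ : ℝ) ≤ Real.log N := by rwa [Real.le_log_iff_exp_le hN0]
  have hl : 1 ≤ Real.log N := (le_max_left _ _).trans hl1
  have hlY3 : (Y₃ : ℝ) ≤ Real.log N := (le_max_right _ _).trans hl1
  have hlA : Real.log N ≤ (Real.log N) ^ A := by
    calc Real.log N = (Real.log N) ^ (1 : ℝ) := (Real.rpow_one _).symm
      _ ≤ _ := Real.rpow_le_rpow_of_exponent_le hl (by linarith)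
  have hY3 : Y₃ ≤ Y := by
    have : (Y₃ : ℝ) ≤ Y := hlY3.trans (hlA.trans hY)
    exact_mod_cast this
  have hsum0 : 0 ≤ ∑ n ∈ Finset.Ioc x (x + N), w n := Finset.sum_nonneg fun n _ => sw_nonneg hw n
  have hWgY : 0 ≤ Wg g z * (Y : ℝ) := mul_nonneg (Wg_pos g z).le (Nat.cast_nonneg _)
  -- deterministic bounds suffice
  have triv : (∀ n : ℤ, (f A - ε) * (W z * Y) ≤ (RC z Y n : ℝ) ∧ (RC z Y n : ℝ) ≤ (F A + ε) * (W z * Y)) →
      ∑ n ∈ (Finset.Ioc x (x + N)).filter (fun n => (Rg g z Y n : ℝ) < (f A - ε) * (Wg g z * Y)), w n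
        ≤ ε * ∑ n ∈ Finset.Ioc x (x + N), w n ∧
      ∑ n ∈ (Finset.Ioc x (x + N)).filter (fun n => (F A + ε) * (Wg g z * Y) < (Rg g z Y n : ℝ)), w n
        ≤ ε * ∑ n ∈ Finset.Ioc x (x + N), w n := by
    intro h
    rw [Finset.filter_eq_empty_iff.2 (fun n _ => not_lt.2 (det_avg h n).1),
      Finset.filter_eq_empty_iff.2 (fun n _ => not_lt.2 (det_avg h n).2), Finset.sum_empty]
    constructor <;> positivity
  have hWY : 0 ≤ W z * (Y : ℝ) := mul_nonneg (W_pos z).le (Nat.cast_nonneg _)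
  rcases le_or_gt Y N with hYN | hYN
  · -- `Y ≤ N`
    set z₀ : ℕ := ⌊e * Real.log N⌋₊ with hz₀
    have hz₀l : (z₀ : ℝ) ≤ Real.log N := by
      have h1 : (z₀ : ℝ) ≤ e * Real.log N := Nat.floor_le (by positivity)
      have h2 : e * Real.log N ≤ 1 * Real.log N := mul_le_mul_of_nonneg_right (by linarith) (by linarith)
      linarith
    have small : ∀ z' : ℕ, z' ≤ z₀ → ∀ n : ℤ, (f A - ε / 2) * (W z' * Y) ≤ (RC z' Y n : ℝ) ∧
        (RC z' Y n : ℝ) ≤ (F A + ε / 2) * (W z' * Y) := by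
      intro z' hz' n
      have h1 : (z' : ℝ) ≤ Real.log N := le_trans (by exact_mod_cast hz') hz₀l
      have h2 : (z' : ℝ) ^ A ≤ Y :=
        (Real.rpow_le_rpow (Nat.cast_nonneg _) h1 (by linarith)).trans hY
      have h3 := H₃ Y z' hY3 h2 0 n
      rw [rg_rc] at h3
      exact h3
    rcases le_total z z₀ with h | h
    · refine triv fun n => ?_
      have h1 := small z h n
      have h2 : (ε / 2) * (W z * Y) ≤ ε * (W z * Y) := mul_le_mul_of_nonneg_right (by linarith) hWY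
      constructor
      · have e1 : (f A - ε) * (W z * Y) = f A * (W z * Y) - ε * (W z * Y) := by ring
        have e2 : (f A - ε / 2) * (W z * Y) = f A * (W z * Y) - (ε / 2) * (W z * Y) := by ring
        linarith [h1.1]
      · have e1 : (F A + ε) * (W z * Y) = F A * (W z * Y) + ε * (W z * Y) := by ring
        have e2 : (F A + ε / 2) * (W z * Y) = F A * (W z * Y) + (ε / 2) * (W z * Y) := by ring
        linarith [h1.2]
    · have hY' : (Real.log N) ^ (2 + δ) ≤ Y :=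
        (Real.rpow_le_rpow_of_exponent_le hl hδA).trans hY
      have hz' : (z : ℝ) ≤ (N : ℝ) ^ c₁ :=
        hz.trans (Real.rpow_le_rpow_of_exponent_le (by linarith) (min_le_left _ _))
      have hH := H₁ N hN1 Y z hY' hYN h hz' g hg hgN w hw x (fun b => by rw [rg_rc]; exact small z₀ le_rfl b)
      have hfac : 30 * κ * G1 ^ 2 / η ^ 2 * ∑ n ∈ Finset.Ioc x (x + N), w n ≤ ε * ∑ n ∈ Finset.Ioc x (x + N), w n :=
        mul_le_mul_of_nonneg_right hκ3 hsum0
      constructor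
      · refine (hH (fun n => (Rg g z Y n : ℝ) < (f A - ε) * (Wg g z * Y)) inferInstance ?_).trans hfac
        intro μ h1 _ n hn
        rw [abs_sub_comm]
        refine le_trans ?_ (le_abs_self _)
        have e2 : κ * (f A - ε / 2) ≤ κ * 1 := mul_le_mul_of_nonneg_left (by linarith) hκ0.le
        have e3 : η + (f A - ε) ≤ (1 - κ) * (f A - ε / 2) := by
          rw [hη]
          linarith
        have e4 := mul_le_mul_of_nonneg_right e3 hWgY
        have e5 : (1 - κ) * (f A - ε / 2) * (Wg g z * Y) = (1 - κ) * ((f A - ε / 2) * (Wg g z * Y)) := by ring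
        rw [e5, add_mul] at e4
        linarith
      · refine (hH (fun n => (F A + ε) * (Wg g z * Y) < (Rg g z Y n : ℝ)) inferInstance ?_).trans hfac
        intro μ _ h1 n hn
        refine le_trans ?_ (le_abs_self _)
        have e3 : η + G1 ≤ F A + ε := by
          rw [hη, hG1]
          linarith
        have e4 := mul_le_mul_of_nonneg_right e3 hWgY
        rw [add_mul] at e4
        linarith
  · -- `N < Y`
    refine triv fun n => ?_
    have hYr : (N : ℝ) ≤ Y := by exact_mod_cast hYN.le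
    have h1 : (z : ℝ) ≤ (Y : ℝ) ^ c₂ := by
      refine hz.trans ((Real.rpow_le_rpow_of_exponent_le (by linarith) (min_le_right _ _)).trans ?_)
      exact Real.rpow_le_rpow hN0.le hYr hc₂.le
    have h2 : Y₂ ≤ Y := by
      have : (Y₂ : ℝ) ≤ Y := hN2.trans hYr
      exact_mod_cast this
    have h3 := abs_le.1 (H₂ Y z h2 h1 0 n)
    rw [rg_rc] at h3
    have h5 := mul_le_mul_of_nonneg_right hfA hWY
    have h6 := mul_le_mul_of_nonneg_right hFA hWY
    constructor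
    · have : (f A - ε) * (W z * Y) = f A * (W z * Y) - ε * (W z * Y) := by ring
      rw [this]
      linarith
    · have : (F A + ε) * (W z * Y) = F A * (W z * Y) + ε * (W z * Y) := by ring
      rw [this]
      linarith

/-- the explicit form -/
theorem explG {θ A ε B : ℝ} (hB : 0 ≤ B) (hθ0 : 0 < θ) (hθ1 : θ < 1) (hA : 2 < A) (hε : 0 < ε) :
    ∃ c : ℝ, 0 < c ∧ ∃ T : ℝ, ∀ N : ℕ, T ≤ N → ∀ Y z : ℕ,
    (Real.log N) ^ A ≤ Y → (z : ℝ) ≤ (N : ℝ) ^ c → ∀ g : ℕ, 1 ≤ g → (g : ℝ) ≤ (N : ℝ) ^ B →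
    ∀ w : ℤ → ℝ, TW.SquareWeight ((N : ℝ) ^ θ) w → ∀ x : ℤ,
    (∑ n ∈ (Finset.Ioc x (x + N)).filter (fun n =>
        (2 * Real.exp Real.eulerMascheroniConstant / A + ε) * (Wg g z * Y) < |(Rg g z Y n : ℝ) - Wg g z * Y|), w n
        ≤ ε * ∑ n ∈ Finset.Ioc x (x + N), w n) ∧
    (A ≤ 4 → ∑ n ∈ (Finset.Ioc x (x + N)).filter (fun n => (Rg g z Y n : ℝ) <
        (2 * Real.exp Real.eulerMascheroniConstant * Real.log (A - 1) / A - ε) * (Wg g z * Y)), w n
        ≤ ε * ∑ n ∈ Finset.Ioc x (x + N), w n) ∧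
    (A ≤ 3 → ∑ n ∈ (Finset.Ioc x (x + N)).filter (fun n =>
        (2 * Real.exp Real.eulerMascheroniConstant / A + ε) * (Wg g z * Y) < (Rg g z Y n : ℝ)), w n
        ≤ ε * ∑ n ∈ Finset.Ioc x (x + N), w n) := by
  classical
  obtain ⟨A0, F, f, hS⟩ := Pool.Agent.W366.DC.SFX
  have hA0 := Run7.h52.X9a.A0_eq hS
  obtain ⟨c, hc, T, H⟩ := mainG hS hB hθ0 hθ1 hA (by positivity : 0 < ε / 2)
  refine ⟨c, hc, T, fun N hN Y z hY hz g hg hgN w hw x => ?_⟩
  obtain ⟨h1, h2⟩ := H N hN Y z hY hz g hg hgN w hw x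
  have hsum0 : 0 ≤ ∑ n ∈ Finset.Ioc x (x + N), w n := Finset.sum_nonneg fun n _ => sw_nonneg hw n
  have hWgY : 0 ≤ Wg g z * (Y : ℝ) := mul_nonneg (Wg_pos g z).le (Nat.cast_nonneg _)
  have hw0 : ∀ n, 0 ≤ w n := fun n => sw_nonneg hw n
  have hεs : ε / 2 * ∑ n ∈ Finset.Ioc x (x + N), w n ≤ ε * ∑ n ∈ Finset.Ioc x (x + N), w n :=
    mul_le_mul_of_nonneg_right (by linarith) hsum0
  have hFA : 1 ≤ F A := hS.F1 A (by linarith)
  have hfA : f A ≤ 1 := hS.f1 A (by linarith)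
  have hd := Run7.h52.X9a.diff_le hS A hA.le
  rw [hA0] at hd
  set K : ℝ := 2 * Real.exp Real.eulerMascheroniConstant / A with hK
  refine ⟨?_, ?_, ?_⟩
  · have hsub : (Finset.Ioc x (x + N)).filter (fun n => (K + ε) * (Wg g z * Y) < |(Rg g z Y n : ℝ) - Wg g z * Y|)
        ⊆ ((Finset.Ioc x (x + N)).filter (fun n => (Rg g z Y n : ℝ) < (f A - ε / 2) * (Wg g z * Y))) ∪
          ((Finset.Ioc x (x + N)).filter (fun n => (F A + ε / 2) * (Wg g z * Y) < (Rg g z Y n : ℝ))) := by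
      intro n hn
      rw [Finset.mem_filter] at hn
      rw [Finset.mem_union, Finset.mem_filter, Finset.mem_filter]
      rcases lt_abs.1 hn.2 with h | h
      · refine Or.inr ⟨hn.1, lt_of_le_of_lt ?_ (by linarith : (K + ε) * (Wg g z * Y) + Wg g z * Y < (Rg g z Y n : ℝ))⟩
        have h3 : F A + ε / 2 ≤ K + ε + 1 := by linarith
        have h4 := mul_le_mul_of_nonneg_right h3 hWgY
        rw [add_mul (K + ε), one_mul] at h4
        exact h4
      · refine Or.inl ⟨hn.1, lt_of_lt_of_le (by linarith : (Rg g z Y n : ℝ) < Wg g z * Y - (K + ε) * (Wg g z * Y)) ?_⟩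
        have h3 : 1 - (K + ε) ≤ f A - ε / 2 := by linarith
        have h4 := mul_le_mul_of_nonneg_right h3 hWgY
        rw [sub_mul 1, one_mul] at h4
        exact h4
    have h3 := Finset.sum_le_sum_of_subset_of_nonneg hsub fun n _ _ => hw0 n
    refine h3.trans ?_
    have h4 := Finset.sum_union_inter (f := w)
      (s₁ := (Finset.Ioc x (x + N)).filter (fun n => (Rg g z Y n : ℝ) < (f A - ε / 2) * (Wg g z * Y)))
      (s₂ := (Finset.Ioc x (x + N)).filter (fun n => (F A + ε / 2) * (Wg g z * Y) < (Rg g z Y n : ℝ)))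
    have h5 := Finset.sum_nonneg fun n (_ : n ∈
      (Finset.Ioc x (x + N)).filter (fun n => (Rg g z Y n : ℝ) < (f A - ε / 2) * (Wg g z * Y)) ∩
      (Finset.Ioc x (x + N)).filter (fun n => (F A + ε / 2) * (Wg g z * Y) < (Rg g z Y n : ℝ))) => hw0 n
    linarith
  · intro hA4
    rw [hS.f4 A hA.le hA4, hA0] at h1
    refine le_trans ?_ (h1.trans hεs)
    refine Finset.sum_le_sum_of_subset_of_nonneg ?_ fun n _ _ => hw0 n
    intro n hn
    rw [Finset.mem_filter] at hn ⊢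
    refine ⟨hn.1, lt_of_lt_of_le hn.2 (mul_le_mul_of_nonneg_right (by linarith) hWgY)⟩
  · intro hA3
    rw [hS.F3 A (by linarith) hA3, hA0] at h2
    refine le_trans ?_ (h2.trans hεs)
    refine Finset.sum_le_sum_of_subset_of_nonneg ?_ fun n _ _ => hw0 n
    intro n hn
    rw [Finset.mem_filter] at hn ⊢
    refine ⟨hn.1, lt_of_le_of_lt (mul_le_mul_of_nonneg_right ?_ hWgY) hn.2⟩
    linarith

end Run7.h52.E6
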