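import Pool.Agent.Run7.h52.E6
import Pool.Agent.N610.MS.CNT
import Pool.Agent.N610.MS.LEG
import Pool.Agent.N610.MS.BON

/-!
The Maier matrix and residue classes of the sieve: classes with too many and with too few survivors.
-/

set_option autoImplicit false
set_option linter.unusedSectionVars false

namespace Run7.h52.E8

open Finset Filter Run7.h52.Count Run7.h52.Rough Run7.h52.Asym Run7.h52.AsmV Run7.h52.U19 Run7.h52.U20
  Run7.h52.E4
open Pool.Agent.N610.MS (V rel S_CNT)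

lemma Pn_prod {P : Finset ℕ} {z : ℕ} (hP : ∀ p ∈ P, p.Prime ∧ p ≤ z) :
    Pn (∏ p ∈ (PP z) \ P, p) z = P := by
  ext p
  rw [mem_Pn]
  constructor
  · rintro ⟨h1, h2, h3⟩
    by_contra hcon
    exact h3 (Finset.dvd_prod_of_mem (fun p => p) (Finset.mem_sdiff.2 ⟨mem_PP.2 ⟨h1, h2⟩, hcon⟩))
  · intro hp
    obtain ⟨h1, h2⟩ := hP p hp
    refine ⟨h1, h2, fun h => ?_⟩
    obtain ⟨q, hq, hd⟩ := (Prime.dvd_finsetProd_iff h1.prime _).1 h
    rw [Finset.mem_sdiff] at hq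
    have := (Nat.prime_dvd_prime_iff_eq h1 (mem_PP.1 hq.1).1).1 hd
    subst this
    exact hq.2 hp

lemma V_eq {g z Y : ℕ} : Rg g z Y 0 = V (Pn g z) Y := by
  unfold Rg V
  refine Finset.card_bij (fun h _ => h.toNat) ?_ ?_ ?_
  · intro h hh
    rw [Finset.mem_filter, Finset.mem_Ioc] at hh
    rw [Finset.mem_filter, Finset.mem_Icc]
    refine ⟨by omega, fun p hp hd => hh.2 p hp ?_⟩
    have e : ((h.toNat : ℕ) : ℤ) = h := Int.toNat_of_nonneg (by omega)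
    have : (p : ℤ) ∣ h := by rw [← e]; exact_mod_cast hd
    rw [zero_add]
    exact this.mul_left _
  · intro a ha b hb h
    rw [Finset.mem_filter, Finset.mem_Ioc] at ha hb
    omega
  · intro h hh
    rw [Finset.mem_filter, Finset.mem_Icc] at hh
    refine ⟨(h : ℤ), ?_, by simp⟩
    rw [Finset.mem_filter, Finset.mem_Ioc]
    refine ⟨by omega, fun p hp hd => hh.2 p hp ?_⟩
    rw [zero_add] at hd
    have hp' := mem_Pn.1 hp
    have hd' : p ∣ g * h := by exact_mod_cast hd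
    exact (hp'.1.dvd_mul.1 hd').resolve_left hp'.2.2

/-- classes above and below the average -/
theorem rel_class {P : Finset ℕ} {z Y : ℕ} (hP : ∀ p ∈ P, p.Prime ∧ p ≤ z) (hY : 1 ≤ Y) :
    (∃ b : ℤ, rel P Y * (W z * Y) ≤ rg z (Finset.Ioc (0 : ℤ) (0 + (Y : ℤ))) b) ∧
    (∃ b : ℤ, rg z (Finset.Ioc (0 : ℤ) (0 + (Y : ℤ))) b ≤ rel P Y * (W z * Y)) := by
  classical
  set g : ℕ := ∏ p ∈ (PP z) \ P, p with hg
  have hPn : Pn g z = P := Pn_prod hP
  obtain ⟨α, _, hα⟩ := exists_inv g z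
  have hΦ : (0 : ℝ) < ((Nat.totient (Gg g z) : ℕ) : ℝ) := by
    exact_mod_cast Nat.totient_pos.2 (Gg_pos g z)
  have hWφ := W_phi g z
  have hWg0 := Wg_pos g z
  set Φ : ℝ := ((Nat.totient (Gg g z) : ℕ) : ℝ) with hΦd
  have hav : ∑ t ∈ Finset.range (Gg g z), (rg z (Finset.Ioc (0 : ℤ) (0 + (Y : ℤ))) (Mg g z * (t : ℤ)))
      = Φ * (V P Y : ℝ) := by
    have h1 := avg hα Y 0
    rw [V_eq, hPn] at h1
    rw [hΦd]
    have h2 : ∀ t ∈ Finset.range (Gg g z), rg z (Finset.Ioc (0 : ℤ) (0 + (Y : ℤ))) (Mg g z * (t : ℤ))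
        = ((rc z Y (α * 0 + Mg g z * (t : ℤ)) : ℕ) : ℝ) := by
      intro t _
      have e : (α : ℤ) * 0 + Mg g z * (t : ℤ) = Mg g z * (t : ℤ) := by ring
      rw [e]
      rfl
    rw [Finset.sum_congr rfl h2]
    exact_mod_cast h1
  have hY0 : (0 : ℝ) < Y := by exact_mod_cast hY
  have hrel : (V P Y : ℝ) = rel P Y * (Y * Wg g z) := by
    unfold rel
    rw [Nat.floor_natCast]
    have : Wg g z = ∏ p ∈ P, (1 - 1 / (p : ℝ)) := by rw [Wg, hPn]
    rw [← this]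
    field_simp
  have hkey : Φ * (V P Y : ℝ) = ∑ t ∈ Finset.range (Gg g z), rel P Y * (W z * Y) := by
    rw [Finset.sum_const, Finset.card_range, nsmul_eq_mul, hrel]
    have : (Gg g z : ℝ) * (rel P Y * (W z * Y)) = rel P Y * ((Gg g z * W z) * Y) := by ring
    rw [this, hWφ]
    ring
  have hne : (Finset.range (Gg g z)).Nonempty := Finset.nonempty_range_iff.2 (Gg_pos g z).ne'
  constructor
  · obtain ⟨t, _, ht⟩ := Finset.exists_le_of_sum_le hne (hkey.symm.trans hav.symm).le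
    exact ⟨_, ht⟩
  · obtain ⟨t, _, ht⟩ := Finset.exists_le_of_sum_le hne (hav.trans hkey).le
    exact ⟨_, ht⟩

/-- **Maier**: classes with too many and with too few survivors -/
theorem maier_cls {a : ℝ} (ha : 0 < a) : ∃ κ : ℝ, 0 < κ ∧ ∃ δ : ℝ, 0 < δ ∧ δ ≤ 1 ∧ ∀ e : ℝ, 0 < e → e ≤ 1 / 2 →
    ∀ᶠ l : ℝ in atTop, ∀ Y : ℕ, l ^ a ≤ Y → (Y : ℝ) ≤ l ^ (a + κ) →
      (∃ b : ℤ, (1 + δ) * (W ⌊e * l⌋₊ * Y) ≤ rg ⌊e * l⌋₊ (Finset.Ioc (0 : ℤ) (0 + (Y : ℤ))) b) ∧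
      (∃ b : ℤ, rg ⌊e * l⌋₊ (Finset.Ioc (0 : ℤ) (0 + (Y : ℤ))) b ≤ (1 - δ) * (W ⌊e * l⌋₊ * Y)) := by
  have hC : S_CNT := Pool.Agent.N610.MS.t_CNT Pool.Agent.N610.MS.t_BON
    (Pool.Agent.N610.MS.t_LEG Pool.Agent.N610.MS.t_BON)
  obtain ⟨κ₀, hκ₀, hC1⟩ := hC a 1 ha one_pos
  obtain ⟨δp, hδp, hδp1, hp⟩ := hC1 1 1 one_pos (Or.inl rfl)
  obtain ⟨δm, hδm, hδm1, hm⟩ := hC1 1 (-1) one_pos (Or.inr rfl)
  refine ⟨κ₀ / 2, by positivity, min δp δm, lt_min hδp hδm, (min_le_left _ _).trans hδp1, fun e he0 he1 => ?_⟩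
  have hX : Tendsto (fun l : ℝ => Real.exp (e * l)) atTop atTop :=
    Real.tendsto_exp_atTop.comp (tendsto_id.const_mul_atTop he0)
  have hpow : ∀ᶠ l : ℝ in atTop, 1 / e ^ (a + κ₀) ≤ l ^ (κ₀ / 2) :=
    (tendsto_rpow_atTop (by positivity : 0 < κ₀ / 2)).eventually_ge_atTop _
  filter_upwards [hX.eventually (hp 1 one_pos), hX.eventually (hm 1 one_pos), hpow, eventually_ge_atTop (1 : ℝ)]
    with l h1 h2 h3 h4 Y hY1 hY2
  have hl0 : 0 < l := by linarith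
  have hlog : Real.log (Real.exp (e * l)) = e * l := Real.log_exp _
  have hG : Pool.Agent.H378R2.GoodS (Real.exp (e * l)) ∅ := by
    refine ⟨by simp, ?_⟩
    rw [Finset.sum_empty]
    positivity
  have hel : 0 < e * l := by positivity
  have hY1' : (Real.log (Real.exp (e * l))) ^ a ≤ (Y : ℝ) := by
    rw [hlog]
    refine le_trans (Real.rpow_le_rpow hel.le ?_ ha.le) hY1
    have := mul_le_mul_of_nonneg_right he1 hl0.le
    linarith
  have hY2' : (Y : ℝ) ≤ (Real.log (Real.exp (e * l))) ^ (a + κ₀) := by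
    rw [hlog, Real.mul_rpow he0.le hl0.le]
    refine hY2.trans ?_
    have e1 : l ^ (a + κ₀) = l ^ (a + κ₀ / 2) * l ^ (κ₀ / 2) := by
      rw [← Real.rpow_add hl0]; congr 1; ring
    rw [e1]
    have h5 : 0 < e ^ (a + κ₀) := by positivity
    rw [div_le_iff₀ h5] at h3
    have h6 : 0 < l ^ (a + κ₀ / 2) := by positivity
    have := mul_le_mul_of_nonneg_left h3 h6.le
    linarith
  have hYpos : 1 ≤ Y := by
    have : (1 : ℝ) ≤ l ^ a := Real.one_le_rpow h4 ha.le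
    exact_mod_cast this.trans hY1
  have hprimes : ∀ P : Finset ℕ, P ⊆ Pool.Agent.H378R2.PW (Real.exp (e * l)) ∅ 1 →
      ∀ p ∈ P, p.Prime ∧ p ≤ ⌊e * l⌋₊ := by
    intro P hPs p hp
    have := hPs hp
    rw [Pool.Agent.H378R2.PW, Finset.mem_filter, Finset.mem_Icc] at this
    refine ⟨this.2.1, this.1.2.trans ?_⟩
    unfold Pool.Agent.H378R2.yy
    rw [hlog]
    exact Nat.floor_le_floor (by linarith)
  have hWY : 0 ≤ W ⌊e * l⌋₊ * (Y : ℝ) := mul_nonneg (W_pos _).le (Nat.cast_nonneg _)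
  constructor
  · obtain ⟨P, hPs, _, _, hrel, _⟩ := h1 ∅ 1 hG
    obtain ⟨b, hb⟩ := (rel_class (hprimes P hPs) hYpos).1
    refine ⟨b, le_trans (mul_le_mul_of_nonneg_right ?_ hWY) hb⟩
    have := hrel Y hY1' hY2'
    have h5 := min_le_left δp δm
    linarith
  · obtain ⟨P, hPs, _, _, hrel, _⟩ := h2 ∅ 1 hG
    obtain ⟨b, hb⟩ := (rel_class (hprimes P hPs) hYpos).2
    refine ⟨b, hb.trans (mul_le_mul_of_nonneg_right ?_ hWY)⟩
    have := hrel Y hY1' hY2'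
    have h5 := min_le_right δp δm
    linarith

end Run7.h52.E8
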