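import Pool.Agent.Run7.h52.E8

/-!
The Maier phenomenon for square weights: residue classes on which almost all intervals (or progressions) contain too many,
and classes on which almost all contain too few, rough numbers.
-/

set_option autoImplicit false
set_option linter.unusedSectionVars false

namespace Run7.h52.E9

open Finset Filter Run7.h52.Count Run7.h52.Rough Run7.h52.Asym Run7.h52.AsmV Run7.h52.U11 Run7.h52.U12 Run7.h52.U19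
  Run7.h52.U20 Run7.h52.E3 Run7.h52.E4 Run7.h52.E5 Run7.h52.E8

lemma rg_congr {z : ℕ} (H : Finset ℤ) {m n : ℤ} (h : ((W0 z : ℕ) : ℤ) ∣ m - n) : rg z H m = rg z H n := by
  unfold rg SW.survivors
  congr 2
  refine Finset.filter_congr fun k _ => forall₂_congr fun p hp => not_congr ?_
  have h1 : (p : ℤ) ∣ ((W0 z : ℕ) : ℤ) := by
    exact_mod_cast Finset.dvd_prod_of_mem (fun p => p) hp
  have h2 : (p : ℤ) ∣ m - n := h1.trans h
  constructor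
  · intro h3
    have := dvd_sub h3 h2
    have e : m + k - (m - n) = n + k := by ring
    rwa [e] at this
  · intro h3
    have := dvd_add h3 h2
    have e : n + k + (m - n) = m + k := by ring
    rwa [e] at this

/-- one residue class -/
theorem oneG {δ B : ℝ} (hB0 : 0 ≤ B) (hδ0 : 0 < δ) (hδ1 : δ ≤ 1) {θ e κ : ℝ} (he0 : 0 < e) (he1 : e ≤ 1 / 2)
    (hθe : 6 * e < 1 - θ) (hθ0 : 0 < θ) (hκ0 : 0 < κ) (hκ1 : κ ≤ 1 / 10) :
    ∃ (c' : ℝ), 0 < c' ∧ c' ≤ 1 ∧ ∃ T : ℝ, 3 ≤ T ∧ ∀ N : ℕ, T ≤ N → ∀ Y z : ℕ,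
    (Real.log N) ^ (2 + δ) ≤ Y → Y ≤ N → ⌊e * Real.log N⌋₊ ≤ z → (z : ℝ) ≤ (N : ℝ) ^ c' →
    ∀ g : ℕ, 1 ≤ g → (g : ℝ) ≤ (N : ℝ) ^ B → (∀ p ∈ PP ⌊e * Real.log N⌋₊, ¬ p ∣ g) →
    ∀ x b₁ : ℤ, ∃ S μ : ℝ, 0 < S ∧
      S * W ⌊e * Real.log N⌋₊ = Wg g z * rg ⌊e * Real.log N⌋₊ (Finset.Ioc (0 : ℤ) (0 + (Y : ℤ))) b₁ ∧
      (1 - κ) * S ≤ μ ∧ μ ≤ S ∧
      ∑ n ∈ Finset.Ioc x (x + N), (if ((W0 ⌊e * Real.log N⌋₊ : ℕ) : ℤ) ∣ n - g * b₁ then (1 : ℝ) else 0) *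
          ((Rg g z Y n : ℝ) - μ) ^ 2
        ≤ 30 * κ * S ^ 2 *
          ∑ n ∈ Finset.Ioc x (x + N), (if ((W0 ⌊e * Real.log N⌋₊ : ℕ) : ℤ) ∣ n - g * b₁ then (1 : ℝ) else 0) := by
  classical
  obtain ⟨c₁, _, hV⟩ := varG hB0 hδ0 hδ1
  obtain ⟨c', hc', hc1, T, hT3, hT⟩ := hV he0 he1 hθe hθ0 hκ0 hκ1
  refine ⟨c', hc', hc1, T, hT3, fun N hN Y z hY hYN hz hzN g hg hgN hgp x b₁ => ?_⟩
  obtain ⟨hz3, hcl⟩ := hT N hN Y z hY hYN hz hzN
  have hN3 : (3 : ℝ) ≤ N := hT3.trans hN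
  have hN0 : (0 : ℝ) < N := by linarith
  set z₀ := ⌊e * Real.log N⌋₊ with hz₀
  set I := Finset.Ioc (0 : ℤ) (0 + (Y : ℤ)) with hI
  have hWeq : Wr z₀ z * W z₀ = W z := (Wr_eq hz).symm
  have hWr0 := Wr_pos z₀ z
  have hW00 := W_pos z₀
  obtain ⟨α, hα1, hα⟩ := exists_inv g z
  have hαB : ((Bad α z₀ z).card : ℝ) * Real.log z₀ ≤ B * Real.log N := by
    have h1 : ((Bad α z₀ z).card : ℝ) ≤ (Bad g z₀ z).card := by exact_mod_cast Bad_inv hα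
    have h2 := bad_card (z₀ := z₀) (z := z) hg (by omega)
    have h3 : Real.log g ≤ B * Real.log N := by
      have := Real.log_le_log (by exact_mod_cast hg) hgN
      rwa [Real.log_rpow hN0] at this
    have h4 : 0 ≤ Real.log z₀ := Real.log_nonneg (by exact_mod_cast (by omega : 1 ≤ z₀))
    exact (mul_le_mul_of_nonneg_right h1 h4).trans (h2.trans h3)
  set G := Gg g z with hGd
  have hG0 : (0 : ℝ) < G := by exact_mod_cast Gg_pos g z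
  set Φ : ℝ := ((Nat.totient G : ℕ) : ℝ) with hΦd
  have hΦ : 0 < Φ := by
    rw [hΦd]
    exact_mod_cast Nat.totient_pos.2 (Gg_pos g z)
  have hWφ : (G : ℝ) * W z = Φ * Wg g z := W_phi g z
  -- all classes are the class of `b₁`
  have hsub : ∀ p ∈ PP z₀, p ∈ Pn g z := by
    intro p hp
    have hp' := mem_PP.1 hp
    exact mem_Pn.2 ⟨hp'.1, hp'.2.trans hz, hgp p hp⟩
  have hW0d : ∀ m : ℤ, (∀ p ∈ PP z₀, (p : ℤ) ∣ m) → ((W0 z₀ : ℕ) : ℤ) ∣ m := by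
    intro m hm
    have : ((W0 z₀ : ℕ) : ℤ) = ∏ p ∈ PP z₀, (p : ℤ) := by rw [W0]; push_cast; rfl
    rw [this]
    refine Finset.prod_dvd_of_coprime ?_ hm
    intro p hp q hq hpq
    have h1 := (Nat.coprime_primes (mem_PP.1 hp).1 (mem_PP.1 hq).1).2 hpq
    exact Nat.isCoprime_iff_coprime.2 h1
  have hclass : ∀ t : ℕ, rg z₀ I (α * (g * b₁) + Mg g z * (t : ℤ)) = rg z₀ I b₁ := by
    intro t
    refine rg_congr I (hW0d _ fun p hp => ?_)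
    have h1 := hα p (hsub p hp)
    have h2 : (p : ℤ) ∣ (Mg g z : ℤ) := by
      exact_mod_cast Finset.dvd_prod_of_mem (fun p => p) (hsub p hp)
    have e1 : (α : ℤ) * (g * b₁) + Mg g z * (t : ℤ) - b₁ = (g * α - 1) * b₁ + Mg g z * (t : ℤ) := by ring
    rw [e1]
    exact dvd_add (h1.mul_right _) (h2.mul_right _)
  set r₀ := rg z₀ I b₁ with hr₀
  have hcl' : ∀ t : ℕ, ∃ μ : ℝ, 0 < μ ∧ (1 - κ) * (Wr z₀ z * r₀) ≤ μ ∧ μ ≤ Wr z₀ z * r₀ ∧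
      ∑ n ∈ Finset.Ioc x (x + N),
          (if ((W0 z₀ : ℕ) : ℤ) ∣ n - g * b₁ then (1 : ℝ) else 0) *
            ((rc z Y (α * n + Mg g z * (t : ℤ)) : ℝ) - μ) ^ 2
        ≤ 30 * κ * μ ^ 2 * ∑ n ∈ Finset.Ioc x (x + N),
          (if ((W0 z₀ : ℕ) : ℤ) ∣ n - g * b₁ then (1 : ℝ) else 0) := by
    intro t
    have hlev : Transfer.HasLevel 1 (fun _ : ℤ => (1 : ℝ)) := ⟨fun _ _ => 1, fun n => by simp⟩
    have hone : ((1 : ℕ) : ℝ) * (((1 : ℕ) : ℝ)) ^ 2 ≤ (N : ℝ) ^ θ := by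
      have : (1 : ℝ) ≤ (N : ℝ) ^ θ := Real.one_le_rpow (by linarith) hθ0.le
      simpa using this
    obtain ⟨μ, _, m2, m3, m4, m5⟩ := hcl α (Mg g z * (t : ℤ)) hα1 hαB 1 1 (fun _ => 1) le_rfl le_rfl hone hlev
      x (g * b₁)
    rw [hclass t] at m3 m4
    refine ⟨μ, m2, m3, m4, ?_⟩
    simpa only [one_mul, one_pow] using m5
  choose μ hμ0 hμ1 hμ2 hμ3 using hcl'
  have hA : ∀ n ∈ Finset.Ioc x (x + N), (0 : ℝ) ≤ (if ((W0 z₀ : ℕ) : ℤ) ∣ n - g * b₁ then (1 : ℝ) else 0) := by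
    intro n _
    split_ifs
    · positivity
    · exact le_rfl
  have hav : ∀ n : ℤ, ∑ t ∈ Finset.range G, (rc z Y (α * n + Mg g z * (t : ℤ)) : ℝ) = Φ * (Rg g z Y n : ℝ) := by
    intro n
    have := avg hα Y n
    rw [hΦd]
    exact_mod_cast this
  have hva := var_avg hA hΦ (fun t n => (rc z Y (α * n + Mg g z * (t : ℤ)) : ℝ)) (fun n => (Rg g z Y n : ℝ)) hav
    (K := 30 * κ) (m := Wr z₀ z * r₀) (by positivity) (fun t _ => (hμ0 t).le) (fun t _ => hμ2 t)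
    (fun t _ => hμ3 t)
  refine ⟨G / Φ * (Wr z₀ z * r₀), (∑ t ∈ Finset.range G, μ t) / Φ, ?_, ?_, ?_, ?_, hva⟩
  · have := (hμ0 0).trans_le (hμ2 0)
    positivity
  · have h1 : G / Φ * (Wr z₀ z * r₀) * W z₀ = (G * (Wr z₀ z * W z₀)) / Φ * r₀ := by ring
    rw [h1, hWeq, hWφ]
    field_simp
  · have h1 : (G : ℝ) * ((1 - κ) * (Wr z₀ z * r₀)) ≤ ∑ t ∈ Finset.range G, μ t := by
      have := Finset.sum_le_sum fun t (_ : t ∈ Finset.range G) => hμ1 t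
      rwa [Finset.sum_const, Finset.card_range, nsmul_eq_mul] at this
    rw [le_div_iff₀ hΦ]
    refine le_trans (le_of_eq ?_) h1
    field_simp
  · have h1 : ∑ t ∈ Finset.range G, μ t ≤ (G : ℝ) * (Wr z₀ z * r₀) := by
      have := Finset.sum_le_sum fun t (_ : t ∈ Finset.range G) => hμ2 t
      rwa [Finset.sum_const, Finset.card_range, nsmul_eq_mul] at this
    rw [div_le_iff₀ hΦ]
    refine h1.trans (le_of_eq ?_)
    field_simp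

end Run7.h52.E9
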