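import Pool.Agent.Run7.h52.Op

set_option autoImplicit false
set_option linter.unusedSectionVars false

namespace Run7.h52.Ker

open Finset

variable {α : Type} [Fintype α] [DecidableEq α]

/-- `δ_k - 1/p` -/
noncomputable def uu (k b : α) : ℝ := (if b = k then 1 else 0) - 1 / (Fintype.card α : ℝ)

lemma uu_symm (k b : α) : uu k b = uu b k := by
  unfold uu; simp only [eq_comm]

lemma card_ne (k : α) : (Fintype.card α : ℝ) ≠ 0 := by
  have : 0 < Fintype.card α := Fintype.card_pos_iff.2 ⟨k⟩
  positivity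

lemma sum_uu (k : α) : ∑ b, uu k b = 0 := by
  have := card_ne k
  simp only [uu, Finset.sum_sub_distrib, Finset.sum_ite_eq', Finset.mem_univ, if_true,
    Finset.sum_const, Finset.card_univ, nsmul_eq_mul]
  field_simp
  simp

lemma sum_uu' (b : α) : ∑ k, uu k b = 0 := by
  simp only [uu_symm _ b]; exact sum_uu b

lemma sum_uu_mul (b c : α) : ∑ k, uu k b * uu k c = uu b c := by
  have h : ∀ k, uu k b * uu k c = (if k = b then uu k c else 0) - 1 / (Fintype.card α : ℝ) * uu k c := by
    intro k
    conv_lhs => rw [uu]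
    by_cases hk : b = k
    · subst hk; simp; ring
    · simp [hk, Ne.symm hk]
  simp only [h, Finset.sum_sub_distrib, Finset.sum_ite_eq', Finset.mem_univ, if_true]
  rw [← Finset.mul_sum, sum_uu', mul_zero, sub_zero]

lemma sum_uu_mul' (k c : α) : ∑ b, uu k b * uu b c = uu k c := by
  have : ∀ b, uu k b * uu b c = uu b k * uu b c := fun b => by rw [uu_symm k b]
  simp only [this]; exact sum_uu_mul k c

lemma sum_uu_sq (k : α) : ∑ b, uu k b * uu k b = uu k k := by
  have : ∀ b, uu k b * uu k b = uu b k * uu b k := fun b => by rw [uu_symm k b]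
  simp only [this]; exact sum_uu_mul k k

lemma uu_self (k : α) : uu k k = ((Fintype.card α : ℝ) - 1) / (Fintype.card α : ℝ) := by
  have := card_ne k
  unfold uu; simp; field_simp

/-- mean -/
noncomputable def E (α : Type) [Fintype α] : Matrix α α ℝ := fun _ _ => 1 / (Fintype.card α : ℝ)

/-- projection on `δ_k - 1/p` -/
noncomputable def Q (k : α) : Matrix α α ℝ :=
  fun b c => ((Fintype.card α : ℝ) / ((Fintype.card α : ℝ) - 1)) * (uu k b * uu k c)

/-- the rank one kernel `C` -/
noncomputable def Cm (k : α) : Matrix α α ℝ :=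
  fun _ c => -(1 / ((Fintype.card α : ℝ) - 1)) * uu k c

/-- indicator of `x ≠ k` -/
noncomputable def D (k : α) : Matrix α α ℝ := Matrix.diagonal fun b => if b = k then 0 else 1

lemma Q_transpose (k : α) : (Q k).transpose = Q k := by
  ext b c; simp only [Matrix.transpose_apply, Q]; ring

lemma E_transpose : (E α).transpose = E α := by
  ext b c; simp [Matrix.transpose_apply, E]

lemma E_mul_E [Nonempty α] : E α * E α = E α := by
  ext b c
  have := card_ne b
  simp only [Matrix.mul_apply, E, Finset.sum_const, Finset.card_univ, nsmul_eq_mul]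
  field_simp

lemma Q_mul_Q (k : α) (h2 : 2 ≤ Fintype.card α) : Q k * Q k = Q k := by
  ext b c
  have h := card_ne k
  have h1 : (Fintype.card α : ℝ) - 1 ≠ 0 := by
    have : (2 : ℝ) ≤ Fintype.card α := by exact_mod_cast h2
    intro h; linarith
  simp only [Matrix.mul_apply, Q]
  have : ∀ j, (Fintype.card α : ℝ) / ((Fintype.card α : ℝ) - 1) * (uu k b * uu k j) *
      ((Fintype.card α : ℝ) / ((Fintype.card α : ℝ) - 1) * (uu k j * uu k c))
      = ((Fintype.card α : ℝ) / ((Fintype.card α : ℝ) - 1)) ^ 2 * (uu k b * uu k c) * (uu k j * uu k j) := by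
    intro j; ring
  simp only [this]
  rw [← Finset.mul_sum, sum_uu_sq, uu_self]
  field_simp

lemma sum_Q_row (k b : α) : ∑ c, Q k b c = 0 := by
  simp only [Q, ← Finset.mul_sum, ← mul_assoc]
  rw [sum_uu, mul_zero]

lemma sum_C_row (k b : α) : ∑ c, Cm k b c = 0 := by
  simp only [Cm, ← Finset.mul_sum]
  rw [sum_uu, mul_zero]

lemma sum_E_row (b : α) : ∑ c, E α b c = 1 := by
  have := card_ne b
  simp [E]
  field_simp

lemma sum_one_row (b : α) : ∑ c, (1 : Matrix α α ℝ) b c = 1 := by
  simp [Matrix.one_apply]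

lemma E_mul_Q (k : α) : E α * Q k = 0 := by
  ext b c
  simp only [Matrix.mul_apply, E, Q, Matrix.zero_apply]
  have : ∀ j, 1 / (Fintype.card α : ℝ) * ((Fintype.card α : ℝ) / ((Fintype.card α : ℝ) - 1) * (uu k j * uu k c))
    = (1 / (Fintype.card α : ℝ) * ((Fintype.card α : ℝ) / ((Fintype.card α : ℝ) - 1)) * uu k c) * uu k j := by
    intro j; ring
  simp only [this]
  rw [← Finset.mul_sum, sum_uu, mul_zero]

lemma Q_mul_E (k : α) : Q k * E α = 0 := by
  have h := congrArg Matrix.transpose (E_mul_Q k)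
  rwa [Matrix.transpose_mul, Q_transpose, E_transpose, Matrix.transpose_zero] at h

lemma Ct_mul_C (k : α) (h2 : 2 ≤ Fintype.card α) :
    (Cm k).transpose * Cm k = (1 / ((Fintype.card α : ℝ) - 1)) • Q k := by
  ext b c
  have h := card_ne k
  have h1 : (Fintype.card α : ℝ) - 1 ≠ 0 := by
    have : (2 : ℝ) ≤ Fintype.card α := by exact_mod_cast h2
    intro h; linarith
  simp only [Matrix.mul_apply, Matrix.transpose_apply, Cm, Q, Matrix.smul_apply, smul_eq_mul,
    Finset.sum_const, Finset.card_univ, nsmul_eq_mul]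
  field_simp

lemma one_entry (b c : α) : (1 : Matrix α α ℝ) b c = uu b c + 1 / (Fintype.card α : ℝ) := by
  rw [Matrix.one_apply, uu]
  simp only [eq_comm (a := c)]
  ring

/-- all classes together -/
lemma sum_Q : ∑ k : α, Q k = ((Fintype.card α : ℝ) / ((Fintype.card α : ℝ) - 1)) • (1 - E α) := by
  ext b c
  rw [Matrix.sum_apply]
  simp only [Q, Matrix.smul_apply, Matrix.sub_apply, smul_eq_mul, ← Finset.mul_sum]
  rw [sum_uu_mul, one_entry, E]
  ring

lemma oneE_transpose : ((1 : Matrix α α ℝ) - E α).transpose = 1 - E α := by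
  rw [Matrix.transpose_sub, Matrix.transpose_one, E_transpose]

lemma oneE_mul [Nonempty α] : ((1 : Matrix α α ℝ) - E α) * (1 - E α) = 1 - E α := by
  rw [sub_mul, mul_sub, mul_sub, E_mul_E]; simp

lemma sum_oneE_row (b : α) : ∑ c, ((1 : Matrix α α ℝ) - E α) b c = 0 := by
  simp only [Matrix.sub_apply, Finset.sum_sub_distrib]
  rw [sum_E_row, sum_one_row, sub_self]

lemma H_transpose (k : α) : (1 - Q k).transpose = 1 - Q k := by
  rw [Matrix.transpose_sub, Matrix.transpose_one, Q_transpose]

lemma H_mul (k : α) (h2 : 2 ≤ Fintype.card α) : (1 - Q k) * (1 - Q k) = 1 - Q k := by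
  rw [sub_mul, mul_sub, mul_sub, Q_mul_Q k h2]; simp

/-- `Z = 1 - E - Q` -/
noncomputable def Z (k : α) : Matrix α α ℝ := 1 - E α - Q k

lemma Z_transpose (k : α) : (Z k).transpose = Z k := by
  rw [Z, Matrix.transpose_sub, Matrix.transpose_sub, Matrix.transpose_one, Q_transpose, E_transpose]

lemma Z_mul (k : α) (h2 : 2 ≤ Fintype.card α) : Z k * Z k = Z k := by
  have : Nonempty α := ⟨k⟩
  rw [Z, sub_mul, mul_sub (1 - E α) (1 - E α), oneE_mul, sub_mul, mul_sub (Q k), Q_mul_Q k h2,
    mul_sub (Q k), E_mul_Q, Q_mul_E]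
  simp

lemma sum_Z_row (k b : α) : ∑ c, Z k b c = 0 := by
  simp only [Z, Matrix.sub_apply (1 - E α), Finset.sum_sub_distrib]
  have := sum_oneE_row b
  simp only [Matrix.sub_apply] at this ⊢
  rw [this, sum_Q_row, sub_zero]

/-- entries of `E + C` -/
lemma EC_entry (k b c : α) (h2 : 2 ≤ Fintype.card α) :
    (E α + Cm k) b c = if c = k then 0 else 1 / ((Fintype.card α : ℝ) - 1) := by
  have h := card_ne k
  have h1 : (Fintype.card α : ℝ) - 1 ≠ 0 := by
    have : (2 : ℝ) ≤ Fintype.card α := by exact_mod_cast h2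
    intro h; linarith
  rw [Matrix.add_apply, E, Cm, uu]
  split_ifs with hc
  · field_simp; ring
  · field_simp; ring

lemma D_eq (k : α) (h2 : 2 ≤ Fintype.card α) :
    D k = (Z k).transpose * Z k + (((Fintype.card α : ℝ) - 1) / (Fintype.card α : ℝ)) •
      ((E α + Cm k).transpose * (E α + Cm k)) := by
  have h := card_ne k
  have h1 : (Fintype.card α : ℝ) - 1 ≠ 0 := by
    have : (2 : ℝ) ≤ Fintype.card α := by exact_mod_cast h2
    intro h; linarith
  rw [Z_transpose, Z_mul k h2]
  ext b c
  simp only [Matrix.add_apply _ (_ • _), Matrix.smul_apply, Matrix.mul_apply, Matrix.transpose_apply,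
    EC_entry k _ _ h2, Finset.sum_const, Finset.card_univ, nsmul_eq_mul, smul_eq_mul]
  simp only [Z, D, Matrix.sub_apply, Matrix.diagonal_apply, Matrix.one_apply, E, Q, uu]
  by_cases hb : b = k
  · by_cases hc : c = k
    · subst hb; subst hc; simp; field_simp; ring
    · subst hb; simp [hc, Ne.symm hc]; field_simp; ring
  · by_cases hc : c = k
    · subst hc; simp [hb]; field_simp; ring
    · by_cases hbc : b = c
      · subst hbc; simp [hb]; field_simp; ring
      · simp [hb, hc, hbc]; field_simp; ring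

lemma Z_mul_EC (k : α) (h2 : 2 ≤ Fintype.card α) : (Z k).transpose * (E α + Cm k) = 0 := by
  ext b c
  rw [Z_transpose]
  simp only [Matrix.mul_apply, EC_entry k _ _ h2, ← Finset.sum_mul, sum_Z_row, zero_mul,
    Matrix.zero_apply]

/-- `S = H + C` -/
lemma S_sq (k : α) (h2 : 2 ≤ Fintype.card α) :
    (1 - Q k + Cm k).transpose * (1 - Q k + Cm k)
      = (Z k).transpose * Z k + (E α + Cm k).transpose * (E α + Cm k) := by
  have h : (1 - Q k + Cm k) = Z k + (E α + Cm k) := by rw [Z]; abel
  have h' := congrArg Matrix.transpose (Z_mul_EC k h2)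
  rw [Matrix.transpose_mul, Matrix.transpose_transpose, Matrix.transpose_zero] at h'
  have h0 := Z_mul_EC k h2
  rw [h]
  generalize E α + Cm k = W at *
  rw [Matrix.transpose_add, add_mul, mul_add, mul_add, h0, h']
  simp

end Run7.h52.Ker
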