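import Pool.Agent.Run7.h52.Transfer

set_option autoImplicit false
set_option linter.unusedSectionVars false

namespace Run7.h52.LS

open Finset
open scoped ComplexConjugate

/-- `e(t/M)` -/
noncomputable def ez (M : ℕ) (t : ℤ) : ℂ := Complex.exp (Complex.I * ((2 * Real.pi * t / M : ℝ) : ℂ))

lemma ez_add (M : ℕ) (s t : ℤ) : ez M (s + t) = ez M s * ez M t := by
  unfold ez
  rw [← Complex.exp_add]
  congr 1
  push_cast; ring

lemma ez_zero (M : ℕ) : ez M 0 = 1 := by simp [ez]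

lemma ez_norm (M : ℕ) (t : ℤ) : ‖ez M t‖ = 1 := by
  unfold ez
  rw [mul_comm]
  exact Complex.norm_exp_ofReal_mul_I _

lemma ez_conj (M : ℕ) (t : ℤ) : conj (ez M t) = ez M (-t) := by
  unfold ez
  rw [← Complex.exp_conj]
  congr 1
  rw [map_mul, Complex.conj_I, Complex.conj_ofReal]
  push_cast; ring

lemma ez_self_mul {M : ℕ} (hM : 0 < M) (k : ℤ) : ez M (M * k) = 1 := by
  unfold ez
  have h0 : (M : ℂ) ≠ 0 := by exact_mod_cast hM.ne'
  have : Complex.I * ((2 * Real.pi * ((M * k : ℤ) : ℝ) / M : ℝ) : ℂ) = k * (2 * Real.pi * Complex.I) := by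
    push_cast
    field_simp
  rw [this]
  exact Complex.exp_int_mul_two_pi_mul_I k

lemma ez_of_dvd {M : ℕ} (hM : 0 < M) {t : ℤ} (h : (M : ℤ) ∣ t) : ez M t = 1 := by
  obtain ⟨k, rfl⟩ := h
  exact ez_self_mul hM k

lemma ez_congr {M : ℕ} (hM : 0 < M) {s t : ℤ} (h : (M : ℤ) ∣ s - t) : ez M s = ez M t := by
  have : s = t + (s - t) := by ring
  rw [this, ez_add, ez_of_dvd hM h, mul_one]

lemma ez_pow (M : ℕ) (t : ℤ) (n : ℕ) : ez M (t * n) = ez M t ^ n := by
  induction n with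
  | zero => simp [ez_zero]
  | succ n ih =>
    have : t * ((n + 1 : ℕ) : ℤ) = t * n + t := by push_cast; ring
    rw [this, ez_add, ih, pow_succ]

/-- distance of `e(s/M)` to `1` -/
lemma norm_ez_sub_one {M : ℕ} (hM : 0 < M) {s : ℤ} (hs : 2 * |s| ≤ M) :
    4 * |(s : ℝ)| / M ≤ ‖ez M s - 1‖ := by
  unfold ez
  rw [Complex.norm_exp_I_mul_ofReal_sub_one]
  have hM0 : (0 : ℝ) < M := by exact_mod_cast hM
  have hs' : 2 * |(s : ℝ)| ≤ M := by exact_mod_cast hs
  have hpi := Real.pi_pos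
  rw [norm_mul, Real.norm_eq_abs, Real.norm_eq_abs, abs_of_pos (by norm_num : (0 : ℝ) < 2)]
  have e : |Real.sin (2 * Real.pi * s / M / 2)| = Real.sin (Real.pi * |(s : ℝ)| / M) := by
    have e1 : Real.pi * |(s : ℝ)| / M = |2 * Real.pi * s / M / 2| := by
      rw [abs_div, abs_div, abs_mul, abs_mul, abs_of_pos hpi, abs_of_pos hM0]
      simp; ring
    have h2 : |2 * Real.pi * s / M / 2| ≤ Real.pi := by
      rw [← e1, div_le_iff₀ hM0]
      nlinarith
    rw [e1, ← abs_of_nonneg (Real.sin_nonneg_of_nonneg_of_le_pi (abs_nonneg _) h2)]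
    rcases abs_choice (2 * Real.pi * s / M / 2) with h | h
    · rw [h]
    · rw [h, Real.sin_neg, abs_neg]
  rw [e]
  have h3 := Real.mul_le_sin (x := Real.pi * |(s : ℝ)| / M) (by positivity) (by
    rw [div_le_iff₀ hM0]; nlinarith)
  have h4 : 2 / Real.pi * (Real.pi * |(s : ℝ)| / M) = 2 * |(s : ℝ)| / M := by
    field_simp
  rw [h4] at h3
  calc 4 * |(s : ℝ)| / M = 2 * (2 * |(s : ℝ)| / M) := by ring
    _ ≤ _ := by linarith

/-- geometric sums -/
lemma geom_bound {M : ℕ} (hM : 0 < M) {s : ℤ} (hs : 2 * |s| ≤ M) (hs0 : s ≠ 0) (N : ℕ) :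
    ‖∑ j ∈ Finset.range N, ez M (s * j)‖ ≤ M / (2 * |(s : ℝ)|) := by
  have hM0 : (0 : ℝ) < M := by exact_mod_cast hM
  have hs1 : 0 < |(s : ℝ)| := by rw [abs_pos]; exact_mod_cast hs0
  have h1 := norm_ez_sub_one hM hs
  have h2 : 0 < 4 * |(s : ℝ)| / M := by positivity
  have hne : ez M s ≠ 1 := by
    intro h
    rw [h] at h1
    simp at h1
    have : 0 < |(s : ℝ)| / M := by positivity
    have h5 : 4 * |(s : ℝ)| / M = 4 * (|(s : ℝ)| / M) := by ring
    rw [h5] at h1
    linarith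
  simp only [ez_pow]
  rw [geom_sum_eq hne, norm_div]
  have h3 : ‖ez M s ^ N - 1‖ ≤ 2 := by
    refine (norm_sub_le _ _).trans ?_
    rw [norm_pow, ez_norm]
    norm_num
  calc ‖ez M s ^ N - 1‖ / ‖ez M s - 1‖ ≤ 2 / (4 * |(s : ℝ)| / M) :=
        div_le_div₀ (by norm_num) h3 h2 h1
    _ = _ := by field_simp; norm_num

/-- complete sums -/
lemma complete_sum {M : ℕ} (hM : 0 < M) (t : ℤ) :
    ∑ n ∈ Finset.range M, ez M (t * n) = if (M : ℤ) ∣ t then (M : ℂ) else 0 := by
  split_ifs with h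
  · have : ∀ n ∈ Finset.range M, ez M (t * n) = 1 := fun n _ => ez_of_dvd hM (h.mul_right _)
    rw [Finset.sum_congr rfl this]
    simp
  · have hne : ez M t ≠ 1 := by
      intro he
      unfold ez at he
      rw [Complex.exp_eq_one_iff] at he
      obtain ⟨k, hk⟩ := he
      apply h
      refine ⟨k, ?_⟩
      have hM0 : (M : ℂ) ≠ 0 := by exact_mod_cast hM.ne'
      have hpi : (Real.pi : ℂ) ≠ 0 := by exact_mod_cast Real.pi_pos.ne'
      have hI := Complex.I_ne_zero
      push_cast at hk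
      have h1 : (t : ℂ) = M * k := by
        have : (2 * Real.pi * Complex.I) * (t : ℂ) = (2 * Real.pi * Complex.I) * (M * k) := by
          field_simp at hk
          linear_combination (2 * (Real.pi : ℂ) * Complex.I) * hk
        exact mul_left_cancel₀ (by simp [hpi]) this
      exact_mod_cast h1
    simp only [ez_pow]
    rw [geom_sum_eq hne]
    have : ez M t ^ M = 1 := by
      rw [← ez_pow]
      exact ez_of_dvd hM (Dvd.intro_left t rfl)
    rw [this]; simp

lemma sum_shiftC (M : ℕ) (f : ℤ → ℂ) (hf : ∀ n, f (n + M) = f n) (m : ℤ) :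
    ∑ n ∈ Finset.range M, f (n + m) = ∑ n ∈ Finset.range M, f n := by
  have h1 : ∀ m : ℤ, ∑ n ∈ Finset.range M, f (n + (m + 1)) = ∑ n ∈ Finset.range M, f (n + m) := by
    intro m
    have h2 := Finset.sum_range_succ (fun n : ℕ => f (n + m)) M
    have h3 := Finset.sum_range_succ' (fun n : ℕ => f (n + m)) M
    rw [h2] at h3
    have h4 : f ((M : ℤ) + m) = f (((0 : ℕ) : ℤ) + m) := by
      rw [add_comm, hf]; simp
    simp only [h4] at h3
    have h5 := add_right_cancel h3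
    rw [h5]
    refine Finset.sum_congr rfl fun n _ => ?_
    congr 1
    push_cast; ring
  induction m using Int.induction_on with
  | zero => simp
  | succ i ih => rw [h1]; exact ih
  | pred i ih =>
    have := h1 (-(i : ℤ) - 1)
    rw [sub_add_cancel] at this
    rw [← this]; exact ih

/-- Fourier coefficients -/
noncomputable def fc (M : ℕ) (V : ℤ → ℝ) (b : ℕ) : ℂ :=
  (1 / (M : ℂ)) * ∑ n ∈ Finset.range M, (V n : ℂ) * ez M (-(b : ℤ) * n)

lemma inversion {M : ℕ} (hM : 0 < M) {V : ℤ → ℝ} (hV : ∀ n, V (n + M) = V n) (n : ℤ) :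
    (V n : ℂ) = ∑ b ∈ Finset.range M, fc M V b * ez M (b * n) := by
  have hM0 : (M : ℂ) ≠ 0 := by exact_mod_cast hM.ne'
  unfold fc
  simp only [Finset.mul_sum, Finset.sum_mul]
  rw [Finset.sum_comm]
  have h1 : ∀ m ∈ Finset.range M, ∑ b ∈ Finset.range M,
      1 / (M : ℂ) * ((V m : ℂ) * ez M (-(b : ℤ) * m)) * ez M (b * n)
      = (V m : ℂ) * (if (M : ℤ) ∣ n - m then 1 else 0) := by
    intro m _
    have h2 : ∀ b ∈ Finset.range M, 1 / (M : ℂ) * ((V m : ℂ) * ez M (-(b : ℤ) * m)) * ez M (b * n)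
        = 1 / (M : ℂ) * (V m : ℂ) * ez M ((n - m) * b) := by
      intro b _
      have : (n - (m : ℤ)) * b = -(b : ℤ) * m + b * n := by ring
      rw [this, ez_add]; ring
    rw [Finset.sum_congr rfl h2, ← Finset.mul_sum, complete_sum hM]
    split_ifs
    · field_simp
    · simp
  rw [Finset.sum_congr rfl h1]
  have hM1 : (0 : ℤ) < M := by exact_mod_cast hM
  have hr0 := Int.emod_nonneg n hM1.ne'
  have hr1 := Int.emod_lt_of_pos n hM1
  rw [Finset.sum_eq_single (n % M).toNat]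
  · rw [Int.toNat_of_nonneg hr0, if_pos (Int.dvd_self_sub_emod), mul_one]
    have h3 : V (n % M) = V n := by
      have h4 : ∀ k : ℤ, V (n % M + M * k) = V (n % M) := by
        intro k
        induction k using Int.induction_on with
        | zero => simp
        | succ i ih =>
          rw [← ih]
          have : n % M + M * ((i : ℤ) + 1) = (n % M + M * i) + M := by ring
          rw [this, hV]
        | pred i ih =>
          rw [← ih]
          have : n % M + M * (-(i : ℤ)) = (n % M + M * (-(i : ℤ) - 1)) + M := by ring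
          rw [this, hV]
      have h5 := h4 (n / M)
      rw [Int.emod_add_mul_ediv] at h5
      exact h5.symm
    rw [h3]
  · intro m hm hne
    rw [Finset.mem_range] at hm
    rw [if_neg, mul_zero]
    intro hd
    apply hne
    have h6 : (n : ℤ) % M = (m : ℤ) % M := (Int.modEq_iff_dvd.2 hd).symm
    have h7 : (m : ℤ) % M = m := Int.emod_eq_of_lt (by positivity) (by exact_mod_cast hm)
    omega
  · intro h
    exfalso
    apply h
    rw [Finset.mem_range]
    omega

/-- support of the Fourier coefficients -/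
lemma fc_support {M : ℕ} (hM : 0 < M) {R : ℕ} (hR : ∀ q ∈ Finset.Icc 1 R, q ∣ M) {V : ℤ → ℝ}
    (hV : Transfer.HasLevel R V) (b : ℕ) (hb : fc M V b ≠ 0) :
    ∃ q ∈ Finset.Icc 1 R, M ∣ b * q := by
  obtain ⟨c, hc⟩ := hV
  by_contra hcon
  push Not at hcon
  apply hb
  unfold fc
  have h1 : ∑ n ∈ Finset.range M, (V n : ℂ) * ez M (-(b : ℤ) * n)
      = ∑ q ∈ Finset.Icc 1 R, ∑ n ∈ Finset.range M, (c q ((n : ℤ) % (q : ℤ)) : ℂ) * ez M (-(b : ℤ) * n) := by
    rw [Finset.sum_comm]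
    refine Finset.sum_congr rfl fun n _ => ?_
    rw [hc, ← Finset.sum_mul]
    push_cast
    rfl
  rw [h1, Finset.sum_eq_zero, mul_zero]
  intro q hq
  have hqM : (q : ℤ) ∣ (M : ℤ) := by exact_mod_cast hR q hq
  set f : ℤ → ℂ := fun n => (c q (n % (q : ℤ)) : ℂ) * ez M (-(b : ℤ) * n) with hf
  have hper : ∀ n, f (n + M) = f n := by
    intro n
    simp only [hf]
    have e1 : (n + (M : ℤ)) % (q : ℤ) = n % (q : ℤ) := by
      rw [Int.add_emod, Int.emod_eq_zero_of_dvd hqM, add_zero, Int.emod_emod_of_dvd _ dvd_rfl]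
    have e2 : ez M (-(b : ℤ) * (n + M)) = ez M (-(b : ℤ) * n) := by
      apply ez_congr hM
      refine ⟨-b, ?_⟩
      ring
    rw [e1, e2]
  have h2 := sum_shiftC M f hper q
  have h3 : ∀ n : ℕ, f (n + q) = ez M (-(b : ℤ) * q) * f n := by
    intro n
    simp only [hf]
    have e1 : ((n : ℤ) + (q : ℤ)) % (q : ℤ) = (n : ℤ) % (q : ℤ) := by simp
    have e2 : -(b : ℤ) * ((n : ℤ) + q) = -(b : ℤ) * q + -(b : ℤ) * n := by ring
    rw [e1, e2, ez_add]; ring
  simp only [h3] at h2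
  rw [← Finset.mul_sum] at h2
  have h4 : ez M (-(b : ℤ) * q) ≠ 1 := by
    intro he
    apply hcon q hq
    have h5 := complete_sum hM (-(b : ℤ) * q)
    have h6 : ∑ n ∈ Finset.range M, ez M (-(b : ℤ) * q * n) = M := by
      simp only [ez_pow, he, one_pow]
      simp
    rw [h6] at h5
    have hM0 : (M : ℂ) ≠ 0 := by exact_mod_cast hM.ne'
    have h7 : (M : ℤ) ∣ -(b : ℤ) * q := by
      by_contra h8
      rw [if_neg h8] at h5
      exact hM0 h5
    have h8 : (M : ℤ) ∣ (b : ℤ) * q := by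
      have : (b : ℤ) * q = -(-(b : ℤ) * q) := by ring
      rw [this]; exact (dvd_neg).2 h7
    exact_mod_cast h8
  have h5 : (ez M (-(b : ℤ) * q) - 1) * ∑ n ∈ Finset.range M, f n = 0 := by
    rw [sub_mul, one_mul, h2, sub_self]
  rcases mul_eq_zero.1 h5 with h6 | h6
  · exact absurd (sub_eq_zero.1 h6) h4
  · exact h6

/-- quadratic form -/
lemma quad {M : ℕ} (hM : 0 < M) {V : ℤ → ℝ} (hV : ∀ n, V (n + M) = V n) (I : Finset ℤ) :
    ((∑ n ∈ I, V n ^ 2 : ℝ) : ℂ) = ∑ b ∈ Finset.range M, ∑ b' ∈ Finset.range M,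
      fc M V b * conj (fc M V b') * ∑ n ∈ I, ez M (((b : ℤ) - b') * n) := by
  have h1 : ∀ n : ℤ, ((V n ^ 2 : ℝ) : ℂ) = ∑ b ∈ Finset.range M, ∑ b' ∈ Finset.range M,
      fc M V b * conj (fc M V b') * ez M (((b : ℤ) - b') * n) := by
    intro n
    have e1 : ((V n ^ 2 : ℝ) : ℂ) = (V n : ℂ) * conj (V n : ℂ) := by
      rw [Complex.conj_ofReal]; push_cast; ring
    rw [e1, inversion hM hV n, map_sum, Finset.sum_mul_sum]
    refine Finset.sum_congr rfl fun b _ => Finset.sum_congr rfl fun b' _ => ?_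
    rw [map_mul, ez_conj]
    have : ((b : ℤ) - b') * n = b * n + -(b' * n) := by ring
    rw [this, ez_add]; ring
  push_cast
  have h2 : ∀ n ∈ I, (V n : ℂ) ^ 2 = ∑ b ∈ Finset.range M, ∑ b' ∈ Finset.range M,
      fc M V b * conj (fc M V b') * ez M (((b : ℤ) - b') * n) := by
    intro n _
    rw [← h1 n]; push_cast; rfl
  rw [Finset.sum_congr rfl h2, Finset.sum_comm]
  refine Finset.sum_congr rfl fun b _ => ?_
  rw [Finset.sum_comm]
  refine Finset.sum_congr rfl fun b' _ => ?_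
  rw [Finset.mul_sum]

lemma parseval {M : ℕ} (hM : 0 < M) {V : ℤ → ℝ} (hV : ∀ n, V (n + M) = V n) :
    ∑ n ∈ Finset.range M, V n ^ 2 = M * ∑ b ∈ Finset.range M, ‖fc M V b‖ ^ 2 := by
  have h := quad hM hV ((Finset.range M).image (fun n : ℕ => (n : ℤ)))
  have hinj : Set.InjOn (fun n : ℕ => (n : ℤ)) (Finset.range M) := fun a _ b _ h => by
    have h' : (a : ℤ) = (b : ℤ) := h
    exact_mod_cast h'
  rw [Finset.sum_image hinj] at h
  have h2 : ∀ b ∈ Finset.range M, ∑ b' ∈ Finset.range M, fc M V b * conj (fc M V b') *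
      ∑ n ∈ (Finset.range M).image (fun n : ℕ => (n : ℤ)), ez M (((b : ℤ) - b') * n)
      = (M : ℂ) * ((‖fc M V b‖ ^ 2 : ℝ) : ℂ) := by
    intro b hb
    rw [Finset.mem_range] at hb
    rw [Finset.sum_eq_single b]
    · rw [Finset.sum_image hinj, complete_sum hM, if_pos (by simp)]
      rw [Complex.mul_conj, Complex.normSq_eq_norm_sq]
      ring
    · intro b' hb' hne
      rw [Finset.mem_range] at hb'
      rw [Finset.sum_image hinj, complete_sum hM, if_neg, mul_zero]
      intro hd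
      apply hne
      have h6 : (b' : ℤ) % M = (b : ℤ) % M := Int.modEq_iff_dvd.2 hd
      have h7 : (b : ℤ) % M = b := Int.emod_eq_of_lt (by positivity) (by exact_mod_cast hb)
      have h8 : (b' : ℤ) % M = b' := Int.emod_eq_of_lt (by positivity) (by exact_mod_cast hb')
      omega
    · intro h; exact absurd (Finset.mem_range.2 hb) h
  rw [Finset.sum_congr rfl h2, ← Finset.mul_sum] at h
  exact_mod_cast h

end Run7.h52.LS
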