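import Pool.Agent.Run7.h52.LS
import Pool.Agent.Run7.h52.Count2

set_option autoImplicit false
set_option linter.unusedSectionVars false

namespace Run7.h52.LS

open Finset
open scoped ComplexConjugate

/-- the residue of least absolute value -/
def sm (M : ℕ) (t : ℤ) : ℤ := if 2 * (t % M) ≤ M then t % M else t % M - M

lemma sm_dvd (M : ℕ) (t : ℤ) : (M : ℤ) ∣ t - sm M t := by
  unfold sm
  split_ifs
  · exact Int.dvd_self_sub_emod
  · have : t - (t % M - M) = (t - t % M) + M := by ring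
    rw [this]
    exact dvd_add Int.dvd_self_sub_emod dvd_rfl

lemma sm_abs {M : ℕ} (hM : 0 < M) (t : ℤ) : 2 * |sm M t| ≤ M := by
  have hM1 : (0 : ℤ) < M := by exact_mod_cast hM
  have h0 := Int.emod_nonneg t hM1.ne'
  have h1 := Int.emod_lt_of_pos t hM1
  unfold sm
  split_ifs with h
  · rw [abs_of_nonneg h0]; exact h
  · rw [abs_of_neg (by omega)]; omega

lemma sep {M R : ℕ} (B : Finset ℕ)
    (hB : ∀ b ∈ B, b < M ∧ ∃ q ∈ Finset.Icc 1 R, M ∣ b * q) (b : ℤ) {b' b'' : ℕ} (h' : b' ∈ B)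
    (h'' : b'' ∈ B) (hne : b' ≠ b'') :
    (M : ℤ) ≤ |sm M (b - b') - sm M (b - b'')| * (R : ℤ) ^ 2 := by
  obtain ⟨hb1, q1, hq1, hd1⟩ := hB b' h'
  obtain ⟨hb2, q2, hq2, hd2⟩ := hB b'' h''
  rw [Finset.mem_Icc] at hq1 hq2
  have hd1' : (M : ℤ) ∣ (b' : ℤ) * q1 := by exact_mod_cast hd1
  have hd2' : (M : ℤ) ∣ (b'' : ℤ) * q2 := by exact_mod_cast hd2
  set D := sm M (b - b') - sm M (b - b'') with hD
  have e1 : (M : ℤ) ∣ D - ((b'' : ℤ) - b') := by
    have h1 := sm_dvd M (b - b')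
    have h2 := sm_dvd M (b - b'')
    have : D - ((b'' : ℤ) - b') = ((b - b'') - sm M (b - b'')) - ((b - b') - sm M (b - b')) := by
      rw [hD]; ring
    rw [this]
    exact dvd_sub h2 h1
  have hD0 : D ≠ 0 := by
    intro h0
    rw [h0, zero_sub, dvd_neg] at e1
    apply hne
    have h6 : (b' : ℤ) % M = (b'' : ℤ) % M := Int.modEq_iff_dvd.2 e1
    have h7 : (b' : ℤ) % M = b' := Int.emod_eq_of_lt (by positivity) (by exact_mod_cast hb1)
    have h8 : (b'' : ℤ) % M = b'' := Int.emod_eq_of_lt (by positivity) (by exact_mod_cast hb2)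
    omega
  have e2 : (M : ℤ) ∣ D * (q1 * q2) := by
    have h1 : D * ((q1 : ℤ) * q2) = (D - ((b'' : ℤ) - b')) * (q1 * q2) + ((b'' : ℤ) * q2) * q1
        - ((b' : ℤ) * q1) * q2 := by ring
    rw [h1]
    exact dvd_sub (dvd_add (e1.mul_right _) (hd2'.mul_right _)) (hd1'.mul_right _)
  have hq10 : (1 : ℤ) ≤ q1 := by exact_mod_cast hq1.1
  have hq20 : (1 : ℤ) ≤ q2 := by exact_mod_cast hq2.1
  have hq1R : (q1 : ℤ) ≤ R := by exact_mod_cast hq1.2
  have hq2R : (q2 : ℤ) ≤ R := by exact_mod_cast hq2.2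
  have e3 : (M : ℤ) ≤ |D * (q1 * q2)| := by
    refine Int.le_of_dvd (abs_pos.2 ?_) ((dvd_abs _ _).2 e2)
    exact mul_ne_zero hD0 (by positivity)
  refine e3.trans ?_
  rw [abs_mul, abs_of_pos (by positivity : (0 : ℤ) < q1 * q2)]
  refine mul_le_mul_of_nonneg_left ?_ (abs_nonneg _)
  rw [sq]
  exact mul_le_mul hq1R hq2R (by linarith) (by linarith)

/-- one side -/
lemma one_side {M R : ℕ} (hM : 0 < M) (hR : 1 ≤ R) (S : Finset ℕ) (s : ℕ → ℤ)
    (hs1 : ∀ b ∈ S, (M : ℤ) ≤ |s b| * (R : ℤ) ^ 2) (hs2 : ∀ b ∈ S, 2 * |s b| ≤ M)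
    (hs3 : ∀ b ∈ S, ∀ b' ∈ S, b ≠ b' → (M : ℤ) ≤ |(|s b|) - (|s b'|)| * (R : ℤ) ^ 2) :
    ∑ b ∈ S, (M : ℝ) / (2 * |(s b : ℝ)|) ≤ (R : ℝ) ^ 2 / 2 * (1 + Real.log ((R : ℝ) ^ 2)) := by
  set k : ℕ → ℕ := fun b => (s b).natAbs * R ^ 2 / M with hk
  have hM0 : (0 : ℝ) < M := by exact_mod_cast hM
  have hnat : ∀ b, (((s b).natAbs : ℕ) : ℤ) = |s b| := fun b => Int.natCast_natAbs _
  have hk1 : ∀ b ∈ S, 1 ≤ k b := by
    intro b hb
    simp only [hk]
    rw [Nat.one_le_div_iff hM]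
    have := hs1 b hb
    rw [← hnat] at this
    exact_mod_cast this
  have hk2 : ∀ b ∈ S, k b ≤ R ^ 2 := by
    intro b hb
    simp only [hk]
    apply Nat.div_le_of_le_mul
    have := hs2 b hb
    rw [← hnat] at this
    have h3 : 2 * (s b).natAbs ≤ M := by exact_mod_cast this
    have h4 : (s b).natAbs ≤ M := by omega
    exact Nat.mul_le_mul_right _ h4
  have hinj : Set.InjOn k S := by
    intro b hb b' hb' hkk
    by_contra hne
    have h1 := hs3 b hb b' hb' hne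
    simp only [hk] at hkk
    have h5 := Nat.div_add_mod ((s b).natAbs * R ^ 2) M
    have h6 := Nat.div_add_mod ((s b').natAbs * R ^ 2) M
    have h7 := Nat.mod_lt ((s b).natAbs * R ^ 2) hM
    have h8 := Nat.mod_lt ((s b').natAbs * R ^ 2) hM
    rw [hkk] at h5
    rw [← hnat, ← hnat] at h1
    have h9 : |(|(((s b).natAbs : ℕ) : ℤ) - (((s b').natAbs : ℕ) : ℤ)|) * (R : ℤ) ^ 2|
        = |((((s b).natAbs * R ^ 2 : ℕ)) : ℤ) - ((((s b').natAbs * R ^ 2 : ℕ)) : ℤ)| := by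
      push_cast
      rw [← sub_mul, abs_mul, abs_mul, abs_abs]
    have h10 : |((((s b).natAbs * R ^ 2 : ℕ)) : ℤ) - ((((s b').natAbs * R ^ 2 : ℕ)) : ℤ)| < M := by
      rw [abs_lt]
      constructor <;> omega
    rw [← h9, abs_of_nonneg (by positivity)] at h10
    linarith
  calc ∑ b ∈ S, (M : ℝ) / (2 * |(s b : ℝ)|) ≤ ∑ b ∈ S, (R : ℝ) ^ 2 / 2 * (1 / (k b : ℝ)) := by
        refine Finset.sum_le_sum fun b hb => ?_
        have h1 : (k b : ℝ) * M ≤ |(s b : ℝ)| * (R : ℝ) ^ 2 := by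
          have : k b * M ≤ (s b).natAbs * R ^ 2 := Nat.div_mul_le_self _ _
          have h2 : ((k b * M : ℕ) : ℝ) ≤ (((s b).natAbs * R ^ 2 : ℕ) : ℝ) := by exact_mod_cast this
          push_cast at h2
          rw [Nat.cast_natAbs] at h2
          push_cast at h2
          exact h2
        have hk0 : (0 : ℝ) < k b := by exact_mod_cast hk1 b hb
        have hs0 : 0 < |(s b : ℝ)| := by
          by_contra h
          have h3 : |(s b : ℝ)| = 0 := le_antisymm (not_lt.1 h) (abs_nonneg _)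
          rw [h3, zero_mul] at h1
          have : 0 < (k b : ℝ) * M := by positivity
          linarith
        rw [div_mul_div_comm, mul_one, div_le_div_iff₀ (by positivity) (by positivity)]
        nlinarith
    _ = (R : ℝ) ^ 2 / 2 * ∑ j ∈ S.image k, 1 / (j : ℝ) := by
        rw [Finset.sum_image hinj, Finset.mul_sum]
    _ ≤ (R : ℝ) ^ 2 / 2 * ∑ j ∈ Finset.Icc 1 (R ^ 2), 1 / (j : ℝ) := by
        refine mul_le_mul_of_nonneg_left ?_ (by positivity)
        refine Finset.sum_le_sum_of_subset_of_nonneg ?_ (fun _ _ _ => by positivity)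
        intro j hj
        rw [Finset.mem_image] at hj
        obtain ⟨b, hb, rfl⟩ := hj
        exact Finset.mem_Icc.2 ⟨hk1 b hb, hk2 b hb⟩
    _ ≤ _ := by
        refine mul_le_mul_of_nonneg_left ?_ (by positivity)
        have := Count.sum_inv_le (R ^ 2)
        push_cast at this
        exact this

lemma recip_sum {M R : ℕ} (hM : 0 < M) (hR : 1 ≤ R) (B : Finset ℕ)
    (hB : ∀ b ∈ B, b < M ∧ ∃ q ∈ Finset.Icc 1 R, M ∣ b * q) (b : ℕ) (hb : b ∈ B) :
    ∑ b' ∈ B.erase b, (M : ℝ) / (2 * |(sm M ((b : ℤ) - b') : ℝ)|)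
      ≤ (R : ℝ) ^ 2 * (1 + Real.log ((R : ℝ) ^ 2)) := by
  classical
  set s : ℕ → ℤ := fun b' => sm M ((b : ℤ) - b') with hs
  have hsb : s b = 0 := by simp [hs, sm]
  have hsep : ∀ b' ∈ B, ∀ b'' ∈ B, b' ≠ b'' → (M : ℤ) ≤ |s b' - s b''| * (R : ℤ) ^ 2 :=
    fun b' h' b'' h'' hne => sep B hB b h' h'' hne
  have h0 : ∀ b' ∈ B.erase b, (M : ℤ) ≤ |s b'| * (R : ℤ) ^ 2 := by
    intro b' hb'
    have := hsep b' (Finset.mem_of_mem_erase hb') b hb (Finset.ne_of_mem_erase hb')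
    rwa [hsb, sub_zero] at this
  have h2 : ∀ b', 2 * |s b'| ≤ M := fun b' => sm_abs hM _
  rw [← Finset.sum_filter_add_sum_filter_not (B.erase b) (fun b' => 0 ≤ s b')]
  have e1 := one_side hM hR ((B.erase b).filter fun b' => 0 ≤ s b') s
    (fun b' hb' => h0 b' (Finset.mem_filter.1 hb').1) (fun b' _ => h2 b')
    (fun b' hb' b'' hb'' hne => by
      rw [Finset.mem_filter] at hb' hb''
      rw [abs_of_nonneg hb'.2, abs_of_nonneg hb''.2]
      exact hsep b' (Finset.mem_of_mem_erase hb'.1) b'' (Finset.mem_of_mem_erase hb''.1) hne)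
  have e2 := one_side hM hR ((B.erase b).filter fun b' => ¬ 0 ≤ s b') s
    (fun b' hb' => h0 b' (Finset.mem_filter.1 hb').1) (fun b' _ => h2 b')
    (fun b' hb' b'' hb'' hne => by
      rw [Finset.mem_filter] at hb' hb''
      rw [abs_of_neg (not_le.1 hb'.2), abs_of_neg (not_le.1 hb''.2)]
      have := hsep b' (Finset.mem_of_mem_erase hb'.1) b'' (Finset.mem_of_mem_erase hb''.1) hne
      have e3 : -s b' - -s b'' = -(s b' - s b'') := by ring
      rw [e3, abs_neg]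
      exact this)
  calc _ ≤ (R : ℝ) ^ 2 / 2 * (1 + Real.log ((R : ℝ) ^ 2)) + (R : ℝ) ^ 2 / 2 * (1 + Real.log ((R : ℝ) ^ 2)) :=
        add_le_add e1 e2
    _ = _ := by ring

/-- the large sieve for functions of level `R` -/
theorem large_sieve {M R : ℕ} (hM : 0 < M) (hR1 : 1 ≤ R) (hR : ∀ q ∈ Finset.Icc 1 R, q ∣ M)
    {V : ℤ → ℝ} (hV : Transfer.HasLevel R V) (x : ℤ) (N : ℕ) :
    |M * ∑ j ∈ Finset.range N, V (x + j) ^ 2 - N * ∑ n ∈ Finset.range M, V n ^ 2|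
      ≤ (R : ℝ) ^ 2 * (1 + Real.log ((R : ℝ) ^ 2)) * ∑ n ∈ Finset.range M, V n ^ 2 := by
  classical
  have hper := Transfer.level_periodic hR hV
  have hM0 : (0 : ℝ) < M := by exact_mod_cast hM
  set a : ℕ → ℂ := fc M V with ha
  set B : Finset ℕ := (Finset.range M).filter fun b => a b ≠ 0 with hBdef
  have hB : ∀ b ∈ B, b < M ∧ ∃ q ∈ Finset.Icc 1 R, M ∣ b * q := by
    intro b hb
    rw [hBdef, Finset.mem_filter, Finset.mem_range] at hb
    exact ⟨hb.1, fc_support hM hR hV b hb.2⟩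
  set I : Finset ℤ := (Finset.range N).image (fun j : ℕ => x + j) with hI
  have hinj : Set.InjOn (fun j : ℕ => x + (j : ℤ)) (Finset.range N) := fun i _ j _ h => by
    have h' : x + (i : ℤ) = x + (j : ℤ) := h
    have := add_left_cancel h'
    exact_mod_cast this
  have hq := quad hM hper I
  have hp := parseval hM hper
  rw [hI, Finset.sum_image hinj] at hq
  set K : ℤ → ℂ := fun t => ∑ n ∈ I, ez M (t * n) with hK
  have hK0 : K 0 = N := by
    simp only [hK, zero_mul, ez_zero, hI]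
    rw [Finset.sum_image hinj]; simp
  have hKb : ∀ t : ℤ, ¬ (M : ℤ) ∣ t → ‖K t‖ ≤ (M : ℝ) / (2 * |(sm M t : ℝ)|) := by
    intro t ht
    have hs := sm_dvd M t
    have hs0 : sm M t ≠ 0 := by
      intro h
      rw [h, sub_zero] at hs
      exact ht hs
    have h1 : K t = ez M (t * x) * ∑ j ∈ Finset.range N, ez M (sm M t * j) := by
      simp only [hK, hI]
      rw [Finset.sum_image hinj, Finset.mul_sum]
      refine Finset.sum_congr rfl fun j _ => ?_
      have e1 : t * (x + j) = t * x + t * j := by ring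
      rw [e1, ez_add]
      congr 1
      apply ez_congr hM
      have : t * (j : ℤ) - sm M t * j = (t - sm M t) * j := by ring
      rw [this]
      exact hs.mul_right _
    rw [h1, norm_mul, ez_norm, one_mul]
    exact geom_bound hM (sm_abs hM t) hs0 N
  -- restrict the sums to `B`
  have hres : ∑ b ∈ Finset.range M, ∑ b' ∈ Finset.range M, a b * conj (a b') * K ((b : ℤ) - b')
      = ∑ b ∈ B, ∑ b' ∈ B, a b * conj (a b') * K ((b : ℤ) - b') := by
    rw [hBdef, Finset.sum_filter]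
    refine Finset.sum_congr rfl fun b _ => ?_
    split_ifs with hb
    · rw [Finset.sum_filter]
      refine Finset.sum_congr rfl fun b' _ => ?_
      split_ifs with hb'
      · rfl
      · push Not at hb'
        rw [hb']; simp
    · push Not at hb
      rw [hb]; simp
  have hresp : ∑ b ∈ Finset.range M, ‖a b‖ ^ 2 = ∑ b ∈ B, ‖a b‖ ^ 2 := by
    rw [hBdef, Finset.sum_filter]
    refine Finset.sum_congr rfl fun b _ => ?_
    split_ifs with hb
    · rfl
    · push Not at hb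
      rw [hb]; simp
  have hq2 : ((∑ j ∈ Finset.range N, V (x + j) ^ 2 : ℝ) : ℂ) - N * ((∑ b ∈ B, ‖a b‖ ^ 2 : ℝ) : ℂ)
      = ∑ b ∈ B, ∑ b' ∈ B.erase b, a b * conj (a b') * K ((b : ℤ) - b') := by
    have hq' : ((∑ j ∈ Finset.range N, V (x + j) ^ 2 : ℝ) : ℂ)
        = ∑ b ∈ Finset.range M, ∑ b' ∈ Finset.range M, a b * conj (a b') * K ((b : ℤ) - b') := hq
    rw [hq', hres]
    have h1 : (N : ℂ) * ((∑ b ∈ B, ‖a b‖ ^ 2 : ℝ) : ℂ) = ∑ b ∈ B, a b * conj (a b) * K ((b : ℤ) - b) := by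
      push_cast
      rw [Finset.mul_sum]
      refine Finset.sum_congr rfl fun b _ => ?_
      rw [sub_self, hK0, Complex.mul_conj, Complex.normSq_eq_norm_sq]
      push_cast
      ring
    rw [h1, ← Finset.sum_sub_distrib]
    refine Finset.sum_congr rfl fun b hb => ?_
    rw [← Finset.add_sum_erase B _ hb]
    ring
  have hbound : ‖∑ b ∈ B, ∑ b' ∈ B.erase b, a b * conj (a b') * K ((b : ℤ) - b')‖
      ≤ (R : ℝ) ^ 2 * (1 + Real.log ((R : ℝ) ^ 2)) * ∑ b ∈ B, ‖a b‖ ^ 2 := by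
    have hdvd : ∀ b ∈ B, ∀ b' ∈ B, b ≠ b' → ¬ (M : ℤ) ∣ (b : ℤ) - b' := by
      intro b hb b' hb' hne hd
      apply hne
      have h6 : (b' : ℤ) % M = (b : ℤ) % M := Int.modEq_iff_dvd.2 hd
      have h7 : (b : ℤ) % M = b := Int.emod_eq_of_lt (by positivity) (by exact_mod_cast (hB b hb).1)
      have h8 : (b' : ℤ) % M = b' := Int.emod_eq_of_lt (by positivity) (by exact_mod_cast (hB b' hb').1)
      omega
    set k : ℕ → ℕ → ℝ := fun b b' => (M : ℝ) / (2 * |(sm M ((b : ℤ) - b') : ℝ)|) with hkdef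
    have hk0 : ∀ b b', 0 ≤ k b b' := fun b b' => by positivity
    have hk2 : ∀ b b', ‖K ((b : ℤ) - b')‖ = ‖K ((b' : ℤ) - b)‖ := by
      intro b b'
      have : K ((b : ℤ) - b') = conj (K ((b' : ℤ) - b)) := by
        simp only [hK, map_sum, ez_conj]
        refine Finset.sum_congr rfl fun n _ => ?_
        congr 1; ring
      rw [this, RCLike.norm_conj]
    have h1 : ‖∑ b ∈ B, ∑ b' ∈ B.erase b, a b * conj (a b') * K ((b : ℤ) - b')‖
        ≤ ∑ b ∈ B, ∑ b' ∈ B.erase b, (‖a b‖ ^ 2 + ‖a b'‖ ^ 2) / 2 * ‖K ((b : ℤ) - b')‖ := by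
      refine (norm_sum_le _ _).trans (Finset.sum_le_sum fun b _ => ?_)
      refine (norm_sum_le _ _).trans (Finset.sum_le_sum fun b' _ => ?_)
      rw [norm_mul, norm_mul, RCLike.norm_conj]
      refine mul_le_mul_of_nonneg_right ?_ (norm_nonneg _)
      nlinarith [sq_nonneg (‖a b‖ - ‖a b'‖)]
    have h2 : ∑ b ∈ B, ∑ b' ∈ B.erase b, (‖a b‖ ^ 2 + ‖a b'‖ ^ 2) / 2 * ‖K ((b : ℤ) - b')‖
        = ∑ b ∈ B, ‖a b‖ ^ 2 * ∑ b' ∈ B.erase b, ‖K ((b : ℤ) - b')‖ := by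
      have e1 : ∑ b ∈ B, ∑ b' ∈ B.erase b, (‖a b‖ ^ 2 + ‖a b'‖ ^ 2) / 2 * ‖K ((b : ℤ) - b')‖
          = ∑ b ∈ B, ∑ b' ∈ B.erase b, ‖a b‖ ^ 2 / 2 * ‖K ((b : ℤ) - b')‖
          + ∑ b ∈ B, ∑ b' ∈ B.erase b, ‖a b'‖ ^ 2 / 2 * ‖K ((b : ℤ) - b')‖ := by
        rw [← Finset.sum_add_distrib]
        refine Finset.sum_congr rfl fun b _ => ?_
        rw [← Finset.sum_add_distrib]
        exact Finset.sum_congr rfl fun b' _ => by ring
      have e2 : ∑ b ∈ B, ∑ b' ∈ B.erase b, ‖a b'‖ ^ 2 / 2 * ‖K ((b : ℤ) - b')‖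
          = ∑ b ∈ B, ∑ b' ∈ B.erase b, ‖a b‖ ^ 2 / 2 * ‖K ((b : ℤ) - b')‖ := by
        rw [Finset.sum_comm' (t' := B) (s' := fun b' => B.erase b')]
        · refine Finset.sum_congr rfl fun b' _ => Finset.sum_congr rfl fun b _ => ?_
          rw [hk2 b b']
        · intro b b'
          simp only [Finset.mem_erase]
          tauto
      rw [e1, e2, ← Finset.sum_add_distrib]
      refine Finset.sum_congr rfl fun b _ => ?_
      rw [← Finset.sum_add_distrib, Finset.mul_sum]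
      exact Finset.sum_congr rfl fun b' _ => by ring
    refine h1.trans ?_
    rw [h2, Finset.mul_sum]
    refine Finset.sum_le_sum fun b hb => ?_
    rw [mul_comm]
    refine mul_le_mul_of_nonneg_right ?_ (by positivity)
    refine le_trans (Finset.sum_le_sum fun b' hb' => ?_) (recip_sum hM hR1 B hB b hb)
    exact hKb _ (hdvd b hb b' (Finset.mem_of_mem_erase hb') (Finset.ne_of_mem_erase hb').symm)
  rw [← hq2] at hbound
  rw [hp, hresp]
  have e3 : ((∑ j ∈ Finset.range N, V (x + j) ^ 2 : ℝ) : ℂ) - N * ((∑ b ∈ B, ‖a b‖ ^ 2 : ℝ) : ℂ)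
      = (((∑ j ∈ Finset.range N, V (x + j) ^ 2) - N * ∑ b ∈ B, ‖a b‖ ^ 2 : ℝ) : ℂ) := by push_cast; ring
  rw [e3, Complex.norm_real, Real.norm_eq_abs] at hbound
  have e4 : (M : ℝ) * ∑ j ∈ Finset.range N, V (x + j) ^ 2 - N * (M * ∑ b ∈ B, ‖a b‖ ^ 2)
      = M * ((∑ j ∈ Finset.range N, V (x + j) ^ 2) - N * ∑ b ∈ B, ‖a b‖ ^ 2) := by ring
  rw [e4, abs_mul, abs_of_pos hM0]
  calc (M : ℝ) * |(∑ j ∈ Finset.range N, V (x + j) ^ 2) - N * ∑ b ∈ B, ‖a b‖ ^ 2|
      ≤ M * ((R : ℝ) ^ 2 * (1 + Real.log ((R : ℝ) ^ 2)) * ∑ b ∈ B, ‖a b‖ ^ 2) :=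
        mul_le_mul_of_nonneg_left hbound hM0.le
    _ = _ := by ring

end Run7.h52.LS
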