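import Pool.Agent.Run7.h52.E11

/-!
Maier's theorem with an explicit deviation `1 / (4 (32 m) ^ m m!)`, `m = ⌊a⌋ + 3`, for intervals of length `L ^ a`
and primes up to `L` (after `Pool.Agent.N610.MS.t_CNT`).
-/

set_option autoImplicit false
set_option linter.unusedSectionVars false

namespace Run7.h52.M1

open Finset Filter Topology
open Pool.Agent.N610.MS
open Pool.Agent.N610.MS.CNTaux

/-- the deviation -/
noncomputable def dl (a : ℝ) : ℝ :=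
  1 / (4 * (32 * ((⌊a⌋₊ : ℝ) + 3)) ^ (⌊a⌋₊ + 3) * (Nat.factorial (⌊a⌋₊ + 3) : ℕ))

lemma dl_pos (a : ℝ) : 0 < dl a := by unfold dl; positivity

lemma dl_le {a : ℝ} {k : ℕ} (hk : k + 1 ≤ ⌊a⌋₊ + 3) :
    dl a ≤ (1 / (32 * ((k : ℝ) + 1))) ^ (k + 1) / (4 * (Nat.factorial (k + 1) : ℕ)) := by
  have e1 : (1 / (32 * ((k : ℝ) + 1))) ^ (k + 1) / (4 * (Nat.factorial (k + 1) : ℕ))
      = 1 / (4 * (32 * ((k : ℝ) + 1)) ^ (k + 1) * (Nat.factorial (k + 1) : ℕ)) := by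
    rw [div_pow, one_pow]
    field_simp
  rw [e1, dl]
  refine one_div_le_one_div_of_le (by positivity) ?_
  have h1 : (k : ℝ) + 1 ≤ (⌊a⌋₊ : ℝ) + 3 := by exact_mod_cast hk
  have h2 : (32 * ((k : ℝ) + 1)) ^ (k + 1) ≤ (32 * ((⌊a⌋₊ : ℝ) + 3)) ^ (⌊a⌋₊ + 3) := by
    refine (pow_le_pow_left₀ (by positivity) (by linarith : 32 * ((k : ℝ) + 1) ≤ 32 * ((⌊a⌋₊ : ℝ) + 3)) _).trans ?_
    refine pow_le_pow_right₀ ?_ hk
    have : (0 : ℝ) ≤ ⌊a⌋₊ := Nat.cast_nonneg _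
    linarith
  have h3 : ((Nat.factorial (k + 1) : ℕ) : ℝ) ≤ (Nat.factorial (⌊a⌋₊ + 3) : ℕ) := by
    exact_mod_cast Nat.factorial_le hk
  refine mul_le_mul ?_ h3 (by positivity) (by positivity)
  linarith

theorem cntE {a : ℝ} (ha : 0 < a) : ∃ κ : ℝ, 0 < κ ∧ ∀ σ : ℝ, (σ = 1 ∨ σ = -1) → ∀ᶠ L : ℝ in atTop,
    ∃ P : Finset ℕ, (∀ p ∈ P, p.Prime ∧ p ≤ ⌊L⌋₊) ∧
      ∀ y : ℝ, L ^ a ≤ y → y ≤ L ^ (a + κ) → 2 * dl a ≤ σ * (rel P y - 1) := by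
  have h1 : S_BON := t_BON
  have h2 : S_LEG := t_LEG t_BON
  obtain ⟨k0, hk0⟩ : ∃ k0 : ℕ, k0 = ⌊a⌋₊ + 1 := ⟨_, rfl⟩
  have hk0a : a < k0 := by rw [hk0]; push_cast; exact Nat.lt_floor_add_one a
  have hk01 : 1 ≤ k0 := by omega
  refine ⟨a / (4 * (k0 + 1)), by positivity, ?_⟩
  intro σ hσ
  obtain ⟨k, hkl, hkr, hkσ⟩ : ∃ k : ℕ, k0 ≤ k ∧ k ≤ k0 + 1 ∧ σ = (-1) ^ k := by
    rcases Nat.even_or_odd k0 with h | h
    · rcases hσ with h' | h'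
      · exact ⟨k0, le_rfl, by omega, by rw [h', h.neg_one_pow]⟩
      · exact ⟨k0 + 1, by omega, le_rfl, by rw [h', h.add_one.neg_one_pow]⟩
    · rcases hσ with h' | h'
      · exact ⟨k0 + 1, by omega, le_rfl, by rw [h', h.add_one.neg_one_pow]⟩
      · exact ⟨k0, le_rfl, by omega, by rw [h', h.neg_one_pow]⟩
  have hk1 : 1 ≤ k := hk01.trans hkl
  have hkR : (1 : ℝ) ≤ k := by exact_mod_cast hk1
  have hkpos : (0 : ℝ) < k := by linarith
  have hklR : (k0 : ℝ) ≤ k := by exact_mod_cast hkl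
  have hkrR : (k : ℝ) ≤ k0 + 1 := by exact_mod_cast hkr
  obtain ⟨s0, hs0d⟩ : ∃ s0 : ℝ, s0 = 1 / (32 * ((k : ℝ) + 1)) := ⟨_, rfl⟩
  have hs0 : 0 < s0 := by rw [hs0d]; positivity
  have hsC : s0 ≤ 1 / (32 * 1) := by
    rw [hs0d]
    exact one_div_le_one_div_of_le (by norm_num) (by linarith)
  have hs4 : s0 ≤ 1 / 4 := hsC.trans (by norm_num)
  have hsk : s0 ≤ 1 / (2 * (k + 1)) := by
    rw [hs0d]
    exact one_div_le_one_div_of_le (by positivity) (by linarith)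
  obtain ⟨δ, hδ⟩ : ∃ δ : ℝ, δ = s0 ^ (k + 1) / (4 * (k + 1).factorial) := ⟨_, rfl⟩
  have hδpos : 0 < δ := by rw [hδ]; positivity
  have hdl : dl a ≤ δ := by
    rw [hδ, hs0d]
    exact dl_le (by omega)
  -- exponents
  obtain ⟨E, hE⟩ : ∃ E : ℝ, E = Real.exp (-s0) := ⟨_, rfl⟩
  have hE1 : 1 - s0 ≤ E := by
    rw [hE]
    linarith [Real.add_one_le_exp (-s0)]
  have hE2 : E < 1 := by
    rw [hE, ← Real.exp_zero]
    exact Real.exp_lt_exp.mpr (by linarith)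
  have hEpos : 0 < E := by rw [hE]; exact Real.exp_pos _
  obtain ⟨e, he⟩ : ∃ e : ℝ, e = a / k := ⟨_, rfl⟩
  have hepos : 0 < e := by rw [he]; positivity
  have he1 : e < 1 := by
    rw [he, div_lt_one hkpos]
    linarith
  have he'pos : 0 < e * E := mul_pos hepos hEpos
  have hee : e * E < e := by nlinarith
  have hlog : Real.log (e / (e * E)) = s0 := by
    rw [div_mul_cancel_left₀ hepos.ne', hE, Real.log_inv, Real.log_exp, neg_neg]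
  -- error sizes
  obtain ⟨β, hβ0, hβ1, hβ2, hβ3⟩ : ∃ β : ℝ, 0 < β ∧ β ≤ δ / 6 ∧ β ≤ δ / (4 * 1) ∧ β ≤ 1 :=
    ⟨min (δ / 6) (min (δ / (4 * 1)) 1), by positivity, min_le_left _ _,
      (min_le_right _ _).trans (min_le_left _ _), (min_le_right _ _).trans (min_le_right _ _)⟩
  obtain ⟨μ, hμ0, hμ1, hμ2⟩ : ∃ μ : ℝ, 0 < μ ∧ μ ≤ s0 * (1 / (8 * ((k : ℝ) + 2))) / 3 ∧
      μ ≤ δ / 6 / ((k : ℝ) + 1) :=
    ⟨min (s0 * (1 / (8 * ((k : ℝ) + 2))) / 3) (δ / 6 / ((k : ℝ) + 1)), by positivity,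
      min_le_left _ _, min_le_right _ _⟩
  have hev := block e (e * E) μ β 1 he'pos hee he1 hμ0 hβ0 one_pos
  rw [hlog] at hev
  filter_upwards [hev] with L hX
  obtain ⟨f1, f2, f3, f4, f5, f6, f7⟩ := hX
  have hLpos : 0 < L := by linarith
  set M := ⌊L ^ (e * E)⌋₊ with hM
  set N := ⌊L ^ e⌋₊ with hN
  have hw : 0 < L ^ (e * E) := Real.rpow_pos_of_pos hLpos _
  have hz : 0 < L ^ e := Real.rpow_pos_of_pos hLpos _
  have hMlt : ∀ p : ℕ, M < p → L ^ (e * E) ≤ (p : ℝ) := by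
    intro p hp
    exact ((Nat.floor_lt hw.le).mp hp).le
  obtain ⟨P, hPdef⟩ : ∃ P : Finset ℕ, P = (Ioc M N).filter Nat.Prime := ⟨_, rfl⟩
  have hPmem : ∀ p ∈ P, M < p ∧ p ≤ N ∧ p.Prime := by
    intro p hp
    rw [hPdef, mem_filter, mem_Ioc] at hp
    exact ⟨hp.1.1, hp.1.2, hp.2⟩
  rw [← hPdef] at f1
  rw [abs_le] at f1
  have hlo : s0 * (1 - 1 / (8 * ((k : ℝ) + 2))) ≤ ∑ p ∈ P, 1 / (p : ℝ) := by
    have h3 : 0 < s0 * (1 / (8 * ((k : ℝ) + 2))) := by positivity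
    linarith [f1.1]
  have hhi : ∑ p ∈ P, 1 / (p : ℝ) ≤ s0 * (1 + 1 / (8 * ((k : ℝ) + 2))) := by
    have h3 : 0 < s0 * (1 / (8 * ((k : ℝ) + 2))) := by positivity
    linarith [f1.2]
  have hs1 : ∑ p ∈ P, 1 / (p : ℝ) ≤ 1 := by
    have h3 : 1 / (8 * ((k : ℝ) + 2)) ≤ 1 := by
      rw [div_le_one (by positivity)]
      linarith
    have h4 : s0 * (1 + 1 / (8 * ((k : ℝ) + 2))) ≤ 1 / 4 * (1 + 1) :=
      mul_le_mul hs4 (by linarith) (by positivity) (by norm_num)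
    linarith
  have hQ : ((k : ℝ) + 1) * ∑ p ∈ P, (1 / (p : ℝ)) ^ 2 ≤ δ / 6 := by
    have h3 : ∑ p ∈ P, (1 / (p : ℝ)) ^ 2 ≤ μ := by
      calc ∑ p ∈ P, (1 / (p : ℝ)) ^ 2 ≤ ∑ p ∈ P, (1 / (p : ℝ)) * (1 / L ^ (e * E)) := by
            apply sum_le_sum
            intro p hp
            rw [sq]
            apply mul_le_mul_of_nonneg_left _ (by positivity)
            exact one_div_le_one_div_of_le hw (hMlt p (hPmem p hp).1)
        _ = (∑ p ∈ P, 1 / (p : ℝ)) * (1 / L ^ (e * E)) := by rw [sum_mul]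
        _ ≤ 1 * (1 / L ^ (e * E)) := mul_le_mul_of_nonneg_right hs1 (by positivity)
        _ ≤ μ := by rw [one_mul]; exact f3
    have h4 : ((k : ℝ) + 1) * (δ / 6 / ((k : ℝ) + 1)) = δ / 6 := by field_simp
    calc ((k : ℝ) + 1) * ∑ p ∈ P, (1 / (p : ℝ)) ^ 2 ≤ ((k : ℝ) + 1) * (δ / 6 / ((k : ℝ) + 1)) :=
          mul_le_mul_of_nonneg_left (h3.trans hμ2) (by linarith)
      _ = δ / 6 := h4
  -- cardinality
  have hcard : (P.card : ℝ) + 1 ≤ β * L ^ e := by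
    refine le_trans ?_ f6
    have h3 : P.card ≤ ((Ioc 0 N).filter Nat.Prime).card := by
      apply card_le_card
      intro p hp
      obtain ⟨g1, g2, g3⟩ := hPmem p hp
      rw [mem_filter, mem_Ioc]
      exact ⟨⟨by omega, g2⟩, g3⟩
    have h4 : (P.card : ℝ) ≤ (((Ioc 0 N).filter Nat.Prime).card : ℝ) := by exact_mod_cast h3
    linarith
  have hek : (L ^ e) ^ k = L ^ a := by
    rw [← Real.rpow_natCast, ← Real.rpow_mul hLpos.le, he, div_mul_cancel₀ _ hkpos.ne']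
  have hpowcard : ∀ j : ℕ, 1 ≤ j → ((P.card : ℝ) + 1) ^ j ≤ β * (L ^ e) ^ j := by
    intro j hj
    calc ((P.card : ℝ) + 1) ^ j ≤ (β * L ^ e) ^ j := pow_le_pow_left₀ (by positivity) hcard _
      _ = β ^ j * (L ^ e) ^ j := mul_pow _ _ _
      _ ≤ β * (L ^ e) ^ j := by
          apply mul_le_mul_of_nonneg_right _ (by positivity)
          calc β ^ j ≤ β ^ 1 := pow_le_pow_of_le_one hβ0.le hβ3 hj
            _ = β := pow_one _
  have hca : ((P.card : ℝ) + 1) ^ k ≤ β * L ^ a := by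
    rw [← hek]; exact hpowcard k hk1
  have hcc : ((P.card : ℝ) + 1) ^ (k + 1) ≤ β * L ^ (a + e) := by
    refine (hpowcard (k + 1) (by omega)).trans ?_
    apply mul_le_mul_of_nonneg_left _ hβ0.le
    rw [pow_succ, hek, ← Real.rpow_add hLpos]
  have hac : L ^ a ≤ L ^ (a + e) := Real.rpow_le_rpow_of_exponent_le f7.le (by linarith)
  have hT : ∀ T ∈ P.powersetCard (k + 1), L ^ (a + a / (4 * (k0 + 1))) < ∏ p ∈ T, (p : ℝ) := by
    intro T hT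
    obtain ⟨hT1, hT2⟩ := mem_powersetCard.mp hT
    have h3 : (L ^ (e * E)) ^ (k + 1) ≤ ∏ p ∈ T, (p : ℝ) := by
      rw [← hT2, ← prod_const]
      apply prod_le_prod (fun _ _ => hw.le)
      intro p hp
      exact hMlt p (hPmem p (hT1 hp)).1
    refine lt_of_lt_of_le ?_ h3
    rw [← Real.rpow_natCast, ← Real.rpow_mul hLpos.le]
    apply Real.rpow_lt_rpow_of_exponent_lt f7
    -- a + κ < e E (k+1)
    have h4 : ((k : ℝ) + 1) * E ≥ k + 1 / 2 := by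
      have h5 : ((k : ℝ) + 1) * s0 ≤ 1 / 2 := by
        have h6 := mul_le_mul_of_nonneg_left hsk (by linarith : (0 : ℝ) ≤ (k : ℝ) + 1)
        have h7 : ((k : ℝ) + 1) * (1 / (2 * (k + 1))) = 1 / 2 := by field_simp
        linarith
      have h6 := mul_le_mul_of_nonneg_left hE1 (by linarith : (0 : ℝ) ≤ (k : ℝ) + 1)
      linarith
    have h5 : e * E * ((k + 1 : ℕ) : ℝ) ≥ e * (k + 1 / 2) := by
      push_cast
      have := mul_le_mul_of_nonneg_left h4 hepos.le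
      linarith
    have h6 : e * k = a := by rw [he, div_mul_cancel₀ _ hkpos.ne']
    have h7 : a / (4 * (k0 + 1)) < e * (1 / 2) := by
      rw [div_lt_iff₀ (by positivity)]
      have h8 : e * ((k0 : ℝ) + 1) ≥ e * k := mul_le_mul_of_nonneg_left hkrR hepos.le
      linarith
    linarith
  obtain ⟨c1, c2, c3, c4⟩ := core h1 h2 P (fun p hp => (hPmem p hp).2.2) k hk1 σ s0 1 β δ
    (L ^ a) (L ^ (a + a / (4 * (k0 + 1)))) (L ^ (a + e)) hkσ hs0 hs4 one_pos hsC hδ hlo hhi hQ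
    hβ0.le hβ1 hβ2 (Real.rpow_pos_of_pos hLpos _) hca hac hcc hT
  refine ⟨P, fun p hp => ⟨(hPmem p hp).2.2, ?_⟩, fun y hy1 hy2 => ?_⟩
  · have h3 := (hPmem p hp).2.1
    refine h3.trans (f4.trans (Nat.floor_le_floor ?_))
    linarith
  · have := c2 y hy1 hy2
    linarith

end Run7.h52.M1
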