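import Pool.Agent.Run7.h52.X9a

/-!
The functions of the linear sieve: `F(s) - f(s) ≤ 2 e ^ γ / Γ(s + 1)`.
-/

set_option autoImplicit false
set_option linter.unusedSectionVars false

namespace Run7.h52.M3

open Filter Finset Topology
open Pool.Agent.W23.DC
open Run7.h52.X9a

/-- `F - f`, continued by its value at `1` -/
noncomputable def Qt (F f : ℝ → ℝ) (t : ℝ) : ℝ := F (max t 1) - f (max t 1)

lemma Qt_cont {A0 : ℝ} {F f : ℝ → ℝ} (h : SF A0 F f) : Continuous (Qt F f) := by
  have h1 : Continuous fun t : ℝ => max t 1 := continuous_id.max continuous_const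
  have h2 : ∀ t : ℝ, max t 1 ∈ Set.Ici (1 : ℝ) := fun t => Set.mem_Ici.2 (le_max_right _ _)
  exact (h.cF.comp_continuous h1 h2).sub (h.cf.comp_continuous h1 h2)

lemma Qt_eq {F f : ℝ → ℝ} {t : ℝ} (ht : 1 ≤ t) : Qt F f t = F t - f t := by
  rw [Qt, max_eq_left ht]

/-- `s (F(s) - f(s))`, continued -/
noncomputable def ht (F f : ℝ → ℝ) (t : ℝ) : ℝ := t * Qt F f t

lemma ht_cont {A0 : ℝ} {F f : ℝ → ℝ} (h : SF A0 F f) : Continuous (ht F f) := continuous_id.mul (Qt_cont h)

lemma ht_low {A0 : ℝ} {F f : ℝ → ℝ} (h : SF A0 F f) {t : ℝ} (h1 : 1 ≤ t) (h2 : t ≤ 2) : ht F f t = A0 := by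
  rw [ht, Qt_eq h1, h.F3 t h1 (by linarith), h.f2 t h1 h2, sub_zero]
  field_simp

lemma ht_int {A0 : ℝ} {F f : ℝ → ℝ} (h : SF A0 F f) {s : ℝ} (hs : 2 ≤ s) :
    ht F f s = A0 - ∫ x in (2 : ℝ)..s, Qt F f (x - 1) := by
  have h1 := sum_eq h s hs
  have h2 := h.ef s hs
  have e1 : ∫ x in (2 : ℝ)..s, Qt F f (x - 1) = ∫ x in (2 : ℝ)..s, (F (x - 1) - f (x - 1)) := by
    apply intervalIntegral.integral_congr
    intro x hx
    rw [Set.uIcc_of_le hs] at hx
    exact Qt_eq (by linarith [hx.1])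
  rw [e1, intervalIntegral.integral_sub (cF_sh h.cF le_rfl hs) (cF_sh h.cf le_rfl hs), ← h2]
  have h3 : ∫ x in (2 : ℝ)..s, f (x - 1) = s * F s - A0 := by linarith
  rw [h3, ht, Qt_eq (by linarith)]
  ring

lemma Qt_nonneg {A0 : ℝ} {F f : ℝ → ℝ} (h : SF A0 F f) (t : ℝ) : 0 ≤ Qt F f t := by
  have h1 : (1 : ℝ) ≤ max t 1 := le_max_right _ _
  have := h.F1 _ h1
  have := h.f1 _ h1
  rw [Qt]
  linarith

/-- the identity of the adjoint equation -/
lemma adj {A0 : ℝ} {F f : ℝ → ℝ} (h : SF A0 F f) {s : ℝ} (hs : 2 ≤ s) :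
    (s - 1) * ht F f s = ∫ t in (s - 1)..s, ht F f t := by
  have hc := ht_cont h
  have hQ := Qt_cont h
  have hQ' : Continuous fun x : ℝ => Qt F f (x - 1) := hQ.comp (continuous_id.sub continuous_const)
  set G : ℝ → ℝ := fun s => (s - 1) * (A0 - ∫ x in (2 : ℝ)..s, Qt F f (x - 1))
    - ((∫ t in (0 : ℝ)..s, ht F f t) - ∫ t in (0 : ℝ)..(s - 1), ht F f t) with hG
  have hd : ∀ x : ℝ, HasDerivAt G (1 * (A0 - ∫ y in (2 : ℝ)..x, Qt F f (y - 1)) + (x - 1) * (0 - Qt F f (x - 1))
      - (ht F f x - ht F f (x - 1) * 1)) x := by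
    intro x
    have d1 : HasDerivAt (fun s : ℝ => ∫ y in (2 : ℝ)..s, Qt F f (y - 1)) (Qt F f (x - 1)) x :=
      intervalIntegral.integral_hasDerivAt_right (hQ'.intervalIntegrable _ _)
        (hQ'.stronglyMeasurableAtFilter _ _) hQ'.continuousAt
    have d2 : HasDerivAt (fun s : ℝ => ∫ t in (0 : ℝ)..s, ht F f t) (ht F f x) x :=
      intervalIntegral.integral_hasDerivAt_right (hc.intervalIntegrable _ _)
        (hc.stronglyMeasurableAtFilter _ _) hc.continuousAt
    have d3 : HasDerivAt (fun s : ℝ => ∫ t in (0 : ℝ)..(s - 1), ht F f t) (ht F f (x - 1) * 1) x := by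
      have d4 : HasDerivAt (fun s : ℝ => ∫ t in (0 : ℝ)..s, ht F f t) (ht F f (x - 1)) (x - 1) :=
        intervalIntegral.integral_hasDerivAt_right (hc.intervalIntegrable _ _)
          (hc.stronglyMeasurableAtFilter _ _) hc.continuousAt
      exact d4.comp x ((hasDerivAt_id x).sub_const 1)
    have d5 : HasDerivAt (fun s : ℝ => s - 1) 1 x := (hasDerivAt_id x).sub_const 1
    have d6 := d5.mul ((hasDerivAt_const x A0).sub d1)
    exact d6.sub (d2.sub d3)
  have hd0 : ∀ x : ℝ, 2 ≤ x → HasDerivAt G 0 x := by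
    intro x hx
    have e1 := hd x
    have e2 : 1 * (A0 - ∫ y in (2 : ℝ)..x, Qt F f (y - 1)) + (x - 1) * (0 - Qt F f (x - 1))
      - (ht F f x - ht F f (x - 1) * 1) = 0 := by
      rw [← ht_int h hx]
      have : ht F f (x - 1) = (x - 1) * Qt F f (x - 1) := rfl
      rw [this]; ring
    rwa [e2] at e1
  have hconst : G s = G 2 := by
    have hcont : ContinuousOn G (Set.Icc 2 s) := fun x _ => (hd x).continuousAt.continuousWithinAt
    exact constant_of_has_deriv_right_zero hcont (fun x hx => (hd0 x hx.1).hasDerivWithinAt) s ⟨hs, le_rfl⟩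
  have hsplit : ∀ x : ℝ, (∫ t in (0 : ℝ)..x, ht F f t) - ∫ t in (0 : ℝ)..(x - 1), ht F f t
      = ∫ t in (x - 1)..x, ht F f t := by
    intro x
    exact intervalIntegral.integral_interval_sub_left (hc.intervalIntegrable _ _) (hc.intervalIntegrable _ _)
  have hG2 : G 2 = 0 := by
    rw [hG]
    beta_reduce
    rw [hsplit 2]
    have e1 : ∫ t in ((2 : ℝ) - 1)..2, ht F f t = ∫ t in ((2 : ℝ) - 1)..2, A0 := by
      apply intervalIntegral.integral_congr
      intro t htt
      rw [Set.uIcc_of_le (by norm_num)] at htt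
      exact ht_low h (by linarith [htt.1]) htt.2
    rw [e1, intervalIntegral.integral_const, intervalIntegral.integral_same]
    norm_num
  have hGs : G s = (s - 1) * ht F f s - ∫ t in (s - 1)..s, ht F f t := by
    rw [hG]
    beta_reduce
    rw [hsplit s, ← ht_int h hs]
  rw [hconst, hG2] at hGs
  linarith

lemma ht_anti {A0 : ℝ} {F f : ℝ → ℝ} (h : SF A0 F f) {s t : ℝ} (hs : 1 ≤ s) (hst : s ≤ t) :
    ht F f t ≤ ht F f s := by
  have hQ' : Continuous fun x : ℝ => Qt F f (x - 1) := (Qt_cont h).comp (continuous_id.sub continuous_const)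
  have hn : ∀ a b : ℝ, a ≤ b → 0 ≤ ∫ x in a..b, Qt F f (x - 1) := fun a b hab =>
    intervalIntegral.integral_nonneg hab fun x _ => Qt_nonneg h _
  rcases le_total t 2 with h2 | h2
  · rw [ht_low h (hs.trans hst) h2, ht_low h hs (hst.trans h2)]
  · rcases le_total s 2 with h3 | h3
    · rw [ht_low h hs h3, ht_int h h2]
      linarith [hn 2 t h2]
    · rw [ht_int h h2, ht_int h h3]
      have e := intervalIntegral.integral_add_adjacent_intervals (a := 2) (b := s) (c := t) (f := fun x => Qt F f (x - 1))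
        (μ := MeasureTheory.volume) (hQ'.intervalIntegrable _ _) (hQ'.intervalIntegrable _ _)
      have := hn s t hst
      linarith

lemma ht_step {A0 : ℝ} {F f : ℝ → ℝ} (h : SF A0 F f) {s : ℝ} (hs : 2 ≤ s) :
    (s - 1) * ht F f s ≤ ht F f (s - 1) := by
  rw [adj h hs]
  have hc := ht_cont h
  have h1 : ∫ t in (s - 1)..s, ht F f t ≤ ∫ t in (s - 1)..s, ht F f (s - 1) := by
    apply intervalIntegral.integral_mono_on (by linarith) (hc.intervalIntegrable _ _)
      (continuous_const.intervalIntegrable _ _)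
    intro t htt
    exact ht_anti h (by linarith) htt.1
  refine h1.trans (le_of_eq ?_)
  rw [intervalIntegral.integral_const]
  simp

lemma Gamma_le {s : ℝ} (h1 : 1 ≤ s) (h2 : s ≤ 2) : Real.Gamma s ≤ 1 := by
  have hcv := Real.convexOn_Gamma
  have h3 := hcv.2 (Set.mem_Ioi.2 (one_pos : (0 : ℝ) < 1)) (Set.mem_Ioi.2 (two_pos : (0 : ℝ) < 2))
    (by linarith : 0 ≤ 2 - s) (by linarith : 0 ≤ s - 1) (by ring)
  have e1 : (2 - s) • (1 : ℝ) + (s - 1) • (2 : ℝ) = s := by simp only [smul_eq_mul]; ring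
  rw [e1, Real.Gamma_one, Real.Gamma_two] at h3
  simp only [smul_eq_mul] at h3
  linarith

lemma ht_gamma {A0 : ℝ} {F f : ℝ → ℝ} (h : SF A0 F f) (n : ℕ) : ∀ s : ℝ, 1 ≤ s → s ≤ n + 2 →
    ht F f s * Real.Gamma s ≤ A0 := by
  induction n with
  | zero =>
    intro s h1 h2
    have h2' : s ≤ 2 := by simpa using h2
    rw [ht_low h h1 h2']
    have := mul_le_mul_of_nonneg_left (Gamma_le h1 h2') h.pos.le
    linarith
  | succ n ih =>
    intro s h1 h2
    push_cast at h2
    rcases le_total s 2 with h3 | h3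
    · rw [ht_low h h1 h3]
      have := mul_le_mul_of_nonneg_left (Gamma_le h1 h3) h.pos.le
      linarith
    · have h4 := ih (s - 1) (by linarith) (by linarith)
      have h5 := ht_step h h3
      have h6 : Real.Gamma s = (s - 1) * Real.Gamma (s - 1) := by
        have := Real.Gamma_add_one (s := s - 1) (by linarith)
        rwa [sub_add_cancel] at this
      have h7 : 0 < Real.Gamma (s - 1) := Real.Gamma_pos_of_pos (by linarith)
      rw [h6]
      have h8 := mul_le_mul_of_nonneg_right h5 h7.le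
      linarith

/-- **the functions of the linear sieve** -/
theorem diff_gamma {A0 : ℝ} {F f : ℝ → ℝ} (h : SF A0 F f) {s : ℝ} (hs : 1 ≤ s) :
    F s - f s ≤ A0 / Real.Gamma (s + 1) := by
  obtain ⟨n, hn⟩ := exists_nat_ge s
  have h1 := ht_gamma h n s hs (by linarith)
  rw [ht, Qt_eq hs] at h1
  have h2 : Real.Gamma (s + 1) = s * Real.Gamma s := Real.Gamma_add_one (by linarith)
  have h3 : 0 < Real.Gamma s := Real.Gamma_pos_of_pos (by linarith)
  rw [h2, le_div_iff₀ (by positivity)]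
  linarith

end Run7.h52.M3
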