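import Pool.Agent.Run7.h52.M2
import Pool.Agent.Run7.h52.M4

/-!
Progressions: everything with one exponent `c`.
-/

set_option autoImplicit false
set_option linter.unusedSectionVars false

namespace Run7.h52.M5

open Finset Run7.h52.Count Run7.h52.Rough Run7.h52.Asym Run7.h52.AsmV Run7.h52.U19 Run7.h52.U20
  Run7.h52.X10 Run7.h52.X11 Run7.h52.E4 Run7.h52.E5 Run7.h52.E6 Run7.h52.E7 Run7.h52.M1 Run7.h52.M2 Run7.h52.M4
open Pool.Agent.W23.DC

/-- primes, from a bound for rough numbers -/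
theorem primesM {θ A ε B c T : ℝ} (hA : 2 < A) (hε : 0 < ε) (hc : 0 < c)
    (H : ∀ N : ℕ, T ≤ N → ∀ Y z : ℕ,
    (Real.log N) ^ A ≤ Y → (z : ℝ) ≤ (N : ℝ) ^ c → ∀ g : ℕ, 1 ≤ g → (g : ℝ) ≤ (N : ℝ) ^ B →
    ∀ w : ℤ → ℝ, TW.SquareWeight ((N : ℝ) ^ θ) w → ∀ x : ℤ,
    (∑ n ∈ (Finset.Ioc x (x + N)).filter (fun n =>
        (2 * Real.exp Real.eulerMascheroniConstant / Real.Gamma (A + 1) + ε) * (Wg g z * Y) <
          |(Rg g z Y n : ℝ) - Wg g z * Y|), w n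
        ≤ ε * ∑ n ∈ Finset.Ioc x (x + N), w n)) :
    ∃ C T : ℝ, 0 < C ∧ ∀ N : ℕ, T ≤ N → ∀ Y : ℕ, (Real.log N) ^ A ≤ Y →
    ∀ g : ℕ, 1 ≤ g → (g : ℝ) ≤ (N : ℝ) ^ B →
    ∀ w : ℤ → ℝ, TW.SquareWeight ((N : ℝ) ^ θ) w → ∀ x : ℤ,
    ∑ n ∈ (Finset.Ioc x (x + N)).filter (fun n =>
        C * (((g : ℝ) / (Nat.totient g : ℕ)) * (Y / Real.log N)) < (Pg g Y ((N : ℝ) ^ c) n : ℝ)), w n
        ≤ ε * ∑ n ∈ Finset.Ioc x (x + N), w n := by
  classical
  obtain ⟨CW, hCW, hWC⟩ := W_up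
  set K : ℝ := 2 * Real.exp Real.eulerMascheroniConstant / Real.Gamma (A + 1) with hK
  have hGam : 0 < Real.Gamma (A + 1) := Real.Gamma_pos_of_pos (by linarith)
  have hK0 : 0 < K := by positivity
  have hev : ∀ᶠ N : ℕ in Filter.atTop, (2 : ℝ) ≤ (N : ℝ) ^ (c / 2) :=
    ((tendsto_rpow_atTop (by positivity : 0 < c / 2)).comp tendsto_natCast_atTop_atTop).eventually_ge_atTop _
  obtain ⟨N₀, hN₀⟩ := Filter.eventually_atTop.1 hev
  refine ⟨(1 + K + ε) * (2 * CW / c), max (max T 2) N₀, by positivity, fun N hN Y hY g hg hgN w hw x => ?_⟩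
  have hN1 : T ≤ N := ((le_max_left _ _).trans (le_max_left _ _)).trans hN
  have hN2 : (2 : ℝ) ≤ N := ((le_max_right _ _).trans (le_max_left _ _)).trans hN
  have hN3 : N₀ ≤ N := by
    have : (N₀ : ℝ) ≤ N := (le_max_right _ _).trans hN
    exact_mod_cast this
  have hN0 : (0 : ℝ) < N := by linarith
  have hlN : 0 < Real.log N := Real.log_pos (by linarith)
  set z : ℕ := ⌊(N : ℝ) ^ c⌋₊ with hz
  have hzN : (z : ℝ) ≤ (N : ℝ) ^ c := Nat.floor_le (by positivity)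
  have h1 := H N hN1 Y z hY hzN g hg hgN w hw x
  refine le_trans ?_ h1
  refine Finset.sum_le_sum_of_subset_of_nonneg ?_ fun n _ _ => sw_nonneg hw n
  intro n hn
  rw [Finset.mem_filter] at hn ⊢
  refine ⟨hn.1, ?_⟩
  -- the size of `z`
  have h2 := hN₀ N hN3
  have h3 : (N : ℝ) ^ c = (N : ℝ) ^ (c / 2) * (N : ℝ) ^ (c / 2) := by
    rw [← Real.rpow_add hN0]; congr 1; ring
  have h4 : (N : ℝ) ^ (c / 2) ≤ z := by
    have h5 : (N : ℝ) ^ c < z + 1 := Nat.lt_floor_add_one _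
    rw [h3] at h5
    nlinarith
  have hz2 : 2 ≤ z := by
    have : (2 : ℝ) ≤ z := h2.trans h4
    exact_mod_cast this
  have hlz : c / 2 * Real.log N ≤ Real.log z := by
    have := Real.log_le_log (by positivity) h4
    rwa [Real.log_rpow hN0] at this
  have hlz0 : 0 < c / 2 * Real.log N := by positivity
  have hW : W z ≤ 2 * CW / c / Real.log N := by
    refine (hWC z hz2).trans ?_
    have h5 : CW / Real.log z ≤ CW / (c / 2 * Real.log N) := div_le_div_of_nonneg_left hCW.le hlz0 hlz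
    refine h5.trans (le_of_eq ?_)
    field_simp
  have hφ : (0 : ℝ) < (Nat.totient g : ℕ) := by exact_mod_cast Nat.totient_pos.2 hg
  have hWg : Wg g z ≤ (g : ℝ) / (Nat.totient g : ℕ) * (2 * CW / c / Real.log N) := by
    have h5 : Wg g z ≤ (g : ℝ) / (Nat.totient g : ℕ) * W z := by
      rw [div_mul_eq_mul_div, le_div_iff₀ hφ]
      exact Wg_le hg z
    exact h5.trans (mul_le_mul_of_nonneg_left hW (by positivity))
  have hY0 : (0 : ℝ) ≤ Y := Nat.cast_nonneg _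
  have h6 : (1 + K + ε) * (Wg g z * Y) ≤ (1 + K + ε) * (2 * CW / c) * (((g : ℝ) / (Nat.totient g : ℕ)) * (Y / Real.log N)) := by
    have h7 := mul_le_mul_of_nonneg_left (mul_le_mul_of_nonneg_right hWg hY0) (by linarith : 0 ≤ 1 + K + ε)
    refine h7.trans (le_of_eq ?_)
    ring
  have h7 : (Pg g Y ((N : ℝ) ^ c) n : ℝ) ≤ Rg g z Y n := by exact_mod_cast Pg_le hzN n
  have h8 : (1 + K + ε) * (Wg g z * Y) < Rg g z Y n := lt_of_le_of_lt h6 (lt_of_lt_of_le hn.2 h7)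
  refine lt_of_lt_of_le ?_ (le_abs_self _)
  have e : (1 + K + ε) * (Wg g z * Y) = Wg g z * Y + (K + ε) * (Wg g z * Y) := by ring
  rw [e] at h8
  linarith

end Run7.h52.M5
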