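import Pool.Agent.Y835.SB.Lin2

/-!
The linear sieve for an interval, both bounds with the extremal functions, uniformly in the sifting
limit (adapted from `Pool.Agent.Y835.SB.lin_low`).
-/

set_option autoImplicit false
set_option linter.unusedSectionVars false

namespace Run7.h52.X9

open Finset
open Pool.Agent.W23.DC Pool.Agent.Y835.SB

open Classical in
/-- the product over the primes below `Y ^ ζ` -/
noncomputable def prodW (Y : ℕ) (ζ : ℝ) : ℝ :=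
  ∏ p ∈ (Icc 1 Y).filter (fun p : ℕ => p.Prime ∧ (p : ℝ) < (Y : ℝ) ^ ζ), (1 - 1 / (p : ℝ))

lemma exp_low {x : ℝ} (h0 : 0 ≤ x) (h1 : x ≤ 1 / 2) : Real.exp (-(x + x ^ 2)) ≤ 1 - x := by
  have h2 := Real.quadratic_le_exp_of_nonneg (by positivity : 0 ≤ x + x ^ 2)
  rw [Real.exp_neg]
  have h3 : 0 < 1 - x := by linarith
  rw [inv_le_comm₀ (Real.exp_pos _) h3]
  refine le_trans ?_ h2
  rw [inv_eq_one_div, div_le_iff₀ h3]
  have : 0 ≤ x ^ 2 * (1 / 2 - x) := by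
    have : 0 ≤ 1 / 2 - x := by linarith
    positivity
  nlinarith [pow_nonneg h0 3, pow_nonneg h0 4, pow_nonneg h0 2, mul_nonneg (pow_nonneg h0 3) (by linarith : 0 ≤ 1 / 2 - x)]

/-- Mertens product over the primes of a finite set -/
lemma prod_bounds {Q : Finset ℕ} (hQ : ∀ p ∈ Q, p.Prime) {E η₁ s : ℝ} (hE : 0 < E) (hp : ∀ p ∈ Q, E ≤ p)
    (hs : |∑ p ∈ Q, 1 / (p : ℝ) - s| ≤ η₁) {B : ℝ} (hB : s + η₁ ≤ B) (hBE : B / E ≤ η₁) :
    Real.exp (-s) * Real.exp (-(2 * η₁)) ≤ ∏ p ∈ Q, (1 - 1 / (p : ℝ)) ∧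
      ∏ p ∈ Q, (1 - 1 / (p : ℝ)) ≤ Real.exp (-s) * Real.exp η₁ := by
  have h1 := abs_le.1 hs
  constructor
  · have h2 : ∑ p ∈ Q, (1 / (p : ℝ)) ^ 2 ≤ (1 / E) * ∑ p ∈ Q, 1 / (p : ℝ) := by
      rw [mul_sum]
      refine sum_le_sum fun p hpQ => ?_
      have h3 := hp p hpQ
      have h4 : (0 : ℝ) < p := lt_of_lt_of_le hE h3
      rw [sq]
      exact mul_le_mul_of_nonneg_right (one_div_le_one_div_of_le hE h3) (by positivity)
    have h3 : (1 / E) * ∑ p ∈ Q, 1 / (p : ℝ) ≤ η₁ := by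
      have h4 : ∑ p ∈ Q, 1 / (p : ℝ) ≤ B := by linarith
      calc (1 / E) * ∑ p ∈ Q, 1 / (p : ℝ) ≤ (1 / E) * B := mul_le_mul_of_nonneg_left h4 (by positivity)
        _ = B / E := by ring
        _ ≤ η₁ := hBE
    have h4 : Real.exp (-s) * Real.exp (-(2 * η₁)) ≤ Real.exp (∑ p ∈ Q, -(1 / (p : ℝ) + (1 / (p : ℝ)) ^ 2)) := by
      rw [← Real.exp_add]
      refine Real.exp_le_exp.2 ?_
      rw [sum_neg_distrib, sum_add_distrib]
      linarith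
    refine h4.trans ?_
    rw [Real.exp_sum]
    refine prod_le_prod (fun p _ => (Real.exp_pos _).le) fun p hpQ => ?_
    have h5 : (2 : ℝ) ≤ p := by exact_mod_cast (hQ p hpQ).two_le
    exact exp_low (by positivity) (by
      rw [div_le_div_iff₀ (by linarith) (by norm_num)]; linarith)
  · rw [← Real.exp_add]
    have h2 : ∏ p ∈ Q, (1 - 1 / (p : ℝ)) ≤ ∏ p ∈ Q, Real.exp (-(1 / (p : ℝ))) := by
      refine prod_le_prod (fun p hpQ => ?_) fun p _ => ?_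
      · have h5 : (2 : ℝ) ≤ p := by exact_mod_cast (hQ p hpQ).two_le
        have : 1 / (p : ℝ) ≤ 1 := by
          rw [div_le_one (by linarith)]; linarith
        linarith
      · have := Real.add_one_le_exp (-(1 / (p : ℝ)))
        linarith
    refine h2.trans ?_
    rw [← Real.exp_sum, sum_neg_distrib]
    exact Real.exp_le_exp.2 (by linarith)

/-- uniform continuity -/
lemma unif {F : ℝ → ℝ} (hF : ContinuousOn F (Set.Ici 1)) (R : ℝ) {ε : ℝ} (hε : 0 < ε) :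
    ∃ δ : ℝ, 0 < δ ∧ ∀ x ∈ Set.Icc (1 : ℝ) R, ∀ y ∈ Set.Icc (1 : ℝ) R, |x - y| < δ → |F x - F y| < ε := by
  have h1 : ContinuousOn F (Set.Icc 1 R) := hF.mono fun x hx => hx.1
  have h2 := isCompact_Icc.uniformContinuousOn_of_continuous h1
  rw [Metric.uniformContinuousOn_iff] at h2
  obtain ⟨δ, hδ, h⟩ := h2 ε hε
  refine ⟨δ, hδ, fun x hx y hy hxy => ?_⟩
  have := h x hx y hy (by rwa [Real.dist_eq])
  rwa [Real.dist_eq] at this

lemma bdd {F : ℝ → ℝ} (hF : ContinuousOn F (Set.Ici 1)) (R : ℝ) :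
    ∃ M : ℝ, 1 ≤ M ∧ ∀ x ∈ Set.Icc (1 : ℝ) R, F x ≤ M := by
  have h1 : ContinuousOn F (Set.Icc 1 R) := hF.mono fun x hx => hx.1
  obtain ⟨C, hC⟩ := isCompact_Icc.exists_bound_of_continuousOn h1
  refine ⟨max 1 C, le_max_left _ _, fun x hx => ?_⟩
  exact (le_abs_self _).trans ((hC x hx).trans (le_max_right _ _))

open Classical in
/-- the linear sieve for an interval, with the extremal functions -/
theorem lin_unif {A0 : ℝ} {F f : ℝ → ℝ} (hS : SF A0 F f) {ζ₁ ζ₂ : ℝ} (hζ1 : 0 < ζ₁) (hζ12 : ζ₁ ≤ ζ₂)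
    (hζ2 : ζ₂ < 1 / 2) {ε : ℝ} (hε : 0 < ε) : ∃ Y0 : ℕ,
    ∀ Y : ℕ, Y0 ≤ Y → ∀ ζ : ℝ, ζ₁ ≤ ζ → ζ ≤ ζ₂ → ∀ n : ℕ,
      (f (1 / ζ) - ε) * (Y * prodW Y ζ) ≤
      (((Icc 1 Y).filter (fun h => ∀ p : ℕ, p.Prime → (p : ℝ) < (Y : ℝ) ^ ζ → ¬ p ∣ n + h)).card : ℝ) ∧
      (((Icc 1 Y).filter (fun h => ∀ p : ℕ, p.Prime → (p : ℝ) < (Y : ℝ) ^ ζ → ¬ p ∣ n + h)).card : ℝ) ≤
      (F (1 / ζ) + ε) * (Y * prodW Y ζ) := by
  obtain ⟨C0, K0, hC0, hK0, HR⟩ := rcount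
  obtain ⟨δa, hδa, Ha⟩ := unif hS.cF (1 / ζ₁) (by positivity : 0 < ε / 8)
  obtain ⟨δb, hδb, Hb⟩ := unif hS.cf (1 / ζ₁) (by positivity : 0 < ε / 8)
  obtain ⟨M, hM1, hM⟩ := bdd hS.cF (1 / ζ₁)
  set δ : ℝ := min (min ζ₁ (1 - 2 * ζ₂)) (min (δa * ζ₁ / 2) (δb * ζ₁ / 2)) with hδ
  have hδ0 : 0 < δ := by
    rw [hδ]
    refine lt_min (lt_min hζ1 (by linarith)) (lt_min (by positivity) (by positivity))
  have hδ1 : δ ≤ ζ₁ := (min_le_left _ _).trans (min_le_left _ _)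
  have hδ2 : δ ≤ 1 - 2 * ζ₂ := (min_le_left _ _).trans (min_le_right _ _)
  have hδ3 : δ ≤ δa * ζ₁ / 2 := (min_le_right _ _).trans (min_le_left _ _)
  have hδ4 : δ ≤ δb * ζ₁ / 2 := (min_le_right _ _).trans (min_le_right _ _)
  set τ : ℝ := 1 - δ with hτ
  have hτ0 : 0 < τ := by rw [hτ]; linarith
  have hτ1 : τ ≤ 1 := by rw [hτ]; linarith
  have h2ζ2 : 2 * ζ₂ ≤ τ := by rw [hτ]; linarith
  set f0 : ℝ := ε / 8 with hf0d
  have hf0 : 0 < f0 := by positivity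
  set η₁ : ℝ := min (1 / 2) (ε / (8 * (M + ε))) with hη₁
  have hMε : 0 < M + ε := by linarith
  have hη₁0 : 0 < η₁ := lt_min (by norm_num) (by positivity)
  have hη₁1 : η₁ ≤ 1 / 2 := min_le_left _ _
  have hη₁2 : η₁ * (M + ε) ≤ ε / 8 := by
    have h1 : η₁ ≤ ε / (8 * (M + ε)) := min_le_right _ _
    calc η₁ * (M + ε) ≤ ε / (8 * (M + ε)) * (M + ε) := mul_le_mul_of_nonneg_right h1 hMε.le
      _ = ε / 8 := by field_simp
  have hη₁3 : η₁ ≤ ε / 8 := by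
    have : η₁ * 1 ≤ η₁ * (M + ε) := mul_le_mul_of_nonneg_left (by linarith) hη₁0.le
    linarith
  obtain ⟨b, hbC, hb2, hb3, hb4⟩ := ex_b C0 (ζ := 1) hf0 hδ0
  have hb2' : (2 : ℝ) ≤ b := by exact_mod_cast hb2
  have hb0 : (0 : ℝ) < b := by linarith
  set ε₁ : ℝ := 1 / (b : ℝ) ^ 2 with hε₁
  have hε0 : 0 < ε₁ := by rw [hε₁]; positivity
  have hC0' : (1 : ℝ) ≤ C0 := by exact_mod_cast hC0
  have hK0' : (1 : ℝ) ≤ K0 := by exact_mod_cast hK0
  have hεδ : ε₁ < δ / 2 := by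
    have h1 : ε₁ * 2 ≤ ε₁ * (4 * C0 * b + 1) :=
      mul_le_mul_of_nonneg_left (by nlinarith) hε0.le
    linarith
  have hεζ : ε₁ < ζ₁ := by linarith
  -- the constants
  set c1 : ℝ := 2 * ε₁ * f0 with hc1
  have hc10 : 0 < c1 := by positivity
  have hbb : (1 / 2 : ℝ) ^ b * (2 / ε₁) ≤ c1 / 8 := by
    have e1 : (1 / 2 : ℝ) ^ b * (2 / ε₁) = (1 / 2 : ℝ) ^ b * (16 * (b : ℝ) ^ 4 * 1) * (ε₁ / 8) := by
      rw [hε₁]
      field_simp
      ring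
    rw [e1]
    have h2 := mul_le_mul_of_nonneg_right hb3 (by positivity : 0 ≤ ε₁ / 8)
    refine h2.trans ?_
    rw [hc1]
    have : 0 ≤ ε₁ * f0 := by positivity
    linarith
  obtain ⟨η, hη, HMT⟩ := Pool.Agent.W505.DC.MT Pool.Agent.W505.DC.MI A0 F f hS ε₁ (c1 / 2) ⌈1 / ε₁⌉₊ hε0
    (by linarith) (by positivity)
  obtain ⟨N1, hN1⟩ := mer1 ε₁ (1 / 2) (min η η₁) hε0 (by norm_num) (lt_min hη hη₁0)
  set BB : ℝ := Real.log (1 / ε₁) + 1 with hBB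
  have hlogε : 0 ≤ Real.log (1 / ε₁) := by
    apply Real.log_nonneg
    rw [le_div_iff₀ hε0]; linarith
  have hev1 : ∀ᶠ N : ℕ in Filter.atTop, 4 ≤ (N : ℝ) ^ ε₁ :=
    ((tendsto_rpow_atTop hε0).comp tendsto_natCast_atTop_atTop).eventually_ge_atTop _
  have hev2 : ∀ᶠ N : ℕ in Filter.atTop, 4 * K0 / (c1 / 8) ≤ (N : ℝ) ^ (δ / 2 - ε₁) :=
    ((tendsto_rpow_atTop (sub_pos.2 hεδ)).comp tendsto_natCast_atTop_atTop).eventually_ge_atTop _
  have hev3 : ∀ᶠ N : ℕ in Filter.atTop, BB / η₁ ≤ (N : ℝ) ^ ε₁ :=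
    ((tendsto_rpow_atTop hε0).comp tendsto_natCast_atTop_atTop).eventually_ge_atTop _
  obtain ⟨N2, hN2⟩ := Filter.eventually_atTop.1 (hev1.and (hev2.and hev3))
  refine ⟨max N1 (max N2 3), fun Y hY ζ hζa hζb n => ?_⟩
  have hYN1 : N1 ≤ Y := (le_max_left _ _).trans hY
  have hYN2 : N2 ≤ Y := ((le_max_left _ _).trans (le_max_right _ _)).trans hY
  have hY3 : 3 ≤ Y := ((le_max_right _ _).trans (le_max_right _ _)).trans hY
  have hY2 : 2 ≤ Y := by omega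
  obtain ⟨hz4, hyK, hBBY⟩ := hN2 Y hYN2
  have hMer := hN1 Y hYN1
  have hζ0 : 0 < ζ := lt_of_lt_of_le hζ1 hζa
  have hζh : ζ < 1 / 2 := lt_of_le_of_lt hζb hζ2
  have h2ζ : 2 * ζ ≤ τ := by linarith
  have hεζ' : ε₁ ≤ ζ := by linarith
  have hY1 : (1 : ℝ) < Y := by exact_mod_cast (by omega : 1 < Y)
  have hY0 : (0 : ℝ) < Y := by linarith
  have hlY : 0 < Real.log Y := Real.log_pos hY1
  set z : ℕ := ⌊(Y : ℝ) ^ ε₁⌋₊ with hz
  have hz3 : 3 ≤ z := by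
    rw [hz, Nat.le_floor_iff (by positivity)]
    push_cast
    linarith
  have hzY : (z : ℝ) ≤ (Y : ℝ) ^ ε₁ := Nat.floor_le (by positivity)
  set PS : Finset ℕ := (Icc 1 z).filter (fun p : ℕ => p.Prime ∧ (p : ℝ) < (Y : ℝ) ^ ε₁) with hPS
  have hPSm : ∀ p ∈ PS, p.Prime ∧ p ≤ z := fun p hp =>
    ⟨(mem_filter.1 hp).2.1, (mem_Icc.1 (mem_filter.1 hp).1).2⟩
  set V : ℝ := ∏ p ∈ PS, (1 - 1 / (p : ℝ)) with hV
  have hV0 : 0 < V := by
    refine prod_pos fun p hp => ?_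
    have h5 : (2 : ℝ) ≤ p := by exact_mod_cast (hPSm p hp).1.two_le
    have : 1 / (p : ℝ) ≤ 1 / 2 := one_div_le_one_div_of_le (by norm_num) h5
    linarith
  have hVz : 1 / (z : ℝ) ≤ V :=
    Pool.Agent.W41.V_ge (fun p hp => (hPSm p hp).1) (by omega) (fun p hp => (hPSm p hp).2)
  set X : ℝ := Y * V with hX
  have hX0 : 0 < X := by positivity
  set P := pr Y ε₁ (1 / 2) with hP
  have hsiz : Siz P (tt Y) := siz hY2 _ _
  set K : ℕ := ⌈1 / ε₁⌉₊ with hK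
  set g : ℕ → ℝ := fun p => 1 / (p : ℝ) with hg
  set B : Finset ℕ := (Icc 1 Y).filter (fun h => ∀ p ∈ PS, ¬ p ∣ n + h) with hB
  set r : ℕ → ℝ := fun e => (∑ h ∈ B, ind (n + h) e) - X * (1 / (e : ℝ)) with hr
  have hYζ : (Y : ℝ) ^ ζ ≤ (Y : ℝ) ^ (1 / 2 : ℝ) := Real.rpow_le_rpow_of_exponent_le hY1.le hζh.le
  have hYh : (Y : ℝ) ^ (1 / 2 : ℝ) ≤ Y := by
    calc (Y : ℝ) ^ (1 / 2 : ℝ) ≤ (Y : ℝ) ^ (1 : ℝ) :=
          Real.rpow_le_rpow_of_exponent_le hY1.le (by norm_num)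
      _ = Y := Real.rpow_one _
  -- membership in `P` below `ζ`
  have hmem : ∀ p : ℕ, p.Prime → (p : ℝ) < (Y : ℝ) ^ ζ → ¬ (p : ℝ) < (Y : ℝ) ^ ε₁ → p ∈ P ∧ tt Y p < ζ := by
    intro p hp hpY h5
    have h6 : tt Y p < ζ := lt_of_tt hY2 hp.pos hpY
    refine ⟨?_, h6⟩
    rw [hP, mem_pr]
    refine ⟨⟨hp.pos, ?_⟩, hp, tt_of_le hY2 hp.pos (not_lt.1 h5), by linarith⟩
    exact_mod_cast (hpY.le.trans (hYζ.trans hYh))
  have hmem' : ∀ p ∈ P, tt Y p < ζ → (p : ℝ) < (Y : ℝ) ^ ζ := by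
    intro p hp h
    by_contra h1
    have h2 := tt_of_le hY2 (mem_pr.1 hp).1.1 (not_lt.1 h1)
    linarith
  set S := (Icc 1 Y).filter (fun h => ∀ p : ℕ, p.Prime → (p : ℝ) < (Y : ℝ) ^ ζ → ¬ p ∣ n + h) with hSdef
  -- the pointwise inequality, summed
  have e1 : ∑ h ∈ B, LL P (tt Y) (ind (n + h)) K false τ ζ 1 ≤ (S.card : ℝ) := by
    have h1 : ∀ h ∈ B, LL P (tt Y) (ind (n + h)) K false τ ζ 1 ≤
        if ∀ p : ℕ, p.Prime → (p : ℝ) < (Y : ℝ) ^ ζ → ¬ p ∣ n + h then (1 : ℝ) else 0 := by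
      intro h hh
      have h2 := (Pool.Agent.W52.DC.PT P (tt Y) hsiz (n + h) K τ ζ 1
        (fun p hp _ h => (hsiz.pr p hp).one_lt.ne' (Nat.dvd_one.1 h))).2
      refine le_trans h2 ?_
      split_ifs with h3 h4 h4
      · exact le_rfl
      · exfalso
        apply h4
        intro p hp hpY
        by_cases h5 : (p : ℝ) < (Y : ℝ) ^ ε₁
        · refine (mem_filter.1 hh).2 p ?_
          rw [hPS, mem_filter, mem_Icc]
          exact ⟨⟨hp.pos, Nat.le_floor h5.le⟩, hp, h5⟩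
        · obtain ⟨h6, h7⟩ := hmem p hp hpY h5
          exact h3.2 p h6 h7
      · norm_num
      · exact le_rfl
    refine (sum_le_sum h1).trans ?_
    rw [sum_boole]
    exact_mod_cast card_le_card (filter_subset_filter _ (filter_subset _ _))
  have e1' : (S.card : ℝ) ≤ ∑ h ∈ B, LL P (tt Y) (ind (n + h)) K true τ ζ 1 := by
    have h1 : ∀ h ∈ B, (if ∀ p : ℕ, p.Prime → (p : ℝ) < (Y : ℝ) ^ ζ → ¬ p ∣ n + h then (1 : ℝ) else 0) ≤
        LL P (tt Y) (ind (n + h)) K true τ ζ 1 := by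
      intro h hh
      have h2 := (Pool.Agent.W52.DC.PT P (tt Y) hsiz (n + h) K τ ζ 1
        (fun p hp _ h => (hsiz.pr p hp).one_lt.ne' (Nat.dvd_one.1 h))).1
      refine le_trans ?_ h2
      split_ifs with h3 h4 h4
      · exact le_rfl
      · exfalso
        apply h4
        refine ⟨one_dvd _, fun p hp hpt => ?_⟩
        exact h3 p (hsiz.pr p hp) (hmem' p hp hpt)
      · norm_num
      · exact le_rfl
    refine le_trans ?_ (sum_le_sum h1)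
    rw [sum_boole]
    have h3 : S ⊆ B.filter (fun h => ∀ p : ℕ, p.Prime → (p : ℝ) < (Y : ℝ) ^ ζ → ¬ p ∣ n + h) := by
      intro h hh
      rw [hSdef, mem_filter] at hh
      rw [mem_filter, hB, mem_filter]
      refine ⟨⟨hh.1, fun p hp => ?_⟩, hh.2⟩
      refine hh.2 p (hPSm p hp).1 ?_
      exact lt_of_lt_of_le (mem_filter.1 hp).2.2 (Real.rpow_le_rpow_of_exponent_le hY1.le hεζ')
    exact_mod_cast card_le_card h3
  have e2 : ∀ bb : Bool, ∑ h ∈ B, LL P (tt Y) (ind (n + h)) K bb τ ζ 1 =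
      X * MM P (tt Y) g K bb τ ζ + LL P (tt Y) r K bb τ ζ 1 := by
    intro bb
    rw [← Pool.Agent.W120.DC.LN.1 P (tt Y) B (fun h => ind (n + h)) K bb τ ζ 1]
    have h1 : (fun e => ∑ h ∈ B, ind (n + h) e) =
        (fun e => X * (fun e : ℕ => 1 / (e : ℝ)) e + r e) := by
      funext e
      rw [hr]
      ring
    have h2 := Pool.Agent.W120.DC.LN.2.2 P (tt Y) hsiz g (fun e : ℕ => 1 / (e : ℝ))
      (fun d p _ _ => by
        simp only [hg]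
        push_cast
        rw [one_div_mul_one_div]) K bb τ ζ 1
      (fun p hp _ h => (hsiz.pr p hp).one_lt.ne' (Nat.dvd_one.1 h))
    rw [h1, Pool.Agent.W120.DC.LN.2.1 P (tt Y) X (fun e : ℕ => 1 / (e : ℝ)) r K bb τ ζ 1, h2]
    norm_num
  have e3 : ∀ bb : Bool, |LL P (tt Y) r K bb τ ζ 1| ≤ ∑ e ∈ EE P (tt Y) τ ζ, |r (1 * e)| := fun bb =>
    Pool.Agent.W586.DC.ER P (tt Y) hsiz r K bb τ ζ 1 hτ0.le (fun _ => h2ζ)
  -- the error terms
  have e4 : ∀ e ∈ EE P (tt Y) τ ζ, |r (1 * e)| ≤ (1 / 2 : ℝ) ^ b * X * (1 / (e : ℝ)) +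
      4 * K0 * (z : ℝ) ^ (4 * C0 * b + 1) := by
    intro e he
    obtain ⟨h0, hsq, hpf, hw⟩ := mem_EE he
    have h1 := HR b hbC z hz3 PS hPSm e (Nat.pos_of_ne_zero h0) (fun p hp hpe => by
      have h2 := (hpf p (Nat.mem_primeFactors.2 ⟨(hPSm p hp).1, hpe, h0⟩)).1
      have h3 := le_of_tt hY2 (hPSm p hp).1.pos h2
      exact absurd (mem_filter.1 hp).2.2 (not_lt.2 h3)) n Y
    have h2 : ∑ h ∈ B, ind (n + h) e =
        (((Icc 1 Y).filter (fun h => e ∣ n + h ∧ ∀ p ∈ PS, ¬ p ∣ n + h)).card : ℝ) := by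
      unfold ind
      rw [sum_boole, hB, filter_filter]
      congr 2
      refine filter_congr fun h _ => and_comm
    rw [one_mul]
    have h3 : r e = (((Icc 1 Y).filter (fun h => e ∣ n + h ∧ ∀ p ∈ PS, ¬ p ∣ n + h)).card : ℝ) -
        (Y : ℝ) / e * V := by
      simp only [hr]
      rw [h2, hX]
      ring
    rw [h3]
    refine h1.trans (le_of_eq ?_)
    rw [hX]
    ring
  have e5 : ∑ e ∈ EE P (tt Y) τ ζ, |r (1 * e)| ≤ (1 / 2 : ℝ) ^ b * X * (2 / ε₁) +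
      (Y : ℝ) ^ τ * (4 * K0 * (z : ℝ) ^ (4 * C0 * b + 1)) := by
    refine (sum_le_sum e4).trans ?_
    rw [sum_add_distrib, ← mul_sum, sum_const, nsmul_eq_mul]
    have h1 : ∑ e ∈ EE P (tt Y) τ ζ, 1 / (e : ℝ) ≤ 2 / ε₁ := by
      have h2 : ∑ e ∈ EE P (tt Y) τ ζ, 1 / (e : ℝ) ≤ Real.exp (∑ p ∈ P, 1 / (p : ℝ)) := EE_sum
      refine h2.trans ?_
      have h3 := hMer ε₁ (1 / 2) le_rfl (by linarith) le_rfl
      rw [pr_sub Y ε₁ (1 / 2) ε₁ (1 / 2) le_rfl le_rfl] at h3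
      have h4 := (abs_le.1 h3).2
      have h5 : min η η₁ ≤ 1 := (min_le_right _ _).trans (by linarith)
      have h6 : ∑ p ∈ P, 1 / (p : ℝ) ≤ 1 + Real.log ((1 / 2) / ε₁) := by
        have : ∑ p ∈ P, 1 / (p : ℝ) - Real.log ((1 / 2) / ε₁) ≤ min η η₁ := h4
        linarith
      refine (Real.exp_le_exp.2 h6).trans ?_
      rw [Real.exp_add, Real.exp_log (by positivity)]
      have h7 := Real.exp_one_lt_d9
      have h8 : Real.exp 1 * ((1 / 2) / ε₁) = Real.exp 1 * (1 / 2) / ε₁ := by ring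
      rw [h8]
      refine div_le_div_of_nonneg_right ?_ hε0.le
      linarith
    have h2 : ((EE P (tt Y) τ ζ).card : ℝ) ≤ (Y : ℝ) ^ τ := by
      have h3 : EE P (tt Y) τ ζ ⊆ Icc 1 ⌊(Y : ℝ) ^ τ⌋₊ := by
        intro e he
        rw [mem_Icc]
        exact ⟨Nat.pos_of_ne_zero (mem_EE he).1, Nat.le_floor (EE_le hY2 hτ0.le he)⟩
      have h4 := card_le_card h3
      rw [Nat.card_Icc, Nat.add_sub_cancel] at h4
      have h5 : ((EE P (tt Y) τ ζ).card : ℝ) ≤ (⌊(Y : ℝ) ^ τ⌋₊ : ℝ) := by exact_mod_cast h4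
      exact h5.trans (Nat.floor_le (by positivity))
    have h3 : 0 ≤ (1 / 2 : ℝ) ^ b * X := by positivity
    have h4 : 0 ≤ 4 * K0 * (z : ℝ) ^ (4 * C0 * b + 1) := by positivity
    exact add_le_add (mul_le_mul_of_nonneg_left h1 h3) (mul_le_mul_of_nonneg_right h2 h4)
  have e6 : (Y : ℝ) ^ τ * (4 * K0 * (z : ℝ) ^ (4 * C0 * b + 1)) ≤ c1 / 8 * X := by
    have h1 : (z : ℝ) ^ (4 * C0 * b + 1) ≤ (Y : ℝ) ^ (δ / 2) := by
      calc (z : ℝ) ^ (4 * C0 * b + 1) ≤ ((Y : ℝ) ^ ε₁) ^ (4 * C0 * b + 1) :=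
            pow_le_pow_left₀ (by positivity) hzY _
        _ = (Y : ℝ) ^ (ε₁ * ((4 * C0 * b + 1 : ℕ) : ℝ)) := by
            rw [← Real.rpow_natCast, ← Real.rpow_mul hY0.le]
        _ ≤ (Y : ℝ) ^ (δ / 2) := by
            refine Real.rpow_le_rpow_of_exponent_le hY1.le ?_
            push_cast
            exact hb4
    have h2 : (Y : ℝ) ^ τ * (4 * K0 * (z : ℝ) ^ (4 * C0 * b + 1)) ≤
        4 * K0 * (Y : ℝ) ^ (1 - δ / 2) := by
      have e : (Y : ℝ) ^ (1 - δ / 2) = (Y : ℝ) ^ τ * (Y : ℝ) ^ (δ / 2) := by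
        rw [← Real.rpow_add hY0, hτ]
        congr 1
        ring
      rw [e]
      have : 0 ≤ (Y : ℝ) ^ τ * (4 * K0) := by positivity
      nlinarith [mul_le_mul_of_nonneg_left h1 this]
    refine h2.trans ?_
    have h3 : (Y : ℝ) ^ (1 - ε₁) ≤ X := by
      have h4 : (Y : ℝ) ^ (1 - ε₁) = Y * ((Y : ℝ) ^ ε₁)⁻¹ := by
        rw [Real.rpow_sub hY0, Real.rpow_one, div_eq_mul_inv]
      rw [h4, hX]
      refine mul_le_mul_of_nonneg_left ?_ hY0.le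
      refine le_trans ?_ hVz
      rw [one_div]
      have hz0 : (0 : ℝ) < z := by
        have : 0 < z := by omega
        exact_mod_cast this
      exact inv_anti₀ hz0 hzY
    have h4 : (Y : ℝ) ^ (1 - ε₁) = (Y : ℝ) ^ (1 - δ / 2) * (Y : ℝ) ^ (δ / 2 - ε₁) := by
      rw [← Real.rpow_add hY0]
      congr 1
      ring
    have h5 : 4 * K0 ≤ c1 / 8 * (Y : ℝ) ^ (δ / 2 - ε₁) := by
      rw [div_le_iff₀ (by positivity)] at hyK
      linarith
    calc 4 * K0 * (Y : ℝ) ^ (1 - δ / 2) ≤ c1 / 8 * (Y : ℝ) ^ (δ / 2 - ε₁) * (Y : ℝ) ^ (1 - δ / 2) :=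
          mul_le_mul_of_nonneg_right h5 (by positivity)
      _ = c1 / 8 * (Y : ℝ) ^ (1 - ε₁) := by rw [h4]; ring
      _ ≤ c1 / 8 * X := mul_le_mul_of_nonneg_left h3 (by positivity)
  have e7 : MM P (tt Y) g K true τ ζ ≤ ε₁ / ζ * F (τ / ζ) + c1 / 2 ∧
      ε₁ / ζ * f (τ / ζ) - c1 / 2 ≤ MM P (tt Y) g K false τ ζ := by
    have hKε : τ ≤ (K + 2) * ε₁ := by
      have h1 : 1 / ε₁ ≤ K := Nat.le_ceil _
      have h2 : 1 / ε₁ * ε₁ = 1 := by field_simp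
      nlinarith
    have hMer' : Mer P (tt Y) g ε₁ (1 / 2) η := fun a b ha hab hb =>
      (hMer a b ha hab hb).trans (min_le_left _ _)
    have h1 := HMT P (tt Y) g (1 / 2) (by norm_num) (fun p _ => by
      simp only [hg]
      exact one_div_nonneg.2 (Nat.cast_nonneg p)) (fun p hp => (mem_pr.1 hp).2.2.1)
      hMer' K le_rfl τ ζ hKε (by linarith) (by linarith) (by linarith) hτ1
    exact ⟨h1.1, h1.2 h2ζ⟩
  -- errors together
  have e9 : (1 / 2 : ℝ) ^ b * X * (2 / ε₁) ≤ c1 / 8 * X := by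
    have := mul_le_mul_of_nonneg_right hbb hX0.le
    linarith
  have e10 : ∀ bb : Bool, |LL P (tt Y) r K bb τ ζ 1| ≤ c1 / 4 * X := fun bb => by
    have := e3 bb
    linarith
  have hεf : c1 ≤ ε₁ / ζ * f0 := by
    rw [hc1]
    have h1 : 2 ≤ 1 / ζ := by rw [le_div_iff₀ hζ0]; linarith
    have h2 : 2 * (ε₁ * f0) ≤ 1 / ζ * (ε₁ * f0) := mul_le_mul_of_nonneg_right h1 (by positivity)
    calc 2 * ε₁ * f0 = 2 * (ε₁ * f0) := by ring
      _ ≤ 1 / ζ * (ε₁ * f0) := h2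
      _ = ε₁ / ζ * f0 := by ring
  -- the two sides of the product
  set Q := P.filter (fun p => ε₁ ≤ tt Y p ∧ tt Y p < ζ) with hQ
  have hQm : ∀ p ∈ Q, p.Prime ∧ (Y : ℝ) ^ ε₁ ≤ p := by
    intro p hp
    have h1 := mem_filter.1 hp
    exact ⟨(mem_pr.1 h1.1).2.1, le_of_tt hY2 (mem_pr.1 h1.1).1.1 h1.2.1⟩
  have hprod : prodW Y ζ = V * ∏ p ∈ Q, (1 - 1 / (p : ℝ)) := by
    rw [hV, ← prod_union]
    · unfold prodW
      refine prod_congr ?_ fun _ _ => rfl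
      ext p
      rw [mem_filter, mem_union, mem_Icc]
      constructor
      · rintro ⟨⟨h1, h2⟩, h3, h4⟩
        by_cases h5 : (p : ℝ) < (Y : ℝ) ^ ε₁
        · left
          rw [hPS, mem_filter, mem_Icc]
          exact ⟨⟨h1, Nat.le_floor h5.le⟩, h3, h5⟩
        · right
          obtain ⟨h6, h7⟩ := hmem p h3 h4 h5
          rw [hQ, mem_filter]
          exact ⟨h6, (mem_pr.1 h6).2.2.1, h7⟩
      · rintro (h | h)
        · have h1 := mem_filter.1 h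
          have h2 : (p : ℝ) < (Y : ℝ) ^ ζ :=
            lt_of_lt_of_le h1.2.2 (Real.rpow_le_rpow_of_exponent_le hY1.le hεζ')
          refine ⟨⟨h1.2.1.pos, ?_⟩, h1.2.1, h2⟩
          exact_mod_cast (h2.le.trans (hYζ.trans hYh))
        · have h1 := mem_filter.1 h
          exact ⟨(mem_pr.1 h1.1).1, (mem_pr.1 h1.1).2.1, hmem' p h1.1 h1.2.2⟩
    · rw [disjoint_left]
      intro p h1 h2
      have h3 := (mem_filter.1 h1).2.2
      have h4 := (hQm p h2).2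
      linarith
  have hMerQ : |∑ p ∈ Q, 1 / (p : ℝ) - Real.log (ζ / ε₁)| ≤ η₁ := by
    have h1 := hMer ε₁ ζ le_rfl hεζ' hζh.le
    exact h1.trans (min_le_right _ _)
  have hlogζ : Real.log (ζ / ε₁) + η₁ ≤ BB := by
    have : Real.log (ζ / ε₁) ≤ Real.log (1 / ε₁) := by
      apply Real.log_le_log (by positivity)
      gcongr
      linarith
    rw [hBB]
    linarith
  have hZ0 : 0 < (Y : ℝ) ^ ε₁ := by positivity
  have hBE : BB / (Y : ℝ) ^ ε₁ ≤ η₁ := by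
    rw [div_le_iff₀ hZ0]
    rw [div_le_iff₀ hη₁0] at hBBY
    linarith
  obtain ⟨q1, q2⟩ := prod_bounds (fun p hp => (hQm p hp).1) hZ0 (fun p hp => (hQm p hp).2) hMerQ hlogζ hBE
  have hexp : Real.exp (-Real.log (ζ / ε₁)) = ε₁ / ζ := by
    rw [Real.exp_neg, Real.exp_log (by positivity), inv_div]
  rw [hexp] at q1 q2
  have hYW : (Y : ℝ) * prodW Y ζ = X * ∏ p ∈ Q, (1 - 1 / (p : ℝ)) := by rw [hprod, hX]; ring
  set Z : ℝ := X * (ε₁ / ζ) with hZ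
  have hZ0 : 0 < Z := by positivity
  have w1 : Z * Real.exp (-(2 * η₁)) ≤ Y * prodW Y ζ := by
    rw [hYW, hZ, mul_assoc]
    exact mul_le_mul_of_nonneg_left q1 hX0.le
  have w2 : Y * prodW Y ζ ≤ Z * Real.exp η₁ := by
    rw [hYW, hZ]
    calc X * ∏ p ∈ Q, (1 - 1 / (p : ℝ)) ≤ X * (ε₁ / ζ * Real.exp η₁) := mul_le_mul_of_nonneg_left q2 hX0.le
      _ = X * (ε₁ / ζ) * Real.exp η₁ := by ring
  have hYW0 : 0 < (Y : ℝ) * prodW Y ζ := lt_of_lt_of_le (by positivity) w1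
  -- continuity
  have hx1 : τ / ζ ∈ Set.Icc (1 : ℝ) (1 / ζ₁) := by
    constructor
    · rw [le_div_iff₀ hζ0]; linarith
    · exact div_le_div₀ (by norm_num) hτ1 hζ1 hζa
  have hx2 : 1 / ζ ∈ Set.Icc (1 : ℝ) (1 / ζ₁) := by
    constructor
    · rw [le_div_iff₀ hζ0]; linarith
    · exact one_div_le_one_div_of_le hζ1 hζa
  have hdist : |τ / ζ - 1 / ζ| = δ / ζ := by
    have : τ / ζ - 1 / ζ = -(δ / ζ) := by rw [hτ]; ring
    rw [this, abs_neg, abs_of_pos (by positivity)]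
  have hd1 : δ / ζ < δa := by
    rw [div_lt_iff₀ hζ0]
    have : δa * ζ₁ ≤ δa * ζ := mul_le_mul_of_nonneg_left hζa hδa.le
    have h2 : 0 < δa * ζ₁ := by positivity
    linarith
  have hd2 : δ / ζ < δb := by
    rw [div_lt_iff₀ hζ0]
    have : δb * ζ₁ ≤ δb * ζ := mul_le_mul_of_nonneg_left hζa hδb.le
    have h2 : 0 < δb * ζ₁ := by positivity
    linarith
  have hFc := abs_lt.1 (Ha _ hx1 _ hx2 (by rw [hdist]; exact hd1))
  have hfc := abs_lt.1 (Hb _ hx1 _ hx2 (by rw [hdist]; exact hd2))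
  constructor
  · -- the lower bound
    have e11 : (f (τ / ζ) - f0) * Z ≤ (S.card : ℝ) := by
      refine le_trans ?_ e1
      rw [e2 false]
      have h1 := (abs_le.1 (e10 false)).1
      have h2 := mul_le_mul_of_nonneg_left e7.2 hX0.le
      have h3 := mul_le_mul_of_nonneg_left hεf hX0.le
      have h4 : (f (τ / ζ) - f0) * Z = X * (ε₁ / ζ * f (τ / ζ)) - X * (ε₁ / ζ * f0) := by rw [hZ]; ring
      rw [h4]
      have h5 : 0 ≤ c1 * X := by positivity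
      linarith
    by_cases hneg : f (τ / ζ) - f0 ≤ 0
    · have h1 : f (1 / ζ) - ε ≤ 0 := by linarith
      have h2 : (f (1 / ζ) - ε) * (Y * prodW Y ζ) ≤ 0 := mul_nonpos_of_nonpos_of_nonneg h1 hYW0.le
      exact h2.trans (Nat.cast_nonneg _)
    · push Not at hneg
      refine le_trans ?_ e11
      have h1 : Y * prodW Y ζ * (1 - η₁) ≤ Z := by
        have h2 : Real.exp η₁ * (1 - η₁) ≤ 1 := by
          have h3 := Real.add_one_le_exp (-η₁)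
          have h4 : Real.exp η₁ * Real.exp (-η₁) = 1 := by rw [← Real.exp_add, add_neg_cancel, Real.exp_zero]
          have h5 := mul_le_mul_of_nonneg_left (by linarith : 1 - η₁ ≤ Real.exp (-η₁)) (Real.exp_pos η₁).le
          linarith
        calc Y * prodW Y ζ * (1 - η₁) ≤ Z * Real.exp η₁ * (1 - η₁) :=
              mul_le_mul_of_nonneg_right w2 (by linarith)
          _ = Z * (Real.exp η₁ * (1 - η₁)) := by ring
          _ ≤ Z * 1 := mul_le_mul_of_nonneg_left h2 hZ0.le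
          _ = Z := mul_one _
      have h2 := mul_le_mul_of_nonneg_left h1 hneg.le
      refine le_trans ?_ h2
      have h3 : f (1 / ζ) - ε ≤ (f (τ / ζ) - f0) * (1 - η₁) := by
        have h4 : f (τ / ζ) ≤ 1 := hS.f1 _ hx1.1
        have h5 : (f (τ / ζ) - f0) * η₁ ≤ 1 * η₁ := mul_le_mul_of_nonneg_right (by linarith) hη₁0.le
        have h6 : (f (τ / ζ) - f0) * (1 - η₁) = (f (τ / ζ) - f0) - (f (τ / ζ) - f0) * η₁ := by ring
        rw [h6]
        linarith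
      have h4 := mul_le_mul_of_nonneg_right h3 hYW0.le
      linarith
  · -- the upper bound
    have e11 : (S.card : ℝ) ≤ (F (τ / ζ) + f0) * Z := by
      refine le_trans e1' ?_
      rw [e2 true]
      have h1 := (abs_le.1 (e10 true)).2
      have h2 := mul_le_mul_of_nonneg_left e7.1 hX0.le
      have h3 := mul_le_mul_of_nonneg_left hεf hX0.le
      have h4 : (F (τ / ζ) + f0) * Z = X * (ε₁ / ζ * F (τ / ζ)) + X * (ε₁ / ζ * f0) := by rw [hZ]; ring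
      rw [h4]
      have h5 : 0 ≤ c1 * X := by positivity
      linarith
    have hF1 : 1 ≤ F (τ / ζ) := hS.F1 _ hx1.1
    have hFM : F (τ / ζ) ≤ M := hM _ hx1
    have hexp2 : Real.exp (2 * η₁) ≤ 1 + 4 * η₁ := by
      have h1 : |Real.exp (2 * η₁) - 1| ≤ 2 * |2 * η₁| := Real.abs_exp_sub_one_le (by
        rw [abs_of_pos (by positivity)]; linarith)
      have h2 := (abs_le.1 h1).2
      rw [abs_of_pos (by positivity)] at h2
      linarith
    have h1 : Z ≤ Y * prodW Y ζ * (1 + 4 * η₁) := by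
      have h2 : Real.exp (-(2 * η₁)) * Real.exp (2 * η₁) = 1 := by
        rw [← Real.exp_add, neg_add_cancel, Real.exp_zero]
      calc Z = Z * (Real.exp (-(2 * η₁)) * Real.exp (2 * η₁)) := by rw [h2, mul_one]
        _ = Z * Real.exp (-(2 * η₁)) * Real.exp (2 * η₁) := by ring
        _ ≤ Y * prodW Y ζ * Real.exp (2 * η₁) := mul_le_mul_of_nonneg_right w1 (Real.exp_pos _).le
        _ ≤ Y * prodW Y ζ * (1 + 4 * η₁) := mul_le_mul_of_nonneg_left hexp2 hYW0.le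
    refine e11.trans ?_
    have h2 : (F (τ / ζ) + f0) * Z ≤ (F (τ / ζ) + f0) * (Y * prodW Y ζ * (1 + 4 * η₁)) :=
      mul_le_mul_of_nonneg_left h1 (by linarith)
    refine h2.trans ?_
    have h3 : (F (τ / ζ) + f0) * (1 + 4 * η₁) ≤ F (1 / ζ) + ε := by
      have h4 : (F (τ / ζ) + f0) * η₁ ≤ (M + ε) * η₁ := mul_le_mul_of_nonneg_right (by linarith) hη₁0.le
      have h5 : (F (τ / ζ) + f0) * (1 + 4 * η₁) = F (τ / ζ) + f0 + 4 * ((F (τ / ζ) + f0) * η₁) := by ring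
      rw [h5]
      linarith
    have h4 := mul_le_mul_of_nonneg_right h3 hYW0.le
    linarith

end Run7.h52.X9
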