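import Pool.Agent.Run7.h52.X8
import Pool.Agent.Run7.h52.X9

/-!
Rough numbers in all intervals of length at least `z ^ A`: the extremal functions of the linear sieve.
-/

set_option autoImplicit false
set_option linter.unusedSectionVars false

namespace Run7.h52.X10

open Finset Run7.h52.Count Run7.h52.Rough Run7.h52.Asym Run7.h52.X9
open Pool.Agent.W23.DC

/-- the fundamental lemma -/
lemma fund {κ : ℝ} (hκ : 0 < κ) : ∃ c : ℝ, 0 < c ∧ ∃ Y1 : ℕ, ∀ Y z : ℕ, Y1 ≤ Y → (z : ℝ) ≤ (Y : ℝ) ^ c →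
    ∀ x n : ℤ, |rg z (Finset.Ioc x (x + Y)) n - W z * Y| ≤ κ * (W z * Y) := by
  -- the parameter `R`
  obtain ⟨R, hR13, hR⟩ : ∃ R : ℕ, 13 ≤ R ∧ 2 * (2 ^ 24 * (1 / 2 : ℝ) ^ (2 * R)) ≤ κ / 2 := by
    have h1 : Filter.Tendsto (fun R : ℕ => 2 * (2 ^ 24 * (1 / 4 : ℝ) ^ R)) Filter.atTop (nhds (2 * (2 ^ 24 * 0))) :=
      ((tendsto_pow_atTop_nhds_zero_of_lt_one (by norm_num) (by norm_num)).const_mul _).const_mul _
    rw [mul_zero, mul_zero] at h1
    obtain ⟨R, h2, h3⟩ := ((h1.eventually_le_const (by positivity : 0 < κ / 2)).and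
      (Filter.eventually_ge_atTop 13)).exists
    refine ⟨R, h3, ?_⟩
    rw [pow_mul]
    norm_num at h2 ⊢
    exact h2
  set m : ℕ := 8 * R + 17 with hm
  have hm0 : (0 : ℝ) < m := by rw [hm]; positivity
  set c : ℝ := 1 / (2 * m) with hc
  have hc0 : 0 < c := by positivity
  have hev : ∀ᶠ Y : ℕ in Filter.atTop, (2 : ℝ) ^ m / (κ / 2) ≤ (Y : ℝ) ^ (1 / 2 : ℝ) :=
    ((tendsto_rpow_atTop (by norm_num : (0 : ℝ) < 1 / 2)).comp tendsto_natCast_atTop_atTop).eventually_ge_atTop _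
  obtain ⟨Y1, hY1⟩ := Filter.eventually_atTop.1 hev
  refine ⟨c, hc0, max Y1 1, fun Y z hY hz x n => ?_⟩
  have h1 := hY1 Y ((le_max_left _ _).trans hY)
  have hYr : (1 : ℝ) ≤ Y := by exact_mod_cast (le_max_right _ _).trans hY
  have hY0 : (0 : ℝ) < Y := by linarith
  set y : ℕ := max z 2 with hy
  have hzy : z ≤ y := le_max_left _ _
  have hy2 : 2 ≤ y := le_max_right _ _
  have hYc : 1 ≤ (Y : ℝ) ^ c := Real.one_le_rpow hYr hc0.le
  have hyY : (y : ℝ) ≤ 2 * (Y : ℝ) ^ c := by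
    rw [hy]; push_cast
    refine max_le ?_ ?_ <;> linarith
  have hy0 : (0 : ℝ) < y := by exact_mod_cast (by omega : 0 < y)
  have h2 := brun R hR13 z y hzy hy2 Y x n
  refine h2.trans ?_
  have hW0 := W_pos z
  have hWy : 1 / (y : ℝ) ≤ W z :=
    Pool.Agent.W41.V_ge (fun p hp => (mem_PP.1 hp).1) (by omega) (fun p hp => (mem_PP.1 hp).2.trans hzy)
  have h3 : (y : ℝ) ^ m ≤ κ / 2 * Y := by
    calc (y : ℝ) ^ m ≤ (2 * (Y : ℝ) ^ c) ^ m := pow_le_pow_left₀ hy0.le hyY _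
      _ = 2 ^ m * (Y : ℝ) ^ (1 / 2 : ℝ) := by
          rw [mul_pow, ← Real.rpow_natCast ((Y : ℝ) ^ c), ← Real.rpow_mul hY0.le]
          congr 2
          rw [hc]; field_simp
      _ ≤ κ / 2 * (Y : ℝ) ^ (1 / 2 : ℝ) * (Y : ℝ) ^ (1 / 2 : ℝ) := by
          refine mul_le_mul_of_nonneg_right ?_ (by positivity)
          rw [div_le_iff₀ (by positivity)] at h1
          linarith
      _ = κ / 2 * Y := by
          rw [mul_assoc, ← Real.rpow_add hY0]
          norm_num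
  have h4 : (y : ℝ) ^ (8 * R + 16) ≤ κ / 2 * (W z * Y) := by
    have e : (y : ℝ) ^ m = (y : ℝ) ^ (8 * R + 16) * y := by rw [hm, ← pow_succ]
    have h5 : (y : ℝ) ^ (8 * R + 16) ≤ κ / 2 * Y * (1 / y) := by
      rw [mul_one_div, le_div_iff₀ hy0, ← e]
      exact h3
    refine h5.trans ?_
    have := mul_le_mul_of_nonneg_left hWy (by positivity : 0 ≤ κ / 2 * (Y : ℝ))
    calc κ / 2 * Y * (1 / y) ≤ κ / 2 * Y * W z := this
      _ = _ := by ring
  have h5 : 2 * (2 ^ 24 * (1 / 2 : ℝ) ^ (2 * R)) * (W z * Y) ≤ κ / 2 * (W z * Y) :=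
    mul_le_mul_of_nonneg_right hR (by positivity)
  linarith

lemma nat_lt_half {p z : ℕ} : (p : ℝ) < (z : ℝ) + 1 / 2 ↔ p ≤ z := by
  constructor
  · intro h
    by_contra h1
    have h2 : z + 1 ≤ p := by omega
    have h3 : (z : ℝ) + 1 ≤ p := by exact_mod_cast h2
    linarith
  · intro h
    have h3 : (p : ℝ) ≤ z := by exact_mod_cast h
    linarith

lemma prodW_eq {Y z : ℕ} {ζ : ℝ} (hζ : (Y : ℝ) ^ ζ = z + 1 / 2) (hzY : z ≤ Y) : prodW Y ζ = W z := by
  classical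
  unfold prodW W
  refine Finset.prod_congr ?_ fun _ _ => rfl
  ext p
  rw [Finset.mem_filter, Finset.mem_Icc, mem_PP, hζ, nat_lt_half]
  constructor
  · rintro ⟨_, h2, h3⟩
    exact ⟨h2, h3⟩
  · rintro ⟨h1, h2⟩
    exact ⟨⟨h1.pos, h2.trans hzY⟩, h1, h2⟩

open Classical in
lemma conv {Y z : ℕ} {ζ : ℝ} (hζ : (Y : ℝ) ^ ζ = z + 1 / 2) (x n : ℤ) : ∃ N : ℕ,
    (((Icc 1 Y).filter (fun h => ∀ p : ℕ, p.Prime → (p : ℝ) < (Y : ℝ) ^ ζ → ¬ p ∣ N + h)).card : ℝ)
      = rg z (Finset.Ioc x (x + Y)) n := by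
  obtain ⟨N, hN⟩ := exists_rep z (n + x)
  refine ⟨N, ?_⟩
  unfold rg
  congr 1
  refine Finset.card_bij (fun h _ => x + (h : ℤ)) ?_ ?_ ?_
  · intro h hh
    rw [Finset.mem_filter, Finset.mem_Icc] at hh
    rw [SW.survivors, Finset.mem_filter, Finset.mem_Ioc]
    refine ⟨⟨by omega, by omega⟩, fun p hp hd => ?_⟩
    rw [mem_PP] at hp
    refine hh.2 p hp.1 (by rw [hζ]; exact nat_lt_half.2 hp.2) ?_
    have h3 : (p : ℤ) ∣ ((N + h : ℕ) : ℤ) := by
      have e : ((N + h : ℕ) : ℤ) = ((N : ℤ) - (n + x)) + (n + (x + (h : ℤ))) := by push_cast; ring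
      rw [e]
      exact dvd_add (hN p hp.1 hp.2) hd
    exact_mod_cast h3
  · intro a _ b _ hab
    omega
  · intro m hm
    rw [SW.survivors, Finset.mem_filter, Finset.mem_Ioc] at hm
    refine ⟨(m - x).toNat, ?_, by rw [Int.toNat_of_nonneg (by omega)]; ring⟩
    rw [Finset.mem_filter, Finset.mem_Icc]
    refine ⟨⟨by omega, by omega⟩, fun p hp hpz hd => ?_⟩
    rw [hζ, nat_lt_half] at hpz
    refine hm.2 p (mem_PP.2 ⟨hp, hpz⟩) ?_
    have h3 : (p : ℤ) ∣ ((N + (m - x).toNat : ℕ) : ℤ) := by exact_mod_cast hd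
    push_cast at h3
    rw [Int.toNat_of_nonneg (by omega)] at h3
    have e : n + m = ((N : ℤ) + (m - x)) - ((N : ℤ) - (n + x)) := by ring
    rw [e]
    exact dvd_sub h3 (hN p hp hpz)

lemma rg_add (z : ℕ) (n x : ℤ) (a b : ℕ) : rg z (Finset.Ioc x (x + ((a + b : ℕ) : ℤ))) n
    = rg z (Finset.Ioc x (x + a)) n + rg z (Finset.Ioc (x + a) (x + a + b)) n := by
  unfold rg SW.survivors
  rw [← Nat.cast_add, ← Finset.card_union_of_disjoint, ← Finset.filter_union]
  · congr 3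
    ext m
    simp only [Finset.mem_union, Finset.mem_Ioc]
    push_cast
    omega
  · refine Finset.disjoint_filter_filter ?_
    rw [Finset.disjoint_left]
    intro m h1 h2
    rw [Finset.mem_Ioc] at h1 h2
    omega

/-- from one length to all larger lengths -/
lemma ind {z : ℕ} {n : ℤ} {L : ℕ} (hL : 1 ≤ L) {a b : ℝ}
    (h : ∀ Y : ℕ, L ≤ Y → Y < 2 * L → ∀ x : ℤ, a * Y ≤ rg z (Finset.Ioc x (x + Y)) n ∧
      rg z (Finset.Ioc x (x + Y)) n ≤ b * Y) :
    ∀ Y : ℕ, L ≤ Y → ∀ x : ℤ, a * Y ≤ rg z (Finset.Ioc x (x + Y)) n ∧ rg z (Finset.Ioc x (x + Y)) n ≤ b * Y := by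
  intro Y
  induction Y using Nat.strong_induction_on with
  | _ Y ih =>
    intro hY x
    by_cases h1 : Y < 2 * L
    · exact h Y hY h1 x
    · obtain ⟨Y1, rfl⟩ : ∃ Y1, Y = L + Y1 := ⟨Y - L, by omega⟩
      have h2 := h L le_rfl (by omega) x
      have h3 := ih Y1 (by omega) (by omega) (x + L)
      rw [rg_add]
      push_cast
      constructor
      · linarith [h2.1, h3.1]
      · linarith [h2.2, h3.2]

/-- all intervals of length at least `z ^ A` -/
theorem sharp {A0 : ℝ} {F f : ℝ → ℝ} (hS : SF A0 F f) {A : ℝ} (hA : 2 < A) {ε : ℝ} (hε : 0 < ε) :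
    ∃ z1 : ℕ, ∀ z : ℕ, z1 ≤ z → ∀ Y : ℕ, (z : ℝ) ^ A ≤ Y → ∀ x n : ℤ,
      (f A - ε) * (W z * Y) ≤ rg z (Finset.Ioc x (x + Y)) n ∧
      rg z (Finset.Ioc x (x + Y)) n ≤ (F A + ε) * (W z * Y) := by
  classical
  obtain ⟨δa, hδa, Ha⟩ := unif hS.cF (A + 1) (by positivity : 0 < ε / 2)
  obtain ⟨δb, hδb, Hb⟩ := unif hS.cf (A + 1) (by positivity : 0 < ε / 2)
  set η : ℝ := min (min 1 ((A - 2) / 2)) (min (δa / 2) (δb / 2)) with hη
  have hη0 : 0 < η := lt_min (lt_min one_pos (by linarith)) (lt_min (by positivity) (by positivity))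
  have hη1 : η ≤ 1 := (min_le_left _ _).trans (min_le_left _ _)
  have hη2 : η ≤ (A - 2) / 2 := (min_le_left _ _).trans (min_le_right _ _)
  have hη3 : η ≤ δa / 2 := (min_le_right _ _).trans (min_le_left _ _)
  have hη4 : η ≤ δb / 2 := (min_le_right _ _).trans (min_le_right _ _)
  obtain ⟨Y0, hY0⟩ := lin_unif hS (ζ₁ := 1 / (A + 1)) (ζ₂ := 1 / ((A + 2) / 2)) (by positivity)
    (one_div_le_one_div_of_le (by linarith) (by linarith))
    (one_div_lt_one_div_of_lt (by norm_num) (by linarith)) (by positivity : 0 < ε / 2)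
  have hev : ∀ᶠ z : ℕ in Filter.atTop, (A + 2) / η ≤ Real.log z :=
    (Real.tendsto_log_atTop.comp tendsto_natCast_atTop_atTop).eventually_ge_atTop _
  obtain ⟨z1, hz1⟩ := Filter.eventually_atTop.1 hev
  refine ⟨max z1 (max Y0 2), fun z hz Y hY x n => ?_⟩
  have hlz := hz1 z ((le_max_left _ _).trans hz)
  have hzY0 : Y0 ≤ z := ((le_max_left _ _).trans (le_max_right _ _)).trans hz
  have hz2 : 2 ≤ z := ((le_max_right _ _).trans (le_max_right _ _)).trans hz
  have hz2r : (2 : ℝ) ≤ z := by exact_mod_cast hz2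
  have hz0 : (0 : ℝ) < z := by linarith
  have hlz0 : 0 < Real.log z := Real.log_pos (by linarith)
  have hW0 := W_pos z
  set L : ℕ := ⌈(z : ℝ) ^ A⌉₊ with hL
  have hzA : (z : ℝ) ≤ (z : ℝ) ^ A := by
    calc (z : ℝ) = (z : ℝ) ^ (1 : ℝ) := (Real.rpow_one _).symm
      _ ≤ _ := Real.rpow_le_rpow_of_exponent_le (by linarith) (by linarith)
  have hL1 : (z : ℝ) ^ A ≤ L := Nat.le_ceil _
  have hL2 : (L : ℝ) < (z : ℝ) ^ A + 1 := Nat.ceil_lt_add_one (by positivity)
  have hLY : L ≤ Y := Nat.ceil_le.2 hY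
  have hL1' : 1 ≤ L := Nat.ceil_pos.2 (by positivity)
  have key : ∀ Y : ℕ, L ≤ Y → Y < 2 * L → ∀ x : ℤ, ((f A - ε) * W z) * Y ≤ rg z (Finset.Ioc x (x + Y)) n ∧
      rg z (Finset.Ioc x (x + Y)) n ≤ ((F A + ε) * W z) * Y := by
    intro Y hLY hY2 x
    have hYr : (z : ℝ) ^ A ≤ Y := hL1.trans (by exact_mod_cast hLY)
    have hY3 : (Y : ℝ) ≤ 3 * (z : ℝ) ^ A := by
      have h1 : Y + 1 ≤ 2 * L := by omega
      have h2 : (Y : ℝ) + 1 ≤ 2 * L := by exact_mod_cast h1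
      linarith
    have hzY : z ≤ Y := by
      have : (z : ℝ) ≤ Y := hzA.trans hYr
      exact_mod_cast this
    have hYpos : (0 : ℝ) < Y := by linarith
    have hY1 : (1 : ℝ) < Y := by linarith
    have hlY : 0 < Real.log Y := Real.log_pos hY1
    set q : ℝ := (z : ℝ) + 1 / 2 with hq
    have hq0 : 0 < q := by positivity
    have hlq0 : Real.log z ≤ Real.log q := Real.log_le_log hz0 (by rw [hq]; linarith)
    have hlq1 : Real.log q ≤ Real.log z + 1 / 2 := by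
      have h1 : q = z * (1 + 1 / (2 * z)) := by rw [hq]; field_simp
      rw [h1, Real.log_mul (by positivity) (by positivity)]
      have h2 := Real.log_le_sub_one_of_pos (by positivity : 0 < 1 + 1 / (2 * (z : ℝ)))
      have h3 : 1 / (2 * (z : ℝ)) ≤ 1 / 2 := one_div_le_one_div_of_le (by norm_num) (by linarith)
      linarith
    have hlq : 0 < Real.log q := by linarith
    set ζ : ℝ := Real.log q / Real.log Y with hζ
    have hζ0 : 0 < ζ := by positivity
    have hYζ : (Y : ℝ) ^ ζ = z + 1 / 2 := by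
      rw [Real.rpow_def_of_pos hYpos, hζ, mul_div_cancel₀ _ hlY.ne', Real.exp_log hq0]
    have hinv : 1 / ζ = Real.log Y / Real.log q := by rw [hζ, one_div_div]
    -- `s` is close to `A`
    have hlY1 : A * Real.log z ≤ Real.log Y := by
      have := Real.log_le_log (by positivity) hYr
      rwa [Real.log_rpow hz0] at this
    have hlY2 : Real.log Y ≤ A * Real.log z + 2 := by
      have h1 := Real.log_le_log hYpos hY3
      rw [Real.log_mul (by norm_num) (by positivity), Real.log_rpow hz0] at h1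
      have h2 : Real.log 3 ≤ 2 := by
        have := Real.log_le_sub_one_of_pos (by norm_num : (0 : ℝ) < 3)
        linarith
      linarith
    have hlz' : A + 2 ≤ η * Real.log z := by
      rw [div_le_iff₀ hη0] at hlz
      linarith
    have hs1 : A - η ≤ 1 / ζ := by
      rw [hinv, le_div_iff₀ hlq]
      have h1 : (A - η) * Real.log q ≤ (A - η) * (Real.log z + 1 / 2) :=
        mul_le_mul_of_nonneg_left hlq1 (by linarith)
      have h2 : (A - η) * (Real.log z + 1 / 2) = A * Real.log z + A / 2 - η * Real.log z - η / 2 := by ring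
      linarith
    have hs2 : 1 / ζ ≤ A + η := by
      rw [hinv, div_le_iff₀ hlq]
      have h1 : (A + η) * Real.log z ≤ (A + η) * Real.log q :=
        mul_le_mul_of_nonneg_left hlq0 (by linarith)
      have h2 : (A + η) * Real.log z = A * Real.log z + η * Real.log z := by ring
      linarith
    have hζa : 1 / (A + 1) ≤ ζ := by
      rw [div_le_iff₀ (by linarith)]
      rw [div_le_iff₀ hζ0] at hs2
      have : (A + η) * ζ ≤ (A + 1) * ζ := mul_le_mul_of_nonneg_right (by linarith) hζ0.le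
      linarith
    have hζb : ζ ≤ 1 / ((A + 2) / 2) := by
      rw [le_div_iff₀ (by linarith)]
      rw [le_div_iff₀ hζ0] at hs1
      have : (A + 2) / 2 * ζ ≤ (A - η) * ζ := mul_le_mul_of_nonneg_right (by linarith) hζ0.le
      linarith
    obtain ⟨N, hN⟩ := conv hYζ x n
    have h1 := hY0 Y (hzY0.trans hzY) ζ hζa hζb N
    rw [hN, prodW_eq hYζ hzY] at h1
    have hAmem : A ∈ Set.Icc (1 : ℝ) (A + 1) := ⟨by linarith, by linarith⟩
    have hsmem : 1 / ζ ∈ Set.Icc (1 : ℝ) (A + 1) := ⟨by linarith, by linarith⟩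
    have hd : |1 / ζ - A| ≤ η := abs_le.2 ⟨by linarith, by linarith⟩
    have hFc := abs_lt.1 (Ha _ hsmem _ hAmem (by linarith))
    have hfc := abs_lt.1 (Hb _ hsmem _ hAmem (by linarith))
    have hYW : 0 ≤ (Y : ℝ) * W z := by positivity
    constructor
    · refine le_trans ?_ h1.1
      have h2 : (f A - ε) * ((Y : ℝ) * W z) ≤ (f (1 / ζ) - ε / 2) * (Y * W z) :=
        mul_le_mul_of_nonneg_right (by linarith) hYW
      calc (f A - ε) * W z * Y = (f A - ε) * ((Y : ℝ) * W z) := by ring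
        _ ≤ _ := h2
    · refine h1.2.trans ?_
      have h2 : (F (1 / ζ) + ε / 2) * ((Y : ℝ) * W z) ≤ (F A + ε) * (Y * W z) :=
        mul_le_mul_of_nonneg_right (by linarith) hYW
      calc (F (1 / ζ) + ε / 2) * ((Y : ℝ) * W z) ≤ (F A + ε) * (Y * W z) := h2
        _ = _ := by ring
  have := ind hL1' key Y hLY x
  constructor
  · calc (f A - ε) * (W z * Y) = ((f A - ε) * W z) * Y := by ring
      _ ≤ _ := this.1
  · calc rg z (Finset.Ioc x (x + Y)) n ≤ ((F A + ε) * W z) * Y := this.2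
      _ = _ := by ring

/-- all intervals, all `z` -/
theorem det {A0 : ℝ} {F f : ℝ → ℝ} (hS : SF A0 F f) {A : ℝ} (hA : 2 < A) {ε : ℝ} (hε : 0 < ε) :
    ∃ Y1 : ℕ, ∀ Y z : ℕ, Y1 ≤ Y → (z : ℝ) ^ A ≤ Y → ∀ x n : ℤ,
      (f A - ε) * (W z * Y) ≤ rg z (Finset.Ioc x (x + Y)) n ∧
      rg z (Finset.Ioc x (x + Y)) n ≤ (F A + ε) * (W z * Y) := by
  obtain ⟨z1, hz1⟩ := sharp hS hA hε
  obtain ⟨c, hc, Y0, hY0⟩ := fund hε
  have hev : ∀ᶠ Y : ℕ in Filter.atTop, (z1 : ℝ) ≤ (Y : ℝ) ^ c :=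
    ((tendsto_rpow_atTop hc).comp tendsto_natCast_atTop_atTop).eventually_ge_atTop _
  obtain ⟨Y2, hY2⟩ := Filter.eventually_atTop.1 hev
  refine ⟨max Y0 Y2, fun Y z hY hz x n => ?_⟩
  rcases le_total z1 z with h | h
  · exact hz1 z h Y hz x n
  · have h1 := hY2 Y ((le_max_right _ _).trans hY)
    have h2 : (z : ℝ) ≤ z1 := by exact_mod_cast h
    have h3 := abs_le.1 (hY0 Y z ((le_max_left _ _).trans hY) (h2.trans h1) x n)
    have h4 : 0 ≤ W z * (Y : ℝ) := mul_nonneg (W_pos z).le (Nat.cast_nonneg _)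
    have h5 := mul_le_mul_of_nonneg_right (hS.f1 A (by linarith)) h4
    have h6 := mul_le_mul_of_nonneg_right (hS.F1 A (by linarith)) h4
    constructor
    · have : (f A - ε) * (W z * Y) = f A * (W z * Y) - ε * (W z * Y) := by ring
      rw [this]
      linarith
    · have : (F A + ε) * (W z * Y) = F A * (W z * Y) + ε * (W z * Y) := by ring
      rw [this]
      linarith

end Run7.h52.X10
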