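import Pool.Agent.Run7.h52.Asym3
import Pool.Agent.Run7.h52.X10
import Pool.Agent.Run7.h52.M3

/-!
Means over a full period, all square weights of level `X`, with the functions of the linear sieve.
-/

set_option autoImplicit false
set_option linter.unusedSectionVars false

namespace Run7.h52.M7

open Finset Filter Run7.h52.Count Run7.h52.Rough Run7.h52.Asym
open Pool.Agent.W23.DC

/-- the parameters -/
lemma par {A A' κ : ℝ} (hA' : 2 < A') (hAA : A' < A) (hκ : 0 < κ) : ∃ δ : ℝ, 0 < δ ∧ ∃ X₀ : ℝ, ∀ X : ℝ, X₀ ≤ X →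
    ∃ y : ℕ, 3 ≤ y ∧ (Real.log X) ^ (1 + δ) ≤ y ∧ (y : ℝ) ^ A' ≤ (Real.log X) ^ A ∧ (y : ℝ) ≤ (Real.log X) ^ A ∧
      (Real.log X) ^ (-(δ / 3)) ≤ κ * W y ∧ Real.log X ≤ (Real.log X) ^ A := by
  obtain ⟨c, hc, hWc⟩ := AsmA.W_log
  obtain ⟨δ, hδd⟩ : ∃ δ : ℝ, δ = (A / A' - 1) / 2 := ⟨_, rfl⟩
  have hA'0 : 0 < A' := by linarith
  have hq : 1 < A / A' := by rw [lt_div_iff₀ hA'0]; linarith
  have hδ : 0 < δ := by rw [hδd]; linarith
  have hδ2 : (1 + 2 * δ) * A' = A := by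
    rw [hδd]; field_simp; ring
  have ev1 : ∀ᶠ l : ℝ in atTop, (1 + 2 * δ) * Real.log l ≤ κ * c * l ^ (δ / 3) := by
    have h1 := (isLittleO_log_rpow_atTop (by positivity : (0 : ℝ) < δ / 3)).def
      (c := κ * c / (1 + 2 * δ)) (by positivity)
    filter_upwards [h1, eventually_ge_atTop 1] with l h3 h5
    rw [Real.norm_of_nonneg (Real.log_nonneg h5), Real.norm_of_nonneg (by positivity)] at h3
    have h6 := mul_le_mul_of_nonneg_left h3 (by positivity : 0 ≤ 1 + 2 * δ)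
    refine h6.trans (le_of_eq ?_)
    field_simp
  have ev2 : ∀ᶠ l : ℝ in atTop, (2 : ℝ) ≤ l ^ δ := (tendsto_rpow_atTop hδ).eventually_ge_atTop _
  have ev3 : ∀ᶠ l : ℝ in atTop, (3 : ℝ) ≤ l ^ (1 + δ) := (tendsto_rpow_atTop (by linarith)).eventually_ge_atTop _
  obtain ⟨l₀, hl₀⟩ := eventually_atTop.1 (ev1.and (ev2.and ev3))
  refine ⟨δ, hδ, Real.exp (max l₀ 2), fun X hX => ?_⟩
  have hX0 : 0 < X := (Real.exp_pos _).trans_le hX
  obtain ⟨l, hl⟩ : ∃ l : ℝ, l = Real.log X := ⟨_, rfl⟩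
  rw [← hl]
  have hl1 : max l₀ 2 ≤ l := by rw [hl, Real.le_log_iff_exp_le hX0]; exact hX
  have hl2 : 2 ≤ l := (le_max_right _ _).trans hl1
  obtain ⟨h1, h2, h3⟩ := hl₀ l ((le_max_left _ _).trans hl1)
  have hl0 : 0 < l := by linarith
  have hp : 0 < l ^ (1 + δ) := Real.rpow_pos_of_pos hl0 _
  set y : ℕ := ⌈l ^ (1 + δ)⌉₊ with hy
  have hly : l ^ (1 + δ) ≤ y := Nat.le_ceil _
  have hyl : (y : ℝ) ≤ l ^ (1 + 2 * δ) := by
    have h4 := (Nat.ceil_lt_add_one hp.le).le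
    have h5 : l ^ (1 + 2 * δ) = l ^ (1 + δ) * l ^ δ := by
      rw [← Real.rpow_add hl0]; congr 1; ring
    have h6 : l ^ (1 + δ) * 2 ≤ l ^ (1 + δ) * l ^ δ := mul_le_mul_of_nonneg_left h2 hp.le
    rw [h5]
    linarith
  have hy3' : (3 : ℝ) ≤ y := h3.trans hly
  have hy3 : 3 ≤ y := by exact_mod_cast hy3'
  have hyA : (y : ℝ) ^ A' ≤ l ^ A := by
    have h4 := Real.rpow_le_rpow (Nat.cast_nonneg _) hyl hA'0.le
    rwa [← Real.rpow_mul hl0.le, hδ2] at h4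
  have hlogl : 0 < Real.log l := Real.log_pos (by linarith)
  have hlogy : Real.log y ≤ (1 + 2 * δ) * Real.log l := by
    have h4 := Real.log_le_log (by linarith) hyl
    rwa [Real.log_rpow hl0] at h4
  have hlogy0 : 0 < Real.log y := Real.log_pos (by linarith)
  have hW : c / ((1 + 2 * δ) * Real.log l) ≤ W y := by
    rw [div_le_iff₀ (by positivity)]
    exact (hWc y hy3).trans (mul_le_mul_of_nonneg_left hlogy (W_pos y).le)
  have hmain : l ^ (-(δ / 3)) ≤ κ * W y := by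
    have h4 : l ^ (-(δ / 3)) * l ^ (δ / 3) = 1 := by
      rw [← Real.rpow_add hl0]; simp
    have h5 : 0 < l ^ (-(δ / 3)) := Real.rpow_pos_of_pos hl0 _
    have h6 : l ^ (-(δ / 3)) * ((1 + 2 * δ) * Real.log l) ≤ κ * c := by
      calc l ^ (-(δ / 3)) * ((1 + 2 * δ) * Real.log l) ≤ l ^ (-(δ / 3)) * (κ * c * l ^ (δ / 3)) :=
            mul_le_mul_of_nonneg_left h1 h5.le
        _ = κ * c * (l ^ (-(δ / 3)) * l ^ (δ / 3)) := by ring
        _ = κ * c := by rw [h4, mul_one]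
    calc l ^ (-(δ / 3)) ≤ κ * c / ((1 + 2 * δ) * Real.log l) := by
          rw [le_div_iff₀ (by positivity)]; exact h6
      _ = κ * (c / ((1 + 2 * δ) * Real.log l)) := by ring
      _ ≤ _ := mul_le_mul_of_nonneg_left hW hκ.le
  refine ⟨y, hy3, hly, hyA, ?_, hmain, ?_⟩
  · refine le_trans ?_ hyA
    calc (y : ℝ) = (y : ℝ) ^ (1 : ℝ) := (Real.rpow_one _).symm
      _ ≤ _ := Real.rpow_le_rpow_of_exponent_le (by linarith) (by linarith)
  · calc l = l ^ (1 : ℝ) := (Real.rpow_one _).symm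
      _ ≤ _ := Real.rpow_le_rpow_of_exponent_le (by linarith) (by linarith)

/-- means of square weights lie between the functions of the linear sieve -/
theorem meanFf {A0 : ℝ} {F f : ℝ → ℝ} (hS : SF A0 F f) {A κ : ℝ} (hA : 2 < A) (hκ : 0 < κ) :
    ∃ X₀ : ℝ, ∀ X : ℝ, X₀ ≤ X → ∀ Y : ℕ,
    (Real.log X) ^ A ≤ Y → ∀ z M : ℕ, 0 < M → (∀ p ∈ PP z, p ∣ M) →
    ∀ w : ℤ → ℝ, SW.SquareWeight X M w → ∀ x : ℤ,
    (f A - κ) * (W z * Y) * ∑ n ∈ Finset.range M, w n ≤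
      ∑ n ∈ Finset.range M, w n * rg z (Finset.Ioc x (x + Y)) n ∧
    ∑ n ∈ Finset.range M, w n * rg z (Finset.Ioc x (x + Y)) n ≤
      (F A + κ) * (W z * Y) * ∑ n ∈ Finset.range M, w n := by
  obtain ⟨δa, hδa, Ha⟩ := X9.unif hS.cF A (by positivity : 0 < κ / 3)
  obtain ⟨δb, hδb, Hb⟩ := X9.unif hS.cf A (by positivity : 0 < κ / 3)
  obtain ⟨A', hA'd⟩ : ∃ A' : ℝ, A' = A - min ((A - 2) / 2) (min (δa / 2) (δb / 2)) := ⟨_, rfl⟩
  have hm0 : 0 < min ((A - 2) / 2) (min (δa / 2) (δb / 2)) := lt_min (by linarith) (lt_min (by positivity) (by positivity))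
  have hm1 : min ((A - 2) / 2) (min (δa / 2) (δb / 2)) ≤ (A - 2) / 2 := min_le_left _ _
  have hm2 : min ((A - 2) / 2) (min (δa / 2) (δb / 2)) ≤ δa / 2 := (min_le_right _ _).trans (min_le_left _ _)
  have hm3 : min ((A - 2) / 2) (min (δa / 2) (δb / 2)) ≤ δb / 2 := (min_le_right _ _).trans (min_le_right _ _)
  have hA' : 2 < A' := by linarith
  have hAA : A' < A := by linarith
  have hF := Ha A' ⟨by linarith, hAA.le⟩ A ⟨by linarith, le_rfl⟩ (by
    rw [abs_sub_comm, abs_of_pos (by linarith)]; linarith)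
  have hf := Hb A' ⟨by linarith, hAA.le⟩ A ⟨by linarith, le_rfl⟩ (by
    rw [abs_sub_comm, abs_of_pos (by linarith)]; linarith)
  rw [abs_lt] at hF hf
  obtain ⟨δ, hδ, X₁, H₁⟩ := par hA' hAA (by positivity : 0 < κ / 3)
  obtain ⟨X₂, H₂⟩ := large δ hδ
  obtain ⟨Y₁, H₃⟩ := X10.det hS hA' (by positivity : 0 < κ / 3)
  refine ⟨max (max X₁ X₂) (Real.exp Y₁), fun X hX Y hY z M hM hPM w hw x => ?_⟩
  have hX1 : X₁ ≤ X := ((le_max_left _ _).trans (le_max_left _ _)).trans hX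
  have hX2 : X₂ ≤ X := ((le_max_right _ _).trans (le_max_left _ _)).trans hX
  have hX3 : Real.exp Y₁ ≤ X := (le_max_right _ _).trans hX
  obtain ⟨y, hy3, hly, hyA, hyA2, hη, hlA⟩ := H₁ X hX1
  have hX0 : 0 < X := (Real.exp_pos _).trans_le hX3
  have hYY : Y₁ ≤ Y := by
    have h1 : (Y₁ : ℝ) ≤ Real.log X := by rwa [Real.le_log_iff_exp_le hX0]
    have : (Y₁ : ℝ) ≤ Y := h1.trans (hlA.trans hY)
    exact_mod_cast this
  have hw0 : ∀ n, 0 ≤ w n := Run7.h52.Barrier.sw_nonneg hw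
  set Wt := ∑ n ∈ Finset.range M, w n with hWt
  have hWt0 : 0 ≤ Wt := Finset.sum_nonneg fun n _ => hw0 n
  -- small `z`
  have small : ∀ z : ℕ, z ≤ y →
      (f A - 2 / 3 * κ) * (W z * Y) * Wt ≤ ∑ n ∈ Finset.range M, w n * rg z (Finset.Ioc x (x + Y)) n ∧
      ∑ n ∈ Finset.range M, w n * rg z (Finset.Ioc x (x + Y)) n ≤ (F A + 2 / 3 * κ) * (W z * Y) * Wt := by
    intro z hz
    have hz' : (z : ℝ) ^ A' ≤ Y := by
      refine (Real.rpow_le_rpow (Nat.cast_nonneg _) (by exact_mod_cast hz) (by linarith)).trans (hyA.trans hY)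
    have hWY : 0 ≤ W z * (Y : ℝ) := mul_nonneg (W_pos z).le (Nat.cast_nonneg _)
    constructor
    · rw [hWt, Finset.mul_sum]
      refine Finset.sum_le_sum fun n _ => ?_
      have h1 := (H₃ Y z hYY hz' x n).1
      have h2 : (f A - 2 / 3 * κ) * (W z * Y) ≤ (f A' - κ / 3) * (W z * Y) :=
        mul_le_mul_of_nonneg_right (by linarith [hf.1]) hWY
      rw [mul_comm]
      exact mul_le_mul_of_nonneg_left (h2.trans h1) (hw0 n)
    · rw [hWt, Finset.mul_sum]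
      refine Finset.sum_le_sum fun n _ => ?_
      have h1 := (H₃ Y z hYY hz' x n).2
      have h2 : (F A' + κ / 3) * (W z * Y) ≤ (F A + 2 / 3 * κ) * (W z * Y) :=
        mul_le_mul_of_nonneg_right (by linarith [hF.2]) hWY
      rw [mul_comm ((F A + 2 / 3 * κ) * (W z * Y))]
      exact mul_le_mul_of_nonneg_left (h1.trans h2) (hw0 n)
  have hWYz : 0 ≤ W z * (Y : ℝ) * Wt := mul_nonneg (mul_nonneg (W_pos z).le (Nat.cast_nonneg _)) hWt0
  have hκW : 0 ≤ κ * (W z * (Y : ℝ) * Wt) := mul_nonneg hκ.le hWYz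
  rcases le_total z y with hzy | hzy
  · obtain ⟨h1, h2⟩ := small z hzy
    constructor
    · refine le_trans ?_ h1
      have e1 : (f A - κ) * (W z * Y) * Wt = (f A - 2 / 3 * κ) * (W z * Y) * Wt - 1 / 3 * (κ * (W z * Y * Wt)) := by ring
      rw [e1]; linarith
    · refine h2.trans ?_
      have e1 : (F A + κ) * (W z * Y) * Wt = (F A + 2 / 3 * κ) * (W z * Y) * Wt + 1 / 3 * (κ * (W z * Y * Wt)) := by ring
      rw [e1]; linarith
  · have hyY : y ≤ Y := by exact_mod_cast hyA2.trans hY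
    have h1 := H₂ X hX2 y Y hly hyY z hzy M hM hPM w hw x
    obtain ⟨h2, h3⟩ := small y le_rfl
    have hs := W_split hzy
    set ρ := ∏ p ∈ (PP z).filter (fun p => y < p), (1 - 1 / (p : ℝ)) with hρ
    have hρ0 : 0 ≤ ρ := by
      refine Finset.prod_nonneg fun p hp => ?_
      have : (1 : ℝ) < p := by exact_mod_cast (mem_PP.1 (Finset.mem_filter.1 hp).1).1.one_lt
      have : 1 / (p : ℝ) < 1 := by rw [div_lt_one (by linarith)]; exact this
      linarith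
    set S := ∑ n ∈ Finset.range M, w n * rg z (Finset.Ioc x (x + Y)) n with hSd
    set S' := ∑ n ∈ Finset.range M, w n * rg y (Finset.Ioc x (x + Y)) n with hSd'
    have h4 : ρ * ((Real.log X) ^ (-(δ / 3)) * Y) * Wt ≤ 1 / 3 * (κ * (W z * Y * Wt)) := by
      have h5 : ρ * ((Real.log X) ^ (-(δ / 3)) * Y) * Wt ≤ ρ * (κ / 3 * W y * Y) * Wt := by
        refine mul_le_mul_of_nonneg_right (mul_le_mul_of_nonneg_left
          (mul_le_mul_of_nonneg_right hη (Nat.cast_nonneg _)) hρ0) hWt0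
      refine h5.trans (le_of_eq ?_)
      rw [hs]; ring
    rw [abs_le] at h1
    have h5 := mul_le_mul_of_nonneg_left h2 hρ0
    have h6 := mul_le_mul_of_nonneg_left h3 hρ0
    constructor
    · have e1 : (f A - κ) * (W z * Y) * Wt = ρ * ((f A - 2 / 3 * κ) * (W y * Y) * Wt) - 1 / 3 * (κ * (W z * Y * Wt)) := by
        rw [hs]; ring
      rw [e1]
      linarith [h1.1]
    · have e1 : (F A + κ) * (W z * Y) * Wt = ρ * ((F A + 2 / 3 * κ) * (W y * Y) * Wt) + 1 / 3 * (κ * (W z * Y * Wt)) := by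
        rw [hs]; ring
      rw [e1]
      linarith [h1.2]

/-- explicit constants -/
theorem meanM {A κ : ℝ} (hA : 2 < A) (hκ : 0 < κ) :
    ∃ X₀ : ℝ, ∀ X : ℝ, X₀ ≤ X → ∀ Y : ℕ,
    (Real.log X) ^ A ≤ Y → ∀ z M : ℕ, 0 < M → (∀ p ∈ PP z, p ∣ M) →
    ∀ w : ℤ → ℝ, SW.SquareWeight X M w → ∀ x : ℤ,
    |∑ n ∈ Finset.range M, w n * rg z (Finset.Ioc x (x + Y)) n - W z * Y * ∑ n ∈ Finset.range M, w n| ≤
      (2 * Real.exp Real.eulerMascheroniConstant / Real.Gamma (A + 1) + κ) * (W z * Y) * ∑ n ∈ Finset.range M, w n ∧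
    (A ≤ 4 → (2 * Real.exp Real.eulerMascheroniConstant * Real.log (A - 1) / A - κ) * (W z * Y) *
      ∑ n ∈ Finset.range M, w n ≤ ∑ n ∈ Finset.range M, w n * rg z (Finset.Ioc x (x + Y)) n) ∧
    (A ≤ 3 → ∑ n ∈ Finset.range M, w n * rg z (Finset.Ioc x (x + Y)) n ≤
      (2 * Real.exp Real.eulerMascheroniConstant / A + κ) * (W z * Y) * ∑ n ∈ Finset.range M, w n) := by
  obtain ⟨A0, F, f, hS⟩ := Pool.Agent.W366.DC.SFX
  have hA0 := Run7.h52.X9a.A0_eq hS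
  obtain ⟨X₀, H⟩ := meanFf hS hA hκ
  refine ⟨X₀, fun X hX Y hY z M hM hPM w hw x => ?_⟩
  obtain ⟨h1, h2⟩ := H X hX Y hY z M hM hPM w hw x
  have hw0 : ∀ n, 0 ≤ w n := Run7.h52.Barrier.sw_nonneg hw
  have hWt0 : 0 ≤ ∑ n ∈ Finset.range M, w n := Finset.sum_nonneg fun n _ => hw0 n
  have hQ : 0 ≤ W z * (Y : ℝ) * ∑ n ∈ Finset.range M, w n :=
    mul_nonneg (mul_nonneg (W_pos z).le (Nat.cast_nonneg _)) hWt0
  have hFA : 1 ≤ F A := hS.F1 A (by linarith)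
  have hfA : f A ≤ 1 := hS.f1 A (by linarith)
  have hd := Run7.h52.M3.diff_gamma hS (by linarith : 1 ≤ A)
  rw [hA0] at hd
  set K : ℝ := 2 * Real.exp Real.eulerMascheroniConstant / Real.Gamma (A + 1) with hK
  refine ⟨?_, ?_, ?_⟩
  · rw [abs_le]
    constructor
    · have h3 := mul_le_mul_of_nonneg_right (by linarith : 1 - (K + κ) ≤ f A - κ) hQ
      have e1 : (f A - κ) * (W z * Y * ∑ n ∈ Finset.range M, w n) = (f A - κ) * (W z * Y) * ∑ n ∈ Finset.range M, w n := by ring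
      have e2 : (1 - (K + κ)) * (W z * Y * ∑ n ∈ Finset.range M, w n)
        = W z * Y * ∑ n ∈ Finset.range M, w n - (K + κ) * (W z * Y) * ∑ n ∈ Finset.range M, w n := by ring
      rw [e1, e2] at h3
      linarith
    · have h3 := mul_le_mul_of_nonneg_right (by linarith : F A + κ ≤ 1 + (K + κ)) hQ
      have e1 : (F A + κ) * (W z * Y * ∑ n ∈ Finset.range M, w n) = (F A + κ) * (W z * Y) * ∑ n ∈ Finset.range M, w n := by ring
      have e2 : (1 + (K + κ)) * (W z * Y * ∑ n ∈ Finset.range M, w n)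
        = W z * Y * ∑ n ∈ Finset.range M, w n + (K + κ) * (W z * Y) * ∑ n ∈ Finset.range M, w n := by ring
      rw [e1, e2] at h3
      linarith
  · intro hA4
    rw [hS.f4 A hA.le hA4, hA0] at h1
    exact h1
  · intro hA3
    rw [hS.F3 A (by linarith) hA3, hA0] at h2
    exact h2

/-- no deviation in longer intervals -/
theorem meanN : ∀ κ : ℝ, 0 < κ → ∃ A : ℝ, 0 < A ∧ ∃ X₀ : ℝ, ∀ X : ℝ, X₀ ≤ X → ∀ Y : ℕ,
    (Real.log X) ^ A ≤ Y → ∀ z M : ℕ, 0 < M → (∀ p ∈ PP z, p ∣ M) →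
    ∀ w : ℤ → ℝ, SW.SquareWeight X M w → ∀ x : ℤ,
    |∑ n ∈ Finset.range M, w n * rg z (Finset.Ioc x (x + Y)) n - W z * Y * ∑ n ∈ Finset.range M, w n| ≤
      κ * (W z * Y) * ∑ n ∈ Finset.range M, w n := by
  intro κ hκ
  obtain ⟨E, hE⟩ : ∃ E : ℝ, E = 2 * Real.exp Real.eulerMascheroniConstant := ⟨_, rfl⟩
  have hE0 : 0 < E := by rw [hE]; positivity
  obtain ⟨n, hn⟩ := exists_nat_ge (max 3 (2 * E / κ))
  have hn3 : (3 : ℝ) ≤ n := (le_max_left _ _).trans hn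
  have hnE : 2 * E / κ ≤ n := (le_max_right _ _).trans hn
  have hn0 : (0 : ℝ) < n := by linarith
  refine ⟨n, hn0, ?_⟩
  obtain ⟨X₀, H⟩ := meanM (A := (n : ℝ)) (κ := κ / 2) (by linarith) (by positivity)
  refine ⟨X₀, fun X hX Y hY z M hM hPM w hw x => (H X hX Y hY z M hM hPM w hw x).1.trans ?_⟩
  have hw0 : ∀ n, 0 ≤ w n := Run7.h52.Barrier.sw_nonneg hw
  have hWt0 : 0 ≤ ∑ n ∈ Finset.range M, w n := Finset.sum_nonneg fun n _ => hw0 n
  have hg : Real.Gamma ((n : ℝ) + 1) = (Nat.factorial n : ℕ) := Real.Gamma_nat_eq_factorial n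
  have hfac : (n : ℝ) ≤ (Nat.factorial n : ℕ) := by exact_mod_cast Nat.self_le_factorial n
  have h1 : 2 * Real.exp Real.eulerMascheroniConstant / Real.Gamma ((n : ℝ) + 1) ≤ κ / 2 := by
    rw [← hE, hg, div_le_iff₀ (by linarith)]
    rw [div_le_iff₀ hκ] at hnE
    have := mul_le_mul_of_nonneg_left hfac (by positivity : 0 ≤ κ / 2)
    linarith
  refine mul_le_mul_of_nonneg_right (mul_le_mul_of_nonneg_right (by linarith)
    (mul_nonneg (W_pos z).le (Nat.cast_nonneg _))) hWt0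

end Run7.h52.M7
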