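import Mathlib

set_option autoImplicit false

set_option linter.unusedSectionVars false

namespace Run7.h52.Op

open Finset

variable {ι : Type} [Fintype ι] [DecidableEq ι] {Ω : ι → Type} [∀ i, Fintype (Ω i)]
  [∀ i, DecidableEq (Ω i)]

/-- the tensor product of the kernels `T i`, acting on functions of `∀ i, Ω i` -/
def op (T : ∀ i, Matrix (Ω i) (Ω i) ℝ) (V : (∀ i, Ω i) → ℝ) : (∀ i, Ω i) → ℝ :=
  fun x => ∑ y, (∏ i, T i (x i) (y i)) * V y

/-- scalar product -/
def ip (V W : (∀ i, Ω i) → ℝ) : ℝ := ∑ x, V x * W x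

lemma prod_sum_expand {κ : ι → Type} [∀ i, Fintype (κ i)] (f : ∀ i, κ i → ℝ) :
    ∏ i, ∑ c, f i c = ∑ τ : (∀ i, κ i), ∏ i, f i (τ i) := by
  rw [Finset.prod_univ_sum]
  simp [Fintype.piFinset_univ]

lemma op_comp (A B : ∀ i, Matrix (Ω i) (Ω i) ℝ) (V : (∀ i, Ω i) → ℝ) :
    op A (op B V) = op (fun i => A i * B i) V := by
  funext x
  unfold op
  simp only [Matrix.mul_apply]
  have h1 : ∀ z : (∀ i, Ω i), (∏ i, ∑ j, A i (x i) j * B i j (z i)) * V z
      = ∑ y : (∀ i, Ω i), (∏ i, A i (x i) (y i)) * ((∏ i, B i (y i) (z i)) * V z) := by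
    intro z
    rw [prod_sum_expand, Finset.sum_mul]
    refine Finset.sum_congr rfl fun y _ => ?_
    rw [Finset.prod_mul_distrib]; ring
  simp only [h1]
  rw [Finset.sum_comm]
  refine Finset.sum_congr rfl fun y _ => ?_
  rw [Finset.mul_sum]

lemma op_one (V : (∀ i, Ω i) → ℝ) : op (fun _ => 1) V = V := by
  funext x
  unfold op
  rw [Finset.sum_eq_single x]
  · simp
  · intro y _ hy
    have : ∃ i, x i ≠ y i := by
      by_contra h
      push Not at h
      exact hy (funext fun i => (h i).symm)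
    obtain ⟨i, hi⟩ := this
    have h0 : (∏ i, (1 : Matrix (Ω i) (Ω i) ℝ) (x i) (y i)) = 0 :=
      Finset.prod_eq_zero (Finset.mem_univ i) (Matrix.one_apply_ne hi)
    show (∏ i, (1 : Matrix (Ω i) (Ω i) ℝ) (x i) (y i)) * V y = 0
    rw [h0, zero_mul]
  · simp

lemma ip_op_left (A : ∀ i, Matrix (Ω i) (Ω i) ℝ) (V W : (∀ i, Ω i) → ℝ) :
    ip (op A V) W = ip V (op (fun i => (A i).transpose) W) := by
  unfold ip op
  simp only [Finset.sum_mul, Finset.mul_sum, Matrix.transpose_apply]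
  rw [Finset.sum_comm]
  refine Finset.sum_congr rfl fun y _ => Finset.sum_congr rfl fun x _ => ?_
  ring

lemma ip_comm (V W : (∀ i, Ω i) → ℝ) : ip V W = ip W V := by
  unfold ip
  exact Finset.sum_congr rfl fun _ _ => mul_comm _ _

lemma ip_self_nonneg (V : (∀ i, Ω i) → ℝ) : 0 ≤ ip V V :=
  Finset.sum_nonneg fun _ _ => mul_self_nonneg _

/-- expansion over labellings -/
lemma op_expand {C : Type} [Fintype C] (X : ∀ i, C → Matrix (Ω i) (Ω i) ℝ)
    (T : ∀ i, Matrix (Ω i) (Ω i) ℝ) (hT : ∀ i, T i = ∑ c, X i c) (V : (∀ i, Ω i) → ℝ) :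
    op T V = ∑ τ : ι → C, op (fun i => X i (τ i)) V := by
  funext x
  rw [Finset.sum_apply]
  unfold op
  rw [Finset.sum_comm]
  refine Finset.sum_congr rfl fun y _ => ?_
  rw [← Finset.sum_mul]
  congr 1
  simp only [hT, Matrix.sum_apply]
  exact prod_sum_expand (κ := fun _ => C) (fun i c => X i c (x i) (y i))

/-- the quadratic form of a tensor product of `∑ d X^T X` -/
lemma ip_op_expand {C : Type} [Fintype C] (X : ∀ i, C → Matrix (Ω i) (Ω i) ℝ)
    (d : ι → C → ℝ) (T : ∀ i, Matrix (Ω i) (Ω i) ℝ)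
    (hT : ∀ i, T i = ∑ c, d i c • ((X i c).transpose * X i c)) (V : (∀ i, Ω i) → ℝ) :
    ip V (op T V) = ∑ τ : ι → C, (∏ i, d i (τ i)) *
      ip (op (fun i => X i (τ i)) V) (op (fun i => X i (τ i)) V) := by
  rw [op_expand _ T hT]
  have h : ∀ W : (ι → C) → (∀ i, Ω i) → ℝ, ip V (∑ τ, W τ) = ∑ τ, ip V (W τ) := by
    intro W
    unfold ip
    rw [Finset.sum_comm]
    refine Finset.sum_congr rfl fun x _ => ?_
    rw [Finset.sum_apply, Finset.mul_sum]
  rw [h]
  refine Finset.sum_congr rfl fun τ _ => ?_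
  rw [ip_op_left, op_comp]
  unfold ip op
  rw [Finset.mul_sum]
  refine Finset.sum_congr rfl fun x _ => ?_
  rw [Finset.mul_sum, Finset.mul_sum, Finset.mul_sum]
  refine Finset.sum_congr rfl fun y _ => ?_
  simp only [Matrix.smul_apply, smul_eq_mul, Finset.prod_mul_distrib]
  ring

/-- linearity in one slot -/
lemma op_update_sum {α : Type} (s : Finset α) (T : ∀ i, Matrix (Ω i) (Ω i) ℝ) (i : ι)
    (K : α → Matrix (Ω i) (Ω i) ℝ) (V : (∀ i, Ω i) → ℝ) :
    op (Function.update T i (∑ a ∈ s, K a)) V = ∑ a ∈ s, op (Function.update T i (K a)) V := by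
  funext x
  rw [Finset.sum_apply]
  unfold op
  rw [Finset.sum_comm]
  refine Finset.sum_congr rfl fun y _ => ?_
  rw [← Finset.sum_mul]
  congr 1
  have h : ∀ M : Matrix (Ω i) (Ω i) ℝ, ∏ j, (Function.update T i M) j (x j) (y j)
      = M (x i) (y i) * ∏ j ∈ univ.erase i, T j (x j) (y j) := by
    intro M
    rw [← Finset.mul_prod_erase _ _ (Finset.mem_univ i)]
    rw [Function.update_self]
    congr 1
    refine Finset.prod_congr rfl fun j hj => ?_
    rw [Function.update_of_ne (Finset.ne_of_mem_erase hj)]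
  simp only [h, Matrix.sum_apply, Finset.sum_mul]

lemma op_update_smul (c : ℝ) (T : ∀ i, Matrix (Ω i) (Ω i) ℝ) (i : ι)
    (K : Matrix (Ω i) (Ω i) ℝ) (V : (∀ i, Ω i) → ℝ) :
    op (Function.update T i (c • K)) V = c • op (Function.update T i K) V := by
  funext x
  rw [Pi.smul_apply]
  unfold op
  rw [smul_eq_mul, Finset.mul_sum]
  refine Finset.sum_congr rfl fun y _ => ?_
  have h : ∀ M : Matrix (Ω i) (Ω i) ℝ, ∏ j, (Function.update T i M) j (x j) (y j)
      = M (x i) (y i) * ∏ j ∈ univ.erase i, T j (x j) (y j) := by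
    intro M
    rw [← Finset.mul_prod_erase _ _ (Finset.mem_univ i)]
    rw [Function.update_self]
    congr 1
    refine Finset.prod_congr rfl fun j hj => ?_
    rw [Function.update_of_ne (Finset.ne_of_mem_erase hj)]
  rw [h, h, Matrix.smul_apply, smul_eq_mul]
  ring

/-- averaging over one coordinate -/
lemma sum_update (i : ι) (g : (∀ i, Ω i) → ℝ) :
    ∑ y : (∀ i, Ω i), ∑ a : Ω i, g (Function.update y i a) = (Fintype.card (Ω i)) * ∑ y, g y := by
  rw [← Fintype.sum_prod_type' (f := fun (y : ∀ i, Ω i) (a : Ω i) => g (Function.update y i a))]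
  have e : Function.Involutive (fun q : (∀ i, Ω i) × Ω i => (Function.update q.1 i q.2, q.1 i)) := by
    rintro ⟨y, a⟩
    simp
  have h := Fintype.sum_equiv e.toPerm (fun q : (∀ i, Ω i) × Ω i => g (Function.update q.1 i q.2))
    (fun q => g q.1) (fun q => rfl)
  rw [h, Fintype.sum_prod_type]
  simp [Finset.mul_sum]

/-- a kernel with zero row sums kills functions independent of the coordinate -/
lemma op_eq_zero (K : ∀ i, Matrix (Ω i) (Ω i) ℝ) (F : (∀ i, Ω i) → ℝ) (i : ι)
    (hK : ∀ a, ∑ b, K i a b = 0) (hF : ∀ x a, F (Function.update x i a) = F x) :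
    op K F = 0 := by
  funext x
  rw [Pi.zero_apply]
  unfold op
  have hx : (0 : ℝ) < Fintype.card (Ω i) := by
    have : 0 < Fintype.card (Ω i) := Fintype.card_pos_iff.2 ⟨x i⟩
    exact_mod_cast this
  have h := sum_update i (fun y => (∏ j, K j (x j) (y j)) * F y)
  have h0 : ∑ y : (∀ i, Ω i), ∑ a : Ω i, (∏ j, K j (x j) ((Function.update y i a) j))
      * F (Function.update y i a) = 0 := by
    refine Finset.sum_eq_zero fun y _ => ?_
    have h1 : ∀ a : Ω i, (∏ j, K j (x j) ((Function.update y i a) j))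
      * F (Function.update y i a) = K i (x i) a * ((∏ j ∈ univ.erase i, K j (x j) (y j)) * F y) := by
      intro a
      rw [hF, ← Finset.mul_prod_erase _ _ (Finset.mem_univ i), Function.update_self, mul_assoc]
      congr 2
      refine Finset.prod_congr rfl fun j hj => ?_
      rw [Function.update_of_ne (Finset.ne_of_mem_erase hj)]
    simp only [h1]
    rw [← Finset.sum_mul, hK, zero_mul]
  rw [h0] at h
  have := h.symm
  rcases mul_eq_zero.1 this with h2 | h2
  · exact absurd h2 hx.ne'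
  · exact h2

lemma op_add (K : ∀ i, Matrix (Ω i) (Ω i) ℝ) (F G : (∀ i, Ω i) → ℝ) :
    op K (F + G) = op K F + op K G := by
  funext x
  simp only [op, Pi.add_apply, mul_add, Finset.sum_add_distrib]

lemma op_sum {α : Type} (s : Finset α) (K : ∀ i, Matrix (Ω i) (Ω i) ℝ)
    (F : α → (∀ i, Ω i) → ℝ) :
    op K (∑ a ∈ s, F a) = ∑ a ∈ s, op K (F a) := by
  funext x
  simp only [op, Finset.sum_apply, Finset.mul_sum]
  rw [Finset.sum_comm]

/-- `L²` norm -/
noncomputable def nrm {α : Type} [Fintype α] (V : α → ℝ) : ℝ := Real.sqrt (∑ x, V x * V x)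

lemma nrm_eq {α : Type} [Fintype α] (V : α → ℝ) : nrm V = ‖(WithLp.toLp 2 V : EuclideanSpace ℝ α)‖ := by
  rw [nrm, EuclideanSpace.norm_eq]
  congr 1
  refine Finset.sum_congr rfl fun x _ => ?_
  rw [Real.norm_eq_abs, sq_abs, sq]

lemma nrm_nonneg {α : Type} [Fintype α] (V : α → ℝ) : 0 ≤ nrm V := Real.sqrt_nonneg _

lemma nrm_sq {α : Type} [Fintype α] (V : α → ℝ) : nrm V ^ 2 = ∑ x, V x * V x :=
  Real.sq_sqrt (Finset.sum_nonneg fun _ _ => mul_self_nonneg _)

lemma nrm_add_le {α : Type} [Fintype α] (V W : α → ℝ) : nrm (V + W) ≤ nrm V + nrm W := by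
  rw [nrm_eq, nrm_eq, nrm_eq]
  exact norm_add_le _ _

lemma nrm_sub_le {α : Type} [Fintype α] (V W : α → ℝ) : nrm (V - W) ≤ nrm V + nrm W := by
  rw [nrm_eq, nrm_eq, nrm_eq]
  exact norm_sub_le _ _

lemma nrm_sum_le {α β : Type} [Fintype α] (s : Finset β) (V : β → α → ℝ) :
    nrm (∑ b ∈ s, V b) ≤ ∑ b ∈ s, nrm (V b) := by
  classical
  induction s using Finset.induction_on with
  | empty => simp [nrm]
  | insert a s ha ih =>
    rw [Finset.sum_insert ha, Finset.sum_insert ha]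
    exact (nrm_add_le _ _).trans (by linarith)

end Run7.h52.Op
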