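import Pool.Agent.Run7.h52.CellG
import Pool.Agent.Run7.h52.LS2
import Pool.Agent.Run7.h52.CountL

set_option autoImplicit false
set_option linter.unusedSectionVars false

namespace Run7.h52.Sp

open Finset Run7.h52.Op Run7.h52.Core Run7.h52.CoreG Run7.h52.CellG Run7.h52.Transfer

/-- the index set: the primes up to `Q` -/
abbrev Ix (Q : ℕ) : Type := {p // p ∈ Count.PP Q}

/-- the product of the rings `ℤ / p ^ Q` -/
abbrev Om (Q : ℕ) : Ix Q → Type := fun i => Fin ((i : ℕ) ^ Q)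

lemma ip_prime {Q : ℕ} (i : Ix Q) : (i : ℕ).Prime := (Finset.mem_filter.1 i.2).2

lemma ip_le {Q : ℕ} (i : Ix Q) : (i : ℕ) ≤ Q := (Finset.mem_Icc.1 (Finset.mem_filter.1 i.2).1).2

/-- the modulus -/
def MM (Q : ℕ) : ℕ := ∏ p ∈ Count.PP Q, p ^ Q

lemma MM_pos (Q : ℕ) : 0 < MM Q :=
  Finset.prod_pos fun p hp => pow_pos (Finset.mem_filter.1 hp).2.pos _

lemma dvd_MM {Q q : ℕ} (hq : q ∈ Finset.Icc 1 Q) : q ∣ MM Q := by
  rw [Finset.mem_Icc] at hq
  rw [Nat.dvd_iff_prime_pow_dvd_dvd]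
  intro p k hp hk
  rcases Nat.eq_zero_or_pos k with h0 | h0
  · rw [h0, pow_zero]; exact one_dvd _
  · have h1 : p ^ k ≤ q := Nat.le_of_dvd (by omega) hk
    have h2 : k < p ^ k := Nat.lt_pow_self hp.one_lt
    have h3 : p ≤ p ^ k := Nat.le_self_pow (by omega) p
    have h4 : p ∈ Count.PP Q := by
      rw [Finset.mem_filter, Finset.mem_Icc]
      exact ⟨⟨hp.one_lt.le, by omega⟩, hp⟩
    exact (pow_dvd_pow p (by omega)).trans (Finset.dvd_prod_of_mem (fun p => p ^ Q) h4)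

/-- the point of the product space given by an integer -/
def pt (Q : ℕ) (n : ℤ) : ∀ i, Om Q i := fun i => cls (pow_pos (ip_prime i).pos Q) n

lemma pt_coord {Q : ℕ} (n : ℤ) (i : Ix Q) : (((i : ℕ) ^ Q : ℕ) : ℤ) ∣ n - (((pt Q n i : Fin _) : ℕ) : ℤ) :=
  (eq_cls (pow_pos (ip_prime i).pos Q) n _).1 rfl

lemma pt_eq {Q : ℕ} {n m : ℤ} (h : (MM Q : ℤ) ∣ n - m) : pt Q n = pt Q m := by
  funext i
  have h1 : (((i : ℕ) ^ Q : ℕ) : ℤ) ∣ (MM Q : ℤ) := by
    have := Finset.dvd_prod_of_mem (fun p => p ^ Q) i.2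
    exact_mod_cast this
  have h2 : pt Q n i = cls (pow_pos (ip_prime i).pos Q) m := by
    rw [eq_cls]
    have h3 := pt_coord (Q := Q) n i
    have h4 := h1.trans h
    have h5 : m - (((pt Q n i : Fin _) : ℕ) : ℤ) = (n - (((pt Q n i : Fin _) : ℕ) : ℤ)) - (n - m) := by ring
    rw [h5]
    exact dvd_sub h3 h4
  exact h2

lemma dvd_of_pt_eq {Q : ℕ} {n m : ℤ} (h : pt Q n = pt Q m) : (MM Q : ℤ) ∣ n - m := by
  have h1 : ∀ p ∈ Count.PP Q, ((p ^ Q : ℕ) : ℤ) ∣ n - m := by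
    intro p hp
    have h2 := pt_coord (Q := Q) n ⟨p, hp⟩
    have h3 := pt_coord (Q := Q) m ⟨p, hp⟩
    rw [h] at h2
    have h5 : n - m = (n - (((pt Q m ⟨p, hp⟩ : Fin _) : ℕ) : ℤ)) - (m - (((pt Q m ⟨p, hp⟩ : Fin _) : ℕ) : ℤ)) := by ring
    rw [h5]
    exact dvd_sub h2 h3
  have h2 : (MM Q : ℤ) = ∏ p ∈ Count.PP Q, ((p ^ Q : ℕ) : ℤ) := by
    rw [MM]; push_cast; rfl
  rw [h2]
  refine Finset.prod_dvd_of_coprime (fun p hp q hq hpq => ?_) h1
  have h3 : Nat.Coprime (p ^ Q) (q ^ Q) := Nat.Coprime.pow _ _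
    ((Nat.coprime_primes (Finset.mem_filter.1 hp).2 (Finset.mem_filter.1 hq).2).2 hpq)
  exact Nat.isCoprime_iff_coprime.2 h3

lemma card_Om (Q : ℕ) : Fintype.card (∀ i, Om Q i) = MM Q := by
  rw [Fintype.card_pi, MM]
  simp only [Fintype.card_fin]
  exact Finset.prod_coe_sort (Count.PP Q) (fun p => p ^ Q)

lemma pt_bij (Q : ℕ) : Function.Bijective (fun n : Fin (MM Q) => pt Q ((n : ℕ) : ℤ)) := by
  rw [Fintype.bijective_iff_injective_and_card]
  refine ⟨fun n m h => ?_, ?_⟩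
  · have h1 := dvd_of_pt_eq h
    apply Fin.ext
    have h6 : ((m : ℕ) : ℤ) % (MM Q : ℤ) = ((n : ℕ) : ℤ) % (MM Q : ℤ) := Int.modEq_iff_dvd.2 h1
    have h7 : ((n : ℕ) : ℤ) % (MM Q : ℤ) = n := Int.emod_eq_of_lt (by positivity) (by exact_mod_cast n.2)
    have h8 : ((m : ℕ) : ℤ) % (MM Q : ℤ) = m := Int.emod_eq_of_lt (by positivity) (by exact_mod_cast m.2)
    omega
  · rw [Fintype.card_fin, card_Om]

/-- a representative -/
noncomputable def rep (Q : ℕ) (x : ∀ i, Om Q i) : ℤ :=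
  (((Equiv.ofBijective _ (pt_bij Q)).symm x : Fin (MM Q)) : ℕ)

lemma pt_rep {Q : ℕ} (x : ∀ i, Om Q i) : pt Q (rep Q x) = x :=
  (Equiv.ofBijective _ (pt_bij Q)).apply_symm_apply x

lemma sum_rep {Q : ℕ} (F : (∀ i, Om Q i) → ℝ) :
    ∑ x, F x = ∑ n ∈ Finset.range (MM Q), F (pt Q n) := by
  rw [← (Equiv.ofBijective _ (pt_bij Q)).sum_comp]
  exact Fin.sum_univ_eq_sum_range (fun n : ℕ => F (pt Q n)) (MM Q)

lemma per_mul {M : ℕ} {V : ℤ → ℝ} (hV : ∀ n, V (n + M) = V n) {n m : ℤ} (h : (M : ℤ) ∣ n - m) :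
    V n = V m := by
  obtain ⟨k, hk⟩ := h
  have h4 : ∀ k : ℤ, V (m + M * k) = V m := by
    intro k
    induction k using Int.induction_on with
    | zero => simp
    | succ i ih =>
      rw [← ih]
      have : m + M * ((i : ℤ) + 1) = (m + M * i) + M := by ring
      rw [this, hV]
    | pred i ih =>
      rw [← ih]
      have : m + M * (-(i : ℤ)) = (m + M * (-(i : ℤ) - 1)) + M := by ring
      rw [this, hV]
  rw [← h4 k, ← hk]
  congr 1; ring

/-- weights of the conductors -/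
noncomputable def om (Q : ℕ) (i : Ix Q) (j : Fin Q) : ℝ := ((j : ℕ) + 1 : ℝ) * Real.log (i : ℕ)

/-- projections -/
noncomputable def Dp (Q : ℕ) (i : Ix Q) (j : Fin Q) : Matrix (Om Q i) (Om Q i) ℝ := DD (i : ℕ) Q j

lemma isD_Dp {Q : ℕ} (i : Ix Q) : IsD (Dp Q i) := isD_DD (ip_prime i).pos

lemma ne_Om {Q : ℕ} (i : Ix Q) : Nonempty (Om Q i) := ⟨⟨0, pow_pos (ip_prime i).pos Q⟩⟩

lemma om_nonneg {Q : ℕ} (i : Ix Q) (j : Fin Q) : 0 ≤ om Q i j :=
  mul_nonneg (by positivity) (Real.log_nonneg (by exact_mod_cast (ip_prime i).one_lt.le))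

/-- conductor -/
def cond {Q : ℕ} (τ : Ix Q → Option (Fin Q)) : ℕ :=
  ∏ i, (τ i).elim 1 (fun j => (i : ℕ) ^ ((j : ℕ) + 1))

lemma cond_pos {Q : ℕ} (τ : Ix Q → Option (Fin Q)) : 0 < cond τ :=
  Finset.prod_pos fun i _ => by
    rcases τ i with _ | j
    · simp
    · exact pow_pos (ip_prime i).pos _

lemma cs_eq {Q : ℕ} (τ : Ix Q → Option (Fin Q)) : cs (om Q) τ = Real.log (cond τ) := by
  unfold cs cond
  push_cast
  rw [Real.log_prod]
  · refine Finset.sum_congr rfl fun i _ => ?_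
    rcases τ i with _ | j
    · simp
    · simp only [Option.elim_some, om]
      push_cast
      rw [Real.log_pow]; push_cast; ring
  · intro i _
    rcases τ i with _ | j
    · simp
    · simp only [Option.elim_some]
      have := (ip_prime i).ne_zero
      positivity

/-- a kernel which kills the functions of a coordinate -/
lemma op_eq_zero' {ι : Type} [Fintype ι] [DecidableEq ι] {Ω : ι → Type} [∀ i, Fintype (Ω i)]
    [∀ i, DecidableEq (Ω i)] (K : ∀ i, Matrix (Ω i) (Ω i) ℝ) (F : (∀ i, Ω i) → ℝ) (i : ι)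
    (h : ∀ (b : Ω i) (y : ∀ i, Ω i), ∑ a, K i b a * F (Function.update y i a) = 0) :
    op K F = 0 := by
  funext x
  rw [Pi.zero_apply]
  unfold op
  have hx : (0 : ℝ) < Fintype.card (Ω i) := by
    have : 0 < Fintype.card (Ω i) := Fintype.card_pos_iff.2 ⟨x i⟩
    exact_mod_cast this
  have h2 := sum_update i (fun y => (∏ j, K j (x j) (y j)) * F y)
  have h0 : ∑ y : (∀ i, Ω i), ∑ a : Ω i, (∏ j, K j (x j) ((Function.update y i a) j))
      * F (Function.update y i a) = 0 := by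
    refine Finset.sum_eq_zero fun y _ => ?_
    have h1 : ∀ a : Ω i, (∏ j, K j (x j) ((Function.update y i a) j))
      * F (Function.update y i a) = (∏ j ∈ univ.erase i, K j (x j) (y j)) *
        (K i (x i) a * F (Function.update y i a)) := by
      intro a
      rw [← Finset.mul_prod_erase _ _ (Finset.mem_univ i), Function.update_self]
      have : ∏ x_1 ∈ univ.erase i, K x_1 (x x_1) (Function.update y i a x_1)
          = ∏ j ∈ univ.erase i, K j (x j) (y j) := by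
        refine Finset.prod_congr rfl fun j hj => ?_
        rw [Function.update_of_ne (Finset.ne_of_mem_erase hj)]
      rw [this]; ring
    simp only [h1]
    rw [← Finset.mul_sum, h, mul_zero]
  rw [h0] at h2
  rcases mul_eq_zero.1 h2.symm with h3 | h3
  · exact absurd h3 hx.ne'
  · exact h3

lemma coord_dvd {Q : ℕ} (x : ∀ i, Om Q i) (i : Ix Q) :
    (((i : ℕ) ^ Q : ℕ) : ℤ) ∣ rep Q x - (((x i : Fin _) : ℕ) : ℤ) := by
  have h := pt_coord (Q := Q) (rep Q x) i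
  rwa [pt_rep] at h

lemma fac_lt {Q q : ℕ} (hq : q ∈ Finset.Icc 1 Q) (p : ℕ) : q.factorization p ≤ Q := by
  rw [Finset.mem_Icc] at hq
  have := Nat.factorization_lt (n := q) p (by omega)
  omega

lemma rep_congr {Q q : ℕ} (hq : q ∈ Finset.Icc 1 Q) (i : Ix Q) (x x' : ∀ i, Om Q i)
    (h1 : ∀ j, j ≠ i → x j = x' j)
    (h2 : ((x i : Fin _) : ℕ) % (i : ℕ) ^ q.factorization (i : ℕ) = ((x' i : Fin _) : ℕ) % (i : ℕ) ^ q.factorization (i : ℕ)) :
    (q : ℤ) ∣ rep Q x - rep Q x' := by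
  have hq' := hq
  rw [Finset.mem_Icc] at hq
  have hq0 : q ≠ 0 := by omega
  rw [Int.natCast_dvd, Nat.dvd_iff_prime_pow_dvd_dvd]
  intro p k hp hk
  rw [← Int.natCast_dvd]
  rcases Nat.eq_zero_or_pos k with h0 | h0
  · rw [h0, pow_zero]; simp
  · have h3 : p ^ k ≤ q := Nat.le_of_dvd (by omega) hk
    have h4 : k < p ^ k := Nat.lt_pow_self hp.one_lt
    have h5 : p ≤ p ^ k := Nat.le_self_pow (by omega) p
    have h6 : p ∈ Count.PP Q := by
      rw [Finset.mem_filter, Finset.mem_Icc]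
      exact ⟨⟨hp.one_lt.le, by omega⟩, hp⟩
    have hkQ : k ≤ Q := by omega
    have e1 := coord_dvd x ⟨p, h6⟩
    have e2 := coord_dvd x' ⟨p, h6⟩
    have hd : ((p ^ k : ℕ) : ℤ) ∣ ((p ^ Q : ℕ) : ℤ) := by exact_mod_cast pow_dvd_pow p hkQ
    have e3 : ((p ^ k : ℕ) : ℤ) ∣ (((x ⟨p, h6⟩ : Fin _) : ℕ) : ℤ) - (((x' ⟨p, h6⟩ : Fin _) : ℕ) : ℤ) := by
      by_cases hpi : (⟨p, h6⟩ : Ix Q) = i
      · have hv : k ≤ q.factorization p := (hp.pow_dvd_iff_le_factorization hq0).1 hk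
        subst hpi
        have h7 : ((x ⟨p, h6⟩ : Fin _) : ℕ) ≡ ((x' ⟨p, h6⟩ : Fin _) : ℕ) [MOD p ^ q.factorization p] := h2
        have h8 := (Nat.modEq_iff_dvd.1 h7.symm)
        have h9 : ((p ^ k : ℕ) : ℤ) ∣ ((p ^ q.factorization p : ℕ) : ℤ) := by exact_mod_cast pow_dvd_pow p hv
        exact h9.trans h8
      · rw [h1 _ hpi, sub_self]; exact dvd_zero _
    have e4 : rep Q x - rep Q x' = (rep Q x - (((x ⟨p, h6⟩ : Fin _) : ℕ) : ℤ))
      - (rep Q x' - (((x' ⟨p, h6⟩ : Fin _) : ℕ) : ℤ))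
      + ((((x ⟨p, h6⟩ : Fin _) : ℕ) : ℤ) - (((x' ⟨p, h6⟩ : Fin _) : ℕ) : ℤ)) := by ring
    rw [e4]
    exact dvd_add (dvd_sub (hd.trans e1) (hd.trans e2)) e3

/-- functions of level `R` on the product space -/
theorem levG_of_level {Q R : ℕ} (hR : 1 ≤ R) (hRQ : R ≤ Q) {V : ℤ → ℝ} (hV : HasLevel R V) :
    LevG (om Q) (Dp Q) (Real.log R) (fun x => V (rep Q x)) := by
  classical
  obtain ⟨c, hc⟩ := hV
  intro τ hτ
  have h1 : (fun x => V (rep Q x)) = ∑ q ∈ Finset.Icc 1 R, fun x => c q (rep Q x % (q : ℤ)) := by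
    funext x
    rw [Finset.sum_apply, hc]
  rw [h1, Op.op_sum]
  refine Finset.sum_eq_zero fun q hq => ?_
  have hqQ : q ∈ Finset.Icc 1 Q := by
    rw [Finset.mem_Icc] at hq ⊢
    omega
  have hq' := Finset.mem_Icc.1 hq
  have h2 : ∃ i : Ix Q, ∃ j : Fin Q, τ i = some j ∧ q.factorization (i : ℕ) ≤ (j : ℕ) := by
    by_contra hcon
    push Not at hcon
    have h3 : cond τ ∣ q := by
      unfold cond
      have h5 : ∀ i ∈ (Finset.univ : Finset (Ix Q)), (τ i).elim 1 (fun j => (i : ℕ) ^ ((j : ℕ) + 1)) ∣ q := by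
        intro i _
        rcases hi : τ i with _ | j
        · simp
        · simp only [Option.elim_some]
          exact ((ip_prime i).pow_dvd_iff_le_factorization (by omega)).2 (hcon i j hi)
      have h6 : ((∏ i, (τ i).elim 1 (fun j => (i : ℕ) ^ ((j : ℕ) + 1)) : ℕ) : ℤ) ∣ (q : ℤ) := by
        push_cast
        refine Finset.prod_dvd_of_coprime (fun i _ j _ hij => ?_) (fun i hi => by
          have := h5 i hi
          exact_mod_cast (Int.natCast_dvd_natCast.2 this))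
        have h7 : Nat.Coprime ((τ i).elim 1 (fun j => (i : ℕ) ^ ((j : ℕ) + 1)))
            ((τ j).elim 1 (fun k => (j : ℕ) ^ ((k : ℕ) + 1))) := by
          rcases τ i with _ | a <;> rcases τ j with _ | b
          · simp
          · simp
          · simp
          · simp only [Option.elim_some]
            refine Nat.Coprime.pow _ _ ((Nat.coprime_primes (ip_prime i) (ip_prime j)).2 ?_)
            exact fun h => hij (Subtype.ext h)
        exact Nat.isCoprime_iff_coprime.2 h7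
      exact_mod_cast h6
    rw [cs_eq] at hτ
    have h4 : cond τ ≤ R := (Nat.le_of_dvd (by omega) h3).trans hq'.2
    have h5 := Real.log_le_log (by exact_mod_cast cond_pos τ : (0 : ℝ) < (cond τ : ℝ))
      (by exact_mod_cast h4 : ((cond τ : ℕ) : ℝ) ≤ R)
    linarith
  obtain ⟨i, j, hij, hv⟩ := h2
  refine op_eq_zero' _ _ i fun b y => ?_
  rw [hij]
  simp only [DM, Option.elim_some, Dp]
  refine DD_row (ip_prime i).pos j b (fun a => c q (rep Q (Function.update y i a) % (q : ℤ)))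
    (q.factorization (i : ℕ)) hv (fun a a' haa => ?_)
  have h3 : (q : ℤ) ∣ rep Q (Function.update y i a) - rep Q (Function.update y i a') := by
    refine rep_congr hqQ i _ _ (fun j hj => ?_) ?_
    · rw [Function.update_of_ne hj, Function.update_of_ne hj]
    · rw [Function.update_self, Function.update_self]; exact haa
  have h4 : rep Q (Function.update y i a) % (q : ℤ) = rep Q (Function.update y i a') % (q : ℤ) :=
    (Int.modEq_iff_dvd.2 h3).symm
  simp only [h4]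

end Run7.h52.Sp
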