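import Pool.Agent.Run7.h52.Sp

set_option autoImplicit false
set_option linter.unusedSectionVars false

namespace Run7.h52.Sp

open Finset Run7.h52.Op Run7.h52.Core Run7.h52.CoreG Run7.h52.CellG Run7.h52.Transfer

/-- projection on the level `exp q` -/
noncomputable def WW (Q : ℕ) (q : ℝ) (u : (∀ i, Om Q i) → ℝ) : (∀ i, Om Q i) → ℝ :=
  ∑ τ ∈ Finset.univ.filter (fun τ : Ix Q → Option (Fin Q) => cs (om Q) τ ≤ q),
    op (fun i => DM (Dp Q i) (τ i)) u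

lemma nQ_filter {Q : ℕ} (q : ℝ) (u : (∀ i, Om Q i) → ℝ) :
    nQ (om Q) (Dp Q) q u = ∑ τ ∈ Finset.univ.filter (fun τ : Ix Q → Option (Fin Q) => cs (om Q) τ ≤ q),
      ip (op (fun i => DM (Dp Q i) (τ i)) u) (op (fun i => DM (Dp Q i) (τ i)) u) := by
  rw [nQ, Finset.sum_filter]

lemma ip_DM_orth {Q : ℕ} (τ σ : Ix Q → Option (Fin Q)) (h : τ ≠ σ) (u : (∀ i, Om Q i) → ℝ) :
    ip (op (fun i => DM (Dp Q i) (τ i)) u) (op (fun i => DM (Dp Q i) (σ i)) u) = 0 := by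
  have hex : ∃ i, τ i ≠ σ i := by
    by_contra h'
    push Not at h'
    exact h (funext h')
  obtain ⟨i, hi⟩ := hex
  rw [ip_op_left, op_comp]
  have h1 : ∀ j, (DM (Dp Q j) (τ j)).transpose * DM (Dp Q j) (σ j)
      = if τ j = σ j then DM (Dp Q j) (τ j) else 0 := fun j => by
    rw [DM_transpose (isD_Dp j), DM_mul (ne_Om j) (isD_Dp j)]
  simp only [h1]
  have h2 : op (fun j => if τ j = σ j then DM (Dp Q j) (τ j) else 0) u = 0 := by
    funext x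
    rw [Pi.zero_apply]
    unfold op
    refine Finset.sum_eq_zero fun y _ => ?_
    rw [Finset.prod_eq_zero (Finset.mem_univ i), zero_mul]
    simp only [if_neg hi]
    rfl
  rw [h2]
  simp [ip]

lemma ip_sum_left' {Q : ℕ} {α : Type} (s : Finset α) (F : α → (∀ i, Om Q i) → ℝ) (u : (∀ i, Om Q i) → ℝ) :
    ip (∑ a ∈ s, F a) u = ∑ a ∈ s, ip (F a) u := by
  rw [ip_comm, ip_sum_right]
  exact Finset.sum_congr rfl fun a _ => ip_comm _ _

lemma ip_WW_u {Q : ℕ} (q : ℝ) (u : (∀ i, Om Q i) → ℝ) : ip (WW Q q u) u = nQ (om Q) (Dp Q) q u := by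
  rw [WW, ip_sum_left', nQ_filter]
  refine Finset.sum_congr rfl fun τ _ => ?_
  rw [ip_comm, ip_proj]
  · exact fun i => DM_transpose (isD_Dp i) _
  · intro i
    rw [DM_mul (ne_Om i) (isD_Dp i), if_pos rfl]

lemma ip_WW_WW {Q : ℕ} (q : ℝ) (u : (∀ i, Om Q i) → ℝ) :
    ip (WW Q q u) (WW Q q u) = nQ (om Q) (Dp Q) q u := by
  conv_lhs => rw [WW, ip_sum_left']
  rw [nQ_filter]
  refine Finset.sum_congr rfl fun τ hτ => ?_
  rw [ip_sum_right, Finset.sum_eq_single τ]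
  · intro σ _ hne
    exact ip_DM_orth τ σ hne.symm u
  · intro h; exact absurd hτ h

lemma pt_mod {Q : ℕ} (n n' : ℤ) (i : Ix Q) (j : Fin Q) (h : (((i : ℕ) ^ ((j : ℕ) + 1) : ℕ) : ℤ) ∣ n - n') :
    ((pt Q n i : Fin _) : ℕ) % (i : ℕ) ^ ((j : ℕ) + 1) = ((pt Q n' i : Fin _) : ℕ) % (i : ℕ) ^ ((j : ℕ) + 1) := by
  have hj := j.2
  have h1 := pt_coord (Q := Q) n i
  have h2 := pt_coord (Q := Q) n' i
  have hd : (((i : ℕ) ^ ((j : ℕ) + 1) : ℕ) : ℤ) ∣ (((i : ℕ) ^ Q : ℕ) : ℤ) := by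
    exact_mod_cast pow_dvd_pow (i : ℕ) (by omega : (j : ℕ) + 1 ≤ Q)
  have h3 : (((i : ℕ) ^ ((j : ℕ) + 1) : ℕ) : ℤ) ∣ (((pt Q n' i : Fin _) : ℕ) : ℤ) - (((pt Q n i : Fin _) : ℕ) : ℤ) := by
    have e : (((pt Q n' i : Fin _) : ℕ) : ℤ) - (((pt Q n i : Fin _) : ℕ) : ℤ)
        = (n - (((pt Q n i : Fin _) : ℕ) : ℤ)) - (n' - (((pt Q n' i : Fin _) : ℕ) : ℤ)) - (n - n') := by ring
    rw [e]
    exact dvd_sub (dvd_sub (hd.trans h1) (hd.trans h2)) h
  exact Nat.modEq_iff_dvd.2 h3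

/-- the projections are functions of the conductor -/
lemma op_DM_congr {Q : ℕ} (τ : Ix Q → Option (Fin Q)) (u : (∀ i, Om Q i) → ℝ) (n n' : ℤ)
    (h : (cond τ : ℤ) ∣ n - n') :
    op (fun i => DM (Dp Q i) (τ i)) u (pt Q n) = op (fun i => DM (Dp Q i) (τ i)) u (pt Q n') := by
  unfold op
  refine Finset.sum_congr rfl fun y _ => ?_
  congr 1
  refine Finset.prod_congr rfl fun i _ => ?_
  show DM (Dp Q i) (τ i) (pt Q n i) (y i) = DM (Dp Q i) (τ i) (pt Q n' i) (y i)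
  rcases hi : τ i with _ | j
  · simp [DM, Ker.E]
  · simp only [DM, Option.elim_some, Dp]
    refine DD_congr j _ _ (pt_mod n n' i j ?_) (y i)
    refine dvd_trans ?_ h
    have h1 : (τ i).elim 1 (fun j => (i : ℕ) ^ ((j : ℕ) + 1)) ∣ cond τ :=
      Finset.dvd_prod_of_mem (fun i => (τ i).elim 1 (fun j => (i : ℕ) ^ ((j : ℕ) + 1))) (Finset.mem_univ i)
    rw [hi] at h1
    simp only [Option.elim_some] at h1
    exact_mod_cast h1

lemma level_WW {Q : ℕ} (hQ : 1 ≤ Q) (u : (∀ i, Om Q i) → ℝ) :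
    HasLevel Q (fun n => WW Q (Real.log Q) u (pt Q n)) := by
  classical
  refine ⟨fun q r => ∑ τ ∈ (Finset.univ.filter (fun τ : Ix Q → Option (Fin Q) => cs (om Q) τ ≤ Real.log Q)).filter
    (fun τ => cond τ = q), op (fun i => DM (Dp Q i) (τ i)) u (pt Q r), fun n => ?_⟩
  simp only [WW, Finset.sum_apply]
  have h1 : ∀ τ ∈ Finset.univ.filter (fun τ : Ix Q → Option (Fin Q) => cs (om Q) τ ≤ Real.log Q),
      cond τ ∈ Finset.Icc 1 Q := by
    intro τ hτ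
    have h2 := (Finset.mem_filter.1 hτ).2
    rw [cs_eq] at h2
    rw [Finset.mem_Icc]
    refine ⟨cond_pos τ, ?_⟩
    have h3 : (0 : ℝ) < (cond τ : ℝ) := by exact_mod_cast cond_pos τ
    have h4 : (0 : ℝ) < (Q : ℝ) := by exact_mod_cast hQ
    have h5 := (Real.log_le_log_iff h3 h4).1 h2
    exact_mod_cast h5
  rw [← Finset.sum_fiberwise_of_maps_to h1]
  refine Finset.sum_congr rfl fun q hq => Finset.sum_congr rfl fun τ hτ => ?_
  refine op_DM_congr τ u n _ ?_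
  rw [(Finset.mem_filter.1 hτ).2]
  exact Int.dvd_self_sub_emod

/-- function on the product space given by a finite sequence -/
noncomputable def push (Q : ℕ) (x : ℤ) (N : ℕ) (f : ℤ → ℝ) : (∀ i, Om Q i) → ℝ :=
  fun y => ∑ j ∈ Finset.range N, if pt Q (x + j) = y then f (x + j) else 0

lemma ip_push {Q : ℕ} (x : ℤ) (N : ℕ) (f : ℤ → ℝ) (F : (∀ i, Om Q i) → ℝ) :
    ip F (push Q x N f) = ∑ j ∈ Finset.range N, F (pt Q (x + j)) * f (x + j) := by
  unfold ip push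
  simp only [Finset.mul_sum]
  rw [Finset.sum_comm]
  refine Finset.sum_congr rfl fun j _ => ?_
  simp only [mul_ite, mul_zero]
  rw [Finset.sum_ite_eq Finset.univ (pt Q (x + j)) (fun y => F y * f (x + j)), if_pos (Finset.mem_univ _)]

/-- the error term -/
noncomputable def Er (R : ℕ) : ℝ := (R : ℝ) ^ 2 * (1 + Real.log ((R : ℝ) ^ 2))

lemma Er_nonneg {R : ℕ} (hR : 1 ≤ R) : 0 ≤ Er R := by
  have h1 : (1 : ℝ) ≤ (R : ℝ) ^ 2 := one_le_pow₀ (by exact_mod_cast hR)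
  have := Real.log_nonneg h1
  unfold Er; positivity

theorem nQ_le {Q : ℕ} (hQ : 1 ≤ Q) (x : ℤ) (N : ℕ) (f : ℤ → ℝ) :
    (MM Q : ℝ) * nQ (om Q) (Dp Q) (Real.log Q) (push Q x N f) ≤ (N + Er Q) *
      ∑ j ∈ Finset.range N, f (x + j) ^ 2 := by
  set u := push Q x N f with hu
  set n := nQ (om Q) (Dp Q) (Real.log Q) u with hn
  set W : ℤ → ℝ := fun m => WW Q (Real.log Q) u (pt Q m) with hW
  have hM0 : (0 : ℝ) < MM Q := by exact_mod_cast MM_pos Q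
  have hE := Er_nonneg hQ
  have hf0 : 0 ≤ ∑ j ∈ Finset.range N, f (x + j) ^ 2 := Finset.sum_nonneg fun _ _ => sq_nonneg _
  have hn0 : 0 ≤ n := by rw [hn, ← ip_WW_WW]; exact ip_self_nonneg _
  have h1 : n = ∑ j ∈ Finset.range N, W (x + j) * f (x + j) := by
    rw [hn, ← ip_WW_u, hu, ip_push]
  have h2 : ∑ m ∈ Finset.range (MM Q), W m ^ 2 = n := by
    rw [hn, ← ip_WW_WW, ip, sum_rep]
    exact Finset.sum_congr rfl fun m _ => by simp only [hW]; ring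
  have h3 := LS.large_sieve (MM_pos Q) hQ (fun q hq => dvd_MM hq) (level_WW hQ u) x N
  have h4 := (abs_le.1 h3).2
  have h2' : ∑ n_1 ∈ Finset.range (MM Q), (fun n => WW Q (Real.log Q) u (pt Q n)) (n_1 : ℤ) ^ 2 = n := h2
  rw [h2'] at h4
  have h5 : (MM Q : ℝ) * ∑ j ∈ Finset.range N, W (x + j) ^ 2 ≤ (N + Er Q) * n := by
    have h6 : (MM Q : ℝ) * ∑ j ∈ Finset.range N, W (x + j) ^ 2 - N * n ≤ Er Q * n := h4
    linarith
  have h6 : n ^ 2 ≤ (∑ j ∈ Finset.range N, W (x + j) ^ 2) * ∑ j ∈ Finset.range N, f (x + j) ^ 2 := by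
    rw [h1]
    exact Finset.sum_mul_sq_le_sq_mul_sq _ _ _
  rcases hn0.eq_or_lt with h7 | h7
  · rw [← h7, mul_zero]
    exact mul_nonneg (by positivity) hf0
  · have h8 : (MM Q : ℝ) * n * n ≤ ((N + Er Q) * ∑ j ∈ Finset.range N, f (x + j) ^ 2) * n := by
      calc (MM Q : ℝ) * n * n = MM Q * n ^ 2 := by ring
        _ ≤ MM Q * ((∑ j ∈ Finset.range N, W (x + j) ^ 2) * ∑ j ∈ Finset.range N, f (x + j) ^ 2) :=
            mul_le_mul_of_nonneg_left h6 hM0.le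
        _ = (MM Q * ∑ j ∈ Finset.range N, W (x + j) ^ 2) * ∑ j ∈ Finset.range N, f (x + j) ^ 2 := by ring
        _ ≤ ((N + Er Q) * n) * ∑ j ∈ Finset.range N, f (x + j) ^ 2 :=
            mul_le_mul_of_nonneg_right h5 hf0
        _ = _ := by ring
    exact le_of_mul_le_mul_right h8 h7

end Run7.h52.Sp
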