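import Pool.Agent.Run7.h52.CoreB
import Pool.Agent.Run7.h52.Count2
import Pool.Agent.Run7.h52.Abel

set_option autoImplicit false
set_option linter.unusedSectionVars false

namespace Run7.h52.Sums

open Finset Run7.h52.Op Run7.h52.Core Run7.h52.CoreA Run7.h52.Count

/-- the product space -/
abbrev Om (P : Finset ℕ) : {p // p ∈ P} → Type := fun i => Fin (i : ℕ)

lemma pp_Om (P : Finset ℕ) (i : {p // p ∈ P}) : pp (Om P) i = ((i : ℕ) : ℝ) := by simp [pp]

/-- the set of primes of a labelling -/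
def sset {P : Finset ℕ} (τ : {p // p ∈ P} → Bool) : Finset ℕ :=
  (Finset.univ.filter fun i => τ i = true).image (fun i : {p // p ∈ P} => (i : ℕ))

lemma prod_sset {P : Finset ℕ} (τ : {p // p ∈ P} → Bool) (f : ℕ → ℝ) :
    ∏ p ∈ sset τ, f p = ∏ i, if τ i = true then f (i : ℕ) else 1 := by
  rw [sset, Finset.prod_image (fun i _ j _ h => Subtype.ext h), Finset.prod_filter]

lemma gg_eq {P : Finset ℕ} (τ : {p // p ∈ P} → Bool) : gg (Om P) τ = g (sset τ) := by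
  rw [g, prod_sset, gg]
  simp only [pp_Om]

lemma uu'_eq {P : Finset ℕ} (hP : ∀ p ∈ P, p.Prime) (τ : {p // p ∈ P} → Bool) :
    uu' (Om P) τ = Real.log ((∏ p ∈ sset τ, p : ℕ) : ℝ) := by
  push_cast
  rw [Real.log_prod]
  · rw [sset, Finset.sum_image (fun i _ j _ h => Subtype.ext h), Finset.sum_filter, uu']
    simp only [pp_Om]
  · intro p hp
    rw [sset, Finset.mem_image] at hp
    obtain ⟨i, _, rfl⟩ := hp
    exact_mod_cast (hP i i.2).ne_zero

lemma sset_inj {P : Finset ℕ} : Function.Injective (sset (P := P)) := by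
  intro τ σ h
  funext i
  have : ∀ τ : {p // p ∈ P} → Bool, ((i : ℕ) ∈ sset τ) ↔ τ i = true := by
    intro τ
    rw [sset, Finset.mem_image]
    constructor
    · rintro ⟨j, hj, hji⟩
      rw [Finset.mem_filter] at hj
      have : j = i := Subtype.ext hji
      rw [← this]; exact hj.2
    · intro hi
      exact ⟨i, Finset.mem_filter.2 ⟨Finset.mem_univ _, hi⟩, rfl⟩
  have h1 := this τ
  have h2 := this σ
  rw [h] at h1
  rw [Bool.eq_iff_iff]
  exact h1.symm.trans h2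

lemma sset_sub {P : Finset ℕ} (τ : {p // p ∈ P} → Bool) : sset τ ⊆ P := by
  intro p hp
  rw [sset, Finset.mem_image] at hp
  obtain ⟨i, _, rfl⟩ := hp
  exact i.2

lemma g_nonneg {P : Finset ℕ} (hP : ∀ p ∈ P, p.Prime) {s : Finset ℕ} (hs : s ⊆ P) : 0 ≤ g s := by
  refine Finset.prod_nonneg fun p hp => ?_
  have : (2 : ℝ) ≤ p := by exact_mod_cast (hP p (hs hp)).two_le
  exact div_nonneg zero_le_one (by linarith)

lemma sum_gg_le {P : Finset ℕ} (hP : ∀ p ∈ P, p.Prime) {t : ℝ} (ht : 0 ≤ t) :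
    ∑ τ ∈ Finset.univ.filter (fun τ : {p // p ∈ P} → Bool => uu' (Om P) τ ≤ t), gg (Om P) τ
      ≤ ∑ s ∈ FF P ⌊Real.exp t⌋₊, g s := by
  simp only [gg_eq]
  rw [← Finset.sum_image (f := g) (fun τ _ σ _ h => sset_inj h)]
  refine Finset.sum_le_sum_of_subset_of_nonneg ?_ (fun s hs _ => ?_)
  · intro s hs
    rw [Finset.mem_image] at hs
    obtain ⟨τ, hτ, rfl⟩ := hs
    rw [Finset.mem_filter] at hτ
    rw [FF, Finset.mem_filter, Finset.mem_powerset]
    refine ⟨sset_sub τ, ?_⟩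
    have h1 := hτ.2
    rw [uu'_eq hP] at h1
    have hpos : 0 < ∏ p ∈ sset τ, p := Finset.prod_pos fun p hp => (hP p (sset_sub τ hp)).pos
    rw [Real.log_le_iff_le_exp (by exact_mod_cast hpos)] at h1
    exact Nat.le_floor h1
  · rw [FF, Finset.mem_filter, Finset.mem_powerset] at hs
    exact g_nonneg hP hs.1

/-- cumulative bound, all `t ≥ 0` -/
theorem cum_le : ∀ ε : ℝ, 0 < ε → ∃ A y₀ : ℕ, 1 ≤ A ∧ 3 ≤ y₀ ∧ ∀ y : ℕ, y₀ ≤ y → ∀ P : Finset ℕ,
    (∀ p ∈ P, p.Prime ∧ y < p) → ∀ t : ℝ, 0 ≤ t →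
    ∑ τ ∈ Finset.univ.filter (fun τ : {p // p ∈ P} → Bool => uu' (Om P) τ ≤ t), gg (Om P) τ
      ≤ (1 + ε) * W y * (t + A * Real.log y) := by
  intro ε hε
  obtain ⟨A, y₀, hA, hy₀, h⟩ := G_le ε hε
  refine ⟨A, y₀, hA, hy₀, fun y hy P hP t ht => ?_⟩
  have h1 : 1 ≤ ⌊Real.exp t⌋₊ := by
    apply Nat.le_floor
    have := Real.add_one_le_exp t
    push_cast; linarith
  refine (sum_gg_le (fun p hp => (hP p hp).1) ht).trans ((h y hy P hP _ h1).trans ?_)
  refine mul_le_mul_of_nonneg_left ?_ (mul_nonneg (by linarith) (W_pos y).le)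
  have h2 : Real.log (⌊Real.exp t⌋₊ : ℝ) ≤ t := by
    have h3 : (⌊Real.exp t⌋₊ : ℝ) ≤ Real.exp t := Nat.floor_le (Real.exp_pos t).le
    have h4 := Real.log_le_log (by exact_mod_cast h1) h3
    rwa [Real.log_exp] at h4
  linarith

lemma gg_nonneg {P : Finset ℕ} (hP : ∀ p ∈ P, p.Prime) (τ : {p // p ∈ P} → Bool) :
    0 ≤ gg (Om P) τ := by rw [gg_eq]; exact g_nonneg hP (sset_sub τ)

/-- bound of the sum in Theorem A -/
theorem BB_le : ∀ ε : ℝ, 0 < ε → ∃ A y₀ : ℕ, 1 ≤ A ∧ 3 ≤ y₀ ∧ ∀ y : ℕ, y₀ ≤ y → ∀ P : Finset ℕ,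
    (∀ p ∈ P, p.Prime ∧ y < p) → ∀ L : ℝ, Real.log y ≤ L →
    BB (Om P) L ≤ (1 + ε) * W y * (1 + A + Real.log (L / Real.log y)) := by
  intro ε hε
  obtain ⟨A, y₀, hA, hy₀, h⟩ := cum_le ε hε
  refine ⟨A, y₀, hA, hy₀, fun y hy P hP L hL => ?_⟩
  have hy1 : (1 : ℝ) < y := by exact_mod_cast (by omega : 1 < y)
  have hly : 0 < Real.log y := Real.log_pos hy1
  have hPp : ∀ p ∈ P, p.Prime := fun p hp => (hP p hp).1
  have hBB : BB (Om P) L = ∑ τ ∈ Finset.univ.filter (fun τ : {p // p ∈ P} → Bool =>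
      τ ≠ (fun _ => false) ∧ uu' (Om P) τ ≤ L), gg (Om P) τ / uu' (Om P) τ := by
    rw [BB, Finset.sum_filter]
  rw [hBB]
  have hlam : ∀ i : {p // p ∈ P}, Real.log y ≤ Real.log (pp (Om P) i) := by
    intro i
    rw [pp_Om]
    exact Real.log_le_log (by linarith) (by exact_mod_cast (hP i i.2).2.le)
  have h1 := Run7.h52.Abel.abel_one (Finset.univ.filter (fun τ : {p // p ∈ P} → Bool =>
      τ ≠ (fun _ => false) ∧ uu' (Om P) τ ≤ L)) (gg (Om P)) (uu' (Om P))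
      (fun τ _ => gg_nonneg hPp τ) (lo := Real.log y) (v := L) (c := (1 + ε) * W y)
      (D := A * Real.log y) hly hL (mul_nonneg (by linarith) (W_pos y).le) (by positivity)
      (fun τ hτ => by
        rw [Finset.mem_filter] at hτ
        exact ⟨uu'_lower hlam hly τ hτ.2.1, hτ.2.2⟩)
      (fun t ht => by
        refine le_trans ?_ (h y hy P hP t (hly.le.trans ht.1))
        refine Finset.sum_le_sum_of_subset_of_nonneg ?_ (fun τ _ _ => gg_nonneg hPp τ)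
        intro τ hτ
        simp only [Finset.mem_filter, Finset.mem_univ, true_and] at hτ ⊢
        exact hτ.2)
  refine h1.trans (le_of_eq ?_)
  congr 1
  field_simp
  ring

/-- bound of the sum in Theorem B -/
theorem sumB_le : ∀ ε : ℝ, 0 < ε → ∃ A y₀ : ℕ, 1 ≤ A ∧ 3 ≤ y₀ ∧ ∀ y : ℕ, y₀ ≤ y → ∀ P : Finset ℕ,
    (∀ p ∈ P, p.Prime ∧ y < p) → ∀ v a m : ℝ, 0 ≤ v → 0 < a → v ≤ a → 0 < m →
    ∑ τ : {p // p ∈ P} → Bool, (if uu' (Om P) τ ≤ v then gg (Om P) τ / (a + m * uu' (Om P) τ) else 0)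
      ≤ (1 + ε) * W y * (Real.log (1 + m) / m + A * Real.log y / a) := by
  intro ε hε
  obtain ⟨A, y₀, hA, hy₀, h⟩ := cum_le ε hε
  refine ⟨A, y₀, hA, hy₀, fun y hy P hP v a m hv ha hva hm => ?_⟩
  have hy1 : (1 : ℝ) < y := by exact_mod_cast (by omega : 1 < y)
  have hly : 0 < Real.log y := Real.log_pos hy1
  have hPp : ∀ p ∈ P, p.Prime := fun p hp => (hP p hp).1
  rw [← Finset.sum_filter]
  refine Run7.h52.Abel.abel_two (Finset.univ.filter (fun τ : {p // p ∈ P} → Bool =>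
      uu' (Om P) τ ≤ v)) (gg (Om P)) (uu' (Om P))
      (fun τ _ => gg_nonneg hPp τ) hv ha hva hm (mul_nonneg (by linarith) (W_pos y).le) (by positivity)
      (fun τ hτ => ⟨?_, (Finset.mem_filter.1 hτ).2⟩)
      (fun t ht => ?_)
  · unfold uu'
    refine Finset.sum_nonneg fun i _ => ?_
    split_ifs
    · rw [pp_Om]
      exact Real.log_nonneg (by exact_mod_cast (hP i i.2).1.one_lt.le)
    · exact le_rfl
  · refine le_trans ?_ (h y hy P hP t ht.1)
    refine Finset.sum_le_sum_of_subset_of_nonneg ?_ (fun τ _ _ => gg_nonneg hPp τ)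
    intro τ hτ
    simp only [Finset.mem_filter, Finset.mem_univ, true_and] at hτ ⊢
    exact hτ.2

end Run7.h52.Sums
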