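import Pool.Agent.Run7.h52.Core

set_option autoImplicit false
set_option linter.unusedSectionVars false

namespace Run7.h52.Transfer

open Finset Run7.h52.Op Run7.h52.Core

lemma exists_e (M : ℕ) (hM : 0 < M) (p : ℕ) (hp : p.Prime) :
    ∃ e : ℤ, (p : ℤ) ∣ e - 1 ∧ ∀ q : ℕ, q ∣ M → ¬ p ∣ q → (q : ℤ) ∣ e := by
  have hco := Nat.coprime_ordCompl hp hM.ne'
  obtain ⟨k, hk1, hk2⟩ := Nat.chineseRemainder hco 1 0
  refine ⟨k, ?_, fun q hq hpq => ?_⟩
  · have := (Nat.modEq_iff_dvd.1 hk1.symm)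
    exact_mod_cast this
  · have h1 : (M / p ^ M.factorization p) ∣ k := (Nat.modEq_zero_iff_dvd).1 hk2
    have h2 : q ∣ M / p ^ M.factorization p := by
      have h3 : q ∣ p ^ M.factorization p * (M / p ^ M.factorization p) := by
        rwa [Nat.ordProj_mul_ordCompl_eq_self]
      refine Nat.Coprime.dvd_of_dvd_mul_left ?_ h3
      exact ((Nat.Prime.coprime_iff_not_dvd hp).2 hpq).symm.pow_right _
    exact_mod_cast h2.trans h1

/-- shifts of `n` which realise all choices of residues -/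
lemma exists_shift (M : ℕ) (hM : 0 < M) (P : Finset ℕ) (hP : ∀ p ∈ P, p.Prime ∧ p ∣ M) :
    ∃ m : (∀ i : {p // p ∈ P}, Fin (i : ℕ)) → ℤ,
      (∀ x (i : {p // p ∈ P}), ((i : ℕ) : ℤ) ∣ m x - ((x i : ℕ) : ℤ)) ∧
      (∀ x, ∀ q : ℕ, q ∣ M → (∀ i : {p // p ∈ P}, ¬ (i : ℕ) ∣ q) → (q : ℤ) ∣ m x) ∧
      (∀ x (i : {p // p ∈ P}) (a : Fin (i : ℕ)), ∀ q : ℕ, q ∣ M → ¬ (i : ℕ) ∣ q →
        (q : ℤ) ∣ m (Function.update x i a) - m x) := by
  choose e he1 he2 using fun i : {p // p ∈ P} => exists_e M hM (i : ℕ) (hP i i.2).1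
  refine ⟨fun x => ∑ i, ((x i : ℕ) : ℤ) * e i, fun x i => ?_, fun x q hq h => ?_,
    fun x i a q hq h => ?_⟩
  · have h1 : ∑ j, ((x j : ℕ) : ℤ) * e j - ((x i : ℕ) : ℤ) = ((x i : ℕ) : ℤ) * (e i - 1)
        + ∑ j ∈ Finset.univ.erase i, ((x j : ℕ) : ℤ) * e j := by
      rw [← Finset.add_sum_erase _ _ (Finset.mem_univ i)]; ring
    rw [h1]
    refine dvd_add ((he1 i).mul_left _) (Finset.dvd_sum fun j hj => Dvd.dvd.mul_left ?_ _)
    refine he2 j (i : ℕ) (hP i i.2).2 fun hd => ?_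
    have h2 := (Nat.prime_dvd_prime_iff_eq (hP j j.2).1 (hP i i.2).1).1 hd
    exact (Finset.ne_of_mem_erase hj) (Subtype.ext h2)
  · exact Finset.dvd_sum fun j _ => Dvd.dvd.mul_left (he2 j q hq (h j)) _
  · have h1 : ∑ j, (((Function.update x i a) j : ℕ) : ℤ) * e j - ∑ j, ((x j : ℕ) : ℤ) * e j
        = (((a : ℕ) : ℤ) - ((x i : ℕ) : ℤ)) * e i := by
      rw [← Finset.sum_sub_distrib, ← Finset.add_sum_erase _ _ (Finset.mem_univ i),
        Function.update_self, Finset.sum_eq_zero]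
      · ring
      · intro j hj
        rw [Function.update_of_ne (Finset.ne_of_mem_erase hj)]; ring
    rw [h1]
    exact (he2 i q hq h).mul_left _

lemma sum_shift (M : ℕ) (f : ℤ → ℝ) (hf : ∀ n, f (n + M) = f n) (m : ℤ) :
    ∑ n ∈ Finset.range M, f (n + m) = ∑ n ∈ Finset.range M, f n := by
  have h1 : ∀ m : ℤ, ∑ n ∈ Finset.range M, f (n + (m + 1)) = ∑ n ∈ Finset.range M, f (n + m) := by
    intro m
    have h2 := Finset.sum_range_succ (fun n : ℕ => f (n + m)) M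
    have h3 := Finset.sum_range_succ' (fun n : ℕ => f (n + m)) M
    rw [h2] at h3
    have h4 : f ((M : ℤ) + m) = f (((0 : ℕ) : ℤ) + m) := by
      rw [add_comm, hf]; simp
    simp only [h4] at h3
    have h5 := add_right_cancel h3
    rw [h5]
    refine Finset.sum_congr rfl fun n _ => ?_
    congr 1
    push_cast; ring
  induction m using Int.induction_on with
  | zero => simp
  | succ i ih => rw [h1]; exact ih
  | pred i ih =>
    have := h1 (-(i : ℤ) - 1)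
    rw [sub_add_cancel] at this
    rw [← this]; exact ih

/-- level of a function on the integers -/
def HasLevel (R : ℕ) (V : ℤ → ℝ) : Prop :=
  ∃ c : ℕ → ℤ → ℝ, ∀ n : ℤ, V n = ∑ q ∈ Finset.Icc 1 R, c q (n % (q : ℤ))

lemma lev_of_level {M : ℕ} {P : Finset ℕ} (hP : ∀ p ∈ P, p.Prime)
    (m : (∀ i : {p // p ∈ P}, Fin (i : ℕ)) → ℤ)
    (hm : ∀ x (i : {p // p ∈ P}) (a : Fin (i : ℕ)), ∀ q : ℕ, q ∣ M → ¬ (i : ℕ) ∣ q →
      (q : ℤ) ∣ m (Function.update x i a) - m x)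
    {R : ℕ} (hR : ∀ q ∈ Finset.Icc 1 R, q ∣ M) {V : ℤ → ℝ} (hV : HasLevel R V) (n : ℤ) {L : ℝ}
    (hL : Real.log R ≤ L) : Lev (Ω := fun i : {p // p ∈ P} => Fin (i : ℕ)) L (fun x => V (n + m x)) := by
  classical
  obtain ⟨c, hc⟩ := hV
  intro K s hK hs
  have h1 : (fun x => V (n + m x)) = ∑ q ∈ Finset.Icc 1 R, fun x => c q ((n + m x) % (q : ℤ)) := by
    funext x
    rw [Finset.sum_apply, hc]
  rw [h1, Op.op_sum]
  refine Finset.sum_eq_zero fun q hq => ?_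
  have hq' := Finset.mem_Icc.1 hq
  have h2 : ∃ i ∈ s, ¬ (i : ℕ) ∣ q := by
    by_contra hcon
    push Not at hcon
    have h3 : (∏ i ∈ s, (i : ℕ)) ∣ q := by
      have h0 : ∏ p ∈ s.image (fun i : {p // p ∈ P} => (i : ℕ)), p = ∏ i ∈ s, (i : ℕ) :=
        Finset.prod_image (fun i _ j _ h => Subtype.ext h)
      rw [← h0]
      refine Finset.prod_primes_dvd q ?_ ?_
      · intro p hp
        rw [Finset.mem_image] at hp
        obtain ⟨i, _, rfl⟩ := hp
        exact (hP i i.2).prime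
      · intro p hp
        rw [Finset.mem_image] at hp
        obtain ⟨i, hi, rfl⟩ := hp
        exact hcon i hi
    have h4 : (∏ i ∈ s, (i : ℕ)) ≤ R := (Nat.le_of_dvd (by omega) h3).trans hq'.2
    have h5 : ∑ i ∈ s, Real.log (pp (fun i : {p // p ∈ P} => Fin (i : ℕ)) i)
        = Real.log ((∏ i ∈ s, (i : ℕ) : ℕ) : ℝ) := by
      push_cast
      rw [Real.log_prod]
      · refine Finset.sum_congr rfl fun i _ => ?_
        simp [pp]
      · intro i _
        exact_mod_cast (hP i i.2).ne_zero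
    rw [h5] at hs
    have h60 : 0 < ∏ i ∈ s, (i : ℕ) := Finset.prod_pos fun i _ => (hP i i.2).pos
    have h6 : (0 : ℝ) < ((∏ i ∈ s, (i : ℕ) : ℕ) : ℝ) := by exact_mod_cast h60
    have h7 := Real.log_le_log h6 (by exact_mod_cast h4 : ((∏ i ∈ s, (i : ℕ) : ℕ) : ℝ) ≤ (R : ℝ))
    linarith
  obtain ⟨i, hi, hiq⟩ := h2
  refine op_eq_zero K _ i (hK i hi) fun x a => ?_
  have h3 := hm x i a q (hR q hq) hiq
  have h4 : (n + m (Function.update x i a)) % (q : ℤ) = (n + m x) % (q : ℤ) := by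
    have h6 : (q : ℤ) ∣ (n + m x) - (n + m (Function.update x i a)) := by
      have h5 : (n + m x) - (n + m (Function.update x i a)) = -(m (Function.update x i a) - m x) := by ring
      rw [h5]; exact (dvd_neg).2 h3
    exact (Int.modEq_iff_dvd.2 h6)
  simp only [h4]

lemma level_periodic {R M : ℕ} (hR : ∀ q ∈ Finset.Icc 1 R, q ∣ M) {V : ℤ → ℝ}
    (hV : HasLevel R V) (n : ℤ) : V (n + M) = V n := by
  obtain ⟨c, hc⟩ := hV
  rw [hc, hc]
  refine Finset.sum_congr rfl fun q hq => ?_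
  have h1 : (q : ℤ) ∣ (M : ℤ) := by exact_mod_cast hR q hq
  rw [Int.add_emod, Int.emod_eq_zero_of_dvd h1, add_zero, Int.emod_emod_of_dvd _ dvd_rfl]

/-- the class of `z` as an element of `Fin p` -/
def cls {p : ℕ} (hp : 0 < p) (z : ℤ) : Fin p :=
  ⟨(z % (p : ℤ)).toNat, by
    have h1 := Int.emod_nonneg z (by exact_mod_cast hp.ne' : (p : ℤ) ≠ 0)
    have h2 := Int.emod_lt_of_pos z (by exact_mod_cast hp : (0 : ℤ) < (p : ℤ))
    omega⟩

lemma eq_cls {p : ℕ} (hp : 0 < p) (z : ℤ) (x : Fin p) : x = cls hp z ↔ (p : ℤ) ∣ z - ((x : ℕ) : ℤ) := by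
  have h1 := Int.emod_nonneg z (by exact_mod_cast hp.ne' : (p : ℤ) ≠ 0)
  have h3 := x.2
  constructor
  · rintro rfl
    simp only [cls]
    rw [Int.toNat_of_nonneg h1]
    exact Int.dvd_self_sub_of_emod_eq rfl
  · intro h
    apply Fin.ext
    simp only [cls]
    have h4 : z % (p : ℤ) = ((x : ℕ) : ℤ) % (p : ℤ) := (Int.modEq_iff_dvd.2 h).symm
    rw [h4, Int.emod_eq_of_lt (by omega) (by omega)]
    simp

end Run7.h52.Transfer
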