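import Pool.Agent.Run7.h52.Ker

set_option autoImplicit false
set_option linter.unusedSectionVars false

namespace Run7.h52.U1

open Finset Run7.h52.Ker

variable {α : Type} [Fintype α] [DecidableEq α]

/-- functions of mean zero supported off `K` -/
noncomputable def PK (K : Finset α) : Matrix α α ℝ :=
  fun x y => if x ∈ K ∨ y ∈ K then 0 else
    (if x = y then 1 else 0) - 1 / ((Fintype.card α : ℝ) - K.card)

/-- indicator of `K` -/
def IK (K : Finset α) : Matrix α α ℝ := Matrix.diagonal fun x => if x ∈ K then 1 else 0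

/-- constants and functions of mean zero supported off `K` -/
noncomputable def NK (K : Finset α) : Matrix α α ℝ := E α + PK K

/-- the complement -/
noncomputable def QK (K : Finset α) : Matrix α α ℝ := 1 - (E α + PK K)

lemma PK_transpose (K : Finset α) : (PK K).transpose = PK K := by
  ext x y
  simp only [Matrix.transpose_apply, PK, or_comm, eq_comm]

section
variable {K : Finset α} (hK : K.card < Fintype.card α)
include hK

lemma cpos : 0 < (Fintype.card α : ℝ) - K.card := by
  have : (K.card : ℝ) < Fintype.card α := by exact_mod_cast hK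
  linarith

lemma npos : 0 < (Fintype.card α : ℝ) := by
  have : 0 < Fintype.card α := by omega
  exact_mod_cast this

lemma sum_off (c : ℝ) : ∑ y : α, (if y ∈ K then 0 else c) = ((Fintype.card α : ℝ) - K.card) * c := by
  have h1 : ∀ y : α, (if y ∈ K then 0 else c) = c - (if y ∈ K then c else 0) := fun y => by
    split_ifs <;> ring
  simp only [h1, Finset.sum_sub_distrib, Finset.sum_const, Finset.card_univ, nsmul_eq_mul]
  rw [← Finset.sum_filter, Finset.filter_mem_eq_inter, Finset.univ_inter, Finset.sum_const, nsmul_eq_mul]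
  ring

lemma sum_PK_row (x : α) : ∑ y, PK K x y = 0 := by
  have hc := cpos hK
  by_cases hx : x ∈ K
  · simp [PK, hx]
  · have h1 : ∀ y, PK K x y = (if y = x then 1 else 0) - (if y ∈ K then 0 else
        1 / ((Fintype.card α : ℝ) - K.card)) := by
      intro y
      unfold PK
      by_cases hy : y ∈ K
      · have hne : y ≠ x := fun h => hx (h ▸ hy)
        simp [hy, hne]
      · simp only [hx, hy, or_self, if_false, eq_comm]
    simp only [h1, Finset.sum_sub_distrib, Finset.sum_ite_eq', Finset.mem_univ, if_true]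
    rw [sum_off hK]
    field_simp
    ring

lemma PK_mul_E : PK K * E α = 0 := by
  ext x y
  simp only [Matrix.mul_apply, E, ← Finset.sum_mul, sum_PK_row hK, zero_mul, Matrix.zero_apply]

lemma E_mul_PK : E α * PK K = 0 := by
  have h := congrArg Matrix.transpose (PK_mul_E hK)
  rwa [Matrix.transpose_mul, PK_transpose, E_transpose, Matrix.transpose_zero] at h

lemma PK_mul_PK : PK K * PK K = PK K := by
  have hc := cpos hK
  ext x z
  rw [Matrix.mul_apply]
  by_cases hx : x ∈ K
  · simp [PK, hx]
  by_cases hz : z ∈ K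
  · simp [PK, hz]
  have h1 : ∀ y, PK K x y * PK K y z = (if y = x then PK K y z else 0) -
      (1 / ((Fintype.card α : ℝ) - K.card)) * PK K y z := by
    intro y
    by_cases hy : y ∈ K
    · simp [PK, hy]
    · by_cases hxy : y = x
      · subst hxy
        simp [PK, hy, hz]; ring
      · simp [PK, hy, hx, hz, hxy, Ne.symm hxy]
  simp only [h1, Finset.sum_sub_distrib, Finset.sum_ite_eq', Finset.mem_univ, if_true]
  rw [← Finset.mul_sum]
  have h2 : ∑ y, PK K y z = 0 := by
    have : ∀ y, PK K y z = PK K z y := fun y => by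
      have := congrFun (congrFun (PK_transpose K) z) y
      rwa [Matrix.transpose_apply] at this
    simp only [this]
    exact sum_PK_row hK z
  rw [h2, mul_zero, sub_zero]

lemma IK_mul_PK : IK K * PK K = 0 := by
  ext x y
  rw [IK, Matrix.diagonal_mul, Matrix.zero_apply]
  by_cases hx : x ∈ K
  · simp [PK, hx]
  · simp [hx]

lemma PK_mul_IK : PK K * IK K = 0 := by
  ext x y
  rw [IK, Matrix.mul_diagonal, Matrix.zero_apply]
  by_cases hy : y ∈ K
  · simp [PK, hy]
  · simp [hy]

lemma EE : E α * E α = E α := by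
  have : Nonempty α := Fintype.card_pos_iff.1 (by omega)
  exact E_mul_E

lemma E_IK_E : E α * IK K * E α = ((K.card : ℝ) / Fintype.card α) • E α := by
  have hn := npos hK
  ext x y
  rw [Matrix.mul_apply]
  simp only [IK, Matrix.mul_diagonal, E, Matrix.smul_apply, smul_eq_mul]
  rw [← Finset.sum_mul]
  have h1 : ∀ z : α, 1 / (Fintype.card α : ℝ) * (if z ∈ K then 1 else 0)
      = if z ∈ K then 1 / (Fintype.card α : ℝ) else 0 := fun z => by split_ifs <;> ring
  simp only [h1]
  rw [← Finset.sum_filter, Finset.filter_mem_eq_inter, Finset.univ_inter, Finset.sum_const, nsmul_eq_mul]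
  ring

lemma NK_transpose : (NK K).transpose = NK K := by
  rw [NK, Matrix.transpose_add, E_transpose, PK_transpose]

lemma NK_mul_NK : NK K * NK K = NK K := by
  rw [NK, add_mul, mul_add, mul_add, EE hK, E_mul_PK hK, PK_mul_E hK, PK_mul_PK hK]
  simp

lemma NK_IK_NK : NK K * IK K * NK K = ((K.card : ℝ) / Fintype.card α) • E α := by
  rw [NK, add_mul, PK_mul_IK hK, add_zero, mul_add, mul_assoc (E α) (IK K) (PK K), IK_mul_PK hK,
    mul_zero, add_zero, E_IK_E hK]

lemma QK_transpose : (QK K).transpose = QK K := by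
  rw [QK, Matrix.transpose_sub, Matrix.transpose_one, Matrix.transpose_add, E_transpose, PK_transpose]

lemma QK_mul_QK : QK K * QK K = QK K := by
  have h : QK K = 1 - NK K := rfl
  rw [h, sub_mul, mul_sub, mul_sub, NK_mul_NK hK]; simp

lemma sum_NK_row (x : α) : ∑ y, NK K x y = 1 := by
  simp only [NK, Matrix.add_apply, Finset.sum_add_distrib]
  rw [sum_E_row, sum_PK_row hK, add_zero]

lemma sum_NK_col (y : α) : ∑ x, NK K x y = 1 := by
  have : ∀ x, NK K x y = NK K y x := fun x => by
    have := congrFun (congrFun (NK_transpose hK) y) x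
    rwa [Matrix.transpose_apply] at this
  simp only [this]
  exact sum_NK_row hK y

/-- the quadratic form of `QK` -/
lemma QK_form (g : α → ℝ) (μ : ℝ) (hμ : (Fintype.card α : ℝ) * μ = ∑ x, g x) :
    ∑ x, ∑ y, g x * QK K x y * g y ≤ ((Fintype.card α : ℝ) / ((Fintype.card α : ℝ) - K.card)) *
      ∑ x ∈ K, (g x - μ) ^ 2 := by
  have hc := cpos hK
  have hn := npos hK
  set n : ℝ := (Fintype.card α : ℝ) with hn'
  set k : ℝ := (K.card : ℝ) with hk
  set S1 := ∑ x ∈ K, g x with hS1
  set S2 := ∑ x ∈ K, g x ^ 2 with hS2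
  set T2 := ∑ x, g x ^ 2 with hT2
  have h1 : ∑ x, ∑ y, g x * (1 : Matrix α α ℝ) x y * g y = T2 := by
    refine Finset.sum_congr rfl fun x _ => ?_
    simp only [Matrix.one_apply, mul_ite, mul_one, mul_zero, ite_mul, zero_mul,
      Finset.sum_ite_eq, Finset.mem_univ, if_true]
    ring
  have h2 : ∑ x, ∑ y, g x * E α x y * g y = (n * μ) ^ 2 / n := by
    rw [hμ, pow_two, Finset.sum_mul_sum, Finset.sum_div]
    refine Finset.sum_congr rfl fun x _ => ?_
    rw [Finset.sum_div]
    refine Finset.sum_congr rfl fun y _ => ?_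
    rw [E]; ring
  set off : α → ℝ := fun x => if x ∈ K then 0 else g x with hoff
  have hoff1 : ∑ x, off x = n * μ - S1 := by
    have h3 : ∀ x, off x = g x - (if x ∈ K then g x else 0) := fun x => by
      simp only [hoff]; split_ifs <;> ring
    simp only [h3, Finset.sum_sub_distrib]
    rw [← Finset.sum_filter, Finset.filter_mem_eq_inter, Finset.univ_inter, ← hμ]
  have hoff2 : ∑ x, off x ^ 2 = T2 - S2 := by
    have h3 : ∀ x, off x ^ 2 = g x ^ 2 - (if x ∈ K then g x ^ 2 else 0) := fun x => by
      simp only [hoff]; split_ifs <;> ring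
    simp only [h3, Finset.sum_sub_distrib]
    rw [← Finset.sum_filter, Finset.filter_mem_eq_inter, Finset.univ_inter]
  have h3 : ∑ x, ∑ y, g x * PK K x y * g y = (T2 - S2) - (n * μ - S1) ^ 2 / (n - k) := by
    have h4 : ∀ x y, g x * PK K x y * g y = off x * (1 : Matrix α α ℝ) x y * off y
        - off x * off y / (n - k) := by
      intro x y
      simp only [hoff, PK, Matrix.one_apply]
      by_cases hx : x ∈ K
      · simp [hx]
      · by_cases hy : y ∈ K
        · simp [hy]
        · simp only [hx, hy, or_self, if_false]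
          ring
    simp only [h4, Finset.sum_sub_distrib]
    congr 1
    · rw [← hoff2]
      refine Finset.sum_congr rfl fun x _ => ?_
      simp only [Matrix.one_apply, mul_ite, mul_one, mul_zero, ite_mul, zero_mul,
        Finset.sum_ite_eq, Finset.mem_univ, if_true]
      ring
    · rw [← hoff1, pow_two, Finset.sum_mul_sum, Finset.sum_div]
      refine Finset.sum_congr rfl fun x _ => ?_
      rw [Finset.sum_div]
  have h5 : ∑ x, ∑ y, g x * QK K x y * g y = T2 - (n * μ) ^ 2 / n
      - ((T2 - S2) - (n * μ - S1) ^ 2 / (n - k)) := by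
    have e : ∑ x, ∑ y, g x * QK K x y * g y = ∑ x, ∑ y, g x * (1 : Matrix α α ℝ) x y * g y
        - ∑ x, ∑ y, g x * E α x y * g y - ∑ x, ∑ y, g x * PK K x y * g y := by
      rw [← Finset.sum_sub_distrib, ← Finset.sum_sub_distrib]
      refine Finset.sum_congr rfl fun x _ => ?_
      rw [← Finset.sum_sub_distrib, ← Finset.sum_sub_distrib]
      refine Finset.sum_congr rfl fun y _ => ?_
      have e2 : QK K x y = (1 : Matrix α α ℝ) x y - (E α x y + PK K x y) := rfl
      rw [e2]; ring
    rw [e, h1, h2, h3]
  set A := ∑ x ∈ K, (g x - μ) with hA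
  set B := ∑ x ∈ K, (g x - μ) ^ 2 with hB
  have hA1 : A = S1 - k * μ := by
    rw [hA, Finset.sum_sub_distrib, Finset.sum_const, nsmul_eq_mul]
  have hB1 : B = S2 - 2 * μ * S1 + k * μ ^ 2 := by
    rw [hB, hS2, hS1, Finset.mul_sum, hk, ← nsmul_eq_mul, ← Finset.sum_const, ← Finset.sum_sub_distrib,
      ← Finset.sum_add_distrib]
    exact Finset.sum_congr rfl fun x _ => by ring
  have hAB : A ^ 2 ≤ k * B := by
    have := sq_sum_le_card_mul_sum_sq (s := K) (f := fun x => g x - μ)
    simpa [hA, hB, hk] using this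
  have h6 : T2 - (n * μ) ^ 2 / n - ((T2 - S2) - (n * μ - S1) ^ 2 / (n - k)) = B + A ^ 2 / (n - k) := by
    rw [hA1, hB1]
    field_simp
    ring
  rw [h5, h6]
  have h7 : A ^ 2 / (n - k) ≤ k * B / (n - k) := div_le_div_of_nonneg_right hAB hc.le
  have h8 : n / (n - k) * B = B + k * B / (n - k) := by
    field_simp
    ring
  rw [h8]; linarith

end

lemma NK_empty [Nonempty α] : NK (∅ : Finset α) = 1 := by
  ext x y
  simp only [NK, Matrix.add_apply, PK, E, Finset.notMem_empty, or_self, if_false, Finset.card_empty,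
    Nat.cast_zero, sub_zero, Matrix.one_apply]
  ring

lemma QK_empty [Nonempty α] : QK (∅ : Finset α) = 0 := by
  have h : QK (∅ : Finset α) = 1 - NK ∅ := rfl
  rw [h, NK_empty, sub_self]

end Run7.h52.U1
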