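import Pool.Agent.Run7.h52.U9

set_option autoImplicit false
set_option linter.unusedSectionVars false

namespace Run7.h52.U10

open Finset Run7.h52.Op Run7.h52.Core Run7.h52.CoreG Run7.h52.CellG Run7.h52.Sp
  Run7.h52.U3 Run7.h52.U5 Run7.h52.U6 Run7.h52.U7 Run7.h52.U8 Run7.h52.U9 Run7.h52.AsmT
open Run7.h52.Transfer (HasLevel)

variable {Q : ℕ}

lemma choose_rel (n k : ℕ) (hn : 1 ≤ n) :
    ((k : ℝ) + 1) * (n.choose (k + 1) : ℕ) = n * ((n - 1).choose k : ℕ) := by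
  obtain ⟨m, rfl⟩ : ∃ m, n = m + 1 := ⟨n - 1, by omega⟩
  have h := Nat.add_one_mul_choose_eq m k
  have h2 : ((m + 1 : ℕ) : ℝ) * (m.choose k : ℕ) = ((m + 1).choose (k + 1) : ℕ) * ((k + 1 : ℕ) : ℝ) := by
    exact_mod_cast h
  simp only [Nat.add_sub_cancel]
  rw [h2]
  push_cast; ring

/-- factor for coincidences -/
noncomputable def Df (k : ℕ) (Y : ℕ) (z₀ : ℝ) : ℝ :=
  Real.exp (2 * k * ((k : ℝ) ^ 2 * Real.log Y / (z₀ * Real.log z₀)))

/-- one progression -/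
theorem clsk (hQ : 1 ≤ Q) {R D d : ℕ} (hR : 1 ≤ R) (hD : 1 ≤ D) (hRD : R * D ≤ Q)
    {P0 P1 P2 : Finset ℕ} (hP : Grp Q P0 P1 P2) (hPd : ∀ p ∈ (P2 ∪ P1) ∪ P0, ¬ p ∣ d)
    {k : ℕ} (hk : 1 ≤ k) {z₀ : ℝ} (hz : 1 < z₀) (hzp : ∀ p ∈ (P2 ∪ P1) ∪ P0, z₀ < p)
    (hkp : ∀ p ∈ (P2 ∪ P1) ∪ P0, 2 * k ≤ p) {e η : ℝ} (hη : 0 ≤ η) (hη1 : η ≤ 1)
    (v3 : SV ((P2 ∪ P1) ∪ P0) D e k η) (v2 : SV (P2 ∪ P1) D e k η) (v1 : SV P2 D e k η)
    (v0 : SV ∅ D e k η)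
    {L : ℝ} (hL : 0 < L) (hRL : Real.log R ≤ L) {H : Finset ℤ} {Y : ℕ}
    (hHY : H ⊆ Finset.Ioc (0 : ℤ) (0 + (Y : ℤ))) (hH1 : 1 ≤ H.card) (t : ℕ → ℝ)
    (ht : ∀ p ∈ (P2 ∪ P1) ∪ P0, ∀ n : ℤ, (((H.filter fun h => (p : ℤ) ∣ n + h).card : ℕ) : ℝ) ≤ t p)
    {ε0 ε1 ε2 : ℝ} (h00 : 0 ≤ ε0) (h10 : 0 ≤ ε1) (h20 : 0 ≤ ε2)
    (hε0 : ∀ p ∈ P0, 2 * k * t p * L ≤ ε0 * (H.card * Real.log p))
    (hε1 : ∀ p ∈ P1, 2 * k * t p * L ≤ ε1 * (H.card * Real.log p))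
    (hε2 : ∀ p ∈ P2, 2 * k * t p * L ≤ ε2 * (H.card * Real.log p))
    {V : ℤ → ℝ} (hV : HasLevel R V) (b : ℤ) (x : ℤ) (N : ℕ)
    {l u g0 g1 g2 δ : ℝ} (hδ : 0 < δ) (hδ1 : δ ≤ 1) (hl0 : 0 ≤ l)
    (hl : l ≤ N * ((1 - η) * rs0 k ((P2 ∪ P1) ∪ P0)) - Err R D e)
    (hu : N * ((1 + η) * (Ga k z₀ L * (Df k Y z₀ * rs0 k ((P2 ∪ P1) ∪ P0)))) + Err R D e ≤ u)
    (hg0 : N * ((1 + η) * (Ga k z₀ L * (Df k Y z₀ * rs0 k (P2 ∪ P1)))) + Err R D e ≤ g0)
    (hg1 : N * ((1 + η) * (Ga k z₀ L * (Df k Y z₀ * rs0 k P2))) + Err R D e ≤ g1)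
    (hg2 : N * ((1 + η) * Ga k z₀ L) + Err R D e ≤ g2)
    (hg00 : 0 ≤ g0) (hg10 : 0 ≤ g1) (hg20 : 0 ≤ g2) (hu0 : 0 ≤ u) :
    ∃ tt : ℝ, 0 ≤ tt ∧
      |(MM Q : ℝ) * ∑ j ∈ Finset.range N, V (x + j) ^ 2 - N * tt| ≤ Er R * tt ∧
      ((1 - δ) * (l * (1 - (ε0 + ε1 + ε2))) - 3 / δ * (g0 * ε0 + g1 * ε1 + g2 * ε2)) *
          ((H.card.choose k : ℕ) * tt)
        ≤ (MM Q : ℝ) * ∑ j ∈ Finset.range N, V (x + j) ^ 2 *
          ((((Hs d b ((P2 ∪ P1) ∪ P0) H (x + j)).card.choose k : ℕ) : ℝ)) ∧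
      (MM Q : ℝ) * ∑ j ∈ Finset.range N, V (x + j) ^ 2 *
          ((((Hs d b ((P2 ∪ P1) ∪ P0) H (x + j)).card.choose k : ℕ) : ℝ))
        ≤ ((1 + δ) * u + 3 * (1 + 1 / δ) * (g0 * ε0 + g1 * ε1 + g2 * ε2)) *
          ((H.card.choose k : ℕ) * tt) := by
  classical
  set P : Finset ℕ := (P2 ∪ P1) ∪ P0 with hPdef
  have hPQ : P ⊆ Count.PP Q := Finset.union_subset (Finset.union_subset hP.s2 hP.s1) hP.s0
  have hpp : ∀ p ∈ P, p.Prime := fun p hp => (Finset.mem_filter.1 (hPQ hp)).2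
  have sub21 : P2 ∪ P1 ⊆ P := Finset.subset_union_left
  have sub0 : P0 ⊆ P := Finset.subset_union_right
  have sub2 : P2 ⊆ P := Finset.subset_union_left.trans sub21
  have sub1 : P1 ⊆ P := Finset.subset_union_right.trans sub21
  have hRQ : R ≤ Q := (Nat.le_mul_of_pos_right R hD).trans hRD
  set v : (∀ i, Om Q i) → ℝ := fun y => V (rep Q y) with hv
  have hvl : LevG (om Q) (Dp Q) (Real.log R) v := levG_of_level hR hRQ hV
  have hvL : LevG (om Q) (Dp Q) L v := fun τ hτ => hvl τ (lt_of_le_of_lt hRL hτ)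
  have hdv : ∀ q ∈ Finset.Icc 1 R, q ∣ MM Q := fun q hq => dvd_MM (by
    rw [Finset.mem_Icc] at hq ⊢
    exact ⟨hq.1, hq.2.trans hRQ⟩)
  have hvpt : ∀ n : ℤ, v (pt Q n) = V n := fun n =>
    per_mul (Transfer.level_periodic hdv hV) (dvd_of_pt_eq (pt_rep (pt Q n)))
  refine ⟨ip v v, ip_self_nonneg v, ?_, ?_⟩
  · have h := LS.large_sieve (MM_pos Q) hR hdv hV x N
    have e1 : ip v v = ∑ n ∈ Finset.range (MM Q), V n ^ 2 := by
      rw [ip, sum_rep]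
      exact Finset.sum_congr rfl fun n _ => by rw [hvpt]; ring
    rw [e1]
    exact h
  -- the colours
  set κ := Col H k with hκ
  set K : κ → KC Q := fun c => Kt Q d b P (c : Finset ℤ) with hK
  have hcc : ∀ c : κ, (c : Finset ℤ).card = k := fun c => (Finset.mem_powersetCard.1 c.2).2
  have hcH : ∀ c : κ, (c : Finset ℤ) ⊆ H := fun c => (Finset.mem_powersetCard.1 c.2).1
  have hOK : ∀ c, OK (K c) := by
    intro c i
    by_cases hi : (i : ℕ) ∈ P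
    · have h1 := card_Kt d b P (c : Finset ℤ) i
      rw [hcc c] at h1
      have h2 := hkp _ hi
      have h3 : (K c i).card ≤ k := h1
      omega
    · have : K c i = ∅ := by
        show Kt Q d b P (c : Finset ℤ) i = ∅
        rw [Kt, if_neg hi]
      rw [this]
      simpa using (ip_prime i).pos
  have hSm : ∀ c, Small (K c) P k := by
    intro c i hi
    have h1 := card_Kt d b P (c : Finset ℤ) i
    rw [hcc c] at h1
    have h2 := hkp _ hi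
    have h3 : (K c i).card ≤ k := h1
    exact ⟨by omega, by exact_mod_cast h3⟩
  have hcY : ∀ c : κ, (c : Finset ℤ) ⊆ Finset.Ioc (0 : ℤ) (0 + (Y : ℤ)) := fun c => (hcH c).trans hHY
  have hk0 : (0 : ℝ) ≤ k := Nat.cast_nonneg k
  have hlz : 0 < Real.log z₀ := Real.log_pos hz
  have hGa0 : 0 < Ga k z₀ L := Real.exp_pos _
  have hGa : Ga k z₀ (Real.log R) ≤ Ga k z₀ L := by
    refine Real.exp_le_exp.2 (mul_le_mul_of_nonneg_left ?_ (by positivity))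
    exact div_le_div_of_nonneg_right hRL (by positivity)
  have hGa' : 0 < Ga k z₀ (Real.log R) := Real.exp_pos _
  have hN0 : (0 : ℝ) ≤ N := Nat.cast_nonneg N
  have rlo : ∀ c : κ, rs0 k P ≤ U7.rho (K c) P := fun c => rho_ge hPQ (Finset.Subset.refl P) hkp (hcc c)
  have rup : ∀ (c : κ) (T : Finset ℕ), T ⊆ P → U7.rho (K c) T ≤ Df k Y z₀ * rs0 k T := fun c T hT =>
    rho_le' hPQ hT hPd hkp hz hzp (hcc c) (hcY c)
  have rpos : ∀ (c : κ) (T : Finset ℕ), T ⊆ P → 0 < U7.rho (K c) T := fun c T hT =>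
    rho_pos hk0 (fun i hi => hSm c i (hT hi))
  have mul4 : ∀ (c : κ) (T : Finset ℕ), T ⊆ P →
      N * ((1 + η) * (Ga k z₀ (Real.log R) * U7.rho (K c) T)) + Err R D e
        ≤ N * ((1 + η) * (Ga k z₀ L * (Df k Y z₀ * rs0 k T))) + Err R D e := by
    intro c T hT
    have h1 : Ga k z₀ (Real.log R) * U7.rho (K c) T ≤ Ga k z₀ L * (Df k Y z₀ * rs0 k T) :=
      mul_le_mul hGa (rup c T hT) (rpos c T hT).le hGa0.le
    have h2 := mul_le_mul_of_nonneg_left h1 (by linarith : (0 : ℝ) ≤ 1 + η)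
    have h3 := mul_le_mul_of_nonneg_left h2 hN0
    linarith
  have col : ∀ c : κ, _ := fun c => colour hQ (hOK c) hR hD hRD hP hk0 hη hη1 v3 v2 v1 v0 (hSm c) hz hzp hvl
    x N (l := l) (u := u) (g0 := g0) (g1 := g1) (g2 := g2) hδ hδ1 hl0
    (by
      refine hl.trans ?_
      have h1 := mul_le_mul_of_nonneg_left (rlo c) (by linarith : (0 : ℝ) ≤ 1 - η)
      have h3 := mul_le_mul_of_nonneg_left h1 hN0
      linarith)
    ((mul4 c P (Finset.Subset.refl P)).trans hu)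
    ((mul4 c _ sub21).trans hg0)
    ((mul4 c _ sub2).trans hg1)
    (by
      refine le_trans ?_ hg2
      have h2 := mul_le_mul_of_nonneg_left hGa (by linarith : (0 : ℝ) ≤ 1 + η)
      have h3 := mul_le_mul_of_nonneg_left h2 hN0
      linarith)
    hg00 hg10 hg20 hu0
  -- the oscillations
  obtain ⟨k', rfl⟩ : ∃ k', k = k' + 1 := ⟨k - 1, by omega⟩
  set C : ℝ := ((H.card.choose (k' + 1) : ℕ) : ℝ) with hC
  set C' : ℝ := (((H.card - 1).choose k' : ℕ) : ℝ) with hC'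
  have hC0 : 0 ≤ C := Nat.cast_nonneg _
  have hC'0 : 0 ≤ C' := Nat.cast_nonneg _
  have hrel : ((k' : ℝ) + 1) * C = H.card * C' := choose_rel H.card k' hH1
  have osc : ∀ (T : Finset ℕ) (ε : ℝ), T ⊆ P → 0 ≤ ε →
      (∀ p ∈ T, 2 * ((k' + 1 : ℕ) : ℝ) * t p * L ≤ ε * (H.card * Real.log p)) →
      ∑ c, Eo (K c) T v ≤ ε * C * ip v v := by
    intro T ε hT hε0' hε
    have h := sumE hQ K hOK T (fun p => t p * C') (a := ε * C / L) (L := L) (by positivity) ?_ ?_ ?_ hvL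
    · have e1 : ε * C / L * L = ε * C := by field_simp
      rw [e1] at h
      exact h
    · intro i hi r
      exact mult (Q := Q) (b := b) hPd H k' (hT hi) (t i) (ht i (hT hi)) r
    · intro c i hi
      exact (hSm c i (hT hi)).1
    · intro i hi
      rw [div_mul_eq_mul_div, le_div_iff₀ hL]
      have h1 := hε i hi
      have h2 := mul_le_mul_of_nonneg_right h1 hC'0
      have hk1 : (0 : ℝ) < (k' : ℝ) + 1 := by positivity
      have h3 : ((k' : ℝ) + 1) * (2 * (t i * C') * L) ≤ ((k' : ℝ) + 1) * (ε * C * Real.log (i : ℕ)) := by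
        calc ((k' : ℝ) + 1) * (2 * (t i * C') * L) = 2 * ((k' + 1 : ℕ) : ℝ) * t i * L * C' := by push_cast; ring
          _ ≤ ε * (H.card * Real.log (i : ℕ)) * C' := h2
          _ = ε * Real.log (i : ℕ) * (H.card * C') := by ring
          _ = ε * Real.log (i : ℕ) * (((k' : ℝ) + 1) * C) := by rw [hrel]
          _ = _ := by ring
      exact le_of_mul_le_mul_left h3 hk1
  have E0 := osc P0 ε0 sub0 h00 hε0
  have E1 := osc P1 ε1 sub1 h10 hε1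
  have E2 := osc P2 ε2 sub2 h20 hε2
  set S0 := ∑ c, Eo (K c) P0 v with hS0
  set S1 := ∑ c, Eo (K c) P1 v with hS1
  set S2 := ∑ c, Eo (K c) P2 v with hS2
  have hcard : (Fintype.card κ : ℝ) = C := by rw [hC, ← card_Col H (k' + 1)]
  -- the sum over the colours
  have hsumc : (MM Q : ℝ) * ∑ j ∈ Finset.range N, V (x + j) ^ 2 *
          ((((Hs d b P H (x + j)).card.choose (k' + 1) : ℕ) : ℝ))
      = ∑ c, (MM Q : ℝ) * ∑ j ∈ Finset.range N, sv (K c) P (pt Q (x + j)) * v (pt Q (x + j)) ^ 2 := by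
    rw [← Finset.mul_sum, Finset.sum_comm]
    congr 1
    refine Finset.sum_congr rfl fun j _ => ?_
    rw [← Finset.sum_mul, hvpt, ← sum_sv hQ hPQ hPd H (k' + 1) (x + j)]
    ring
  rw [hsumc]
  have hδ2 : 0 ≤ 3 / δ := by positivity
  have hδ3 : 0 ≤ 3 * (1 + 1 / δ) := by positivity
  have hG : g0 * S0 + g1 * S1 + g2 * S2 ≤ (g0 * ε0 + g1 * ε1 + g2 * ε2) * (C * ip v v) := by
    have f0 := mul_le_mul_of_nonneg_left E0 hg00
    have f1 := mul_le_mul_of_nonneg_left E1 hg10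
    have f2 := mul_le_mul_of_nonneg_left E2 hg20
    linarith
  constructor
  · have h1 := Finset.sum_le_sum fun c (_ : c ∈ (Finset.univ : Finset κ)) => (col c).1
    refine le_trans ?_ h1
    have e1 : ∑ c : κ, ((1 - δ) * (l * (ip v v - (Eo (K c) P0 v + Eo (K c) P1 v + Eo (K c) P2 v)))
        - 3 / δ * (g0 * Eo (K c) P0 v + g1 * Eo (K c) P1 v + g2 * Eo (K c) P2 v))
        = (1 - δ) * (l * (C * ip v v - (S0 + S1 + S2))) - 3 / δ * (g0 * S0 + g1 * S1 + g2 * S2) := by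
      rw [← hcard, hS0, hS1, hS2]
      simp only [Finset.sum_sub_distrib, ← Finset.mul_sum, Finset.sum_add_distrib, Finset.sum_const,
        Finset.card_univ, nsmul_eq_mul]
    rw [e1]
    have h2 : C * ip v v * (1 - (ε0 + ε1 + ε2)) ≤ C * ip v v - (S0 + S1 + S2) := by linarith
    have h3 := mul_le_mul_of_nonneg_left (mul_le_mul_of_nonneg_left h2 hl0) (by linarith : (0 : ℝ) ≤ 1 - δ)
    have h4 := mul_le_mul_of_nonneg_left hG hδ2
    linarith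
  · have h1 := Finset.sum_le_sum fun c (_ : c ∈ (Finset.univ : Finset κ)) => (col c).2
    refine h1.trans ?_
    have e1 : ∑ c : κ, ((1 + δ) * (u * ip v v)
        + 3 * (1 + 1 / δ) * (g0 * Eo (K c) P0 v + g1 * Eo (K c) P1 v + g2 * Eo (K c) P2 v))
        = (1 + δ) * (u * (C * ip v v)) + 3 * (1 + 1 / δ) * (g0 * S0 + g1 * S1 + g2 * S2) := by
      rw [← hcard, hS0, hS1, hS2]
      simp only [← Finset.mul_sum, Finset.sum_add_distrib, Finset.sum_const,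
        Finset.card_univ, nsmul_eq_mul]
    rw [e1]
    have h4 := mul_le_mul_of_nonneg_left hG hδ3
    linarith

end Run7.h52.U10
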