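import Pool.Agent.Run7.h52.U10

set_option autoImplicit false
set_option linter.unusedSectionVars false

namespace Run7.h52.U11

open Finset Run7.h52.Count Run7.h52.Rough Run7.h52.Asym Run7.h52.AsmV

/-- the quotient map on a residue class -/
lemma quot_mem {p Y : ℕ} (hp : 1 ≤ p) {n h : ℤ} (hh : h ∈ Finset.Ioc (0 : ℤ) (0 + (Y : ℤ)))
    (hd : (p : ℤ) ∣ n + h) :
    h = (-n) % (p : ℤ) + p * ((h - (-n) % (p : ℤ)) / p) ∧
    (h - (-n) % (p : ℤ)) / p ∈ Finset.Ioc (-1 : ℤ) (-1 + ((Y / p + 1 : ℕ) : ℤ)) := by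
  have hp0 : (0 : ℤ) < p := by exact_mod_cast hp
  set r : ℤ := (-n) % (p : ℤ) with hr
  have hr0 : 0 ≤ r := Int.emod_nonneg _ hp0.ne'
  have hr1 : r < p := Int.emod_lt_of_pos _ hp0
  have h1 : (p : ℤ) ∣ h - r := by
    have e : h - r = (n + h) + ((-n) - r) := by ring
    rw [e]
    exact dvd_add hd (Int.dvd_self_sub_emod)
  obtain ⟨m, hm⟩ := h1
  have h2 : (h - r) / (p : ℤ) = m := by
    rw [hm]; exact Int.mul_ediv_cancel_left _ hp0.ne'
  rw [h2]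
  rw [Finset.mem_Ioc] at hh
  refine ⟨by linarith, ?_⟩
  rw [Finset.mem_Ioc]
  constructor
  · by_contra hcon
    push Not at hcon
    have : (p : ℤ) * m ≤ p * (-1) := mul_le_mul_of_nonneg_left hcon hp0.le
    linarith
  · have h3 : (p : ℤ) * m ≤ Y := by linarith
    have h4 : m ≤ (Y : ℤ) / p := by
      rw [Int.le_ediv_iff_mul_le hp0]
      linarith
    push_cast
    linarith

lemma quot_inj {p Y : ℕ} (hp : 1 ≤ p) {n h h' : ℤ} (hh : h ∈ Finset.Ioc (0 : ℤ) (0 + (Y : ℤ)))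
    (hh' : h' ∈ Finset.Ioc (0 : ℤ) (0 + (Y : ℤ)))
    (hd : (p : ℤ) ∣ n + h) (hd' : (p : ℤ) ∣ n + h')
    (e : (h - (-n) % (p : ℤ)) / p = (h' - (-n) % (p : ℤ)) / p) : h = h' := by
  have h1 := (quot_mem hp hh hd).1
  have h2 := (quot_mem hp hh' hd').1
  rw [h1, h2, e]

/-- number of multiples -/
lemma tp_triv {p Y : ℕ} (hp : 1 ≤ p) (n : ℤ) {S : Finset ℤ} (hS : S ⊆ Finset.Ioc (0 : ℤ) (0 + (Y : ℤ)))
    (hd : ∀ h ∈ S, (p : ℤ) ∣ n + h) : S.card ≤ Y / p + 1 := by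
  have h1 : S.card ≤ (Finset.Ioc (-1 : ℤ) (-1 + ((Y / p + 1 : ℕ) : ℤ))).card :=
    Finset.card_le_card_of_injOn (fun h => (h - (-n) % (p : ℤ)) / p)
      (fun h hh => (quot_mem hp (hS hh) (hd h hh)).2)
      (fun h hh h' hh' e => quot_inj hp (hS hh) (hS hh') (hd h hh) (hd h' hh') e)
  rw [Int.card_Ioc] at h1
  refine h1.trans (le_of_eq ?_)
  rw [show (-1 + ((Y / p + 1 : ℕ) : ℤ) - -1) = ((Y / p + 1 : ℕ) : ℤ) by ring]
  exact Int.toNat_natCast _

lemma coprime_W0 {z p : ℕ} (hp : p.Prime) (hz : z < p) : Nat.Coprime p (W0 z) := by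
  rw [Nat.Prime.coprime_iff_not_dvd hp]
  intro h
  unfold W0 at h
  obtain ⟨q, hq, hd⟩ := (Prime.dvd_finsetProd_iff hp.prime _).1 h
  have hq' := mem_PP.1 hq
  have := (Nat.prime_dvd_prime_iff_eq hp hq'.1).1 hd
  omega

/-- number of multiples free of small primes -/
lemma tp_ref : ∃ C : ℝ, 0 < C ∧ ∀ z p Y : ℕ, 2 ≤ z → z < p → p.Prime → z ≤ Y / p + 1 → ∀ b n : ℤ,
    ∀ S : Finset ℤ, S ⊆ Finset.Ioc (0 : ℤ) (0 + (Y : ℤ)) → (∀ h ∈ S, (p : ℤ) ∣ n + h) →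
    (∀ h ∈ S, ∀ q ∈ PP z, ¬ (q : ℤ) ∣ b + h) →
    (S.card : ℝ) ≤ C * (((Y / p + 1 : ℕ) : ℝ) / Real.log z) := by
  obtain ⟨C, hC, h⟩ := rough_up
  refine ⟨C, hC, fun z p Y hz hzp hp hY b n S hS hd hq => ?_⟩
  set r : ℤ := (-n) % (p : ℤ) with hr
  have hco : IsCoprime (p : ℤ) ((W0 z : ℕ) : ℤ) := Nat.isCoprime_iff_coprime.2 (coprime_W0 hp hzp)
  obtain ⟨u, v, huv⟩ := hco
  set c : ℤ := u * (b + r) with hc
  refine le_trans ?_ (h (Y / p + 1) z hz hY (-1) c)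
  unfold rg
  have h1 : S.card ≤ (SW.survivors (PP z) (Finset.Ioc (-1 : ℤ) (-1 + ((Y / p + 1 : ℕ) : ℤ))) c).card := by
    refine Finset.card_le_card_of_injOn (fun h => (h - (-n) % (p : ℤ)) / p) ?_ ?_
    · intro g hg
      have h2 := quot_mem hp.one_lt.le (hS hg) (hd g hg)
      show (g - (-n) % (p : ℤ)) / p ∈ SW.survivors (PP z) (Finset.Ioc (-1 : ℤ) (-1 + ((Y / p + 1 : ℕ) : ℤ))) c
      rw [SW.survivors, Finset.mem_filter]
      refine ⟨h2.2, fun q hqz hqd => hq g hg q hqz ?_⟩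
      set m : ℤ := (g - (-n) % (p : ℤ)) / p with hm
      have e1 : g = r + p * m := h2.1
      have e2 : b + g = p * (c + m) + (b + r) * (v * ((W0 z : ℕ) : ℤ)) := by
        have : p * c = (b + r) * (u * p) := by rw [hc]; ring
        calc b + g = (b + r) * 1 + p * m := by rw [e1]; ring
          _ = (b + r) * (u * p + v * ((W0 z : ℕ) : ℤ)) + p * m := by rw [huv]
          _ = p * (c + m) + (b + r) * (v * ((W0 z : ℕ) : ℤ)) := by rw [mul_add (p : ℤ), this]; ring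
      rw [e2]
      refine dvd_add (hqd.mul_left _) ?_
      have h3 : (q : ℤ) ∣ ((W0 z : ℕ) : ℤ) := by
        exact_mod_cast Finset.dvd_prod_of_mem (fun p => p) hqz
      exact (h3.mul_left _).mul_left _
    · intro g hg g' hg' e
      exact quot_inj hp.one_lt.le (hS hg) (hS hg') (hd g hg) (hd g' hg') e
  exact_mod_cast h1

/-- the shifts not excluded by the modulus -/
noncomputable def Hb (D z Y : ℕ) (b : ℤ) : Finset ℤ :=
  (Finset.Ioc (0 : ℤ) (0 + (Y : ℤ))).filter fun h => ∀ p ∈ PP z, p ∣ D → ¬ (p : ℤ) ∣ b + h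

lemma Hb_sub (D z Y : ℕ) (b : ℤ) : Hb D z Y b ⊆ Finset.Ioc (0 : ℤ) (0 + (Y : ℤ)) := Finset.filter_subset _ _

lemma Hb_surv {D z Y z₀ : ℕ} {b : ℤ} (hz : z₀ ≤ z) (hD : W0 z₀ ∣ D) :
    Hb D z Y b ⊆ SW.survivors (PP z₀) (Finset.Ioc (0 : ℤ) (0 + (Y : ℤ))) b := by
  intro h hh
  rw [Hb, Finset.mem_filter] at hh
  rw [SW.survivors, Finset.mem_filter]
  refine ⟨hh.1, fun p hp => hh.2 p ?_ ?_⟩
  · exact mem_PP.2 ⟨(mem_PP.1 hp).1, (mem_PP.1 hp).2.trans hz⟩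
  · exact (Finset.dvd_prod_of_mem (fun p => p) hp).trans hD

/-- the primes which divide the modulus -/
def Bad (d z₀ z : ℕ) : Finset ℕ := (PP z).filter fun p => z₀ < p ∧ p ∣ d

lemma Hb_low {d z Y z₀ : ℕ} {b : ℤ} (t : ℝ)
    (ht : ∀ p ∈ Bad d z₀ z, ∀ S : Finset ℤ, S ⊆ Finset.Ioc (0 : ℤ) (0 + (Y : ℤ)) →
      (∀ h ∈ S, (p : ℤ) ∣ b + h) → (∀ h ∈ S, ∀ q ∈ PP z₀, ¬ (q : ℤ) ∣ b + h) → (S.card : ℝ) ≤ t) :
    rg z₀ (Finset.Ioc (0 : ℤ) (0 + (Y : ℤ))) b - (Bad d z₀ z).card * t ≤ (Hb (d * W0 z₀) z Y b).card := by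
  classical
  set I := Finset.Ioc (0 : ℤ) (0 + (Y : ℤ)) with hI
  set A := SW.survivors (PP z₀) I b with hA
  set B := Hb (d * W0 z₀) z Y b with hB
  have h1 : A ⊆ B ∪ (Bad d z₀ z).biUnion fun p => A.filter fun h => (p : ℤ) ∣ b + h := by
    intro h hh
    by_cases hb : h ∈ B
    · exact Finset.mem_union_left _ hb
    · refine Finset.mem_union_right _ ?_
      have hh' := hh
      rw [hA, SW.survivors, Finset.mem_filter] at hh'
      rw [hB, Hb, Finset.mem_filter] at hb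
      push Not at hb
      obtain ⟨p, hp, hpd, hpb⟩ := hb hh'.1
      have hp' := mem_PP.1 hp
      rw [Finset.mem_biUnion]
      refine ⟨p, ?_, ?_⟩
      · rw [Bad, Finset.mem_filter]
        have h2 : z₀ < p := by
          by_contra hcon
          push Not at hcon
          exact hh'.2 p (mem_PP.2 ⟨hp'.1, hcon⟩) hpb
        refine ⟨hp, h2, ?_⟩
        exact (Nat.Coprime.dvd_of_dvd_mul_right (coprime_W0 hp'.1 h2) hpd)
      · rw [Finset.mem_filter]; exact ⟨hh, hpb⟩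
  have h2 := (Finset.card_le_card h1).trans (Finset.card_union_le _ _)
  have h3 : ((((Bad d z₀ z).biUnion fun p => A.filter fun h => (p : ℤ) ∣ b + h).card : ℕ) : ℝ)
      ≤ (Bad d z₀ z).card * t := by
    calc ((((Bad d z₀ z).biUnion fun p => A.filter fun h => (p : ℤ) ∣ b + h).card : ℕ) : ℝ)
        ≤ ((∑ p ∈ Bad d z₀ z, (A.filter fun h => (p : ℤ) ∣ b + h).card : ℕ) : ℝ) := by
          exact_mod_cast Finset.card_biUnion_le
      _ = ∑ p ∈ Bad d z₀ z, ((A.filter fun h => (p : ℤ) ∣ b + h).card : ℝ) := by push_cast; rfl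
      _ ≤ ∑ p ∈ Bad d z₀ z, t := by
          refine Finset.sum_le_sum fun p hp => ht p hp _ ?_ ?_ ?_
          · refine (Finset.filter_subset _ _).trans ?_
            rw [hA]; unfold SW.survivors; exact Finset.filter_subset _ _
          · intro h hh; exact (Finset.mem_filter.1 hh).2
          · intro h hh
            have := (Finset.mem_filter.1 hh).1
            rw [hA, SW.survivors, Finset.mem_filter] at this
            exact this.2
      _ = _ := by rw [Finset.sum_const, nsmul_eq_mul]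
  have h4 : (A.card : ℝ) ≤ B.card + ((((Bad d z₀ z).biUnion fun p => A.filter fun h => (p : ℤ) ∣ b + h).card : ℕ) : ℝ) := by
    exact_mod_cast h2
  have h5 : rg z₀ I b = (A.card : ℝ) := rfl
  rw [h5]
  linarith

lemma bad_card {d z₀ z : ℕ} (hd : 1 ≤ d) (hz : 2 ≤ z₀) :
    ((Bad d z₀ z).card : ℝ) * Real.log z₀ ≤ Real.log d := by
  have h1 : ∏ p ∈ Bad d z₀ z, p ∣ d := by
    have : ∏ p ∈ Bad d z₀ z, p ∣ ∏ p ∈ d.primeFactors, p := by
      refine Finset.prod_dvd_prod_of_subset _ _ _ fun p hp => ?_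
      rw [Bad, Finset.mem_filter] at hp
      exact Nat.mem_primeFactors.2 ⟨(mem_PP.1 hp.1).1, hp.2.2, by omega⟩
    exact this.trans (Nat.prod_primeFactors_dvd _)
  have hz0 : (0 : ℝ) < z₀ := by exact_mod_cast (by omega : 0 < z₀)
  have h2 : (z₀ : ℝ) ^ (Bad d z₀ z).card ≤ d := by
    have h3 : z₀ ^ (Bad d z₀ z).card ≤ ∏ p ∈ Bad d z₀ z, p := by
      rw [← Finset.prod_const]
      refine Finset.prod_le_prod' fun p hp => ?_
      rw [Bad, Finset.mem_filter] at hp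
      exact hp.2.1.le
    exact_mod_cast h3.trans (Nat.le_of_dvd hd h1)
  have h3 := Real.log_le_log (by positivity) h2
  rwa [Real.log_pow] at h3

end Run7.h52.U11
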