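import Pool.Agent.Run7.h52.U11

set_option autoImplicit false
set_option linter.unusedSectionVars false

namespace Run7.h52.U12

open Finset Run7.h52.Count Run7.h52.Rough Run7.h52.Asym Run7.h52.AsmV Run7.h52.U9 Run7.h52.U11 Run7.h52.U7

lemma one_sub_ge_exp {x : ℝ} (h0 : 0 ≤ x) (h1 : x ≤ 1 / 2) : Real.exp (-(2 * x)) ≤ 1 - x := by
  have h := one_le_exp_mul h0 h1
  rw [Real.exp_neg]
  have h2 := Real.exp_pos (2 * x)
  rw [inv_le_iff_one_le_mul₀ h2]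
  exact h

/-- crude lower bound -/
lemma fac_low {k p : ℕ} (hp : 2 ≤ p) (hk : 2 * k ≤ p) :
    (1 - 1 / (p : ℝ)) ^ (2 * k) ≤ 1 - (k : ℝ) / p := by
  have hp0 : (0 : ℝ) < p := by exact_mod_cast (by omega : 0 < p)
  have hx : (k : ℝ) / p ≤ 1 / 2 := by
    have : (2 : ℝ) * k ≤ p := by exact_mod_cast hk
    rw [div_le_iff₀ hp0]; linarith
  have h1 : (1 - 1 / (p : ℝ)) ≤ Real.exp (-(1 / (p : ℝ))) := by
    have := Real.add_one_le_exp (-(1 / (p : ℝ)))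
    linarith
  have h0 : 0 ≤ 1 - 1 / (p : ℝ) := by
    have : 1 / (p : ℝ) ≤ 1 := by
      rw [div_le_one hp0]; exact_mod_cast (by omega : 1 ≤ p)
    linarith
  calc (1 - 1 / (p : ℝ)) ^ (2 * k) ≤ (Real.exp (-(1 / (p : ℝ)))) ^ (2 * k) := pow_le_pow_left₀ h0 h1 _
    _ = Real.exp (-(2 * ((k : ℝ) / p))) := by
        rw [← Real.exp_nat_mul]
        congr 1
        push_cast; ring
    _ ≤ _ := one_sub_ge_exp (by positivity) hx

/-- precise lower bound -/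
lemma fac_low2 {k p : ℕ} (hp : 2 ≤ p) (hk : 2 * k ≤ p) :
    (1 - 1 / (p : ℝ)) ^ k ≤ (1 - (k : ℝ) / p) * Real.exp ((k : ℝ) ^ 2 / (p : ℝ) ^ 2) := by
  have hp0 : (0 : ℝ) < p := by exact_mod_cast (by omega : 0 < p)
  set x : ℝ := (k : ℝ) / p with hxd
  have hx0 : 0 ≤ x := by positivity
  have hx : x ≤ 1 / 2 := by
    have : (2 : ℝ) * k ≤ p := by exact_mod_cast hk
    rw [hxd, div_le_iff₀ hp0]; linarith
  have h1 : (1 - 1 / (p : ℝ)) ≤ Real.exp (-(1 / (p : ℝ))) := by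
    have := Real.add_one_le_exp (-(1 / (p : ℝ)))
    linarith
  have h0 : 0 ≤ 1 - 1 / (p : ℝ) := by
    have : 1 / (p : ℝ) ≤ 1 := by
      rw [div_le_one hp0]; exact_mod_cast (by omega : 1 ≤ p)
    linarith
  have h2 : (1 - 1 / (p : ℝ)) ^ k ≤ Real.exp (-x) := by
    calc (1 - 1 / (p : ℝ)) ^ k ≤ (Real.exp (-(1 / (p : ℝ)))) ^ k := pow_le_pow_left₀ h0 h1 _
      _ = Real.exp (-x) := by
        rw [← Real.exp_nat_mul]
        congr 1
        rw [hxd]; ring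
  refine h2.trans ?_
  have e : (k : ℝ) ^ 2 / (p : ℝ) ^ 2 = x ^ 2 := by rw [hxd, div_pow]
  rw [e]
  -- exp (-x) ≤ 1 - x + x ^ 2 / 2
  have h3 : Real.exp (-x) ≤ 1 - x + x ^ 2 := by
    have h4 := Real.abs_exp_sub_one_sub_id_le (x := -x) (by rw [abs_neg, abs_of_nonneg hx0]; linarith)
    have h5 := (abs_le.1 h4).2
    have h6 : (-x) ^ 2 = x ^ 2 := by ring
    rw [h6] at h5
    linarith
  -- sharper: exp (-x) (1 + x + x²/2) ≤ 1 + ...
  have h7 : 1 + x ^ 2 ≤ Real.exp (x ^ 2) := by linarith [Real.add_one_le_exp (x ^ 2)]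
  have h8 : 1 + x + x ^ 2 / 2 ≤ Real.exp x := by
    have := Real.quadratic_le_exp_of_nonneg hx0
    linarith
  have h9 : 1 ≤ (1 - x) * (1 + x ^ 2) * (1 + x + x ^ 2 / 2) := by
    have : (1 - x) * (1 + x ^ 2) * (1 + x + x ^ 2 / 2) - 1
        = x ^ 2 * (1 / 2 - x / 2 - x ^ 2 / 2 - x ^ 3 / 2) := by ring
    have h10 : x ^ 2 ≤ 1 / 4 := by nlinarith
    have h11 : x ^ 3 ≤ 1 / 8 := by
      have : x ^ 3 = x * x ^ 2 := by ring
      rw [this]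
      nlinarith [sq_nonneg x]
    have h12 : 0 ≤ x ^ 2 * (1 / 2 - x / 2 - x ^ 2 / 2 - x ^ 3 / 2) :=
      mul_nonneg (sq_nonneg _) (by linarith)
    linarith
  have hex := Real.exp_pos x
  have h13 : 1 ≤ (1 - x) * Real.exp (x ^ 2) * Real.exp x := by
    have h14 : (1 - x) * (1 + x ^ 2) ≤ (1 - x) * Real.exp (x ^ 2) :=
      mul_le_mul_of_nonneg_left h7 (by linarith)
    have h15 : 0 ≤ (1 - x) * (1 + x ^ 2) := mul_nonneg (by linarith) (by positivity)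
    calc (1 : ℝ) ≤ (1 - x) * (1 + x ^ 2) * (1 + x + x ^ 2 / 2) := h9
      _ ≤ (1 - x) * (1 + x ^ 2) * Real.exp x := mul_le_mul_of_nonneg_left h8 h15
      _ ≤ _ := mul_le_mul_of_nonneg_right h14 hex.le
  rw [Real.exp_neg, inv_le_iff_one_le_mul₀ hex]
  exact h13

lemma fac_up {k p : ℕ} (hp : 2 ≤ p) : 1 - (k : ℝ) / p ≤ (1 - 1 / (p : ℝ)) ^ k := by
  have hp0 : (0 : ℝ) < p := by exact_mod_cast (by omega : 0 < p)
  have h0 : -2 ≤ -(1 / (p : ℝ)) := by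
    have : 1 / (p : ℝ) ≤ 1 := by
      rw [div_le_one hp0]; exact_mod_cast (by omega : 1 ≤ p)
    linarith
  have h := one_add_mul_le_pow h0 k
  have e : 1 + (k : ℝ) * -(1 / (p : ℝ)) = 1 - (k : ℝ) / p := by ring
  rw [e] at h
  have e2 : 1 + -(1 / (p : ℝ)) = 1 - 1 / (p : ℝ) := by ring
  rwa [e2] at h

/-- the primes between -/
def Pf (z₀ z : ℕ) : Finset ℕ := (PP z).filter fun p => z₀ < p

lemma mem_Pf {z₀ z p : ℕ} : p ∈ Pf z₀ z ↔ p.Prime ∧ z₀ < p ∧ p ≤ z := by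
  rw [Pf, Finset.mem_filter, mem_PP]
  tauto

/-- the product over the primes between -/
noncomputable def Wr (z₀ z : ℕ) : ℝ := ∏ p ∈ Pf z₀ z, (1 - 1 / (p : ℝ))

lemma one_sub_inv_bd {p : ℕ} (hp : p.Prime) : 0 < 1 - 1 / (p : ℝ) ∧ 1 - 1 / (p : ℝ) ≤ 1 := by
  have hp1 : (1 : ℝ) < p := by exact_mod_cast hp.one_lt
  have : 1 / (p : ℝ) < 1 := by rw [div_lt_one (by linarith)]; exact hp1
  have h2 : (0 : ℝ) ≤ 1 / (p : ℝ) := by positivity
  constructor <;> linarith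

lemma Wr_pos (z₀ z : ℕ) : 0 < Wr z₀ z :=
  Finset.prod_pos fun p hp => (one_sub_inv_bd (mem_Pf.1 hp).1).1

lemma Wr_eq {z₀ z : ℕ} (h : z₀ ≤ z) : W z = Wr z₀ z * W z₀ := W_split h

lemma rs0_pos {k : ℕ} {T : Finset ℕ} (hT : ∀ p ∈ T, p.Prime ∧ 2 * k ≤ p) : 0 < rs0 k T :=
  Finset.prod_pos fun p hp => by
    have hp0 : (0 : ℝ) < p := by exact_mod_cast (hT p hp).1.pos
    have : (2 : ℝ) * k ≤ p := by exact_mod_cast (hT p hp).2
    have hx : (k : ℝ) / p ≤ 1 / 2 := by rw [div_le_iff₀ hp0]; linarith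
    linarith

/-- crude lower bound for the product -/
lemma rs0_crude {k z₀ z : ℕ} {T : Finset ℕ} (hT : T ⊆ Pf z₀ z) (hk : 2 * k ≤ z₀) :
    (Wr z₀ z) ^ (2 * k) ≤ rs0 k T := by
  classical
  have h1 : (Wr z₀ z) ≤ ∏ p ∈ T, (1 - 1 / (p : ℝ)) := by
    unfold Wr
    rw [← Finset.prod_sdiff hT]
    refine mul_le_of_le_one_left (Finset.prod_nonneg fun p hp => (one_sub_inv_bd (mem_Pf.1 (hT hp)).1).1.le) ?_
    exact Finset.prod_le_one (fun p hp => (one_sub_inv_bd (mem_Pf.1 (Finset.mem_sdiff.1 hp).1).1).1.le)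
      fun p hp => (one_sub_inv_bd (mem_Pf.1 (Finset.mem_sdiff.1 hp).1).1).2
  refine (pow_le_pow_left₀ (Wr_pos z₀ z).le h1 _).trans ?_
  rw [← Finset.prod_pow]
  refine Finset.prod_le_prod (fun p hp => pow_nonneg (one_sub_inv_bd (mem_Pf.1 (hT hp)).1).1.le _) fun p hp => ?_
  have hp' := mem_Pf.1 (hT hp)
  exact fac_low hp'.1.two_le (by omega)

lemma rs0_mono {k : ℕ} {S T : Finset ℕ} (hST : S ⊆ T) (hT : ∀ p ∈ T, p.Prime ∧ 2 * k ≤ p) :
    rs0 k T ≤ rs0 k S := by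
  classical
  have h0 : ∀ p ∈ T, 0 ≤ 1 - (k : ℝ) / p ∧ 1 - (k : ℝ) / p ≤ 1 := fun p hp => by
    have hp0 : (0 : ℝ) < p := by exact_mod_cast (hT p hp).1.pos
    have : (2 : ℝ) * k ≤ p := by exact_mod_cast (hT p hp).2
    have hx : (k : ℝ) / p ≤ 1 / 2 := by rw [div_le_iff₀ hp0]; linarith
    have : (0 : ℝ) ≤ (k : ℝ) / p := by positivity
    constructor <;> linarith
  unfold rs0
  rw [← Finset.prod_sdiff hST]
  refine mul_le_of_le_one_left (Finset.prod_nonneg fun p hp => (h0 p (hST hp)).1) ?_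
  exact Finset.prod_le_one (fun p hp => (h0 p (Finset.mem_sdiff.1 hp).1).1)
    fun p hp => (h0 p (Finset.mem_sdiff.1 hp).1).2

lemma rs0_union {k : ℕ} {S T : Finset ℕ} (h : Disjoint S T) : rs0 k (S ∪ T) = rs0 k S * rs0 k T :=
  Finset.prod_union h

lemma sum_sq_inv (z₀ : ℕ) (hz : 1 ≤ z₀) : ∀ z : ℕ, z₀ ≤ z →
    ∑ n ∈ Finset.Ioc z₀ z, 1 / (n : ℝ) ^ 2 ≤ 1 / (z₀ : ℝ) - 1 / (z : ℝ) := by
  intro z hzz
  induction z, hzz using Nat.le_induction with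
  | base => simp
  | succ m hm ih =>
    have hm0 : (0 : ℝ) < m := by exact_mod_cast (by omega : 0 < m)
    rw [← Finset.insert_Ioc_right_eq_Ioc_add_one hm, Finset.sum_insert (by simp)]
    have h1 : 1 / (((m + 1 : ℕ) : ℝ)) ^ 2 ≤ 1 / (m : ℝ) - 1 / ((m + 1 : ℕ) : ℝ) := by
      push_cast
      rw [div_sub_div _ _ hm0.ne' (by positivity), div_le_div_iff₀ (by positivity) (by positivity)]
      nlinarith
    linarith

/-- lower bound for the expected proportion -/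
lemma rs0_low {k z₀ z : ℕ} {T : Finset ℕ} (hT : T ⊆ Pf z₀ z) (hk : 2 * k ≤ z₀) (hz0 : 1 ≤ z₀) (hz : z₀ ≤ z) :
    (Wr z₀ z) ^ k * Real.exp (-((k : ℝ) ^ 2 / z₀)) ≤ rs0 k T := by
  have hT' : ∀ p ∈ Pf z₀ z, p.Prime ∧ 2 * k ≤ p := fun p hp => by
    have := mem_Pf.1 hp
    exact ⟨this.1, by omega⟩
  refine le_trans ?_ (rs0_mono hT hT')
  have h1 : (Wr z₀ z) ^ k ≤ rs0 k (Pf z₀ z) * Real.exp (∑ p ∈ Pf z₀ z, (k : ℝ) ^ 2 / (p : ℝ) ^ 2) := by
    unfold Wr rs0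
    rw [← Finset.prod_pow, Real.exp_sum, ← Finset.prod_mul_distrib]
    refine Finset.prod_le_prod (fun p hp => pow_nonneg (one_sub_inv_bd (mem_Pf.1 hp).1).1.le _) fun p hp => ?_
    have hp' := mem_Pf.1 hp
    exact fac_low2 hp'.1.two_le (by omega)
  have h2 : ∑ p ∈ Pf z₀ z, (k : ℝ) ^ 2 / (p : ℝ) ^ 2 ≤ (k : ℝ) ^ 2 / z₀ := by
    have h3 : ∑ p ∈ Pf z₀ z, (k : ℝ) ^ 2 / (p : ℝ) ^ 2 ≤ ∑ p ∈ Finset.Ioc z₀ z, (k : ℝ) ^ 2 / (p : ℝ) ^ 2 := by
      refine Finset.sum_le_sum_of_subset_of_nonneg (fun p hp => ?_) fun p _ _ => by positivity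
      have hp' := mem_Pf.1 hp
      exact Finset.mem_Ioc.2 ⟨hp'.2.1, hp'.2.2⟩
    refine h3.trans ?_
    have h4 := sum_sq_inv z₀ hz0 z hz
    have h5 : ∑ p ∈ Finset.Ioc z₀ z, (k : ℝ) ^ 2 / (p : ℝ) ^ 2
        = (k : ℝ) ^ 2 * ∑ n ∈ Finset.Ioc z₀ z, 1 / (n : ℝ) ^ 2 := by
      rw [Finset.mul_sum]
      exact Finset.sum_congr rfl fun n _ => by ring
    rw [h5]
    have h6 : (0 : ℝ) ≤ 1 / (z : ℝ) := by positivity
    calc (k : ℝ) ^ 2 * ∑ n ∈ Finset.Ioc z₀ z, 1 / (n : ℝ) ^ 2 ≤ (k : ℝ) ^ 2 * (1 / z₀) :=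
          mul_le_mul_of_nonneg_left (by linarith) (by positivity)
      _ = _ := by ring
  have h7 := Real.exp_le_exp.2 h2
  have h8 : 0 < rs0 k (Pf z₀ z) := rs0_pos hT'
  have h9 : (Wr z₀ z) ^ k ≤ rs0 k (Pf z₀ z) * Real.exp ((k : ℝ) ^ 2 / z₀) :=
    h1.trans (mul_le_mul_of_nonneg_left h7 h8.le)
  rw [Real.exp_neg, ← div_eq_mul_inv, div_le_iff₀ (Real.exp_pos _)]
  exact h9

/-- upper bound for the expected proportion -/
lemma rs0_up {k z₀ z d : ℕ} (hz0 : 2 ≤ z₀) {T : Finset ℕ} (hT : T = (Pf z₀ z).filter fun p => ¬ p ∣ d)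
    (hk : 2 * k ≤ z₀) {B : ℝ} (hB : (((Bad d z₀ z).card : ℕ) : ℝ) / z₀ ≤ B) :
    rs0 k T ≤ (Wr z₀ z) ^ k * Real.exp (2 * k * B) := by
  classical
  have h1 : rs0 k T ≤ (∏ p ∈ T, (1 - 1 / (p : ℝ))) ^ k := by
    rw [← Finset.prod_pow]
    refine Finset.prod_le_prod (fun p hp => ?_) fun p hp => ?_
    · rw [hT, Finset.mem_filter] at hp
      have hp' := mem_Pf.1 hp.1
      have hp0 : (0 : ℝ) < p := by exact_mod_cast hp'.1.pos
      have : (2 : ℝ) * k ≤ p := by exact_mod_cast (by omega : 2 * k ≤ p)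
      have hx : (k : ℝ) / p ≤ 1 / 2 := by rw [div_le_iff₀ hp0]; linarith
      linarith
    · rw [hT, Finset.mem_filter] at hp
      exact fac_up (mem_Pf.1 hp.1).1.two_le
  refine h1.trans ?_
  have hz0' : (0 : ℝ) < z₀ := by exact_mod_cast (by omega : 0 < z₀)
  have hBad : Bad d z₀ z = (Pf z₀ z).filter fun p => p ∣ d := by
    ext p
    rw [Bad, Finset.mem_filter, mem_PP, Finset.mem_filter, mem_Pf]
    tauto
  have h2 : ∏ p ∈ T, (1 - 1 / (p : ℝ)) ≤ Wr z₀ z * Real.exp (2 * B) := by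
    have e : Wr z₀ z = (∏ p ∈ Bad d z₀ z, (1 - 1 / (p : ℝ))) * ∏ p ∈ T, (1 - 1 / (p : ℝ)) := by
      rw [hBad, hT, Wr]
      exact (Finset.prod_filter_mul_prod_filter_not (Pf z₀ z) (fun p => p ∣ d) _).symm
    have h3 : Real.exp (-(2 * B)) ≤ ∏ p ∈ Bad d z₀ z, (1 - 1 / (p : ℝ)) := by
      calc Real.exp (-(2 * B)) ≤ Real.exp (-(2 * ((((Bad d z₀ z).card : ℕ) : ℝ) / z₀))) :=
            Real.exp_le_exp.2 (by linarith)
        _ = ∏ p ∈ Bad d z₀ z, Real.exp (-(2 * (1 / (z₀ : ℝ)))) := by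
            rw [Finset.prod_const, ← Real.exp_nat_mul]
            congr 1; ring
        _ ≤ _ := by
            refine Finset.prod_le_prod (fun _ _ => (Real.exp_pos _).le) fun p hp => ?_
            rw [hBad, Finset.mem_filter] at hp
            have hp' := mem_Pf.1 hp.1
            have hp0 : (0 : ℝ) < p := by exact_mod_cast hp'.1.pos
            have hzp : (z₀ : ℝ) ≤ p := by exact_mod_cast hp'.2.1.le
            have h4 : 1 / (p : ℝ) ≤ 1 / (z₀ : ℝ) := div_le_div_of_nonneg_left (by norm_num) hz0' hzp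
            have h5 : 1 / (z₀ : ℝ) ≤ 1 / 2 :=
              div_le_div_of_nonneg_left (by norm_num) (by norm_num) (by exact_mod_cast hz0)
            have h6 := one_sub_ge_exp (x := 1 / (z₀ : ℝ)) (by positivity) h5
            linarith
    have hT0 : 0 ≤ ∏ p ∈ T, (1 - 1 / (p : ℝ)) := Finset.prod_nonneg fun p hp => by
      rw [hT, Finset.mem_filter] at hp
      exact (one_sub_inv_bd (mem_Pf.1 hp.1).1).1.le
    have h7 := mul_le_mul_of_nonneg_right h3 hT0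
    rw [← e] at h7
    have h8 : Real.exp (-(2 * B)) * Real.exp (2 * B) = 1 := by rw [← Real.exp_add]; simp
    calc ∏ p ∈ T, (1 - 1 / (p : ℝ)) = (Real.exp (-(2 * B)) * ∏ p ∈ T, (1 - 1 / (p : ℝ))) * Real.exp (2 * B) := by
          rw [mul_comm (Real.exp (-(2 * B))), mul_assoc, h8, mul_one]
      _ ≤ _ := mul_le_mul_of_nonneg_right h7 (Real.exp_pos _).le
  have hT0 : 0 ≤ ∏ p ∈ T, (1 - 1 / (p : ℝ)) := Finset.prod_nonneg fun p hp => by
    rw [hT, Finset.mem_filter] at hp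
    exact (one_sub_inv_bd (mem_Pf.1 hp.1).1).1.le
  calc (∏ p ∈ T, (1 - 1 / (p : ℝ))) ^ k ≤ (Wr z₀ z * Real.exp (2 * B)) ^ k := pow_le_pow_left₀ hT0 h2 _
    _ = _ := by
        rw [mul_pow, ← Real.exp_nat_mul]
        congr 2; ring

/-- the product over the primes between is at least the quotient of the logarithms -/
lemma Wr_low : ∃ c : ℝ, 0 < c ∧ c ≤ 1 ∧ ∀ z₀ z : ℕ, 3 ≤ z₀ → z₀ ≤ z →
    c * (Real.log z₀ / Real.log z) ≤ Wr z₀ z := by
  obtain ⟨c, hc, hWc⟩ := AsmA.W_log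
  obtain ⟨C, hC, hWC⟩ := W_up
  refine ⟨min 1 (c / C), by positivity, min_le_left _ _, fun z₀ z hz0 hz => ?_⟩
  have hz0r : (1 : ℝ) < z₀ := by exact_mod_cast (by omega : 1 < z₀)
  have hzr : (1 : ℝ) < z := by exact_mod_cast (by omega : 1 < z)
  have hl0 := Real.log_pos hz0r
  have hl := Real.log_pos hzr
  have h1 := hWc z (by omega)
  have h2 := hWC z₀ (by omega)
  have h3 := Wr_eq hz
  have hW0 := W_pos z₀
  have h4 : min 1 (c / C) * (Real.log z₀ / Real.log z) ≤ c / C * (Real.log z₀ / Real.log z) :=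
    mul_le_mul_of_nonneg_right (min_le_right _ _) (by positivity)
  refine h4.trans ?_
  have h5 : Wr z₀ z = W z / W z₀ := by rw [h3]; field_simp
  rw [h5, le_div_iff₀ hW0]
  calc c / C * (Real.log z₀ / Real.log z) * W z₀ ≤ c / C * (Real.log z₀ / Real.log z) * (C / Real.log z₀) :=
        mul_le_mul_of_nonneg_left h2 (by positivity)
    _ = c / Real.log z := by field_simp
    _ ≤ _ := by rw [div_le_iff₀ hl]; exact h1

end Run7.h52.U12
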