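import Pool.Agent.Run7.h52.U12

set_option autoImplicit false
set_option linter.unusedSectionVars false

namespace Run7.h52.U13

open Finset Run7.h52.Sp Run7.h52.U3 Run7.h52.U5 Run7.h52.U6 Run7.h52.U7 Run7.h52.U8 Run7.h52.U9
  Run7.h52.U10 Run7.h52.U11 Run7.h52.U12 Run7.h52.AsmT
open Run7.h52.Transfer (HasLevel)

variable {Q : ℕ}

lemma alg_low {κ X : ℝ} (h0 : 0 < κ) (hX : 0 ≤ X) {s g : ℝ} (hs : s ≤ κ)
    (hg : g ≤ κ ^ 2 * X / 3) (h1 : κ ≤ 1 / 10) :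
    (1 - 5 * κ) * X ≤ (1 - κ) * ((1 - 2 * κ) * X * (1 - s)) - 3 / κ * g := by
  have e1 : 3 / κ * g ≤ κ * X := by
    rw [div_mul_eq_mul_div, div_le_iff₀ h0]
    nlinarith
  have e2 : (1 - κ) * ((1 - 2 * κ) * X * (1 - κ)) ≤ (1 - κ) * ((1 - 2 * κ) * X * (1 - s)) := by
    refine mul_le_mul_of_nonneg_left ?_ (by linarith)
    refine mul_le_mul_of_nonneg_left (by linarith) ?_
    exact mul_nonneg (by linarith) hX
  have e3 : (1 - 5 * κ) * X + κ * X ≤ (1 - κ) * ((1 - 2 * κ) * X * (1 - κ)) := by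
    have : (1 - κ) * ((1 - 2 * κ) * X * (1 - κ)) - ((1 - 5 * κ) * X + κ * X) = X * (κ ^ 2 * (5 - 2 * κ)) := by ring
    have h2 : 0 ≤ X * (κ ^ 2 * (5 - 2 * κ)) := mul_nonneg hX (mul_nonneg (sq_nonneg _) (by linarith))
    linarith
  linarith

lemma alg_up {κ X : ℝ} (h0 : 0 < κ) (hX : 0 ≤ X) {g : ℝ}
    (hg : g ≤ κ ^ 2 * X / 3) (h1 : κ ≤ 1 / 10) :
    (1 + κ) * ((1 + 5 * κ) * X) + 3 * (1 + 1 / κ) * g ≤ (1 + 8 * κ) * X := by
  have e1 : 3 * (1 + 1 / κ) * g ≤ (κ ^ 2 + κ) * X := by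
    have : 3 * (1 + 1 / κ) * g ≤ 3 * (1 + 1 / κ) * (κ ^ 2 * X / 3) :=
      mul_le_mul_of_nonneg_left hg (by positivity)
    refine this.trans (le_of_eq ?_)
    field_simp
  have e2 : (1 + 8 * κ) * X - ((1 + κ) * ((1 + 5 * κ) * X) + (κ ^ 2 + κ) * X) = X * (κ * (1 - 6 * κ)) := by ring
  have h2 : 0 ≤ X * (κ * (1 - 6 * κ)) := mul_nonneg hX (mul_nonneg h0.le (by linarith))
  linarith

/-- one progression, clean form -/
theorem clsA {R D d : ℕ} (hR : 1 ≤ R) (hD : 1 ≤ D) (hQe : Q = R * D)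
    {P0 P1 P2 : Finset ℕ} (hP : Grp Q P0 P1 P2) (hPd : ∀ p ∈ (P2 ∪ P1) ∪ P0, ¬ p ∣ d)
    {k : ℕ} (hk : 1 ≤ k) {z₀ : ℝ} (hz : 1 < z₀) (hzp : ∀ p ∈ (P2 ∪ P1) ∪ P0, z₀ < p)
    (hkp : ∀ p ∈ (P2 ∪ P1) ∪ P0, 2 * k ≤ p) {e η κ : ℝ} (hη : 0 ≤ η) (hηκ : η ≤ κ)
    (hκ0 : 0 < κ) (hκ1 : κ ≤ 1 / 10)
    (v3 : SV ((P2 ∪ P1) ∪ P0) D e k η) (v2 : SV (P2 ∪ P1) D e k η) (v1 : SV P2 D e k η)
    (v0 : SV ∅ D e k η)
    {L : ℝ} (hL : 0 < L) (hRL : Real.log R ≤ L) {H : Finset ℤ} {Y : ℕ}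
    (hHY : H ⊆ Finset.Ioc (0 : ℤ) (0 + (Y : ℤ))) (hH1 : 1 ≤ H.card) (t : ℕ → ℝ)
    (ht : ∀ p ∈ (P2 ∪ P1) ∪ P0, ∀ n : ℤ, (((H.filter fun h => (p : ℤ) ∣ n + h).card : ℕ) : ℝ) ≤ t p)
    {ε0 ε1 ε2 : ℝ} (h00 : 0 ≤ ε0) (h10 : 0 ≤ ε1) (h20 : 0 ≤ ε2)
    (hε0 : ∀ p ∈ P0, 2 * k * t p * L ≤ ε0 * (H.card * Real.log p))
    (hε1 : ∀ p ∈ P1, 2 * k * t p * L ≤ ε1 * (H.card * Real.log p))
    (hε2 : ∀ p ∈ P2, 2 * k * t p * L ≤ ε2 * (H.card * Real.log p))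
    {V : ℤ → ℝ} (hV : HasLevel R V) (b : ℤ) (x : ℤ) (N : ℕ)
    {c7 B2 : ℝ} (hc7 : 0 < c7) (hc71 : c7 ≤ 1) (hB2 : 0 ≤ B2)
    (hr0 : rs0 k (P2 ∪ P1) * c7 ≤ rs0 k ((P2 ∪ P1) ∪ P0))
    (hr1 : rs0 k P2 * c7 ≤ rs0 k ((P2 ∪ P1) ∪ P0))
    (hr2 : 1 ≤ rs0 k ((P2 ∪ P1) ∪ P0) * B2)
    (hErr : Err R D e ≤ κ * (N * rs0 k ((P2 ∪ P1) ∪ P0))) (hErR : Er R ≤ κ * N)
    (hGa : Ga k z₀ L ≤ 1 + κ) (hDf : Df k Y z₀ ≤ 1 + κ)
    (he0 : 27 * ε0 ≤ c7 * κ ^ 2) (he1 : 27 * ε1 ≤ c7 * κ ^ 2) (he2 : 27 * (B2 * ε2) ≤ κ ^ 2)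
    (hes : ε0 + ε1 + ε2 ≤ κ) :
    (1 - 6 * κ) * (rs0 k ((P2 ∪ P1) ∪ P0) * (H.card.choose k : ℕ)) * ∑ j ∈ Finset.range N, V (x + j) ^ 2
        ≤ ∑ j ∈ Finset.range N, V (x + j) ^ 2 *
          ((((Hs d b ((P2 ∪ P1) ∪ P0) H (x + j)).card.choose k : ℕ) : ℝ)) ∧
    ∑ j ∈ Finset.range N, V (x + j) ^ 2 *
          ((((Hs d b ((P2 ∪ P1) ∪ P0) H (x + j)).card.choose k : ℕ) : ℝ))
      ≤ (1 + 10 * κ) * (rs0 k ((P2 ∪ P1) ∪ P0) * (H.card.choose k : ℕ)) *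
        ∑ j ∈ Finset.range N, V (x + j) ^ 2 := by
  have hRD1 : 1 ≤ R * D := Nat.mul_pos hR hD
  have hQ : 1 ≤ Q := by rw [hQe]; exact hRD1
  have hpp : ∀ p ∈ (P2 ∪ P1) ∪ P0, p.Prime := fun p hp => by
    have hPQ : (P2 ∪ P1) ∪ P0 ⊆ Count.PP Q := Finset.union_subset (Finset.union_subset hP.s2 hP.s1) hP.s0
    exact (Finset.mem_filter.1 (hPQ hp)).2
  set ρ := rs0 k ((P2 ∪ P1) ∪ P0) with hρ
  have hρ0 : 0 < ρ := rs0_pos fun p hp => ⟨hpp p hp, hkp p hp⟩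
  set X : ℝ := N * ρ with hX
  have hN0 : (0 : ℝ) ≤ N := Nat.cast_nonneg N
  have hX0 : 0 ≤ X := mul_nonneg hN0 hρ0.le
  have hErr0 : 0 ≤ Err R D e := mul_nonneg (Er_nonneg hRD1) (by positivity)
  have hErR0 : 0 ≤ Er R := Er_nonneg hR
  have hGa0 : 0 < Ga k z₀ L := Real.exp_pos _
  have hDf0 : 0 < Df k Y z₀ := Real.exp_pos _
  have hη1 : 0 ≤ 1 + η := by linarith
  -- products of the factors
  have hfac : (1 + η) * (Ga k z₀ L * Df k Y z₀) ≤ 1 + 4 * κ := by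
    have h1 : Ga k z₀ L * Df k Y z₀ ≤ (1 + κ) * (1 + κ) := mul_le_mul hGa hDf hDf0.le (by linarith)
    have h2 : (1 + η) * (Ga k z₀ L * Df k Y z₀) ≤ (1 + κ) * ((1 + κ) * (1 + κ)) :=
      mul_le_mul (by linarith) h1 (mul_pos hGa0 hDf0).le (by linarith)
    refine h2.trans ?_
    have : 1 + 4 * κ - (1 + κ) * ((1 + κ) * (1 + κ)) = κ * (1 - 3 * κ - κ ^ 2) := by ring
    have h3 : 0 ≤ κ * (1 - 3 * κ - κ ^ 2) := mul_nonneg hκ0.le (by nlinarith)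
    linarith
  have hfac2 : (1 + η) * Ga k z₀ L ≤ 2 := by
    have h2 : (1 + η) * Ga k z₀ L ≤ (1 + κ) * (1 + κ) := mul_le_mul (by linarith) hGa hGa0.le (by linarith)
    nlinarith
  have hErrX : Err R D e ≤ κ * X := hErr
  have rT : ∀ T : Finset ℕ, T ⊆ (P2 ∪ P1) ∪ P0 → 0 < rs0 k T := fun T hT =>
    rs0_pos fun p hp => ⟨hpp p (hT hp), hkp p (hT hp)⟩
  have sub21 : P2 ∪ P1 ⊆ (P2 ∪ P1) ∪ P0 := Finset.subset_union_left
  have sub2 : P2 ⊆ (P2 ∪ P1) ∪ P0 := Finset.subset_union_left.trans sub21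
  have gen : ∀ T : Finset ℕ, T ⊆ (P2 ∪ P1) ∪ P0 →
      N * ((1 + η) * (Ga k z₀ L * (Df k Y z₀ * rs0 k T))) + Err R D e ≤ N * ((1 + 4 * κ) * rs0 k T) + κ * X := by
    intro T hT
    have h1 : (1 + η) * (Ga k z₀ L * (Df k Y z₀ * rs0 k T)) ≤ (1 + 4 * κ) * rs0 k T := by
      have := mul_le_mul_of_nonneg_right hfac (rT T hT).le
      calc (1 + η) * (Ga k z₀ L * (Df k Y z₀ * rs0 k T)) = (1 + η) * (Ga k z₀ L * Df k Y z₀) * rs0 k T := by ring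
        _ ≤ _ := this
    have h2 := mul_le_mul_of_nonneg_left h1 hN0
    linarith
  have gT : ∀ T : Finset ℕ, T ⊆ (P2 ∪ P1) ∪ P0 → rs0 k T * c7 ≤ ρ →
      N * ((1 + η) * (Ga k z₀ L * (Df k Y z₀ * rs0 k T))) + Err R D e ≤ 3 * X / c7 := by
    intro T hT hr
    refine (gen T hT).trans ?_
    rw [le_div_iff₀ hc7]
    have h1 : N * (rs0 k T * c7) ≤ X := mul_le_mul_of_nonneg_left hr hN0
    have h2 : N * ((1 + 4 * κ) * rs0 k T) * c7 = (1 + 4 * κ) * (N * (rs0 k T * c7)) := by ring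
    have h3 : (1 + 4 * κ) * (N * (rs0 k T * c7)) ≤ (1 + 4 * κ) * X := mul_le_mul_of_nonneg_left h1 (by linarith)
    have h4 : κ * X * c7 ≤ κ * X * 1 := mul_le_mul_of_nonneg_left hc71 (by positivity)
    have h5 : (1 + 4 * κ) * X + κ * X ≤ 3 * X := by
      have : 3 * X - ((1 + 4 * κ) * X + κ * X) = X * (2 - 5 * κ) := by ring
      have : 0 ≤ X * (2 - 5 * κ) := mul_nonneg hX0 (by linarith)
      linarith
    calc (N * ((1 + 4 * κ) * rs0 k T) + κ * X) * c7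
        = N * ((1 + 4 * κ) * rs0 k T) * c7 + κ * X * c7 := by ring
      _ ≤ (1 + 4 * κ) * X + κ * X := by rw [h2]; linarith
      _ ≤ _ := h5
  obtain ⟨tt, htt0, hZ, hlow, hup⟩ := clsk hQ hR hD hQe.symm.le hP hPd hk hz hzp hkp hη (by linarith : η ≤ 1)
    v3 v2 v1 v0 hL hRL hHY hH1 t ht h00 h10 h20 hε0 hε1 hε2 hV b x N
    (l := (1 - 2 * κ) * X) (u := (1 + 5 * κ) * X) (g0 := 3 * X / c7) (g1 := 3 * X / c7) (g2 := 3 * (X * B2))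
    hκ0 (by linarith) (mul_nonneg (by linarith) hX0)
    (by
      have h1 : (1 - η) * ρ ≥ (1 - κ) * ρ := mul_le_mul_of_nonneg_right (by linarith) hρ0.le
      have h2 := mul_le_mul_of_nonneg_left h1 hN0
      have h3 : N * ((1 - κ) * ρ) = (1 - κ) * X := by rw [hX]; ring
      rw [h3] at h2
      linarith)
    (by
      refine (gen _ (Finset.Subset.refl _)).trans ?_
      have : N * ((1 + 4 * κ) * rs0 k ((P2 ∪ P1) ∪ P0)) = (1 + 4 * κ) * X := by rw [hX, hρ]; ring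
      rw [this]
      linarith)
    (gT _ sub21 hr0) (gT _ sub2 hr1)
    (by
      have h1 : N * ((1 + η) * Ga k z₀ L) ≤ N * 2 := mul_le_mul_of_nonneg_left hfac2 hN0
      have h2 : (N : ℝ) * 1 ≤ N * (ρ * B2) := mul_le_mul_of_nonneg_left hr2 hN0
      have h3 : N * (ρ * B2) = X * B2 := by rw [hX]; ring
      rw [h3] at h2
      have h4 : κ * X ≤ N := by
        have hρ1 : ρ ≤ 1 := by
          refine Finset.prod_le_one (fun p hp => ?_) (fun p hp => ?_)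
          · have hp0 : (0 : ℝ) < p := by exact_mod_cast (hpp p hp).pos
            have h5 : (2 : ℝ) * k ≤ p := by exact_mod_cast hkp p hp
            have hx : (k : ℝ) / p ≤ 1 / 2 := by rw [div_le_iff₀ hp0]; linarith
            linarith
          · have : (0 : ℝ) ≤ (k : ℝ) / p := by positivity
            linarith
        have h6 : X ≤ N * 1 := mul_le_mul_of_nonneg_left hρ1 hN0
        have h7 : κ * X ≤ 1 * X := mul_le_mul_of_nonneg_right (by linarith) hX0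
        linarith
      linarith)
    (by positivity) (by positivity) (by positivity) (mul_nonneg (by linarith) hX0)
  -- the sum of the errors
  have hG : 3 * X / c7 * ε0 + 3 * X / c7 * ε1 + 3 * (X * B2) * ε2 ≤ κ ^ 2 * X / 3 := by
    have h1 : 3 * X / c7 * ε0 ≤ κ ^ 2 * X / 9 := by
      rw [div_mul_eq_mul_div, div_le_iff₀ hc7]
      have := mul_le_mul_of_nonneg_left he0 hX0
      nlinarith
    have h2 : 3 * X / c7 * ε1 ≤ κ ^ 2 * X / 9 := by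
      rw [div_mul_eq_mul_div, div_le_iff₀ hc7]
      have := mul_le_mul_of_nonneg_left he1 hX0
      nlinarith
    have h3 : 3 * (X * B2) * ε2 ≤ κ ^ 2 * X / 9 := by
      have := mul_le_mul_of_nonneg_left he2 hX0
      nlinarith
    linarith
  have a1 := alg_low hκ0 hX0 hes hG hκ1
  have a2 := alg_up hκ0 hX0 hG hκ1
  set C : ℝ := ((H.card.choose k : ℕ) : ℝ) with hC
  have hC0 : 0 ≤ C := Nat.cast_nonneg _
  set Z := ∑ j ∈ Finset.range N, V (x + j) ^ 2 with hZd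
  have hZ0 : 0 ≤ Z := Finset.sum_nonneg fun _ _ => sq_nonneg _
  set S := ∑ j ∈ Finset.range N, V (x + j) ^ 2 *
          ((((Hs d b ((P2 ∪ P1) ∪ P0) H (x + j)).card.choose k : ℕ) : ℝ)) with hS
  have hM0 : (0 : ℝ) < MM Q := by exact_mod_cast MM_pos Q
  have hCt : 0 ≤ C * tt := mul_nonneg hC0 htt0
  have b1 : (1 - 5 * κ) * X * (C * tt) ≤ MM Q * S := (mul_le_mul_of_nonneg_right a1 hCt).trans hlow
  have b2 : MM Q * S ≤ (1 + 8 * κ) * X * (C * tt) := hup.trans (mul_le_mul_of_nonneg_right a2 hCt)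
  have z1 := (abs_le.1 hZ).1
  have z2 := (abs_le.1 hZ).2
  have hEt : Er R * tt ≤ κ * N * tt := mul_le_mul_of_nonneg_right hErR htt0
  have hρC : 0 ≤ ρ * C := mul_nonneg hρ0.le hC0
  have hNt : 0 ≤ N * tt := mul_nonneg hN0 htt0
  have z3 : MM Q * Z ≤ (1 + κ) * (N * tt) := by linarith
  have z4 : (1 - κ) * (N * tt) ≤ MM Q * Z := by linarith
  constructor
  · have h1 : (1 - 6 * κ) * (MM Q * Z) ≤ (1 - 5 * κ) * (N * tt) := by
      have h2 := mul_le_mul_of_nonneg_left z3 (by linarith : (0 : ℝ) ≤ 1 - 6 * κ)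
      have h3 : (1 - 6 * κ) * ((1 + κ) * (N * tt)) ≤ (1 - 5 * κ) * (N * tt) := by
        have : (1 - 5 * κ) * (N * tt) - (1 - 6 * κ) * ((1 + κ) * (N * tt)) = 6 * κ ^ 2 * (N * tt) := by ring
        have : 0 ≤ 6 * κ ^ 2 * (N * tt) := by positivity
        linarith
      linarith
    have h4 := mul_le_mul_of_nonneg_left h1 hρC
    have h5 : MM Q * ((1 - 6 * κ) * (ρ * C) * Z) ≤ MM Q * S := by
      calc MM Q * ((1 - 6 * κ) * (ρ * C) * Z) = ρ * C * ((1 - 6 * κ) * (MM Q * Z)) := by ring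
        _ ≤ ρ * C * ((1 - 5 * κ) * (N * tt)) := h4
        _ = (1 - 5 * κ) * X * (C * tt) := by rw [hX]; ring
        _ ≤ _ := b1
    exact le_of_mul_le_mul_left h5 hM0
  · have h1 : (1 + 8 * κ) * (N * tt) ≤ (1 + 10 * κ) * (MM Q * Z) := by
      have h2 := mul_le_mul_of_nonneg_left z4 (by linarith : (0 : ℝ) ≤ 1 + 10 * κ)
      have h3 : (1 + 8 * κ) * (N * tt) ≤ (1 + 10 * κ) * ((1 - κ) * (N * tt)) := by
        have : (1 + 10 * κ) * ((1 - κ) * (N * tt)) - (1 + 8 * κ) * (N * tt) = κ * (1 - 10 * κ) * (N * tt) := by ring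
        have : 0 ≤ κ * (1 - 10 * κ) * (N * tt) := mul_nonneg (mul_nonneg hκ0.le (by linarith)) hNt
        linarith
      linarith
    have h4 := mul_le_mul_of_nonneg_left h1 hρC
    have h5 : MM Q * S ≤ MM Q * ((1 + 10 * κ) * (ρ * C) * Z) := by
      calc MM Q * S ≤ (1 + 8 * κ) * X * (C * tt) := b2
        _ = ρ * C * ((1 + 8 * κ) * (N * tt)) := by rw [hX]; ring
        _ ≤ ρ * C * ((1 + 10 * κ) * (MM Q * Z)) := h4
        _ = _ := by ring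
    exact le_of_mul_le_mul_left h5 hM0

end Run7.h52.U13
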