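import Mathlib

set_option autoImplicit false
set_option linter.unusedSectionVars false

namespace Run7.h52.U14

open Finset Filter

/-- the parameters -/
structure Par (e κ Cr cW cw : ℝ) (k E : ℕ) (l : ℝ) : Prop where
  l4 : 4 ≤ l
  z3 : 3 ≤ ⌊e * l⌋₊
  zk : 2 * k ≤ ⌊e * l⌋₊
  zge : e * l / 2 ≤ (⌊e * l⌋₊ : ℝ)
  lz1 : 1 ≤ Real.log ⌊e * l⌋₊
  lzl : Real.log l / 2 ≤ Real.log ⌊e * l⌋₊
  lzz : Real.log ⌊e * l⌋₊ ≤ l
  ga : Real.exp (2 * k * (l / (⌊e * l⌋₊ * Real.log ⌊e * l⌋₊))) ≤ 1 + κ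
  df : Real.exp (2 * k * ((k : ℝ) ^ 2 * l / (⌊e * l⌋₊ * Real.log ⌊e * l⌋₊))) ≤ 1 + κ
  kz : 1 - κ ≤ Real.exp (-((k : ℝ) ^ 2 / ⌊e * l⌋₊))
  cnt : l * (2 * Cr / (⌊e * l⌋₊ * Real.log ⌊e * l⌋₊) + 2 / l ^ (2 * k + 3)) ≤ κ * cW
  br : (⌊e * l⌋₊ : ℝ) ^ E ≤ κ / 2 * (cW / Real.log ⌊e * l⌋₊ * l ^ (E + 2 * k + 5))
  e0 : 27 * (16 * k * Cr / (cW * e * Real.log ⌊e * l⌋₊)) ≤ (cw / (4 * k + 6)) ^ (2 * k) * κ ^ 2
  e1 : 27 * (8 * k * Cr / (cW * l)) ≤ (cw / (4 * k + 6)) ^ (2 * k) * κ ^ 2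
  e2 : 27 * ((l / cw) ^ (2 * k) * (8 * k / (cW * l ^ (2 * k + 2)))) ≤ κ ^ 2
  es : 16 * k * Cr / (cW * e * Real.log ⌊e * l⌋₊) + 8 * k * Cr / (cW * l) + 8 * k / (cW * l ^ (2 * k + 2)) ≤ κ
  hk8 : (k : ℝ) ≤ κ * (cW / (2 * Real.log ⌊e * l⌋₊) * l ^ (E + 2 * k + 5))
  hY : Real.log (3 * l ^ (E + 2 * k + 5)) ≤ l

theorem par {e κ Cr cW cw : ℝ} (he0 : 0 < e) (he1 : e ≤ 1 / 2) (hκ0 : 0 < κ) (hκ1 : κ ≤ 1 / 10)
    (hCr : 0 < Cr) (hcW : 0 < cW) (hcw : 0 < cw) (hcw1 : cw ≤ 1) (k E : ℕ) (hk : 1 ≤ k) :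
    ∀ᶠ l : ℝ in atTop, Par e κ Cr cW cw k E l := by
  have evl : ∀ C : ℝ, ∀ᶠ l : ℝ in atTop, C ≤ l := fun C => eventually_ge_atTop C
  have evz : ∀ C : ℝ, ∀ᶠ l : ℝ in atTop, C ≤ Real.log (⌊e * l⌋₊ : ℝ) := fun C =>
    (Real.tendsto_log_atTop.comp (tendsto_natCast_atTop_atTop.comp
      (tendsto_nat_floor_atTop.comp (tendsto_id.const_mul_atTop he0)))).eventually_ge_atTop C
  have evg : ∀ᶠ l : ℝ in atTop, Real.log l ≤ 1 / (2 * ((E + 2 * k + 5 : ℕ) : ℝ)) * l := by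
    have h := (isLittleO_log_rpow_atTop (r := 1) one_pos).bound
      (c := 1 / (2 * ((E + 2 * k + 5 : ℕ) : ℝ))) (by positivity)
    filter_upwards [h, evl 1] with l h1 h2
    rw [Real.rpow_one, Real.norm_of_nonneg (Real.log_nonneg h2), Real.norm_of_nonneg (by linarith)] at h1
    exact h1
  have hkr : (1 : ℝ) ≤ k := by exact_mod_cast hk
  have hlk : 0 < Real.log (1 + κ) := Real.log_pos (by linarith)
  set c7 : ℝ := (cw / (4 * k + 6)) ^ (2 * k) with hc7
  have hc70 : 0 < c7 := by positivity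
  filter_upwards [evl 4, evl (2 * (3 + 2 * k) / e), evl (2 * (k : ℝ) ^ 2 / (e * κ)), evl (2 / (κ * cW) + 1),
    evl (4 * Real.log 3), evl (4 / (κ * cW) ), evl (27 * (8 * k * Cr) / (cW * (c7 * κ ^ 2))),
    evl (27 * 8 * k / (cW * cw ^ (2 * k) * κ ^ 2)), evl (3 * (8 * k * Cr) / (cW * κ)), evl (3 * (8 * k) / (cW * κ)),
    evl (2 * k / (κ * cW)), evl ((2 / e) ^ 2),
    evz 1, evz (4 * k ^ 3 / (e * Real.log (1 + κ))), evz (8 * Cr / (e * (κ * cW))),
    evz (27 * (16 * k * Cr) / (cW * e * (c7 * κ ^ 2))), evz (3 * (16 * k * Cr) / (cW * e * κ)), evg]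
    with l a1 a2 a3 a4 a5 a6 a7 a8 a9 a10 a11 a12 b1 b2 b3 b4 b5 g1
  have hl0 : 0 < l := by linarith
  have hel0 : 0 < e * l := by positivity
  set z : ℕ := ⌊e * l⌋₊ with hz
  set lz : ℝ := Real.log z with hlz
  have hlz0 : 0 < lz := by linarith
  have hzl : (z : ℝ) ≤ e * l := Nat.floor_le hel0.le
  have hzu : e * l < z + 1 := Nat.lt_floor_add_one _
  have h3k : 3 + 2 * (k : ℝ) ≤ e * l / 2 := by
    rw [div_le_iff₀ he0] at a2
    linarith
  have hzge : e * l / 2 ≤ (z : ℝ) := by linarith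
  have hz3k : 3 + 2 * k ≤ z := by
    have : ((3 + 2 * k : ℕ) : ℝ) ≤ (z : ℝ) := by push_cast; linarith
    exact_mod_cast this
  have hz0 : (0 : ℝ) < z := by linarith
  have hzl1 : (z : ℝ) ≤ l := by nlinarith
  have hlzl : lz ≤ l := by
    have := Real.log_le_sub_one_of_pos hz0
    linarith
  have hq : l / (z * lz) ≤ 2 / (e * lz) := by
    rw [div_le_div_iff₀ (by positivity) (by positivity)]
    nlinarith
  have hl1 : 1 ≤ l := by linarith
  have hpw : ∀ n : ℕ, 1 ≤ l ^ n := fun n => one_le_pow₀ hl1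
  have hk3 : (k : ℝ) ≤ k ^ 3 := by nlinarith [sq_nonneg ((k : ℝ) - 1)]
  have hb2 : 4 * (k : ℝ) ^ 3 / (e * lz) ≤ Real.log (1 + κ) := by
    rw [div_le_iff₀ (by positivity)] at b2 ⊢
    linarith
  refine ⟨a1, by omega, by omega, hzge, b1, ?_, hlzl, ?_, ?_, ?_, ?_, ?_, ?_, ?_, ?_, ?_, ?_, ?_⟩
  · -- lzl
    have h1 : l ^ (1 / 2 : ℝ) ≤ z := by
      refine le_trans ?_ hzge
      rw [← Real.sqrt_eq_rpow]
      have h2 : 2 / e ≤ Real.sqrt l := by
        rw [Real.le_sqrt' (by positivity)]; exact a12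
      have h3 := Real.mul_self_sqrt hl0.le
      have h4 : 0 < Real.sqrt l := Real.sqrt_pos.2 hl0
      rw [div_le_iff₀ he0] at h2
      nlinarith
    have h2 := Real.log_le_log (by positivity) h1
    rw [Real.log_rpow hl0] at h2
    linarith
  · -- ga
    rw [← Real.le_log_iff_exp_le (by linarith)]
    refine le_trans ?_ hb2
    have h1 : 2 * (k : ℝ) * (l / (z * lz)) ≤ 2 * k * (2 / (e * lz)) :=
      mul_le_mul_of_nonneg_left hq (by positivity)
    refine h1.trans ?_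
    have h2 : 2 * (k : ℝ) * (2 / (e * lz)) = 4 * k / (e * lz) := by ring
    rw [h2]
    exact div_le_div_of_nonneg_right (by linarith) (by positivity)
  · -- df
    rw [← Real.le_log_iff_exp_le (by linarith)]
    refine le_trans ?_ hb2
    have h1 : 2 * (k : ℝ) * (k ^ 2 * l / (z * lz)) ≤ 2 * k * (k ^ 2 * (2 / (e * lz))) := by
      rw [mul_div_assoc]
      exact mul_le_mul_of_nonneg_left (mul_le_mul_of_nonneg_left hq (by positivity)) (by positivity)
    refine h1.trans (le_of_eq ?_)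
    ring
  · -- kz
    have h1 : (k : ℝ) ^ 2 / z ≤ κ := by
      rw [div_le_iff₀ (by positivity)] at a3
      rw [div_le_iff₀ hz0]
      nlinarith
    have h2 := Real.add_one_le_exp (-((k : ℝ) ^ 2 / z))
    linarith
  · -- cnt
    have h1 : l * (2 * Cr / (z * lz)) ≤ κ * cW / 2 := by
      have h2 : l * (2 * Cr / (z * lz)) = 2 * Cr * (l / (z * lz)) := by ring
      rw [h2]
      have h3 : 2 * Cr * (l / (z * lz)) ≤ 2 * Cr * (2 / (e * lz)) :=
        mul_le_mul_of_nonneg_left hq (by positivity)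
      refine h3.trans ?_
      have h4 : 2 * Cr * (2 / (e * lz)) = 4 * Cr / (e * lz) := by ring
      rw [h4, div_le_iff₀ (by positivity)]
      rw [div_le_iff₀ (by positivity)] at b3
      linarith
    have h2 : l * (2 / l ^ (2 * k + 3)) ≤ κ * cW / 2 := by
      have h3 : l * (2 / l ^ (2 * k + 3)) ≤ 2 / l := by
        rw [mul_div_assoc', div_le_div_iff₀ (by positivity) hl0]
        have h4 : l * 2 * l = 2 * l ^ 2 := by ring
        rw [h4]
        refine mul_le_mul_of_nonneg_left ?_ (by norm_num)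
        exact pow_le_pow_right₀ hl1 (by omega)
      refine h3.trans ?_
      rw [div_le_iff₀ hl0]
      rw [div_le_iff₀ (by positivity)] at a6
      linarith
    rw [mul_add]
    linarith
  · -- br
    have h1 : (z : ℝ) ^ E ≤ l ^ E := pow_le_pow_left₀ hz0.le hzl1 E
    refine h1.trans ?_
    have h2 : κ / 2 * (cW / lz * l ^ (E + 2 * k + 5)) = κ * cW * l ^ (E + 2 * k + 5) / (2 * lz) := by
      field_simp
    rw [h2, le_div_iff₀ (by positivity)]
    have h3 : l ^ E * (2 * lz) ≤ l ^ E * (2 * l) := mul_le_mul_of_nonneg_left (by linarith) (by positivity)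
    refine h3.trans ?_
    have h4 : 2 ≤ κ * cW * l := by
      have h5 : 2 / (κ * cW) ≤ l := by linarith
      rw [div_le_iff₀ (by positivity)] at h5
      linarith
    have h5 : l ^ (E + 2) ≤ l ^ (E + 2 * k + 5) := pow_le_pow_right₀ hl1 (by omega)
    have h5' : l ^ (E + 2) ≤ l ^ (E + 2 * k + 4) := pow_le_pow_right₀ hl1 (by omega)
    calc l ^ E * (2 * l) = 2 * l ^ (E + 1) := by ring
      _ ≤ 2 * l ^ (E + 2 * k + 4) := by
          refine mul_le_mul_of_nonneg_left ?_ (by norm_num)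
          exact pow_le_pow_right₀ hl1 (by omega)
      _ ≤ κ * cW * l * l ^ (E + 2 * k + 4) := mul_le_mul_of_nonneg_right h4 (by positivity)
      _ = _ := by ring
  · -- e0
    rw [mul_div_assoc', div_le_iff₀ (by positivity)]
    rw [div_le_iff₀ (by positivity)] at b4
    linarith
  · -- e1
    rw [mul_div_assoc', div_le_iff₀ (by positivity)]
    rw [div_le_iff₀ (by positivity)] at a7
    linarith
  · -- e2
    have h1 : 27 * ((l / cw) ^ (2 * k) * (8 * k / (cW * l ^ (2 * k + 2))))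
        = 27 * 8 * k / (cW * cw ^ (2 * k)) / l ^ 2 := by
      rw [div_pow, pow_add]
      field_simp
    rw [h1, div_le_iff₀ (by positivity), div_le_iff₀ (by positivity)]
    rw [div_le_iff₀ (by positivity)] at a8
    have h2 : l ≤ l ^ 2 := by nlinarith
    have h3 : l * (cW * cw ^ (2 * k) * κ ^ 2) ≤ l ^ 2 * (cW * cw ^ (2 * k) * κ ^ 2) :=
      mul_le_mul_of_nonneg_right h2 (by positivity)
    linarith
  · -- es
    have h1 : 16 * k * Cr / (cW * e * lz) ≤ κ / 3 := by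
      rw [div_le_iff₀ (by positivity)]
      rw [div_le_iff₀ (by positivity)] at b5
      linarith
    have h2 : 8 * k * Cr / (cW * l) ≤ κ / 3 := by
      rw [div_le_iff₀ (by positivity)]
      rw [div_le_iff₀ (by positivity)] at a9
      linarith
    have h3 : 8 * k / (cW * l ^ (2 * k + 2)) ≤ κ / 3 := by
      have h4 : l ≤ l ^ (2 * k + 2) := le_self_pow₀ hl1 (by omega)
      have h5 : 8 * (k : ℝ) / (cW * l ^ (2 * k + 2)) ≤ 8 * k / (cW * l) :=
        div_le_div_of_nonneg_left (by positivity) (by positivity)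
          (mul_le_mul_of_nonneg_left h4 hcW.le)
      refine h5.trans ?_
      rw [div_le_iff₀ (by positivity)]
      rw [div_le_iff₀ (by positivity)] at a10
      linarith
    linarith
  · -- hk8
    have h2 : κ * (cW / (2 * lz) * l ^ (E + 2 * k + 5)) = κ * cW * l ^ (E + 2 * k + 5) / (2 * lz) := by
      field_simp
    rw [h2, le_div_iff₀ (by positivity)]
    rw [div_le_iff₀ (by positivity)] at a11
    have h3 : l ^ 2 ≤ l ^ (E + 2 * k + 5) := pow_le_pow_right₀ hl1 (by omega)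
    calc (k : ℝ) * (2 * lz) ≤ k * (2 * l) := mul_le_mul_of_nonneg_left (by linarith) (by linarith)
      _ = 2 * k * l := by ring
      _ ≤ l * (κ * cW) * l := mul_le_mul_of_nonneg_right a11 hl0.le
      _ = κ * cW * l ^ 2 := by ring
      _ ≤ _ := mul_le_mul_of_nonneg_left h3 (by positivity)
  · -- hY
    rw [Real.log_mul (by norm_num) (by positivity), Real.log_pow]
    have h1 : ((E + 2 * k + 5 : ℕ) : ℝ) * Real.log l ≤ l / 2 := by
      have h2 : (0 : ℝ) < ((E + 2 * k + 5 : ℕ) : ℝ) := by positivity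
      calc ((E + 2 * k + 5 : ℕ) : ℝ) * Real.log l
          ≤ ((E + 2 * k + 5 : ℕ) : ℝ) * (1 / (2 * ((E + 2 * k + 5 : ℕ) : ℝ)) * l) :=
            mul_le_mul_of_nonneg_left g1 h2.le
        _ = l / 2 := by field_simp
    linarith

end Run7.h52.U14
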