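import Pool.Agent.Run7.h52.U13
import Pool.Agent.Run7.h52.U14

set_option autoImplicit false
set_option linter.unusedSectionVars false

namespace Run7.h52.U15

open Finset Run7.h52.Count Run7.h52.Rough Run7.h52.Asym Run7.h52.AsmV Run7.h52.U7 Run7.h52.U8 Run7.h52.U9
  Run7.h52.U10 Run7.h52.U11 Run7.h52.U12 Run7.h52.U13 Run7.h52.U14

/-- the sifting primes -/
def Ps (z₀ z D : ℕ) : Finset ℕ := (Pf z₀ z).filter fun p => ¬ p ∣ D

lemma mem_Ps {z₀ z D p : ℕ} : p ∈ Ps z₀ z D ↔ (p.Prime ∧ z₀ < p ∧ p ≤ z) ∧ ¬ p ∣ D := by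
  rw [Ps, Finset.mem_filter, mem_Pf]

lemma Wr_thr {cw l : ℝ} {k n z₀ : ℕ} (hcw : 0 < cw) (hl : 4 ≤ l) (hk : 1 ≤ k) (hn1 : 1 ≤ n) (hn : n ≤ 2 * k + 3)
    (hz3 : 3 ≤ z₀) (hlz : Real.log l / 2 ≤ Real.log z₀)
    (hzn : z₀ ≤ ⌊l ^ n⌋₊)
    (hW : ∀ z₀ z : ℕ, 3 ≤ z₀ → z₀ ≤ z → cw * (Real.log z₀ / Real.log z) ≤ Wr z₀ z) :
    cw / (4 * k + 6) ≤ Wr z₀ ⌊l ^ n⌋₊ := by
  refine le_trans ?_ (hW z₀ _ hz3 hzn)
  have hl0 : 0 < l := by linarith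
  have hll : 0 < Real.log l := Real.log_pos (by linarith)
  have h1 : (⌊l ^ n⌋₊ : ℝ) ≤ l ^ n := Nat.floor_le (by positivity)
  have h0 : (1 : ℝ) < (⌊l ^ n⌋₊ : ℝ) := by exact_mod_cast (by omega : 1 < ⌊l ^ n⌋₊)
  have h2 : Real.log (⌊l ^ n⌋₊ : ℝ) ≤ n * Real.log l := by
    have := Real.log_le_log (by linarith) h1
    rwa [Real.log_pow] at this
  have h3 : 0 < Real.log (⌊l ^ n⌋₊ : ℝ) := Real.log_pos h0
  rw [div_eq_mul_inv]
  refine mul_le_mul_of_nonneg_left ?_ hcw.le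
  rw [le_div_iff₀ h3]
  have hnr : (n : ℝ) ≤ 2 * k + 3 := by exact_mod_cast hn
  have hkr : (0 : ℝ) < 4 * k + 6 := by positivity
  have h4 : Real.log (⌊l ^ n⌋₊ : ℝ) ≤ (2 * k + 3) * Real.log l :=
    h2.trans (mul_le_mul_of_nonneg_right hnr hll.le)
  calc (4 * (k : ℝ) + 6)⁻¹ * Real.log (⌊l ^ n⌋₊ : ℝ) ≤ (4 * (k : ℝ) + 6)⁻¹ * ((2 * k + 3) * Real.log l) :=
        mul_le_mul_of_nonneg_left h4 (by positivity)
    _ = Real.log l / 2 := by field_simp; ring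
    _ ≤ _ := hlz

/-- the three groups -/
lemma groups {e κ Cr cW cw l : ℝ} {k E : ℕ} (hcw : 0 < cw) (hk : 1 ≤ k) (hp : Par e κ Cr cW cw k E l)
    (he0 : 0 < e) (he1 : e ≤ 1 / 2)
    (hW : ∀ z₀ z : ℕ, 3 ≤ z₀ → z₀ ≤ z → cw * (Real.log z₀ / Real.log z) ≤ Wr z₀ z)
    {Q z D : ℕ} (hzQ : z ≤ Q) (hz : ⌊e * l⌋₊ ≤ z) (hlz : Real.log z ≤ l) :
    ∃ P0 P1 P2 : Finset ℕ, Grp Q P0 P1 P2 ∧ (P2 ∪ P1) ∪ P0 = Ps ⌊e * l⌋₊ z D ∧
      (∀ p ∈ P0, (p : ℝ) ≤ l ^ 2) ∧ (∀ p ∈ P1, l ^ 2 < p ∧ (p : ℝ) ≤ l ^ (2 * k + 3)) ∧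
      (∀ p ∈ P2, l ^ (2 * k + 3) < p) ∧
      rs0 k (P2 ∪ P1) * (cw / (4 * k + 6)) ^ (2 * k) ≤ rs0 k ((P2 ∪ P1) ∪ P0) ∧
      rs0 k P2 * (cw / (4 * k + 6)) ^ (2 * k) ≤ rs0 k ((P2 ∪ P1) ∪ P0) ∧
      1 ≤ rs0 k ((P2 ∪ P1) ∪ P0) * (l / cw) ^ (2 * k) := by
  classical
  have hl4 := hp.l4
  have hl0 : 0 < l := by linarith
  have hl1 : 1 ≤ l := by linarith
  set z₀ : ℕ := ⌊e * l⌋₊ with hz₀
  have hz3 := hp.z3
  have hzk := hp.zk
  set P := Ps z₀ z D with hP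
  have hPp : ∀ p ∈ P, p.Prime ∧ 2 * k ≤ p := fun p hp => by
    have := (mem_Ps.1 hp).1
    exact ⟨this.1, by omega⟩
  have hPPQ : P ⊆ PP Q := fun p hp => by
    have := (mem_Ps.1 hp).1
    exact mem_PP.2 ⟨this.1, this.2.2.trans hzQ⟩
  have hmono : l ^ 2 ≤ l ^ (2 * k + 3) := pow_le_pow_right₀ hl1 (by omega)
  set P0 := P.filter fun p : ℕ => (p : ℝ) ≤ l ^ 2 with hP0
  set P1 := P.filter fun p : ℕ => l ^ 2 < (p : ℝ) ∧ (p : ℝ) ≤ l ^ (2 * k + 3) with hP1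
  set P2 := P.filter fun p : ℕ => l ^ (2 * k + 3) < (p : ℝ) with hP2
  have hun : (P2 ∪ P1) ∪ P0 = P := by
    ext p
    simp only [hP0, hP1, hP2, Finset.mem_union, Finset.mem_filter]
    constructor
    · rintro ((h | h) | h) <;> exact h.1
    · intro h
      rcases le_or_gt (p : ℝ) (l ^ 2) with h1 | h1
      · exact Or.inr ⟨h, h1⟩
      · rcases le_or_gt (p : ℝ) (l ^ (2 * k + 3)) with h2 | h2
        · exact Or.inl (Or.inr ⟨h, h1, h2⟩)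
        · exact Or.inl (Or.inl ⟨h, h2⟩)
  have hd21 : Disjoint P2 P1 := by
    rw [Finset.disjoint_left]
    intro p h1 h2
    simp only [hP1, hP2, Finset.mem_filter] at h1 h2
    linarith [h1.2, h2.2.2]
  have hd10 : Disjoint P1 P0 := by
    rw [Finset.disjoint_left]
    intro p h1 h2
    simp only [hP1, hP0, Finset.mem_filter] at h1 h2
    linarith [h1.2.1, h2.2]
  have hd20 : Disjoint P2 P0 := by
    rw [Finset.disjoint_left]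
    intro p h1 h2
    simp only [hP2, hP0, Finset.mem_filter] at h1 h2
    linarith [h1.2, h2.2]
  have hd0 : Disjoint (P2 ∪ P1) P0 := Finset.disjoint_union_left.2 ⟨hd20, hd10⟩
  have s0 : P0 ⊆ P := Finset.filter_subset _ _
  have s1 : P1 ⊆ P := Finset.filter_subset _ _
  have s2 : P2 ⊆ P := Finset.filter_subset _ _
  have hzl : (z₀ : ℝ) ≤ l := by
    have : (z₀ : ℝ) ≤ e * l := Nat.floor_le (by positivity)
    nlinarith
  have hfl : ∀ n : ℕ, 1 ≤ n → z₀ ≤ ⌊l ^ n⌋₊ := fun n hn => by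
    refine Nat.le_floor (hzl.trans ?_)
    exact le_self_pow₀ hl1 (by omega)
  have cW0 : 0 < cw / (4 * (k : ℝ) + 6) := by positivity
  have low : ∀ (n : ℕ) (T : Finset ℕ), 1 ≤ n → n ≤ 2 * k + 3 → T ⊆ P → (∀ p ∈ T, (p : ℝ) ≤ l ^ n) →
      (cw / (4 * (k : ℝ) + 6)) ^ (2 * k) ≤ rs0 k T := by
    intro n T hn1 hn hT hTl
    have h1 := Wr_thr hcw hl4 hk hn1 hn hz3 hp.lzl (hfl n hn1) hW
    refine (pow_le_pow_left₀ cW0.le h1 _).trans (rs0_crude ?_ hzk)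
    intro p hp
    have h2 := (mem_Ps.1 (hT hp)).1
    exact mem_Pf.2 ⟨h2.1, h2.2.1, Nat.le_floor (hTl p hp)⟩
  have hT0 : ∀ T : Finset ℕ, T ⊆ P → 0 < rs0 k T := fun T hT => rs0_pos fun p hp => hPp p (hT hp)
  refine ⟨P0, P1, P2, ⟨s0.trans hPPQ, s1.trans hPPQ, s2.trans hPPQ, hd21, hd0⟩, hun, ?_, ?_, ?_, ?_, ?_, ?_⟩
  · intro p hp; exact (Finset.mem_filter.1 hp).2
  · intro p hp; exact (Finset.mem_filter.1 hp).2
  · intro p hp; exact (Finset.mem_filter.1 hp).2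
  · rw [rs0_union hd0]
    exact mul_le_mul_of_nonneg_left (low 2 P0 (by norm_num) (by omega) s0 fun p hp => (Finset.mem_filter.1 hp).2)
      (hT0 _ (Finset.union_subset s2 s1)).le
  · rw [Finset.union_assoc, rs0_union (Finset.disjoint_union_right.2 ⟨hd21, hd20⟩)]
    refine mul_le_mul_of_nonneg_left (low (2 * k + 3) (P1 ∪ P0) (by omega) le_rfl (Finset.union_subset s1 s0) ?_)
      (hT0 _ s2).le
    intro p hp
    rcases Finset.mem_union.1 hp with h | h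
    · exact (Finset.mem_filter.1 h).2.2
    · exact (Finset.mem_filter.1 h).2.trans hmono
  · rw [hun]
    have h1 := hW z₀ z hz3 hz
    have hzr : (1 : ℝ) < z := by exact_mod_cast (by omega : 1 < z)
    have hlz0 : 0 < Real.log z := Real.log_pos hzr
    have h2 : cw / l ≤ Wr z₀ z := by
      refine le_trans ?_ h1
      rw [div_eq_mul_inv]
      refine mul_le_mul_of_nonneg_left ?_ hcw.le
      rw [le_div_iff₀ hlz0]
      have h3 : l⁻¹ * Real.log z ≤ l⁻¹ * l := mul_le_mul_of_nonneg_left hlz (by positivity)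
      rw [inv_mul_cancel₀ hl0.ne'] at h3
      exact h3.trans hp.lz1
    have h3 : (cw / l) ^ (2 * k) ≤ rs0 k P := by
      refine (pow_le_pow_left₀ (by positivity) h2 _).trans (rs0_crude ?_ hzk)
      intro p hp
      exact mem_Pf.2 (mem_Ps.1 hp).1
    calc (1 : ℝ) = (cw / l) ^ (2 * k) * (l / cw) ^ (2 * k) := by
          rw [← mul_pow]
          have : cw / l * (l / cw) = 1 := by field_simp
          rw [this, one_pow]
      _ ≤ _ := mul_le_mul_of_nonneg_right h3 (by positivity)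

/-- bound for the multiples -/
noncomputable def tb (Cr l : ℝ) (k z₀ Y : ℕ) (p : ℕ) : ℝ :=
  if (p : ℝ) ≤ l ^ (2 * k + 3) then Cr * (2 * Y / (p * Real.log z₀)) else 2 * Y / l ^ (2 * k + 3)

lemma tb_ok {e κ Cr cW cw l : ℝ} {k E : ℕ} (hp : Par e κ Cr cW cw k E l) (he0 : 0 < e) (he1 : e ≤ 1 / 2)
    (hCr : 0 < Cr)
    (hC : ∀ z p Y : ℕ, 2 ≤ z → z < p → p.Prime → z ≤ Y / p + 1 → ∀ b n : ℤ,
      ∀ S : Finset ℤ, S ⊆ Finset.Ioc (0 : ℤ) (0 + (Y : ℤ)) → (∀ h ∈ S, (p : ℤ) ∣ n + h) →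
      (∀ h ∈ S, ∀ q ∈ PP z, ¬ (q : ℤ) ∣ b + h) →
      (S.card : ℝ) ≤ Cr * (((Y / p + 1 : ℕ) : ℝ) / Real.log z))
    {Y : ℕ} (hY : l ^ (E + 2 * k + 5) ≤ Y) {p : ℕ} (hpp : p.Prime) (hzp : ⌊e * l⌋₊ < p) (b n : ℤ)
    (S : Finset ℤ) (hS : S ⊆ Finset.Ioc (0 : ℤ) (0 + (Y : ℤ))) (h1 : ∀ h ∈ S, (p : ℤ) ∣ n + h)
    (h2 : ∀ h ∈ S, ∀ q ∈ PP ⌊e * l⌋₊, ¬ (q : ℤ) ∣ b + h) :
    (S.card : ℝ) ≤ tb Cr l k ⌊e * l⌋₊ Y p := by
  have hl4 := hp.l4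
  have hl0 : 0 < l := by linarith
  have hl1 : 1 ≤ l := by linarith
  set z₀ : ℕ := ⌊e * l⌋₊ with hz₀
  have hz3 := hp.z3
  have hp0 : (0 : ℝ) < p := by exact_mod_cast hpp.pos
  have hlz1 := hp.lz1
  have hlz0 : 0 < Real.log z₀ := by linarith
  have hzl : (z₀ : ℝ) ≤ l := by
    have : (z₀ : ℝ) ≤ e * l := Nat.floor_le (by positivity)
    nlinarith
  have hY1 : l ^ (2 * k + 5) ≤ Y := (pow_le_pow_right₀ hl1 (by omega)).trans hY
  unfold tb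
  split_ifs with hpl
  · -- refined
    have h3 : (l : ℝ) * p ≤ Y := by
      calc l * p ≤ l * l ^ (2 * k + 3) := mul_le_mul_of_nonneg_left hpl hl0.le
        _ = l ^ (2 * k + 4) := by ring
        _ ≤ l ^ (2 * k + 5) := pow_le_pow_right₀ hl1 (by omega)
        _ ≤ Y := hY1
    have h4 : z₀ ≤ Y / p := by
      rw [Nat.le_div_iff_mul_le hpp.pos]
      have : ((z₀ * p : ℕ) : ℝ) ≤ Y := by
        push_cast
        exact (mul_le_mul_of_nonneg_right hzl hp0.le).trans h3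
      exact_mod_cast this
    refine (hC z₀ p Y (by omega) hzp hpp (by omega) b n S hS h1 h2).trans ?_
    refine mul_le_mul_of_nonneg_left ?_ hCr.le
    rw [div_le_div_iff₀ hlz0 (by positivity)]
    have h5 : ((Y / p + 1 : ℕ) : ℝ) * p ≤ 2 * Y := by
      have h6 : (Y / p : ℕ) * p ≤ Y := Nat.div_mul_le_self Y p
      have h7 : ((Y / p : ℕ) : ℝ) * p ≤ Y := by exact_mod_cast h6
      have h8 : (p : ℝ) ≤ Y := by nlinarith
      push_cast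
      rw [add_mul, one_mul]
      have h9 : ((Y / p : ℕ) : ℝ) * p ≤ Y := h7
      linarith
    calc ((Y / p + 1 : ℕ) : ℝ) * (p * Real.log z₀) = (((Y / p + 1 : ℕ) : ℝ) * p) * Real.log z₀ := by ring
      _ ≤ (2 * Y) * Real.log z₀ := mul_le_mul_of_nonneg_right h5 hlz0.le
      _ = _ := by ring
  · push Not at hpl
    have h3 := tp_triv hpp.one_lt.le n hS h1
    have h4 : (S.card : ℝ) ≤ Y / p + 1 := by
      have h5 : (S.card : ℝ) ≤ ((Y / p + 1 : ℕ) : ℝ) := by exact_mod_cast h3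
      have h6 : ((Y / p : ℕ) : ℝ) ≤ (Y : ℝ) / p := Nat.cast_div_le
      push_cast at h5
      have h7 : ((Y / p : ℕ) : ℝ) + 1 ≤ (Y : ℝ) / p + 1 := by linarith
      linarith
    refine h4.trans ?_
    have hl3 : 0 < l ^ (2 * k + 3) := by positivity
    have h5 : (Y : ℝ) / p ≤ Y / l ^ (2 * k + 3) := div_le_div_of_nonneg_left (Nat.cast_nonneg _) hl3 hpl.le
    have h6 : 1 ≤ (Y : ℝ) / l ^ (2 * k + 3) := by
      rw [le_div_iff₀ hl3, one_mul]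
      exact (pow_le_pow_right₀ hl1 (by omega)).trans hY1
    have e1 : 2 * (Y : ℝ) / l ^ (2 * k + 3) = Y / l ^ (2 * k + 3) + Y / l ^ (2 * k + 3) := by ring
    rw [e1]
    linarith

end Run7.h52.U15
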