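import Pool.Agent.Run7.h52.U15

set_option autoImplicit false
set_option linter.unusedSectionVars false

namespace Run7.h52.U16

open Finset Run7.h52.Count Run7.h52.Rough Run7.h52.Asym Run7.h52.AsmV Run7.h52.U7 Run7.h52.U8 Run7.h52.U9
  Run7.h52.U10 Run7.h52.U11 Run7.h52.U12 Run7.h52.U13 Run7.h52.U14 Run7.h52.U15

/-- number of the admissible shifts -/
lemma Hsize {e κ Cr cW cw l : ℝ} {k Rs : ℕ} (hp : Par e κ Cr cW cw k (8 * Rs + 16) l) (he0 : 0 < e)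
    (he1 : e ≤ 1 / 2) (hCr : 0 < Cr) (hcW : 0 < cW) (hRs : 13 ≤ Rs)
    (hκs : 2 * (2 ^ 24 * (1 / 2 : ℝ) ^ (2 * Rs)) ≤ κ / 2)
    (hWl : ∀ y : ℕ, 3 ≤ y → cW ≤ W y * Real.log y)
    (hC : ∀ z p Y : ℕ, 2 ≤ z → z < p → p.Prime → z ≤ Y / p + 1 → ∀ b n : ℤ,
      ∀ S : Finset ℤ, S ⊆ Finset.Ioc (0 : ℤ) (0 + (Y : ℤ)) → (∀ h ∈ S, (p : ℤ) ∣ n + h) →
      (∀ h ∈ S, ∀ q ∈ PP z, ¬ (q : ℤ) ∣ b + h) →
      (S.card : ℝ) ≤ Cr * (((Y / p + 1 : ℕ) : ℝ) / Real.log z))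
    {Y : ℕ} (hY : l ^ (8 * Rs + 16 + 2 * k + 5) ≤ Y) {d z : ℕ} (hd : 1 ≤ d) (hdl : Real.log d ≤ l)
    (hz : ⌊e * l⌋₊ ≤ z) (b : ℤ) :
    (1 - 2 * κ) * (W ⌊e * l⌋₊ * Y) ≤ (Hb (d * W0 ⌊e * l⌋₊) z Y b).card ∧
    ((Hb (d * W0 ⌊e * l⌋₊) z Y b).card : ℝ) ≤ (1 + κ) * (W ⌊e * l⌋₊ * Y) := by
  have hl4 := hp.l4
  have hl0 : 0 < l := by linarith
  have hl1 : 1 ≤ l := by linarith
  have hbr := hp.br
  have hcnt := hp.cnt
  have hz3 := hp.z3
  have hlz1 := hp.lz1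
  set z₀ : ℕ := ⌊e * l⌋₊ with hz₀
  have hlz0 : 0 < Real.log z₀ := by linarith
  have hz0 : (0 : ℝ) < z₀ := by exact_mod_cast (by omega : 0 < z₀)
  have hY0 : (0 : ℝ) ≤ Y := Nat.cast_nonneg _
  have hW0 : cW / Real.log z₀ ≤ W z₀ := by
    rw [div_le_iff₀ hlz0]; exact hWl z₀ hz3
  have hκ0 : 0 ≤ κ := by
    have : 0 ≤ κ / 2 := le_trans (by positivity) hκs
    linarith
  have hb := brun Rs hRs z₀ z₀ le_rfl (by omega) Y 0 b
  set WY := W z₀ * Y with hWY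
  have hWpos := W_pos z₀
  have hWY0 : 0 ≤ WY := mul_nonneg hWpos.le hY0
  have h1 : (z₀ : ℝ) ^ (8 * Rs + 16) ≤ κ / 2 * WY := by
    refine hbr.trans ?_
    refine mul_le_mul_of_nonneg_left ?_ (by linarith)
    exact mul_le_mul hW0 hY (by positivity) hWpos.le
  have h2 : 2 * (2 ^ 24 * (1 / 2 : ℝ) ^ (2 * Rs)) * WY ≤ κ / 2 * WY := mul_le_mul_of_nonneg_right hκs hWY0
  have h3 := abs_le.1 (hb.trans (by linarith : _ ≤ κ * WY))
  constructor
  · set T : ℝ := Y * (2 * Cr / (z₀ * Real.log z₀) + 2 / l ^ (2 * k + 3)) with hT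
    have hlow := Hb_low (d := d) (z := z) (Y := Y) (z₀ := z₀) (b := b) T ?_
    · have hbc := bad_card (z₀ := z₀) (z := z) hd (by omega)
      have hT0 : 0 ≤ T := by positivity
      have h4 : ((Bad d z₀ z).card : ℝ) ≤ l / Real.log z₀ := by
        rw [le_div_iff₀ hlz0]; linarith
      have h5 : ((Bad d z₀ z).card : ℝ) * T ≤ κ * WY := by
        calc ((Bad d z₀ z).card : ℝ) * T ≤ l / Real.log z₀ * T := mul_le_mul_of_nonneg_right h4 hT0
          _ = (l * (2 * Cr / (z₀ * Real.log z₀) + 2 / l ^ (2 * k + 3))) * (Y / Real.log z₀) := by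
              rw [hT]; ring
          _ ≤ κ * cW * (Y / Real.log z₀) := mul_le_mul_of_nonneg_right hcnt (by positivity)
          _ = κ * (cW / Real.log z₀ * Y) := by ring
          _ ≤ κ * WY := mul_le_mul_of_nonneg_left (mul_le_mul_of_nonneg_right hW0 hY0) hκ0
      linarith [h3.1]
    · intro p hpB S hS hS1 hS2
      rw [Bad, Finset.mem_filter] at hpB
      have hp' := mem_PP.1 hpB.1
      have hp0 : (0 : ℝ) < p := by exact_mod_cast hp'.1.pos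
      have hzp : (z₀ : ℝ) ≤ p := by exact_mod_cast hpB.2.1.le
      have h4 := tb_ok hp he0 he1 hCr hC hY hp'.1 hpB.2.1 b b S hS hS1 hS2
      refine h4.trans ?_
      have n1 : 0 ≤ 2 * Cr / (z₀ * Real.log z₀) := by positivity
      have n2 : 0 ≤ 2 / l ^ (2 * k + 3) := by positivity
      unfold tb
      split_ifs
      · have h5 : Cr * (2 * Y / (p * Real.log z₀)) ≤ Cr * (2 * Y / (z₀ * Real.log z₀)) := by
          refine mul_le_mul_of_nonneg_left ?_ hCr.le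
          exact div_le_div_of_nonneg_left (by positivity) (by positivity)
            (mul_le_mul_of_nonneg_right hzp hlz0.le)
        refine h5.trans ?_
        rw [hT, mul_add]
        have e1 : Cr * (2 * Y / (z₀ * Real.log z₀)) = Y * (2 * Cr / (z₀ * Real.log z₀)) := by ring
        rw [e1]
        have := mul_nonneg hY0 n2
        linarith
      · rw [hT, mul_add]
        have e1 : 2 * (Y : ℝ) / l ^ (2 * k + 3) = Y * (2 / l ^ (2 * k + 3)) := by ring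
        rw [e1]
        have := mul_nonneg hY0 n1
        linarith
  · have h4 : ((Hb (d * W0 z₀) z Y b).card : ℝ) ≤ rg z₀ (Finset.Ioc (0 : ℤ) (0 + (Y : ℤ))) b := by
      unfold rg
      exact_mod_cast Finset.card_le_card (Hb_surv hz (Dvd.intro_left d rfl))
    linarith [h3.2]

/-- the main term -/
lemma fin8 {κ w₀ wr ρ y : ℝ} (hκ0 : 0 < κ) (hκ1 : κ ≤ 1 / 10) {k h : ℕ} (hw0 : 0 < w₀) (hwr : 0 < wr)
    (hy : 0 ≤ y) (h1 : (1 - 2 * κ) * (w₀ * y) ≤ h) (h2 : (h : ℝ) ≤ (1 + κ) * (w₀ * y))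
    (hk : (k : ℝ) ≤ κ * h) (r1 : (1 - κ) * wr ^ k ≤ ρ) (r2 : ρ ≤ (1 + κ) * wr ^ k) :
    (1 - κ) * (1 - 3 * κ) ^ k * ((wr * w₀ * y) ^ k / (k.factorial : ℝ)) ≤ ρ * ((h.choose k : ℕ) : ℝ) ∧
    ρ * ((h.choose k : ℕ) : ℝ) ≤ (1 + κ) ^ (k + 1) * ((wr * w₀ * y) ^ k / (k.factorial : ℝ)) := by
  have hf : (0 : ℝ) < (k.factorial : ℝ) := by exact_mod_cast k.factorial_pos
  have hwk : 0 < wr ^ k := pow_pos hwr k
  have hρ0 : 0 ≤ ρ := le_trans (mul_nonneg (by linarith) hwk.le) r1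
  have hh0 : (0 : ℝ) ≤ h := Nat.cast_nonneg h
  have hwy : 0 ≤ w₀ * y := mul_nonneg hw0.le hy
  constructor
  · have c1 : (((h + 1 - k : ℕ) : ℝ)) ^ k / (k.factorial : ℝ) ≤ ((h.choose k : ℕ) : ℝ) := by
      exact_mod_cast Nat.pow_le_choose (α := ℝ) k h
    have hkh : k ≤ h := by
      have : (k : ℝ) ≤ h := hk.trans (by nlinarith)
      exact_mod_cast this
    have c2 : (1 - 3 * κ) * (w₀ * y) ≤ ((h + 1 - k : ℕ) : ℝ) := by
      have e1 : ((h + 1 - k : ℕ) : ℝ) = h + 1 - k := by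
        rw [Nat.cast_sub (by omega)]; push_cast; ring
      rw [e1]
      have h5 : (1 - κ) * ((1 - 2 * κ) * (w₀ * y)) ≤ (1 - κ) * h := mul_le_mul_of_nonneg_left h1 (by linarith)
      have h6 : (1 - 3 * κ) * (w₀ * y) ≤ (1 - κ) * ((1 - 2 * κ) * (w₀ * y)) := by
        have : (1 - κ) * ((1 - 2 * κ) * (w₀ * y)) - (1 - 3 * κ) * (w₀ * y) = 2 * κ ^ 2 * (w₀ * y) := by ring
        have : 0 ≤ 2 * κ ^ 2 * (w₀ * y) := by positivity
        linarith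
      linarith
    have c3 : ((1 - 3 * κ) * (w₀ * y)) ^ k ≤ (((h + 1 - k : ℕ) : ℝ)) ^ k :=
      pow_le_pow_left₀ (mul_nonneg (by linarith) hwy) c2 k
    have c4 : ((1 - 3 * κ) * (w₀ * y)) ^ k / (k.factorial : ℝ) ≤ ((h.choose k : ℕ) : ℝ) :=
      (div_le_div_of_nonneg_right c3 hf.le).trans c1
    calc (1 - κ) * (1 - 3 * κ) ^ k * ((wr * w₀ * y) ^ k / (k.factorial : ℝ))
        = ((1 - κ) * wr ^ k) * (((1 - 3 * κ) * (w₀ * y)) ^ k / (k.factorial : ℝ)) := by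
          rw [mul_assoc wr, mul_pow wr, mul_pow (1 - 3 * κ)]; ring
      _ ≤ ρ * ((h.choose k : ℕ) : ℝ) :=
          mul_le_mul r1 c4 (div_nonneg (pow_nonneg (mul_nonneg (by linarith) hwy) k) hf.le) hρ0
  · have c1 : ((h.choose k : ℕ) : ℝ) ≤ (h : ℝ) ^ k / (k.factorial : ℝ) := by
      exact_mod_cast Nat.choose_le_pow_div (α := ℝ) k h
    have c2 : (h : ℝ) ^ k / (k.factorial : ℝ) ≤ ((1 + κ) * (w₀ * y)) ^ k / (k.factorial : ℝ) :=
      div_le_div_of_nonneg_right (pow_le_pow_left₀ hh0 h2 k) hf.le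
    calc ρ * ((h.choose k : ℕ) : ℝ) ≤ ((1 + κ) * wr ^ k) * (((1 + κ) * (w₀ * y)) ^ k / (k.factorial : ℝ)) :=
          mul_le_mul r2 (c1.trans c2) (Nat.cast_nonneg _) (mul_nonneg (by linarith) hwk.le)
      _ = _ := by
          rw [mul_assoc wr, mul_pow wr, mul_pow (1 + κ) (w₀ * y), pow_succ]; ring

/-- the survivors in one class -/
lemma surv_eq {z₀ z D Y : ℕ} (hD : W0 z₀ ∣ D) (b m : ℤ) :
    SW.survivors (PP z) (Finset.Ioc (0 : ℤ) (0 + (Y : ℤ))) (b + D * m)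
      = Hs D b (Ps z₀ z D) (Hb D z Y b) m := by
  classical
  ext h
  rw [SW.survivors, Finset.mem_filter, Hs, Finset.mem_filter, Hb, Finset.mem_filter]
  have key : ∀ p : ℕ, p ∣ D → ((p : ℤ) ∣ b + D * m + h ↔ (p : ℤ) ∣ b + h) := by
    intro p hp
    have h1 : (p : ℤ) ∣ D * m := (by exact_mod_cast hp : (p : ℤ) ∣ (D : ℤ)).mul_right m
    have e : b + D * m + h = (b + h) + D * m := by ring
    rw [e]
    exact (Int.dvd_add_left h1)
  constructor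
  · rintro ⟨h1, h2⟩
    refine ⟨⟨h1, fun p hp hd => ?_⟩, fun p hp => ?_⟩
    · rw [← key p hd]; exact h2 p hp
    · have hp' := mem_Ps.1 hp
      have h3 := h2 p (mem_PP.2 ⟨hp'.1.1, hp'.1.2.2⟩)
      have e : (D : ℤ) * m + (b + h) = b + D * m + h := by ring
      rw [e]; exact h3
  · rintro ⟨⟨h1, h2⟩, h3⟩
    refine ⟨h1, fun p hp => ?_⟩
    have hp' := mem_PP.1 hp
    by_cases hd : p ∣ D
    · rw [key p hd]; exact h2 p hp hd
    · have hz : z₀ < p := by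
        by_contra hcon
        push Not at hcon
        exact hd ((Finset.dvd_prod_of_mem (fun p => p) (mem_PP.2 ⟨hp'.1, hcon⟩)).trans hD)
      have h4 := h3 p (mem_Ps.2 ⟨⟨hp'.1, hz, hp'.2⟩, hd⟩)
      have e : (D : ℤ) * m + (b + h) = b + D * m + h := by ring
      rw [e] at h4; exact h4

end Run7.h52.U16
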