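import Pool.Agent.Run7.h52.U16

set_option autoImplicit false
set_option linter.unusedSectionVars false

namespace Run7.h52.U17

open Finset Run7.h52.Sp Run7.h52.Count Run7.h52.Rough Run7.h52.Asym Run7.h52.AsmV Run7.h52.U5 Run7.h52.U7
  Run7.h52.U8 Run7.h52.U9
  Run7.h52.U10 Run7.h52.U11 Run7.h52.U12 Run7.h52.U13 Run7.h52.U14 Run7.h52.U15 Run7.h52.U16 Run7.h52.AsmT
open Run7.h52.Transfer (HasLevel)

/-- the sieve parameter -/
lemma exists_Rs (κ : ℝ) (hκ : 0 < κ) (k : ℕ) : ∃ Rs : ℕ, 13 ≤ Rs ∧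
    2 * (2 ^ 24 * (1 / 2 : ℝ) ^ (2 * Rs)) ≤ κ / 2 ∧
    Real.exp (16 * (k : ℝ)) * (1 / 2) ^ (2 * Rs) ≤ 1 ∧ 2 * (Real.exp (16 * (k : ℝ)) * (1 / 2) ^ (2 * Rs)) ≤ κ := by
  have h : ∀ c : ℝ, 0 < c → ∃ n : ℕ, ∀ m : ℕ, n ≤ m → (1 / 2 : ℝ) ^ (2 * m) ≤ c := by
    intro c hc
    obtain ⟨n, hn⟩ := exists_pow_lt_of_lt_one hc (by norm_num : (1 / 2 : ℝ) < 1)
    refine ⟨n, fun m hm => le_trans ?_ hn.le⟩
    exact pow_le_pow_of_le_one (by norm_num) (by norm_num) (by omega)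
  have he := Real.exp_pos (16 * (k : ℝ))
  obtain ⟨n1, h1⟩ := h (κ / (4 * 2 ^ 24)) (by positivity)
  obtain ⟨n2, h2⟩ := h (1 / Real.exp (16 * (k : ℝ))) (by positivity)
  obtain ⟨n3, h3⟩ := h (κ / (2 * Real.exp (16 * (k : ℝ)))) (by positivity)
  refine ⟨13 + n1 + n2 + n3, by omega, ?_, ?_, ?_⟩
  · have := h1 (13 + n1 + n2 + n3) (by omega)
    rw [le_div_iff₀ (by positivity)] at this
    linarith
  · have := h2 (13 + n1 + n2 + n3) (by omega)
    rw [le_div_iff₀ he] at this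
    linarith
  · have := h3 (13 + n1 + n2 + n3) (by omega)
    rw [le_div_iff₀ (by positivity)] at this
    linarith

/-- powers of the logarithm against a power -/
lemma pow_gap {ξ κ cw : ℝ} (hξ : 0 < ξ) (hκ : 0 < κ) (hcw : 0 < cw) (k : ℕ) :
    ∀ᶠ l : ℝ in Filter.atTop, 4 * (1 + l) * (l / cw) ^ (2 * k) ≤ κ * Real.exp (ξ * l) ∧
      4 * (1 + l) ≤ κ * Real.exp (ξ * l) ∧ 2 ≤ Real.exp (ξ * l) := by
  have h1 := (isLittleO_pow_exp_pos_mul_atTop (k := 2 * k + 1) hξ).bound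
    (c := κ * cw ^ (2 * k) / 8) (by positivity)
  have h2 := (isLittleO_pow_exp_pos_mul_atTop (k := 1) hξ).bound (c := κ / 8) (by positivity)
  have h3 := (isLittleO_pow_exp_pos_mul_atTop (k := 1) hξ).bound (c := 1) (by positivity)
  filter_upwards [h1, h2, h3, Filter.eventually_ge_atTop 2] with l g1 g2 g3 g4
  have hl0 : 0 < l := by linarith
  rw [Real.norm_of_nonneg (by positivity), Real.norm_of_nonneg (Real.exp_pos _).le] at g1 g2 g3
  have hE := Real.exp_pos (ξ * l)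
  refine ⟨?_, ?_, by simpa using g4.trans (by simpa using g3)⟩
  · have h4 : 4 * (1 + l) * (l / cw) ^ (2 * k) ≤ 8 * l * (l / cw) ^ (2 * k) :=
      mul_le_mul_of_nonneg_right (by linarith) (by positivity)
    refine h4.trans ?_
    rw [div_pow]
    have h5 : 8 * l * (l ^ (2 * k) / cw ^ (2 * k)) = 8 * l ^ (2 * k + 1) / cw ^ (2 * k) := by ring
    rw [h5, div_le_iff₀ (by positivity)]
    have := mul_le_mul_of_nonneg_left g1 (by norm_num : (0 : ℝ) ≤ 8)
    linarith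
  · rw [pow_one] at g2
    linarith

lemma sv_of_fund {k : ℕ} {Rs : ℕ}
    (h1 : Real.exp (16 * (k : ℝ)) * (1 / 2) ^ (2 * Rs) ≤ 1)
    {I : ℕ} (hI : 1 ≤ I) (T : Finset ℕ) (hT : ∀ p ∈ T, p.Prime ∧ p ≤ 2 ^ 2 ^ I) :
    SV T (2 ^ ((4 * Rs + 8) * 2 ^ I)) ((2 ^ ((4 * Rs + 8) * 2 ^ I) : ℕ) : ℝ) k
      (2 * (Real.exp (16 * (k : ℝ)) * (1 / 2) ^ (2 * Rs))) := by
  obtain ⟨U, L, a, b, c, d⟩ := fund T (fun p hp => (hT p hp).1) k (Nat.cast_nonneg k) Rs h1 I hI
    (fun p hp => (hT p hp).2)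
  exact ⟨U, L, a, b, c, d⟩

/-- sizes of the errors -/
lemma sizes {θ e κ B ρ l : ℝ} {N d R D W N' : ℕ} (hN : Real.exp l = N) (hl : 0 < l) (he0 : 0 < e)
    (hθe : 6 * e < 1 - θ) (hκ : 0 < κ) (hd : 1 ≤ d) (hR : 1 ≤ R) (hD : 1 ≤ D) (hW : 1 ≤ W)
    (hdR : (d : ℝ) * (R : ℝ) ^ 2 ≤ (N : ℝ) ^ θ) (hWl : Real.log W ≤ 2 * e * l) (hDl : 4 * Real.log D ≤ e * l)
    (h1 : 4 * (1 + l) * B ≤ κ * Real.exp ((1 - θ - 3 * e) * l))
    (h2 : 4 * (1 + l) ≤ κ * Real.exp ((1 - θ - 3 * e) * l)) (h3 : 2 ≤ Real.exp ((1 - θ - 3 * e) * l))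
    (hB : 1 ≤ ρ * B) (hρ : 0 < ρ)
    (hN' : (N : ℝ) / (d * W : ℕ) - 1 ≤ N') :
    Er R ≤ κ * N' ∧ Err R D ((D : ℕ) : ℝ) ≤ κ * (N' * ρ) ∧ Real.log R ≤ l ∧ Real.log d ≤ l ∧ 1 ≤ N' := by
  have hd0 : (0 : ℝ) < d := by exact_mod_cast hd
  have hR0 : (0 : ℝ) < R := by exact_mod_cast hR
  have hD0 : (0 : ℝ) < D := by exact_mod_cast hD
  have hW0 : (0 : ℝ) < W := by exact_mod_cast hW
  have hd1 : 0 ≤ Real.log d := Real.log_nonneg (by exact_mod_cast hd)
  have hR1 : 0 ≤ Real.log R := Real.log_nonneg (by exact_mod_cast hR)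
  have hD1 : 0 ≤ Real.log D := Real.log_nonneg (by exact_mod_cast hD)
  have hN0 : (0 : ℝ) < N := by rw [← hN]; exact Real.exp_pos _
  have hlN : Real.log N = l := by rw [← hN, Real.log_exp]
  have hdRl : Real.log d + 2 * Real.log R ≤ θ * l := by
    have := Real.log_le_log (by positivity) hdR
    rw [Real.log_rpow hN0, Real.log_mul hd0.ne' (by positivity), Real.log_pow, hlN] at this
    push_cast at this
    linarith
  have hel : 0 < e * l := by positivity
  have hθl : θ * l + 6 * (e * l) ≤ l := by nlinarith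
  have hRl : Real.log R ≤ l := by linarith
  have hdl : Real.log d ≤ l := by linarith
  -- the number of the terms
  have hD1r : (N : ℝ) / (d * W : ℕ) = Real.exp (l - Real.log d - Real.log W) := by
    rw [Real.exp_sub, Real.exp_sub, Real.exp_log hd0, Real.exp_log hW0, hN]
    push_cast
    rw [div_div]
  have hE1 : Real.exp (l - Real.log d - 2 * (e * l)) ≤ (N : ℝ) / (d * W : ℕ) := by
    rw [hD1r]
    exact Real.exp_le_exp.2 (by linarith)
  have hE2 : 2 ≤ Real.exp (l - Real.log d - 2 * (e * l)) := by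
    refine h3.trans (Real.exp_le_exp.2 ?_)
    have : (1 - θ - 3 * e) * l = l - θ * l - 3 * (e * l) := by ring
    rw [this]; linarith
  have hNn : Real.exp (l - Real.log d - 2 * (e * l)) / 2 ≤ N' := by linarith
  have hN1 : (1 : ℝ) ≤ N' := by linarith
  have hsplit : Real.exp (l - Real.log d - 2 * (e * l))
      = Real.exp ((1 - θ - 3 * e) * l) * Real.exp (θ * l - Real.log d + e * l) := by
    rw [← Real.exp_add]; congr 1; ring
  have hX0 := Real.exp_pos (θ * l - Real.log d + e * l)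
  refine ⟨?_, ?_, hRl, hdl, by exact_mod_cast hN1⟩
  · have e1 : (R : ℝ) ^ 2 = Real.exp (2 * Real.log R) := by
      rw [two_mul, Real.exp_add, Real.exp_log hR0]; ring
    have e2 : Er R ≤ Real.exp (θ * l - Real.log d + e * l) * (1 + l) := by
      unfold Er
      refine mul_le_mul ?_ ?_ ?_ hX0.le
      · rw [e1]; exact Real.exp_le_exp.2 (by linarith)
      · rw [Real.log_pow]; push_cast; linarith
      · rw [Real.log_pow]; push_cast; linarith
    refine e2.trans ?_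
    have e3 : κ * (Real.exp (l - Real.log d - 2 * (e * l)) / 2) ≤ κ * N' := mul_le_mul_of_nonneg_left hNn hκ.le
    refine le_trans ?_ e3
    rw [hsplit]
    have := mul_le_mul_of_nonneg_right h2 hX0.le
    nlinarith
  · have e1 : (((R * D : ℕ) : ℝ)) ^ 2 = Real.exp (2 * Real.log R + 2 * Real.log D) := by
      push_cast
      rw [Real.exp_add, two_mul, two_mul, Real.exp_add, Real.exp_add, Real.exp_log hR0, Real.exp_log hD0]; ring
    have e2 : Er (R * D) ≤ Real.exp (2 * Real.log R + 2 * Real.log D) * (1 + l) := by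
      unfold Er
      rw [e1, Real.log_exp]
      exact mul_le_mul_of_nonneg_left (by linarith) (Real.exp_pos _).le
    have e3 : (1 : ℝ) + (D : ℝ) ^ 2 ≤ 2 * Real.exp (2 * Real.log D) := by
      have e4 : (D : ℝ) ^ 2 = Real.exp (2 * Real.log D) := by
        rw [two_mul, Real.exp_add, Real.exp_log hD0]; ring
      have e5 : (1 : ℝ) ≤ Real.exp (2 * Real.log D) := Real.one_le_exp (by linarith)
      rw [e4]; linarith
    have e6 : Err R D ((D : ℕ) : ℝ) ≤ (Real.exp (2 * Real.log R + 2 * Real.log D) * (1 + l)) *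
        (2 * Real.exp (2 * Real.log D)) := by
      unfold Err
      exact mul_le_mul e2 e3 (by positivity) (by positivity)
    have e7 : (Real.exp (2 * Real.log R + 2 * Real.log D) * (1 + l)) *
        (2 * Real.exp (2 * Real.log D)) = 2 * (1 + l) * Real.exp (2 * Real.log R + 4 * Real.log D) := by
      have : 2 * Real.log R + 4 * Real.log D = (2 * Real.log R + 2 * Real.log D) + 2 * Real.log D := by ring
      rw [this, Real.exp_add (2 * Real.log R + 2 * Real.log D)]; ring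
    have e8 : Real.exp (2 * Real.log R + 4 * Real.log D) ≤ Real.exp (θ * l - Real.log d + e * l) :=
      Real.exp_le_exp.2 (by linarith)
    have e9 : Err R D ((D : ℕ) : ℝ) ≤ 2 * (1 + l) * Real.exp (θ * l - Real.log d + e * l) := by
      rw [e7] at e6
      exact e6.trans (mul_le_mul_of_nonneg_left e8 (by linarith))
    refine e9.trans ?_
    have f1 : κ * (Real.exp (l - Real.log d - 2 * (e * l)) / 2 * ρ) ≤ κ * (N' * ρ) :=
      mul_le_mul_of_nonneg_left (mul_le_mul_of_nonneg_right hNn hρ.le) hκ.le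
    refine le_trans ?_ f1
    rw [hsplit]
    -- 4 (1 + l) ≤ κ exp(ξ l) ρ
    have f2 : 4 * (1 + l) ≤ κ * Real.exp ((1 - θ - 3 * e) * l) * ρ := by
      have g1 : 4 * (1 + l) * 1 ≤ 4 * (1 + l) * (ρ * B) := mul_le_mul_of_nonneg_left hB (by linarith)
      have g2 := mul_le_mul_of_nonneg_right h1 hρ.le
      linarith
    have f3 := mul_le_mul_of_nonneg_right f2 hX0.le
    nlinarith

end Run7.h52.U17
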