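import Pool.Agent.Run7.h52.U17

set_option autoImplicit false
set_option linter.unusedSectionVars false

namespace Run7.h52.U18

open Finset Run7.h52.Sp Run7.h52.Count Run7.h52.Rough Run7.h52.Asym Run7.h52.AsmV Run7.h52.U5 Run7.h52.U7
  Run7.h52.U8 Run7.h52.U9
  Run7.h52.U10 Run7.h52.U11 Run7.h52.U12 Run7.h52.U13 Run7.h52.U14 Run7.h52.U15 Run7.h52.U16 Run7.h52.U17
  Run7.h52.AsmT
open Run7.h52.Transfer (HasLevel)

/-- the conditions on the multiplicities -/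
lemma epsc {e κ Cr cW cw l : ℝ} {k E : ℕ} (hp : Par e κ Cr cW cw k E l) (he0 : 0 < e)
    (hCr : 0 < Cr) (hcW : 0 < cW) {Y h : ℕ} (hh : cW * Y / (2 * Real.log ⌊e * l⌋₊) ≤ h) :
    (∀ p : ℕ, ⌊e * l⌋₊ < p → (p : ℝ) ≤ l ^ 2 → 2 * k * tb Cr l k ⌊e * l⌋₊ Y p * l ≤
      16 * k * Cr / (cW * e * Real.log ⌊e * l⌋₊) * (h * Real.log p)) ∧
    (∀ p : ℕ, ⌊e * l⌋₊ < p → l ^ 2 < (p : ℝ) → (p : ℝ) ≤ l ^ (2 * k + 3) →
      2 * k * tb Cr l k ⌊e * l⌋₊ Y p * l ≤ 8 * k * Cr / (cW * l) * (h * Real.log p)) ∧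
    (∀ p : ℕ, ⌊e * l⌋₊ < p → l ^ (2 * k + 3) < (p : ℝ) →
      2 * k * tb Cr l k ⌊e * l⌋₊ Y p * l ≤ 8 * k / (cW * l ^ (2 * k + 2)) * (h * Real.log p)) := by
  have hl4 := hp.l4
  have hl0 : 0 < l := by linarith
  have hl1 : 1 ≤ l := by linarith
  have hzge := hp.zge
  have hz3 := hp.z3
  have hlz1 := hp.lz1
  set z₀ : ℕ := ⌊e * l⌋₊ with hz₀
  set lz := Real.log (z₀ : ℝ) with hlz
  have hlz0 : 0 < lz := by linarith
  have hz0 : (0 : ℝ) < z₀ := by exact_mod_cast (by omega : 0 < z₀)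
  have hk0 : (0 : ℝ) ≤ k := Nat.cast_nonneg k
  have hY0 : (0 : ℝ) ≤ Y := Nat.cast_nonneg _
  have base : ∀ (p : ℕ) (ε : ℝ), z₀ < p → 0 ≤ ε →
      ε * (cW * Y / (2 * lz) * lz) ≤ ε * (h * Real.log p) := by
    intro p ε hzp hε
    have hpz : (z₀ : ℝ) ≤ p := by exact_mod_cast hzp.le
    have hlp := Real.log_le_log hz0 hpz
    exact mul_le_mul_of_nonneg_left (mul_le_mul hh hlp hlz0.le (Nat.cast_nonneg h)) hε
  refine ⟨fun p hzp hpl => ?_, fun p hzp hpl hpu => ?_, fun p hzp hpl => ?_⟩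
  · have hpz : (z₀ : ℝ) ≤ p := by exact_mod_cast hzp.le
    have hp0 : (0 : ℝ) < p := by linarith
    refine le_trans ?_ (base p _ hzp (by positivity))
    have hle : (p : ℝ) ≤ l ^ (2 * k + 3) := hpl.trans (pow_le_pow_right₀ hl1 (by omega))
    rw [tb, if_pos hle]
    have h1 : 2 * (k : ℝ) * (Cr * (2 * Y / (p * lz))) * l ≤ 2 * k * (Cr * (2 * Y / ((e * l / 2) * lz))) * l := by
      refine mul_le_mul_of_nonneg_right ?_ hl0.le
      refine mul_le_mul_of_nonneg_left ?_ (by positivity)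
      refine mul_le_mul_of_nonneg_left ?_ hCr.le
      refine div_le_div_of_nonneg_left (by positivity) (by positivity) ?_
      exact mul_le_mul_of_nonneg_right (by linarith) hlz0.le
    refine h1.trans (le_of_eq ?_)
    field_simp
    ring
  · have hpz : (z₀ : ℝ) ≤ p := by exact_mod_cast hzp.le
    have hp0 : (0 : ℝ) < p := by linarith
    refine le_trans ?_ (base p _ hzp (by positivity))
    rw [tb, if_pos hpu]
    have h1 : 2 * (k : ℝ) * (Cr * (2 * Y / (p * lz))) * l ≤ 2 * k * (Cr * (2 * Y / (l ^ 2 * lz))) * l := by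
      refine mul_le_mul_of_nonneg_right ?_ hl0.le
      refine mul_le_mul_of_nonneg_left ?_ (by positivity)
      refine mul_le_mul_of_nonneg_left ?_ hCr.le
      refine div_le_div_of_nonneg_left (by positivity) (by positivity) ?_
      exact mul_le_mul_of_nonneg_right hpl.le hlz0.le
    refine h1.trans ?_
    have e1 : 2 * (k : ℝ) * (Cr * (2 * Y / (l ^ 2 * lz))) * l = 4 * k * Cr * Y / (l * lz) := by
      field_simp
      ring
    have e2 : 8 * (k : ℝ) * Cr / (cW * l) * (cW * Y / (2 * lz) * lz) = 4 * k * Cr * Y / l := by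
      field_simp
      ring
    rw [e1, e2]
    refine div_le_div_of_nonneg_left (by positivity) hl0 ?_
    nlinarith
  · refine le_trans ?_ (base p _ hzp (by positivity))
    rw [tb, if_neg (not_le.2 hpl)]
    apply le_of_eq
    have e1 : l ^ (2 * k + 3) = l ^ (2 * k + 2) * l := by ring
    rw [e1]
    field_simp
    ring

theorem clsB {θ e κ : ℝ} (he0 : 0 < e) (he1 : e ≤ 1 / 2) (hθe : 6 * e < 1 - θ) (hθ0 : 0 < θ)
    (hκ0 : 0 < κ) (hκ1 : κ ≤ 1 / 10) (k : ℕ) (hk : 1 ≤ k) :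
    ∃ (A : ℕ) (c : ℝ), 0 < c ∧ c ≤ 1 ∧ ∃ T : ℝ, 3 ≤ T ∧ ∀ N : ℕ, T ≤ N → ∀ Y z : ℕ,
    (Real.log N) ^ A ≤ Y → Y ≤ N → ⌊e * Real.log N⌋₊ ≤ z → (z : ℝ) ≤ (N : ℝ) ^ c →
    ∀ (d R : ℕ) (V : ℤ → ℝ), 1 ≤ d → 1 ≤ R → (d : ℝ) * (R : ℝ) ^ 2 ≤ (N : ℝ) ^ θ → HasLevel R V →
    ∀ x b : ℤ,
    (1 - 6 * κ) * ((1 - κ) * (1 - 3 * κ) ^ k * ((W z * Y) ^ k / (k.factorial : ℝ))) *
        ∑ n ∈ Finset.Ioc x (x + N),
          (if ((d * W0 ⌊e * Real.log N⌋₊ : ℕ) : ℤ) ∣ n - b then V n ^ 2 else 0)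
      ≤ ∑ n ∈ Finset.Ioc x (x + N), (if ((d * W0 ⌊e * Real.log N⌋₊ : ℕ) : ℤ) ∣ n - b then V n ^ 2 *
        (((SW.survivors (PP z) (Finset.Ioc (0 : ℤ) (0 + (Y : ℤ))) n).card.choose k : ℕ) : ℝ) else 0) ∧
    ∑ n ∈ Finset.Ioc x (x + N), (if ((d * W0 ⌊e * Real.log N⌋₊ : ℕ) : ℤ) ∣ n - b then V n ^ 2 *
        (((SW.survivors (PP z) (Finset.Ioc (0 : ℤ) (0 + (Y : ℤ))) n).card.choose k : ℕ) : ℝ) else 0)
      ≤ (1 + 10 * κ) * ((1 + κ) ^ (k + 1) * ((W z * Y) ^ k / (k.factorial : ℝ))) *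
        ∑ n ∈ Finset.Ioc x (x + N),
          (if ((d * W0 ⌊e * Real.log N⌋₊ : ℕ) : ℤ) ∣ n - b then V n ^ 2 else 0) := by
  classical
  obtain ⟨Rs, hRs, hs1, hs2, hs3⟩ := exists_Rs κ hκ0 k
  obtain ⟨Cr, hCr, hC⟩ := tp_ref
  obtain ⟨cW, hcW, hWl⟩ := AsmA.W_log
  obtain ⟨cw, hcw, hcw1, hWr⟩ := Wr_low
  have hEr : (0 : ℝ) < ((8 * Rs + 16 : ℕ) : ℝ) := by positivity
  have hE1 : (1 : ℝ) ≤ ((8 * Rs + 16 : ℕ) : ℝ) := by exact_mod_cast (by omega : 1 ≤ 8 * Rs + 16)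
  have hξ : 0 < 1 - θ - 3 * e := by linarith
  have hev := (par he0 he1 hκ0 hκ1 hCr hcW hcw hcw1 k (8 * Rs + 16) hk).and (pow_gap hξ hκ0 hcw k)
  obtain ⟨l₀, hl₀⟩ := Filter.eventually_atTop.1 hev
  refine ⟨8 * Rs + 16 + 2 * k + 5, e / (4 * ((8 * Rs + 16 : ℕ) : ℝ)), by positivity, ?_,
    max 3 (Real.exp (max l₀ 4)), le_max_left _ _, ?_⟩
  · rw [div_le_one (by positivity)]; linarith
  intro N hN Y z hY hYN hz hzN d R V hd hR hdR hV x b
  have hN3 : (3 : ℝ) ≤ N := (le_max_left _ _).trans hN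
  have hN0 : (0 : ℝ) < N := by linarith
  set l := Real.log (N : ℝ) with hl
  have hll : max l₀ 4 ≤ l := by
    rw [hl, Real.le_log_iff_exp_le hN0]; exact (le_max_right _ _).trans hN
  have hexp : Real.exp l = N := Real.exp_log hN0
  obtain ⟨hp, hg1, hg2, hg3⟩ := hl₀ l ((le_max_left _ _).trans hll)
  have hl4 := hp.l4
  have hl0 : 0 < l := by linarith
  have hl1 : 1 ≤ l := by linarith
  have hz3 := hp.z3
  have hzk := hp.zk
  have hlz1 := hp.lz1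
  set z₀ : ℕ := ⌊e * l⌋₊ with hz₀
  have hlz0 : 0 < Real.log z₀ := by linarith
  have hz0 : (0 : ℝ) < z₀ := by exact_mod_cast (by omega : 0 < z₀)
  have hz01 : (1 : ℝ) < z₀ := by exact_mod_cast (by omega : 1 < z₀)
  have hzle : (z₀ : ℝ) ≤ e * l := Nat.floor_le (by positivity)
  have hz2 : 2 ≤ z := by omega
  have hzr : (1 : ℝ) < z := by exact_mod_cast (by omega : 1 < z)
  have hY0 : (0 : ℝ) ≤ Y := Nat.cast_nonneg _
  -- the level of the sieve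
  obtain ⟨I, hI, hI1, hI2⟩ := Pool.Agent.H154R3.Fund.exists_I z hz2
  set D : ℕ := 2 ^ ((4 * Rs + 8) * 2 ^ I) with hD
  have hD1 : 1 ≤ D := Nat.one_le_two_pow
  have hzD : z ≤ D := by
    refine hI1.trans ?_
    rw [hD]
    refine Nat.pow_le_pow_right (by norm_num) ?_
    exact Nat.le_mul_of_pos_left _ (by omega)
  have hlzc : Real.log z ≤ e / (4 * ((8 * Rs + 16 : ℕ) : ℝ)) * l := by
    have := Real.log_le_log (by linarith) hzN
    rwa [Real.log_rpow hN0] at this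
  have hDl : 4 * Real.log D ≤ e * l := by
    have h1 : Real.log D = (4 * Rs + 8 : ℕ) * Real.log ((2 ^ 2 ^ I : ℕ) : ℝ) := by
      rw [hD, ← Real.log_pow]
      congr 1
      push_cast
      rw [← pow_mul, mul_comm]
    have h2 : Real.log ((2 ^ 2 ^ I : ℕ) : ℝ) ≤ 2 * Real.log z := by
      have h3 : ((2 ^ 2 ^ I : ℕ) : ℝ) ≤ (z : ℝ) ^ 2 := by exact_mod_cast hI2
      have := Real.log_le_log (by positivity) h3
      rwa [Real.log_pow] at this
    have h3 : ((4 * Rs + 8 : ℕ) : ℝ) * Real.log ((2 ^ 2 ^ I : ℕ) : ℝ) ≤ ((4 * Rs + 8 : ℕ) : ℝ) * (2 * Real.log z) :=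
      mul_le_mul_of_nonneg_left h2 (Nat.cast_nonneg _)
    have h4 : ((4 * Rs + 8 : ℕ) : ℝ) * (2 * Real.log z) = ((8 * Rs + 16 : ℕ) : ℝ) * Real.log z := by
      push_cast; ring
    have h5 : ((8 * Rs + 16 : ℕ) : ℝ) * Real.log z ≤ ((8 * Rs + 16 : ℕ) : ℝ) * (e / (4 * ((8 * Rs + 16 : ℕ) : ℝ)) * l) :=
      mul_le_mul_of_nonneg_left hlzc hEr.le
    have h6 : ((8 * Rs + 16 : ℕ) : ℝ) * (e / (4 * ((8 * Rs + 16 : ℕ) : ℝ)) * l) = e * l / 4 := by
      field_simp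
    rw [h1]
    linarith
  -- the modulus
  have hWp : 1 ≤ W0 z₀ := W0_pos z₀
  have hW0l : Real.log (W0 z₀ : ℕ) ≤ 2 * e * l := by
    refine (log_W0 z₀).trans ?_
    linarith
  set D₁ : ℕ := d * W0 z₀ with hD₁
  have hD₁1 : 1 ≤ D₁ := Nat.mul_pos hd hWp
  have hlzl : Real.log z ≤ l := by
    refine hlzc.trans ?_
    refine mul_le_of_le_one_left hl0.le ?_
    rw [div_le_one (by positivity)]; linarith
  -- the groups
  obtain ⟨P0, P1, P2, hG, hun, a0, a1, a2, r0, r1, r2⟩ := groups (D := D₁) hcw hk hp he0 he1 hWr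
    (hzD.trans (Nat.le_mul_of_pos_left D hR)) hz hlzl
  set P := (P2 ∪ P1) ∪ P0 with hP
  have hPs : ∀ p ∈ P, (p.Prime ∧ z₀ < p ∧ p ≤ z) ∧ ¬ p ∣ D₁ := fun p hp' => by
    rw [hun] at hp'; exact mem_Ps.1 hp'
  have sub21 : P2 ∪ P1 ⊆ P := Finset.subset_union_left
  have sub0 : P0 ⊆ P := Finset.subset_union_right
  have sub2 : P2 ⊆ P := Finset.subset_union_left.trans sub21
  have sub1 : P1 ⊆ P := Finset.subset_union_right.trans sub21
  set ρ := rs0 k P with hρ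
  have hρ0 : 0 < ρ := rs0_pos fun p hp' => ⟨(hPs p hp').1.1, by have := (hPs p hp').1.2.1; omega⟩
  obtain ⟨hErR, hErr, hRl, hdl, hN'1⟩ := sizes (N' := nn x N D₁ b) hexp hl0 he0 hθe hκ0 hd hR hD1 hWp hdR hW0l hDl
    hg1 hg2 hg3 r2 hρ0 (nn_ge x N hD₁1 b)
  -- the admissible shifts
  obtain ⟨hH1, hH2⟩ := Hsize hp he0 he1 hCr hcW hRs hs1 hWl hC hY hd hdl hz b
  set H := Hb D₁ z Y b with hH
  have hWz : cW / Real.log z₀ ≤ W z₀ := by
    rw [div_le_iff₀ hlz0]; exact hWl z₀ hz3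
  have hWz0 := W_pos z₀
  have hWY : cW / Real.log z₀ * Y ≤ W z₀ * Y := mul_le_mul_of_nonneg_right hWz hY0
  have hhH : W z₀ * Y / 2 ≤ H.card := by
    refine le_trans ?_ hH1
    have : 0 ≤ W z₀ * Y := mul_nonneg hWz0.le hY0
    nlinarith
  have hhh : cW * Y / (2 * Real.log z₀) ≤ H.card := by
    refine le_trans (le_of_eq ?_) ((div_le_div_of_nonneg_right hWY (by norm_num : (0 : ℝ) ≤ 2)).trans hhH)
    field_simp
  have hkH : (k : ℝ) ≤ κ * H.card := by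
    refine hp.hk8.trans (mul_le_mul_of_nonneg_left (le_trans ?_ hhh) hκ0.le)
    have h1 : cW / (2 * Real.log z₀) * l ^ (8 * Rs + 16 + 2 * k + 5) ≤ cW / (2 * Real.log z₀) * Y :=
      mul_le_mul_of_nonneg_left hY (by positivity)
    refine h1.trans (le_of_eq ?_)
    ring
  have hcard1 : 1 ≤ H.card := by
    have h1 : (1 : ℝ) ≤ k := by exact_mod_cast hk
    by_contra hcon
    have h2 : H.card = 0 := by omega
    rw [h2] at hkH
    push_cast at hkH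
    linarith
  obtain ⟨ep0, ep1, ep2⟩ := epsc (Y := Y) (h := H.card) hp he0 hCr hcW hhh
  have hYl : Real.log Y ≤ l := by
    rcases Nat.eq_zero_or_pos Y with h0 | h0
    · subst h0; simp; exact hl0.le
    · exact Real.log_le_log (by exact_mod_cast h0) (by exact_mod_cast hYN)
  have svT : ∀ T : Finset ℕ, T ⊆ P → SV T D ((D : ℕ) : ℝ) k (2 * (Real.exp (16 * (k : ℝ)) * (1 / 2) ^ (2 * Rs))) :=
    fun T hT => sv_of_fund hs2 hI T fun p hp' => ⟨(hPs p (hT hp')).1.1, (hPs p (hT hp')).1.2.2.trans hI1⟩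
  have hη0 : (0 : ℝ) ≤ 2 * (Real.exp (16 * (k : ℝ)) * (1 / 2) ^ (2 * Rs)) := by positivity
  have hc71 : (cw / (4 * k + 6)) ^ (2 * k) ≤ 1 := by
    refine pow_le_one₀ (by positivity) ?_
    rw [div_le_one (by positivity)]
    have : (0 : ℝ) ≤ k := Nat.cast_nonneg k
    linarith
  have hWD : W0 z₀ ∣ D₁ := Dvd.intro_left d rfl
  have main := clsA (Q := R * D) (d := D₁) (κ := κ) (L := l) (H := H) (Y := Y)
    (V := fun m => V (b + D₁ * m)) hR hD1 rfl hG (fun p hp' => (hPs p hp').2) hk hz01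
    (fun p hp' => by exact_mod_cast (hPs p hp').1.2.1)
    (fun p hp' => by have := (hPs p hp').1.2.1; omega) hη0 hs3 hκ0 hκ1
    (svT _ (Finset.Subset.refl _)) (svT _ sub21) (svT _ sub2) (svT _ (Finset.empty_subset _))
    hl0 hRl (Hb_sub D₁ z Y b) hcard1 (tb Cr l k z₀ Y)
    (fun p hp' n => tb_ok hp he0 he1 hCr hC hY (hPs p hp').1.1 (hPs p hp').1.2.1 b n _
      ((Finset.filter_subset _ _).trans (Hb_sub D₁ z Y b)) (fun h hh => (Finset.mem_filter.1 hh).2)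
      (fun h hh => by
        have h1 := Hb_surv hz hWD (Finset.mem_filter.1 hh).1
        rw [SW.survivors, Finset.mem_filter] at h1
        exact h1.2))
    (ε0 := 16 * k * Cr / (cW * e * Real.log z₀)) (ε1 := 8 * k * Cr / (cW * l))
    (ε2 := 8 * k / (cW * l ^ (2 * k + 2))) (by positivity) (by positivity) (by positivity)
    (fun p hp' => ep0 p (hPs p (sub0 hp')).1.2.1 (a0 p hp'))
    (fun p hp' => ep1 p (hPs p (sub1 hp')).1.2.1 (a1 p hp').1 (a1 p hp').2)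
    (fun p hp' => ep2 p (hPs p (sub2 hp')).1.2.1 (a2 p hp'))
    (level_prog hV D₁ b) b (m0 x D₁ b) (nn x N D₁ b) (c7 := (cw / (4 * k + 6)) ^ (2 * k))
    (B2 := (l / cw) ^ (2 * k)) (by positivity) hc71 (by positivity) r0 r1 r2 hErr hErR hp.ga
    (by
      refine le_trans (Real.exp_le_exp.2 ?_) hp.df
      refine mul_le_mul_of_nonneg_left ?_ (by positivity)
      refine div_le_div_of_nonneg_right ?_ (by positivity)
      exact mul_le_mul_of_nonneg_left hYl (by positivity))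
    hp.e0 hp.e1 hp.e2 hp.es
  -- the main term
  have hlow : (1 - κ) * (Wr z₀ z) ^ k ≤ ρ := by
    have h1 := rs0_low (k := k) (z₀ := z₀) (z := z) (T := P) (fun p hp' => mem_Pf.2 (hPs p hp').1) hzk (by omega) hz
    refine le_trans ?_ h1
    have := mul_le_mul_of_nonneg_left hp.kz (pow_pos (Wr_pos z₀ z) k).le
    linarith
  have hupp : ρ ≤ (1 + κ) * (Wr z₀ z) ^ k := by
    have hD₁l : Real.log D₁ ≤ l := by
      have hd0 : (0 : ℝ) < d := by exact_mod_cast hd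
      have hW00 : (0 : ℝ) < (W0 z₀ : ℕ) := by exact_mod_cast hWp
      have h1 : Real.log d ≤ θ * l := by
        have h2 : (d : ℝ) ≤ (N : ℝ) ^ θ := by
          refine le_trans ?_ hdR
          exact le_mul_of_one_le_right hd0.le (one_le_pow₀ (by exact_mod_cast hR))
        have := Real.log_le_log hd0 h2
        rwa [Real.log_rpow hN0] at this
      rw [hD₁]
      push_cast
      rw [Real.log_mul hd0.ne' hW00.ne']
      nlinarith
    have hbc := bad_card (z₀ := z₀) (z := z) hD₁1 (by omega)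
    have hB : (((Bad D₁ z₀ z).card : ℕ) : ℝ) / z₀ ≤ l / (z₀ * Real.log z₀) := by
      rw [div_le_div_iff₀ hz0 (by positivity)]
      have h1 : ((Bad D₁ z₀ z).card : ℝ) * Real.log z₀ ≤ l := hbc.trans hD₁l
      have := mul_le_mul_of_nonneg_right h1 hz0.le
      linarith
    have h1 := rs0_up (k := k) (z₀ := z₀) (z := z) (d := D₁) (T := P) (by omega) hun hzk hB
    refine h1.trans ?_
    have := mul_le_mul_of_nonneg_left hp.ga (pow_pos (Wr_pos z₀ z) k).le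
    linarith
  obtain ⟨f1, f2⟩ := fin8 (y := (Y : ℝ)) hκ0 hκ1 hWz0 (Wr_pos z₀ z) hY0 hH1 hH2 hkH hlow hupp
  have hWeq : Wr z₀ z * W z₀ * Y = W z * Y := by rw [Wr_eq hz]
  rw [hWeq] at f1 f2
  rw [sum_prog x N hD₁1 b (fun n => V n ^ 2), sum_prog x N hD₁1 b (fun n => V n ^ 2 *
    (((SW.survivors (PP z) (Finset.Ioc (0 : ℤ) (0 + (Y : ℤ))) n).card.choose k : ℕ) : ℝ))]
  have hS : ∀ j : ℕ, SW.survivors (PP z) (Finset.Ioc (0 : ℤ) (0 + (Y : ℤ))) (b + D₁ * (m0 x D₁ b + j))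
      = Hs D₁ b P H (m0 x D₁ b + j) := by
    intro j
    rw [surv_eq hWD b (m0 x D₁ b + j), hun]
  simp only [hS]
  obtain ⟨m1, m2⟩ := main
  have hZ0 : 0 ≤ ∑ j ∈ Finset.range (nn x N D₁ b), V (b + D₁ * (m0 x D₁ b + j)) ^ 2 :=
    Finset.sum_nonneg fun _ _ => sq_nonneg _
  constructor
  · refine le_trans ?_ m1
    exact mul_le_mul_of_nonneg_right (mul_le_mul_of_nonneg_left f1 (by linarith)) hZ0
  · refine m2.trans ?_
    exact mul_le_mul_of_nonneg_right (mul_le_mul_of_nonneg_left f2 (by linarith)) hZ0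

end Run7.h52.U18
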