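import Pool.Agent.Run7.h52.U18

set_option autoImplicit false
set_option linter.unusedSectionVars false

namespace Run7.h52.U19

open Finset Run7.h52.Count Run7.h52.Rough Run7.h52.Asym Run7.h52.AsmV Run7.h52.U18

/-- number of the integers in `(n, n + Y]` without a prime factor `≤ z` -/
noncomputable def rc (z Y : ℕ) (n : ℤ) : ℕ := (SW.survivors (PP z) (Finset.Ioc (0 : ℤ) (0 + (Y : ℤ))) n).card

lemma exists_kap (κ : ℝ) (hκ : 0 < κ) (k : ℕ) : ∃ t : ℝ, 0 < t ∧ t ≤ 1 / 10 ∧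
    1 - κ ≤ (1 - 6 * t) * ((1 - t) * (1 - 3 * t) ^ k) ∧ (1 + 10 * t) * (1 + t) ^ (k + 1) ≤ 1 + κ := by
  have h1 : Filter.Tendsto (fun t : ℝ => (1 - 6 * t) * ((1 - t) * (1 - 3 * t) ^ k)) (nhdsWithin 0 (Set.Ioi 0)) (nhds 1) := by
    have : Continuous fun t : ℝ => (1 - 6 * t) * ((1 - t) * (1 - 3 * t) ^ k) := by fun_prop
    have h := (this.tendsto 0).mono_left (nhdsWithin_le_nhds (s := Set.Ioi (0 : ℝ)))
    simpa using h
  have h2 : Filter.Tendsto (fun t : ℝ => (1 + 10 * t) * (1 + t) ^ (k + 1)) (nhdsWithin 0 (Set.Ioi 0)) (nhds 1) := by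
    have : Continuous fun t : ℝ => (1 + 10 * t) * (1 + t) ^ (k + 1) := by fun_prop
    have h := (this.tendsto 0).mono_left (nhdsWithin_le_nhds (s := Set.Ioi (0 : ℝ)))
    simpa using h
  have e1 := h1.eventually (lt_mem_nhds (show 1 - κ < 1 by linarith))
  have e2 := h2.eventually (gt_mem_nhds (show 1 < 1 + κ by linarith))
  have e3 : ∀ᶠ t : ℝ in nhdsWithin 0 (Set.Ioi 0), t ∈ Set.Ioo (0 : ℝ) (1 / 10) :=
    Ioo_mem_nhdsGT (by norm_num)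
  obtain ⟨t, g1, g2, g3⟩ := (e1.and (e2.and e3)).exists
  exact ⟨t, g3.1, g3.2.le, g1.le, g2.le⟩

/-- factorial moments -/
theorem mainB {θ e κ : ℝ} (he0 : 0 < e) (he1 : e ≤ 1 / 2) (hθe : 6 * e < 1 - θ) (hθ0 : 0 < θ)
    (hκ0 : 0 < κ) (k : ℕ) (hk : 1 ≤ k) :
    ∃ (A : ℕ) (c : ℝ), 0 < c ∧ c ≤ 1 ∧ ∃ T : ℝ, 3 ≤ T ∧ ∀ N : ℕ, T ≤ N → ∀ Y z : ℕ,
    (Real.log N) ^ A ≤ Y → Y ≤ N → ⌊e * Real.log N⌋₊ ≤ z → (z : ℝ) ≤ (N : ℝ) ^ c →
    ∀ w : ℤ → ℝ, TW.SquareWeight ((N : ℝ) ^ θ) w → ∀ x : ℤ,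
    (1 - κ) * ((W z * Y) ^ k / (k.factorial : ℝ)) * ∑ n ∈ Finset.Ioc x (x + N), w n
      ≤ ∑ n ∈ Finset.Ioc x (x + N), w n * (((rc z Y n).choose k : ℕ) : ℝ) ∧
    ∑ n ∈ Finset.Ioc x (x + N), w n * (((rc z Y n).choose k : ℕ) : ℝ)
      ≤ (1 + κ) * ((W z * Y) ^ k / (k.factorial : ℝ)) * ∑ n ∈ Finset.Ioc x (x + N), w n := by
  classical
  obtain ⟨t, ht0, ht1, ht2, ht3⟩ := exists_kap κ hκ0 k
  obtain ⟨A, c, hc0, hc1, T, hT3, hT⟩ := clsB (θ := θ) he0 he1 hθe hθ0 ht0 ht1 k hk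
  refine ⟨A, c, hc0, hc1, T, hT3, fun N hN Y z hY hYN hz hzN w hw x => ?_⟩
  obtain ⟨J, d, R, a, V, hJ, hw⟩ := hw
  set z₀ := ⌊e * Real.log N⌋₊ with hz₀
  set μ : ℝ := (W z * Y) ^ k / (k.factorial : ℝ) with hμ
  have hμ0 : 0 ≤ μ := by
    have := W_pos z
    positivity
  have split : ∀ (j : Fin J) (F : ℤ → ℝ), ∑ n ∈ Finset.Ioc x (x + N), (if (d j : ℤ) ∣ n - a j then F n else 0)
      = ∑ r ∈ Finset.range (W0 z₀), ∑ n ∈ Finset.Ioc x (x + N),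
        (if ((d j * W0 z₀ : ℕ) : ℤ) ∣ n - (a j + d j * (r : ℤ)) then F n else 0) := by
    intro j F
    rw [Finset.sum_comm]
    exact Finset.sum_congr rfl fun n _ => split_class (d j) (W0 z₀) (hJ j).1 (W0_pos z₀) (a j) n (F n)
  have e1 : ∑ n ∈ Finset.Ioc x (x + N), w n
      = ∑ j, ∑ r ∈ Finset.range (W0 z₀), ∑ n ∈ Finset.Ioc x (x + N),
        (if ((d j * W0 z₀ : ℕ) : ℤ) ∣ n - (a j + d j * (r : ℤ)) then V j n ^ 2 else 0) := by
    simp only [hw]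
    rw [Finset.sum_comm]
    exact Finset.sum_congr rfl fun j _ => split j (fun n => V j n ^ 2)
  have e2 : ∑ n ∈ Finset.Ioc x (x + N), w n * (((rc z Y n).choose k : ℕ) : ℝ)
      = ∑ j, ∑ r ∈ Finset.range (W0 z₀), ∑ n ∈ Finset.Ioc x (x + N),
        (if ((d j * W0 z₀ : ℕ) : ℤ) ∣ n - (a j + d j * (r : ℤ)) then
          V j n ^ 2 * (((rc z Y n).choose k : ℕ) : ℝ) else 0) := by
    simp only [hw, Finset.sum_mul]
    rw [Finset.sum_comm]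
    refine Finset.sum_congr rfl fun j _ => ?_
    rw [← split j (fun n => V j n ^ 2 * (((rc z Y n).choose k : ℕ) : ℝ))]
    exact Finset.sum_congr rfl fun n _ => by rw [ite_mul, zero_mul]
  have pos : ∀ (j : Fin J) (r : ℕ), 0 ≤ ∑ n ∈ Finset.Ioc x (x + N),
        (if ((d j * W0 z₀ : ℕ) : ℤ) ∣ n - (a j + d j * (r : ℤ)) then V j n ^ 2 else 0) := fun j r =>
    Finset.sum_nonneg fun n _ => by split_ifs <;> positivity
  have key : ∀ (j : Fin J) (r : ℕ), _ := fun j r =>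
    hT N hN Y z hY hYN hz hzN (d j) (R j) (V j) (hJ j).1 (hJ j).2.1 (hJ j).2.2.1 (hJ j).2.2.2 x
      (a j + d j * (r : ℤ))
  rw [e1, e2]
  constructor
  · rw [Finset.mul_sum]
    refine Finset.sum_le_sum fun j _ => ?_
    rw [Finset.mul_sum]
    refine Finset.sum_le_sum fun r _ => ?_
    refine le_trans ?_ (key j r).1
    refine mul_le_mul_of_nonneg_right ?_ (pos j r)
    have := mul_le_mul_of_nonneg_right ht2 hμ0
    calc (1 - κ) * μ ≤ (1 - 6 * t) * ((1 - t) * (1 - 3 * t) ^ k) * μ := this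
      _ = _ := by ring
  · rw [Finset.mul_sum]
    refine Finset.sum_le_sum fun j _ => ?_
    rw [Finset.mul_sum]
    refine Finset.sum_le_sum fun r _ => ?_
    refine (key j r).2.trans ?_
    refine mul_le_mul_of_nonneg_right ?_ (pos j r)
    have := mul_le_mul_of_nonneg_right ht3 hμ0
    calc (1 + 10 * t) * ((1 + t) ^ (k + 1) * μ) = (1 + 10 * t) * (1 + t) ^ (k + 1) * μ := by ring
      _ ≤ _ := this

lemma exists_kap2 (κ : ℝ) (hκ : 0 < κ) (k : ℕ) : ∃ t : ℝ, 0 < t ∧ t ≤ 1 / 10 ∧ 1 ≤ (1 + κ) * (1 - t) ^ k := by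
  have h1 : Filter.Tendsto (fun t : ℝ => (1 + κ) * (1 - t) ^ k) (nhdsWithin 0 (Set.Ioi 0)) (nhds (1 + κ)) := by
    have : Continuous fun t : ℝ => (1 + κ) * (1 - t) ^ k := by fun_prop
    have h := (this.tendsto 0).mono_left (nhdsWithin_le_nhds (s := Set.Ioi (0 : ℝ)))
    simpa using h
  have e1 := h1.eventually (lt_mem_nhds (show 1 < 1 + κ by linarith))
  have e3 : ∀ᶠ t : ℝ in nhdsWithin 0 (Set.Ioi 0), t ∈ Set.Ioo (0 : ℝ) (1 / 10) :=
    Ioo_mem_nhdsGT (by norm_num)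
  obtain ⟨t, g1, g3⟩ := (e1.and e3).exists
  exact ⟨t, g3.1, g3.2.le, g1.le⟩

/-- powers and binomial coefficients -/
lemma pow_choose (k : ℕ) (κ : ℝ) (hκ : 0 < κ) : ∃ K : ℝ, 0 ≤ K ∧ ∀ r : ℕ,
    (r : ℝ) ^ k ≤ (1 + κ) * ((k.factorial : ℝ) * ((r.choose k : ℕ) : ℝ)) + K := by
  obtain ⟨t, ht0, ht1, ht2⟩ := exists_kap2 κ hκ k
  set M : ℕ := ⌈(k : ℝ) / t⌉₊ with hM
  refine ⟨(M : ℝ) ^ k, by positivity, fun r => ?_⟩
  have hf : (0 : ℝ) < (k.factorial : ℝ) := by exact_mod_cast k.factorial_pos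
  rcases le_or_gt r M with h | h
  · have h1 : (r : ℝ) ^ k ≤ (M : ℝ) ^ k := pow_le_pow_left₀ (Nat.cast_nonneg _) (by exact_mod_cast h) k
    have h2 : 0 ≤ (1 + κ) * ((k.factorial : ℝ) * ((r.choose k : ℕ) : ℝ)) := by positivity
    linarith
  · have h1 : (k : ℝ) / t ≤ r := (Nat.le_ceil _).trans (by exact_mod_cast h.le)
    rw [div_le_iff₀ ht0] at h1
    have hr0 : (0 : ℝ) ≤ r := Nat.cast_nonneg _
    have hkr : k ≤ r := by
      have : (k : ℝ) ≤ r := by nlinarith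
      exact_mod_cast this
    have c1 : (((r + 1 - k : ℕ) : ℝ)) ^ k / (k.factorial : ℝ) ≤ ((r.choose k : ℕ) : ℝ) := by
      exact_mod_cast Nat.pow_le_choose (α := ℝ) k r
    have e1 : ((r + 1 - k : ℕ) : ℝ) = r + 1 - k := by
      rw [Nat.cast_sub (by omega)]; push_cast; ring
    rw [div_le_iff₀ hf, e1] at c1
    have h3 : ((1 - t) * r) ^ k ≤ ((r : ℝ) + 1 - k) ^ k :=
      pow_le_pow_left₀ (mul_nonneg (by linarith) hr0) (by linarith) k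
    have hrk : (0 : ℝ) ≤ (r : ℝ) ^ k := by positivity
    calc (r : ℝ) ^ k ≤ (1 + κ) * (1 - t) ^ k * (r : ℝ) ^ k := le_mul_of_one_le_left hrk ht2
      _ = (1 + κ) * ((1 - t) * r) ^ k := by rw [mul_pow]; ring
      _ ≤ (1 + κ) * (((r.choose k : ℕ) : ℝ) * (k.factorial : ℝ)) :=
          mul_le_mul_of_nonneg_left (h3.trans c1) (by linarith)
      _ ≤ _ := by
          have : 0 ≤ (M : ℝ) ^ k := by positivity
          linarith

lemma fact_choose_le (r k : ℕ) : (k.factorial : ℝ) * ((r.choose k : ℕ) : ℝ) ≤ (r : ℝ) ^ k := by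
  have hf : (0 : ℝ) < (k.factorial : ℝ) := by exact_mod_cast k.factorial_pos
  have c1 : ((r.choose k : ℕ) : ℝ) ≤ (r : ℝ) ^ k / (k.factorial : ℝ) := by
    exact_mod_cast Nat.choose_le_pow_div (α := ℝ) k r
  rw [le_div_iff₀ hf] at c1
  linarith

/-- from factorial moments to central moments -/
lemma central {S : Finset ℤ} {w : ℤ → ℝ} (hw : ∀ n ∈ S, 0 ≤ w n) (r : ℤ → ℕ) {μ κ : ℝ} (hμ : 0 < μ) (hκ0 : 0 < κ)
    (hκ1 : κ ≤ 1) {M : ℕ} (hM : 1 ≤ M) {Kc : ℕ → ℝ}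
    (hK : ∀ k ≤ M, ∀ r : ℕ, (r : ℝ) ^ k ≤ (1 + κ) * ((k.factorial : ℝ) * ((r.choose k : ℕ) : ℝ)) + Kc k)
    (hKμ : ∀ k, 1 ≤ k → k ≤ M → Kc k ≤ κ * μ ^ k)
    (h : ∀ k, 1 ≤ k → k ≤ M →
      (1 - κ) * (μ ^ k / (k.factorial : ℝ)) * ∑ n ∈ S, w n ≤ ∑ n ∈ S, w n * (((r n).choose k : ℕ) : ℝ) ∧
      ∑ n ∈ S, w n * (((r n).choose k : ℕ) : ℝ) ≤ (1 + κ) * (μ ^ k / (k.factorial : ℝ)) * ∑ n ∈ S, w n) :
    |∑ n ∈ S, w n * ((r n : ℝ) - μ) ^ M| ≤ 4 * κ * 2 ^ M * μ ^ M * ∑ n ∈ S, w n := by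
  set Z := ∑ n ∈ S, w n with hZ
  have hZ0 : 0 ≤ Z := Finset.sum_nonneg hw
  have mom : ∀ k ≤ M, |∑ n ∈ S, w n * (r n : ℝ) ^ k - μ ^ k * Z| ≤ 4 * κ * μ ^ k * Z := by
    intro k hk
    have hμk : 0 < μ ^ k := pow_pos hμ k
    have hf : (0 : ℝ) < (k.factorial : ℝ) := by exact_mod_cast k.factorial_pos
    rcases Nat.eq_zero_or_pos k with h0 | h0
    · subst h0
      simp only [pow_zero, mul_one, one_mul]
      rw [← hZ, sub_self, abs_zero]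
      positivity
    · obtain ⟨a, b⟩ := h k h0 hk
      have u1 : ∑ n ∈ S, w n * (r n : ℝ) ^ k
          ≤ (1 + κ) * ((k.factorial : ℝ) * ∑ n ∈ S, w n * (((r n).choose k : ℕ) : ℝ)) + Kc k * Z := by
        rw [hZ, Finset.mul_sum, Finset.mul_sum, Finset.mul_sum, ← Finset.sum_add_distrib]
        refine Finset.sum_le_sum fun n hn => ?_
        have := mul_le_mul_of_nonneg_left (hK k hk (r n)) (hw n hn)
        linarith
      have l1 : (k.factorial : ℝ) * ∑ n ∈ S, w n * (((r n).choose k : ℕ) : ℝ) ≤ ∑ n ∈ S, w n * (r n : ℝ) ^ k := by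
        rw [Finset.mul_sum]
        refine Finset.sum_le_sum fun n hn => ?_
        have := mul_le_mul_of_nonneg_left (fact_choose_le (r n) k) (hw n hn)
        linarith
      have a' : (1 - κ) * μ ^ k * Z ≤ (k.factorial : ℝ) * ∑ n ∈ S, w n * (((r n).choose k : ℕ) : ℝ) := by
        have := mul_le_mul_of_nonneg_left a hf.le
        refine le_trans (le_of_eq ?_) this
        field_simp
      have b' : (k.factorial : ℝ) * ∑ n ∈ S, w n * (((r n).choose k : ℕ) : ℝ) ≤ (1 + κ) * μ ^ k * Z := by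
        have := mul_le_mul_of_nonneg_left b hf.le
        refine this.trans (le_of_eq ?_)
        field_simp
      have k1 := mul_le_mul_of_nonneg_right (hKμ k h0 hk) hZ0
      have hμZ : 0 ≤ μ ^ k * Z := mul_nonneg hμk.le hZ0
      rw [abs_le]
      constructor
      · have : 0 ≤ κ * (μ ^ k * Z) := mul_nonneg hκ0.le hμZ
        linarith
      · have u2 : (1 + κ) * ((k.factorial : ℝ) * ∑ n ∈ S, w n * (((r n).choose k : ℕ) : ℝ))
            ≤ (1 + κ) * ((1 + κ) * μ ^ k * Z) := mul_le_mul_of_nonneg_left b' (by linarith)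
        have u3 : κ * κ * (μ ^ k * Z) ≤ κ * 1 * (μ ^ k * Z) :=
          mul_le_mul_of_nonneg_right (mul_le_mul_of_nonneg_left hκ1 hκ0.le) hμZ
        linarith
  have e1 : ∑ n ∈ S, w n * ((r n : ℝ) - μ) ^ M
      = ∑ k ∈ Finset.range (M + 1), ((M.choose k : ℕ) : ℝ) * (-μ) ^ (M - k) *
        (∑ n ∈ S, w n * (r n : ℝ) ^ k - μ ^ k * Z) := by
    have e2 : ∀ n ∈ S, w n * ((r n : ℝ) - μ) ^ M
        = ∑ k ∈ Finset.range (M + 1), ((M.choose k : ℕ) : ℝ) * (-μ) ^ (M - k) * (w n * (r n : ℝ) ^ k) := by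
      intro n _
      rw [sub_eq_add_neg, add_pow, Finset.mul_sum]
      exact Finset.sum_congr rfl fun k _ => by ring
    rw [Finset.sum_congr rfl e2, Finset.sum_comm]
    have e3 : ∑ k ∈ Finset.range (M + 1), ((M.choose k : ℕ) : ℝ) * (-μ) ^ (M - k) * (μ ^ k * Z) = 0 := by
      have e4 : ∑ k ∈ Finset.range (M + 1), ((M.choose k : ℕ) : ℝ) * (-μ) ^ (M - k) * (μ ^ k * Z)
          = (μ + -μ) ^ M * Z := by
        rw [add_pow, Finset.sum_mul]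
        exact Finset.sum_congr rfl fun k _ => by ring
      rw [e4, add_neg_cancel, zero_pow (by omega), zero_mul]
    simp only [mul_sub, Finset.sum_sub_distrib]
    rw [e3, sub_zero]
    refine Finset.sum_congr rfl fun k _ => ?_
    rw [Finset.mul_sum]
  rw [e1]
  refine (Finset.abs_sum_le_sum_abs _ _).trans ?_
  have e5 : (2 : ℝ) ^ M = ∑ k ∈ Finset.range (M + 1), ((M.choose k : ℕ) : ℝ) := by
    have := Nat.sum_range_choose M
    exact_mod_cast this.symm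
  have e6 : 4 * κ * 2 ^ M * μ ^ M * Z
      = ∑ k ∈ Finset.range (M + 1), 4 * κ * ((M.choose k : ℕ) : ℝ) * μ ^ M * Z := by
    rw [e5]
    clear_value Z
    rw [Finset.mul_sum, Finset.sum_mul, Finset.sum_mul]
  rw [e6]
  refine Finset.sum_le_sum fun k hk => ?_
  have hkM : k ≤ M := by rw [Finset.mem_range] at hk; omega
  rw [abs_mul, abs_mul, abs_of_nonneg (Nat.cast_nonneg _ : (0 : ℝ) ≤ ((M.choose k : ℕ) : ℝ)), abs_pow, abs_neg,
    abs_of_pos hμ]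
  have h5 : μ ^ (M - k) * μ ^ k = μ ^ M := by rw [← pow_add]; congr 1; omega
  calc ((M.choose k : ℕ) : ℝ) * μ ^ (M - k) * |∑ n ∈ S, w n * (r n : ℝ) ^ k - μ ^ k * Z|
      ≤ ((M.choose k : ℕ) : ℝ) * μ ^ (M - k) * (4 * κ * μ ^ k * Z) :=
        mul_le_mul_of_nonneg_left (mom k hkM) (by positivity)
    _ = 4 * κ * ((M.choose k : ℕ) : ℝ) * (μ ^ (M - k) * μ ^ k) * Z := by ring
    _ = _ := by rw [h5]

end Run7.h52.U19
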