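import Pool.Agent.Run7.h52.U1
import Pool.Agent.Run7.h52.CellG

set_option autoImplicit false
set_option linter.unusedSectionVars false

namespace Run7.h52.U2

open Finset Run7.h52.Ker Run7.h52.CellG Run7.h52.CoreG Run7.h52.U1

variable {p a : ℕ}

/-- change of the first digit -/
def dg (hp : 0 < p) (ha : 1 ≤ a) (x : Fin (p ^ a)) (r : Fin p) : Fin (p ^ a) :=
  ⟨(x : ℕ) / p * p + r, by
    have hx := x.2
    have h1 : p ^ a = p ^ (a - 1) * p := by
      rw [← pow_succ]; congr 1; omega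
    have h2 : (x : ℕ) / p < p ^ (a - 1) := by
      rw [Nat.div_lt_iff_lt_mul hp, ← h1]; exact hx
    have hr := r.2
    calc (x : ℕ) / p * p + r < (x : ℕ) / p * p + p := by omega
      _ = ((x : ℕ) / p + 1) * p := by ring
      _ ≤ p ^ (a - 1) * p := Nat.mul_le_mul_right p h2
      _ = p ^ a := h1.symm⟩

lemma dg_val (hp : 0 < p) (ha : 1 ≤ a) (x : Fin (p ^ a)) (r : Fin p) :
    ((dg hp ha x r : Fin _) : ℕ) = (x : ℕ) / p * p + r := rfl

lemma dg_div (hp : 0 < p) (ha : 1 ≤ a) (x : Fin (p ^ a)) (r : Fin p) :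
    ((dg hp ha x r : Fin _) : ℕ) / p = (x : ℕ) / p := by
  rw [dg_val, mul_comm, Nat.mul_add_div hp, Nat.div_eq_of_lt r.2, add_zero]

lemma pi1_dg (hp : 0 < p) (ha : 1 ≤ a) (x : Fin (p ^ a)) (r : Fin p) : pi1 hp (dg hp ha x r) = r := by
  apply Fin.ext
  show ((dg hp ha x r : Fin _) : ℕ) % p = r
  rw [dg_val, Nat.mul_add_mod_self_right, Nat.mod_eq_of_lt r.2]

lemma dg_self (hp : 0 < p) (ha : 1 ≤ a) (x y : Fin (p ^ a)) (h : (x : ℕ) / p = (y : ℕ) / p) :
    dg hp ha x (pi1 hp y) = y := by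
  apply Fin.ext
  rw [dg_val, h]
  show (y : ℕ) / p * p + (y : ℕ) % p = y
  rw [mul_comm]; exact Nat.div_add_mod _ _

lemma dg_dg (hp : 0 < p) (ha : 1 ≤ a) (x : Fin (p ^ a)) (r s : Fin p) :
    dg hp ha (dg hp ha x r) s = dg hp ha x s := by
  apply Fin.ext
  have h := dg_div hp ha x r
  rw [dg_val hp ha (dg hp ha x r) s, h, dg_val]

lemma sum_dg (hp : 0 < p) (ha : 1 ≤ a) (x : Fin (p ^ a)) (F : Fin (p ^ a) → ℝ) :
    ∑ y : Fin (p ^ a), (if (x : ℕ) / p = (y : ℕ) / p then F y else 0) = ∑ r : Fin p, F (dg hp ha x r) := by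
  rw [← Finset.sum_filter]
  symm
  refine Finset.sum_bij' (fun r _ => dg hp ha x r) (fun y _ => pi1 hp y) ?_ ?_ ?_ ?_ ?_
  · intro r _
    rw [Finset.mem_filter]
    exact ⟨Finset.mem_univ _, (dg_div hp ha x r).symm⟩
  · intro y _; exact Finset.mem_univ _
  · intro r _; exact pi1_dg hp ha x r
  · intro y hy; exact dg_self hp ha x y (Finset.mem_filter.1 hy).2
  · intro r _; rfl

/-- averaging over the first digit -/
lemma sum_sum_dg (hp : 0 < p) (ha : 1 ≤ a) (F : Fin (p ^ a) → ℝ) :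
    ∑ x : Fin (p ^ a), ∑ r : Fin p, F (dg hp ha x r) = (p : ℝ) * ∑ x, F x := by
  have h1 : ∀ x : Fin (p ^ a), ∑ r : Fin p, F (dg hp ha x r)
      = ∑ y : Fin (p ^ a), (if (x : ℕ) / p = (y : ℕ) / p then F y else 0) := fun x => (sum_dg hp ha x F).symm
  simp only [h1]
  rw [Finset.sum_comm, Finset.mul_sum]
  refine Finset.sum_congr rfl fun y _ => ?_
  have h2 : ∀ x : Fin (p ^ a), (if (x : ℕ) / p = (y : ℕ) / p then F y else 0)
      = if (y : ℕ) / p = (x : ℕ) / p then F y else 0 := fun x => by simp only [eq_comm]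
  simp only [h2]
  rw [sum_dg hp ha y (fun _ => F y)]
  simp

/-- kernel acting on the first digit only -/
noncomputable def tens (a : ℕ) (hp : 0 < p) (K : Matrix (Fin p) (Fin p) ℝ) :
    Matrix (Fin (p ^ a)) (Fin (p ^ a)) ℝ :=
  fun x y => if (x : ℕ) / p = (y : ℕ) / p then K (pi1 hp x) (pi1 hp y) else 0

lemma tens_mul (hp : 0 < p) (ha : 1 ≤ a) (K L : Matrix (Fin p) (Fin p) ℝ) :
    tens a hp K * tens a hp L = tens a hp (K * L) := by
  ext x z
  rw [Matrix.mul_apply]
  have h1 : ∀ y : Fin (p ^ a), tens a hp K x y * tens a hp L y z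
      = if (x : ℕ) / p = (y : ℕ) / p then K (pi1 hp x) (pi1 hp y) * tens a hp L y z else 0 := fun y => by
    unfold tens
    split_ifs <;> simp
  simp only [h1]
  rw [sum_dg hp ha x (fun y => K (pi1 hp x) (pi1 hp y) * tens a hp L y z)]
  simp only [pi1_dg, tens, dg_div, Matrix.mul_apply]
  split_ifs
  · rfl
  · simp

lemma tens_transpose (hp : 0 < p) (K : Matrix (Fin p) (Fin p) ℝ) :
    (tens a hp K).transpose = tens a hp K.transpose := by
  ext x y
  simp only [tens, Matrix.transpose_apply, eq_comm]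

lemma tens_add (hp : 0 < p) (K L : Matrix (Fin p) (Fin p) ℝ) :
    tens a hp (K + L) = tens a hp K + tens a hp L := by
  ext x y
  simp only [tens, Matrix.add_apply]
  split_ifs <;> simp

lemma tens_sub (hp : 0 < p) (K L : Matrix (Fin p) (Fin p) ℝ) :
    tens a hp (K - L) = tens a hp K - tens a hp L := by
  ext x y
  simp only [tens, Matrix.sub_apply]
  split_ifs <;> simp

lemma tens_smul (hp : 0 < p) (c : ℝ) (K : Matrix (Fin p) (Fin p) ℝ) :
    tens a hp (c • K) = c • tens a hp K := by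
  ext x y
  simp only [tens, Matrix.smul_apply, smul_eq_mul]
  split_ifs <;> simp

lemma tens_zero (hp : 0 < p) : tens a hp (0 : Matrix (Fin p) (Fin p) ℝ) = 0 := by
  ext x y
  simp [tens]

lemma tens_one (hp : 0 < p) : tens a hp (1 : Matrix (Fin p) (Fin p) ℝ) = 1 := by
  ext x y
  simp only [tens, Matrix.one_apply]
  by_cases h : x = y
  · subst h; simp
  · rw [if_neg h]
    split_ifs with h1 h2
    · exfalso
      apply h
      apply Fin.ext
      have h3 : (x : ℕ) % p = (y : ℕ) % p := congrArg Fin.val h2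
      rw [← Nat.div_add_mod (x : ℕ) p, ← Nat.div_add_mod (y : ℕ) p, h1, h3]
    · rfl
    · rfl

lemma tens_diag (hp : 0 < p) (f : Fin p → ℝ) :
    tens a hp (Matrix.diagonal f) = Matrix.diagonal (fun x => f (pi1 hp x)) := by
  ext x y
  simp only [tens, Matrix.diagonal_apply]
  by_cases h : x = y
  · subst h; simp
  · rw [if_neg h]
    split_ifs with h1 h2
    · exfalso
      apply h
      apply Fin.ext
      have h3 : (x : ℕ) % p = (y : ℕ) % p := congrArg Fin.val h2
      rw [← Nat.div_add_mod (x : ℕ) p, ← Nat.div_add_mod (y : ℕ) p, h1, h3]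
    · rfl
    · rfl

lemma sum_tens_row (hp : 0 < p) (ha : 1 ≤ a) (K : Matrix (Fin p) (Fin p) ℝ) (x : Fin (p ^ a)) :
    ∑ y, tens a hp K x y = ∑ s, K (pi1 hp x) s := by
  have h := sum_dg hp ha x (fun y => K (pi1 hp x) (pi1 hp y))
  simp only [pi1_dg] at h
  exact h

lemma mod_iff (hp : 0 < p) {j : ℕ} (hj : 1 ≤ j) (x y : ℕ) :
    x % p ^ j = y % p ^ j ↔ x % p = y % p ∧ x / p % p ^ (j - 1) = y / p % p ^ (j - 1) := by
  have h1 : p ^ j = p * p ^ (j - 1) := by rw [← pow_succ']; congr 1; omega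
  rw [h1, Nat.mod_mul, Nat.mod_mul]
  constructor
  · intro h
    have h2 := congrArg (· % p) h
    simp only [Nat.add_mul_mod_self_left, Nat.mod_mod] at h2
    refine ⟨h2, ?_⟩
    rw [h2] at h
    have h3 := Nat.add_left_cancel h
    exact Nat.eq_of_mul_eq_mul_left hp h3
  · rintro ⟨h2, h3⟩
    rw [h2, h3]

lemma tens_EM_apply (hp : 0 < p) (ha : 1 ≤ a) (K : Matrix (Fin p) (Fin p) ℝ) {j : ℕ} (hj : 1 ≤ j)
    (x z : Fin (p ^ a)) : (tens a hp K * EM p a j) x z
      = if (x : ℕ) / p % p ^ (j - 1) = (z : ℕ) / p % p ^ (j - 1) then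
          K (pi1 hp x) (pi1 hp z) * ((p : ℝ) ^ j / (p : ℝ) ^ a) else 0 := by
  rw [Matrix.mul_apply]
  have h1 : ∀ y : Fin (p ^ a), tens a hp K x y * EM p a j y z
      = if (x : ℕ) / p = (y : ℕ) / p then K (pi1 hp x) (pi1 hp y) * EM p a j y z else 0 := fun y => by
    unfold tens
    split_ifs <;> simp
  simp only [h1]
  rw [sum_dg hp ha x (fun y => K (pi1 hp x) (pi1 hp y) * EM p a j y z)]
  simp only [pi1_dg, EM]
  have h2 : ∀ r : Fin p, (((dg hp ha x r : Fin _) : ℕ) % p ^ j = (z : ℕ) % p ^ j) ↔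
      (r = pi1 hp z ∧ (x : ℕ) / p % p ^ (j - 1) = (z : ℕ) / p % p ^ (j - 1)) := by
    intro r
    rw [mod_iff hp hj, dg_div]
    constructor
    · rintro ⟨h3, h4⟩
      refine ⟨?_, h4⟩
      have h5 := congrArg Fin.val (pi1_dg hp ha x r)
      apply Fin.ext
      rw [← h5]
      exact h3
    · rintro ⟨h3, h4⟩
      refine ⟨?_, h4⟩
      have h5 : ((dg hp ha x r : Fin _) : ℕ) % p = r := congrArg Fin.val (pi1_dg hp ha x r)
      rw [h5, h3]
      rfl
  simp only [h2]
  by_cases hx : (x : ℕ) / p % p ^ (j - 1) = (z : ℕ) / p % p ^ (j - 1)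
  · simp only [hx, and_true, if_true]
    simp
  · simp only [hx, and_false, if_false, mul_zero, Finset.sum_const_zero]

/-- kernels with constant row and column sums commute with the means over classes -/
lemma tens_comm_EM (hp : 0 < p) (ha : 1 ≤ a) (K : Matrix (Fin p) (Fin p) ℝ) (c : ℝ)
    (h1 : ∀ x, ∑ y, K x y = c) (h2 : ∀ y, ∑ x, K x y = c) (j : ℕ) :
    tens a hp K * EM p a j = EM p a j * tens a hp K := by
  rcases Nat.eq_zero_or_pos j with h0 | h0
  · subst h0
    rw [EM_zero]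
    ext x z
    simp only [Matrix.mul_apply, E]
    rw [← Finset.sum_mul, ← Finset.mul_sum, sum_tens_row hp ha, h1]
    have h3 : ∀ y, tens a hp K y z = tens a hp K.transpose z y := fun y => by
      have := congrFun (congrFun (tens_transpose (a := a) hp K) z) y
      rwa [Matrix.transpose_apply] at this
    simp only [h3]
    rw [sum_tens_row hp ha]
    simp only [Matrix.transpose_apply]
    rw [h2]; ring
  · ext x z
    rw [tens_EM_apply hp ha K h0]
    have h3 : EM p a j * tens a hp K = ((tens a hp K.transpose) * EM p a j).transpose := by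
      rw [Matrix.transpose_mul, EM_transpose, tens_transpose, Matrix.transpose_transpose]
    rw [h3, Matrix.transpose_apply, tens_EM_apply hp ha _ h0]
    simp only [Matrix.transpose_apply, eq_comm]

lemma tens_comm_DM (hp : 0 < p) (ha : 1 ≤ a) (K : Matrix (Fin p) (Fin p) ℝ) (c : ℝ)
    (h1 : ∀ x, ∑ y, K x y = c) (h2 : ∀ y, ∑ x, K x y = c) (o : Option (Fin a)) :
    tens a hp K * DM (DD p a) o = DM (DD p a) o * tens a hp K := by
  rcases o with _ | j
  · have := tens_comm_EM hp ha K c h1 h2 0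
    rw [EM_zero] at this
    exact this
  · simp only [DM, Option.elim_some, DD, mul_sub, sub_mul]
    rw [tens_comm_EM hp ha K c h1 h2, tens_comm_EM hp ha K c h1 h2]

/-- comparison of quadratic forms -/
lemma form_mono (hp : 0 < p) (ha : 1 ≤ a) {K L : Matrix (Fin p) (Fin p) ℝ}
    (h : ∀ g : Fin p → ℝ, ∑ x, ∑ y, g x * K x y * g y ≤ ∑ x, ∑ y, g x * L x y * g y)
    (G : Fin (p ^ a) → ℝ) :
    ∑ x, ∑ y, G x * tens a hp K x y * G y ≤ ∑ x, ∑ y, G x * tens a hp L x y * G y := by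
  have hp0 : (0 : ℝ) < p := by exact_mod_cast hp
  have key : ∀ K : Matrix (Fin p) (Fin p) ℝ, (p : ℝ) * ∑ x, ∑ y, G x * tens a hp K x y * G y
      = ∑ x : Fin (p ^ a), ∑ r, ∑ s, G (dg hp ha x r) * K r s * G (dg hp ha x s) := by
    intro K
    have h1 : ∀ x : Fin (p ^ a), ∑ y, G x * tens a hp K x y * G y
        = ∑ s, G x * K (pi1 hp x) s * G (dg hp ha x s) := by
      intro x
      have h2 : ∀ y : Fin (p ^ a), G x * tens a hp K x y * G y
          = if (x : ℕ) / p = (y : ℕ) / p then G x * K (pi1 hp x) (pi1 hp y) * G y else 0 := fun y => by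
        unfold tens
        split_ifs <;> simp
      simp only [h2]
      rw [sum_dg hp ha x (fun y => G x * K (pi1 hp x) (pi1 hp y) * G y)]
      simp only [pi1_dg]
    simp only [h1]
    rw [← sum_sum_dg hp ha (fun x => ∑ s, G x * K (pi1 hp x) s * G (dg hp ha x s))]
    simp only [pi1_dg, dg_dg]
  have h3 := Finset.sum_le_sum fun (x : Fin (p ^ a)) (_ : x ∈ Finset.univ) => h (fun r => G (dg hp ha x r))
  rw [← key K, ← key L] at h3
  exact le_of_mul_le_mul_left h3 hp0

end Run7.h52.U2
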