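import Pool.Agent.Run7.h52.U20

set_option autoImplicit false
set_option linter.unusedSectionVars false

namespace Run7.h52.U21

open Finset Run7.h52.Count Run7.h52.Rough Run7.h52.Asym Run7.h52.AsmV Run7.h52.U19 Run7.h52.U20

/-- convexity -/
lemma conv_pow {f g a b : ℝ} (ha : 0 < a) (hb : 0 < b) (m : ℕ) (hm : 1 ≤ m) :
    |f + g| ^ m * a ^ (m - 1) * b ^ (m - 1) ≤
      (a + b) ^ (m - 1) * (|f| ^ m * b ^ (m - 1) + |g| ^ m * a ^ (m - 1)) := by
  obtain ⟨k, rfl⟩ : ∃ k, m = k + 1 := ⟨m - 1, by omega⟩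
  simp only [Nat.add_sub_cancel]
  have hab : 0 < a + b := by linarith
  have hx : |f| / (a / (a + b)) ∈ Set.Ici (0 : ℝ) := Set.mem_Ici.2 (by positivity)
  have hy : |g| / (b / (a + b)) ∈ Set.Ici (0 : ℝ) := Set.mem_Ici.2 (by positivity)
  have hc := (convexOn_pow (𝕜 := ℝ) (k + 1)).2 hx hy (show 0 ≤ a / (a + b) by positivity)
    (show 0 ≤ b / (a + b) by positivity) (by field_simp)
  simp only [smul_eq_mul] at hc
  have e1 : a / (a + b) * (|f| / (a / (a + b))) + b / (a + b) * (|g| / (b / (a + b))) = |f| + |g| := by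
    field_simp
  rw [e1] at hc
  have h1 : |f + g| ^ (k + 1) ≤ (|f| + |g|) ^ (k + 1) := pow_le_pow_left₀ (abs_nonneg _) (abs_add_le f g) _
  have e2 : a / (a + b) * (|f| / (a / (a + b))) ^ (k + 1) + b / (a + b) * (|g| / (b / (a + b))) ^ (k + 1)
      = (a + b) ^ k * (|f| ^ (k + 1) * b ^ k + |g| ^ (k + 1) * a ^ k) / (a ^ k * b ^ k) := by
    rw [div_pow, div_pow, div_pow, div_pow]
    field_simp
    ring
  rw [e2] at hc
  have h2 := h1.trans hc
  rw [le_div_iff₀ (by positivity)] at h2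
  calc |f + g| ^ (k + 1) * a ^ k * b ^ k = |f + g| ^ (k + 1) * (a ^ k * b ^ k) := by ring
    _ ≤ _ := h2

/-- all moments in all intervals -/
theorem momT {θ κ : ℝ} (hθ0 : 0 < θ) (hθ1 : θ < 1) (hκ : 0 < κ) (m : ℕ) (hm : 1 ≤ m) :
    ∃ (A : ℕ) (c : ℝ), 0 < c ∧ ∃ T : ℝ, ∀ N : ℕ, T ≤ N → ∀ Y z : ℕ,
    (Real.log N) ^ A ≤ Y → (z : ℝ) ≤ (N : ℝ) ^ c →
    ∀ w : ℤ → ℝ, TW.SquareWeight ((N : ℝ) ^ θ) w → ∀ x : ℤ,
    ∑ n ∈ Finset.Ioc x (x + N), w n * |(RC z Y n : ℝ) - W z * Y| ^ m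
      ≤ κ * (W z * Y) ^ m * ∑ n ∈ Finset.Ioc x (x + N), w n := by
  classical
  obtain ⟨A, c, hc, T, hT3, hT⟩ := base hθ0 hθ1 hκ m hm
  -- `2 (l ^ A + 1) ≤ N`
  have hev : ∀ᶠ l : ℝ in Filter.atTop, 2 * (l ^ A + 1) ≤ Real.exp l := by
    have h1 := (isLittleO_pow_exp_pos_mul_atTop (k := A) one_pos).bound (c := 1 / 4) (by norm_num)
    filter_upwards [h1, Filter.eventually_ge_atTop (2 : ℝ), Filter.eventually_ge_atTop (4 : ℝ)] with l g1 g2 g3
    rw [one_mul, Real.norm_of_nonneg (by positivity), Real.norm_of_nonneg (Real.exp_pos _).le] at g1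
    have h2 := Real.add_one_le_exp l
    linarith
  obtain ⟨l₀, hl₀⟩ := Filter.eventually_atTop.1 hev
  refine ⟨A, c, hc, max T (Real.exp l₀), fun N hN Y z hY hz w hw x => ?_⟩
  have hNT : T ≤ N := (le_max_left _ _).trans hN
  have hN3 : (3 : ℝ) ≤ N := hT3.trans hNT
  have hN0 : (0 : ℝ) < N := by linarith
  set l := Real.log (N : ℝ) with hl
  have hl0 : l₀ ≤ l := by rw [hl, Real.le_log_iff_exp_le hN0]; exact (le_max_right _ _).trans hN
  have hexp : Real.exp l = N := Real.exp_log hN0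
  have hNA : 2 * (l ^ A + 1) ≤ N := by rw [← hexp]; exact hl₀ l hl0
  have hlpos : 0 < l := Real.log_pos (by linarith)
  set L0 : ℕ := ⌈l ^ A⌉₊ with hL0
  have hL0l : l ^ A ≤ L0 := Nat.le_ceil _
  have hL0u : (L0 : ℝ) < l ^ A + 1 := Nat.ceil_lt_add_one (by positivity)
  have hL02 : 2 * L0 ≤ N := by
    have : ((2 * L0 : ℕ) : ℝ) ≤ N := by push_cast; linarith
    exact_mod_cast this
  have hL01 : 1 ≤ L0 := Nat.ceil_pos.2 (by positivity)
  set Z := ∑ n ∈ Finset.Ioc x (x + N), w n with hZ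
  have hZ0 : 0 ≤ Z := Finset.sum_nonneg fun n _ => sw_nonneg hw n
  have hWz := W_pos z
  have hYL : L0 ≤ Y := Nat.ceil_le.2 hY
  -- the statement for all shifts
  have key : ∀ Y : ℕ, L0 ≤ Y → ∀ t : ℤ,
      ∑ n ∈ Finset.Ioc x (x + N), w n * |(RC z Y (n + t) : ℝ) - W z * Y| ^ m ≤ κ * (W z * Y) ^ m * Z := by
    intro Y
    induction Y using Nat.strong_induction_on with
    | _ Y ih =>
      intro hYL t
      rcases le_or_gt Y N with hYN | hYN
      · have h1 := hT N hNT Y z (hL0l.trans (by exact_mod_cast hYL)) hYN hz _ (sw_shift hw t) (x + t)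
        rw [sum_shift x t N w (fun n => |(RC z Y n : ℝ) - W z * Y| ^ m)]
        have h2 : ∑ n ∈ Finset.Ioc (x + t) (x + t + N), w (n - t) = Z := by
          have := sum_shift x t N w (fun _ => 1)
          simpa using this.symm
        simp only [rc_eq] at h1
        rw [h2] at h1
        exact h1
      · obtain ⟨Y1, rfl⟩ : ∃ Y1, Y = Y1 + L0 := ⟨Y - L0, by omega⟩
        have h1 := ih Y1 (by omega) (by omega) t
        have h2 := ih L0 (by omega) le_rfl (t + Y1)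
        have ha : (0 : ℝ) < Y1 := by exact_mod_cast (by omega : 0 < Y1)
        have hb : (0 : ℝ) < L0 := by exact_mod_cast hL01
        have hab : (((Y1 + L0 : ℕ) : ℝ)) = Y1 + L0 := by push_cast; ring
        have pt : ∀ n : ℤ, |(RC z (Y1 + L0) (n + t) : ℝ) - W z * ((Y1 + L0 : ℕ) : ℝ)| ^ m *
            ((Y1 : ℝ) ^ (m - 1) * (L0 : ℝ) ^ (m - 1)) ≤
            ((Y1 : ℝ) + L0) ^ (m - 1) * (|(RC z Y1 (n + t) : ℝ) - W z * Y1| ^ m * (L0 : ℝ) ^ (m - 1)
              + |(RC z L0 (n + (t + Y1)) : ℝ) - W z * L0| ^ m * (Y1 : ℝ) ^ (m - 1)) := by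
          intro n
          have h3 := conv_pow (f := (RC z Y1 (n + t) : ℝ) - W z * Y1) (g := (RC z L0 (n + (t + Y1)) : ℝ) - W z * L0)
            ha hb m hm
          have e1 : (RC z Y1 (n + t) : ℝ) - W z * Y1 + ((RC z L0 (n + (t + Y1)) : ℝ) - W z * L0)
              = (RC z (Y1 + L0) (n + t) : ℝ) - W z * ((Y1 + L0 : ℕ) : ℝ) := by
            have h4 := RC_add z Y1 L0 (n + t)
            have h5 : n + t + (Y1 : ℤ) = n + (t + Y1) := by ring
            rw [h5] at h4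
            rw [h4]; push_cast; ring
          rw [e1] at h3
          rw [← mul_assoc]
          exact h3
        have hmul : (∑ n ∈ Finset.Ioc x (x + N), w n * |(RC z (Y1 + L0) (n + t) : ℝ) - W z * ((Y1 + L0 : ℕ) : ℝ)| ^ m) *
            ((Y1 : ℝ) ^ (m - 1) * (L0 : ℝ) ^ (m - 1))
            ≤ ((Y1 : ℝ) + L0) ^ (m - 1) * ((L0 : ℝ) ^ (m - 1) * (κ * (W z * Y1) ^ m * Z)
              + (Y1 : ℝ) ^ (m - 1) * (κ * (W z * L0) ^ m * Z)) := by
          calc (∑ n ∈ Finset.Ioc x (x + N), w n * |(RC z (Y1 + L0) (n + t) : ℝ) - W z * ((Y1 + L0 : ℕ) : ℝ)| ^ m) *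
                ((Y1 : ℝ) ^ (m - 1) * (L0 : ℝ) ^ (m - 1))
              ≤ ∑ n ∈ Finset.Ioc x (x + N), ((Y1 : ℝ) + L0) ^ (m - 1) *
                ((L0 : ℝ) ^ (m - 1) * (w n * |(RC z Y1 (n + t) : ℝ) - W z * Y1| ^ m)
                + (Y1 : ℝ) ^ (m - 1) * (w n * |(RC z L0 (n + (t + Y1)) : ℝ) - W z * L0| ^ m)) := by
                rw [Finset.sum_mul]
                refine Finset.sum_le_sum fun n _ => ?_
                have := mul_le_mul_of_nonneg_left (pt n) (sw_nonneg hw n)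
                linarith
            _ = ((Y1 : ℝ) + L0) ^ (m - 1) *
                ((L0 : ℝ) ^ (m - 1) * ∑ n ∈ Finset.Ioc x (x + N), (w n * |(RC z Y1 (n + t) : ℝ) - W z * Y1| ^ m)
                + (Y1 : ℝ) ^ (m - 1) * ∑ n ∈ Finset.Ioc x (x + N), (w n * |(RC z L0 (n + (t + Y1)) : ℝ) - W z * L0| ^ m)) := by
                rw [← Finset.mul_sum, Finset.sum_add_distrib, ← Finset.mul_sum, ← Finset.mul_sum]
            _ ≤ _ := by
                refine mul_le_mul_of_nonneg_left (add_le_add ?_ ?_) (by positivity)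
                · exact mul_le_mul_of_nonneg_left h1 (by positivity)
                · exact mul_le_mul_of_nonneg_left h2 (by positivity)
        have hfin : ((Y1 : ℝ) + L0) ^ (m - 1) * ((L0 : ℝ) ^ (m - 1) * (κ * (W z * Y1) ^ m * Z)
              + (Y1 : ℝ) ^ (m - 1) * (κ * (W z * L0) ^ m * Z))
            = (κ * (W z * ((Y1 + L0 : ℕ) : ℝ)) ^ m * Z) * ((Y1 : ℝ) ^ (m - 1) * (L0 : ℝ) ^ (m - 1)) := by
          obtain ⟨k, hk⟩ : ∃ k, m = k + 1 := ⟨m - 1, by omega⟩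
          rw [hk, hab]
          simp only [Nat.add_sub_cancel]
          rw [mul_pow, mul_pow, mul_pow, pow_succ (Y1 : ℝ), pow_succ (L0 : ℝ), pow_succ ((Y1 : ℝ) + L0)]
          ring
        rw [hfin] at hmul
        exact le_of_mul_le_mul_right hmul (by positivity)
  have := key Y hYL 0
  simpa using this

end Run7.h52.U21
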