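import Pool.Agent.Run7.h52.U2
import Pool.Agent.Run7.h52.Sp2

set_option autoImplicit false
set_option linter.unusedSectionVars false

namespace Run7.h52.U3

open Finset Run7.h52.Op Run7.h52.Ker Run7.h52.Core Run7.h52.CoreG Run7.h52.CellG Run7.h52.Sp
  Run7.h52.U1 Run7.h52.U2

section gen
variable {ι : Type} [Fintype ι] [DecidableEq ι] {Ω : ι → Type} [∀ i, Fintype (Ω i)]
  [∀ i, DecidableEq (Ω i)]

lemma op_upd (V : (∀ i, Ω i) → ℝ) (i : ι) (T : Matrix (Ω i) (Ω i) ℝ) (x : ∀ i, Ω i) :
    op (Function.update (fun j => (1 : Matrix (Ω j) (Ω j) ℝ)) i T) V x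
      = ∑ b, T (x i) b * V (Function.update x i b) := by
  unfold op
  symm
  refine Fintype.sum_of_injective (fun b => Function.update x i b) ?_ _ _ ?_ ?_
  · intro b c h
    have := congrFun h i
    simpa using this
  · intro y hy
    have h1 : ∃ j, j ≠ i ∧ x j ≠ y j := by
      by_contra hcon
      push Not at hcon
      apply hy
      refine ⟨y i, ?_⟩
      funext j
      by_cases hj : j = i
      · subst hj; simp
      · simp only [Function.update_of_ne hj]
        exact hcon j hj
    obtain ⟨j, hj, hxy⟩ := h1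
    rw [Finset.prod_eq_zero (Finset.mem_univ j), zero_mul]
    rw [Function.update_of_ne hj, Matrix.one_apply_ne hxy]
  · intro b
    congr 1
    rw [← Finset.mul_prod_erase _ _ (Finset.mem_univ i), Function.update_self, Function.update_self]
    rw [Finset.prod_eq_one, mul_one]
    intro j hj
    have hj' := Finset.ne_of_mem_erase hj
    rw [Function.update_of_ne hj', Function.update_of_ne hj', Matrix.one_apply_eq]

lemma f1_eq (V : (∀ i, Ω i) → ℝ) (i : ι) (T : Matrix (Ω i) (Ω i) ℝ) :
    (Fintype.card (Ω i) : ℝ) * f1 V i T = ∑ x : (∀ i, Ω i), ∑ a, ∑ b,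
      V (Function.update x i a) * T a b * V (Function.update x i b) := by
  have h1 : f1 V i T = ∑ x, ∑ b, V x * T (x i) b * V (Function.update x i b) := by
    unfold f1 ip
    refine Finset.sum_congr rfl fun x _ => ?_
    rw [op_upd, Finset.mul_sum]
    exact Finset.sum_congr rfl fun b _ => by ring
  rw [h1, ← sum_update i (fun x => ∑ b, V x * T (x i) b * V (Function.update x i b))]
  refine Finset.sum_congr rfl fun x _ => Finset.sum_congr rfl fun a _ => Finset.sum_congr rfl fun b _ => ?_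
  rw [Function.update_self, Function.update_idem]

lemma f1_mono (V : (∀ i, Ω i) → ℝ) (i : ι) (hne : Nonempty (Ω i)) {T T' : Matrix (Ω i) (Ω i) ℝ}
    (h : ∀ G : Ω i → ℝ, ∑ x, ∑ y, G x * T x y * G y ≤ ∑ x, ∑ y, G x * T' x y * G y) :
    f1 V i T ≤ f1 V i T' := by
  have hc : (0 : ℝ) < Fintype.card (Ω i) := by exact_mod_cast Fintype.card_pos_iff.2 hne
  have h1 := Finset.sum_le_sum fun (x : ∀ i, Ω i) (_ : x ∈ Finset.univ) =>
    h (fun a => V (Function.update x i a))
  rw [← f1_eq V i T, ← f1_eq V i T'] at h1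
  exact le_of_mul_le_mul_left h1 hc

end gen

variable {Q : ℕ}

/-- a set of classes for every prime -/
abbrev KC (Q : ℕ) : Type := ∀ i : Ix Q, Finset (Fin (i : ℕ))

/-- not all classes -/
def OK (K : KC Q) : Prop := ∀ i, (K i).card < (i : ℕ)

lemma OK.fin {K : KC Q} (h : OK K) (i : Ix Q) : (K i).card < Fintype.card (Fin (i : ℕ)) := by
  rw [Fintype.card_fin]; exact h i

noncomputable def Nn (K : KC Q) (i : Ix Q) : Matrix (Om Q i) (Om Q i) ℝ :=
  tens Q (ip_prime i).pos (NK (K i))

noncomputable def Qn (K : KC Q) (i : Ix Q) : Matrix (Om Q i) (Om Q i) ℝ :=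
  tens Q (ip_prime i).pos (QK (K i))

/-- components -/
noncomputable def XX (K : KC Q) (τ : Ix Q → Bool) (i : Ix Q) : Matrix (Om Q i) (Om Q i) ℝ :=
  if τ i = true then tens Q (ip_prime i).pos (PK (K i)) else tens Q (ip_prime i).pos (E (Fin (i : ℕ)))

/-- the part of `v` which does not see the classes `K` -/
noncomputable def hh (K : KC Q) (v : (∀ i, Om Q i) → ℝ) : (∀ i, Om Q i) → ℝ := op (Nn K) v

section
variable (hQ : 1 ≤ Q) {K : KC Q} (hK : OK K)
include hQ hK

lemma Nn_transpose (i : Ix Q) : (Nn K i).transpose = Nn K i := by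
  rw [Nn, tens_transpose, NK_transpose (hK.fin i)]

lemma Nn_mul (i : Ix Q) : Nn K i * Nn K i = Nn K i := by
  rw [Nn, tens_mul _ hQ, NK_mul_NK (hK.fin i)]

lemma Qn_transpose (i : Ix Q) : (Qn K i).transpose = Qn K i := by
  rw [Qn, tens_transpose, QK_transpose (hK.fin i)]

lemma Qn_mul (i : Ix Q) : Qn K i * Qn K i = Qn K i := by
  rw [Qn, tens_mul _ hQ, QK_mul_QK (hK.fin i)]

lemma Qn_add_Nn (i : Ix Q) : Qn K i + Nn K i = 1 := by
  rw [Qn, Nn, ← tens_add, ← tens_one (ip_prime i).pos]
  congr 1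
  rw [QK, NK]; abel

lemma ip_hh (v : (∀ i, Om Q i) → ℝ) : ip (hh K v) (hh K v) = ip v (hh K v) :=
  ip_proj _ (Nn_transpose hQ hK) (Nn_mul hQ hK) v

lemma ip_sub_hh (v : (∀ i, Om Q i) → ℝ) :
    ip (v - hh K v) (v - hh K v) = ip v v - ip (hh K v) (hh K v) := by
  have h := ip_hh hQ hK v
  have e : ip (v - hh K v) (v - hh K v) = ip v v - 2 * ip v (hh K v) + ip (hh K v) (hh K v) := by
    unfold ip
    rw [Finset.mul_sum, ← Finset.sum_sub_distrib, ← Finset.sum_add_distrib]
    refine Finset.sum_congr rfl fun y _ => ?_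
    rw [Pi.sub_apply]; ring
  rw [e, ← h]; ring

lemma hh_le (v : (∀ i, Om Q i) → ℝ) : ip (hh K v) (hh K v) ≤ ip v v := by
  have h := ip_sub_hh hQ hK v
  have h2 := ip_self_nonneg (v - hh K v)
  linarith

lemma f1_Qn_nonneg (v : (∀ i, Om Q i) → ℝ) (i : Ix Q) : 0 ≤ f1 v i (Qn K i) :=
  f1_nonneg v i _ (Qn_transpose hQ hK i) (Qn_mul hQ hK i)

lemma near (v : (∀ i, Om Q i) → ℝ) :
    ip (v - hh K v) (v - hh K v) ≤ ∑ i, f1 v i (Qn K i) := by
  classical
  set P : ∀ i : Ix Q, Bool → Matrix (Om Q i) (Om Q i) ℝ :=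
    fun i c => if c = true then Qn K i else Nn K i with hP
  have h1 : ∀ i c, (P i c).transpose = P i c := by
    intro i c; cases c
    · simp only [hP, Bool.false_eq_true, if_false, Nn_transpose hQ hK]
    · simp only [hP, if_true, Qn_transpose hQ hK]
  have h2 : ∀ i c, P i c * P i c = P i c := by
    intro i c; cases c
    · simp only [hP, Bool.false_eq_true, if_false, Nn_mul hQ hK]
    · simp only [hP, if_true, Qn_mul hQ hK]
  have h3 : ∀ i, ∑ c, P i c = 1 := by
    intro i
    simp only [Fintype.sum_bool, hP, if_true, Bool.false_eq_true, if_false]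
    exact Qn_add_Nn hQ hK i
  have hs := sum_parts P h1 h2 h3 v
  have hw := weight_parts_all P h1 h2 h3 v (fun _ c => if c = true then 1 else 0)
  have e : ∀ i : Ix Q, ip v (op (Function.update (fun j => (1 : Matrix (Om Q j) (Om Q j) ℝ)) i
        (∑ c : Bool, (if c = true then (1 : ℝ) else 0) • P i c)) v) = f1 v i (Qn K i) := by
    intro i
    rw [f1]
    congr 3
    simp only [Fintype.sum_bool, hP, if_true, Bool.false_eq_true, if_false, one_smul, zero_smul, add_zero]
  simp only [e] at hw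
  rw [ip_sub_hh hQ hK, ← hs, ← hw]
  set z : Ix Q → Bool := fun _ => false with hz
  have hzz : hh K v = op (fun i => P i (z i)) v := by
    simp only [hh, hP, hz, Bool.false_eq_true, if_false]
  rw [← Finset.add_sum_erase _ _ (Finset.mem_univ z), hzz]
  rw [← Finset.add_sum_erase _ (fun τ : Ix Q → Bool => (∑ i, if τ i = true then (1 : ℝ) else 0) *
    ip (op (fun i => P i (τ i)) v) (op (fun i => P i (τ i)) v)) (Finset.mem_univ z)]
  have h4 : ∑ τ ∈ Finset.univ.erase z, ip (op (fun i => P i (τ i)) v) (op (fun i => P i (τ i)) v)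
      ≤ ∑ τ ∈ Finset.univ.erase z, (∑ i, if τ i = true then (1 : ℝ) else 0) *
        ip (op (fun i => P i (τ i)) v) (op (fun i => P i (τ i)) v) := by
    refine Finset.sum_le_sum fun τ hτ => ?_
    have hne := Finset.ne_of_mem_erase hτ
    have hex : ∃ i, τ i = true := by
      by_contra hcon
      push Not at hcon
      exact hne (funext fun i => by simpa using hcon i)
    obtain ⟨i, hi⟩ := hex
    have h5 : (1 : ℝ) ≤ ∑ i, if τ i = true then (1 : ℝ) else 0 := by
      have := Finset.single_le_sum (f := fun i => if τ i = true then (1 : ℝ) else 0)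
        (s := Finset.univ) (fun j _ => by split_ifs <;> norm_num) (Finset.mem_univ i)
      simpa only [hi, if_true] using this
    have h6 := mul_le_mul_of_nonneg_right h5 (ip_self_nonneg (op (fun i => P i (τ i)) v))
    linarith
  have h7 : (0 : ℝ) ≤ (∑ i, if z i = true then (1 : ℝ) else 0) *
    ip (op (fun i => P i (z i)) v) (op (fun i => P i (z i)) v) :=
    mul_nonneg (Finset.sum_nonneg fun _ _ => by split_ifs <;> norm_num) (ip_self_nonneg _)
  linarith

/-- diagonal kernels -/
lemma op_diag (d : ∀ i : Ix Q, Om Q i → ℝ) (w : (∀ i, Om Q i) → ℝ) (x : ∀ i, Om Q i) :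
    op (fun i => Matrix.diagonal (d i)) w x = (∏ i, d i (x i)) * w x := by
  unfold op
  rw [Finset.sum_eq_single x]
  · congr 1
    exact Finset.prod_congr rfl fun i _ => Matrix.diagonal_apply_eq _ _
  · intro y _ hy
    have : ∃ i, x i ≠ y i := by
      by_contra h
      push Not at h
      exact hy (funext fun i => (h i).symm)
    obtain ⟨i, hi⟩ := this
    rw [Finset.prod_eq_zero (Finset.mem_univ i), zero_mul]
    exact Matrix.diagonal_apply_ne _ hi
  · simp

end

/-- the indicator functions -/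
noncomputable def ind (K : KC Q) (x : ∀ i, Om Q i) (p : ℕ) : ℝ :=
  if h : p ∈ Count.PP Q then (if pi1 (ip_prime ⟨p, h⟩).pos (x ⟨p, h⟩) ∈ K ⟨p, h⟩ then 1 else 0) else 0

/-- the local densities seen by a component -/
noncomputable def ut (K : KC Q) (τ : Ix Q → Bool) (p : ℕ) : ℝ :=
  if h : p ∈ Count.PP Q then (if τ ⟨p, h⟩ = true then 0 else ((K ⟨p, h⟩).card : ℝ) / p) else 0

lemma prod_Ix (A : Finset ℕ) (hA : A ⊆ Count.PP Q) (f : ℕ → ℝ) :
    ∏ i : Ix Q, (if (i : ℕ) ∈ A then f i else 1) = ∏ p ∈ A, f p := by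
  rw [Finset.prod_coe_sort (Count.PP Q) (fun p => if p ∈ A then f p else 1), Finset.prod_ite_mem,
    Finset.inter_eq_right.2 hA]

section
variable (hQ : 1 ≤ Q) {K : KC Q} (hK : OK K)
include hQ hK

lemma eval_mono (A : Finset ℕ) (hA : A ⊆ Count.PP Q) (v : (∀ i, Om Q i) → ℝ) :
    ip (hh K v) (fun x => (∏ p ∈ A, ind K x p) * hh K v x)
      = ∑ τ : Ix Q → Bool, (∏ p ∈ A, ut K τ p) * ip (op (XX K τ) v) (op (XX K τ) v) := by
  classical
  set D : ∀ i : Ix Q, Matrix (Om Q i) (Om Q i) ℝ := fun i =>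
    Matrix.diagonal (fun y => if (i : ℕ) ∈ A then (if pi1 (ip_prime i).pos y ∈ K i then 1 else 0) else 1)
    with hD
  have e1 : (fun x => (∏ p ∈ A, ind K x p) * hh K v x) = op D (hh K v) := by
    funext x
    rw [hD, op_diag hQ hK]
    congr 1
    have h1 : ∀ i : Ix Q, (if (i : ℕ) ∈ A then (if pi1 (ip_prime i).pos (x i) ∈ K i then (1 : ℝ) else 0) else 1)
        = if (i : ℕ) ∈ A then ind K x i else 1 := by
      intro i
      by_cases h : (i : ℕ) ∈ A
      · rw [if_pos h, if_pos h, ind, dif_pos i.2]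
      · rw [if_neg h, if_neg h]
    simp only [h1]
    exact (prod_Ix A hA (ind K x)).symm
  rw [e1, hh, ip_op_left, op_comp, op_comp]
  rw [ip_op_expand (C := Bool) (fun i c => if c = true then tens Q (ip_prime i).pos (PK (K i)) else
    tens Q (ip_prime i).pos (E (Fin (i : ℕ))))
    (fun i c => if (i : ℕ) ∈ A then (if c = true then 0 else ((K i).card : ℝ) / (i : ℕ)) else 1) _ ?_ v]
  · refine Finset.sum_congr rfl fun τ _ => ?_
    have h2 : ∀ i : Ix Q, (if (i : ℕ) ∈ A then (if τ i = true then (0 : ℝ) else ((K i).card : ℝ) / (i : ℕ)) else 1)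
        = if (i : ℕ) ∈ A then ut K τ i else 1 := by
      intro i
      by_cases h : (i : ℕ) ∈ A
      · rw [if_pos h, if_pos h, ut, dif_pos i.2]
      · rw [if_neg h, if_neg h]
    simp only [h2]
    rw [prod_Ix A hA (ut K τ)]
    rfl
  · intro i
    have hKi := hK.fin i
    have hpp := (ip_prime i).pos
    simp only [Fintype.sum_bool, if_true, Bool.false_eq_true, if_false]
    rw [tens_transpose, tens_transpose, PK_transpose, E_transpose, tens_mul _ hQ, tens_mul _ hQ,
      PK_mul_PK hKi, EE hKi, Nn_transpose hQ hK]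
    by_cases h : (i : ℕ) ∈ A
    · simp only [h, if_true, zero_smul, zero_add]
      have h3 : D i = tens Q hpp (IK (K i)) := by
        rw [IK, tens_diag]
        simp only [hD, h, if_true]
      rw [h3, Nn, tens_mul _ hQ, tens_mul _ hQ, NK_IK_NK hKi, tens_smul, Fintype.card_fin]
    · simp only [h, if_false, one_smul]
      have h3 : D i = 1 := by
        simp only [hD, h, if_false]
        exact Matrix.diagonal_one
      rw [h3, mul_one, Nn_mul hQ hK, Nn, ← tens_add, NK]
      congr 1
      abel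

lemma sum_XX (v : (∀ i, Om Q i) → ℝ) :
    ∑ τ : Ix Q → Bool, ip (op (XX K τ) v) (op (XX K τ) v) = ip (hh K v) (hh K v) := by
  have h := eval_mono hQ hK ∅ (Finset.empty_subset _) v
  simp only [Finset.prod_empty, one_mul] at h
  exact h.symm

end

end Run7.h52.U3
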