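import Pool.Agent.Run7.h52.U3
import Pool.Agent.Run7.h52.AsmT2

set_option autoImplicit false
set_option linter.unusedSectionVars false

namespace Run7.h52.U4

open Finset Run7.h52.Op Run7.h52.Ker Run7.h52.Core Run7.h52.CoreG Run7.h52.CellG Run7.h52.Sp
  Run7.h52.U1 Run7.h52.U2 Run7.h52.U3 Run7.h52.AsmT

variable {Q : ℕ}

lemma tens_sum {p a : ℕ} (hp : 0 < p) {κ : Type} (s : Finset κ) (K : κ → Matrix (Fin p) (Fin p) ℝ) :
    tens a hp (∑ k ∈ s, K k) = ∑ k ∈ s, tens a hp (K k) := by
  classical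
  induction s using Finset.induction_on with
  | empty => simp only [Finset.sum_empty]; exact tens_zero hp
  | insert k s hk ih => rw [Finset.sum_insert hk, Finset.sum_insert hk, tens_add, ih]

lemma form_one_sub_E {α : Type} [Fintype α] [DecidableEq α] (g : α → ℝ) (μ : ℝ)
    (hn : 0 < (Fintype.card α : ℝ)) (hμ : (Fintype.card α : ℝ) * μ = ∑ x, g x) :
    ∑ x, ∑ y, g x * (1 - E α) x y * g y = ∑ x, (g x - μ) ^ 2 := by
  have h1 : ∀ x, ∑ y, g x * (1 - E α) x y * g y = g x ^ 2 - g x * μ := by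
    intro x
    have h2 : ∀ y, g x * (1 - E α) x y * g y = (if x = y then g x * g y else 0)
        - g x * g y / (Fintype.card α : ℝ) := by
      intro y
      rw [Matrix.sub_apply, E, Matrix.one_apply]
      split_ifs <;> ring
    simp only [h2, Finset.sum_sub_distrib, Finset.sum_ite_eq, Finset.mem_univ, if_true]
    rw [← Finset.sum_div, ← Finset.mul_sum, ← hμ]
    field_simp
  simp only [h1, Finset.sum_sub_distrib]
  rw [← Finset.sum_mul, ← hμ]
  have h3 : ∑ x, (g x - μ) ^ 2 = ∑ x, g x ^ 2 - 2 * μ * ∑ x, g x + (Fintype.card α : ℝ) * μ ^ 2 := by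
    rw [Finset.mul_sum, ← Finset.sum_sub_distrib]
    have : (Fintype.card α : ℝ) * μ ^ 2 = ∑ _x : α, μ ^ 2 := by
      rw [Finset.sum_const, Finset.card_univ, nsmul_eq_mul]
    rw [this, ← Finset.sum_add_distrib]
    exact Finset.sum_congr rfl fun x _ => by ring
  rw [h3, ← hμ]; ring

/-- all colours at one prime -/
lemma frame (hQ : 1 ≤ Q) {κ : Type} [Fintype κ] (K : κ → KC Q) (hK : ∀ c, OK (K c)) (i : Ix Q)
    (m : ℝ) (hm : ∀ r : Fin (i : ℕ), ((Finset.univ.filter fun c => r ∈ K c i).card : ℝ) ≤ m)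
    (h2 : ∀ c, 2 * (K c i).card ≤ (i : ℕ)) (v : (∀ i, Om Q i) → ℝ) :
    ∑ c, f1 v i (Qn (K c) i) ≤ 2 * m * f1 v i (1 - E (Om Q i)) := by
  classical
  have hpp := (ip_prime i).pos
  have hp0 : (0 : ℝ) < ((i : ℕ) : ℝ) := by exact_mod_cast hpp
  have hne := ne_Om i
  have hm0 : 0 ≤ m := (Nat.cast_nonneg _).trans (hm ⟨0, hpp⟩)
  -- sum of the kernels
  have h1 : ∑ c, f1 v i (Qn (K c) i) = f1 v i (tens Q hpp (∑ c, QK (K c i))) := by
    rw [tens_sum, f1_sum]; rfl
  -- comparison on the first digit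
  have h3 : f1 v i (tens Q hpp (∑ c, QK (K c i))) ≤ f1 v i (tens Q hpp ((2 * m) • (1 - E (Fin (i : ℕ))))) := by
    refine f1_mono v i hne fun G => ?_
    refine form_mono hpp hQ (fun g => ?_) G
    set μ : ℝ := (∑ x, g x) / ((i : ℕ) : ℝ) with hμ
    have hcard : (Fintype.card (Fin (i : ℕ)) : ℝ) = ((i : ℕ) : ℝ) := by rw [Fintype.card_fin]
    have hμ' : (Fintype.card (Fin (i : ℕ)) : ℝ) * μ = ∑ x, g x := by
      rw [hcard, hμ]; field_simp
    have e1 : ∑ x, ∑ y, g x * (∑ c, QK (K c i)) x y * g y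
        = ∑ c, ∑ x, ∑ y, g x * QK (K c i) x y * g y := by
      have e3 : ∀ x, ∑ y, g x * (∑ c, QK (K c i)) x y * g y
          = ∑ c, ∑ y, g x * QK (K c i) x y * g y := by
        intro x
        rw [Finset.sum_comm]
        refine Finset.sum_congr rfl fun y _ => ?_
        rw [Matrix.sum_apply, Finset.mul_sum, Finset.sum_mul]
      simp only [e3]
      exact Finset.sum_comm
    have e2 : ∑ x, ∑ y, g x * ((2 * m) • (1 - E (Fin (i : ℕ)))) x y * g y
        = (2 * m) * ∑ x, (g x - μ) ^ 2 := by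
      rw [← form_one_sub_E g μ (by rw [hcard]; exact hp0) hμ', Finset.mul_sum]
      refine Finset.sum_congr rfl fun x _ => ?_
      rw [Finset.mul_sum]
      refine Finset.sum_congr rfl fun y _ => ?_
      rw [Matrix.smul_apply, smul_eq_mul]; ring
    rw [e1, e2]
    calc ∑ c, ∑ x, ∑ y, g x * QK (K c i) x y * g y
        ≤ ∑ c, 2 * ∑ x ∈ K c i, (g x - μ) ^ 2 := by
          refine Finset.sum_le_sum fun c _ => ?_
          refine (QK_form ((hK c).fin i) g μ hμ').trans ?_
          refine mul_le_mul_of_nonneg_right ?_ (Finset.sum_nonneg fun _ _ => sq_nonneg _)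
          have hc := cpos ((hK c).fin i)
          rw [div_le_iff₀ hc, hcard]
          have : (2 : ℝ) * (K c i).card ≤ ((i : ℕ) : ℝ) := by exact_mod_cast h2 c
          linarith
      _ = 2 * ∑ x, (((Finset.univ.filter fun c => x ∈ K c i).card : ℝ) * (g x - μ) ^ 2) := by
          rw [← Finset.mul_sum]
          congr 1
          have : ∀ c, ∑ x ∈ K c i, (g x - μ) ^ 2 = ∑ x, if x ∈ K c i then (g x - μ) ^ 2 else 0 := by
            intro c
            rw [← Finset.sum_filter, Finset.filter_mem_eq_inter, Finset.univ_inter]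
          simp only [this]
          rw [Finset.sum_comm]
          refine Finset.sum_congr rfl fun x _ => ?_
          rw [← Finset.sum_filter, Finset.sum_const, nsmul_eq_mul]
      _ ≤ 2 * ∑ x, (m * (g x - μ) ^ 2) := by
          refine mul_le_mul_of_nonneg_left (Finset.sum_le_sum fun x _ => ?_) (by norm_num)
          exact mul_le_mul_of_nonneg_right (hm x) (sq_nonneg _)
      _ = _ := by rw [← Finset.mul_sum]; ring
  -- comparison with the full mean
  have h4 : f1 v i (tens Q hpp ((2 * m) • (1 - E (Fin (i : ℕ))))) ≤ 2 * m * f1 v i (1 - E (Om Q i)) := by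
    rw [tens_smul, f1_smul]
    refine mul_le_mul_of_nonneg_left ?_ (by linarith)
    have hEE : (E (Fin (i : ℕ)) : Matrix _ _ ℝ) * E (Fin (i : ℕ)) = E (Fin (i : ℕ)) := by
      have : Nonempty (Fin (i : ℕ)) := ⟨⟨0, hpp⟩⟩
      exact E_mul_E
    have c1 : tens Q hpp (E (Fin (i : ℕ))) * E (Om Q i) = E (Om Q i) := by
      ext x z
      simp only [Matrix.mul_apply, E]
      rw [← Finset.sum_mul]
      have h5 := sum_tens_row (a := Q) hpp hQ (E (Fin (i : ℕ))) x
      simp only [E] at h5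
      rw [h5]
      have h6 := sum_E_row (pi1 hpp x)
      simp only [E] at h6
      rw [h6, one_mul]
    have c2 : E (Om Q i) * tens Q hpp (E (Fin (i : ℕ))) = E (Om Q i) := by
      have := congrArg Matrix.transpose c1
      rwa [Matrix.transpose_mul, E_transpose, tens_transpose, E_transpose] at this
    set Z : Matrix (Om Q i) (Om Q i) ℝ := tens Q hpp (E (Fin (i : ℕ))) - E (Om Q i) with hZ
    have hZt : Z.transpose = Z := by
      rw [hZ, Matrix.transpose_sub, E_transpose, tens_transpose, E_transpose]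
    have hZZ : Z * Z = Z := by
      rw [hZ, sub_mul, mul_sub, mul_sub, c1, c2, tens_mul _ hQ, hEE, E_mul_E]
      simp
    have h5 := f1_nonneg v i Z hZt hZZ
    have h6 : (1 : Matrix (Om Q i) (Om Q i) ℝ) - E (Om Q i) = tens Q hpp (1 - E (Fin (i : ℕ))) + Z := by
      rw [hZ, tens_sub, tens_one]; abel
    have h7 : f1 v i (tens Q hpp (1 - E (Fin (i : ℕ))) + Z) = f1 v i (tens Q hpp (1 - E (Fin (i : ℕ)))) + f1 v i Z := by
      have := f1_sum (Finset.univ : Finset Bool) v i
        (fun b => if b = true then tens Q hpp (1 - E (Fin (i : ℕ))) else Z)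
      simp only [Fintype.sum_bool, if_true, Bool.false_eq_true, if_false] at this
      exact this
    rw [h6, h7]; linarith
  rw [h1]
  exact h3.trans h4

/-! levels -/

lemma op_zero_factor (T : ∀ i : Ix Q, Matrix (Om Q i) (Om Q i) ℝ) (i : Ix Q) (h : T i = 0)
    (v : (∀ i, Om Q i) → ℝ) : op T v = 0 := by
  funext x
  rw [Pi.zero_apply]
  unfold op
  refine Finset.sum_eq_zero fun y _ => ?_
  rw [Finset.prod_eq_zero (Finset.mem_univ i), zero_mul]
  rw [h]; rfl

lemma op_zero (T : ∀ i : Ix Q, Matrix (Om Q i) (Om Q i) ℝ) : op T (0 : (∀ i, Om Q i) → ℝ) = 0 := by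
  funext x; simp [op]

section
variable (hQ : 1 ≤ Q) {K : KC Q} (hK : OK K)
include hQ hK

lemma Nn_comm (i : Ix Q) (o : Option (Fin Q)) : Nn K i * DM (Dp Q i) o = DM (Dp Q i) o * Nn K i :=
  tens_comm_DM (ip_prime i).pos hQ _ 1 (sum_NK_row (hK.fin i)) (sum_NK_col (hK.fin i)) o

lemma lev_hh {L : ℝ} {v : (∀ i, Om Q i) → ℝ} (hv : LevG (om Q) (Dp Q) L v) :
    LevG (om Q) (Dp Q) L (hh K v) := by
  intro τ hτ
  rw [hh, op_comp]
  have h1 : (fun i => DM (Dp Q i) (τ i) * Nn K i) = fun i => Nn K i * DM (Dp Q i) (τ i) := by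
    funext i; exact (Nn_comm hQ hK i _).symm
  rw [h1, ← op_comp, hv τ hτ, op_zero]

lemma XX_zero {L : ℝ} {v : (∀ i, Om Q i) → ℝ} (hv : LevG (om Q) (Dp Q) L v) (τ : Ix Q → Bool)
    (hτ : L < us (lam Q) τ) : op (XX K τ) v = 0 := by
  classical
  have h1 : v = ∑ σ : Ix Q → Option (Fin Q), op (fun i => DM (Dp Q i) (σ i)) v := by
    have h := op_expand (C := Option (Fin Q)) (fun i c => DM (Dp Q i) c) (fun _ => 1)
      (fun i => (DM_sum (isD_Dp i)).symm) v
    rwa [op_one] at h
  rw [h1, Op.op_sum]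
  refine Finset.sum_eq_zero fun σ _ => ?_
  by_cases hσ : L < cs (om Q) σ
  · rw [hv σ hσ, op_zero]
  · rw [op_comp]
    have hex : ∃ i, τ i = true ∧ σ i = none := by
      by_contra hcon
      push Not at hcon
      apply hσ
      refine hτ.trans_le ?_
      unfold us cs
      refine Finset.sum_le_sum fun i _ => ?_
      by_cases ht : τ i = true
      · rw [if_pos ht]
        have h2 := hcon i ht
        rcases hs : σ i with _ | j
        · exact absurd hs h2
        · simp only [Option.elim_some, om, lam]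
          have h3 : 0 ≤ Real.log ((i : ℕ) : ℝ) := Real.log_nonneg (by exact_mod_cast (ip_prime i).one_lt.le)
          have h4 : (0 : ℝ) ≤ ((j : ℕ) : ℝ) := Nat.cast_nonneg _
          nlinarith
      · rw [if_neg ht]
        rcases σ i with _ | j
        · simp
        · simp only [Option.elim_some]
          exact om_nonneg i j
    obtain ⟨i, hi1, hi2⟩ := hex
    refine op_zero_factor _ i ?_ v
    simp only [XX, hi1, if_true, hi2, DM, Option.elim_none]
    ext x z
    simp only [Matrix.mul_apply, E]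
    rw [← Finset.sum_mul, sum_tens_row _ hQ, sum_PK_row (hK.fin i), zero_mul]
    rfl

end

lemma lev_sub {L : ℝ} {v w : (∀ i, Om Q i) → ℝ} (hv : LevG (om Q) (Dp Q) L v)
    (hw : LevG (om Q) (Dp Q) L w) : LevG (om Q) (Dp Q) L (v - w) := by
  intro τ hτ
  have h : op (fun i => DM (Dp Q i) (τ i)) (v - w)
      = op (fun i => DM (Dp Q i) (τ i)) v - op (fun i => DM (Dp Q i) (τ i)) w := by
    funext x
    simp only [op, Pi.sub_apply, mul_sub, Finset.sum_sub_distrib]
  rw [h, hv τ hτ, hw τ hτ, sub_zero]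

end Run7.h52.U4
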