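import Pool.Agent.H154R3.Task469B

set_option autoImplicit false
set_option linter.unusedSectionVars false

namespace Run7.h52.U5

open Finset Pool.Agent.H446R2 Pool.Agent.H154R3.Fund

/-- sieve polynomials of level `D` with coefficient sum at most `e` -/
def Rp (S : Finset ℕ) (D : ℕ) (e : ℝ) (F : (ℕ → ℝ) → ℝ) : Prop :=
  ∃ (ι : Type) (s : Finset ι) (A : ι → Finset ℕ) (c : ι → ℝ),
    (∀ i ∈ s, A i ⊆ S ∧ ∏ p ∈ A i, p ≤ D) ∧ (∀ u, F u = ∑ i ∈ s, c i * ∏ p ∈ A i, u p) ∧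
    ∑ i ∈ s, |c i| ≤ e

lemma Rp.mul {S T : Finset ℕ} {F G : (ℕ → ℝ) → ℝ} {D D' : ℕ} {e f : ℝ} (hF : Rp S D e F)
    (hG : Rp T D' f G) (hST : Disjoint S T) : Rp (S ∪ T) (D * D') (e * f) (fun u => F u * G u) := by
  classical
  obtain ⟨ι, s, A, c, h1, h2, h3⟩ := hF
  obtain ⟨κ, t, B, d, g1, g2, g3⟩ := hG
  refine ⟨ι × κ, s ×ˢ t, fun x => A x.1 ∪ B x.2, fun x => c x.1 * d x.2, ?_, ?_, ?_⟩
  · intro x hx
    rw [mem_product] at hx
    have ha := h1 _ hx.1
    have hb := g1 _ hx.2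
    refine ⟨union_subset_union ha.1 hb.1, ?_⟩
    rw [prod_union (hST.mono ha.1 hb.1)]
    exact Nat.mul_le_mul ha.2 hb.2
  · intro u
    show F u * G u = _
    rw [h2, g2, sum_mul_sum, ← sum_product']
    apply sum_congr rfl
    intro x hx
    rw [mem_product] at hx
    beta_reduce
    rw [prod_union (hST.mono (h1 _ hx.1).1 (g1 _ hx.2).1)]
    ring
  · calc ∑ x ∈ s ×ˢ t, |c x.1 * d x.2| = (∑ i ∈ s, |c i|) * ∑ i ∈ t, |d i| := by
          rw [sum_mul_sum, ← sum_product']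
          apply sum_congr rfl
          intro x _
          rw [abs_mul]
      _ ≤ e * f := mul_le_mul h3 g3 (sum_nonneg fun i _ => abs_nonneg _)
          ((sum_nonneg fun i _ => abs_nonneg _).trans h3)

lemma Rp.sub {S : Finset ℕ} {F G : (ℕ → ℝ) → ℝ} {D : ℕ} {e f : ℝ} (hF : Rp S D e F)
    (hG : Rp S D f G) : Rp S D (e + f) (fun u => F u - G u) := by
  obtain ⟨ι, s, A, c, h1, h2, h3⟩ := hF
  obtain ⟨κ, t, B, d, g1, g2, g3⟩ := hG
  refine ⟨ι ⊕ κ, s.disjSum t, Sum.elim A B, Sum.elim c (fun i => - d i), ?_, ?_, ?_⟩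
  · intro x hx
    rw [mem_disjSum] at hx
    rcases hx with ⟨a, ha, rfl⟩ | ⟨b, hb, rfl⟩
    · exact h1 a ha
    · exact g1 b hb
  · intro u
    show F u - G u = _
    rw [h2, g2, sum_disjSum, sub_eq_add_neg, ← sum_neg_distrib]
    simp only [Sum.elim_inl, Sum.elim_inr, neg_mul]
  · rw [sum_disjSum]
    simp only [Sum.elim_inl, Sum.elim_inr, abs_neg]
    exact add_le_add h3 g3

lemma Rp.mono {S T : Finset ℕ} {F : (ℕ → ℝ) → ℝ} {D D' : ℕ} {e f : ℝ} (hF : Rp S D e F)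
    (hST : S ⊆ T) (hD : D ≤ D') (hef : e ≤ f) : Rp T D' f F := by
  obtain ⟨ι, s, A, c, h1, h2, h3⟩ := hF
  exact ⟨ι, s, A, c, fun i hi => ⟨(h1 i hi).1.trans hST, (h1 i hi).2.trans hD⟩, h2, h3.trans hef⟩

lemma rp_one : Rp ∅ 1 1 (fun _ => 1) :=
  ⟨Unit, univ, fun _ => ∅, fun _ => 1, fun _ _ => by simp, fun u => by simp, by simp⟩

lemma prod_le_pow' (A : Finset ℕ) (Y r : ℕ) (hY : 1 ≤ Y) (hA : ∀ p ∈ A, p ≤ Y) (hr : A.card ≤ r) :
    ∏ p ∈ A, p ≤ Y ^ r :=
  (prod_le_prod' hA).trans (by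
    rw [prod_const]
    exact Nat.pow_le_pow_right hY hr)

lemma rp_yb {T : Finset ℕ} {Y : ℕ} (hY : 1 ≤ Y) (hT : ∀ p ∈ T, p ≤ Y) (r : ℕ) :
    Rp T (Y ^ (r + 1)) ((T.powerset.filter (fun A => A.card < r)).card) (yb T r) := by
  refine ⟨Finset ℕ, T.powerset.filter (fun A => A.card < r), id, fun A => (-1 : ℝ) ^ A.card, ?_,
    fun u => rfl, ?_⟩
  · intro A hA
    rw [mem_filter, mem_powerset] at hA
    exact ⟨hA.1, prod_le_pow' A Y (r + 1) hY (fun p hp => hT p (hA.1 hp)) (by omega)⟩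
  · have : ∀ A : Finset ℕ, |(-1 : ℝ) ^ A.card| = 1 := fun A => by
      rw [abs_pow, abs_neg, abs_one, one_pow]
    simp only [this, sum_const, nsmul_eq_mul, mul_one]
    exact le_rfl

lemma rp_wb {T : Finset ℕ} {Y : ℕ} (hY : 1 ≤ Y) (hT : ∀ p ∈ T, p ≤ Y) (r : ℕ) :
    Rp T (Y ^ (r + 1)) ((T.powerset.filter (fun A => A.card = r)).card) (wb T r) := by
  refine ⟨Finset ℕ, T.powerset.filter (fun A => A.card = r), id, fun _ => 1, ?_,
    fun u => ?_, ?_⟩
  · intro A hA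
    rw [mem_filter, mem_powerset] at hA
    exact ⟨hA.1, prod_le_pow' A Y (r + 1) hY (fun p hp => hT p (hA.1 hp)) (by omega)⟩
  · simp only [one_mul]; rfl
  · simp

/-- the upper and lower polynomials -/
theorem blocksU (T : ℕ → Finset ℕ) (r Yb : ℕ → ℕ) (hYb : ∀ i, 1 ≤ Yb i) (hT : ∀ i, ∀ p ∈ T i, p ≤ Yb i)
    (hdisj : ∀ i j, i < j → Disjoint (T i) (T j)) (hr : ∀ i, Odd (r i)) (I : ℕ) :
    ∃ U L : (ℕ → ℝ) → ℝ,
      Rp ((range I).biUnion T) (∏ i ∈ range I, Yb i ^ (r i + 1)) (∏ i ∈ range I, Nc (T i) (r i)) U ∧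
      Rp ((range I).biUnion T) (∏ i ∈ range I, Yb i ^ (r i + 1)) (∏ i ∈ range I, Nc (T i) (r i)) L ∧
      (∀ u, U u = ∏ i ∈ range I, yb (T i) (r i) u) ∧
      (∀ u, (∀ i, 0 < yb (T i) (r i) u) →
        L u = (∏ i ∈ range I, yb (T i) (r i) u) *
          (1 - ∑ i ∈ range I, wb (T i) (r i) u / yb (T i) (r i) u)) ∧
      ∀ u, (∀ i, ∀ p ∈ T i, 0 ≤ u p ∧ u p ≤ 1) → L u ≤ ∏ i ∈ range I, ∏ p ∈ T i, (1 - u p) ∧
        ∏ i ∈ range I, ∏ p ∈ T i, (1 - u p) ≤ U u := by
  induction I with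
  | zero =>
    refine ⟨fun _ => 1, fun _ => 1, ?_, ?_, fun u => by simp, fun u _ => by simp, fun u _ => by simp⟩
    · simpa using rp_one
    · simpa using rp_one
  | succ I ih =>
    obtain ⟨U, L, hU, hL, hUe, hLe, hUL⟩ := ih
    have hd : Disjoint ((range I).biUnion T) (T I) := by
      rw [Finset.disjoint_biUnion_left]
      intro i hi
      exact hdisj i I (mem_range.1 hi)
    have hun : (range (I + 1)).biUnion T = (range I).biUnion T ∪ T I := by
      rw [Finset.range_add_one, Finset.biUnion_insert, Finset.union_comm]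
    have hy := rp_yb (hYb I) (hT I) (r I)
    have hw := rp_wb (hYb I) (hT I) (r I)
    have hNc0 : 0 ≤ ∏ i ∈ range I, Nc (T i) (r i) := prod_nonneg fun i _ => by
      unfold Nc; positivity
    refine ⟨fun u => U u * yb (T I) (r I) u,
      fun u => L u * yb (T I) (r I) u - U u * wb (T I) (r I) u, ?_, ?_, fun u => ?_, fun u hu => ?_, fun u hu => ?_⟩
    · rw [hun, prod_range_succ, prod_range_succ]
      refine (hU.mul hy hd).mono (subset_refl _) le_rfl ?_
      apply mul_le_mul_of_nonneg_left _ hNc0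
      unfold Nc
      linarith [Nat.cast_nonneg (α := ℝ) (((T I).powerset.filter (fun A => A.card = r I)).card)]
    · rw [hun, prod_range_succ, prod_range_succ]
      refine ((hL.mul hy hd).sub (hU.mul hw hd)).mono (subset_refl _) le_rfl ?_
      unfold Nc
      rw [mul_add]
    · show U u * yb (T I) (r I) u = _
      rw [prod_range_succ, hUe]
    · show L u * yb (T I) (r I) u - U u * wb (T I) (r I) u = _
      rw [prod_range_succ, sum_range_succ, hUe, hLe u hu]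
      have := (hu I).ne'
      field_simp
      ring
    · rw [prod_range_succ]
      obtain ⟨h1, h2⟩ := hUL u hu
      have hp0 : 0 ≤ ∏ i ∈ range I, ∏ p ∈ T i, (1 - u p) :=
        prod_nonneg fun i _ => prod_nonneg fun p hp => by linarith [(hu i p hp).2]
      have hq0 : 0 ≤ ∏ p ∈ T I, (1 - u p) :=
        prod_nonneg fun p hp => by linarith [(hu I p hp).2]
      have hy1 := yb_ge (T I) (r I) (hr I) u (fun p hp => (hu I p hp).1) (fun p hp => (hu I p hp).2)
      have hy2 := yb_le (T I) (r I) (hr I) u (fun p hp => (hu I p hp).1) (fun p hp => (hu I p hp).2)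
      have hw0 := wb_nonneg (T I) (r I) u (fun p hp => (hu I p hp).1)
      set X := ∏ i ∈ range I, ∏ p ∈ T i, (1 - u p)
      set x := ∏ p ∈ T I, (1 - u p)
      set y := yb (T I) (r I) u
      set w := wb (T I) (r I) u
      constructor
      · have a1 : X * (y - w) ≤ X * x := mul_le_mul_of_nonneg_left (by linarith) hp0
        have a2 : L u * y ≤ X * y := mul_le_mul_of_nonneg_right h1 (hq0.trans hy1)
        have a3 : X * w ≤ U u * w := mul_le_mul_of_nonneg_right h2 hw0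
        show L u * y - U u * w ≤ X * x
        nlinarith
      · exact mul_le_mul h2 hy1 hq0 (hp0.trans h2)

/-- fundamental lemma for polynomials -/
theorem fund (S : Finset ℕ) (hS : ∀ p ∈ S, p.Prime) (k : ℝ) (hk : 0 ≤ k) (R : ℕ)
    (hR : Real.exp (16 * k) * (1 / 2) ^ (2 * R) ≤ 1) (I : ℕ)
    (hI : 1 ≤ I) (hSY : ∀ p ∈ S, p ≤ 2 ^ 2 ^ I) :
    ∃ U L : (ℕ → ℝ) → ℝ,
      Rp S (2 ^ ((4 * R + 8) * 2 ^ I)) ((2 ^ ((4 * R + 8) * 2 ^ I) : ℕ) : ℝ) U ∧
      Rp S (2 ^ ((4 * R + 8) * 2 ^ I)) ((2 ^ ((4 * R + 8) * 2 ^ I) : ℕ) : ℝ) L ∧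
      (∀ u, (∀ p ∈ S, 0 ≤ u p ∧ u p ≤ 1) → L u ≤ ∏ p ∈ S, (1 - u p) ∧ ∏ p ∈ S, (1 - u p) ≤ U u) ∧
      (∀ u, (∀ p ∈ S, 0 ≤ u p ∧ u p ≤ 1 / 2 ∧ u p ≤ k / p) →
        U u ≤ (1 + 2 * (Real.exp (16 * k) * (1 / 2) ^ (2 * R))) * ∏ p ∈ S, (1 - u p) ∧
        (1 - 2 * (Real.exp (16 * k) * (1 / 2) ^ (2 * R))) * ∏ p ∈ S, (1 - u p) ≤ L u) := by
  classical
  set η := Real.exp (16 * k) * (1 / 2 : ℝ) ^ (2 * R) with hη
  have hη0 : 0 ≤ η := by positivity
  have hT : ∀ i, ∀ p ∈ TT S i, p ≤ 2 ^ 2 ^ (i + 1) := fun i p hp => by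
    rw [TT, mem_filter] at hp; exact hp.2.1
  obtain ⟨U, L, hU, hL, hUe, hLe, hUL⟩ := blocksU (TT S) (rr' R I) (fun i => 2 ^ 2 ^ (i + 1))
    (fun i => Nat.one_le_two_pow) hT (TT_disj S) (rr'_odd R I) I
  have hun : (range I).biUnion (TT S) = S := by
    apply Finset.Subset.antisymm
    · intro p hp
      rw [mem_biUnion] at hp
      obtain ⟨i, _, hi⟩ := hp
      rw [TT, mem_filter] at hi
      exact hi.1
    · intro p hp
      obtain ⟨i, hi, hpi⟩ := TT_cover S p hp I hI (hSY p hp)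
      exact mem_biUnion.2 ⟨i, mem_range.2 hi, hpi⟩
  have hprod : ∀ u : ℕ → ℝ, ∏ i ∈ range I, ∏ p ∈ TT S i, (1 - u p) = ∏ p ∈ S, (1 - u p) := by
    intro u
    rw [← Finset.prod_biUnion, hun]
    intro i _ j _ hij
    rcases lt_or_gt_of_ne hij with h | h
    · exact TT_disj S i j h
    · exact (TT_disj S j i h).symm
  -- the level
  have hD : ∏ i ∈ range I, (2 ^ 2 ^ (i + 1)) ^ (rr' R I i + 1) ≤ 2 ^ ((4 * R + 8) * 2 ^ I) := by
    have h1 : ∀ i, (2 ^ 2 ^ (i + 1)) ^ (rr' R I i + 1) = 2 ^ (2 ^ (i + 1) * (rr' R I i + 1)) := fun i => by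
      rw [← pow_mul]
    simp only [h1]
    rw [prod_pow_eq_pow_sum]
    apply Nat.pow_le_pow_right (by norm_num)
    have := exponent_sum' R I
    omega
  have hN : ∏ i ∈ range I, Nc (TT S i) (rr' R I i) ≤ ((2 ^ ((4 * R + 8) * 2 ^ I) : ℕ) : ℝ) := by
    refine le_trans ?_ (Nat.cast_le.2 hD)
    push_cast
    refine prod_le_prod (fun i _ => by unfold Nc; positivity) (fun i _ => ?_)
    have h4 : 4 ≤ 2 ^ 2 ^ (i + 1) := by
      calc 4 = 2 ^ 2 := by norm_num
        _ ≤ 2 ^ 2 ^ (i + 1) := Nat.pow_le_pow_right (by norm_num) (by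
            calc 2 = 2 ^ 1 := by norm_num
              _ ≤ 2 ^ (i + 1) := Nat.pow_le_pow_right (by norm_num) (by omega))
    have := Nc_le (TT S i) (rr' R I i) (2 ^ 2 ^ (i + 1)) h4 (fun p hp => by
      have h5 := hT i p hp
      have h6 : p ∈ S := by rw [TT, mem_filter] at hp; exact hp.1
      exact ⟨(hS p h6).one_lt.le, h5⟩)
    push_cast at this
    exact this
  rw [hun] at hU hL
  refine ⟨U, L, hU.mono (subset_refl _) hD hN, hL.mono (subset_refl _) hD hN, fun u hu => ?_, fun u hu => ?_⟩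
  · have := hUL u (fun i p hp => hu p (by rw [TT, mem_filter] at hp; exact hp.1))
    rwa [hprod] at this
  · have hmem : ∀ i, ∀ p ∈ TT S i, p ∈ S := fun i p hp => by rw [TT, mem_filter] at hp; exact hp.1
    have hsum : ∀ i, ∑ p ∈ TT S i, u p ≤ 4 * k := by
      intro i
      have h1 := TT_sum S hS i
      calc ∑ p ∈ TT S i, u p ≤ ∑ p ∈ TT S i, k * dn p := by
            refine sum_le_sum fun p hp => ?_
            have := (hu p (hmem i p hp)).2.2
            unfold dn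
            rw [mul_one_div]; exact this
        _ = k * ∑ p ∈ TT S i, dn p := by rw [mul_sum]
        _ ≤ k * 4 := mul_le_mul_of_nonneg_left h1 hk
        _ = _ := by ring
    set x : ℕ → ℝ := fun i => ∏ p ∈ TT S i, (1 - u p) with hx
    set y : ℕ → ℝ := fun i => yb (TT S i) (rr' R I i) u with hy
    set w : ℕ → ℝ := fun i => wb (TT S i) (rr' R I i) u with hw
    have hxge : ∀ i, Real.exp (-(8 * k)) ≤ x i := by
      intro i
      have h1 : Real.exp (-(2 * ∑ p ∈ TT S i, u p)) ≤ x i := by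
        rw [hx, mul_sum, ← sum_neg_distrib, Real.exp_sum]
        refine prod_le_prod (fun p _ => (Real.exp_pos _).le) (fun p hp => ?_)
        have := hu p (hmem i p hp)
        exact one_sub_ge this.1 this.2.1
      refine le_trans (Real.exp_le_exp.2 ?_) h1
      have := hsum i
      linarith
    have hxpos : ∀ i, 0 < x i := fun i => (Real.exp_pos _).trans_le (hxge i)
    have hyx : ∀ i, x i ≤ y i := fun i => yb_ge (TT S i) (rr' R I i) (rr'_odd R I i) u
      (fun p hp => (hu p (hmem i p hp)).1) (fun p hp => by linarith [(hu p (hmem i p hp)).2.1])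
    have hyle : ∀ i, y i ≤ x i + w i := fun i => yb_le (TT S i) (rr' R I i) (rr'_odd R I i) u
      (fun p hp => (hu p (hmem i p hp)).1) (fun p hp => by linarith [(hu p (hmem i p hp)).2.1])
    have hypos : ∀ i, 0 < y i := fun i => (hxpos i).trans_le (hyx i)
    have hw0 : ∀ i, 0 ≤ w i := fun i => wb_nonneg _ _ _ (fun p hp => (hu p (hmem i p hp)).1)
    have hwle : ∀ i, w i ≤ (1 / 2 : ℝ) ^ (rr' R I i) * Real.exp (8 * k) := by
      intro i
      refine (wb_le (TT S i) (rr' R I i) u (fun p hp => (hu p (hmem i p hp)).1)).trans ?_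
      refine mul_le_mul_of_nonneg_left (Real.exp_le_exp.2 ?_) (by positivity)
      have := hsum i
      linarith
    set ξ : ℕ → ℝ := fun i => w i / x i with hξ
    have hξ0 : ∀ i, 0 ≤ ξ i := fun i => div_nonneg (hw0 i) (hxpos i).le
    have hξle : ∀ i, ξ i ≤ (1 / 2 : ℝ) ^ (rr' R I i) * Real.exp (16 * k) := by
      intro i
      have h1 : ξ i ≤ ((1 / 2 : ℝ) ^ (rr' R I i) * Real.exp (8 * k)) / Real.exp (-(8 * k)) :=
        div_le_div₀ (by positivity) (hwle i) (Real.exp_pos _) (hxge i)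
      refine h1.trans (le_of_eq ?_)
      rw [Real.exp_neg, div_inv_eq_mul, mul_assoc, ← Real.exp_add]
      congr 2; ring
    have hξsum : ∑ i ∈ range I, ξ i ≤ η := by
      calc ∑ i ∈ range I, ξ i ≤ ∑ i ∈ range I, (1 / 2 : ℝ) ^ (rr' R I i) * Real.exp (16 * k) :=
            sum_le_sum fun i _ => hξle i
        _ = (∑ i ∈ range I, (1 / 2 : ℝ) ^ (rr' R I i)) * Real.exp (16 * k) := by rw [sum_mul]
        _ ≤ (1 / 2) ^ (2 * R) * Real.exp (16 * k) :=
            mul_le_mul_of_nonneg_right (geom_sum_bound' R I) (Real.exp_pos _).le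
        _ = η := by rw [hη]; ring
    have hX : ∏ p ∈ S, (1 - u p) = ∏ i ∈ range I, x i := (hprod u).symm
    have hXpos : 0 < ∏ i ∈ range I, x i := prod_pos fun i _ => hxpos i
    have hYX : ∏ i ∈ range I, x i ≤ ∏ i ∈ range I, y i := prod_le_prod (fun i _ => (hxpos i).le) (fun i _ => hyx i)
    constructor
    · rw [hUe, hX]
      have h1 : ∏ i ∈ range I, y i ≤ ∏ i ∈ range I, (x i * (1 + ξ i)) := by
        refine prod_le_prod (fun i _ => (hypos i).le) (fun i _ => ?_)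
        refine (hyle i).trans (le_of_eq ?_)
        rw [hξ, mul_add, mul_one, mul_div_cancel₀ _ (hxpos i).ne']
      have h2 : ∏ i ∈ range I, (1 + ξ i) ≤ Real.exp (∑ i ∈ range I, ξ i) := by
        rw [Real.exp_sum]
        refine prod_le_prod (fun i _ => by linarith [hξ0 i]) (fun i _ => ?_)
        linarith [Real.add_one_le_exp (ξ i)]
      have h3 : Real.exp (∑ i ∈ range I, ξ i) ≤ 1 + 2 * η := by
        refine (Real.exp_le_exp.2 hξsum).trans ?_
        have h4 := Real.abs_exp_sub_one_sub_id_le (x := η) (by rw [abs_of_nonneg hη0]; exact hR)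
        have h5 := (abs_le.1 h4).2
        nlinarith
      calc ∏ i ∈ range I, y i ≤ ∏ i ∈ range I, (x i * (1 + ξ i)) := h1
        _ = (∏ i ∈ range I, x i) * ∏ i ∈ range I, (1 + ξ i) := prod_mul_distrib
        _ ≤ (∏ i ∈ range I, x i) * (1 + 2 * η) := mul_le_mul_of_nonneg_left (h2.trans h3) hXpos.le
        _ = _ := by ring
    · rw [hLe u hypos, hX]
      have h1 : ∑ i ∈ range I, w i / y i ≤ η := by
        refine le_trans (sum_le_sum fun i _ => ?_) hξsum
        exact div_le_div_of_nonneg_left (hw0 i) (hxpos i) (hyx i)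
      have h2 : (0 : ℝ) < ∏ i ∈ range I, y i := prod_pos fun i _ => hypos i
      have h3 : (∏ i ∈ range I, y i) * (1 - η) ≤ (∏ i ∈ range I, y i) * (1 - ∑ i ∈ range I, w i / y i) :=
        mul_le_mul_of_nonneg_left (by linarith) h2.le
      have h4 : (1 - 2 * η) * ∏ i ∈ range I, x i ≤ (∏ i ∈ range I, y i) * (1 - η) := by
        have a1 : (1 - 2 * η) * ∏ i ∈ range I, x i ≤ (1 - η) * ∏ i ∈ range I, x i :=
          mul_le_mul_of_nonneg_right (by linarith) hXpos.le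
        have a2 : (1 - η) * ∏ i ∈ range I, x i ≤ (1 - η) * ∏ i ∈ range I, y i :=
          mul_le_mul_of_nonneg_left hYX (by linarith)
        linarith
      exact h4.trans h3

end Run7.h52.U5
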