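import Pool.Agent.Run7.h52.U4
import Pool.Agent.Run7.h52.U5

set_option autoImplicit false
set_option linter.unusedSectionVars false

namespace Run7.h52.U6

open Finset Run7.h52.Op Run7.h52.Ker Run7.h52.Core Run7.h52.CoreG Run7.h52.CellG Run7.h52.Sp
  Run7.h52.U1 Run7.h52.U2 Run7.h52.U3 Run7.h52.U4 Run7.h52.U5 Run7.h52.AsmT
open Run7.h52.Transfer (HasLevel)

/-! levels of functions of an integer -/

lemma lvl_zero (R : ℕ) : HasLevel R (fun _ => 0) := ⟨fun _ _ => 0, fun n => by simp⟩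

lemma lvl_add {R : ℕ} {V W : ℤ → ℝ} (hV : HasLevel R V) (hW : HasLevel R W) :
    HasLevel R (fun n => V n + W n) := by
  obtain ⟨c, hc⟩ := hV
  obtain ⟨e, he⟩ := hW
  exact ⟨fun q r => c q r + e q r, fun n => by
    beta_reduce
    rw [hc, he, ← Finset.sum_add_distrib]⟩

lemma lvl_smul {R : ℕ} {V : ℤ → ℝ} (a : ℝ) (hV : HasLevel R V) :
    HasLevel R (fun n => a * V n) := by
  obtain ⟨c, hc⟩ := hV
  exact ⟨fun q r => a * c q r, fun n => by
    beta_reduce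
    rw [hc, Finset.mul_sum]⟩

lemma lvl_sum {R : ℕ} {α : Type} (s : Finset α) (F : α → ℤ → ℝ) (h : ∀ a ∈ s, HasLevel R (F a)) :
    HasLevel R (fun n => ∑ a ∈ s, F a n) := by
  classical
  induction s using Finset.induction_on with
  | empty => simpa using lvl_zero R
  | insert a s ha ih =>
    have h1 := lvl_add (h a (Finset.mem_insert_self a s)) (ih fun b hb => h b (Finset.mem_insert_of_mem hb))
    simpa only [Finset.sum_insert ha] using h1

lemma lvl_mono {R R' : ℕ} (hR : R ≤ R') {V : ℤ → ℝ} (hV : HasLevel R V) : HasLevel R' V := by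
  obtain ⟨c, hc⟩ := hV
  refine ⟨fun q r => if q ≤ R then c q r else 0, fun n => ?_⟩
  rw [hc]
  have h1 : ∑ q ∈ Finset.Icc 1 R', (if q ≤ R then c q (n % (q : ℤ)) else 0)
      = ∑ q ∈ (Finset.Icc 1 R').filter (fun q => q ≤ R), c q (n % (q : ℤ)) := by
    rw [Finset.sum_filter]
  rw [h1]
  congr 1
  ext q
  simp only [Finset.mem_filter, Finset.mem_Icc]
  omega

lemma lvl_mul_per {R d D : ℕ} (hd : 0 < d) (hdD : d ≤ D) {g V : ℤ → ℝ}
    (hg : ∀ n m : ℤ, (d : ℤ) ∣ n - m → g n = g m) (hV : HasLevel R V) :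
    HasLevel (R * D) (fun n => g n * V n) := by
  obtain ⟨c, hc⟩ := hV
  refine ⟨fun q' r => ∑ q ∈ Finset.Icc 1 R, if q * d = q' then c q (r % (q : ℤ)) * g r else 0, fun n => ?_⟩
  beta_reduce
  rw [hc, Finset.sum_comm, Finset.mul_sum]
  refine Finset.sum_congr rfl fun q hq => ?_
  rw [Finset.mem_Icc] at hq
  have hmem : q * d ∈ Finset.Icc 1 (R * D) := by
    rw [Finset.mem_Icc]
    exact ⟨Nat.mul_pos (by omega) hd, Nat.mul_le_mul hq.2 hdD⟩
  rw [Finset.sum_ite_eq (Finset.Icc 1 (R * D)) (q * d)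
    (fun q' => c q (n % (q' : ℤ) % (q : ℤ)) * g (n % (q' : ℤ))), if_pos hmem]
  have h1 : (n % ((q * d : ℕ) : ℤ)) % (q : ℤ) = n % (q : ℤ) :=
    Int.emod_emod_of_dvd n (by exact_mod_cast Dvd.intro d rfl)
  have h2 : g (n % ((q * d : ℕ) : ℤ)) = g n := by
    refine (hg _ _ ?_).symm
    exact dvd_trans (by exact_mod_cast Dvd.intro_left q rfl) (Int.dvd_self_sub_emod)
  rw [h1, h2]; ring

variable {Q : ℕ}

lemma lvl_WW {R : ℕ} (hR : 1 ≤ R) (u : (∀ i, Om Q i) → ℝ) :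
    HasLevel R (fun n => WW Q (Real.log R) u (pt Q n)) := by
  classical
  refine ⟨fun q r => ∑ τ ∈ (Finset.univ.filter (fun τ : Ix Q → Option (Fin Q) => cs (om Q) τ ≤ Real.log R)).filter
    (fun τ => Sp.cond τ = q), op (fun i => DM (Dp Q i) (τ i)) u (pt Q r), fun n => ?_⟩
  simp only [WW, Finset.sum_apply]
  have h1 : ∀ τ ∈ Finset.univ.filter (fun τ : Ix Q → Option (Fin Q) => cs (om Q) τ ≤ Real.log R),
      Sp.cond τ ∈ Finset.Icc 1 R := by
    intro τ hτ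
    have h2 := (Finset.mem_filter.1 hτ).2
    rw [cs_eq] at h2
    rw [Finset.mem_Icc]
    refine ⟨cond_pos τ, ?_⟩
    have h3 : (0 : ℝ) < (Sp.cond τ : ℝ) := by exact_mod_cast cond_pos τ
    have h4 : (0 : ℝ) < (R : ℝ) := by exact_mod_cast hR
    have h5 := (Real.log_le_log_iff h3 h4).1 h2
    exact_mod_cast h5
  rw [← Finset.sum_fiberwise_of_maps_to h1]
  refine Finset.sum_congr rfl fun q hq => Finset.sum_congr rfl fun τ hτ => ?_
  refine op_DM_congr τ u n _ ?_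
  rw [(Finset.mem_filter.1 hτ).2]
  exact Int.dvd_self_sub_emod

lemma WW_self {q : ℝ} {u : (∀ i, Om Q i) → ℝ} (hu : LevG (om Q) (Dp Q) q u) : WW Q q u = u := by
  classical
  have h1 : u = ∑ σ : Ix Q → Option (Fin Q), op (fun i => DM (Dp Q i) (σ i)) u := by
    have h := op_expand (C := Option (Fin Q)) (fun i c => DM (Dp Q i) c) (fun _ => 1)
      (fun i => (DM_sum (isD_Dp i)).symm) u
    rwa [op_one] at h
  conv_rhs => rw [h1]
  rw [WW, Finset.sum_filter]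
  refine Finset.sum_congr rfl fun σ _ => ?_
  split_ifs with h
  · rfl
  · exact (hu σ (not_le.1 h)).symm

/-- functions of bounded level on the product space -/
lemma lvl_of_lev {R : ℕ} (hR : 1 ≤ R) {u : (∀ i, Om Q i) → ℝ} (hu : LevG (om Q) (Dp Q) (Real.log R) u) :
    HasLevel R (fun n => u (pt Q n)) := by
  have h := lvl_WW hR u
  rwa [WW_self hu] at h

/-! the indicator functions are periodic -/

lemma ind_per (K : KC Q) {p : ℕ} (hp : p ∈ Count.PP Q) (hQ : 1 ≤ Q) {n m : ℤ} (h : (p : ℤ) ∣ n - m) :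
    ind K (pt Q n) p = ind K (pt Q m) p := by
  have h1 : pi1 (ip_prime ⟨p, hp⟩).pos (pt Q n ⟨p, hp⟩) = pi1 (ip_prime ⟨p, hp⟩).pos (pt Q m ⟨p, hp⟩) := by
    apply Fin.ext
    have h2 := pt_mod (Q := Q) n m ⟨p, hp⟩ ⟨0, hQ⟩ (by simpa using h)
    simp only [zero_add, pow_one] at h2
    exact h2
  rw [ind, ind, dif_pos hp, dif_pos hp, h1]

lemma ind_01 (K : KC Q) (x : ∀ i, Om Q i) (p : ℕ) : 0 ≤ ind K x p ∧ ind K x p ≤ 1 := by
  unfold ind
  split_ifs <;> norm_num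

lemma pind_01 (K : KC Q) (x : ∀ i, Om Q i) (A : Finset ℕ) :
    0 ≤ ∏ p ∈ A, ind K x p ∧ ∏ p ∈ A, ind K x p ≤ 1 :=
  ⟨Finset.prod_nonneg fun p _ => (ind_01 K x p).1,
    Finset.prod_le_one (fun p _ => (ind_01 K x p).1) fun p _ => (ind_01 K x p).2⟩

lemma rp_bound {S : Finset ℕ} {D : ℕ} {e : ℝ} {F : (ℕ → ℝ) → ℝ} (hF : Rp S D e F)
    (K : KC Q) (x : ∀ i, Om Q i) : |F (ind K x)| ≤ e := by
  obtain ⟨ι, s, A, c, h1, h2, h3⟩ := hF
  rw [h2]
  refine (Finset.abs_sum_le_sum_abs _ _).trans (le_trans (Finset.sum_le_sum fun i _ => ?_) h3)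
  rw [abs_mul]
  have h4 := pind_01 K x (A i)
  rw [abs_of_nonneg h4.1]
  exact mul_le_of_le_one_right (abs_nonneg _) h4.2

lemma lvl_rp (hQ : 1 ≤ Q) {S : Finset ℕ} (hS : S ⊆ Count.PP Q) {D : ℕ} {e : ℝ} {F : (ℕ → ℝ) → ℝ}
    (hF : Rp S D e F) (K : KC Q) {R : ℕ} {u : (∀ i, Om Q i) → ℝ} (hu : HasLevel R (fun n => u (pt Q n))) :
    HasLevel (R * D) (fun n => F (ind K (pt Q n)) * u (pt Q n)) := by
  obtain ⟨ι, s, A, c, h1, h2, h3⟩ := hF
  have e1 : (fun n : ℤ => F (ind K (pt Q n)) * u (pt Q n))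
      = fun n : ℤ => ∑ i ∈ s, c i * ((∏ p ∈ A i, ind K (pt Q n) p) * u (pt Q n)) := by
    funext n
    rw [h2, Finset.sum_mul]
    exact Finset.sum_congr rfl fun i _ => by ring
  rw [e1]
  refine lvl_sum s _ fun i hi => lvl_smul (c i) ?_
  have hA := h1 i hi
  have hpp : ∀ p ∈ A i, p.Prime := fun p hp => (Finset.mem_filter.1 (hS (hA.1 hp))).2
  refine lvl_mul_per (d := ∏ p ∈ A i, p) (Finset.prod_pos fun p hp => (hpp p hp).pos) hA.2 ?_ hu
  intro n m hnm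
  refine Finset.prod_congr rfl fun p hp => ind_per K (hS (hA.1 hp)) hQ ?_
  refine dvd_trans ?_ hnm
  exact_mod_cast Finset.dvd_prod_of_mem (fun p => p) hp

/-- transfer to an interval -/
lemma transfer (hQ : 1 ≤ Q) {R D : ℕ} (hR : 1 ≤ R) (hD : 1 ≤ D) (hRD : R * D ≤ Q) (K : KC Q)
    {u : (∀ i, Om Q i) → ℝ} (hu : HasLevel R (fun n => u (pt Q n))) {S : Finset ℕ}
    (hS : S ⊆ Count.PP Q) {e : ℝ} {F : (ℕ → ℝ) → ℝ} (hF : Rp S D e F) (x : ℤ) (N : ℕ) :
    |(MM Q : ℝ) * ∑ j ∈ Finset.range N, F (ind K (pt Q (x + j))) * u (pt Q (x + j)) ^ 2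
      - N * ip u (fun y => F (ind K y) * u y)| ≤ Er (R * D) * (1 + e ^ 2) * ip u u := by
  set U : ℤ → ℝ := fun n => u (pt Q n) with hU
  set W : ℤ → ℝ := fun n => F (ind K (pt Q n)) * u (pt Q n) with hW
  have hUl : HasLevel (R * D) U := lvl_mono (Nat.le_mul_of_pos_right R hD) hu
  have hWl : HasLevel (R * D) W := lvl_rp hQ hS hF K hu
  have hp : HasLevel (R * D) (fun n => U n + W n) := lvl_add hUl hWl
  have hm : HasLevel (R * D) (fun n => U n + (-1) * W n) := lvl_add hUl (lvl_smul (-1) hWl)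
  have hRD1 : 1 ≤ R * D := Nat.mul_pos hR hD
  have hdv : ∀ q ∈ Finset.Icc 1 (R * D), q ∣ MM Q := fun q hq => dvd_MM (by
    rw [Finset.mem_Icc] at hq ⊢
    exact ⟨hq.1, hq.2.trans hRD⟩)
  have l1 := LS.large_sieve (MM_pos Q) hRD1 hdv hp x N
  have l2 := LS.large_sieve (MM_pos Q) hRD1 hdv hm x N
  have hEr : ((R * D : ℕ) : ℝ) ^ 2 * (1 + Real.log (((R * D : ℕ) : ℝ) ^ 2)) = Er (R * D) := rfl
  rw [hEr] at l1 l2
  have hE0 : 0 ≤ Er (R * D) := Er_nonneg hRD1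
  set A : ℝ := ∑ n ∈ Finset.range (MM Q), (U n + W n) ^ 2 with hA
  set B : ℝ := ∑ n ∈ Finset.range (MM Q), (U n + (-1) * W n) ^ 2 with hB
  set G : ℝ := ip u u with hG
  have eG : G = ∑ n ∈ Finset.range (MM Q), U n ^ 2 := by
    rw [hG, ip, sum_rep]
    exact Finset.sum_congr rfl fun n _ => by simp only [hU]; ring
  have eH : ip u (fun y => F (ind K y) * u y) = ∑ n ∈ Finset.range (MM Q), U n * W n := by
    rw [ip, sum_rep]
  have eAB : A + B ≤ 2 * (1 + e ^ 2) * G := by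
    rw [hA, hB, eG, ← Finset.sum_add_distrib, Finset.mul_sum]
    refine Finset.sum_le_sum fun n _ => ?_
    have h1 := rp_bound hF K (pt Q n)
    have h2 : F (ind K (pt Q n)) ^ 2 ≤ e ^ 2 := sq_le_sq' (by linarith [(abs_le.1 h1).1]) (abs_le.1 h1).2
    have h3 : W n ^ 2 ≤ e ^ 2 * U n ^ 2 := by
      simp only [hW, hU, mul_pow]
      exact mul_le_mul_of_nonneg_right h2 (sq_nonneg _)
    linear_combination 2 * h3
  have eAmB : A - B = 4 * ip u (fun y => F (ind K y) * u y) := by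
    rw [hA, hB, eH, ← Finset.sum_sub_distrib, Finset.mul_sum]
    exact Finset.sum_congr rfl fun n _ => by ring
  have eS : ∑ j ∈ Finset.range N, (U (x + j) + W (x + j)) ^ 2
      - ∑ j ∈ Finset.range N, (U (x + j) + (-1) * W (x + j)) ^ 2
      = 4 * ∑ j ∈ Finset.range N, F (ind K (pt Q (x + j))) * u (pt Q (x + j)) ^ 2 := by
    rw [← Finset.sum_sub_distrib, Finset.mul_sum]
    exact Finset.sum_congr rfl fun n _ => by simp only [hU, hW]; ring
  have a1 := abs_le.1 l1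
  have a2 := abs_le.1 l2
  have k1 : Er (R * D) * (A + B) ≤ Er (R * D) * (2 * (1 + e ^ 2) * G) :=
    mul_le_mul_of_nonneg_left eAB hE0
  have G0 : 0 ≤ G := ip_self_nonneg u
  have k2 : 0 ≤ Er (R * D) * (1 + e ^ 2) * G := by positivity
  rw [abs_le]
  have a11 := a1.1
  have a12 := a1.2
  have a21 := a2.1
  have a22 := a2.2
  set X1 := (MM Q : ℝ) * ∑ j ∈ Finset.range N, (U (x + j) + W (x + j)) ^ 2 with hX1
  set X2 := (MM Q : ℝ) * ∑ j ∈ Finset.range N, (U (x + j) + (-1) * W (x + j)) ^ 2 with hX2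
  have eX : X1 - X2 = 4 * ((MM Q : ℝ) * ∑ j ∈ Finset.range N, F (ind K (pt Q (x + j))) * u (pt Q (x + j)) ^ 2) := by
    rw [hX1, hX2, ← mul_sub, eS]; ring
  have eN : N * A - N * B = 4 * (N * ip u (fun y => F (ind K y) * u y)) := by
    rw [← mul_sub, eAmB]; ring
  have b11 : -(Er (R * D) * A) ≤ X1 - N * A := a11
  have b12 : X1 - N * A ≤ Er (R * D) * A := a12
  have b21 : -(Er (R * D) * B) ≤ X2 - N * B := a21
  have b22 : X2 - N * B ≤ Er (R * D) * B := a22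
  constructor <;> nlinarith

end Run7.h52.U6
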