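import Pool.Agent.Run7.h52.U6

set_option autoImplicit false
set_option linter.unusedSectionVars false

namespace Run7.h52.U7

open Finset Run7.h52.Op Run7.h52.Ker Run7.h52.Core Run7.h52.CoreG Run7.h52.CellG Run7.h52.Sp
  Run7.h52.U1 Run7.h52.U2 Run7.h52.U3 Run7.h52.U4 Run7.h52.U5 Run7.h52.U6 Run7.h52.AsmT
open Run7.h52.Transfer (HasLevel)

variable {Q : ℕ}

/-- the classes at the primes of `T` only -/
def rs (T : Finset ℕ) (K : KC Q) : KC Q := fun i => if (i : ℕ) ∈ T then K i else ∅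

lemma rs_ok {K : KC Q} (hK : OK K) (T : Finset ℕ) : OK (rs T K) := by
  intro i
  unfold rs
  split_ifs
  · exact hK i
  · simpa using (ip_prime i).pos

lemma Nn_rs (K : KC Q) (T : Finset ℕ) (i : Ix Q) :
    Nn (rs T K) i = if (i : ℕ) ∈ T then Nn K i else 1 := by
  have : Nonempty (Fin (i : ℕ)) := ⟨⟨0, (ip_prime i).pos⟩⟩
  unfold Nn rs
  split_ifs with h
  · rfl
  · rw [NK_empty, tens_one]

lemma Qn_rs (K : KC Q) (T : Finset ℕ) (i : Ix Q) :
    Qn (rs T K) i = if (i : ℕ) ∈ T then Qn K i else 0 := by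
  have : Nonempty (Fin (i : ℕ)) := ⟨⟨0, (ip_prime i).pos⟩⟩
  unfold Qn rs
  split_ifs with h
  · rfl
  · rw [QK_empty, tens_zero]

lemma f1_Qn_rs (K : KC Q) (T : Finset ℕ) (i : Ix Q) (v : (∀ i, Om Q i) → ℝ) :
    f1 v i (Qn (rs T K) i) = if (i : ℕ) ∈ T then f1 v i (Qn K i) else 0 := by
  rw [Qn_rs]
  split_ifs with h
  · rfl
  · have := f1_smul v i 0 (0 : Matrix (Om Q i) (Om Q i) ℝ)
    simpa using this

lemma hh_comp (K : KC Q) (S T : Finset ℕ) (hST : Disjoint S T) (v : (∀ i, Om Q i) → ℝ) :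
    hh (rs S K) (hh (rs T K) v) = hh (rs (S ∪ T) K) v := by
  unfold hh
  rw [op_comp]
  congr 1
  funext i
  rw [Nn_rs, Nn_rs, Nn_rs]
  by_cases h1 : (i : ℕ) ∈ S
  · have h2 : (i : ℕ) ∉ T := fun h => Finset.disjoint_left.1 hST h1 h
    rw [if_pos h1, if_neg h2, if_pos (Finset.mem_union_left _ h1), mul_one]
  · by_cases h2 : (i : ℕ) ∈ T
    · rw [if_neg h1, if_pos h2, if_pos (Finset.mem_union_right _ h2), one_mul]
    · have h3 : (i : ℕ) ∉ S ∪ T := by
        rw [Finset.mem_union]; exact fun h => h.elim h1 h2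
      rw [if_neg h1, if_neg h2, if_neg h3, one_mul]

lemma ind_rs (K : KC Q) (T : Finset ℕ) (x : ∀ i, Om Q i) {p : ℕ} (hp : p ∈ T) :
    ind (rs T K) x p = ind K x p := by
  unfold ind rs
  split_ifs
  all_goals rfl

lemma ut_rs (K : KC Q) (T : Finset ℕ) (τ : Ix Q → Bool) {p : ℕ} (hp : p ∈ T) :
    ut (rs T K) τ p = ut K τ p := by
  unfold ut rs
  by_cases h : p ∈ Count.PP Q
  · simp only [h, dif_pos, hp, if_true]
  · simp only [h, dif_neg, not_false_iff]

/-- hypotheses on the number of the classes -/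
def Small (K : KC Q) (T : Finset ℕ) (k : ℝ) : Prop :=
  ∀ i : Ix Q, (i : ℕ) ∈ T → 2 * (K i).card ≤ (i : ℕ) ∧ ((K i).card : ℝ) ≤ k

lemma ut_bd {K : KC Q} {T : Finset ℕ} {k : ℝ} (hk : 0 ≤ k) (h : Small K T k) (τ : Ix Q → Bool) {p : ℕ}
    (hp : p ∈ T) : 0 ≤ ut K τ p ∧ ut K τ p ≤ 1 / 2 ∧ ut K τ p ≤ k / p := by
  unfold ut
  by_cases h1 : p ∈ Count.PP Q
  · have hpp : (0 : ℝ) < p := by exact_mod_cast (Finset.mem_filter.1 h1).2.pos
    have h2 := h ⟨p, h1⟩ hp
    simp only [h1, dif_pos]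
    split_ifs
    · exact ⟨le_rfl, by norm_num, by positivity⟩
    · refine ⟨by positivity, ?_, ?_⟩
      · rw [div_le_iff₀ hpp]
        have : (2 : ℝ) * (K ⟨p, h1⟩).card ≤ p := by exact_mod_cast h2.1
        linarith
      · exact div_le_div_of_nonneg_right h2.2 hpp.le
  · simp only [h1, dif_neg, not_false_iff]
    exact ⟨le_rfl, by norm_num, by positivity⟩

/-- the expected proportion -/
noncomputable def rho (K : KC Q) (T : Finset ℕ) : ℝ := ∏ p ∈ T, (1 - ut K (fun _ => false) p)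

lemma ut_le (K : KC Q) (τ : Ix Q → Bool) (p : ℕ) : ut K τ p ≤ ut K (fun _ => false) p := by
  unfold ut
  by_cases h1 : p ∈ Count.PP Q
  · simp only [h1, dif_pos, Bool.false_eq_true, if_false]
    split_ifs
    · positivity
    · exact le_rfl
  · simp only [h1, dif_neg, not_false_iff, le_refl]

lemma rho_pos {K : KC Q} {T : Finset ℕ} {k : ℝ} (hk : 0 ≤ k) (h : Small K T k) : 0 < rho K T :=
  Finset.prod_pos fun p hp => by
    have := (ut_bd hk h (fun _ => false) hp).2.1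
    linarith

lemma rho_le {K : KC Q} {T : Finset ℕ} {k : ℝ} (hk : 0 ≤ k) (h : Small K T k) (τ : Ix Q → Bool) :
    rho K T ≤ ∏ p ∈ T, (1 - ut K τ p) :=
  Finset.prod_le_prod (fun p hp => by
    have := (ut_bd hk h (fun _ => false) hp).2.1
    linarith) fun p hp => by
    have := ut_le K τ p
    linarith

lemma one_le_exp_mul {x : ℝ} (h0 : 0 ≤ x) (h1 : x ≤ 1 / 2) : 1 ≤ (1 - x) * Real.exp (2 * x) := by
  have h2 : 1 + 2 * x ≤ Real.exp (2 * x) := by linarith [Real.add_one_le_exp (2 * x)]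
  have h3 : (1 - x) * (1 + 2 * x) ≤ (1 - x) * Real.exp (2 * x) :=
    mul_le_mul_of_nonneg_left h2 (by linarith)
  nlinarith

/-- few large primes are irrelevant -/
lemma le_rho {K : KC Q} {T : Finset ℕ} (hT : T ⊆ Count.PP Q) {k y L : ℝ} (hk : 0 ≤ k) (h : Small K T k)
    (hy : 1 < y) (hTy : ∀ p ∈ T, y < p) (τ : Ix Q → Bool) (hτ : us (lam Q) τ ≤ L) :
    ∏ p ∈ T, (1 - ut K τ p) ≤ Real.exp (2 * k * (L / (y * Real.log y))) * rho K T := by
  classical
  have hly : 0 < Real.log y := Real.log_pos hy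
  -- the set of the primes of `τ`
  set g : ℕ → ℝ := fun p => if hp : p ∈ Count.PP Q then (if τ ⟨p, hp⟩ = true then 1 / (p : ℝ) else 0) else 0
    with hg
  have h1 : ∀ p ∈ T, 1 - ut K τ p ≤ (1 - ut K (fun _ => false) p) * Real.exp (2 * k * g p) := by
    intro p hp
    have hpQ := hT hp
    have b0 := ut_bd hk h (fun _ => false) hp
    by_cases ht : τ ⟨p, hpQ⟩ = true
    · have e1 : ut K τ p = 0 := by simp only [ut, hpQ, dif_pos, ht, if_true]
      have e2 : g p = 1 / (p : ℝ) := by simp only [hg, hpQ, dif_pos, ht, if_true]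
      rw [e1, e2, sub_zero]
      refine (one_le_exp_mul b0.1 b0.2.1).trans ?_
      refine mul_le_mul_of_nonneg_left (Real.exp_le_exp.2 ?_) (by linarith [b0.2.1])
      have := b0.2.2
      calc 2 * ut K (fun _ => false) p ≤ 2 * (k / p) := by linarith
        _ = 2 * k * (1 / p) := by ring
    · have e1 : ut K τ p = ut K (fun _ => false) p := by
        simp only [ut, hpQ, dif_pos, ht, if_false, Bool.false_eq_true]
      have e2 : g p = 0 := by simp only [hg, hpQ, dif_pos, ht, if_false, Bool.false_eq_true]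
      rw [e1, e2, mul_zero, Real.exp_zero, mul_one]
  have h2 : ∏ p ∈ T, (1 - ut K τ p) ≤ ∏ p ∈ T, ((1 - ut K (fun _ => false) p) * Real.exp (2 * k * g p)) :=
    Finset.prod_le_prod (fun p hp => by
      have := (ut_bd hk h τ hp).2.1
      linarith) h1
  rw [Finset.prod_mul_distrib, ← Real.exp_sum, mul_comm] at h2
  refine h2.trans (mul_le_mul_of_nonneg_right (Real.exp_le_exp.2 ?_) (rho_pos hk h).le)
  rw [← Finset.mul_sum]
  refine mul_le_mul_of_nonneg_left ?_ (by linarith)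
  -- the sum of the reciprocals
  have h3 : ∑ p ∈ T, g p ≤ ∑ p ∈ T, (if hp : p ∈ Count.PP Q then (if τ ⟨p, hp⟩ = true then
      Real.log p / (y * Real.log y) else 0) else 0) := by
    refine Finset.sum_le_sum fun p hp => ?_
    have hpQ := hT hp
    simp only [hg, hpQ, dif_pos]
    split_ifs
    · have hyp := hTy p hp
      have hp0 : (0 : ℝ) < p := by linarith
      rw [div_le_div_iff₀ hp0 (by positivity)]
      have hl := Real.log_le_log (by linarith) hyp.le
      calc 1 * (y * Real.log y) = y * Real.log y := one_mul _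
        _ ≤ (p : ℝ) * Real.log p := mul_le_mul hyp.le hl hly.le hp0.le
        _ = Real.log p * p := mul_comm _ _
    · exact le_rfl
  have h4 : ∑ p ∈ T, (if hp : p ∈ Count.PP Q then (if τ ⟨p, hp⟩ = true then
      Real.log p / (y * Real.log y) else 0) else 0)
      ≤ ∑ p ∈ Count.PP Q, (if hp : p ∈ Count.PP Q then (if τ ⟨p, hp⟩ = true then
      Real.log p / (y * Real.log y) else 0) else 0) := by
    refine Finset.sum_le_sum_of_subset_of_nonneg hT fun p hp _ => ?_
    simp only [hp, dif_pos]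
    split_ifs
    · have : (1 : ℝ) ≤ p := by exact_mod_cast (Finset.mem_filter.1 hp).2.one_lt.le
      have := Real.log_nonneg this
      positivity
    · exact le_rfl
  have h5 : ∑ p ∈ Count.PP Q, (if hp : p ∈ Count.PP Q then (if τ ⟨p, hp⟩ = true then
      Real.log p / (y * Real.log y) else 0) else 0) = us (lam Q) τ / (y * Real.log y) := by
    rw [us, Finset.sum_div, ← Finset.sum_coe_sort (Count.PP Q) (fun p => if hp : p ∈ Count.PP Q then
      (if τ ⟨p, hp⟩ = true then Real.log p / (y * Real.log y) else 0) else 0)]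
    refine Finset.sum_congr rfl fun i _ => ?_
    simp only [i.2, dif_pos, lam]
    split_ifs
    · rfl
    · rw [zero_div]
  refine (h3.trans h4).trans ?_
  rw [h5]
  exact div_le_div_of_nonneg_right hτ (by positivity)

section
variable (hQ : 1 ≤ Q) {K : KC Q} (hK : OK K)
include hQ hK

/-- evaluation of a polynomial -/
lemma eval_rp {T : Finset ℕ} (hT : T ⊆ Count.PP Q) {D : ℕ} {e : ℝ} {F : (ℕ → ℝ) → ℝ} (hF : Rp T D e F)
    (v : (∀ i, Om Q i) → ℝ) :
    ip (hh (rs T K) v) (fun y => F (ind K y) * hh (rs T K) v y)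
      = ∑ τ : Ix Q → Bool, F (ut K τ) * ip (op (XX (rs T K) τ) v) (op (XX (rs T K) τ) v) := by
  obtain ⟨ι, s, A, c, h1, h2, h3⟩ := hF
  have e1 : (fun y => F (ind K y) * hh (rs T K) v y)
      = fun y => ∑ i ∈ s, c i * ((∏ p ∈ A i, ind (rs T K) y p) * hh (rs T K) v y) := by
    funext y
    rw [h2, Finset.sum_mul]
    refine Finset.sum_congr rfl fun i hi => ?_
    rw [Finset.prod_congr rfl fun p hp => ind_rs K T y ((h1 i hi).1 hp)]
    ring
  have e2 : ip (hh (rs T K) v) (fun y => ∑ i ∈ s, c i * ((∏ p ∈ A i, ind (rs T K) y p) * hh (rs T K) v y))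
      = ∑ i ∈ s, c i * ip (hh (rs T K) v) (fun y => (∏ p ∈ A i, ind (rs T K) y p) * hh (rs T K) v y) := by
    unfold ip
    simp only [Finset.mul_sum]
    rw [Finset.sum_comm]
    exact Finset.sum_congr rfl fun i _ => Finset.sum_congr rfl fun y _ => by ring
  rw [e1, e2]
  have e3 : ∀ i ∈ s, c i * ip (hh (rs T K) v) (fun y => (∏ p ∈ A i, ind (rs T K) y p) * hh (rs T K) v y)
      = ∑ τ : Ix Q → Bool, (c i * ∏ p ∈ A i, ut K τ p) * ip (op (XX (rs T K) τ) v) (op (XX (rs T K) τ) v) := by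
    intro i hi
    rw [eval_mono hQ (rs_ok hK T) (A i) ((h1 i hi).1.trans hT), Finset.mul_sum]
    refine Finset.sum_congr rfl fun τ _ => ?_
    rw [Finset.prod_congr rfl fun p hp => ut_rs K T τ ((h1 i hi).1 hp)]
    ring
  rw [Finset.sum_congr rfl e3, Finset.sum_comm]
  refine Finset.sum_congr rfl fun τ _ => ?_
  rw [← Finset.sum_mul, ← h2]

/-- lower bound over the full period -/
lemma full_low {T : Finset ℕ} (hT : T ⊆ Count.PP Q) {D : ℕ} {e : ℝ} {F : (ℕ → ℝ) → ℝ} (hF : Rp T D e F)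
    {a : ℝ} (ha : ∀ τ : Ix Q → Bool, a ≤ F (ut K τ)) (v : (∀ i, Om Q i) → ℝ) :
    a * ip (hh (rs T K) v) (hh (rs T K) v)
      ≤ ip (hh (rs T K) v) (fun y => F (ind K y) * hh (rs T K) v y) := by
  rw [eval_rp hQ hK hT hF, ← sum_XX hQ (rs_ok hK T), Finset.mul_sum]
  exact Finset.sum_le_sum fun τ _ => mul_le_mul_of_nonneg_right (ha τ) (ip_self_nonneg _)

/-- upper bound over the full period -/
lemma full_up {T : Finset ℕ} (hT : T ⊆ Count.PP Q) {D : ℕ} {e : ℝ} {F : (ℕ → ℝ) → ℝ} (hF : Rp T D e F)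
    {a L : ℝ} (ha : ∀ τ : Ix Q → Bool, us (lam Q) τ ≤ L → F (ut K τ) ≤ a) {v : (∀ i, Om Q i) → ℝ}
    (hv : LevG (om Q) (Dp Q) L v) :
    ip (hh (rs T K) v) (fun y => F (ind K y) * hh (rs T K) v y)
      ≤ a * ip (hh (rs T K) v) (hh (rs T K) v) := by
  rw [eval_rp hQ hK hT hF, ← sum_XX hQ (rs_ok hK T), Finset.mul_sum]
  refine Finset.sum_le_sum fun τ _ => ?_
  by_cases h : us (lam Q) τ ≤ L
  · exact mul_le_mul_of_nonneg_right (ha τ h) (ip_self_nonneg _)
  · rw [XX_zero hQ (rs_ok hK T) hv τ (not_le.1 h)]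
    simp [ip]

end

end Run7.h52.U7
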