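import Pool.Agent.Run7.h52.U7

set_option autoImplicit false
set_option linter.unusedSectionVars false

namespace Run7.h52.U8

open Finset Run7.h52.Op Run7.h52.Ker Run7.h52.Core Run7.h52.CoreG Run7.h52.CellG Run7.h52.Sp
  Run7.h52.U1 Run7.h52.U2 Run7.h52.U3 Run7.h52.U4 Run7.h52.U5 Run7.h52.U6 Run7.h52.U7 Run7.h52.AsmT
open Run7.h52.Transfer (HasLevel)

variable {Q : ℕ}

/-- the indicator function of the points outside the classes at the primes of `T` -/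
noncomputable def sv (K : KC Q) (T : Finset ℕ) (y : ∀ i, Om Q i) : ℝ := ∏ p ∈ T, (1 - ind K y p)

lemma sv_01 (K : KC Q) (T : Finset ℕ) (y : ∀ i, Om Q i) : 0 ≤ sv K T y ∧ sv K T y ≤ 1 :=
  ⟨Finset.prod_nonneg fun p _ => by linarith [(ind_01 K y p).2],
    Finset.prod_le_one (fun p _ => by linarith [(ind_01 K y p).2]) fun p _ => by
      linarith [(ind_01 K y p).1]⟩

lemma sv_anti (K : KC Q) {S T : Finset ℕ} (h : S ⊆ T) (y : ∀ i, Om Q i) : sv K T y ≤ sv K S y := by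
  classical
  unfold sv
  rw [← Finset.prod_sdiff h]
  have h1 := sv_01 K (T \ S) y
  have h2 := sv_01 K S y
  exact mul_le_of_le_one_left h2.1 h1.2

/-- sieve polynomials for the primes of `T` -/
def SV (T : Finset ℕ) (D : ℕ) (e k η : ℝ) : Prop :=
  ∃ U L : (ℕ → ℝ) → ℝ, Rp T D e U ∧ Rp T D e L ∧
    (∀ u, (∀ p ∈ T, 0 ≤ u p ∧ u p ≤ 1) → L u ≤ ∏ p ∈ T, (1 - u p) ∧ ∏ p ∈ T, (1 - u p) ≤ U u) ∧
    (∀ u, (∀ p ∈ T, 0 ≤ u p ∧ u p ≤ 1 / 2 ∧ u p ≤ k / p) →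
      U u ≤ (1 + η) * ∏ p ∈ T, (1 - u p) ∧ (1 - η) * ∏ p ∈ T, (1 - u p) ≤ L u)

/-- common factor -/
noncomputable def Ga (k y L : ℝ) : ℝ := Real.exp (2 * k * (L / (y * Real.log y)))

/-- common error -/
noncomputable def Err (R D : ℕ) (e : ℝ) : ℝ := Er (R * D) * (1 + e ^ 2)

section
variable (hQ : 1 ≤ Q) {K : KC Q} (hK : OK K)
include hQ hK

lemma low {R D : ℕ} (hR : 1 ≤ R) (hD : 1 ≤ D) (hRD : R * D ≤ Q) {T : Finset ℕ} (hT : T ⊆ Count.PP Q)
    {e k η : ℝ} (hk : 0 ≤ k) (hη : η ≤ 1) (hsv : SV T D e k η) (hs : Small K T k)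
    {v : (∀ i, Om Q i) → ℝ} (hv : LevG (om Q) (Dp Q) (Real.log R) v) (x : ℤ) (N : ℕ) :
    (N * ((1 - η) * rho K T) - Err R D e) * ip (hh (rs T K) v) (hh (rs T K) v)
      ≤ (MM Q : ℝ) * ∑ j ∈ Finset.range N, sv K T (pt Q (x + j)) * hh (rs T K) v (pt Q (x + j)) ^ 2 := by
  obtain ⟨U, F, _hU, hF, h1, h2⟩ := hsv
  set u := hh (rs T K) v with hu
  have hul : LevG (om Q) (Dp Q) (Real.log R) u := lev_hh hQ (rs_ok hK T) hv
  have ht := transfer hQ hR hD hRD K (lvl_of_lev hR hul) hT hF x N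
  have hf : (1 - η) * rho K T * ip u u ≤ ip u (fun y => F (ind K y) * u y) := by
    refine full_low hQ hK hT hF (fun τ => ?_) v
    have h3 := (h2 (ut K τ) fun p hp => ut_bd hk hs τ hp).2
    exact (mul_le_mul_of_nonneg_left (rho_le hk hs τ) (by linarith)).trans h3
  have h4 : ∑ j ∈ Finset.range N, F (ind K (pt Q (x + j))) * u (pt Q (x + j)) ^ 2
      ≤ ∑ j ∈ Finset.range N, sv K T (pt Q (x + j)) * u (pt Q (x + j)) ^ 2 :=
    Finset.sum_le_sum fun j _ => mul_le_mul_of_nonneg_right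
      (h1 _ fun p _ => ind_01 K _ p).1 (sq_nonneg _)
  have h5 := mul_le_mul_of_nonneg_left h4 (Nat.cast_nonneg (α := ℝ) (MM Q))
  have h6 := (abs_le.1 ht).1
  have h7 := mul_le_mul_of_nonneg_left hf (Nat.cast_nonneg (α := ℝ) N)
  unfold Err
  linarith

lemma up {R D : ℕ} (hR : 1 ≤ R) (hD : 1 ≤ D) (hRD : R * D ≤ Q) {T : Finset ℕ} (hT : T ⊆ Count.PP Q)
    {e k η y : ℝ} (hk : 0 ≤ k) (hη : 0 ≤ η) (hsv : SV T D e k η) (hs : Small K T k)
    (hy : 1 < y) (hTy : ∀ p ∈ T, y < p)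
    {v : (∀ i, Om Q i) → ℝ} (hv : LevG (om Q) (Dp Q) (Real.log R) v) (x : ℤ) (N : ℕ) :
    (MM Q : ℝ) * ∑ j ∈ Finset.range N, sv K T (pt Q (x + j)) * hh (rs T K) v (pt Q (x + j)) ^ 2
      ≤ (N * ((1 + η) * (Ga k y (Real.log R) * rho K T)) + Err R D e) *
        ip (hh (rs T K) v) (hh (rs T K) v) := by
  obtain ⟨F, L', hF, _hL, h1, h2⟩ := hsv
  set u := hh (rs T K) v with hu
  have hul : LevG (om Q) (Dp Q) (Real.log R) u := lev_hh hQ (rs_ok hK T) hv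
  have ht := transfer hQ hR hD hRD K (lvl_of_lev hR hul) hT hF x N
  have hf : ip u (fun y => F (ind K y) * u y)
      ≤ (1 + η) * (Ga k y (Real.log R) * rho K T) * ip u u := by
    refine full_up hQ hK hT hF (fun τ hτ => ?_) hv
    have h3 := (h2 (ut K τ) fun p hp => ut_bd hk hs τ hp).1
    exact h3.trans (mul_le_mul_of_nonneg_left (le_rho hT hk hs hy hTy τ hτ) (by linarith))
  have h4 : ∑ j ∈ Finset.range N, sv K T (pt Q (x + j)) * u (pt Q (x + j)) ^ 2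
      ≤ ∑ j ∈ Finset.range N, F (ind K (pt Q (x + j))) * u (pt Q (x + j)) ^ 2 :=
    Finset.sum_le_sum fun j _ => mul_le_mul_of_nonneg_right
      (h1 _ fun p _ => ind_01 K _ p).2 (sq_nonneg _)
  have h5 := mul_le_mul_of_nonneg_left h4 (Nat.cast_nonneg (α := ℝ) (MM Q))
  have h6 := (abs_le.1 ht).2
  have h7 := mul_le_mul_of_nonneg_left hf (Nat.cast_nonneg (α := ℝ) N)
  unfold Err
  linarith

end

lemma hh_sub (K : KC Q) (v w : (∀ i, Om Q i) → ℝ) : hh K (v - w) = hh K v - hh K w := by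
  funext x
  simp only [hh, op, Pi.sub_apply, mul_sub, Finset.sum_sub_distrib]

/-- the oscillation at the primes of `T` -/
noncomputable def Eo (K : KC Q) (T : Finset ℕ) (v : (∀ i, Om Q i) → ℝ) : ℝ :=
  ∑ i : Ix Q, if (i : ℕ) ∈ T then f1 v i (Qn K i) else 0

lemma near_T (hQ : 1 ≤ Q) {K : KC Q} (hK : OK K) (T : Finset ℕ) (v : (∀ i, Om Q i) → ℝ) :
    ip (v - hh (rs T K) v) (v - hh (rs T K) v) ≤ Eo K T v := by
  have h := near hQ (rs_ok hK T) v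
  simp only [f1_Qn_rs] at h
  exact h

lemma Eo_union (hQ : 1 ≤ Q) {K : KC Q} (hK : OK K) (S T : Finset ℕ) (v : (∀ i, Om Q i) → ℝ) :
    Eo K (S ∪ T) v ≤ Eo K S v + Eo K T v := by
  unfold Eo
  rw [← Finset.sum_add_distrib]
  refine Finset.sum_le_sum fun i _ => ?_
  have h0 := f1_Qn_nonneg hQ hK v i
  by_cases h1 : (i : ℕ) ∈ S <;> by_cases h2 : (i : ℕ) ∈ T <;> simp [h1, h2, h0]

lemma pt_low {a b0 b1 b2 η : ℝ} (hη : 0 < η) (hη1 : η ≤ 1) :
    (1 - η) * a ^ 2 - 3 / η * (b0 ^ 2 + b1 ^ 2 + b2 ^ 2) ≤ (a + b0 + b1 + b2) ^ 2 := by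
  have h1 : (b0 + b1 + b2) ^ 2 ≤ 3 * (b0 ^ 2 + b1 ^ 2 + b2 ^ 2) := by
    nlinarith [sq_nonneg (b0 - b1), sq_nonneg (b0 - b2), sq_nonneg (b1 - b2)]
  have h2 : (b0 + b1 + b2) ^ 2 / η ≤ 3 / η * (b0 ^ 2 + b1 ^ 2 + b2 ^ 2) := by
    rw [div_mul_eq_mul_div]
    exact div_le_div_of_nonneg_right h1 hη.le
  have h3 : 0 ≤ (η * a + (b0 + b1 + b2)) ^ 2 / η := div_nonneg (sq_nonneg _) hη.le
  have h4 : (η * a + (b0 + b1 + b2)) ^ 2 / η = η * a ^ 2 + 2 * a * (b0 + b1 + b2) + (b0 + b1 + b2) ^ 2 / η := by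
    field_simp
    ring
  have h5 := sq_nonneg (b0 + b1 + b2)
  rw [h4] at h3
  have h6 : (a + b0 + b1 + b2) ^ 2 = a ^ 2 + 2 * a * (b0 + b1 + b2) + (b0 + b1 + b2) ^ 2 := by ring
  rw [h6]
  linarith

lemma pt_up {a b0 b1 b2 η : ℝ} (hη : 0 < η) :
    (a + b0 + b1 + b2) ^ 2 ≤ (1 + η) * a ^ 2 + 3 * (1 + 1 / η) * (b0 ^ 2 + b1 ^ 2 + b2 ^ 2) := by
  have h1 : (b0 + b1 + b2) ^ 2 ≤ 3 * (b0 ^ 2 + b1 ^ 2 + b2 ^ 2) := by
    nlinarith [sq_nonneg (b0 - b1), sq_nonneg (b0 - b2), sq_nonneg (b1 - b2)]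
  have h2 : (1 + 1 / η) * (b0 + b1 + b2) ^ 2 ≤ (1 + 1 / η) * (3 * (b0 ^ 2 + b1 ^ 2 + b2 ^ 2)) :=
    mul_le_mul_of_nonneg_left h1 (by positivity)
  have h3 : 0 ≤ (η * a - (b0 + b1 + b2)) ^ 2 / η := div_nonneg (sq_nonneg _) hη.le
  have h4 : (η * a - (b0 + b1 + b2)) ^ 2 / η
      = η * a ^ 2 - 2 * a * (b0 + b1 + b2) + 1 / η * (b0 + b1 + b2) ^ 2 := by
    field_simp
    ring
  rw [h4] at h3
  have h6 : (a + b0 + b1 + b2) ^ 2 = a ^ 2 + 2 * a * (b0 + b1 + b2) + (b0 + b1 + b2) ^ 2 := by ring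
  rw [h6]
  linarith

/-- three groups of primes -/
structure Grp (Q : ℕ) (P0 P1 P2 : Finset ℕ) : Prop where
  s0 : P0 ⊆ Count.PP Q
  s1 : P1 ⊆ Count.PP Q
  s2 : P2 ⊆ Count.PP Q
  d21 : Disjoint P2 P1
  d0 : Disjoint (P2 ∪ P1) P0

/-- one colour -/
theorem colour (hQ : 1 ≤ Q) {K : KC Q} (hK : OK K) {R D : ℕ} (hR : 1 ≤ R) (hD : 1 ≤ D) (hRD : R * D ≤ Q)
    {P0 P1 P2 : Finset ℕ} (hP : Grp Q P0 P1 P2) {e k η y : ℝ} (hk : 0 ≤ k) (hη : 0 ≤ η) (hη1 : η ≤ 1)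
    (v3 : SV ((P2 ∪ P1) ∪ P0) D e k η) (v2 : SV (P2 ∪ P1) D e k η) (v1 : SV P2 D e k η)
    (v0 : SV ∅ D e k η)
    (hs : Small K ((P2 ∪ P1) ∪ P0) k) (hy : 1 < y) (hTy : ∀ p ∈ (P2 ∪ P1) ∪ P0, y < p)
    {v : (∀ i, Om Q i) → ℝ} (hv : LevG (om Q) (Dp Q) (Real.log R) v) (x : ℤ) (N : ℕ)
    {l u g0 g1 g2 δ : ℝ} (hδ : 0 < δ) (hδ1 : δ ≤ 1) (hl0 : 0 ≤ l)
    (hl : l ≤ N * ((1 - η) * rho K ((P2 ∪ P1) ∪ P0)) - Err R D e)
    (hu : N * ((1 + η) * (Ga k y (Real.log R) * rho K ((P2 ∪ P1) ∪ P0))) + Err R D e ≤ u)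
    (hg0 : N * ((1 + η) * (Ga k y (Real.log R) * rho K (P2 ∪ P1))) + Err R D e ≤ g0)
    (hg1 : N * ((1 + η) * (Ga k y (Real.log R) * rho K P2)) + Err R D e ≤ g1)
    (hg2 : N * ((1 + η) * Ga k y (Real.log R)) + Err R D e ≤ g2)
    (hg00 : 0 ≤ g0) (hg10 : 0 ≤ g1) (hg20 : 0 ≤ g2) (hu0 : 0 ≤ u) :
    (1 - δ) * (l * (ip v v - (Eo K P0 v + Eo K P1 v + Eo K P2 v)))
        - 3 / δ * (g0 * Eo K P0 v + g1 * Eo K P1 v + g2 * Eo K P2 v)
      ≤ (MM Q : ℝ) * ∑ j ∈ Finset.range N, sv K ((P2 ∪ P1) ∪ P0) (pt Q (x + j)) * v (pt Q (x + j)) ^ 2 ∧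
    (MM Q : ℝ) * ∑ j ∈ Finset.range N, sv K ((P2 ∪ P1) ∪ P0) (pt Q (x + j)) * v (pt Q (x + j)) ^ 2
      ≤ (1 + δ) * (u * ip v v)
        + 3 * (1 + 1 / δ) * (g0 * Eo K P0 v + g1 * Eo K P1 v + g2 * Eo K P2 v) := by
  classical
  set P : Finset ℕ := (P2 ∪ P1) ∪ P0 with hPdef
  have hPQ : P ⊆ Count.PP Q := Finset.union_subset (Finset.union_subset hP.s2 hP.s1) hP.s0
  have hP21Q : P2 ∪ P1 ⊆ Count.PP Q := Finset.union_subset hP.s2 hP.s1
  have sub2 : P2 ⊆ P := Finset.subset_union_left.trans Finset.subset_union_left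
  have sub21 : P2 ∪ P1 ⊆ P := Finset.subset_union_left
  have hs21 : Small K (P2 ∪ P1) k := fun i hi => hs i (sub21 hi)
  have hs2 : Small K P2 k := fun i hi => hs i (sub2 hi)
  have hse : Small K ∅ k := fun i hi => absurd hi (Finset.notMem_empty _)
  -- the pieces
  set a := hh (rs P K) v with ha
  set w0 := v - hh (rs P0 K) v with hw0
  set w1 := v - hh (rs P1 K) v with hw1
  set b2 := v - hh (rs P2 K) v with hb2
  set b1 := hh (rs P2 K) w1 with hb1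
  set b0 := hh (rs (P2 ∪ P1) K) w0 with hb0
  have hsum : v = a + b0 + b1 + b2 := by
    rw [hb0, hb1, hb2, hw0, hw1, hh_sub, hh_sub, hh_comp K P2 P1 hP.d21, hh_comp K (P2 ∪ P1) P0 hP.d0, ha]
    abel
  have lv0 : LevG (om Q) (Dp Q) (Real.log R) w0 := lev_sub hv (lev_hh hQ (rs_ok hK P0) hv)
  have lv1 : LevG (om Q) (Dp Q) (Real.log R) w1 := lev_sub hv (lev_hh hQ (rs_ok hK P1) hv)
  have lv2 : LevG (om Q) (Dp Q) (Real.log R) b2 := lev_sub hv (lev_hh hQ (rs_ok hK P2) hv)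
  -- the norms
  have n0 : ip b0 b0 ≤ Eo K P0 v := (hh_le hQ (rs_ok hK (P2 ∪ P1)) w0).trans (near_T hQ hK P0 v)
  have n1 : ip b1 b1 ≤ Eo K P1 v := (hh_le hQ (rs_ok hK P2) w1).trans (near_T hQ hK P1 v)
  have n2 : ip b2 b2 ≤ Eo K P2 v := near_T hQ hK P2 v
  have na : ip a a ≤ ip v v := hh_le hQ (rs_ok hK P) v
  have na' : ip v v - (Eo K P0 v + Eo K P1 v + Eo K P2 v) ≤ ip a a := by
    have h1 := near_T hQ hK P v
    have h2 := ip_sub_hh hQ (rs_ok hK P) v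
    have h3 := Eo_union hQ hK (P2 ∪ P1) P0 v
    have h4 := Eo_union hQ hK P2 P1 v
    have h5 : ip a a = ip v v - ip (v - hh (rs P K) v) (v - hh (rs P K) v) := by rw [h2]; ring
    rw [h5]; linarith
  -- the bounds for the pieces in the interval
  set s : ℤ → ℝ := fun n => sv K P (pt Q n) with hsdef
  have hs0 : ∀ n, 0 ≤ s n := fun n => (sv_01 K P _).1
  set M : ℝ := (MM Q : ℝ) with hM
  have hM0 : 0 ≤ M := Nat.cast_nonneg _
  have A1 : l * ip a a ≤ M * ∑ j ∈ Finset.range N, s (x + j) * a (pt Q (x + j)) ^ 2 :=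
    (mul_le_mul_of_nonneg_right hl (ip_self_nonneg a)).trans
      (low hQ hK hR hD hRD hPQ hk hη1 v3 hs hv x N)
  have A2 : M * ∑ j ∈ Finset.range N, s (x + j) * a (pt Q (x + j)) ^ 2 ≤ u * ip a a :=
    (up hQ hK hR hD hRD hPQ hk hη v3 hs hy hTy hv x N).trans
      (mul_le_mul_of_nonneg_right hu (ip_self_nonneg a))
  have mono : ∀ (T : Finset ℕ) (b : (∀ i, Om Q i) → ℝ), T ⊆ P →
      M * ∑ j ∈ Finset.range N, s (x + j) * b (pt Q (x + j)) ^ 2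
        ≤ M * ∑ j ∈ Finset.range N, sv K T (pt Q (x + j)) * b (pt Q (x + j)) ^ 2 := fun T b hT =>
    mul_le_mul_of_nonneg_left (Finset.sum_le_sum fun j _ =>
      mul_le_mul_of_nonneg_right (sv_anti K hT _) (sq_nonneg _)) hM0
  have B0 : M * ∑ j ∈ Finset.range N, s (x + j) * b0 (pt Q (x + j)) ^ 2 ≤ g0 * Eo K P0 v := by
    refine (mono _ b0 sub21).trans ?_
    refine (up hQ hK hR hD hRD hP21Q hk hη v2 hs21 hy (fun p hp => hTy p (sub21 hp)) lv0 x N).trans ?_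
    refine (mul_le_mul_of_nonneg_right hg0 (ip_self_nonneg _)).trans ?_
    exact mul_le_mul_of_nonneg_left n0 hg00
  have B1 : M * ∑ j ∈ Finset.range N, s (x + j) * b1 (pt Q (x + j)) ^ 2 ≤ g1 * Eo K P1 v := by
    refine (mono _ b1 sub2).trans ?_
    refine (up hQ hK hR hD hRD hP.s2 hk hη v1 hs2 hy (fun p hp => hTy p (sub2 hp)) lv1 x N).trans ?_
    refine (mul_le_mul_of_nonneg_right hg1 (ip_self_nonneg _)).trans ?_
    exact mul_le_mul_of_nonneg_left n1 hg10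
  have hid : hh (rs ∅ K) b2 = b2 := by
    unfold hh
    have : Nn (rs ∅ K) = fun i : Ix Q => (1 : Matrix (Om Q i) (Om Q i) ℝ) := by
      funext i
      rw [Nn_rs, if_neg (Finset.notMem_empty _)]
    rw [this, op_one]
  have B2 : M * ∑ j ∈ Finset.range N, s (x + j) * b2 (pt Q (x + j)) ^ 2 ≤ g2 * Eo K P2 v := by
    refine (mono _ b2 (Finset.empty_subset P)).trans ?_
    have h := up hQ hK hR hD hRD (Finset.empty_subset _) hk hη v0 hse hy
      (fun p hp => absurd hp (Finset.notMem_empty _)) lv2 x N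
    rw [hid] at h
    refine h.trans ?_
    have h1 : rho K (∅ : Finset ℕ) = 1 := by simp [U7.rho]
    rw [h1, mul_one]
    refine (mul_le_mul_of_nonneg_right hg2 (ip_self_nonneg _)).trans ?_
    exact mul_le_mul_of_nonneg_left n2 hg20
  -- pointwise
  set SA := ∑ j ∈ Finset.range N, s (x + j) * a (pt Q (x + j)) ^ 2 with hSA
  set S0 := ∑ j ∈ Finset.range N, s (x + j) * b0 (pt Q (x + j)) ^ 2 with hS0
  set S1 := ∑ j ∈ Finset.range N, s (x + j) * b1 (pt Q (x + j)) ^ 2 with hS1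
  set S2 := ∑ j ∈ Finset.range N, s (x + j) * b2 (pt Q (x + j)) ^ 2 with hS2
  set SV' := ∑ j ∈ Finset.range N, s (x + j) * v (pt Q (x + j)) ^ 2 with hSV
  have e1 : (1 - δ) * SA - 3 / δ * (S0 + S1 + S2) ≤ SV' := by
    rw [hSA, hS0, hS1, hS2, hSV, ← Finset.sum_add_distrib, ← Finset.sum_add_distrib, Finset.mul_sum,
      Finset.mul_sum, ← Finset.sum_sub_distrib]
    refine Finset.sum_le_sum fun j _ => ?_
    have h1 := mul_le_mul_of_nonneg_left (pt_low (a := a (pt Q (x + j))) (b0 := b0 (pt Q (x + j)))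
      (b1 := b1 (pt Q (x + j))) (b2 := b2 (pt Q (x + j))) hδ hδ1) (hs0 (x + j))
    have h2 : v (pt Q (x + j)) = a (pt Q (x + j)) + b0 (pt Q (x + j)) + b1 (pt Q (x + j)) + b2 (pt Q (x + j)) := by
      have := congrFun hsum (pt Q (x + j))
      simpa only [Pi.add_apply] using this
    rw [h2]
    linarith
  have e2 : SV' ≤ (1 + δ) * SA + 3 * (1 + 1 / δ) * (S0 + S1 + S2) := by
    rw [hSA, hS0, hS1, hS2, hSV, ← Finset.sum_add_distrib, ← Finset.sum_add_distrib, Finset.mul_sum,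
      Finset.mul_sum, ← Finset.sum_add_distrib]
    refine Finset.sum_le_sum fun j _ => ?_
    have h1 := mul_le_mul_of_nonneg_left (pt_up (a := a (pt Q (x + j))) (b0 := b0 (pt Q (x + j)))
      (b1 := b1 (pt Q (x + j))) (b2 := b2 (pt Q (x + j))) hδ) (hs0 (x + j))
    have h2 : v (pt Q (x + j)) = a (pt Q (x + j)) + b0 (pt Q (x + j)) + b1 (pt Q (x + j)) + b2 (pt Q (x + j)) := by
      have := congrFun hsum (pt Q (x + j))
      simpa only [Pi.add_apply] using this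
    rw [h2]
    linarith
  have hδ2 : 0 ≤ 3 / δ := by positivity
  have hδ3 : 0 ≤ 3 * (1 + 1 / δ) := by positivity
  constructor
  · have f1 := mul_le_mul_of_nonneg_left e1 hM0
    have f2 : l * (ip v v - (Eo K P0 v + Eo K P1 v + Eo K P2 v)) ≤ M * SA :=
      (mul_le_mul_of_nonneg_left na' hl0).trans A1
    have f3 := mul_le_mul_of_nonneg_left f2 (by linarith : (0 : ℝ) ≤ 1 - δ)
    have f4 := mul_le_mul_of_nonneg_left (add_le_add (add_le_add B0 B1) B2) hδ2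
    linarith
  · have f1 := mul_le_mul_of_nonneg_left e2 hM0
    have f2 : M * SA ≤ u * ip v v := A2.trans (mul_le_mul_of_nonneg_left na hu0)
    have f3 := mul_le_mul_of_nonneg_left f2 (by linarith : (0 : ℝ) ≤ 1 + δ)
    have f4 := mul_le_mul_of_nonneg_left (add_le_add (add_le_add B0 B1) B2) hδ3
    linarith

/-- the oscillations of all colours -/
lemma sumE (hQ : 1 ≤ Q) {κ : Type} [Fintype κ] (K : κ → KC Q) (hK : ∀ c, OK (K c)) (T : Finset ℕ)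
    (m : ℕ → ℝ) {a L : ℝ} (ha : 0 ≤ a)
    (hm : ∀ i : Ix Q, (i : ℕ) ∈ T → ∀ r : Fin (i : ℕ),
      ((Finset.univ.filter fun c => r ∈ K c i).card : ℝ) ≤ m i)
    (h2 : ∀ c, ∀ i : Ix Q, (i : ℕ) ∈ T → 2 * (K c i).card ≤ (i : ℕ))
    (hma : ∀ i : Ix Q, (i : ℕ) ∈ T → 2 * m i ≤ a * Real.log (i : ℕ))
    {v : (∀ i, Om Q i) → ℝ} (hv : LevG (om Q) (Dp Q) L v) :
    ∑ c, Eo (K c) T v ≤ a * L * ip v v := by
  classical
  unfold Eo
  rw [Finset.sum_comm]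
  have h1 : ∀ i : Ix Q, ∑ c, (if (i : ℕ) ∈ T then f1 v i (Qn (K c) i) else 0)
      ≤ a * (Real.log (i : ℕ) * f1 v i (1 - E (Om Q i))) := by
    intro i
    have hE0 : 0 ≤ f1 v i (1 - E (Om Q i)) := by
      have hne := ne_Om i
      refine f1_nonneg v i _ ?_ ?_
      · rw [Matrix.transpose_sub, E_transpose, Matrix.transpose_one]
      · rw [sub_mul, mul_sub, mul_sub, E_mul_E]; simp
    have hlog : 0 ≤ Real.log ((i : ℕ) : ℝ) := Real.log_nonneg (by exact_mod_cast (ip_prime i).one_lt.le)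
    by_cases hi : (i : ℕ) ∈ T
    · simp only [hi, if_true]
      have hm' : ∀ r : Fin (i : ℕ), ((Finset.univ.filter fun c => r ∈ rs {(i : ℕ)} (K c) i).card : ℝ) ≤ m i := by
        intro r
        have e : (Finset.univ.filter fun c => r ∈ rs {(i : ℕ)} (K c) i) = Finset.univ.filter fun c => r ∈ K c i := by
          apply Finset.filter_congr
          intro c _
          rw [rs, if_pos (Finset.mem_singleton_self _)]
        rw [e]
        exact hm i hi r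
      have h2' : ∀ c, 2 * (rs {(i : ℕ)} (K c) i).card ≤ (i : ℕ) := by
        intro c
        rw [rs, if_pos (Finset.mem_singleton_self _)]
        exact h2 c i hi
      have h := U4.frame hQ (fun c => rs {(i : ℕ)} (K c)) (fun c => rs_ok (hK c) _) i (m i) hm' h2' v
      simp only [f1_Qn_rs, Finset.mem_singleton, if_true] at h
      refine h.trans ?_
      have := mul_le_mul_of_nonneg_right (hma i hi) hE0
      linarith
    · simp only [hi, if_false, Finset.sum_const_zero]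
      positivity
  refine (Finset.sum_le_sum fun i _ => h1 i).trans ?_
  rw [← Finset.mul_sum]
  have h3 : ∑ i : Ix Q, Real.log (i : ℕ) * f1 v i (1 - E (Om Q i)) ≤ YT (om Q) (Dp Q) v := by
    unfold YT
    refine Finset.sum_le_sum fun i _ => ?_
    have hD := isD_Dp (Q := Q) i
    have hne := ne_Om i
    have e1 : (1 : Matrix (Om Q i) (Om Q i) ℝ) - E (Om Q i) = ∑ j, Dp Q i j := by
      have h := DM_sum hD
      rw [Fintype.sum_option] at h
      simp only [DM, Option.elim_none, Option.elim_some] at h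
      rw [← h]; abel
    rw [e1, f1_sum, Finset.mul_sum]
    refine Finset.sum_le_sum fun j _ => ?_
    have hf : 0 ≤ f1 v i (Dp Q i j) := by
      have t1 := DM_transpose hD (some j)
      have t2 := DM_mul hne hD (some j) (some j)
      rw [if_pos rfl] at t2
      exact f1_nonneg v i _ t1 t2
    refine mul_le_mul_of_nonneg_right ?_ hf
    have hlog : 0 ≤ Real.log ((i : ℕ) : ℝ) := Real.log_nonneg (by exact_mod_cast (ip_prime i).one_lt.le)
    have hj : (0 : ℝ) ≤ ((j : ℕ) : ℝ) := Nat.cast_nonneg _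
    unfold om
    nlinarith
  have h4 := level_ineqG (fun i => ne_Om i) (fun i => isD_Dp (Q := Q) i) hv
  have := mul_le_mul_of_nonneg_left (h3.trans h4) ha
  linarith

end Run7.h52.U8
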