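import Pool.Agent.Run7.h52.U8
import Pool.Agent.Run7.h52.AsmV5

set_option autoImplicit false
set_option linter.unusedSectionVars false

namespace Run7.h52.U9

open Finset Run7.h52.Op Run7.h52.Core Run7.h52.CoreG Run7.h52.CellG Run7.h52.Sp
  Run7.h52.U3 Run7.h52.U5 Run7.h52.U6 Run7.h52.U7 Run7.h52.U8 Run7.h52.AsmT
open Run7.h52.Transfer (HasLevel cls eq_cls)

variable {Q : ℕ}

/-- the subsets of `H` with `k` elements -/
abbrev Col (H : Finset ℤ) (k : ℕ) : Type := {c // c ∈ H.powersetCard k}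

noncomputable instance colF (H : Finset ℤ) (k : ℕ) : Fintype (Col H k) := Finset.fintypeCoeSort _

lemma card_Col (H : Finset ℤ) (k : ℕ) : Fintype.card (Col H k) = H.card.choose k := by
  rw [← Finset.card_powersetCard]
  exact Fintype.card_coe _

/-- the classes `n` modulo the primes of `P` for which a prime divides `d n + b + h` for an `h` of `c` -/
noncomputable def Kt (Q d : ℕ) (b : ℤ) (P : Finset ℕ) (c : Finset ℤ) : KC Q := fun i =>
  if (i : ℕ) ∈ P then c.image (fun h => kk d (b + h) (i : ℕ) (ip_prime i)) else ∅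

lemma card_Kt (d : ℕ) (b : ℤ) (P : Finset ℕ) (c : Finset ℤ) (i : Ix Q) :
    (Kt Q d b P c i).card ≤ c.card := by
  unfold Kt
  split_ifs
  · exact Finset.card_image_le
  · simp

lemma mem_Kt {d : ℕ} {b : ℤ} {P : Finset ℕ} (hPd : ∀ p ∈ P, ¬ p ∣ d) {c : Finset ℤ} {i : Ix Q}
    (hi : (i : ℕ) ∈ P) (r : Fin (i : ℕ)) :
    r ∈ Kt Q d b P c i ↔ ∃ h ∈ c, ((i : ℕ) : ℤ) ∣ d * ((r : ℕ) : ℤ) + (b + h) := by
  rw [Kt, if_pos hi, Finset.mem_image]
  constructor
  · rintro ⟨h, hh, rfl⟩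
    refine ⟨h, hh, ?_⟩
    rw [kk_spec (ip_prime i) (hPd _ hi)]
    simp
  · rintro ⟨h, hh, hd⟩
    refine ⟨h, hh, ?_⟩
    rw [kk_spec (ip_prime i) (hPd _ hi)] at hd
    apply Fin.ext
    have h1 : ((r : ℕ) : ℤ) % ((i : ℕ) : ℤ) = (((kk d (b + h) (i : ℕ) (ip_prime i) : Fin _) : ℕ) : ℤ) % ((i : ℕ) : ℤ) :=
      (Int.modEq_iff_dvd.2 (by rw [← dvd_neg, neg_sub]; exact hd))
    have h2 := (kk d (b + h) (i : ℕ) (ip_prime i)).2
    have h3 := r.2
    rw [Int.emod_eq_of_lt (by positivity) (by exact_mod_cast h3),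
      Int.emod_eq_of_lt (by positivity) (by exact_mod_cast h2)] at h1
    exact_mod_cast h1.symm

/-- the indicator function in terms of integers -/
lemma ind_Kt (hQ : 1 ≤ Q) {d : ℕ} {b : ℤ} {P : Finset ℕ} (hPQ : P ⊆ Count.PP Q) (hPd : ∀ p ∈ P, ¬ p ∣ d)
    (c : Finset ℤ) (n : ℤ) {p : ℕ} (hp : p ∈ P) :
    ind (Kt Q d b P c) (pt Q n) p = (open Classical in if ∃ h ∈ c, (p : ℤ) ∣ d * n + (b + h) then 1 else 0) := by
  classical
  have hpQ := hPQ hp
  rw [ind, dif_pos hpQ]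
  have h1 : pi1 (ip_prime ⟨p, hpQ⟩).pos (pt Q n ⟨p, hpQ⟩) ∈ Kt Q d b P c ⟨p, hpQ⟩ ↔
      ∃ h ∈ c, (p : ℤ) ∣ d * n + (b + h) := by
    rw [mem_Kt hPd (i := ⟨p, hpQ⟩) hp]
    have h2 : (p : ℤ) ∣ n - (((pi1 (ip_prime ⟨p, hpQ⟩).pos (pt Q n ⟨p, hpQ⟩) : Fin p) : ℕ) : ℤ) :=
      pi1_eq (ip_prime ⟨p, hpQ⟩).pos hQ n _ _ (pt_coord n ⟨p, hpQ⟩) rfl
    refine exists_congr fun h => and_congr_right fun _ => ?_
    set r : ℤ := (((pi1 (ip_prime ⟨p, hpQ⟩).pos (pt Q n ⟨p, hpQ⟩) : Fin p) : ℕ) : ℤ) with hr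
    have e : (d : ℤ) * n + (b + h) = (d * r + (b + h)) + d * (n - r) := by ring
    rw [e]
    exact (Int.dvd_iff_dvd_of_dvd_add (a := (p : ℤ)) (b := d * r + (b + h))
      (c := -((d * r + (b + h)) + d * (n - r))) (by
        have : (d * r + (b + h)) + -((d * r + (b + h)) + d * (n - r)) = -(d * (n - r)) := by ring
        rw [this]
        exact (h2.mul_left _).neg_right)).trans (by rw [dvd_neg])
  by_cases h3 : ∃ h ∈ c, (p : ℤ) ∣ d * n + (b + h)
  · rw [if_pos (h1.2 h3), if_pos h3]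
  · rw [if_neg (fun h => h3 (h1.1 h)), if_neg h3]

/-- the elements of `H` without a prime of `P` -/
noncomputable def Hs (d : ℕ) (b : ℤ) (P : Finset ℕ) (H : Finset ℤ) (n : ℤ) : Finset ℤ :=
  open Classical in H.filter fun h => ∀ p ∈ P, ¬ (p : ℤ) ∣ d * n + (b + h)

lemma sv_Kt (hQ : 1 ≤ Q) {d : ℕ} {b : ℤ} {P : Finset ℕ} (hPQ : P ⊆ Count.PP Q) (hPd : ∀ p ∈ P, ¬ p ∣ d)
    {H c : Finset ℤ} (hc : c ⊆ H) (n : ℤ) :
    sv (Kt Q d b P c) P (pt Q n) = if c ⊆ Hs d b P H n then 1 else 0 := by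
  classical
  unfold sv
  by_cases h : c ⊆ Hs d b P H n
  · rw [if_pos h]
    refine Finset.prod_eq_one fun p hp => ?_
    rw [ind_Kt hQ hPQ hPd c n hp, if_neg, sub_zero]
    rintro ⟨g, hg, hd⟩
    have := h hg
    rw [Hs, Finset.mem_filter] at this
    exact this.2 p hp hd
  · rw [if_neg h]
    have : ∃ g ∈ c, g ∉ Hs d b P H n := by
      by_contra hcon
      push Not at hcon
      exact h hcon
    obtain ⟨g, hg, hg2⟩ := this
    rw [Hs, Finset.mem_filter] at hg2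
    push Not at hg2
    obtain ⟨p, hp, hd⟩ := hg2 (hc hg)
    refine Finset.prod_eq_zero hp ?_
    rw [ind_Kt hQ hPQ hPd c n hp, if_pos ⟨g, hg, hd⟩, sub_self]

/-- number of tuples -/
lemma sum_sv (hQ : 1 ≤ Q) {d : ℕ} {b : ℤ} {P : Finset ℕ} (hPQ : P ⊆ Count.PP Q) (hPd : ∀ p ∈ P, ¬ p ∣ d)
    (H : Finset ℤ) (k : ℕ) (n : ℤ) :
    ∑ c : Col H k, sv (Kt Q d b P (c : Finset ℤ)) P (pt Q n)
      = (((Hs d b P H n).card.choose k : ℕ) : ℝ) := by
  classical
  rw [Finset.sum_coe_sort (H.powersetCard k) (fun c => sv (Kt Q d b P c) P (pt Q n))]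
  have h1 : ∀ c ∈ H.powersetCard k, sv (Kt Q d b P c) P (pt Q n) = if c ⊆ Hs d b P H n then 1 else 0 :=
    fun c hc => sv_Kt hQ hPQ hPd (Finset.mem_powersetCard.1 hc).1 n
  rw [Finset.sum_congr rfl h1, ← Finset.sum_filter, Finset.sum_const, nsmul_eq_mul, mul_one]
  congr 1
  rw [← Finset.card_powersetCard]
  congr 1
  ext c
  rw [Finset.mem_filter, Finset.mem_powersetCard, Finset.mem_powersetCard]
  have hsub : Hs d b P H n ⊆ H := by unfold Hs; exact Finset.filter_subset _ _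
  constructor
  · rintro ⟨⟨_, h2⟩, h3⟩; exact ⟨h3, h2⟩
  · rintro ⟨h3, h2⟩; exact ⟨⟨h3.trans hsub, h2⟩, h3⟩

/-- number of tuples with a given element -/
lemma card_with (H : Finset ℤ) (k : ℕ) (h : ℤ) (hh : h ∈ H) :
    ((H.powersetCard (k + 1)).filter fun c => h ∈ c).card = (H.card - 1).choose k := by
  classical
  rw [← Finset.card_erase_of_mem hh, ← Finset.card_powersetCard]
  refine Finset.card_bij (fun c _ => c.erase h) ?_ ?_ ?_
  · intro c hc
    rw [Finset.mem_filter, Finset.mem_powersetCard] at hc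
    rw [Finset.mem_powersetCard]
    refine ⟨Finset.erase_subset_erase _ hc.1.1, ?_⟩
    rw [Finset.card_erase_of_mem hc.2, hc.1.2]; rfl
  · intro c hc c' hc' h1
    rw [Finset.mem_filter] at hc hc'
    rw [← Finset.insert_erase hc.2, ← Finset.insert_erase hc'.2, h1]
  · intro s hs
    rw [Finset.mem_powersetCard] at hs
    have hn : h ∉ s := fun h1 => Finset.notMem_erase h H (hs.1 h1)
    refine ⟨insert h s, ?_, Finset.erase_insert hn⟩
    rw [Finset.mem_filter, Finset.mem_powersetCard]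
    refine ⟨⟨Finset.insert_subset hh (hs.1.trans (Finset.erase_subset _ _)), ?_⟩, Finset.mem_insert_self _ _⟩
    rw [Finset.card_insert_of_notMem hn, hs.2]

/-- multiplicity of the classes -/
lemma mult {d : ℕ} {b : ℤ} {P : Finset ℕ} (hPd : ∀ p ∈ P, ¬ p ∣ d) (H : Finset ℤ) (k : ℕ) {i : Ix Q}
    (hi : (i : ℕ) ∈ P) (t : ℝ)
    (ht : ∀ n : ℤ, (((H.filter fun h => ((i : ℕ) : ℤ) ∣ n + h).card : ℕ) : ℝ) ≤ t) (r : Fin (i : ℕ)) :
    ((Finset.univ.filter fun c : Col H (k + 1) =>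
      r ∈ Kt Q d b P (c : Finset ℤ) i).card : ℝ) ≤ t * ((H.card - 1).choose k : ℕ) := by
  classical
  set Hr := H.filter fun h => ((i : ℕ) : ℤ) ∣ (d * ((r : ℕ) : ℤ) + b) + h with hHr
  have h1 : (Finset.univ.filter fun c : Col H (k + 1) =>
      r ∈ Kt Q d b P (c : Finset ℤ) i).card
      ≤ ∑ h ∈ Hr, ((H.powersetCard (k + 1)).filter fun c => h ∈ c).card := by
    have e1 : (Finset.univ.filter fun c : Col H (k + 1) =>
      r ∈ Kt Q d b P (c : Finset ℤ) i).card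
        = ((H.powersetCard (k + 1)).filter fun c => r ∈ Kt Q d b P c i).card := by
      rw [← Finset.card_map (Function.Embedding.subtype _)]
      congr 1
      ext c
      simp only [Finset.mem_map, Finset.mem_filter, Finset.mem_univ, true_and,
        Function.Embedding.coe_subtype, Subtype.exists, exists_and_left, exists_prop, exists_eq_right_right]
      exact and_comm
    rw [e1]
    refine (Finset.card_le_card ?_).trans Finset.card_biUnion_le
    intro c hc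
    rw [Finset.mem_filter] at hc
    obtain ⟨h, hh, hd⟩ := (mem_Kt hPd hi r).1 hc.2
    rw [Finset.mem_biUnion]
    refine ⟨h, ?_, ?_⟩
    · rw [hHr, Finset.mem_filter]
      refine ⟨(Finset.mem_powersetCard.1 hc.1).1 hh, ?_⟩
      rw [add_assoc]; exact hd
    · rw [Finset.mem_filter]; exact ⟨hc.1, hh⟩
  have h2 : ∑ h ∈ Hr, ((H.powersetCard (k + 1)).filter fun c => h ∈ c).card
      = Hr.card * (H.card - 1).choose k := by
    rw [Finset.sum_congr rfl fun h hh => card_with H k h (Finset.mem_filter.1 hh).1, Finset.sum_const,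
      smul_eq_mul]
  rw [h2] at h1
  have h3 : ((Hr.card : ℕ) : ℝ) ≤ t := ht _
  calc ((Finset.univ.filter fun c : Col H (k + 1) =>
      r ∈ Kt Q d b P (c : Finset ℤ) i).card : ℝ) ≤ ((Hr.card * (H.card - 1).choose k : ℕ) : ℝ) := by
        exact_mod_cast h1
    _ = (Hr.card : ℝ) * ((H.card - 1).choose k : ℕ) := by push_cast; ring
    _ ≤ _ := mul_le_mul_of_nonneg_right h3 (Nat.cast_nonneg _)

/-- expected proportion for tuples in general position -/
noncomputable def rs0 (k : ℕ) (T : Finset ℕ) : ℝ := ∏ p ∈ T, (1 - (k : ℝ) / p)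

lemma ut_Kt {d : ℕ} {b : ℤ} {P : Finset ℕ} (hPQ : P ⊆ Count.PP Q) (c : Finset ℤ) {p : ℕ} (hp : p ∈ P) :
    ut (Kt Q d b P c) (fun _ => false) p = ((Kt Q d b P c ⟨p, hPQ hp⟩).card : ℝ) / p := by
  unfold ut
  rw [dif_pos (hPQ hp)]
  simp

lemma rho_ge {d : ℕ} {b : ℤ} {P T : Finset ℕ} (hPQ : P ⊆ Count.PP Q) (hTP : T ⊆ P) {k : ℕ}
    (hkp : ∀ p ∈ P, 2 * k ≤ p) {c : Finset ℤ} (hc : c.card = k) :
    rs0 k T ≤ U7.rho (Kt Q d b P c) T := by
  refine Finset.prod_le_prod (fun p hp => ?_) fun p hp => ?_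
  · have hp0 : (0 : ℝ) < p := by exact_mod_cast (Finset.mem_filter.1 (hPQ (hTP hp))).2.pos
    have h1 : (2 : ℝ) * k ≤ p := by exact_mod_cast hkp p (hTP hp)
    have : (k : ℝ) / p ≤ 1 / 2 := by rw [div_le_iff₀ hp0]; linarith
    linarith
  · rw [ut_Kt hPQ c (hTP hp)]
    have h1 : ((Kt Q d b P c ⟨p, hPQ (hTP hp)⟩).card : ℝ) ≤ k := by
      have := card_Kt d b P c (⟨p, hPQ (hTP hp)⟩ : Ix Q)
      rw [hc] at this
      exact_mod_cast this
    have := div_le_div_of_nonneg_right h1 (Nat.cast_nonneg (α := ℝ) p)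
    linarith

/-- the product of the differences -/
noncomputable def dfs (c : Finset ℤ) : ℕ := ∏ x ∈ c.offDiag, (x.1 - x.2).natAbs

lemma dfs_pos (c : Finset ℤ) : 0 < dfs c := by
  refine Finset.prod_pos fun x hx => ?_
  rw [Finset.mem_offDiag] at hx
  exact Int.natAbs_pos.2 (sub_ne_zero.2 hx.2.2)

lemma dfs_le {Y : ℕ} {c : Finset ℤ} (hc : c ⊆ Finset.Ioc (0 : ℤ) (0 + (Y : ℤ))) {k : ℕ} (hk : c.card = k) :
    dfs c ≤ Y ^ (k ^ 2) := by
  have h1 : dfs c ≤ ∏ _x ∈ c.offDiag, Y := by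
    refine Finset.prod_le_prod' fun x hx => ?_
    rw [Finset.mem_offDiag] at hx
    have h2 := Finset.mem_Ioc.1 (hc hx.1)
    have h3 := Finset.mem_Ioc.1 (hc hx.2.1)
    omega
  rw [Finset.prod_const, Finset.offDiag_card, hk] at h1
  refine h1.trans ?_
  rcases Nat.eq_zero_or_pos Y with h0 | h0
  · subst h0
    have : c = ∅ := by
      rw [← Finset.subset_empty]
      refine hc.trans ?_
      simp
    subst this
    simp at hk
    subst hk
    simp
  · exact Nat.pow_le_pow_right h0 (by rw [pow_two]; omega)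

lemma inj_of_not_dvd {d : ℕ} {b : ℤ} {P : Finset ℕ} (hPd : ∀ p ∈ P, ¬ p ∣ d) {c : Finset ℤ} {i : Ix Q}
    (hi : (i : ℕ) ∈ P) (h : ¬ (i : ℕ) ∣ dfs c) : (Kt Q d b P c i).card = c.card := by
  rw [Kt, if_pos hi]
  refine Finset.card_image_of_injOn fun x hx y hy hxy => ?_
  by_contra hne
  apply h
  have hm : (x, y) ∈ c.offDiag := Finset.mem_offDiag.2 ⟨hx, hy, hne⟩
  refine dvd_trans ?_ (Finset.dvd_prod_of_mem (fun x : ℤ × ℤ => (x.1 - x.2).natAbs) hm)
  have h1 := (kk_spec (ip_prime i) (hPd _ hi) (b + x) (((kk d (b + x) (i : ℕ) (ip_prime i) : Fin _) : ℕ) : ℤ)).2 (by simp)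
  have h2 := (kk_spec (ip_prime i) (hPd _ hi) (b + y) (((kk d (b + x) (i : ℕ) (ip_prime i) : Fin _) : ℕ) : ℤ)).2 (by
    have hxy' : kk d (b + x) (i : ℕ) (ip_prime i) = kk d (b + y) (i : ℕ) (ip_prime i) := hxy
    rw [hxy']; simp)
  have h3 := dvd_sub h1 h2
  have e : (d : ℤ) * (((kk d (b + x) (i : ℕ) (ip_prime i) : Fin _) : ℕ) : ℤ) + (b + x)
      - (d * (((kk d (b + x) (i : ℕ) (ip_prime i) : Fin _) : ℕ) : ℤ) + (b + y)) = x - y := by ring
  rw [e] at h3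
  exact Int.natCast_dvd.1 h3

lemma rho_le' {d : ℕ} {b : ℤ} {P T : Finset ℕ} (hPQ : P ⊆ Count.PP Q) (hTP : T ⊆ P)
    (hPd : ∀ p ∈ P, ¬ p ∣ d) {k : ℕ} (hkp : ∀ p ∈ P, 2 * k ≤ p) {z₀ : ℝ} (hz : 1 < z₀)
    (hzp : ∀ p ∈ P, z₀ < p) {Y : ℕ}
    {c : Finset ℤ} (hc : c.card = k) (hcY : c ⊆ Finset.Ioc (0 : ℤ) (0 + (Y : ℤ))) :
    U7.rho (Kt Q d b P c) T ≤ Real.exp (2 * k * ((k : ℝ) ^ 2 * Real.log Y / (z₀ * Real.log z₀))) * rs0 k T := by
  classical
  have hlz : 0 < Real.log z₀ := Real.log_pos hz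
  have hz0 : 0 < z₀ := by linarith
  set S := T.filter fun p => p ∣ dfs c with hS
  have hpp : ∀ p ∈ T, p.Prime := fun p hp => (Finset.mem_filter.1 (hPQ (hTP hp))).2
  have hhalf : ∀ p ∈ T, (k : ℝ) / p ≤ 1 / 2 := fun p hp => by
    have hp0 : (0 : ℝ) < p := by exact_mod_cast (hpp p hp).pos
    have h1 : (2 : ℝ) * k ≤ p := by exact_mod_cast hkp p (hTP hp)
    rw [div_le_iff₀ hp0]; linarith
  have h1 : ∀ p ∈ T, 1 - ut (Kt Q d b P c) (fun _ => false) p
      ≤ (1 - (k : ℝ) / p) * Real.exp (if p ∣ dfs c then 2 * (k : ℝ) / z₀ else 0) := by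
    intro p hp
    have hp0 : (0 : ℝ) < p := by exact_mod_cast (hpp p hp).pos
    rw [ut_Kt hPQ c (hTP hp)]
    by_cases h : p ∣ dfs c
    · rw [if_pos h]
      have h2 : (0 : ℝ) ≤ ((Kt Q d b P c ⟨p, hPQ (hTP hp)⟩).card : ℝ) / p := by positivity
      have h3 := one_le_exp_mul (x := (k : ℝ) / p) (by positivity) (hhalf p hp)
      have h4 : (1 - (k : ℝ) / p) * Real.exp (2 * ((k : ℝ) / p)) ≤ (1 - (k : ℝ) / p) * Real.exp (2 * (k : ℝ) / z₀) := by
        refine mul_le_mul_of_nonneg_left (Real.exp_le_exp.2 ?_) (by linarith [hhalf p hp])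
        rw [← mul_div_assoc]
        exact div_le_div_of_nonneg_left (by positivity) hz0 (hzp p (hTP hp)).le
      linarith
    · rw [if_neg h, Real.exp_zero, mul_one]
      have h2 := inj_of_not_dvd (Q := Q) (b := b) hPd (i := ⟨p, hPQ (hTP hp)⟩) (hTP hp) h
      rw [h2, hc]
  have h2 : U7.rho (Kt Q d b P c) T ≤ ∏ p ∈ T, ((1 - (k : ℝ) / p) * Real.exp (if p ∣ dfs c then 2 * (k : ℝ) / z₀ else 0)) :=
    Finset.prod_le_prod (fun p hp => by
      rw [ut_Kt hPQ c (hTP hp)]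
      have hp0 : (0 : ℝ) < p := by exact_mod_cast (hpp p hp).pos
      have h3 : ((Kt Q d b P c ⟨p, hPQ (hTP hp)⟩).card : ℝ) ≤ k := by
        have := card_Kt d b P c (⟨p, hPQ (hTP hp)⟩ : Ix Q)
        rw [hc] at this
        exact_mod_cast this
      have := div_le_div_of_nonneg_right h3 hp0.le
      linarith [hhalf p hp]) h1
  rw [Finset.prod_mul_distrib, ← Real.exp_sum, mul_comm] at h2
  refine h2.trans ?_
  have hr0 : 0 ≤ rs0 k T := Finset.prod_nonneg fun p hp => by linarith [hhalf p hp]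
  refine mul_le_mul_of_nonneg_right (Real.exp_le_exp.2 ?_) hr0
  rw [← Finset.sum_filter, Finset.sum_const, nsmul_eq_mul]
  -- the number of the primes
  have h3 : (S.card : ℝ) * Real.log z₀ ≤ (k : ℝ) ^ 2 * Real.log Y := by
    have h4 : ∏ p ∈ S, p ∣ dfs c := by
      have : ∏ p ∈ S, p ∣ ∏ p ∈ (dfs c).primeFactors, p := by
        refine Finset.prod_dvd_prod_of_subset _ _ _ fun p hp => ?_
        rw [hS, Finset.mem_filter] at hp
        exact Nat.mem_primeFactors.2 ⟨hpp p hp.1, hp.2, (dfs_pos c).ne'⟩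
      exact this.trans (Nat.prod_primeFactors_dvd _)
    have h5 : ∏ p ∈ S, p ≤ Y ^ (k ^ 2) := (Nat.le_of_dvd (dfs_pos c) h4).trans (dfs_le hcY hc)
    have h6 : (S.card : ℝ) * Real.log z₀ ≤ ∑ p ∈ S, Real.log p := by
      rw [← nsmul_eq_mul, ← Finset.sum_const]
      refine Finset.sum_le_sum fun p hp => Real.log_le_log hz0 ?_
      exact (hzp p (hTP (Finset.mem_filter.1 hp).1)).le
    have h7 : ∑ p ∈ S, Real.log (p : ℝ) = Real.log ((∏ p ∈ S, p : ℕ) : ℝ) := by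
      push_cast
      rw [Real.log_prod]
      intro p hp
      exact_mod_cast (hpp p (Finset.mem_filter.1 hp).1).ne_zero
    have h8 : Real.log ((∏ p ∈ S, p : ℕ) : ℝ) ≤ Real.log ((Y ^ (k ^ 2) : ℕ) : ℝ) := by
      refine Real.log_le_log ?_ (by exact_mod_cast h5)
      exact_mod_cast Finset.prod_pos fun p hp => (hpp p (Finset.mem_filter.1 hp).1).pos
    rw [h7] at h6
    refine h6.trans (h8.trans (le_of_eq ?_))
    push_cast
    rw [Real.log_pow]
    push_cast; ring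
  have h9 : (S.card : ℝ) * (2 * (k : ℝ) / z₀) ≤ 2 * k * ((k : ℝ) ^ 2 * Real.log Y / (z₀ * Real.log z₀)) := by
    have h10 : (S.card : ℝ) ≤ (k : ℝ) ^ 2 * Real.log Y / Real.log z₀ := by
      rw [le_div_iff₀ hlz]; exact h3
    calc (S.card : ℝ) * (2 * (k : ℝ) / z₀) ≤ ((k : ℝ) ^ 2 * Real.log Y / Real.log z₀) * (2 * (k : ℝ) / z₀) :=
          mul_le_mul_of_nonneg_right h10 (by positivity)
      _ = _ := by field_simp
  exact h9

end Run7.h52.U9
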