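import Pool.Agent.Run7.h52.U21

set_option autoImplicit false
set_option linter.unusedSectionVars false

namespace Run7.h52.X1

open Finset Run7.h52.Op Run7.h52.Ker Run7.h52.Core Run7.h52.CoreG Run7.h52.CellG Run7.h52.Sp
  Run7.h52.U1 Run7.h52.U2 Run7.h52.U3 Run7.h52.U4 Run7.h52.U5 Run7.h52.U6 Run7.h52.U7 Run7.h52.U8 Run7.h52.AsmT
open Run7.h52.Transfer (HasLevel)

variable {Q : ℕ}

/-- Cauchy's inequality with weights -/
lemma sq_sum_le (J : ℕ) (b lam : ℕ → ℝ) (hlam : ∀ j ∈ Finset.range J, 0 < lam j)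
    (hs : ∑ j ∈ Finset.range J, 1 / lam j ≤ 1) :
    (∑ j ∈ Finset.range J, b j) ^ 2 ≤ ∑ j ∈ Finset.range J, lam j * b j ^ 2 := by
  rcases Nat.eq_zero_or_pos J with h | h
  · subst h; simp
  have h0 : 0 < ∑ j ∈ Finset.range J, 1 / lam j :=
    Finset.sum_pos (fun j hj => one_div_pos.2 (hlam j hj)) ⟨0, Finset.mem_range.2 h⟩
  have h1 := Finset.sq_sum_div_le_sum_sq_div (Finset.range J) b (g := fun j => 1 / lam j)
    (fun j hj => one_div_pos.2 (hlam j hj))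
  rw [div_le_iff₀ h0] at h1
  have h2 : ∑ j ∈ Finset.range J, b j ^ 2 / (1 / lam j) = ∑ j ∈ Finset.range J, lam j * b j ^ 2 :=
    Finset.sum_congr rfl fun j hj => by
      have := hlam j hj
      field_simp
  rw [h2] at h1
  refine h1.trans (mul_le_of_le_one_right ?_ hs)
  exact Finset.sum_nonneg fun j hj => mul_nonneg (hlam j hj).le (sq_nonneg _)

lemma ptw_low {a s δ q : ℝ} (hδ : 0 < δ) (hs : s ^ 2 ≤ q) :
    (1 - δ) * a ^ 2 - 1 / δ * q ≤ (a + s) ^ 2 := by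
  have h3 : 0 ≤ (δ * a + s) ^ 2 / δ := div_nonneg (sq_nonneg _) hδ.le
  have h4 : (δ * a + s) ^ 2 / δ = δ * a ^ 2 + 2 * a * s + 1 / δ * s ^ 2 := by
    field_simp
    ring
  have h5 : 1 / δ * s ^ 2 ≤ 1 / δ * q := mul_le_mul_of_nonneg_left hs (by positivity)
  have h6 : (a + s) ^ 2 = a ^ 2 + 2 * a * s + s ^ 2 := by ring
  have h7 := sq_nonneg s
  rw [h4] at h3
  rw [h6]
  linarith

lemma ptw_up {a s δ q : ℝ} (hδ : 0 < δ) (hs : s ^ 2 ≤ q) :
    (a + s) ^ 2 ≤ (1 + δ) * a ^ 2 + (1 + 1 / δ) * q := by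
  have h3 : 0 ≤ (δ * a - s) ^ 2 / δ := div_nonneg (sq_nonneg _) hδ.le
  have h4 : (δ * a - s) ^ 2 / δ = δ * a ^ 2 - 2 * a * s + 1 / δ * s ^ 2 := by
    field_simp
    ring
  have h5 : (1 + 1 / δ) * s ^ 2 ≤ (1 + 1 / δ) * q := mul_le_mul_of_nonneg_left hs (by positivity)
  have h6 : (a + s) ^ 2 = a ^ 2 + 2 * a * s + s ^ 2 := by ring
  rw [h4] at h3
  rw [h6]
  linarith

/-- a decreasing chain of sets of primes -/
structure Ch (Q : ℕ) (P : Finset ℕ) (S : ℕ → Finset ℕ) (J : ℕ) : Prop where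
  sub : P ⊆ Count.PP Q
  s0 : S 0 = P
  sJ : S J = ∅
  anti : ∀ j, S (j + 1) ⊆ S j

lemma Ch.subP {P : Finset ℕ} {S : ℕ → Finset ℕ} {J : ℕ} (h : Ch Q P S J) (j : ℕ) : S j ⊆ P := by
  induction j with
  | zero => rw [h.s0]
  | succ j ih => exact (h.anti j).trans ih

lemma Eo_chain (hQ : 1 ≤ Q) {K : KC Q} (hK : OK K) {P : Finset ℕ} {S : ℕ → Finset ℕ} {J : ℕ} (h : Ch Q P S J)
    (v : (∀ i, Om Q i) → ℝ) :
    Eo K P v ≤ ∑ j ∈ Finset.range J, Eo K (S j \ S (j + 1)) v := by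
  have key : ∀ m : ℕ, Eo K P v ≤ ∑ j ∈ Finset.range m, Eo K (S j \ S (j + 1)) v + Eo K (S m) v := by
    intro m
    induction m with
    | zero => simp [h.s0]
    | succ m ih =>
      rw [Finset.sum_range_succ]
      have h1 : S m = (S m \ S (m + 1)) ∪ S (m + 1) := (Finset.sdiff_union_of_subset (h.anti m)).symm
      have h2 := Eo_union hQ hK (S m \ S (m + 1)) (S (m + 1)) v
      rw [← h1] at h2
      linarith
  have h3 := key J
  rw [h.sJ] at h3
  have h4 : Eo K ∅ v = 0 := by simp [Eo]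
  rw [h4, add_zero] at h3
  exact h3

/-- one colour, a chain of groups -/
theorem colourJ (hQ : 1 ≤ Q) {K : KC Q} (hK : OK K) {R D : ℕ} (hR : 1 ≤ R) (hD : 1 ≤ D) (hRD : R * D ≤ Q)
    {P : Finset ℕ} {S : ℕ → Finset ℕ} {J : ℕ} (hC : Ch Q P S J) {e k η y : ℝ} (hk : 0 ≤ k) (hη : 0 ≤ η) (hη1 : η ≤ 1)
    (hsv : ∀ T ⊆ P, SV T D e k η) (hs : Small K P k) (hy : 1 < y) (hTy : ∀ p ∈ P, y < p)
    {v : (∀ i, Om Q i) → ℝ} (hv : LevG (om Q) (Dp Q) (Real.log R) v) (x : ℤ) (N : ℕ)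
    {l u δ : ℝ} {g lam : ℕ → ℝ} (hδ : 0 < δ) (hδ1 : δ ≤ 1) (hl0 : 0 ≤ l)
    (hlam : ∀ j ∈ Finset.range J, 0 < lam j) (hlams : ∑ j ∈ Finset.range J, 1 / lam j ≤ 1)
    (hl : l ≤ N * ((1 - η) * rho K P) - Err R D e)
    (hu : N * ((1 + η) * (Ga k y (Real.log R) * rho K P)) + Err R D e ≤ u)
    (hg : ∀ j ∈ Finset.range J, N * ((1 + η) * (Ga k y (Real.log R) * rho K (S (j + 1)))) + Err R D e ≤ g j)
    (hg0 : ∀ j ∈ Finset.range J, 0 ≤ g j) (hu0 : 0 ≤ u) :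
    (1 - δ) * (l * (ip v v - ∑ j ∈ Finset.range J, Eo K (S j \ S (j + 1)) v))
        - 1 / δ * ∑ j ∈ Finset.range J, lam j * (g j * Eo K (S j \ S (j + 1)) v)
      ≤ (MM Q : ℝ) * ∑ j ∈ Finset.range N, sv K P (pt Q (x + j)) * v (pt Q (x + j)) ^ 2 ∧
    (MM Q : ℝ) * ∑ j ∈ Finset.range N, sv K P (pt Q (x + j)) * v (pt Q (x + j)) ^ 2
      ≤ (1 + δ) * (u * ip v v)
        + (1 + 1 / δ) * ∑ j ∈ Finset.range J, lam j * (g j * Eo K (S j \ S (j + 1)) v) := by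
  classical
  have hPQ := hC.sub
  have hsT : ∀ T ⊆ P, Small K T k := fun T hT i hi => hs i (hT hi)
  -- the pieces
  set a := hh (rs P K) v with ha
  set w : ℕ → (∀ i, Om Q i) → ℝ := fun j => v - hh (rs (S j \ S (j + 1)) K) v with hw
  set b : ℕ → (∀ i, Om Q i) → ℝ := fun j => hh (rs (S (j + 1)) K) (w j) with hb
  have hbj : ∀ j, b j = hh (rs (S (j + 1)) K) v - hh (rs (S j) K) v := by
    intro j
    show hh (rs (S (j + 1)) K) (v - hh (rs (S j \ S (j + 1)) K) v) = _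
    rw [hh_sub, hh_comp K (S (j + 1)) (S j \ S (j + 1)) Finset.disjoint_sdiff,
      Finset.union_sdiff_of_subset (hC.anti j)]
  have hid : ∀ u' : (∀ i, Om Q i) → ℝ, hh (rs ∅ K) u' = u' := by
    intro u'
    unfold hh
    have : Nn (rs ∅ K) = fun i : Ix Q => (1 : Matrix (Om Q i) (Om Q i) ℝ) := by
      funext i
      rw [Nn_rs, if_neg (Finset.notMem_empty _)]
    rw [this, op_one]
  have hsum : ∀ y', v y' = a y' + ∑ j ∈ Finset.range J, b j y' := by
    intro y'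
    have h1 : ∑ j ∈ Finset.range J, b j y'
        = ∑ j ∈ Finset.range J, (hh (rs (S (j + 1)) K) v y' - hh (rs (S j) K) v y') :=
      Finset.sum_congr rfl fun j _ => by rw [hbj j]; rfl
    rw [h1, Finset.sum_range_sub (fun j => hh (rs (S j) K) v y') J, hC.sJ, hC.s0, hid]
    ring
  have lvw : ∀ j, LevG (om Q) (Dp Q) (Real.log R) (w j) := fun j => lev_sub hv (lev_hh hQ (rs_ok hK _) hv)
  -- the norms
  have nb : ∀ j, ip (b j) (b j) ≤ Eo K (S j \ S (j + 1)) v := fun j =>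
    (hh_le hQ (rs_ok hK (S (j + 1))) (w j)).trans (near_T hQ hK _ v)
  have na : ip a a ≤ ip v v := hh_le hQ (rs_ok hK P) v
  have na' : ip v v - ∑ j ∈ Finset.range J, Eo K (S j \ S (j + 1)) v ≤ ip a a := by
    have h1 := near_T hQ hK P v
    have h2 := ip_sub_hh hQ (rs_ok hK P) v
    have h3 := Eo_chain hQ hK hC v
    have h5 : ip a a = ip v v - ip (v - hh (rs P K) v) (v - hh (rs P K) v) := by rw [h2]; ring
    rw [h5]; linarith
  -- the bounds for the pieces in the interval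
  set s : ℤ → ℝ := fun n => sv K P (pt Q n) with hsdef
  have hs0 : ∀ n, 0 ≤ s n := fun n => (sv_01 K P _).1
  set M : ℝ := (MM Q : ℝ) with hM
  have hM0 : 0 ≤ M := Nat.cast_nonneg _
  have A1 : l * ip a a ≤ M * ∑ j ∈ Finset.range N, s (x + j) * a (pt Q (x + j)) ^ 2 :=
    (mul_le_mul_of_nonneg_right hl (ip_self_nonneg a)).trans
      (low hQ hK hR hD hRD hPQ hk hη1 (hsv P (Finset.Subset.refl P)) hs hv x N)
  have A2 : M * ∑ j ∈ Finset.range N, s (x + j) * a (pt Q (x + j)) ^ 2 ≤ u * ip a a :=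
    (up hQ hK hR hD hRD hPQ hk hη (hsv P (Finset.Subset.refl P)) hs hy hTy hv x N).trans
      (mul_le_mul_of_nonneg_right hu (ip_self_nonneg a))
  have Bj : ∀ i ∈ Finset.range J, M * ∑ j ∈ Finset.range N, s (x + j) * b i (pt Q (x + j)) ^ 2
      ≤ g i * Eo K (S i \ S (i + 1)) v := by
    intro i hi
    have hT : S (i + 1) ⊆ P := hC.subP (i + 1)
    have h1 : M * ∑ j ∈ Finset.range N, s (x + j) * b i (pt Q (x + j)) ^ 2
        ≤ M * ∑ j ∈ Finset.range N, sv K (S (i + 1)) (pt Q (x + j)) * b i (pt Q (x + j)) ^ 2 :=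
      mul_le_mul_of_nonneg_left (Finset.sum_le_sum fun j _ =>
        mul_le_mul_of_nonneg_right (sv_anti K hT _) (sq_nonneg _)) hM0
    refine h1.trans ?_
    refine (up hQ hK hR hD hRD (hT.trans hPQ) hk hη (hsv _ hT) (hsT _ hT) hy (fun p hp => hTy p (hT hp))
      (lvw i) x N).trans ?_
    refine (mul_le_mul_of_nonneg_right (hg i hi) (ip_self_nonneg _)).trans ?_
    exact mul_le_mul_of_nonneg_left (nb i) (hg0 i hi)
  set SA := ∑ j ∈ Finset.range N, s (x + j) * a (pt Q (x + j)) ^ 2 with hSA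
  set SB : ℕ → ℝ := fun i => ∑ j ∈ Finset.range N, s (x + j) * b i (pt Q (x + j)) ^ 2 with hSB
  set SV' := ∑ j ∈ Finset.range N, s (x + j) * v (pt Q (x + j)) ^ 2 with hSV
  have hsw : ∑ i ∈ Finset.range J, lam i * SB i
      = ∑ j ∈ Finset.range N, s (x + j) * ∑ i ∈ Finset.range J, lam i * b i (pt Q (x + j)) ^ 2 := by
    simp only [hSB, Finset.mul_sum]
    rw [Finset.sum_comm]
    refine Finset.sum_congr rfl fun j _ => Finset.sum_congr rfl fun i _ => by ring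
  have e1 : (1 - δ) * SA - 1 / δ * ∑ i ∈ Finset.range J, lam i * SB i ≤ SV' := by
    rw [hsw, hSA, hSV, Finset.mul_sum, Finset.mul_sum, ← Finset.sum_sub_distrib]
    refine Finset.sum_le_sum fun j _ => ?_
    have hq := sq_sum_le J (fun i => b i (pt Q (x + j))) lam hlam hlams
    have h1 := mul_le_mul_of_nonneg_left (ptw_low (a := a (pt Q (x + j))) hδ hq) (hs0 (x + j))
    rw [hsum (pt Q (x + j))]
    linarith
  have e2 : SV' ≤ (1 + δ) * SA + (1 + 1 / δ) * ∑ i ∈ Finset.range J, lam i * SB i := by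
    rw [hsw, hSA, hSV, Finset.mul_sum, Finset.mul_sum, ← Finset.sum_add_distrib]
    refine Finset.sum_le_sum fun j _ => ?_
    have hq := sq_sum_le J (fun i => b i (pt Q (x + j))) lam hlam hlams
    have h1 := mul_le_mul_of_nonneg_left (ptw_up (a := a (pt Q (x + j))) hδ hq) (hs0 (x + j))
    rw [hsum (pt Q (x + j))]
    linarith
  have hB : M * ∑ i ∈ Finset.range J, lam i * SB i
      ≤ ∑ i ∈ Finset.range J, lam i * (g i * Eo K (S i \ S (i + 1)) v) := by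
    rw [Finset.mul_sum]
    refine Finset.sum_le_sum fun i hi => ?_
    have := mul_le_mul_of_nonneg_left (Bj i hi) (hlam i hi).le
    calc M * (lam i * SB i) = lam i * (M * SB i) := by ring
      _ ≤ _ := this
  have hδ2 : 0 ≤ 1 / δ := by positivity
  have hδ3 : 0 ≤ 1 + 1 / δ := by positivity
  constructor
  · have f1 := mul_le_mul_of_nonneg_left e1 hM0
    have f2 : l * (ip v v - ∑ j ∈ Finset.range J, Eo K (S j \ S (j + 1)) v) ≤ M * SA :=
      (mul_le_mul_of_nonneg_left na' hl0).trans A1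
    have f3 := mul_le_mul_of_nonneg_left f2 (by linarith : (0 : ℝ) ≤ 1 - δ)
    have f4 := mul_le_mul_of_nonneg_left hB hδ2
    linarith
  · have f1 := mul_le_mul_of_nonneg_left e2 hM0
    have f2 : M * SA ≤ u * ip v v := A2.trans (mul_le_mul_of_nonneg_left na hu0)
    have f3 := mul_le_mul_of_nonneg_left f2 (by linarith : (0 : ℝ) ≤ 1 + δ)
    have f4 := mul_le_mul_of_nonneg_left hB hδ3
    linarith

end Run7.h52.X1
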