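import Pool.Agent.Run7.h52.X1

set_option autoImplicit false
set_option linter.unusedSectionVars false

namespace Run7.h52.X2

open Finset Run7.h52.Op Run7.h52.Core Run7.h52.CoreG Run7.h52.CellG Run7.h52.Sp
  Run7.h52.U3 Run7.h52.U5 Run7.h52.U6 Run7.h52.U7 Run7.h52.U8 Run7.h52.U9 Run7.h52.U10 Run7.h52.U11 Run7.h52.U12
  Run7.h52.U13 Run7.h52.AsmT Run7.h52.X1
open Run7.h52.Transfer (HasLevel)

variable {Q : ℕ}

/-- one progression, a chain of groups, clean form -/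
theorem clsJ {R D d : ℕ} (hR : 1 ≤ R) (hD : 1 ≤ D) (hQe : Q = R * D)
    {P : Finset ℕ} {S : ℕ → Finset ℕ} {J : ℕ} (hC : Ch Q P S J) (hPd : ∀ p ∈ P, ¬ p ∣ d)
    {k : ℕ} (hk : 1 ≤ k) {z₀ : ℝ} (hz : 1 < z₀) (hzp : ∀ p ∈ P, z₀ < p)
    (hkp : ∀ p ∈ P, 2 * k ≤ p) {e η κ : ℝ} (hη : 0 ≤ η) (hηκ : η ≤ κ)
    (hκ0 : 0 < κ) (hκ1 : κ ≤ 1 / 10)
    (hsv : ∀ T ⊆ P, SV T D e k η)
    {L : ℝ} (hL : 0 < L) (hRL : Real.log R ≤ L) {H : Finset ℤ} {Y : ℕ}
    (hHY : H ⊆ Finset.Ioc (0 : ℤ) (0 + (Y : ℤ))) (hH1 : 1 ≤ H.card) (t : ℕ → ℝ)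
    (ht : ∀ p ∈ P, ∀ n : ℤ, (((H.filter fun h => (p : ℤ) ∣ n + h).card : ℕ) : ℝ) ≤ t p)
    {ε lam : ℕ → ℝ} (hε0 : ∀ j ∈ Finset.range J, 0 ≤ ε j) (hlam : ∀ j ∈ Finset.range J, 1 ≤ lam j)
    (hlams : ∑ j ∈ Finset.range J, 1 / lam j ≤ 1)
    (hε : ∀ j ∈ Finset.range J, ∀ p ∈ S j \ S (j + 1), 2 * k * t p * L ≤ ε j * (H.card * Real.log p))
    {V : ℤ → ℝ} (hV : HasLevel R V) (b : ℤ) (x : ℤ) (N : ℕ)
    (hErr : Err R D e ≤ κ * (N * rs0 k P)) (hErR : Er R ≤ κ * N)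
    (hGa : Ga k z₀ L ≤ 1 + κ) (hDf : Df k Y z₀ ≤ 1 + κ)
    (hsum : ∑ j ∈ Finset.range J, lam j * (rs0 k (S (j + 1)) * ε j) ≤ κ ^ 2 / 9 * rs0 k P) :
    (1 - 6 * κ) * (rs0 k P * (H.card.choose k : ℕ)) * ∑ j ∈ Finset.range N, V (x + j) ^ 2
        ≤ ∑ j ∈ Finset.range N, V (x + j) ^ 2 *
          ((((Hs d b P H (x + j)).card.choose k : ℕ) : ℝ)) ∧
    ∑ j ∈ Finset.range N, V (x + j) ^ 2 *
          ((((Hs d b P H (x + j)).card.choose k : ℕ) : ℝ))
      ≤ (1 + 10 * κ) * (rs0 k P * (H.card.choose k : ℕ)) *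
        ∑ j ∈ Finset.range N, V (x + j) ^ 2 := by
  classical
  have hRD1 : 1 ≤ R * D := Nat.mul_pos hR hD
  have hQ : 1 ≤ Q := by rw [hQe]; exact hRD1
  have hRD : R * D ≤ Q := hQe.symm.le
  have hPQ : P ⊆ Count.PP Q := hC.sub
  have hpp : ∀ p ∈ P, p.Prime := fun p hp => (Finset.mem_filter.1 (hPQ hp)).2
  have hT' : ∀ T ⊆ P, ∀ p ∈ T, p.Prime ∧ 2 * k ≤ p := fun T hT p hp => ⟨hpp p (hT hp), hkp p (hT hp)⟩
  set ρ := rs0 k P with hρ
  have hρ0 : 0 < ρ := rs0_pos (hT' P (Finset.Subset.refl P))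
  have hρS : ∀ j, ρ ≤ rs0 k (S j) := fun j => rs0_mono (hC.subP j) (hT' P (Finset.Subset.refl P))
  set X : ℝ := N * ρ with hX
  have hN0 : (0 : ℝ) ≤ N := Nat.cast_nonneg N
  have hX0 : 0 ≤ X := mul_nonneg hN0 hρ0.le
  have hErr0 : 0 ≤ Err R D e := mul_nonneg (Er_nonneg hRD1) (by positivity)
  have hErR0 : 0 ≤ Er R := Er_nonneg hR
  have hGa0 : 0 < Ga k z₀ L := Real.exp_pos _
  have hDf0 : 0 < Df k Y z₀ := Real.exp_pos _
  have hη1 : 0 ≤ 1 + η := by linarith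
  have hRQ : R ≤ Q := (Nat.le_mul_of_pos_right R hD).trans hRD
  -- the vector
  set v : (∀ i, Om Q i) → ℝ := fun y => V (rep Q y) with hv
  have hvl : LevG (om Q) (Dp Q) (Real.log R) v := levG_of_level hR hRQ hV
  have hvL : LevG (om Q) (Dp Q) L v := fun τ hτ => hvl τ (lt_of_le_of_lt hRL hτ)
  have hdv : ∀ q ∈ Finset.Icc 1 R, q ∣ MM Q := fun q hq => dvd_MM (by
    rw [Finset.mem_Icc] at hq ⊢
    exact ⟨hq.1, hq.2.trans hRQ⟩)
  have hvpt : ∀ n : ℤ, v (pt Q n) = V n := fun n =>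
    per_mul (Transfer.level_periodic hdv hV) (dvd_of_pt_eq (pt_rep (pt Q n)))
  set tt := ip v v with htt
  have htt0 : 0 ≤ tt := ip_self_nonneg v
  have hZ' : |(MM Q : ℝ) * ∑ j ∈ Finset.range N, V (x + j) ^ 2 - N * tt| ≤ Er R * tt := by
    have h := LS.large_sieve (MM_pos Q) hR hdv hV x N
    have e1 : ip v v = ∑ n ∈ Finset.range (MM Q), V n ^ 2 := by
      rw [ip, sum_rep]
      exact Finset.sum_congr rfl fun n _ => by rw [hvpt]; ring
    rw [htt, e1]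
    exact h
  -- the colours
  set κc := Col H k with hκc
  set K : κc → KC Q := fun c => Kt Q d b P (c : Finset ℤ) with hK
  have hcc : ∀ c : κc, (c : Finset ℤ).card = k := fun c => (Finset.mem_powersetCard.1 c.2).2
  have hcH : ∀ c : κc, (c : Finset ℤ) ⊆ H := fun c => (Finset.mem_powersetCard.1 c.2).1
  have hOK : ∀ c, OK (K c) := by
    intro c i
    by_cases hi : (i : ℕ) ∈ P
    · have h1 := card_Kt d b P (c : Finset ℤ) i
      rw [hcc c] at h1
      have h2 := hkp _ hi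
      have h3 : (K c i).card ≤ k := h1
      omega
    · have : K c i = ∅ := by
        show Kt Q d b P (c : Finset ℤ) i = ∅
        rw [Kt, if_neg hi]
      rw [this]
      simpa using (ip_prime i).pos
  have hSm : ∀ c, Small (K c) P k := by
    intro c i hi
    have h1 := card_Kt d b P (c : Finset ℤ) i
    rw [hcc c] at h1
    have h2 := hkp _ hi
    have h3 : (K c i).card ≤ k := h1
    exact ⟨by omega, by exact_mod_cast h3⟩
  have hcY : ∀ c : κc, (c : Finset ℤ) ⊆ Finset.Ioc (0 : ℤ) (0 + (Y : ℤ)) := fun c => (hcH c).trans hHY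
  have hk0 : (0 : ℝ) ≤ k := Nat.cast_nonneg k
  have hlz : 0 < Real.log z₀ := Real.log_pos hz
  have hGa'' : Ga k z₀ (Real.log R) ≤ Ga k z₀ L := by
    refine Real.exp_le_exp.2 (mul_le_mul_of_nonneg_left ?_ (by positivity))
    exact div_le_div_of_nonneg_right hRL (by positivity)
  have hfac : (1 + η) * (Ga k z₀ L * Df k Y z₀) ≤ 1 + 4 * κ := by
    have h1 : Ga k z₀ L * Df k Y z₀ ≤ (1 + κ) * (1 + κ) := mul_le_mul hGa hDf hDf0.le (by linarith)
    have h2 : (1 + η) * (Ga k z₀ L * Df k Y z₀) ≤ (1 + κ) * ((1 + κ) * (1 + κ)) :=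
      mul_le_mul (by linarith) h1 (mul_pos hGa0 hDf0).le (by linarith)
    refine h2.trans ?_
    have : 1 + 4 * κ - (1 + κ) * ((1 + κ) * (1 + κ)) = κ * (1 - 3 * κ - κ ^ 2) := by ring
    have h3 : 0 ≤ κ * (1 - 3 * κ - κ ^ 2) := mul_nonneg hκ0.le (by nlinarith)
    linarith
  have rlo : ∀ c : κc, ρ ≤ U7.rho (K c) P := fun c => rho_ge hPQ (Finset.Subset.refl P) hkp (hcc c)
  have rup : ∀ (c : κc) (T : Finset ℕ), T ⊆ P → U7.rho (K c) T ≤ Df k Y z₀ * rs0 k T := fun c T hT =>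
    rho_le' hPQ hT hPd hkp hz hzp (hcc c) (hcY c)
  have rpos : ∀ (c : κc) (T : Finset ℕ), T ⊆ P → 0 < U7.rho (K c) T := fun c T hT =>
    rho_pos hk0 (fun i hi => hSm c i (hT hi))
  have gen : ∀ (c : κc) (T : Finset ℕ), T ⊆ P →
      N * ((1 + η) * (Ga k z₀ (Real.log R) * U7.rho (K c) T)) + Err R D e
        ≤ (1 + 4 * κ) * (N * rs0 k T) + κ * X := by
    intro c T hT
    have hrT : 0 < rs0 k T := rs0_pos (hT' T hT)
    have h1 : Ga k z₀ (Real.log R) * U7.rho (K c) T ≤ Ga k z₀ L * (Df k Y z₀ * rs0 k T) :=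
      mul_le_mul hGa'' (rup c T hT) (rpos c T hT).le hGa0.le
    have h2 := mul_le_mul_of_nonneg_left h1 hη1
    have h3 : (1 + η) * (Ga k z₀ L * (Df k Y z₀ * rs0 k T)) ≤ (1 + 4 * κ) * rs0 k T := by
      calc (1 + η) * (Ga k z₀ L * (Df k Y z₀ * rs0 k T)) = (1 + η) * (Ga k z₀ L * Df k Y z₀) * rs0 k T := by ring
        _ ≤ _ := mul_le_mul_of_nonneg_right hfac hrT.le
    have h4 := mul_le_mul_of_nonneg_left (h2.trans h3) hN0
    have h5 : Err R D e ≤ κ * X := hErr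
    linarith
  have col : ∀ c : κc, _ := fun c => colourJ hQ (hOK c) hR hD hRD hC hk0 hη (by linarith : η ≤ 1) hsv (hSm c) hz hzp hvl
    x N (l := (1 - 2 * κ) * X) (u := (1 + 5 * κ) * X) (g := fun j => 3 * (N * rs0 k (S (j + 1)))) (lam := lam)
    hκ0 (by linarith : κ ≤ 1) (mul_nonneg (by linarith) hX0)
    (fun j hj => by have := hlam j hj; linarith) hlams
    (by
      have h1 := mul_le_mul_of_nonneg_left (rlo c) (by linarith : (0 : ℝ) ≤ 1 - η)
      have h3 := mul_le_mul_of_nonneg_left h1 hN0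
      have h5 : Err R D e ≤ κ * X := hErr
      have h6 : N * ((1 - η) * ρ) = (1 - η) * X := by rw [hX]; ring
      have h7 : (1 - κ) * X ≤ (1 - η) * X := mul_le_mul_of_nonneg_right (by linarith) hX0
      linarith)
    (by
      have := gen c P (Finset.Subset.refl P)
      have h6 : (1 + 4 * κ) * (N * rs0 k P) = (1 + 4 * κ) * X := by rw [hX]
      linarith)
    (fun j _ => by
      have h1 := gen c _ (hC.subP (j + 1))
      have h2 : X ≤ N * rs0 k (S (j + 1)) := mul_le_mul_of_nonneg_left (hρS (j + 1)) hN0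
      have h3 : 0 ≤ N * rs0 k (S (j + 1)) := hX0.trans h2
      have h4 : κ * X ≤ κ * (N * rs0 k (S (j + 1))) := mul_le_mul_of_nonneg_left h2 hκ0.le
      show _ ≤ 3 * (N * rs0 k (S (j + 1)))
      nlinarith)
    (fun j _ => by
      have h2 : X ≤ N * rs0 k (S (j + 1)) := mul_le_mul_of_nonneg_left (hρS (j + 1)) hN0
      show 0 ≤ 3 * (N * rs0 k (S (j + 1)))
      linarith) (mul_nonneg (by linarith) hX0)
  -- the oscillations
  obtain ⟨k', rfl⟩ : ∃ k', k = k' + 1 := ⟨k - 1, by omega⟩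
  set C : ℝ := ((H.card.choose (k' + 1) : ℕ) : ℝ) with hCd
  set C' : ℝ := (((H.card - 1).choose k' : ℕ) : ℝ) with hC'
  have hC0 : 0 ≤ C := Nat.cast_nonneg _
  have hC'0 : 0 ≤ C' := Nat.cast_nonneg _
  have hrel : ((k' : ℝ) + 1) * C = H.card * C' := choose_rel H.card k' hH1
  have osc : ∀ j ∈ Finset.range J, ∑ c, Eo (K c) (S j \ S (j + 1)) v ≤ ε j * C * tt := by
    intro j hj
    have hTP : S j \ S (j + 1) ⊆ P := Finset.sdiff_subset.trans (hC.subP j)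
    have h := sumE hQ K hOK (S j \ S (j + 1)) (fun p => t p * C') (a := ε j * C / L) (L := L)
      (div_nonneg (mul_nonneg (hε0 j hj) hC0) hL.le) ?_ ?_ ?_ hvL
    · have e1 : ε j * C / L * L = ε j * C := by field_simp
      rw [e1] at h
      exact h
    · intro i hi r
      exact mult (Q := Q) (b := b) hPd H k' (hTP hi) (t i) (ht i (hTP hi)) r
    · intro c i hi
      exact (hSm c i (hTP hi)).1
    · intro i hi
      rw [div_mul_eq_mul_div, le_div_iff₀ hL]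
      have h1 := hε j hj i hi
      have h2 := mul_le_mul_of_nonneg_right h1 hC'0
      have hk1 : (0 : ℝ) < (k' : ℝ) + 1 := by positivity
      have h3 : ((k' : ℝ) + 1) * (2 * (t i * C') * L) ≤ ((k' : ℝ) + 1) * (ε j * C * Real.log (i : ℕ)) := by
        calc ((k' : ℝ) + 1) * (2 * (t i * C') * L) = 2 * ((k' + 1 : ℕ) : ℝ) * t i * L * C' := by push_cast; ring
          _ ≤ ε j * (H.card * Real.log (i : ℕ)) * C' := h2
          _ = ε j * Real.log (i : ℕ) * (H.card * C') := by ring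
          _ = ε j * Real.log (i : ℕ) * (((k' : ℝ) + 1) * C) := by rw [hrel]
          _ = _ := by ring
      exact le_of_mul_le_mul_left h3 hk1
  have hcard : (Fintype.card κc : ℝ) = C := by rw [hCd, ← card_Col H (k' + 1)]
  set EE : ℕ → ℝ := fun j => ∑ c, Eo (K c) (S j \ S (j + 1)) v with hEE
  set s := ∑ j ∈ Finset.range J, ε j with hs
  set G := ∑ j ∈ Finset.range J, lam j * (3 * (N * rs0 (k' + 1) (S (j + 1))) * ε j) with hG
  have hGle : G ≤ κ ^ 2 * X / 3 := by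
    have h1 : G = 3 * N * ∑ j ∈ Finset.range J, lam j * (rs0 (k' + 1) (S (j + 1)) * ε j) := by
      rw [hG, Finset.mul_sum]
      exact Finset.sum_congr rfl fun j _ => by ring
    rw [h1]
    have h2 := mul_le_mul_of_nonneg_left hsum (by positivity : (0 : ℝ) ≤ 3 * N)
    refine h2.trans (le_of_eq ?_)
    rw [hX]; ring
  have hs1 : s ≤ κ := by
    have h1 : s * ρ ≤ ∑ j ∈ Finset.range J, lam j * (rs0 (k' + 1) (S (j + 1)) * ε j) := by
      rw [hs, Finset.sum_mul]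
      refine Finset.sum_le_sum fun j hj => ?_
      have h2 := hε0 j hj
      have h3 : ε j * ρ ≤ rs0 (k' + 1) (S (j + 1)) * ε j := by
        have := mul_le_mul_of_nonneg_left (hρS (j + 1)) h2
        linarith
      have h4 : 0 ≤ rs0 (k' + 1) (S (j + 1)) * ε j := mul_nonneg (hρ0.le.trans (hρS (j + 1))) h2
      have h5 := mul_le_mul_of_nonneg_right (hlam j hj) h4
      linarith
    have h2 := h1.trans hsum
    have h3 : s ≤ κ ^ 2 / 9 := le_of_mul_le_mul_right h2 hρ0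
    nlinarith
  have a1 := alg_low hκ0 hX0 (s := s) (g := G / 3) hs1 (by linarith [mul_nonneg (sq_nonneg κ) hX0]) hκ1
  have a2 := alg_up hκ0 hX0 (g := G / 3) (by linarith [mul_nonneg (sq_nonneg κ) hX0]) hκ1
  -- the sum over the colours
  have hsumc : (MM Q : ℝ) * ∑ j ∈ Finset.range N, V (x + j) ^ 2 *
          ((((Hs d b P H (x + j)).card.choose (k' + 1) : ℕ) : ℝ))
      = ∑ c, (MM Q : ℝ) * ∑ j ∈ Finset.range N, sv (K c) P (pt Q (x + j)) * v (pt Q (x + j)) ^ 2 := by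
    rw [← Finset.mul_sum, Finset.sum_comm]
    congr 1
    refine Finset.sum_congr rfl fun j _ => ?_
    rw [← Finset.sum_mul, hvpt, ← sum_sv hQ hPQ hPd H (k' + 1) (x + j)]
    ring
  set Sg := ∑ j ∈ Finset.range N, V (x + j) ^ 2 *
          ((((Hs d b P H (x + j)).card.choose (k' + 1) : ℕ) : ℝ)) with hSg
  have hE1 : ∑ c : κc, ∑ j ∈ Finset.range J, Eo (K c) (S j \ S (j + 1)) v ≤ s * (C * tt) := by
    rw [Finset.sum_comm, hs, Finset.sum_mul]
    refine Finset.sum_le_sum fun j hj => ?_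
    have := osc j hj
    linarith
  have hE2 : ∑ c : κc, ∑ j ∈ Finset.range J, lam j * (3 * (N * rs0 (k' + 1) (S (j + 1))) * Eo (K c) (S j \ S (j + 1)) v)
      ≤ G * (C * tt) := by
    rw [Finset.sum_comm, hG, Finset.sum_mul]
    refine Finset.sum_le_sum fun j hj => ?_
    rw [← Finset.mul_sum, ← Finset.mul_sum]
    have h1 := osc j hj
    have h2 : 0 ≤ 3 * (N * rs0 (k' + 1) (S (j + 1))) := by
      have h2 : X ≤ N * rs0 (k' + 1) (S (j + 1)) := mul_le_mul_of_nonneg_left (hρS (j + 1)) hN0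
      linarith
    have h3 : 0 ≤ lam j := by linarith [hlam j hj]
    calc lam j * (3 * (N * rs0 (k' + 1) (S (j + 1))) * ∑ c, Eo (K c) (S j \ S (j + 1)) v)
        ≤ lam j * (3 * (N * rs0 (k' + 1) (S (j + 1))) * (ε j * C * tt)) :=
          mul_le_mul_of_nonneg_left (mul_le_mul_of_nonneg_left h1 h2) h3
      _ = _ := by ring
  have hCt : 0 ≤ C * tt := mul_nonneg hC0 htt0
  have b1 : (1 - 5 * κ) * X * (C * tt) ≤ MM Q * Sg := by
    rw [hsumc]
    refine le_trans ?_ (Finset.sum_le_sum fun c (_ : c ∈ (Finset.univ : Finset κc)) => (col c).1)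
    have e1 : ∑ c : κc, ((1 - κ) * ((1 - 2 * κ) * X * (tt - ∑ j ∈ Finset.range J, Eo (K c) (S j \ S (j + 1)) v))
        - 1 / κ * ∑ j ∈ Finset.range J, lam j * (3 * (N * rs0 (k' + 1) (S (j + 1))) * Eo (K c) (S j \ S (j + 1)) v))
        = (1 - κ) * ((1 - 2 * κ) * X * (C * tt - ∑ c : κc, ∑ j ∈ Finset.range J, Eo (K c) (S j \ S (j + 1)) v))
          - 1 / κ * ∑ c : κc, ∑ j ∈ Finset.range J,
            lam j * (3 * (N * rs0 (k' + 1) (S (j + 1))) * Eo (K c) (S j \ S (j + 1)) v) := by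
      rw [← hcard]
      simp only [Finset.sum_sub_distrib, ← Finset.mul_sum, Finset.sum_const,
        Finset.card_univ, nsmul_eq_mul]
    refine le_trans ?_ (le_of_eq e1.symm)
    have h1 := mul_le_mul_of_nonneg_right a1 hCt
    have h2 : (1 - κ) * ((1 - 2 * κ) * X * (C * tt - s * (C * tt)))
        ≤ (1 - κ) * ((1 - 2 * κ) * X * (C * tt - ∑ c : κc, ∑ j ∈ Finset.range J, Eo (K c) (S j \ S (j + 1)) v)) := by
      refine mul_le_mul_of_nonneg_left ?_ (by linarith)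
      refine mul_le_mul_of_nonneg_left (by linarith) ?_
      exact mul_nonneg (by linarith) hX0
    have h3 : 1 / κ * ∑ c : κc, ∑ j ∈ Finset.range J,
            lam j * (3 * (N * rs0 (k' + 1) (S (j + 1))) * Eo (K c) (S j \ S (j + 1)) v)
          ≤ 1 / κ * (G * (C * tt)) := mul_le_mul_of_nonneg_left hE2 (by positivity)
    have h4 : ((1 - κ) * ((1 - 2 * κ) * X * (1 - s)) - 3 / κ * (G / 3)) * (C * tt)
        = (1 - κ) * ((1 - 2 * κ) * X * (C * tt - s * (C * tt))) - 1 / κ * (G * (C * tt)) := by ring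
    linarith
  have b2 : MM Q * Sg ≤ (1 + 8 * κ) * X * (C * tt) := by
    rw [hsumc]
    refine le_trans (Finset.sum_le_sum fun c (_ : c ∈ (Finset.univ : Finset κc)) => (col c).2) ?_
    have e1 : ∑ c : κc, ((1 + κ) * ((1 + 5 * κ) * X * tt)
        + (1 + 1 / κ) * ∑ j ∈ Finset.range J, lam j * (3 * (N * rs0 (k' + 1) (S (j + 1))) * Eo (K c) (S j \ S (j + 1)) v))
        = (1 + κ) * ((1 + 5 * κ) * X * (C * tt))
          + (1 + 1 / κ) * ∑ c : κc, ∑ j ∈ Finset.range J,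
            lam j * (3 * (N * rs0 (k' + 1) (S (j + 1))) * Eo (K c) (S j \ S (j + 1)) v) := by
      rw [← hcard]
      simp only [Finset.sum_add_distrib, ← Finset.mul_sum, Finset.sum_const,
        Finset.card_univ, nsmul_eq_mul]
    refine (le_of_eq e1).trans ?_
    have h1 := mul_le_mul_of_nonneg_right a2 hCt
    have h3 : (1 + 1 / κ) * ∑ c : κc, ∑ j ∈ Finset.range J,
            lam j * (3 * (N * rs0 (k' + 1) (S (j + 1))) * Eo (K c) (S j \ S (j + 1)) v)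
          ≤ (1 + 1 / κ) * (G * (C * tt)) := mul_le_mul_of_nonneg_left hE2 (by positivity)
    have h4 : ((1 + κ) * ((1 + 5 * κ) * X) + 3 * (1 + 1 / κ) * (G / 3)) * (C * tt)
        = (1 + κ) * ((1 + 5 * κ) * X * (C * tt)) + (1 + 1 / κ) * (G * (C * tt)) := by ring
    linarith
  -- conclusion
  set Z := ∑ j ∈ Finset.range N, V (x + j) ^ 2 with hZd
  have hZ0 : 0 ≤ Z := Finset.sum_nonneg fun _ _ => sq_nonneg _
  have hM0 : (0 : ℝ) < MM Q := by exact_mod_cast MM_pos Q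
  have z1 := (abs_le.1 hZ').1
  have z2 := (abs_le.1 hZ').2
  have hEt : Er R * tt ≤ κ * N * tt := mul_le_mul_of_nonneg_right hErR htt0
  have hρC : 0 ≤ ρ * C := mul_nonneg hρ0.le hC0
  have hNt : 0 ≤ N * tt := mul_nonneg hN0 htt0
  have z3 : MM Q * Z ≤ (1 + κ) * (N * tt) := by linarith
  have z4 : (1 - κ) * (N * tt) ≤ MM Q * Z := by linarith
  constructor
  · have h1 : (1 - 6 * κ) * (MM Q * Z) ≤ (1 - 5 * κ) * (N * tt) := by
      have h2 := mul_le_mul_of_nonneg_left z3 (by linarith : (0 : ℝ) ≤ 1 - 6 * κ)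
      have h3 : (1 - 6 * κ) * ((1 + κ) * (N * tt)) ≤ (1 - 5 * κ) * (N * tt) := by
        have : (1 - 5 * κ) * (N * tt) - (1 - 6 * κ) * ((1 + κ) * (N * tt)) = 6 * κ ^ 2 * (N * tt) := by ring
        have : 0 ≤ 6 * κ ^ 2 * (N * tt) := by positivity
        linarith
      linarith
    have h4 := mul_le_mul_of_nonneg_left h1 hρC
    have h5 : MM Q * ((1 - 6 * κ) * (ρ * C) * Z) ≤ MM Q * Sg := by
      calc MM Q * ((1 - 6 * κ) * (ρ * C) * Z) = ρ * C * ((1 - 6 * κ) * (MM Q * Z)) := by ring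
        _ ≤ ρ * C * ((1 - 5 * κ) * (N * tt)) := h4
        _ = (1 - 5 * κ) * X * (C * tt) := by rw [hX]; ring
        _ ≤ _ := b1
    exact le_of_mul_le_mul_left h5 hM0
  · have h1 : (1 + 8 * κ) * (N * tt) ≤ (1 + 10 * κ) * (MM Q * Z) := by
      have h2 := mul_le_mul_of_nonneg_left z4 (by linarith : (0 : ℝ) ≤ 1 + 10 * κ)
      have h3 : (1 + 8 * κ) * (N * tt) ≤ (1 + 10 * κ) * ((1 - κ) * (N * tt)) := by
        have : (1 + 10 * κ) * ((1 - κ) * (N * tt)) - (1 + 8 * κ) * (N * tt) = κ * (1 - 10 * κ) * (N * tt) := by ring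
        have : 0 ≤ κ * (1 - 10 * κ) * (N * tt) := mul_nonneg (mul_nonneg hκ0.le (by linarith)) hNt
        linarith
      linarith
    have h4 := mul_le_mul_of_nonneg_left h1 hρC
    have h5 : MM Q * Sg ≤ MM Q * ((1 + 10 * κ) * (ρ * C) * Z) := by
      calc MM Q * Sg ≤ (1 + 8 * κ) * X * (C * tt) := b2
        _ = ρ * C * ((1 + 8 * κ) * (N * tt)) := by rw [hX]; ring
        _ ≤ ρ * C * ((1 + 10 * κ) * (MM Q * Z)) := h4
        _ = _ := by ring
    exact le_of_mul_le_mul_left h5 hM0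

end Run7.h52.X2
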