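import Pool.Agent.Run7.h52.X2

set_option autoImplicit false
set_option linter.unusedSectionVars false

namespace Run7.h52.X3

open Finset Run7.h52.Count Run7.h52.Rough Run7.h52.Asym Run7.h52.AsmV Run7.h52.U7 Run7.h52.U8 Run7.h52.U9
  Run7.h52.U10 Run7.h52.U11 Run7.h52.U12 Run7.h52.U13 Run7.h52.U14 Run7.h52.U15 Run7.h52.X1

/-- the chain: the primes of `P` above `z₀ ^ (2 ^ j)` -/
def Sj (z₀ : ℕ) (P : Finset ℕ) (j : ℕ) : Finset ℕ := P.filter fun p => z₀ ^ 2 ^ j < p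

lemma mem_Sj {z₀ : ℕ} {P : Finset ℕ} {j p : ℕ} : p ∈ Sj z₀ P j ↔ p ∈ P ∧ z₀ ^ 2 ^ j < p := by
  rw [Sj, Finset.mem_filter]

/-- the length of the chain -/
lemma exists_J {z₀ z : ℕ} (hz0 : 2 ≤ z₀) : ∃ J : ℕ, z ≤ z₀ ^ 2 ^ J ∧
    ∀ j, j < J → z₀ ^ 2 ^ j < z := by
  classical
  have h : ∃ J : ℕ, z ≤ z₀ ^ 2 ^ J := by
    refine ⟨z, ?_⟩
    have h1 : z < 2 ^ z := Nat.lt_two_pow_self
    have h2 : z < 2 ^ 2 ^ z := h1.trans (Nat.lt_two_pow_self (n := 2 ^ z))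
    exact h2.le.trans (Nat.pow_le_pow_left hz0 _)
  refine ⟨Nat.find h, Nat.find_spec h, fun j hj => ?_⟩
  have := Nat.find_min h hj
  omega

lemma chain {Q z₀ z D J : ℕ} (hz0 : 2 ≤ z₀) (hzQ : z ≤ Q) (hJ : z ≤ z₀ ^ 2 ^ J) :
    Ch Q (Ps z₀ z D) (Sj z₀ (Ps z₀ z D)) J := by
  refine ⟨fun p hp => ?_, ?_, ?_, fun j p hp => ?_⟩
  · have := (mem_Ps.1 hp).1
    exact mem_PP.2 ⟨this.1, this.2.2.trans hzQ⟩
  · ext p
    rw [mem_Sj]
    constructor
    · exact fun h => h.1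
    · intro h
      refine ⟨h, ?_⟩
      have := (mem_Ps.1 h).1.2.1
      simpa using this
  · ext p
    rw [mem_Sj]
    constructor
    · rintro ⟨h1, h2⟩
      have := (mem_Ps.1 h1).1.2.2
      omega
    · intro h; simp at h
  · rw [mem_Sj] at hp ⊢
    refine ⟨hp.1, lt_of_le_of_lt ?_ hp.2⟩
    exact Nat.pow_le_pow_right (by omega) (Nat.pow_le_pow_right (by norm_num) (by omega))

/-- the ratio of the products -/
lemma ratio {cw : ℝ} {k z₀ z D : ℕ} (hcw : 0 < cw) (hz0 : 3 ≤ z₀) (hzk : 2 * k ≤ z₀)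
    (hkz : 1 / 2 ≤ Real.exp (-((k : ℝ) ^ 2 / z₀)))
    (hW : ∀ z₀ z : ℕ, 3 ≤ z₀ → z₀ ≤ z → cw * (Real.log z₀ / Real.log z) ≤ Wr z₀ z) (j : ℕ) :
    rs0 k (Sj z₀ (Ps z₀ z D) (j + 1)) * ((cw / 2 ^ (j + 1)) ^ k / 2) ≤ rs0 k (Ps z₀ z D) := by
  classical
  set P := Ps z₀ z D with hP
  have hPp : ∀ p ∈ P, p.Prime ∧ 2 * k ≤ p := fun p hp => by
    have := (mem_Ps.1 hp).1
    exact ⟨this.1, by omega⟩
  have hsub : Sj z₀ P (j + 1) ⊆ P := Finset.filter_subset _ _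
  have e1 : P = Sj z₀ P (j + 1) ∪ (P \ Sj z₀ P (j + 1)) := (Finset.union_sdiff_of_subset hsub).symm
  have e2 : rs0 k P = rs0 k (Sj z₀ P (j + 1)) * rs0 k (P \ Sj z₀ P (j + 1)) := by
    conv_lhs => rw [e1]
    exact rs0_union Finset.disjoint_sdiff
  rw [e2]
  refine mul_le_mul_of_nonneg_left ?_ (rs0_pos fun p hp => hPp p (hsub hp)).le
  set z' := z₀ ^ 2 ^ (j + 1) with hz'
  have hzz' : z₀ ≤ z' := Nat.le_self_pow (by positivity) z₀
  have hT : P \ Sj z₀ P (j + 1) ⊆ Pf z₀ z' := by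
    intro p hp
    rw [Finset.mem_sdiff, mem_Sj] at hp
    have h1 := (mem_Ps.1 hp.1).1
    refine mem_Pf.2 ⟨h1.1, h1.2.1, ?_⟩
    by_contra hcon
    push Not at hcon
    exact hp.2 ⟨hp.1, hcon⟩
  have h1 := rs0_low (k := k) hT hzk (by omega) hzz'
  refine le_trans ?_ h1
  have h2 := hW z₀ z' hz0 hzz'
  have hz0r : (1 : ℝ) < z₀ := by exact_mod_cast (by omega : 1 < z₀)
  have hl0 : 0 < Real.log z₀ := Real.log_pos hz0r
  have h3 : Real.log (z' : ℕ) = 2 ^ (j + 1) * Real.log z₀ := by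
    rw [hz']
    push_cast
    rw [Real.log_pow]
    push_cast
    ring
  have h4 : cw * (Real.log z₀ / Real.log z') = cw / 2 ^ (j + 1) := by
    rw [h3]
    field_simp
  rw [h4] at h2
  have h5 : (cw / 2 ^ (j + 1)) ^ k ≤ (Wr z₀ z') ^ k := pow_le_pow_left₀ (by positivity) h2 k
  calc (cw / 2 ^ (j + 1)) ^ k / 2 = (cw / 2 ^ (j + 1)) ^ k * (1 / 2) := by ring
    _ ≤ (Wr z₀ z') ^ k * Real.exp (-((k : ℝ) ^ 2 / z₀)) :=
        mul_le_mul h5 hkz (by norm_num) (pow_nonneg (Wr_pos z₀ z').le k)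

/-- the weights of Cauchy's inequality -/
noncomputable def lm (q : ℝ) (j : ℕ) : ℝ := q ^ (j + 1) / (q - 1)

lemma lm_one {q : ℝ} (hq : 1 < q) (j : ℕ) : 1 ≤ lm q j := by
  unfold lm
  rw [le_div_iff₀ (by linarith), one_mul]
  have : q ≤ q ^ (j + 1) := le_self_pow₀ hq.le (by omega)
  linarith

lemma lm_sum {q : ℝ} (hq : 1 < q) (J : ℕ) : ∑ j ∈ Finset.range J, 1 / lm q j ≤ 1 := by
  have h : ∀ J : ℕ, ∑ j ∈ Finset.range J, 1 / lm q j = 1 - 1 / q ^ J := by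
    intro J
    induction J with
    | zero => simp
    | succ J ih =>
      rw [Finset.sum_range_succ, ih]
      unfold lm
      have h0 : q ≠ 0 := by linarith
      have h1 : q - 1 ≠ 0 := by linarith
      field_simp
      ring
  rw [h J]
  have : 0 ≤ 1 / q ^ J := by positivity
  linarith

/-- geometric sum -/
lemma geo {q : ℝ} (hq : 1 < q) (J : ℕ) : ∑ j ∈ Finset.range J, lm q j * 2 ^ j ≤ q / (q - 1) * (2 * q) ^ J := by
  induction J with
  | zero => simp; exact div_nonneg (by linarith) (by linarith)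
  | succ J ih =>
    rw [Finset.sum_range_succ]
    have h0 : 0 < q - 1 := by linarith
    have e : lm q J * 2 ^ J = q / (q - 1) * (2 * q) ^ J := by
      unfold lm
      rw [mul_pow, pow_succ]
      ring
    rw [e]
    have h1 : 0 ≤ q / (q - 1) * (2 * q) ^ J := by positivity
    have h2 : q / (q - 1) * (2 * q) ^ (J + 1) = (2 * q) * (q / (q - 1) * (2 * q) ^ J) := by rw [pow_succ]; ring
    rw [h2]
    nlinarith

/-- the precisions in the groups -/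
noncomputable def ep (E0 E1 E2 : ℝ) (j : ℕ) : ℝ := if j = 0 then E0 else if j = 1 then E1 else E2 / 2 ^ j

lemma ep_nonneg {E0 E1 E2 : ℝ} (h0 : 0 ≤ E0) (h1 : 0 ≤ E1) (h2 : 0 ≤ E2) (j : ℕ) : 0 ≤ ep E0 E1 E2 j := by
  unfold ep
  split_ifs
  · exact h0
  · exact h1
  · positivity

/-- the sum condition -/
lemma sumcond {q cw E0 E1 E2 B κ : ℝ} {J k : ℕ} (hq : 1 < q) (hcw : 0 < cw) (hcw1 : cw ≤ 1) (hk : k ≤ 2)
    (h0 : 0 ≤ E0) (h1 : 0 ≤ E1) (h2 : 0 ≤ E2) (hJ : (2 * q) ^ J ≤ B)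
    (hκ : 8 / cw ^ 2 * (lm q 0 * E0 + 4 * (lm q 1 * E1) + q / (q - 1) * B * E2) ≤ κ ^ 2 / 9)
    {ρ : ℝ} (hρ : 0 ≤ ρ) {r : ℕ → ℝ} (hr : ∀ j, r (j + 1) * ((cw / 2 ^ (j + 1)) ^ k / 2) ≤ ρ) :
    ∑ j ∈ Finset.range J, lm q j * (r (j + 1) * ep E0 E1 E2 j) ≤ κ ^ 2 / 9 * ρ := by
  have hr' : ∀ j, r (j + 1) ≤ 8 / cw ^ 2 * 4 ^ j * ρ := by
    intro j
    have hx0 : 0 < cw / 2 ^ (j + 1) := by positivity
    have hx1 : cw / 2 ^ (j + 1) ≤ 1 := by
      rw [div_le_one (by positivity)]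
      exact hcw1.trans (one_le_pow₀ (by norm_num))
    have h3 : (cw / 2 ^ (j + 1)) ^ 2 ≤ (cw / 2 ^ (j + 1)) ^ k := pow_le_pow_of_le_one hx0.le hx1 hk
    rcases le_or_gt (r (j + 1)) 0 with hneg | hpos
    · exact hneg.trans (by positivity)
    · have h4 : r (j + 1) * ((cw / 2 ^ (j + 1)) ^ 2 / 2) ≤ ρ :=
        le_trans (mul_le_mul_of_nonneg_left (by linarith) hpos.le) (hr j)
      have e : (cw / 2 ^ (j + 1)) ^ 2 / 2 = cw ^ 2 / (8 * 4 ^ j) := by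
        have e4 : ((2 : ℝ) ^ (j + 1)) ^ 2 = 4 * 4 ^ j := by
          rw [← pow_mul, mul_comm (j + 1) 2, pow_mul, pow_succ]
          norm_num
          ring
        rw [div_pow, e4, div_div]
        congr 1
        ring
      rw [e, mul_div_assoc', div_le_iff₀ (by positivity)] at h4
      have e2 : 8 / cw ^ 2 * 4 ^ j * ρ = ρ * (8 * 4 ^ j) / cw ^ 2 := by ring
      rw [e2, le_div_iff₀ (by positivity)]
      exact h4
  have hl : ∀ j, 0 ≤ lm q j := fun j => by linarith [lm_one hq j]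
  -- termwise
  have key : ∀ j, lm q j * (r (j + 1) * ep E0 E1 E2 j) ≤
      8 / cw ^ 2 * ρ * ((if j = 0 then lm q 0 * E0 else 0) + (if j = 1 then 4 * (lm q 1 * E1) else 0)
        + lm q j * 2 ^ j * E2) := by
    intro j
    have h5 : lm q j * (r (j + 1) * ep E0 E1 E2 j) ≤ lm q j * (8 / cw ^ 2 * 4 ^ j * ρ * ep E0 E1 E2 j) :=
      mul_le_mul_of_nonneg_left (mul_le_mul_of_nonneg_right (hr' j) (ep_nonneg h0 h1 h2 j)) (hl j)
    refine h5.trans ?_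
    have hnn : 0 ≤ 8 / cw ^ 2 * ρ := by positivity
    have e : lm q j * (8 / cw ^ 2 * 4 ^ j * ρ * ep E0 E1 E2 j)
        = 8 / cw ^ 2 * ρ * (lm q j * (4 ^ j * ep E0 E1 E2 j)) := by ring
    rw [e]
    refine mul_le_mul_of_nonneg_left ?_ hnn
    have hlast : 0 ≤ lm q j * 2 ^ j * E2 := mul_nonneg (mul_nonneg (hl j) (by positivity)) h2
    unfold ep
    by_cases c0 : j = 0
    · subst c0
      simp only [if_true, pow_zero, one_mul, mul_one]
      rw [if_neg (by norm_num)]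
      have := mul_nonneg (hl 0) h2
      linarith
    · by_cases c1 : j = 1
      · subst c1
        simp only [if_true, pow_one, if_neg one_ne_zero]
        have : 0 ≤ lm q 1 * 2 * E2 := mul_nonneg (mul_nonneg (hl 1) (by norm_num)) h2
        linarith
      · rw [if_neg c0, if_neg c1, if_neg c0, if_neg c1]
        have e3 : lm q j * (4 ^ j * (E2 / 2 ^ j)) = lm q j * 2 ^ j * E2 := by
          rw [show (4 : ℝ) = 2 * 2 by norm_num, mul_pow]
          field_simp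
        rw [e3]
        linarith
  refine (Finset.sum_le_sum fun j _ => key j).trans ?_
  rw [← Finset.mul_sum, Finset.sum_add_distrib, Finset.sum_add_distrib]
  have s0 : ∑ j ∈ Finset.range J, (if j = 0 then lm q 0 * E0 else 0) ≤ lm q 0 * E0 := by
    rw [Finset.sum_ite_eq']
    split_ifs
    · exact le_rfl
    · exact mul_nonneg (hl 0) h0
  have s1 : ∑ j ∈ Finset.range J, (if j = 1 then 4 * (lm q 1 * E1) else 0) ≤ 4 * (lm q 1 * E1) := by
    rw [Finset.sum_ite_eq']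
    split_ifs
    · exact le_rfl
    · exact mul_nonneg (by norm_num) (mul_nonneg (hl 1) h1)
  have s2 : ∑ j ∈ Finset.range J, lm q j * 2 ^ j * E2 ≤ q / (q - 1) * B * E2 := by
    rw [← Finset.sum_mul]
    refine mul_le_mul_of_nonneg_right ((geo hq J).trans ?_) h2
    exact mul_le_mul_of_nonneg_left hJ (div_nonneg (by linarith) (by linarith))
  have hnn : 0 ≤ 8 / cw ^ 2 * ρ := by positivity
  calc 8 / cw ^ 2 * ρ * ((∑ j ∈ Finset.range J, (if j = 0 then lm q 0 * E0 else 0)) +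
        (∑ j ∈ Finset.range J, (if j = 1 then 4 * (lm q 1 * E1) else 0)) +
        ∑ j ∈ Finset.range J, lm q j * 2 ^ j * E2)
      ≤ 8 / cw ^ 2 * ρ * (lm q 0 * E0 + 4 * (lm q 1 * E1) + q / (q - 1) * B * E2) :=
        mul_le_mul_of_nonneg_left (by linarith) hnn
    _ = (8 / cw ^ 2 * (lm q 0 * E0 + 4 * (lm q 1 * E1) + q / (q - 1) * B * E2)) * ρ := by ring
    _ ≤ _ := mul_le_mul_of_nonneg_right hκ hρ

/-- the size of `J` -/
lemma J_bound {z₀ z J : ℕ} {q δ l : ℝ} (hδ : 0 < δ) (hq : q = 2 ^ (δ / 2)) (hz0 : 3 ≤ z₀)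
    (hlz0 : 1 ≤ Real.log z₀) (hzl : Real.log z ≤ l) (hl : 1 ≤ l) (hJ : ∀ j, j < J → z₀ ^ 2 ^ j < z) :
    (2 * q) ^ J ≤ (2 * l) ^ (1 + δ / 2) := by
  have e : (2 * q) ^ J = ((2 : ℝ) ^ J) ^ (1 + δ / 2) := by
    have h1 : (2 : ℝ) * q = 2 ^ (1 + δ / 2) := by
      rw [Real.rpow_add (by norm_num), Real.rpow_one, hq]
    rw [h1, ← Real.rpow_natCast, ← Real.rpow_mul (by norm_num), ← Real.rpow_natCast 2 J,
      ← Real.rpow_mul (by norm_num), mul_comm]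
  rw [e]
  refine Real.rpow_le_rpow (by positivity) ?_ (by linarith)
  rcases Nat.eq_zero_or_pos J with h | h
  · subst h; simp; linarith
  · have h1 := hJ (J - 1) (by omega)
    have hz0r : (1 : ℝ) < z₀ := by exact_mod_cast (by omega : 1 < z₀)
    have h2 : (((z₀ ^ 2 ^ (J - 1) : ℕ)) : ℝ) ≤ z := by exact_mod_cast h1.le
    have h3 := Real.log_le_log (by positivity) h2
    push_cast at h3
    rw [Real.log_pow] at h3
    push_cast at h3
    have h4 : (2 : ℝ) ^ (J - 1) * 1 ≤ 2 ^ (J - 1) * Real.log z₀ := mul_le_mul_of_nonneg_left hlz0 (by positivity)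
    have h5 : (2 : ℝ) ^ J = 2 * 2 ^ (J - 1) := by
      rw [← pow_succ']
      congr 1; omega
    rw [h5]
    linarith

end Run7.h52.X3
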