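import Pool.Agent.Run7.h52.X3

set_option autoImplicit false
set_option linter.unusedSectionVars false

namespace Run7.h52.X4

open Finset Run7.h52.Count Run7.h52.Rough Run7.h52.Asym Run7.h52.AsmV Run7.h52.U7 Run7.h52.U8 Run7.h52.U9
  Run7.h52.U10 Run7.h52.U11 Run7.h52.U12 Run7.h52.U13 Run7.h52.U14 Run7.h52.U15 Run7.h52.X1 Run7.h52.X3

/-- bound for the multiples -/
noncomputable def tx (Cr l δ : ℝ) (z₀ Y p : ℕ) : ℝ :=
  if (p : ℝ) ≤ l ^ (1 + δ / 2) then Cr * (2 * Y / (p * Real.log z₀)) else Y / p + 1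

lemma tx_ok {Cr l δ : ℝ} {z₀ Y : ℕ} (hl : 4 ≤ l) (hδ : 0 < δ) (hCr : 0 < Cr) (hz3 : 3 ≤ z₀) (hzl : (z₀ : ℝ) ≤ l)
    (hC : ∀ z p Y : ℕ, 2 ≤ z → z < p → p.Prime → z ≤ Y / p + 1 → ∀ b n : ℤ,
      ∀ S : Finset ℤ, S ⊆ Finset.Ioc (0 : ℤ) (0 + (Y : ℤ)) → (∀ h ∈ S, (p : ℤ) ∣ n + h) →
      (∀ h ∈ S, ∀ q ∈ PP z, ¬ (q : ℤ) ∣ b + h) →
      (S.card : ℝ) ≤ Cr * (((Y / p + 1 : ℕ) : ℝ) / Real.log z))
    (hY : l ^ (2 + δ) ≤ Y) {p : ℕ} (hpp : p.Prime) (hzp : z₀ < p) (b n : ℤ)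
    (S : Finset ℤ) (hS : S ⊆ Finset.Ioc (0 : ℤ) (0 + (Y : ℤ))) (h1 : ∀ h ∈ S, (p : ℤ) ∣ n + h)
    (h2 : ∀ h ∈ S, ∀ q ∈ PP z₀, ¬ (q : ℤ) ∣ b + h) :
    (S.card : ℝ) ≤ tx Cr l δ z₀ Y p := by
  have hl0 : 0 < l := by linarith
  have hl1 : 1 ≤ l := by linarith
  have hp0 : (0 : ℝ) < p := by exact_mod_cast hpp.pos
  have hlz0 : 0 < Real.log z₀ := Real.log_pos (by exact_mod_cast (by omega : 1 < z₀))
  unfold tx
  split_ifs with hpl
  · have h3 : (l : ℝ) * p ≤ Y := by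
      calc l * p ≤ l * l ^ (1 + δ / 2) := mul_le_mul_of_nonneg_left hpl hl0.le
        _ = l ^ (2 + δ / 2) := by
            nth_rewrite 1 [← Real.rpow_one l]
            rw [← Real.rpow_add hl0]; congr 1; ring
        _ ≤ l ^ (2 + δ) := Real.rpow_le_rpow_of_exponent_le hl1 (by linarith)
        _ ≤ Y := hY
    have h4 : z₀ ≤ Y / p := by
      rw [Nat.le_div_iff_mul_le hpp.pos]
      have : ((z₀ * p : ℕ) : ℝ) ≤ Y := by
        push_cast
        exact (mul_le_mul_of_nonneg_right hzl hp0.le).trans h3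
      exact_mod_cast this
    refine (hC z₀ p Y (by omega) hzp hpp (by omega) b n S hS h1 h2).trans ?_
    refine mul_le_mul_of_nonneg_left ?_ hCr.le
    rw [div_le_div_iff₀ hlz0 (by positivity)]
    have h5 : ((Y / p + 1 : ℕ) : ℝ) * p ≤ 2 * Y := by
      have h6 : (Y / p : ℕ) * p ≤ Y := Nat.div_mul_le_self Y p
      have h7 : ((Y / p : ℕ) : ℝ) * p ≤ Y := by exact_mod_cast h6
      have h8 : (p : ℝ) ≤ Y := by nlinarith
      push_cast
      rw [add_mul, one_mul]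
      have h9 : ((Y / p : ℕ) : ℝ) * p ≤ Y := h7
      linarith
    calc ((Y / p + 1 : ℕ) : ℝ) * (p * Real.log z₀) = (((Y / p + 1 : ℕ) : ℝ) * p) * Real.log z₀ := by ring
      _ ≤ (2 * Y) * Real.log z₀ := mul_le_mul_of_nonneg_right h5 hlz0.le
      _ = _ := by ring
  · have h3 := tp_triv hpp.one_lt.le n hS h1
    have h5 : (S.card : ℝ) ≤ ((Y / p + 1 : ℕ) : ℝ) := by exact_mod_cast h3
    have h6 : ((Y / p : ℕ) : ℝ) ≤ (Y : ℝ) / p := Nat.cast_div_le
    push_cast at h5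
    have h7 : ((Y / p : ℕ) : ℝ) + 1 ≤ (Y : ℝ) / p + 1 := by linarith
    linarith

/-- the conditions on the multiplicities -/
lemma epsX {δ e Cr cH l : ℝ} {k z₀ Y h : ℕ} (hk : k ≤ 2) (he0 : 0 < e) (hCr : 0 < Cr) (hcH : 0 < cH)
    (hl : 4 ≤ l) (hδ : 0 < δ) (hz3 : 3 ≤ z₀) (hzge : e * l / 2 ≤ z₀) (hY : l ^ (2 + δ) ≤ Y)
    (d1 : l ^ (1 + δ / 2) ≤ (e * l / 2) ^ 2) (d2 : l ^ (2 + δ) ≤ (e * l / 2) ^ 4)
    (hh : cH * Y / Real.log z₀ ≤ h) (j p : ℕ) (hp : z₀ ^ 2 ^ j < p) :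
    2 * k * tx Cr l δ z₀ Y p * l ≤
      ep (16 * Cr / (e * cH * Real.log z₀) + 8 / (cH * l ^ (δ / 2))) (4 * (4 / e ^ 2 + 1) / (cH * l))
        (8 / (cH * l ^ (1 + δ))) j * (h * Real.log p) := by
  have hl0 : 0 < l := by linarith
  have hl1 : 1 ≤ l := by linarith
  have hz0 : (1 : ℝ) < z₀ := by exact_mod_cast (by omega : 1 < z₀)
  have hz00 : (0 : ℝ) < z₀ := by linarith
  have hlz0 : 0 < Real.log z₀ := Real.log_pos hz0
  have hkr : (k : ℝ) ≤ 2 := by exact_mod_cast hk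
  have hk0 : (0 : ℝ) ≤ k := Nat.cast_nonneg k
  have hY0 : (0 : ℝ) ≤ Y := Nat.cast_nonneg _
  have hpr : ((z₀ ^ 2 ^ j : ℕ) : ℝ) < p := by exact_mod_cast hp
  have hpz : (z₀ : ℝ) ≤ p := by
    have : z₀ ≤ z₀ ^ 2 ^ j := Nat.le_self_pow (by positivity) z₀
    exact_mod_cast (this.trans hp.le)
  have hp0 : (0 : ℝ) < p := by linarith
  have hel : 0 < e * l / 2 := by positivity
  have hlogp : 2 ^ j * Real.log z₀ ≤ Real.log p := by
    have h3 := Real.log_le_log (by positivity) hpr.le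
    push_cast at h3
    rw [Real.log_pow] at h3
    push_cast at h3
    exact h3
  have base : ∀ ε : ℝ, 0 ≤ ε → ε * (cH * Y * 2 ^ j) ≤ ε * (h * Real.log p) := by
    intro ε hε
    refine mul_le_mul_of_nonneg_left ?_ hε
    calc cH * Y * 2 ^ j = (cH * Y / Real.log z₀) * (2 ^ j * Real.log z₀) := by field_simp
      _ ≤ h * Real.log p := mul_le_mul hh hlogp (by positivity) (Nat.cast_nonneg h)
  have hE0 : 0 ≤ 16 * Cr / (e * cH * Real.log z₀) + 8 / (cH * l ^ (δ / 2)) := by positivity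
  have hE1 : 0 ≤ 4 * (4 / e ^ 2 + 1) / (cH * l) := by positivity
  have hE2 : 0 ≤ 8 / (cH * l ^ (1 + δ)) := by positivity
  refine le_trans ?_ (base _ (ep_nonneg hE0 hE1 hE2 j))
  have hlY2 : l ^ 2 ≤ Y := by
    refine le_trans ?_ hY
    rw [← Real.rpow_natCast]
    exact Real.rpow_le_rpow_of_exponent_le hl1 (by push_cast; linarith)
  have hlY1 : l ^ (1 + δ / 2) ≤ Y :=
    (Real.rpow_le_rpow_of_exponent_le hl1 (by linarith)).trans hY
  -- `2 k s l ≤ 4 s l`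
  have h4 : ∀ s : ℝ, 0 ≤ s → 2 * k * s * l ≤ 4 * s * l := by
    intro s hs
    have : k * (s * l) ≤ 2 * (s * l) := mul_le_mul_of_nonneg_right hkr (mul_nonneg hs hl0.le)
    linarith
  by_cases c0 : j = 0
  · subst c0
    rw [ep, if_pos rfl, pow_zero, mul_one]
    have e1 : (16 * Cr / (e * cH * Real.log z₀) + 8 / (cH * l ^ (δ / 2))) * (cH * Y)
        = 16 * Cr * Y / (e * Real.log z₀) + 8 * Y / l ^ (δ / 2) := by
      have : 0 < l ^ (δ / 2) := by positivity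
      field_simp
    rw [e1]
    unfold tx
    split_ifs with hpl
    · refine (h4 _ (by positivity)).trans ?_
      have h5 : 4 * (Cr * (2 * Y / (p * Real.log z₀))) * l ≤ 4 * (Cr * (2 * Y / ((e * l / 2) * Real.log z₀))) * l := by
        refine mul_le_mul_of_nonneg_right ?_ hl0.le
        refine mul_le_mul_of_nonneg_left ?_ (by norm_num)
        refine mul_le_mul_of_nonneg_left ?_ hCr.le
        refine div_le_div_of_nonneg_left (by positivity) (by positivity) ?_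
        exact mul_le_mul_of_nonneg_right (by linarith) hlz0.le
      have e2 : 4 * (Cr * (2 * Y / ((e * l / 2) * Real.log z₀))) * l = 16 * Cr * Y / (e * Real.log z₀) := by
        field_simp
        ring
      have h6 : 0 ≤ 8 * (Y : ℝ) / l ^ (δ / 2) := by positivity
      linarith
    · push Not at hpl
      refine (h4 _ (by positivity)).trans ?_
      have hlp : 0 < l ^ (1 + δ / 2) := by positivity
      have h5 : (Y : ℝ) / p ≤ Y / l ^ (1 + δ / 2) := div_le_div_of_nonneg_left hY0 hlp hpl.le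
      have h6 : 1 ≤ (Y : ℝ) / l ^ (1 + δ / 2) := by rw [le_div_iff₀ hlp, one_mul]; exact hlY1
      have h7 : 4 * ((Y : ℝ) / p + 1) * l ≤ 4 * (2 * (Y / l ^ (1 + δ / 2))) * l := by
        refine mul_le_mul_of_nonneg_right ?_ hl0.le
        linarith
      have e2 : 4 * (2 * ((Y : ℝ) / l ^ (1 + δ / 2))) * l = 8 * Y / l ^ (δ / 2) := by
        rw [Real.rpow_add hl0, Real.rpow_one]
        have : 0 < l ^ (δ / 2) := by positivity
        field_simp
        ring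
      have h8 : 0 ≤ 16 * Cr * (Y : ℝ) / (e * Real.log z₀) := by positivity
      linarith
  · have hj1 : 1 ≤ j := Nat.one_le_iff_ne_zero.2 c0
    have hz2 : (z₀ : ℝ) ^ 2 < p := by
      refine lt_of_le_of_lt ?_ hpr
      have : z₀ ^ 2 ≤ z₀ ^ 2 ^ j := Nat.pow_le_pow_right (by omega) (by
        calc 2 = 2 ^ 1 := rfl
          _ ≤ 2 ^ j := Nat.pow_le_pow_right (by norm_num) hj1)
      exact_mod_cast this
    have hzz2 : (e * l / 2) ^ 2 ≤ (z₀ : ℝ) ^ 2 := pow_le_pow_left₀ hel.le hzge 2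
    have hnot : ¬ (p : ℝ) ≤ l ^ (1 + δ / 2) := by
      push Not
      linarith
    rw [tx, if_neg hnot]
    refine (h4 _ (by positivity)).trans ?_
    by_cases c1 : j = 1
    · subst c1
      rw [ep, if_neg one_ne_zero, if_pos rfl, pow_one]
      have h5 : (Y : ℝ) / p ≤ Y / (e * l / 2) ^ 2 := div_le_div_of_nonneg_left hY0 (by positivity) (by linarith)
      have h6 : 1 ≤ (Y : ℝ) / l ^ 2 := by rw [le_div_iff₀ (by positivity), one_mul]; exact hlY2
      have h7 : 4 * ((Y : ℝ) / p + 1) * l ≤ 4 * (Y / (e * l / 2) ^ 2 + Y / l ^ 2) * l := by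
        refine mul_le_mul_of_nonneg_right ?_ hl0.le
        linarith
      have e2 : 4 * ((Y : ℝ) / (e * l / 2) ^ 2 + Y / l ^ 2) * l = 4 * (4 / e ^ 2 + 1) * Y / l := by
        field_simp
        ring
      have e3 : 4 * (4 / e ^ 2 + 1) / (cH * l) * (cH * Y * 2) = 2 * (4 * (4 / e ^ 2 + 1) * Y / l) := by
        field_simp
      have h8 : 0 ≤ 4 * (4 / e ^ 2 + 1) * (Y : ℝ) / l := by positivity
      rw [e3]
      linarith
    · rw [ep, if_neg c0, if_neg c1]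
      have hj2 : 2 ≤ j := by omega
      have hz4 : (z₀ : ℝ) ^ 4 < p := by
        refine lt_of_le_of_lt ?_ hpr
        have : z₀ ^ 4 ≤ z₀ ^ 2 ^ j := Nat.pow_le_pow_right (by omega) (by
          calc 4 = 2 ^ 2 := rfl
            _ ≤ 2 ^ j := Nat.pow_le_pow_right (by norm_num) hj2)
        exact_mod_cast this
      have hzz4 : (e * l / 2) ^ 4 ≤ (z₀ : ℝ) ^ 4 := pow_le_pow_left₀ hel.le hzge 4
      have hlp : 0 < l ^ (2 + δ) := by positivity
      have h5 : (Y : ℝ) / p ≤ Y / l ^ (2 + δ) := div_le_div_of_nonneg_left hY0 hlp (by linarith)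
      have h6 : 1 ≤ (Y : ℝ) / l ^ (2 + δ) := by rw [le_div_iff₀ hlp, one_mul]; exact hY
      have h7 : 4 * ((Y : ℝ) / p + 1) * l ≤ 4 * (2 * (Y / l ^ (2 + δ))) * l := by
        refine mul_le_mul_of_nonneg_right ?_ hl0.le
        linarith
      have e2 : 4 * (2 * ((Y : ℝ) / l ^ (2 + δ))) * l = 8 * Y / l ^ (1 + δ) := by
        have e4 : l ^ (2 + δ) = l * l ^ (1 + δ) := by
          nth_rewrite 2 [← Real.rpow_one l]
          rw [← Real.rpow_add hl0]; congr 1; ring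
        rw [e4]
        have : 0 < l ^ (1 + δ) := by positivity
        field_simp
        ring
      have e3 : 8 / (cH * l ^ (1 + δ)) / 2 ^ j * (cH * Y * 2 ^ j) = 8 * Y / l ^ (1 + δ) := by
        have : 0 < l ^ (1 + δ) := by positivity
        field_simp
      rw [e3]
      linarith

end Run7.h52.X4
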