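import Pool.Agent.Run7.h52.X4

set_option autoImplicit false
set_option linter.unusedSectionVars false

namespace Run7.h52.X5

open Finset Filter Run7.h52.Sp Run7.h52.Count Run7.h52.Rough Run7.h52.Asym Run7.h52.AsmV Run7.h52.U5 Run7.h52.U7
  Run7.h52.U8 Run7.h52.U9
  Run7.h52.U10 Run7.h52.U11 Run7.h52.U12 Run7.h52.U13 Run7.h52.U14 Run7.h52.U15 Run7.h52.U16 Run7.h52.U17
  Run7.h52.AsmT Run7.h52.X1 Run7.h52.X2 Run7.h52.X3 Run7.h52.X4
open Run7.h52.Transfer (HasLevel)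

/-- the parameters -/
structure ParX (e κ δ Cr c cw q Y0 c₁ l : ℝ) : Prop where
  d1 : l ^ (1 + δ / 2) ≤ (e * l / 2) ^ 2
  d2 : l ^ (2 + δ) ≤ (e * l / 2) ^ 4
  bad : 4 * Cr / (e * Real.log ⌊e * l⌋₊) + 2 / l ^ (δ / 2) ≤ κ * c
  sm : 8 / cw ^ 2 * (lm q 0 * (16 * Cr / (e * (c / 2) * Real.log ⌊e * l⌋₊) + 8 / (c / 2 * l ^ (δ / 2)))
    + 4 * (lm q 1 * (4 * (4 / e ^ 2 + 1) / (c / 2 * l)))
    + q / (q - 1) * (2 * l) ^ (1 + δ / 2) * (8 / (c / 2 * l ^ (1 + δ)))) ≤ κ ^ 2 / 9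
  y0 : Y0 ≤ l ^ (2 + δ)
  mu : 3 / κ ≤ c₁ * l ^ (1 + δ)
  h1 : 1 ≤ c / 2 * l ^ (1 + δ)

theorem parX {e κ δ Cr c cw q Y0 c₁ : ℝ} (he0 : 0 < e) (hκ0 : 0 < κ) (hδ0 : 0 < δ) (hδ1 : δ ≤ 1)
    (hc : 0 < c) (hcw : 0 < cw) (hq : 1 < q) (hc₁ : 0 < c₁) :
    ∀ᶠ l : ℝ in atTop, ParX e κ δ Cr c cw q Y0 c₁ l := by
  have hlog : Tendsto (fun l : ℝ => Real.log (⌊e * l⌋₊ : ℝ)) atTop atTop :=
    Real.tendsto_log_atTop.comp (tendsto_natCast_atTop_atTop.comp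
      (tendsto_nat_floor_atTop.comp (tendsto_id.const_mul_atTop he0)))
  have hpow : ∀ s : ℝ, 0 < s → Tendsto (fun l : ℝ => l ^ s) atTop atTop := fun s hs => tendsto_rpow_atTop hs
  have ev0 : ∀ᶠ l : ℝ in atTop, 1 ≤ l := eventually_ge_atTop 1
  have ev1 : ∀ᶠ l : ℝ in atTop, 4 / e ^ 2 ≤ l ^ (1 - δ / 2) := (hpow _ (by linarith)).eventually_ge_atTop _
  have ev2 : ∀ᶠ l : ℝ in atTop, 16 / e ^ 4 ≤ l ^ (2 - δ) := (hpow _ (by linarith)).eventually_ge_atTop _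
  have ev3 : ∀ᶠ l : ℝ in atTop, Y0 ≤ l ^ (2 + δ) := (hpow _ (by linarith)).eventually_ge_atTop _
  have ev4 : ∀ᶠ l : ℝ in atTop, 3 / κ / c₁ ≤ l ^ (1 + δ) := (hpow _ (by linarith)).eventually_ge_atTop _
  have ev5 : ∀ᶠ l : ℝ in atTop, 2 / c ≤ l ^ (1 + δ) := (hpow _ (by linarith)).eventually_ge_atTop _
  have T0 : Tendsto (fun l : ℝ => 4 * Cr / (e * Real.log ⌊e * l⌋₊) + 2 / l ^ (δ / 2)) atTop (nhds 0) := by
    have h1 : Tendsto (fun l : ℝ => 4 * Cr / (e * Real.log ⌊e * l⌋₊)) atTop (nhds 0) :=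
      tendsto_const_nhds.div_atTop (hlog.const_mul_atTop he0)
    have h2 : Tendsto (fun l : ℝ => 2 / l ^ (δ / 2)) atTop (nhds 0) :=
      tendsto_const_nhds.div_atTop (hpow _ (by linarith))
    simpa using h1.add h2
  have T1 : Tendsto (fun l : ℝ => lm q 0 * (16 * Cr / (e * (c / 2) * Real.log ⌊e * l⌋₊) + 8 / (c / 2 * l ^ (δ / 2))))
      atTop (nhds 0) := by
    have h1 : Tendsto (fun l : ℝ => 16 * Cr / (e * (c / 2) * Real.log ⌊e * l⌋₊)) atTop (nhds 0) :=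
      tendsto_const_nhds.div_atTop (hlog.const_mul_atTop (by positivity))
    have h2 : Tendsto (fun l : ℝ => 8 / (c / 2 * l ^ (δ / 2))) atTop (nhds 0) :=
      tendsto_const_nhds.div_atTop ((hpow _ (by linarith)).const_mul_atTop (by positivity))
    simpa using (h1.add h2).const_mul (lm q 0)
  have T2 : Tendsto (fun l : ℝ => 4 * (lm q 1 * (4 * (4 / e ^ 2 + 1) / (c / 2 * l)))) atTop (nhds 0) := by
    have h1 : Tendsto (fun l : ℝ => 4 * (4 / e ^ 2 + 1) / (c / 2 * l)) atTop (nhds 0) :=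
      tendsto_const_nhds.div_atTop (tendsto_id.const_mul_atTop (by positivity))
    simpa using (h1.const_mul (lm q 1)).const_mul 4
  have T3 : Tendsto (fun l : ℝ => (q / (q - 1) * 2 ^ (1 + δ / 2) * 8) / (c / 2 * l ^ (δ / 2))) atTop (nhds 0) :=
    tendsto_const_nhds.div_atTop ((hpow _ (by linarith)).const_mul_atTop (by positivity))
  have hκc : 0 < κ * c := by positivity
  set t : ℝ := κ ^ 2 * cw ^ 2 / 216 with ht
  have ht0 : 0 < t := by positivity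
  filter_upwards [ev0, ev1, ev2, ev3, ev4, ev5, T0.eventually (gt_mem_nhds hκc), T1.eventually (gt_mem_nhds ht0),
    T2.eventually (gt_mem_nhds ht0), T3.eventually (gt_mem_nhds ht0)] with l l1 a1 a2 a3 a4 a5 b0 b1 b2 b3
  have hl0 : 0 < l := by linarith
  refine ⟨?_, ?_, b0.le, ?_, a3, ?_, ?_⟩
  · have e1 : l ^ (1 + δ / 2) * l ^ (1 - δ / 2) = l ^ 2 := by
      rw [← Real.rpow_add hl0, ← Real.rpow_natCast]; congr 1; push_cast; ring
    rw [div_le_iff₀ (by positivity)] at a1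
    have h2 : 0 < l ^ (1 + δ / 2) := by positivity
    have h3 := mul_le_mul_of_nonneg_left a1 h2.le
    have h4 : (e * l / 2) ^ 2 = l ^ 2 * e ^ 2 / 4 := by ring
    rw [h4, ← e1, le_div_iff₀ (by norm_num)]
    linarith
  · have e1 : l ^ (2 + δ) * l ^ (2 - δ) = l ^ 4 := by
      rw [← Real.rpow_add hl0, ← Real.rpow_natCast]; congr 1; push_cast; ring
    rw [div_le_iff₀ (by positivity)] at a2
    have h2 : 0 < l ^ (2 + δ) := by positivity
    have h3 := mul_le_mul_of_nonneg_left a2 h2.le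
    have h4 : (e * l / 2) ^ 4 = l ^ 4 * e ^ 4 / 16 := by ring
    rw [h4, ← e1, le_div_iff₀ (by norm_num)]
    linarith
  · have e3 : q / (q - 1) * (2 * l) ^ (1 + δ / 2) * (8 / (c / 2 * l ^ (1 + δ)))
        = (q / (q - 1) * 2 ^ (1 + δ / 2) * 8) / (c / 2 * l ^ (δ / 2)) := by
      have h1 : (2 * l) ^ (1 + δ / 2) = 2 ^ (1 + δ / 2) * l ^ (1 + δ / 2) := Real.mul_rpow (by norm_num) hl0.le
      have h2 : l ^ (1 + δ) = l ^ (1 + δ / 2) * l ^ (δ / 2) := by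
        rw [← Real.rpow_add hl0]; congr 1; ring
      rw [h1, h2]
      have h3 : 0 < l ^ (1 + δ / 2) := by positivity
      have h4 : 0 < l ^ (δ / 2) := by positivity
      have h5 : q - 1 ≠ 0 := by linarith
      field_simp
    rw [e3]
    have h1 : lm q 0 * (16 * Cr / (e * (c / 2) * Real.log ⌊e * l⌋₊) + 8 / (c / 2 * l ^ (δ / 2)))
      + 4 * (lm q 1 * (4 * (4 / e ^ 2 + 1) / (c / 2 * l)))
      + (q / (q - 1) * 2 ^ (1 + δ / 2) * 8) / (c / 2 * l ^ (δ / 2)) ≤ 3 * t := by linarith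
    have h2 := mul_le_mul_of_nonneg_left h1 (by positivity : (0 : ℝ) ≤ 8 / cw ^ 2)
    refine h2.trans (le_of_eq ?_)
    rw [ht]
    field_simp
    norm_num
  · rw [div_le_iff₀ hc₁] at a4
    linarith
  · rw [div_le_iff₀ hc] at a5
    linarith

/-- number of the admissible shifts -/
lemma Hsize {e κ δ Cr c cw q Y0 c₁ l : ℝ} {k : ℕ} (hp : Par e κ Cr 1 cw k 0 l) (hx : ParX e κ δ Cr c cw q Y0 c₁ l)
    (he0 : 0 < e) (he1 : e ≤ 1 / 2) (hδ0 : 0 < δ) (hCr : 0 < Cr)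
    (hC : ∀ z p Y : ℕ, 2 ≤ z → z < p → p.Prime → z ≤ Y / p + 1 → ∀ b n : ℤ,
      ∀ S : Finset ℤ, S ⊆ Finset.Ioc (0 : ℤ) (0 + (Y : ℤ)) → (∀ h ∈ S, (p : ℤ) ∣ n + h) →
      (∀ h ∈ S, ∀ q ∈ PP z, ¬ (q : ℤ) ∣ b + h) →
      (S.card : ℝ) ≤ Cr * (((Y / p + 1 : ℕ) : ℝ) / Real.log z))
    {Y : ℕ} (hY : l ^ (2 + δ) ≤ Y) {b : ℤ}
    (hrg : c * (Y / Real.log ⌊e * l⌋₊) ≤ rg ⌊e * l⌋₊ (Finset.Ioc (0 : ℤ) (0 + (Y : ℤ))) b)
    {d z : ℕ} (hd : 1 ≤ d) (hdl : Real.log d ≤ l) (hκ : 0 ≤ κ)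
    (hz : ⌊e * l⌋₊ ≤ z) :
    (1 - κ) * rg ⌊e * l⌋₊ (Finset.Ioc (0 : ℤ) (0 + (Y : ℤ))) b ≤ (Hb (d * W0 ⌊e * l⌋₊) z Y b).card ∧
    ((Hb (d * W0 ⌊e * l⌋₊) z Y b).card : ℝ) ≤ rg ⌊e * l⌋₊ (Finset.Ioc (0 : ℤ) (0 + (Y : ℤ))) b := by
  have hl4 := hp.l4
  have hl0 : 0 < l := by linarith
  have hl1 : 1 ≤ l := by linarith
  have hz3 := hp.z3
  have hlz1 := hp.lz1
  have hzge := hp.zge
  have hbad := hx.bad
  set z₀ : ℕ := ⌊e * l⌋₊ with hz₀
  set lz := Real.log (z₀ : ℝ) with hlz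
  have hlz0 : 0 < lz := by linarith
  have hz0 : (0 : ℝ) < z₀ := by exact_mod_cast (by omega : 0 < z₀)
  have hzl : (z₀ : ℝ) ≤ l := by
    have : (z₀ : ℝ) ≤ e * l := Nat.floor_le (by positivity)
    nlinarith
  have hY0 : (0 : ℝ) ≤ Y := Nat.cast_nonneg _
  constructor
  · set T : ℝ := Y * (4 * Cr / (e * l * lz) + 2 / l ^ (1 + δ / 2)) with hT
    have hlow := Hb_low (d := d) (z := z) (Y := Y) (z₀ := z₀) (b := b) T ?_
    · have hbc := bad_card (z₀ := z₀) (z := z) hd (by omega)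
      have hT0 : 0 ≤ T := by positivity
      have h4 : ((Bad d z₀ z).card : ℝ) ≤ l / lz := by
        rw [le_div_iff₀ hlz0]; linarith
      have h5 : ((Bad d z₀ z).card : ℝ) * T ≤ κ * (c * (Y / lz)) := by
        calc ((Bad d z₀ z).card : ℝ) * T ≤ l / lz * T := mul_le_mul_of_nonneg_right h4 hT0
          _ = (4 * Cr / (e * lz) + 2 / l ^ (δ / 2)) * (Y / lz) := by
              rw [hT, Real.rpow_add hl0, Real.rpow_one]
              have : 0 < l ^ (δ / 2) := by positivity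
              field_simp
          _ ≤ κ * c * (Y / lz) := mul_le_mul_of_nonneg_right hbad (by positivity)
          _ = κ * (c * (Y / lz)) := by ring
      have h6 := mul_le_mul_of_nonneg_left hrg hκ
      linarith
    · intro p hpB S hS hS1 hS2
      rw [Bad, Finset.mem_filter] at hpB
      have hp' := mem_PP.1 hpB.1
      have hp0 : (0 : ℝ) < p := by exact_mod_cast hp'.1.pos
      have hzp : (z₀ : ℝ) ≤ p := by exact_mod_cast hpB.2.1.le
      have h4 := tx_ok (δ := δ) hl4 hδ0 hCr hz3 hzl hC hY hp'.1 hpB.2.1 b b S hS hS1 hS2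
      refine h4.trans ?_
      have n1 : 0 ≤ 4 * Cr / (e * l * lz) := by positivity
      have n2 : 0 ≤ 2 / l ^ (1 + δ / 2) := by positivity
      unfold tx
      split_ifs with hpl
      · have h5 : Cr * (2 * Y / (p * lz)) ≤ Cr * (2 * Y / ((e * l / 2) * lz)) := by
          refine mul_le_mul_of_nonneg_left ?_ hCr.le
          exact div_le_div_of_nonneg_left (by positivity) (by positivity)
            (mul_le_mul_of_nonneg_right (by linarith) hlz0.le)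
        refine h5.trans ?_
        rw [hT, mul_add]
        have e1 : Cr * (2 * Y / ((e * l / 2) * lz)) = Y * (4 * Cr / (e * l * lz)) := by
          field_simp
          ring
        rw [e1]
        have := mul_nonneg hY0 n2
        linarith
      · push Not at hpl
        rw [hT, mul_add]
        have hlp : 0 < l ^ (1 + δ / 2) := by positivity
        have h5 : (Y : ℝ) / p ≤ Y / l ^ (1 + δ / 2) := div_le_div_of_nonneg_left hY0 hlp hpl.le
        have h6 : 1 ≤ (Y : ℝ) / l ^ (1 + δ / 2) := by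
          rw [le_div_iff₀ hlp, one_mul]
          exact (Real.rpow_le_rpow_of_exponent_le hl1 (by linarith)).trans hY
        have e1 : (Y : ℝ) * (2 / l ^ (1 + δ / 2)) = Y / l ^ (1 + δ / 2) + Y / l ^ (1 + δ / 2) := by ring
        rw [e1]
        have := mul_nonneg hY0 n1
        linarith
  · unfold rg
    exact_mod_cast Finset.card_le_card (Hb_surv hz (Dvd.intro_left d rfl))

end Run7.h52.X5
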