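import Pool.Agent.Run7.h52.X5

set_option autoImplicit false
set_option linter.unusedSectionVars false

namespace Run7.h52.X6

open Finset Run7.h52.Sp Run7.h52.Count Run7.h52.Rough Run7.h52.Asym Run7.h52.AsmV Run7.h52.U5 Run7.h52.U7
  Run7.h52.U8 Run7.h52.U9
  Run7.h52.U10 Run7.h52.U11 Run7.h52.U12 Run7.h52.U13 Run7.h52.U14 Run7.h52.U15 Run7.h52.U16 Run7.h52.U17
  Run7.h52.AsmT Run7.h52.X1 Run7.h52.X2 Run7.h52.X3 Run7.h52.X4 Run7.h52.X5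
open Run7.h52.Transfer (HasLevel)

theorem clsY {δ ζ c : ℝ} {Y0 : ℕ} (hδ0 : 0 < δ) (hδ1 : δ ≤ 1) (hζ : 1 / (2 + δ) ≤ ζ) (hc : 0 < c)
    (hrl : ∀ Y : ℕ, Y0 ≤ Y → ∀ z : ℕ, 2 ≤ z → (z : ℝ) < (Y : ℝ) ^ ζ → ∀ x n : ℤ,
      c * (Y / Real.log z) ≤ rg z (Finset.Ioc x (x + Y)) n)
    {θ e κ c₁ : ℝ} (hc₁ : 0 < c₁) (he0 : 0 < e) (he1 : e ≤ 1 / 2) (hθe : 6 * e < 1 - θ) (hθ0 : 0 < θ)
    (hκ0 : 0 < κ) (hκ1 : κ ≤ 1 / 10) (k : ℕ) (hk : 1 ≤ k) (hk2 : k ≤ 2) :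
    ∃ (c' : ℝ), 0 < c' ∧ c' ≤ 1 ∧ ∃ T : ℝ, 3 ≤ T ∧ ∀ N : ℕ, T ≤ N → ∀ Y z : ℕ,
    (Real.log N) ^ (2 + δ) ≤ Y → Y ≤ N → ⌊e * Real.log N⌋₊ ≤ z → (z : ℝ) ≤ (N : ℝ) ^ c' →
    3 / κ ≤ c₁ * (Real.log N) ^ (1 + δ) ∧ 3 ≤ ⌊e * Real.log N⌋₊ ∧ Real.log z ≤ Real.log N ∧
    ∀ (d R : ℕ) (V : ℤ → ℝ), 1 ≤ d → 1 ≤ R → (d : ℝ) * (R : ℝ) ^ 2 ≤ (N : ℝ) ^ θ → HasLevel R V →
    ∀ x b : ℤ,
    c * (Y / Real.log ⌊e * Real.log N⌋₊) ≤ rg ⌊e * Real.log N⌋₊ (Finset.Ioc (0 : ℤ) (0 + (Y : ℤ))) b ∧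
    (1 - κ) * rg ⌊e * Real.log N⌋₊ (Finset.Ioc (0 : ℤ) (0 + (Y : ℤ))) b
      ≤ (Hb (d * W0 ⌊e * Real.log N⌋₊) z Y b).card ∧
    ((Hb (d * W0 ⌊e * Real.log N⌋₊) z Y b).card : ℝ)
      ≤ rg ⌊e * Real.log N⌋₊ (Finset.Ioc (0 : ℤ) (0 + (Y : ℤ))) b ∧
    (1 - 6 * κ) * ((1 - κ) * ((Wr ⌊e * Real.log N⌋₊ z) ^ k *
        (((Hb (d * W0 ⌊e * Real.log N⌋₊) z Y b).card.choose k : ℕ) : ℝ))) *
        ∑ n ∈ Finset.Ioc x (x + N),
          (if ((d * W0 ⌊e * Real.log N⌋₊ : ℕ) : ℤ) ∣ n - b then V n ^ 2 else 0)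
      ≤ ∑ n ∈ Finset.Ioc x (x + N), (if ((d * W0 ⌊e * Real.log N⌋₊ : ℕ) : ℤ) ∣ n - b then V n ^ 2 *
        (((SW.survivors (PP z) (Finset.Ioc (0 : ℤ) (0 + (Y : ℤ))) n).card.choose k : ℕ) : ℝ) else 0) ∧
    ∑ n ∈ Finset.Ioc x (x + N), (if ((d * W0 ⌊e * Real.log N⌋₊ : ℕ) : ℤ) ∣ n - b then V n ^ 2 *
        (((SW.survivors (PP z) (Finset.Ioc (0 : ℤ) (0 + (Y : ℤ))) n).card.choose k : ℕ) : ℝ) else 0)
      ≤ (1 + 10 * κ) * ((1 + κ) * ((Wr ⌊e * Real.log N⌋₊ z) ^ k *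
        (((Hb (d * W0 ⌊e * Real.log N⌋₊) z Y b).card.choose k : ℕ) : ℝ))) *
        ∑ n ∈ Finset.Ioc x (x + N),
          (if ((d * W0 ⌊e * Real.log N⌋₊ : ℕ) : ℤ) ∣ n - b then V n ^ 2 else 0) := by
  classical
  obtain ⟨Rs, hRs, hs1, hs2, hs3⟩ := exists_Rs κ hκ0 k
  obtain ⟨Cr, hCr, hC⟩ := tp_ref
  obtain ⟨cw, hcw, hcw1, hWr⟩ := Wr_low
  set q : ℝ := 2 ^ (δ / 2) with hq
  have hq1 : 1 < q := by rw [hq]; exact Real.one_lt_rpow (by norm_num) (by linarith)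
  have hEr : (0 : ℝ) < ((8 * Rs + 16 : ℕ) : ℝ) := by positivity
  have hE1 : (1 : ℝ) ≤ ((8 * Rs + 16 : ℕ) : ℝ) := by exact_mod_cast (by omega : 1 ≤ 8 * Rs + 16)
  have hξ : 0 < 1 - θ - 3 * e := by linarith
  have hev := ((par (Cr := Cr) (cW := 1) (cw := cw) he0 he1 hκ0 hκ1 hCr one_pos hcw hcw1 k 0 hk).and
    (pow_gap hξ hκ0 hcw k)).and
    (parX (Cr := Cr) (Y0 := (Y0 : ℝ)) he0 hκ0 hδ0 hδ1 hc hcw hq1 hc₁)
  obtain ⟨l₀, hl₀⟩ := Filter.eventually_atTop.1 hev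
  refine ⟨e / (4 * ((8 * Rs + 16 : ℕ) : ℝ)), by positivity, ?_,
    max 3 (Real.exp (max l₀ 4)), le_max_left _ _, ?_⟩
  · rw [div_le_one (by positivity)]; linarith
  intro N hN Y z hY hYN hz hzN
  have hN3 : (3 : ℝ) ≤ N := (le_max_left _ _).trans hN
  have hN0 : (0 : ℝ) < N := by linarith
  set l := Real.log (N : ℝ) with hl
  have hll : max l₀ 4 ≤ l := by
    rw [hl, Real.le_log_iff_exp_le hN0]; exact (le_max_right _ _).trans hN
  have hexp : Real.exp l = N := Real.exp_log hN0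
  obtain ⟨⟨hp, hg1, hg2, hg3⟩, hx⟩ := hl₀ l ((le_max_left _ _).trans hll)
  have hl4 := hp.l4
  have hl0 : 0 < l := by linarith
  have hl1 : 1 ≤ l := by linarith
  have hz3 := hp.z3
  have hzk := hp.zk
  have hlz1 := hp.lz1
  have hzge := hp.zge
  set z₀ : ℕ := ⌊e * l⌋₊ with hz₀
  have hlz0 : 0 < Real.log z₀ := by linarith
  have hz0 : (0 : ℝ) < z₀ := by exact_mod_cast (by omega : 0 < z₀)
  have hz01 : (1 : ℝ) < z₀ := by exact_mod_cast (by omega : 1 < z₀)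
  have hzle : (z₀ : ℝ) ≤ e * l := Nat.floor_le (by positivity)
  have hzll : (z₀ : ℝ) ≤ l := by nlinarith
  have hz2 : 2 ≤ z := by omega
  have hzr : (1 : ℝ) < z := by exact_mod_cast (by omega : 1 < z)
  have hY0 : (0 : ℝ) ≤ Y := Nat.cast_nonneg _
  -- the level of the sieve
  obtain ⟨I, hI, hI1, hI2⟩ := Pool.Agent.H154R3.Fund.exists_I z hz2
  set D : ℕ := 2 ^ ((4 * Rs + 8) * 2 ^ I) with hD
  have hD1 : 1 ≤ D := Nat.one_le_two_pow
  have hzD : z ≤ D := by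
    refine hI1.trans ?_
    rw [hD]
    refine Nat.pow_le_pow_right (by norm_num) ?_
    exact Nat.le_mul_of_pos_left _ (by omega)
  have hlzc : Real.log z ≤ e / (4 * ((8 * Rs + 16 : ℕ) : ℝ)) * l := by
    have := Real.log_le_log (by linarith) hzN
    rwa [Real.log_rpow hN0] at this
  have hDl : 4 * Real.log D ≤ e * l := by
    have h1 : Real.log D = (4 * Rs + 8 : ℕ) * Real.log ((2 ^ 2 ^ I : ℕ) : ℝ) := by
      rw [hD, ← Real.log_pow]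
      congr 1
      push_cast
      rw [← pow_mul, mul_comm]
    have h2 : Real.log ((2 ^ 2 ^ I : ℕ) : ℝ) ≤ 2 * Real.log z := by
      have h3 : ((2 ^ 2 ^ I : ℕ) : ℝ) ≤ (z : ℝ) ^ 2 := by exact_mod_cast hI2
      have := Real.log_le_log (by positivity) h3
      rwa [Real.log_pow] at this
    have h3 : ((4 * Rs + 8 : ℕ) : ℝ) * Real.log ((2 ^ 2 ^ I : ℕ) : ℝ) ≤ ((4 * Rs + 8 : ℕ) : ℝ) * (2 * Real.log z) :=
      mul_le_mul_of_nonneg_left h2 (Nat.cast_nonneg _)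
    have h4 : ((4 * Rs + 8 : ℕ) : ℝ) * (2 * Real.log z) = ((8 * Rs + 16 : ℕ) : ℝ) * Real.log z := by
      push_cast; ring
    have h5 : ((8 * Rs + 16 : ℕ) : ℝ) * Real.log z ≤ ((8 * Rs + 16 : ℕ) : ℝ) * (e / (4 * ((8 * Rs + 16 : ℕ) : ℝ)) * l) :=
      mul_le_mul_of_nonneg_left hlzc hEr.le
    have h6 : ((8 * Rs + 16 : ℕ) : ℝ) * (e / (4 * ((8 * Rs + 16 : ℕ) : ℝ)) * l) = e * l / 4 := by
      field_simp
    rw [h1]
    linarith
  have hlzl : Real.log z ≤ l := by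
    refine hlzc.trans ?_
    refine mul_le_of_le_one_left hl0.le ?_
    rw [div_le_one (by positivity)]; linarith
  refine ⟨hx.mu, hz3, hlzl, ?_⟩
  intro d R V hd hR hdR hV x b
  -- the modulus
  have hWp : 1 ≤ W0 z₀ := W0_pos z₀
  have hW0l : Real.log (W0 z₀ : ℕ) ≤ 2 * e * l := by
    refine (log_W0 z₀).trans ?_
    linarith
  set D₁ : ℕ := d * W0 z₀ with hD₁
  have hD₁1 : 1 ≤ D₁ := Nat.mul_pos hd hWp
  -- the primes
  obtain ⟨J, hJ1, hJ2⟩ := exists_J (z₀ := z₀) (z := z) (by omega)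
  set P := Ps z₀ z D₁ with hP
  have hzRD : z ≤ R * D := hzD.trans (Nat.le_mul_of_pos_left D hR)
  have hCh := chain (Q := R * D) (D := D₁) (by omega : 2 ≤ z₀) hzRD hJ1
  have hPs : ∀ p ∈ P, (p.Prime ∧ z₀ < p ∧ p ≤ z) ∧ ¬ p ∣ D₁ := fun p hp' => mem_Ps.1 hp'
  have hPp : ∀ p ∈ P, p.Prime ∧ 2 * k ≤ p := fun p hp' => ⟨(hPs p hp').1.1, by have := (hPs p hp').1.2.1; omega⟩
  set ρ := rs0 k P with hρ
  have hρ0 : 0 < ρ := rs0_pos hPp
  have r2 : 1 ≤ ρ * (l / cw) ^ (2 * k) := by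
    have h1 := hWr z₀ z hz3 hz
    have hlzz : 0 < Real.log z := Real.log_pos hzr
    have h2 : cw / l ≤ Wr z₀ z := by
      refine le_trans ?_ h1
      rw [div_eq_mul_inv]
      refine mul_le_mul_of_nonneg_left ?_ hcw.le
      rw [le_div_iff₀ hlzz]
      have h3 : l⁻¹ * Real.log z ≤ l⁻¹ * l := mul_le_mul_of_nonneg_left hlzl (by positivity)
      rw [inv_mul_cancel₀ hl0.ne'] at h3
      exact h3.trans hlz1
    have h3 : (cw / l) ^ (2 * k) ≤ rs0 k P := by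
      refine (pow_le_pow_left₀ (by positivity) h2 _).trans (rs0_crude ?_ hzk)
      intro p hp'
      exact mem_Pf.2 (hPs p hp').1
    calc (1 : ℝ) = (cw / l) ^ (2 * k) * (l / cw) ^ (2 * k) := by
          rw [← mul_pow]
          have : cw / l * (l / cw) = 1 := by field_simp
          rw [this, one_pow]
      _ ≤ _ := mul_le_mul_of_nonneg_right h3 (by positivity)
  obtain ⟨hErR, hErr, hRl, hdl, hN'1⟩ := sizes (N' := nn x N D₁ b) hexp hl0 he0 hθe hκ0 hd hR hD1 hWp hdR hW0l hDl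
    hg1 hg2 hg3 r2 hρ0 (nn_ge x N hD₁1 b)
  -- the admissible shifts
  have hYY0 : Y0 ≤ Y := by
    have : (Y0 : ℝ) ≤ Y := hx.y0.trans hY
    exact_mod_cast this
  have hY1 : (1 : ℝ) ≤ Y := by
    refine le_trans ?_ hY
    exact Real.one_le_rpow hl1 (by linarith)
  have hzY : (z₀ : ℝ) < (Y : ℝ) ^ ζ := by
    have h1 : l = (l ^ (2 + δ)) ^ (1 / (2 + δ)) := by
      rw [← Real.rpow_mul hl0.le, mul_one_div_cancel (by linarith : 2 + δ ≠ 0), Real.rpow_one]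
    have h2 : (l ^ (2 + δ)) ^ (1 / (2 + δ)) ≤ (Y : ℝ) ^ (1 / (2 + δ)) :=
      Real.rpow_le_rpow (by positivity) hY (by positivity)
    have h3 : (Y : ℝ) ^ (1 / (2 + δ)) ≤ (Y : ℝ) ^ ζ := Real.rpow_le_rpow_of_exponent_le hY1 hζ
    have h4 : (z₀ : ℝ) < l := by nlinarith
    linarith
  have hrg := hrl Y hYY0 z₀ (by omega) hzY 0 b
  obtain ⟨hH1, hH2⟩ := X5.Hsize hp hx he0 he1 hδ0 hCr hC hY hrg hd hdl hκ0.le hz
  refine ⟨hrg, hH1, hH2, ?_⟩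
  set H := Hb D₁ z Y b with hH
  have hrg0 : 0 ≤ rg z₀ (Finset.Ioc (0 : ℤ) (0 + (Y : ℤ))) b := le_trans (by positivity) hrg
  have hhh : c / 2 * Y / Real.log z₀ ≤ H.card := by
    refine le_trans ?_ hH1
    have h1 : (1 / 2) * rg z₀ (Finset.Ioc (0 : ℤ) (0 + (Y : ℤ))) b
        ≤ (1 - κ) * rg z₀ (Finset.Ioc (0 : ℤ) (0 + (Y : ℤ))) b := mul_le_mul_of_nonneg_right (by linarith) hrg0
    have h2 : c / 2 * Y / Real.log z₀ = (1 / 2) * (c * (Y / Real.log z₀)) := by ring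
    rw [h2]
    linarith
  have hcard1 : 1 ≤ H.card := by
    have h1 : (1 : ℝ) ≤ H.card := by
      refine le_trans ?_ hhh
      have h2 : c / 2 * l ^ (1 + δ) ≤ c / 2 * Y / Real.log z₀ := by
        rw [le_div_iff₀ hlz0]
        have h3 : c / 2 * l ^ (1 + δ) * Real.log z₀ ≤ c / 2 * l ^ (1 + δ) * l :=
          mul_le_mul_of_nonneg_left hp.lzz (by positivity)
        have h4 : c / 2 * l ^ (1 + δ) * l = c / 2 * l ^ (2 + δ) := by
          rw [mul_assoc]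
          congr 1
          nth_rewrite 2 [← Real.rpow_one l]
          rw [← Real.rpow_add hl0]; congr 1; ring
        rw [h4] at h3
        have h5 : c / 2 * l ^ (2 + δ) ≤ c / 2 * Y := mul_le_mul_of_nonneg_left hY (by positivity)
        linarith
      exact hx.h1.trans h2
    exact_mod_cast h1
  have hYl : Real.log Y ≤ l := Real.log_le_log (by linarith) (by exact_mod_cast hYN)
  have svT : ∀ T ⊆ P, SV T D ((D : ℕ) : ℝ) k (2 * (Real.exp (16 * (k : ℝ)) * (1 / 2) ^ (2 * Rs))) :=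
    fun T hT => sv_of_fund hs2 hI T fun p hp' => ⟨(hPs p (hT hp')).1.1, (hPs p (hT hp')).1.2.2.trans hI1⟩
  have hη0 : (0 : ℝ) ≤ 2 * (Real.exp (16 * (k : ℝ)) * (1 / 2) ^ (2 * Rs)) := by positivity
  have hWD : W0 z₀ ∣ D₁ := Dvd.intro_left d rfl
  have hkz : 1 / 2 ≤ Real.exp (-((k : ℝ) ^ 2 / z₀)) := by
    have := hp.kz
    linarith
  have hrat : ∀ j, rs0 k (Sj z₀ P (j + 1)) * ((cw / 2 ^ (j + 1)) ^ k / 2) ≤ ρ := fun j =>
    ratio hcw hz3 hzk hkz hWr j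
  have hsum := sumcond (J := J) (k := k) (r := fun j => rs0 k (Sj z₀ P j)) hq1 hcw hcw1 hk2 (E0 := 16 * Cr / (e * (c / 2) * Real.log z₀)
      + 8 / (c / 2 * l ^ (δ / 2))) (E1 := 4 * (4 / e ^ 2 + 1) / (c / 2 * l)) (E2 := 8 / (c / 2 * l ^ (1 + δ)))
      (by positivity) (by positivity) (by positivity) (J_bound hδ0 hq hz3 hlz1 hlzl hl1 hJ2) hx.sm hρ0.le hrat
  have main := clsJ (Q := R * D) (d := D₁) (κ := κ) (L := l) (H := H) (Y := Y)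
    (V := fun m => V (b + D₁ * m)) (lam := lm q)
    (ε := ep (16 * Cr / (e * (c / 2) * Real.log z₀) + 8 / (c / 2 * l ^ (δ / 2)))
      (4 * (4 / e ^ 2 + 1) / (c / 2 * l)) (8 / (c / 2 * l ^ (1 + δ))))
    hR hD1 rfl hCh (fun p hp' => (hPs p hp').2) hk hz01
    (fun p hp' => by exact_mod_cast (hPs p hp').1.2.1)
    (fun p hp' => (hPp p hp').2) hη0 hs3 hκ0 hκ1 svT
    hl0 hRl (Hb_sub D₁ z Y b) hcard1 (tx Cr l δ z₀ Y)
    (fun p hp' n => tx_ok hl4 hδ0 hCr hz3 hzll hC hY (hPs p hp').1.1 (hPs p hp').1.2.1 b n _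
      ((Finset.filter_subset _ _).trans (Hb_sub D₁ z Y b)) (fun h hh => (Finset.mem_filter.1 hh).2)
      (fun h hh => by
        have h1 := Hb_surv hz hWD (Finset.mem_filter.1 hh).1
        rw [SW.survivors, Finset.mem_filter] at h1
        exact h1.2))
    (fun j _ => ep_nonneg (by positivity) (by positivity) (by positivity) j)
    (fun j _ => lm_one hq1 j) (lm_sum hq1 J)
    (fun j _ p hp' => by
      rw [Finset.mem_sdiff] at hp'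
      exact epsX hk2 he0 hCr (by positivity) hl4 hδ0 hz3 hzge hY hx.d1 hx.d2 hhh j p (mem_Sj.1 hp'.1).2)
    (level_prog hV D₁ b) b (m0 x D₁ b) (nn x N D₁ b) hErr hErR hp.ga
    (by
      refine le_trans (Real.exp_le_exp.2 ?_) hp.df
      refine mul_le_mul_of_nonneg_left ?_ (by positivity)
      refine div_le_div_of_nonneg_right ?_ (by positivity)
      exact mul_le_mul_of_nonneg_left hYl (by positivity))
    hsum
  -- the main term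
  have hlow : (1 - κ) * (Wr z₀ z) ^ k ≤ ρ := by
    have h1 := rs0_low (k := k) (z₀ := z₀) (z := z) (T := P) (fun p hp' => mem_Pf.2 (hPs p hp').1) hzk (by omega) hz
    refine le_trans ?_ h1
    have := mul_le_mul_of_nonneg_left hp.kz (pow_pos (Wr_pos z₀ z) k).le
    linarith
  have hupp : ρ ≤ (1 + κ) * (Wr z₀ z) ^ k := by
    have hD₁l : Real.log D₁ ≤ l := by
      have hd0 : (0 : ℝ) < d := by exact_mod_cast hd
      have hW00 : (0 : ℝ) < (W0 z₀ : ℕ) := by exact_mod_cast hWp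
      have h1 : Real.log d ≤ θ * l := by
        have h2 : (d : ℝ) ≤ (N : ℝ) ^ θ := by
          refine le_trans ?_ hdR
          exact le_mul_of_one_le_right hd0.le (one_le_pow₀ (by exact_mod_cast hR))
        have := Real.log_le_log hd0 h2
        rwa [Real.log_rpow hN0] at this
      rw [hD₁]
      push_cast
      rw [Real.log_mul hd0.ne' hW00.ne']
      nlinarith
    have hbc := bad_card (z₀ := z₀) (z := z) hD₁1 (by omega)
    have hB : (((Bad D₁ z₀ z).card : ℕ) : ℝ) / z₀ ≤ l / (z₀ * Real.log z₀) := by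
      rw [div_le_div_iff₀ hz0 (by positivity)]
      have h1 : ((Bad D₁ z₀ z).card : ℝ) * Real.log z₀ ≤ l := hbc.trans hD₁l
      have := mul_le_mul_of_nonneg_right h1 hz0.le
      linarith
    have h1 := rs0_up (k := k) (z₀ := z₀) (z := z) (d := D₁) (T := P) (by omega) rfl hzk hB
    refine h1.trans ?_
    have := mul_le_mul_of_nonneg_left hp.ga (pow_pos (Wr_pos z₀ z) k).le
    linarith
  rw [sum_prog x N hD₁1 b (fun n => V n ^ 2), sum_prog x N hD₁1 b (fun n => V n ^ 2 *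
    (((SW.survivors (PP z) (Finset.Ioc (0 : ℤ) (0 + (Y : ℤ))) n).card.choose k : ℕ) : ℝ))]
  have hS : ∀ j : ℕ, SW.survivors (PP z) (Finset.Ioc (0 : ℤ) (0 + (Y : ℤ))) (b + D₁ * (m0 x D₁ b + j))
      = Hs D₁ b P H (m0 x D₁ b + j) := by
    intro j
    rw [surv_eq hWD b (m0 x D₁ b + j)]
  simp only [hS]
  obtain ⟨m1, m2⟩ := main
  have hZ0 : 0 ≤ ∑ j ∈ Finset.range (nn x N D₁ b), V (b + D₁ * (m0 x D₁ b + j)) ^ 2 :=
    Finset.sum_nonneg fun _ _ => sq_nonneg _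
  have hC0 : (0 : ℝ) ≤ ((H.card.choose k : ℕ) : ℝ) := Nat.cast_nonneg _
  constructor
  · refine le_trans ?_ m1
    refine mul_le_mul_of_nonneg_right ?_ hZ0
    refine mul_le_mul_of_nonneg_left ?_ (by linarith)
    have := mul_le_mul_of_nonneg_right hlow hC0
    linarith
  · refine m2.trans ?_
    refine mul_le_mul_of_nonneg_right ?_ hZ0
    refine mul_le_mul_of_nonneg_left ?_ (by linarith)
    have := mul_le_mul_of_nonneg_right hupp hC0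
    linarith

end Run7.h52.X6
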