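import Pool.Agent.Run7.h52.X6

set_option autoImplicit false
set_option linter.unusedSectionVars false

namespace Run7.h52.X7

open Finset Run7.h52.Count Run7.h52.Rough Run7.h52.Asym Run7.h52.AsmV Run7.h52.U11 Run7.h52.U12 Run7.h52.U19
  Run7.h52.X5 Run7.h52.X6
open Run7.h52.Transfer (HasLevel)

/-- the variance from the first two moments -/
lemma var_of {S : Finset ℤ} {A : ℤ → ℝ} (hA : ∀ n ∈ S, 0 ≤ A n) (r : ℤ → ℕ) {κ wr : ℝ} {h : ℕ} (hκ0 : 0 < κ)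
    (hκ1 : κ ≤ 1 / 10) (hwr : 0 < wr) (hμ : 3 / κ ≤ wr * h)
    (l1 : (1 - 6 * κ) * ((1 - κ) * (wr ^ 1 * ((h.choose 1 : ℕ) : ℝ))) * ∑ n ∈ S, A n
      ≤ ∑ n ∈ S, A n * (((r n).choose 1 : ℕ) : ℝ))
    (u1 : ∑ n ∈ S, A n * (((r n).choose 1 : ℕ) : ℝ) ≤
      (1 + 10 * κ) * ((1 + κ) * (wr ^ 1 * ((h.choose 1 : ℕ) : ℝ))) * ∑ n ∈ S, A n)
    (u2 : ∑ n ∈ S, A n * (((r n).choose 2 : ℕ) : ℝ) ≤
      (1 + 10 * κ) * ((1 + κ) * (wr ^ 2 * ((h.choose 2 : ℕ) : ℝ))) * ∑ n ∈ S, A n) :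
    ∑ n ∈ S, A n * ((r n : ℝ) - wr * h) ^ 2 ≤ 30 * κ * (wr * h) ^ 2 * ∑ n ∈ S, A n := by
  set μ := wr * h with hμd
  set Z := ∑ n ∈ S, A n with hZ
  have hZ0 : 0 ≤ Z := Finset.sum_nonneg hA
  have h30 : 0 < 3 / κ := by positivity
  have hμ0 : 0 < μ := by linarith
  simp only [Nat.choose_one_right, pow_one] at l1 u1
  rw [← hμd] at l1 u1
  set S1 := ∑ n ∈ S, A n * (r n : ℝ) with hS1
  set S2 := ∑ n ∈ S, A n * (((r n).choose 2 : ℕ) : ℝ) with hS2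
  have e1 : ∑ n ∈ S, A n * ((r n : ℝ) - μ) ^ 2 = 2 * S2 + S1 - 2 * μ * S1 + μ ^ 2 * Z := by
    rw [hS1, hS2, hZ, Finset.mul_sum, Finset.mul_sum, Finset.mul_sum, ← Finset.sum_add_distrib,
      ← Finset.sum_sub_distrib, ← Finset.sum_add_distrib]
    refine Finset.sum_congr rfl fun n _ => ?_
    rw [Nat.cast_choose_two]
    ring
  rw [e1]
  have hμZ : 0 ≤ μ * Z := mul_nonneg hμ0.le hZ0
  have hμ2Z : 0 ≤ μ ^ 2 * Z := mul_nonneg (sq_nonneg _) hZ0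
  have c1 : (1 - 7 * κ) * (μ * Z) ≤ S1 := by
    refine le_trans ?_ l1
    have : (1 - 6 * κ) * ((1 - κ) * μ) * Z - (1 - 7 * κ) * (μ * Z) = 6 * κ ^ 2 * (μ * Z) := by ring
    have : 0 ≤ 6 * κ ^ 2 * (μ * Z) := by positivity
    linarith
  have hfac : (1 + 10 * κ) * (1 + κ) ≤ 1 + 12 * κ := by nlinarith
  have c2 : S1 ≤ (1 + 12 * κ) * (μ * Z) := by
    refine u1.trans ?_
    have := mul_le_mul_of_nonneg_right hfac hμZ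
    linarith
  have c3 : S2 ≤ (1 + 12 * κ) * (μ ^ 2 * Z / 2) := by
    have h1 : wr ^ 2 * ((h.choose 2 : ℕ) : ℝ) ≤ μ ^ 2 / 2 := by
      have h2 : ((h.choose 2 : ℕ) : ℝ) ≤ (h : ℝ) ^ 2 / 2 := by
        rw [Nat.cast_choose_two]
        have : (0 : ℝ) ≤ h := Nat.cast_nonneg h
        nlinarith
      have h3 := mul_le_mul_of_nonneg_left h2 (sq_nonneg wr)
      refine h3.trans (le_of_eq ?_)
      rw [hμd]; ring
    have h2 : (1 + 10 * κ) * ((1 + κ) * (wr ^ 2 * ((h.choose 2 : ℕ) : ℝ))) * Z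
        ≤ (1 + 10 * κ) * ((1 + κ) * (μ ^ 2 / 2)) * Z := by
      refine mul_le_mul_of_nonneg_right ?_ hZ0
      refine mul_le_mul_of_nonneg_left ?_ (by linarith)
      exact mul_le_mul_of_nonneg_left h1 (by linarith)
    refine u2.trans (h2.trans ?_)
    have := mul_le_mul_of_nonneg_right hfac (by positivity : 0 ≤ μ ^ 2 * Z / 2)
    linarith
  -- `μ ≤ κ μ ^ 2 / 3`
  have c4 : μ * Z ≤ κ * (μ ^ 2 * Z) / 3 := by
    have h1 : 3 ≤ κ * μ := by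
      rw [div_le_iff₀ hκ0] at hμ
      linarith
    have := mul_le_mul_of_nonneg_right h1 hμZ
    nlinarith
  have c5 := mul_le_mul_of_nonneg_left c1 (by positivity : 0 ≤ 2 * μ)
  have c6 : 12 * κ * (μ * Z) ≤ 12 / 10 * (μ * Z) := by
    have := mul_le_mul_of_nonneg_right hκ1 hμZ
    linarith
  have c7 : 0 ≤ κ * (μ ^ 2 * Z) := mul_nonneg hκ0.le hμ2Z
  have c8 : 2 * μ * ((1 - 7 * κ) * (μ * Z)) = 2 * (μ ^ 2 * Z) - 14 * (κ * (μ ^ 2 * Z)) := by ring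
  rw [c8] at c5
  linarith

/-- one class: the variance -/
theorem varX {δ : ℝ} (hδ0 : 0 < δ) (hδ1 : δ ≤ 1) : ∃ c₁ : ℝ, 0 < c₁ ∧ ∀ {θ e κ : ℝ}, 0 < e → e ≤ 1 / 2 →
    6 * e < 1 - θ → 0 < θ → 0 < κ → κ ≤ 1 / 10 →
    ∃ (c' : ℝ), 0 < c' ∧ c' ≤ 1 ∧ ∃ T : ℝ, 3 ≤ T ∧ ∀ N : ℕ, T ≤ N → ∀ Y z : ℕ,
    (Real.log N) ^ (2 + δ) ≤ Y → Y ≤ N → ⌊e * Real.log N⌋₊ ≤ z → (z : ℝ) ≤ (N : ℝ) ^ c' →
    3 ≤ ⌊e * Real.log N⌋₊ ∧
    ∀ (d R : ℕ) (V : ℤ → ℝ), 1 ≤ d → 1 ≤ R → (d : ℝ) * (R : ℝ) ^ 2 ≤ (N : ℝ) ^ θ → HasLevel R V →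
    ∀ x b : ℤ, ∃ μ : ℝ, c₁ * (Y / Real.log z) ≤ μ ∧ 0 < μ ∧
      (1 - κ) * (Wr ⌊e * Real.log N⌋₊ z * rg ⌊e * Real.log N⌋₊ (Finset.Ioc (0 : ℤ) (0 + (Y : ℤ))) b) ≤ μ ∧
      μ ≤ Wr ⌊e * Real.log N⌋₊ z * rg ⌊e * Real.log N⌋₊ (Finset.Ioc (0 : ℤ) (0 + (Y : ℤ))) b ∧
      ∑ n ∈ Finset.Ioc x (x + N),
          (if ((d * W0 ⌊e * Real.log N⌋₊ : ℕ) : ℤ) ∣ n - b then V n ^ 2 else 0) * ((rc z Y n : ℝ) - μ) ^ 2
        ≤ 30 * κ * μ ^ 2 * ∑ n ∈ Finset.Ioc x (x + N),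
          (if ((d * W0 ⌊e * Real.log N⌋₊ : ℕ) : ℤ) ∣ n - b then V n ^ 2 else 0) := by
  classical
  set ζ : ℝ := (1 / (2 + δ) + 1 / 2) / 2 with hζ
  have h2δ : 1 / (2 + δ) < 1 / 2 := one_div_lt_one_div_of_lt (by norm_num) (by linarith)
  have h3δ : 1 / 3 ≤ 1 / (2 + δ) := one_div_le_one_div_of_le (by linarith) (by linarith)
  obtain ⟨c, hc, Y0, hrl⟩ := rough_low ζ (by rw [hζ]; linarith) (by rw [hζ]; linarith)
  obtain ⟨cw, hcw, hcw1, hWr⟩ := Wr_low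
  set c₁ : ℝ := c / 2 * cw with hc₁
  have hc₁0 : 0 < c₁ := by positivity
  refine ⟨c₁, hc₁0, ?_⟩
  intro θ e κ he0 he1 hθe hθ0 hκ0 hκ1
  obtain ⟨a1, ha1, ha1', T1, hT1, H1⟩ := clsY hδ0 hδ1 (by rw [hζ]; linarith : 1 / (2 + δ) ≤ ζ) hc hrl hc₁0 he0 he1
    hθe hθ0 hκ0 hκ1 1 le_rfl (by norm_num)
  obtain ⟨a2, ha2, ha2', T2, hT2, H2⟩ := clsY hδ0 hδ1 (by rw [hζ]; linarith : 1 / (2 + δ) ≤ ζ) hc hrl hc₁0 he0 he1
    hθe hθ0 hκ0 hκ1 2 (by norm_num) le_rfl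
  refine ⟨min a1 a2, lt_min ha1 ha2, (min_le_left _ _).trans ha1', max T1 T2, hT1.trans (le_max_left _ _), ?_⟩
  intro N hN Y z hY hYN hz hzN
  have hN1 : T1 ≤ N := (le_max_left _ _).trans hN
  have hN2 : T2 ≤ N := (le_max_right _ _).trans hN
  have hN3 : (1 : ℝ) ≤ N := by linarith
  have hzN1 : (z : ℝ) ≤ (N : ℝ) ^ a1 := hzN.trans (Real.rpow_le_rpow_of_exponent_le hN3 (min_le_left _ _))
  have hzN2 : (z : ℝ) ≤ (N : ℝ) ^ a2 := hzN.trans (Real.rpow_le_rpow_of_exponent_le hN3 (min_le_right _ _))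
  obtain ⟨b1, b2, b3, G1⟩ := H1 N hN1 Y z hY hYN hz hzN1
  obtain ⟨_, _, _, G2⟩ := H2 N hN2 Y z hY hYN hz hzN2
  refine ⟨b2, fun d R V hd hR hdR hV x b => ?_⟩
  obtain ⟨g1, g2, g3, g4, g5⟩ := G1 d R V hd hR hdR hV x b
  obtain ⟨_, _, _, _, k5⟩ := G2 d R V hd hR hdR hV x b
  set z₀ := ⌊e * Real.log N⌋₊ with hz₀
  set h := (Hb (d * W0 z₀) z Y b).card with hh
  set wr := Wr z₀ z with hwr
  have hwr0 : 0 < wr := Wr_pos z₀ z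
  have hz0r : (1 : ℝ) < z₀ := by exact_mod_cast (by omega : 1 < z₀)
  have hlz0 : 0 < Real.log z₀ := Real.log_pos hz0r
  have hzr : (1 : ℝ) < z := by exact_mod_cast (by omega : 1 < z)
  have hlz : 0 < Real.log z := Real.log_pos hzr
  have hY0 : (0 : ℝ) ≤ Y := Nat.cast_nonneg _
  have hrg0 : 0 ≤ rg z₀ (Finset.Ioc (0 : ℤ) (0 + (Y : ℤ))) b := le_trans (by positivity) g1
  have hlow : c₁ * (Y / Real.log z) ≤ wr * h := by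
    have h1 := hWr z₀ z b2 hz
    have h2 : c / 2 * (Y / Real.log z₀) ≤ h := by
      refine le_trans ?_ g2
      have h3 : (1 / 2) * rg z₀ (Finset.Ioc (0 : ℤ) (0 + (Y : ℤ))) b
          ≤ (1 - κ) * rg z₀ (Finset.Ioc (0 : ℤ) (0 + (Y : ℤ))) b := mul_le_mul_of_nonneg_right (by linarith) hrg0
      linarith
    calc c₁ * (Y / Real.log z) = (cw * (Real.log z₀ / Real.log z)) * (c / 2 * (Y / Real.log z₀)) := by
          rw [hc₁]; field_simp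
      _ ≤ wr * h := mul_le_mul h1 h2 (by positivity) hwr0.le
  have hμ3 : 3 / κ ≤ wr * h := by
    refine b1.trans (le_trans ?_ hlow)
    refine mul_le_mul_of_nonneg_left ?_ hc₁0.le
    have hl0 : 0 < Real.log N := lt_of_lt_of_le hlz b3
    rw [le_div_iff₀ hlz]
    calc (Real.log N) ^ (1 + δ) * Real.log z ≤ (Real.log N) ^ (1 + δ) * Real.log N :=
          mul_le_mul_of_nonneg_left b3 (by positivity)
      _ = (Real.log N) ^ (2 + δ) := by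
          nth_rewrite 2 [← Real.rpow_one (Real.log N)]
          rw [← Real.rpow_add hl0]; congr 1; ring
      _ ≤ Y := hY
  have h30 : 0 < 3 / κ := by positivity
  refine ⟨wr * h, hlow, by linarith, ?_, mul_le_mul_of_nonneg_left g3 hwr0.le, ?_⟩
  · have := mul_le_mul_of_nonneg_left g2 hwr0.le
    linarith
  have conv : ∀ k : ℕ, ∑ n ∈ Finset.Ioc x (x + N), (if ((d * W0 z₀ : ℕ) : ℤ) ∣ n - b then V n ^ 2 *
        (((SW.survivors (PP z) (Finset.Ioc (0 : ℤ) (0 + (Y : ℤ))) n).card.choose k : ℕ) : ℝ) else 0)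
      = ∑ n ∈ Finset.Ioc x (x + N), (if ((d * W0 z₀ : ℕ) : ℤ) ∣ n - b then V n ^ 2 else 0) *
        (((rc z Y n).choose k : ℕ) : ℝ) := fun k =>
    Finset.sum_congr rfl fun n _ => by rw [ite_mul, zero_mul]; rfl
  rw [conv] at g4 g5 k5
  refine var_of (fun n _ => ?_) (rc z Y) hκ0 hκ1 hwr0 hμ3 g4 g5 k5
  split_ifs
  · positivity
  · exact le_rfl

end Run7.h52.X7
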